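import Pool.Agent.H38.NP.Api

/-!
Every function computed by a polynomial-time machine is available in the `PT` calculus.
Consequences: closure under composition and statements of the form `... → P = NP`.
-/

namespace Pool.Agent.H36.Sim

open Pool.Agent.H38.NP Function Turing Turing.TM2

theorem sz_zip (A B : List (List ℕ)) : sz (List.zipWith (· ++ ·) A B) ≤ sz A + sz B := by
  induction A generalizing B with
  | nil => simp
  | cons a A ih =>
    cases B with
    | nil => simp
    | cons b B =>
      have := ih B
      simp only [List.zipWith_cons_cons, sz_cons, sz_append]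
      omega

theorem sz_drop (D : ℕ) (B : List (List ℕ)) : sz (B.map (List.drop D)) ≤ sz B := by
  induction B with
  | nil => simp
  | cons b B ih =>
    have := sz_le_of_sublist (List.drop_sublist D b)
    simp only [List.map_cons, sz_cons]
    omega

abbrev Cd := ℕ × List (List ℕ)

def stp (D : ℕ) (Tb : List (Cd × Cd)) (c : Cd) : Cd :=
  ((((Tb.find? fun e => e.1 == (c.1, c.2.map (List.take D))).map (·.2)).getD (0, [])).1,
   List.zipWith (· ++ ·)
    (((Tb.find? fun e => e.1 == (c.1, c.2.map (List.take D))).map (·.2)).getD (0, [])).2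
    (c.2.map (List.drop D)))

theorem sz_stp (D Tb c) : sz (stp D Tb c) ≤ sz c + (sz Tb + 1) := by
  unfold stp
  generalize hr : ((Tb.find? fun e => e.1 == (c.1, c.2.map (List.take D))).map (·.2)).getD (0, []) = r
  have h : sz r ≤ sz Tb + 1 := by
    rw [← hr]
    cases e : Tb.find? fun e => e.1 == (c.1, c.2.map (List.take D)) with
    | none => simp [sz_prod]
    | some p =>
      have := sz_le_of_mem (List.mem_of_find?_eq_some e)
      rw [sz_prod] at this
      simp only [Option.map_some, Option.getD_some]
      omega
  have h1 := sz_zip r.2 (c.2.map (List.drop D))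
  have h2 := sz_drop D c.2
  rw [sz_prod] at h ⊢
  rw [sz_prod c]
  simp only
  omega

theorem pt_of_polyTime {f : List Bool → List Bool} (hf : PolyTime f) :
    PT fun x : Bits => (⟨f x.val⟩ : Bits) := by
  classical
  obtain ⟨⟨⟨tm, ia, oa⟩, τ, hout⟩⟩ := hf
  have := tm.kFin
  have := tm.ΛFin
  have := tm.σFin
  let M := tm.m
  let G : Set (Σ k, tm.Γ k) := (⋃ l, syms (M l)) ∪ Set.range fun b : Bool => ⟨tm.k₀, ia.symm b⟩
  have hGf : G.Finite := (Set.finite_iUnion fun l => syms_finite _).union (Set.finite_range _)
  have hG : ∀ l, syms (M l) ⊆ G := fun l x hx => Or.inl (Set.mem_iUnion.2 ⟨l, hx⟩)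
  let D := Finset.univ.sup fun l => depth (M l)
  have hD : ∀ l, depth (M l) ≤ D := fun l =>
    Finset.le_sup (f := fun l => depth (M l)) (Finset.mem_univ l)
  let ks : List tm.K := Finset.univ.toList
  have hks : ∀ k, k ∈ ks := fun k => by simp [ks]
  let c0 : List Bool → Cfg tm.Γ tm.Λ tm.σ := fun u => initList tm (u.map ia.symm)
  have hgood0 : ∀ u, Good G (c0 u).stk := by
    intro u k a ha
    by_cases e : k = tm.k₀
    · subst e
      simp only [c0, initList_k0, List.mem_map] at ha
      obtain ⟨b, -, rfl⟩ := ha
      exact Or.inr ⟨b, rfl⟩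
    · simp [c0, initList_ne tm _ e] at ha
  have hgood : ∀ u t, Good G ((nxt M)^[t] (c0 u)).stk := by
    intro u t
    induction t with
    | zero => exact hgood0 u
    | succ t ih => rw [iterate_succ_apply']; exact good_nxt M hG _ ih
  have hrun : ∀ (u : List Bool),
      ((nxt M)^[τ.eval u.length] (c0 u)).stk tm.k₁ = (f u).map oa.symm := by
    intro u
    have h := hout u
    exact (congrArg (fun c => c.stk tm.k₁)
      (iter_nxt_le M h.steps_le_m rfl h.evals_in_steps)).trans (haltList_k1 _ _)
  let sy : ∀ k, tm.Γ k → ℕ := fun k a => hGf.toFinset.toList.idxOf ⟨k, a⟩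
  have hsy : ∀ k a b, (⟨k, a⟩ : Σ k, tm.Γ k) ∈ G → sy k a = sy k b → a = b := by
    intro k a b ha e
    have := (List.idxOf_inj (by simpa using ha)).1 e
    simpa using this
  let st : Option tm.Λ × tm.σ → ℕ := fun s => Finset.univ.toList.idxOf s
  have hst : ∀ a b, st a = st b → a = b := fun a b e => (List.idxOf_inj (by simp)).1 e
  let cd : Cfg tm.Γ tm.Λ tm.σ → Cd := fun c =>
    (st (c.l, c.var), ks.map fun k => (c.stk k).map (sy k))
  have hcd : ∀ a b, Good G a.stk → cd a = cd b → a = b := by
    rintro ⟨l, v, S⟩ ⟨l', v', S'⟩ ha e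
    simp only [cd, Prod.mk.injEq, List.map_inj_left] at e
    obtain ⟨rfl, rfl⟩ := Prod.mk.inj (hst _ _ e.1)
    congr 1
    funext k
    have h1 := e.2 k (hks k)
    have h2 := ha k
    simp only at h2
    generalize S k = s at h1 h2
    generalize S' k = s' at h1
    induction s generalizing s' with
    | nil => cases s' <;> simp_all
    | cons a s ih =>
      cases s' with
      | nil => simp at h1
      | cons b s' =>
        simp only [List.map_cons, List.cons.injEq] at h1
        rw [hsy k a b (h2 a (by simp)) h1.1, ih (fun x hx => h2 x (by simp [hx])) s' h1.2]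
  let Tb : List (Cd × Cd) := (wins_finite (Λ := tm.Λ) (σ := tm.σ) hGf D).toFinset.toList.map
    fun ω => (cd ω, cd (nxt M ω))
  have hstp : ∀ c, Good G c.stk → stp D Tb (cd c) = cd (nxt M c) := by
    intro c hc
    have hw : win D c ∈ Wins G D :=
      ⟨fun k a ha => hc k a (List.mem_of_mem_take ha), fun k => by simp [win]⟩
    have e1 : ((cd c).1, (cd c).2.map (List.take D)) = cd (win D c) := by
      simp [cd, win, List.map_take]
    have e2 : Tb.find? (fun e => e.1 == cd (win D c)) = some (cd (win D c), cd (nxt M (win D c))) := by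
      cases e : Tb.find? (fun e => e.1 == cd (win D c)) with
      | none =>
        have := List.find?_eq_none.1 e (cd (win D c), cd (nxt M (win D c)))
          (List.mem_map.2 ⟨_, by simpa using hw, rfl⟩)
        simp at this
      | some p =>
        have h1 := List.find?_some e
        obtain ⟨ω, -, rfl⟩ := List.mem_map.1 (List.mem_of_find?_eq_some e)
        rw [hcd _ _ hw.1 (beq_iff_eq.1 h1).symm]
    unfold stp
    rw [e1, e2, nxt_win M hD c]
    simp [cd, ext, List.zipWith_map, List.map_drop]
  have hit : ∀ u t, (stp D Tb)^[t] (cd (c0 u)) = cd ((nxt M)^[t] (c0 u)) := by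
    intro u t
    induction t with
    | zero => rfl
    | succ t ih => rw [iterate_succ_apply', iterate_succ_apply', ih, hstp _ (hgood u t)]
  have hi : PT fun x : Bits => cd (c0 x.val) := by
    have : PT fun x : Bits => (st ((c0 []).l, (c0 []).var),
        (ks.map fun k => decide (k = tm.k₀)).map fun b =>
          cond b (x.val.map fun y => cond y (sy _ (ia.symm true)) (sy _ (ia.symm false))) []) := by
      fun_prop
    refine this.of_eq fun x => ?_
    simp only [cd, List.map_map]
    congr 1
    refine List.map_congr_left fun k _ => ?_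
    by_cases e : k = tm.k₀
    · subst e
      simp only [c0, initList_k0, List.map_map, comp, decide_true, cond_true]
      exact List.map_congr_left fun y _ => by cases y <;> rfl
    · simp [c0, initList_ne tm _ e, e]
  have hn : PT fun x : Bits => τ.eval x.val.length := PT.polyEval τ (by fun_prop)
  have hI := PT.iterate (step := fun (_ : Bits) c => stp D Tb c) (by unfold stp; fun_prop) hn hi
    (B := fun x => sz (cd (c0 x.val)) + τ.eval x.val.length * (sz Tb + 1))
    (hi.pb.add (hn.nat_pb.mul (PB.const _))) (fun x i h => by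
      refine le_trans ?_ (Nat.add_le_add_left (Nat.mul_le_mul_right _ h) _)
      clear h
      induction i with
      | zero => simp
      | succ i ih =>
        rw [iterate_succ_apply']
        have := sz_stp D Tb ((fun c => stp D Tb c)^[i] (cd (c0 x.val)))
        rw [Nat.succ_mul]
        omega)
  have hO : PT fun c : Cd => Bits.mk ((c.2.getD (ks.idxOf tm.k₁) []).map
      fun n => decide (n = sy _ (oa.symm true))) := by fun_prop
  refine (hO.comp hI).of_eq fun x => ?_
  rw [hit]
  have hl := List.idxOf_lt_length_of_mem (hks tm.k₁)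
  have hg := hgood x.val (τ.eval x.val.length) tm.k₁
  congr 1
  have : (cd ((nxt M)^[τ.eval x.val.length] (c0 x.val))).2.getD (ks.idxOf tm.k₁) [] =
      ((f x.val).map oa.symm).map (sy _) := by
    rw [← hrun]
    simp only [cd, List.getD_eq_getElem?_getD, List.getElem?_map]
    rw [List.getElem?_idxOf (hks _)]
    rfl
  rw [this, List.map_map, List.map_map]
  rw [hrun] at hg
  conv_rhs => rw [← List.map_id (f x.val)]
  refine List.map_congr_left fun b hb => ?_
  cases b
  · simp only [comp, id, decide_eq_false_iff_not]
    intro e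
    simpa using hsy _ _ _ (hg _ (List.mem_map_of_mem hb)) e
  · simp

variable {α β : Type} [Enc α] [Enc β]

/-- If a polynomial-time machine, run on codes of `g x`, gives outputs from which a `PT` test
recovers `P`, and `P` is NP-hard, then P = NP. -/
theorem collapse {C P : α → Prop} (h : NPH C P) {F : List Bool → List Bool} (hF : PolyTime F)
    (r : α → β) (hr : PT r) (t : α → Bits → Bool) (ht : PT fun p : α × Bits => t p.1 p.2)
    (e : ∀ a, C a → (P a ↔ t a ⟨F (enc (r a))⟩ = true)) : ∀ A, InNP A → InP A := by
  intro A hA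
  obtain ⟨g, hg, hx⟩ := h A hA
  have h1 : PT fun x : Bits => (⟨F (enc (r (g x)))⟩ : Bits) :=
    (pt_of_polyTime hF).comp (hr.comp hg).raw
  exact inP_of_pt (fun x => t (g x) ⟨F (enc (r (g x)))⟩) (ht.comp (hg.mk h1)) fun x =>
    (hx x).2.trans (e _ (hx x).1)

end Pool.Agent.H36.Sim
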