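import Pool.Agent.H36.Par

/-!
Fixed-parameter iteration, enumeration of words, and small integer programs by halving.
-/

namespace Pool.Agent.H36.Par

open Pool.Agent.H38.NP Function

variable {α β γ σ : Type} [Enc α] [Enc β] [Enc γ] [Enc σ] {κ : α → ℕ}

theorem FT.of_eq {f g : α → β} (h : FT κ f) (e : ∀ a, f a = g a) : FT κ g :=
  (funext e : f = g) ▸ h

theorem FT.iterate {step : β → σ → σ} (hs : PT fun p : β × σ => step p.1 p.2) {c : α → β}
    (hc : FT κ c) {n : α → ℕ} (hn : FT κ n) {init : α → σ} (hi : FT κ init) {B : α → ℕ}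
    (hB : FB κ B) (hb : ∀ a, ∀ i ≤ n a, sz ((step (c a))^[i] (init a)) ≤ B a) :
    FT κ fun a => (step (c a))^[n a] (init a) := by
  have h1 : PT fun p : β × σ => (p.1, step p.1 p.2) := by fun_prop
  have h0 := hn.mk (hc.mk hi)
  have hnb : FB κ n := hn.fb.mono fun a => by simp
  obtain ⟨p, q, h⟩ := h1
  obtain ⟨p0, t0, ht0, h0⟩ := h0
  have hB' : FB κ fun a => 2 * sz (c a) + 1 + B a :=
    (((FB.const 2).mul hc.fb).add (FB.const 1)).add hB
  have : FT κ fun a => (c a, (step (c a))^[n a] (init a)) := by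
    refine ⟨.seq p0 (iterP p), _, ht0.add ((hnb.mul ((hB'.eval q).add (FB.const 2))).add
        ((FB.const 50).mul (((hnb.add hB').add hB').add (FB.const 1)))), fun a => ?_⟩
    refine Run.seq (h0 a) ?_
    have hs : ∀ i ≤ n a, sz (c a, (step (c a))^[i] (init a)) ≤ 2 * sz (c a) + 1 + B a :=
      fun i hi => by rw [sz_prod]; exact Nat.add_le_add_left (hb a i hi) _
    have := Comp.iter (p := p) (q.eval (2 * sz (c a) + 1 + B a)) (enc (n a))
      (fun i => enc (c a, (step (c a))^[i] (init a))) (fun i hi => by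
        rw [iterate_succ_apply']
        exact (h (c a, (step (c a))^[i] (init a))).mono (eval_mono q (hs i (by
          simp at hi; omega))))
    simp only [enc_nat, List.length_replicate] at this
    refine this.mono ?_
    have h1 := hs 0 (Nat.zero_le _)
    have h2 := hs _ le_rfl
    simp only [sz] at h1 h2 ⊢
    omega
  exact FT.comp (f := fun p : β × σ => p.2) (by fun_prop) this

/-- bounded in terms of the parameter -/
def CB (κ : α → ℕ) (t : α → ℕ) : Prop := ∃ h : ℕ → ℕ, Computable h ∧ ∀ a, t a ≤ h (κ a)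

section
omit [Enc α]
theorem CB.mono {t u : α → ℕ} (h : CB κ u) (e : ∀ a, t a ≤ u a) : CB κ t :=
  let ⟨f, hf, hq⟩ := h; ⟨f, hf, fun a => (e a).trans (hq a)⟩
theorem CB.const (c : ℕ) : CB κ fun _ => c := ⟨_, comp_c c, fun _ => le_rfl⟩
theorem CB.par : CB κ κ := ⟨_, comp_id, fun _ => le_rfl⟩
theorem CB.add {t u : α → ℕ} (h : CB κ t) (h' : CB κ u) : CB κ fun a => t a + u a :=
  let ⟨_, hf, hq⟩ := h; let ⟨_, hg, hr⟩ := h'
  ⟨_, comp_add hf hg, fun a => Nat.add_le_add (hq a) (hr a)⟩
theorem CB.mul {t u : α → ℕ} (h : CB κ t) (h' : CB κ u) : CB κ fun a => t a * u a :=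
  let ⟨_, hf, hq⟩ := h; let ⟨_, hg, hr⟩ := h'
  ⟨_, comp_mul hf hg, fun a => Nat.mul_le_mul (hq a) (hr a)⟩
theorem CB.pow {t u : α → ℕ} (h : CB κ t) (h' : CB κ u) : CB κ fun a => t a ^ u a :=
  let ⟨_, hf, hq⟩ := h; let ⟨_, hg, hr⟩ := h'
  ⟨_, comp_pow (comp_add hf (comp_c 1)) hg, fun a =>
    (Nat.pow_le_pow_left ((hq a).trans (Nat.le_succ _)) _).trans
      (Nat.pow_le_pow_right (Nat.succ_pos _) (hr a))⟩
end
theorem CB.fb {t : α → ℕ} (h : CB κ t) : FB κ t :=
  let ⟨_, hf, hq⟩ := h; (FB.par hf).mono hq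

/-- a polynomial-time function of a parameter-bounded value has parameter-bounded size -/
theorem CB.pt {f : β → γ} (hf : PT f) {g : α → β} (h : CB κ fun a => sz (g a)) :
    CB κ fun a => sz (f (g a)) := by
  obtain ⟨q, hq⟩ := hf.pb
  refine CB.mono (u := fun a => q.eval (sz (g a))) ?_ fun a => hq _
  clear hq
  induction q using Polynomial.induction_on with
  | C c => simpa using CB.const c
  | add p q hp hq => simpa using hp.add hq
  | monomial n c hp =>
    refine (hp.mul h).mono fun a => le_of_eq ?_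
    simp [pow_succ, mul_assoc]

omit [Enc α] in
theorem CB.pair {f : α → β} {g : α → γ} (hf : CB κ fun a => sz (f a))
    (hg : CB κ fun a => sz (g a)) : CB κ fun a => sz (f a, g a) :=
  ((((CB.const 2).mul hf).add (CB.const 1)).add hg).mono fun _ => (sz_prod _).le

/-! ### words -/

def wstep {β : Type} (A : List β) (acc : List (List β)) : List (List β) :=
  A.flatMap fun x => acc.map (x :: ·)

/-- all words of length `n` over `A` -/
def words {β : Type} (A : List β) (n : ℕ) : List (List β) := (wstep A)^[n] [[]]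

omit [Enc β] in
theorem mem_words {A : List β} {n} {w : List β} :
    w ∈ words A n ↔ w.length = n ∧ ∀ x ∈ w, x ∈ A := by
  induction n generalizing w with
  | zero => simp [words, List.length_eq_zero_iff]; rintro rfl; simp
  | succ n ih =>
    rw [words, iterate_succ_apply', ← words]
    simp only [wstep, List.mem_flatMap, List.mem_map, ih]
    constructor
    · rintro ⟨x, hx, w, ⟨h1, h2⟩, rfl⟩
      exact ⟨by simp [h1], by simpa [hx] using h2⟩
    · rintro ⟨h1, h2⟩
      obtain _ | ⟨x, w⟩ := w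
      · simp at h1
      · exact ⟨x, h2 x (by simp), w, ⟨by simpa using h1, fun y hy => h2 y (by simp [hy])⟩, rfl⟩

omit [Enc β] in
theorem length_words (A : List β) (n) : (words A n).length = A.length ^ n := by
  induction n with
  | zero => rfl
  | succ n ih =>
    rw [words, iterate_succ_apply', ← words]
    simp [wstep, List.length_flatMap, ih, pow_succ']

theorem sz_words (A : List β) {i n} (h : i ≤ n) :
    sz (words A i) ≤ (sz A + 1) ^ n * (2 * (n * (2 * sz A + 1)) + 1) := by
  refine (sz_le_of_forall (B := n * (2 * sz A + 1)) fun w hw => ?_).trans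
    (Nat.mul_le_mul_right _ ?_)
  · obtain ⟨h1, h2⟩ := mem_words.1 hw
    refine (sz_le_of_forall fun x hx => sz_le_of_mem (h2 x hx)).trans ?_
    exact Nat.mul_le_mul_right _ (by omega)
  · rw [length_words]
    exact (Nat.pow_le_pow_left ((length_le_sz A).trans (Nat.le_succ _)) _).trans
      (Nat.pow_le_pow_right (Nat.succ_pos _) h)

omit [Enc α] in
theorem CB.words {A : α → List β} {n : α → ℕ} (hA : CB κ fun a => sz (A a)) (hn : CB κ n) :
    CB κ fun a => sz (words (A a) (n a)) :=
  (((hA.add (CB.const 1)).pow hn).mul (((CB.const 2).mul (hn.mul (((CB.const 2).mul hA).add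
    (CB.const 1)))).add (CB.const 1))).mono fun _ => sz_words _ le_rfl

theorem FT.words {A : α → List β} {n : α → ℕ} (h : FT κ A) (h' : FT κ n)
    (hA : CB κ fun a => sz (A a)) (hn : CB κ n) : FT κ fun a => words (A a) (n a) :=
  FT.iterate (step := wstep) (by unfold wstep; fun_prop) h h' (FT.of_pt (PT.const _))
    (((hA.add (CB.const 1)).pow hn).mul (((CB.const 2).mul (hn.mul (((CB.const 2).mul hA).add
    (CB.const 1)))).add (CB.const 1))).fb fun _ _ hi => sz_words _ hi

/-! ### removing duplicates -/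

def dd {β : Type} [DecidableEq β] (l : List β) : List β :=
  l.foldr (fun x acc => if x ∈ acc then acc else x :: acc) []

omit [Enc β] in
theorem dd_spec [DecidableEq β] (l : List β) :
    (dd l).Sublist l ∧ (dd l).Nodup ∧ ∀ x, x ∈ dd l ↔ x ∈ l := by
  induction l with
  | nil => simp [dd]
  | cons y l ih =>
    have e : dd (y :: l) = if y ∈ dd l then dd l else y :: dd l := rfl
    rw [e]
    split_ifs with h
    · refine ⟨ih.1.cons _, ih.2.1, fun x => ?_⟩
      rw [ih.2.2, List.mem_cons]
      exact ⟨Or.inr, fun h' => h'.elim (fun e => e ▸ (ih.2.2 y).1 h) id⟩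
    · exact ⟨ih.1.cons_cons _, List.nodup_cons.2 ⟨h, ih.2.1⟩, fun x => by simp [ih.2.2]⟩

@[fun_prop] theorem pt_dd [EncInj β] [DecidableEq β] {l : α → List β} (hl : PT l) :
    PT fun a => dd (l a) :=
  PT.foldr (f := fun _ x acc => if x ∈ acc then acc else x :: acc) (by fun_prop) hl (PT.const _)
    hl.pb fun a k => sz_le_of_sublist ((dd_spec _).1.trans (List.drop_sublist _ _))

/-! ### integer programs -/

def dot (x c : List ℕ) : ℕ := (List.zipWith (· * ·) x c).sum

/-- the row `(c, d, k, l)` stands for `x·c + k ≤ x·d + l` -/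
abbrev Row := List ℕ × List ℕ × ℕ × ℕ

def Sat (s : List Row) (x : List ℕ) : Prop :=
  ∀ r ∈ s, dot x r.1 + r.2.2.1 ≤ dot x r.2.1 + r.2.2.2

def upd (d : List ℕ) (r : Row) : Row :=
  (r.1, r.2.1, (r.2.2.1 + dot d r.1 - (r.2.2.2 + dot d r.2.1) + 1) / 2,
    (r.2.2.2 + dot d r.2.1 - (r.2.2.1 + dot d r.1)) / 2)

def nrm (r : Row) : Row := (r.1, r.2.1, r.2.2.1 - r.2.2.2, r.2.2.2 - r.2.2.1)

def istep (D : List (List ℕ)) (S : List (List Row)) : List (List Row) :=
  dd (S.flatMap fun s => D.map fun d => s.map (upd d))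

def ilp (R L : ℕ) (S : List (List Row)) : Bool :=
  ((istep (words [0, 1] R))^[L] (dd (S.map fun s => s.map nrm))).any fun s =>
    s.all fun r => decide (r.2.2.1 ≤ r.2.2.2)

theorem dot_dbl : ∀ (x d c : List ℕ), x.length = d.length →
    dot (List.zipWith (fun a b => 2 * a + b) x d) c = 2 * dot x c + dot d c
  | [], [], _, _ => by simp [dot]
  | _ :: _, _ :: _, [], _ => by simp [dot]
  | a :: x, b :: d, e :: c, h => by
    have := dot_dbl x d c (by simpa using h)
    simp only [dot, List.zipWith_cons_cons, List.sum_cons] at this ⊢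
    rw [this]; ring

theorem dot_zero : ∀ (x c : List ℕ), (∀ a ∈ x, a = 0) → dot x c = 0
  | [], _, _ => by simp [dot]
  | _ :: _, [], _ => by simp [dot]
  | a :: x, e :: c, h => by
    have := dot_zero x c fun b hb => h b (by simp [hb])
    simp only [dot, List.zipWith_cons_cons, List.sum_cons] at this ⊢
    simp [this, h a]

theorem dot_le : ∀ (x c : List ℕ), (∀ a ∈ x, a ≤ 1) → dot x c ≤ sz c
  | [], _, _ => by simp [dot]
  | _ :: _, [], _ => by simp [dot]
  | a :: x, e :: c, h => by
    have := dot_le x c fun b hb => h b (by simp [hb])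
    simp only [dot, List.zipWith_cons_cons, List.sum_cons, sz_cons, sz_nat] at this ⊢
    have := Nat.mul_le_mul_right e (h a (by simp))
    omega

theorem sat_upd {s x d} (h : x.length = d.length) :
    Sat (s.map (upd d)) x ↔ Sat s (List.zipWith (fun a b => 2 * a + b) x d) := by
  simp only [Sat, List.forall_mem_map, dot_dbl x d _ h, upd]
  exact forall₂_congr fun r _ => by omega

theorem iter_spec (R L : ℕ) : ∀ S : List (List Row),
    (((istep (words [0, 1] R))^[L] S).any fun s => s.all fun r => decide (r.2.2.1 ≤ r.2.2.2)) = true ↔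
      ∃ s ∈ S, ∃ x : List ℕ, x.length = R ∧ (∀ a ∈ x, a < 2 ^ L) ∧ Sat s x := by
  induction L with
  | zero =>
    intro S
    simp only [iterate_zero, id, List.any_eq_true, List.all_eq_true, decide_eq_true_eq, pow_zero,
      Nat.lt_one_iff]
    refine exists_congr fun s => and_congr_right fun _ => ⟨fun h => ⟨List.replicate R 0, by simp,
      by simp, fun r hr => ?_⟩, fun ⟨x, _, h2, h3⟩ r hr => ?_⟩
    · rw [dot_zero _ _ (by simp), dot_zero _ _ (by simp)]; simpa using h r hr
    · simpa [dot_zero _ _ h2] using h3 r hr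
  | succ L ih =>
    intro S
    rw [iterate_succ_apply, ih]
    simp only [istep, (dd_spec _).2.2, List.mem_flatMap, List.mem_map, mem_words]
    constructor
    · rintro ⟨_, ⟨s, hs, d, ⟨h1, h2⟩, rfl⟩, x, h3, h4, h5⟩
      refine ⟨s, hs, _, by simp [h1, h3], fun a ha => ?_, (sat_upd (h3.trans h1.symm)).1 h5⟩
      obtain ⟨i, hi, rfl⟩ := List.getElem_of_mem ha
      simp only [List.length_zipWith] at hi
      have := h4 x[i] (List.getElem_mem _)
      have := h2 d[i] (List.getElem_mem _)
      simp only [List.mem_cons, List.not_mem_nil, or_false] at this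
      rw [List.getElem_zipWith, pow_succ]; omega
    · rintro ⟨s, hs, x, h1, h2, h3⟩
      refine ⟨_, ⟨s, hs, x.map (· % 2), ⟨by simpa using h1, by simp; omega⟩, rfl⟩, x.map (· / 2),
        by simpa using h1, fun a ha => ?_, (sat_upd (by simp)).2 ?_⟩
      · obtain ⟨b, hb, rfl⟩ := List.mem_map.1 ha
        have := h2 b hb
        rw [pow_succ] at this; omega
      · simpa [List.zipWith_map, List.zipWith_self, Nat.div_add_mod] using h3

theorem ilp_spec {R L S} : ilp R L S = true ↔
    ∃ s ∈ S, ∃ x : List ℕ, x.length = R ∧ (∀ a ∈ x, a < 2 ^ L) ∧ Sat s x := by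
  rw [ilp, iter_spec]
  have : ∀ (s : List Row) x, Sat (s.map nrm) x ↔ Sat s x := fun s x => by
    simp only [Sat, List.forall_mem_map, nrm]
    exact forall₂_congr fun r _ => by omega
  simp only [(dd_spec _).2.2, List.mem_map, exists_exists_and_eq_and, this]

/-- candidates for a row after `i` halvings -/
def cand (D i : ℕ) (r : Row) : List Row :=
  (List.range (2 * D + 1)).map fun e : ℕ => (r.1, r.2.1,
    (-((fun z : ℤ => z / 2)^[i] ((r.2.2.2 : ℤ) - r.2.2.1) - D + e)).toNat,
    ((fun z : ℤ => z / 2)^[i] ((r.2.2.2 : ℤ) - r.2.2.1) - D + e).toNat)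

theorem half_abs (i : ℕ) (z : ℤ) : ((fun z : ℤ => z / 2)^[i] z).natAbs ≤ z.natAbs := by
  induction i with
  | zero => rfl
  | succ i ih => rw [iterate_succ_apply']; omega

theorem iter_cand {R D : ℕ} {S : List (List Row)}
    (hD : ∀ s ∈ S, ∀ r ∈ s, sz r.1 + sz r.2.1 + 1 ≤ D) (i : ℕ) :
    ((istep (words [0, 1] R))^[i] (dd (S.map fun s => s.map nrm))).Nodup ∧
    ∀ t ∈ (istep (words [0, 1] R))^[i] (dd (S.map fun s => s.map nrm)),
      ∃ s ∈ S, List.Forall₂ (fun r' r => r' ∈ cand D i r) t s := by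
  induction i with
  | zero =>
    refine ⟨(dd_spec _).2.1, fun t ht => ?_⟩
    obtain ⟨s, hs, rfl⟩ := List.mem_map.1 (((dd_spec _).2.2 _).1 ht)
    refine ⟨s, hs, ?_⟩
    rw [List.forall₂_map_left_iff, List.forall₂_same]
    intro r _
    refine List.mem_map.2 ⟨D, List.mem_range.2 (by omega), ?_⟩
    simp only [iterate_zero, id, nrm, Prod.mk.injEq, true_and]
    omega
  | succ i ih =>
    rw [iterate_succ_apply']
    refine ⟨(dd_spec _).2.1, fun t ht => ?_⟩
    simp only [istep, (dd_spec _).2.2, List.mem_flatMap, List.mem_map, mem_words] at ht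
    obtain ⟨t, ht, d, ⟨-, hd⟩, rfl⟩ := ht
    obtain ⟨s, hs, h⟩ := ih.2 t ht
    refine ⟨s, hs, ?_⟩
    rw [List.forall₂_map_left_iff]
    have hs' := hD s hs
    clear hs ht
    induction h with
    | nil => exact .nil
    | @cons r' r _ _ h _ ih' =>
      refine .cons ?_ (ih' fun r hr => hs' r (by simp [hr]))
      have h0 := hs' r (by simp)
      obtain ⟨e, he, rfl⟩ := List.mem_map.1 h
      have he := List.mem_range.1 he
      have hd' : ∀ a ∈ d, a ≤ 1 := fun a ha => by have := hd a ha; simp at this; omega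
      have h1 := dot_le d r.1 hd'
      have h2 := dot_le d r.2.1 hd'
      simp only [cand, iterate_succ_apply', upd]
      generalize (fun z : ℤ => z / 2)^[i] ((r.2.2.2 : ℤ) - r.2.2.1) = z
      refine List.mem_map.2 ⟨((z - D + e + dot d r.2.1 - dot d r.1) / 2 - z / 2 + D).toNat,
        List.mem_range.2 (by omega), ?_⟩
      simp only [Prod.mk.injEq, true_and]
      omega

theorem length_sections {β : Type} {B : ℕ} : ∀ L : List (List β), (∀ l ∈ L, l.length ≤ B) →
    L.sections.length ≤ B ^ L.length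
  | [], _ => by simp
  | l :: L, h => by
    have := length_sections L fun l hl => h l (by simp [hl])
    have h0 := h l (by simp)
    simp only [List.sections, List.length_flatMap, List.length_map, List.map_const',
      List.sum_replicate, smul_eq_mul, List.length_cons, pow_succ]
    exact Nat.mul_le_mul this h0

theorem sz_iter {R D m K : ℕ} {S : List (List Row)}
    (hD : ∀ s ∈ S, s.length ≤ m ∧ ∀ r ∈ s, sz r.1 + sz r.2.1 + 1 ≤ D ∧ sz r ≤ K) (i : ℕ) :
    sz ((istep (words [0, 1] R))^[i] (dd (S.map fun s => s.map nrm))) ≤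
      S.length * (2 * D + 1) ^ m * (2 * (m * (2 * (20 * (K + D + 1)) + 1)) + 1) := by
  obtain ⟨h1, h2⟩ := iter_cand (R := R) (fun s hs r hr => ((hD s hs).2 r hr).1) i
  refine (sz_le_of_forall (B := m * (2 * (20 * (K + D + 1)) + 1)) fun t ht => ?_).trans
    (Nat.mul_le_mul_right _ ?_)
  · obtain ⟨s, hs, h⟩ := h2 t ht
    refine (sz_le_of_forall fun r' hr' => ?_).trans
      (Nat.mul_le_mul_right _ (h.length_eq.trans_le (hD s hs).1))
    obtain ⟨j, hj, rfl⟩ := List.getElem_of_mem hr'
    have hj' := hj.trans_eq h.length_eq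
    obtain ⟨e, he, e2⟩ := List.mem_map.1 (h.get hj hj')
    have he := List.mem_range.1 he
    have h3 := (hD s hs).2 s[j] (List.getElem_mem _)
    have h4 := half_abs i ((s[j].2.2.2 : ℤ) - s[j].2.2.1)
    simp only [List.get_eq_getElem] at e2
    rw [← e2]
    simp only [sz_prod, sz_nat] at h3 ⊢
    omega
  · have : ((istep (words [0, 1] R))^[i] (dd (S.map fun s => s.map nrm))).Subperm
        (S.flatMap fun s => (s.map (cand D i)).sections) := by
      refine h1.subperm fun t ht => ?_
      obtain ⟨s, hs, h⟩ := h2 t ht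
      exact List.mem_flatMap.2 ⟨s, hs, List.mem_sections.2 (List.forall₂_map_right_iff.2 h)⟩
    refine this.length_le.trans ?_
    rw [List.length_flatMap]
    refine (List.sum_le_card_nsmul _ ((2 * D + 1) ^ m) ?_).trans (by simp)
    simp only [List.mem_map]
    rintro _ ⟨s, hs, rfl⟩
    refine (length_sections (B := 2 * D + 1) _ fun l hl => ?_).trans ?_
    · obtain ⟨r, -, rfl⟩ := List.mem_map.1 hl
      simp [cand]
    exact Nat.pow_le_pow_right (by omega) (by simpa using (hD s hs).1)

@[fun_prop] theorem pt_dot {x c : α → List ℕ} (hx : PT x) (hc : PT c) :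
    PT fun a => dot (x a) (c a) := by unfold dot; fun_prop

theorem FT.ilp {R L D m : α → ℕ} {S : α → List (List Row)} (hR : FT κ R) (hL : FT κ L)
    (hS : FT κ S) (bR : CB κ R) (bD : CB κ D) (bm : CB κ m)
    (hD : ∀ a, ∀ s ∈ S a, s.length ≤ m a ∧ ∀ r ∈ s, H38.NP.sz r.1 + H38.NP.sz r.2.1 + 1 ≤ D a) :
    FT κ fun a => ilp (R a) (L a) (S a) := by
  have h1 : FT κ fun a => Par.words [0, 1] (R a) :=
    FT.words (FT.of_pt (PT.const _)) hR (CB.const _) bR
  have hl : FB κ fun a => (S a).length := hS.fb.mono fun a => length_le_sz _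
  have h2 := FT.iterate (step := istep) (by unfold istep upd; fun_prop) h1 hL
    (FT.comp (f := fun S : List (List Row) => dd (S.map fun s => s.map nrm))
      (by unfold nrm; fun_prop) hS)
    ((hl.mul ((((CB.const 2).mul bD).add (CB.const 1)).pow bm).fb).mul (((FB.const 2).mul
      (bm.fb.mul (((FB.const 2).mul ((FB.const 20).mul ((hS.fb.add bD.fb).add (FB.const 1)))).add
      (FB.const 1)))).add (FB.const 1)))
    fun a i _ => sz_iter (fun s hs => ⟨(hD a s hs).1, fun r hr => ⟨(hD a s hs).2 r hr,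
      (sz_le_of_mem hr).trans (sz_le_of_mem hs)⟩⟩) i
  exact FT.comp (f := fun T : List (List Row) => T.any fun s =>
    s.all fun r => decide (r.2.2.1 ≤ r.2.2.2)) (by fun_prop) h2

end Pool.Agent.H36.Par
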