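import Pool.Agent.H38.NP.Defs

/-!
Parameterized problems over bit-string codes: fixed-parameter tractability, parameterized
reductions, and the two standard source problems Clique and Dominating Set.
-/

namespace Pool.Agent.H36.Par

open Pool.Agent.H38.NP

/-- The decision problem `P` with parameter `κ`, restricted to inputs in `C`, is fixed-parameter
tractable: one deterministic machine (Mathlib `FinTM2`) answers every input in `C` within
`f (κ a) * (length + 1) ^ c` steps, for a computable `f` and a constant `c`. -/
def FPTOn {α : Type} [Enc α] (C P : α → Prop) (κ : α → ℕ) : Prop :=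
  ∃ (M : Turing.TM2ComputableAux Bool Bool) (f : ℕ → ℕ) (c : ℕ), Computable f ∧
    ∀ a, C a → ∃ b : Bool, (P a ↔ b = true) ∧
      Nonempty (Turing.TM2OutputsInTime M.tm ((enc a).map M.inputAlphabet.invFun)
        (some ([b].map M.outputAlphabet.invFun)) (f (κ a) * ((enc a).length + 1) ^ c))

/-- A parameterized reduction computed in polynomial time, from `P` with parameter `κ` to `Q` with
parameter `μ` restricted to inputs in `C`: the new parameter is bounded by a computable function
of the old one. -/
def PReduces {α β : Type} [Enc α] [Enc β] (P : α → Prop) (κ : α → ℕ) (C Q : β → Prop)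
    (μ : β → ℕ) : Prop :=
  ∃ f, PolyTime f ∧ ∃ g : ℕ → ℕ, Computable g ∧
    ∀ a, ∃ b, f (enc a) = enc b ∧ C b ∧ (P a ↔ Q b) ∧ μ b ≤ g (κ a)

/-- graph (number of vertices, edge list) with a number -/
abbrev GK := ℕ × List (ℕ × ℕ) × ℕ

/-- Clique: the graph has a clique with `k` vertices. -/
def Clique (p : GK) : Prop := ∃ S : Finset (Fin p.1), (graphOf p.1 p.2.1).IsNClique p.2.2 S

/-- Dominating Set: the graph has a dominating set with at most `k` vertices. -/
def DomSet (p : GK) : Prop :=
  ∃ S : Finset (Fin p.1), S.card ≤ p.2.2 ∧ ∀ v, v ∈ S ∨ ∃ u ∈ S, (graphOf p.1 p.2.1).Adj u v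

/-- the parameter `k` of Clique and Dominating Set -/
def kOf (p : GK) : ℕ := p.2.2

end Pool.Agent.H36.Par
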