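import Pool.Agent.H38.NP.Graphs

/-!
Generic tools for reductions: graphs on lists of vertex codes, selection form of 3SAT.
-/

namespace Pool.Agent.H36.Gr

open Pool.Agent.H38.NP

variable {C : Type} [Inhabited C]

/-- graph instance from a list of vertex codes and a Boolean adjacency on codes -/
def mkG (vs : List C) (adj : C → C → Bool) : ℕ × List (ℕ × ℕ) :=
  (vs.length, edgesOf vs.length fun u v => adj (vs.getD u default) (vs.getD v default))

theorem pt_mkG {α : Type} [Enc α] [Enc C] {vs : α → List C} {adj : α → C → C → Bool}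
    (hv : PT vs) (h : PT fun p : α × C × C => adj p.1 p.2.1 p.2.2) :
    PT fun a => mkG (vs a) (adj a) := by
  unfold mkG
  refine PT.mk (by fun_prop) (PT.edgesOf (by fun_prop) ?_)
  exact h.comp (g := fun p : α × ℕ × ℕ =>
    (p.1, (vs p.1).getD p.2.1 default, (vs p.1).getD p.2.2 default)) (by fun_prop)

/-- code of a vertex -/
def code (vs : List C) (v : Fin vs.length) : C := vs.getD v default

theorem code_eq (vs : List C) (v : Fin vs.length) : code vs v = vs[v.val] := by
  simp [code]

theorem code_mem (vs : List C) (v : Fin vs.length) : code vs v ∈ vs := by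
  rw [code_eq]; exact List.getElem_mem _

theorem code_inj {vs : List C} (nd : vs.Nodup) : Function.Injective (code vs) := by
  intro u v h
  rw [code_eq, code_eq] at h
  exact Fin.ext ((List.Nodup.getElem_inj_iff nd).1 h)

theorem code_surj {vs : List C} {c : C} (h : c ∈ vs) : ∃ v, code vs v = c := by
  obtain ⟨i, hi, rfl⟩ := List.getElem_of_mem h
  exact ⟨⟨i, hi⟩, code_eq _ _⟩

/-- the vertices correspond to the codes in the list -/
noncomputable def codeEquiv {vs : List C} (nd : vs.Nodup) : Fin vs.length ≃ {c // c ∈ vs} :=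
  Equiv.ofBijective (fun v => ⟨code vs v, code_mem vs v⟩)
    ⟨fun _ _ h => code_inj nd (congrArg Subtype.val h),
     fun c => let ⟨v, hv⟩ := code_surj c.2; ⟨v, Subtype.ext hv⟩⟩

@[simp] theorem codeEquiv_val {vs : List C} (nd : vs.Nodup) (v : Fin vs.length) :
    (codeEquiv nd v).1 = code vs v := rfl

/-- the graph on all codes -/
def GC (adj : C → C → Bool) : SimpleGraph C := SimpleGraph.fromRel fun a b => adj a b = true

omit [Inhabited C] in
theorem GC_adj {adj : C → C → Bool} {a b : C} :
    (GC adj).Adj a b ↔ a ≠ b ∧ (adj a b = true ∨ adj b a = true) := by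
  simp [GC]

theorem mkG_adj {vs : List C} (nd : vs.Nodup) {adj : C → C → Bool} {u v : Fin vs.length} :
    (graphOf (mkG vs adj).1 (mkG vs adj).2).Adj u v ↔ (GC adj).Adj (code vs u) (code vs v) := by
  erw [graphOf_edgesOf_adj]
  rw [GC_adj, (code_inj nd).ne_iff, ne_eq, ne_eq, Fin.ext_iff]
  rfl

/-- the graph of the instance, on `Fin vs.length` -/
def RG (vs : List C) (adj : C → C → Bool) : SimpleGraph (Fin vs.length) :=
  graphOf vs.length (mkG vs adj).2

theorem RG_adj {vs : List C} (nd : vs.Nodup) {adj : C → C → Bool} {u v : Fin vs.length} :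
    (RG vs adj).Adj u v ↔ (GC adj).Adj (code vs u) (code vs v) := mkG_adj nd

/-- vertex with a given code -/
noncomputable def ix {vs : List C} (nd : vs.Nodup) (c : C) (h : c ∈ vs) : Fin vs.length :=
  (codeEquiv nd).symm ⟨c, h⟩

@[simp] theorem code_ix {vs : List C} (nd : vs.Nodup) (c : C) (h : c ∈ vs) :
    code vs (ix nd c h) = c :=
  congrArg Subtype.val ((codeEquiv nd).apply_symm_apply ⟨c, h⟩)

@[simp] theorem ix_code {vs : List C} (nd : vs.Nodup) (v : Fin vs.length) (h) :
    ix nd (code vs v) h = v := code_inj nd (code_ix _ _ _)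

/-- isomorphism with the induced graph on the listed codes -/
noncomputable def mkIso {vs : List C} (nd : vs.Nodup) (adj : C → C → Bool) :
    graphOf (mkG vs adj).1 (mkG vs adj).2 ≃g (GC adj).induce {c | c ∈ vs} where
  toEquiv := codeEquiv nd
  map_rel_iff' := by
    intro u v
    exact (mkG_adj nd).symm

theorem sum_code {M : Type} [AddCommMonoid M] [DecidableEq C] {vs : List C} (nd : vs.Nodup)
    (f : C → M) : ∑ v : Fin vs.length, f (code vs v) = ∑ c ∈ vs.toFinset, f c := by
  refine Finset.sum_bij (fun v _ => code vs v) (fun v _ => by simpa using code_mem vs v)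
    (fun u _ v _ h => code_inj nd h) (fun c hc => ?_) (fun _ _ => rfl)
  obtain ⟨v, hv⟩ := code_surj (List.mem_toFinset.1 hc)
  exact ⟨v, Finset.mem_univ _, hv⟩

/-! ### selection form of 3SAT -/

abbrev F3 := List (Lit × Lit × Lit)

/-- occurrences `u` and `v` carry complementary literals -/
def conf (φ : F3) (u v : ℕ) : Bool :=
  decide ((litAt φ u).1 = (litAt φ v).1) && decide ((litAt φ u).2 ≠ (litAt φ v).2)

@[fun_prop] theorem pt_conf {α : Type} [Enc α] {φ : α → F3} {u v : α → ℕ}
    (hφ : PT φ) (hu : PT u) (hv : PT v) : PT fun a => conf (φ a) (u a) (v a) := by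
  unfold conf; fun_prop

theorem conf_symm (φ : F3) (u v : ℕ) : conf φ u v = conf φ v u := by
  unfold conf
  rw [Bool.eq_iff_iff]
  simp only [Bool.and_eq_true, decide_eq_true_eq]
  exact ⟨fun h => ⟨h.1.symm, h.2.symm⟩, fun h => ⟨h.1.symm, h.2.symm⟩⟩

@[simp] theorem conf_self (φ : F3) (u : ℕ) : conf φ u u = false := by simp [conf]

theorem sat3_iff_sel (φ : F3) : Sat3 φ ↔
    ∃ s : ℕ → ℕ, (∀ c < φ.length, s c / 3 = c) ∧
      ∀ c < φ.length, ∀ d < φ.length, conf φ (s c) (s d) = false := by
  rw [sat3_iff_litAt]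
  constructor
  · rintro ⟨a, ha⟩
    choose! j hj using ha
    refine ⟨fun c => 3 * c + j c, fun c hc => ?_, fun c hc d hd => ?_⟩
    · have := (hj c hc).1; simp only; omega
    · have h1 := (hj c hc).2
      have h2 := (hj d hd).2
      by_contra h
      simp only [conf, Bool.not_eq_false, Bool.and_eq_true, decide_eq_true_eq] at h
      exact h.2 (by rw [← h1, ← h2, h.1])
  · rintro ⟨s, h1, h2⟩
    classical
    refine ⟨fun x => decide (∃ c < φ.length, litAt φ (s c) = (x, true)), fun c hc => ?_⟩
    refine ⟨s c % 3, Nat.mod_lt _ (by omega), ?_⟩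
    have := h1 c hc
    rw [show 3 * c + s c % 3 = s c by omega]
    cases hb : (litAt φ (s c)).2
    · simp only [decide_eq_false_iff_not]
      rintro ⟨d, hd, e⟩
      have := h2 c hc d hd
      simp [conf, e, hb] at this
    · simp only [decide_eq_true_eq]
      exact ⟨c, hc, by rw [← hb]⟩

/-- 3SAT stays NP-hard for an odd number of clauses, at least three -/
theorem sat3_odd_nph : NPH (fun φ : F3 => φ.length % 2 = 1 ∧ 3 ≤ φ.length) Sat3 := by
  refine sat3_nph.reduce (fun φ => φ ++ φ ++ List.replicate 3 ((0, true), (0, false), (0, true)))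
    (by fun_prop) fun φ _ => ⟨by simp; omega, ?_⟩
  refine exists_congr fun a => ⟨fun h D hD => ?_, fun h D hD => h D (by simp [hD])⟩
  simp only [List.mem_append, List.mem_replicate, or_self] at hD
  rcases hD with hD | ⟨-, rfl⟩
  · exact h D hD
  · cases a 0 <;> simp

end Pool.Agent.H36.Gr
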