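import Mathlib

namespace Pool.Agent.H36.Addm

open scoped RealInnerProductSpace

/-! ### mod 2 chains -/

def bd {m : ℕ} (z : Finset (Fin m) → ZMod 2) (τ : Finset (Fin m)) : ZMod 2 :=
  ∑ j, if j ∈ τ then 0 else z (insert j τ)

def cb {m : ℕ} (g : Finset (Fin m) → ZMod 2) (ρ : Finset (Fin m)) : ZMod 2 :=
  ∑ j, if j ∈ ρ then g (ρ.erase j) else 0

theorem bd_add {m : ℕ} (z w : Finset (Fin m) → ZMod 2) (τ : Finset (Fin m)) :
    bd (fun σ => z σ + w σ) τ = bd z τ + bd w τ := by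
  unfold bd
  rw [← Finset.sum_add_distrib]
  refine Finset.sum_congr rfl fun j _ => ?_
  split_ifs <;> simp

theorem bd_bd {m : ℕ} (z : Finset (Fin m) → ZMod 2) (τ : Finset (Fin m)) : bd (bd z) τ = 0 := by
  have : bd (bd z) τ = ∑ p : Fin m × Fin m,
      if p.1 ∉ τ ∧ p.2 ∉ τ ∧ p.1 ≠ p.2 then z (insert p.2 (insert p.1 τ)) else 0 := by
    rw [Fintype.sum_prod_type]
    unfold bd
    refine Finset.sum_congr rfl fun j _ => ?_
    by_cases h : j ∈ τ
    · simp [h]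
    · rw [if_neg h]
      refine Finset.sum_congr rfl fun k _ => ?_
      by_cases h1 : k = j
      · simp [h1]
      · by_cases h2 : k ∈ τ <;> simp [h, h1, h2, Ne.symm h1]
  rw [this]
  refine Finset.sum_involution (fun p _ => p.swap) (fun p _ => ?_) (fun p _ hp h => ?_)
    (fun _ _ => Finset.mem_univ _) (fun _ _ => rfl)
  · by_cases h : p.1 ∉ τ ∧ p.2 ∉ τ ∧ p.1 ≠ p.2
    · rw [if_pos h, if_pos (by exact ⟨h.2.1, h.1, h.2.2.symm⟩)]
      simp only [Prod.fst_swap, Prod.snd_swap]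
      rw [Finset.insert_comm]
      exact CharTwo.add_self_eq_zero _
    · rw [if_neg h, if_neg (by exact fun h' => h ⟨h'.2.1, h'.1, h'.2.2.symm⟩), add_zero]
  · apply hp
    rw [if_neg]
    intro h'
    exact h'.2.2 (congrArg Prod.snd h)

theorem adj {m : ℕ} (z g : Finset (Fin m) → ZMod 2) :
    ∑ τ, bd z τ * g τ = ∑ ρ, z ρ * cb g ρ := by
  unfold bd cb
  simp only [Finset.sum_mul, Finset.mul_sum]
  rw [Finset.sum_comm, Finset.sum_comm (f := fun ρ j => z ρ * if j ∈ ρ then g (ρ.erase j) else 0)]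
  refine Finset.sum_congr rfl fun j _ => ?_
  have e1 : ∀ τ : Finset (Fin m), (if j ∈ τ then 0 else z (insert j τ)) * g τ =
      if j ∉ τ then z (insert j τ) * g τ else 0 := fun τ => by by_cases h : j ∈ τ <;> simp [h]
  have e2 : ∀ ρ : Finset (Fin m), (z ρ * if j ∈ ρ then g (ρ.erase j) else 0) =
      if j ∈ ρ then z ρ * g (ρ.erase j) else 0 := fun τ => by by_cases h : j ∈ τ <;> simp [h]
  simp only [e1, e2]
  rw [← Finset.sum_filter, ← Finset.sum_filter]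
  refine Finset.sum_bij' (fun τ _ => insert j τ) (fun ρ _ => ρ.erase j) ?_ ?_ ?_ ?_ ?_
  · simp
  · simp
  · intro τ h; simp only [Finset.mem_filter] at h; exact Finset.erase_insert h.2
  · intro τ h; simp only [Finset.mem_filter] at h; exact Finset.insert_erase h.2
  · intro τ h; simp only [Finset.mem_filter] at h; rw [Finset.erase_insert h.2]

/-! ### a line in an orthant -/

theorem line1 {ι : Type} (ρ : Finset ι) (a μ : ι → ℝ)
    (gen : ∀ t, ∀ j ∈ ρ, ∀ k ∈ ρ, a j + t * μ j = 0 → a k + t * μ k = 0 → j = k)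
    (t0 : ℝ) (h0 : ∀ k ∈ ρ, μ k ≤ 0 → ∀ t, t ≤ t0 → 0 ≤ a k + t * μ k)
    (h1 : ∀ k ∈ ρ, 0 < μ k → (∃ l ∈ ρ, μ l ≤ 0) → 0 ≤ a k + t0 * μ k)
    (hp : ∃ k ∈ ρ, 0 < μ k) :
    ∃ j0 ∈ ρ, ∀ j ∈ ρ, (0 < μ j ∧ ∃ t, (∀ k ∈ ρ, 0 ≤ a k + t * μ k) ∧ a j + t * μ j = 0) ↔
      j = j0 := by
  classical
  obtain ⟨j0, hj0, hmax⟩ := Finset.exists_max_image (ρ.filter fun k => 0 < μ k)
    (fun k => - a k / μ k) (by obtain ⟨k, h, h'⟩ := hp; exact ⟨k, by simp [h, h']⟩)
  simp only [Finset.mem_filter] at hj0 hmax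
  have hz : a j0 + (- a j0 / μ j0) * μ j0 = 0 := by
    rw [div_mul_cancel₀ _ hj0.2.ne']; ring
  have hf : ∀ k ∈ ρ, 0 ≤ a k + (- a j0 / μ j0) * μ k := fun k hk => by
    rcases lt_or_ge 0 (μ k) with h | h
    · have := hmax k ⟨hk, h⟩
      rw [div_le_iff₀ h] at this
      linarith
    · refine h0 k hk h _ ?_
      rw [div_le_iff₀ hj0.2]
      have := h1 j0 hj0.1 hj0.2 ⟨k, hk, h⟩
      linarith
  refine ⟨j0, hj0.1, fun j hj => ⟨?_, ?_⟩⟩
  · rintro ⟨hμ, t, ht, htj⟩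
    have e1 := hf j hj
    have e2 := ht j0 hj0.1
    have e3 : t ≤ - a j0 / μ j0 := by
      by_contra h
      have := mul_pos (sub_pos.2 (not_le.1 h)) hμ
      nlinarith
    have e4 : - a j0 / μ j0 ≤ t := by
      by_contra h
      have := mul_pos (sub_pos.2 (not_le.1 h)) hj0.2
      nlinarith
    have e5 : t = - a j0 / μ j0 := le_antisymm e3 e4
    exact gen t j hj j0 hj0.1 htj (by rw [e5]; exact hz)
  · rintro rfl
    exact ⟨hj0.2, _, hf, hz⟩

/-! ### cones -/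

abbrev Sp (d : ℕ) := EuclideanSpace ℝ (Fin d)

def Good {d m : ℕ} (A : Fin m → Sp d) (y : Sp d) (σ : Finset (Fin m)) : Prop :=
  ∃ l : Fin m → ℝ, (∀ j ∈ σ, 0 ≤ l j) ∧ ∑ j ∈ σ, l j • A j = y

def Gen {d m : ℕ} (A : Fin m → Sp d) (y : Sp d) : Prop :=
  ∀ τ : Finset (Fin m), τ.card < d → ∀ l : Fin m → ℝ, ∑ j ∈ τ, l j • A j ≠ y

open Classical in
noncomputable def gd {d m : ℕ} (A : Fin m → Sp d) (y : Sp d) (σ : Finset (Fin m)) : ZMod 2 :=
  if Good A y σ then 1 else 0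

theorem dep {d m : ℕ} (A : Fin m → Sp d) (ρ : Finset (Fin m)) (hρ : ρ.card = d + 1) :
    ∃ μ : Fin m → ℝ, ∑ j ∈ ρ, μ j • A j = 0 ∧ ∃ k ∈ ρ, μ k ≠ 0 := by
  classical
  have h : ¬ LinearIndependent ℝ (fun j : ρ => A j) := fun h => by
    have := h.fintype_card_le_finrank
    simp [hρ] at this
  obtain ⟨g, hg, k, hk⟩ := Fintype.not_linearIndependent_iff.1 h
  refine ⟨fun j => if h : j ∈ ρ then g ⟨j, h⟩ else 0, ?_, k, k.2, by simpa using hk⟩
  rw [← hg, ← Finset.sum_coe_sort]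
  simp

theorem gen2 {d m : ℕ} {A : Fin m → Sp d} {y : Sp d} (hy : Gen A y) {ρ : Finset (Fin m)}
    (hρ : ρ.card = d + 1) (l : Fin m → ℝ) (hl : ∑ j ∈ ρ, l j • A j = y) {j k : Fin m}
    (hj : j ∈ ρ) (hk : k ∈ ρ) (h1 : l j = 0) (h2 : l k = 0) : j = k := by
  by_contra hne
  have hk' : k ∈ ρ.erase j := Finset.mem_erase.2 ⟨Ne.symm hne, hk⟩
  refine hy ((ρ.erase j).erase k) ?_ l ?_
  · have := Finset.card_pos.2 ⟨k, hk'⟩
    rw [Finset.card_erase_of_mem hk']
    rw [Finset.card_erase_of_mem hj] at this ⊢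
    omega
  · rw [Finset.sum_erase _ (by simp [h2]), Finset.sum_erase _ (by simp [h1]), hl]

theorem good_iff {d m : ℕ} {A : Fin m → Sp d} {y : Sp d} (hy : Gen A y) {ρ : Finset (Fin m)}
    (hρ : ρ.card = d + 1) (a μ : Fin m → ℝ) (ha : ∑ j ∈ ρ, a j • A j = y)
    (hμ : ∑ j ∈ ρ, μ j • A j = 0) (hk : ∃ k ∈ ρ, μ k ≠ 0) {j : Fin m} (hj : j ∈ ρ) :
    Good A y (ρ.erase j) ↔ μ j ≠ 0 ∧
      ∃ t, (∀ k ∈ ρ, 0 ≤ a k + t * μ k) ∧ a j + t * μ j = 0 := by
  classical
  obtain ⟨k, hk, hk0⟩ := hk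
  have sol : ∀ t : ℝ, ∑ j ∈ ρ, (a j + t * μ j) • A j = y := fun t => by
    simp only [add_smul, mul_smul, Finset.sum_add_distrib, ← Finset.smul_sum, ha, hμ]
    simp
  constructor
  · rintro ⟨l, hl0, hl⟩
    have hl' : ∑ i ∈ ρ, (Function.update l j 0 i) • A i = y := by
      rw [← Finset.sum_erase ρ (a := j) (by simp), ← hl]
      refine Finset.sum_congr rfl fun i hi => ?_
      rw [Function.update_of_ne (Finset.mem_erase.1 hi).1]
    set l' := Function.update l j 0 with hl'def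
    have key : ∀ i ∈ ρ, l' i = a i + ((l' k - a k) / μ k) * μ i := by
      intro i hi
      by_contra hne
      set ν : Fin m → ℝ := fun i => l' i - (a i + ((l' k - a k) / μ k) * μ i) with hν
      have hν0 : ∑ j ∈ ρ, ν j • A j = 0 := by
        simp only [hν, sub_smul, Finset.sum_sub_distrib, hl', sol, sub_self]
      have hνk : ν k = 0 := by simp only [hν]; rw [div_mul_cancel₀ _ hk0]; ring
      have hνi : ν i ≠ 0 := sub_ne_zero.2 hne
      have hik : i = k := gen2 hy hρ (fun r => (a r + (- a k / μ k) * μ r) +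
          (- (a i + (- a k / μ k) * μ i) / ν i) * ν r) (by
        simp only [add_smul (a _ + _), Finset.sum_add_distrib, sol, mul_smul _ (ν _),
          ← Finset.smul_sum, hν0]
        simp) hi hk (by rw [div_mul_cancel₀ _ hνi]; ring)
        (by rw [hνk, div_mul_cancel₀ _ hk0]; ring)
      exact hνi (hik ▸ hνk)
    have hz : a j + ((l' k - a k) / μ k) * μ j = 0 := by rw [← key j hj]; simp [hl'def]
    refine ⟨fun h0 => ?_, _, fun i hi => ?_, hz⟩
    · have : j = k := gen2 hy hρ _ (sol (- a k / μ k)) hj hk (by rw [h0] at hz ⊢; simpa using hz)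
        (by rw [div_mul_cancel₀ _ hk0]; ring)
      exact hk0 (this ▸ h0)
    · rw [← key i hi]
      by_cases h : i = j
      · simp [hl'def, h]
      · rw [hl'def, Function.update_of_ne h]
        exact hl0 i (Finset.mem_erase.2 ⟨h, hi⟩)
  · rintro ⟨_, t, ht, htj⟩
    refine ⟨fun i => a i + t * μ i, fun i hi => ht i (Finset.mem_of_mem_erase hi), ?_⟩
    rw [Finset.sum_erase _ (by simp [htj]), sol]

theorem cb_half {d m : ℕ} {A : Fin m → Sp d} {y : Sp d} (hy : Gen A y) {ρ : Finset (Fin m)}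
    (hρ : ρ.card = d + 1) (c : Sp d) (hc : ∀ j ∈ ρ, 0 < ⟪A j, c⟫) : cb (gd A y) ρ = 0 := by
  classical
  by_cases hex : ∃ j ∈ ρ, Good A y (ρ.erase j)
  swap
  · unfold cb gd
    refine Finset.sum_eq_zero fun j _ => ?_
    split_ifs with h1 h2
    · exact absurd ⟨j, h1, h2⟩ hex
    · rfl
    · rfl
  obtain ⟨j1, hj1, l, hl0, hl⟩ := hex
  have ha : ∑ i ∈ ρ, (Function.update l j1 0 i) • A i = y := by
    rw [← Finset.sum_erase ρ (a := j1) (by simp), ← hl]
    refine Finset.sum_congr rfl fun i hi => ?_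
    rw [Function.update_of_ne (Finset.mem_erase.1 hi).1]
  have ha0 : ∀ i ∈ ρ, 0 ≤ Function.update l j1 0 i := fun i hi => by
    by_cases h : i = j1
    · simp [h]
    · rw [Function.update_of_ne h]
      exact hl0 i (Finset.mem_erase.2 ⟨h, hi⟩)
  generalize Function.update l j1 0 = a at ha ha0
  have both : ∀ μ : Fin m → ℝ, ∑ j ∈ ρ, μ j • A j = 0 → (∃ k ∈ ρ, μ k ≠ 0) →
      ∃ k ∈ ρ, 0 < μ k := fun μ hμ ⟨k, hk, hk0⟩ => by
    by_contra h
    push Not at h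
    have h1 : ∑ j ∈ ρ, μ j * ⟪A j, c⟫ = 0 := by
      have := congrArg (fun x => ⟪x, c⟫) hμ
      simpa [sum_inner, inner_smul_left] using this
    have h2 := (Finset.sum_eq_zero_iff_of_nonpos fun j hj =>
      mul_nonpos_of_nonpos_of_nonneg (h j hj) (hc j hj).le).1 h1 k hk
    exact mul_ne_zero hk0 (hc k hk).ne' h2
  have one : ∀ μ : Fin m → ℝ, ∑ j ∈ ρ, μ j • A j = 0 → (∃ k ∈ ρ, μ k ≠ 0) →
      ∃ j0 ∈ ρ, ∀ j ∈ ρ, (0 < μ j ∧ Good A y (ρ.erase j)) ↔ j = j0 := fun μ hμ hk => by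
    obtain ⟨j0, hj0, h⟩ := line1 ρ a μ (fun t j hj k hk' h1 h2 => gen2 hy hρ
      (fun j => a j + t * μ j) (by
        simp only [add_smul, mul_smul, Finset.sum_add_distrib, ← Finset.smul_sum, ha, hμ]
        simp) hj hk' h1 h2) 0
      (fun k hk h t ht => add_nonneg (ha0 k hk) (mul_nonneg_of_nonpos_of_nonpos ht h))
      (fun k hk _ _ => by simpa using ha0 k hk) (both μ hμ hk)
    refine ⟨j0, hj0, fun j hj => ?_⟩
    rw [← h j hj, good_iff hy hρ a μ ha hμ hk hj]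
    exact ⟨fun h => ⟨h.1, h.2.2⟩, fun h => ⟨h.1, h.1.ne', h.2⟩⟩
  obtain ⟨μ, hμ, hk⟩ := dep A ρ hρ
  obtain ⟨p, hp, h1⟩ := one μ hμ hk
  obtain ⟨q, hq, h2⟩ := one (fun j => - μ j) (by simp [hμ]) (by simpa using hk)
  have e : ∀ j, (if j ∈ ρ then gd A y (ρ.erase j) else 0) =
      (if j = p then 1 else 0) + (if j = q then 1 else 0) := fun j => by
    by_cases hj : j ∈ ρ
    · rw [if_pos hj]
      unfold gd
      simp only [← h1 j hj, ← h2 j hj]
      by_cases hg : Good A y (ρ.erase j)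
      · have := ((good_iff hy hρ a μ ha hμ hk hj).1 hg).1
        rcases lt_or_gt_of_ne this with h | h
        · simp [hg, h, not_lt.2 h.le]
        · simp [hg, h, not_lt.2 h.le]
      · simp [hg]
    · rw [if_neg hj, if_neg (fun h : j = p => hj (h ▸ hp)), if_neg (fun h : j = q => hj (h ▸ hq)), add_zero]
  unfold cb
  simp only [e, Finset.sum_add_distrib, Finset.sum_ite_eq', Finset.mem_univ, if_true]
  rfl

theorem cb_pos {d m : ℕ} {A : Fin m → Sp d} {y : Sp d} (hy : Gen A y) {ρ : Finset (Fin m)}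
    (hρ : ρ.card = d + 1) (a μ : Fin m → ℝ) (ha : ∑ j ∈ ρ, a j • A j = y)
    (hμ : ∑ j ∈ ρ, μ j • A j = 0) (hpos : ∀ k ∈ ρ, 0 < μ k) : cb (gd A y) ρ = 1 := by
  classical
  obtain ⟨k, hk⟩ := Finset.card_pos.1 (show 0 < ρ.card by omega)
  obtain ⟨p, hp, h⟩ := line1 ρ a μ (fun t j hj k hk' h1 h2 => gen2 hy hρ
      (fun j => a j + t * μ j) (by
        simp only [add_smul, mul_smul, Finset.sum_add_distrib, ← Finset.smul_sum, ha, hμ]
        simp) hj hk' h1 h2) 0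
      (fun k hk h => absurd (hpos k hk) (not_lt.2 h))
      (fun _ _ _ ⟨l, hl, h⟩ => absurd (hpos l hl) (not_lt.2 h)) ⟨k, hk, hpos k hk⟩
  have e : ∀ j, (if j ∈ ρ then gd A y (ρ.erase j) else 0) = (if j = p then 1 else 0) := fun j => by
    by_cases hj : j ∈ ρ
    · rw [if_pos hj]
      unfold gd
      refine if_congr ?_ rfl rfl
      rw [← h j hj, good_iff hy hρ a μ ha hμ ⟨k, hk, (hpos k hk).ne'⟩ hj]
      exact ⟨fun h => ⟨hpos j hj, h.2⟩, fun h => ⟨h.1.ne', h.2⟩⟩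
    · rw [if_neg hj, if_neg (fun h : j = p => hj (h ▸ hp))]
  unfold cb
  simp only [e, Finset.sum_ite_eq', Finset.mem_univ, if_true]

theorem exists_gen {d m : ℕ} (A : Fin m → Sp d) (U : Set (Sp d)) (hU : IsOpen U)
    (hne : U.Nonempty) : ∃ y ∈ U, Gen A y := by
  classical
  have h0 : MeasureTheory.volume (⋃ τ : {τ : Finset (Fin m) // τ.card < d},
      (Submodule.span ℝ (τ.1.image A : Set (Sp d)) : Set (Sp d))) = 0 := by
    refine MeasureTheory.measure_iUnion_null fun τ => ?_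
    refine MeasureTheory.Measure.addHaar_submodule _ _ fun h => ?_
    have h1 := finrank_span_finset_le_card (R := ℝ) (τ.1.image A)
    have h2 : (τ.1.image A).card ≤ τ.1.card := Finset.card_image_le
    have h3 := τ.2
    unfold Set.finrank at h1
    rw [h] at h1
    simp at h1
    omega
  have h1 := hU.measure_pos MeasureTheory.volume hne
  by_contra h
  push Not at h
  refine h1.ne' (MeasureTheory.measure_mono_null (fun y hy => ?_) h0)
  have := h y hy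
  unfold Gen at this
  push Not at this
  obtain ⟨τ, hτ, l, hl⟩ := this
  refine Set.mem_iUnion.2 ⟨⟨τ, hτ⟩, ?_⟩
  rw [← hl]
  exact Submodule.sum_mem _ fun j hj => Submodule.smul_mem _ _
    (Submodule.subset_span (by simpa using ⟨j, hj, rfl⟩))

end Pool.Agent.H36.Addm
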