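import Pool.Agent.H36.BambooDefs

/-!
2-systems that need arbitrarily many independent sets to be covered: the vertices of a tree, a set
being independent if below each of its members some child subtree is avoided.
-/

namespace Pool.Agent.H36.Bamboo

open Finset

structure Good (m : ℕ) (E : Type) [Fintype E] [DecidableEq E] (I : Finset E → Prop) : Prop where
  nil : I ∅
  down : ∀ A B, I A → B ⊆ A → I B
  span : ∀ B S, I B → (∀ x ∈ S, x ∉ B → ¬I (insert x B)) → (#S : ℚ) ≤ (2 - 1 / 2 ^ m) * #B
  frac : ∃ (J : Type) (_ : Fintype J) (F : J → Finset E), Nonempty J ∧ (∀ j, I (F j)) ∧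
    ∀ e, (1 / 2 + 1 / 2 ^ (m + 1) : ℚ) * Fintype.card J ≤ #{j | e ∈ F j}
  cov : ∀ L : List (Finset E), (∀ A ∈ L, I A) → (∀ e, ∃ A ∈ L, e ∈ A) → m ≤ L.length

variable {E K : Type} [Fintype E] [DecidableEq E] [Fintype K] [DecidableEq K]

def sl (S : Finset (Option (K × E))) (k : K) : Finset E := {x | some (k, x) ∈ S}

omit [Fintype K] in
@[simp] theorem mem_sl {S : Finset (Option (K × E))} {k x} : x ∈ sl S k ↔ some (k, x) ∈ S := by
  simp [sl]

theorem card_sl (S : Finset (Option (K × E))) :
    (#S : ℚ) = (if none ∈ S then 1 else 0) + ∑ k, (#(sl S k) : ℚ) := by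
  have : (#S : ℚ) = ∑ x, if x ∈ S then 1 else 0 := by simp
  rw [this, Fintype.sum_option, Fintype.sum_prod_type]
  simp [sl]

def Up (I : Finset E → Prop) (A : Finset (Option (K × E))) : Prop :=
  (∀ k, I (sl A k)) ∧ (none ∈ A → ∃ k, sl A k = ∅)

omit [Fintype K] in
theorem sl_insert (B : Finset (Option (K × E))) (k x j) :
    sl (insert (some (k, x)) B) j = if j = k then insert x (sl B k) else sl B j := by
  ext y
  split_ifs with c <;> simp [c]

theorem big (B : Finset (Option (K × E))) (T : Finset K) (c : ∀ k ∈ T, sl B k ≠ ∅) :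
    (#T : ℚ) ≤ ∑ k, (#(sl B k) : ℚ) := by
  have : ∑ k ∈ T, (1 : ℚ) ≤ ∑ k ∈ T, (#(sl B k) : ℚ) := sum_le_sum fun k hk => by
    exact_mod_cast card_pos.2 (nonempty_iff_ne_empty.2 (c k hk))
  rw [sum_const, nsmul_eq_mul, mul_one] at this
  exact this.trans (sum_le_sum_of_subset_of_nonneg (subset_univ T) fun _ _ _ => by positivity)

theorem step_span {I : Finset E → Prop} {a ε : ℚ} (ha : 1 ≤ a) (hε : 0 < ε)
    (hK : ε * Fintype.card K = Fintype.card E + 1)
    (h : ∀ B S, I B → (∀ x ∈ S, x ∉ B → ¬I (insert x B)) → (#S : ℚ) ≤ a * #B)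
    (B S : Finset (Option (K × E))) (hB : Up I B) (hS : ∀ x ∈ S, x ∉ B → ¬Up I (insert x B)) :
    (#S : ℚ) ≤ (a + ε) * #B := by
  have key : ∀ k, (none ∈ B → ∃ j ≠ k, sl B j = ∅) → (#(sl S k) : ℚ) ≤ a * #(sl B k) :=
    fun k c => h _ _ (hB.1 k) fun x a b d => hS _ (mem_sl.1 a) (mt mem_sl.2 b)
      ⟨fun j => by rw [sl_insert]; split_ifs; exacts [d, hB.1 j], fun e => by
        obtain ⟨j, f, g⟩ := c (by simpa using e)
        exact ⟨j, by rw [sl_insert, if_neg f, g]⟩⟩
  have nn : (0 : ℚ) ≤ ∑ k, (#(sl B k) : ℚ) := by positivity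
  have nE : (0 : ℚ) ≤ Fintype.card E := by positivity
  rw [card_sl, card_sl B]
  by_cases c : ∀ k, none ∈ B → ∃ j ≠ k, sl B j = ∅
  · have := sum_le_sum fun k (_ : k ∈ univ) => key k (c k)
    rw [← mul_sum] at this
    by_cases d : none ∈ B
    · rw [if_pos d]
      split_ifs <;> nlinarith
    rw [if_neg d]
    split_ifs with e
    · have := big B univ fun k _ f => hS none e d ⟨fun j => by simpa [sl] using hB.1 j,
        fun _ => ⟨k, by simpa [sl] using f⟩⟩
      rw [card_univ] at this
      nlinarith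
    · nlinarith
  · push Not at c
    obtain ⟨k, c, d⟩ := c
    obtain ⟨i, e⟩ := hB.2 c
    obtain rfl : i = k := by_contra fun f => (d i f).ne_empty e
    have a1 := big B (univ.erase i) fun j hj => (d j (mem_erase.1 hj).1).ne_empty
    have a2 := sum_le_sum fun k (hk : k ∈ univ.erase i) =>
      key k fun _ => ⟨i, (mem_erase.1 hk).1.symm, e⟩
    have a3 : (#(sl S i) : ℚ) ≤ Fintype.card E := by exact_mod_cast card_le_univ _
    rw [← mul_sum, sum_erase (f := fun k => (#(sl B k) : ℚ)) _ (by simp [e])] at a2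
    rw [card_erase_of_mem (mem_univ _), card_univ, Nat.cast_pred (Fintype.card_pos_iff.2 ⟨i⟩)] at a1
    rw [if_pos c, ← add_sum_erase _ _ (mem_univ i)]
    split_ifs <;> nlinarith

theorem step {m} {I : Finset E → Prop} (h : Good m E I)
    (hK : Fintype.card K = (Fintype.card E + 1) * 2 ^ (m + 2)) : Good (m + 1) _ (Up (K := K) I) := by
  have pos : 0 < Fintype.card K := by rw [hK]; positivity
  obtain ⟨k₀⟩ := Fintype.card_pos_iff.1 pos
  have mono : ∀ {A B : Finset (Option (K × E))}, B ⊆ A → ∀ k, sl B k ⊆ sl A k :=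
    fun e k x hx => mem_sl.2 (e (mem_sl.1 hx))
  have q : (0 : ℚ) < 1 / 2 ^ (m + 2) := by positivity
  have q1 : (1 / 2 ^ (m + 1) : ℚ) = 2 * (1 / 2 ^ (m + 2)) := by field_simp; ring
  have q0 : (1 / 2 ^ m : ℚ) = 4 * (1 / 2 ^ (m + 2)) := by field_simp; ring
  have q2 : (1 / 2 ^ m : ℚ) ≤ 1 := by rw [div_le_one (by positivity)]; exact one_le_pow₀ one_le_two
  have hK' : 1 / 2 ^ (m + 2) * (Fintype.card K : ℚ) = Fintype.card E + 1 := by
    rw [hK]; push_cast; field_simp
  refine ⟨⟨fun k => by simpa [sl] using h.nil, by simp⟩, fun A B a e => ⟨fun k => h.down _ _ (a.1 k)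
    (mono e k), fun c => ?_⟩, fun B S hB hS => (step_span (by linarith) q hK' h.span B S hB hS).trans
      (mul_le_mul_of_nonneg_right (by linarith) (by positivity)), ?_, fun L hL hc => ?_⟩
  · obtain ⟨k, d⟩ := a.2 (e c)
    exact ⟨k, subset_empty.1 (d ▸ mono e k)⟩
  · obtain ⟨J, _, F, ⟨j₀⟩, a, b⟩ := h.frac
    refine ⟨K × J, inferInstance, fun z => insert none
      ((univ.erase z.1 ×ˢ F z.2).image some), ⟨(k₀, j₀)⟩,
      fun z => ⟨fun k => h.down _ _ (a z.2) fun x => by simp, fun _ => ⟨z.1, by ext; simp⟩⟩, ?_⟩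
    have nJ : (0 : ℚ) ≤ Fintype.card J := by positivity
    have nE : (0 : ℚ) ≤ Fintype.card E := by positivity
    have nK : (1 : ℚ) ≤ Fintype.card K := by exact_mod_cast pos
    rintro (_ | ⟨k, x⟩)
    · simp only [mem_insert_self, filter_true, card_univ]
      exact mul_le_of_le_one_left (by positivity) (by linarith)
    · refine le_of_le_of_eq ?_ (congrArg _ (congrArg card (a₁ := univ.erase k ×ˢ
        univ.filter fun j => x ∈ F j) (by ext; simp [eq_comm])))
      rw [card_product, card_erase_of_mem (mem_univ _), card_univ, Fintype.card_prod, Nat.cast_mul, Nat.cast_mul,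
        Nat.cast_pred pos]
      refine le_trans ?_ (mul_le_mul_of_nonneg_left (b x) (by linarith))
      rw [← mul_assoc, ← mul_assoc]
      exact mul_le_mul_of_nonneg_right (by nlinarith) nJ
  · obtain ⟨A, a, b⟩ := hc none
    obtain ⟨k, e⟩ := (hL A a).2 b
    have := h.cov ((L.erase A).map (sl · k)) (fun B hB => by
      obtain ⟨C, c, rfl⟩ := List.mem_map.1 hB
      exact (hL C (List.mem_of_mem_erase c)).1 k) fun x => by
      obtain ⟨C, c, d⟩ := hc (some (k, x))
      refine ⟨_, List.mem_map_of_mem ((List.mem_erase_of_ne ?_).2 c), mem_sl.2 d⟩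
      rintro rfl
      exact notMem_empty x (e ▸ mem_sl.2 d)
    rw [List.length_map, List.length_erase_of_mem a] at this
    have := List.length_pos_of_mem a
    omega

theorem exists_good (m) : ∃ (E : Type) (_ : Fintype E) (_ : DecidableEq E) (I : Finset E → Prop),
    Good m E I := by
  induction m with
  | zero => exact ⟨Empty, inferInstance, inferInstance, fun _ => True, trivial, by simp,
      by simp [Finset.eq_empty_of_isEmpty], ⟨Unit, inferInstance, fun _ => ∅, ⟨()⟩, by simp, by simp⟩,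
      by simp⟩
  | succ m ih =>
    obtain ⟨E, _, _, I, h⟩ := ih
    exact ⟨_, inferInstance, inferInstance, _, step (K := Fin _) h (Fintype.card_fin _)⟩

theorem main (H : ℕ) : ∃ (E : Type) (_ : Fintype E) (_ : DecidableEq E) (I : Finset E → Prop)
    (g : E → ℚ), IndepSys I ∧ LSystem 2 I ∧ Normalized I g ∧
      ∀ π : ℕ → Finset E, (∀ t, I (π t)) → ¬HeightLe g π H := by
  obtain ⟨E, _, _, I, h⟩ := exists_good (2 * H + 1)
  obtain ⟨J, _, F, _, a, b⟩ := h.frac
  have nJ : (0 : ℚ) < Fintype.card J := by exact_mod_cast Fintype.card_pos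
  refine ⟨E, inferInstance, inferInstance, I, fun e => #{j | e ∈ F j} / Fintype.card J,
    ⟨⟨_, h.nil⟩, h.down⟩, fun S A B hA hB => ?_, ⟨fun A => #{j | F j = A} / Fintype.card J,
      fun A => by positivity, fun A c => ?_, ?_, fun e => ?_⟩, fun π hπ c => ?_⟩
  · have := h.span B S hB.2.1 fun x hx d e => d (hB.2.2 _ (insert_subset hx hB.1) e
      (subset_insert _ _) ▸ mem_insert_self x B)
    have e : (#A : ℚ) ≤ #S := by exact_mod_cast card_le_card hA.1
    have : (0 : ℚ) ≤ 1 / 2 ^ (2 * H + 1) * #B := by positivity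
    exact_mod_cast (by linarith : (#A : ℚ) ≤ 2 * #B)
  · obtain ⟨j, hj⟩ := card_pos.1 (Nat.pos_of_ne_zero fun e : #{j | F j = A} = 0 => c (by simp [e]))
    exact (mem_filter.1 hj).2 ▸ a j
  · rw [← sum_div, div_eq_one_iff_eq nJ.ne', ← card_univ, card_eq_sum_card_fiberwise
      (f := F) (t := univ) (by simp)]
    simp
  · dsimp only
    rw [← sum_div, card_eq_sum_card_fiberwise (f := F) (t := {A | e ∈ A}) (by intro j; simp)]
    push_cast
    congr 1
    refine sum_congr rfl fun A hA => congrArg _ (congrArg _ ?_)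
    grind
  · have := h.cov ((List.range (2 * H)).map π) (by simp [hπ]) fun e => by
      by_contra d
      simp only [List.mem_map, List.mem_range, exists_exists_and_eq_and, not_exists, not_and] at d
      have g : (1 / 2 : ℚ) ≤ #{j | e ∈ F j} / Fintype.card J := by
        rw [le_div_iff₀ nJ]
        exact le_trans (mul_le_mul_of_nonneg_right (le_add_of_nonneg_right (by positivity)) nJ.le)
          (b e)
      have : ∀ t ≤ 2 * H, (t : ℚ) / 2 ≤ after (fun e => (#{j | e ∈ F j} / Fintype.card J : ℚ)) π e t := by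
        intro t ht
        induction t with
        | zero => simp [after]
        | succ t ih =>
          rw [after, if_neg (d t ht)]
          push_cast
          linarith [ih (by omega)]
      have := this _ le_rfl
      have := c e (2 * H)
      push_cast at *
      linarith
    simp at this

end Pool.Agent.H36.Bamboo
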