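import Mathlib

/-!
Combinatorial bamboo garden trimming on independence systems: definitions.
-/

namespace Pool.Agent.H36.Bamboo

open Finset

variable {E : Type} [Fintype E] [DecidableEq E]

/-- `I` is a nonempty family of sets closed under taking subsets. -/
def IndepSys (I : Finset E → Prop) : Prop := (∃ A, I A) ∧ ∀ A B, I A → B ⊆ A → I B

/-- `A` is a maximal independent subset of `S`. -/
def MaxIn (I : Finset E → Prop) (S A : Finset E) : Prop :=
  A ⊆ S ∧ I A ∧ ∀ B, B ⊆ S → I B → A ⊆ B → B = A

/-- Any two maximal independent subsets `A`, `B` of any set satisfy `|A| ≤ l |B|`. -/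
def LSystem (l : ℕ) (I : Finset E → Prop) : Prop :=
  ∀ S A B, MaxIn I S A → MaxIn I S B → #A ≤ l * #B

/-- The growth rates are a convex combination of indicator vectors of independent sets. -/
def Normalized (I : Finset E → Prop) (g : E → ℚ) : Prop :=
  ∃ w : Finset E → ℚ, (∀ A, 0 ≤ w A) ∧ (∀ A, w A ≠ 0 → I A) ∧ ∑ A, w A = 1 ∧
    ∀ e, g e = ∑ A with e ∈ A, w A

/-- Height of `e` after `t` complete steps (growth, then reset) of the schedule `π`. -/
def after (g : E → ℚ) (π : ℕ → Finset E) (e : E) : ℕ → ℚ
  | 0 => 0
  | t + 1 => if e ∈ π t then 0 else after g π e t + g e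

/-- All heights attained during the run (after growth, before the reset) are at most `H`. -/
def HeightLe (g : E → ℚ) (π : ℕ → Finset E) (H : ℕ) : Prop := ∀ e t, after g π e t + g e ≤ H

end Pool.Agent.H36.Bamboo
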