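import Pool.Agent.H36.BspDefs
import Pool.Agent.H38.NP.Graphs

/-!
Balanced skew partitions of bipartite graphs are NP-hard to find.
-/

namespace Pool.Agent.H36.Bsp

open Pool.Agent.H38.NP SimpleGraph Finset

theorem perfect {V : Type} [Fintype V] {G : SimpleGraph V} (h : G.Colorable 2) : Perfect G := fun S => by
  classical
  refine le_antisymm ?_ cliqueNum_le_chromaticNumber
  by_cases e : ∃ u v, (G.induce S).Adj u v
  · obtain ⟨u, v, e⟩ := e
    have := IsClique.card_le_cliqueNum (G := G.induce S) (t := {u, v}) (tc := by simpa using fun _ => e)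
    rw [card_pair e.ne] at this
    exact (h.of_hom (Embedding.induce S).toHom).chromaticNumber_le.trans (by exact_mod_cast this)
  rcases isEmpty_or_nonempty S with c | ⟨⟨v⟩⟩
  · simp [chromaticNumber_eq_zero_of_isEmpty]
  · have := IsClique.card_le_cliqueNum (G := G.induce S) (t := {v}) (tc := by simp)
    exact (Colorable.chromaticNumber_le (n := 1)
      ⟨Coloring.mk (fun _ => 0) fun h => (e ⟨_, _, h⟩).elim⟩).trans (by exact_mod_cast this)

abbrev GK := ℕ × List (ℕ × ℕ) × ℕ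

def tt (p : GK) : ℕ := p.1 * p.1 + p.1 + 1
def o1 (p : GK) : ℕ := tt p + p.2.2
def o2 (p : GK) : ℕ := o1 p + p.1 * p.1
def o3 (p : GK) : ℕ := o2 p + (tt p - p.2.2 * p.2.2)

def R (p : GK) (x y : ℕ) : Prop := x < o1 p ∧ o1 p ≤ y ∧ y < o3 p ∧ (o2 p ≤ y ∨
  ((y - o1 p) / p.1 = (y - o1 p) % p.1 ∨ ((y - o1 p) / p.1, (y - o1 p) % p.1) ∉ p.2.1) ∧
    x ≠ (y - o1 p) / p.1 ∧ x ≠ (y - o1 p) % p.1)

instance (p x y) : Decidable (R p x y) := by unfold R; infer_instance

def red (a b : ℕ) (p : GK) : ℕ × List (ℕ × ℕ) :=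
  (a * tt p / b, edgesOf (a * tt p / b) fun x y => decide (R p x y))

theorem pt_red (a b) : PT (red a b) := by
  unfold red
  refine PT.mk (by unfold tt; fun_prop) (PT.edgesOf (by unfold tt; fun_prop) ?_)
  unfold R o3 o2 o1 tt
  fun_prop

theorem cnt (N : ℕ) (P : ℕ → Prop) [DecidablePred P] :
    #{v : Fin N | P v} = #((range N).filter P) := by
  rw [← card_map Fin.valEmbedding]
  congr 1
  ext x
  simp [Fin.exists_iff, and_comm]

theorem key {p : GK} (h : p.1 = 3 * p.2.2) {X Y : Finset ℕ} (hX : tt p ≤ #X) (hY : tt p ≤ #Y)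
    (r : ∀ x ∈ X, ∀ y ∈ Y, R p x y) : ∃ S, IndepN p.1 p.2.1 S ∧ #S = p.2.2 := by
  obtain ⟨x0, hx⟩ := card_pos.1 (show 0 < #X by unfold tt at hX; omega)
  obtain ⟨y0, hy⟩ := card_pos.1 (show 0 < #Y by unfold tt at hY; omega)
  let S := range p.1 \ X
  let T := (S ×ˢ S).filter fun q => q.1 = q.2 ∨ q ∉ p.2.1
  have h1 : #S ≤ p.2.2 := by
    have := card_le_card (show X ∪ S ⊆ range (o1 p) from union_subset
      (fun x hx => mem_range.2 (r x hx y0 hy).1) (sdiff_subset.trans
        (range_mono (by unfold o1 tt; omega))))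
    rw [card_union_of_disjoint disjoint_sdiff, card_range, o1] at this
    change #(range p.1 \ X) ≤ _
    omega
  have h2 : p.2.2 * p.2.2 ≤ #T := by
    have := card_le_card (show Y ⊆ T.image (fun q => o1 p + (p.1 * q.1 + q.2)) ∪ Ico (o2 p) (o3 p) from
      fun y hy => by
        obtain ⟨-, a, b, c⟩ := r x0 hx y hy
        by_cases e : o2 p ≤ y
        · simp [e, b]
        have l : y - o1 p < p.1 * p.1 := by unfold o2 at e; omega
        have n : 0 < p.1 := Nat.pos_of_ne_zero fun h => by simp [h] at l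
        refine mem_union_left _ (mem_image.2 ⟨((y - o1 p) / p.1, (y - o1 p) % p.1), mem_filter.2
          ⟨mem_product.2 ⟨mem_sdiff.2 ⟨mem_range.2 (Nat.div_lt_of_lt_mul l), fun k => ?_⟩,
            mem_sdiff.2 ⟨mem_range.2 (Nat.mod_lt _ n), fun k => ?_⟩⟩, (c.resolve_left e).1⟩, ?_⟩)
        · exact ((r _ k y hy).2.2.2.resolve_left e).2.1 rfl
        · exact ((r _ k y hy).2.2.2.resolve_left e).2.2 rfl
        · rw [Nat.div_add_mod]; omega)
    have := this.trans ((card_union_le _ _).trans (add_le_add_left card_image_le _))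
    have : p.2.2 * p.2.2 ≤ tt p := by unfold tt; nlinarith
    rw [Nat.card_Ico, o3] at *
    omega
  have h3 := card_le_card (filter_subset _ _ : T ⊆ S ×ˢ S)
  have h4 := eq_of_subset_of_card_le (filter_subset _ _ : T ⊆ S ×ˢ S)
    (by rw [card_product]; exact (Nat.mul_le_mul h1 h1).trans h2)
  rw [card_product] at h3
  refine ⟨S, ⟨fun v hv => mem_range.1 (mem_sdiff.1 hv).1, fun u hu v hv n => ?_⟩,
    le_antisymm h1 (Nat.mul_self_le_mul_self_iff.1 (h2.trans h3))⟩
  exact (mem_filter.1 (h4.ge (mem_product.2 ⟨hu, hv⟩ : (u, v) ∈ _))).2.resolve_left n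

theorem back {p : GK} (h : p.1 = 3 * p.2.2) {S} (hS : IndepN p.1 p.2.1 S) (k : #S = p.2.2) :
    ∃ X Y : Finset ℕ, #X = tt p ∧ #Y = tt p ∧ ∀ x ∈ X, ∀ y ∈ Y, R p x y := by
  have : p.2.2 * p.2.2 ≤ tt p := by unfold tt; nlinarith
  have l : ∀ u ∈ S, ∀ v ∈ S, p.1 * u + v < p.1 * p.1 := fun u hu v hv => by
    have := hS.1 u hu; have := hS.1 v hv; nlinarith
  have d : ∀ u, ∀ v ∈ S, (p.1 * u + v) / p.1 = u ∧ (p.1 * u + v) % p.1 = v := fun u v hv => by
    have := hS.1 v hv
    rw [Nat.mul_add_div (by omega), Nat.mul_add_mod, Nat.div_eq_of_lt this, Nat.mod_eq_of_lt this]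
    simp
  refine ⟨range (o1 p) \ S, (S ×ˢ S).image (fun q => o1 p + (p.1 * q.1 + q.2)) ∪ Ico (o2 p) (o3 p),
    ?_, ?_, fun x hx y hy => ?_⟩
  · rw [card_sdiff_of_subset fun v hv => mem_range.2 (by have := hS.1 v hv; unfold o1 tt; omega),
      card_range, k, o1]
    omega
  · rw [card_union_of_disjoint, card_image_of_injOn, card_product, k, Nat.card_Ico, o3]
    · omega
    · rintro ⟨u, v⟩ h1 ⟨u', v'⟩ h2 e
      simp only [coe_product, Set.mem_prod, mem_coe, add_right_inj] at h1 h2 e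
      have a := d u v h1.2
      rw [e, (d u' v' h2.2).1, (d u' v' h2.2).2] at a
      rw [a.1, a.2]
    · simp only [Finset.disjoint_left, mem_image, mem_product, mem_Ico, o2]
      rintro _ ⟨q, ⟨a, b⟩, rfl⟩
      have := l _ a _ b; omega
  · obtain ⟨x1, x2⟩ := mem_sdiff.1 hx
    refine ⟨mem_range.1 x1, ?_⟩
    rcases mem_union.1 hy with hy | hy
    · obtain ⟨⟨u, v⟩, hq, rfl⟩ := mem_image.1 hy
      obtain ⟨a, b⟩ := mem_product.1 hq
      have := l u a v b
      dsimp only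
      rw [Nat.add_sub_cancel_left, (d u v b).1, (d u v b).2]
      exact ⟨by omega, by unfold o3 o2; omega, .inr ⟨or_iff_not_imp_left.2 (hS.2 u a v b),
        fun e => x2 (e ▸ a), fun e => x2 (e ▸ b)⟩⟩
    · have := mem_Ico.1 hy
      exact ⟨by unfold o2 at this; omega, this.2, .inl this.1⟩

theorem hard (c : ℚ) (hc : 4 ≤ c) : NPH (fun p : ℕ × List (ℕ × ℕ) => (graphOf p.1 p.2).Colorable 2)
    fun p => BSP c (graphOf p.1 p.2) := by
  refine indep_nph.reduce (red c.num.toNat c.den) (pt_red _ _) fun p ⟨h, _⟩ => ?_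
  have e : c.num.toNat * tt p / c.den = ⌊c * tt p⌋₊ := by
    rw [← Nat.floor_div_eq_div (K := ℚ)]
    congr 1
    have : ((c.num.toNat : ℤ) : ℚ) = c.num := by
      rw [Int.toNat_of_nonneg (Rat.num_nonneg.2 (by linarith))]
    push_cast at this ⊢
    rw [this, mul_div_right_comm, Rat.num_div_den]
  dsimp only [red]
  rw [e]
  have n1 := Nat.floor_le (show 0 ≤ c * tt p by positivity)
  have n2 := Nat.lt_floor_add_one (c * tt p)
  have n3 : 4 * tt p ≤ ⌊c * tt p⌋₊ := Nat.le_floor (by push_cast; gcongr)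
  generalize ⌊c * tt p⌋₊ = N at *
  have ad : ∀ {u v : Fin N}, (graphOf N (edgesOf N fun x y => decide (R p x y))).Adj u v ↔
      R p u v ∨ R p v u := fun {u v} => by
    rw [graphOf_edgesOf_adj, decide_eq_true_eq, decide_eq_true_eq, and_iff_right_iff_imp]
    unfold R; omega
  have sz : ∀ m : ℕ, (N : ℚ) / c ≤ m → tt p ≤ m := fun m hm => by
    rw [div_le_iff₀ (by linarith)] at hm
    by_contra k
    have : (m : ℚ) + 1 ≤ tt p := by exact_mod_cast not_le.1 k
    nlinarith
  refine ⟨⟨Coloring.mk (fun v => if v.val < o1 p then 0 else 1) fun {u v} h => ?_⟩, ?_, ?_⟩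
  · have := ad.1 h
    unfold R at this
    split_ifs <;> first | omega | simp
  · rintro ⟨S, hS, k⟩
    obtain ⟨X, Y, x, y, r⟩ := back h hS k
    have t0 : 0 < tt p := Nat.succ_pos _
    obtain ⟨x0, hx⟩ := card_pos.1 (x ▸ t0)
    obtain ⟨y0, hy⟩ := card_pos.1 (y ▸ t0)
    have o : o1 p ≤ o3 p ∧ o3 p + tt p ≤ N := by unfold o3 o2 o1; unfold tt at *; omega
    have bx : ∀ v ∈ X, v < o1 p := fun v hv => (r v hv y0 hy).1
    have by' : ∀ v ∈ Y, o1 p ≤ v ∧ v < o3 p := fun v hv => ⟨(r x0 hx v hv).2.1, (r x0 hx v hv).2.2.1⟩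
    let g : ℕ → Fin 4 := fun v => if v ∈ X then 2 else if v ∈ Y then 3 else if N - tt p ≤ v then 1 else 0
    have c1 : (range N).filter (g · = 1) = Ico (N - tt p) N := by ext v; simp only [g]; grind
    have c2 : (range N).filter (g · = 2) = X := by ext v; simp only [g]; grind
    have c3 : (range N).filter (g · = 3) = Y := by ext v; simp only [g]; grind
    have c4 := card_eq_sum_card_fiberwise (f := g) (s := range N) (t := univ) (by simp)
    rw [Fin.sum_univ_four, c1, c2, c3, card_range, Nat.card_Ico] at c4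
    have s : ∀ i, tt p ≤ #{v : Fin N | g v = i} := fun i => by
      rw [cnt N (g · = i)]
      fin_cases i
      · exact (show tt p ≤ #((range N).filter (g · = 0)) by omega)
      · erw [c1, Nat.card_Ico]; omega
      · erw [c2, x]
      · erw [c3, y]
    refine ⟨fun v => g v, fun u v a b k => ?_, fun u v a b => ad.2 (.inl (r _
      (c2.le (mem_filter.2 ⟨mem_range.2 u.2, a⟩)) _ (c3.le (mem_filter.2 ⟨mem_range.2 v.2, b⟩)))),
      fun i => ⟨?_, ?_⟩⟩
    · have := ad.1 k
      have := mem_Ico.1 (c1.le (mem_filter.2 ⟨mem_range.2 v.2, b⟩))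
      unfold R at *
      omega
    · obtain ⟨v, hv⟩ := card_pos.1 (t0.trans_le (s i))
      exact ⟨v, (mem_filter.1 hv).2⟩
    · rw [div_le_iff₀ (by linarith)]
      have : (tt p : ℚ) ≤ _ := Nat.cast_le.2 (s i)
      nlinarith
  · rintro ⟨f, -, h2, h3⟩
    have s : ∀ i, tt p ≤ #((univ.filter fun v => f v = i).map Fin.valEmbedding) := fun i => by
      rw [card_map]; exact sz _ (h3 i).2
    by_cases k : ∃ u, f u = 2 ∧ u.val < o1 p
    · obtain ⟨w, w1, w2⟩ := k
      refine key h (s 2) (s 3) ?_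
      simp only [mem_map, mem_filter, mem_univ, true_and]
      rintro _ ⟨u, hu, rfl⟩ _ ⟨v, hv, rfl⟩
      refine (ad.1 (h2 u v hu hv)).resolve_right fun k => ?_
      have := ad.1 (h2 w v w1 hv)
      unfold R at *
      omega
    · refine key h (s 3) (s 2) ?_
      simp only [mem_map, mem_filter, mem_univ, true_and]
      rintro _ ⟨u, hu, rfl⟩ _ ⟨v, hv, rfl⟩
      exact (ad.1 (h2 v u hv hu)).resolve_left fun r => k ⟨v, hv, r.1⟩

end Pool.Agent.H36.Bsp
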