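import Pool.Agent.H38.NP.Defs

/-!
Skew partitions of balanced size; perfect graphs.
-/

namespace Pool.Agent.H36.Bsp

/-- every induced subgraph has chromatic number equal to its clique number -/
def Perfect {V : Type} (G : SimpleGraph V) : Prop :=
  ∀ S : Set V, (G.induce S).chromaticNumber = (G.induce S).cliqueNum

/-- a partition into four nonempty parts `A, B, C, D` (labels `0, 1, 2, 3`), no edge between `A`
and `B`, all edges between `C` and `D`, every part with at least `n / c` vertices -/
def BSP (c : ℚ) {n : ℕ} (G : SimpleGraph (Fin n)) : Prop :=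
  ∃ f : Fin n → Fin 4, (∀ u v, f u = 0 → f v = 1 → ¬G.Adj u v) ∧
    (∀ u v, f u = 2 → f v = 3 → G.Adj u v) ∧
    ∀ i, (∃ v, f v = i) ∧ (n : ℚ) / c ≤ (Finset.univ.filter fun v => f v = i).card

end Pool.Agent.H36.Bsp
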