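import Pool.Agent.H36.Gr
import Pool.Agent.H38.NP.Clos

/-!
Chromatic discrepancy thresholds are coNP-hard.
-/

namespace Pool.Agent.H36.CDisc

open Pool.Agent.H38.NP Gr SimpleGraph Finset

/-- some proper colouring `c` has `|c(H)| - χ(H) ≤ k` for every induced subgraph `H` -/
def PhiLE {V : Type} (G : SimpleGraph V) (k : ℕ) : Prop :=
  ∃ c : G.Coloring ℕ, ∀ S : Finset V,
    ((S.image c).card : ℕ∞) ≤ k + (G.induce (S : Set V)).chromaticNumber

/-- the same with `H` ranging over the connected induced subgraphs -/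
def PhiHatLE {V : Type} (G : SimpleGraph V) (k : ℕ) : Prop :=
  ∃ c : G.Coloring ℕ, ∀ S : Finset V, (G.induce (S : Set V)).Connected →
    ((S.image c).card : ℕ∞) ≤ k + (G.induce (S : Set V)).chromaticNumber

def vs (q : ℕ) : List (ℕ × ℕ) := (2 * q, 0) :: (List.range (2 * q)).product (List.range (3 * q))

theorem mem_vs {q} {x : ℕ × ℕ} : x ∈ vs q ↔ (x.1 = 2 * q ∧ x.2 = 0) ∨ (x.1 < 2 * q ∧ x.2 < 3 * q) := by
  obtain ⟨a, b⟩ := x
  simp [vs]

theorem nd (q) : (vs q).Nodup :=
  List.nodup_cons.2 ⟨by simp, List.nodup_range.product List.nodup_range⟩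

def rr (φ : F3) (a b : ℕ × ℕ) : Bool := decide (a.1 = 2 * φ.length) ||
  (!decide (a.2 / 3 = b.2 / 3) && (!decide (a.1 = b.1) || conf φ a.2 b.2))

def red (φ : F3) : ℕ × List (ℕ × ℕ) × ℕ :=
  ((vs φ.length).length, (mkG (vs φ.length) (rr φ)).2, φ.length - 2)

theorem pt_red : PT red := by
  have h : PT fun φ : F3 => vs φ.length := by unfold vs; fun_prop
  have k : PT fun p : F3 × (ℕ × ℕ) × ℕ × ℕ => rr p.1 p.2.1 p.2.2 := by unfold rr; fun_prop
  exact h.length.mk ((pt_mkG h k).snd.mk (by fun_prop))

variable {φ : F3}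

theorem adj_iff {u v : Fin (vs φ.length).length} : (RG (vs φ.length) (rr φ)).Adj u v ↔ u ≠ v ∧
    ((code _ u).1 = 2 * φ.length ∨ (code _ v).1 = 2 * φ.length ∨ ((code _ u).2 / 3 ≠ (code _ v).2 / 3 ∧
      ((code _ u).1 ≠ (code _ v).1 ∨ conf φ (code _ u).2 (code _ v).2 = true))) := by
  rw [RG_adj (nd _), GC_adj, (code_inj (nd _)).ne_iff]
  simp only [rr, Bool.or_eq_true, Bool.and_eq_true, Bool.not_eq_true', decide_eq_true_eq,
    decide_eq_false_iff_not, conf_symm φ (code _ v).2]
  grind

def col (φ : F3) : (RG (vs φ.length) (rr φ)).Coloring ℕ :=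
  Coloring.mk (fun v => if (code _ v).1 = 2 * φ.length then φ.length else (code _ v).2 / 3) fun {u v} h => by
    have h1 := mem_vs.1 (code_mem _ u)
    have h2 := mem_vs.1 (code_mem _ v)
    obtain ⟨h, h'⟩ := adj_iff.1 h
    have : code _ u ≠ code _ v := (code_inj (nd _)).ne h
    rw [ne_eq, Prod.ext_iff] at this
    split_ifs <;> omega

theorem col_eq (v) : col φ v = if (code _ v).1 = 2 * φ.length then φ.length else (code _ v).2 / 3 := rfl

theorem clique_le {V : Type} {G : SimpleGraph V} {S K : Finset V} (h : K ⊆ S) (hK : G.IsClique K) :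
    (K.card : ℕ∞) ≤ (G.induce (S : Set V)).chromaticNumber := by
  classical
  have : (G.induce (S : Set V)).IsClique (K.subtype (· ∈ (S : Set V)) : Finset (S : Set V)) :=
    fun a ha b hb e => hK (by simpa using ha) (by simpa using hb) (Subtype.coe_ne_coe.2 e)
  have := this.card_le_chromaticNumber
  rwa [card_subtype, filter_true_of_mem (p := fun x => x ∈ (S : Set V)) fun x hx => h hx] at this

theorem unsat (h3 : 3 ≤ φ.length) (h : ¬Sat3 φ) : PhiLE (RG (vs φ.length) (rr φ)) (φ.length - 2) := by
  refine ⟨col φ, fun S => ?_⟩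
  let A := S.filter fun v => (code _ v).1 = 2 * φ.length
  let B := S.filter fun v => ¬(code _ v).1 = 2 * φ.length
  have hB : B.image (col φ) ⊆ range φ.length := fun x hx => by
    obtain ⟨v, hv, rfl⟩ := mem_image.1 hx
    have := mem_vs.1 (code_mem _ v)
    have := (mem_filter.1 hv).2
    rw [col_eq, if_neg this, mem_range]; omega
  have key : ∃ K ⊆ B, (RG (vs φ.length) (rr φ)).IsClique K ∧
      (B.image (col φ)).card ≤ φ.length - 2 + K.card := by
    have c := card_le_card hB
    rw [card_range] at c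
    by_cases c1 : (B.image (col φ)).card ≤ φ.length - 2
    · exact ⟨∅, by simp, by simp, c1⟩
    by_cases c2 : (B.image (col φ)).card ≤ φ.length - 1
    · obtain ⟨x, hx⟩ := (card_pos.1 (show 0 < (B.image (col φ)).card by omega)).of_image
      exact ⟨{x}, by simpa using hx, by simp, by rw [card_singleton]; omega⟩
    have e := eq_of_subset_of_card_le hB (by rw [card_range]; omega)
    have : ∀ d, ∃ v, d < φ.length → v ∈ B ∧ (code _ v).2 / 3 = d := fun d => by
      by_cases hd : d < φ.length
      · obtain ⟨v, hv, e⟩ := mem_image.1 (e ▸ mem_range.2 hd)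
        exact ⟨v, fun _ => ⟨hv, by rwa [col_eq, if_neg (mem_filter.1 hv).2] at e⟩⟩
      · exact ⟨⟨0, by simp [vs]⟩, fun h => absurd h hd⟩
    choose s hs using this
    by_contra hc
    refine h ((sat3_iff_sel φ).2 ⟨fun d => (code _ (s d)).2, fun d hd => (hs d hd).2, fun a ha b hb => ?_⟩)
    by_contra k
    have n : a ≠ b := by rintro rfl; simp at k
    have n' : s a ≠ s b := fun e => n (by rw [← (hs a ha).2, e, (hs b hb).2])
    refine hc ⟨{s a, s b}, by simp [insert_subset_iff, (hs a ha).1, (hs b hb).1], ?_,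
      by rw [card_pair n']; omega⟩
    rw [coe_pair, isClique_pair]
    exact fun _ => adj_iff.2 ⟨n', .inr (.inr ⟨by rw [(hs a ha).2, (hs b hb).2]; exact n,
      .inr (by simpa using k)⟩)⟩
  obtain ⟨K, k1, k2, k3⟩ := key
  have d : Disjoint A K := (disjoint_filter_filter_not _ _ _).mono_right k1
  have := clique_le (S := S) (K := A ∪ K) (G := RG (vs φ.length) (rr φ))
    (union_subset (filter_subset _ _) (k1.trans (filter_subset _ _))) fun a ha b hb e => by
      rw [coe_union] at ha hb
      rcases ha with ha | ha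
      · exact adj_iff.2 ⟨e, .inl (mem_filter.1 ha).2⟩
      rcases hb with hb | hb
      exacts [adj_iff.2 ⟨e, .inr (.inl (mem_filter.1 hb).2)⟩, k2 ha hb e]
  refine le_trans ?_ (add_le_add_right this _)
  rw [card_union_of_disjoint d, ← filter_union_filter_not_eq (p := fun v => (code _ v).1 = 2 * φ.length) S,
    image_union]
  have := (card_union_le (A.image (col φ)) (B.image (col φ))).trans (add_le_add card_image_le k3)
  exact_mod_cast this.trans_eq (by omega)

theorem sat (h3 : 3 ≤ φ.length) (h : Sat3 φ) : ¬PhiHatLE (RG (vs φ.length) (rr φ)) (φ.length - 2) := by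
  rintro ⟨c, hc⟩
  obtain ⟨s, s1, s2⟩ := (sat3_iff_sel φ).1 h
  let z := ix (nd φ.length) (2 * φ.length, 0) (by simp [vs])
  have zc : (code _ z).1 = 2 * φ.length := by simp [z]
  have conn : ∀ S : Finset _, z ∈ S → ((RG (vs φ.length) (rr φ)).induce (S : Set _)).Connected :=
    fun S hz => (connected_iff_exists_forall_reachable _).2 ⟨⟨z, hz⟩, fun v => by
      by_cases e : z = v.1
      · exact (Subtype.ext e : (⟨z, hz⟩ : (S : Set _)) = v) ▸ Reachable.refl _
      · exact Adj.reachable (adj_iff.2 ⟨e, .inl zc⟩)⟩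
  have : ∀ l d, ∃ v, l < 2 * φ.length → d < φ.length → code (vs φ.length) v = (l, s d) := fun l d => by
    by_cases e : l < 2 * φ.length ∧ d < φ.length
    · exact ⟨ix (nd _) (l, s d) (mem_vs.2 (.inr ⟨e.1, by have := s1 d e.2; dsimp only; omega⟩)),
        fun _ _ => by simp⟩
    · exact ⟨z, fun a b => absurd ⟨a, b⟩ e⟩
  choose t ht using this
  by_cases k : ∃ l < 2 * φ.length, Set.InjOn (fun d => c (t l d)) (range φ.length)
  · obtain ⟨l, hl, k⟩ := k
    have h1 := hc (insert z ((range φ.length).image (t l))) (conn _ (mem_insert_self _ _))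
    have h2 : ((RG (vs φ.length) (rr φ)).induce
        (insert z ((range φ.length).image (t l)) : Finset _)).Colorable 2 := by
      refine ⟨Coloring.mk (fun v => if v.1 = z then 0 else 1) ?_⟩
      rintro ⟨u, hu⟩ ⟨v, hv⟩ h
      replace h := adj_iff.1 h
      simp only [coe_insert, coe_image, Set.mem_insert_iff, Set.mem_image, mem_coe, mem_range] at hu hv
      dsimp only
      split_ifs with a b b
      · exact absurd (a.trans b.symm) h.1
      · simp
      · simp
      · obtain ⟨d, hd, rfl⟩ := hu.resolve_left a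
        obtain ⟨e, he, rfl⟩ := hv.resolve_left b
        simp [ht l d hl hd, ht l e hl he, s2 d hd e he, hl.ne] at h
    have h4 : c z ∉ ((range φ.length).image (t l)).image c := fun h => by
      obtain ⟨v, hv, e⟩ := mem_image.1 h
      obtain ⟨d, hd, rfl⟩ := mem_image.1 hv
      refine c.valid (adj_iff.2 ⟨fun e => ?_, .inr (.inl zc)⟩) e
      rw [← e, ht l d hl (mem_range.1 hd)] at zc
      exact hl.ne zc
    rw [image_insert, card_insert_of_notMem h4, image_image, card_image_of_injOn (f := c ∘ t l) k, card_range] at h1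
    have := h1.trans (add_le_add_right h2.chromaticNumber_le _)
    norm_cast at this
    omega
  · have : ∀ l, ∃ d e, l < 2 * φ.length → d < φ.length ∧ e < φ.length ∧ d ≠ e ∧ c (t l d) = c (t l e) :=
      fun l => by
        by_contra h
        push Not at h
        exact k ⟨l, (h 0 0).1, fun d hd e he x => by
          by_contra n
          exact (h d e).2 (by simpa using hd) (by simpa using he) n x⟩
    choose d e hde using this
    have h1 := hc univ (conn _ (mem_univ _))
    have h2 : ((RG (vs φ.length) (rr φ)).induce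
        (univ : Finset (Fin (vs φ.length).length))).Colorable (φ.length + 1) := by
      refine ⟨Coloring.mk (fun v => ⟨col φ v.1, ?_⟩) fun {u v} h e => (col φ).valid h (congrArg Fin.val e)⟩
      have := mem_vs.1 (code_mem _ v.1)
      rw [col_eq]; split_ifs <;> omega
    have h5 := card_le_card_of_injOn (s := range (2 * φ.length)) (t := univ.image c)
      (fun l => c (t l (d l))) (fun l _ => by simp) fun l hl l' hl' x => by
        by_contra n
        replace hl : l < 2 * φ.length := by simpa using hl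
        replace hl' : l' < 2 * φ.length := by simpa using hl'
        obtain ⟨a1, a2, a3, a4⟩ := hde l hl
        obtain ⟨b1, -⟩ := hde l' hl'
        have ad : ∀ a < φ.length, a ≠ d l' → c (t l a) ≠ c (t l' (d l')) := fun a ha na =>
          c.valid (adj_iff.2 ⟨fun e => n (by
            have := congrArg (fun v => (code _ v).1) e
            simpa [ht l a hl ha, ht l' _ hl' b1] using this), .inr (.inr (by
              simp [ht l a hl ha, ht l' _ hl' b1, s1 a ha, s1 _ b1, na, n]))⟩)
        by_cases y : d l = d l'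
        exacts [ad _ a2 (y ▸ a3.symm) (a4 ▸ x), ad _ a1 y x]
    have := h1.trans (add_le_add_right h2.chromaticNumber_le _)
    norm_cast at this
    rw [card_range] at h5
    omega

theorem hard (Q : ℕ × List (ℕ × ℕ) × ℕ → Prop) (h1 : ∀ p, PhiLE (graphOf p.1 p.2.1) p.2.2 → Q p)
    (h2 : ∀ p, Q p → PhiHatLE (graphOf p.1 p.2.1) p.2.2) : CoNPHard (lang Q) :=
  (sat3_odd_nph.reduce (C' := fun _ => True) (P' := fun p => ¬Q p) red pt_red fun _ h =>
    ⟨trivial, fun s q => sat h.2 s (h2 _ q), fun q => by_contra fun s => q (h1 _ (unsat h.2 s))⟩).coNPHard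
    fun _ _ => Iff.rfl

end Pool.Agent.H36.CDisc
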