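import Pool.Agent.H36.CRevDefs
import Pool.Agent.H36.Ilp

/-!
The colour-reversal number is at least the number of vertices, hence fixed-parameter tractable.
-/

namespace Pool.Agent.H36.CRev

open Pool.Agent.H38.NP Pool.Agent.H36.Par

variable {V : Type}

theorem lc_adj {G : SimpleGraph V} {a x y} :
    (lc G a).Adj x y ↔ x ≠ y ∧ Xor (G.Adj x y) (G.Adj a x ∧ G.Adj a y) := by
  rw [lc, SimpleGraph.fromRel_adj, G.adj_comm y x, and_comm (a := G.Adj a y), or_self]

open Classical in
noncomputable def mat (B : SimpleGraph V × (V → ℤˣ)) : Matrix V V (ZMod 2) := fun x y =>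
  if x = y then (if B.2 x = 1 then 0 else 1) else if B.1.Adj x y then 1 else 0

theorem neg_one_iff (u : ℤˣ) : -u = 1 ↔ ¬ u = 1 := by
  rcases Int.units_eq_one_or u with rfl | rfl <;> decide

open Classical in
theorem mat_linv (B : SimpleGraph V × (V → ℤˣ)) (a : V) : mat (linv B a) = mat B +
    Matrix.vecMulVec (fun x => if B.1.Adj a x then 1 else 0)
      (fun x => if B.1.Adj a x then 1 else 0) := by
  ext x y
  have two : (1 : ZMod 2) + 1 = 0 := rfl
  by_cases e : x = y
  · subst e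
    by_cases h : B.1.Adj a x <;> by_cases h' : B.2 x = 1 <;>
      simp [mat, linv, Matrix.vecMulVec_apply, h, h', neg_one_iff, two]
  · by_cases h : B.1.Adj a x <;> by_cases h' : B.1.Adj a y <;> by_cases h'' : B.1.Adj x y <;>
      simp [mat, linv, lc_adj, Matrix.vecMulVec_apply, h, h', h'', e, two, Xor]

theorem rank_add [Fintype V] (A B : Matrix V V (ZMod 2)) : (A + B).rank ≤ A.rank + B.rank := by
  unfold Matrix.rank
  rw [Matrix.mulVecLin_add]
  exact (Submodule.finrank_mono (LinearMap.range_add_le _ _)).trans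
    (Submodule.finrank_add_le_finrank_add_finrank _ _)

theorem rank_le [Fintype V] (w : List V) (B : SimpleGraph V × (V → ℤˣ)) :
    (mat (w.foldl linv B) - mat B).rank ≤ w.length := by
  induction w using List.reverseRecOn with
  | nil => simp
  | append_singleton w a ih =>
    rw [List.foldl_append, List.foldl_cons, List.foldl_nil, mat_linv, add_sub_right_comm,
      List.length_append]
    exact (rank_add _ _).trans (add_le_add ih (Matrix.rank_vecMulVec_le _ _))

theorem lower [Fintype V] {G : SimpleGraph V} {k} (h : CrLe G k) : Fintype.card V ≤ k := by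
  classical
  obtain ⟨l, hl, h⟩ := h
  obtain ⟨w, h1, h2⟩ := h fun _ => 1
  have := rank_le w (G, fun _ => 1)
  rw [h2, show mat (G, fun _ => -1) - mat (G, fun _ => 1) = 1 from by
    ext x y
    by_cases e : x = y <;> simp [mat, e, neg_one_iff, Matrix.one_apply], Matrix.rank_one] at this
  omega

def sq (n : ℕ) : List (ℕ × ℕ) := (List.range n).product (List.range n)

def stp (n : ℕ) (L : List (ℕ × ℕ)) (a : ℕ) : List (ℕ × ℕ) :=
  (sq n).filter fun p => xor (decide (p ∈ L))
    (decide (p.1 ≠ a ∧ (a, p.1) ∈ L ∧ p.2 ≠ a ∧ (a, p.2) ∈ L))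

def ini (p : GK) : List (ℕ × ℕ) :=
  (sq p.1).filter fun q => decide (q.1 ≠ q.2 ∧ (q ∈ p.2.1 ∨ (q.2, q.1) ∈ p.2.1))

def good (p : GK) (w : List ℕ) : Bool :=
  (sq p.1).all fun q => decide (q ∈ w.foldl (stp p.1) (ini p)) == decide (q.1 = q.2 ∨ q ∈ ini p)

theorem mem_sq {n} {p : ℕ × ℕ} : p ∈ sq n ↔ p.1 < n ∧ p.2 < n := by
  obtain ⟨a, b⟩ := p
  simp [sq]

def Rel {n} (β : Fin n → ℤˣ) (L : List (ℕ × ℕ)) (B : SimpleGraph (Fin n) × (Fin n → ℤˣ)) : Prop :=
  (∀ p ∈ L, p ∈ sq n) ∧ (∀ x y : Fin n, x ≠ y → ((x.val, y.val) ∈ L ↔ B.1.Adj x y)) ∧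
    ∀ x : Fin n, (x.val, x.val) ∈ L ↔ B.2 x = -β x

theorem Rel.step {n β L B} (h : Rel (n := n) β L B) (a : Fin n) :
    Rel β (stp n L a) (linv B a) := by
  have k : ∀ x : Fin n, (x.val ≠ a.val ∧ (a.val, x.val) ∈ L) ↔ B.1.Adj a x := fun x =>
    ⟨fun h' => (h.2.1 a x fun e => h'.1 (e ▸ rfl)).1 h'.2,
      fun h' => ⟨fun e => h'.ne' (Fin.ext e), (h.2.1 a x h'.ne).2 h'⟩⟩
  have m : ∀ x y : Fin n, (x.val, y.val) ∈ stp n L a ↔
      Xor ((x.val, y.val) ∈ L) (B.1.Adj a x ∧ B.1.Adj a y) := fun x y => by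
    rw [← k, ← k]
    simp only [stp, List.mem_filter, mem_sq, x.2, y.2, true_and, and_assoc]
    by_cases h1 : (x.val, y.val) ∈ L <;>
      by_cases h2 : x.val ≠ a.val ∧ (a.val, x.val) ∈ L ∧ y.val ≠ a.val ∧ (a.val, y.val) ∈ L <;>
      simp only [h1, h2, Xor] <;> simp [h2]
  refine ⟨fun p hp => (List.mem_filter.1 hp).1, fun x y hxy => ?_, fun x => ?_⟩
  · rw [m, h.2.1 x y hxy, linv, lc_adj, and_iff_right hxy]
  · rw [m, h.2.2, and_self, linv]
    by_cases h1 : B.1.Adj a x <;> rcases Int.units_eq_one_or (B.2 x) with h2 | h2 <;>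
      rcases Int.units_eq_one_or (β x) with h3 | h3 <;> simp [h1, h2, h3, Xor] <;> decide

theorem Rel.noop {n β L B} (h : Rel (n := n) β L B) {a} (ha : n ≤ a) : Rel β (stp n L a) B := by
  have m : ∀ p, p ∈ stp n L a ↔ p ∈ L := fun p => by
    have : (a, p.1) ∉ L := fun h' => by have := mem_sq.1 (h.1 _ h'); omega
    simpa [stp, this] using h.1 p
  simpa only [Rel, m] using h

theorem Rel.run {n β} (w : List ℕ) {L B} (h : Rel (n := n) β L B) :
    Rel β (w.foldl (stp n) L)
      ((w.filterMap fun a => if h : a < n then some ⟨a, h⟩ else none).foldl linv B) := by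
  induction w generalizing L B with
  | nil => exact h
  | cons a w ih =>
    by_cases ha : a < n
    · simpa [ha] using ih (h.step ⟨a, ha⟩)
    · simpa [ha] using ih (h.noop (not_lt.1 ha))

theorem rel_ini (p : GK) (β) : Rel β (ini p) (graphOf p.1 p.2.1, β) := by
  refine ⟨fun p hp => (List.mem_filter.1 hp).1, fun x y hxy => ?_, fun x => ?_⟩
  · simp [ini, mem_sq, graphOf_adj, hxy, Fin.val_ne_of_ne hxy]
  · rcases Int.units_eq_one_or (β x) with h | h <;> simp [ini, h] <;> decide

theorem good_iff (p : GK) (β) (w : List ℕ) : good p w = true ↔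
    (w.filterMap fun a => if h : a < p.1 then some ⟨a, h⟩ else none).foldl linv
      (graphOf p.1 p.2.1, β) = (graphOf p.1 p.2.1, fun x => -β x) := by
  have h0 := rel_ini p β
  have h := h0.run w
  generalize List.foldl linv _ _ = B at h
  simp only [good, List.all_eq_true, beq_iff_eq, decide_eq_decide]
  constructor
  · intro hg
    refine Prod.ext ?_ (funext fun x => (h.2.2 x).1 ((hg _ (mem_sq.2 ⟨x.2, x.2⟩)).2 (.inl rfl)))
    ext x y
    by_cases e : x = y
    · simp [e]
    · rw [← h.2.1 x y e, ← h0.2.1 x y e, hg _ (mem_sq.2 ⟨x.2, y.2⟩)]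
      simp [Fin.val_ne_of_ne e]
  · rintro rfl ⟨x, y⟩ hq
    obtain ⟨hx, hy⟩ := mem_sq.1 hq
    by_cases e : x = y
    · subst e
      simpa using h.2.2 ⟨x, hx⟩
    · have e' : (⟨x, hx⟩ : Fin p.1) ≠ ⟨y, hy⟩ := fun h => e (congrArg Fin.val h)
      simpa [e] using (h.2.1 _ _ e').trans (h0.2.1 _ _ e').symm

def dcd (p : GK) : Bool :=
  decide (p.1 ≤ p.2.2) && (words (List.range (p.2.2 + 1)) p.2.2).any (good p)

theorem dcd_iff (p : GK) : CrLe (graphOf p.1 p.2.1) p.2.2 ↔ dcd p = true := by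
  simp only [dcd, Bool.and_eq_true, decide_eq_true_eq, List.any_eq_true, mem_words]
  constructor
  · intro h
    have h1 : p.1 ≤ p.2.2 := by simpa using lower h
    obtain ⟨l, hl, h⟩ := h
    obtain ⟨w, h2, h3⟩ := h fun _ => 1
    refine ⟨h1, w.map Fin.val ++ List.replicate (p.2.2 - w.length) p.1, ?_,
      (good_iff p (fun _ => 1) _).2 ?_⟩
    · refine ⟨by simp; omega, fun x hx => List.mem_range.2 ?_⟩
      rcases List.mem_append.1 hx with h | h
      · obtain ⟨y, -, rfl⟩ := List.mem_map.1 h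
        omega
      · rw [List.eq_of_mem_replicate h]; omega
    · simpa [List.filterMap_append, List.filterMap_map, Function.comp_def] using h3
  · rintro ⟨-, w, h1, h2⟩
    exact ⟨_, le_rfl, fun β => ⟨_, (List.length_filterMap_le _ _).trans h1.1.le,
      (good_iff p β w).1 h2⟩⟩

theorem pt_good : PT fun q : GK × List ℕ => good q.1 q.2 := by
  have h0 : PT fun q : GK × List ℕ => sq q.1.1 := by unfold sq; fun_prop
  have h1 : PT fun q : GK × List ℕ => ini q.1 := by unfold ini sq; fun_prop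
  have h2 : PT fun q : GK × List ℕ => q.2.foldl (stp q.1.1) (ini q.1) :=
    PT.foldl (f := fun q : GK × List ℕ => stp q.1.1) (by unfold stp sq; fun_prop) (by fun_prop) h1
      h0.pb fun q k => sz_le_of_sublist (by
        induction q.2.take k using List.reverseRecOn with
        | nil => exact List.filter_sublist
        | append_singleton w a _ => rw [List.foldl_append]; exact List.filter_sublist)
  have h3 : PT fun q : List (ℕ × ℕ) × List (ℕ × ℕ) × List (ℕ × ℕ) =>
      q.1.all fun x => decide (x ∈ q.2.1) == decide (x.1 = x.2 ∨ x ∈ q.2.2) := by fun_prop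
  exact h3.comp (h0.mk (h2.mk h1))

theorem fpt : FPTOn (fun _ : GK => True) (fun p => CrLe (graphOf p.1 p.2.1) p.2.2) kOf := by
  have h1 : FT kOf fun p : GK => words (List.range (p.2.2 + 1)) p.2.2 :=
    FT.words (FT.of_pt (by fun_prop)) (FT.of_pt (by fun_prop))
      (CB.pt (f := fun k : ℕ => List.range (k + 1)) (by fun_prop) (g := kOf)
        (CB.par.mono fun a => by simp)) CB.par
  have h2 : PT fun q : GK × List (List ℕ) => decide (q.1.1 ≤ q.1.2.2) && q.2.any (good q.1) :=
    PT.and (by fun_prop) (PT.any (pt_good.comp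
      (g := fun r : (GK × List (List ℕ)) × List ℕ => (r.1.1, r.2)) (by fun_prop)) (by fun_prop))
  have h3 := FT.comp h2 ((FT.of_pt PT.id').mk h1)
  exact h3.fptOn fun p _ => dcd_iff p

end Pool.Agent.H36.CRev
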