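import Pool.Agent.H36.ParDefs

/-!
Local inversions of bicolored graphs and the colour-reversal number.
-/

namespace Pool.Agent.H36.CRev

variable {V : Type}

/-- local complement at `a`: toggle the adjacency of distinct neighbours of `a` -/
def lc (G : SimpleGraph V) (a : V) : SimpleGraph V :=
  SimpleGraph.fromRel fun x y => Xor (G.Adj x y) (G.Adj a x ∧ G.Adj a y)

open Classical in
/-- local inversion at `a` of a graph with a bicoloration (values in the units `1, -1` of the
integers) -/
noncomputable def linv (B : SimpleGraph V × (V → ℤˣ)) (a : V) : SimpleGraph V × (V → ℤˣ) :=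
  (lc B.1 a, fun x => if B.1.Adj a x then -B.2 x else B.2 x)

/-- the colour-reversal number of `G` is at most `k` -/
def CrLe (G : SimpleGraph V) (k : ℕ) : Prop :=
  ∃ l ≤ k, ∀ β : V → ℤˣ, ∃ w : List V, w.length ≤ l ∧ w.foldl linv (G, β) = (G, fun x => -β x)

end Pool.Agent.H36.CRev
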