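import Pool.Agent.H36.CisDefs
import Pool.Agent.H36.Gr

namespace Pool.Agent.H36.Cis

open Pool.Agent.H38.NP Pool.Agent.H36.Gr

section
variable {W : Type} {G : SimpleGraph W}

theorem maxI_iff {S : Set W} : Maximal G.IsIndepSet S ↔
    (∀ a ∈ S, ∀ b ∈ S, ¬ G.Adj a b) ∧ ∀ v ∉ S, ∃ s ∈ S, G.Adj v s := by
  have e : ∀ T : Set W, G.IsIndepSet T ↔ ∀ a ∈ T, ∀ b ∈ T, ¬ G.Adj a b := fun T =>
    ⟨fun h a ha b hb e => h ha hb e.ne e, fun h a ha b hb _ => h a ha b hb⟩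
  constructor
  · intro h
    refine ⟨(e S).1 h.1, fun v hv => ?_⟩
    by_contra hh
    push Not at hh
    refine hv (h.2 (y := insert v S) ((e _).2 ?_) (Set.subset_insert _ _) (Set.mem_insert _ _))
    rintro a (rfl | ha) b (rfl | hb)
    · exact G.irrefl
    · exact hh b hb
    · exact fun e => hh a ha e.symm
    · exact (e S).1 h.1 a ha b hb
  · rintro ⟨h1, h2⟩
    refine ⟨(e S).2 h1, fun T hT hS v hv => ?_⟩
    by_contra hh
    obtain ⟨s, hs, e'⟩ := h2 v hh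
    exact (e T).1 hT v hv s (hS hs) e'

theorem maxC_iff {C : Set W} : Maximal G.IsClique C ↔
    (∀ a ∈ C, ∀ b ∈ C, a ≠ b → G.Adj a b) ∧ ∀ v ∉ C, ∃ s ∈ C, ¬ G.Adj v s := by
  constructor
  · intro h
    refine ⟨fun a ha b hb => h.1 ha hb, fun v hv => ?_⟩
    by_contra hh
    push Not at hh
    refine hv (h.2 (y := insert v C) ?_ (Set.subset_insert _ _) (Set.mem_insert _ _))
    exact h.1.insert fun b hb _ => hh b hb
  · rintro ⟨h1, h2⟩
    refine ⟨fun a ha b hb => h1 a ha b hb, fun T hT hS v hv => ?_⟩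
    by_contra hh
    obtain ⟨s, hs, e'⟩ := h2 v hh
    exact e' (hT hv (hS hs) fun e => hh (e ▸ hs))

theorem CIS.edgeStrong [Finite W] (h : CIS G) : EdgeStrong G := fun u v e => by
  obtain ⟨C, h1, h2⟩ := Finite.exists_le_maximal (p := G.IsClique) (a := {u, v})
    (SimpleGraph.isClique_pair.2 fun _ => e)
  exact ⟨C, ⟨h2.1, fun S => h C S h2⟩, h1 (by simp), h1 (by simp)⟩

theorem EdgeStrong.triangle (h : EdgeStrong G) : Triangle G := fun S hS u v e hu hv => by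
  obtain ⟨C, ⟨h1, h2⟩, h3, h4⟩ := h u v e
  obtain ⟨s, h5, h6⟩ := h2 S hS
  exact ⟨s, h6, h1 h5 h3 fun e => hu (e ▸ h6), h1 h5 h4 fun e => hv (e ▸ h6)⟩

theorem Equistable.triangle [Fintype W] (h : Equistable G) : Triangle G := by
  classical
  obtain ⟨t, -, w, h⟩ := h
  intro S hS u v e hu hv
  by_contra hh
  push Not at hh
  have hS' := maxI_iff.1 hS
  have ex : ∀ x ∉ S, ∃ T : Finset W, Maximal G.IsIndepSet (T : Set W) ∧ x ∈ T ∧
      ∀ s ∈ S, s ∈ T ↔ ¬ G.Adj x s := by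
    intro x hx
    obtain ⟨T, h1, h2⟩ := Finite.exists_le_maximal (p := G.IsIndepSet)
      (a := insert x {s ∈ S | ¬ G.Adj x s}) (by
        rintro a (rfl | ha) b (rfl | hb) e
        · exact G.irrefl
        · exact hb.2
        · exact fun e => ha.2 e.symm
        · exact hS'.1 a ha.1 b hb.1)
    refine ⟨T.toFinset, by simpa using h2, by simpa using h1 (Set.mem_insert _ _), fun s hs => ?_⟩
    rw [Set.mem_toFinset]
    exact ⟨fun h => (maxI_iff.1 h2).1 _ (h1 (Set.mem_insert _ _)) _ h,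
      fun h => h1 (Set.mem_insert_of_mem _ ⟨hs, h⟩)⟩
  obtain ⟨A, a1, a2, a3⟩ := ex u hu
  obtain ⟨B, b1, b2, b3⟩ := ex v hv
  have h1 : S.toFinset ⊆ A ∪ B := fun s hs => by
    rw [Set.mem_toFinset] at hs
    rw [Finset.mem_union, a3 s hs, b3 s hs]
    by_contra c
    push Not at c
    exact hh s hs c.1.symm c.2.symm
  have h2 : A ∩ B ⊆ S.toFinset := fun y hy => by
    rw [Set.mem_toFinset]
    by_contra c
    obtain ⟨s, hs, e⟩ := hS'.2 y c
    rcases Finset.mem_union.1 (h1 (Set.mem_toFinset.2 hs)) with h | h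
    · exact (maxI_iff.1 a1).1 y (Finset.mem_inter.1 hy).1 s h e
    · exact (maxI_iff.1 b1).1 y (Finset.mem_inter.1 hy).2 s h e
  have e1 := (h A).1 a1
  have e2 := (h B).1 b1
  have e3 := (h S.toFinset).1 (by simpa using hS)
  have e4 := Finset.sum_union_inter (s₁ := A) (s₂ := B) (f := w)
  have e5 := Finset.sum_sdiff (f := w) h1
  have e6 := Finset.sum_union (f := w) (s₁ := (A ∪ B) \ S.toFinset) (s₂ := A ∩ B)
    (Finset.disjoint_of_subset_right h2 Finset.sdiff_disjoint)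
  have := (maxI_iff.1 ((h ((A ∪ B) \ S.toFinset ∪ A ∩ B)).2 (by omega))).1
  exact this u (by simp [a2, hu]) v (by simp [b2, hv]) e

theorem EdgeStrong.equistable [Fintype W] [Nonempty W] (h : EdgeStrong G) : Equistable G := by
  classical
  have hv : ∀ v, ∃ C, Strong G C ∧ v ∈ C := by
    intro v
    by_cases e : ∃ u, G.Adj v u
    · obtain ⟨u, e⟩ := e
      obtain ⟨C, h1, h2, -⟩ := h v u e
      exact ⟨C, h1, h2⟩
    · refine ⟨{v}, ⟨by simp, fun S hS => ⟨v, rfl, ?_⟩⟩, rfl⟩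
      by_contra c
      obtain ⟨s, -, e'⟩ := (maxI_iff.1 hS).2 v c
      exact e ⟨s, e'⟩
  let I := {C : Set W // Strong G C}
  let m := Fintype.card I
  let q : Fin m → I := (Fintype.equivFin I).symm
  have hq : ∀ C, Strong G C → ∃ i, (q i).1 = C := fun C h =>
    ⟨Fintype.equivFin I ⟨C, h⟩, by simp [q]⟩
  let B := Fintype.card W + 2
  let d : Finset W → Fin m → Fin B := fun S i => ⟨(S.filter (· ∈ (q i).1)).card,
    (Finset.card_le_univ _).trans_lt (by omega)⟩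
  have hd : ∀ S : Finset W, ∑ v ∈ S, ∑ i : Fin m, (if v ∈ (q i).1 then B ^ i.val else 0) =
      finFunctionFinEquiv (d S) := by
    intro S
    rw [Finset.sum_comm, finFunctionFinEquiv_apply]
    refine Finset.sum_congr rfl fun i _ => ?_
    rw [← Finset.sum_filter]
    simp [d]
  have one : ∀ S : Finset W, Maximal G.IsIndepSet (S : Set W) → d S = fun _ => ⟨1, by omega⟩ := by
    intro S hS
    funext i
    obtain ⟨s, h1, h2⟩ := (q i).2.2 _ hS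
    refine Fin.ext (Finset.card_eq_one.2 ⟨s, Finset.eq_singleton_iff_unique_mem.2
      ⟨Finset.mem_filter.2 ⟨h2, h1⟩, fun x hx => ?_⟩⟩)
    by_contra c
    exact (maxI_iff.1 hS).1 x (Finset.mem_filter.1 hx).1 s h2
      ((q i).2.1 (Finset.mem_filter.1 hx).2 h1 c)
  refine ⟨finFunctionFinEquiv (fun _ : Fin m => (⟨1, by omega⟩ : Fin B)), ?_,
    fun v => ∑ i : Fin m, if v ∈ (q i).1 then B ^ i.val else 0, fun S => ?_⟩
  · obtain ⟨C, hC, -⟩ := hv (Classical.arbitrary W)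
    obtain ⟨i, -⟩ := hq C hC
    rw [finFunctionFinEquiv_apply]
    exact Finset.sum_pos (fun i _ => by positivity) ⟨i, Finset.mem_univ _⟩
  rw [hd, Fin.val_inj, EmbeddingLike.apply_eq_iff_eq]
  refine ⟨one S, fun e => ?_⟩
  have e : ∀ C, Strong G C → (S.filter (· ∈ C)).card = 1 := fun C hC => by
    obtain ⟨i, rfl⟩ := hq C hC
    exact congrArg Fin.val (congrFun e i)
  refine maxI_iff.2 ⟨fun a ha b hb c => ?_, fun v hn => ?_⟩
  · obtain ⟨C, h1, h2, h3⟩ := h a b c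
    exact c.ne (Finset.card_le_one.1 (e C h1).le a (Finset.mem_filter.2 ⟨ha, h2⟩) b
      (Finset.mem_filter.2 ⟨hb, h3⟩))
  · obtain ⟨C, h1, h2⟩ := hv v
    obtain ⟨s, hs⟩ := Finset.card_pos.1 (e C h1).ge
    rw [Finset.mem_filter] at hs
    exact ⟨s, hs.1, h1.1 h2 hs.2 fun c => hn (c ▸ hs.1)⟩

end

/-! ### the reduction -/

abbrev V := ℕ × ℕ × Bool

def ok (ψ : CNF ℕ) (N : ℕ) (c : V) : Bool :=
  if c.1 = 0 then decide (c.2.1 < N) else if c.2.1 = 0 then !c.2.2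
  else !(ψ.getD (c.1 - 1) []).contains (c.2.1 - 1, true) &&
    !(ψ.getD (c.1 - 1) []).contains (c.2.1 - 1, false)

def vs (ψ : CNF ℕ) (N : ℕ) : List V :=
  ((List.range (ψ.length + 1)).product ((List.range (N + 1)).product [false, true])).filter (ok ψ N)

def adj (ψ : CNF ℕ) (c d : V) : Bool :=
  if c.1 = 0 then (if d.1 = 0 then decide (c.2.1 = d.2.1) else
    (ψ.getD (d.1 - 1) []).contains c.2 || decide (d.2 = (c.2.1 + 1, c.2.2)))
  else decide (d.1 ≠ 0) && (decide (c.1 ≠ d.1) || decide (c.2.1 = d.2.1))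

theorem nd (ψ N) : (vs ψ N).Nodup :=
  (List.nodup_range.product (List.nodup_range.product (by simp))).filter _

variable {ψ : CNF ℕ} {N : ℕ}

theorem mL {v b} : (0, v, b) ∈ vs ψ N ↔ v < N := by
  cases b <;> simp [vs, ok] <;> omega

theorem mC {k b} : (k + 1, 0, b) ∈ vs ψ N ↔ k < ψ.length ∧ b = false := by
  cases b <;> simp [vs, ok]

theorem mA {k v b} : (k + 1, v + 1, b) ∈ vs ψ N ↔
    k < ψ.length ∧ v < N ∧ ∀ c, (v, c) ∉ ψ.getD k [] := by
  cases b <;> simp [vs, ok, -List.getD_eq_getElem?_getD, and_assoc] <;> tauto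

theorem aLL {v b w c} : (GC (adj ψ)).Adj (0, v, b) (0, w, c) ↔ v = w ∧ b ≠ c := by
  simp only [GC_adj, adj]; simp; tauto

theorem aLB {v b k x c} : (GC (adj ψ)).Adj (0, v, b) (k + 1, x, c) ↔
    (v, b) ∈ ψ.getD k [] ∨ (x = v + 1 ∧ c = b) := by
  simp [GC_adj, adj, -List.getD_eq_getElem?_getD]

theorem aBL {v b k x c} : (GC (adj ψ)).Adj (k + 1, x, c) (0, v, b) ↔
    (v, b) ∈ ψ.getD k [] ∨ (x = v + 1 ∧ c = b) := by rw [SimpleGraph.adj_comm, aLB]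

theorem aBB {k x b j y c} : (GC (adj ψ)).Adj (k + 1, x, b) (j + 1, y, c) ↔
    k ≠ j ∨ (x = y ∧ b ≠ c) := by
  simp only [GC_adj, adj]; simp; tauto

theorem ne_not {b c : Bool} (h : b ≠ c) : c = !b := by cases b <;> cases c <;> simp_all

theorem core (hu : ¬ Sat ψ)
    (Q S : Set V) (hQ : ∀ c ∈ Q, c ∈ vs ψ N) (hS : ∀ c ∈ S, c ∈ vs ψ N)
    (q1 : ∀ a ∈ Q, ∀ b ∈ Q, a ≠ b → (GC (adj ψ)).Adj a b)
    (q2 : ∀ v ∈ vs ψ N, v ∉ Q → ∃ s ∈ Q, ¬ (GC (adj ψ)).Adj v s)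
    (s1 : ∀ a ∈ S, ∀ b ∈ S, ¬ (GC (adj ψ)).Adj a b)
    (s2 : ∀ v ∈ vs ψ N, v ∉ S → ∃ s ∈ S, (GC (adj ψ)).Adj v s) : (Q ∩ S).Nonempty := by
  classical
  by_contra hh
  have hd : ∀ c ∈ Q, c ∉ S := fun c h1 h2 => hh ⟨c, h1, h2⟩
  obtain ⟨k, hk⟩ : ∃ k, (k + 1, 0, false) ∈ S := by
    by_contra h
    push Not at h
    refine hu ⟨fun v => decide ((0, v, true) ∈ S), fun C hC => ?_⟩
    obtain ⟨k, hk, rfl⟩ := List.getElem_of_mem hC
    obtain ⟨⟨_ | j, v, b⟩, h1, h2⟩ := s2 _ (mC.2 ⟨hk, rfl⟩) (h k)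
    · refine ⟨(v, b), by simpa [aBL, hk] using h2, ?_⟩
      cases b
      · exact decide_eq_false fun e => s1 _ e _ h1 (by simp [aLL])
      · exact decide_eq_true h1
    · exfalso
      obtain _ | v := v
      · exact h j ((mC.1 (hS _ h1)).2 ▸ h1)
      obtain ⟨⟨_ | i, w, c⟩, h3, h4⟩ := s2 _ (mC.2 ⟨(mA.1 (hS _ h1)).1, rfl⟩) (h j)
      · exact s1 _ h1 _ h3 (aBL.2 (Or.inl (by simpa [aBL] using h4)))
      · rcases aBB.1 h4 with e | ⟨rfl, e⟩
        · exact s1 _ h1 _ h3 (aBB.2 (Or.inl e))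
        · exact e (mC.1 (hS _ h3)).2.symm
  have hk' := (mC.1 (hS _ hk)).1
  have blk : ∀ j x c, (j + 1, x, c) ∈ S → j = k := fun j x c h => by
    by_contra e
    exact s1 _ h _ hk (aBB.2 (Or.inl e))
  have lit : ∀ v b, (0, v, b) ∈ S → (v, b) ∉ ψ.getD k [] := fun v b h e =>
    s1 _ h _ hk (aLB.2 (Or.inl e))
  have fa : ∀ v b, (k + 1, v + 1, b) ∈ vs ψ N → (k + 1, v + 1, b) ∉ S → (k + 1, v + 1, !b) ∈ S := by
    intro v b h1 h2
    by_contra h3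
    have : ∀ c, (k + 1, v + 1, c) ∉ S → (k + 1, v + 1, !c) ∉ S → (0, v, c) ∈ S := by
      intro c h4 h5
      obtain ⟨⟨_ | j, w, e⟩, h6, h7⟩ := s2 _ (mA.2 (mA.1 h1)) h4
      · rcases aBL.1 h7 with h | ⟨h, rfl⟩
        · exact absurd h (lit _ _ h6)
        · obtain rfl : v = w := by omega
          exact h6
      · obtain rfl := blk _ _ _ h6
        rcases aBB.1 h7 with h | ⟨rfl, h⟩
        · exact absurd rfl h
        · obtain rfl := ne_not h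
          exact absurd h6 h5
    exact s1 _ (this b h2 h3) _ (this (!b) h3 (by simpa using h2)) (by simp [aLL])
  have fb : ∀ v b, v < N → (0, v, b) ∉ S → (v, b) ∉ ψ.getD k [] → (k + 1, v + 1, b) ∈ S := by
    intro v b h0 h1 h2
    obtain ⟨⟨_ | j, w, e⟩, h6, h7⟩ := s2 _ (mL.2 h0) h1
    · obtain ⟨rfl, h⟩ := aLL.1 h7
      by_contra h3
      have := fa v b (mA.2 ⟨hk', h0, fun c => ?_⟩) h3
      · exact s1 _ h6 _ this (aLB.2 (Or.inr ⟨rfl, (ne_not h).symm⟩))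
      · by_cases e' : b = c
        · exact e' ▸ h2
        · rw [ne_not e', ← ne_not h]
          exact lit _ _ h6
    · obtain rfl := blk _ _ _ h6
      rcases aLB.1 h7 with h | ⟨rfl, rfl⟩
      · exact absurd h h2
      · exact h6
  obtain ⟨⟨_ | j, v, b⟩, h1, h2⟩ := q2 _ (hS _ hk) fun e => hd _ e hk
  · have h3 : (v, b) ∉ ψ.getD k [] := fun e => h2 (aBL.2 (Or.inl e))
    have h0 := mL.1 (hQ _ h1)
    have h4 := fb v b h0 (hd _ h1) h3
    obtain ⟨⟨_ | j, w, c⟩, h5, h6⟩ := q2 _ (hS _ h4) fun e => hd _ e h4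
    · obtain ⟨rfl, e⟩ := aLL.1 (q1 _ h1 _ h5 fun e => h6 (e ▸ aBL.2 (Or.inr ⟨rfl, rfl⟩)))
      exact s1 _ h4 _ (fb v c h0 (hd _ h5) ((mA.1 (hS _ h4)).2.2 c)) (aBB.2 (Or.inr ⟨rfl, e⟩))
    · obtain rfl : k = j := by
        by_contra e
        exact h6 (aBB.2 (Or.inl e))
      rcases aLB.1 (q1 _ h1 _ h5 (by simp)) with h | ⟨rfl, rfl⟩
      · exact h3 h
      · exact hd _ h5 h4
  · obtain rfl : k = j := by
      by_contra e
      exact h2 (aBB.2 (Or.inl e))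
    obtain _ | v := v
    · exact hd _ h1 ((mC.1 (hQ _ h1)).2 ▸ hk)
    have h4 := fa v b (hQ _ h1) (hd _ h1)
    obtain ⟨⟨_ | j, w, c⟩, h5, h6⟩ := q2 _ (hS _ h4) fun e => hd _ e h4
    · rcases aBL.1 (q1 _ h1 _ h5 (by simp)) with h | ⟨h, rfl⟩
      · exact h6 (aBL.2 (Or.inl h))
      · obtain rfl : v = w := by omega
        exact hd _ h1 (fb v b (mL.1 (hQ _ h5)) (hd _ h5) ((mA.1 (hQ _ h1)).2.2 b))
    · obtain rfl : k = j := by
        by_contra e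
        exact h6 (aBB.2 (Or.inl e))
      rcases aBB.1 (q1 _ h1 _ h5 fun e => h6 (e ▸ aBB.2 (Or.inr ⟨rfl, by simp⟩))) with h | ⟨rfl, h⟩
      · exact h rfl
      · obtain rfl := ne_not h
        exact hd _ h5 h4

theorem cis_of (hu : ¬ Sat ψ) : CIS (RG (vs ψ N) (adj ψ)) := by
  intro C S hC hS
  rw [maxC_iff] at hC
  rw [maxI_iff] at hS
  obtain ⟨_, ⟨a, ha, rfl⟩, b, hb, e⟩ := core (N := N) hu (code _ '' C) (code _ '' S)
    (by rintro _ ⟨a, -, rfl⟩; exact code_mem _ _) (by rintro _ ⟨a, -, rfl⟩; exact code_mem _ _)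
    (by
      rintro _ ⟨a, ha, rfl⟩ _ ⟨b, hb, rfl⟩ e
      exact (RG_adj (nd ψ N)).1 (hC.1 a ha b hb fun h => e (h ▸ rfl)))
    (fun c hc hn => by
      obtain ⟨v, rfl⟩ := code_surj hc
      obtain ⟨s, h1, h2⟩ := hC.2 v fun h => hn ⟨v, h, rfl⟩
      exact ⟨_, ⟨s, h1, rfl⟩, fun e => h2 ((RG_adj (nd ψ N)).2 e)⟩)
    (by
      rintro _ ⟨a, ha, rfl⟩ _ ⟨b, hb, rfl⟩ e
      exact hS.1 a ha b hb ((RG_adj (nd ψ N)).2 e))
    (fun c hc hn => by
      obtain ⟨v, rfl⟩ := code_surj hc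
      obtain ⟨s, h1, h2⟩ := hS.2 v fun h => hn ⟨v, h, rfl⟩
      exact ⟨_, ⟨s, h1, rfl⟩, (RG_adj (nd ψ N)).1 h2⟩)
  exact ⟨a, ha, code_inj (nd ψ N) e ▸ hb⟩

theorem not_tri (hN : ∀ C ∈ ψ, ∀ l ∈ C, l.1 < N) (h2 : 2 ≤ ψ.length)
    (hd : ∀ l ∈ ψ.getD 0 [], l ∉ ψ.getD 1 []) (hs : Sat ψ) : ¬ Triangle (RG (vs ψ N) (adj ψ)) := by
  obtain ⟨a, ha⟩ := hs
  intro h
  have hS : Maximal (RG (vs ψ N) (adj ψ)).IsIndepSet {x | ∃ v, code _ x = (0, v, a v)} := by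
    refine maxI_iff.2 ⟨?_, fun x hx => ?_⟩
    · rintro x ⟨v, e⟩ y ⟨w, e'⟩ h
      rw [RG_adj (nd ψ N), e, e', aLL] at h
      exact h.2 (h.1 ▸ rfl)
    · have h1 := code_mem _ x
      have : ∃ v < N, (GC (adj ψ)).Adj (code _ x) (0, v, a v) := by
        simp only [Set.mem_ofPred_eq, not_exists] at hx
        generalize code _ x = c at h1 hx
        obtain ⟨_ | k, v, b⟩ := c
        · exact ⟨v, mL.1 h1, aLL.2 ⟨rfl, fun e => hx v (e ▸ rfl)⟩⟩
        · have hk : k < ψ.length := by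
            cases v
            · exact (mC.1 h1).1
            · exact (mA.1 h1).1
          obtain ⟨l, h2, h3⟩ := ha _ (List.getElem_mem hk)
          exact ⟨l.1, hN _ (List.getElem_mem hk) l h2, aBL.2 (Or.inl (by simpa [hk, h3] using h2))⟩
      obtain ⟨v, h2, h3⟩ := this
      obtain ⟨y, e⟩ := code_surj (mL.2 h2 : (0, v, a v) ∈ vs ψ N)
      exact ⟨y, ⟨v, e⟩, (RG_adj (nd ψ N)).2 (e ▸ h3)⟩
  obtain ⟨u, e1⟩ := code_surj (mC.2 ⟨by omega, rfl⟩ : (0 + 1, 0, false) ∈ vs ψ N)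
  obtain ⟨v, e2⟩ := code_surj (mC.2 ⟨by omega, rfl⟩ : (1 + 1, 0, false) ∈ vs ψ N)
  obtain ⟨s, ⟨w, e⟩, h3, h4⟩ := h _ hS u v (by rw [RG_adj (nd ψ N), e1, e2, aBB]; simp)
    (by simp [e1]) (by simp [e2])
  rw [RG_adj (nd ψ N), e, e1, aLB] at h3
  rw [RG_adj (nd ψ N), e, e2, aLB] at h4
  exact hd _ (h3.resolve_right (by simp)) (h4.resolve_right (by simp))

def pre (φ : CNF ℕ) : CNF ℕ := [(0, true)] :: [(1, true)] :: ren (· + 2) φ

theorem sat_pre (φ) : Sat (pre φ) ↔ Sat φ := by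
  constructor
  · rintro ⟨a, ha⟩
    exact (sat_ren (· + 2) φ (· - 2) (by simp)).1 ⟨a, fun C hC => ha C (by simp [pre, hC])⟩
  · rintro ⟨a, ha⟩
    refine ⟨fun n => if n < 2 then true else a (n - 2), fun C hC => ?_⟩
    simp only [pre, ren, List.mem_cons, List.mem_map] at hC
    rcases hC with rfl | rfl | ⟨C, hC, rfl⟩
    · simp
    · simp
    · obtain ⟨l, h1, h2⟩ := ha C hC
      exact ⟨_, List.mem_map_of_mem h1, by simpa using h2⟩

abbrev Gi := ℕ × List (ℕ × ℕ)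

theorem hard (P : ∀ n, SimpleGraph (Fin n) → Prop) (h1 : ∀ n G, 0 < n → CIS G → P n G)
    (h2 : ∀ n G, P n G → Triangle G) :
    NPH (fun _ : Gi => True) fun p => ¬ P p.1 (graphOf p.1 p.2) := by
  refine sat_nph.reduce (fun φ => mkG (vs (pre φ) (((pre φ).flatten.map (·.1)).sum + 1))
    (adj (pre φ))) (pt_mkG (by unfold vs ok pre ren; fun_prop) (by unfold adj pre ren; fun_prop))
    fun φ _ => ⟨trivial, fun h c => ?_, fun h => ?_⟩
  · refine not_tri (fun C hC l hl => Nat.lt_succ_of_le (List.single_le_sum (by simp) _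
      (List.mem_map_of_mem (List.mem_flatten.2 ⟨C, hC, hl⟩)))) (by simp [pre]) (by simp [pre])
      ((sat_pre φ).2 h) (h2 _ _ c)
  · by_contra c
    exact h (h1 _ _ (List.length_pos_of_mem (mL.2 (Nat.succ_pos _) : (0, 0, true) ∈ _))
      (cis_of (mt (sat_pre φ).1 c)))

end Pool.Agent.H36.Cis
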