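import Pool.Agent.H36.Cis

namespace Pool.Agent.H36.Cis

open Pool.Agent.H38.NP

def aj (E : List (ℕ × ℕ)) (u v : ℕ) : Bool :=
  decide (u ≠ v) && (E.contains (u, v) || E.contains (v, u))

theorem aj_iff {n E} {u v : Fin n} : (graphOf n E).Adj u v ↔ aj E u v = true := by
  simp [graphOf_adj, aj, Fin.ext_iff]

def mI (p : Gi) (S : List ℕ) : Bool :=
  (List.range p.1).all fun v =>
    S.contains v != (List.range p.1).any fun s => S.contains s && aj p.2 v s

def mQ (p : Gi) (C : List ℕ) : Bool :=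
  (List.range p.1).all fun v =>
    C.contains v == (List.range p.1).all fun s => !C.contains s || (decide (v = s) || aj p.2 v s)

theorem bne' (a b : Bool) : (a != b) = true ↔ ¬ (a = true ↔ b = true) := by
  cases a <;> cases b <;> simp

theorem beq' (a b : Bool) : (a == b) = true ↔ (a = true ↔ b = true) := by
  cases a <;> cases b <;> simp

theorem not' (a : Bool) : (!a) = true ↔ ¬ a = true := by cases a <;> simp

theorem mI_iff (p : Gi) (S : List ℕ) :
    mI p S = true ↔ Maximal (graphOf p.1 p.2).IsIndepSet {x | x.val ∈ S} := by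
  simp only [maxI_iff, aj_iff, mI, List.all_eq_true, List.mem_range, bne',
    List.contains_iff_mem, List.any_eq_true, Bool.and_eq_true, Set.mem_ofPred_eq,
    Fin.forall_iff, Fin.exists_iff, exists_prop]
  constructor
  · intro h
    refine ⟨fun a ha h1 b hb h2 e => h a ha (iff_of_true h1 ⟨b, hb, h2, e⟩), fun v hv h1 => ?_⟩
    by_contra c
    exact h v hv (iff_of_false h1 c)
  · rintro ⟨h1, h2⟩ v hv e
    by_cases c : v ∈ S
    · obtain ⟨s, a, b, d⟩ := e.1 c
      exact h1 v hv c s a b d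
    · exact c (e.2 (h2 v hv c))

theorem mQ_iff (p : Gi) (C : List ℕ) :
    mQ p C = true ↔ Maximal (graphOf p.1 p.2).IsClique {x | x.val ∈ C} := by
  simp only [maxC_iff, aj_iff, mQ, List.all_eq_true, List.mem_range, beq', ne_eq,
    List.contains_iff_mem, Bool.or_eq_true, Set.mem_ofPred_eq, not',
    Fin.forall_iff, Fin.exists_iff, exists_prop, decide_eq_true_eq, Fin.mk.injEq]
  constructor
  · intro h
    refine ⟨fun a ha h1 b hb h2 e => (((h a ha).1 h1 b hb).resolve_left
      (not_not.2 h2)).resolve_left e, fun v hv h1 => ?_⟩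
    by_contra c
    push Not at c
    exact h1 ((h v hv).2 fun s hs => or_iff_not_imp_left.2 fun d => Or.inr (c s hs (not_not.1 d)))
  · rintro ⟨h1, h2⟩ v hv
    refine ⟨fun c s hs => or_iff_not_imp_left.2 fun d => or_iff_not_imp_left.2
      (h1 v hv c s hs (not_not.1 d)), fun e => ?_⟩
    by_contra c
    obtain ⟨s, a, b, d⟩ := h2 v hv c
    rcases e s a with h | rfl | h
    · exact h b
    · exact c b
    · exact d h

theorem lst {n} (S : Set (Fin n)) : ∃ L : List ℕ, sz L ≤ sz (List.range n) ∧ {x | x.val ∈ L} = S := by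
  classical
  refine ⟨(List.range n).filter fun v => ∃ h, ⟨v, h⟩ ∈ S, sz_le_of_sublist List.filter_sublist, ?_⟩
  ext x
  simp

theorem cis_coNP : InCoNP (lang fun p : Gi => CIS (graphOf p.1 p.2)) := by
  refine inCoNP_lang (fun p (w : List ℕ × List ℕ) => mQ p w.1 && mI p w.2 &&
    (List.range p.1).all fun v => !(w.1.contains v && w.2.contains v))
    (by unfold mQ mI aj; fun_prop) (B := fun p => 3 * sz (List.range p.1) + 1)
    (PT.nat_pb (by fun_prop)) (fun p h => ?_) fun p w h c => ?_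
  · simp only [CIS, not_forall] at h
    obtain ⟨C, S, h1, h2, h3⟩ := h
    obtain ⟨C, a1, rfl⟩ := lst C
    obtain ⟨S, a2, rfl⟩ := lst S
    refine ⟨(C, S), by rw [sz_prod]; simp only; omega, ?_⟩
    simp only [Bool.and_eq_true, mQ_iff, mI_iff, h1, h2, true_and, List.all_eq_true, List.mem_range,
      not', List.contains_iff_mem]
    exact fun v hv e => h3 ⟨⟨v, hv⟩, e⟩
  · simp only [Bool.and_eq_true, mQ_iff, mI_iff, List.all_eq_true, List.mem_range,
      not', List.contains_iff_mem] at h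
    obtain ⟨v, e⟩ := c _ _ h.1.1 h.1.2
    exact h.2 v v.2 e

theorem tri_coNP : InCoNP (lang fun p : Gi => Triangle (graphOf p.1 p.2)) := by
  refine inCoNP_lang (fun p (S : List ℕ) => mI p S &&
    (List.range p.1).any fun u => (List.range p.1).any fun v => aj p.2 u v && !S.contains u &&
      !S.contains v && (List.range p.1).all fun s => !(S.contains s && aj p.2 s u && aj p.2 s v))
    (by unfold mI aj; fun_prop) (B := fun p => sz (List.range p.1))
    (PT.nat_pb (by fun_prop)) (fun p h => ?_) fun p w h c => ?_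
  · simp only [Triangle, not_forall] at h
    obtain ⟨S, h1, u, v, h2, h3, h4, h5⟩ := h
    obtain ⟨S, a2, rfl⟩ := lst S
    refine ⟨S, a2, ?_⟩
    simp only [Bool.and_eq_true, mI_iff, h1, true_and, List.all_eq_true, List.mem_range,
      not', List.contains_iff_mem, List.any_eq_true]
    exact ⟨u, u.2, v, v.2, ⟨⟨aj_iff.1 h2, h3⟩, h4⟩, fun s hs e =>
      h5 ⟨⟨s, hs⟩, e.1.1, aj_iff.2 e.1.2, aj_iff.2 e.2⟩⟩
  · simp only [Bool.and_eq_true, mI_iff, List.all_eq_true, List.mem_range,
      not', List.contains_iff_mem, List.any_eq_true] at h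
    obtain ⟨h1, u, hu, v, hv, ⟨⟨h2, h3⟩, h4⟩, h5⟩ := h
    obtain ⟨s, a, b, d⟩ := c _ h1 ⟨u, hu⟩ ⟨v, hv⟩ (aj_iff.2 h2) h3 h4
    exact h5 s s.2 ⟨⟨a, aj_iff.1 b⟩, aj_iff.1 d⟩

end Pool.Agent.H36.Cis
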