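import Pool.Agent.H38.NP.Defs

namespace Pool.Agent.H36.Cis

variable {W : Type}

/-- a clique is strong if it meets every maximal stable set -/
def Strong (G : SimpleGraph W) (C : Set W) : Prop :=
  G.IsClique C ∧ ∀ S, Maximal G.IsIndepSet S → (C ∩ S).Nonempty

/-- every maximal clique meets every maximal stable set -/
def CIS (G : SimpleGraph W) : Prop :=
  ∀ C S, Maximal G.IsClique C → Maximal G.IsIndepSet S → (C ∩ S).Nonempty

/-- every edge lies in a strong clique -/
def EdgeStrong (G : SimpleGraph W) : Prop :=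
  ∀ u v, G.Adj u v → ∃ C, Strong G C ∧ u ∈ C ∧ v ∈ C

/-- the triangle condition -/
def Triangle (G : SimpleGraph W) : Prop :=
  ∀ S, Maximal G.IsIndepSet S → ∀ u v, G.Adj u v → u ∉ S → v ∉ S → ∃ s ∈ S, G.Adj s u ∧ G.Adj s v

/-- equistable graphs -/
def Equistable (G : SimpleGraph W) : Prop :=
  ∃ t : ℕ, 0 < t ∧ ∃ w : W → ℕ,
    ∀ S : Finset W, Maximal G.IsIndepSet (S : Set W) ↔ ∑ v ∈ S, w v = t

end Pool.Agent.H36.Cis
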