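import Pool.Agent.H36.CycDefs
import Pool.Agent.H36.Gr

namespace Pool.Agent.H36.Cyc

open Pool.Agent.H38.NP Function

variable {P : Inst} {M : ℕ → ℕ}

theorem CS.cs3 (h : CS P) : CS3 P := let ⟨M, a, b⟩ := h; ⟨M, a, fun k hk _ => b k hk⟩

theorem noBlk (h : ℕ → ℕ) (hh : ∀ a < P.length, ∀ b, Arc P M a b → h b < h a) (k : ℕ)
    (hk : 2 ≤ k) : ¬ Blk P M k := by
  rintro ⟨c, c1, -, c3⟩
  obtain ⟨i, hi, e⟩ := Finset.exists_min_image (Finset.range k) (fun i => h (c i)) ⟨0, by simp; omega⟩
  rw [Finset.mem_range] at hi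
  exact absurd (hh _ (c1 i hi) _ (c3 i hi)) (not_lt.2 (e _ (Finset.mem_range.2
    (Nat.mod_lt _ (by omega)))))

theorem blk2 {a b} (ha : a < P.length) (hb : b < P.length) (ab : a ≠ b) (h1 : Arc P M a b)
    (h2 : Arc P M b a) : Blk P M 2 :=
  ⟨fun i => if i = 0 then a else b, fun i hi => by interval_cases i <;> simpa,
    fun i hi j hj => by interval_cases i <;> interval_cases j <;> simp [ab, ab.symm],
    fun i hi => by interval_cases i <;> simpa⟩

theorem blk3 {a b c} (ha : a < P.length) (hb : b < P.length) (hc : c < P.length) (ab : a ≠ b)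
    (ac : a ≠ c) (bc : b ≠ c) (h1 : Arc P M a b) (h2 : Arc P M b c) (h3 : Arc P M c a) :
    Blk P M 3 :=
  ⟨fun i => if i = 0 then a else if i = 1 then b else c, fun i hi => by interval_cases i <;> simpa,
    fun i hi j hj => by
      interval_cases i <;> interval_cases j <;> simp [ab, ab.symm, ac, ac.symm, bc, bc.symm],
    fun i hi => by interval_cases i <;> simpa⟩

theorem two_col (f : ℕ → ℕ) : ∃ A : ℕ → Prop, ∀ x,
    (∀ a b, f^[a] x = f^[b] x → (a + b) % 2 = 0) → (A x ↔ ¬ A (f x)) := by
  let s : Setoid ℕ := ⟨fun x y => ∃ i j, f^[i] x = f^[j] y, fun x => ⟨0, 0, rfl⟩,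
    fun ⟨i, j, h⟩ => ⟨j, i, h.symm⟩, fun ⟨i, j, h⟩ ⟨k, l, h'⟩ => ⟨k + i, j + l, by
      rw [iterate_add_apply, h, ← iterate_add_apply, Nat.add_comm, iterate_add_apply, h',
        ← iterate_add_apply]⟩⟩
  refine ⟨fun x => ∃ i j, f^[i] x = f^[j] (Quotient.mk s x).out ∧ (i + j) % 2 = 0, fun x hx => ?_⟩
  have e : Quotient.mk s (f x) = Quotient.mk s x := Quotient.sound ⟨0, 1, rfl⟩
  simp only [e]
  constructor
  · rintro ⟨i, j, h, p⟩ ⟨k, l, h', p'⟩
    have := hx (l + i) (j + (k + 1)) (by
      rw [iterate_add_apply, h, iterate_add_apply, iterate_succ_apply, h', ← iterate_add_apply,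
        ← iterate_add_apply, Nat.add_comm])
    omega
  · intro hn
    obtain ⟨j, i, h⟩ : ∃ j i, f^[j] (Quotient.mk s x).out = f^[i] x := Quotient.mk_out (s := s) x
    refine ⟨i, j, h.symm, by_contra fun c => hn ⟨i, j + 1, ?_, by omega⟩⟩
    rw [iterate_succ_apply', h, ← iterate_succ_apply, iterate_succ_apply']

def fs (P : Inst) (a : ℕ) : ℕ := (pr P a).headD a
def ls (P : Inst) (a : ℕ) : ℕ := (pr P a).getLastD a

def Bad (P : Inst) : Prop := ∃ a < P.length, fs P a ≠ a ∧ ∃ k, k % 2 = 1 ∧ (fs P)^[k] a = a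

theorem shape (h : Valid 2 P) {a} (ha : a < P.length) :
    (pr P a = [] ∧ fs P a = a ∧ ls P a = a) ∨ (pr P a = [fs P a] ∧ ls P a = fs P a) ∨
      pr P a = [fs P a, ls P a] := by
  have := (h a ha).2.1
  unfold fs ls
  match pr P a, this with
  | [], _ => simp
  | [u], _ => simp
  | [u, v], _ => simp

theorem fs_mem (h : Valid 2 P) {a} (ha : a < P.length) (e : fs P a ≠ a) : fs P a ∈ pr P a := by
  rcases shape h ha with s | s | s
  · exact absurd s.2.1 e
  · rw [s.1]; simp
  · rw [s]; simp

theorem fs_lt (h : Valid 2 P) {a} (ha : a < P.length) : fs P a < P.length := by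
  by_cases e : fs P a = a
  · rwa [e]
  · exact ((h a ha).2.2 _ (fs_mem h ha e)).1

theorem it_lt (h : Valid 2 P) {a} (ha : a < P.length) (k : ℕ) : (fs P)^[k] a < P.length := by
  induction k with
  | zero => exact ha
  | succ k ih => rw [iterate_succ_apply']; exact fs_lt h ih

theorem bad_no (h : Valid 2 P) (hb : Bad P) : ¬ CS3 P := by
  rintro ⟨M, h1, h2⟩
  obtain ⟨a, ha, a1, k, k1, k2⟩ := hb
  have n2 : ∀ i, fs P (fs P ((fs P)^[i] a)) ≠ (fs P)^[i] a := fun i e => by
    have p1 : IsPeriodicPt (fs P) k a := k2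
    have p2 : IsPeriodicPt (fs P) 2 ((fs P)^[i] a) := e
    have p3 : IsPeriodicPt (fs P) 2 a := by
      have := p2.apply_iterate (i * k - i)
      rwa [← iterate_add_apply, Nat.sub_add_cancel (Nat.le_mul_of_pos_right _ (by omega)),
        (p1.const_mul i).eq] at this
    have := p1.gcd p3
    rw [show Nat.gcd k 2 = 1 from (Nat.coprime_two_right.2 (Nat.odd_iff.2 k1))] at this
    exact a1 this
  have st : ∀ i, M (fs P ((fs P)^[i] a)) = fs P (fs P ((fs P)^[i] a)) ↔
      ¬ M ((fs P)^[i] a) = fs P ((fs P)^[i] a) := fun i => by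
    have hx := it_lt h ha i
    have e := n2 i
    generalize (fs P)^[i] a = x at *
    have e1 : fs P x ≠ x := fun c => e (by rw [c, c])
    obtain ⟨y1, y2, y3⟩ := (h x hx).2.2 _ (fs_mem h hx e1)
    have m := (h1 x hx).1
    refine ⟨fun c d => e (by rw [← c, ← d, m]), fun c => by_contra fun d =>
      h2 2 le_rfl (by omega) (blk2 hx y1 y2.symm ?_ ?_)⟩
    · unfold Arc
      rcases shape h hx with s | s | s
      · exact absurd s.2.1 e1
      · rw [s.1]; simp [Ne.symm c]
      · rw [s]; simp [Ne.symm c]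
    · have m' := (h1 _ y1).1
      have : x ≠ M (fs P x) := fun t => c (by rw [← m', ← t])
      unfold Arc
      rcases shape h y1 with s | s | s
      · simp [s.1] at y3
      · rw [s.1] at y3; simp at y3; exact absurd y3.symm e
      · rw [s] at y3 ⊢
        simp [Ne.symm e] at y3
        simp [Ne.symm d, ← y3, this]
  have : ∀ i, M ((fs P)^[i] a) = fs P ((fs P)^[i] a) ↔ (M a = fs P a ↔ i % 2 = 0) := fun i => by
    induction i with
    | zero => simp
    | succ i ih =>
      rw [iterate_succ_apply', st, ih]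
      rcases Nat.mod_two_eq_zero_or_one i with c | c <;> simp [c, Nat.add_mod]
  have := this k
  simp [k2, k1] at this

theorem good_yes (h : Valid 2 P) (hb : ¬ Bad P) : CS P := by
  classical
  obtain ⟨A, hA⟩ : ∃ A : ℕ → Prop, ∀ x < P.length,
      (A x ↔ fs P (fs P x) = x ∨ ¬ A (fs P x)) := by
    obtain ⟨A, hA⟩ := two_col (fs P)
    refine ⟨fun x => if c : ∃ k, fs P (fs P ((fs P)^[k] x)) = (fs P)^[k] x then
      Nat.find c % 2 = 0 else A x, fun x hx => ?_⟩
    by_cases c : ∃ k, fs P (fs P ((fs P)^[k] x)) = (fs P)^[k] x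
    · by_cases d : fs P (fs P x) = x
      · simp only [dif_pos c, d, true_or, iff_true]
        rw [(Nat.find_eq_zero c).2 d]
      · have c' : ∃ k, fs P (fs P ((fs P)^[k] (fs P x))) = (fs P)^[k] (fs P x) := by
          obtain ⟨_ | k, e⟩ := c
          exacts [absurd e d, ⟨k, e⟩]
        simp only [dif_pos c, dif_pos c', d, false_or]
        have e : Nat.find c = Nat.find c' + 1 := Nat.find_comp_succ c c' d
        omega
    · have c' : ¬ ∃ k, fs P (fs P ((fs P)^[k] (fs P x))) = (fs P)^[k] (fs P x) :=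
        fun ⟨k, e⟩ => c ⟨k + 1, e⟩
      have d : ¬ fs P (fs P x) = x := fun e => c ⟨0, e⟩
      simp only [dif_neg c, dif_neg c', d, false_or]
      have k : ∀ a b, a ≤ b → (fs P)^[a] x = (fs P)^[b] x → (a + b) % 2 = 0 := fun a b ab e =>
        by_contra fun t => hb ⟨_, it_lt h hx a, fun u => c ⟨a, by rw [u, u]⟩, b - a, by omega, by
          rw [← iterate_add_apply, Nat.sub_add_cancel ab, e]⟩
      exact hA x fun a b e => (le_total a b).elim (fun c => k a b c e)
        fun c => Nat.add_comm a b ▸ k b a c e.symm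
  have mem : ∀ x < P.length, ∀ y ∈ pr P x, y = fs P x ∨ y = ls P x := fun x hx y hy => by
    rcases shape h hx with s | s | s
    · simp [s.1] at hy
    · rw [s.1] at hy; simp at hy; exact Or.inl hy
    · rw [s] at hy; simpa using hy
  have lm : ∀ x < P.length, ¬ A x → ls P x ∈ pr P x := fun x hx c => by
    rcases shape h hx with s | s | s
    · exact absurd ((hA x hx).2 (Or.inl (by rw [s.2.1, s.2.1]))) c
    · rw [s.1, s.2]; simp
    · rw [s]; simp
  refine ⟨fun x => if A x then fs P x else if ¬ A (ls P x) ∨ fs P (ls P x) = x then ls P x else x,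
    fun x hx => ?_, noBlk (fun x => if A x then 0 else 1) fun x hx y hy => ?_⟩
  · have a := hA x hx
    by_cases c : A x
    · simp only [if_pos c]
      refine ⟨?_, fs_mem h hx⟩
      by_cases d : fs P x = x
      · simp [d, c]
      · have y := (h x hx).2.2 _ (fs_mem h hx d)
        have := hA _ y.1
        have := mem _ y.1 _ y.2.2
        grind
    · simp only [if_neg c]
      have y := (h x hx).2.2 _ (lm x hx c)
      have := hA _ y.1
      have := mem _ y.1 _ y.2.2
      have := lm x hx c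
      grind
  · have a := hA x hx
    unfold Arc at hy
    by_cases c : A x
    · rcases shape h hx with s | s | s
      · simp [s.1] at hy
      · rw [s.1] at hy; simp [c] at hy
      · rw [s] at hy; simp [c] at hy
    · have t := List.mem_takeWhile_imp hy
      have := mem x hx y (List.takeWhile_subset _ hy)
      simp only [if_neg c] at t ⊢
      grind

theorem inP2 : InPOn (Valid 2) fun P => ¬ Bad P := by
  have a : PT fun q : (Inst × ℕ) × ℕ => (fs q.1.1)^[q.2] q.1.2 := by
    refine PT.iterate (step := fun (q : (Inst × ℕ) × ℕ) x => fs q.1.1 x)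
      (by unfold fs pr; fun_prop) (by fun_prop) (by fun_prop)
      (B := fun q => sz q.1.1 + q.1.2) (PT.nat_pb (by fun_prop)) fun q i _ => ?_
    rw [sz_nat]
    induction i with
    | zero => simp
    | succ i ih =>
      rw [iterate_succ_apply', fs]
      cases e : pr q.1.1 ((fs q.1.1)^[i] q.1.2) with
      | nil => exact ih (by omega)
      | cons u l =>
        have h1 : u :: l ∈ q.1.1 := by
          rw [← e, pr, List.getD_eq_getElem?_getD]
          cases e' : q.1.1[(fs q.1.1)^[i] q.1.2]? with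
          | none => simp [pr, List.getD_eq_getElem?_getD, e'] at e
          | some z => exact List.mem_of_getElem? e'
        have := sz_le_of_mem h1
        have := sz_le_of_mem (List.mem_cons_self (a := u) (l := l))
        rw [sz_nat] at this
        simp; omega
  refine inPOn_of_pt (fun P => !(List.range P.length).any fun a => decide (fs P a ≠ a) &&
    (List.range (P.length + 1)).any fun k => decide (k % 2 = 1) && decide ((fs P)^[k] a = a))
    (PT.not (PT.any (PT.and (by unfold fs pr; fun_prop) (PT.any (PT.and (by fun_prop)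
      (PT.eq a (by fun_prop))) (by fun_prop))) (by fun_prop))) fun P hP => ?_
  simp only [Bool.not_eq_true', ← Bool.not_eq_true, List.any_eq_true, List.mem_range,
    Bool.and_eq_true, decide_eq_true_eq, Bad]
  refine not_congr (exists_congr fun a => and_congr_right fun ha => and_congr_right fun _ =>
    ⟨fun ⟨k, k1, k2⟩ => ⟨minimalPeriod (fs P) a, ?_, ?_, iterate_minimalPeriod⟩,
      fun ⟨k, _, h⟩ => ⟨k, h⟩⟩)
  · have := Finset.card_le_card_of_injOn (s := Finset.range (minimalPeriod (fs P) a))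
      (t := Finset.range P.length) (fun i => (fs P)^[i] a)
      (fun i _ => Finset.mem_coe.2 (Finset.mem_range.2 (it_lt hP ha i)))
      (by simpa using iterate_injOn_Iio_minimalPeriod)
    simp at this; omega
  · exact Nat.odd_iff.1 ((Nat.odd_iff.2 k1).of_dvd_nat (IsPeriodicPt.minimalPeriod_dvd k2))

theorem Valid.mono {L L'} (h : Valid L P) (e : L ≤ L') : Valid L' P := fun a ha =>
  ⟨(h a ha).1, (h a ha).2.1.trans e, (h a ha).2.2⟩

theorem easy {L} (hL : L ≤ 2) : InPOn (Valid L) CS ∧ InPOn (Valid L) CS3 := by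
  obtain ⟨f, f1, f2⟩ := inP2
  exact ⟨⟨f, f1, fun P h => Iff.trans ⟨fun c b => bad_no (h.mono hL) b c.cs3,
    good_yes (h.mono hL)⟩ (f2 P (h.mono hL))⟩, f, f1, fun P h => Iff.trans
    ⟨fun c b => bad_no (h.mono hL) b c, fun c => (good_yes (h.mono hL) c).cs3⟩ (f2 P (h.mono hL))⟩

end Pool.Agent.H36.Cyc
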