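import Pool.Agent.H36.Cyc1

namespace Pool.Agent.H36.Cyc

open Pool.Agent.H38.NP Pool.Agent.H36.Gr

abbrev C := ℕ × ℕ × ℕ

def E (n : ℕ) (x : C) : ℕ := 4 * (n * x.2.2 + x.2.1) + x.1
def D (n a : ℕ) : C := (a % 4, a / 4 % n, a / 4 / n)
def ok (n : ℕ) (x : C) : Prop := x.1 < 4 ∧ x.2.1 < n ∧ x.2.2 < n

theorem DE {n x} (h : ok n x) : D n (E n x) = x := by
  obtain ⟨t, o, s⟩ := x
  obtain ⟨h1, h2, h3⟩ := h
  simp only at h1 h2 h3
  have e : (4 * (n * s + o) + t) / 4 = n * s + o := by omega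
  have e' : (4 * (n * s + o) + t) % 4 = t := by omega
  simp only [D, E, e, e', Nat.mul_add_mod, Nat.mod_eq_of_lt h2,
    Nat.mul_add_div (show 0 < n by omega), Nat.div_eq_of_lt h2, Nat.add_zero]

theorem ED (n a : ℕ) : E n (D n a) = a := by
  have := Nat.div_add_mod (a / 4) n
  simp only [D, E]; omega

theorem E_lt {n x} (h : ok n x) : E n x < 4 * (n * n) := by
  obtain ⟨h1, h2, h3⟩ := h
  have : n * x.2.2 + n ≤ n * n := by nlinarith
  simp only [E]; omega

theorem ok_D {n a} (h : a < 4 * (n * n)) : ok n (D n a) := by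
  have : 0 < n := Nat.pos_of_ne_zero (by rintro rfl; simp at h)
  exact ⟨Nat.mod_lt _ (by omega), Nat.mod_lt _ this, Nat.div_lt_of_lt_mul (by omega)⟩

theorem E_inj {n x y} (h : ok n x) (h' : ok n y) (e : E n x = E n y) : x = y := by
  rw [← DE h, e, DE h']

def nx (o : ℕ) : ℕ := 3 * (o / 3) + (o + 1) % 3
def pv (o : ℕ) : ℕ := 3 * (o / 3) + (o + 2) % 3

def la (n o t : ℕ) : C := if t + 1 = n then (1, nx o, 0) else (2, o, t + 1)
def fi (o t : ℕ) : C := if t = 0 then (1, o, 0) else (3, o, t - 1)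

def prC (φ : F3) (x : C) : List C :=
  if x.1 = 0 then (if x.2.2 = 0 then [(0, nx x.2.1, 0), (1, x.2.1, 0), (0, pv x.2.1, 0)] else [])
  else if x.1 = 1 then
    (if x.2.2 = 0 then [(3, pv x.2.1, 3 * φ.length - 1), (0, x.2.1, 0), (2, x.2.1, 0)] else [])
  else if x.1 = 2 then [fi x.2.1 x.2.2, (3, x.2)]
  else if conf φ x.2.1 x.2.2 = true then
    [(2, x.2), (3, x.2.2, x.2.1), la (3 * φ.length) x.2.1 x.2.2]
  else [(2, x.2), la (3 * φ.length) x.2.1 x.2.2]

def red (φ : F3) : Inst := (List.range (4 * (3 * φ.length * (3 * φ.length)))).map fun a =>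
  (prC φ (D (3 * φ.length) a)).map (E (3 * φ.length))

theorem pt_red : PT red := by
  have a : PT fun q : F3 × C => prC q.1 q.2 := by
    unfold prC la fi nx pv
    fun_prop
  have b : PT fun q : F3 × ℕ => prC q.1 (D (3 * q.1.length) q.2) :=
    a.comp (g := fun q : F3 × ℕ => (q.1, D (3 * q.1.length) q.2)) (by unfold D; fun_prop)
  exact PT.map (PT.map (by unfold E; fun_prop) b) (by fun_prop)

variable {φ : F3}

theorem len_red : (red φ).length = 4 * (3 * φ.length * (3 * φ.length)) := by simp [red]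

theorem pr_red {x} (h : ok (3 * φ.length) x) :
    pr (red φ) (E (3 * φ.length) x) = (prC φ x).map (E (3 * φ.length)) := by
  simp [pr, red, List.getD_eq_getElem?_getD, E_lt h, DE h]

theorem prC_spec {x} (h : ok (3 * φ.length) x) : (prC φ x).Nodup ∧ (prC φ x).length ≤ 3 ∧
    ∀ y ∈ prC φ x, ok (3 * φ.length) y ∧ y ≠ x ∧ x ∈ prC φ y := by
  obtain ⟨t, o, s⟩ := x
  obtain ⟨h1, h2, h3⟩ := h
  simp only at h1 h2 h3
  have c1 := conf_symm φ o s
  have c2 : o = s → conf φ o s = false := by rintro rfl; simp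
  have n1 : pv (nx o) = o := by unfold pv nx; omega
  have n2 : nx (pv o) = o := by unfold pv nx; omega
  have n3 : nx o < 3 * φ.length ∧ pv o < 3 * φ.length ∧ nx o ≠ o ∧ pv o ≠ o ∧ nx o ≠ pv o := by
    unfold pv nx; omega
  have n5 : 3 * φ.length - 1 + 1 = 3 * φ.length := by omega
  obtain ⟨m1, m2, m3, m4, m5⟩ := n3
  interval_cases t
  · by_cases c : s = 0
    · simp [prC, ok, c, n1, n2, m1, m2, m3, m4, m5, h2, m3.symm, m4.symm]; omega
    · simp [prC, c]
  · by_cases c : s = 0
    · have : (1, o, 0) ∈ prC φ (3, pv o, 3 * φ.length - 1) := by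
        simp only [prC, la, n5, n2]; split_ifs <;> simp_all
      simp [c, ok, h2, m2, this, show prC φ (1, o, 0) = [(3, pv o, 3 * φ.length - 1), (0, o, 0),
        (2, o, 0)] from rfl, show prC φ (0, o, 0) = [(0, nx o, 0), (1, o, 0), (0, pv o, 0)] from rfl,
        show prC φ (2, o, 0) = [(1, o, 0), (3, o, 0)] from rfl]
      omega
    · simp [prC, c]
  · have a : (2, o, s) ∈ prC φ (3, o, s) := by
      simp only [prC]; split_ifs <;> simp_all
    have e : prC φ (2, o, s) = [fi o s, (3, o, s)] := rfl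
    rcases s with _ | s
    · simp [e, fi, ok, h2, h3, a, show prC φ (1, o, 0) = [(3, pv o, 3 * φ.length - 1), (0, o, 0),
        (2, o, 0)] from rfl]
    · have : (2, o, s + 1) ∈ prC φ (3, o, s) := by
        simp only [prC, la, if_neg (show s + 1 ≠ 3 * φ.length by omega)]
        split_ifs <;> simp_all
      simp [e, fi, ok, h2, h3, a, this]; omega
  · have a : (3, o, s) ∈ prC φ (2, o, s) := by simp [prC]
    have b : ok (3 * φ.length) (la (3 * φ.length) o s) ∧ (la (3 * φ.length) o s).1 ≠ 3 ∧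
        (2, o, s) ≠ la (3 * φ.length) o s ∧ (3, o, s) ∈ prC φ (la (3 * φ.length) o s) := by
      unfold la
      split_ifs with c
      · simp [ok, m1, prC, n1]; omega
      · simp [ok, h2, prC, fi]; omega
    have b' : ∀ u v, (3, u, v) ≠ la (3 * φ.length) o s := fun u v e => b.2.1 (e ▸ rfl)
    by_cases c : conf φ o s = true
    · have e : prC φ (3, o, s) = [(2, o, s), (3, s, o), la (3 * φ.length) o s] := by simp [prC, c]
      have : (3, o, s) ∈ prC φ (3, s, o) := by simp [prC, ← c1, c]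
      have : s ≠ o := by rintro rfl; simp at c
      simp [e, a, b, b', (b' _ _).symm, *, ok]
      exact b.1
    · have e : prC φ (3, o, s) = [(2, o, s), la (3 * φ.length) o s] := by simp [prC, c]
      simp [e, a, b, b', (b' _ _).symm, h2, h3, ok]
      exact b.1

theorem arc_iff {M : ℕ → ℕ} {x y m} (hx : ok (3 * φ.length) x) (hy : ok (3 * φ.length) y)
    (hm : ok (3 * φ.length) m) (e : M (E (3 * φ.length) x) = E (3 * φ.length) m) :
    Arc (red φ) M (E (3 * φ.length) x) (E (3 * φ.length) y) ↔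
      y ∈ (prC φ x).takeWhile (· ≠ m) := by
  rw [Arc, pr_red hx, e]
  have := fun z hz => ((prC_spec hx).2.2 z hz).1
  generalize prC φ x = l at this
  induction l with
  | nil => simp
  | cons a l ih =>
    have ha := this a (by simp)
    have ih := ih fun z hz => this z (by simp [hz])
    by_cases c : a = m
    · simp [c]
    · have c' : E (3 * φ.length) a ≠ E (3 * φ.length) m := fun e => c (E_inj ha hm e)
      simp only [List.map_cons, List.takeWhile_cons, ne_eq, c, c', not_false_eq_true,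
        decide_true, if_true, List.mem_cons] at ih ⊢
      exact or_congr ⟨E_inj hy ha, congrArg _⟩ ih

theorem valid (φ : F3) : Valid 3 (red φ) := by
  intro a ha
  have h := ok_D (len_red ▸ ha)
  obtain ⟨h1, h2, h3⟩ := prC_spec h
  rw [← ED (3 * φ.length) a, pr_red h]
  refine ⟨h1.map_on fun x hx y hy => E_inj (h3 x hx).1 (h3 y hy).1, by simpa, fun b hb => ?_⟩
  obtain ⟨y, hy, rfl⟩ := List.mem_map.1 hb
  obtain ⟨y1, y2, y3⟩ := h3 y hy
  exact ⟨len_red ▸ E_lt y1, fun e => y2 (E_inj y1 h e), pr_red y1 ▸ List.mem_map_of_mem y3⟩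

def MC (n : ℕ) (S : ℕ → Prop) [DecidablePred S] (x : C) : C :=
  if x.1 = 0 then (if x.2.2 = 0 then (if S x.2.1 then (0, nx x.2.1, 0) else
    if S (pv x.2.1) then (0, pv x.2.1, 0) else (1, x.2.1, 0)) else x)
  else if x.1 = 1 then (if x.2.2 = 0 then (if S x.2.1 then (2, x.2.1, 0) else
    if S (pv x.2.1) then (3, pv x.2.1, n - 1) else (0, x.2.1, 0)) else x)
  else if x.1 = 2 then (if S x.2.1 then fi x.2.1 x.2.2 else (3, x.2))
  else if S x.2.1 then la n x.2.1 x.2.2 else (2, x.2)

def hC (S : ℕ → Prop) [DecidablePred S] (x : C) : ℕ :=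
  if x.1 = 0 then (if S x.2.1 then 0 else if S (pv x.2.1) then 2 else 1)
  else if x.1 = 1 then (if S (pv x.2.1) then 0 else 1)
  else if x.1 = 2 then (if S x.2.1 then 0 else 2) else if S x.2.1 then 1 else 0

theorem MC_spec {S : ℕ → Prop} [DecidablePred S]
    (s1 : ∀ o < 3 * φ.length, (S o ∧ ¬ S (nx o) ∧ ¬ S (pv o)) ∨ (¬ S o ∧ S (nx o) ∧ ¬ S (pv o)) ∨
      (¬ S o ∧ ¬ S (nx o) ∧ S (pv o)))
    (s2 : ∀ o < 3 * φ.length, ∀ t < 3 * φ.length, S o → conf φ o t = true → ¬ S t) {x}
    (h : ok (3 * φ.length) x) : ok (3 * φ.length) (MC (3 * φ.length) S x) ∧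
      MC (3 * φ.length) S (MC (3 * φ.length) S x) = x ∧
      (MC (3 * φ.length) S x ≠ x → MC (3 * φ.length) S x ∈ prC φ x) ∧
      ∀ y ∈ (prC φ x).takeWhile (· ≠ MC (3 * φ.length) S x), hC S y < hC S x := by
  obtain ⟨t, o, s⟩ := x
  obtain ⟨h1, h2, h3⟩ := h
  simp only at h1 h2 h3
  have n1 : pv (nx o) = o := by unfold pv nx; omega
  have n2 : nx (pv o) = o := by unfold pv nx; omega
  have n4 : pv (pv o) = nx o := by unfold pv nx; omega
  have n3 : nx o < 3 * φ.length ∧ pv o < 3 * φ.length ∧ nx o ≠ o ∧ pv o ≠ o ∧ nx o ≠ pv o := by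
    unfold pv nx; omega
  have a := s2 o h2 s h3
  have n5 : 3 * φ.length - 1 + 1 = 3 * φ.length := by omega
  have n6 : s ≠ 0 → s - 1 + 1 = s := by omega
  obtain ⟨m1, m2, m3, m4, m5⟩ := n3
  have b := s1 o h2
  interval_cases t
  · by_cases c : s = 0
    · rcases b with ⟨b1, b2, b3⟩ | ⟨b1, b2, b3⟩ | ⟨b1, b2, b3⟩ <;>
        simp [prC, MC, hC, ok, c, n1, n2, n4, m1, m2, m5, h2, b1, b2, b3] <;> omega
    · simp [prC, MC, c, ok, h2, h3]
  · by_cases c : s = 0
    · rcases b with ⟨b1, b2, b3⟩ | ⟨b1, b2, b3⟩ | ⟨b1, b2, b3⟩ <;>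
        simp [prC, MC, hC, ok, c, n1, n2, n4, n5, m1, m2, m5, h2, b1, b2, b3, fi, la] <;> omega
    · simp [prC, MC, c, ok, h2, h3]
  · have n7 : s ≠ 3 * φ.length := by omega
    by_cases b1 : S o <;> rcases s with _ | s <;>
      simp [prC, MC, hC, ok, h2, h3, b1, fi, la, n7] <;> first | omega | (split_ifs <;> simp)
  · by_cases b1 : S o
    · have b2 : ¬ S (nx o) := by tauto
      by_cases c : conf φ o s = true <;> by_cases d : s + 1 = 3 * φ.length <;>
        simp [prC, MC, hC, ok, h2, h3, b1, b2, fi, la, c, d, n1, m1, a] <;> omega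
    · by_cases c : conf φ o s = true <;> simp [prC, MC, ok, h2, h3, b1, c]

theorem yes (h : Sat3 φ) : CS (red φ) := by
  obtain ⟨s, s1, s2⟩ := (sat3_iff_sel φ).1 h
  have k := fun x => MC_spec (φ := φ) (S := fun o => s (o / 3) = o) (x := x) (fun o ho => by
    have := s1 (o / 3) (by omega)
    simp only [show nx o / 3 = o / 3 by unfold nx; omega, show pv o / 3 = o / 3 by unfold pv; omega]
    unfold nx pv; omega) fun o ho t ht a b c => by
      have := s2 (o / 3) (by omega) (t / 3) (by omega)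
      simp [a, c, b] at this
  refine ⟨fun a => E (3 * φ.length) (MC (3 * φ.length) (fun o => s (o / 3) = o) (D (3 * φ.length) a)),
    fun a ha => ?_, noBlk (fun a => hC (fun o => s (o / 3) = o) (D (3 * φ.length) a))
      fun a ha b hb => ?_⟩
  · have h := ok_D (len_red ▸ ha)
    obtain ⟨k1, k2, k3, -⟩ := k _ h
    refine ⟨by simp only [DE k1, k2, ED], fun e => ?_⟩
    conv_lhs => rw [← ED (3 * φ.length) a, pr_red h]
    exact List.mem_map_of_mem (k3 fun e' => e (by simp only [e', ED]))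
  · have h := ok_D (len_red ▸ ha)
    have hb' := ok_D (len_red ▸ ((valid φ a ha).2.2 b (List.takeWhile_subset _ hb)).1)
    rw [← ED (3 * φ.length) a, ← ED (3 * φ.length) b, arc_iff h hb' (k _ h).1
      (by simp only [ED])] at hb
    exact (k _ h).2.2.2 _ hb

theorem no (h : CS3 (red φ)) : Sat3 φ := by
  obtain ⟨M, h1, h2⟩ := h
  obtain ⟨N, n1, n2, n3⟩ : ∃ N : C → C, (∀ x, ok (3 * φ.length) x → N (N x) = x) ∧
      (∀ x y, ok (3 * φ.length) x → y ∈ (prC φ x).takeWhile (· ≠ N x) →
        x ∉ (prC φ y).takeWhile (· ≠ N y)) ∧ ∀ x y z, ok (3 * φ.length) x → z ≠ x →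
        y ∈ (prC φ x).takeWhile (· ≠ N x) → z ∈ (prC φ y).takeWhile (· ≠ N y) →
        x ∉ (prC φ z).takeWhile (· ≠ N z) := by
    have lt : ∀ x, ok (3 * φ.length) x → E (3 * φ.length) x < (red φ).length :=
      fun x hx => len_red ▸ E_lt hx
    have o : ∀ x, ok (3 * φ.length) x → ok (3 * φ.length) (D (3 * φ.length)
        (M (E (3 * φ.length) x))) := fun x hx => ok_D (len_red ▸ by
      by_cases c : M (E (3 * φ.length) x) = E (3 * φ.length) x
      · exact c.symm ▸ lt x hx
      · exact ((valid φ _ (lt x hx)).2.2 _ ((h1 _ (lt x hx)).2 c)).1)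
    have ar := fun x y hx hy => (arc_iff (M := M) (x := x) (y := y) hx hy (o x hx) (ED _ _).symm).2
    have sp := fun x y (hx : ok (3 * φ.length) x) p (hy : y ∈ (prC φ x).takeWhile p) =>
      (prC_spec hx).2.2 y (List.takeWhile_subset _ hy)
    refine ⟨fun x => D (3 * φ.length) (M (E (3 * φ.length) x)), fun x hx => by
      simp only [ED, (h1 _ (lt x hx)).1, DE hx], fun x y hx a b => ?_, fun x y z hx zx a b c => ?_⟩
    · obtain ⟨y1, y2, -⟩ := sp x y hx _ a
      exact h2 2 le_rfl (by omega) (blk2 (lt x hx) (lt y y1) (fun e => y2 (E_inj y1 hx e.symm))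
        (ar x y hx y1 a) (ar y x y1 hx b))
    · obtain ⟨y1, y2, -⟩ := sp x y hx _ a
      obtain ⟨z1, z2, -⟩ := sp y z y1 _ b
      exact h2 3 (by omega) le_rfl (blk3 (lt x hx) (lt y y1) (lt z z1)
        (fun e => y2 (E_inj y1 hx e.symm)) (fun e => zx (E_inj z1 hx e.symm))
        (fun e => z2 (E_inj z1 y1 e.symm)) (ar x y hx y1 a) (ar y z y1 z1 b) (ar z x z1 hx c))
  have ex : ∀ c, ∃ o, c < φ.length → o / 3 = c ∧ N (0, o, 0) = (0, nx o, 0) := fun c => by
    by_cases hc : c < φ.length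
    · by_contra hn
      push Not at hn
      have e0 := (hn (3 * c)).2 (by omega)
      have e1 := (hn (3 * c + 1)).2 (by omega)
      have e2 := (hn (3 * c + 2)).2 (by omega)
      have a0 : nx (3 * c) = 3 * c + 1 := by unfold nx; omega
      have a1 : nx (3 * c + 1) = 3 * c + 2 := by unfold nx; omega
      have a2 : nx (3 * c + 2) = 3 * c := by unfold nx; omega
      rw [a0] at e0
      rw [a1] at e1
      rw [a2] at e2
      exact n3 (0, 3 * c, 0) (0, 3 * c + 1, 0) (0, 3 * c + 2, 0) (by simp [ok]; omega) (by simp)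
        (by simp [prC, a0, e0.symm]) (by simp [prC, a1, e1.symm]) (by simp [prC, a2, e2.symm])
    · exact ⟨0, fun h => absurd h hc⟩
  choose s hs using ex
  have dn : ∀ o < 3 * φ.length, N (0, o, 0) = (0, nx o, 0) → ∀ t < 3 * φ.length,
      N (3, o, t) = la (3 * φ.length) o t := by
    intro o ho e
    have a1 : pv (nx o) = o := by unfold pv nx; omega
    have a3 : nx o < 3 * φ.length ∧ nx (nx o) ≠ o := by unfold nx; omega
    have e1 : N (0, nx o, 0) = (0, o, 0) := by rw [← e, n1 _ (by simp [ok]; omega)]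
    have e2 : N (1, nx o, 0) = (3, o, 3 * φ.length - 1) := by_contra fun c =>
      n2 (0, nx o, 0) (1, nx o, 0) (by simp [ok]; omega) (by simp [prC, e1, a3])
        (by
          have : (0, nx o, 0) ≠ N (1, nx o, 0) := fun t => by
            have := n1 (1, nx o, 0) (by simp [ok]; omega)
            simp [← t, e1] at this
          simp [prC, a1, Ne.symm c, this])
    have : ∀ i < 3 * φ.length, N (3, o, 3 * φ.length - 1 - i) =
        la (3 * φ.length) o (3 * φ.length - 1 - i) := by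
      intro i
      induction i with
      | zero =>
        intro _
        rw [Nat.sub_zero, ← e2, n1 _ (by simp [ok]; omega), la, if_pos (by omega)]
      | succ i ih =>
        intro hi
        have ih := ih (by omega)
        obtain ⟨t, ht⟩ : ∃ t, 3 * φ.length - 1 - i = t + 1 := ⟨3 * φ.length - 2 - i, by omega⟩
        rw [ht] at ih
        rw [show 3 * φ.length - 1 - (i + 1) = t by omega, la, if_neg (by omega)]
        have l : (2, o, t + 1) ≠ la (3 * φ.length) o (t + 1) := by
          unfold la; split_ifs <;> simp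
        have : N (2, o, t + 1) = (3, o, t) := by_contra fun c =>
          n2 (3, o, t + 1) (2, o, t + 1) (by simp [ok]; omega)
            (by simp only [prC]; split_ifs <;> simp_all) (by
              have : (3, o, t + 1) ≠ N (2, o, t + 1) := fun u => by
                have := n1 (2, o, t + 1) (by simp [ok]; omega)
                rw [← u, ih] at this
                exact l this.symm
              simp [prC, fi, Ne.symm c, this])
        rw [← this, n1 _ (by simp [ok]; omega)]
    intro t ht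
    have := this (3 * φ.length - 1 - t) (by omega)
    rwa [show 3 * φ.length - 1 - (3 * φ.length - 1 - t) = t by omega] at this
  refine (sat3_iff_sel φ).2 ⟨s, fun c hc => (hs c hc).1, fun c hc d hd => ?_⟩
  by_contra hn
  rw [Bool.not_eq_false] at hn
  obtain ⟨a1, a2⟩ := hs c hc
  obtain ⟨b1, b2⟩ := hs d hd
  refine n2 (3, s c, s d) (3, s d, s c) (by simp [ok]; omega) ?_ ?_
  · rw [dn _ (by omega) a2 _ (by omega)]
    simp only [prC, hn, la]
    split_ifs <;> simp_all
  · rw [dn _ (by omega) b2 _ (by omega)]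
    simp only [prC, conf_symm φ (s d), hn, la]
    split_ifs <;> simp_all

theorem hardCS {L} (hL : 3 ≤ L) : NPH (Valid L) CS :=
  sat3_nph.reduce red pt_red fun φ _ => ⟨(valid φ).mono hL, yes, fun h => no h.cs3⟩

theorem hardCS3 {L} (hL : 3 ≤ L) : NPH (Valid L) CS3 :=
  sat3_nph.reduce red pt_red fun φ _ => ⟨(valid φ).mono hL, fun h => (yes h).cs3, no⟩

end Pool.Agent.H36.Cyc
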