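import Mathlib

/-!
Cycle stable matchings in roommates instances with incomplete lists.
-/

namespace Pool.Agent.H36.Cyc

/-- An instance: entry `a` is the preference list of agent `a`, best first. -/
abbrev Inst := List (List ℕ)

/-- The preference list of agent `a`. -/
def pr (P : Inst) (a : ℕ) : List ℕ := P.getD a []

/-- Strict lists of length at most `L` of other agents, with mutual acceptability. -/
def Valid (L : ℕ) (P : Inst) : Prop :=
  ∀ a < P.length, (pr P a).Nodup ∧ (pr P a).length ≤ L ∧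
    ∀ b ∈ pr P a, b < P.length ∧ b ≠ a ∧ a ∈ pr P b

/-- `M a` is the partner of `a`, and `M a = a` when `a` is unassigned. -/
def Mat (P : Inst) (M : ℕ → ℕ) : Prop :=
  ∀ a < P.length, M (M a) = a ∧ (M a ≠ a → M a ∈ pr P a)

/-- `a` prefers `b` to its partner, or is unassigned and finds `b` acceptable. -/
def Arc (P : Inst) (M : ℕ → ℕ) (a b : ℕ) : Prop := b ∈ (pr P a).takeWhile (· ≠ M a)

/-- There is a blocking cycle of `k` distinct agents. -/
def Blk (P : Inst) (M : ℕ → ℕ) (k : ℕ) : Prop :=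
  ∃ c : ℕ → ℕ, (∀ i < k, c i < P.length) ∧ (∀ i < k, ∀ j < k, c i = c j → i = j) ∧
    ∀ i < k, Arc P M (c i) (c ((i + 1) % k))

/-- A cycle stable matching exists. -/
def CS (P : Inst) : Prop := ∃ M, Mat P M ∧ ∀ k, 2 ≤ k → ¬ Blk P M k

/-- A 3-cycle stable matching exists. -/
def CS3 (P : Inst) : Prop := ∃ M, Mat P M ∧ ∀ k, 2 ≤ k → k ≤ 3 → ¬ Blk P M k

end Pool.Agent.H36.Cyc
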