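import Pool.Agent.H36.PSpace

/-!
PSPACE-hardness of the intersection problem for binary DFAs (Kozen).
-/

namespace Pool.Agent.H36.PSpace

open Pool.Agent.H38.NP

/-- binary DFA with start state `0`: entry `q` is `(δ q 0, δ q 1, accepting)` -/
abbrev Dfa := List (ℕ × ℕ × Bool)

def dstep (D : Dfa) (q : ℕ) (b : Bool) : ℕ :=
  cond b (D.getD q (0, 0, false)).2.1 (D.getD q (0, 0, false)).1

def dacc (D : Dfa) (q : ℕ) : Bool := (D.getD q (0, 0, false)).2.2

def Inter (Ds : List Dfa) : Prop := ∃ w : List Bool, ∀ D ∈ Ds, dacc D (w.foldl (dstep D) 0) = true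

def WF (Ds : List Dfa) : Prop :=
  Ds ≠ [] ∧ ∀ D ∈ Ds, 0 < D.length ∧ ∀ q < D.length, ∀ b, dstep D q b < D.length

@[fun_prop] theorem pt_dstep {α : Type} [Enc α] {D : α → Dfa} {q : α → ℕ} {b : α → Bool}
    (hD : PT D) (hq : PT q) (hb : PT b) : PT fun a => dstep (D a) (q a) (b a) := by
  unfold dstep; fun_prop

@[fun_prop] theorem pt_dacc {α : Type} [Enc α] {D : α → Dfa} {q : α → ℕ}
    (hD : PT D) (hq : PT q) : PT fun a => dacc (D a) (q a) := by
  unfold dacc; fun_prop

section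
variable {S : Type} [BEq S] [LawfulBEq S]

def mkD (vs : List S) (δ : S → Bool → S) (acc : S → Bool) : Dfa :=
  vs.map fun s => (vs.idxOf (δ s false), vs.idxOf (δ s true), acc s)

theorem mkD_get (vs : List S) (δ : S → Bool → S) (acc : S → Bool) {q : ℕ} (h : q < vs.length) :
    (mkD vs δ acc).getD q (0, 0, false) =
      (vs.idxOf (δ vs[q] false), vs.idxOf (δ vs[q] true), acc vs[q]) := by
  simp [mkD, List.getD_eq_getElem?_getD, h]

theorem mkD_step (vs : List S) (δ : S → Bool → S) (acc : S → Bool) {s : S} (h : s ∈ vs) (b : Bool) :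
    dstep (mkD vs δ acc) (vs.idxOf s) b = vs.idxOf (δ s b) := by
  have := List.idxOf_lt_length_of_mem h
  rw [dstep, mkD_get _ _ _ this, List.getElem_idxOf]
  cases b <;> rfl

theorem mkD_run (vs : List S) (δ : S → Bool → S) (acc : S → Bool)
    (hc : ∀ s ∈ vs, ∀ b, δ s b ∈ vs) (w : List Bool) {s : S} (h : s ∈ vs) :
    dacc (mkD vs δ acc) (w.foldl (dstep (mkD vs δ acc)) (vs.idxOf s)) = acc (w.foldl δ s) := by
  induction w generalizing s with
  | nil => rw [List.foldl_nil, dacc, mkD_get _ _ _ (List.idxOf_lt_length_of_mem h),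
      List.getElem_idxOf]; rfl
  | cons b w ih => rw [List.foldl_cons, mkD_step _ _ _ h, ih (hc _ h _)]; rfl

theorem mkD_wf (vs : List S) (δ : S → Bool → S) (acc : S → Bool)
    (hc : ∀ s ∈ vs, ∀ b, δ s b ∈ vs) :
    ∀ q < (mkD vs δ acc).length, ∀ b, dstep (mkD vs δ acc) q b < (mkD vs δ acc).length := by
  intro q hq b
  have e : (mkD vs δ acc).length = vs.length := by simp [mkD]
  rw [e] at hq ⊢
  rw [dstep, mkD_get _ _ _ hq]
  cases b <;> exact List.idxOf_lt_length_of_mem (hc _ (List.getElem_mem _) _)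

end

abbrev St := ℕ × Bool × Bool × Bool
abbrev Par := List ((Bool × ℕ) × Bool) × Bool × Bool × Bool

def cδ (V : ℕ) (P : Par) (s : St) (b : Bool) : St :=
  cond (decide (s.1 + 1 < V))
    (s.1 + 1, s.2.1, s.2.2.1 || P.1.contains ((true, s.1), b),
      s.2.2.2 || P.1.contains ((false, s.1), b))
    (0, s.2.1 && (s.2.2.1 || P.1.contains ((true, s.1), b) || P.2.1),
      s.2.2.2 || P.1.contains ((false, s.1), b), P.2.2.2)

def cacc (P : Par) (s : St) : Bool := decide (s.1 = 0) && s.2.1 && (!P.2.1 || s.2.2.1)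

def cvs (V : ℕ) (P : Par) : List St := (0, true, P.2.2.1, P.2.2.2) ::
  List.product (List.range V) (List.product [false, true] (List.product [false, true] [false, true]))

theorem mem_cvs {V : ℕ} {P : Par} {s : St} (h : s.1 < V) : s ∈ cvs V P := by
  obtain ⟨p, a, b, c⟩ := s
  refine List.mem_cons_of_mem _ ?_
  simp only [List.pair_mem_product, List.mem_range]
  refine ⟨h, ?_, ?_, ?_⟩ <;> simp

def cD (V : ℕ) (P : Par) : Dfa := mkD (cvs V P) (cδ V P) (cacc P)

theorem cδ_lt {V : ℕ} (hV : 0 < V) (P : Par) (s b) : (cδ V P s b).1 < V := by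
  unfold cδ
  by_cases h : s.1 + 1 < V <;> simp [h, hV]

def cst (V : ℕ) (P : Par) (f : ℕ → Bool) : ℕ → St
  | 0 => (0, true, P.2.2.1, P.2.2.2)
  | j + 1 => cδ V P (cst V P f j) (f j)

theorem cst_eq (V : ℕ) (P : Par) (f : ℕ → Bool) (n : ℕ) :
    ((List.range n).map f).foldl (cδ V P) (0, true, P.2.2.1, P.2.2.2) = cst V P f n := by
  induction n with
  | zero => rfl
  | succ n ih => simp [List.range_succ, List.foldl_append, ih, cst]

def Oo (V : ℕ) (P : Par) (f : ℕ → Bool) (t p : ℕ) : Prop :=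
  P.2.2.2 = true ∨ ∃ i < p, ((false, i), f (t * V + i)) ∈ P.1

def Nn (V : ℕ) (P : Par) (f : ℕ → Bool) (t p : ℕ) : Prop :=
  (t = 0 ∧ P.2.2.1 = true) ∨ (t ≠ 0 ∧ Oo V P f (t - 1) V) ∨ ∃ i < p, ((true, i), f (t * V + i)) ∈ P.1

def Al (V : ℕ) (P : Par) (f : ℕ → Bool) (t : ℕ) : Prop := ∀ s < t, Nn V P f s V ∨ P.2.1 = true

def Inv (V : ℕ) (P : Par) (f : ℕ → Bool) (t p : ℕ) (s : St) : Prop :=
  s.1 = p ∧ (s.2.1 = true ↔ Al V P f t) ∧ (s.2.2.1 = true ↔ Nn V P f t p) ∧
    (s.2.2.2 = true ↔ Oo V P f t p)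

theorem inv_step {V : ℕ} {P : Par} {f : ℕ → Bool} {t p : ℕ} {s : St} (h : Inv V P f t p s) :
    ((s.2.2.1 || P.1.contains ((true, s.1), f (t * V + p))) = true ↔ Nn V P f t (p + 1)) ∧
    ((s.2.2.2 || P.1.contains ((false, s.1), f (t * V + p))) = true ↔ Oo V P f t (p + 1)) := by
  obtain ⟨h1, -, h3, h4⟩ := h
  simp only [Bool.or_eq_true, h3, h4, h1, List.contains_iff_mem, Nn, Oo, Nat.exists_lt_succ_right,
    or_assoc, and_self]

theorem cst_inv {V : ℕ} (hV : 0 < V) (P : Par) (f : ℕ → Bool) (t : ℕ) :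
    ∀ p < V, Inv V P f t p (cst V P f (t * V + p)) := by
  have st : ∀ t, Inv V P f t 0 (cst V P f (t * V + 0)) →
      ∀ p < V, Inv V P f t p (cst V P f (t * V + p)) := by
    intro t h0 p
    induction p with
    | zero => exact fun _ => h0
    | succ p ih =>
      intro hp
      have h := ih (by omega)
      have h2 := inv_step h
      have e : (cst V P f (t * V + p)).1 + 1 < V := by rw [h.1]; exact hp
      rw [← Nat.add_assoc, cst, cδ, decide_eq_true e, cond_true]
      exact ⟨by rw [h.1], h.2.1, h2.1, h2.2⟩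
  induction t with
  | zero => exact st 0 (by simp [Inv, cst, Al, Nn, Oo])
  | succ t ih =>
    refine st _ ?_
    obtain ⟨p, rfl⟩ : ∃ p, V = p + 1 := ⟨V - 1, by omega⟩
    have h := ih p (by omega)
    have h2 := inv_step h
    have e : ¬ (cst (p + 1) P f (t * (p + 1) + p)).1 + 1 < p + 1 := by rw [h.1]; omega
    rw [show (t + 1) * (p + 1) + 0 = t * (p + 1) + p + 1 by ring, cst, cδ, decide_eq_false e,
      cond_false]
    refine ⟨rfl, ?_, ?_, ?_⟩
    · simp only [Bool.and_eq_true, h.2.1]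
      rw [Bool.or_eq_true, h2.1]
      simp only [Al, Nat.forall_lt_succ_right]
    · simp only [h2.2]
      simp [Nn]
    · simp [Oo]

theorem cD_acc {V : ℕ} (hV : 0 < V) (P : Par) (f : ℕ → Bool) (t p : ℕ) (hp : p < V) :
    dacc (cD V P) (((List.range (t * V + p)).map f).foldl (dstep (cD V P)) 0) = true ↔
      p = 0 ∧ Al V P f t ∧ (P.2.1 = true → Nn V P f t p) := by
  have := mkD_run (cvs V P) (cδ V P) (cacc P) (fun s _ b => mem_cvs (cδ_lt hV P s b))
    ((List.range (t * V + p)).map f) (s := (0, true, P.2.2.1, P.2.2.2)) List.mem_cons_self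
  rw [show (cvs V P).idxOf (0, true, P.2.2.1, P.2.2.2) = 0 from List.idxOf_cons_self] at this
  obtain ⟨h1, h2, h3, -⟩ := cst_inv hV P f t p hp
  rw [cD, this, cst_eq, cacc]
  simp only [Bool.and_eq_true, decide_eq_true_eq, h1, h2, Bool.or_eq_true, h3, and_assoc,
    Bool.not_eq_true', ← Bool.not_eq_true, imp_iff_not_or]

abbrev RI := CNF ℕ × CNF (Bool × ℕ) × CNF ℕ

def vb (p : RI) : ℕ := 1 + (p.1.flatten.map fun l => l.1).sum +
  (p.2.1.flatten.map fun l => l.1.2).sum + (p.2.2.flatten.map fun l => l.1).sum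

def pars (p : RI) : List Par :=
  p.1.map (fun C => (C.map fun l => ((true, l.1), l.2), false, false, true)) ++
  p.2.1.map (fun C => (C, false, true, false)) ++
  ([(0, true), (0, false)] :: p.2.2).map fun C => (C.map fun l => ((false, l.1), l.2), true, false, false)

theorem by_iff {V : ℕ} {C : List (ℕ × Bool)} (h : ∀ l ∈ C, l.1 < V) (a : ℕ → Bool) (c : Bool) :
    (∃ i < V, ((c, i), a i) ∈ C.map fun l => ((c, l.1), l.2)) ↔ By a C := by
  simp only [List.mem_map, Prod.mk.injEq, true_and, By]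
  constructor
  · rintro ⟨i, -, l, hl, rfl, e⟩
    exact ⟨l, hl, e.symm⟩
  · rintro ⟨l, hl, e⟩
    exact ⟨_, h l hl, l, hl, rfl, e.symm⟩

theorem inter_iff (p : RI) (f : ℕ → Bool) (t : ℕ) :
    (∀ P ∈ pars p, Al (vb p) P f t ∧ (P.2.1 = true → Nn (vb p) P f t 0)) ↔
    ∃ T, t = T + 1 ∧ (∀ C ∈ p.1, By (fun i => f (0 * vb p + i)) C) ∧
      (∀ s < T, ∀ C ∈ p.2.1, By (fun v => f ((s + v.1.toNat) * vb p + v.2)) C) ∧
      ∀ C ∈ p.2.2, By (fun i => f (T * vb p + i)) C := by
  have hs : ∀ (l : List ℕ), ∀ x ∈ l, x ≤ l.sum := fun l x hx => List.single_le_sum (by simp) x hx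
  have b1 : ∀ C ∈ p.1, ∀ l ∈ C, l.1 < vb p := fun C hC l hl => by
    have := hs _ _ (List.mem_map_of_mem (f := fun l : ℕ × Bool => l.1)
      (List.mem_flatten.2 ⟨C, hC, hl⟩))
    unfold vb; omega
  have b2 : ∀ C ∈ p.2.1, ∀ l ∈ C, l.1.2 < vb p := fun C hC l hl => by
    have := hs _ _ (List.mem_map_of_mem (f := fun l : (Bool × ℕ) × Bool => l.1.2)
      (List.mem_flatten.2 ⟨C, hC, hl⟩))
    unfold vb; omega
  have b3 : ∀ C ∈ p.2.2, ∀ l ∈ C, l.1 < vb p := fun C hC l hl => by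
    have := hs _ _ (List.mem_map_of_mem (f := fun l : ℕ × Bool => l.1)
      (List.mem_flatten.2 ⟨C, hC, hl⟩))
    unfold vb; omega
  have hV : 0 < vb p := by unfold vb; omega
  generalize vb p = V at *
  simp only [pars, List.forall_mem_append, List.forall_mem_map, List.forall_mem_cons,
    List.map_cons, and_assoc]
  rcases t with _ | T
  · simp [Nn]
  simp only [Nat.add_right_cancel_iff, exists_eq_left']
  refine and_congr (forall₂_congr fun C hC => ?_) (and_congr ?_ ?_)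
  · rw [← by_iff (b1 C hC) _ true]
    simp only [Al, Nn, Oo, Nat.forall_lt_succ_left]
    simp
  · rw [show (∀ s < T, ∀ C ∈ p.2.1, By (fun v => f ((s + v.1.toNat) * V + v.2)) C) ↔
      ∀ C ∈ p.2.1, ∀ s < T, By (fun v => f ((s + v.1.toNat) * V + v.2)) C from
      ⟨fun h C hC s hs => h s hs C hC, fun h s hs C hC => h C hC s hs⟩]
    refine forall₂_congr fun C hC => ?_
    simp only [Al, Nn, Oo, Nat.forall_lt_succ_left]
    simp only [true_and, true_or, Nat.add_eq_zero_iff, one_ne_zero, and_false, false_and, ne_eq,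
      not_false_eq_true, Nat.add_sub_cancel, Bool.false_eq_true, false_or, or_false, false_imp_iff,
      and_true]
    refine forall₂_congr fun s _ => ⟨?_, ?_⟩
    · rintro (⟨i, -, h⟩ | ⟨i, -, h⟩)
      · exact ⟨_, h, rfl⟩
      · exact ⟨_, h, rfl⟩
    · rintro ⟨⟨⟨c, i⟩, b⟩, hl, e⟩
      cases c
      · exact Or.inl ⟨i, b2 C hC _ hl, by simp at e; rw [e]; exact hl⟩
      · exact Or.inr ⟨i, b2 C hC _ hl, by simp at e; rw [e]; exact hl⟩
  · have : Nn V ([((false, 0), true), ((false, 0), false)], true, false, false) f (T + 1) 0 :=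
      Or.inr (Or.inl ⟨by omega, Or.inr ⟨0, hV, by simp⟩⟩)
    simp only [List.map_nil, this, Al, or_true, implies_true, true_and, forall_const]
    refine forall₂_congr fun C hC => ?_
    rw [← by_iff (b3 C hC) _ false]
    simp [Nn, Oo]

theorem inter_psh : PSH WF Inter := by
  refine reach_psh.reduce (fun p => (pars p).map (cD (vb p))) ?_ fun p _ => ?_
  · unfold cD mkD cδ cacc cvs pars vb
    fun_prop
  have hV : 0 < vb p := by unfold vb; omega
  refine ⟨⟨by simp [pars], ?_⟩, ?_, ?_⟩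
  · simp only [List.forall_mem_map]
    exact fun P _ => ⟨by simp [cD, mkD, cvs], mkD_wf _ _ _ fun s _ b => mem_cvs (cδ_lt hV P s b)⟩
  · rintro ⟨T, a, h1, h2, h3⟩
    let f : ℕ → Bool := fun j => a (j / vb p) (j % vb p)
    have hf : ∀ t, ∀ i < vb p, f (t * vb p + i) = a t i := by
      intro t i hi
      simp only [f]
      rw [Nat.mul_comm, Nat.mul_add_mod, Nat.mod_eq_of_lt hi, Nat.mul_add_div hV,
        Nat.div_eq_of_lt hi, Nat.add_zero]
    have hs : ∀ (l : List ℕ), ∀ x ∈ l, x ≤ l.sum := fun l x hx => List.single_le_sum (by simp) x hx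
    refine ⟨(List.range ((T + 1) * vb p + 0)).map f, ?_⟩
    simp only [List.forall_mem_map, cD_acc hV _ _ _ _ hV, true_and]
    refine (inter_iff p f _).2 ⟨T, rfl, fun C hC => ?_, fun s hs' C hC => ?_, fun C hC => ?_⟩
    · obtain ⟨l, hl, e⟩ := h1 C hC
      have := hs _ _ (List.mem_map_of_mem (f := fun l : ℕ × Bool => l.1)
        (List.mem_flatten.2 ⟨C, hC, hl⟩))
      exact ⟨l, hl, (hf _ _ (by unfold vb; omega)).trans e⟩
    · obtain ⟨l, hl, e⟩ := h2 s hs' C hC
      have := hs _ _ (List.mem_map_of_mem (f := fun l : (Bool × ℕ) × Bool => l.1.2)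
        (List.mem_flatten.2 ⟨C, hC, hl⟩))
      exact ⟨l, hl, (hf _ _ (by unfold vb; omega)).trans e⟩
    · obtain ⟨l, hl, e⟩ := h3 C hC
      have := hs _ _ (List.mem_map_of_mem (f := fun l : ℕ × Bool => l.1)
        (List.mem_flatten.2 ⟨C, hC, hl⟩))
      exact ⟨l, hl, (hf _ _ (by unfold vb; omega)).trans e⟩
  · rintro ⟨w, hw⟩
    let f : ℕ → Bool := fun j => w.getD j false
    have e : w = (List.range (w.length / vb p * vb p + w.length % vb p)).map f := by
      rw [Nat.div_add_mod']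
      apply List.ext_getElem (by simp)
      intro i h1 h2
      simp [f, List.getD_eq_getElem?_getD, h1]
    rw [e] at hw
    simp only [List.forall_mem_map, cD_acc hV _ _ _ _ (Nat.mod_lt _ hV)] at hw
    obtain ⟨T, -, h⟩ := (inter_iff p f (w.length / vb p)).1 fun P hP =>
      ⟨(hw P hP).2.1, (hw P hP).1 ▸ (hw P hP).2.2⟩
    exact ⟨T, fun t i => f (t * vb p + i), h⟩

end Pool.Agent.H36.PSpace
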