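import Pool.Agent.H36.ParDefs
import Pool.Agent.H36.Gr

/-!
Tools for parameterized statements: reductions from `PT` maps, and a calculus of functions
computed in fixed-parameter time.
-/

namespace Pool.Agent.H36.Par

open Pool.Agent.H38.NP Function

variable {α β γ : Type} [Enc α] [Enc β] [Enc γ]

theorem comp_add {f g : ℕ → ℕ} (hf : Computable f) (hg : Computable g) :
    Computable fun k => f k + g k := Primrec.nat_add.to_comp.comp hf hg
theorem comp_mul {f g : ℕ → ℕ} (hf : Computable f) (hg : Computable g) :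
    Computable fun k => f k * g k := Primrec.nat_mul.to_comp.comp hf hg
theorem comp_pow {f g : ℕ → ℕ} (hf : Computable f) (hg : Computable g) :
    Computable fun k => f k ^ g k :=
  (Primrec₂.unpaired'.1 Nat.Primrec.pow).to_comp.comp hf hg
theorem comp_c (c : ℕ) : Computable fun _ : ℕ => c := Computable.const c
theorem comp_id : Computable fun k : ℕ => k := Computable.id

theorem preduces_of_pt [Dec α] {P : α → Prop} {κ : α → ℕ} {C Q : β → Prop} {μ : β → ℕ}
    (r : α → β) (hr : PT r) (g : ℕ → ℕ) (hg : Computable g)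
    (h : ∀ a, C (r a) ∧ (P a ↔ Q (r a)) ∧ μ (r a) ≤ g (κ a)) : PReduces P κ C Q μ := by
  obtain ⟨f, hf, e⟩ := hr.polyTimeOn fun _ => True
  exact ⟨f, hf, g, hg, fun a => ⟨r a, e a trivial, h a⟩⟩

/-- bounded by `h (κ a) * (size + 1) ^ c` -/
def FB (κ : α → ℕ) (t : α → ℕ) : Prop :=
  ∃ (h : ℕ → ℕ) (c : ℕ), Computable h ∧ ∀ a, t a ≤ h (κ a) * (sz a + 1) ^ c

variable {κ : α → ℕ}

theorem FB.mono {t u : α → ℕ} (h : FB κ u) (e : ∀ a, t a ≤ u a) : FB κ t :=
  let ⟨f, c, hf, hq⟩ := h; ⟨f, c, hf, fun a => (e a).trans (hq a)⟩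
theorem FB.par {h : ℕ → ℕ} (hh : Computable h) : FB κ fun a => h (κ a) :=
  ⟨h, 0, hh, by simp⟩
theorem FB.const (c : ℕ) : FB κ fun _ => c := FB.par (comp_c c)
theorem FB.sz : FB κ fun a => sz a := ⟨fun _ => 1, 1, comp_c 1, by simp⟩
theorem FB.add {t u : α → ℕ} (h : FB κ t) (h' : FB κ u) : FB κ fun a => t a + u a := by
  obtain ⟨f, c, hf, hq⟩ := h
  obtain ⟨f', c', hf', hq'⟩ := h'
  refine ⟨fun k => f k + f' k, c + c', comp_add hf hf', fun a => ?_⟩
  have h1 : (H38.NP.sz a + 1) ^ c ≤ (H38.NP.sz a + 1) ^ (c + c') := Nat.pow_le_pow_right (by omega) (by omega)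
  have h2 : (H38.NP.sz a + 1) ^ c' ≤ (H38.NP.sz a + 1) ^ (c + c') := Nat.pow_le_pow_right (by omega) (by omega)
  have := (hq a).trans (Nat.mul_le_mul_left _ h1)
  have := (hq' a).trans (Nat.mul_le_mul_left _ h2)
  rw [Nat.add_mul]; beta_reduce; omega
theorem FB.mul {t u : α → ℕ} (h : FB κ t) (h' : FB κ u) : FB κ fun a => t a * u a := by
  obtain ⟨f, c, hf, hq⟩ := h
  obtain ⟨f', c', hf', hq'⟩ := h'
  refine ⟨fun k => f k * f' k, c + c', comp_mul hf hf', fun a => ?_⟩
  refine (Nat.mul_le_mul (hq a) (hq' a)).trans (le_of_eq ?_)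
  rw [pow_add]; ring
theorem FB.eval {t : α → ℕ} (q : Polynomial ℕ) (h : FB κ t) : FB κ fun a => q.eval (t a) := by
  induction q using Polynomial.induction_on with
  | C c => simpa using FB.const c
  | add p q hp hq => simpa using hp.add hq
  | monomial n c hp =>
    refine (hp.mul h).mono fun a => le_of_eq ?_
    simp [pow_succ, mul_assoc]

/-- computed in fixed-parameter time -/
def FT (κ : α → ℕ) (f : α → β) : Prop :=
  ∃ (p : Prog) (t : α → ℕ), FB κ t ∧ ∀ a, Comp p (enc a) (enc (f a)) (t a)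

theorem FT.fb {f : α → β} (h : FT κ f) : FB κ fun a => sz (f a) :=
  let ⟨_, _, ht, hq⟩ := h; (FB.sz.add ht).mono fun a => (hq a).len

theorem FT.of_pt {f : α → β} (h : PT f) : FT κ f :=
  let ⟨p, q, hq⟩ := h; ⟨p, _, FB.sz.eval q, hq⟩

theorem FT.comp {f : β → γ} {g : α → β} (hf : PT f) (hg : FT κ g) : FT κ fun a => f (g a) := by
  have hb := hg.fb
  obtain ⟨p, q, h⟩ := hf
  obtain ⟨p', t, ht, h'⟩ := hg
  exact ⟨.seq p' p, _, ht.add (hb.eval q), fun a => Run.seq (h' a) (h (g a))⟩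

theorem FT.mk {f : α → β} {g : α → γ} (hf : FT κ f) (hg : FT κ g) :
    FT κ fun a => (f a, g a) := by
  have hb := hf.fb
  have hb' := hg.fb
  obtain ⟨p, t, ht, h⟩ := hf
  obtain ⟨p', t', ht', h'⟩ := hg
  exact ⟨_, _, (ht.add ht').add ((FB.const 50).mul (((FB.sz.add hb).add hb').add (FB.const 1))),
    fun a => Comp.pair (h a) (h' a)⟩

/-- exponential padding: `2 ^ t` in unary when `t` is bounded in terms of the parameter -/
theorem FT.exp {t : α → ℕ} (ht : FT κ t) {h : ℕ → ℕ} (hh : Computable h)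
    (hb : ∀ a, t a ≤ h (κ a)) : FT κ fun a => 2 ^ t a := by
  have h1 : PT fun n : ℕ => n + n := by fun_prop
  obtain ⟨p, q, hq⟩ := h1
  obtain ⟨p0, t0, ht0, h0⟩ := ht.mk (FT.of_pt (PT.const (1 : ℕ)))
  have hB : FB κ fun a => 2 ^ h (κ a) := FB.par (comp_pow (comp_c 2) hh)
  have hT : FB κ fun a => h (κ a) := FB.par hh
  refine ⟨.seq p0 (iterP p), _, ht0.add ((hT.mul ((hB.eval q).add (FB.const 2))).add
    ((FB.const 50).mul (((hT.add hB).add hB).add (FB.const 1)))), fun a => Run.seq (h0 a) ?_⟩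
  have hs : ∀ i ≤ t a, 2 ^ i ≤ 2 ^ h (κ a) := fun i hi =>
    Nat.pow_le_pow_right (by omega) (hi.trans (hb a))
  have := Comp.iter (p := p) (q.eval (2 ^ h (κ a))) (enc (t a)) (fun i => enc (2 ^ i : ℕ))
    (fun i hi => by
      have e : 2 ^ (i + 1) = 2 ^ i + 2 ^ i := by ring
      rw [e]
      exact (hq (2 ^ i)).mono (eval_mono q (by
        rw [sz_nat]; exact hs i (by simp at hi; omega))))
  simp only [enc_nat, List.length_replicate, pow_zero] at this ⊢
  refine this.mono ?_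
  have h1 := hs 0 (Nat.zero_le _)
  have h2 := hs _ le_rfl
  have h3 := Nat.mul_le_mul_right (q.eval (2 ^ h (κ a)) + 2) (hb a)
  have := hb a
  simp only [pow_zero] at h1
  omega

theorem FT.fptOn {C P : α → Prop} {d : α → Bool} (hd : FT κ d)
    (h : ∀ a, C a → (P a ↔ d a = true)) : FPTOn C P κ := by
  classical
  obtain ⟨p, t, ⟨f, c, hf, hb⟩, hp⟩ := hd
  let N := Finset.univ.sup fun l : Lab p => (ins p l).reg
  have hN : ∀ l, (ins p l).reg ≤ N := fun l =>
    Finset.le_sup (f := fun l : Lab p => (ins p l).reg) (Finset.mem_univ l)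
  have hi : ∀ x, Turing.initList (machine p N) x = cfgOf (N := N) (some (start p)) (sc x E) := by
    intro x
    simp only [Turing.initList, cfgOf, machine]
    congr 1
    funext k
    refine Fin.cases ?_ (fun k => ?_) k
    · rfl
    · simp [sc, E]
  have hh : ∀ x, Turing.haltList (machine p N) x = cfgOf (N := N) none (sc x E) := by
    intro x
    simp only [Turing.haltList, cfgOf, machine]
    congr 1
    funext k
    refine Fin.cases ?_ (fun k => ?_) k
    · rfl
    · simp [sc, E]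
  refine ⟨⟨machine p N, Equiv.refl _, Equiv.refl _⟩, f, c, hf, fun a ha => ⟨d a, h a ha, ?_⟩⟩
  obtain ⟨s, hs, he⟩ := hp a
  refine ⟨⟨⟨s, ?_⟩, hs.trans (hb a)⟩⟩
  have := Reach.iter hN he.reach
  simp only [Equiv.refl, Option.map_some]
  erw [List.map_id, List.map_id, hi, hh]
  exact this

end Pool.Agent.H36.Par
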