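import Pool.Agent.H36.DksDefs
import Pool.Agent.H36.Par

/-!
Systems of threshold modules: counting non-edges.
-/

namespace Pool.Agent.H36.Dks

open Finset

variable {M : Type} [DecidableEq M]

abbrev Vx (M : Type) := M × Bool × ℕ

/-- non-adjacency -/
def non (F : M → M → Bool) (p : M → ℕ → ℕ) (u v : Vx M) : Bool :=
  if u.1 = v.1 then (!u.2.1 && !v.2.1) || (u.2.1 && !v.2.1 && decide (u.2.2 < p v.1 v.2.2)) ||
    (!u.2.1 && v.2.1 && decide (v.2.2 < p u.1 u.2.2)) else F u.1 v.1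

theorem non_symm {F : M → M → Bool} (hF : ∀ a b, F a b = F b a) (p) (u v : Vx M) :
    non F p u v = non F p v u := by
  obtain ⟨m, b, t⟩ := u
  obtain ⟨m', b', t'⟩ := v
  by_cases h : m = m'
  · subst h; cases b <;> cases b' <;> simp [non]
  · simp [non, h, Ne.symm h, hF m m']

def InV (ms : Finset M) (a s : M → ℕ) (u : Vx M) : Prop :=
  u.1 ∈ ms ∧ u.2.2 < cond u.2.1 (a u.1) (s u.1)

def AA (a : M → ℕ) (S : Finset (Vx M)) (m : M) : Finset ℕ :=
  (range (a m)).filter fun c => (m, true, c) ∈ S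
def YY (s : M → ℕ) (S : Finset (Vx M)) (m : M) : Finset ℕ :=
  (range (s m)).filter fun c => (m, false, c) ∈ S

theorem sum_dec {ms : Finset M} {a s : M → ℕ} {S : Finset (Vx M)} (hS : ∀ u ∈ S, InV ms a s u)
    (f : Vx M → ℤ) : ∑ u ∈ S, f u =
      ∑ m ∈ ms, (∑ c ∈ AA a S m, f (m, true, c) + ∑ t ∈ YY s S m, f (m, false, t)) := by
  rw [← sum_fiberwise_of_maps_to (g := fun u : Vx M => u.1) (fun u hu => (hS u hu).1)]
  refine sum_congr rfl fun m _ => ?_
  rw [← sum_filter_add_sum_filter_not _ (fun u : Vx M => u.2.1 = true)]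
  congr 1
  · refine sum_bij (fun u _ => u.2.2) ?_ ?_ ?_ ?_
    · rintro ⟨m', b, t⟩ hu
      simp only [mem_filter] at hu
      obtain ⟨⟨h1, rfl⟩, rfl⟩ := hu
      simpa [AA, h1] using (hS _ h1).2
    · rintro ⟨m', b, t⟩ hu ⟨m'', b', t'⟩ hv h
      simp only [mem_filter] at hu hv
      simp_all
    · intro c hc
      simp only [AA, mem_filter] at hc
      exact ⟨(m, true, c), by simp [hc.2], rfl⟩
    · rintro ⟨m', b, t⟩ hu
      simp only [mem_filter] at hu
      obtain ⟨⟨h1, rfl⟩, rfl⟩ := hu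
      rfl
  · refine sum_bij (fun u _ => u.2.2) ?_ ?_ ?_ ?_
    · rintro ⟨m', b, t⟩ hu
      simp only [mem_filter, Bool.not_eq_true] at hu
      obtain ⟨⟨h1, rfl⟩, rfl⟩ := hu
      simpa [YY, h1] using (hS _ h1).2
    · rintro ⟨m', b, t⟩ hu ⟨m'', b', t'⟩ hv h
      simp only [mem_filter] at hu hv
      simp_all
    · intro c hc
      simp only [YY, mem_filter] at hc
      exact ⟨(m, false, c), by simp [hc.2], rfl⟩
    · rintro ⟨m', b, t⟩ hu
      simp only [mem_filter, Bool.not_eq_true] at hu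
      obtain ⟨⟨h1, rfl⟩, rfl⟩ := hu
      rfl

/-- ordered non-adjacent pairs -/
def NN (F : M → M → Bool) (p : M → ℕ → ℕ) (S : Finset (Vx M)) : ℤ :=
  ∑ u ∈ S, ∑ v ∈ S, if u ≠ v ∧ non F p u v = true then 1 else 0

def cross (p : ℕ → ℕ) (A Y : Finset ℕ) : ℤ := ∑ t ∈ Y, ((A.filter (· < p t)).card : ℤ)

def fi (b : Bool) : ℤ := if b then 1 else 0

theorem NN_eq {ms : Finset M} {a s : M → ℕ} {F : M → M → Bool} (hF : ∀ a, F a a = false)
    (p : M → ℕ → ℕ) {S : Finset (Vx M)} (hS : ∀ u ∈ S, InV ms a s u) :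
    NN F p S = ∑ m ∈ ms, (((YY s S m).card : ℤ) ^ 2 - (YY s S m).card +
        2 * cross (p m) (AA a S m) (YY s S m)) +
      ∑ m ∈ ms, ∑ m' ∈ ms, fi (F m m') * (((AA a S m).card + (YY s S m).card : ℤ) *
        ((AA a S m').card + (YY s S m').card)) := by
  unfold NN
  rw [sum_dec hS, ← sum_add_distrib]
  refine sum_congr rfl fun m hm => ?_
  simp only [sum_dec hS]
  rw [sum_comm, sum_comm (s := YY s S m), ← sum_add_distrib,
    ← add_sum_erase _ _ hm, ← add_sum_erase _ _ hm, hF, fi]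
  simp only [Bool.false_eq_true, if_false, zero_mul, zero_add]
  congr 1
  · have e1 : ∀ c ∈ AA a S m, ∑ c' ∈ AA a S m, (if ((m, true, c) : Vx M) ≠ (m, true, c') ∧
        non F p (m, true, c) (m, true, c') = true then (1 : ℤ) else 0) = 0 := by
      intro c _; simp [non]
    have e2 : ∀ t ∈ YY s S m, ∑ t' ∈ YY s S m, (if ((m, false, t) : Vx M) ≠ (m, false, t') ∧
        non F p (m, false, t) (m, false, t') = true then (1 : ℤ) else 0) =
        (YY s S m).card - 1 := by
      intro t ht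
      rw [← add_sum_erase _ _ ht, sum_congr rfl (g := fun _ => 1) fun t' ht' => by
        simp [non, (ne_of_mem_erase ht').symm]]
      have := card_pos.2 ⟨t, ht⟩
      simp [card_erase_of_mem ht, Nat.cast_sub this]
    have e3 : ∀ t ∈ YY s S m, ∑ c ∈ AA a S m, (if ((m, false, t) : Vx M) ≠ (m, true, c) ∧
        non F p (m, false, t) (m, true, c) = true then (1 : ℤ) else 0) =
        ((AA a S m).filter (· < p m t)).card := by
      intro t _; simp [non]
    have e4 : ∀ t ∈ YY s S m, ∑ c ∈ AA a S m, (if ((m, true, c) : Vx M) ≠ (m, false, t) ∧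
        non F p (m, true, c) (m, false, t) = true then (1 : ℤ) else 0) =
        ((AA a S m).filter (· < p m t)).card := by
      intro t _; simp [non]
    rw [sum_add_distrib, sum_add_distrib, sum_congr rfl e1, sum_congr rfl e2, sum_congr rfl e3,
      sum_comm, sum_congr rfl e4]
    simp only [sum_const_zero, sum_const, cross, nsmul_eq_mul]
    ring
  · refine sum_congr rfl fun m' hm' => ?_
    have hne : m ≠ m' := (ne_of_mem_erase hm').symm
    have e : ∀ b t b' t', (if ((m, b, t) : Vx M) ≠ (m', b', t') ∧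
        non F p (m, b, t) (m', b', t') = true then (1 : ℤ) else 0) = fi (F m m') := by
      intro b t b' t'; simp [non, hne, fi]
    simp only [e, sum_const, nsmul_eq_mul]
    ring

theorem card_dec {ms : Finset M} {a s : M → ℕ} {S : Finset (Vx M)} (hS : ∀ u ∈ S, InV ms a s u) :
    (S.card : ℤ) = ∑ m ∈ ms, (((AA a S m).card : ℤ) + (YY s S m).card) := by
  simpa using sum_dec hS fun _ => 1

theorem sum_mono_ge {p : ℕ → ℕ} (hp : Monotone p) (Y : Finset ℕ) :
    ∑ t ∈ range Y.card, p t ≤ ∑ t ∈ Y, p t := by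
  induction Y using Finset.induction_on_max with
  | empty => simp
  | insert x Y hx ih =>
    have hn : x ∉ Y := fun h => lt_irrefl _ (hx x h)
    have : Y.card ≤ x := by
      simpa using card_le_card (s := Y) (t := range x) fun y hy => mem_range.2 (hx y hy)
    rw [card_insert_of_notMem hn, sum_range_succ, sum_insert hn]
    have := hp this
    omega

theorem cross_ge {p : ℕ → ℕ} (hp : Monotone p) {a : ℕ} {A Y : Finset ℕ} (hA : A ⊆ range a)
    (hY : ∀ t ∈ Y, p t ≤ a) :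
    ((∑ t ∈ range Y.card, p t : ℕ) : ℤ) - (a - A.card) * Y.card ≤ cross p A Y := by
  have h1 : ∀ t ∈ Y, (p t : ℤ) - (a - A.card) ≤ (A.filter (· < p t)).card := by
    intro t ht
    have h2 := card_filter_add_card_filter_not (s := A) (· < p t)
    have h3 : (A.filter fun c => ¬ c < p t).card ≤ a - p t := by
      simpa using card_le_card (s := A.filter fun c => ¬ c < p t) (t := Ico (p t) a) fun c hc => by
        have := mem_range.1 (hA (mem_filter.1 hc).1)
        have := (mem_filter.1 hc).2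
        simp only [mem_Ico]; omega
    have := hY t ht
    omega
  have h2 := sum_le_sum h1
  have h3 : ((∑ t ∈ range Y.card, p t : ℕ) : ℤ) ≤ (∑ t ∈ Y, p t : ℕ) := by
    exact_mod_cast sum_mono_ge hp Y
  simp only [sum_sub_distrib, sum_const, nsmul_eq_mul] at h2
  push_cast at h3 ⊢
  unfold cross
  linarith

theorem cross_full {p : ℕ → ℕ} {a y : ℕ} (hY : ∀ t < y, p t ≤ a) :
    cross p (range a) (range y) = ((∑ t ∈ range y, p t : ℕ) : ℤ) := by
  unfold cross
  push_cast
  refine sum_congr rfl fun t ht => ?_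
  have : (range a).filter (· < p t) = range (p t) := by
    have := hY t (mem_range.1 ht)
    ext c; simp; omega
  simp [this]

/-- the value with all cores selected -/
def Phi (ms : Finset M) (a : M → ℕ) (F : M → M → Bool) (p : M → ℕ → ℕ) (y : M → ℕ) : ℤ :=
  ∑ m ∈ ms, ((y m : ℤ) ^ 2 - y m + 2 * (∑ t ∈ range (y m), p m t : ℕ)) +
    ∑ m ∈ ms, ∑ m' ∈ ms, fi (F m m') * (((a m : ℤ) + y m) * (a m' + y m'))

def DD (ms : Finset M) (a : M → ℕ) (F : M → M → Bool) (m : M) : ℤ :=
  ∑ m' ∈ ms, fi (F m m') * a m'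

theorem fi_nonneg (b) : 0 ≤ fi b := by cases b <;> simp [fi]
theorem fi_le (b) : fi b ≤ 1 := by cases b <;> simp [fi]

theorem NN_ge {ms : Finset M} {a s : M → ℕ} {F : M → M → Bool} (hF : ∀ a, F a a = false)
    (hF' : ∀ a b, F a b = F b a) {p : M → ℕ → ℕ} (hp : ∀ m, Monotone (p m))
    (hpa : ∀ m ∈ ms, ∀ t < s m, p m t ≤ a m) {S : Finset (Vx M)} (hS : ∀ u ∈ S, InV ms a s u)
    {W : ℤ} (hW : ∑ m ∈ ms, (s m : ℤ) ≤ W) :
    Phi ms a F p (fun m => (YY s S m).card) -
      ∑ m ∈ ms, ((a m : ℤ) - (AA a S m).card) * (2 * DD ms a F m + 4 * W) ≤ NN F p S := by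
  rw [NN_eq hF p hS]
  set y : M → ℤ := fun m => (YY s S m).card with hy
  set c : M → ℤ := fun m => (a m : ℤ) - (AA a S m).card with hc
  have hc0 : ∀ m, 0 ≤ c m := fun m => by
    have : (AA a S m).card ≤ a m := (card_filter_le _ _).trans (by simp)
    simp only [hc]; omega
  have hy0 : ∀ m, 0 ≤ y m := fun m => by simp [hy]
  have hys : ∀ m, y m ≤ s m := fun m => by
    have : (YY s S m).card ≤ s m := (card_filter_le _ _).trans (by simp)
    simp only [hy]; omega
  have hsum : ∑ m ∈ ms, y m ≤ W := (sum_le_sum fun m _ => hys m).trans hW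
  have hyW : ∀ m ∈ ms, y m ≤ W := fun m hm =>
    (single_le_sum (f := y) (fun m _ => hy0 m) hm).trans hsum
  have h1 : ∀ m ∈ ms, y m ^ 2 - y m + 2 * (∑ t ∈ range (YY s S m).card, p m t : ℕ) - c m * (2 * W) ≤
      y m ^ 2 - y m + 2 * cross (p m) (AA a S m) (YY s S m) := by
    intro m hm
    have := cross_ge (hp m) (a := a m) (A := AA a S m) (Y := YY s S m) (filter_subset _ _)
      fun t ht => hpa m hm t (mem_range.1 (mem_filter.1 ht).1)
    have := mul_le_mul_of_nonneg_left (hyW m hm) (hc0 m)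
    simp only [hy, hc] at *
    linarith
  have h2 : ∀ m ∈ ms, ∀ m' ∈ ms, fi (F m m') * (((a m : ℤ) + y m) * (a m' + y m')) -
      c m * (fi (F m m') * (a m' + y m')) - c m' * (fi (F m' m) * (a m + y m)) ≤
      fi (F m m') * (((AA a S m).card + y m) * ((AA a S m').card + y m')) := by
    intro m _ m' _
    have e1 : ((AA a S m).card : ℤ) = a m - c m := by simp [hc]
    have e2 : ((AA a S m').card : ℤ) = a m' - c m' := by simp [hc]
    rw [e1, e2, hF' m' m]
    have := mul_nonneg (fi_nonneg (F m m')) (mul_nonneg (hc0 m) (hc0 m'))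
    nlinarith
  have h3 : ∀ m ∈ ms, c m * ∑ m' ∈ ms, fi (F m m') * (a m' + y m') ≤ c m * (DD ms a F m + W) := by
    intro m _
    refine mul_le_mul_of_nonneg_left ?_ (hc0 m)
    have : ∑ m' ∈ ms, fi (F m m') * y m' ≤ ∑ m' ∈ ms, y m' := sum_le_sum fun m' _ => by
      have := fi_le (F m m'); have := hy0 m'; nlinarith
    simp only [mul_add, sum_add_distrib, DD]
    linarith
  have k1 := sum_le_sum h1
  have k2 := sum_le_sum fun m hm => sum_le_sum (h2 m hm)
  have k3 := sum_le_sum h3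
  simp only [sum_sub_distrib] at k1 k2
  rw [sum_comm (f := fun m m' => c m' * (fi (F m' m) * (a m + y m)))] at k2
  simp only [← mul_sum] at k2
  have e : ∑ m ∈ ms, c m * (2 * DD ms a F m + 4 * W) =
      2 * ∑ m ∈ ms, c m * (DD ms a F m + W) + ∑ m ∈ ms, c m * (2 * W) := by
    rw [mul_sum, ← sum_add_distrib]; exact sum_congr rfl fun m _ => by ring
  simp only [Phi, sum_sub_distrib, hy, hc] at *
  linarith

theorem NN_full {ms : Finset M} {a s : M → ℕ} {F : M → M → Bool} (hF : ∀ a, F a a = false)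
    {p : M → ℕ → ℕ} (hpa : ∀ m ∈ ms, ∀ t < s m, p m t ≤ a m) {S : Finset (Vx M)}
    (hS : ∀ u ∈ S, InV ms a s u) {y : M → ℕ} (hy : ∀ m ∈ ms, y m ≤ s m)
    (hA : ∀ m ∈ ms, AA a S m = range (a m)) (hY : ∀ m ∈ ms, YY s S m = range (y m)) :
    NN F p S = Phi ms a F p y := by
  rw [NN_eq hF p hS, Phi]
  congr 1
  · refine sum_congr rfl fun m hm => ?_
    rw [hA m hm, hY m hm, cross_full fun t ht => hpa m hm t (ht.trans_le (hy m hm)), card_range]
  · refine sum_congr rfl fun m hm => sum_congr rfl fun m' hm' => ?_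
    rw [hA m hm, hY m hm, hA m' hm', hY m' hm']; simp

theorem Phi_eq (ms : Finset M) (a : M → ℕ) {F : M → M → Bool} (hF' : ∀ a b, F a b = F b a)
    (p : M → ℕ → ℕ) (y : M → ℕ) : Phi ms a F p y = ∑ m ∈ ms, (a m : ℤ) * DD ms a F m +
      ∑ m ∈ ms, ((y m : ℤ) ^ 2 - y m + 2 * (∑ t ∈ range (y m), p m t : ℕ) +
        2 * DD ms a F m * y m) + ∑ m ∈ ms, ∑ m' ∈ ms, fi (F m m') * ((y m : ℤ) * y m') := by
  have e : ∑ m ∈ ms, ∑ m' ∈ ms, fi (F m m') * ((a m : ℤ) * y m') =
      ∑ m ∈ ms, DD ms a F m * y m := by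
    rw [sum_comm]
    refine sum_congr rfl fun m _ => ?_
    rw [DD, sum_mul]
    exact sum_congr rfl fun m' _ => by rw [hF' m' m]; ring
  have e2 : ∑ m ∈ ms, ∑ m' ∈ ms, fi (F m m') * (((a m : ℤ) + y m) * (a m' + y m')) =
      ∑ m ∈ ms, (a m : ℤ) * DD ms a F m + ∑ m ∈ ms, DD ms a F m * y m +
      ∑ m ∈ ms, ∑ m' ∈ ms, fi (F m m') * ((a m : ℤ) * y m') +
      ∑ m ∈ ms, ∑ m' ∈ ms, fi (F m m') * ((y m : ℤ) * y m') := by
    simp only [← sum_add_distrib, DD, mul_sum, sum_mul]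
    exact sum_congr rfl fun m _ => sum_congr rfl fun m' _ => by ring
  rw [Phi, e2, e]
  simp only [sum_add_distrib, mul_assoc, ← mul_sum]
  ring

end Pool.Agent.H36.Dks
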