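import Pool.Agent.H36.Dks1

/-!
The concrete module system for Clique.
-/

namespace Pool.Agent.H36.Dks

open Finset Pool.Agent.H38.NP Pool.Agent.H36.Par

abbrev Bs := ℕ × ℕ × ℕ
abbrev Md := ℕ × Bs

def bases (K : ℕ) : List Bs := (List.range K).map (fun i => (0, i, 0)) ++
  (List.range K).map (fun j => (1, 0, j)) ++
  ((List.range K).product (List.range K)).map fun p => (2, p.1, p.2)

def mods (K : ℕ) : List Md := (List.range 4).product (bases K)

theorem bases_nd (K) : (bases K).Nodup := by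
  refine List.nodup_append.2 ⟨List.nodup_append.2 ⟨?_, ?_, ?_⟩, ?_, ?_⟩
  · exact List.nodup_range.map fun a b h => by simpa using h
  · exact List.nodup_range.map fun a b h => by simpa using h
  · simp
  · exact (List.nodup_range.product List.nodup_range).map fun a b h => by
      simpa using h
  · simp only [List.mem_append, List.mem_map]
    rintro _ (⟨i, -, rfl⟩ | ⟨i, -, rfl⟩) _ ⟨j, -, rfl⟩ <;> simp

theorem mods_nd (K) : (mods K).Nodup := List.nodup_range.product (bases_nd K)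

theorem mem_bases {K} {b : Bs} : b ∈ bases K ↔ (b.1 = 0 ∧ b.2.1 < K ∧ b.2.2 = 0) ∨
    (b.1 = 1 ∧ b.2.1 = 0 ∧ b.2.2 < K) ∨ (b.1 = 2 ∧ b.2.1 < K ∧ b.2.2 < K) := by
  obtain ⟨t, i, j⟩ := b
  simp only [bases, List.mem_append, List.mem_map, List.mem_range, Prod.mk.injEq, Prod.exists,
    List.pair_mem_product, or_assoc]
  refine or_congr ?_ (or_congr ?_ ?_)
  · exact ⟨by rintro ⟨_, h, rfl, rfl, rfl⟩; exact ⟨rfl, h, rfl⟩,
      by rintro ⟨rfl, h, rfl⟩; exact ⟨_, h, rfl, rfl, rfl⟩⟩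
  · exact ⟨by rintro ⟨_, h, rfl, rfl, rfl⟩; exact ⟨rfl, rfl, h⟩,
      by rintro ⟨rfl, rfl, h⟩; exact ⟨_, h, rfl, rfl, rfl⟩⟩
  · exact ⟨by rintro ⟨_, _, h, rfl, rfl, rfl⟩; exact ⟨rfl, h⟩,
      by rintro ⟨rfl, h⟩; exact ⟨_, _, h, rfl, rfl, rfl⟩⟩

theorem mem_mods {K} {m : Md} : m ∈ mods K ↔ m.1 < 4 ∧ m.2 ∈ bases K := by
  obtain ⟨r, b⟩ := m
  simp [mods]

theorem sum_range_list (K) (f : ℕ → ℤ) : ((List.range K).map f).sum = ∑ i ∈ range K, f i := rfl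

theorem sum_prod_list {A B : Type} (l : List A) (l' : List B) (f : A × B → ℤ) :
    ((l.product l').map f).sum = (l.map fun a => (l'.map fun b => f (a, b)).sum).sum := by
  induction l with
  | nil => simp [List.product]
  | cons a l ih =>
    simp only [List.product] at ih ⊢
    simp [ih, Function.comp_def]

theorem sum_bs (K) (g : Bs → ℤ) : ∑ b ∈ (bases K).toFinset, g b =
    ∑ i ∈ range K, g (0, i, 0) + ∑ j ∈ range K, g (1, 0, j) +
      ∑ i ∈ range K, ∑ j ∈ range K, g (2, i, j) := by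
  rw [List.sum_toFinset _ (bases_nd K)]
  simp only [bases, List.map_append, List.sum_append, List.map_map, Function.comp_def,
    sum_prod_list, sum_range_list]

theorem sum_ms (K) (f : Md → ℤ) : ∑ m ∈ (mods K).toFinset, f m =
    ∑ b ∈ (bases K).toFinset, (f (0, b) + f (1, b) + f (2, b) + f (3, b)) := by
  rw [List.sum_toFinset _ (mods_nd K), mods, sum_prod_list]
  simp only [sum_add_distrib, List.sum_toFinset _ (bases_nd K)]
  simp [List.range_succ, add_assoc]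

def FB (b c : Bs) : Bool :=
  decide ((b.1 = 0 ∧ c.1 = 1) ∨ (b.1 = 1 ∧ c.1 = 0) ∨ (b.1 = 0 ∧ c.1 = 2 ∧ b.2.1 = c.2.1) ∨
    (b.1 = 2 ∧ c.1 = 0 ∧ b.2.1 = c.2.1) ∨ (b.1 = 1 ∧ c.1 = 2 ∧ b.2.2 = c.2.2) ∨
    (b.1 = 2 ∧ c.1 = 1 ∧ b.2.2 = c.2.2))

def FF (m m' : Md) : Bool :=
  (decide (m.1 = 0 ∧ m'.1 = 0) && FB m.2 m'.2) || (decide (m.2 = m'.2) &&
    decide ((m.1 = 0 ∧ m'.1 = 1) ∨ (m.1 = 1 ∧ m'.1 = 0) ∨ (m.1 = 0 ∧ m'.1 = 2) ∨
      (m.1 = 2 ∧ m'.1 = 0) ∨ (m.1 = 1 ∧ m'.1 = 3) ∨ (m.1 = 3 ∧ m'.1 = 1)))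

theorem FF_irr (m) : FF m m = false := by
  simp only [FF, FB, Bool.or_eq_false_iff, Bool.and_eq_false_iff, decide_eq_false_iff_not]
  omega

theorem FF_symm (m m') : FF m m' = FF m' m := by
  rw [Bool.eq_iff_iff]
  simp only [FF, FB, Bool.or_eq_true, Bool.and_eq_true, decide_eq_true_eq, eq_comm (a := m.2)]
  refine or_congr (and_congr (by omega) (by omega)) (and_congr Iff.rfl (by omega))

def cB (n : ℕ) : ℕ := 2 * n + 2
def cC (n : ℕ) : ℕ := cB n * (n + 1)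
def nb (K : ℕ) : ℕ := 2 * K + K * K
def al (n K : ℕ) : ℕ := 4 * (nb K * cC n) + 1
def cA (n K : ℕ) : ℕ := al n K + (K + 1) * (cC n + 1) + 1
def cM (n K : ℕ) : ℕ := (K + 2) * cC n + al n K + (2 * K + 2) * cA n K + 1
def dm (K : ℕ) (b : Bs) : ℕ := if b.1 = 2 then 1 else K
def dg (K : ℕ) (b : Bs) : ℕ := if b.1 = 2 then 2 else 2 * K

def aa (n K : ℕ) (m : Md) : ℕ :=
  if m.1 = 0 then cA n K else if m.1 = 1 then 0 else
  if m.1 = 2 then cM n K - ((dm K m.2 + 1) * cC n + al n K + dg K m.2 * cA n K)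
  else cM n K - (cC n + cA n K)

def ss (n : ℕ) (m : Md) : ℕ := if m.1 ≤ 1 then cC n else 0

def Dn (n K : ℕ) (m : Md) : ℕ :=
  if m.1 = 0 then cM n K - ((dm K m.2 + 1) * cC n + al n K) else if m.1 = 1 then cM n K - cC n else
  if m.1 = 2 then cA n K else 0

def rel (n : ℕ) (E : List (ℕ × ℕ)) (i j u v : ℕ) : Prop :=
  if i = j then u = v ∧ u < n else u ≠ v ∧ ((u, v) ∈ E ∨ (v, u) ∈ E)

instance (n E i j u v) : Decidable (rel n E i j u v) := by unfold rel; infer_instance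

def ok (n : ℕ) (E : List (ℕ × ℕ)) (b : Bs) (y : ℕ) : Prop :=
  if b.1 = 0 then y < cB n else if b.1 = 1 then y % cB n = 0 ∧ y < cC n else
    rel n E b.2.1 b.2.2 ((cC n - y) % cB n / 2) ((cC n - y) / cB n)

instance (n E b y) : Decidable (ok n E b y) := by unfold ok; infer_instance

def bp (n : ℕ) (E : List (ℕ × ℕ)) (b : Bs) (y : ℕ) : ℕ :=
  if y % 2 = 0 ∧ y ≠ 0 ∧ ¬ ok n E b y then 1 else 0

def pp (n : ℕ) (E : List (ℕ × ℕ)) (K : ℕ) (m : Md) (t : ℕ) : ℕ :=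
  if m.1 = 0 then al n K + max 1 (dm K m.2) * (2 * (t / 2) + 1) + bp n E m.2 (t + 1) - bp n E m.2 t
  else 0

variable {n K : ℕ} {E : List (ℕ × ℕ)}

theorem bp_le (b y) : bp n E b y ≤ 1 := by unfold bp; split_ifs <;> omega
theorem bp_odd (b) {y} (h : y % 2 = 1) : bp n E b y = 0 := by unfold bp; rw [if_neg (by omega)]

theorem pp_mono (m) : Monotone (pp n E K m) := by
  refine monotone_nat_of_le_succ fun t => ?_
  unfold pp
  split_ifs
  · have h1 := bp_le (n := n) (E := E) m.2 t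
    have h2 := bp_le (n := n) (E := E) m.2 (t + 1)
    have h3 : 1 ≤ max 1 (dm K m.2) := le_max_left _ _
    generalize max 1 (dm K m.2) = d at h3
    rcases Nat.mod_two_eq_zero_or_one t with h | h
    · rw [bp_odd m.2 (y := t + 1) (by omega), show (t + 1) / 2 = t / 2 by omega]
      omega
    · rw [show (t + 1) / 2 = t / 2 + 1 by omega, show 2 * (t / 2 + 1) + 1 = (2 * (t / 2) + 1) + 2 by
        ring, Nat.mul_add d _ 2]
      omega
  · rfl

theorem dm_pos {b} (h : b ∈ bases K) : 1 ≤ dm K b ∧ dm K b ≤ K ∧ dg K b ≤ 2 * K := by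
  rw [mem_bases] at h
  unfold dm dg
  split_ifs <;> omega

theorem pp_le : ∀ m ∈ (mods K).toFinset, ∀ t < ss n m, pp n E K m t ≤ aa n K m := by
  intro m hm t ht
  obtain ⟨-, hb⟩ := mem_mods.1 (List.mem_toFinset.1 hm)
  unfold pp
  split_ifs with h
  · have h1 := bp_le (n := n) (E := E) m.2 (t + 1)
    have h2 := dm_pos hb
    simp only [ss, h, zero_le, if_true] at ht
    have h3 : max 1 (dm K m.2) * (2 * (t / 2) + 1) ≤ (K + 1) * (cC n + 1) :=
      Nat.mul_le_mul (by omega) (by omega)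
    simp only [aa, h, if_true, cA]
    omega
  · omega

theorem pp_sum {b} (hb : b ∈ bases K) (y : ℕ) :
    2 * ((∑ t ∈ range y, pp n E K (0, b) t : ℕ) : ℤ) =
      2 * al n K * y + dm K b * (y ^ 2 + (y % 2 : ℕ)) + 2 * bp n E b y := by
  induction y with
  | zero => simp [bp]
  | succ y ih =>
    have h1 := bp_le (n := n) (E := E) b y
    have h2 := (dm_pos hb).1
    have h3 : 1 ≤ al n K := by unfold al; omega
    have e : (pp n E K (0, b) y : ℤ) = al n K + dm K b * (2 * (y / 2 : ℕ) + 1) +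
        bp n E b (y + 1) - bp n E b y := by
      simp only [pp, if_true, max_eq_right h2]
      rw [Nat.cast_sub (by omega)]
      push_cast; ring
    have e2 : ((y : ℤ) + 1) ^ 2 + ((y + 1) % 2 : ℕ) = y ^ 2 + (y % 2 : ℕ) +
        2 * (2 * (y / 2 : ℕ) + 1) := by
      have : (((y + 1) % 2 : ℕ) : ℤ) = (y % 2 : ℕ) + 4 * (y / 2 : ℕ) + 1 - 2 * y := by omega
      rw [this]; ring
    rw [sum_range_succ, Nat.cast_add, mul_add, ih, e, Nat.cast_add y 1, Nat.cast_one, e2]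
    ring

theorem fi_dec (P : Prop) [Decidable P] : fi (decide P) = if P then 1 else 0 := by simp [fi]

theorem deg_FB {b} (hb : b ∈ bases K) : ∑ c ∈ (bases K).toFinset, fi (FB b c) = dg K b := by
  rw [sum_bs]
  obtain ⟨t, i, j⟩ := b
  rcases mem_bases.1 hb with ⟨h, h1, h2⟩ | ⟨h, h1, h2⟩ | ⟨h, h1, h2⟩ <;>
    simp only at h h1 h2 <;> subst h <;> simp [FB, fi, dg, h1, h2] <;> ring

theorem DD_eq {m} (hm : m ∈ (mods K).toFinset) :
    DD (mods K).toFinset (aa n K) FF m = Dn n K m := by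
  obtain ⟨r, b⟩ := m
  obtain ⟨hr, hb⟩ := mem_mods.1 (List.mem_toFinset.1 hm)
  simp only at hr hb
  have h0 := dm_pos hb
  have hb' : b ∈ (bases K).toFinset := List.mem_toFinset.2 hb
  have h1 : (dm K b + 1) * cC n ≤ (K + 2) * cC n := Nat.mul_le_mul_right _ (by omega)
  have h2 : dg K b * cA n K ≤ (2 * K + 2) * cA n K := Nat.mul_le_mul_right _ (by omega)
  have h3 : cC n ≤ (K + 2) * cC n := Nat.le_mul_of_pos_left _ (by omega)
  have h4 : cA n K ≤ (2 * K + 2) * cA n K := Nat.le_mul_of_pos_left _ (by omega)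
  rw [DD, sum_ms]
  simp only [sum_add_distrib]
  interval_cases r
  · have e : ∑ c ∈ (bases K).toFinset, fi (FF (0, b) (0, c)) * (aa n K (0, c) : ℤ) =
        dg K b * cA n K := by
      rw [← deg_FB hb, sum_mul]; simp [FF, aa]
    rw [e]
    simp only [FF, aa, Dn]
    simp [fi, hb, cM]
    omega
  · simp only [FF, aa, Dn]
    simp [fi, hb, cM]
    omega
  · simp only [FF, aa, Dn]
    simp [fi, hb]
  · simp only [FF, aa, Dn]
    simp [fi]

def ex (n : ℕ) (E : List (ℕ × ℕ)) (K : ℕ) (b : Bs) (y : ℕ) : ℤ :=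
  dm K b * (y % 2 : ℕ) + 2 * bp n E b y

def Sq (n K : ℕ) (y : Md → ℕ) : ℤ :=
  ∑ i ∈ range K, ∑ j ∈ range K, ((y (0, 0, i, 0) : ℤ) + y (0, 1, 0, j) + y (0, 2, i, j) - cC n) ^ 2 +
    ∑ b ∈ (bases K).toFinset, ((y (0, b) : ℤ) + y (1, b) - cC n) ^ 2

theorem Q_FB (x : Bs → ℤ) : ∑ b ∈ (bases K).toFinset, ∑ c ∈ (bases K).toFinset,
    fi (FB b c) * (x b * x c) = 2 * ∑ i ∈ range K, ∑ j ∈ range K,
      (x (0, i, 0) * x (1, 0, j) + x (0, i, 0) * x (2, i, j) + x (1, 0, j) * x (2, i, j)) := by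
  simp only [sum_bs, sum_add_distrib]
  have e1 : ∑ i ∈ range K, ∑ i' ∈ range K, ∑ j ∈ range K,
      fi (FB (0, i, 0) (2, i', j)) * (x (0, i, 0) * x (2, i', j)) =
      ∑ i ∈ range K, ∑ j ∈ range K, x (0, i, 0) * x (2, i, j) := by
    refine sum_congr rfl fun i hi => ?_
    simp [FB, fi_dec, mem_range.1 hi]
  have e2 : ∑ j ∈ range K, ∑ i ∈ range K, ∑ j' ∈ range K,
      fi (FB (1, 0, j) (2, i, j')) * (x (1, 0, j) * x (2, i, j')) =
      ∑ i ∈ range K, ∑ j ∈ range K, x (1, 0, j) * x (2, i, j) := by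
    rw [sum_comm]
    refine sum_congr rfl fun i _ => sum_congr rfl fun j hj => ?_
    simp [FB, fi_dec, mem_range.1 hj]
  have e3 : ∑ i ∈ range K, ∑ j ∈ range K, ∑ i' ∈ range K,
      fi (FB (2, i, j) (0, i', 0)) * (x (2, i, j) * x (0, i', 0)) =
      ∑ i ∈ range K, ∑ j ∈ range K, x (0, i, 0) * x (2, i, j) := by
    refine sum_congr rfl fun i hi => sum_congr rfl fun j _ => ?_
    simp [FB, fi_dec, mem_range.1 hi, mul_comm]
  have e4 : ∑ i ∈ range K, ∑ j ∈ range K, ∑ j' ∈ range K,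
      fi (FB (2, i, j) (1, 0, j')) * (x (2, i, j) * x (1, 0, j')) =
      ∑ i ∈ range K, ∑ j ∈ range K, x (1, 0, j) * x (2, i, j) := by
    refine sum_congr rfl fun i _ => sum_congr rfl fun j hj => ?_
    simp [FB, fi_dec, mem_range.1 hj, mul_comm]
  have e5 : ∑ j ∈ range K, ∑ i ∈ range K,
      fi (FB (1, 0, j) (0, i, 0)) * (x (1, 0, j) * x (0, i, 0)) =
      ∑ i ∈ range K, ∑ j ∈ range K, x (0, i, 0) * x (1, 0, j) := by
    rw [sum_comm]
    simp [FB, fi, mul_comm]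
  rw [e1, e2, e3, e4, e5]
  simp [FB, fi]
  ring

theorem Phi_val (y : Md → ℕ) (hy : ∀ b, y (2, b) = 0 ∧ y (3, b) = 0) :
    Phi (mods K).toFinset (aa n K) FF (pp n E K) y =
      ∑ m ∈ (mods K).toFinset, (aa n K m : ℤ) * Dn n K m +
      (2 * cM n K - 1) * ∑ m ∈ (mods K).toFinset, (y m : ℤ) +
      ∑ b ∈ (bases K).toFinset, ex n E K b (y (0, b)) + Sq n K y -
      (K * K + nb K) * (cC n : ℤ) ^ 2 := by
  rw [Phi_eq _ _ FF_symm, sum_congr rfl fun m hm => by rw [DD_eq hm],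
    sum_congr rfl (f := fun m => (y m : ℤ) ^ 2 - y m + 2 * (∑ t ∈ range (y m), pp n E K m t : ℕ) +
      2 * DD (mods K).toFinset (aa n K) FF m * y m) fun m hm => by rw [DD_eq hm]]
  have e1 : ∑ m ∈ (mods K).toFinset, ((y m : ℤ) ^ 2 - y m +
      2 * (∑ t ∈ range (y m), pp n E K m t : ℕ) + 2 * (Dn n K m : ℤ) * y m) =
      ∑ b ∈ (bases K).toFinset, ((2 * cM n K - 1) * ((y (0, b) : ℤ) + y (1, b)) +
        ex n E K b (y (0, b)) + dm K b * ((y (0, b) : ℤ) ^ 2 - 2 * cC n * y (0, b)) +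
        ((y (0, b) : ℤ) ^ 2 - 2 * cC n * y (0, b) + (y (1, b) : ℤ) ^ 2 - 2 * cC n * y (1, b))) := by
    rw [sum_ms]
    refine sum_congr rfl fun b hb => ?_
    have hb := List.mem_toFinset.1 hb
    have h0 := dm_pos hb
    have h1 : (dm K b + 1) * cC n ≤ (K + 2) * cC n := Nat.mul_le_mul_right _ (by omega)
    have h3 : cC n ≤ (K + 2) * cC n := Nat.le_mul_of_pos_left _ (by omega)
    have d0 : (Dn n K (0, b) : ℤ) = cM n K - ((dm K b + 1) * cC n + al n K) := by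
      simp only [Dn, if_true]; rw [Nat.cast_sub (by unfold cM; omega)]; push_cast; ring
    have d1 : (Dn n K (1, b) : ℤ) = cM n K - cC n := by
      simp only [Dn, if_true, one_ne_zero, if_false]; rw [Nat.cast_sub (by unfold cM; omega)]
    rw [pp_sum hb, (hy b).1, (hy b).2, d0, d1]
    simp [pp, ex]
    ring
  have e2 : ∑ m ∈ (mods K).toFinset, ∑ m' ∈ (mods K).toFinset, fi (FF m m') * ((y m : ℤ) * y m') =
      ∑ b ∈ (bases K).toFinset, ∑ c ∈ (bases K).toFinset, fi (FB b c) * ((y (0, b) : ℤ) * y (0, c)) +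
      ∑ b ∈ (bases K).toFinset, 2 * ((y (0, b) : ℤ) * y (1, b)) := by
    rw [sum_ms, ← sum_add_distrib]
    refine sum_congr rfl fun b hb => ?_
    simp only [sum_ms, (hy _).1, (hy _).2, sum_add_distrib]
    simp [FF, fi_dec, fi, hb]
    ring
  have e3 : ∑ m ∈ (mods K).toFinset, (y m : ℤ) =
      ∑ b ∈ (bases K).toFinset, ((y (0, b) : ℤ) + y (1, b)) := by
    rw [sum_ms]; simp [(hy _).1, (hy _).2]
  have e4 : ∑ b ∈ (bases K).toFinset, ((y (0, b) : ℤ) + y (1, b) - cC n) ^ 2 =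
      ∑ b ∈ (bases K).toFinset, ((y (0, b) : ℤ) ^ 2 - 2 * cC n * y (0, b) + (y (1, b) : ℤ) ^ 2 -
        2 * cC n * y (1, b)) + ∑ b ∈ (bases K).toFinset, 2 * ((y (0, b) : ℤ) * y (1, b)) +
        nb K * (cC n : ℤ) ^ 2 := by
    have : (nb K : ℤ) * (cC n : ℤ) ^ 2 = ∑ b ∈ (bases K).toFinset, (cC n : ℤ) ^ 2 := by
      rw [sum_bs]; simp [nb]; ring
    rw [this, ← sum_add_distrib, ← sum_add_distrib]
    exact sum_congr rfl fun b _ => by ring
  have e5 : ∑ i ∈ range K, ∑ j ∈ range K,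
      ((y (0, 0, i, 0) : ℤ) + y (0, 1, 0, j) + y (0, 2, i, j) - cC n) ^ 2 =
      ∑ b ∈ (bases K).toFinset, (dm K b : ℤ) * ((y (0, b) : ℤ) ^ 2 - 2 * cC n * y (0, b)) +
      2 * ∑ i ∈ range K, ∑ j ∈ range K, ((y (0, 0, i, 0) : ℤ) * y (0, 1, 0, j) +
        y (0, 0, i, 0) * y (0, 2, i, j) + y (0, 1, 0, j) * y (0, 2, i, j)) +
      K * K * (cC n : ℤ) ^ 2 := by
    have h1 : ∀ f : ℕ → ℤ, ∑ i ∈ range K, (K : ℤ) * f i = ∑ i ∈ range K, ∑ _j ∈ range K, f i :=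
      fun f => by simp
    have h2 : ∀ f : ℕ → ℤ, ∑ j ∈ range K, (K : ℤ) * f j = ∑ _i ∈ range K, ∑ j ∈ range K, f j :=
      fun f => by simp [mul_sum]
    have h3 : (K : ℤ) * K * (cC n : ℤ) ^ 2 = ∑ _i ∈ range K, ∑ _j ∈ range K, (cC n : ℤ) ^ 2 := by
      simp [mul_assoc]
    rw [sum_bs]
    simp only [dm, if_true, OfNat.zero_ne_ofNat, OfNat.one_ne_ofNat, if_false]
    rw [h1 fun i => ((y (0, 0, i, 0) : ℤ) ^ 2 - 2 * cC n * y (0, 0, i, 0)),
      h2 fun j => ((y (0, 1, 0, j) : ℤ) ^ 2 - 2 * cC n * y (0, 1, 0, j)), h3]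
    simp only [mul_sum, ← sum_add_distrib]
    exact sum_congr rfl fun i _ => sum_congr rfl fun j _ => by push_cast; ring
  rw [e1, e2, Q_FB (fun b => y (0, b)), e3, Sq, e4, e5]
  rw [sum_add_distrib, sum_add_distrib, sum_add_distrib, ← mul_sum]
  ring

end Pool.Agent.H36.Dks
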