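import Pool.Agent.H36.Dks2

/-!
Clique reduces to Densest k-Subgraph with modular-width bounded in terms of `k`.
-/

namespace Pool.Agent.H36.Dks

open Finset Pool.Agent.H38.NP Pool.Agent.H36.Par Pool.Agent.H36.Gr

theorem Built.nonempty {V : Type} {G : SimpleGraph V} {m S} (h : Built G m S) : S.Nonempty := by
  induction h with
  | single v => simp
  | union _ _ _ _ ih _ => exact ih.mono Set.subset_union_left
  | join _ _ _ _ ih _ => exact ih.mono Set.subset_union_left
  | subst r H S h0 _ _ _ _ ih => exact (ih ⟨0, h0⟩).mono (Set.subset_iUnion _ _)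

theorem built_thr {V : Type} [DecidableEq V] {G : SimpleGraph V} (m : ℕ) (T : Finset V)
    (hT : T.Nonempty) (h : ∀ U ⊆ T, U.Nonempty →
      ∃ v ∈ U, (∀ u ∈ U, u ≠ v → G.Adj u v) ∨ ∀ u ∈ U, ¬ G.Adj u v) : Built G m T := by
  induction T using Finset.strongInduction with
  | H T ih =>
    obtain ⟨v, hv, hc⟩ := h T Subset.rfl hT
    rcases (T.erase v).eq_empty_or_nonempty with e | e
    · have : T = {v} := by rw [← insert_erase hv, e]; rfl
      rw [this, coe_singleton]; exact .single v
    · have h1 := ih _ (erase_ssubset hv) e fun U hU => h U (hU.trans (erase_subset _ _))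
      have e2 : (T : Set V) = (T.erase v : Set V) ∪ {v} := by
        ext x; by_cases hx : x = v <;> simp [hx, hv]
      rw [e2]
      rcases hc with hc | hc
      · exact .join h1 (.single v) (by simp) fun u hu w hw => by
          obtain rfl : w = v := hw
          exact hc u (mem_erase.1 hu).2 (mem_erase.1 hu).1
      · exact .union h1 (.single v) (by simp) fun u hu w hw => by
          obtain rfl : w = v := hw
          exact hc u (mem_erase.1 hu).2

theorem two_inner {N : ℕ} (G : SimpleGraph (Fin N)) [DecidableRel G.Adj] (S : Finset (Fin N)) :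
    2 * (inner G S : ℤ) = ∑ u ∈ S, ∑ v ∈ S, if G.Adj u v then 1 else 0 := by
  have e : (inner G S : ℤ) = ∑ u ∈ S, ∑ v ∈ S, if u < v ∧ G.Adj u v then 1 else 0 := by
    rw [← sum_product' (f := fun u v => if u < v ∧ G.Adj u v then (1 : ℤ) else 0), sum_boole, inner,
      ← Set.ncard_coe_finset]
    congr 2
    ext e; simp [and_assoc]
  have e' : (inner G S : ℤ) = ∑ u ∈ S, ∑ v ∈ S, if v < u ∧ G.Adj v u then 1 else 0 :=
    e.trans sum_comm
  have e2 := congrArg₂ (· + ·) e e'
  beta_reduce at e2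
  rw [two_mul, e2, ← sum_add_distrib]
  refine sum_congr rfl fun u _ => ?_
  rw [← sum_add_distrib]
  refine sum_congr rfl fun v _ => ?_
  by_cases h : G.Adj u v
  · rcases lt_or_gt_of_ne h.ne with h1 | h1 <;> simp [h, h.symm, h1, h1.not_gt]
  · simp [h, G.adj_comm v u]

theorem inner_mono {N : ℕ} (G : SimpleGraph (Fin N)) {S T : Finset (Fin N)} (h : S ⊆ T) :
    inner G S ≤ inner G T :=
  Set.ncard_le_ncard (fun _ he => ⟨h he.1, h he.2.1, he.2.2⟩) (Set.toFinite _)

def vs (n K : ℕ) : List (Vx Md) := (mods K).flatMap fun m =>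
  (List.range (aa n K m)).map (fun c => (m, true, c)) ++
    (List.range (ss n m)).map fun c => (m, false, c)

variable {n K : ℕ} {E : List (ℕ × ℕ)}

theorem mem_vs {u} : u ∈ vs n K ↔ InV (mods K).toFinset (aa n K) (ss n) u := by
  obtain ⟨m, b, t⟩ := u
  cases b <;> simp [vs, InV]

theorem vs_nd : (vs n K).Nodup := by
  refine List.nodup_flatMap.2 ⟨fun m _ => List.nodup_append.2 ⟨?_, ?_, by simp⟩,
    (mods_nd K).imp fun {a b} h => ?_⟩
  · exact List.nodup_range.map fun a b h => by simpa using h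
  · exact List.nodup_range.map fun a b h => by simpa using h
  · simp only [Function.onFun, List.disjoint_left, List.mem_append, List.mem_map]
    rintro _ (⟨_, -, rfl⟩ | ⟨_, -, rfl⟩) (⟨_, -, e⟩ | ⟨_, -, e⟩) <;> simp_all

def adj (n : ℕ) (E : List (ℕ × ℕ)) (K : ℕ) (u v : Vx Md) : Bool := !non FF (pp n E K) u v

theorem G_adj {u v} : (RG (vs n K) (adj n E K)).Adj u v ↔
    u ≠ v ∧ non FF (pp n E K) (code _ u) (code _ v) = false := by
  rw [RG_adj vs_nd, GC_adj, (code_inj vs_nd).ne_iff, adj, adj, non_symm FF_symm _ (code _ v)]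
  simp

theorem edge_count (S : Finset (Fin (vs n K).length)) :
    2 * (inner (RG (vs n K) (adj n E K)) S : ℤ) =
      (S.card : ℤ) ^ 2 - S.card - NN FF (pp n E K) (S.image (code _)) := by
  classical
  have hi : ∀ x ∈ S, ∀ y ∈ S, code (vs n K) x = code (vs n K) y → x = y :=
    fun x _ y _ h => code_inj vs_nd h
  rw [two_inner, NN, sum_image hi]
  simp only [sum_image hi]
  have : (S.card : ℤ) ^ 2 - S.card = ∑ u ∈ S, ∑ v ∈ S, if u ≠ v then 1 else 0 := by
    rw [sum_congr rfl (g := fun _ => (S.card : ℤ) - 1) fun u hu => by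
      rw [← add_sum_erase _ _ hu, sum_congr rfl (g := fun _ => 1) fun v hv => by
        simp [(ne_of_mem_erase hv).symm]]
      simp [card_erase_of_mem hu, Nat.cast_sub (card_pos.2 ⟨u, hu⟩)]]
    simp; ring
  rw [this, ← sum_sub_distrib]
  refine sum_congr rfl fun u _ => ?_
  rw [← sum_sub_distrib]
  refine sum_congr rfl fun v _ => ?_
  simp only [G_adj, (code_inj vs_nd).ne_iff]
  by_cases h : u = v <;> cases non FF (pp n E K) (code _ u) (code _ v) <;> simp [h]

theorem cC_pos : 0 < cC n := by unfold cC cB; positivity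

theorem mw_le : mw (RG (vs n K) (adj n E K)) ≤ 4 * nb K := by
  classical
  have hl : (mods K).length = 4 * nb K := by
    simp [mods, bases, nb, List.product, List.length_flatMap]; ring
  rcases Nat.eq_zero_or_pos K with rfl | hK
  · have : {m | Built (RG (vs n 0) (adj n E 0)) m Set.univ} = ∅ := by
      ext m
      simp only [Set.mem_ofPred_eq, Set.mem_empty_iff_false, iff_false]
      intro h
      obtain ⟨v, -⟩ := h.nonempty
      have := (mem_mods.1 (List.mem_toFinset.1 (mem_vs.1 (code_mem _ v)).1)).2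
      simp [mem_bases] at this
    simp [mw, this]
  refine Nat.sInf_le ?_
  let S : Fin (mods K).length → Finset (Fin (vs n K).length) := fun i =>
    univ.filter fun v => (code _ v).1 = (mods K)[i]
  have e : Set.univ = ⋃ i, (S i : Set (Fin (vs n K).length)) := by
    ext v
    obtain ⟨i, hi, e⟩ := List.getElem_of_mem (List.mem_toFinset.1 (mem_vs.1 (code_mem _ v)).1)
    simp only [Set.mem_univ, Set.mem_iUnion, true_iff]
    exact ⟨⟨i, hi⟩, by simp [S, e]⟩
  have hne : ∀ i j : Fin (mods K).length, i ≠ j → (mods K)[i] ≠ (mods K)[j] := fun i j h e =>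
    h (Fin.ext ((List.Nodup.getElem_inj_iff (mods_nd K)).1 e))
  simp only [Set.mem_ofPred_eq]
  rw [e]
  refine .subst _ (SimpleGraph.fromRel fun i j => FF (mods K)[i] (mods K)[j] = false) _
    (by rw [hl, nb]; omega) hl.le (fun i => built_thr _ _ ?_ ?_) ?_ ?_
  · have hm : (mods K)[i] ∈ mods K := List.getElem_mem _
    generalize hx : (mods K)[i] = m at hm
    have h0 := dm_pos (mem_mods.1 hm).2
    have h1 : (dm K m.2 + 1) * cC n ≤ (K + 2) * cC n := Nat.mul_le_mul_right _ (by omega)
    have h2 : dg K m.2 * cA n K ≤ (2 * K + 2) * cA n K := Nat.mul_le_mul_right _ (by omega)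
    have h3 : cC n ≤ (K + 2) * cC n := Nat.le_mul_of_pos_left _ (by omega)
    have h4 : cA n K ≤ (2 * K + 2) * cA n K := Nat.le_mul_of_pos_left _ (by omega)
    have h5 := cC_pos (n := n)
    have : (m, decide (2 ≤ m.1), 0) ∈ vs n K := by
      refine mem_vs.2 ⟨List.mem_toFinset.2 hm, ?_⟩
      by_cases h : 2 ≤ m.1
      · simp only [h, decide_true, cond_true, aa, cM]
        split_ifs <;> omega
      · simp only [h, decide_false, cond_false, ss]
        split_ifs <;> omega
    obtain ⟨v, hv⟩ := code_surj this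
    exact ⟨v, mem_filter.2 ⟨mem_univ _, by rw [hv]; exact hx.symm⟩⟩
  · intro U hU hne
    have hm : ∀ u ∈ U, (code _ u).1 = (mods K)[i] := fun u hu => (mem_filter.1 (hU hu)).2
    generalize (mods K)[i] = m at hm
    have hcd : ∀ u ∈ U, ∃ b t, code _ u = (m, b, t) := fun u hu => ⟨_, _, by rw [← hm u hu]⟩
    rcases (U.filter fun u => (code _ u).2.1 = true).eq_empty_or_nonempty with h1 | h1
    · obtain ⟨v, hv⟩ := hne
      refine ⟨v, hv, Or.inr fun u hu => ?_⟩
      have a1 := filter_eq_empty_iff.1 h1 hu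
      have a2 := filter_eq_empty_iff.1 h1 hv
      obtain ⟨b, t, e1⟩ := hcd u hu
      obtain ⟨b', t', e2⟩ := hcd v hv
      rw [G_adj, e1, e2]
      simp_all [non]
    obtain ⟨c, hc, hcm⟩ := exists_max_image _ (fun u => (code _ u).2.2) h1
    obtain ⟨hc, hc'⟩ := mem_filter.1 hc
    obtain ⟨b', t', e2⟩ := hcd c hc
    by_cases h2 : ∀ u ∈ U, u ≠ c → (RG (vs n K) (adj n E K)).Adj u c
    · exact ⟨c, hc, Or.inl h2⟩
    push Not at h2
    obtain ⟨w, hw, hwc, hw2⟩ := h2
    obtain ⟨b, t, e1⟩ := hcd w hw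
    refine ⟨w, hw, Or.inr fun u hu => ?_⟩
    obtain ⟨b'', t'', e3⟩ := hcd u hu
    have := fun h => hcm u (mem_filter.2 ⟨hu, h⟩)
    rw [G_adj, e1, e2] at hw2
    rw [G_adj, e1, e3]
    rw [e2] at hc' this
    rw [e3] at this
    simp only at hc' this
    subst hc'
    cases b <;> cases b'' <;> simp [non, hwc] at hw2 this ⊢
    omega
  · intro i j h
    rw [Set.disjoint_left]
    intro v h1 h2
    simp only [S, coe_filter, mem_univ, true_and, Set.mem_ofPred_eq] at h1 h2
    exact hne i j h (h1.symm.trans h2)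
  · intro i j h u h1 v h2
    simp only [S, coe_filter, mem_univ, true_and, Set.mem_ofPred_eq] at h1 h2
    have h3 := hne i j h
    have : u ≠ v := by rintro rfl; exact h3 (h1.symm.trans h2)
    rw [G_adj, non, h1, h2, if_neg h3, SimpleGraph.fromRel_adj, FF_symm (mods K)[j]]
    simp [this, h]

def kk (n K : ℕ) : ℕ := ((mods K).map (aa n K)).sum + nb K * cC n
def c1 (n K : ℕ) : ℕ := ((mods K).map fun m => aa n K m * Dn n K m).sum
def tt (n K : ℕ) : ℕ := (kk n K * kk n K + (K * K + nb K) * (cC n * cC n) + nb K * cC n -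
  (kk n K + c1 n K + 2 * cM n K * (nb K * cC n)) + 1) / 2

def T2 (n K : ℕ) : ℤ := (kk n K : ℤ) ^ 2 - kk n K - (∑ m ∈ (mods K).toFinset, (aa n K m : ℤ) * Dn n K m +
  (2 * cM n K - 1) * (nb K * cC n) - (K * K + nb K) * (cC n : ℤ) ^ 2)

theorem T2_eq : T2 n K = ((kk n K * kk n K + (K * K + nb K) * (cC n * cC n) + nb K * cC n : ℕ) : ℤ) -
    (kk n K + c1 n K + 2 * cM n K * (nb K * cC n) : ℕ) := by
  have : (c1 n K : ℤ) = ∑ m ∈ (mods K).toFinset, (aa n K m : ℤ) * Dn n K m := by
    rw [c1, ← List.sum_toFinset _ (mods_nd K)]; simp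
  rw [T2, ← this]; push_cast; ring

theorem kk_eq : (kk n K : ℤ) = ∑ m ∈ (mods K).toFinset, (aa n K m : ℤ) + nb K * cC n := by
  rw [kk, ← List.sum_toFinset _ (mods_nd K)]; simp

theorem sum_const_bs (c : ℤ) : ∑ _b ∈ (bases K).toFinset, c = nb K * c := by
  rw [sum_bs]; simp [nb]; ring

theorem sum_ss : ∑ m ∈ (mods K).toFinset, (ss n m : ℤ) = 2 * (nb K * cC n) := by
  rw [sum_ms, sum_congr rfl (g := fun _ => 2 * (cC n : ℤ)) fun b _ => by simp [ss]; ring,
    sum_const_bs]
  ring

def Sol (n : ℕ) (E : List (ℕ × ℕ)) (K : ℕ) : Prop :=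
  ∃ f : ℕ → ℕ, ∀ i < K, ∀ j < K, rel n E i j (f i) (f j)

theorem sol_of_dense (S : Finset (Fin (vs n K).length)) (h1 : S.card ≤ kk n K)
    (h2 : tt n K ≤ inner (RG (vs n K) (adj n E K)) S) : Sol n E K := by
  have hin : ∀ T : Finset (Fin (vs n K).length), ∀ u ∈ T.image (code _),
      InV (mods K).toFinset (aa n K) (ss n) u := by
    intro T u hu
    obtain ⟨v, -, rfl⟩ := mem_image.1 hu
    exact mem_vs.1 (code_mem _ v)
  have hlen : kk n K ≤ Fintype.card (Fin (vs n K).length) := by
    have e : ((vs n K).length : ℤ) = ∑ m ∈ (mods K).toFinset, ((aa n K m : ℤ) + ss n m) := by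
      rw [List.sum_toFinset _ (mods_nd K)]
      simp [vs, List.length_flatMap, Function.comp_def]
    rw [sum_add_distrib, sum_ss] at e
    have := kk_eq (n := n) (K := K)
    have : (0 : ℤ) ≤ nb K * cC n := by positivity
    rw [Fintype.card_fin]; omega
  obtain ⟨T, hST, hT⟩ := exists_superset_card_eq h1 hlen
  have h3 := inner_mono (RG (vs n K) (adj n E K)) hST
  have h4 := edge_count (E := E) T
  have h5 := NN_ge FF_irr FF_symm (pp_mono (n := n) (E := E) (K := K)) pp_le (hin T) sum_ss.le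
  have h6 := card_dec (hin T)
  rw [card_image_of_injective _ (code_inj vs_nd), hT, kk_eq] at h6
  set y : Md → ℕ := fun m => (YY (ss n) (T.image (code _)) m).card with hy
  set c : Md → ℤ := fun m => (aa n K m : ℤ) - (AA (aa n K) (T.image (code _)) m).card with hc
  rw [Phi_val y fun b => by simp [hy, YY, ss]] at h5
  have hc0 : ∀ m, 0 ≤ c m := fun m => by
    have : (AA (aa n K) (T.image (code _)) m).card ≤ aa n K m := (card_filter_le _ _).trans (by simp)
    simp only [hc]; omega
  have h7 : ∑ m ∈ (mods K).toFinset, (y m : ℤ) = nb K * cC n + ∑ m ∈ (mods K).toFinset, c m := by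
    simp only [hc, hy, sum_sub_distrib]; rw [sum_add_distrib] at h6; linarith
  have h8 : ∑ m ∈ (mods K).toFinset, c m * (2 * DD (mods K).toFinset (aa n K) FF m +
      4 * (2 * (nb K * cC n))) ≤ (2 * cM n K - 1) * ∑ m ∈ (mods K).toFinset, c m := by
    rw [mul_sum]
    refine sum_le_sum fun m hm => ?_
    rw [DD_eq hm, mul_comm]
    by_cases h : m.1 = 1
    · have := hc0 m
      have : c m = 0 := by
        simp only [hc, aa, h] at this ⊢
        simp at this ⊢
        exact this
      simp [this]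
    refine mul_le_mul_of_nonneg_right ?_ (hc0 m)
    have h4 : cA n K ≤ (2 * K + 2) * cA n K := Nat.le_mul_of_pos_left _ (by omega)
    have : 2 * Dn n K m + 8 * (nb K * cC n) + 1 ≤ 2 * cM n K := by
      simp only [Dn, cM, h, if_false]
      have : al n K = 4 * (nb K * cC n) + 1 := rfl
      split_ifs <;> omega
    zify at this
    linarith
  have h9 : T2 n K ≤ 2 * tt n K := by rw [T2_eq, tt]; omega
  have hex : ∀ b, 0 ≤ ex n E K b (y (0, b)) := fun b => by unfold ex; positivity
  have hs1 := sum_nonneg (s := (bases K).toFinset) fun b _ => hex b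
  have hs2 : 0 ≤ ∑ b ∈ (bases K).toFinset, ((y (0, b) : ℤ) + y (1, b) - cC n) ^ 2 := by positivity
  have hs3 : 0 ≤ ∑ i ∈ range K, ∑ j ∈ range K,
      ((y (0, 0, i, 0) : ℤ) + y (0, 1, 0, j) + y (0, 2, i, j) - cC n) ^ 2 := by positivity
  rw [hT] at h4
  rw [h7, mul_add, Sq] at h5
  have h10 : (tt n K : ℤ) ≤ inner (RG (vs n K) (adj n E K)) T := by exact_mod_cast h2.trans h3
  unfold T2 at h9
  have z1 : ∑ b ∈ (bases K).toFinset, ex n E K b (y (0, b)) = 0 := by linarith
  have z2 : ∑ i ∈ range K, ∑ j ∈ range K,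
      ((y (0, 0, i, 0) : ℤ) + y (0, 1, 0, j) + y (0, 2, i, j) - cC n) ^ 2 = 0 := by linarith
  rw [sum_eq_zero_iff_of_nonneg fun b _ => hex b] at z1
  rw [sum_eq_zero_iff_of_nonneg fun b _ => by positivity] at z2
  have z3 : ∀ i < K, ∀ j < K, y (0, 0, i, 0) + y (0, 1, 0, j) + y (0, 2, i, j) = cC n := by
    intro i hi j hj
    have := (sum_eq_zero_iff_of_nonneg fun b _ => by positivity).1 (z2 i (mem_range.2 hi)) j
      (mem_range.2 hj)
    have := pow_eq_zero_iff (two_ne_zero) |>.1 this
    omega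
  have z4 : ∀ b ∈ bases K, y (0, b) = 0 ∨ ok n E b (y (0, b)) := by
    intro b hb
    have h := z1 b (List.mem_toFinset.2 hb)
    have h0 := (dm_pos hb).1
    unfold ex at h
    have k1 : (0 : ℤ) ≤ dm K b * (y (0, b) % 2 : ℕ) := by positivity
    have k2 : dm K b * (y (0, b) % 2) = 0 := by zify; push_cast at h k1; omega
    have k3 : bp n E b (y (0, b)) = 0 := by omega
    have k4 : y (0, b) % 2 = 0 := by rcases Nat.mul_eq_zero.1 k2 with h | h <;> omega
    unfold bp at k3
    by_contra hn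
    rw [if_pos ⟨k4, by tauto⟩] at k3
    omega
  have hB : 0 < cB n := by unfold cB; omega
  have key : ∀ i < K, ∀ j < K, rel n E i j (y (0, 0, i, 0) / 2) (y (0, 1, 0, j) / cB n) := by
    intro i hi j hj
    have a1 : y (0, 0, i, 0) < cB n := by
      rcases z4 (0, i, 0) (by simp [mem_bases, hi]) with h | h
      · omega
      · simpa [ok] using h
    have a2 : y (0, 1, 0, j) % cB n = 0 ∧ y (0, 1, 0, j) < cC n := by
      rcases z4 (1, 0, j) (by simp [mem_bases, hj]) with h | h
      · rw [h]; exact ⟨by simp, cC_pos⟩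
      · simpa [ok] using h
    obtain ⟨v, hv⟩ := Nat.dvd_of_mod_eq_zero a2.1
    have a3 : v < n + 1 := by
      have := a2.2; rw [hv, cC] at this; exact Nat.lt_of_mul_lt_mul_left this
    have a4 : cB n * (v + 1) ≤ cC n := Nat.mul_le_mul_left _ a3
    have a5 := z3 i hi j hj
    rw [Nat.mul_succ] at a4
    rcases z4 (2, i, j) (by simp [mem_bases, hi, hj]) with h | h
    · omega
    · have e : cC n - y (0, 2, i, j) = y (0, 0, i, 0) + cB n * v := by omega
      simp only [ok, OfNat.ofNat_ne_zero, OfNat.ofNat_ne_one, if_false, e, Nat.add_mul_mod_self_left,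
        Nat.mod_eq_of_lt a1, Nat.add_mul_div_left _ _ hB, Nat.div_eq_of_lt a1, zero_add] at h
      rwa [hv, Nat.mul_div_cancel_left _ hB]
  refine ⟨fun i => y (0, 0, i, 0) / 2, fun i hi j hj => ?_⟩
  have := key j hj j hj
  simp only [rel, if_true] at this
  beta_reduce
  rw [this.1]
  exact key i hi j hj

theorem dense_of_sol (h : Sol n E K) : ∃ S : Finset (Fin (vs n K).length), S.card ≤ kk n K ∧
    tt n K ≤ inner (RG (vs n K) (adj n E K)) S := by
  obtain ⟨f, hf⟩ := h
  have hlt : ∀ i < K, f i < n := fun i hi => by simpa [rel] using hf i hi i hi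
  let y0 : Bs → ℕ := fun b => if b.1 = 0 then 2 * f b.2.1 else if b.1 = 1 then cB n * f b.2.2 else
    cC n - (2 * f b.2.1 + cB n * f b.2.2)
  let y : Md → ℕ := fun m => if m.1 = 0 then y0 m.2 else if m.1 = 1 then cC n - y0 m.2 else 0
  have hB : 0 < cB n := by unfold cB; omega
  have hb : ∀ j < K, cB n * f j + cB n ≤ cC n := fun j hj => by
    rw [← Nat.mul_succ]; exact Nat.mul_le_mul_left _ (by have := hlt j hj; omega)
  have hx : ∀ i < K, 2 * f i < cB n := fun i hi => by have := hlt i hi; unfold cB; omega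
  have hBC : cB n ≤ cC n := Nat.le_mul_of_pos_right _ (by omega)
  have hy0 : ∀ b ∈ bases K, y0 b ≤ cC n ∧ y0 b % 2 = 0 ∧ ok n E b (y0 b) := by
    rintro ⟨t, i, j⟩ hb'
    have e1 : cB n * f j % 2 = 0 := by
      rw [cB, show (2 * n + 2) * f j = 2 * ((n + 1) * f j) by ring]; omega
    have e2 : cC n % 2 = 0 := by
      rw [cC, cB, show (2 * n + 2) * (n + 1) = 2 * ((n + 1) * (n + 1)) by ring]; omega
    rcases mem_bases.1 hb' with ⟨h, h1, h2⟩ | ⟨h, h1, h2⟩ | ⟨h, h1, h2⟩ <;>
      simp only at h h1 h2 <;> subst h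
    · have := hx i h1
      simp only [y0, ok, if_true]; omega
    · have := hb j h2
      simp only [y0, ok, if_true, one_ne_zero, if_false, Nat.mul_mod_right, true_and]; omega
    · have a1 := hx i h1
      have := hb j h2
      have e : cC n - (cC n - (2 * f i + cB n * f j)) = 2 * f i + cB n * f j := by omega
      simp only [y0, ok, OfNat.ofNat_ne_zero, OfNat.ofNat_ne_one, if_false, e,
        Nat.add_mul_mod_self_left, Nat.mod_eq_of_lt a1, Nat.add_mul_div_left _ _ hB,
        Nat.div_eq_of_lt a1, zero_add, Nat.mul_div_cancel_left _ two_pos]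
      exact ⟨by omega, by omega, hf i h1 j h2⟩
  have hys : ∀ m ∈ (mods K).toFinset, y m ≤ ss n m := by
    intro m hm
    have := (hy0 _ (mem_mods.1 (List.mem_toFinset.1 hm)).2).1
    simp only [y, ss]
    split_ifs <;> omega
  let S : Finset (Fin (vs n K).length) := univ.filter fun v =>
    (code _ v).2.1 = true ∨ (code _ v).2.2 < y (code _ v).1
  have hS : ∀ u, u ∈ S.image (code _) ↔
      InV (mods K).toFinset (aa n K) (ss n) u ∧ (u.2.1 = true ∨ u.2.2 < y u.1) := by
    intro u
    simp only [S, mem_image, mem_filter, mem_univ, true_and, ← mem_vs]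
    exact ⟨by rintro ⟨v, hv, rfl⟩; exact ⟨code_mem _ v, hv⟩, fun ⟨h1, h2⟩ =>
      let ⟨v, hv⟩ := code_surj h1; ⟨v, hv ▸ h2, hv⟩⟩
  have hA : ∀ m ∈ (mods K).toFinset, AA (aa n K) (S.image (code _)) m = range (aa n K m) := by
    intro m hm; ext c; simp only [AA, mem_filter, hS, InV, hm]; simp
  have hY : ∀ m ∈ (mods K).toFinset, YY (ss n) (S.image (code _)) m = range (y m) := by
    intro m hm; ext c
    have := hys m hm
    simp only [YY, mem_filter, hS, InV, hm]; simp; omega
  have h1 := NN_full (p := pp n E K) FF_irr pp_le (fun u hu => ((hS u).1 hu).1) hys hA hY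
  have h2 := card_dec fun u hu => ((hS u).1 hu).1
  have h3 : ∑ m ∈ (mods K).toFinset, (y m : ℤ) = nb K * cC n := by
    rw [sum_ms, ← sum_const_bs]
    refine sum_congr rfl fun b hb => ?_
    have := (hy0 b (List.mem_toFinset.1 hb)).1
    simp [y, this]
  rw [card_image_of_injective _ (code_inj vs_nd), sum_congr rfl fun m hm => by
    rw [hA m hm, hY m hm, card_range, card_range], sum_add_distrib, h3, ← kk_eq] at h2
  have h4 : ∑ b ∈ (bases K).toFinset, ex n E K b (y (0, b)) = 0 := by
    refine sum_eq_zero fun b hb => ?_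
    obtain ⟨-, a1, a2⟩ := hy0 b (List.mem_toFinset.1 hb)
    simp [ex, y, bp, a1, a2]
  have h5 : Sq n K y = 0 := by
    unfold Sq
    rw [sum_eq_zero, sum_eq_zero, add_zero]
    · intro b hb
      have := (hy0 b (List.mem_toFinset.1 hb)).1
      simp [y, this]
    · intro i hi
      refine sum_eq_zero fun j hj => ?_
      have := hx i (mem_range.1 hi)
      have := hb j (mem_range.1 hj)
      simp only [y, y0, if_true, one_ne_zero, if_false, OfNat.ofNat_ne_zero, OfNat.ofNat_ne_one]
      rw [Nat.cast_sub (by omega)]; push_cast; ring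
  rw [Phi_val y fun b => by simp [y], h3, h4, h5] at h1
  have h6 := edge_count (E := E) S
  have h7 : 2 * (inner (RG (vs n K) (adj n E K)) S : ℤ) = T2 n K := by
    rw [h6, h1, h2, T2]; ring
  refine ⟨S, by omega, ?_⟩
  rw [T2_eq] at h7
  rw [tt]; omega

theorem clique_iff (p : GK) : Clique p ↔ Sol p.1 p.2.1 p.2.2 := by
  obtain ⟨n, E, K⟩ := p
  constructor
  · rintro ⟨S, hS, hc⟩
    simp only at S hS hc
    refine ⟨fun i => if h : i < K then (S.orderEmbOfFin hc ⟨i, h⟩).val else 0, fun i hi j hj => ?_⟩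
    simp only [hi, hj, dif_pos, rel]
    split_ifs with h
    · subst h; exact ⟨rfl, Fin.is_lt _⟩
    · have := hS (S.orderEmbOfFin_mem hc ⟨i, hi⟩) (S.orderEmbOfFin_mem hc ⟨j, hj⟩)
        (by simpa using h)
      rw [graphOf_adj] at this
      exact ⟨fun e => this.1 (Fin.ext e), this.2⟩
  · rintro ⟨f, hf⟩
    simp only at hf
    have hlt : ∀ i : Fin K, f i < n := fun i => by simpa [rel] using hf i i.2 i i.2
    have h : ∀ i j : Fin K, i ≠ j → (graphOf n E).Adj ⟨f i, hlt i⟩ ⟨f j, hlt j⟩ := fun i j h => by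
      have := hf i i.2 j j.2
      rw [rel, if_neg (fun e => h (Fin.ext e))] at this
      exact graphOf_adj.2 ⟨fun e => this.1 (congrArg Fin.val e), this.2⟩
    refine ⟨univ.image fun i : Fin K => ⟨f i, hlt i⟩, ?_, ?_⟩
    · intro u hu v hv huv
      obtain ⟨i, -, rfl⟩ := mem_image.1 hu
      obtain ⟨j, -, rfl⟩ := mem_image.1 hv
      exact h i j (by rintro rfl; exact huv rfl)
    · rw [card_image_of_injective, card_univ, Fintype.card_fin]
      intro i j e
      by_contra hn
      exact (h i j hn).ne e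

end Pool.Agent.H36.Dks
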