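import Pool.Agent.H36.Dks3

/-!
The reduction is computable in polynomial time.
-/

namespace Pool.Agent.H36.Dks

open Pool.Agent.H38.NP Pool.Agent.H36.Par Pool.Agent.H36.Gr

variable {α : Type} [Enc α] {n K y t : α → ℕ} {E : α → List (ℕ × ℕ)} {b c : α → Bs}
  {m m' : α → Md}

@[fun_prop] theorem pt_bases (hK : PT K) : PT fun a => bases (K a) := by unfold bases; fun_prop
@[fun_prop] theorem pt_mods (hK : PT K) : PT fun a => mods (K a) := by unfold mods; fun_prop
@[fun_prop] theorem pt_cB (h : PT n) : PT fun a => cB (n a) := by unfold cB; fun_prop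
@[fun_prop] theorem pt_cC (h : PT n) : PT fun a => cC (n a) := by unfold cC; fun_prop
@[fun_prop] theorem pt_nb (h : PT K) : PT fun a => nb (K a) := by unfold nb; fun_prop
@[fun_prop] theorem pt_al (h : PT n) (hK : PT K) : PT fun a => al (n a) (K a) := by
  unfold al; fun_prop
@[fun_prop] theorem pt_cA (h : PT n) (hK : PT K) : PT fun a => cA (n a) (K a) := by
  unfold cA; fun_prop
@[fun_prop] theorem pt_cM (h : PT n) (hK : PT K) : PT fun a => cM (n a) (K a) := by
  unfold cM; fun_prop
@[fun_prop] theorem pt_dm (hK : PT K) (hb : PT b) : PT fun a => dm (K a) (b a) := by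
  unfold dm; fun_prop
@[fun_prop] theorem pt_dg (hK : PT K) (hb : PT b) : PT fun a => dg (K a) (b a) := by
  unfold dg; fun_prop
@[fun_prop] theorem pt_aa (h : PT n) (hK : PT K) (hm : PT m) : PT fun a => aa (n a) (K a) (m a) := by
  unfold aa; fun_prop
@[fun_prop] theorem pt_ss (h : PT n) (hm : PT m) : PT fun a => ss (n a) (m a) := by
  unfold ss; fun_prop
@[fun_prop] theorem pt_Dn (h : PT n) (hK : PT K) (hm : PT m) : PT fun a => Dn (n a) (K a) (m a) := by
  unfold Dn; fun_prop

@[fun_prop] theorem pt_rel {i j u v : α → ℕ} (h : PT n) (hE : PT E) (hi : PT i) (hj : PT j)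
    (hu : PT u) (hv : PT v) : PT fun a => decide (rel (n a) (E a) (i a) (j a) (u a) (v a)) := by
  have : PT fun a => if i a = j a then decide (u a = v a ∧ u a < n a) else
      decide (u a ≠ v a ∧ ((u a, v a) ∈ E a ∨ (v a, u a) ∈ E a)) := by fun_prop
  refine this.of_eq fun a => ?_
  unfold rel
  split_ifs with h <;> simp [h]

@[fun_prop] theorem pt_ok (h : PT n) (hE : PT E) (hb : PT b) (hy : PT y) :
    PT fun a => decide (ok (n a) (E a) (b a) (y a)) := by
  have : PT fun a => if (b a).1 = 0 then decide (y a < cB (n a)) else if (b a).1 = 1 then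
      decide (y a % cB (n a) = 0 ∧ y a < cC (n a)) else decide (rel (n a) (E a) (b a).2.1 (b a).2.2
        ((cC (n a) - y a) % cB (n a) / 2) ((cC (n a) - y a) / cB (n a))) := by fun_prop
  refine this.of_eq fun a => ?_
  unfold ok
  split_ifs with h h' <;> simp [h, *]

@[fun_prop] theorem pt_bp (h : PT n) (hE : PT E) (hb : PT b) (hy : PT y) :
    PT fun a => bp (n a) (E a) (b a) (y a) := by unfold bp; fun_prop
@[fun_prop] theorem pt_pp (h : PT n) (hE : PT E) (hK : PT K) (hm : PT m) (ht : PT t) :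
    PT fun a => pp (n a) (E a) (K a) (m a) (t a) := by unfold pp; fun_prop
@[fun_prop] theorem pt_FB (hb : PT b) (hc : PT c) : PT fun a => FB (b a) (c a) := by
  unfold FB; fun_prop
@[fun_prop] theorem pt_FF (hm : PT m) (hm' : PT m') : PT fun a => FF (m a) (m' a) := by
  unfold FF; fun_prop
@[fun_prop] theorem pt_vs (h : PT n) (hK : PT K) : PT fun a => vs (n a) (K a) := by
  unfold vs; fun_prop
theorem pt_adj {u v : α → Vx Md} (h : PT n) (hE : PT E) (hK : PT K) (hu : PT u) (hv : PT v) :
    PT fun a => adj (n a) (E a) (K a) (u a) (v a) := by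
  unfold adj non; fun_prop
@[fun_prop] theorem pt_kk (h : PT n) (hK : PT K) : PT fun a => kk (n a) (K a) := by
  unfold kk; fun_prop
@[fun_prop] theorem pt_c1 (h : PT n) (hK : PT K) : PT fun a => c1 (n a) (K a) := by
  unfold c1; fun_prop
@[fun_prop] theorem pt_tt (h : PT n) (hK : PT K) : PT fun a => tt (n a) (K a) := by
  unfold tt; fun_prop

def red (p : GK) : Inst :=
  ((mkG (vs p.1 p.2.2) (adj p.1 p.2.1 p.2.2)).1, (mkG (vs p.1 p.2.2) (adj p.1 p.2.1 p.2.2)).2,
    kk p.1 p.2.2, tt p.1 p.2.2)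

theorem pt_red : PT red := by
  have h : PT fun p : GK => mkG (vs p.1 p.2.2) (adj p.1 p.2.1 p.2.2) :=
    pt_mkG (by fun_prop) (pt_adj (by fun_prop) (by fun_prop) (by fun_prop) (by fun_prop)
      (by fun_prop))
  exact h.fst.mk (h.snd.mk (by fun_prop))

theorem main : PReduces Clique kOf (fun _ => True) Dense mwOf :=
  preduces_of_pt red pt_red (fun k => 4 * (2 * k + k * k))
    (comp_mul (comp_c 4) (comp_add (comp_mul (comp_c 2) comp_id) (comp_mul comp_id comp_id)))
    fun p => ⟨trivial, (clique_iff p).trans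
      ⟨dense_of_sol, fun ⟨S, h1, h2⟩ => sol_of_dense S h1 h2⟩, mw_le⟩

end Pool.Agent.H36.Dks
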