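import Pool.Agent.H36.ParDefs

/-!
Modular-width and Densest k-Subgraph.
-/

namespace Pool.Agent.H36.Dks

open Pool.Agent.H38.NP

/-- `Built G m S`: the subgraph of `G` induced on `S` has a construction by the operations O1
(single vertex), O2 (disjoint union), O3 (complete join) and O4 (substitution into a graph `H`)
in which every `H` has at most `m` vertices. -/
inductive Built {V : Type} (G : SimpleGraph V) (m : ℕ) : Set V → Prop
  | single (v : V) : Built G m {v}
  | union {S T : Set V} : Built G m S → Built G m T → Disjoint S T →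
      (∀ u ∈ S, ∀ v ∈ T, ¬ G.Adj u v) → Built G m (S ∪ T)
  | join {S T : Set V} : Built G m S → Built G m T → Disjoint S T →
      (∀ u ∈ S, ∀ v ∈ T, G.Adj u v) → Built G m (S ∪ T)
  | subst (r : ℕ) (H : SimpleGraph (Fin r)) (S : Fin r → Set V) : 0 < r → r ≤ m →
      (∀ i, Built G m (S i)) → (∀ i j, i ≠ j → Disjoint (S i) (S j)) →
      (∀ i j, i ≠ j → ∀ u ∈ S i, ∀ v ∈ S j, G.Adj u v ↔ H.Adj i j) → Built G m (⋃ i, S i)

/-- modular-width: the least width of a construction of the whole graph -/
noncomputable def mw {V : Type} (G : SimpleGraph V) : ℕ := sInf {m | Built G m Set.univ}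

/-- number of edges of the subgraph induced on `S` -/
noncomputable def inner {n : ℕ} (G : SimpleGraph (Fin n)) (S : Finset (Fin n)) : ℕ :=
  Set.ncard {e : Fin n × Fin n | e.1 ∈ S ∧ e.2 ∈ S ∧ e.1 < e.2 ∧ G.Adj e.1 e.2}

/-- graph (number of vertices, edge list), `k`, target number of edges -/
abbrev Inst := ℕ × List (ℕ × ℕ) × ℕ × ℕ

/-- Densest k-Subgraph, decision form: some set of at most `k` vertices induces at least `t`
edges. -/
def Dense (p : Inst) : Prop :=
  ∃ S : Finset (Fin p.1), S.card ≤ p.2.2.1 ∧ p.2.2.2 ≤ inner (graphOf p.1 p.2.1) S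

/-- the parameter: modular-width of the input graph -/
noncomputable def mwOf (p : Inst) : ℕ := mw (graphOf p.1 p.2.1)

end Pool.Agent.H36.Dks
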