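import Pool.Agent.H36.DualDefs
import Pool.Agent.H36.Par
import Pool.Agent.H36.Gr

/-!
Clique reduces to Dual Separator for Two Terminals.
-/

namespace Pool.Agent.H36.Dual

open Pool.Agent.H38.NP Par Gr Relation

abbrev T := ℕ × ℕ × ℕ × ℕ × ℕ

def Al (E : List (ℕ × ℕ)) (i j u v : ℕ) : Prop :=
  (i = j ∧ u = v) ∨ (i ≠ j ∧ u ≠ v ∧ ((u, v) ∈ E ∨ (v, u) ∈ E))

instance {E i j u v} : Decidable (Al E i j u v) := by unfold Al; infer_instance

def Z (J i j u v : ℕ) : T := if J = 3 then (2, i, j, u, v) else (2, j, i, v, u)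

def R (J n : ℕ) (E : List (ℕ × ℕ)) (x y : T) : Prop :=
  (x.1 = 0 ∧ y.1 = J ∧ y.2.2.2 = (0, 0)) ∨ (x.1 = 1 ∧ y.1 = J ∧ y.2.2.2 = (n, 0)) ∨
  (x.1 = J ∧ (y = Z J x.2.1 x.2.2.1 x.2.2.2.1 x.2.2.2.2 ∨
    (0 < x.2.2.2.2 ∧ y = Z J x.2.1 x.2.2.1 x.2.2.2.1 (x.2.2.2.2 - 1)) ∨
    (y = (J, x.2.1, x.2.2.1, x.2.2.2.1, x.2.2.2.2 + 1) ∧
      ¬Al E x.2.1 x.2.2.1 x.2.2.2.1 x.2.2.2.2) ∨
    (x.2.2.2.2 = n ∧ y = (J, x.2.1, x.2.2.1, x.2.2.2.1 + 1, 0)) ∨
    (x.2.2.2.2 = 0 ∧ y.1 = J ∧ y.2.1 = x.2.1 ∧ y.2.2.2 = x.2.2.2)))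

instance {J n E x y} : Decidable (R J n E x y) := by unfold R; infer_instance

def r (J n : ℕ) (E : List (ℕ × ℕ)) (x y : T) : Bool := decide (R J n E x y)

def vs (n k : ℕ) : List T := (0, 0, 0, 0, 0) :: (1, 0, 0, 0, 0) ::
  [2, 3, 4].product ((List.range k).product ((List.range k).product
    ((List.range (n + 1)).product (List.range (n + 1)))))

theorem mem_vs {n k} {x : T} : x ∈ vs n k ↔ x = (0, 0, 0, 0, 0) ∨ x = (1, 0, 0, 0, 0) ∨
    ((x.1 = 2 ∨ x.1 = 3 ∨ x.1 = 4) ∧ x.2.1 < k ∧ x.2.2.1 < k ∧ x.2.2.2.1 ≤ n ∧ x.2.2.2.2 ≤ n) := by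
  obtain ⟨a, b, c, d, e⟩ := x
  simp [vs, Nat.lt_succ_iff]

theorem nd (n k) : (vs n k).Nodup := by
  refine List.nodup_cons.2 ⟨by simp, List.nodup_cons.2 ⟨by simp, ?_⟩⟩
  exact (by decide : [2, 3, 4].Nodup).product (List.nodup_range.product (List.nodup_range.product
    (List.nodup_range.product List.nodup_range)))

def red (p : GK) : Inst :=
  ((vs p.1 p.2.2).length, (mkG (vs p.1 p.2.2) (r 3 p.1 p.2.1)).2,
    (mkG (vs p.1 p.2.2) (r 4 p.1 p.2.1)).2, 0, 1, p.2.2 * p.2.2)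

theorem pt_red : PT red := by
  have h : PT fun p : GK => vs p.1 p.2.2 := by unfold vs; fun_prop
  have k : ∀ J, PT fun p : GK × T × T => r J p.1.1 p.1.2.1 p.2.1 p.2.2 := fun J => by
    unfold r R Al Z
    fun_prop
  exact h.length.mk ((pt_mkG h (k 3)).snd.mk ((pt_mkG h (k 4)).snd.mk (by fun_prop)))

theorem reach_iff {V : Type} {G : SimpleGraph V} {S : Finset V} {s t : V} (hs : s ∉ S) (ht : t ∉ S) :
    (G.induce {v | v ∉ S}).Reachable ⟨s, hs⟩ ⟨t, ht⟩ ↔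
      ReflTransGen (fun u v => G.Adj u v ∧ v ∉ S) s t := by
  rw [SimpleGraph.reachable_iff_reflTransGen]
  refine ⟨fun h => ReflTransGen.lift (p := fun u v => G.Adj u v ∧ v ∉ S) Subtype.val
    (fun a b k => ⟨k, b.2⟩) _ _ h, fun h => ?_⟩
  induction h with
  | refl => rfl
  | @tail b c h k ih =>
    have : b ∉ S := by
      rcases h.cases_tail with rfl | ⟨_, _, e⟩
      exacts [hs, e.2]
    exact (ih this).tail k.1

/-- reachability on codes -/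
def Rc (J n k : ℕ) (E : List (ℕ × ℕ)) (S : Finset T) : T → Prop :=
  ReflTransGen (fun x y => (R J n E x y ∨ R J n E y x) ∧ y ∈ vs n k ∧ y ∉ S) (0, 0, 0, 0, 0)

theorem rc_iff {J n k E} {S : Finset (Fin (vs n k).length)} {s t} (hs : code _ s = (0, 0, 0, 0, 0)) :
    ReflTransGen (fun u v => (RG (vs n k) (r J n E)).Adj u v ∧ v ∉ S) s t ↔
      Rc J n k E (S.image (code _)) (code _ t) := by
  have i := code_inj (nd n k)
  refine ⟨fun h => ?_, fun h => ?_⟩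
  · rw [Rc, ← hs]
    refine ReflTransGen.lift (p := fun x y => (R J n E x y ∨ R J n E y x) ∧ y ∈ vs n k ∧
      y ∉ S.image (code _)) (code _) (fun a b e => ⟨?_, code_mem _ _, ?_⟩) _ _ h
    · simpa [r] using (GC_adj.1 ((RG_adj (nd n k)).1 e.1)).2
    · simpa [i.eq_iff] using e.2
  · generalize hy : code _ t = y at h
    induction h generalizing t with
    | refl => rw [i (hy.trans hs.symm)]
    | @tail b c h e ih =>
      obtain ⟨u, rfl⟩ : ∃ u, code (vs n k) u = b := by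
        rcases h.cases_tail with rfl | ⟨_, _, e⟩
        exacts [⟨s, hs⟩, code_surj e.2.1]
      subst hy
      by_cases c : u = t
      · exact c ▸ ih rfl
      · exact (ih rfl).tail ⟨(RG_adj (nd n k)).2 (GC_adj.2 ⟨i.ne c, by simpa [r] using e.1⟩),
          by simpa [i.eq_iff] using e.2.2⟩

variable {J n k : ℕ} {E : List (ℕ × ℕ)} {S : Finset T}

theorem Rc.step {x y} (h : Rc J n k E S x) (e : R J n E x y ∨ R J n E y x) (a : y ∈ vs n k)
    (b : y ∉ S) : Rc J n k E S y := h.tail ⟨e, a, b⟩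

theorem row (hJ : J = 3 ∨ J = 4) {i j u} (hi : i < k) (hj : j < k) (hu : u < n)
    (h1 : ∀ u v, (J, i, j, u, v) ∉ S) (h2 : ∀ v < n, Al E i j u v → Z J i j u v ∉ S)
    (h : Rc J n k E S (J, i, j, u, 0)) : Rc J n k E S (J, i, j, u + 1, 0) := by
  have : ∀ v ≤ n, Rc J n k E S (J, i, j, u, v) := fun v hv => by
    induction v with
    | zero => exact h
    | succ v ih =>
      have m : (J, i, j, u, v + 1) ∈ vs n k := mem_vs.2 (by grind)
      by_cases c : Al E i j u v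
      · exact ((ih (by omega)).step (y := Z J i j u v) (.inl (by simp [R]))
          (mem_vs.2 (by unfold Z; grind)) (h2 v hv c)).step (.inr (by simp [R])) m (h1 _ _)
      · exact (ih (by omega)).step (.inl (by simp [R, c])) m (h1 _ _)
  exact (this n le_rfl).step (.inl (by simp [R])) (mem_vs.2 (by grind)) (h1 _ _)

theorem rows (hJ : J = 3 ∨ J = 4) {i j a b} (hi : i < k) (hj : j < k) (ab : a ≤ b) (hb : b ≤ n)
    (h1 : ∀ u v, (J, i, j, u, v) ∉ S)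
    (h2 : ∀ u, a ≤ u → u < b → ∀ v < n, Al E i j u v → Z J i j u v ∉ S)
    (h : Rc J n k E S (J, i, j, a, 0)) : Rc J n k E S (J, i, j, b, 0) := by
  induction b, ab using Nat.le_induction with
  | base => exact h
  | succ b ab ih =>
    exact row hJ hi hj hb h1 (h2 b ab b.lt_succ_self)
      (ih (by omega) fun u a1 a2 => h2 u a1 (by omega))

theorem start (hJ : J = 3 ∨ J = 4) {i j} (hi : i < k) (hj : j < k) (h : (J, i, j, 0, 0) ∉ S) :
    Rc J n k E S (J, i, j, 0, 0) :=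
  Rc.step .refl (.inl (by simp [R])) (mem_vs.2 (by grind)) h

theorem stop {i j} (ht : (1, 0, 0, 0, 0) ∉ S) (h : Rc J n k E S (J, i, j, n, 0)) :
    Rc J n k E S (1, 0, 0, 0, 0) := h.step (.inr (by simp [R])) (mem_vs.2 (by simp)) ht

theorem hit (hJ : J = 3 ∨ J = 4) (ht : (1, 0, 0, 0, 0) ∉ S) (h : ¬Rc J n k E S (1, 0, 0, 0, 0))
    {i j} (hi : i < k) (hj : j < k) : ∃ u v, (J, i, j, u, v) ∈ S ∨
      (u < n ∧ v < n ∧ Al E i j u v ∧ Z J i j u v ∈ S) := by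
  by_contra c
  push Not at c
  exact h (stop ht (rows hJ hi hj n.zero_le le_rfl (fun u v => (c u v).1)
    (fun u _ hu v hv => (c u v).2 hu hv) (start hJ hi hj (c 0 0).1)))

theorem same (hJ : J = 3 ∨ J = 4) (ht : (1, 0, 0, 0, 0) ∉ S) (h : ¬Rc J n k E S (1, 0, 0, 0, 0))
    (h1 : ∀ x ∈ S, x.1 = 2) {i j j' u u'} (hi : i < k) (hj : j < k) (hj' : j' < k) (hu' : u' < n)
    (a : ∀ w v, Z J i j w v ∈ S → w = u) (b : ∀ w v, Z J i j' w v ∈ S → w = u') : u' ≤ u := by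
  by_contra c
  have e : ∀ j u v, (J, i, j, u, v) ∉ S := fun j u v m => by have := h1 _ m; omega
  refine h (stop ht (rows hJ hi hj (a := u + 1) (by omega) le_rfl (e _)
    (fun w w1 _ v _ _ m => by have := a w v m; omega) (Rc.step (x := (J, i, j', u + 1, 0))
      (rows hJ hi hj' (Nat.zero_le _) (by omega) (e _)
        (fun w _ w1 v _ _ m => by have := b w v m; omega) (start hJ hi hj' (e _ _ _)))
      (.inl (by simp [R])) (mem_vs.2 (by grind)) (e _ _ _))))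

def lab (x : T) : ℕ × ℕ := if x.1 = 4 then (x.2.2.1, x.2.1) else (x.2.1, x.2.2.1)

theorem back (hc : S.card ≤ k * k) (ht : (1, 0, 0, 0, 0) ∉ S)
    (h3 : ¬Rc 3 n k E S (1, 0, 0, 0, 0)) (h4 : ¬Rc 4 n k E S (1, 0, 0, 0, 0)) :
    ∃ b : ℕ → ℕ, ∀ i < k, b i < n ∧ ∀ j < k, Al E i j (b i) (b j) := by
  have a3 : ∀ p : ℕ × ℕ, ∃ x : T, p.1 < k → p.2 < k → x ∈ S ∧ lab x = p ∧ x.1 ≠ 4 ∧
      (x.1 = 2 → x.2.2.2.1 < n ∧ x.2.2.2.2 < n ∧ Al E p.1 p.2 x.2.2.2.1 x.2.2.2.2) := fun p => by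
    by_cases c : p.1 < k ∧ p.2 < k
    · obtain ⟨u, v, h | h⟩ := hit (.inl rfl) ht h3 c.1 c.2
      · exact ⟨_, fun _ _ => ⟨h, rfl, by simp, by simp⟩⟩
      · exact ⟨_, fun _ _ => ⟨h.2.2.2, rfl, by simp [Z], fun _ => ⟨h.1, h.2.1, h.2.2.1⟩⟩⟩
    · exact ⟨default, fun a b => absurd ⟨a, b⟩ c⟩
  choose f hf using a3
  have u : ∀ x ∈ S, (lab x).1 < k ∧ (lab x).2 < k ∧ x = f (lab x) := by
    have : (Finset.range k ×ˢ Finset.range k).image f = S := by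
      refine Finset.eq_of_subset_of_card_le (by
        simp only [Finset.image_subset_iff, Finset.mem_product, Finset.mem_range]
        exact fun p hp => (hf p hp.1 hp.2).1) ?_
      rw [Finset.card_image_of_injOn fun p hp q hq e => by
        simp only [Finset.coe_product, Finset.coe_range, Set.mem_prod, Set.mem_Iio] at hp hq
        rw [← (hf p hp.1 hp.2).2.1, e, (hf q hq.1 hq.2).2.1]]
      simpa using hc
    intro x hx
    rw [← this] at hx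
    obtain ⟨p, hp, rfl⟩ := Finset.mem_image.1 hx
    simp only [Finset.mem_product, Finset.mem_range] at hp
    rw [(hf p hp.1 hp.2).2.1]
    exact ⟨hp.1, hp.2, rfl⟩
  have h1 : ∀ x ∈ S, x.1 = 2 := fun x hx => by
    obtain ⟨a, b, c⟩ := u x hx
    obtain ⟨w, v, h | h⟩ := hit (.inr rfl) ht h4 b a
    · exact absurd (congrArg Prod.fst (u _ h).2.2).symm (hf (lab x) a b).2.2.1
    · exact (congrArg Prod.fst c).trans (congrArg Prod.fst (u _ h.2.2.2).2.2).symm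
  have g := fun i j hi hj => (hf (i, j) hi hj).2.2.2 (h1 _ (hf (i, j) hi hj).1)
  have s3 : ∀ i j j', i < k → j < k → j' < k → (f (i, j')).2.2.2.1 ≤ (f (i, j)).2.2.2.1 :=
    fun i j j' hi hj hj' => same (.inl rfl) ht h3 h1 hi hj hj' (g i j' hi hj').1
      (fun w v m => congrArg (·.2.2.2.1) (u _ m).2.2) fun w v m => congrArg (·.2.2.2.1) (u _ m).2.2
  have s4 : ∀ i j j', i < k → j < k → j' < k → (f (j', i)).2.2.2.2 ≤ (f (j, i)).2.2.2.2 :=
    fun i j j' hi hj hj' => same (.inr rfl) ht h4 h1 hi hj hj' (g j' i hj' hi).2.1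
      (fun w v m => congrArg (·.2.2.2.2) (u _ m).2.2) fun w v m => congrArg (·.2.2.2.2) (u _ m).2.2
  refine ⟨fun i => (f (i, i)).2.2.2.1, fun i hi => ⟨(g i i hi hi).1, fun j hj => ?_⟩⟩
  have := (g j j hj hj).2.2
  have e : (f (j, j)).2.2.2.1 = (f (j, j)).2.2.2.2 := by simpa [Al] using this
  simp only [e, le_antisymm (s3 i j i hi hj hi) (s3 i i j hi hi hj),
    le_antisymm (s4 j i j hj hi hj) (s4 j j i hj hj hi)]
  exact (g i j hi hj).2.2

def A (J : ℕ) (b : ℕ → ℕ) (x : T) : Prop :=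
  x.1 = 0 ∨ (x.1 = J ∧ (x.2.2.2.1 < b x.2.1 ∨ (x.2.2.2.1 = b x.2.1 ∧ x.2.2.2.2 ≤ b x.2.2.1))) ∨
    (x.1 = 2 ∧ J = 3 ∧ (x.2.2.2.1 < b x.2.1 ∨ (x.2.2.2.1 = b x.2.1 ∧ x.2.2.2.2 < b x.2.2.1))) ∨
    (x.1 = 2 ∧ J = 4 ∧ (x.2.2.2.2 < b x.2.2.1 ∨ (x.2.2.2.2 = b x.2.2.1 ∧ x.2.2.2.1 < b x.2.1)))

theorem clo (hJ : J = 3 ∨ J = 4) {b : ℕ → ℕ} {x y : T} (e : R J n E x y ∨ R J n E y x)
    (hx : 2 ≤ x.1 → b x.2.1 < n ∧ b x.2.2.1 < n ∧ Al E x.2.1 x.2.2.1 (b x.2.1) (b x.2.2.1))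
    (hy : 2 ≤ y.1 → b y.2.1 < n ∧ b y.2.2.1 < n ∧ Al E y.2.1 y.2.2.1 (b y.2.1) (b y.2.2.1))
    (h : y ≠ (2, y.2.1, y.2.2.1, b y.2.1, b y.2.2.1)) (a : A J b x) : A J b y := by
  obtain ⟨τ, i, j, u, v⟩ := x
  obtain ⟨τ', i', j', u', v'⟩ := y
  rcases hJ with rfl | rfl <;> rcases e with e | e <;>
  · simp only [R, Z, A, Prod.mk.injEq, ne_eq, if_true, Nat.reduceEqDiff, if_false] at *
    rcases e with e | e | ⟨_, e | e | e | e | e⟩ <;> grind

theorem fwd (hJ : J = 3 ∨ J = 4) {b : ℕ → ℕ} (hb : ∀ i < k, b i < n ∧ ∀ j < k, Al E i j (b i) (b j))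
    (hS : ∀ i < k, ∀ j < k, (2, i, j, b i, b j) ∈ S) : ¬Rc J n k E S (1, 0, 0, 0, 0) := by
  have m : ∀ x ∈ vs n k, 2 ≤ x.1 → x.2.1 < k ∧ x.2.2.1 < k := by simp only [mem_vs]; grind
  have : ∀ y, Rc J n k E S y → y ∈ vs n k ∧ A J b y := fun y h => by
    induction h with
    | refl => exact ⟨mem_vs.2 (.inl rfl), .inl rfl⟩
    | @tail x y _ e ih =>
      refine ⟨e.2.1, clo hJ e.1 (fun c => ?_) (fun c => ?_) (fun c => e.2.2 ?_) ih.2⟩
      · have := m x ih.1 c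
        grind
      · have := m y e.2.1 c
        grind
      · have := m y e.2.1 (by rw [c])
        exact c ▸ hS _ this.1 _ this.2
  intro h
  have := (this _ h).2
  unfold A at this
  grind

theorem clique_iff (p : GK) : Clique p ↔
    ∃ b : ℕ → ℕ, ∀ i < p.2.2, b i < p.1 ∧ ∀ j < p.2.2, Al p.2.1 i j (b i) (b j) := by
  obtain ⟨n, E, k⟩ := p
  refine ⟨fun ⟨Q, h, c⟩ => ?_, fun ⟨b, h⟩ => ?_⟩
  · let e := Q.orderEmbOfFin c
    refine ⟨fun i => if hi : i < k then e ⟨i, hi⟩ else 0, fun i hi => ⟨by simp [hi], fun j hj => ?_⟩⟩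
    by_cases ij : i = j
    · simp [Al, ij]
    · have := graphOf_adj.1 (h (Q.orderEmbOfFin_mem c ⟨i, hi⟩) (Q.orderEmbOfFin_mem c ⟨j, hj⟩)
        (e.injective.ne (by simpa using ij)))
      simp only [hi, hj, dif_pos]
      exact .inr ⟨ij, Fin.val_ne_of_ne this.1, this.2⟩
  · let e : Fin k → Fin n := fun i => ⟨b i, (h i i.2).1⟩
    have a : ∀ i j, i ≠ j → (graphOf n E).Adj (e i) (e j) := fun i j ij => by
      have := ((h i i.2).2 j j.2).resolve_left fun c => ij (Fin.ext c.1)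
      exact graphOf_adj.2 ⟨Fin.ne_of_val_ne this.2.1, this.2.2⟩
    refine ⟨Finset.univ.image e, ?_, by
      rw [Finset.card_image_of_injective _ fun i j c => by_contra fun ij => (a i j ij).ne c]; simp⟩
    simp only [Finset.coe_image, Finset.coe_univ, Set.image_univ]
    rintro _ ⟨i, rfl⟩ _ ⟨j, rfl⟩ c
    exact a i j fun ij => c (congrArg e ij)

theorem typ {x y : T} (e : R J n E x y) : (x.1 = J ∧ (y.1 = 2 ∨ y.1 = J)) ∨ (y.1 = J ∧ x.1 ≤ 1) := by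
  unfold R Z at e
  rcases e with e | e | ⟨_, e | e | e | e | e⟩ <;> grind

theorem main : PReduces Clique kOf Valid DualSep par := by
  refine preduces_of_pt red pt_red (fun k => k * k) (comp_mul comp_id comp_id) ?_
  rintro ⟨n, E, k⟩
  have i := code_inj (nd n k)
  have l : 1 < (vs n k).length := by simp [vs]
  refine ⟨⟨Nat.zero_lt_of_lt l, l, Nat.zero_ne_one, disjoint_iff.2 (eq_bot_iff.2 fun u v h => ?_)⟩,
    (clique_iff _).trans ⟨fun ⟨b, hb⟩ => ?_, ?_⟩, le_rfl⟩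
  · have h1 := (GC_adj.1 ((RG_adj (nd n k)).1 h.1)).2
    have h2 := (GC_adj.1 ((RG_adj (nd n k)).1 h.2)).2
    simp only [r, decide_eq_true_eq] at h1 h2
    have := h1.imp typ typ
    have := h2.imp typ typ
    omega
  · let S : Finset (Fin (vs n k).length) := Finset.univ.filter fun x =>
      code _ x ∈ (Finset.range k ×ˢ Finset.range k).image fun p => (2, p.1, p.2, b p.1, b p.2)
    have hS : ∀ i < k, ∀ j < k, (2, i, j, b i, b j) ∈ S.image (code _) := fun i hi j hj => by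
      obtain ⟨x, hx⟩ := code_surj (mem_vs.2 (.inr (.inr ⟨.inl rfl, hi, hj, (hb i hi).1.le,
        (hb j hj).1.le⟩)) : ((2, i, j, b i, b j) : T) ∈ vs n k)
      exact Finset.mem_image.2 ⟨x, Finset.mem_filter.2 ⟨Finset.mem_univ _, Finset.mem_image.2
        ⟨(i, j), by simp [hi, hj], hx.symm⟩⟩, hx⟩
    have m : ∀ x ∈ S, (code _ x).1 = 2 := fun x hx => by
      obtain ⟨p, -, e⟩ := Finset.mem_image.1 (Finset.mem_filter.1 hx).2
      rw [← e]
    refine ⟨⟨0, Nat.zero_lt_of_lt l⟩, ⟨1, l⟩, S, fun h => absurd (m _ h) (by decide : 0 ≠ 2),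
      fun h => absurd (m _ h) (by decide : 1 ≠ 2), rfl, rfl, ?_, fun h => fwd (.inl rfl) hb hS ((rc_iff rfl).1 ((reach_iff _ _).1 h)),
      fun h => fwd (.inr rfl) hb hS ((rc_iff rfl).1 ((reach_iff _ _).1 h))⟩
    refine (Finset.card_le_card_of_injOn (code _) (fun x hx => (Finset.mem_filter.1 hx).2)
      i.injOn).trans (Finset.card_image_le.trans ?_)
    simp [red]
  · rintro ⟨⟨_, _⟩, ⟨_, _⟩, S, hs, ht, rfl, rfl, c, h3, h4⟩
    refine back (S := S.image (code _)) (Finset.card_image_le.trans c) (fun m => ht ?_)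
      (fun h => h3 ((reach_iff _ _).2 ((rc_iff rfl).2 h)))
      fun h => h4 ((reach_iff _ _).2 ((rc_iff rfl).2 h))
    obtain ⟨x, hx, e⟩ := Finset.mem_image.1 m
    exact i (a₂ := ⟨1, l⟩) e ▸ hx

end Pool.Agent.H36.Dual
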