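import Pool.Agent.H36.ParDefs

/-!
Dual separators for two terminals in edge-bicolored graphs.
-/

namespace Pool.Agent.H36.Dual

open Pool.Agent.H38.NP

/-- An input `(n, blue edges, red edges, s, t, k)` on the vertex set `{0, …, n - 1}`. -/
abbrev Inst := ℕ × List (ℕ × ℕ) × List (ℕ × ℕ) × ℕ × ℕ × ℕ

/-- The terminals are distinct vertices and no edge is both blue and red. -/
def Valid (a : Inst) : Prop :=
  a.2.2.2.1 < a.1 ∧ a.2.2.2.2.1 < a.1 ∧ a.2.2.2.1 ≠ a.2.2.2.2.1 ∧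
    Disjoint (graphOf a.1 a.2.1) (graphOf a.1 a.2.2.1)

/-- There is a set `S` of at most `k` vertices other than `s`, `t` such that `s` and `t` lie in
different components of the blue graph minus `S` and of the red graph minus `S`. -/
def DualSep (a : Inst) : Prop :=
  ∃ (s t : Fin a.1) (S : Finset (Fin a.1)) (hs : s ∉ S) (ht : t ∉ S),
    s.val = a.2.2.2.1 ∧ t.val = a.2.2.2.2.1 ∧ S.card ≤ a.2.2.2.2.2 ∧
    ¬((graphOf a.1 a.2.1).induce {v | v ∉ S}).Reachable ⟨s, hs⟩ ⟨t, ht⟩ ∧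
    ¬((graphOf a.1 a.2.2.1).induce {v | v ∉ S}).Reachable ⟨s, hs⟩ ⟨t, ht⟩

/-- the parameter `k` -/
def par (a : Inst) : ℕ := a.2.2.2.2.2

end Pool.Agent.H36.Dual
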