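import Pool.Agent.H36.EAddDefs
import Pool.Agent.H36.Gr

namespace Pool.Agent.H36.EAdd

open Pool.Agent.H38.NP Pool.Agent.H36.Gr Finset

section General

variable {V : Type} [Fintype V]

open Classical in
theorem sum_split (M : Finset (Sym2 V)) (hM : ∀ e ∈ M, ∀ f ∈ M, ∀ v, v ∈ e → v ∈ f → e = f)
    (y : V → ℝ) : ∑ v, y v = ∑ e ∈ M, ∑ v ∈ univ.filter (· ∈ e), y v +
      ∑ v ∈ univ.filter (fun v => ∀ e ∈ M, v ∉ e), y v := by
  rw [← sum_biUnion, ← sum_union]
  · refine sum_congr ?_ fun _ _ => rfl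
    ext v
    simp only [mem_univ, mem_union, mem_biUnion, mem_filter, true_and, true_iff]
    by_contra h
    push Not at h
    obtain ⟨e, he, hv⟩ := h.2
    exact h.1 e he hv
  · rw [disjoint_left]
    intro v hv hv'
    simp only [mem_biUnion, mem_filter, mem_univ, true_and] at hv hv'
    obtain ⟨e, he, hv⟩ := hv
    exact hv' e he hv
  · intro e he f hf hne
    simp only [Function.onFun, disjoint_left, mem_filter, mem_univ, true_and]
    exact fun v h h' => hne (hM e he f hf v h h')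

open Classical in
theorem sum_edge (y : V → ℝ) {u v : V} (h : u ≠ v) :
    ∑ x ∈ univ.filter (· ∈ s(u, v)), y x = y u + y v := by
  rw [← sum_pair h]
  refine sum_congr ?_ fun _ _ => rfl
  ext x; simp

open Classical in
theorem edge_le (G : SimpleGraph V) (w : Sym2 V → ℝ) (y : V → ℝ)
    (hy : ∀ u v, G.Adj u v → w s(u, v) ≤ y u + y v) (e : Sym2 V) (he : e ∈ G.edgeSet) :
    w e ≤ ∑ v ∈ univ.filter (· ∈ e), y v := by
  induction e using Sym2.ind with
  | _ u v => rw [sum_edge y (G.ne_of_adj he)]; exact hy u v he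

theorem weak (G : SimpleGraph V) (w : Sym2 V → ℝ) (M : Finset (Sym2 V))
    (h1 : ∀ e ∈ M, e ∈ G.edgeSet) (hM : ∀ e ∈ M, ∀ f ∈ M, ∀ v, v ∈ e → v ∈ f → e = f)
    (y : V → ℝ) (h0 : ∀ v, 0 ≤ y v) (hy : ∀ u v, G.Adj u v → w s(u, v) ≤ y u + y v) :
    ∑ e ∈ M, w e ≤ ∑ v, y v := by
  classical
  rw [sum_split M hM y]
  have := sum_le_sum fun e he => edge_le G w y hy e (h1 e he)
  have h2 : 0 ≤ ∑ v ∈ univ.filter (fun v => ∀ e ∈ M, v ∉ e), y v := sum_nonneg fun v _ => h0 v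
  linarith

theorem sound (G : SimpleGraph V) (w : Sym2 V → ℝ) (h : Stable G w) :
    ∃ (y : V → ℝ) (Mt : V → V → Prop), (∀ u v, Mt u v → Mt v u) ∧
      (∀ u v v', Mt u v → Mt u v' → v = v') ∧ (∀ u v, Mt u v → G.Adj u v) ∧ (∀ v, 0 ≤ y v) ∧
      (∀ u v, G.Adj u v → w s(u, v) ≤ y u + y v) ∧ (∀ u v, Mt u v → y u + y v < w s(u, v) + 1) ∧
      ∀ v, (∃ u, Mt v u) ∨ y v < 1 := by
  classical
  have hfin : {t | ∃ M : Finset (Sym2 V), (∀ e ∈ M, e ∈ G.edgeSet) ∧
      (∀ e ∈ M, ∀ f ∈ M, ∀ v, v ∈ e → v ∈ f → e = f) ∧ t = ∑ e ∈ M, w e}.Finite :=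
    (Set.finite_range fun M : Finset (Sym2 V) => ∑ e ∈ M, w e).subset
      (by rintro t ⟨M, -, -, rfl⟩; exact ⟨M, rfl⟩)
  obtain ⟨M, h1, hM, hν⟩ := Set.Nonempty.csSup_mem
    (⟨0, ∅, by simp, by simp, by simp⟩ : Set.Nonempty {t | ∃ M : Finset (Sym2 V),
      (∀ e ∈ M, e ∈ G.edgeSet) ∧ (∀ e ∈ M, ∀ f ∈ M, ∀ v, v ∈ e → v ∈ f → e = f) ∧
      t = ∑ e ∈ M, w e}) hfin
  have hne : {t | ∃ y : V → ℝ, (∀ v, 0 ≤ y v) ∧ (∀ u v, G.Adj u v → w s(u, v) ≤ y u + y v) ∧
      t = ∑ v, y v}.Nonempty := by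
    refine ⟨_, fun _ => ∑ e, |w e|, fun _ => sum_nonneg fun _ _ => abs_nonneg _,
      fun u v _ => ?_, rfl⟩
    have h1 := single_le_sum (f := fun e => |w e|) (fun _ _ => abs_nonneg _) (mem_univ s(u, v))
    have h2 := le_abs_self (w s(u, v))
    have h3 := abs_nonneg (w s(u, v))
    linarith
  obtain ⟨_, ⟨y, h0, hy, rfl⟩, hlt⟩ := exists_lt_of_csInf_lt hne
    (show tauF G w < tauF G w + 1 by linarith)
  have hν' : tauF G w = ∑ e ∈ M, w e := h.symm.trans hν
  rw [hν', sum_split M hM y] at hlt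
  have hsum := sum_le_sum fun e he => edge_le G w y hy e (h1 e he)
  have h2 : 0 ≤ ∑ v ∈ univ.filter (fun v => ∀ e ∈ M, v ∉ e), y v := sum_nonneg fun v _ => h0 v
  refine ⟨y, fun u v => s(u, v) ∈ M, fun u v h => by simpa only [Sym2.eq_swap (a := v)] using h, fun u v v' h h' => ?_,
    fun u v h => h1 _ h, h0, hy, fun u v h => ?_, fun v => ?_⟩
  · exact Sym2.congr_right.1 (hM _ h _ h' u (by simp) (by simp))
  · have h3 := single_le_sum (f := fun e => ∑ v ∈ univ.filter (· ∈ e), y v - w e)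
      (fun e he => sub_nonneg.2 (edge_le G w y hy e (h1 e he))) h
    rw [sum_sub_distrib] at h3
    simp only [sum_edge y (G.ne_of_adj (h1 _ h))] at h3
    linarith
  · by_cases hv : ∀ e ∈ M, v ∉ e
    · right
      have := single_le_sum (f := y) (s := univ.filter (fun v => ∀ e ∈ M, v ∉ e))
        (fun v _ => h0 v) (a := v) (by simpa using hv)
      linarith
    · left
      push Not at hv
      obtain ⟨e, he, hv⟩ := hv
      obtain ⟨u, rfl⟩ := Sym2.mem_iff_exists.1 hv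
      exact ⟨u, he⟩

theorem complete (G : SimpleGraph V) (w : Sym2 V → ℝ) (π : V → V) (hπ : ∀ v, π (π v) = v)
    (y : V → ℝ) (h0 : ∀ v, 0 ≤ y v) (hy : ∀ u v, G.Adj u v → w s(u, v) ≤ y u + y v)
    (h1 : ∀ v, π v = v → y v = 0) (h2 : ∀ v, π v ≠ v → y v + y (π v) = w s(v, π v))
    (T : Finset V) (hT : ∀ v, π v ≠ v → ¬ G.Adj v (π v) → v ∈ T ∨ π v ∈ T) :
    ∃ F, IsStabilizer G w F ∧ F.card ≤ T.card := by
  classical
  let F := (T.filter fun v => π v ≠ v ∧ ¬ G.Adj v (π v)).image fun v => s(v, π v)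
  have hF : ∀ e, e ∈ F ↔ ∃ v, π v ≠ v ∧ ¬ G.Adj v (π v) ∧ s(v, π v) = e := by
    intro e
    simp only [F, mem_image, mem_filter]
    constructor
    · rintro ⟨v, ⟨-, h, h'⟩, rfl⟩; exact ⟨v, h, h', rfl⟩
    · rintro ⟨v, h, h', rfl⟩
      rcases hT v h h' with hv | hv
      · exact ⟨v, ⟨hv, h, h'⟩, rfl⟩
      · exact ⟨π v, ⟨hv, by rw [hπ]; exact h.symm, by rw [hπ]; exact fun e => h' e.symm⟩,
          by rw [hπ, Sym2.eq_swap]⟩
  refine ⟨F, ⟨fun e he => ?_, ?_⟩, card_image_le.trans (card_filter_le _ _)⟩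
  · obtain ⟨v, h, h', rfl⟩ := (hF e).1 he
    exact ⟨by simpa using h.symm, h'⟩
  set H := G ⊔ SimpleGraph.fromEdgeSet F with hH
  let M := (univ.filter fun v => π v ≠ v).image fun v => s(v, π v)
  have hM0 : ∀ e ∈ M, ∀ x ∈ e, e = s(x, π x) ∧ π x ≠ x := by
    intro e he x hx
    obtain ⟨v, hv, rfl⟩ := mem_image.1 he
    have hv' := (mem_filter.1 hv).2
    rcases Sym2.mem_iff.1 hx with rfl | rfl
    · exact ⟨rfl, hv'⟩
    · exact ⟨by rw [hπ, Sym2.eq_swap], by rw [hπ]; exact hv'.symm⟩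
  have hM1 : ∀ e ∈ M, e ∈ H.edgeSet := by
    intro e he
    obtain ⟨v, hv, rfl⟩ := mem_image.1 he
    have hv' := (mem_filter.1 hv).2
    by_cases h : G.Adj v (π v)
    · exact Or.inl h
    · exact Or.inr ⟨(hF _).2 ⟨v, hv', h, rfl⟩, hv'.symm⟩
  have hM2 : ∀ e ∈ M, ∀ f ∈ M, ∀ v, v ∈ e → v ∈ f → e = f := fun e he f hf v h h' =>
    (hM0 e he v h).1.trans (hM0 f hf v h').1.symm
  have hyH : ∀ u v, H.Adj u v → w s(u, v) ≤ y u + y v := by
    rintro u v (h | ⟨h, hne⟩)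
    · exact hy u v h
    · obtain ⟨x, h, -, e⟩ := (hF _).1 h
      rw [← e, ← h2 x h, ← sum_edge y hne, ← e, sum_edge y h.symm]
  have heq : ∑ v, y v = ∑ e ∈ M, w e := by
    rw [sum_split M hM2 y, sum_eq_zero (s := univ.filter _), add_zero]
    · refine sum_congr rfl fun e he => ?_
      obtain ⟨v, hv, rfl⟩ := mem_image.1 he
      have hv' := (mem_filter.1 hv).2
      rw [sum_edge y hv'.symm, h2 v hv']
    · intro v hv
      refine h1 v (by_contra fun h => (mem_filter.1 hv).2 s(v, π v) ?_ (by simp))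
      exact mem_image.2 ⟨v, mem_filter.2 ⟨mem_univ _, h⟩, rfl⟩
  have e1 : nu H w = ∑ v, y v := by
    refine IsGreatest.csSup_eq ⟨⟨M, hM1, hM2, heq⟩, ?_⟩
    rintro _ ⟨M', h1, h2, rfl⟩
    exact weak H w M' h1 h2 y h0 hyH
  have e2 : tauF H w = ∑ v, y v := by
    refine IsLeast.csInf_eq ⟨⟨y, h0, hyH, rfl⟩, ?_⟩
    rintro _ ⟨y', h1, h2, rfl⟩
    rw [heq]
    exact weak H w M hM1 hM2 y' h1 h2
  exact e1.trans e2.symm

end General

abbrev Cd := ℕ × ℕ

/-- 0 clause, 1 2 its triangle, 3 escape; 4 occurrence, 5 partner, 6 7 its triangle, 8 spare -/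
def vs (m : ℕ) : List Cd :=
  ((List.range m).flatMap fun i => [(0, i), (1, i), (2, i), (3, i)]) ++
  ((List.range (3 * m)).flatMap fun i => [(4, i), (5, i), (6, i), (7, i), (8, i)])

def tri (a b : Cd) : Bool :=
  decide (a.2 = b.2) && (decide ((a.1, b.1) ∈ [(0, 1), (0, 2), (1, 2), (5, 6), (5, 7), (6, 7)]))

def ten (φ : F3) (a b : Cd) : Bool :=
  (decide (a.1 = 0) && decide (b.1 = 4) && decide (b.2 / 3 = a.2)) ||
  (decide (a.1 = 4) && decide (b.1 = 4) && conf φ a.2 b.2)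

def adj (φ : F3) (a b : Cd) : Bool := tri a b || ten φ a b

def new (a b : Cd) : ℕ :=
  if a.2 = b.2 ∧ a.1 = 4 ∧ b.1 = 5 then 20
  else if a.2 = b.2 ∧ (a.1, b.1) ∈ [(0, 3), (5, 8)] then 10 else 1

def wt (φ : F3) (a b : Cd) : ℕ :=
  if tri a b || tri b a then 20 else if ten φ a b || ten φ b a then 10 else max (new a b) (new b a)

theorem wt_symm (φ : F3) (a b : Cd) : wt φ a b = wt φ b a := by
  simp only [wt, Bool.or_comm (tri a b), Bool.or_comm (ten φ a b), max_comm (new a b)]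

def wmat (φ : F3) : List (List ℕ) :=
  (vs φ.length).map fun a => (vs φ.length).map fun b => wt φ a b

theorem mem_vs {m : ℕ} {a : Cd} : a ∈ vs m ↔
    (a.1 ≤ 3 ∧ a.2 < m) ∨ (4 ≤ a.1 ∧ a.1 ≤ 8 ∧ a.2 < 3 * m) := by
  obtain ⟨t, i⟩ := a
  simp only [vs, List.mem_append, List.mem_flatMap, List.mem_range, List.mem_cons, Prod.mk.injEq,
    List.not_mem_nil, or_false]
  constructor
  · rintro (⟨u', h, h'⟩ | ⟨u', h, h'⟩) <;> omega
  · rintro (h | h)
    · exact Or.inl ⟨i, by omega, by omega⟩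
    · exact Or.inr ⟨i, by omega, by omega⟩

theorem nodup_vs (m : ℕ) : (vs m).Nodup := by
  refine List.nodup_append.2 ⟨?_, ?_, ?_⟩
  · refine List.nodup_flatMap.2 ⟨fun u _ => by simp, ?_⟩
    refine List.nodup_range.pairwise_of_forall_ne fun u _ v _ hne => ?_
    simp only [Function.onFun, List.disjoint_left, List.mem_cons, List.not_mem_nil, or_false]
    rintro ⟨t, w⟩
    simp only [Prod.mk.injEq]
    omega
  · refine List.nodup_flatMap.2 ⟨fun u _ => by simp, ?_⟩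
    refine List.nodup_range.pairwise_of_forall_ne fun u _ v _ hne => ?_
    simp only [Function.onFun, List.disjoint_left, List.mem_cons, List.not_mem_nil, or_false]
    rintro ⟨t, w⟩
    simp only [Prod.mk.injEq]
    omega
  · rintro ⟨t, i⟩ h ⟨t', i'⟩ h'
    simp only [List.mem_flatMap, List.mem_range, List.mem_cons, Prod.mk.injEq,
      List.not_mem_nil, or_false] at h h'
    obtain ⟨_, _, h⟩ := h
    obtain ⟨_, _, h'⟩ := h'
    simp only [ne_eq, Prod.mk.injEq]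
    omega

theorem wOf_wmat (φ : F3) (u v : Fin (vs φ.length).length) :
    wOf _ (wmat φ) s(u, v) = wt φ (code _ u) (code _ v) := by
  have key : ∀ u v : Fin (vs φ.length).length,
      ((wmat φ).getD u []).getD v 0 = wt φ (code _ u) (code _ v) := by
    intro u v
    simp [wmat, code_eq]
  simp only [wOf, Sym2.lift_mk]
  rcases le_total u.val v.val with h | h
  · rw [min_eq_left h, max_eq_right h, key]
  · rw [min_eq_right h, max_eq_left h, key, wt_symm]

theorem wt_range (φ : F3) (a b : Cd) : wt φ a b = 1 ∨ wt φ a b = 10 ∨ wt φ a b = 20 := by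
  unfold wt new
  split_ifs <;> simp

theorem apex {C : Type} (Y : C → ℝ) (Mt : C → C → Prop) (w : C → C → ℕ)
    (sym : ∀ u v, Mt u v → Mt v u) (fn : ∀ u v v', Mt u v → Mt u v' → v = v')
    (h0 : ∀ v, 0 ≤ Y v) (hs : ∀ u v, Mt u v → Y u + Y v < w u v + 1) {a b c : C}
    (hab : a ≠ b) (hac : a ≠ c) (hbc : b ≠ c)
    (ha : (∃ x, Mt a x) ∨ Y a < 1) (hb : (∃ x, Mt b x) ∨ Y b < 1) (hc : (∃ x, Mt c x) ∨ Y c < 1)
    (y1 : 20 ≤ Y a + Y b) (y2 : 20 ≤ Y a + Y c) (y3 : 20 ≤ Y b + Y c)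
    (w1 : w b a = 20) (w2 : w c a = 20) (w3 : w b c = 20)
    (nb : ∀ x, x = a ∨ x = c ∨ w b x = 1) (nc : ∀ x, x = a ∨ x = b ∨ w c x = 1) :
    9 < Y a ∧ ∃ x, Mt a x ∧ x ≠ b ∧ x ≠ c ∧ w a x ≠ 1 := by
  have lb : ¬ Mt b a → ¬ Mt b c → Y b < 2 := fun h1 h2 => by
    rcases hb with ⟨x, hx⟩ | hb
    · rcases nb x with rfl | rfl | h
      · exact (h1 hx).elim
      · exact (h2 hx).elim
      · have := hs _ _ hx; have := h0 x; rw [h] at *; push_cast at *; linarith
    · linarith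
  have lc : ¬ Mt c a → ¬ Mt c b → Y c < 2 := fun h1 h2 => by
    rcases hc with ⟨x, hx⟩ | hc
    · rcases nc x with rfl | rfl | h
      · exact (h1 hx).elim
      · exact (h2 hx).elim
      · have := hs _ _ hx; have := h0 x; rw [h] at *; push_cast at *; linarith
    · linarith
  have hm : Mt b c := by
    by_contra h
    have h' : ¬ Mt c b := fun e => h (sym _ _ e)
    by_cases h1 : Mt b a
    · have := lc (fun e => hbc (fn _ _ _ (sym _ _ h1) (sym _ _ e))) h'
      have := hs _ _ h1; rw [w1] at this; push_cast at this; linarith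
    · have := lb h1 h
      by_cases h2 : Mt c a
      · have := hs _ _ h2; rw [w2] at this; push_cast at this; linarith
      · have := lc h2 h'; linarith
  have h9 : 9 < Y a := by have := hs _ _ hm; rw [w3] at this; push_cast at this; linarith
  refine ⟨h9, ?_⟩
  rcases ha with ⟨x, hx⟩ | ha
  · refine ⟨x, hx, ?_, ?_, fun h => ?_⟩
    · rintro rfl; exact hac (fn _ _ _ (sym _ _ hx) hm)
    · rintro rfl; exact hab (fn _ _ _ (sym _ _ hx) (sym _ _ hm))
    · have := hs _ _ hx; have := h0 x; rw [h] at *; push_cast at *; linarith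
  · linarith

theorem wt_leaf (φ : F3) (t i : ℕ) (x : Cd) (ht : t = 1 ∨ t = 2 ∨ t = 6 ∨ t = 7) :
    (x.2 = i ∧ x.1 ≠ t ∧ (t ≤ 2 ∧ x.1 ≤ 2 ∨ 5 ≤ t ∧ 5 ≤ x.1 ∧ x.1 ≤ 7)) ∨ wt φ (t, i) x = 1 := by
  obtain ⟨s, j⟩ := x
  by_cases h : j = i
  · subst h
    by_cases hs : s ≤ 8
    · rcases ht with rfl | rfl | rfl | rfl <;> interval_cases s <;> simp [wt, tri, ten, new]
    · have : ∀ k ≤ 8, s ≠ k := fun k hk => by omega
      right
      rcases ht with rfl | rfl | rfl | rfl <;> simp [wt, tri, ten, new, this]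
  · right
    rcases ht with rfl | rfl | rfl | rfl <;> simp [wt, tri, ten, new, h, Ne.symm h]

theorem wt_clause (φ : F3) (i : ℕ) (x : Cd) (h : wt φ (0, i) x ≠ 1) (h1 : x ≠ (1, i))
    (h2 : x ≠ (2, i)) : wt φ (0, i) x = 10 ∧ (x = (3, i) ∨ (x.1 = 4 ∧ x.2 / 3 = i)) := by
  obtain ⟨s, j⟩ := x
  revert h h1 h2
  by_cases hs : s ≤ 8
  · by_cases h : j = i
    · subst h
      by_cases h' : j / 3 = j <;> interval_cases s <;> simp [wt, tri, ten, new, h']
    · by_cases h' : j / 3 = i <;> interval_cases s <;>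
        simp [wt, tri, ten, new, h', h, Ne.symm h]
  · have : ∀ k ≤ 8, s ≠ k := fun k hk => by omega
    simp [wt, tri, ten, new, this]

theorem wt_partner (φ : F3) (i : ℕ) (x : Cd) (h : wt φ (5, i) x ≠ 1) (h1 : x ≠ (6, i))
    (h2 : x ≠ (7, i)) : x = (4, i) ∨ x = (8, i) := by
  obtain ⟨s, j⟩ := x
  revert h h1 h2
  by_cases hs : s ≤ 8
  · by_cases h : j = i
    · subst h
      interval_cases s <;> simp [wt, tri, ten, new]
    · interval_cases s <;> simp [wt, tri, ten, new, h, Ne.symm h]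
  · have : ∀ k ≤ 8, s ≠ k := fun k hk => by omega
    simp [wt, tri, ten, new, this]

theorem core (φ : F3) (Y : Cd → ℝ) (Mt Fe : Cd → Cd → Prop)
    (sym : ∀ u v, Mt u v → Mt v u) (fn : ∀ u v v', Mt u v → Mt u v' → v = v')
    (hM : ∀ a b, Mt a b → (GC (adj φ)).Adj a b ∨ Fe a b) (h0 : ∀ v, 0 ≤ Y v)
    (hy : ∀ a ∈ vs φ.length, ∀ b ∈ vs φ.length, (GC (adj φ)).Adj a b → wt φ a b ≤ Y a + Y b)
    (hs : ∀ u v, Mt u v → Y u + Y v < wt φ u v + 1)
    (hu : ∀ a ∈ vs φ.length, (∃ x, Mt a x) ∨ Y a < 1) :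
    (∀ i < 3 * φ.length, Fe (5, i) (4, i) ∨ Fe (5, i) (8, i)) ∧
      (Sat3 φ ∨ ∃ c < φ.length, Fe (0, c) (3, c)) := by
  have ap : ∀ t i, (t = 0 ∧ i < φ.length) ∨ (t = 5 ∧ i < 3 * φ.length) →
      9 < Y (t, i) ∧ ∃ x, Mt (t, i) x ∧ x ≠ (t + 1, i) ∧ x ≠ (t + 2, i) ∧ wt φ (t, i) x ≠ 1 := by
    intro t i h
    have m0 : (t, i) ∈ vs φ.length := mem_vs.2 (by simp only; omega)
    have m1 : (t + 1, i) ∈ vs φ.length := mem_vs.2 (by simp only; omega)
    have m2 : (t + 2, i) ∈ vs φ.length := mem_vs.2 (by simp only; omega)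
    have ht : t = 0 ∨ t = 5 := by omega
    refine apex Y Mt (wt φ) sym fn h0 hs (by simp) (by simp) (by simp) (hu _ m0) (hu _ m1)
      (hu _ m2) ?_ ?_ ?_ ?_ ?_ ?_ (fun x => ?_) (fun x => ?_)
    · have := hy _ m0 _ m1 (by rcases ht with rfl | rfl <;> simp [GC_adj, adj, tri])
      rcases ht with rfl | rfl <;> simpa [wt, tri] using this
    · have := hy _ m0 _ m2 (by rcases ht with rfl | rfl <;> simp [GC_adj, adj, tri])
      rcases ht with rfl | rfl <;> simpa [wt, tri] using this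
    · have := hy _ m1 _ m2 (by rcases ht with rfl | rfl <;> simp [GC_adj, adj, tri])
      rcases ht with rfl | rfl <;> simpa [wt, tri] using this
    · rcases ht with rfl | rfl <;> simp [wt, tri]
    · rcases ht with rfl | rfl <;> simp [wt, tri]
    · rcases ht with rfl | rfl <;> simp [wt, tri]
    · have := wt_leaf φ (t + 1) i x (by omega)
      obtain ⟨s, j⟩ := x
      simp only [Prod.mk.injEq, ite_self] at this ⊢
      omega
    · have := wt_leaf φ (t + 2) i x (by omega)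
      obtain ⟨s, j⟩ := x
      simp only [Prod.mk.injEq, ite_self] at this ⊢
      omega
  refine ⟨fun i hi => ?_, ?_⟩
  · obtain ⟨-, x, hx, h1, h2, h3⟩ := ap 5 i (Or.inr ⟨rfl, hi⟩)
    rcases wt_partner φ i x h3 h1 h2 with rfl | rfl
    · exact Or.inl ((hM _ _ hx).resolve_left (by simp [GC_adj, adj, tri, ten]))
    · exact Or.inr ((hM _ _ hx).resolve_left (by simp [GC_adj, adj, tri, ten]))
  · by_contra hno
    push Not at hno
    have : ∀ c < φ.length, ∃ u, u / 3 = c ∧ Y (4, u) < 2 := by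
      intro c hc
      obtain ⟨h9, x, hx, h1, h2, h3⟩ := ap 0 c (Or.inl ⟨rfl, hc⟩)
      obtain ⟨h4, rfl | ⟨h5, h6⟩⟩ := wt_clause φ c x h3 h1 h2
      · exact (hno.2 c hc ((hM _ _ hx).resolve_left (by simp [GC_adj, adj, tri, ten]))).elim
      · obtain ⟨s, u⟩ := x
        obtain rfl : s = 4 := h5
        have := hs _ _ hx
        rw [h4] at this; push_cast at this
        exact ⟨u, h6, by linarith⟩
    choose! s h1 h2 using this
    refine hno.1 ((sat3_iff_sel φ).2 ⟨s, h1, fun c hc d hd => ?_⟩)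
    by_contra h
    have h' : conf φ (s c) (s d) = true := by simpa using h
    have hne : s c ≠ s d := fun e => by simp [e] at h'
    have := hy (4, s c) (mem_vs.2 (by have := h1 c hc; simp only; omega))
      (4, s d) (mem_vs.2 (by have := h1 d hd; simp only; omega))
      (by simp [GC_adj, adj, ten, h', hne])
    have e : wt φ (4, s c) (4, s d) = 10 := by simp [wt, tri, ten, h']
    rw [e] at this; push_cast at this
    have := h2 c hc; have := h2 d hd
    linarith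

/-- partner map: `ch u` says that occurrence `u` is chosen, `es c` that clause `c` escapes -/
def pi (s : ℕ → ℕ) (es : Prop) [Decidable es] (a : Cd) : Cd :=
  if a.1 = 0 then (if es then (3, a.2) else (4, s a.2))
  else if a.1 = 1 then (2, a.2) else if a.1 = 2 then (1, a.2)
  else if a.1 = 3 then (if es then (0, a.2) else a)
  else if a.1 = 4 then (if ¬ es ∧ s (a.2 / 3) = a.2 then (0, a.2 / 3) else (5, a.2))
  else if a.1 = 5 then (if ¬ es ∧ s (a.2 / 3) = a.2 then (8, a.2) else (4, a.2))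
  else if a.1 = 6 then (7, a.2) else if a.1 = 7 then (6, a.2)
  else if a.1 = 8 ∧ ¬ es ∧ s (a.2 / 3) = a.2 then (5, a.2) else a

def yv (s : ℕ → ℕ) (es : Prop) [Decidable es] (a : Cd) : ℕ :=
  if a.1 = 3 ∨ a.1 = 8 ∨ (a.1 = 4 ∧ ¬ es ∧ s (a.2 / 3) = a.2) then 0 else 10

theorem cover_aux (φ : F3) (s : ℕ → ℕ) (es : Prop) [Decidable es]
    (h2 : ¬ es → ∀ c < φ.length, ∀ d < φ.length, conf φ (s c) (s d) = false) (a b : Cd)
    (ha : a ∈ vs φ.length) (hb : b ∈ vs φ.length) (h : adj φ a b = true) :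
    wt φ a b ≤ yv s es a + yv s es b := by
  obtain ⟨t, i⟩ := a
  obtain ⟨t', i'⟩ := b
  rw [mem_vs] at ha hb
  simp only [adj, tri, ten, Bool.or_eq_true, Bool.and_eq_true, decide_eq_true_eq, List.mem_cons,
    Prod.mk.injEq, List.not_mem_nil, or_false] at h ha hb
  rcases h with ⟨rfl, h⟩ | ⟨⟨rfl, rfl⟩, h⟩ | ⟨⟨rfl, rfl⟩, h⟩
  · rcases h with ⟨rfl, rfl⟩ | ⟨rfl, rfl⟩ | ⟨rfl, rfl⟩ | ⟨rfl, rfl⟩ | ⟨rfl, rfl⟩ | ⟨rfl, rfl⟩ <;>
      simp [wt, tri, yv]
  · simp [wt, tri, ten, yv, h]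
  · have e : wt φ (4, i) (4, i') = 10 := by simp [wt, tri, ten, h]
    rw [e]
    by_cases k : ¬ es ∧ s (i / 3) = i
    · by_cases k' : s (i' / 3) = i'
      · have := h2 k.1 (i / 3) (by omega) (i' / 3) (by omega)
        rw [k.2, k', h] at this; simp at this
      · simp [yv, k']
    · simp only [yv, k]; simp

theorem pi_mem (φ : F3) (s : ℕ → ℕ) (es : Prop) [Decidable es] (h1 : ∀ c < φ.length, s c / 3 = c) :
    ∀ a ∈ vs φ.length, pi s es a ∈ vs φ.length := by
  rintro ⟨t, i⟩ ha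
  rw [mem_vs] at ha ⊢
  have := h1 i
  simp only at ha
  have ht : t ≤ 8 := by omega
  by_cases he : es <;> by_cases hc : s (i / 3) = i <;> interval_cases t <;>
    simp [pi, he, hc] <;> omega

theorem pi_facts (φ : F3) (s : ℕ → ℕ) (es : Prop) [Decidable es] (h1 : ∀ c < φ.length, s c / 3 = c) :
    ∀ a ∈ vs φ.length, pi s es (pi s es a) = a ∧ (pi s es a = a → yv s es a = 0) ∧
      (pi s es a ≠ a → yv s es a + yv s es (pi s es a) = wt φ a (pi s es a)) ∧
      (pi s es a ≠ a → ¬ (GC (adj φ)).Adj a (pi s es a) →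
        (a.1 = 5 ∨ (es ∧ a.1 = 3)) ∨ ((pi s es a).1 = 5 ∨ (es ∧ (pi s es a).1 = 3))) := by
  rintro ⟨t, i⟩ ha
  rw [mem_vs] at ha
  simp only at ha
  have ht : t ≤ 8 := by omega
  by_cases h0 : t = 0
  · subst h0
    have := h1 i (by omega)
    by_cases he : es <;> simp [pi, yv, he, this, wt, tri, ten, new, GC_adj, adj]
  by_cases he : es <;> by_cases hc : s (i / 3) = i <;> interval_cases t <;>
    simp [pi, yv, he, hc, wt, tri, ten, new, GC_adj, adj] at h0 ⊢

theorem build (φ : F3) (s : ℕ → ℕ) (es : Prop) [Decidable es]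
    (h1 : ∀ c < φ.length, s c / 3 = c)
    (h2 : ¬ es → ∀ c < φ.length, ∀ d < φ.length, conf φ (s c) (s d) = false) :
    ∃ F, IsStabilizer (RG (vs φ.length) (adj φ)) (wOf _ (wmat φ)) F ∧
      (¬ es → F.card ≤ 3 * φ.length) := by
  classical
  have nd := nodup_vs φ.length
  have hf := fun v => pi_facts φ s es h1 _ (code_mem (vs φ.length) v)
  let π : Fin (vs φ.length).length → Fin (vs φ.length).length := fun v =>
    ix nd (pi s es (code _ v)) (pi_mem φ s es h1 _ (code_mem _ v))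
  have hπ : ∀ v, code _ (π v) = pi s es (code _ v) := fun v => code_ix _ _ _
  have hne : ∀ v, π v ≠ v → pi s es (code _ v) ≠ code _ v :=
    fun v h e => h (code_inj nd (by rw [hπ, e]))
  let T : Finset (Fin (vs φ.length).length) :=
    univ.filter fun v => (code _ v).1 = 5 ∨ (es ∧ (code _ v).1 = 3)
  have hT : ∀ v, v ∈ T ↔ (code _ v).1 = 5 ∨ (es ∧ (code _ v).1 = 3) := fun v => by simp [T]
  obtain ⟨F, hF, hc⟩ := complete (RG (vs φ.length) (adj φ)) (wOf _ (wmat φ)) π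
    (fun v => code_inj nd (by rw [hπ, hπ, (hf v).1]))
    (fun v => (yv s es (code _ v) : ℕ)) (fun v => Nat.cast_nonneg _) (fun u v h => by
      rw [wOf_wmat]
      norm_cast
      rcases (GC_adj.1 ((RG_adj nd).1 h)).2 with h | h
      · exact cover_aux φ s es h2 _ _ (code_mem _ u) (code_mem _ v) h
      · rw [wt_symm, add_comm]
        exact cover_aux φ s es h2 _ _ (code_mem _ v) (code_mem _ u) h)
    (fun v h => by
      have h' := hπ v
      rw [h] at h'
      exact_mod_cast (hf v).2.1 h'.symm)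
    (fun v h => by
      rw [wOf_wmat, hπ]
      exact_mod_cast (hf v).2.2.1 (hne v h))
    T (fun v h h' => by
      rw [RG_adj nd, hπ] at h'
      rw [hT, hT, hπ]
      exact (hf v).2.2.2 (hne v h) h')
  refine ⟨F, hF, fun he => hc.trans ?_⟩
  rw [← card_range (3 * φ.length)]
  refine card_le_card_of_injOn (fun v => (code _ v).2) (fun v hv => ?_) fun u hu v hv e => ?_
  · have := mem_vs.1 (code_mem _ v)
    have := (hT v).1 hv
    simp only [he, false_and, or_false] at this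
    simp only [coe_range, Set.mem_Iio]; omega
  · have h1 := (hT u).1 hu
    have h2 := (hT v).1 hv
    simp only [he, false_and, or_false] at h1 h2
    exact code_inj nd (Prod.ext (h1.trans h2.symm) e)

theorem sat_of (φ : F3) (F) (hF : IsStabilizer (RG (vs φ.length) (adj φ)) (wOf _ (wmat φ)) F)
    (hc : F.card ≤ 3 * φ.length) : Sat3 φ := by
  classical
  have nd := nodup_vs φ.length
  obtain ⟨y, Mt, sym, fn, hadj, h0, hy, hs, hu⟩ := sound _ _ hF.2
  let Y : Cd → ℝ := fun a => if h : a ∈ vs φ.length then y (ix nd a h) else 0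
  have hY : ∀ v, Y (code _ v) = y v := fun v => by
    simp only [Y, code_mem, dif_pos, ix_code]
  obtain ⟨k1, k2⟩ := core φ Y (fun a b => ∃ u v, code _ u = a ∧ code _ v = b ∧ Mt u v)
    (fun a b => s(a, b) ∈ F.image (Sym2.map (code (vs φ.length))))
    (by rintro _ _ ⟨u, v, rfl, rfl, h⟩; exact ⟨v, u, rfl, rfl, sym _ _ h⟩)
    (by
      rintro _ _ _ ⟨u, v, rfl, rfl, h⟩ ⟨u', v', e, rfl, h'⟩
      obtain rfl := code_inj nd e
      rw [fn _ _ _ h h'])
    (by
      rintro _ _ ⟨u, v, rfl, rfl, h⟩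
      rcases hadj _ _ h with h | h
      · exact Or.inl ((RG_adj nd).1 h)
      · exact Or.inr (mem_image.2 ⟨_, h.1, rfl⟩))
    (fun a => by simp only [Y]; split_ifs; exacts [h0 _, le_rfl])
    (by
      intro a ha b hb h
      obtain ⟨u, rfl⟩ := code_surj ha
      obtain ⟨v, rfl⟩ := code_surj hb
      rw [hY, hY, ← wOf_wmat]
      exact hy u v (Or.inl ((RG_adj nd).2 h)))
    (by
      rintro _ _ ⟨u, v, rfl, rfl, h⟩
      rw [hY, hY, ← wOf_wmat]
      exact hs u v h)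
    (by
      intro a ha
      obtain ⟨u, rfl⟩ := code_surj ha
      rw [hY]
      exact (hu u).imp_left fun ⟨x, hx⟩ => ⟨_, u, x, rfl, rfl, hx⟩)
  refine k2.resolve_right ?_
  rintro ⟨c, -, hc'⟩
  have k3 : ∀ i < 3 * φ.length, ∃ t, (t = 4 ∨ t = 8) ∧
      s((5, i), (t, i)) ∈ F.image (Sym2.map (code (vs φ.length))) := fun i hi => by
    rcases k1 i hi with h | h
    exacts [⟨4, by simp, h⟩, ⟨8, by simp, h⟩]
  choose! t ht using k3
  have := card_le_card_of_injOn (s := range (3 * φ.length + 1))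
    (t := F.image (Sym2.map (code (vs φ.length))))
    (fun i => if i < 3 * φ.length then s((5, i), (t i, i)) else s((0, c), (3, c)))
    (fun i _ => by
      simp only
      split_ifs with h
      exacts [(ht i h).2, hc'])
    (fun i hi j hj e => by
      simp only [coe_range, Set.mem_Iio] at hi hj
      simp only at e
      split_ifs at e with h h' h'
      · simp at e; omega
      · simp at e
      · simp at e
      · omega)
  have h2 := this.trans card_image_le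
  rw [card_range] at h2
  omega

theorem hard : NPH
    (fun p : ℕ × List (ℕ × ℕ) × List (List ℕ) × ℕ =>
      (∀ e, wOf p.1 p.2.2.1 e ∈ ({1, 10, 20} : Set ℝ)) ∧
        ∃ F, IsStabilizer (graphOf p.1 p.2.1) (wOf p.1 p.2.2.1) F)
    (fun p => ∃ F, IsStabilizer (graphOf p.1 p.2.1) (wOf p.1 p.2.2.1) F ∧ F.card ≤ p.2.2.2) := by
  refine sat3_nph.reduce (fun φ => ((mkG (vs φ.length) (adj φ)).1, (mkG (vs φ.length) (adj φ)).2,
    wmat φ, 3 * φ.length)) ?_ fun φ _ => ⟨⟨fun e => ?_, ?_⟩, ?_, ?_⟩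
  · have : PT fun φ : F3 => mkG (vs φ.length) (adj φ) :=
      pt_mkG (by unfold vs; fun_prop) (by unfold adj tri ten; fun_prop)
    refine PT.mk this.fst (PT.mk this.snd (PT.mk ?_ (by fun_prop)))
    unfold wmat vs wt tri ten new
    fun_prop
  · induction e using Sym2.ind with
    | _ u v =>
      erw [wOf_wmat]
      rcases wt_range φ (code _ u) (code _ v) with h | h | h <;> simp [h]
  · obtain ⟨F, hF, -⟩ := build φ (fun c => 3 * c) True (fun c _ => by omega) (by simp)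
    exact ⟨F, hF⟩
  · intro hs
    obtain ⟨s, h1, h2⟩ := (sat3_iff_sel φ).1 hs
    obtain ⟨F, hF, h⟩ := build φ s False h1 fun _ => h2
    exact ⟨F, hF, h (by simp)⟩
  · rintro ⟨F, hF, h⟩
    exact sat_of φ F hF h

end Pool.Agent.H36.EAdd
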