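import Pool.Agent.H38.NP.Defs

namespace Pool.Agent.H36.EAdd

variable {V : Type} [Fintype V]

/-- maximum weight of a matching (a set of pairwise vertex-disjoint edges) -/
noncomputable def nu (G : SimpleGraph V) (w : Sym2 V → ℝ) : ℝ :=
  sSup {t | ∃ M : Finset (Sym2 V), (∀ e ∈ M, e ∈ G.edgeSet) ∧
    (∀ e ∈ M, ∀ f ∈ M, ∀ v, v ∈ e → v ∈ f → e = f) ∧ t = ∑ e ∈ M, w e}

/-- minimum value of a fractional `w`-vertex cover -/
noncomputable def tauF (G : SimpleGraph V) (w : Sym2 V → ℝ) : ℝ :=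
  sInf {t | ∃ y : V → ℝ, (∀ v, 0 ≤ y v) ∧ (∀ u v, G.Adj u v → w s(u, v) ≤ y u + y v) ∧
    t = ∑ v, y v}

/-- stable weighted graphs -/
def Stable (G : SimpleGraph V) (w : Sym2 V → ℝ) : Prop := nu G w = tauF G w

/-- `F` is a set of non-edges whose addition makes the weighted graph stable; `w` gives the
weights of all pairs (edges and non-edges) -/
def IsStabilizer (G : SimpleGraph V) (w : Sym2 V → ℝ) (F : Finset (Sym2 V)) : Prop :=
  (∀ e ∈ F, ¬ e.IsDiag ∧ e ∉ G.edgeSet) ∧ Stable (G ⊔ SimpleGraph.fromEdgeSet F) w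

/-- the weight of a pair, read from the upper triangle of an integer matrix -/
def wOf (n : ℕ) (W : List (List ℕ)) : Sym2 (Fin n) → ℝ :=
  Sym2.lift ⟨fun u v => ((W.getD (min u.val v.val) []).getD (max u.val v.val) 0 : ℕ),
    fun u v => by simp only [min_comm u.val, max_comm u.val]⟩

end Pool.Agent.H36.EAdd
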