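import Pool.Agent.H36.MajDefs
import Pool.Agent.H38.ER.Big

namespace Pool.Agent.H36.Maj

open Pool.Agent.H38.NP Pool.Agent.H38.ER Finset

def PM {V : Type} (f : V → ℤ) : Prop := ∀ v, f v = 1 ∨ f v = -1

section
variable {V : Type} [Fintype V] [DecidableEq V]

theorem sum_pm {f : V → ℤ} (h : PM f) :
    ∑ v, f v = 2 * (#{v | f v = 1} : ℤ) - Fintype.card V := by
  have : ∀ v, f v = 2 * (if f v = 1 then 1 else 0) - 1 := fun v => by
    rcases h v with e | e <;> simp [e]
  rw [sum_congr rfl fun v _ => this v, sum_sub_distrib, ← mul_sum]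
  simp

theorem move {f : V → ℤ} (h : PM f) (a : ℕ) (ha : a ≤ Fintype.card V) :
    ∃ g, PM g ∧ #{v | g v = 1} = a ∧ (#{v | f v = 1} ≤ a → ∀ v, f v ≤ g v) ∧
      (a ≤ #{v | f v = 1} → ∀ v, g v ≤ f v) := by
  obtain ⟨S, s1, s2, s3⟩ : ∃ S : Finset V, #S = a ∧ (#{v | f v = 1} ≤ a →
      univ.filter (fun v => f v = 1) ⊆ S) ∧
      (a ≤ #{v | f v = 1} → S ⊆ univ.filter (fun v => f v = 1)) := by
    rcases le_total a #{v | f v = 1} with c | c
    · obtain ⟨S, a1, a2⟩ := exists_subset_card_eq c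
      exact ⟨S, a2, fun d => (eq_of_subset_of_card_le a1 (by omega)).ge, fun _ => a1⟩
    · obtain ⟨S, a1, -, a2⟩ := exists_subsuperset_card_eq (subset_univ _) c ha
      exact ⟨S, a2, fun _ => a1, fun d => (eq_of_subset_of_card_le a1 (by omega)).ge⟩
  refine ⟨fun v => if v ∈ S then 1 else -1, fun v => by beta_reduce; split_ifs <;> simp,
    by simpa using s1, fun c v => ?_, fun c v => ?_⟩ <;> beta_reduce <;> split_ifs with d
  · rcases h v with e | e <;> omega
  · rcases h v with e | e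
    · exact absurd (s2 c (by simpa using e)) d
    · omega
  · have := s3 c d
    simp at this; omega
  · rcases h v with e | e <;> omega

end

def good (n a : ℕ) : ℕ := (if 2 * a ≤ n then a else 0) + (if 2 * a + 2 ≤ n then n - a else 0)

def gd {n : ℕ} (w : ℤ) (h : Fin n → ℤ) : ℕ := #{x | 1 + (∑ y, h y - h x) ≤ w}

theorem gd_ge {n : ℕ} {w : ℤ} {h : Fin n → ℤ} (e : ∑ y, h y ≤ w) : #{x | h x = 1} ≤ gd w h :=
  card_le_card fun x hx => by simp at hx ⊢; omega

theorem gd_eq {n : ℕ} {h : Fin n → ℤ} (p : PM h) : gd 0 h = good n #{x | h x = 1} := by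
  have e := sum_pm p
  rw [Fintype.card_fin] at e
  have l : #{x | h x = 1} ≤ n := (card_le_univ _).trans_eq (Fintype.card_fin n)
  unfold gd good
  split_ifs with c1 c2 c2
  · rw [filter_true_of_mem fun x _ => by rcases p x with a | a <;> omega]
    simp; omega
  · rw [Nat.add_zero]
    exact congrArg card (filter_congr fun x _ => by rcases p x with a | a <;> omega)
  · omega
  · exact card_eq_zero.2 (filter_false_of_mem fun x _ => by rcases p x with a | a <;> omega)

section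
variable {ι : Type} [Fintype ι] [DecidableEq ι] {n : ι → ℕ}

abbrev KK (n : ι → ℕ) := SimpleGraph.completeMultipartiteGraph fun i => Fin (n i)

theorem nb (f : (Σ i, Fin (n i)) → ℤ) (v : Σ i, Fin (n i))
    {_ : DecidablePred ((KK n).Adj v)} :
    ∑ u ∈ univ.filter ((KK n).Adj v), f u = ∑ u, f u - ∑ y, f ⟨v.1, y⟩ := by
  rw [sum_filter, Fintype.sum_sigma, Fintype.sum_sigma, ← sum_erase_eq_sub (mem_univ v.1),
    ← sum_erase (a := v.1) _ (by simp)]
  exact sum_congr rfl fun i hi => sum_congr rfl fun x _ => if_pos (by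
    simpa using (ne_of_mem_erase hi).symm)

theorem cnt (w : ℤ) (f : (Σ i, Fin (n i)) → ℤ) :
    #{v | 1 + (∑ y, f ⟨v.1, y⟩ - f v) ≤ w} = ∑ i, gd w fun x => f ⟨i, x⟩ := by
  simp only [gd, card_filter, Fintype.sum_sigma]

theorem mdf_iff {f : (Σ i, Fin (n i)) → ℤ} : MDF (KK n) f ↔
    PM f ∧ ∑ i, n i ≤ 2 * ∑ i, gd (∑ v, f v) fun x => f ⟨i, x⟩ := by
  rw [MDF, ← cnt, Fintype.card_sigma]
  simp only [Fintype.card_fin]
  refine and_congr_right fun _ => Iff.of_eq ?_
  congr 3
  refine filter_congr fun v _ => ?_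
  rw [nb]
  omega

theorem down {f : (Σ i, Fin (n i)) → ℤ} (p : PM f) (w : ℤ) (h0 : 0 ≤ w) (h1 : w ≤ ∑ v, f v)
    (h2 : (w + (∑ i, n i : ℕ)) % 2 = 0) (h3 : ∑ i, n i ≤ 2 * ∑ i, gd w fun x => f ⟨i, x⟩) :
    ∃ g, MDF (KK n) g ∧ ∑ v, g v = w := by
  have e := sum_pm p
  have l := card_le_univ ({v | f v = 1} : Finset _)
  have c : Fintype.card (Σ i, Fin (n i)) = ∑ i, n i := by simp
  obtain ⟨g, g1, g2, -, g3⟩ := move p ((w + (∑ i, n i : ℕ)) / 2).toNat (by omega)
  have e' := sum_pm g1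
  have s : ∑ v, g v = w := by omega
  refine ⟨g, mdf_iff.2 ⟨g1, h3.trans (Nat.mul_le_mul_left _ (sum_le_sum fun i _ =>
    card_le_card fun x hx => ?_))⟩, s⟩
  simp only [mem_filter, mem_univ, true_and, s, ← sum_erase_eq_sub (mem_univ x)] at hx ⊢
  exact le_trans (by gcongr; exact g3 (by omega) _) hx

theorem up {f : (Σ i, Fin (n i)) → ℤ} (h : MDF (KK n) f) (h1 : ∑ v, f v ≤ 0)
    (h2 : (∑ i, n i) % 2 = 0) : ∃ g, MDF (KK n) g ∧ ∑ v, g v = 0 := by
  have e := sum_pm h.1
  have c : Fintype.card (Σ i, Fin (n i)) = ∑ i, n i := by simp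
  obtain ⟨g, g1, g2, g3, -⟩ := move h.1 ((∑ i, n i) / 2) (by omega)
  have e' := sum_pm g1
  refine ⟨g, ⟨g1, h.2.trans (Nat.mul_le_mul_left _ (card_le_card fun x hx => ?_))⟩, by omega⟩
  simp only [mem_filter, mem_univ, true_and] at hx ⊢
  exact hx.trans (by gcongr <;> exact g3 (by omega) _)

theorem mk (a : ι → ℕ) (ha : ∀ i, a i ≤ n i) : ∃ f : (Σ i, Fin (n i)) → ℤ, PM f ∧
    ∀ i, #{x | f ⟨i, x⟩ = 1} = a i := by
  have : ∀ i, ∃ g : Fin (n i) → ℤ, PM g ∧ #{x | g x = 1} = a i := fun i =>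
    let ⟨g, g1, g2, _⟩ := move (f := fun _ : Fin (n i) => 1) (fun _ => Or.inl rfl) (a i)
      (by simpa using ha i)
    ⟨g, g1, g2⟩
  choose g g1 g2 using this
  exact ⟨fun v => g v.1 v.2, fun v => g1 _ _, g2⟩

theorem wt {f : (Σ i, Fin (n i)) → ℤ} (p : PM f) :
    ∑ v, f v = ∑ i, (2 * (#{x | f ⟨i, x⟩ = 1} : ℤ) - n i) := by
  rw [Fintype.sum_sigma]
  exact sum_congr rfl fun i _ => by
    simpa using sum_pm (f := fun x => f ⟨i, x⟩) fun x => p _

theorem easy : ∃ f, MDF (KK n) f ∧ ∑ v, f v ≤ 2 - ((∑ i, n i) % 2 : ℕ) := by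
  obtain ⟨f, p, hf⟩ := mk (n := n) (fun i => (n i + 1) / 2) fun i => by omega
  have e : ∀ i, ∑ y, f ⟨i, y⟩ = (n i % 2 : ℕ) := fun i => by
    have := sum_pm (f := fun x => f ⟨i, x⟩) fun x => p _
    rw [hf, Fintype.card_fin] at this
    omega
  have h0 : ∀ i ∈ univ, 0 ≤ ∑ y, f ⟨i, y⟩ := fun i _ => by rw [e]; omega
  have h1 := sum_nonneg h0
  have h2 : ∀ i, ∑ y, f ⟨i, y⟩ ≤ _ := fun i => single_le_sum h0 (mem_univ i)
  rw [← Fintype.sum_sigma] at h1 h2
  have h3 := sum_pm p
  have c : Fintype.card (Σ i, Fin (n i)) = ∑ i, n i := by simp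
  obtain ⟨g, g1, g2⟩ := down p (min (∑ v, f v) (2 - ((∑ i, n i) % 2 : ℕ))) (by omega) (by omega)
    (by omega) (by
      rw [mul_sum]
      refine sum_le_sum fun i _ => le_trans ?_ (Nat.mul_le_mul_left _ (gd_ge ?_))
      · rw [hf]; omega
      · have := h2 i
        have := e i
        omega)
  exact ⟨g, g1, by omega⟩

theorem zero_iff (h : (∑ i, n i) % 2 = 0) : (∃ f, MDF (KK n) f ∧ ∑ v, f v ≤ 1) ↔
    ∃ a : ι → ℕ, (∀ i, a i ≤ n i) ∧ 0 ≤ ∑ i, (2 * (a i : ℤ) - n i) ∧
      ∑ i, n i ≤ 2 * ∑ i, good (n i) (a i) := by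
  constructor
  · rintro ⟨f, h1, h2⟩
    have e := sum_pm h1.1
    have c : Fintype.card (Σ i, Fin (n i)) = ∑ i, n i := by simp
    obtain ⟨g, g1, g2⟩ := up h1 (by omega) h
    obtain ⟨p, g3⟩ := mdf_iff.1 g1
    refine ⟨fun i => #{x | g ⟨i, x⟩ = 1}, fun i => (card_le_univ _).trans_eq (Fintype.card_fin _),
      by rw [← wt p, g2], ?_⟩
    rwa [g2, sum_congr rfl fun i _ => gd_eq fun x => p _] at g3
  · rintro ⟨a, a1, a2, a3⟩
    obtain ⟨f, p, hf⟩ := mk a a1
    obtain ⟨g, g1, g2⟩ := down p 0 le_rfl (by simpa only [wt p, hf] using a2) (by omega) (by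
      rw [sum_congr rfl fun i _ => gd_eq fun x => p _]
      simpa only [hf] using a3)
    exact ⟨g, g1, by omega⟩

end

def ad (t x : ℤ) : ℤ := if t ≤ 0 then 0 else t + x

def tv : List Bin → ℕ → ℤ
  | [], j => if j = 0 then 1 else 0
  | x :: L, j => max (tv L (j - (x.val + 3))) (max (ad (tv L (j - (3 - x.val % 2)))
      (x.val - (x.val % 2 : ℕ))) (if 2 ≤ x.val then ad (tv L (j - (1 - x.val % 2))) (2 * x.val)
        else 0))

def Feas (L : List Bin) (j g : ℤ) : Prop :=
  ∃ a : Fin L.length → ℕ, (∀ i, a i ≤ (L.get i).val) ∧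
    j ≤ ∑ i, (2 * (a i : ℤ) - (L.get i).val) + 3 * L.length ∧
    g ≤ 2 * (∑ i, good (L.get i).val (a i) : ℕ)

theorem Feas.mono {L j g j' g'} (h : Feas L j g) (h1 : j' ≤ j) (h2 : g' ≤ g) : Feas L j' g' :=
  let ⟨a, a1, a2, a3⟩ := h; ⟨a, a1, h1.trans a2, h2.trans a3⟩

theorem feas_cons {x L j g} : Feas (x :: L) j g ↔
    ∃ a ≤ x.val, Feas L (j - (2 * a - x.val + 3)) (g - 2 * good x.val a) := by
  simp only [Feas, List.length_cons, Fin.exists_fin_succ_pi, Fin.forall_fin_succ,
    Fin.sum_univ_succ, Fin.cons_zero, Fin.cons_succ, List.get_cons_zero, List.get_cons_succ']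
  refine exists_congr fun a => ⟨fun ⟨b, h⟩ => ⟨h.1.1, b, h.1.2, by omega, by omega⟩,
    fun ⟨h, b, h'⟩ => ⟨b, ⟨h, h'.1⟩, by omega, by omega⟩⟩

theorem feas_iff (L : List Bin) : ∀ j g, Feas L j g ↔ 0 < tv L j.toNat ∧ g < tv L j.toNat := by
  induction L with
  | nil => intro j g; simp only [Feas, tv]; split_ifs <;> simp <;> omega
  | cons x L ih =>
    intro j g
    have e1 := ih (j - (x.val + 3)) g
    have e2 := ih (j - (3 - x.val % 2 : ℕ)) (g - (x.val - (x.val % 2 : ℕ)))
    have e3 := ih (j - (1 - x.val % 2 : ℕ)) (g - 2 * x.val)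
    rw [show (j - (x.val + 3)).toNat = j.toNat - (x.val + 3) by omega] at e1
    rw [Int.toNat_sub'] at e2 e3
    rw [feas_cons, tv, ad, ad]
    constructor
    · rintro ⟨a, a1, a2⟩
      by_cases c1 : 2 * a + 2 ≤ x.val
      · have := e3.1 (a2.mono (by omega) (by unfold good; split_ifs <;> omega))
        split_ifs <;> omega
      by_cases c2 : 2 * a ≤ x.val
      · have := e2.1 (a2.mono (by omega) (by unfold good; split_ifs <;> omega))
        split_ifs <;> omega
      · have := e1.1 (a2.mono (by omega) (by unfold good; split_ifs <;> omega))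
        split_ifs <;> omega
    · intro h
      by_cases c1 : Feas L (j - (x.val + 3)) g
      · exact ⟨x.val, le_rfl, c1.mono (by omega) (by omega)⟩
      by_cases c2 : Feas L (j - (3 - x.val % 2 : ℕ)) (g - (x.val - (x.val % 2 : ℕ)))
      · exact ⟨x.val / 2, by omega, c2.mono (by omega) (by unfold good; split_ifs <;> omega)⟩
      rw [e1] at c1
      rw [e2] at c2
      have : 2 ≤ x.val ∧ Feas L (j - (1 - x.val % 2 : ℕ)) (g - 2 * x.val) := by
        rw [e3]; split_ifs at h <;> omega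
      exact ⟨x.val / 2 - 1, by omega, this.2.mono (by omega)
        (by unfold good; split_ifs <;> omega)⟩

theorem tv_bd (L : List Bin) : ∀ j, (tv L j).natAbs < 2 ^ (sz L + 1) := by
  induction L with
  | nil => intro j; simp only [tv]; split_ifs <;> simp
  | cons x L ih =>
    intro j
    have h1 := lt_sz x
    have h3 : 2 ^ sz x ≤ 2 ^ (2 * sz x + sz L) := Nat.pow_le_pow_right (by omega) (by omega)
    have h4 : 2 ^ sz L ≤ 2 ^ (2 * sz x + sz L) := Nat.pow_le_pow_right (by omega) (by omega)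
    have a := ih (j - (x.val + 3))
    have b := ih (j - (3 - x.val % 2))
    have c := ih (j - (1 - x.val % 2))
    rw [sz_cons, show 2 * sz x + 1 + sz L + 1 = 2 * sz x + sz L + 1 + 1 by omega]
    rw [pow_succ] at a b c ⊢
    rw [pow_succ, tv, ad, ad]
    split_ifs <;> omega

variable {α : Type} [Enc α]

@[fun_prop] theorem pt_val {f : α → Bin} (hf : PT f) : PT fun a => ((f a).val : ℤ) :=
  (pt_diff hf (PT.const ⟨0⟩)).of_eq fun a => by simp

@[fun_prop] theorem pt_zle {f g : α → ℤ} (hf : PT f) (hg : PT g) :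
    PT fun a => decide (f a ≤ g a) :=
  (pt_sgn (pt_zsub hg hf)).fst.not.of_eq fun a => by
    by_cases h : f a ≤ g a <;> simp [h]; omega

@[fun_prop] theorem pt_zmax {f g : α → ℤ} (hf : PT f) (hg : PT g) : PT fun a => max (f a) (g a) :=
  (PT.ite (pt_zle hf hg) hg hf).of_eq fun a => (max_def _ _).symm

theorem pt_par {f : α → Bin} (hf : PT f) : PT fun a => (f a).val % 2 :=
  ((pt_bits hf).headD (PT.const false)).toNat.of_eq fun a => by
    rw [Nat.mod_two_of_bodd, Nat.bodd_eq_bits_head]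
    cases (f a).val.bits <;> rfl

theorem pt_min {f : α → Bin} {k : α → ℕ} (hf : PT f) (hk : PT k) :
    PT fun a => min (k a) (f a).val :=
  (PT.countP (f := fun a (t : ℕ) => decide ((t : ℤ) + 1 ≤ (f a).val)) (by fun_prop)
    hk.range).of_eq fun a => by
    induction k a with
    | zero => simp
    | succ k ih =>
      rw [List.range_succ, List.countP_append, ih, List.countP_singleton]
      split_ifs with h <;> simp at h <;> omega

def step (K : ℕ) (x : ℤ) (s r : ℕ) (T : List ℤ) : List ℤ :=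
  (List.range (K + 1)).map fun j => max (T.getD (j - (s + 3)) 0)
    (max (ad (T.getD (j - (3 - r)) 0) (x - r))
      (if 2 ≤ x then ad (T.getD (j - (1 - r)) 0) (2 * x) else 0))

theorem fold_eq (K : ℕ) (L : List Bin) :
    L.foldr (fun x T => step K x.val (min K x.val) (x.val % 2) T)
      ((List.range (K + 1)).map fun j => if j = 0 then 1 else 0) =
      (List.range (K + 1)).map (tv L) := by
  induction L with
  | nil => rfl
  | cons x L ih =>
    rw [List.foldr_cons, ih, step]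
    refine List.map_congr_left fun j hj => ?_
    rw [List.mem_range] at hj
    have e : ∀ i, ((List.range (K + 1)).map (tv L)).getD (j - i) 0 = tv L (j - i) := fun i => by
      simp [List.getD_eq_getElem?_getD, show j - i < K + 1 by omega]
    rw [e, e, e, tv, show j - (min K x.val + 3) = j - (x.val + 3) by omega]
    simp

theorem pt_tv : PT fun L : List Bin => tv L (3 * L.length) := by
  have s : PT fun q : ℕ × ℤ × ℕ × ℕ × List ℤ => step q.1 q.2.1 q.2.2.1 q.2.2.2.1 q.2.2.2.2 := by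
    unfold step ad; fun_prop
  have := PT.foldr (f := fun (L : List Bin) (x : Bin) T =>
      step (3 * L.length) x.val (min (3 * L.length) x.val) (x.val % 2) T)
    (s.comp (g := fun p : List Bin × Bin × List ℤ => (3 * p.1.length, (p.2.1.val : ℤ),
      min (3 * p.1.length) p.2.1.val, p.2.1.val % 2, p.2.2))
      (PT.mk (by fun_prop) (PT.mk (by fun_prop) (PT.mk (pt_min (by fun_prop) (by fun_prop))
        (PT.mk (pt_par (by fun_prop)) (by fun_prop)))))) PT.id'
    (init := fun L => (List.range (3 * L.length + 1)).map fun j => if j = 0 then (1 : ℤ) else 0)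
    (by fun_prop) (B := fun L => (3 * L.length + 1) * (2 * (sz L + 4) + 1))
    (PT.nat_pb (by fun_prop)) fun L k => by
      rw [fold_eq]
      refine (sz_le_of_forall (B := sz L + 4) fun z hz => ?_).trans (by simp)
      obtain ⟨j, -, rfl⟩ := List.mem_map.1 hz
      exact (sz_int_le (tv_bd _ j)).trans (by
        have := sz_le_of_sublist (List.drop_sublist k L); omega)
  refine (PT.getD (n := fun L : List Bin => 3 * L.length) this (by fun_prop)
    (PT.const 0)).of_eq fun L => ?_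
  rw [fold_eq]
  simp [List.getD_eq_getElem?_getD]

instance : Dec Bin := ⟨fun x => ⟨bval x.val⟩, pt_ofBits (PT.bval PT.id'), fun x => by
  simp [raw, enc, bval_bits]⟩

def tot (L : List Bin) : ℤ := (L.map fun x => (x.val : ℤ)).sum

theorem tot_eq (L : List Bin) : tot L = (∑ i, (L.get i).val : ℕ) := by
  rw [tot, ← List.sum_ofFn, Nat.cast_list_sum, List.map_ofFn]
  conv_lhs => rw [← List.ofFn_get L, List.map_ofFn]
  rfl

theorem inP : InPOn Valid Maj := by
  refine inPOn_of_pt (fun p : Inst => decide ((2 : ℤ) ≤ p.2.val) ||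
    decide ((Bin.mk (tot p.1).toNat).val % 2 = 1) || decide (tot p.1 + 1 ≤ tv p.1 (3 * p.1.length)))
    ?_ fun p hp => ?_
  · have a : PT fun p : Inst => tot p.1 := by unfold tot; fun_prop
    exact ((pt_zle (PT.const _) (by fun_prop)).or (PT.eq (pt_par (pt_pos a)) (PT.const _))).or
      (pt_zle (pt_zadd a (PT.const _)) (pt_tv.comp (by fun_prop)))
  simp only [Bool.or_eq_true, decide_eq_true_eq, tot_eq, Int.toNat_natCast]
  have := hp.2.2
  by_cases c : (2 : ℤ) ≤ p.2.val ∨ (∑ i, (p.1.get i).val) % 2 = 1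
  · refine iff_of_true ?_ (Or.inl c)
    obtain ⟨f, h1, h2⟩ := easy (n := fun i => (p.1.get i).val)
    exact ⟨f, h1, by omega⟩
  · rw [or_iff_right c, Maj, show (p.2.val : ℤ) = 1 by omega, zero_iff (by omega)]
    have := feas_iff p.1 (3 * p.1.length) (∑ i, (p.1.get i).val : ℕ)
    rw [show ((3 : ℤ) * p.1.length).toNat = 3 * p.1.length by omega] at this
    refine Iff.trans (exists_congr fun a => and_congr_right fun _ => ?_) (this.trans (by omega))
    omega

end Pool.Agent.H36.Maj
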