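import Pool.Agent.H36.ENCDefs
import Pool.Agent.H36.Maj
import Pool.Agent.H36.Sim
import Pool.Agent.Lead.Ham.Main

/-!
Recognising even-nearly conservative weights is coNP-complete.
-/

namespace Pool.Agent.H36.ENC

open Pool.Agent.H38.NP Pool.Agent.H38.ER Finset

abbrev Gi := ℕ × List (ℕ × ℕ)

def adj (p : Gi) (u v : ℕ) : Prop := (u, v) ∈ p.2 ∨ (v, u) ∈ p.2

instance (p : Gi) (u v : ℕ) : Decidable (adj p u v) := by unfold adj; infer_instance

def HF (p : Gi) : Prop := ∃ h : ℕ → ℕ, h 0 = 0 ∧ (∀ i < p.1, h i < p.1) ∧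
  (∀ i < p.1, ∀ j < p.1, h i = h j → i = j) ∧ ∀ i < p.1, adj p (h i) (h ((i + 1) % p.1))

theorem rot_inj {L j i k : ℕ} (hi : i < L) (hk : k < L) (e : (j + i) % L = (j + k) % L) : i = k :=
  Nat.ModEq.eq_of_lt_of_lt (Nat.ModEq.add_left_cancel' j e) hi hk

theorem rot_succ (L j i : ℕ) : (j + (i + 1) % L) % L = ((j + i) % L + 1) % L := by
  simp [Nat.add_assoc]

theorem ham_hf (p : Gi) (hn : 2 < p.1) : (graphOf p.1 p.2).IsHamiltonian ↔ HF p := by
  rw [Lead.Ham.ham_iff, or_iff_right (by omega), and_iff_right hn]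
  have m : ∀ i, i % p.1 < p.1 := fun i => Nat.mod_lt _ (by omega)
  constructor
  · rintro ⟨f⟩
    obtain ⟨j, hj⟩ := Finite.injective_iff_surjective.1 f.injective ⟨0, by omega⟩
    refine ⟨fun i => f ⟨_, m (j + i)⟩, ?_, fun i _ => (f _).2, fun i hi k hk e =>
      rot_inj hi hk (congrArg Fin.val (f.injective (Fin.ext e))), fun i _ => ?_⟩
    · have : (⟨(j + 0) % p.1, m _⟩ : Fin p.1) = j := Fin.ext (Nat.mod_eq_of_lt j.2)
      simp only [this]
      exact congrArg Fin.val hj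
    · exact (graphOf_adj.1 (f.toHom.map_adj ((Lead.Ham.cyc_adj hn ⟨_, m (j + i)⟩
        ⟨_, m (j + (i + 1) % p.1)⟩).2 (Or.inl (rot_succ ..))))).2
  · rintro ⟨h, -, h1, h2, h3⟩
    let f : Fin p.1 → Fin p.1 := fun i => ⟨h i, h1 i i.2⟩
    have hf : Function.Injective f := fun a b e => Fin.ext (h2 a a.2 b b.2 (congrArg Fin.val e))
    refine ⟨⟨⟨f, fun {u v} k => graphOf_adj.2 ⟨fun e => k.ne (hf e), ?_⟩⟩, hf⟩⟩
    rcases (Lead.Ham.cyc_adj hn u v).1 k with e | e
    · simpa [f, e, adj] using h3 u u.2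
    · simpa [f, e, adj, or_comm] using h3 v v.2

theorem hf_nph : NPH (fun p : Gi => 2 < p.1) HF := by
  refine (Lead.Ham.hard (le_refl 26)).reduce (fun p : Gi => if 2 < p.1 then p else
    if p.1 = 1 then (3, [(0, 1), (1, 2), (2, 0)]) else (3, [])) (by fun_prop) fun p _ => ?_
  split_ifs with h1 h2
  · exact ⟨h1, ham_hf p h1⟩
  · refine ⟨by simp, iff_of_true ((Lead.Ham.ham_iff _).2 (Or.inl h2)) ⟨id, rfl, by simp, by simp, ?_⟩⟩
    decide
  · refine ⟨by simp, iff_of_false (fun h => ?_) fun ⟨h, _, _, _, k⟩ => ?_⟩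
    · have := (Lead.Ham.ham_iff _).1 h
      omega
    · simpa [adj] using k 0 (by simp)

def w (p : Gi) (x y : ℕ) : ℤ :=
  if x < 2 * p.1 ∧ x % 2 = 0 ∧ y = x + 1 then -1
  else if x % 2 = 1 ∧ y % 2 = 0 ∧ adj p (x / 2) (y / 2 % p.1) then 0
  else if x = 2 * p.1 ∧ y = 0 then p.1 - 1 else 2 * p.1 + 1

def red (p : Gi) : Inst :=
  (2 * p.1 + 1, (((List.range (2 * p.1 + 1)).product (List.range (2 * p.1 + 1))).filter
    fun q => decide (q.1 ≠ q.2)).map fun q => (q, (w p q.1 q.2 : ℚ)))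

theorem pt_red : PT red := by
  have : PT fun q : Gi × ℕ × ℕ => w q.1 q.2.1 q.2.2 := by unfold w adj; fun_prop
  unfold red
  refine PT.mk (by fun_prop) (PT.map (f := fun (p : Gi) (q : ℕ × ℕ) => (q, (w p q.1 q.2 : ℚ)))
    (PT.mk (by fun_prop) (pt_rat this)) (by fun_prop))

theorem mem_red {p : Gi} {a : Arc} : a ∈ (red p).2 ↔ a.1.1 < 2 * p.1 + 1 ∧ a.1.2 < 2 * p.1 + 1 ∧
    a.1.1 ≠ a.1.2 ∧ a.2 = w p a.1.1 a.1.2 := by
  obtain ⟨⟨x, y⟩, c⟩ := a
  simp only [red, List.mem_map, List.mem_filter, decide_eq_true_eq, Prod.mk.injEq]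
  constructor
  · rintro ⟨_, ⟨h1, h2⟩, rfl, rfl⟩
    rw [List.pair_mem_product, List.mem_range, List.mem_range] at h1
    exact ⟨h1.1, h1.2, h2, rfl⟩
  · rintro ⟨h1, h2, h3, rfl⟩
    exact ⟨(x, y), ⟨List.pair_mem_product.2 ⟨List.mem_range.2 h1, List.mem_range.2 h2⟩, h3⟩,
      rfl, rfl⟩

theorem valid (p : Gi) : Valid (red p) ∧ Symm (red p) := by
  refine ⟨⟨fun a h => ?_, ?_⟩, fun a h => ?_⟩
  · exact ⟨(mem_red.1 h).1, (mem_red.1 h).2.1, (mem_red.1 h).2.2.1⟩
  · simp only [red, List.map_map]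
    exact ((List.nodup_range.product List.nodup_range).filter _).map fun _ _ e => e
  · exact ⟨((a.1.2, a.1.1), w p a.1.2 a.1.1), mem_red.2 ⟨(mem_red.1 h).2.1, (mem_red.1 h).1,
      (mem_red.1 h).2.2.1.symm, rfl⟩, rfl⟩

theorem sum_odd (F : ℕ → ℤ) (k : ℕ) : ∑ i ∈ range (2 * k + 1), F i =
    F 0 + ∑ i ∈ range k, (F (2 * i + 1) + F (2 * i + 2)) := by
  induction k with
  | zero => simp
  | succ k ih =>
    rw [show 2 * (k + 1) + 1 = 2 * k + 1 + 1 + 1 by ring, sum_range_succ, sum_range_succ, ih,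
      sum_range_succ]
    ring

theorem sum_rot (F : ℕ → ℤ) (L j : ℕ) :
    ∑ i ∈ range L, F ((j + i) % L) = ∑ i ∈ range L, F i := by
  induction j with
  | zero => exact sum_congr rfl fun i hi => by rw [zero_add, Nat.mod_eq_of_lt (mem_range.1 hi)]
  | succ j ih =>
    have a := sum_range_succ (fun i => F ((j + i) % L)) L
    rw [sum_range_succ'] at a
    simp only [Nat.add_mod_right, add_zero, add_left_inj] at a
    rw [← ih, ← a]
    exact sum_congr rfl fun i _ => by rw [show j + 1 + i = j + (i + 1) by ring]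

def Neg (p : Gi) (L : ℕ) (x : ℕ → ℕ) : Prop :=
  2 ≤ L ∧ (∀ i < L, x i < 2 * p.1 + 1) ∧ (∀ i < L, ∀ j < L, x i = x j → i = j) ∧
    ∑ i ∈ range L, w p (x i) (x ((i + 1) % L)) < 0

theorem enc_iff (p : Gi) : EvenNearlyConservative (red p) ↔ ∀ L x, Neg p L x → Even L := by
  constructor
  · intro h L x ⟨h1, h2, h3, h4⟩
    have m : ∀ i, i % L < L := fun i => Nat.mod_lt _ (by omega)
    refine h L (fun i => ((x i, x ((i + 1) % L)), w p (x i) (x ((i + 1) % L))))
      ⟨h1, fun i hi => mem_red.2 ⟨h2 i hi, h2 _ (m _), fun e => ?_, rfl⟩, h3, fun _ _ => rfl⟩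
      (by exact_mod_cast h4)
    have := h3 _ hi _ (m _) e
    by_cases c : i + 1 = L
    · rw [c, Nat.mod_self] at this; omega
    · rw [Nat.mod_eq_of_lt (by omega)] at this; omega
  · intro h L a ⟨h1, h2, h3, h4⟩ h5
    refine h L (fun i => (a i).1.1) ⟨h1, fun i hi => (mem_red.1 (h2 i hi)).1, h3, ?_⟩
    rw [sum_congr rfl fun i hi => (mem_red.1 (h2 i (mem_range.1 hi))).2.2.2,
      sum_congr rfl fun i hi => by rw [h4 i (mem_range.1 hi)]] at h5
    exact_mod_cast h5

theorem yes {p : Gi} (hn : 2 < p.1) (h : HF p) : ∃ x, Neg p (2 * p.1 + 1) x := by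
  obtain ⟨h, h0, h1, h2, h3⟩ := h
  let x : ℕ → ℕ := fun i => if i = 0 then 2 * p.1 else 2 * h ((i - 1) / 2) + (i - 1) % 2
  have a : ∀ i, x (2 * i + 1) = 2 * h i := fun i => by simp [x]
  have b : ∀ i, x (2 * i + 2) = 2 * h i + 1 := fun i => by
    simp only [x]
    rw [if_neg (by omega), show (2 * i + 2 - 1) / 2 = i by omega]
    omega
  have z : x 0 = 2 * p.1 := rfl
  refine ⟨x, by omega, fun i hi => ?_, fun i hi j hj e => ?_, ?_⟩
  · have := h1 ((i - 1) / 2) (by omega)
    simp only [x]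
    split_ifs <;> omega
  · have := h1 ((i - 1) / 2) (by omega)
    have := h1 ((j - 1) / 2) (by omega)
    have := h2 ((i - 1) / 2) (by omega) ((j - 1) / 2) (by omega)
    simp only [x] at e
    split_ifs at e <;> omega
  · rw [sum_odd, sum_congr rfl (g := fun _ => (-1 : ℤ)) fun i hi => ?_, Nat.mod_eq_of_lt (by omega),
      a 0, z, h0]
    · simp only [w]
      rw [if_neg (by omega), if_neg (by omega), if_pos (by simp)]
      simp
    have hi := mem_range.1 hi
    have := h1 i hi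
    have k := h3 i hi
    rw [Nat.mod_eq_of_lt (by omega), a, b]
    have c : w p (2 * h i + 1) (x ((2 * i + 2 + 1) % (2 * p.1 + 1))) = 0 := by
      by_cases c : i + 1 = p.1
      · rw [show 2 * i + 2 + 1 = 2 * p.1 + 1 by omega, Nat.mod_self, z]
        rw [c, Nat.mod_self, h0] at k
        simp only [w]
        rw [if_neg (by omega), if_pos ⟨by omega, by omega, by
          simpa [show (2 * h i + 1) / 2 = h i by omega] using k⟩]
      · rw [Nat.mod_eq_of_lt (by omega), show 2 * i + 2 + 1 = 2 * (i + 1) + 1 by omega, a]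
        rw [Nat.mod_eq_of_lt (by omega)] at k
        simp only [w]
        rw [if_neg (by omega), if_pos ⟨by omega, by omega, by
          simpa [show (2 * h i + 1) / 2 = h i by omega,
            Nat.mod_eq_of_lt (h1 (i + 1) (by omega))] using k⟩]
    rw [c]
    simp only [w]
    rw [if_pos ⟨by omega, by omega, trivial⟩]
    rfl

theorem leg {p : Gi} (hn : 2 < p.1) {L x} (h : Neg p L x) (i : ℕ) (hi : i < L) :
    let y := x ((i + 1) % L)
    (x i < 2 * p.1 ∧ x i % 2 = 0 ∧ y = x i + 1 ∧ w p (x i) y = -1) ∨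
    (x i % 2 = 1 ∧ y % 2 = 0 ∧ adj p (x i / 2) (y / 2 % p.1) ∧ w p (x i) y = 0) ∨
    (x i = 2 * p.1 ∧ y = 0 ∧ w p (x i) y = p.1 - 1) := by
  obtain ⟨-, h2, h3, h4⟩ := h
  have l : L ≤ 2 * p.1 + 1 := by
    simpa using card_le_card_of_injOn (s := range L) (t := range (2 * p.1 + 1)) x
      (fun i hi => by simpa using h2 i (by simpa using hi))
      fun i hi j hj => h3 i (by simpa using hi) j (by simpa using hj)
  have := single_le_sum (f := fun i => w p (x i) (x ((i + 1) % L)) + 1) (s := range L)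
    (fun i _ => by unfold w; split_ifs <;> omega) (mem_range.2 hi)
  rw [sum_add_distrib] at this
  simp only [sum_const, card_range, nsmul_eq_mul, mul_one] at this
  intro y
  have k : w p (x i) y ≠ 2 * p.1 + 1 := fun e => by simp only [y] at e; omega
  unfold w at k ⊢
  split_ifs at k ⊢ with c1 c2 c3
  · exact Or.inl ⟨c1.1, c1.2.1, c1.2.2, rfl⟩
  · exact Or.inr (Or.inl ⟨c2.1, c2.2.1, c2.2.2, rfl⟩)
  · exact Or.inr (Or.inr ⟨c3.1, c3.2, rfl⟩)
  · exact absurd rfl k

theorem no0 {p : Gi} (hn : 2 < p.1) {k y} (h : Neg p (2 * k + 1) y) (z : y 0 = 2 * p.1) : HF p := by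
  have l := leg hn h
  obtain ⟨h1, h2, h3, h4⟩ := h
  have y1 : y 1 = 0 ∧ w p (y 0) (y 1) = p.1 - 1 := by
    have := l 0 (by omega)
    rw [Nat.mod_eq_of_lt (by omega)] at this
    simp only [zero_add] at this
    omega
  have st : ∀ i < k, y (2 * i + 1) % 2 = 0 ∧ y (2 * i + 1) < 2 * p.1 → y (2 * i + 2) =
      y (2 * i + 1) + 1 ∧ w p (y (2 * i + 1)) (y (2 * i + 2)) = -1 ∧
      y ((2 * i + 2 + 1) % (2 * k + 1)) % 2 = 0 ∧ adj p (y (2 * i + 1) / 2)
        (y ((2 * i + 2 + 1) % (2 * k + 1)) / 2 % p.1) ∧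
      w p (y (2 * i + 2)) (y ((2 * i + 2 + 1) % (2 * k + 1))) = 0 := fun i hi c => by
    have a := l (2 * i + 1) (by omega)
    rw [Nat.mod_eq_of_lt (by omega)] at a
    simp only at a
    have a' : y (2 * i + 2) = y (2 * i + 1) + 1 ∧ w p (y (2 * i + 1)) (y (2 * i + 2)) = -1 := by
      rcases a with a | a | a
      · exact a.2.2
      · omega
      · omega
    rcases l (2 * i + 2) (by omega) with b | b | b
    · omega
    · exact ⟨a'.1, a'.2, b.2.1, by
        simpa [show y (2 * i + 2) / 2 = y (2 * i + 1) / 2 by omega] using b.2.2.1, b.2.2.2⟩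
    · omega
  have P : ∀ i < k, y (2 * i + 1) % 2 = 0 ∧ y (2 * i + 1) < 2 * p.1 := fun i => by
    induction i with
    | zero => intro _; simp only [mul_zero, zero_add]; omega
    | succ i ih =>
      intro hi
      have a := (st i (by omega) (ih (by omega))).2.2.1
      rw [Nat.mod_eq_of_lt (a := 2 * i + 2 + 1) (by omega)] at a
      have b := h2 (2 * i + 2 + 1) (by omega)
      have c := h3 (2 * i + 2 + 1) (by omega) 0 (by omega)
      rw [show 2 * (i + 1) + 1 = 2 * i + 2 + 1 by ring]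
      omega
  have inj : ∀ i < k, ∀ j < k, y (2 * i + 1) / 2 = y (2 * j + 1) / 2 → i = j := fun i hi j hj e => by
    have := P i hi
    have := P j hj
    have := h3 (2 * i + 1) (by omega) (2 * j + 1) (by omega)
    omega
  have e : k = p.1 := by
    rw [sum_odd, sum_congr rfl (g := fun _ => (-1 : ℤ)) fun i hi => ?_,
      Nat.mod_eq_of_lt (by omega), zero_add, y1.2] at h4
    · have := card_le_card_of_injOn (s := range k) (t := range p.1) (fun i => y (2 * i + 1) / 2)
        (fun i hi => by have := P i (by simpa using hi); simp; omega)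
        fun i hi j hj => inj i (by simpa using hi) j (by simpa using hj)
      simp at this h4
      omega
    · have := st i (mem_range.1 hi) (P i (mem_range.1 hi))
      rw [Nat.mod_eq_of_lt (by have := mem_range.1 hi; omega), this.2.1, this.2.2.2.2]
      rfl
  subst e
  refine ⟨fun i => y (2 * i + 1) / 2, by simp [y1.1], fun i hi => by have := P i hi; beta_reduce; omega, inj,
    fun i hi => ?_⟩
  have a := (st i hi (P i hi)).2.2.2.1
  by_cases c : i + 1 = p.1
  · rw [show 2 * i + 2 + 1 = 2 * p.1 + 1 by omega, Nat.mod_self, z] at a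
    simpa [c, y1.1] using a
  · have := P (i + 1) (by omega)
    rw [Nat.mod_eq_of_lt (a := 2 * i + 2 + 1) (by omega),
      show 2 * i + 2 + 1 = 2 * (i + 1) + 1 by ring, Nat.mod_eq_of_lt (by omega)] at a
    rwa [Nat.mod_eq_of_lt (by omega)]

theorem no {p : Gi} (hn : 2 < p.1) {L x} (h : Neg p L x) (o : ¬ Even L) : HF p := by
  obtain ⟨k, rfl⟩ := Nat.not_even_iff_odd.1 o
  have l := leg hn h
  obtain ⟨h1, h2, h3, h4⟩ := h
  have m : ∀ i, i % (2 * k + 1) < 2 * k + 1 := fun i => Nat.mod_lt _ (by omega)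
  obtain ⟨j, hj, z⟩ : ∃ j < 2 * k + 1, x j = 2 * p.1 := by
    by_contra c
    push Not at c
    have P : ∀ i < 2 * k + 1, x i % 2 = (x 0 + i) % 2 := fun i => by
      induction i with
      | zero => simp
      | succ i ih =>
        intro hi
        have a := l i (by omega)
        have := c i (by omega)
        have := ih (by omega)
        rw [Nat.mod_eq_of_lt hi] at a
        rcases a with a | a | a <;> omega
    have a := l (2 * k) (by omega)
    have := c (2 * k) (by omega)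
    have := P (2 * k) (by omega)
    rw [Nat.mod_self] at a
    rcases a with a | a | a <;> omega
  refine no0 hn (k := k) (y := fun i => x ((j + i) % (2 * k + 1))) ⟨h1, fun i _ => h2 _ (m _),
    fun i hi i' hi' e => rot_inj hi hi' (h3 _ (m _) _ (m _) e), ?_⟩
    (by simpa [Nat.mod_eq_of_lt hj] using z)
  simp only [rot_succ]
  rwa [sum_rot fun i => w p (x i) (x ((i + 1) % (2 * k + 1)))]

theorem hard : NPH (fun D => Valid D ∧ Symm D) fun D => ¬ EvenNearlyConservative D :=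
  hf_nph.reduce red pt_red fun p hn => ⟨valid p, by
    rw [enc_iff]
    refine ⟨fun h k => ?_, fun h => ?_⟩
    · obtain ⟨x, hx⟩ := yes hn h
      have := k _ x hx
      simp [parity_simps] at this
    · push Not at h
      obtain ⟨L, x, h1, h2⟩ := h
      exact no hn h1 h2⟩

abbrev Arc' := (ℕ × ℕ) × (Bool × Bin) × Bin

def cv (a : Arc) : Arc' := (a.1, (decide (a.2.num < 0), ⟨a.2.num.natAbs⟩), ⟨a.2.den⟩)

def nm (a : Arc') : ℤ := if a.2.1.1 then -(a.2.1.2.val : ℤ) else a.2.1.2.val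

theorem nm_cv (a : Arc) : nm (cv a) = a.2.num := by
  simp only [nm, cv, decide_eq_true_eq]
  split_ifs <;> omega

def at' (A : List Arc') (u : List ℕ) (i : ℕ) : Arc' := A.getD (u.getD i 0) (cv ((0, 0), 0))

def ver (D : ℕ × List Arc') (u : List ℕ) : Bool :=
  decide (2 ≤ u.length) && decide (u.length % 2 = 1) &&
    ((List.range u.length).all fun i => decide (u.getD i 0 < D.2.length) &&
      decide ((at' D.2 u i).1.2 = (at' D.2 u ((i + 1) % u.length)).1.1) &&
      (List.range u.length).all fun j =>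
        decide (¬ (at' D.2 u i).1.1 = (at' D.2 u j).1.1 ∨ i = j)) &&
    decide (((List.range u.length).map fun i => nm (at' D.2 u i) * ((List.range u.length).map
      fun j => if j = i then 1 else ((at' D.2 u j).2.2.val : ℤ)).prod).sum + 1 ≤ 0)

@[fun_prop] theorem pt_at {α : Type} [Enc α] {A : α → List Arc'} {u : α → List ℕ} {i : α → ℕ}
    (hA : PT A) (hu : PT u) (hi : PT i) : PT fun a => at' (A a) (u a) (i a) := by
  unfold at'; fun_prop

@[fun_prop] theorem pt_nm {α : Type} [Enc α] {A : α → Arc'} (hA : PT A) :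
    PT fun a => nm (A a) :=
  (PT.cond hA.snd.fst.fst (pt_zneg (Maj.pt_val hA.snd.fst.snd))
    (Maj.pt_val hA.snd.fst.snd)).of_eq fun a => by simp [nm]

theorem pt_ver : PT fun p : (ℕ × List Arc') × List ℕ => ver p.1 p.2 := by
  unfold ver
  refine PT.and (PT.and (by fun_prop) (by fun_prop)) (Maj.pt_zle (pt_zadd (pt_zsum (PT.map
    (f := fun (p : (ℕ × List Arc') × List ℕ) i => nm (at' p.1.2 p.2 i) * ((List.range p.2.length).map
      fun j => if j = i then 1 else ((at' p.1.2 p.2 j).2.2.val : ℤ)).prod)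
    (pt_zmul (by fun_prop) (pt_zprod (PT.map (f := fun (p : ((ℕ × List Arc') × List ℕ) × ℕ) j =>
      if j = p.2 then 1 else ((at' p.1.1.2 p.1.2 j).2.2.val : ℤ)) (PT.ite (by fun_prop)
      (PT.const _) (Maj.pt_val (by fun_prop))) (by fun_prop)))) (by fun_prop))) (PT.const _))
    (PT.const _))

theorem neg_iff (L : ℕ) (q : ℕ → ℚ) : ∑ i ∈ range L, q i < 0 ↔ ∑ i ∈ range L, (q i).num *
    ∏ j ∈ range L, (if j = i then 1 else ((q j).den : ℤ)) + 1 ≤ 0 := by
  have e : (∑ i ∈ range L, q i) * ∏ j ∈ range L, ((q j).den : ℚ) = (∑ i ∈ range L, (q i).num *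
      ∏ j ∈ range L, (if j = i then 1 else ((q j).den : ℤ)) : ℤ) := by
    push_cast
    rw [sum_mul]
    refine sum_congr rfl fun i hi => ?_
    rw [← mul_prod_erase _ _ hi, ← mul_prod_erase _ _ hi, if_pos rfl, ← mul_assoc,
      Rat.mul_den_eq_num, one_mul]
    exact congrArg _ (prod_congr rfl fun j hj => by rw [if_neg (ne_of_mem_erase hj)])
  have p : 0 < ∏ j ∈ range L, ((q j).den : ℚ) :=
    prod_pos fun j _ => by exact_mod_cast (q j).den_pos
  rw [Int.add_one_le_iff, ← Int.cast_lt_zero (R := ℚ), ← e]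
  exact ⟨fun h => mul_neg_of_neg_of_pos h p, fun h => neg_of_mul_neg_left h p.le⟩

theorem ver_iff (D : Inst) (u : List ℕ) : ver (D.1, D.2.map cv) u = true ↔
    (∀ i < u.length, u.getD i 0 < D.2.length) ∧ ¬ Even u.length ∧
      IsCycle D u.length (fun i => D.2.getD (u.getD i 0) ((0, 0), 0)) ∧
      ∑ i ∈ range u.length, (D.2.getD (u.getD i 0) ((0, 0), 0)).2 < 0 := by
  have e : ∀ i, at' (D.2.map cv) u i = cv (D.2.getD (u.getD i 0) ((0, 0), 0)) := fun i =>
    List.getD_map ..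
  simp only [ver, e, nm_cv, Bool.and_eq_true, decide_eq_true_eq, List.all_eq_true, List.mem_range,
    List.length_map, IsCycle, neg_iff, Nat.not_even_iff, ← imp_iff_not_or]
  constructor
  · rintro ⟨⟨⟨h1, h2⟩, h3⟩, h4⟩
    refine ⟨fun i hi => (h3 i hi).1.1, h2, ⟨h1, fun i hi => ?_, fun i hi => (h3 i hi).2,
      fun i hi => (h3 i hi).1.2⟩, h4⟩
    rw [List.getD_eq_getElem _ _ (h3 i hi).1.1]
    exact List.getElem_mem _
  · rintro ⟨h0, h2, ⟨h1, -, h3, h4⟩, h5⟩
    exact ⟨⟨⟨h1, h2⟩, fun i hi => ⟨⟨h0 i hi, h4 i hi⟩, h3 i hi⟩⟩, h5⟩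

theorem enc_map (l : List Arc) : enc (l.map cv) = enc l := by
  induction l with
  | nil => rfl
  | cons a l ih => exact congrArg (pair (enc a)) ih

theorem mem : InNPOn Valid fun D => ¬ EvenNearlyConservative D := by
  obtain ⟨R, hR, q, h⟩ := inNPOn_of_pt (C := fun _ => True) (P := fun D : ℕ × List Arc' =>
    ∃ u, sz u ≤ D.1 * (2 * D.2.length + 1) ∧ ver D u = true)
    (fun D u => decide (sz u ≤ D.1 * (2 * D.2.length + 1)) && ver D u)
    (PT.and (by fun_prop) pt_ver) (B := fun D => D.1 * (2 * D.2.length + 1))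
    (PT.nat_pb (by fun_prop)) (fun D _ ⟨u, h1, h2⟩ => ⟨u, h1, by simp [h1, h2]⟩)
    fun D u _ h => ⟨u, by simpa using h⟩
  refine ⟨R, hR, q, fun D hD => ?_⟩
  have e : enc (D.1, D.2.map cv) = enc D := congrArg (pair (enc D.1)) (enc_map D.2)
  rw [← e, ← h _ trivial]
  simp only [ver_iff, EvenNearlyConservative, not_forall]
  refine ⟨fun ⟨L, a, h1, h2, h3⟩ => ?_, fun ⟨u, _, _, h1, h2, h3⟩ => ⟨_, _, h2, h3, h1⟩⟩
  let u := (List.range L).map fun i => D.2.idxOf (a i)
  have l : u.length = L := by simp [u]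
  have k : ∀ i < L, u.getD i 0 = D.2.idxOf (a i) := fun i hi => by simp [u, hi]
  have k1 : ∀ i < L, D.2.idxOf (a i) < D.2.length := fun i hi =>
    List.idxOf_lt_length_of_mem (h1.2.1 i hi)
  have k2 : ∀ i < L, D.2.getD (u.getD i 0) ((0, 0), 0) = a i := fun i hi => by
    rw [k i hi, List.getD_eq_getElem _ _ (k1 i hi), List.getElem_idxOf]
  have m : ∀ i, i % L < L := fun i => Nat.mod_lt _ (by have := h1.1; omega)
  refine ⟨u, ?_, by rw [l]; exact fun i hi => k i hi ▸ k1 i hi, by rwa [l], ?_, ?_⟩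
  · refine (sz_le_of_forall (B := D.2.length) fun x hx => ?_).trans ?_
    · obtain ⟨i, hi, rfl⟩ := List.mem_map.1 hx
      simpa using (k1 i (List.mem_range.1 hi)).le
    · rw [l, List.length_map]
      refine Nat.mul_le_mul_right _ ?_
      simpa using card_le_card_of_injOn (s := range L) (t := range D.1) (fun i => (a i).1.1)
        (fun i hi => by simpa using (hD.1 _ (h1.2.1 i (by simpa using hi))).1)
        fun i hi j hj => h1.2.2.1 i (by simpa using hi) j (by simpa using hj)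
  · rw [l]
    refine ⟨h1.1, fun i hi => ?_, fun i hi j hj => ?_, fun i hi => ?_⟩ <;> beta_reduce
    · rw [k2 i hi]; exact h1.2.1 i hi
    · rw [k2 i hi, k2 j hj]; exact h1.2.2.1 i hi j hj
    · rw [k2 i hi, k2 _ (m _)]; exact h1.2.2.2 i hi
  · rwa [l, sum_congr rfl fun i hi => by rw [k2 i (mem_range.1 hi)]]

theorem col (h : InPOn (fun D => Valid D ∧ Symm D) EvenNearlyConservative) :
    ∀ A, InNP A → InP A := by
  obtain ⟨F, hF, e⟩ := h
  exact Sim.collapse hard hF (fun D => D) PT.id' (fun _ x => !decide (x.val = [true]))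
    (PT.eq PT.id'.snd.bval (PT.const _)).not fun D hD => by simp [e D hD]

end Pool.Agent.H36.ENC
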