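import Pool.Agent.H38.ER.Defs

/-!
Even-nearly conservative arc weights.
-/

namespace Pool.Agent.H36.ENC

/-- An arc: tail, head and rational weight. -/
abbrev Arc := (ℕ × ℕ) × ℚ

/-- A weighted digraph: the number `n` of vertices (the vertices are `0, …, n - 1`) and the list
of its arcs. -/
abbrev Inst := ℕ × List Arc

/-- The arcs join distinct vertices below `n`, and no ordered pair is listed twice. -/
def Valid (D : Inst) : Prop :=
  (∀ a ∈ D.2, a.1.1 < D.1 ∧ a.1.2 < D.1 ∧ a.1.1 ≠ a.1.2) ∧ (D.2.map Prod.fst).Nodup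

/-- The opposite of every arc is an arc. -/
def Symm (D : Inst) : Prop := ∀ a ∈ D.2, ∃ b ∈ D.2, b.1 = (a.1.2, a.1.1)

/-- The arcs `a 0, …, a (L - 1)` form a directed cycle with `L ≥ 2` arcs: their tails are
distinct and the head of each arc is the tail of the cyclically next one. -/
def IsCycle (D : Inst) (L : ℕ) (a : ℕ → Arc) : Prop :=
  2 ≤ L ∧ (∀ i < L, a i ∈ D.2) ∧ (∀ i < L, ∀ j < L, (a i).1.1 = (a j).1.1 → i = j) ∧
    ∀ i < L, (a i).1.2 = (a ((i + 1) % L)).1.1

/-- Every negative cycle has an even number of arcs. -/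
def EvenNearlyConservative (D : Inst) : Prop :=
  ∀ L a, IsCycle D L a → ∑ i ∈ Finset.range L, (a i).2 < 0 → Even L

end Pool.Agent.H36.ENC
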