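import Pool.Agent.H36.EPathDefs
import Pool.Agent.H36.Gr

namespace Pool.Agent.H36.EPath

open Pool.Agent.H38.NP Pool.Agent.H36.Gr

abbrev C := ℕ × ℕ × ℕ

def prs (φ : F3) : List (ℕ × ℕ) :=
  (List.range (3 * φ.length)).flatMap fun a => ((List.range (3 * φ.length)).filter fun b =>
    decide (a / 3 < b / 3) && conf φ a b).map fun b => (a, b)

theorem mem_prs {φ : F3} {a b : ℕ} : (a, b) ∈ prs φ ↔
    a < 3 * φ.length ∧ b < 3 * φ.length ∧ a / 3 < b / 3 ∧ conf φ a b = true := by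
  simp [prs]

def es (φ : F3) : List C :=
  ((List.range φ.length).flatMap fun c => [(0, c, 0), (0, c, 1), (0, c, 2), (0, c, 3), (0, c, 4),
    (1, c, 0)]) ++ (prs φ).flatMap fun p => [(2, p), (3, p), (4, p), (5, p)]

def sq (φ : F3) : List (List C) :=
  ((List.range φ.length).flatMap fun c => [[(0, c, 0), (0, c, 1)], [(0, c, 1), (0, c, 2)],
    [(0, c, 2), (0, c, 3)], [(0, c, 3), (0, c, 4)], [(0, c, 0), (1, c, 0), (0, c, 4)]]) ++
  (prs φ).flatMap fun p => [[(2, p), (3, p)], [(3, p), (4, p), (0, p.1 / 3, p.1 % 3)],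
    [(3, p), (5, p), (0, p.2 / 3, p.2 % 3)],
    [(0, p.1 / 3, p.1 % 3 + 2), (0, p.1 / 3, p.1 % 3 + 1), (2, p), (0, p.2 / 3, p.2 % 3 + 1),
      (0, p.2 / 3, p.2 % 3 + 2)]]

def red (φ : F3) : Inst :=
  ((es φ).dedup.length, (sq φ).map fun S => S.map fun c => (es φ).dedup.idxOf c)

variable {φ : F3}

theorem mem_es {x : C} : x ∈ es φ ↔ (x.1 = 0 ∧ x.2.1 < φ.length ∧ x.2.2 < 5) ∨
    (x.1 = 1 ∧ x.2.1 < φ.length ∧ x.2.2 = 0) ∨ (2 ≤ x.1 ∧ x.1 ≤ 5 ∧ x.2 ∈ prs φ) := by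
  obtain ⟨t, a, b⟩ := x
  simp only [es, List.mem_append, List.mem_flatMap, List.mem_range, List.mem_cons, Prod.mk.injEq,
    List.not_mem_nil, or_false]
  constructor
  · rintro (⟨c, hc, h⟩ | ⟨p, hp, h⟩)
    · omega
    · rcases h with ⟨rfl, rfl⟩ | ⟨rfl, rfl⟩ | ⟨rfl, rfl⟩ | ⟨rfl, rfl⟩ <;> simp [hp]
  · rintro (h | h | ⟨h1, h2, h3⟩)
    · exact Or.inl ⟨a, by omega⟩
    · exact Or.inl ⟨a, by omega⟩
    · refine Or.inr ⟨_, h3, ?_⟩
      simp only [and_true]; omega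

theorem nodup_es (φ : F3) : (es φ).Nodup := by
  have np : (prs φ).Nodup := List.nodup_flatMap.2 ⟨fun a _ => (List.nodup_range.filter _).map
    fun a b e => by simpa using e, List.nodup_range.imp fun hne => by
      simp only [Function.onFun, List.disjoint_left, List.mem_map]
      rintro _ ⟨p, -, rfl⟩ ⟨q, -, e⟩
      simp at e; omega⟩
  refine List.nodup_append.2 ⟨List.nodup_flatMap.2 ⟨by simp, List.nodup_range.imp fun hne => ?_⟩,
    List.nodup_flatMap.2 ⟨by simp, np.imp fun hne => ?_⟩, ?_⟩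
  · simp [Function.onFun, hne, hne.symm]
  · simp [Function.onFun, hne, hne.symm]
  · simp only [List.mem_flatMap, List.mem_cons, List.not_mem_nil, or_false]
    rintro x ⟨c, -, h⟩ y ⟨p, -, h'⟩ rfl
    rcases h' with rfl | rfl | rfl | rfl <;> simp at h

theorem pt_red : PT red := by
  have : red = fun φ => ((es φ).length, (sq φ).map fun S => S.map fun c => (es φ).idxOf c) := by
    funext φ
    rw [red, (nodup_es φ).dedup]
  rw [this]
  unfold es sq prs
  fun_prop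

theorem sq_es : ∀ S ∈ sq φ, S ≠ [] ∧ ∀ x ∈ S, x ∈ es φ := by
  simp only [sq, List.mem_append, List.mem_flatMap, List.mem_range, List.mem_cons,
    List.not_mem_nil, or_false]
  rintro S (⟨c, hc, h⟩ | ⟨⟨a, b⟩, hp, h⟩)
  · rcases h with rfl | rfl | rfl | rfl | rfl <;> simp [mem_es, hc]
  · have := mem_prs.1 hp
    rcases h with rfl | rfl | rfl | rfl <;> simp [mem_es, hp] <;> omega

theorem valid (φ : F3) : Valid (red φ) := by
  intro S hS
  obtain ⟨T, hT, rfl⟩ := List.mem_map.1 hS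
  refine ⟨by simpa using (sq_es T hT).1, fun e he => ?_⟩
  obtain ⟨x, hx, rfl⟩ := List.mem_map.1 he
  exact List.idxOf_lt_length_of_mem (List.mem_dedup.2 ((sq_es T hT).2 x hx))

theorem real_iff : Real (red φ) ↔ ∃ (W : Type) (ε : C → Sym2 W), (∀ e ∈ es φ, ¬ (ε e).IsDiag) ∧
    (∀ e ∈ es φ, ∀ f ∈ es φ, ε e = ε f → e = f) ∧ ∀ S ∈ sq φ, Path ε S := by
  simp only [Real, red, (nodup_es φ).dedup]
  constructor
  · rintro ⟨W, ε, h1, h2, h3⟩
    refine ⟨W, fun c => ε ((es φ).idxOf c), fun e he => h1 _ (List.idxOf_lt_length_of_mem he),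
      fun e he f hf h => (List.idxOf_inj he).1 (h2 _ (List.idxOf_lt_length_of_mem he) _
        (List.idxOf_lt_length_of_mem hf) h), fun S hS => ?_⟩
    simpa [Path, Function.comp_def] using h3 _ (List.mem_map_of_mem hS)
  · rintro ⟨W, ε, h1, h2, h3⟩
    have m : ∀ e < (es φ).length, (es φ).getD e default ∈ es φ := fun e he =>
      code_mem _ ⟨e, he⟩
    refine ⟨W, fun i => ε ((es φ).getD i default), fun e he => h1 _ (m e he), fun e he f hf h =>
      congrArg Fin.val (code_inj (nodup_es φ) (a₁ := ⟨e, he⟩) (a₂ := ⟨f, hf⟩)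
        (h2 _ (m e he) _ (m f hf) h)), fun S hS => ?_⟩
    obtain ⟨T, hT, rfl⟩ := List.mem_map.1 hS
    obtain ⟨v, v1, v2, v3⟩ := h3 T hT
    refine ⟨v, v1, by simpa using v2, ?_⟩
    rw [← v3, List.map_map]
    refine List.map_congr_left fun x hx => ?_
    have := (sq_es T hT).2 x hx
    simp [List.getD_eq_getElem?_getD, List.getElem?_idxOf this]

section
variable {W : Type} {ε : C → Sym2 W}

theorem p2 {e f : C} (h : Path ε [e, f]) : ∃ v, v ∈ ε e ∧ v ∈ ε f := by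
  obtain ⟨v, -, v2, v3⟩ := h
  match v, v2 with
  | [a, b, c], _ => exact ⟨b, by simp_all⟩

theorem p3 {e g f : C} (h : Path ε [e, g, f]) (v : W) (h1 : v ∈ ε e) (h2 : v ∈ ε f) : False := by
  obtain ⟨v, v1, v2, v3⟩ := h
  match v, v2 with
  | [a, b, c, d], _ =>
    simp at v1 v3
    simp [v3] at h1 h2
    grind

theorem p5 {e1 e2 k f2 f1 : C} (h : Path ε [e1, e2, k, f2, f1]) : ∃ a b c d,
    a ∈ ε e1 ∧ ε e2 = s(a, b) ∧ ε k = s(b, c) ∧ ε f2 = s(d, c) ∧ d ∈ ε f1 := by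
  obtain ⟨v, -, v2, v3⟩ := h
  match v, v2 with
  | [z, a, b, c, d, y], _ =>
    simp at v3
    exact ⟨a, b, c, d, by simp [v3]⟩

end

theorem no (h : Real (red φ)) : Sat3 φ := by
  obtain ⟨W, ε, -, h2, h3⟩ := real_iff.1 h
  simp only [sq, List.mem_append, List.mem_flatMap, List.mem_range] at h3
  have q1 : ∀ c < φ.length, ∀ j < 4, ∃ v, v ∈ ε (0, c, j) ∧ v ∈ ε (0, c, j + 1) := fun c hc j hj =>
    p2 (h3 _ (Or.inl ⟨c, hc, by interval_cases j <;> simp⟩))
  have ex : ∀ c, ∃ o, c < φ.length → o / 3 = c ∧ ∀ v, v ∈ ε (0, o / 3, o % 3) →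
      v ∈ ε (0, o / 3, o % 3 + 1) → v ∉ ε (0, o / 3, o % 3 + 2) := fun c => by
    by_cases hc : c < φ.length
    · by_contra hn
      push Not at hn
      obtain ⟨a, a1, a2, a3⟩ := (hn (3 * c)).2 (by omega)
      obtain ⟨b, b1, b2, b3⟩ := (hn (3 * c + 1)).2 (by omega)
      obtain ⟨d, d1, d2, d3⟩ := (hn (3 * c + 2)).2 (by omega)
      simp only [show 3 * c / 3 = c by omega, show (3 * c + 1) / 3 = c by omega,
        show (3 * c + 2) / 3 = c by omega, show 3 * c % 3 = 0 by omega,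
        show (3 * c + 1) % 3 = 1 by omega, show (3 * c + 2) % 3 = 2 by omega] at *
      obtain rfl : a = b := by_contra fun e => by
        simpa using h2 _ (by simp [mem_es, hc]) _ (by simp [mem_es, hc])
          (Sym2.eq_of_ne_mem e a2 b1 a3 b2)
      obtain rfl : a = d := by_contra fun e => by
        simpa using h2 _ (by simp [mem_es, hc]) _ (by simp [mem_es, hc])
          (Sym2.eq_of_ne_mem e b2 d1 b3 d2)
      exact p3 (h3 _ (Or.inl ⟨c, hc, by simp⟩) : Path ε [(0, c, 0), (1, c, 0), (0, c, 4)]) a a1 d3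
    · exact ⟨0, fun h => absurd h hc⟩
  choose s hs using ex
  have key : ∀ c < φ.length, ∀ d < φ.length, c < d → conf φ (s c) (s d) = false := by
    intro c hc d hd cd
    by_contra hn
    obtain ⟨a1, a2⟩ := hs c hc
    obtain ⟨b1, b2⟩ := hs d hd
    have hp : (s c, s d) ∈ prs φ := mem_prs.2 ⟨by omega, by omega, by omega, by simpa using hn⟩
    obtain ⟨x, y, z, w, e1, e2, e3, e4, e5⟩ := p5 (h3 _ (Or.inr ⟨_, hp, by
      simp only [List.mem_cons]; exact Or.inr (Or.inr (Or.inr (Or.inl rfl)))⟩))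
    obtain ⟨u, u1, u2⟩ := q1 (s c / 3) (by omega) (s c % 3) (by omega)
    obtain ⟨v, v1, v2⟩ := q1 (s d / 3) (by omega) (s d % 3) (by omega)
    obtain ⟨t, t1, t2⟩ := p2 (h3 [(2, s c, s d), (3, s c, s d)] (Or.inr ⟨_, hp, by simp⟩))
    have n1 := a2 u u1 u2
    have n2 := b2 v v1 v2
    simp only [e2, e3, e4, Sym2.mem_iff] at u2 v2 t1
    obtain rfl : u = y := u2.resolve_left fun e => n1 (e ▸ e1)
    obtain rfl : v = z := v2.resolve_left fun e => n2 (e ▸ e5)
    rcases t1 with rfl | rfl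
    · exact p3 (h3 [(3, s c, s d), (4, s c, s d), _] (Or.inr ⟨_, hp, by simp⟩)) t t2 u1
    · exact p3 (h3 [(3, s c, s d), (5, s c, s d), _] (Or.inr ⟨_, hp, by simp⟩)) t t2 v1
  refine (sat3_iff_sel φ).2 ⟨s, fun c hc => (hs c hc).1, fun c hc d hd => ?_⟩
  rcases lt_trichotomy c d with h | rfl | h
  exacts [key c hc d hd h, conf_self _ _, conf_symm φ _ _ ▸ key d hd c hc h]

def U (σ : ℕ → ℕ) (c j : ℕ) : C := if j < σ c then (0, c, 0) else (1, c, 0)
def Wv (σ : ℕ → ℕ) (c j : ℕ) : C := if j = σ c then (0, c, 0) else (2, c, j)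
def O (σ : ℕ → ℕ) (c j : ℕ) : C := if j = σ c then (1, c, 0) else (2, c, j)

def ep (σ : ℕ → ℕ) : C → Sym2 C
  | (0, c, j) => s(U σ c j, Wv σ c j)
  | (1, c, _) => s((2, c, 0), (2, c, 4))
  | (2, a, b) => s(Wv σ (a / 3) (a % 3 + 1), Wv σ (b / 3) (b % 3 + 1))
  | (3, a, b) => s((3, a, b), if a % 3 + 1 = σ (a / 3) then (2, b / 3, b % 3 + 1)
      else (2, a / 3, a % 3 + 1))
  | (4, a, b) => s((3, a, b), U σ (a / 3) (a % 3))
  | (_, a, b) => s((3, a, b), U σ (b / 3) (b % 3))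

theorem ep_succ (σ : ℕ → ℕ) (c j : ℕ) : ep σ (0, c, j + 1) = s(U σ c j, O σ c (j + 1)) := by
  simp only [ep, U, Wv, O]
  split_ifs <;> first | omega | simp

theorem yes (h : Sat3 φ) : Real (red φ) := by
  obtain ⟨s, s1, s2⟩ := (sat3_iff_sel φ).1 h
  obtain ⟨σ, σ1, σ2⟩ : ∃ σ : ℕ → ℕ, (∀ c, 1 ≤ σ c ∧ σ c ≤ 3) ∧ ∀ a b, (a, b) ∈ prs φ →
      a % 3 + 1 = σ (a / 3) → b % 3 + 1 ≠ σ (b / 3) := by
    refine ⟨fun c => s c % 3 + 1, fun c => by beta_reduce; omega, fun a b hp e e' => ?_⟩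
    beta_reduce at e e'
    obtain ⟨h1, h2, -, h4⟩ := mem_prs.1 hp
    have a1 := s1 (a / 3) (by omega)
    have a2 := s1 (b / 3) (by omega)
    have := s2 (a / 3) (by omega) (b / 3) (by omega)
    rw [show s (a / 3) = a by omega, show s (b / 3) = b by omega, h4] at this
    exact absurd this (by simp)
  refine real_iff.2 ⟨C, ep σ, ?_, ?_, ?_⟩
  · rintro ⟨t, a, b⟩ he
    rcases mem_es.1 he with ⟨rfl, -⟩ | ⟨rfl, -⟩ | ⟨h1, h2, h3⟩
    · simp only [ep, U, Wv]; split_ifs <;> first | omega | simp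
    · simp [ep]
    · have := (mem_prs.1 h3).2.2.1
      simp only at h1 h2
      interval_cases t <;> simp only [ep, U, Wv] <;> split_ifs <;> simp <;> omega
  · rintro ⟨t, a, b⟩ he ⟨t', a', b'⟩ hf e
    have k : ∀ {t a b}, (t, a, b) ∈ es φ → t ≤ 5 ∧ (t = 1 → b = 0) ∧ (2 ≤ t → a / 3 < b / 3) :=
      fun h => by
        rcases mem_es.1 h with h | h | ⟨h1, h2, h3⟩
        · simp only at h; omega
        · simp only at h; omega
        · have := (mem_prs.1 h3).2.2.1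
          simp only at h1 h2; omega
    obtain ⟨k1, k2, k3⟩ := k he
    obtain ⟨k4, k5, k6⟩ := k hf
    interval_cases t <;> interval_cases t' <;> simp only [ep, U, Wv, Sym2.eq_iff] at e <;>
      (try split_ifs at e) <;> simp at e k2 k3 k5 k6 ⊢ <;> grind
  · simp only [sq, List.mem_append, List.mem_flatMap, List.mem_range]
    have q : ∀ c j, Path (ep σ) [(0, c, j), (0, c, j + 1)] := fun c j =>
      ⟨[Wv σ c j, U σ c j, O σ c (j + 1)], by
        simp only [U, Wv, O]; split_ifs <;> first | omega | simp, rfl, by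
        simp only [List.map, ep_succ]; simp [ep]⟩
    rintro S (⟨c, hc, h⟩ | ⟨⟨a, b⟩, hp, h⟩) <;>
      simp only [List.mem_cons, List.not_mem_nil, or_false] at h
    · rcases h with rfl | rfl | rfl | rfl | rfl
      exacts [q c 0, q c 1, q c 2, q c 3, ⟨[(0, c, 0), (2, c, 0), (2, c, 4), (1, c, 0)], by simp,
        rfl, by have := σ1 c; simp only [List.map, ep, U, Wv]; split_ifs <;> first | omega | simp⟩]
    · have h1 := (mem_prs.1 hp).2.2.1
      have h2 := σ2 a b hp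
      rcases h with rfl | rfl | rfl | rfl
      · by_cases c : a % 3 + 1 = σ (a / 3)
        · exact ⟨[(0, a / 3, 0), (2, b / 3, b % 3 + 1), (3, a, b)], by simp, rfl, by
            simp [ep, Wv, c, h2 c]⟩
        · exact ⟨[Wv σ (b / 3) (b % 3 + 1), (2, a / 3, a % 3 + 1), (3, a, b)], by
            simp only [Wv]; split_ifs <;> simp; omega, rfl, by simp [ep, Wv, c]⟩
      · exact ⟨[if a % 3 + 1 = σ (a / 3) then (2, b / 3, b % 3 + 1) else (2, a / 3, a % 3 + 1),
          (3, a, b), U σ (a / 3) (a % 3), Wv σ (a / 3) (a % 3)], by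
          simp only [U, Wv]; split_ifs <;> simp <;> omega, rfl, by
          simp only [List.map, ep, List.tail, List.zipWith]; rw [Sym2.eq_swap]⟩
      · exact ⟨[if a % 3 + 1 = σ (a / 3) then (2, b / 3, b % 3 + 1) else (2, a / 3, a % 3 + 1),
          (3, a, b), U σ (b / 3) (b % 3), Wv σ (b / 3) (b % 3)], by
          simp only [U, Wv]; split_ifs <;> simp <;> omega, rfl, by
          simp only [List.map, ep, List.tail, List.zipWith]; rw [Sym2.eq_swap]⟩
      · exact ⟨[O σ (a / 3) (a % 3 + 2), U σ (a / 3) (a % 3 + 1), Wv σ (a / 3) (a % 3 + 1),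
          Wv σ (b / 3) (b % 3 + 1), U σ (b / 3) (b % 3 + 1), O σ (b / 3) (b % 3 + 2)], by
          simp only [U, Wv, O]; split_ifs <;> simp <;> omega, rfl, by
          simp only [List.map, ep_succ σ _ (_ + 1)]; simp [ep]⟩

theorem hard : NPH Valid Real := sat3_nph.reduce red pt_red fun φ _ => ⟨valid φ, yes, no⟩

end Pool.Agent.H36.EPath
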