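import Pool.Agent.H38.NP.Defs

/-!
Graphs in which given edge sequences are paths.
-/

namespace Pool.Agent.H36.EPath

/-- The sequence `S` of edge names is a simple path when the name `e` is drawn as `ε e`. -/
def Path {A W : Type} (ε : A → Sym2 W) (S : List A) : Prop :=
  ∃ v : List W, v.Nodup ∧ v.length = S.length + 1 ∧
    S.map ε = List.zipWith (fun a b => s(a, b)) v v.tail

/-- An instance: `E = {0, …, n - 1}` and a list of sequences. -/
abbrev Inst := ℕ × List (List ℕ)

/-- The sequences are nonempty and use elements of `E`. -/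
def Valid (p : Inst) : Prop := ∀ S ∈ p.2, S ≠ [] ∧ ∀ e ∈ S, e < p.1

/-- The elements of `E` can be drawn as distinct non-loop edges so that every sequence is a path. -/
def Real (p : Inst) : Prop :=
  ∃ (W : Type) (ε : ℕ → Sym2 W), (∀ e < p.1, ¬ (ε e).IsDiag) ∧
    (∀ e < p.1, ∀ f < p.1, ε e = ε f → e = f) ∧ ∀ S ∈ p.2, Path ε S

end Pool.Agent.H36.EPath
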