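import Pool.Agent.H36.FactDefs
import Pool.Agent.H36.Gr

/-!
Factorization of explicitly listed finite languages is NP-hard.
-/

namespace Pool.Agent.H36.Fact

open Pool.Agent.H38.NP Pool.Agent.H36.Gr List

def pre (x i : ℕ) : List ℕ := (x + 1) :: replicate i 0
def suf (y j : ℕ) : List ℕ := replicate j 0 ++ [y + 3]
def wd (x y k : ℕ) : List ℕ := (x + 1) :: (replicate k 0 ++ [y + 3])

theorem pre_suf (x y i j) : pre x i ++ suf y j = wd x y (i + j) := by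
  simp [pre, suf, wd, ← append_assoc]

theorem wd_inj {x y k x' y' k'} (h : wd x y k = wd x' y' k') : x = x' ∧ y = y' ∧ k = k' := by
  simp only [wd, cons.injEq] at h
  have := append_inj' h.2 rfl
  have h1 := congrArg length this.1
  simp at this h1
  omega

theorem split {u v x y k} (hu : u ≠ []) (hv : v ≠ []) (h : wd x y k = u ++ v) :
    ∃ i j, u = pre x i ∧ v = suf y j := by
  obtain ⟨a, u, rfl⟩ := exists_cons_of_ne_nil hu
  obtain ⟨v, z, rfl⟩ := (eq_nil_or_concat' v).resolve_left hv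
  simp only [wd, cons_append, cons.injEq, ← append_assoc] at h
  have h1 := append_inj' h.2 rfl
  have h2 := append_eq_replicate_iff.1 h1.1.symm
  refine ⟨u.length, v.length, ?_, ?_⟩
  · rw [pre, ← h2.2.1, h.1]
  · rw [suf, ← h2.2.2, h1.2]

def lang2 (S : ℕ → ℕ → List ℕ) : List (List ℕ) :=
  [0, 1].flatMap fun x => [0, 1].flatMap fun y => (S x y).map (wd x y)

theorem mem_lang2 {S w} : w ∈ lang2 S ↔ ∃ x < 2, ∃ y < 2, ∃ k ∈ S x y, w = wd x y k := by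
  simp only [lang2, mem_flatMap, mem_map, eq_comm (a := w)]
  exact exists_congr fun x => and_congr (by simp; omega)
    (exists_congr fun y => and_congr (by simp; omega) Iff.rfl)

theorem fact_iff {S : ℕ → ℕ → List ℕ} (h0 : 0 ∈ S 0 0) : Fact (5, lang2 S) ↔
    ∃ A B : ℕ → List ℕ, ∀ x < 2, ∀ y < 2, ∀ k, k ∈ S x y ↔ ∃ a ∈ A x, ∃ b ∈ B y, k = a + b := by
  constructor
  · rintro ⟨L1, L2, -, h1, h2, h⟩
    simp only [mem_lang2] at h
    obtain ⟨u1, hu1, v1, hv1, -⟩ := (h _).1 ⟨0, two_pos, 0, two_pos, 0, h0, rfl⟩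
    obtain ⟨u0, hu0, hu⟩ : ∃ u ∈ L1, u ≠ [] := by
      by_contra hn
      push Not at hn
      exact h1 (Finset.eq_singleton_iff_unique_mem.2 ⟨hn u1 hu1 ▸ hu1, hn⟩)
    obtain ⟨v0, hv0, hv⟩ : ∃ u ∈ L2, u ≠ [] := by
      by_contra hn
      push Not at hn
      exact h2 (Finset.eq_singleton_iff_unique_mem.2 ⟨hn v1 hv1 ▸ hv1, hn⟩)
    obtain ⟨x0, -, y0, -, k0, -, e0⟩ := (h _).2 ⟨u0, hu0, v0, hv0, rfl⟩
    obtain ⟨i0, j0, e1, e2⟩ := split hu hv e0.symm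
    have n1 : [] ∉ L1 := fun hn => by
      obtain ⟨x, hx, y, -, k, -, e⟩ := (h _).2 ⟨_, hn, v0, hv0, rfl⟩
      have e3 := congrArg (·.headD 0) e
      rw [e2] at e3
      cases j0 <;> simp [suf, wd, replicate_succ] at e3
      omega
    have n2 : [] ∉ L2 := fun hn => by
      obtain ⟨x, hx, y, -, k, -, e⟩ := (h _).2 ⟨u0, hu0, _, hn, rfl⟩
      have : y + 3 ∈ pre x0 i0 := by rw [← e1, ← append_nil u0, e]; simp [wd]
      have e3 := congrArg (·.headD 0) e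
      rw [e1] at e3
      simp [pre, wd] at this e3
      omega
    refine ⟨fun x => (L1.toList.map fun u => u.length - 1).filter fun i => pre x i ∈ L1,
      fun y => (L2.toList.map fun u => u.length - 1).filter fun i => suf y i ∈ L2,
      fun x hx y hy k => ⟨fun hk => ?_, ?_⟩⟩
    · obtain ⟨u, hu, v, hv, e⟩ := (h _).1 ⟨x, hx, y, hy, k, hk, rfl⟩
      obtain ⟨i, j, rfl, rfl⟩ := split (by rintro rfl; exact n1 hu) (by rintro rfl; exact n2 hv) e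
      rw [pre_suf] at e
      exact ⟨i, mem_filter.2 ⟨mem_map.2 ⟨_, Finset.mem_toList.2 hu, by simp [pre]⟩, by simpa⟩,
        j, mem_filter.2 ⟨mem_map.2 ⟨_, Finset.mem_toList.2 hv, by simp [suf]⟩, by simpa⟩,
        (wd_inj e).2.2⟩
    · rintro ⟨a, ha, b, hb, rfl⟩
      obtain ⟨x', -, y', -, k, hk, e⟩ := (h _).2 ⟨_, by simpa using (mem_filter.1 ha).2, _,
        by simpa using (mem_filter.1 hb).2, (pre_suf x y a b).symm⟩
      obtain ⟨rfl, rfl, rfl⟩ := wd_inj e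
      exact hk
  · rintro ⟨A, B, h⟩
    obtain ⟨a0, ha0, b0, hb0, -⟩ := (h 0 two_pos 0 two_pos 0).1 h0
    have m1 : ∀ u, u ∈ ((A 0).map (pre 0) ++ (A 1).map (pre 1)).toFinset ↔
        ∃ x < 2, ∃ a ∈ A x, u = pre x a := fun u => by
      simp [Nat.le_one_iff_eq_zero_or_eq_one, eq_comm (a := u)]
    have m2 : ∀ u, u ∈ ((B 0).map (suf 0) ++ (B 1).map (suf 1)).toFinset ↔
        ∃ x < 2, ∃ a ∈ B x, u = suf x a := fun u => by
      simp [Nat.le_one_iff_eq_zero_or_eq_one, eq_comm (a := u)]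
    refine ⟨((A 0).map (pre 0) ++ (A 1).map (pre 1)).toFinset,
      ((B 0).map (suf 0) ++ (B 1).map (suf 1)).toFinset, ?_, fun e => ?_, fun e => ?_, fun w => ?_⟩
    · simp only [Finset.mem_union, m1, m2]
      rintro _ (⟨x, hx, a, -, rfl⟩ | ⟨x, hx, a, -, rfl⟩) z hz <;> simp [pre, suf] at hz <;> omega
    · have := (m1 _).2 ⟨0, two_pos, a0, ha0, rfl⟩
      rw [e] at this
      simp [pre] at this
    · have := (m2 _).2 ⟨0, two_pos, b0, hb0, rfl⟩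
      rw [e] at this
      simp [suf] at this
    · simp only [mem_lang2, m1, m2]
      constructor
      · rintro ⟨x, hx, y, hy, k, hk, rfl⟩
        obtain ⟨a, ha, b, hb, rfl⟩ := (h x hx y hy k).1 hk
        exact ⟨_, ⟨x, hx, a, ha, rfl⟩, _, ⟨y, hy, b, hb, rfl⟩, (pre_suf _ _ _ _).symm⟩
      · rintro ⟨_, ⟨x, hx, a, ha, rfl⟩, _, ⟨y, hy, b, hb, rfl⟩, rfl⟩
        exact ⟨x, hx, y, hy, _, (h x hx y hy _).2 ⟨a, ha, b, hb, rfl⟩, pre_suf _ _ _ _⟩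

def nn (φ : F3) : ℕ := ((range (3 * φ.length)).map fun u => (litAt φ u).1).sum + 1
def WW (φ : F3) : ℕ := 128 * (nn φ + 1)
def en (φ : F3) (p : ℕ × ℕ) : ℕ := p.1 + WW φ * p.2

def FA (φ : F3) : List (ℕ × ℕ) :=
  (range (nn φ)).flatMap (fun i => [11, 1, 12, 0].map fun o => (32 * (nn φ + i) + o, 0)) ++
  ((range (2 * nn φ + 1)).filter (· ≠ nn φ)).flatMap (fun t => [6, 7].map fun o => (32 * t + o, 1)) ++
  ((range (3 * φ.length)).filter fun u => (litAt φ u).2 = false).map fun u =>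
    (32 * (nn φ + (litAt φ u).1) + 6, 2 + 8 * (u / 3))

def FB (φ : F3) : List (ℕ × ℕ) :=
  (range (nn φ)).flatMap (fun i => [5, 3, 0, 8].map fun o => (32 * (nn φ - i) + o, 1)) ++
  [(32 * nn φ + 4, 0), (32 * nn φ + 9, 0)] ++
  (range φ.length).flatMap (fun c => [4, 9].map fun o => (32 * nn φ + o, 2 + 8 * c)) ++
  ((range (3 * φ.length)).filter fun u => (litAt φ u).2 = true).map fun u =>
    (32 * (nn φ - (litAt φ u).1) + 4, 3 + 8 * (u / 3))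

def SS (φ : F3) (x y : ℕ) : List ℕ :=
  if x = 0 then (if y = 0 then [0, 1, 5, 6] else (FB φ).flatMap fun q => [en φ q, en φ q + 1])
  else if y = 0 then (FA φ).flatMap fun q => [en φ q, en φ q + 5]
  else (FA φ).flatMap (fun p => (FB φ).map fun q => en φ p + en φ q) ++
    (range φ.length).map fun c => en φ (64 * nn φ + 10, 3 + 8 * c)

variable {φ : F3}

theorem lit_lt {u} (h : u < 3 * φ.length) : (litAt φ u).1 < nn φ :=
  Nat.lt_succ_of_le (single_le_sum (by simp) _ (mem_map.2 ⟨u, mem_range.2 h, rfl⟩))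

theorem mem_FA {w k} : (w, k) ∈ FA φ ↔ (∃ i < nn φ, (w = 32 * (nn φ + i) + 11 ∨
    w = 32 * (nn φ + i) + 1 ∨ w = 32 * (nn φ + i) + 12 ∨ w = 32 * (nn φ + i)) ∧ k = 0) ∨
    (∃ t ≤ 2 * nn φ, t ≠ nn φ ∧ (w = 32 * t + 6 ∨ w = 32 * t + 7) ∧ k = 1) ∨
    ∃ u < 3 * φ.length, (litAt φ u).2 = false ∧ (litAt φ u).1 < nn φ ∧
      w = 32 * (nn φ + (litAt φ u).1) + 6 ∧ k = 2 + 8 * (u / 3) := by
  simp only [FA, mem_append, mem_flatMap, mem_map, mem_filter, mem_range, mem_cons, not_mem_nil,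
    or_false, Prod.mk.injEq, decide_eq_true_eq, or_assoc, exists_eq_or_imp, exists_eq_left]
  exact or_congr (exists_congr fun i => by omega) (or_congr (exists_congr fun i => by omega)
    (exists_congr fun u => ⟨fun h => ⟨h.1.1, h.1.2, lit_lt h.1.1, h.2.1.symm, h.2.2.symm⟩,
      fun h => ⟨⟨h.1, h.2.1⟩, h.2.2.2.1.symm, h.2.2.2.2.symm⟩⟩))

theorem mem_FB {w k} : (w, k) ∈ FB φ ↔ (∃ i < nn φ, (w = 32 * (nn φ - i) + 5 ∨
    w = 32 * (nn φ - i) + 3 ∨ w = 32 * (nn φ - i) ∨ w = 32 * (nn φ - i) + 8) ∧ k = 1) ∨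
    ((w = 32 * nn φ + 4 ∨ w = 32 * nn φ + 9) ∧ k = 0) ∨
    (∃ c < φ.length, (w = 32 * nn φ + 4 ∨ w = 32 * nn φ + 9) ∧ k = 2 + 8 * c) ∨
    ∃ u < 3 * φ.length, (litAt φ u).2 = true ∧ (litAt φ u).1 < nn φ ∧
      w = 32 * (nn φ - (litAt φ u).1) + 4 ∧ k = 3 + 8 * (u / 3) := by
  simp only [FB, mem_append, mem_flatMap, mem_map, mem_filter, mem_range, mem_cons, not_mem_nil,
    or_false, Prod.mk.injEq, decide_eq_true_eq, exists_eq_or_imp, exists_eq_left]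
  rw [or_assoc, or_assoc]
  exact or_congr (exists_congr fun i => by omega) (or_congr (by omega)
    (or_congr (exists_congr fun i => by omega)
    (exists_congr fun u => ⟨fun h => ⟨h.1.1, h.1.2, lit_lt h.1.1, h.2.1.symm, h.2.2.symm⟩,
      fun h => ⟨⟨h.1, h.2.1⟩, h.2.2.2.1.symm, h.2.2.2.2.symm⟩⟩)))

theorem FA_lt {w k} (h : (w, k) ∈ FA φ) : w < 64 * nn φ + 20 := by
  rcases mem_FA.1 h with ⟨_, _⟩ | ⟨_, _⟩ | ⟨_, _⟩ <;> omega
theorem FB_lt {w k} (h : (w, k) ∈ FB φ) : w < 32 * nn φ + 20 := by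
  rcases mem_FB.1 h with ⟨_, _⟩ | _ | ⟨_, _⟩ | ⟨_, _⟩ <;> omega

theorem en_inj {w k w' k'} (h : en φ (w, k) = en φ (w', k')) (h1 : w < 128 * (nn φ + 1))
    (h2 : w' < 128 * (nn φ + 1)) : w = w' ∧ k = k' := by
  have e1 := congrArg (· % WW φ) h
  have e2 := congrArg (· / WW φ) h
  have h0 : 0 < WW φ := by unfold WW; omega
  simp only [en, Nat.add_mul_mod_self_left, Nat.add_mul_div_left _ _ h0,
    Nat.mod_eq_of_lt (show w < WW φ from h1), Nat.mod_eq_of_lt (show w' < WW φ from h2),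
    Nat.div_eq_of_lt (show w < WW φ from h1), Nat.div_eq_of_lt (show w' < WW φ from h2)] at e1 e2
  omega

theorem en_add (w k w' k') : en φ (w, k) + en φ (w', k') = en φ (w + w', k + k') := by
  simp only [en]; ring
theorem en_add' (w k d) : en φ (w, k) + d = en φ (w + d, k) := by simp only [en]; ring

/-- a set whose sum with `{0, d}` is `F + {0, d}` -/
theorem probe {F : List (ℕ × ℕ)} {d : ℕ} (hd : d ≤ 5) (hF : ∀ {w k}, (w, k) ∈ F → w < 64 * nn φ + 20)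
    {A : List ℕ} (h : ∀ k, k ∈ (F.flatMap fun q => [en φ q, en φ q + d]) ↔
      k ∈ A ∨ ∃ a ∈ A, k = a + d) :
    (∀ a ∈ A, ∃ w k, a = en φ (w, k) ∧ ((w, k) ∈ F ∨ (w + d, k) ∈ F ∧ d ≤ w ∧ (w - d, k) ∈ F)) ∧
    ∀ w k, (w, k) ∈ F → ((d ≤ w → (w - d, k) ∉ F ∧ (2 * d ≤ w → (w - 2 * d, k) ∉ F)) ∨
      (w + d, k) ∉ F ∧ (w + 2 * d, k) ∉ F) → en φ (w, k) ∈ A := by
  have hT : ∀ w k, w < 64 * nn φ + 40 → (en φ (w, k) ∈ (F.flatMap fun q => [en φ q, en φ q + d]) ↔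
      (w, k) ∈ F ∨ d ≤ w ∧ (w - d, k) ∈ F) := by
    intro w k hw
    simp only [mem_flatMap, mem_cons, not_mem_nil, or_false, Prod.exists, en_add']
    constructor
    · rintro ⟨w', k', h1, e | e⟩
      · obtain ⟨rfl, rfl⟩ := en_inj e (by omega) (by have := hF h1; omega)
        exact Or.inl h1
      · obtain ⟨rfl, rfl⟩ := en_inj e (by omega) (by have := hF h1; omega)
        exact Or.inr ⟨by omega, by simpa using h1⟩
    · rintro (h1 | ⟨h1, h2⟩)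
      · exact ⟨_, _, h1, Or.inl rfl⟩
      · exact ⟨_, _, h2, Or.inr (by rw [Nat.sub_add_cancel h1])⟩
  have hA : ∀ a ∈ A, ∃ w k, w < 64 * nn φ + 30 ∧ a = en φ (w, k) := by
    intro a ha
    obtain ⟨⟨w, k⟩, h1, h2⟩ := mem_flatMap.1 ((h a).2 (Or.inl ha))
    have := hF h1
    simp only [mem_cons, not_mem_nil, or_false, en_add'] at h2
    rcases h2 with rfl | rfl <;> exact ⟨_, _, by omega, rfl⟩
  refine ⟨fun a ha => ?_, fun w k h1 h2 => ?_⟩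
  · obtain ⟨w, k, hw, rfl⟩ := hA a ha
    have a1 := (hT w k (by omega)).1 ((h _).2 (Or.inl ha))
    have a2 := (hT (w + d) k (by omega)).1 ((h _).2 (Or.inr ⟨_, ha, (en_add' _ _ _).symm⟩))
    rw [Nat.add_sub_cancel] at a2
    exact ⟨w, k, rfl, by tauto⟩
  · have hw := hF h1
    rcases h2 with h2 | h2
    · refine ((h _).1 ((hT w k (by omega)).2 (Or.inl h1))).resolve_right ?_
      rintro ⟨a, ha, e⟩
      obtain ⟨w', k', hw', rfl⟩ := hA a ha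
      rw [en_add'] at e
      obtain ⟨rfl, rfl⟩ := en_inj e (by omega) (by omega)
      have := (hT w' k (by omega)).1 ((h _).2 (Or.inl ha))
      have h3 := h2 (by omega)
      rw [Nat.add_sub_cancel, show w' + d - 2 * d = w' - d by omega] at h3
      exact this.elim h3.1 fun h4 => h3.2 (by omega) h4.2
    · rcases (h _).1 ((hT (w + d) k (by omega)).2 (Or.inr ⟨by omega, by simpa using h1⟩)) with
        h3 | ⟨a, ha, e⟩
      · have := (hT (w + d + d) k (by omega)).1 ((h _).2 (Or.inr ⟨_, h3, (en_add' _ _ _).symm⟩))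
        rw [Nat.add_sub_cancel, show w + d + d = w + 2 * d by omega] at this
        tauto
      · rw [← en_add'] at e
        exact Nat.add_right_cancel e ▸ ha

theorem FA_forced {w k} (h : (w, k) ∈ FA φ) : (5 ≤ w → (w - 5, k) ∉ FA φ ∧
    (2 * 5 ≤ w → (w - 2 * 5, k) ∉ FA φ)) ∨ (w + 5, k) ∉ FA φ ∧ (w + 2 * 5, k) ∉ FA φ := by
  by_cases h0 : w % 32 = 11 ∧ k = 0
  · right
    constructor <;> intro h' <;> rcases mem_FA.1 h' with ⟨_, _⟩ | ⟨_, _⟩ | ⟨_, _⟩ <;> omega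
  · left
    intro h1
    refine ⟨fun h' => ?_, fun h2 h' => ?_⟩ <;>
      rcases mem_FA.1 h with ⟨_, _⟩ | ⟨_, _⟩ | ⟨_, _⟩ <;>
      rcases mem_FA.1 h' with ⟨_, _⟩ | ⟨_, _⟩ | ⟨_, _⟩ <;> omega

theorem FB_forced {w k} (h : (w, k) ∈ FB φ) : (1 ≤ w → (w - 1, k) ∉ FB φ ∧
    (2 * 1 ≤ w → (w - 2 * 1, k) ∉ FB φ)) ∨ (w + 1, k) ∉ FB φ ∧ (w + 2 * 1, k) ∉ FB φ := by
  by_cases h0 : w % 32 = 5 ∧ k = 1
  · right
    constructor <;> intro h' <;> rcases mem_FB.1 h' with ⟨_, _⟩ | _ | ⟨_, _⟩ | ⟨_, _⟩ <;> omega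
  · left
    intro h1
    refine ⟨fun h' => ?_, fun h2 h' => ?_⟩ <;>
      rcases mem_FB.1 h with ⟨_, _⟩ | _ | ⟨_, _⟩ | ⟨_, _⟩ <;>
      rcases mem_FB.1 h' with ⟨_, _⟩ | _ | ⟨_, _⟩ | ⟨_, _⟩ <;> omega

theorem FA_opt {w k} (h : (w + 5, k) ∈ FA φ) (h1 : 5 ≤ w) (h' : (w - 5, k) ∈ FA φ) :
    ∃ i < nn φ, w = 32 * (nn φ + i) + 6 ∧ k = 0 := by
  rcases mem_FA.1 h with ⟨i, _⟩ | ⟨_, _⟩ | ⟨_, _⟩ <;>
    rcases mem_FA.1 h' with ⟨_, _⟩ | ⟨_, _⟩ | ⟨_, _⟩ <;> first | omega | exact ⟨i, by omega⟩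

theorem FB_opt {w k} (h : (w + 1, k) ∈ FB φ) (h1 : 1 ≤ w) (h' : (w - 1, k) ∈ FB φ) :
    ∃ i < nn φ, w = 32 * (nn φ - i) + 4 ∧ k = 1 := by
  rcases mem_FB.1 h with ⟨i, _⟩ | _ | ⟨_, _⟩ | ⟨_, _⟩ <;>
    rcases mem_FB.1 h' with ⟨_, _⟩ | _ | ⟨_, _⟩ | ⟨_, _⟩ <;> first | omega | exact ⟨i, by omega⟩

theorem mem_S11 {s} : s ∈ SS φ 1 1 ↔ (∃ w k w' k', (w, k) ∈ FA φ ∧ (w', k') ∈ FB φ ∧
    s = en φ (w + w', k + k')) ∨ ∃ c < φ.length, s = en φ (64 * nn φ + 10, 3 + 8 * c) := by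
  simp only [SS, one_ne_zero, if_false, mem_append, mem_flatMap, mem_map, mem_range, Prod.exists,
    en_add, eq_comm (a := s)]
  exact or_congr ⟨fun ⟨w, k, h, w', k', h', e⟩ => ⟨w, k, w', k', h, h', e⟩,
    fun ⟨w, k, w', k', h, h', e⟩ => ⟨w, k, h, w', k', h', e⟩⟩ Iff.rfl

/-- an isolated element rules out the shift `e` -/
theorem iso {F : List (ℕ × ℕ)} {d : ℕ} (hd : d ≤ 5) (hF : ∀ {w k}, (w, k) ∈ F → w < 64 * nn φ + 20)
    {A B : List ℕ} (h : ∀ k, k ∈ (F.flatMap fun q => [en φ q, en φ q + d]) ↔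
      ∃ a ∈ A, ∃ b ∈ B, k = a + b) (hB : ∀ b ∈ B, b ≤ 6) (h0 : 0 ∈ B) {w k} (h1 : (w, k) ∈ F)
    (h2 : ∀ w', (w', k) ∈ F → w' + 12 < w ∨ w' = w ∨ w + 12 < w') {e} (he : e ∈ B) :
    e = 0 ∨ e = d := by
  have hT : ∀ a ∈ (F.flatMap fun q => [en φ q, en φ q + d]), ∃ w k, (w, k) ∈ F ∧
      (a = en φ (w, k) ∨ a = en φ (w + d, k)) := by
    intro a ha
    obtain ⟨⟨w, k⟩, h1, h2⟩ := mem_flatMap.1 ha
    exact ⟨w, k, h1, by simpa [en_add'] using h2⟩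
  obtain ⟨a, ha, b, hb, e1⟩ := (h _).1 (mem_flatMap.2 ⟨_, h1, mem_cons_self⟩)
  obtain ⟨w1, k1, f1, e2⟩ := hT _ ((h _).2 ⟨a, ha, 0, h0, rfl⟩)
  obtain ⟨w2, k2, f2, e3⟩ := hT _ ((h _).2 ⟨a, ha, e, he, rfl⟩)
  have := hB b hb
  have := hB e he
  have := hF h1
  have := hF f1
  have := hF f2
  rcases e2 with rfl | rfl <;> rw [en_add'] at e1 e3 <;>
    obtain ⟨a1, rfl⟩ := en_inj e1 (by omega) (by omega) <;> have := h2 _ f1 <;>
    rcases e3 with e3 | e3 <;> obtain ⟨a2, rfl⟩ := en_inj e3 (by omega) (by omega) <;>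
    have := h2 _ f2 <;> omega

theorem sat_of_sol (hp : ∃ u < 3 * φ.length, (litAt φ u).2 = true)
    (hn : ∃ u < 3 * φ.length, (litAt φ u).2 = false) {A B : ℕ → List ℕ}
    (h : ∀ x < 2, ∀ y < 2, ∀ k, k ∈ SS φ x y ↔ ∃ a ∈ A x, ∃ b ∈ B y, k = a + b) : Sat3 φ := by
  have h00 := h 0 two_pos 0 two_pos
  have h01 := h 0 two_pos 1 one_lt_two
  have h10 := h 1 one_lt_two 0 two_pos
  have h11 := h 1 one_lt_two 1 one_lt_two
  simp only [SS, if_true, one_ne_zero, if_false] at h00 h01 h10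
  simp only [mem_cons, not_mem_nil, or_false] at h00
  obtain ⟨a0, ha0, b0, hb0, e⟩ := (h00 0).1 (by simp)
  obtain rfl : a0 = 0 := by omega
  obtain rfl : b0 = 0 := by omega
  have hFB : ∀ {w k}, (w, k) ∈ FB φ → w < 64 * nn φ + 20 := fun h => by
    have := FB_lt h; omega
  have bA : ∀ a ∈ A 0, a = 0 ∨ a = 1 := by
    obtain ⟨u, hu, hu'⟩ := hp
    refine fun a => iso (A := B 1) (by omega) hFB
      (fun k => (h01 k).trans ⟨fun ⟨a, h1, b, h2, e⟩ => ⟨b, h2, a, h1, by omega⟩,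
        fun ⟨a, h1, b, h2, e⟩ => ⟨b, h2, a, h1, by omega⟩⟩)
      (fun a ha => by have := (h00 _).2 ⟨a, ha, 0, hb0, rfl⟩; omega) ha0
      (mem_FB.2 (Or.inr (Or.inr (Or.inr ⟨u, hu, hu', lit_lt hu, rfl, rfl⟩)))) fun w' h' => ?_
    rcases mem_FB.1 h' with ⟨_, _⟩ | _ | ⟨_, _⟩ | ⟨_, _⟩ <;> omega
  have bB : ∀ a ∈ B 0, a = 0 ∨ a = 5 := by
    obtain ⟨u, hu, hu'⟩ := hn
    refine fun a => iso (by omega) FA_lt h10
      (fun a ha => by have := (h00 _).2 ⟨0, ha0, a, ha, rfl⟩; omega) hb0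
      (mem_FA.2 (Or.inr (Or.inr ⟨u, hu, hu', lit_lt hu, rfl, rfl⟩))) fun w' h' => ?_
    rcases mem_FA.1 h' with ⟨_, _⟩ | ⟨_, _⟩ | ⟨_, _⟩ <;> omega
  obtain ⟨a1, ha1, b1, hb1, e⟩ := (h00 6).1 (by simp)
  obtain rfl : a1 = 1 := by have := bA _ ha1; have := bB _ hb1; omega
  obtain rfl : b1 = 5 := by omega
  have pA := (probe (A := A 1) (d := 5) le_rfl FA_lt fun k => (h10 k).trans
    ⟨fun ⟨a, h1, b, h2, e⟩ => (bB b h2).imp (fun h => by simpa [e, h] using h1)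
      fun h => ⟨a, h1, by omega⟩, fun h => h.elim (fun h => ⟨k, h, 0, hb0, rfl⟩)
      fun ⟨a, h, e⟩ => ⟨a, h, 5, hb1, e⟩⟩).1
  have pB := (probe (A := B 1) (d := 1) (by omega) hFB
    fun k => (h01 k).trans
    ⟨fun ⟨a, h1, b, h2, e⟩ => (bA a h1).imp (fun h => by simpa [e, h] using h2)
      fun h => ⟨b, h2, by omega⟩, fun h => h.elim (fun h => ⟨0, ha0, k, h, by omega⟩)
      fun ⟨a, h, e⟩ => ⟨1, ha1, a, h, by omega⟩⟩).1
  have cf : ∀ i < nn φ, en φ (32 * (nn φ + i) + 6, 0) ∈ A 1 →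
      en φ (32 * (nn φ - i) + 4, 1) ∉ B 1 := by
    intro i hi h1 h2
    rcases mem_S11.1 ((h11 _).2 ⟨_, h1, _, h2, rfl⟩) with ⟨w, k, w', k', f1, f2, e⟩ | ⟨c, -, e⟩
    · rw [en_add] at e
      have := en_inj e (by omega) (by have := FA_lt f1; have := FB_lt f2; omega)
      rcases mem_FA.1 f1 with ⟨_, _⟩ | ⟨_, _⟩ | ⟨_, _⟩ <;>
        rcases mem_FB.1 f2 with ⟨_, _⟩ | _ | ⟨_, _⟩ | ⟨_, _⟩ <;> omega
    · rw [en_add] at e
      have := en_inj e (by omega) (by omega)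
      omega
  refine (sat3_iff_litAt φ).2 ⟨fun i => decide (en φ (32 * (nn φ + i) + 6, 0) ∈ A 1), fun c hc => ?_⟩
  obtain ⟨a, ha, b, hb, e⟩ := (h11 _).1 (mem_S11.2 (Or.inr ⟨c, hc, rfl⟩))
  obtain ⟨w, k, rfl, f1⟩ := pA a ha
  obtain ⟨w', k', rfl, f2⟩ := pB b hb
  rw [en_add] at e
  have g1 := f1.imp id fun h => FA_opt h.1 h.2.1 h.2.2
  have g2 := f2.imp id fun h => FB_opt h.1 h.2.1 h.2.2
  have := en_inj e (by omega) (by
    have : w < 64 * nn φ + 20 := g1.elim FA_lt fun ⟨_, _⟩ => by omega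
    have : w' < 32 * nn φ + 20 := g2.elim FB_lt fun ⟨_, _⟩ => by omega
    omega)
  rcases g1 with g1 | ⟨i, hi, rfl, rfl⟩ <;> rcases g2 with g2 | ⟨j, hj, rfl, rfl⟩
  · exfalso
    rcases mem_FA.1 g1 with ⟨_, _⟩ | ⟨_, _⟩ | ⟨_, _⟩ <;>
      rcases mem_FB.1 g2 with ⟨_, _⟩ | _ | ⟨_, _⟩ | ⟨_, _⟩ <;> omega
  · rcases mem_FA.1 g1 with ⟨_, _⟩ | ⟨_, _⟩ | ⟨u, h1, h2, h3, h4⟩ <;> try omega
    refine ⟨u % 3, by omega, ?_⟩
    rw [show 3 * c + u % 3 = u by omega, h2, show (litAt φ u).1 = j by omega]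
    simpa using fun h => cf j hj h hb
  · rcases mem_FB.1 g2 with ⟨_, _⟩ | _ | ⟨_, _⟩ | ⟨u, h1, h2, h3, h4⟩ <;> try omega
    refine ⟨u % 3, by omega, ?_⟩
    rw [show 3 * c + u % 3 = u by omega, h2, show (litAt φ u).1 = i by omega]
    simpa using ha
  · omega

theorem sol_of_sat (h : Sat3 φ) : ∃ A B : ℕ → List ℕ,
    ∀ x < 2, ∀ y < 2, ∀ k, k ∈ SS φ x y ↔ ∃ a ∈ A x, ∃ b ∈ B y, k = a + b := by
  obtain ⟨v, hv⟩ := (sat3_iff_litAt φ).1 h
  let A1 := (FA φ ++ ((range (nn φ)).filter fun i => v i = true).map fun i =>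
    (32 * (nn φ + i) + 6, 0)).map (en φ)
  let B1 := (FB φ ++ ((range (nn φ)).filter fun i => v i = false).map fun i =>
    (32 * (nn φ - i) + 4, 1)).map (en φ)
  have mA : ∀ a, a ∈ A1 ↔ ∃ w k, a = en φ (w, k) ∧ ((w, k) ∈ FA φ ∨
      ∃ i < nn φ, v i = true ∧ w = 32 * (nn φ + i) + 6 ∧ k = 0) := fun a => by
    simp only [A1, mem_map, mem_append, mem_filter, mem_range, Prod.exists, Prod.mk.injEq,
      decide_eq_true_eq, eq_comm (a := a), and_assoc, eq_comm (b := (0 : ℕ))]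
    exact exists₂_congr fun w k => by simp only [eq_comm (a := w)]; exact and_comm
  have mB : ∀ a, a ∈ B1 ↔ ∃ w k, a = en φ (w, k) ∧ ((w, k) ∈ FB φ ∨
      ∃ i < nn φ, v i = false ∧ w = 32 * (nn φ - i) + 4 ∧ k = 1) := fun a => by
    simp only [B1, mem_map, mem_append, mem_filter, mem_range, Prod.exists, Prod.mk.injEq,
      decide_eq_true_eq, eq_comm (a := a), and_assoc, eq_comm (b := (1 : ℕ))]
    exact exists₂_congr fun w k => by simp only [eq_comm (a := w)]; exact and_comm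
  have a1 : ∀ {i o}, i < nn φ → o = 11 ∨ o = 1 ∨ o = 12 ∨ o = 0 →
      (32 * (nn φ + i) + o, 0) ∈ FA φ := fun h1 h2 => mem_FA.2 (Or.inl ⟨_, h1, by omega, rfl⟩)
  have a2 : ∀ {t o}, t ≤ 2 * nn φ → t ≠ nn φ → o = 6 ∨ o = 7 → (32 * t + o, 1) ∈ FA φ :=
    fun h1 h2 h3 => mem_FA.2 (Or.inr (Or.inl ⟨_, h1, h2, by omega, rfl⟩))
  have b1 : ∀ {i o}, i < nn φ → o = 5 ∨ o = 3 ∨ o = 0 ∨ o = 8 →
      (32 * (nn φ - i) + o, 1) ∈ FB φ := fun h1 h2 => mem_FB.2 (Or.inl ⟨_, h1, by omega, rfl⟩)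
  have b2 : ∀ {o}, o = 4 ∨ o = 9 → (32 * nn φ + o, 0) ∈ FB φ :=
    fun h1 => mem_FB.2 (Or.inr (Or.inl ⟨by omega, rfl⟩))
  have b3 : ∀ {c o}, c < φ.length → o = 4 ∨ o = 9 → (32 * nn φ + o, 2 + 8 * c) ∈ FB φ :=
    fun h1 h2 => mem_FB.2 (Or.inr (Or.inr (Or.inl ⟨_, h1, by omega, rfl⟩)))
  have s1 : ∀ {w k w' k' x y}, (w, k) ∈ FA φ → (w', k') ∈ FB φ → x = w + w' → y = k + k' →
      en φ (x, y) ∈ SS φ 1 1 := fun h1 h2 h3 h4 =>
    mem_S11.2 (Or.inl ⟨_, _, _, _, h1, h2, by rw [h3, h4]⟩)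
  refine ⟨fun x => if x = 0 then [0, 1] else A1, fun y => if y = 0 then [0, 5] else B1,
    fun x hx y hy s => ?_⟩
  interval_cases x <;> interval_cases y <;> simp only [if_true, one_ne_zero, if_false]
  · simp [SS]; omega
  · simp only [SS, if_true, one_ne_zero, if_false, mem_flatMap, mem_cons, not_mem_nil, or_false,
      exists_eq_or_imp, exists_eq_left, mB, Prod.exists]
    constructor
    · rintro ⟨w, k, h1, rfl | rfl⟩
      · exact Or.inl ⟨_, ⟨w, k, rfl, Or.inl h1⟩, by omega⟩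
      · exact Or.inr ⟨_, ⟨w, k, rfl, Or.inl h1⟩, by omega⟩
    · rintro (⟨_, ⟨w, k, rfl, h1 | ⟨i, hi, -, rfl, rfl⟩⟩, rfl⟩ |
        ⟨_, ⟨w, k, rfl, h1 | ⟨i, hi, -, rfl, rfl⟩⟩, rfl⟩)
      · exact ⟨w, k, h1, by omega⟩
      · exact ⟨_, _, b1 (o := 3) hi (by omega), by simp only [en]; omega⟩
      · exact ⟨w, k, h1, by omega⟩
      · exact ⟨_, _, b1 (o := 5) hi (by omega), by simp only [en]; omega⟩
  · simp only [SS, if_true, one_ne_zero, if_false, mem_flatMap, mem_cons, not_mem_nil, or_false,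
      exists_eq_or_imp, exists_eq_left, mA, Prod.exists]
    constructor
    · rintro ⟨w, k, h1, h2⟩
      exact ⟨_, ⟨w, k, rfl, Or.inl h1⟩, h2⟩
    · rintro ⟨_, ⟨w, k, rfl, h1 | ⟨i, hi, -, rfl, rfl⟩⟩, h2⟩
      · exact ⟨w, k, h1, h2⟩
      · rcases h2 with rfl | rfl
        · exact ⟨_, _, a1 (o := 1) hi (by omega), by simp only [en]; omega⟩
        · exact ⟨_, _, a1 (o := 11) hi (by omega), by simp only [en]; omega⟩
  · simp only [mA, mB]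
    constructor
    · intro hs
      rcases mem_S11.1 hs with ⟨w, k, w', k', h1, h2, rfl⟩ | ⟨c, hc, rfl⟩
      · exact ⟨_, ⟨w, k, rfl, Or.inl h1⟩, _, ⟨w', k', rfl, Or.inl h2⟩, (en_add _ _ _ _).symm⟩
      · obtain ⟨j, hj, e⟩ := hv c hc
        have hu : 3 * c + j < 3 * φ.length := by omega
        have hl := lit_lt hu
        cases hb : (litAt φ (3 * c + j)).2
        · exact ⟨_, ⟨_, _, rfl, Or.inl (mem_FA.2 (Or.inr (Or.inr ⟨_, hu, hb, hl, rfl, rfl⟩)))⟩, _,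
            ⟨_, _, rfl, Or.inr ⟨_, hl, e.trans hb, rfl, rfl⟩⟩, by rw [en_add]; congr 2 <;> omega⟩
        · exact ⟨_, ⟨_, _, rfl, Or.inr ⟨_, hl, e.trans hb, rfl, rfl⟩⟩, _,
            ⟨_, _, rfl, Or.inl (mem_FB.2 (Or.inr (Or.inr (Or.inr ⟨_, hu, hb, hl, rfl, rfl⟩))))⟩,
            by rw [en_add]; congr 2 <;> omega⟩
    · rintro ⟨_, ⟨w, k, rfl, h1⟩, _, ⟨w', k', rfl, h2⟩, rfl⟩
      rw [en_add]
      rcases h1 with h1 | ⟨i, hi, vi, rfl, rfl⟩ <;> rcases h2 with h2 | ⟨j, hj, vj, rfl, rfl⟩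
      · exact s1 h1 h2 rfl rfl
      · rcases mem_FA.1 h1 with ⟨i, hi, rfl | rfl | rfl | rfl, rfl⟩ | ⟨t, t1, t2, rfl | rfl, rfl⟩ |
          ⟨u, hu, -, hl, rfl, rfl⟩
        · exact s1 (a1 (o := 12) hi (by omega)) (b1 (o := 3) hj (by omega)) (by omega) rfl
        · exact s1 (a1 (o := 0) hi (by omega)) (b1 (o := 5) hj (by omega)) (by omega) rfl
        · exact s1 (a1 (o := 11) hi (by omega)) (b1 (o := 5) hj (by omega)) (by omega) rfl
        · exact s1 (a1 (o := 1) hi (by omega)) (b1 (o := 3) hj (by omega)) (by omega) rfl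
        · exact s1 (a2 (o := 7) t1 t2 (by omega)) (b1 (o := 3) hj (by omega)) (by omega) rfl
        · exact s1 (a2 (o := 6) t1 t2 (by omega)) (b1 (o := 5) hj (by omega)) (by omega) rfl
        · by_cases e : (litAt φ u).1 = j
          · exact mem_S11.2 (Or.inr ⟨u / 3, by omega, by congr 2 <;> omega⟩)
          · exact s1 (a2 (t := nn φ + (litAt φ u).1 - j) (o := 6) (by omega) (by omega) (by omega))
              (b3 (c := u / 3) (o := 4) (by omega) (by omega)) (by omega) (by omega)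
      · rcases mem_FB.1 h2 with ⟨j, hj, rfl | rfl | rfl | rfl, rfl⟩ | ⟨rfl | rfl, rfl⟩ |
          ⟨c, hc, rfl | rfl, rfl⟩ | ⟨u, hu, -, hl, rfl, rfl⟩
        · exact s1 (a1 (o := 11) hi (by omega)) (b1 (o := 0) hj (by omega)) (by omega) rfl
        · exact s1 (a1 (o := 1) hi (by omega)) (b1 (o := 8) hj (by omega)) (by omega) rfl
        · exact s1 (a1 (o := 1) hi (by omega)) (b1 (o := 5) hj (by omega)) (by omega) rfl
        · exact s1 (a1 (o := 11) hi (by omega)) (b1 (o := 3) hj (by omega)) (by omega) rfl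
        · exact s1 (a1 (o := 1) hi (by omega)) (b2 (o := 9) (by omega)) (by omega) rfl
        · exact s1 (a1 (o := 11) hi (by omega)) (b2 (o := 4) (by omega)) (by omega) rfl
        · exact s1 (a1 (o := 1) hi (by omega)) (b3 (o := 9) hc (by omega)) (by omega) rfl
        · exact s1 (a1 (o := 11) hi (by omega)) (b3 (o := 4) hc (by omega)) (by omega) rfl
        · by_cases e : (litAt φ u).1 = i
          · exact mem_S11.2 (Or.inr ⟨u / 3, by omega, by congr 2 <;> omega⟩)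
          · exact s1 (a2 (t := nn φ + i - (litAt φ u).1) (o := 6) (by omega) (by omega) (by omega))
              (b3 (c := u / 3) (o := 4) (by omega) (by omega)) (by omega) (by omega)
      · have : i ≠ j := by rintro rfl; simp [vi] at vj
        exact s1 (a2 (t := nn φ + i - j) (o := 6) (by omega) (by omega) (by omega))
          (b2 (o := 4) (by omega)) (by omega) rfl

theorem pt_red : PT fun φ : F3 => ((5 : ℕ), lang2 (SS φ)) := by
  have h1 : PT nn := by unfold nn; fun_prop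
  have h2 : PT fun p : F3 × ℕ × ℕ => en p.1 p.2 := by unfold en WW; fun_prop
  have h3 : PT FA := by unfold FA; fun_prop
  have h4 : PT FB := by unfold FB; fun_prop
  have h5 : PT fun p : F3 × ℕ × ℕ => SS p.1 p.2.1 p.2.2 := by unfold SS en WW; fun_prop
  have h6 : PT fun p : (F3 × ℕ) × ℕ => (SS p.1.1 p.1.2 p.2).map (wd p.1.2 p.2) :=
    PT.map (by unfold wd; fun_prop)
      (h5.comp (g := fun p : (F3 × ℕ) × ℕ => (p.1.1, p.1.2, p.2)) (by fun_prop))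
  exact (PT.const _).mk (PT.flatMap (PT.flatMap h6 (PT.const _)) (PT.const _))

theorem hard : NPH Valid Fact := by
  have h : NPH (fun φ : F3 => (∃ u < 3 * φ.length, (litAt φ u).2 = true) ∧
      ∃ u < 3 * φ.length, (litAt φ u).2 = false) Sat3 := by
    refine sat3_nph.reduce (fun φ => ((0, true), (0, false), (0, true)) :: φ) (by fun_prop)
      fun φ _ => ⟨⟨⟨0, by simp, rfl⟩, 1, by simp; omega, rfl⟩, ?_⟩
    refine exists_congr fun a => ⟨fun h => forall_mem_cons.2 ⟨?_, h⟩,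
      fun h => (forall_mem_cons.1 h).2⟩
    cases a 0 <;> simp
  refine h.reduce _ pt_red fun φ hφ => ⟨⟨?_, fun w hw z hz => ?_⟩, ?_⟩
  · exact ne_nil_of_mem (mem_lang2.2 ⟨0, two_pos, 0, two_pos, 0, by simp [SS], rfl⟩)
  · obtain ⟨x, hx, y, hy, k, -, rfl⟩ := mem_lang2.1 hw
    simp [wd] at hz
    omega
  · rw [fact_iff (by simp [SS])]
    exact ⟨sol_of_sat, fun ⟨_, _, h⟩ => sat_of_sol hφ.1 hφ.2 h⟩

end Pool.Agent.H36.Fact
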