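import Pool.Agent.H38.NP.Defs

/-!
Factorization of finite languages.
-/

namespace Pool.Agent.H36.Fact

/-- alphabet size `k` (letters `0, ..., k - 1`) and the explicit list of words -/
abbrev Inst := ℕ × List (List ℕ)

/-- the list is nonempty and its words are over the alphabet -/
def Valid (p : Inst) : Prop := p.2 ≠ [] ∧ ∀ w ∈ p.2, ∀ z ∈ w, z < p.1

/-- the language has a nontrivial factorization into finite languages over the alphabet -/
def Fact (p : Inst) : Prop :=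
  ∃ L1 L2 : Finset (List ℕ), (∀ w ∈ L1 ∪ L2, ∀ z ∈ w, z < p.1) ∧ L1 ≠ {[]} ∧ L2 ≠ {[]} ∧
    ∀ w, w ∈ p.2 ↔ ∃ u ∈ L1, ∃ v ∈ L2, w = u ++ v

end Pool.Agent.H36.Fact
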