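import Pool.Agent.H36.Sig2Defs
import Pool.Agent.H36.Sim

/-!
A complete problem for the second level of the polynomial hierarchy.
-/

namespace Pool.Agent.H36.Sig2

open Pool.Agent.H38.NP

/-- internal form of hardness on a class `C` -/
def S2H {α : Type} [Enc α] (C P : α → Prop) : Prop :=
  ∀ A, InSigma2 A → ∃ g : Bits → α, PT g ∧ ∀ x, C (g x) ∧ (x.val ∈ A ↔ P (g x))

section
variable {α β : Type} [Enc α] [Enc β]

theorem S2H.reduce {C P : α → Prop} {C' P' : β → Prop} (h : S2H C P) (f : α → β) (hf : PT f)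
    (e : ∀ a, C a → C' (f a) ∧ (P a ↔ P' (f a))) : S2H C' P' := fun A hA =>
  let ⟨g, hg, hx⟩ := h A hA
  ⟨fun x => f (g x), hf.comp hg, fun x => ⟨(e _ (hx x).1).1, (hx x).2.trans (e _ (hx x).1).2⟩⟩

theorem S2H.hard [EncInj α] {C P Q : α → Prop} (h : S2H C P) (e : ∀ a, C a → (P a ↔ Q a)) :
    Sigma2Hard (lang Q) := fun A hA =>
  let ⟨g, hg, hx⟩ := h A hA
  ⟨_, PT.polyTime hg.raw, fun x => by
    rw [raw_val, enc_mem_lang, ← e _ (hx ⟨x⟩).1]; exact (hx ⟨x⟩).2⟩

theorem S2H.piHard [EncInj α] {C P Q : α → Prop} (h : S2H C P) (e : ∀ a, C a → (P a ↔ ¬ Q a)) :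
    Pi2Hard (lang Q) := fun A hA =>
  let ⟨g, hg, hx⟩ := h _ hA
  ⟨_, PT.polyTime hg.raw, fun x => by
    rw [raw_val, enc_mem_lang, ← not_iff_not, ← e _ (hx ⟨x⟩).1]; exact (hx ⟨x⟩).2⟩

end

theorem tableauN {f : List Bool → List Bool} (hf : PolyTime f) :
    ∃ (TT IC I0 I1 IW IB FIN : List (List (TL ℕ))) (D : ℕ) (τ : Polynomial ℕ),
      ∀ (y : List Bool) (q : ℕ), Sat (build TT IC I0 I1 IW IB FIN y q (τ.eval (y.length + q))
        (τ.eval (y.length + q) * D + (y.length + q + 2))) ↔
        ∃ w : List Bool, w.length ≤ q ∧ f (y ++ w) = [true] := by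
  classical
  obtain ⟨A, TT, IC, I0, I1, IW, IB, FIN, D, τ, h⟩ := tableau hf
  let atoms : List A := (TT ++ IC ++ I0 ++ I1 ++ IW ++ IB ++ FIN).flatten.map fun l => l.2.2.2.1
  let c : A → ℕ := fun x => atoms.idxOf x
  refine ⟨mapT c TT, mapT c IC, mapT c I0, mapT c I1, mapT c IW, mapT c IB, mapT c FIN, D, τ,
    fun y q => ?_⟩
  rw [← ren_build, ← h]
  by_cases hA : Nonempty A
  · obtain ⟨d⟩ := hA
    apply sat_ren _ _ (fun v => (v.1, v.2.1, atoms.getD v.2.2 d))
    intro C hC l hl
    have : l.1.2.2 ∈ atoms := by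
      have : ∃ C' ∈ TT ++ IC ++ I0 ++ I1 ++ IW ++ IB ++ FIN, ∃ t i, inst t i C' = C := by
        rcases mem_build.1 hC with ⟨t, -, i, -, C', hC', e⟩ | ⟨i, -, C', hC' | hC', e⟩ |
          ⟨C', hC', e⟩
        · exact ⟨C', by simp [hC'], _, _, e⟩
        · exact ⟨C', by simp [hC'], _, _, e⟩
        · refine ⟨C', ?_, _, _, e⟩
          revert hC'; unfold sel
          cases decide (i < y.length) <;> cases y.getD i false <;>
            cases decide (i < y.length + q) <;> simp +contextual
        · exact ⟨C', by simp [hC'], _, _, e⟩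
      obtain ⟨C', hC', t, i, rfl⟩ := this
      obtain ⟨l', hl', rfl⟩ := List.mem_map.1 hl
      exact List.mem_map.2 ⟨l', List.mem_flatten.2 ⟨C', hC', hl'⟩, rfl⟩
    have h2 := List.idxOf_lt_length_of_mem this
    simp [c, h2]
  · have he : IsEmpty (ℕ × ℕ × A) := ⟨fun v => hA ⟨v.2.2⟩⟩
    constructor
    · rintro ⟨a, ha⟩
      refine ⟨fun _ => true, fun C hC => ?_⟩
      obtain ⟨l, hl, -⟩ := ha _ (List.mem_map_of_mem hC)
      obtain ⟨l', -, -⟩ := List.mem_map.1 hl
      exact he.elim l'.1
    · rintro ⟨a, ha⟩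
      refine ⟨fun _ => true, fun C' hC' => ?_⟩
      obtain ⟨C, hC, rfl⟩ := List.mem_map.1 hC'
      obtain ⟨l, -, -⟩ := ha C hC
      exact he.elim l.1

def Mod {V : Type} (a : V → Bool) (χ : CNF V) : Prop := ∀ C ∈ χ, ∃ l ∈ C, a l.1 = l.2

def cd (r : ℕ) (v : ℕ × ℕ × ℕ) : ℕ := r + Nat.pair v.1 (Nat.pair v.2.1 v.2.2)

def ex (n r i : ℕ) (b : Bool) : List Lit := if n ≤ i ∧ i < n + r then [(i - n, !b)] else []

def par (TT IC I0 I1 IW IB FIN : List (List (TL ℕ))) (y : List Bool) (r q T N : ℕ) : CNF ℕ :=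
  ren (cd r) (build TT IC [] [] [] [] FIN y q T N) ++
  (List.range N).flatMap fun i => [false, true].flatMap fun b =>
    (sel I0 I1 IW IB (y ++ List.replicate r b) q i).map fun C =>
      ex y.length r i b ++ (inst 0 i C).map fun l => (cd r l.1, l.2)

theorem mod_par {TT IC I0 I1 IW IB FIN y r q T N} (α a : ℕ → Bool) (h : ∀ i < r, a i = α i) :
    Mod a (par TT IC I0 I1 IW IB FIN y r q T N) ↔
      Mod (fun v => a (cd r v)) (build TT IC I0 I1 IW IB FIN (y ++ (List.range r).map α) q T N) := by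
  have key : ∀ i (K : List (TL ℕ) → Prop),
      (∀ b, ∀ C ∈ sel I0 I1 IW IB (y ++ List.replicate r b) q i,
        (∃ l ∈ ex y.length r i b, a l.1 = l.2) ∨ K C) ↔
      ∀ C ∈ sel I0 I1 IW IB (y ++ (List.range r).map α) q i, K C := by
    intro i K
    by_cases h1 : i < y.length
    · simp [sel, ex, h1, not_le.2 h1, h1.trans_le (Nat.le_add_right _ r),
        List.getElem?_append_left h1]
    by_cases h2 : i < y.length + r
    · have h3 : i - y.length < r := by omega
      simp only [sel, ex, List.length_append, List.length_replicate, List.length_map,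
        List.length_range, h2, not_lt.1 h1, List.getD_eq_getElem?_getD,
        List.getElem?_append_right (not_lt.1 h1), List.getElem?_replicate, h3, List.getElem?_map,
        List.getElem?_range h3]
      cases e : α (i - y.length) <;> simp [h _ h3, e]
    · simp [sel, ex, h2]
  have e0 : ∀ (z : List Bool) i, sel ([] : List (List (TL ℕ))) [] [] [] z q i = [] := by
    intro z i; unfold sel
    cases decide (i < z.length) <;> cases z.getD i false <;> cases decide (i < z.length + q) <;> rfl
  constructor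
  · intro H C hC
    have H1 : ∀ C ∈ build TT IC [] [] [] [] FIN y q T N, ∃ l ∈ C, a (cd r l.1) = l.2 := by
      intro C hC
      simpa only [List.mem_map, exists_exists_and_eq_and] using
        H _ (List.mem_append_left _ (List.mem_map_of_mem hC))
    rcases mem_build.1 hC with hC | ⟨i, hi, C', hC' | hC', rfl⟩ | hC
    · exact H1 C (mem_build.2 (Or.inl hC))
    · exact H1 _ (mem_build.2 (Or.inr (Or.inl ⟨i, hi, C', Or.inl hC', rfl⟩)))
    · refine (key i fun C => ∃ l ∈ inst 0 i C, a (cd r l.1) = l.2).1 (fun b C hC => ?_) C' hC'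
      have := H _ (List.mem_append_right _ (List.mem_flatMap.2 ⟨i, List.mem_range.2 hi,
        List.mem_flatMap.2 ⟨b, by cases b <;> simp, List.mem_map_of_mem hC⟩⟩))
      simpa only [List.mem_append, or_and_right, exists_or, List.mem_map, exists_exists_and_eq_and]
        using this
    · exact H1 C (mem_build.2 (Or.inr (Or.inr hC)))
  · intro H C hC
    rcases List.mem_append.1 hC with hC | hC
    · obtain ⟨C, hC0, rfl⟩ := List.mem_map.1 hC
      have : C ∈ build TT IC I0 I1 IW IB FIN (y ++ (List.range r).map α) q T N := by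
        rcases mem_build.1 hC0 with hC | ⟨i, hi, C', hC' | hC', rfl⟩ | hC
        · exact mem_build.2 (Or.inl hC)
        · exact mem_build.2 (Or.inr (Or.inl ⟨i, hi, C', Or.inl hC', rfl⟩))
        · simp [e0] at hC'
        · exact mem_build.2 (Or.inr (Or.inr hC))
      simpa only [List.mem_map, exists_exists_and_eq_and] using H C this
    · simp only [List.mem_flatMap, List.mem_range, List.mem_map] at hC
      obtain ⟨i, hi, b, -, C', hC', rfl⟩ := hC
      have := (key i fun C => ∃ l ∈ inst 0 i C, a (cd r l.1) = l.2).2 (fun C hC =>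
        H _ (mem_build.2 (Or.inr (Or.inl ⟨i, hi, C, Or.inr hC, rfl⟩)))) b C' hC'
      simpa only [List.mem_append, or_and_right, exists_or, List.mem_map, exists_exists_and_eq_and]
        using this

theorem tableau_par {f : List Bool → List Bool} (hf : PolyTime f) :
    ∃ g : List Bool × ℕ × ℕ → CNF ℕ, PT g ∧ ∀ y r q (α : ℕ → Bool),
      (∃ a, (∀ i < r, a i = α i) ∧ Mod a (g (y, r, q))) ↔
        ∃ w : List Bool, w.length ≤ q ∧ f (y ++ (List.range r).map α ++ w) = [true] := by
  obtain ⟨TT, IC, I0, I1, IW, IB, FIN, D, τ, h⟩ := tableauN hf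
  refine ⟨fun p => par TT IC I0 I1 IW IB FIN p.1 p.2.1 p.2.2 (τ.eval (p.1.length + p.2.1 + p.2.2))
    (τ.eval (p.1.length + p.2.1 + p.2.2) * D + (p.1.length + p.2.1 + p.2.2 + 2)), ?_,
    fun y r q α => ?_⟩
  · have hT : PT fun p : List Bool × ℕ × ℕ => τ.eval (p.1.length + p.2.1 + p.2.2) :=
      PT.polyEval τ (by fun_prop)
    have : PT fun p : (List Bool × ℕ × ℕ) × ℕ => par TT IC I0 I1 IW IB FIN p.1.1 p.1.2.1 p.1.2.2 p.2
        (p.2 * D + (p.1.1.length + p.1.2.1 + p.1.2.2 + 2)) := by
      unfold par ren build sel inst ex cd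
      fun_prop
    exact this.comp (PT.id'.mk hT)
  · rw [← h]
    simp only [List.length_append, List.length_map, List.length_range]
    constructor
    · rintro ⟨a, h1, h2⟩
      exact ⟨fun v => a (cd r v), (mod_par α a h1).1 h2⟩
    · rintro ⟨a, ha⟩
      refine ⟨fun n => if n < r then α n else
        a ((n - r).unpair.1, (n - r).unpair.2.unpair.1, (n - r).unpair.2.unpair.2),
        fun i hi => if_pos hi, (mod_par α _ fun i hi => if_pos hi).2 ?_⟩
      simp only [cd, Nat.add_sub_cancel_left, Nat.unpair_pair, add_lt_iff_neg_left, not_lt_zero,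
        if_false]
      exact ha

/-- `∃ ∀` form: some assignment of the first `n` variables has no satisfying extension -/
def Q2 (p : ℕ × CNF ℕ) : Prop :=
  ∃ α : ℕ → Bool, ¬ ∃ a, (∀ i < p.1, a i = α i) ∧ Mod a p.2

@[fun_prop] theorem pt_ufst {α : Type} [Enc α] {f : α → List Bool} (hf : PT f) :
    PT fun a => ufst (f a) := (PT.bfst.comp hf.bmk).bval

@[fun_prop] theorem pt_usnd {α : Type} [Enc α] {f : α → List Bool} (hf : PT f) :
    PT fun a => usnd (f a) := (PT.bsnd.comp hf.bmk).bval

theorem q2_s2h : S2H (fun _ => True) Q2 := by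
  rintro A ⟨R, ⟨f, hf, hR⟩, p, hA⟩
  have hp : PT fun s : Bits => p.eval (ufst s.val).length := PT.polyEval p (by fun_prop)
  have hF : PT fun s : Bits => Bits.mk [!decide (f (pair (ufst s.val) (pair
      ((ufst ((usnd s.val).take (2 * p.eval (ufst s.val).length + 1))).take
        (p.eval (ufst s.val).length))
      ((usnd s.val).drop (2 * p.eval (ufst s.val).length + 1)))) = [true])] := by
    have h1 : PT fun q : Bits × ℕ => Bits.mk (pair (ufst q.1.val) (pair
        ((ufst ((usnd q.1.val).take (2 * q.2 + 1))).take q.2)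
        ((usnd q.1.val).drop (2 * q.2 + 1)))) := by
      unfold pair; fun_prop
    have h2 := ((Sim.pt_of_polyTime hf).comp (h1.comp (PT.id'.mk hp))).bval
    exact PT.bmk (PT.cons (PT.not (PT.eq h2 (PT.const _))) (PT.const _))
  obtain ⟨g, hg, h⟩ := tableau_par hF.polyTime
  have hx : PT fun x : Bits => p.eval x.val.length := PT.polyEval p (by fun_prop)
  refine ⟨fun x => (2 * p.eval x.val.length + 1,
    g (pair x.val [], 2 * p.eval x.val.length + 1, p.eval x.val.length)),
    PT.mk (by fun_prop) (hg.comp (PT.mk (by unfold pair; fun_prop) (by fun_prop))),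
    fun x => ⟨trivial, ?_⟩⟩
  have e0 : ∀ x u w : List Bool, pair x [] ++ u ++ w = pair x (u ++ w) := fun x u w => by
    simp [pair]
  simp only [Q2, h, hA, hR, e0, ufst_pair, usnd_pair]
  generalize p.eval x.val.length = P
  have e1 : ∀ (α : ℕ → Bool) w, ((List.range (2 * P + 1)).map α ++ w).take (2 * P + 1) =
      (List.range (2 * P + 1)).map α := fun α w => List.take_left' (by simp)
  have e2 : ∀ (α : ℕ → Bool) w, ((List.range (2 * P + 1)).map α ++ w).drop (2 * P + 1) = w :=
    fun α w => List.drop_left' (by simp)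
  simp only [e1, e2]
  constructor
  · rintro ⟨u, h1, h2⟩
    refine ⟨fun i => (pair u (List.replicate (2 * (P - u.length)) false)).getD i false, ?_⟩
    have : (List.range (2 * P + 1)).map (fun i =>
        (pair u (List.replicate (2 * (P - u.length)) false)).getD i false) =
        pair u (List.replicate (2 * (P - u.length)) false) := by
      refine List.ext_getElem (by simp; omega) fun i h1 h2 => ?_
      simp [List.getD_eq_getElem?_getD, List.getElem?_eq_getElem h2]
    rw [this, ufst_pair, List.take_of_length_le h1]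
    simpa using h2
  · rintro ⟨α, h⟩
    exact ⟨_, List.length_take_le _ _, by simpa using h⟩

end Pool.Agent.H36.Sig2
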