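import Pool.Agent.H36.FmDefs
import Pool.Agent.H36.Sig2

namespace Pool.Agent.H36.Fm

open Pool.Agent.H38.NP Pool.Agent.H36.Sig2

theorem toks_inj (f : Fm) : ∀ (g : Fm) (r s : List ℕ), f.toks ++ r = g.toks ++ s → f = g ∧ r = s := by
  induction f with
  | var n => intro g r s h; cases g <;> simp_all [Fm.toks]
  | neg f ih =>
    intro g r s h
    cases g <;> simp only [Fm.toks, List.cons_append, List.cons.injEq] at h <;> try omega
    simpa using ih _ _ _ h.2
  | conj f f' ih ih' =>
    intro g r s h
    cases g <;> simp only [Fm.toks, List.cons_append, List.cons.injEq, List.append_assoc] at h <;>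
      try omega
    obtain ⟨rfl, e⟩ := ih _ _ _ h.2
    simpa using ih' _ _ _ e
  | disj f f' ih ih' =>
    intro g r s h
    cases g <;> simp only [Fm.toks, List.cons_append, List.cons.injEq, List.append_assoc] at h <;>
      try omega
    obtain ⟨rfl, e⟩ := ih _ _ _ h.2
    simpa using ih' _ _ _ e

instance : EncInj Fm := ⟨fun f g h =>
  (toks_inj f g [] [] (by simpa using (EncInj.inj h : f.toks = g.toks))).1⟩

section
variable {α : Type} [Enc α]

@[fun_prop] theorem pt_toks {f : α → Fm} (h : PT f) : PT fun a => (f a).toks := h.recast' fun _ => rfl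
theorem of_toks {f : α → Fm} (h : PT fun a => (f a).toks) : PT f := h.recast' fun _ => rfl

@[fun_prop] theorem pt_var {f : α → ℕ} (h : PT f) : PT fun a => Fm.var (f a) :=
  of_toks (by simp only [Fm.toks]; fun_prop)
@[fun_prop] theorem pt_neg {f : α → Fm} (h : PT f) : PT fun a => Fm.neg (f a) :=
  of_toks (by simp only [Fm.toks]; fun_prop)
@[fun_prop] theorem pt_conj {f g : α → Fm} (h : PT f) (h' : PT g) :
    PT fun a => Fm.conj (f a) (g a) := of_toks (by simp only [Fm.toks]; fun_prop)
@[fun_prop] theorem pt_disj {f g : α → Fm} (h : PT f) (h' : PT g) :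
    PT fun a => Fm.disj (f a) (g a) := of_toks (by simp only [Fm.toks]; fun_prop)

def bigAnd (l : List Fm) : Fm := l.foldr .conj (.disj (.var 0) (.neg (.var 0)))
def bigOr (l : List Fm) : Fm := l.foldr .disj (.conj (.var 0) (.neg (.var 0)))

@[fun_prop] theorem pt_bigAnd {l : α → List Fm} (h : PT l) : PT fun a => bigAnd (l a) := by
  have : ∀ l, (bigAnd l).toks = (l.flatMap fun f => 1 :: f.toks) ++ [2, 3, 0, 3] := fun l => by
    induction l with
    | nil => rfl
    | cons a l ih => simp [← ih, bigAnd, Fm.toks]
  exact of_toks (by simp only [this]; fun_prop)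

@[fun_prop] theorem pt_bigOr {l : α → List Fm} (h : PT l) : PT fun a => bigOr (l a) := by
  have : ∀ l, (bigOr l).toks = (l.flatMap fun f => 2 :: f.toks) ++ [1, 3, 0, 3] := fun l => by
    induction l with
    | nil => rfl
    | cons a l ih => simp [← ih, bigOr, Fm.toks]
  exact of_toks (by simp only [this]; fun_prop)

end

theorem eval_bigAnd {a l} : (bigAnd l).eval a = true ↔ ∀ f ∈ l, f.eval a = true := by
  induction l with
  | nil => simp [bigAnd, Fm.eval]
  | cons f l ih => simp [← ih, bigAnd, Fm.eval]

theorem eval_bigOr {a l} : (bigOr l).eval a = true ↔ ∃ f ∈ l, f.eval a = true := by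
  induction l with
  | nil => simp [bigOr, Fm.eval]
  | cons f l ih => simp [← ih, bigOr, Fm.eval]

theorem vars_bigAnd {l f} (h : f ∈ l) : f.vars ⊆ (bigAnd l).vars := by
  induction l with
  | nil => simp at h
  | cons g l ih =>
    rcases List.mem_cons.1 h with rfl | h
    · exact Finset.subset_union_left
    · exact (ih h).trans Finset.subset_union_right

theorem eval_ren (π a) (f : Fm) : (f.ren π).eval a = f.eval fun x => a (π x) := by
  induction f <;> simp_all [Fm.ren, Fm.eval]

def lit (l : Lit) : Fm := cond l.2 (.var l.1) (.neg (.var l.1))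

def cnf (χ : CNF ℕ) : Fm := bigAnd (χ.map fun C => bigOr (C.map lit))

theorem eval_cnf {a χ} : (cnf χ).eval a = true ↔ Mod a χ := by
  have : ∀ l : Lit, (lit l).eval a = true ↔ a l.1 = l.2 := by
    rintro ⟨v, _ | _⟩ <;> simp [lit, Fm.eval]
  simp only [cnf, eval_bigAnd, List.mem_map, forall_exists_index, and_imp,
    forall_apply_eq_imp_iff₂, eval_bigOr, exists_exists_and_eq_and, this, Sig2.Mod]

def fa (n : ℕ) : Fm :=
  bigAnd ((List.range n).map fun i => .conj (.var (2 * i)) (.neg (.var (2 * i + 1))))

def fb (p : ℕ × CNF ℕ) : Fm :=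
  .conj (bigAnd ((List.range p.1).map fun i =>
    .disj (.conj (.var (2 * i)) (.neg (.var (2 * i + 1))))
      (.conj (.var (2 * i + 1)) (.neg (.var (2 * i))))))
    (.neg (cnf (ren (2 * ·) p.2)))

theorem eval_fa {a n} : (fa n).eval a = true ↔ ∀ i < n, a (2 * i) = true ∧ a (2 * i + 1) = false := by
  simp [fa, eval_bigAnd, Fm.eval]

theorem eval_fb {a p} : (fb p).eval a = true ↔ (∀ i < p.1, a (2 * i) ≠ a (2 * i + 1)) ∧
    ¬ Mod (fun v => a (2 * v)) p.2 := by
  have : Mod a (ren (2 * ·) p.2) ↔ Mod (fun v => a (2 * v)) p.2 := by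
    simp only [Sig2.Mod, ren, List.mem_map, forall_exists_index, and_imp, forall_apply_eq_imp_iff₂,
      exists_exists_and_eq_and]
  simp only [fb, Fm.eval, Bool.and_eq_true, eval_bigAnd, List.mem_map, List.mem_range,
    forall_exists_index, and_imp, forall_apply_eq_imp_iff₂, Bool.not_eq_true', ← this, ← eval_cnf,
    Bool.not_eq_true]
  refine and_congr_left fun _ => forall₂_congr fun i _ => ?_
  cases a (2 * i) <;> cases a (2 * i + 1) <;> simp

theorem hard : S2H (fun _ : Fm × Fm => True) fun p => IsoImp p.1 p.2 := by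
  refine q2_s2h.reduce (fun p => (fa p.1, fb p)) (by unfold fa fb cnf lit ren; fun_prop)
    fun ⟨n, χ⟩ _ => ⟨trivial, ?_⟩
  simp only [Q2, IsoImp, eval_ren, eval_fa, eval_fb]
  constructor
  · rintro ⟨α, h⟩
    let s : ℕ → ℕ := fun x => if x < 2 * n ∧ α (x / 2) = false then
      (if x % 2 = 0 then x + 1 else x - 1) else x
    have hs : Function.Involutive s := by
      intro x
      simp only [s]
      by_cases e : x < 2 * n ∧ α (x / 2) = false
      · rw [if_pos e]
        by_cases e' : x % 2 = 0
        · rw [if_pos e', if_pos ⟨by omega, by rw [show (x + 1) / 2 = x / 2 by omega]; exact e.2⟩,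
            if_neg (by omega)]
          rfl
        · rw [if_neg e', if_pos ⟨by omega, by rw [show (x - 1) / 2 = x / 2 by omega]; exact e.2⟩,
            if_pos (by omega)]
          omega
      · rw [if_neg e, if_neg e]
    refine ⟨hs.toPerm, fun x hx => ?_, fun a ha => ?_⟩
    · refine if_neg fun e => hx (Finset.mem_union_left _ (vars_bigAnd (List.mem_map.2
        ⟨x / 2, List.mem_range.2 (by omega), rfl⟩) ?_))
      simp only [Fm.vars, Finset.mem_union, Finset.mem_singleton]
      omega
    · have : ∀ i < n, a (2 * i) = α i ∧ a (2 * i + 1) = !α i := by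
        intro i hi
        have := ha i hi
        simp only [Function.Involutive.coe_toPerm, s, show 2 * i / 2 = i by omega,
          show (2 * i + 1) / 2 = i by omega, show 2 * i < 2 * n by omega,
          show 2 * i + 1 < 2 * n by omega] at this
        cases e : α i <;> simp [e] at this ⊢ <;> tauto
      exact ⟨fun i hi => by simp [this i hi], fun hm => h ⟨_, fun i hi => (this i hi).1, hm⟩⟩
  · rintro ⟨π, -, h⟩
    classical
    let t : ℕ → Bool := fun j => decide (π.symm j < 2 * n ∧ π.symm j % 2 = 0)
    have h1 : ∀ j < 2 * n, π.symm j < 2 * n := by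
      intro j hj
      by_contra hh
      have key : ∀ b, (Function.update t j b) (2 * (j / 2)) ≠
          (Function.update t j b) (2 * (j / 2) + 1) := fun b => by
        refine (h _ fun i hi => ?_).1 _ (by omega)
        have e : ∀ x < 2 * n, π x ≠ j := fun x hx e => hh (by rw [← e]; simpa using hx)
        rw [Function.update_of_ne (e _ (by omega)), Function.update_of_ne (e _ (by omega))]
        simp [t]; omega
      rcases Nat.mod_two_eq_zero_or_one j with e | e
      · have := key (t (j + 1))
        rw [show 2 * (j / 2) = j by omega] at this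
        simp at this
      · have := key (t (2 * (j / 2)))
        rw [Function.update_of_ne (by omega), show 2 * (j / 2) + 1 = j by omega] at this
        simp at this
    have h2 : ∀ x < 2 * n, π x < 2 * n := by
      intro x hx
      obtain ⟨j, hj, e⟩ := Finset.surj_on_of_inj_on_of_card_le (s := Finset.range (2 * n))
        (t := Finset.range (2 * n)) (fun j _ => π.symm j) (by simpa using h1)
        (fun a b _ _ e => π.symm.injective e) le_rfl x (by simpa using hx)
      rw [e]; simpa using hj
    refine ⟨fun i => t (2 * i), ?_⟩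
    rintro ⟨b, hb, hm⟩
    refine (h (fun j => if j < 2 * n then t j else b (j / 2)) fun i hi => ?_).2 ?_
    · rw [if_pos (h2 _ (by omega)), if_pos (h2 _ (by omega))]
      simp [t]; omega
    · convert hm using 2 with v
      split_ifs with e
      · exact (hb v (by omega)).symm
      · simp

end Pool.Agent.H36.Fm
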