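import Pool.Agent.H38.NP.Defs

namespace Pool.Agent.H36.Fm

open Pool.Agent.H38.NP

/-- propositional formulas over the variables `0, 1, 2, …` -/
inductive Fm
  | var (n : ℕ)
  | neg (f : Fm)
  | conj (f g : Fm)
  | disj (f g : Fm)

/-- truth value under an assignment -/
def Fm.eval (a : ℕ → Bool) : Fm → Bool
  | .var n => a n
  | .neg f => !f.eval a
  | .conj f g => f.eval a && g.eval a
  | .disj f g => f.eval a || g.eval a

/-- the variables that occur -/
def Fm.vars : Fm → Finset ℕ
  | .var n => {n}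
  | .neg f => f.vars
  | .conj f g => f.vars ∪ g.vars
  | .disj f g => f.vars ∪ g.vars

/-- simultaneous renaming of the variables -/
def Fm.ren (π : ℕ → ℕ) : Fm → Fm
  | .var n => .var (π n)
  | .neg f => .neg (f.ren π)
  | .conj f g => .conj (f.ren π) (g.ren π)
  | .disj f g => .disj (f.ren π) (g.ren π)

/-- Polish form: `0, 1, 2` stand for the connectives and `n + 3` for variable `n` -/
def Fm.toks : Fm → List ℕ
  | .var n => [n + 3]
  | .neg f => 0 :: f.toks
  | .conj f g => 1 :: (f.toks ++ g.toks)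
  | .disj f g => 2 :: (f.toks ++ g.toks)

instance encFm : Enc Fm := ⟨fun f => enc f.toks⟩

/-- isomorphic implication: some permutation `π` of the set of variables of `φ` and `ψ`
makes `π(φ) ⇒ ψ` valid -/
def IsoImp (φ ψ : Fm) : Prop :=
  ∃ π : Equiv.Perm ℕ, (∀ x, x ∉ φ.vars ∪ ψ.vars → π x = x) ∧
    ∀ a, (φ.ren π).eval a = true → ψ.eval a = true

end Pool.Agent.H36.Fm
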