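import Mathlib

/-!
Fraction-free greedy Gram-Schmidt finds the vertices of a cross-polytope.
-/

namespace Pool.Agent.H36.Greedy

open Matrix Finset

section
variable {R ι κ : Type} [CommRing R] [Fintype ι] [DecidableEq ι] [Fintype κ] [DecidableEq κ]

def QQ (B : Matrix ι κ R) : Matrix κ κ R :=
  det (B * Bᵀ) • 1 - Bᵀ * adjugate (B * Bᵀ) * B

theorem mul_QQ (B : Matrix ι κ R) : B * QQ B = 0 := by
  rw [QQ, Matrix.mul_sub, ← Matrix.mul_assoc, ← Matrix.mul_assoc, mul_adjugate]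
  simp

theorem QQ_symm (B : Matrix ι κ R) : (QQ B)ᵀ = QQ B := by
  simp [QQ, transpose_mul, adjugate_transpose, Matrix.mul_assoc]

theorem QQ_mul (B : Matrix ι κ R) : QQ B * Bᵀ = 0 := by
  rw [← QQ_symm, ← transpose_mul, mul_QQ, transpose_zero]

theorem QQ_uniq (B : Matrix ι κ R) {Z : Matrix κ κ R} {c : R} {Y : Matrix ι κ R} (h1 : B * Z = 0)
    (h2 : c • 1 - Z = Bᵀ * Y) : c • QQ B = det (B * Bᵀ) • Z := by
  have a : QQ B * (c • 1 - Z) = 0 := by rw [h2, ← Matrix.mul_assoc, QQ_mul, Matrix.zero_mul]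
  have b : QQ B * Z = det (B * Bᵀ) • Z := by
    rw [QQ, Matrix.sub_mul, Matrix.mul_assoc, h1]
    simp
  rw [Matrix.mul_sub, b, sub_eq_zero] at a
  simpa using a

theorem QQ_sq (B : Matrix ι κ R) : QQ B * QQ B = det (B * Bᵀ) • QQ B := by
  conv_lhs => arg 1; rw [QQ]
  rw [Matrix.sub_mul, Matrix.mul_assoc, mul_QQ]
  simp

def ext (B : Matrix ι κ R) (w : κ → R) : Matrix (ι ⊕ Unit) κ R :=
  fromRows B (replicateRow Unit w)

theorem det_ext [IsDomain R] (B : Matrix ι κ R) (w : κ → R) (h : det (B * Bᵀ) ≠ 0) :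
    det (ext B w * (ext B w)ᵀ) = w ⬝ᵥ QQ B *ᵥ w := by
  have a : fromBlocks 1 0 (-(replicateRow Unit w * Bᵀ * adjugate (B * Bᵀ)))
      (det (B * Bᵀ) • (1 : Matrix Unit Unit R)) * (ext B w * (ext B w)ᵀ) =
      fromBlocks (B * Bᵀ) (B * (replicateRow Unit w)ᵀ) 0
        (replicateRow Unit w * QQ B * (replicateRow Unit w)ᵀ) := by
    rw [ext, transpose_fromRows, fromRows_mul_fromCols, fromBlocks_multiply]
    congr 1
    · simp
    · simp
    · rw [Matrix.neg_mul, Matrix.mul_assoc _ (adjugate _), adjugate_mul]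
      simp
    · simp only [QQ, Matrix.mul_sub, Matrix.sub_mul, Matrix.mul_assoc]
      simp [sub_eq_neg_add, Matrix.mul_assoc]
  have b := congrArg det a
  rw [det_mul, det_fromBlocks_zero₁₂, det_fromBlocks_zero₂₁] at b
  refine mul_left_cancel₀ h ?_
  rw [Matrix.mul_assoc, transpose_replicateRow, ← replicateCol_mulVec] at b
  simpa [dotProduct, mul_apply] using b

theorem QQ_ext [IsDomain R] (B : Matrix ι κ R) (w : κ → R) (h : det (B * Bᵀ) ≠ 0)
    (h' : w ⬝ᵥ QQ B *ᵥ w ≠ 0) : det (B * Bᵀ) • QQ (ext B w) =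
      (w ⬝ᵥ QQ B *ᵥ w) • QQ B - vecMulVec (QQ B *ᵥ w) (QQ B *ᵥ w) := by
  have e : w ᵥ* QQ B = QQ B *ᵥ w := by rw [← QQ_symm, vecMul_transpose, QQ_symm]
  have := QQ_uniq (ext B w) (c := (w ⬝ᵥ QQ B *ᵥ w) * det (B * Bᵀ))
    (Z := (w ⬝ᵥ QQ B *ᵥ w) • QQ B - vecMulVec (QQ B *ᵥ w) (QQ B *ᵥ w))
    (Y := fromRows ((w ⬝ᵥ QQ B *ᵥ w) • (adjugate (B * Bᵀ) * B) -
      vecMulVec ((adjugate (B * Bᵀ) * B) *ᵥ w) (QQ B *ᵥ w))
      (replicateRow Unit (det (B * Bᵀ) • QQ B *ᵥ w))) ?_ ?_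
  · rw [det_ext B w h, mul_smul] at this
    exact smul_right_injective _ h' this
  · rw [ext, fromRows_mul, ← fromRows_zero]
    congr 1
    · simp [Matrix.mul_sub, mul_QQ, mul_vecMulVec]
    · rw [← replicateRow_vecMul, vecMul_sub, vecMul_smul, e, vecMul_vecMulVec]
      simp
  · rw [ext, transpose_fromRows, fromCols_mul_fromRows, transpose_replicateRow, ← vecMulVec_eq,
      Matrix.mul_sub, mul_vecMulVec, mulVec_mulVec, ← Matrix.mul_assoc, Matrix.mul_smul,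
      ← Matrix.mul_assoc, show Bᵀ * adjugate (B * Bᵀ) * B = det (B * Bᵀ) • 1 - QQ B by simp [QQ]]
    ext a b
    simp [vecMulVec_apply, sub_mulVec, smul_mulVec]
    ring

theorem QQ_map {S : Type} [CommRing S] (f : R →+* S) (B : Matrix ι κ R) :
    QQ (B.map f) = (QQ B).map f := by
  have e : B.map f * (B.map f)ᵀ = f.mapMatrix (B * Bᵀ) := by simp [Matrix.map_mul, transpose_map]
  rw [QQ, QQ, e, ← RingHom.map_adjugate, ← RingHom.map_det]
  ext a b
  simp [mul_apply, one_apply, apply_ite f]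

end

theorem vertex {n : ℕ} {U : Matrix (Fin n) (Fin n) ℝ} (hU : det U ≠ 0) {ι : Type} [Fintype ι]
    [DecidableEq ι] {σ : ι → Fin n} (hσ : ∃ i, i ∉ Set.range σ)
    (hd : 0 < det (U.submatrix σ id * (U.submatrix σ id)ᵀ)) {t : Fin n → ℝ} (ht : ∑ i, |t i| ≤ 1)
    (hm : ∀ i, U i ⬝ᵥ QQ (U.submatrix σ id) *ᵥ U i ≤
      (t ᵥ* U) ⬝ᵥ QQ (U.submatrix σ id) *ᵥ (t ᵥ* U)) :
    0 < (t ᵥ* U) ⬝ᵥ QQ (U.submatrix σ id) *ᵥ (t ᵥ* U) ∧
      ∃ i, i ∉ Set.range σ ∧ (t ᵥ* U = U i ∨ t ᵥ* U = -U i) := by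
  set B := U.submatrix σ id
  set d := det (B * Bᵀ)
  have sq : ∀ v v', d * (v ⬝ᵥ QQ B *ᵥ v') = (QQ B *ᵥ v) ⬝ᵥ (QQ B *ᵥ v') := fun v v' => by
    rw [dotProduct_mulVec (QQ B *ᵥ v), ← QQ_symm, vecMul_transpose, QQ_symm, mulVec_mulVec, QQ_sq,
      smul_mulVec, smul_dotProduct, dotProduct_mulVec, ← QQ_symm, vecMul_transpose, QQ_symm]
    rfl
  have ker : ∀ s : Fin n → ℝ, QQ B *ᵥ (s ᵥ* U) = 0 → ∀ i, i ∉ Set.range σ → s i = 0 := by
    intro s hs i hi
    rw [QQ, sub_mulVec, smul_mulVec, one_mulVec, sub_eq_zero, Matrix.mul_assoc, ← mulVec_mulVec,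
      mulVec_transpose, ← smul_vecMul] at hs
    generalize (adjugate (B * Bᵀ) * B) *ᵥ (s ᵥ* U) = s' at hs
    have e : s' ᵥ* B = (fun i => ∑ r, if σ r = i then s' r else 0) ᵥ* U := by
      ext b
      simp only [vecMul, dotProduct, sum_mul]
      rw [sum_comm]
      simp [B]
    have := congrFun (vecMul_injective_of_isUnit
      ((isUnit_iff_isUnit_det _).2 (Ne.isUnit hU)) (hs.trans e)) i
    rw [sum_eq_zero fun r _ => if_neg fun e => hi ⟨r, e⟩] at this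
    simpa [hd.ne', d] using this
  have nn : ∀ v : Fin n → ℝ, 0 ≤ v ⬝ᵥ v := fun v => sum_nonneg fun i _ => mul_self_nonneg _
  let y : Fin n → Fin n → ℝ := fun i => QQ B *ᵥ U i
  have y0 : ∀ i ∈ Set.range σ, y i = 0 := by
    rintro _ ⟨r, rfl⟩
    funext a
    simpa [mul_apply, y, mulVec, dotProduct, B] using congrFun (congrFun (QQ_mul B) a) r
  have es : ∀ s : Fin n → ℝ, QQ B *ᵥ (s ᵥ* U) = ∑ i, s i • y i := fun s => by
    rw [vecMul_eq_sum, mulVec_sum]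
    exact sum_congr rfl fun i _ => mulVec_smul ..
  set m := (QQ B *ᵥ (t ᵥ* U)) ⬝ᵥ (QQ B *ᵥ (t ᵥ* U)) with em
  have hm' : ∀ i, y i ⬝ᵥ y i ≤ m := fun i => by
    rw [em, ← sq, ← sq]
    exact mul_le_mul_of_nonneg_left (hm i) hd.le
  have pos : ∀ s : Fin n → ℝ, (∃ i, i ∉ Set.range σ ∧ s i ≠ 0) →
      0 < (∑ i, s i • y i) ⬝ᵥ (∑ i, s i • y i) := fun s ⟨i, h1, h2⟩ =>
    (nn _).lt_of_ne' fun e => h2 (ker s (es s ▸ dotProduct_self_eq_zero.1 e) i h1)
  have m0 : 0 < m := by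
    obtain ⟨i, hi⟩ := hσ
    refine lt_of_lt_of_le ?_ (hm' i)
    simpa [Pi.single_apply] using pos (Pi.single i 1) ⟨i, hi, by simp⟩
  have st : ∀ i k, i ≠ k → |y i ⬝ᵥ y k| < m := fun i k e => by
    by_cases c : i ∈ Set.range σ
    · simpa [y0 i c] using m0
    have a := pos (Pi.single i 1 + Pi.single k 1) ⟨i, c, by simp [e]⟩
    have b := pos (Pi.single i 1 - Pi.single k 1) ⟨i, c, by simp [e]⟩
    simp [add_smul, sub_smul, sum_add_distrib, Pi.single_apply, dotProduct_comm (y k) (y i)] at a b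
    have := hm' i
    have := hm' k
    exact abs_lt.2 ⟨by linarith, by linarith⟩
  have le : ∀ i k, t i * t k * (y i ⬝ᵥ y k) ≤ |t i| * |t k| * m := fun i k => by
    refine (le_abs_self _).trans ?_
    rw [abs_mul, abs_mul]
    refine mul_le_mul_of_nonneg_left ?_ (by positivity)
    by_cases e : i = k
    · subst e
      exact (abs_of_nonneg (nn _)).trans_le (hm' i)
    · exact (st i k e).le
  have ex : m = ∑ p : Fin n × Fin n, t p.1 * t p.2 * (y p.1 ⬝ᵥ y p.2) := by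
    rw [em, es, sum_dotProduct, Fintype.sum_prod_type]
    refine sum_congr rfl fun i _ => ?_
    rw [dotProduct_sum]
    exact sum_congr rfl fun k _ => by simp; ring
  have eq := (sum_eq_sum_iff_of_le (s := univ) fun (p : Fin n × Fin n) _ => le p.1 p.2).1
    (le_antisymm (sum_le_sum fun p _ => le p.1 p.2) (by
      rw [← ex, ← sum_mul, Fintype.sum_prod_type' fun i k => |t i| * |t k|, ← sum_mul_sum]
      exact mul_le_of_le_one_left m0.le (mul_le_one₀ ht (by positivity) ht)))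
  have z : ∀ i k, i ≠ k → t i = 0 ∨ t k = 0 := fun i k e => by
    by_contra c
    push Not at c
    have a := (eq (i, k) (mem_univ _)).symm.trans_le (le_abs_self _)
    rw [abs_mul, abs_mul] at a
    exact absurd (le_of_mul_le_mul_left a (mul_pos (abs_pos.2 c.1) (abs_pos.2 c.2))) (st i k e).not_ge
  obtain ⟨i, hi⟩ : ∃ i, t i ≠ 0 := by
    by_contra c
    push Not at c
    simp [ex, c] at m0
  have z' : ∀ k, k ≠ i → t k = 0 := fun k e => (z k i e).resolve_right hi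
  have e1 : t ᵥ* U = t i • U i := by
    rw [vecMul_eq_sum, sum_eq_single i (fun k _ e => by simp [z' k e]) (by simp)]
  have e2 : m = t i * t i * (y i ⬝ᵥ y i) := by
    rw [em, e1, mulVec_smul]; simp [y]; ring
  refine ⟨(pos_iff_pos_of_mul_pos (sq _ _ ▸ m0)).1 hd, i, fun c => by simp [e2, y0 i c] at m0, ?_⟩
  have a : |t i| ≤ 1 := (single_le_sum (fun k _ => abs_nonneg (t k)) (mem_univ i)).trans ht
  have b : 1 ≤ |t i| := by
    rw [← one_le_sq_iff_one_le_abs]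
    have := hm' i
    nlinarith [mul_self_nonneg (t i)]
  rcases (abs_eq zero_le_one).1 (le_antisymm a b) with c | c <;> simp [e1, c]

end Pool.Agent.H36.Greedy
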