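import Pool.Agent.H36.Sim

/-!
Pruning: a problem whose instances fall into polynomially many classes that are linearly
preordered by a polynomial-time test is not NP-hard unless P = NP. Guarded iteration.
-/

namespace Pool.Agent.H36.Prune

open Pool.Agent.H38.NP Function

variable {α σ : Type} [Enc α] [Enc σ]

def gd (B : ℕ) (f : σ → σ) (s : σ) : σ := if sz s ≤ B then f s else s

theorem pt_gd {step : α → σ → σ} (hs : PT fun p : α × σ => step p.1 p.2) {n B : α → ℕ}
    (hn : PT n) (hB : PT B) {init : α → σ} (hi : PT init) :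
    PT fun a => (gd (B a) (step a))^[n a] (init a) := by
  obtain ⟨q, hq⟩ := hs.pb
  refine PT.iterate (step := fun a => gd (B a) (step a)) (PT.ite (by fun_prop) hs (by fun_prop))
    hn hi (B := fun a => sz (init a) + q.eval (2 * sz a + 1 + B a))
    (hi.pb.add (PB.eval q ((((PB.const 2).mul PB.sz).add (PB.const 1)).add hB.nat_pb)))
    fun a i hi => ?_
  clear hi
  induction i with
  | zero => simp
  | succ i ih =>
    rw [iterate_succ_apply', gd]
    split_ifs with c
    · exact ((hq (a, _)).trans (eval_mono q (by rw [sz_prod]; simpa using c))).trans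
        (Nat.le_add_left _ _)
    · exact ih

theorem gd_eq {B n : ℕ} {f : σ → σ} {s : σ} (h : ∀ i < n, sz (f^[i] s) ≤ B) :
    (gd B f)^[n] s = f^[n] s := by
  induction n with
  | zero => rfl
  | succ n ih =>
    rw [iterate_succ_apply', iterate_succ_apply', ih fun i hi => h i (by omega), gd,
      if_pos (h n (by omega))]

def pick (B : ℕ) (key : σ → ℕ) (le : σ → σ → Bool) (L : List σ) : List σ :=
  (List.range B).filterMap fun k =>
    L.find? fun w => decide (key w = k) && L.all fun v => !decide (key v = k) || le w v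

omit [Enc σ] in
theorem pick_sub {B key le} {L : List σ} {w} (h : w ∈ pick B key le L) : w ∈ L := by
  obtain ⟨k, -, e⟩ := List.mem_filterMap.1 h
  exact List.mem_of_find?_eq_some e

omit [Enc σ] in
theorem pick_ex {B key le} {L : List σ} (ρ : σ → ℝ) (h : ∀ a ∈ L, ∀ b ∈ L, le a b = true ↔ ρ a ≤ ρ b)
    {w} (hw : w ∈ L) (hk : key w < B) : ∃ v ∈ pick B key le L, key v = key w ∧ ρ v ≤ ρ w := by
  classical
  obtain ⟨u, u1, u2⟩ := Finset.exists_min_image (L.toFinset.filter fun v => key v = key w) ρ
    ⟨w, by simpa using hw⟩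
  simp only [Finset.mem_filter, List.mem_toFinset, and_imp] at u1 u2
  cases c : L.find? fun u => decide (key u = key w) &&
      L.all fun v => !decide (key v = key w) || le u v with
  | none =>
    refine absurd ?_ (List.find?_eq_none.1 c u u1.1)
    simp only [Bool.and_eq_true, decide_eq_true_eq, List.all_eq_true, Bool.or_eq_true,
      Bool.not_eq_true', decide_eq_false_iff_not]
    exact ⟨u1.2, fun v hv => or_iff_not_imp_left.2 fun e => (h u u1.1 v hv).2 (u2 v hv (not_not.1 e))⟩
  | some v =>
    have a := List.find?_some c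
    have b := List.mem_of_find?_eq_some c
    simp only [Bool.and_eq_true, decide_eq_true_eq, List.all_eq_true, Bool.or_eq_true,
      Bool.not_eq_true', decide_eq_false_iff_not] at a
    exact ⟨v, List.mem_filterMap.2 ⟨_, List.mem_range.2 hk, c⟩, a.1,
      (h v b w hw).1 ((a.2 w hw).resolve_left (by simp))⟩

theorem prune {C P : α → Prop} (key : Bits → ℕ) (hk : PT key) (le : Bits → Bits → Bool)
    (hle : PT fun p : Bits × Bits => le p.1 p.2) (ρ : α → ℝ)
    (h1 : ∀ a b, C a → C b → (le (raw a) (raw b) = true ↔ ρ a ≤ ρ b))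
    (h2 : ∀ a b, C a → C b → key (raw a) = key (raw b) → ρ a ≤ ρ b → P b → P a)
    (h : NPHardOn C P) : ∀ A, InNP A → InP A := by
  rintro A ⟨R, ⟨r, hr, er⟩, p, hA⟩
  let V : Bits → List Bool → Bool := fun x w => decide (w.length ≤ p.eval (sz x)) &&
    decide (r (pair x.val w) = [true])
  have hV : PT fun q : Bits × List Bool => V q.1 q.2 := by
    have : PT fun q : Bits × List Bool => (⟨r (pair q.1.val q.2)⟩ : Bits) :=
      (Sim.pt_of_polyTime hr).comp (g := fun q : Bits × List Bool => raw (q.1, (⟨q.2⟩ : Bits)))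
        (by fun_prop)
    exact PT.and (PT.le (by fun_prop) (PT.polyEval p (by fun_prop))) (PT.eq this.bval (PT.const _))
  have h3 : InNP (lang fun q : Bits × List Bool => ∃ u, V q.1 (q.2 ++ u) = true) := by
    refine inNP_lang (fun q u => V q.1 (q.2 ++ u))
      (hV.comp (g := fun q : (Bits × List Bool) × List Bool => (q.1.1, q.1.2 ++ q.2)) (by fun_prop))
      (B := fun q => p.eval (sz q.1) * 3) (PT.nat_pb (PT.mul (PT.polyEval p (by fun_prop))
        (PT.const _))) (fun q ⟨u, hu⟩ => ⟨u, ?_, hu⟩) fun p r e => ⟨r, e⟩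
    refine (sz_le_of_forall (B := 1) fun x _ => by simp).trans (Nat.mul_le_mul_right _ ?_)
    simp only [V, Bool.and_eq_true, decide_eq_true_eq, List.length_append] at hu
    omega
  obtain ⟨f, hf, ef⟩ := h _ h3
  let F : Bits → List Bool → Bits := fun x w => ⟨f (enc (x, w))⟩
  have hF : PT fun q : Bits × List Bool => F q.1 q.2 := (Sim.pt_of_polyTime hf).comp PT.id'.raw
  have eF : ∀ x w, ∃ a, F x w = raw a ∧ C a ∧ ((∃ u, V x (w ++ u) = true) ↔ P a) := fun x w => by
    obtain ⟨a, a1, a2, a3⟩ := ef (enc (x, w))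
    exact ⟨a, congrArg Bits.mk a1, a2, (enc_mem_lang (x, w)).symm.trans a3⟩
  choose g g1 g2 g3 using eF
  obtain ⟨q, hq⟩ := (hk.comp hF).nat_pb
  let N : Bits → ℕ := fun x => p.eval (sz x) + 1
  let B : Bits → ℕ := fun x => q.eval (2 * sz x + 1 + N x * 3) + 1
  have hN : PT N := PT.add (PT.polyEval p (by fun_prop)) (PT.const _)
  have hB : PT B := PT.add (PT.polyEval q (by fun_prop)) (PT.const _)
  let st : Bits → Bool × List (List Bool) → Bool × List (List Bool) := fun x s =>
    (s.1 || s.2.any (V x), pick (B x) (fun w => key (F x w)) (fun w v => le (F x w) (F x v))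
      (s.2.flatMap fun w => [w ++ [false], w ++ [true]]))
  have hs : PT fun s : Bits × Bool × List (List Bool) => st s.1 s.2 := by
    refine PT.mk (PT.or (by fun_prop) (PT.any (hV.comp (g := fun z : (Bits × Bool ×
      List (List Bool)) × List Bool => (z.1.1, z.2)) (by fun_prop)) (by fun_prop))) ?_
    have k : ∀ {β : Type} [Enc β] {x : β → Bits} {w : β → List Bool}, PT x → PT w →
        PT fun b => F (x b) (w b) := fun hx hw => hF.comp (hx.mk hw)
    have : PT fun z : Bits × List (List Bool) => pick (B z.1) (fun w => key (F z.1 w))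
        (fun w v => le (F z.1 w) (F z.1 v)) z.2 := by
      unfold pick
      refine PT.filterMap (PT.find? (PT.and (PT.eq (hk.comp (k (by fun_prop) (by fun_prop)))
        (by fun_prop)) (PT.all (PT.or (PT.eq (hk.comp (k (by fun_prop) (by fun_prop)))
        (by fun_prop)).not (hle.comp ((k (by fun_prop) (by fun_prop)).mk
        (k (by fun_prop) (by fun_prop))))) (by fun_prop))) (by fun_prop)) (hB.comp PT.id'.fst).range
    exact this.comp (g := fun s : Bits × Bool × List (List Bool) =>
      (s.1, s.2.2.flatMap fun w => [w ++ [false], w ++ [true]])) (by fun_prop)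
  have inv : ∀ x i, i ≤ N x → ((st x)^[i] (false, [[]])).2.length ≤ B x ∧
      (∀ w ∈ ((st x)^[i] (false, [[]])).2, w.length = i) ∧
      (((st x)^[i] (false, [[]])).1 = true → ∃ u, V x u = true) ∧
      ((∃ u, V x u = true) → ((st x)^[i] (false, [[]])).1 = true ∨
        ∃ w ∈ ((st x)^[i] (false, [[]])).2, ∃ u, V x (w ++ u) = true) := by
    intro x i hi
    induction i with
    | zero => simp [B]
    | succ i ih =>
      obtain ⟨-, i2, i3, i4⟩ := ih (by omega)
      rw [iterate_succ_apply']
      generalize (st x)^[i] (false, [[]]) = s at *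
      have l : ∀ w ∈ s.2.flatMap fun w => [w ++ [false], w ++ [true]], w.length = i + 1 := by
        simp only [List.mem_flatMap, List.mem_cons, List.not_mem_nil, or_false]
        rintro _ ⟨w, hw, rfl | rfl⟩ <;> simp [i2 w hw]
      refine ⟨(List.length_filterMap_le ..).trans (by simp), fun w hw => l w (pick_sub hw),
        fun e => ?_, fun e => ?_⟩
      · simp only [st, Bool.or_eq_true, List.any_eq_true] at e
        exact e.elim i3 fun ⟨w, _, e⟩ => ⟨w, e⟩
      simp only [st, Bool.or_eq_true, List.any_eq_true]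
      rcases i4 e with e | ⟨w, hw, _ | ⟨b, u⟩, e⟩
      · exact .inl (.inl e)
      · exact .inl (.inr ⟨w, hw, by simpa using e⟩)
      have m : w ++ [b] ∈ s.2.flatMap fun w => [w ++ [false], w ++ [true]] :=
        List.mem_flatMap.2 ⟨w, hw, by cases b <;> simp⟩
      obtain ⟨v, v1, v2, v3⟩ := pick_ex (B := B x) (key := fun w => key (F x w))
        (le := fun w v => le (F x w) (F x v)) (fun w => ρ (g x w))
        (fun a _ b _ => by rw [g1, g1]; exact h1 _ _ (g2 _ _) (g2 _ _)) m (by
          refine Nat.lt_succ_of_le ((hq (x, _)).trans (eval_mono q ?_))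
          have := sz_le_of_forall (l := w ++ [b]) (B := 1) fun x _ => by simp
          rw [l _ m] at this
          rw [sz_prod]
          simp only
          omega)
      simp only [g1] at v2
      exact .inr ⟨v, v1, (g3 _ _).2 (h2 _ _ (g2 _ _) (g2 _ _) v2 v3
        ((g3 _ _).1 ⟨u, by simpa using e⟩))⟩
  have hI := PT.iterate hs hN (PT.const (false, [[]])) (B := fun x => 3 + B x * (2 * (N x * 3) + 1))
    (PT.nat_pb (by fun_prop)) fun x i hi => by
      obtain ⟨i1, i2, -⟩ := inv x i hi
      have := sz_le_of_forall (l := ((st x)^[i] (false, [[]])).2) (B := N x * 3) fun w hw =>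
        (sz_le_of_forall (B := 1) fun x _ => by simp).trans (by rw [i2 w hw]; omega)
      have := Nat.mul_le_mul_right (2 * (N x * 3) + 1) i1
      rw [sz_prod, sz_bool]
      omega
  refine inP_of_pt _ hI.fst fun x => ?_
  obtain ⟨-, i2, i3, i4⟩ := inv x _ le_rfl
  have e : x.val ∈ A ↔ ∃ u, V x u = true := by
    simp only [hA, V, er, Bool.and_eq_true, decide_eq_true_eq]
    rfl
  refine e.trans ⟨fun e => (i4 e).resolve_right fun ⟨w, hw, u, e⟩ => ?_, i3⟩
  simp only [V, Bool.and_eq_true, decide_eq_true_eq, List.length_append, i2 w hw, N] at e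
  omega

end Pool.Agent.H36.Prune
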