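import Pool.Agent.H36.Greedy
import Pool.Agent.H36.Prune
import Pool.Agent.H36.Maj

/-!
The greedy algorithm on lists of integers (binary division as in `Pool.Agent.H66.Sharp4`).
-/

namespace Pool.Agent.H36.Greedy

open Pool.Agent.H38.NP Pool.Agent.H38.ER Matrix Finset Function Pool.Agent.H36.Prune

variable {α : Type} [Enc α]

def dstep (d : Bin) (b : Bool) (s : Bin × Bin) : Bin × Bin :=
  cond (decide (d.val ≤ (Bin.mk ((Bin.mk (s.2.val + s.2.val)).val + (Bin.mk b.toNat).val)).val))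
    (Bin.mk ((Bin.mk (s.1.val + s.1.val)).val + (Bin.mk 1).val),
      Bin.mk ((Bin.mk ((Bin.mk (s.2.val + s.2.val)).val + (Bin.mk b.toNat).val)).val - d.val))
    (Bin.mk (s.1.val + s.1.val),
      Bin.mk ((Bin.mk (s.2.val + s.2.val)).val + (Bin.mk b.toNat).val))

theorem dstep_spec (d : ℕ) (hd : 0 < d) (l : List Bool) :
    l.foldr (dstep ⟨d⟩) (⟨0⟩, ⟨0⟩) = (⟨bval l / d⟩, ⟨bval l % d⟩) := by
  induction l with
  | nil => simp [bval]
  | cons b l ih =>
    rw [List.foldr_cons, ih]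
    have e : bval (b :: l) = b.toNat + 2 * bval l := rfl
    have h1 := Nat.div_add_mod (bval l) d
    have h2 := Nat.mod_lt (bval l) hd
    have h3 : b.toNat ≤ 1 := Bool.toNat_le b
    simp only [dstep]
    by_cases h : d ≤ bval l % d + bval l % d + b.toNat
    · have := (Nat.div_mod_unique (a := bval (b :: l)) (c := bval l % d + bval l % d + b.toNat - d)
        (d := bval l / d + bval l / d + 1) hd).2 ⟨by rw [e, mul_add, mul_add]; omega, by omega⟩
      simp [h, this.1, this.2]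
    · have := (Nat.div_mod_unique (a := bval (b :: l)) (c := bval l % d + bval l % d + b.toNat)
        (d := bval l / d + bval l / d) hd).2 ⟨by rw [e, mul_add]; omega, by omega⟩
      simp [h, this.1, this.2]

theorem pt_bdivmod {f g : α → Bin} (hf : PT f) (hg : PT g) (h0 : ∀ a, 0 < (g a).val) :
    PT fun a => (Bin.mk ((f a).val / (g a).val), Bin.mk ((f a).val % (g a).val)) := by
  have hs : PT fun p : α × Bool × Bin × Bin => dstep (g p.1) p.2.1 p.2.2 := by
    have hg' : PT fun p : α × Bool × Bin × Bin => g p.1 := hg.comp (by fun_prop)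
    have a1 : PT fun p : α × Bool × Bin × Bin =>
        Bin.mk ((Bin.mk (p.2.2.2.val + p.2.2.2.val)).val + (Bin.mk p.2.1.toNat).val) :=
      pt_badd (pt_badd (by fun_prop) (by fun_prop)) (pt_bin (by fun_prop))
    have a2 : PT fun p : α × Bool × Bin × Bin => Bin.mk (p.2.2.1.val + p.2.2.1.val) :=
      pt_badd (by fun_prop) (by fun_prop)
    exact PT.cond (pt_ble hg' a1) (PT.mk (pt_badd a2 (PT.const _)) (pt_bsub a1 hg')) (PT.mk a2 a1)
  have := PT.foldr (f := fun a b s => dstep (g a) b s) hs (pt_bits hf)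
    (PT.const ((⟨0⟩, ⟨0⟩) : Bin × Bin)) (((PB.const 3).mul hf.pb).add (PB.const 1)) fun a k => by
      have := dstep_spec (g a).val (h0 a) ((f a).val.bits.drop k)
      erw [this, sz_prod]
      have h1 := bval_lt ((f a).val.bits.drop k)
      have h2 : 2 ^ ((f a).val.bits.drop k).length ≤ 2 ^ sz (f a) :=
        Nat.pow_le_pow_right (by omega) (by rw [List.length_drop]; exact Nat.sub_le _ _)
      have h3 := size_le_of_lt ((Nat.div_le_self _ (g a).val).trans_lt (h1.trans_le h2))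
      have h4 := size_le_of_lt ((Nat.mod_le _ (g a).val).trans_lt (h1.trans_le h2))
      simp only at h3 h4 ⊢
      omega
  exact this.of_eq fun a => by
    have := dstep_spec (g a).val (h0 a) (f a).val.bits
    erw [this, bval_bits]

theorem pt_bdiv {f g : α → Bin} (hf : PT f) (hg : PT g) (h0 : ∀ a, 0 < (g a).val) :
    PT fun a => Bin.mk ((f a).val / (g a).val) := (pt_bdivmod hf hg h0).fst

def dv (a d : ℤ) : ℤ :=
  if a < 0 then -(a.natAbs / ((d - 1).natAbs + 1) : ℕ) else (a.natAbs / ((d - 1).natAbs + 1) : ℕ)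

theorem dv_mul {d : ℤ} (hd : 0 < d) (c : ℤ) : dv (d * c) d = c := by
  have e : (d - 1).natAbs + 1 = d.natAbs := by omega
  rw [dv, e, Int.natAbs_mul, Nat.mul_div_cancel_left _ (by omega)]
  have : d * c < 0 ↔ c < 0 := ⟨fun h => neg_of_mul_neg_right h hd.le, mul_neg_of_pos_of_neg hd⟩
  simp only [this]
  split_ifs <;> omega

@[fun_prop] theorem pt_dv {f g : α → ℤ} (hf : PT f) (hg : PT g) : PT fun a => dv (f a) (g a) := by
  have := Maj.pt_val (pt_bdiv (pt_sgn hf).snd (pt_badd (pt_sgn (pt_zsub hg (PT.const 1))).snd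
    (PT.const (Bin.mk 1))) fun a => Nat.succ_pos _)
  exact PT.ite (pt_sgn hf).fst (pt_zneg this) this

def sm (n : ℕ) (f : ℕ → ℤ) : ℤ := ((List.range n).map f).sum

theorem sm_eq (n f) : sm n f = ∑ i : Fin n, f i := (Fin.sum_univ_eq_sum_range f n).symm

@[fun_prop] theorem pt_sm {n : α → ℕ} {f : α → ℕ → ℤ} (hn : PT n)
    (hf : PT fun p : α × ℕ => f p.1 p.2) : PT fun a => sm (n a) (f a) := pt_zsum (PT.map hf hn.range)

abbrev Mx := List (List ℤ)

def ent (Q : Mx) (a b : ℕ) : ℤ := (Q.getD a []).getD b 0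
def mv (n : ℕ) (Q : Mx) (w : List ℤ) (a : ℕ) : ℤ := sm n fun b => ent Q a b * w.getD b 0
def qf (n : ℕ) (Q : Mx) (w : List ℤ) : ℤ := sm n fun a => w.getD a 0 * mv n Q w a
def best (n : ℕ) (Q C : Mx) : List ℤ :=
  (C.filter fun w => C.all fun v => decide (qf n Q v ≤ qf n Q w)).headD []
def tab (n : ℕ) (f : ℕ → ℕ → ℤ) : Mx := (List.range n).map fun a => (List.range n).map (f a)
def upd (n : ℕ) (s : ℤ × Mx) (w : List ℤ) : ℤ × Mx :=
  (qf n s.2 w, tab n fun a b => dv (qf n s.2 w * ent s.2 a b - mv n s.2 w a * mv n s.2 w b) s.1)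
def step (p : ℕ × Mx) (s : ℤ × Mx) : ℤ × Mx := upd p.1 s (best p.1 s.2 p.2)
def init (n : ℕ) : ℤ × Mx := (1, tab n fun a b => if a = b then 1 else 0)
def ex (p : ℕ × Mx) : ℕ := (2 * p.1 + 2 * sz p.2) * p.1 + 4
def gr (p : ℕ × Mx) : ℤ :=
  ((gd (2 * ex p + 1 + p.1 * (2 * (p.1 * (2 * ex p + 1)) + 1)) (step p))^[p.1] (init p.1)).1

@[fun_prop] theorem pt_ent {Q : α → Mx} {a b : α → ℕ} (hQ : PT Q) (ha : PT a) (hb : PT b) :
    PT fun x => ent (Q x) (a x) (b x) := by unfold ent; fun_prop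

@[fun_prop] theorem pt_mv {n : α → ℕ} {Q : α → Mx} {w : α → List ℤ} {a : α → ℕ} (hn : PT n)
    (hQ : PT Q) (hw : PT w) (ha : PT a) : PT fun x => mv (n x) (Q x) (w x) (a x) :=
  pt_sm hn (pt_zmul (by fun_prop) (by fun_prop))

@[fun_prop] theorem pt_qf {n : α → ℕ} {Q : α → Mx} {w : α → List ℤ} (hn : PT n)
    (hQ : PT Q) (hw : PT w) : PT fun x => qf (n x) (Q x) (w x) :=
  pt_sm hn (pt_zmul (by fun_prop) (by fun_prop))

theorem pt_tab {n : α → ℕ} {f : α → ℕ → ℕ → ℤ} (hn : PT n)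
    (hf : PT fun p : (α × ℕ) × ℕ => f p.1.1 p.1.2 p.2) : PT fun a => tab (n a) (f a) :=
  PT.map (PT.map hf (by fun_prop)) hn.range

theorem pt_best : PT fun p : (ℕ × Mx) × ℤ × Mx => best p.1.1 p.2.2 p.1.2 := by
  unfold best
  refine PT.headD (PT.filter (PT.all (f := fun (p : ((ℕ × Mx) × ℤ × Mx) × List ℤ) v =>
    decide (qf p.1.1.1 p.1.2.2 v ≤ qf p.1.1.1 p.1.2.2 p.2))
    (Maj.pt_zle ?_ ?_) ?_) ?_) (PT.const _) <;> fun_prop

theorem pt_upd : PT fun p : ℕ × (ℤ × Mx) × List ℤ => upd p.1 p.2.1 p.2.2 := by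
  unfold upd
  refine PT.mk (by fun_prop) (pt_tab (f := fun (p : ℕ × (ℤ × Mx) × List ℤ) a b =>
    dv (qf p.1 p.2.1.2 p.2.2 * ent p.2.1.2 a b - mv p.1 p.2.1.2 p.2.2 a * mv p.1 p.2.1.2 p.2.2 b)
      p.2.1.1) (by fun_prop) (pt_dv (pt_zsub (pt_zmul ?_ ?_) (pt_zmul ?_ ?_)) ?_)) <;> fun_prop

theorem pt_step : PT fun p : (ℕ × Mx) × ℤ × Mx => step p.1 p.2 :=
  (pt_upd.comp (g := fun p : (ℕ × Mx) × ℤ × Mx => (p.1.1, p.2, best p.1.1 p.2.2 p.1.2))
    (PT.id'.fst.fst.mk (PT.id'.snd.mk pt_best))).of_eq fun _ => rfl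

theorem pt_gr : PT gr :=
  (pt_gd pt_step (by fun_prop) (by unfold ex; fun_prop) (init := fun p => init p.1)
    (PT.mk (PT.const _) (pt_tab (by fun_prop) (by fun_prop)))).fst

def toV (n : ℕ) (w : List ℤ) : Fin n → ℤ := fun a => w.getD a 0
def toM (n : ℕ) (Q : Mx) : Matrix (Fin n) (Fin n) ℤ := of fun a b => ent Q a b

theorem mv_eq (n Q w) (a : Fin n) : mv n Q w a = (toM n Q *ᵥ toV n w) a := sm_eq ..
theorem qf_eq (n Q w) : qf n Q w = toV n w ⬝ᵥ toM n Q *ᵥ toV n w :=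
  (sm_eq ..).trans (sum_congr rfl fun a _ => congrArg _ (mv_eq n Q w a))
theorem ent_tab {n f} (a b : Fin n) : ent (tab n f) a b = f a b := by simp [ent, tab]

theorem QQ_le {ι : Type} [Fintype ι] [DecidableEq ι] {n} (B : Matrix ι (Fin n) ℤ)
    (h : 0 < det (B * Bᵀ)) (a b) : |QQ B a b| ≤ det (B * Bᵀ) := by
  have e := congrFun (congrFun (QQ_sq B) a) a
  have s : ∀ c, QQ B c a = QQ B a c := fun c => congrFun (congrFun (QQ_symm B) a) c
  simp only [mul_apply, s, Matrix.smul_apply, smul_eq_mul] at e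
  have k := fun c => (single_le_sum (fun c _ => mul_self_nonneg (QQ B a c)) (mem_univ c)).trans e.le
  have := k a
  have := k b
  exact abs_le_of_sq_le_sq' (by nlinarith [sq_nonneg (QQ B a a - det (B * Bᵀ))]) h.le |> abs_le.2

def Inv {n} (U : Matrix (Fin n) (Fin n) ℤ) (E j : ℕ) (s : ℤ × Mx) : Prop :=
  ∃ (ι : Type) (_ : Fintype ι) (_ : DecidableEq ι) (σ : ι → Fin n), Injective σ ∧
    Fintype.card ι = j ∧ s.1 = det (U.submatrix σ id * (U.submatrix σ id)ᵀ) ∧ 0 < s.1 ∧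
    toM n s.2 = QQ (U.submatrix σ id) ∧ s.1 ≤ 2 ^ (E * j) ∧ ∃ f, s.2 = tab n f

theorem inv_step {n} {U : Matrix (Fin n) (Fin n) ℤ} {C : Mx} (hU : det U ≠ 0)
    (h1 : ∀ i, ∃ c ∈ C, toV n c = U i) (h2 : ∀ c ∈ C, ∃ t : Fin n → ℝ, ∑ i, |t i| ≤ 1 ∧
      (fun a => (toV n c a : ℝ)) = t ᵥ* U.map (Int.castRingHom ℝ)) {j s} (hj : j < n)
    (h : Inv U (2 * n + 2 * sz C) j s) : Inv U (2 * n + 2 * sz C) (j + 1) (step (n, C) s) := by
  obtain ⟨ι, _, _, σ, s1, s2, s3, s4, s5, s6, -⟩ := h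
  obtain ⟨w, hw, wC, wm⟩ : ∃ w, best n s.2 C = w ∧ w ∈ C ∧ ∀ v ∈ C, qf n s.2 v ≤ qf n s.2 w := by
    obtain ⟨c, hc, -⟩ := h1 ⟨j, hj⟩
    obtain ⟨u, u1, u2⟩ := exists_max_image C.toFinset (qf n s.2) ⟨c, by simpa using hc⟩
    unfold best
    generalize hl : List.filter _ _ = l
    have : u ∈ l := hl ▸ List.mem_filter.2 ⟨by simpa using u1, by simpa using u2⟩
    obtain ⟨a, l, rfl⟩ := List.exists_cons_of_ne_nil (List.ne_nil_of_mem this)
    obtain ⟨k1, k2⟩ := List.mem_filter.1 (hl ▸ List.mem_cons_self : a ∈ _)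
    exact ⟨a, rfl, k1, by simpa using k2⟩
  have cq : ∀ v, (qf n s.2 v : ℝ) = (fun a => (toV n v a : ℝ)) ⬝ᵥ
      QQ ((U.map (Int.castRingHom ℝ)).submatrix σ id) *ᵥ fun a => (toV n v a : ℝ) := fun v => by
    rw [submatrix_map, QQ_map, ← s5, qf_eq]
    simp [dotProduct, mulVec]
  obtain ⟨t, t1, t2⟩ := h2 w wC
  obtain ⟨p, i, i1, i2⟩ := vertex (U := U.map (Int.castRingHom ℝ)) (σ := σ) (t := t)
    (by rw [← RingHom.mapMatrix_apply, ← RingHom.map_det]; simpa using hU)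
    (by
      by_contra c
      push Not at c
      have := Fintype.card_le_of_surjective σ c
      simp at this
      omega)
    (by
      rw [submatrix_map, ← transpose_map, ← Matrix.map_mul, ← RingHom.mapMatrix_apply,
        ← RingHom.map_det, ← s3]
      simpa using s4) t1 fun i => by
      obtain ⟨c, c1, c2⟩ := h1 i
      have := cq c
      rw [c2] at this
      rw [← t2, ← cq]
      exact this.ge.trans (by exact_mod_cast wm c c1)
  rw [← t2, ← cq, Int.cast_pos] at p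
  have e : toV n w = U i ∨ toV n w = -U i := by
    rw [← t2] at i2
    refine i2.imp (fun e => funext fun a => ?_) fun e => funext fun a => ?_ <;>
      exact Int.cast_injective (α := ℝ) (by simpa using congrFun e a)
  have e1 : qf n s.2 w = U i ⬝ᵥ QQ (U.submatrix σ id) *ᵥ U i := by
    rw [qf_eq, s5]
    rcases e with e | e <;> simp [e, mulVec_neg]
  have e2 : U.submatrix (Sum.elim σ fun _ : Unit => i) id = ext (U.submatrix σ id) (U i) := by
    ext (r | r) <;> rfl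
  have d0 := s3 ▸ s4.ne'
  refine ⟨ι ⊕ Unit, inferInstance, inferInstance, Sum.elim σ fun _ => i,
    s1.sumElim (injective_of_subsingleton _) fun a _ e => i1 ⟨a, e⟩, by simp [s2], ?_, ?_, ?_, ?_,
    _, rfl⟩ <;> simp only [step, upd, hw]
  · rw [e2, det_ext _ _ d0, e1]
  · exact p
  · ext a b
    have := congrFun (congrFun (QQ_ext _ (U i) d0 (e1 ▸ p.ne')) a) b
    rw [toM, of_apply, ent_tab, e2, mv_eq, mv_eq, show ent s.2 a b = toM n s.2 a b from rfl, s5, e1,
      ← dv_mul s4 (QQ (ext _ _) a b), s3]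
    congr 1
    refine Eq.trans ?_ this.symm
    rw [Matrix.sub_apply, Matrix.smul_apply, smul_eq_mul, vecMulVec_apply]
    rcases e with e | e <;> simp [e, mulVec_neg]
  · have k : ∀ a, |toV n w a| ≤ 2 ^ sz C := fun a => by
      by_cases c : a.val < w.length
      · have := (abs_lt_sz (w[a.val])).le.trans (Nat.pow_le_pow_right (by omega)
          ((sz_le_of_mem (List.getElem_mem c)).trans (sz_le_of_mem wC)))
        rw [toV, List.getD_eq_getElem _ _ c, Int.abs_eq_natAbs]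
        exact_mod_cast this
      · rw [toV, List.getD_eq_default _ _ (not_lt.1 c)]
        positivity
    have : qf n s.2 w ≤ ∑ _ : Fin n, ∑ _ : Fin n, 2 ^ sz C * (s.1 * 2 ^ sz C) := by
      rw [qf_eq, s5]
      refine sum_le_sum fun a _ => ?_
      rw [mulVec, dotProduct, mul_sum]
      refine sum_le_sum fun b _ => (le_abs_self _).trans ?_
      rw [abs_mul, abs_mul]
      exact mul_le_mul (k a) (mul_le_mul (s3 ▸ QQ_le _ (s3 ▸ s4) a b) (k b) (abs_nonneg _) s4.le)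
        (by positivity) (by positivity)
    refine this.trans ?_
    have l : (n : ℤ) ≤ 2 ^ n := by exact_mod_cast n.lt_two_pow_self.le
    calc _ = n * n * 2 ^ sz C * 2 ^ sz C * s.1 := by simp; ring
      _ ≤ 2 ^ n * 2 ^ n * 2 ^ sz C * 2 ^ sz C * 2 ^ ((2 * n + 2 * sz C) * j) := by gcongr
      _ = _ := by ring

theorem greedy {n} {U : Matrix (Fin n) (Fin n) ℤ} {C : Mx} (hU : det U ≠ 0)
    (h1 : ∀ i, ∃ c ∈ C, toV n c = U i) (h2 : ∀ c ∈ C, ∃ t : Fin n → ℝ, ∑ i, |t i| ≤ 1 ∧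
      (fun a => (toV n c a : ℝ)) = t ᵥ* U.map (Int.castRingHom ℝ)) : gr (n, C) = det U ^ 2 := by
  have inv : ∀ j ≤ n, Inv U (2 * n + 2 * sz C) j ((step (n, C))^[j] (init n)) := fun j hj => by
    induction j with
    | zero =>
      refine ⟨Empty, inferInstance, inferInstance, Empty.elim, fun a => a.elim, rfl, by simp [init],
        by simp [init], ?_, by simp [init], _, rfl⟩
      ext a b
      simp [init, toM, ent_tab, QQ, one_apply, Fin.ext_iff, mul_apply]
    | succ j ih =>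
      rw [iterate_succ_apply']
      exact inv_step hU h1 h2 hj (ih (by omega))
  rw [gr, gd_eq fun j hj => ?_]
  · obtain ⟨ι, _, _, σ, s1, s2, s3, -⟩ := inv n le_rfl
    let e := Equiv.ofBijective σ ((Fintype.bijective_iff_injective_and_card σ).2 ⟨s1, by simpa⟩)
    rw [s3, show U.submatrix σ id * (U.submatrix σ id)ᵀ = (U * Uᵀ).submatrix e e from rfl,
      det_submatrix_equiv_self, det_mul, det_transpose, sq]
  obtain ⟨ι, _, _, σ, -, -, s3, s4, s5, s6, f, s7⟩ := inv j (le_of_lt hj)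
  simp only at hj ⊢
  generalize (step (n, C))^[j] (init n) = s at *
  have k : ∀ z : ℤ, |z| ≤ s.1 → sz z ≤ ex (n, C) := fun z hz => by
    refine sz_int_le (k := (2 * n + 2 * sz C) * n + 1) ?_
    have : (2 : ℤ) ^ ((2 * n + 2 * sz C) * j) < 2 ^ ((2 * n + 2 * sz C) * n + 1) :=
      pow_lt_pow_right₀ (by omega) (Nat.lt_succ_of_le (Nat.mul_le_mul_left _ hj.le))
    rw [Int.abs_eq_natAbs] at hz
    exact_mod_cast (hz.trans s6).trans_lt this
  have a := k s.1 (abs_of_pos s4).le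
  have b := sz_le_of_forall (l := s.2) (B := n * (2 * ex (n, C) + 1)) fun r hr => by
    rw [s7] at hr
    obtain ⟨a, ha, rfl⟩ := List.mem_map.1 hr
    refine (sz_le_of_forall fun x hx => ?_).trans (by simp; rfl)
    obtain ⟨b, hb, rfl⟩ := List.mem_map.1 hx
    have := QQ_le _ (s3 ▸ s4) ⟨a, List.mem_range.1 ha⟩ ⟨b, List.mem_range.1 hb⟩
    rw [← s5, ← s3, toM, of_apply, s7, ent_tab] at this
    exact k _ this
  have c : s.2.length = n := by simp [s7, tab]
  rw [c] at b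
  rw [sz_prod]
  omega

end Pool.Agent.H36.Greedy
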