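import Pool.Agent.H36.Greedy2

/-!
The chosen vertices of the cross-polytope and the dual basis; rationals in lowest terms.
-/

namespace Pool.Agent.H36.Greedy

open Pool.Agent.H38.NP Pool.Agent.H38.ER Matrix Finset Function Pool.Agent.H36.Prune

variable {α : Type} [Enc α]

def eu (s : Bin × Bin) : Bin × Bin :=
  if s.2.val = 0 then s else (s.2, ⟨s.1.val % (s.2.val - 1 + 1)⟩)

theorem eu_spec (k a b : ℕ) (h : b ≤ a) (h' : a * b < 2 ^ k) :
    eu^[k] (⟨a⟩, ⟨b⟩) = (⟨a.gcd b⟩, ⟨0⟩) := by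
  induction k generalizing a b with
  | zero => obtain rfl : b = 0 := by nlinarith
            simp
  | succ k ih =>
    by_cases c : b = 0
    · subst c
      rw [iterate_fixed (by simp [eu])]
      simp
    have := Nat.mod_lt a (Nat.pos_of_ne_zero c)
    have := Nat.mod_add_div a b
    have : b * 1 ≤ b * (a / b) := Nat.mul_le_mul_left _ (Nat.div_pos h (by omega))
    rw [iterate_succ_apply, eu, if_neg c]
    simp only
    rw [Nat.sub_add_cancel (by omega),
      ih b _ (by omega) (by rw [pow_succ] at h'; nlinarith), Nat.gcd_comm a, Nat.gcd_rec b a,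
      Nat.gcd_comm]

theorem pt_gcd {f g : α → Bin} (hf : PT f) (hg : PT g) :
    PT fun a => Bin.mk ((f a).val.gcd (g a).val) := by
  have s : PT fun p : α × Bin × Bin => eu p.2 :=
    PT.ite ((pt_ble PT.id'.snd.snd (PT.const (Bin.mk 0))).of_eq fun a => by simp) (by fun_prop)
      (PT.mk (by fun_prop) (pt_bdivmod (by fun_prop) (pt_badd (pt_bsub PT.id'.snd.snd
        (PT.const (Bin.mk 1))) (PT.const (Bin.mk 1))) fun _ => Nat.succ_pos _).snd)
  have i := pt_badd hf hg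
  have l : ∀ a, (f a).val + (g a).val < 2 ^ sz (Bin.mk ((f a).val + (g a).val)) := fun a => lt_sz _
  refine (PT.iterate (step := fun _ => eu) s (PT.mul (PT.const 2) i.sz) (i.mk hg)
    (((PB.const 3).mul i.pb).add (PB.const 1)) fun a k hk => ?_).fst.of_eq fun a => ?_
  · have : (eu^[k] (⟨(f a).val + (g a).val⟩, g a)).1.val ≤ (f a).val + (g a).val ∧
        (eu^[k] (⟨(f a).val + (g a).val⟩, g a)).2.val ≤ (f a).val + (g a).val := by
      clear hk
      induction k with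
      | zero => simp
      | succ k ih =>
        rw [iterate_succ_apply', eu]
        split_ifs
        · exact ih
        · exact ⟨ih.2, (Nat.mod_le _ _).trans ih.1⟩
    have a1 := size_le_of_lt (this.1.trans_lt (l a))
    have a2 := size_le_of_lt (this.2.trans_lt (l a))
    rw [sz_prod]
    change sz (eu^[k] _).1 ≤ _ at a1
    change sz (eu^[k] _).2 ≤ _ at a2
    omega
  · have := eu_spec (2 * sz (Bin.mk ((f a).val + (g a).val))) _ (g a).val (Nat.le_add_left _ _) (by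
      rw [pow_mul', sq]
      exact Nat.mul_lt_mul'' (l a) ((Nat.le_add_left _ _).trans_lt (l a)))
    erw [this]
    simp

def qd (a d : ℤ) : ℚ := mkRat a ((d - 1).natAbs + 1)

theorem qd_eq (a : ℤ) {d : ℤ} (hd : 0 < d) : (qd a d : ℝ) = a / d := by
  rw [qd, Rat.mkRat_eq_div]
  obtain ⟨d, rfl⟩ := Int.eq_ofNat_of_zero_le hd.le
  rw [show ((d : ℤ) - 1).natAbs + 1 = d by omega]
  simp

@[fun_prop] theorem pt_qd {f g : α → ℤ} (hf : PT f) (hg : PT g) : PT fun a => qd (f a) (g a) := by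
  have d := pt_badd (pt_sgn (pt_zsub hg (PT.const 1))).snd (PT.const (Bin.mk 1))
  have c := pt_gcd d (pt_sgn hf).snd
  refine ((pt_dv hf (Maj.pt_val c)).mk (pt_bdiv d c fun a =>
    Nat.gcd_pos_of_pos_left _ (Nat.succ_pos _))).recast' fun a => ?_
  change _ = enc ((qd (f a) (g a)).num, Bin.mk (qd (f a) (g a)).den)
  simp only [qd, Rat.num_mkRat, Rat.den_mkRat, Nat.add_eq_zero_iff, one_ne_zero, and_false, if_false]
  congr 2
  have p : (0 : ℤ) < ((g a - 1).natAbs + 1).gcd (f a).natAbs :=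
    Int.natCast_pos.2 (Nat.gcd_pos_of_pos_left _ (Nat.succ_pos _))
  obtain ⟨c, e⟩ : (((g a - 1).natAbs + 1).gcd (f a).natAbs : ℤ) ∣ f a :=
    Int.natCast_dvd.2 (Nat.gcd_dvd_right _ _)
  generalize (((g a - 1).natAbs + 1).gcd (f a).natAbs : ℤ) = G at *
  rw [e, dv_mul p, Int.mul_ediv_cancel_left _ p.ne']

def bd (p : ℕ × Mx) : ℕ := 2 * ex p + 1 + p.1 * (2 * (p.1 * (2 * ex p + 1)) + 1)

def fo (p : ℕ × Mx) (W : Mx) : ℤ × Mx :=
  W.foldr (fun w => gd (bd p) fun s => upd p.1 s w) (init p.1)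

theorem pt_fo : PT fun z : (ℕ × Mx) × Mx => fo z.1 z.2 := by
  obtain ⟨q, hq⟩ := pt_upd.pb
  have b : PT bd := by unfold bd ex; fun_prop
  have i : PT init := PT.mk (PT.const _) (pt_tab (by fun_prop) (by fun_prop))
  refine PT.foldr (f := fun (z : (ℕ × Mx) × Mx) w => gd (bd z.1) fun s => upd z.1.1 s w)
    (PT.ite (by fun_prop) (pt_upd.comp (g := fun y : ((ℕ × Mx) × Mx) × List ℤ × ℤ × Mx =>
      (y.1.1.1, y.2.2, y.2.1)) (by fun_prop)) (by fun_prop)) (by fun_prop) (by fun_prop)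
    (B := fun z => sz (init z.1.1) + q.eval (2 * z.1.1 + 1 + (2 * bd z.1 + 1 + sz z.2)))
    (PT.nat_pb (PT.add (by fun_prop) (PT.polyEval q (by fun_prop)))) fun z k => ?_
  have : ∀ w ∈ z.2.drop k, sz w ≤ sz z.2 := fun w hw => sz_le_of_mem (List.mem_of_mem_drop hw)
  generalize z.2.drop k = l at this
  induction l with
  | nil => simp
  | cons w l ih =>
    rw [List.foldr_cons, gd]
    split_ifs with c
    · refine ((hq (_, _, w)).trans (eval_mono q ?_)).trans (Nat.le_add_left _ _)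
      have := this w List.mem_cons_self
      rw [sz_prod, sz_prod, sz_nat]
      exact Nat.add_le_add_left (by dsimp only; omega) _
    · exact ih fun w hw => this w (List.mem_cons_of_mem _ hw)

def cs (p : ℕ × Mx) (W : Mx) : Mx := best p.1 (fo p W).2 p.2 :: W

def ch (p : ℕ × Mx) : Mx := (cs p)^[p.1] []

theorem best_mem (n Q C) : best n Q C = [] ∨ best n Q C ∈ C := by
  unfold best
  generalize hl : List.filter _ _ = l
  cases l with
  | nil => exact .inl rfl
  | cons a l => exact .inr (List.mem_filter.1 (hl ▸ List.mem_cons_self : a ∈ _)).1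

theorem pt_cs : PT fun z : (ℕ × Mx) × Mx => cs z.1 z.2 := by
  have a := pt_best.comp (g := fun z : (ℕ × Mx) × Mx => (z.1, fo z.1 z.2)) (PT.id'.fst.mk pt_fo)
  exact (PT.cons a PT.id'.snd).of_eq fun _ => rfl

theorem sz_cs (p i) : sz ((cs p)^[i] []) ≤ i * (2 * sz p.2 + 1) := by
  induction i with
  | zero => simp
  | succ i ih =>
    rw [iterate_succ_apply', cs, sz_cons, add_mul]
    rcases best_mem p.1 (fo p ((cs p)^[i] [])).2 p.2 with e | e
    · rw [e, sz_nil]; omega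
    · have := sz_le_of_mem e
      omega

theorem pt_ch : PT ch :=
  PT.iterate pt_cs PT.id'.fst (PT.const _) (B := fun p => p.1 * (2 * sz p.2 + 1))
    (PT.nat_pb (by fun_prop)) fun p i hi => (sz_cs p i).trans (Nat.mul_le_mul_right _ hi)

variable {n : ℕ} {U : Matrix (Fin n) (Fin n) ℤ} {C : Mx}

def Iv (U : Matrix (Fin n) (Fin n) ℤ) (E : ℕ) (S : List (Fin n)) (s : ℤ × Mx) : Prop :=
  ∃ (ι : Type) (_ : Fintype ι) (_ : DecidableEq ι) (σ : ι → Fin n), Injective σ ∧
    (∀ i, i ∈ Set.range σ ↔ i ∈ S) ∧ s.1 = det (U.submatrix σ id * (U.submatrix σ id)ᵀ) ∧ 0 < s.1 ∧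
    toM n s.2 = QQ (U.submatrix σ id) ∧ s.1 ≤ 2 ^ (E * S.length) ∧ ∃ f, s.2 = tab n f

def Vx (U : Matrix (Fin n) (Fin n) ℤ) (C : Mx) (x : List ℤ × Fin n) : Prop :=
  x.1 ∈ C ∧ (toV n x.1 = U x.2 ∨ toV n x.1 = -U x.2)

theorem Iv.orth {E S s} (h : Iv U E S s) {x} (hx : Vx U C x) (m : x.2 ∈ S) (v) :
    toV n x.1 ⬝ᵥ toM n s.2 *ᵥ v = 0 := by
  obtain ⟨ι, _, _, σ, -, s2, -, -, s5, -⟩ := h
  obtain ⟨r, e⟩ := (s2 _).2 m
  have : U x.2 ⬝ᵥ toM n s.2 *ᵥ v = 0 := by
    have := congrFun (congrArg (· *ᵥ v) (mul_QQ (U.submatrix σ id))) r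
    simp only [← mulVec_mulVec, zero_mulVec, Pi.zero_apply] at this
    rw [s5, ← e]
    exact this
  rcases hx.2 with e | e <;> simp [e, this]

theorem Iv.full {E S s} (h : Iv U E S s) (m : ∀ i, i ∈ S) : s.1 = det U ^ 2 := by
  obtain ⟨ι, _, _, σ, s1, s2, s3, -⟩ := h
  let e := Equiv.ofBijective σ ⟨s1, fun i => (s2 i).2 (m i)⟩
  rw [s3, show U.submatrix σ id * (U.submatrix σ id)ᵀ = (U * Uᵀ).submatrix e e from rfl,
    det_submatrix_equiv_self, det_mul, det_transpose, sq]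

theorem Iv.size {S s} (h : Iv U (2 * n + 2 * sz C) S s) (hj : S.length ≤ n) : sz s ≤ bd (n, C) := by
  obtain ⟨ι, _, _, σ, -, -, s3, s4, s5, s6, f, s7⟩ := h
  have k : ∀ z : ℤ, |z| ≤ s.1 → sz z ≤ ex (n, C) := fun z hz => by
    refine sz_int_le (k := (2 * n + 2 * sz C) * n + 1) ?_
    have : (2 : ℤ) ^ ((2 * n + 2 * sz C) * S.length) < 2 ^ ((2 * n + 2 * sz C) * n + 1) :=
      pow_lt_pow_right₀ (by omega) (Nat.lt_succ_of_le (Nat.mul_le_mul_left _ hj))
    rw [Int.abs_eq_natAbs] at hz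
    exact_mod_cast (hz.trans s6).trans_lt this
  have a := k s.1 (abs_of_pos s4).le
  have b := sz_le_of_forall (l := s.2) (B := n * (2 * ex (n, C) + 1)) fun r hr => by
    rw [s7] at hr
    obtain ⟨a, ha, rfl⟩ := List.mem_map.1 hr
    refine (sz_le_of_forall fun x hx => ?_).trans (by simp; rfl)
    obtain ⟨b, hb, rfl⟩ := List.mem_map.1 hx
    have := QQ_le _ (s3 ▸ s4) ⟨a, List.mem_range.1 ha⟩ ⟨b, List.mem_range.1 hb⟩
    rw [← s5, ← s3, toM, of_apply, s7, ent_tab] at this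
    exact k _ this
  have c : s.2.length = n := by simp [s7, tab]
  rw [c] at b
  rw [sz_prod, bd]
  simp only
  omega

theorem gram_pos {ι : Type} [Fintype ι] [DecidableEq ι] (hU : det U ≠ 0) {σ : ι → Fin n}
    (h : Injective σ) : 0 < det (U.submatrix σ id * (U.submatrix σ id)ᵀ) := by
  have a : (U.map (Int.castRingHom ℝ) * (U.map (Int.castRingHom ℝ))ᴴ).PosDef :=
    PosDef.mul_conjTranspose_self _ (vecMul_injective_of_isUnit ((isUnit_iff_isUnit_det _).2
      (Ne.isUnit (by rw [← RingHom.mapMatrix_apply, ← RingHom.map_det]; simpa using hU))))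
  have b := (a.submatrix h).det_pos
  rw [conjTranspose_eq_transpose_of_trivial, ← transpose_map, ← Matrix.map_mul, submatrix_map,
    ← RingHom.mapMatrix_apply, ← RingHom.map_det] at b
  exact Int.cast_pos.1 b

theorem Iv.upd (hU : det U ≠ 0) {S s} (h : Iv U (2 * n + 2 * sz C) S s) {x} (hx : Vx U C x)
    (m : x.2 ∉ S) : Iv U (2 * n + 2 * sz C) (x.2 :: S) (upd n s x.1) := by
  obtain ⟨ι, _, _, σ, s1, s2, s3, s4, s5, s6, -⟩ := h
  obtain ⟨w, i⟩ := x
  obtain ⟨wC, e⟩ := hx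
  simp only at wC e m
  have e1 : qf n s.2 w = U i ⬝ᵥ QQ (U.submatrix σ id) *ᵥ U i := by
    rw [qf_eq, s5]
    rcases e with e | e <;> simp [e, mulVec_neg]
  have e2 : U.submatrix (Sum.elim σ fun _ : Unit => i) id = ext (U.submatrix σ id) (U i) := by
    ext (r | r) <;> rfl
  have d0 := s3 ▸ s4.ne'
  have inj := s1.sumElim (injective_of_subsingleton fun _ : Unit => i)
    fun a _ e => m ((s2 _).1 ⟨a, e⟩)
  have p : 0 < qf n s.2 w := by
    rw [e1, ← det_ext _ _ d0, ← e2]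
    exact gram_pos hU inj
  refine ⟨ι ⊕ Unit, inferInstance, inferInstance, _, inj, fun k => by simp [← s2, or_comm, eq_comm],
    ?_, ?_, ?_, ?_, _, rfl⟩ <;> simp only [Greedy.upd]
  · rw [e2, det_ext _ _ d0, e1]
  · exact p
  · ext a b
    have := congrFun (congrFun (QQ_ext _ (U i) d0 (e1 ▸ p.ne')) a) b
    rw [toM, of_apply, ent_tab, e2, mv_eq, mv_eq, show ent s.2 a b = toM n s.2 a b from rfl, s5, e1,
      ← dv_mul s4 (QQ (ext _ _) a b), s3]
    congr 1
    refine Eq.trans ?_ this.symm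
    rw [Matrix.sub_apply, Matrix.smul_apply, smul_eq_mul, vecMulVec_apply]
    rcases e with e | e <;> simp [e, mulVec_neg]
  · have k : ∀ a, |toV n w a| ≤ 2 ^ sz C := fun a => by
      by_cases c : a.val < w.length
      · have := (abs_lt_sz (w[a.val])).le.trans (Nat.pow_le_pow_right (by omega)
          ((sz_le_of_mem (List.getElem_mem c)).trans (sz_le_of_mem wC)))
        rw [toV, List.getD_eq_getElem _ _ c, Int.abs_eq_natAbs]
        exact_mod_cast this
      · rw [toV, List.getD_eq_default _ _ (not_lt.1 c)]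
        positivity
    have : qf n s.2 w ≤ ∑ _ : Fin n, ∑ _ : Fin n, 2 ^ sz C * (s.1 * 2 ^ sz C) := by
      rw [qf_eq, s5]
      refine sum_le_sum fun a _ => ?_
      rw [mulVec, dotProduct, mul_sum]
      refine sum_le_sum fun b _ => (le_abs_self _).trans ?_
      rw [abs_mul, abs_mul]
      exact mul_le_mul (k a) (mul_le_mul (s3 ▸ QQ_le _ (s3 ▸ s4) a b) (k b) (abs_nonneg _) s4.le)
        (by positivity) (by positivity)
    refine this.trans ?_
    have l : (n : ℤ) ≤ 2 ^ n := by exact_mod_cast n.lt_two_pow_self.le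
    calc _ = n * n * 2 ^ sz C * 2 ^ sz C * s.1 := by simp; ring
      _ ≤ 2 ^ n * 2 ^ n * 2 ^ sz C * 2 ^ sz C * 2 ^ ((2 * n + 2 * sz C) * S.length) := by gcongr
      _ = _ := by rw [List.length_cons]; ring

theorem iv_fo (hU : det U ≠ 0) (L : List (List ℤ × Fin n)) (h1 : ∀ x ∈ L, Vx U C x)
    (h2 : (L.map (·.2)).Nodup) :
    Iv U (2 * n + 2 * sz C) (L.map (·.2)) (fo (n, C) (L.map (·.1))) := by
  induction L with
  | nil =>
    refine ⟨Empty, inferInstance, inferInstance, Empty.elim, fun a => a.elim, by simp,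
      by simp [init, fo], by simp [init, fo], ?_, by simp [init, fo], _, rfl⟩
    ext a b
    simp [fo, init, toM, ent_tab, QQ, one_apply, Fin.ext_iff, mul_apply]
  | cons x L ih =>
    rw [List.map_cons, List.nodup_cons] at h2
    have := ih (fun y hy => h1 y (List.mem_cons_of_mem _ hy)) h2.2
    rw [List.map_cons, List.map_cons, fo, List.foldr_cons, gd]
    erw [if_pos (this.size (by simpa using h2.2.length_le_card))]
    exact this.upd hU (h1 x List.mem_cons_self) h2.1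

theorem Iv.best (hU : det U ≠ 0) (h1 : ∀ i, ∃ c ∈ C, toV n c = U i)
    (h2 : ∀ c ∈ C, ∃ t : Fin n → ℝ, ∑ i, |t i| ≤ 1 ∧
      (fun a => (toV n c a : ℝ)) = t ᵥ* U.map (Int.castRingHom ℝ)) {E S s} (h : Iv U E S s)
    (hj : ∃ i, i ∉ S) : ∃ i, i ∉ S ∧ Vx U C (best n s.2 C, i) := by
  obtain ⟨ι, _, _, σ, s1, s2, s3, s4, s5, -⟩ := h
  obtain ⟨j, hj⟩ := hj
  obtain ⟨w, hw, wC, wm⟩ : ∃ w, Greedy.best n s.2 C = w ∧ w ∈ C ∧
      ∀ v ∈ C, qf n s.2 v ≤ qf n s.2 w := by
    obtain ⟨c, hc, -⟩ := h1 j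
    obtain ⟨u, u1, u2⟩ := exists_max_image C.toFinset (qf n s.2) ⟨c, by simpa using hc⟩
    unfold Greedy.best
    generalize hl : List.filter _ _ = l
    have : u ∈ l := hl ▸ List.mem_filter.2 ⟨by simpa using u1, by simpa using u2⟩
    obtain ⟨a, l, rfl⟩ := List.exists_cons_of_ne_nil (List.ne_nil_of_mem this)
    obtain ⟨k1, k2⟩ := List.mem_filter.1 (hl ▸ List.mem_cons_self : a ∈ _)
    exact ⟨a, rfl, k1, by simpa using k2⟩
  have cq : ∀ v, (qf n s.2 v : ℝ) = (fun a => (toV n v a : ℝ)) ⬝ᵥ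
      QQ ((U.map (Int.castRingHom ℝ)).submatrix σ id) *ᵥ fun a => (toV n v a : ℝ) := fun v => by
    rw [submatrix_map, QQ_map, ← s5, qf_eq]
    simp [dotProduct, mulVec]
  obtain ⟨t, t1, t2⟩ := h2 w wC
  obtain ⟨-, i, i1, i2⟩ := vertex (U := U.map (Int.castRingHom ℝ)) (σ := σ) (t := t)
    (by rw [← RingHom.mapMatrix_apply, ← RingHom.map_det]; simpa using hU)
    ⟨j, fun e => hj ((s2 j).1 e)⟩
    (by
      rw [submatrix_map, ← transpose_map, ← Matrix.map_mul, ← RingHom.mapMatrix_apply,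
        ← RingHom.map_det, ← s3]
      simpa using s4) t1 fun i => by
      obtain ⟨c, c1, c2⟩ := h1 i
      have := cq c
      rw [c2] at this
      rw [← t2, ← cq]
      exact this.ge.trans (by exact_mod_cast wm c c1)
  refine ⟨i, fun e => i1 ((s2 i).2 e), hw ▸ wC, ?_⟩
  rw [← t2] at i2
  simp only [hw]
  refine i2.imp (fun e => funext fun a => ?_) fun e => funext fun a => ?_ <;>
    exact Int.cast_injective (α := ℝ) (by simpa using congrFun e a)

def dual (p : ℕ × Mx) (W : Mx) (k : ℕ) : ℕ → ℤ :=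
  mv p.1 (fo p (W.take k ++ W.drop (k + 1))).2 (W.getD k [])

theorem chosen (hU : det U ≠ 0) (h1 : ∀ i, ∃ c ∈ C, toV n c = U i)
    (h2 : ∀ c ∈ C, ∃ t : Fin n → ℝ, ∑ i, |t i| ≤ 1 ∧
      (fun a => (toV n c a : ℝ)) = t ᵥ* U.map (Int.castRingHom ℝ)) :
    ∃ π : Fin n → Fin n, Surjective π ∧ (∀ k : Fin n, Vx U C ((ch (n, C)).getD k [], π k)) ∧
      (fo (n, C) (ch (n, C))).1 = det U ^ 2 ∧ ∀ m k : Fin n, toV n ((ch (n, C)).getD m []) ⬝ᵥ
        (fun j => dual (n, C) (ch (n, C)) k j) = if m = k then det U ^ 2 else 0 := by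
  have inv : ∀ j ≤ n, ∃ L : List (List ℤ × Fin n), (∀ x ∈ L, Vx U C x) ∧ (L.map (·.2)).Nodup ∧
      L.length = j ∧ (cs (n, C))^[j] [] = L.map (·.1) := by
    intro j hj
    induction j with
    | zero => exact ⟨[], by simp⟩
    | succ j ih =>
      obtain ⟨L, l1, l2, l3, l4⟩ := ih (by omega)
      obtain ⟨i, i1, i2⟩ := (iv_fo hU L l1 l2).best hU h1 h2 (by
        by_contra c
        push Not at c
        have := (card_le_card (s := univ) fun i _ => List.mem_toFinset.2 (c i)).trans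
          (List.toFinset_card_le _)
        simp at this
        omega)
      exact ⟨(_, i) :: L, List.forall_mem_cons.2 ⟨i2, l1⟩, List.nodup_cons.2 ⟨i1, l2⟩, by simp [l3],
        by rw [iterate_succ_apply', l4]; rfl⟩
  obtain ⟨L, l1, l2, l3, l4⟩ := inv n le_rfl
  have e : ch (n, C) = L.map (·.1) := l4
  have lt : ∀ k : Fin n, k.val < L.length := fun k => by have := k.2; omega
  have g : ∀ k : Fin n, (ch (n, C)).getD k [] = (L[k.val]'(lt k)).1 := fun k => by simp [e, lt k]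
  have inj : Injective fun k : Fin n => (L[k.val]'(lt k)).2 := fun a b h => Fin.ext
    ((l2.getElem_inj_iff (i := a) (j := b) (hi := by simpa using lt a)
      (hj := by simpa using lt b)).1 (by simpa using h))
  have sur := Finite.injective_iff_surjective.1 inj
  refine ⟨_, sur, fun k => g k ▸ l1 _ (List.getElem_mem _), ?_, fun m k => ?_⟩
  · rw [e]
    exact (iv_fo hU L l1 l2).full fun i => let ⟨k, h⟩ := sur i
      h ▸ List.mem_map_of_mem (List.getElem_mem _)
  have s := List.eraseIdx_sublist L k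
  have iv := iv_fo hU _ (fun x hx => l1 x (s.subset hx)) (l2.sublist (s.map _))
  have mem : ∀ m : Fin n, m ≠ k → (L[m.val]'(lt m)).2 ∈ (L.eraseIdx k).map (·.2) := fun m c =>
    List.mem_map_of_mem (List.mem_eraseIdx_iff_getElem.2 ⟨m, lt m, fun e => c (Fin.ext e), rfl⟩)
  have e2 : (fun j : Fin n => dual (n, C) (ch (n, C)) k j) =
      toM n (fo (n, C) ((L.eraseIdx k).map (·.1))).2 *ᵥ toV n (L[k.val]'(lt k)).1 := by
    funext j
    rw [dual, mv_eq, g, e, ← List.eraseIdx_eq_take_drop_succ, List.eraseIdx_map]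
  rw [e2, g]
  split_ifs with c
  · subst c
    rw [← qf_eq]
    refine (iv.upd hU (l1 _ (List.getElem_mem (lt m))) fun h => ?_).full fun i => ?_
    · obtain ⟨x, x1, x2⟩ := List.mem_map.1 h
      obtain ⟨a, a1, a2, rfl⟩ := List.mem_eraseIdx_iff_getElem.1 x1
      exact a2 (congrArg Fin.val (inj (a₁ := ⟨a, by omega⟩) x2))
    · obtain ⟨a, rfl⟩ := sur i
      by_cases c : a = m
      · simp [c]
      · exact List.mem_cons_of_mem _ (mem a c)
  · exact iv.orth (l1 _ (List.getElem_mem (lt m))) (mem m c) _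

end Pool.Agent.H36.Greedy
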