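import Pool.Agent.H36.HrqDefs
import Pool.Agent.H36.Gr

namespace Pool.Agent.H36.Hrq

open Pool.Agent.H38.NP Pool.Agent.H36.Tab Pool.Agent.H36.Gr

def nn (φ : F3) : ℕ := 3 * φ.length * (3 * φ.length)

def tg (φ : F3) (r : ℕ) : ℕ :=
  if conf φ (r / 4 / (3 * φ.length)) (r / 4 % (3 * φ.length)) = true then
    (if r % 4 = 1 then r / 4 / (3 * φ.length) + 1 else if r % 4 = 2 then
      r / 4 % (3 * φ.length) + 1 else 0) else 0

def rk (φ : F3) (r h : ℕ) : ℕ :=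
  if 4 ≤ h % 8 then (if h / 8 = r / 4 ∧ h % 8 = r % 4 + 4 then 1 else 0)
  else if h % 8 = 3 then (if h / 8 = r / 4 ∧ 1 ≤ r % 4 then 3 else 0)
  else if r % 4 = 0 then (if h / 8 = r / 4 then h % 8 + 2 else 0)
  else if tg φ r = 3 * (h / 8) + h % 8 + 1 then 2 else 0

def tab (n m : ℕ) (f : ℕ → ℕ → ℕ) : List (List ℕ) :=
  (List.range n).map fun i => (List.range m).map fun j => f i j

theorem tb_tab {n m f i j} (hi : i < n) (hj : j < m) : tb (tab n m f) i j = f i j := by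
  simp [tb, tab, List.getD_eq_getElem?_getD, hi, hj]

def inst (φ : F3) : Inst := (4 * nn φ, 8 * nn φ, tab (4 * nn φ) (8 * nn φ) (rk φ),
  tab (8 * nn φ) (4 * nn φ) (fun _ r => r + 1),
  (List.range (8 * nn φ)).map (fun h => if h % 8 ≤ 2 then 1 else 2),
  (List.range (8 * nn φ)).map (fun h => if h % 8 ≤ 2 then 4 * nn φ + 1 else 3))

def red (φ : F3) : Inst × ℕ := (inst φ, 4 * nn φ)

theorem pt_red : PT red := by
  unfold red inst tab rk tg nn
  fun_prop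

variable {φ : F3}

theorem rkR_eq {r h : ℕ} (h1 : r < 4 * nn φ) (h2 : h < 8 * nn φ) :
    rkR (inst φ) r h = rk φ r h := tb_tab h1 h2
theorem rkH_eq {r h : ℕ} (h1 : r < 4 * nn φ) (h2 : h < 8 * nn φ) :
    rkH (inst φ) h r = r + 1 := tb_tab h2 h1
theorem lo_eq {h : ℕ} (h2 : h < 8 * nn φ) : lo (inst φ) h = if h % 8 ≤ 2 then 1 else 2 := by
  simp [lo, inst, List.getD_eq_getElem?_getD, h2]
theorem up_eq {h : ℕ} (h2 : h < 8 * nn φ) :
    up (inst φ) h = if h % 8 ≤ 2 then 4 * nn φ + 1 else 3 := by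
  simp [up, inst, List.getD_eq_getElem?_getD, h2]

theorem acc_iff {r h : ℕ} : Acc (inst φ) r h ↔ r < 4 * nn φ ∧ h < 8 * nn φ ∧ rk φ r h ≠ 0 :=
  and_congr_right fun h1 => and_congr_right fun h2 => by
    rw [rkR_eq h1 h2, rkH_eq h1 h2]; simp

theorem rk_spec (φ : F3) (r h : ℕ) : rk φ r h = 0 ∨
    (h / 8 = r / 4 ∧ h % 8 = r % 4 + 4 ∧ rk φ r h = 1) ∨
    (h / 8 = r / 4 ∧ h % 8 = 3 ∧ 1 ≤ r % 4 ∧ rk φ r h = 3) ∨
    (h / 8 = r / 4 ∧ h % 8 ≤ 2 ∧ r % 4 = 0 ∧ rk φ r h = h % 8 + 2) ∨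
    (h % 8 ≤ 2 ∧ 1 ≤ r % 4 ∧ tg φ r = 3 * (h / 8) + h % 8 + 1 ∧ rk φ r h = 2) := by
  unfold rk; split_ifs <;> omega

theorem rk1 {r h : ℕ} (a : h / 8 = r / 4) (b : h % 8 = r % 4 + 4) : rk φ r h = 1 := by
  unfold rk; split_ifs <;> omega
theorem rk2 {r h : ℕ} (a : h / 8 = r / 4) (b : h % 8 = 3) (c : 1 ≤ r % 4) : rk φ r h = 3 := by
  unfold rk; split_ifs <;> omega
theorem rk3 {r h : ℕ} (a : h / 8 = r / 4) (b : h % 8 ≤ 2) (c : r % 4 = 0) :
    rk φ r h = h % 8 + 2 := by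
  unfold rk; split_ifs <;> omega
theorem rk4 {r h : ℕ} (b : h % 8 ≤ 2) (c : 1 ≤ r % 4) (d : tg φ r = 3 * (h / 8) + h % 8 + 1) :
    rk φ r h = 2 := by
  unfold rk; split_ifs <;> omega

theorem valid (φ : F3) : Valid (inst φ) := by
  refine ⟨fun r h h' a b e => ?_, fun r r' h a b e => ?_, fun h hh => ?_⟩
  · obtain ⟨a1, a2, a3⟩ := acc_iff.1 a
    obtain ⟨-, b2, b3⟩ := acc_iff.1 b
    rw [rkR_eq a1 a2, rkR_eq a1 b2] at e
    have := rk_spec φ r h
    have := rk_spec φ r h'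
    omega
  · rw [rkH_eq a.1 a.2.1, rkH_eq b.1 b.2.1] at e
    omega
  · rw [lo_eq hh, up_eq hh]
    split_ifs <;> omega

theorem load_le {M : Finset (ℕ × ℕ)} {h : ℕ} (T : Finset ℕ) (hT : ∀ r, (r, h) ∈ M → r ∈ T) :
    load M h ≤ T.card :=
  Finset.card_le_card_of_injOn Prod.fst (fun p hp => by
    obtain ⟨a, rfl⟩ := Finset.mem_filter.1 hp
    exact hT _ a) fun p hp q hq e => Prod.ext e
      ((Finset.mem_filter.1 hp).2.trans (Finset.mem_filter.1 hq).2.symm)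

theorem load_ne {M : Finset (ℕ × ℕ)} {h : ℕ} : load M h ≠ 0 ↔ ∃ r, (r, h) ∈ M := by
  rw [load, Finset.card_ne_zero]
  exact ⟨fun ⟨p, hp⟩ => ⟨p.1, by obtain ⟨a, rfl⟩ := Finset.mem_filter.1 hp; exact a⟩,
    fun ⟨r, hr⟩ => ⟨_, Finset.mem_filter.2 ⟨hr, rfl⟩⟩⟩

theorem trap {M : Finset (ℕ × ℕ)} (hM : ∀ p ∈ M, Acc (inst φ) p.1 p.2) {h : ℕ} (hh : 4 ≤ h % 8) :
    load M h ≤ 1 :=
  load_le {4 * (h / 8) + (h % 8 - 4)} fun r hr => by
    have := (acc_iff.1 (hM _ hr)).2.2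
    have := rk_spec φ r h
    simp only [Finset.mem_singleton] at *
    omega

def gr (n : ℕ) (f : ℕ → ℕ) : Finset (ℕ × ℕ) := (Finset.range n).image fun r => (r, f r)

theorem mem_gr {n f r h} : (r, h) ∈ gr n f ↔ r < n ∧ h = f r := by
  simp only [gr, Finset.mem_image, Finset.mem_range, Prod.mk.injEq]
  exact ⟨by rintro ⟨a, h, rfl, rfl⟩; exact ⟨h, rfl⟩, by rintro ⟨h, rfl⟩; exact ⟨_, h, rfl, rfl⟩⟩

theorem gr_asg {f : ℕ → ℕ} (hf : ∀ r < 4 * nn φ, f r < 8 * nn φ ∧ rk φ r (f r) ≠ 0) :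
    Assign (inst φ) (gr (4 * nn φ) f) := by
  have k : ∀ p ∈ gr (4 * nn φ) f, Acc (inst φ) p.1 p.2 := fun ⟨r, h⟩ hp => by
    obtain ⟨a, rfl⟩ := mem_gr.1 hp
    exact acc_iff.2 ⟨a, hf r a⟩
  refine ⟨k, fun ⟨r, h⟩ hp ⟨r', h'⟩ hq e => ?_, fun h => ?_⟩
  · obtain rfl : r = r' := e
    exact (mem_gr.1 hp).2.trans (mem_gr.1 hq).2.symm
  · by_cases c : h < 8 * nn φ
    · rw [up_eq c]
      split_ifs with c'
      · exact (load_le (Finset.range (4 * nn φ)) fun r hr =>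
          Finset.mem_range.2 (mem_gr.1 hr).1).trans (by simp)
      · by_cases c2 : h % 8 = 3
        · refine (load_le {4 * (h / 8) + 1, 4 * (h / 8) + 2, 4 * (h / 8) + 3} fun r hr => ?_).trans
            Finset.card_le_three
          have := (acc_iff.1 (k _ hr)).2.2
          have := rk_spec φ r h
          simp only [Finset.mem_insert, Finset.mem_singleton] at *
          omega
        · exact (trap k (by omega)).trans (by omega)
    · by_contra hh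
      obtain ⟨r, hr⟩ := load_ne.1 (show load (gr (4 * nn φ) f) h ≠ 0 by omega)
      exact c (k _ hr).2.1

theorem nopop (h : ℕ) : ¬ Popular (inst φ) h := by
  rintro ⟨hh, Ma, ⟨h1, h2⟩, h3⟩
  have e : ∀ r, rk φ r (8 * (r / 4) + 4 + r % 4) = 1 := fun r => rk1 (by omega) (by omega)
  have st : Stable (inst φ) (gr (4 * nn φ) fun r => 8 * (r / 4) + 4 + r % 4) :=
    ⟨gr_asg fun r hr => ⟨by omega, by simp [e]⟩, fun r h ⟨a, b, _⟩ => by
      have := b _ (mem_gr.2 ⟨a.1, rfl⟩)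
      have a1 : r < 4 * nn φ := a.1
      rw [rkR_eq a1 (h := 8 * (r / 4) + 4 + r % 4) (by omega), e] at this
      exact a.2.2.1 (by omega)⟩
  rw [lo_eq hh] at h3
  by_cases c : 4 ≤ h % 8
  · have := trap h1.1.1 c
    split_ifs at h3 <;> omega
  · obtain ⟨r, hr⟩ := load_ne.1 (show load Ma h ≠ 0 by split_ifs at h3 <;> omega)
    obtain ⟨a1, a2, a3⟩ := acc_iff.1 (h1.1.1 _ hr)
    obtain ⟨h', b1, b2⟩ := h2 _ st r _ (mem_gr.2 ⟨a1, rfl⟩)
    obtain rfl : h' = h := h1.1.2.1 _ b1 _ hr rfl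
    rw [rkR_eq a1 a2, rkR_eq a1 (by simp only at a1; omega), e] at b2
    have := rk_spec φ r h'
    simp only at a3 b2
    omega

theorem tg_lt {r : ℕ} (hr : r < 4 * nn φ) : tg φ r ≤ 3 * φ.length := by
  have : 0 < 3 * φ.length := Nat.pos_of_ne_zero fun e => by simp [nn, e] at hr
  have a : r / 4 / (3 * φ.length) < 3 * φ.length :=
    Nat.div_lt_of_lt_mul (by unfold nn at hr; omega)
  have b := Nat.mod_lt (r / 4) this
  unfold tg; split_ifs <;> omega

theorem le_nn (φ : F3) : φ.length ≤ nn φ := by unfold nn; nlinarith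

theorem yes (h : Sat3 φ) : ∃ M, PStable (inst φ) M ∧ 4 * nn φ ≤ M.card := by
  classical
  obtain ⟨s, s1, s2⟩ := (sat3_iff_sel φ).1 h
  have := le_nn φ
  obtain ⟨S, S1, S2⟩ : ∃ S : ℕ → ℕ, (∀ i, S i / 3 = i) ∧ ∀ i < φ.length, S i = s i :=
    ⟨fun i => if i < φ.length then s i else 3 * i, fun i => by
      beta_reduce; split_ifs with c
      exacts [s1 i c, by omega], fun i hi => if_pos hi⟩
  obtain ⟨f, hf⟩ : ∃ f : ℕ → ℕ, ∀ r, (r % 4 = 0 ∧ f r = 8 * (r / 4) + S (r / 4) % 3) ∨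
      (1 ≤ r % 4 ∧ tg φ r ≠ 0 ∧ S ((tg φ r - 1) / 3) = tg φ r - 1 ∧
        f r = 8 * ((tg φ r - 1) / 3) + (tg φ r - 1) % 3) ∨
      (1 ≤ r % 4 ∧ (tg φ r = 0 ∨ S ((tg φ r - 1) / 3) ≠ tg φ r - 1) ∧ f r = 8 * (r / 4) + 3) :=
    ⟨fun r => if r % 4 = 0 then 8 * (r / 4) + S (r / 4) % 3 else
      if tg φ r ≠ 0 ∧ S ((tg φ r - 1) / 3) = tg φ r - 1 then
        8 * ((tg φ r - 1) / 3) + (tg φ r - 1) % 3 else 8 * (r / 4) + 3, fun r => by
      beta_reduce; split_ifs <;> omega⟩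
  have k : ∀ r < 4 * nn φ, f r < 8 * nn φ ∧ rk φ r (f r) ≠ 0 := fun r hr => by
    have := tg_lt hr
    rcases hf r with a | a | a
    · exact ⟨by omega, by rw [rk3 (by omega) (by omega) a.1]; omega⟩
    · exact ⟨by omega, by rw [rk4 (by omega) a.1 (by omega)]; omega⟩
    · exact ⟨by omega, by rw [rk2 (by omega) (by omega) a.1]; omega⟩
  refine ⟨gr (4 * nn φ) f, ⟨gr_asg k, fun h => or_iff_not_imp_left.2 fun hl => ?_,
    fun r h hl ⟨a, b, _⟩ => ?_⟩, ?_⟩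
  · obtain ⟨r, hr⟩ := load_ne.1 hl
    obtain ⟨a, rfl⟩ := mem_gr.1 hr
    rw [lo_eq (k r a).1]
    split_ifs with c
    · omega
    · have e : f r = 8 * (r / 4) + 3 := by have := hf r; omega
      have z : f (4 * (r / 4) + 3) = f r := by
        have : tg φ (4 * (r / 4) + 3) = 0 := by unfold tg; split_ifs <;> omega
        have := hf (4 * (r / 4) + 3)
        omega
      have y : f (4 * (r / 4) + 1) = f r ∨ f (4 * (r / 4) + 2) = f r := by
        by_contra hn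
        have a1 := hf (4 * (r / 4) + 1)
        have a2 := hf (4 * (r / 4) + 2)
        have b1 := tg_lt (φ := φ) (r := 4 * (r / 4) + 1) (by omega)
        have b2 := tg_lt (φ := φ) (r := 4 * (r / 4) + 2) (by omega)
        have c1 : tg φ (4 * (r / 4) + 1) ≠ 0 ∧ S ((tg φ (4 * (r / 4) + 1) - 1) / 3) =
          tg φ (4 * (r / 4) + 1) - 1 := by omega
        have c2 : tg φ (4 * (r / 4) + 2) ≠ 0 ∧ S ((tg φ (4 * (r / 4) + 2) - 1) / 3) =
          tg φ (4 * (r / 4) + 2) - 1 := by omega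
        have d := s2 ((tg φ (4 * (r / 4) + 1) - 1) / 3) (by omega)
          ((tg φ (4 * (r / 4) + 2) - 1) / 3) (by omega)
        rw [← S2 _ (by omega), ← S2 _ (by omega), c1.2, c2.2] at d
        have c3 := c1.1
        unfold tg at d c3
        simp only [show (4 * (r / 4) + 1) / 4 = r / 4 by omega,
          show (4 * (r / 4) + 2) / 4 = r / 4 by omega, show (4 * (r / 4) + 1) % 4 = 1 by omega,
          show (4 * (r / 4) + 2) % 4 = 2 by omega] at d c3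
        split_ifs at d c3 with c4 <;> simp_all
      refine Finset.one_lt_card.2 ?_
      rcases y with y | y
      · exact ⟨(_, _), Finset.mem_filter.2 ⟨mem_gr.2 ⟨by omega, y.symm⟩, rfl⟩, (_, _),
          Finset.mem_filter.2 ⟨mem_gr.2 ⟨by omega, z.symm⟩, rfl⟩, by simp⟩
      · exact ⟨(_, _), Finset.mem_filter.2 ⟨mem_gr.2 ⟨by omega, y.symm⟩, rfl⟩, (_, _),
          Finset.mem_filter.2 ⟨mem_gr.2 ⟨by omega, z.symm⟩, rfl⟩, by simp⟩
  · obtain ⟨r', hr⟩ := load_ne.1 hl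
    obtain ⟨a', e⟩ := mem_gr.1 hr
    obtain ⟨a1, a2, a3⟩ := acc_iff.1 a
    have b := b _ (mem_gr.2 ⟨a1, rfl⟩)
    rw [rkR_eq a1 a2, rkR_eq a1 (k r a1).1] at b
    have c : h % 8 = 3 ∨ h % 8 ≤ 2 ∧ S (h / 8) = 3 * (h / 8) + h % 8 := by
      rcases hf r' with d | d | d
      · have := S1 (r' / 4)
        rw [show h / 8 = r' / 4 by omega]; omega
      · rw [show h / 8 = (tg φ r' - 1) / 3 by omega]; omega
      · omega
    have d := (k r a1).2
    have e1 := rk_spec φ r h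
    have e2 := rk_spec φ r (f r)
    have e3 := hf r
    rcases e1 with e1 | e1 | e1 | e1 | e1
    · omega
    · omega
    · omega
    · rw [← e1.1] at e3; omega
    · rw [show (tg φ r - 1) / 3 = h / 8 by omega] at e3; omega
  · rw [gr, Finset.card_image_of_injective _ fun a b e => (Prod.mk.inj e).1, Finset.card_range]

theorem no {M} (h : PStable (inst φ) M) (hc : 4 * nn φ ≤ M.card) : Sat3 φ := by
  obtain ⟨⟨h1, h2, h3⟩, h4, h5⟩ := h
  have := le_nn φ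
  have all : ∀ r < 4 * nn φ, ∃ h, (r, h) ∈ M ∧ h % 8 ≤ 3 := fun r hr => by
    have : M.image Prod.fst = Finset.range (4 * nn φ) := Finset.eq_of_subset_of_card_le
      (Finset.image_subset_iff.2 fun p hp => Finset.mem_range.2 (h1 p hp).1) (by
        rwa [Finset.card_image_of_injOn fun p hp q hq e => Prod.ext e (h2 p hp q hq e),
          Finset.card_range])
    obtain ⟨⟨r, h⟩, hp, rfl⟩ := Finset.mem_image.1 (this ▸ Finset.mem_range.2 hr)
    refine ⟨h, hp, not_lt.1 fun c => ?_⟩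
    have a := trap h1 c
    have b := load_ne.2 ⟨r, hp⟩
    have d := h4 h
    rw [lo_eq (h1 _ hp).2.1, if_neg (by omega)] at d
    omega
  have ex : ∀ c, ∃ o, c < φ.length → o / 3 = c ∧ (4 * c, 8 * (o / 3) + o % 3) ∈ M := fun c => by
    by_cases hc : c < φ.length
    · obtain ⟨h, a, b⟩ := all (4 * c) (by omega)
      have d := (acc_iff.1 (h1 _ a)).2.2
      have := rk_spec φ (4 * c) h
      simp only at d
      refine ⟨3 * c + h % 8, fun _ => ⟨by omega, ?_⟩⟩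
      rwa [show 8 * ((3 * c + h % 8) / 3) + (3 * c + h % 8) % 3 = h by omega]
    · exact ⟨0, fun h => absurd h hc⟩
  choose s hs using ex
  refine (sat3_iff_sel φ).2 ⟨s, fun c hc => (hs c hc).1, fun c hc d hd => ?_⟩
  by_contra hn
  obtain ⟨a1, a2⟩ := hs c hc
  obtain ⟨b1, b2⟩ := hs d hd
  obtain ⟨i, i1, i2, i3⟩ : ∃ i < nn φ, i / (3 * φ.length) = s c ∧ i % (3 * φ.length) = s d := by
    have a : s c < 3 * φ.length := by omega
    have b : s d < 3 * φ.length := by omega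
    refine ⟨3 * φ.length * s c + s d, by unfold nn; nlinarith, ?_, ?_⟩
    · rw [Nat.mul_add_div (by omega), Nat.div_eq_of_lt b, Nat.add_zero]
    · rw [Nat.mul_add_mod, Nat.mod_eq_of_lt b]
  have t : ∀ j < 4, tg φ (4 * i + j) = if j = 1 then s c + 1 else if j = 2 then s d + 1 else 0 := by
    intro j hj
    unfold tg
    rw [show (4 * i + j) / 4 = i by omega, show (4 * i + j) % 4 = j by omega, i2, i3,
      if_pos (by simpa using hn)]
  have blk : ∀ r o c, r < 4 * nn φ → 1 ≤ r % 4 → tg φ r = o + 1 → o < 3 * φ.length →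
      (c, 8 * (o / 3) + o % 3) ∈ M → (r, 8 * (r / 4) + 3) ∉ M := by
    intro r o c r1 r2 r3 r4 r5 r6
    have e := rk4 (φ := φ) (h := 8 * (o / 3) + o % 3) (by omega) r2 (by omega)
    refine h5 r _ (load_ne.2 ⟨c, r5⟩) ⟨acc_iff.2 ⟨r1, by omega, by omega⟩, fun h' hh => ?_,
      Or.inl ?_⟩
    · obtain rfl : 8 * (r / 4) + 3 = h' := h2 _ r6 _ hh rfl
      rw [rkR_eq r1 (by omega), rkR_eq r1 (by omega), e, rk2 (by omega) (by omega) r2]
      omega
    · rw [up_eq (by omega), if_pos (by omega)]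
      exact Nat.lt_succ_of_le ((load_le (Finset.range (4 * nn φ)) fun r hr =>
        Finset.mem_range.2 (h1 _ hr).1).trans (by simp))
  have n1 := blk (4 * i + 1) _ _ (by omega) (by omega) (t 1 (by omega)) (by omega) a2
  have n2 := blk (4 * i + 2) _ _ (by omega) (by omega) (t 2 (by omega)) (by omega) b2
  rw [show (4 * i + 1) / 4 = i by omega] at n1
  rw [show (4 * i + 2) / 4 = i by omega] at n2
  obtain ⟨h, z1, z2⟩ := all (4 * i + 3) (by omega)
  obtain rfl : h = 8 * i + 3 := by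
    have d := (acc_iff.1 (h1 _ z1)).2.2
    have := rk_spec φ (4 * i + 3) h
    have : tg φ (4 * i + 3) = 0 := t 3 (by omega)
    simp only at d
    omega
  have a := load_le (M := M) (h := 8 * i + 3) {4 * i + 3} fun r hr => by
    have d := (acc_iff.1 (h1 _ hr)).2.2
    have := rk_spec φ r (8 * i + 3)
    have : r ≠ 4 * i + 1 := fun e => n1 (e ▸ hr)
    have : r ≠ 4 * i + 2 := fun e => n2 (e ▸ hr)
    simp only [Finset.mem_singleton] at *
    omega
  have b := load_ne.2 ⟨_, z1⟩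
  have d := h4 (8 * i + 3)
  rw [lo_eq (by omega), if_neg (by omega)] at d
  rw [Finset.card_singleton] at a
  omega

theorem hardA : NPH (fun p : Inst × ℕ => Valid p.1) BigA :=
  sat3_nph.reduce red pt_red fun φ _ => ⟨valid φ, yes, fun ⟨_, a, b⟩ => no a b⟩

theorem hardB : NPH (fun p : Inst × ℕ => Valid p.1) BigB :=
  sat3_nph.reduce red pt_red fun φ _ => ⟨valid φ, fun h =>
    let ⟨M, a, b⟩ := yes h; ⟨M, a, fun h hp => absurd hp (nopop h), b⟩,
    fun ⟨_, a, _, b⟩ => no a b⟩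

end Pool.Agent.H36.Hrq
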