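import Pool.Agent.H36.TabDefs

/-!
Hospitals/Residents with lower and upper quotas, pairwise stability.
-/

namespace Pool.Agent.H36.Hrq

open Pool.Agent.H36.Tab

/-- Numbers of residents and hospitals, rank tables of the residents and of the hospitals
(rank `0` means unacceptable, smaller positive rank is better), lower and upper quotas. -/
abbrev Inst := ℕ × ℕ × List (List ℕ) × List (List ℕ) × List ℕ × List ℕ

def rkR (I : Inst) (r h : ℕ) : ℕ := tb I.2.2.1 r h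
def rkH (I : Inst) (h r : ℕ) : ℕ := tb I.2.2.2.1 h r
def lo (I : Inst) (h : ℕ) : ℕ := I.2.2.2.2.1.getD h 0
def up (I : Inst) (h : ℕ) : ℕ := I.2.2.2.2.2.getD h 0

/-- acceptable pairs -/
def Acc (I : Inst) (r h : ℕ) : Prop := r < I.1 ∧ h < I.2.1 ∧ rkR I r h ≠ 0 ∧ rkH I h r ≠ 0

/-- strict preferences and `1 ≤ l ≤ 2`, `l ≤ u` -/
def Valid (I : Inst) : Prop :=
  (∀ r h h', Acc I r h → Acc I r h' → rkR I r h = rkR I r h' → h = h') ∧
  (∀ r r' h, Acc I r h → Acc I r' h → rkH I h r = rkH I h r' → r = r') ∧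
  ∀ h < I.2.1, 1 ≤ lo I h ∧ lo I h ≤ 2 ∧ lo I h ≤ up I h

/-- `|M(h)|` -/
def load (M : Finset (ℕ × ℕ)) (h : ℕ) : ℕ := (M.filter fun p => p.2 = h).card

/-- matchings when the lower quotas are ignored -/
def Assign (I : Inst) (M : Finset (ℕ × ℕ)) : Prop :=
  (∀ p ∈ M, Acc I p.1 p.2) ∧ (∀ p ∈ M, ∀ q ∈ M, p.1 = q.1 → p.2 = q.2) ∧ ∀ h, load M h ≤ up I h

/-- `r` is unassigned or prefers `h`, and `h` has a free place or prefers `r` to a member -/
def Blocks (I : Inst) (M : Finset (ℕ × ℕ)) (r h : ℕ) : Prop :=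
  Acc I r h ∧ (∀ h', (r, h') ∈ M → rkR I r h < rkR I r h') ∧
    (load M h < up I h ∨ ∃ r', (r', h) ∈ M ∧ rkH I h r < rkH I h r')

/-- pairwise stable matchings -/
def PStable (I : Inst) (M : Finset (ℕ × ℕ)) : Prop :=
  Assign I M ∧ (∀ h, load M h = 0 ∨ lo I h ≤ load M h) ∧ ∀ r h, load M h ≠ 0 → ¬ Blocks I M r h

/-- stable matchings of the instance without lower quotas -/
def Stable (I : Inst) (M : Finset (ℕ × ℕ)) : Prop := Assign I M ∧ ∀ r h, ¬ Blocks I M r h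

/-- the resident-optimal stable matching of the instance without lower quotas -/
def ResOpt (I : Inst) (M : Finset (ℕ × ℕ)) : Prop :=
  Stable I M ∧ ∀ M', Stable I M' → ∀ r h', (r, h') ∈ M' → ∃ h, (r, h) ∈ M ∧ rkR I r h ≤ rkR I r h'

def Popular (I : Inst) (h : ℕ) : Prop := h < I.2.1 ∧ ∃ Ma, ResOpt I Ma ∧ lo I h ≤ load Ma h

/-- decision form of Problem A -/
def BigA (p : Inst × ℕ) : Prop := ∃ M, PStable p.1 M ∧ p.2 ≤ M.card

/-- decision form of Problem B -/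
def BigB (p : Inst × ℕ) : Prop :=
  ∃ M, PStable p.1 M ∧ (∀ h, Popular p.1 h → load M h ≠ 0) ∧ p.2 ≤ M.card

end Pool.Agent.H36.Hrq
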