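import Pool.Agent.H36.Gr

/-!
Numeric literal codes for 3SAT.
-/

namespace Pool.Agent.H36.Gr

open Pool.Agent.H38.NP

/-- code of the literal at occurrence `o` -/
def lc (φ : F3) (o : ℕ) : ℕ := 2 * (litAt φ o).1 + (litAt φ o).2.toNat

/-- a bound on variables and clauses -/
def nv (φ : F3) : ℕ := ((List.range (3 * φ.length)).map fun o => (litAt φ o).1).sum + φ.length + 1

@[fun_prop] theorem pt_lc {α : Type} [Enc α] {φ : α → F3} {u : α → ℕ}
    (hφ : PT φ) (hu : PT u) : PT fun a => lc (φ a) (u a) := by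
  unfold lc; fun_prop

@[fun_prop] theorem pt_nv {α : Type} [Enc α] {φ : α → F3} (hφ : PT φ) : PT fun a => nv (φ a) := by
  unfold nv; fun_prop

theorem lt_nv (φ : F3) : φ.length < nv φ := by unfold nv; omega

theorem lc_lt {φ : F3} {o : ℕ} (h : o < 3 * φ.length) : lc φ o < 2 * nv φ := by
  have : (litAt φ o).1 ≤ ((List.range (3 * φ.length)).map fun o => (litAt φ o).1).sum :=
    List.single_le_sum (by simp) _ (List.mem_map.2 ⟨o, List.mem_range.2 h, rfl⟩)
  have := Bool.toNat_le (litAt φ o).2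
  unfold lc nv; omega

theorem sat3_iff_lc (φ : F3) : Sat3 φ ↔ ∃ T : ℕ → Prop,
    (∀ l l', T l → T l' → l / 2 = l' / 2 → l = l') ∧
      ∀ c < φ.length, ∃ j < 3, T (lc φ (3 * c + j)) := by
  rw [sat3_iff_litAt]
  constructor
  · rintro ⟨a, ha⟩
    refine ⟨fun l => l % 2 = (a (l / 2)).toNat, fun l l' h h' e => ?_, fun c hc => ?_⟩
    · beta_reduce at h h'
      rw [← e] at h'; omega
    · obtain ⟨j, hj, e⟩ := ha c hc
      refine ⟨j, hj, ?_⟩
      have := Bool.toNat_le (litAt φ (3 * c + j)).2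
      have e' : lc φ (3 * c + j) / 2 = (litAt φ (3 * c + j)).1 := by unfold lc; omega
      beta_reduce
      rw [e', e]; unfold lc; omega
  · rintro ⟨T, h1, h2⟩
    classical
    refine ⟨fun x => decide (T (2 * x + 1)), fun c hc => ?_⟩
    obtain ⟨j, hj, e⟩ := h2 c hc
    refine ⟨j, hj, ?_⟩
    unfold lc at e
    cases hb : (litAt φ (3 * c + j)).2 <;> simp only [hb, Bool.toNat_false, Bool.toNat_true] at e
    · simp only [decide_eq_false_iff_not]
      intro h
      have := h1 _ _ e h (by omega)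
      omega
    · simpa using e

/-- total version -/
theorem sat3_iff_lc' (φ : F3) : Sat3 φ ↔ ∃ a : ℕ → ℕ, (∀ i, a i / 2 = i) ∧
      ∀ c < φ.length, ∃ j < 3, a (lc φ (3 * c + j) / 2) = lc φ (3 * c + j) := by
  rw [sat3_iff_lc]
  constructor
  · rintro ⟨T, h1, h2⟩
    classical
    refine ⟨fun i => if T (2 * i) then 2 * i else 2 * i + 1, fun i => ?_, fun c hc => ?_⟩
    · beta_reduce
      split_ifs <;> omega
    · obtain ⟨j, hj, e⟩ := h2 c hc
      refine ⟨j, hj, ?_⟩
      beta_reduce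
      split_ifs with h
      · exact h1 _ _ h e (by omega)
      · by_contra h'
        exact h (by rwa [show 2 * (lc φ (3 * c + j) / 2) = lc φ (3 * c + j) by omega])
  · rintro ⟨a, h1, h2⟩
    exact ⟨fun l => a (l / 2) = l, fun l l' h h' e => by rw [← h, ← h', e], h2⟩

end Pool.Agent.H36.Gr
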