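import Pool.Agent.H36.LobDefs
import Pool.Agent.H36.Bsp
import Pool.Agent.H38.ER.Big

/-!
All-ones submatrices: padding, and the reduction from satisfiability.
-/

namespace Pool.Agent.H36.Lob

open Pool.Agent.H38.NP Pool.Agent.H38.ER Finset

def Bic (r c : ℕ) (e : ℕ → ℕ → Bool) (a b : ℕ) : Prop :=
  ∃ X ⊆ range r, ∃ Y ⊆ range c, a ≤ #X ∧ b ≤ #Y ∧ ∀ i ∈ X, ∀ j ∈ Y, e i j = true

theorem Bic.symm {r c e a b} (h : Bic r c e a b) : Bic c r (fun j i => e i j) b a :=
  let ⟨X, x, Y, y, h1, h2, h3⟩ := h; ⟨Y, y, X, x, h2, h1, fun j hj i hi => h3 i hi j hj⟩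

def mat (r m : ℕ) (e : ℕ → ℕ → Bool) : List (List Bool) := (List.range r).map fun i => (List.range m).map (e i)

theorem valid (r m e a) : Valid (m, mat r m e, r - a) := ⟨by simp [mat], by simp [mat]⟩

theorem old_iff {z r m e a} (h : a ≤ r) : OLD z (m, mat r m e, r - a) ↔ Bic r m e a (z m) := by
  have l : (mat r m e).length = r := by simp [mat]
  have g : ∀ (i : Fin (mat r m e).length) (j : Fin m), (mat r m e)[i].getD j false = e i j := fun i j => by
    rw [Fin.getElem_fin]
    simp [mat, List.getD_eq_getElem?_getD]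
  simp only [OLD, g]
  generalize (mat r m e).length = n at l
  subst l
  constructor
  · rintro ⟨Y, h1, h2⟩
    refine ⟨(univ.filter fun i => ¬∃ j, Y i j ≠ e i j).map Fin.valEmbedding, fun x => by simp; omega,
      (univ.filter fun j => ∀ i, Y i j = true).map Fin.valEmbedding, fun x => by simp; omega, ?_,
      by simpa using h2, ?_⟩
    · have := card_filter_add_card_filter_not (s := univ) fun i : Fin n => ∃ j, Y i j ≠ e i j
      rw [card_map]; rw [card_fin] at this; omega
    · simp only [mem_map, mem_filter, mem_univ, true_and]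
      rintro _ ⟨i, hi, rfl⟩ _ ⟨j, hj, rfl⟩
      push Not at hi
      exact hi j ▸ hj i
  · rintro ⟨X, x, Y, y, h1, h2, h3⟩
    refine ⟨fun i j => if i.val ∈ X then e i j else true, ?_, h2.trans ?_⟩
    · refine (card_le_card (t := univ.filter fun i : Fin n => i.val ∉ X) fun i => by simp; tauto).trans ?_
      rw [Bsp.cnt n (· ∉ X), ← sdiff_eq_filter, card_sdiff_of_subset x, card_range]; omega
    · refine le_trans ?_ (card_le_card (s := univ.filter fun j : Fin m => j.val ∈ Y) fun j => by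
        simpa using fun hj i => or_iff_not_imp_left.2 fun hi => h3 _ (not_not.1 hi) _ hj)
      rw [Bsp.cnt m (· ∈ Y), filter_mem_eq_inter, inter_eq_right.2 y]

def pad (c d : ℕ) (e : ℕ → ℕ → Bool) (i j : ℕ) : Bool := if j < c then e i j else decide (j < c + d)

theorem pad_iff {r c m e a b y} (ha : 1 ≤ a) (hb : b ≤ y) (hm : c + (y - b) ≤ m) :
    Bic r m (pad c (y - b) e) a y ↔ Bic r c e a b := by
  constructor
  · rintro ⟨X, x, Y, -, h1, h2, h3⟩
    obtain ⟨i, hi⟩ := card_pos.1 (ha.trans h1)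
    refine ⟨X, x, Y.filter (· < c), fun j => by simp, h1, ?_, fun i hi j hj => ?_⟩
    · have := card_le_card (show Y ⊆ Y.filter (· < c) ∪ Ico c (c + (y - b)) from fun j hj => by
        have := h3 i hi j hj
        by_cases k : j < c
        · simp [k, hj]
        · simp [pad, k] at this ⊢; omega)
      have := this.trans (card_union_le _ _)
      rw [Nat.card_Ico] at this
      omega
    · simpa [pad, (mem_filter.1 hj).2] using h3 i hi j (mem_filter.1 hj).1
  · rintro ⟨X, x, Y, hY, h1, h2, h3⟩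
    have k : ∀ j ∈ Y, j < c := fun j hj => mem_range.1 (hY hj)
    refine ⟨X, x, Y ∪ Ico c (c + (y - b)), fun j hj => ?_, h1, ?_, fun i hi j hj => ?_⟩
    · rcases mem_union.1 hj with hj | hj
      · have := k j hj; simp; omega
      · simp at hj ⊢; omega
    · rw [card_union_of_disjoint (disjoint_left.2 fun j hj h => by have := k j hj; simp at h; omega),
        Nat.card_Ico]
      omega
    · rcases mem_union.1 hj with hj | hj
      · simp [pad, k j hj, h3 i hi j hj]
      · simp at hj; simp [pad, hj]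

def lit (W s r : ℕ) (l : ℕ × Bool) : Bool := decide (((Bin.mk (r % W)).val.bits.getD (l.1 % s) false) = l.2)

theorem lit_iff {W s r l} : lit W s r l = true ↔ (r % W).testBit (l.1 % s) = l.2 := by
  rw [lit, decide_eq_true_eq, Nat.testBit_eq_inth]; rfl

def vd (F : Fm) (W s a b c : ℕ) : Bool := (!decide (a / W = b / W) || decide (a = b)) && F.2.all fun C =>
  !decide (C.1.1 / s = a / W) || !decide (C.2.1.1 / s = b / W) || !decide (C.2.2.1 / s = c / W) ||
    lit W s a C.1 || lit W s b C.2.1 || lit W s c C.2.2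

def ee (F : Fm) (W s V v t : ℕ) : Bool := vd F W s (t / V / V) (t / V % V) (t % V) &&
  !decide (v = t / V / V) && !decide (v = t / V % V) && !decide (v = t % V)

theorem sat_iff {F : Fm} (h : WF F) {k s} (hk : 1 ≤ k) (hs : 1 ≤ s) (hN : F.1 ≤ s * k) :
    Sat F ↔ Bic (k * 2 ^ s) ((k * 2 ^ s) ^ 3) (ee F (2 ^ s) s (k * 2 ^ s)) (k * 2 ^ s - k) (k ^ 3) := by
  have W2 : 2 ≤ 2 ^ s := Nat.le_self_pow (by omega) 2
  have dm : ∀ {n : ℕ} (u) {v}, v < n → (n * u + v) / n = u ∧ (n * u + v) % n = v := fun u v hv => by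
    rw [Nat.mul_add_div (by omega), Nat.mul_add_mod, Nat.div_eq_of_lt hv, Nat.mod_eq_of_lt hv]
    simp
  have gr : ∀ v < F.1, v / s < k := fun v hv => Nat.div_lt_of_lt_mul (hv.trans_le hN)
  have V2 : k + k ≤ k * 2 ^ s := by nlinarith
  constructor
  · rintro ⟨α, hα⟩
    let ρ : ℕ → ℕ := fun g => 2 ^ s * g + Nat.ofBits fun i : Fin s => α (s * g + i)
    have r1 : ∀ g, ρ g / 2 ^ s = g := fun g => (dm g (Nat.ofBits_lt_two_pow _)).1
    have r2 : ∀ l : ℕ × Bool, lit (2 ^ s) s (ρ (l.1 / s)) l = true ↔ α l.1 = l.2 := fun l => by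
      rw [lit_iff, (dm _ (Nat.ofBits_lt_two_pow _)).2, Nat.testBit_ofBits_lt _ _ (Nat.mod_lt _ hs),
        Nat.div_add_mod]
    have r3 : ∀ g < k, ρ g < k * 2 ^ s := fun g hg =>
      (Nat.div_lt_iff_lt_mul (by omega)).1 (by rwa [r1])
    have ri : Function.Injective ρ := fun a b e => by rw [← r1 a, e, r1]
    generalize k * 2 ^ s = V at *
    have dc : ∀ a < k, ∀ b < k, ∀ c < k, (V * (V * ρ a + ρ b) + ρ c) / V / V = ρ a ∧
        (V * (V * ρ a + ρ b) + ρ c) / V % V = ρ b ∧ (V * (V * ρ a + ρ b) + ρ c) % V = ρ c :=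
      fun a _ b hb c hc => by
        rw [(dm _ (r3 c hc)).1, (dm _ (r3 c hc)).2]; exact ⟨(dm _ (r3 b hb)).1, (dm _ (r3 b hb)).2, rfl⟩
    refine ⟨range V \ (range k).image ρ, sdiff_subset, (range k ×ˢ range k ×ˢ range k).image
      fun q => V * (V * ρ q.1 + ρ q.2.1) + ρ q.2.2, ?_, ?_, ?_, ?_⟩
    · simp only [image_subset_iff, mem_product, mem_range]
      rintro ⟨a, b, c⟩ ⟨ha, hb, hc⟩
      have := (dc a ha b hb c hc).1
      rw [Nat.div_div_eq_div_mul] at this
      rw [pow_three, ← Nat.div_lt_iff_lt_mul (Nat.mul_pos (by omega) (by omega)), this]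
      exact r3 a ha
    · have := le_card_sdiff ((range k).image ρ) (range V)
      have := card_image_le (s := range k) (f := ρ)
      rw [card_range] at *; omega
    · rw [card_image_of_injOn, card_product, card_product, card_range, pow_three]
      rintro ⟨a, b, c⟩ h1 ⟨a', b', c'⟩ h2 e
      simp only [coe_product, coe_range, Set.mem_prod, Set.mem_Iio] at h1 h2 e
      have x := dc a h1.1 b h1.2.1 c h1.2.2
      have y := dc a' h2.1 b' h2.2.1 c' h2.2.2
      rw [e, y.1, y.2.1, y.2.2] at x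
      rw [ri x.1, ri x.2.1, ri x.2.2]
    · simp only [mem_sdiff, mem_image, mem_product, mem_range, not_exists, not_and]
      rintro v ⟨-, hv⟩ _ ⟨⟨a, b, c⟩, ⟨ha, hb, hc⟩, rfl⟩
      obtain ⟨x1, x2, x3⟩ := dc a ha b hb c hc
      simp only [ee, vd, x1, x2, x3, r1, Bool.and_eq_true, Bool.or_eq_true, Bool.not_eq_true',
        decide_eq_false_iff_not, decide_eq_true_eq, List.all_eq_true]
      refine ⟨⟨⟨⟨by by_cases e : a = b <;> simp [e], fun C hC => ?_⟩, Ne.symm (hv a ha)⟩,
        Ne.symm (hv b hb)⟩, Ne.symm (hv c hc)⟩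
      by_contra n
      push Not at n
      obtain ⟨⟨⟨⟨⟨rfl, rfl⟩, rfl⟩, n1⟩, n2⟩, n3⟩ := n
      exact (hα C hC).elim (n1 ∘ (r2 _).2) fun h => h.elim (n2 ∘ (r2 _).2) (n3 ∘ (r2 _).2)
  · rintro ⟨X, x, Y, y, h1, h2, h3⟩
    obtain ⟨x0, hx⟩ := card_pos.1 (show 0 < #X by omega)
    set V := k * 2 ^ s with hV
    have c1 : #(range V \ X) ≤ k := by rw [card_sdiff_of_subset x, card_range]; omega
    have sS : range V \ X ⊆ range V := sdiff_subset
    have mS : ∀ t ∈ Y, ∀ u < V, (u = t / V / V ∨ u = t / V % V ∨ u = t % V) → u ∈ range V \ X :=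
      fun t ht u hu e => mem_sdiff.2 ⟨mem_range.2 hu, fun hx => by
        have := h3 u hx t ht
        simp only [ee, Bool.and_eq_true, Bool.not_eq_true', decide_eq_false_iff_not] at this
        tauto⟩
    generalize range V \ X = S at *
    let T := (S ×ˢ S ×ˢ S).filter fun q => vd F (2 ^ s) s q.1 q.2.1 q.2.2 = true
    have c2 : #Y ≤ #T := card_le_card_of_injOn (fun t => (t / V / V, t / V % V, t % V)) (fun t ht => by
      have := h3 x0 hx t ht
      have l := mem_range.1 (y ht)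
      simp only [ee, Bool.and_eq_true] at this
      refine mem_coe.2 (mem_filter.2 ⟨mem_product.2 ⟨mS t ht _ ?_ (.inl rfl), mem_product.2
        ⟨mS t ht _ (Nat.mod_lt _ (by omega)) (by simp), mS t ht _ (Nat.mod_lt _ (by omega)) (by simp)⟩⟩,
        this.1.1.1⟩)
      dsimp only
      rwa [Nat.div_div_eq_div_mul, Nat.div_lt_iff_lt_mul (Nat.mul_pos (by omega) (by omega)), ← pow_three])
      fun t _ u _ e => by
        simp only [Prod.mk.injEq] at e
        rw [← Nat.div_add_mod t V, ← Nat.div_add_mod (t / V) V, e.1, e.2.1, e.2.2, Nat.div_add_mod,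
          Nat.div_add_mod]
    have c3 := card_le_card (filter_subset _ _ : T ⊆ S ×ˢ S ×ˢ S)
    have c4 : #(S ×ˢ S ×ˢ S) = #S ^ 3 := by rw [card_product, card_product, pow_three]
    have c5 := eq_of_subset_of_card_le (filter_subset _ _ : T ⊆ S ×ˢ S ×ˢ S)
      (c4.trans_le ((Nat.pow_le_pow_left c1 3).trans (h2.trans c2)))
    have c6 : k ≤ #S := (Nat.pow_le_pow_iff_left (by omega)).1 (h2.trans (c2.trans (c4 ▸ c3)))
    have v : ∀ a ∈ S, ∀ b ∈ S, ∀ c ∈ S, vd F (2 ^ s) s a b c = true := fun a ha b hb c hc =>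
      (mem_filter.1 (c5.ge (mem_product.2 ⟨ha, mem_product.2 ⟨hb, hc⟩⟩ : (a, b, c) ∈ _))).2
    simp only [vd, Bool.and_eq_true, Bool.or_eq_true, Bool.not_eq_true',
      decide_eq_false_iff_not, decide_eq_true_eq, List.all_eq_true] at v
    have im : S.image (· / 2 ^ s) = range k := eq_of_subset_of_card_le
      (image_subset_iff.2 fun a ha => mem_range.2 ((Nat.div_lt_iff_lt_mul (by omega)).2
        (mem_range.1 (sS ha)))) (by
        rwa [card_range, card_image_of_injOn fun a ha b hb e => (v a ha b hb a ha).1.resolve_left (· e)])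
    have : ∀ g, ∃ r, g < k → r ∈ S ∧ r / 2 ^ s = g := fun g => by
      by_cases hg : g < k
      · obtain ⟨r, h⟩ := mem_image.1 (im.ge (mem_range.2 hg))
        exact ⟨r, fun _ => h⟩
      · exact ⟨0, fun h => absurd h hg⟩
    choose ρ hρ using this
    refine ⟨fun v => (ρ (v / s) % 2 ^ s).testBit (v % s), fun C hC => ?_⟩
    obtain ⟨a, b, c⟩ := h C hC
    have a := hρ _ (gr _ a)
    have b := hρ _ (gr _ b)
    have c := hρ _ (gr _ c)
    have := (v _ a.1 _ b.1 _ c.1).2 C hC
    simpa only [a.2, b.2, c.2, not_true, false_or, lit_iff, or_assoc] using this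

end Pool.Agent.H36.Lob
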