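import Pool.Agent.H36.Lob1
import Pool.Agent.H36.Sim

/-!
A polynomial-time algorithm for lobbying gives subexponential algorithms for satisfiability.
-/

namespace Pool.Agent.H36.Lob

open Pool.Agent.H38.NP Pool.Agent.H38.ER Finset

theorem pt_mat {α : Type} [Enc α] {r m : α → ℕ} {e : α → ℕ → ℕ → Bool} (hr : PT r) (hm : PT m)
    (he : PT fun p : (α × ℕ) × ℕ => e p.1.1 p.1.2 p.2) : PT fun a => mat (r a) (m a) (e a) :=
  PT.map (PT.map he (hm.comp PT.id'.fst).range) hr.range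

def zc (d : Inst → Bool) (m : ℕ) : ℕ :=
  (List.range (m + 1)).countP fun j => !d (m, mat 1 m (fun _ i => decide (i < j)), 1 - 1)

theorem pt_zc {d} (hd : PT d) : PT (zc d) :=
  PT.countP (hd.comp (PT.id'.fst.mk ((pt_mat (α := ℕ × ℕ) (e := fun p _ i => decide (i < p.2))
    (PT.const 1) PT.id'.fst (by fun_prop)).mk (PT.const _)))).not (by fun_prop)

theorem zc_eq {d z} (h : ∀ I, Valid I → (OLD z I ↔ d I = true)) {m} (hz : z m ≤ m) : zc d m = z m := by
  have : ∀ j ∈ List.range (m + 1), (!d (m, mat 1 m (fun _ i => decide (i < j)), 1 - 1)) = true ↔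
      decide (j < z m) = true := fun j hj => by
    rw [Bool.not_eq_true', ← Bool.not_eq_true, ← h _ (valid ..), old_iff le_rfl, decide_eq_true_eq,
      ← not_le, not_iff_not]
    constructor
    · rintro ⟨X, -, Y, -, h1, h2, h3⟩
      obtain ⟨i, hi⟩ := card_pos.1 h1
      exact h2.trans ((card_le_card (t := range j) fun y hy => by simpa using h3 i hi y hy).trans (by simp))
    · exact fun k => ⟨range 1, subset_rfl, range j, range_mono (by simp at hj; omega), by simp,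
        by simpa, by simp⟩
  rw [zc, List.countP_congr this, List.countP_eq_length_filter, ← List.toFinset_card_of_nodup
    (List.nodup_range.filter _), ← card_range (z m)]
  congr 1
  ext; simp; omega

abbrev In := (Fm × ℕ × ℕ) × ℕ

def ex (b : Fm × ℕ × ℕ) : ℕ := b.1.1 / b.2.1 + 1
def vv (p : In) : ℕ := p.1.2.1 * p.2
def em (p : In) : ℕ → ℕ → Bool := ee p.1.1 p.2 (ex p.1) (vv p)

def ask (d : Inst → Bool) (p : In) (m : ℕ) : Bool :=
  if vv p ^ 3 ≤ m - zc d m then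
    d (m, mat (vv p) m (pad (vv p ^ 3) (zc d m - p.1.2.1 ^ 3) (em p)), vv p - (vv p - p.1.2.1))
  else d (m, mat (vv p ^ 3) m (pad (vv p) (zc d m - (vv p - p.1.2.1)) fun j i => em p i j),
    vv p ^ 3 - p.1.2.1 ^ 3)

def alg (d : Inst → Bool) (p : In) : Bool :=
  ((List.range (16 * vv p ^ 3 + p.1.2.2 + 1)).find? fun m =>
    decide (2 * vv p ^ 3 ≤ m) && decide (p.1.2.1 ^ 3 ≤ min (zc d m) (m - zc d m))).elim false (ask d p)

theorem pt_em : PT fun q : In × ℕ × ℕ => em q.1 q.2.1 q.2.2 := by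
  have l : PT fun q : ℕ × ℕ × ℕ × ℕ × Bool => lit q.1 q.2.1 q.2.2.1 q.2.2.2 :=
    PT.eq (PT.getD (pt_bits (pt_bin (by fun_prop))) (by fun_prop) (PT.const _)) (by fun_prop)
  have l' : ∀ {α : Type} [Enc α] {a b c : α → ℕ} {e : α → ℕ × Bool}, PT a → PT b → PT c → PT e →
      PT fun x => lit (a x) (b x) (c x) (e x) := fun a b c e => l.comp (a.mk (b.mk (c.mk e)))
  have v : PT fun q : (Fm × ℕ × ℕ) × ℕ × ℕ × ℕ => vd q.1.1 q.1.2.1 q.1.2.2 q.2.1 q.2.2.1 q.2.2.2 := by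
    unfold vd
    refine PT.and ?_ (PT.all (PT.or (PT.or (PT.or ?_ (l' ?_ ?_ ?_ ?_)) (l' ?_ ?_ ?_ ?_))
      (l' ?_ ?_ ?_ ?_)) ?_) <;> fun_prop
  unfold em ee
  refine PT.and (PT.and (PT.and (v.comp (g := fun q : In × ℕ × ℕ => ((q.1.1.1, q.1.2, ex q.1.1),
    q.2.2 / vv q.1 / vv q.1, q.2.2 / vv q.1 % vv q.1, q.2.2 % vv q.1)) ?_) ?_) ?_) ?_ <;>
    (try unfold ex) <;> unfold vv <;> fun_prop

theorem pt_alg {d} (hd : PT d) : PT (alg d) := by
  have z := pt_zc hd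
  have v : PT vv := by unfold vv; fun_prop
  have e : ∀ {α : Type} [Enc α] {p : α → In} {i j : α → ℕ}, PT p → PT i → PT j →
      PT fun x => em (p x) (i x) (j x) := fun a b c => (pt_em.comp (a.mk (b.mk c))).of_eq fun _ => rfl
  have a : PT fun q : In × ℕ => ask d q.1 q.2 := by
    unfold ask pad
    refine PT.ite ?_ (hd.comp (PT.mk ?_ (PT.mk (pt_mat ?_ ?_ (PT.ite ?_ (e ?_ ?_ ?_) ?_)) ?_)))
      (hd.comp (PT.mk ?_ (PT.mk (pt_mat ?_ ?_ (PT.ite ?_ (e ?_ ?_ ?_) ?_)) ?_))) <;> fun_prop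
  unfold alg
  exact PT.elim (PT.find? (by fun_prop) (by fun_prop)) (PT.const _) a

theorem alg_spec {d z} (h : ∀ I, Valid I → (OLD z I ↔ d I = true)) (hz : ∀ m, z m ≤ m) {F k m0}
    (hF : WF F) (hk : 1 ≤ k) (e : ∃ m ≤ 16 * (k * 2 ^ (F.1 / k + 1)) ^ 3 + m0,
      2 * (k * 2 ^ (F.1 / k + 1)) ^ 3 ≤ m ∧ k ^ 3 ≤ min (z m) (m - z m)) :
    Sat F ↔ alg d ((F, k, m0), 2 ^ ex (F, k, m0)) = true := by
  obtain ⟨m, e1, e2⟩ := e
  have s := sat_iff hF hk (Nat.le_add_left 1 (F.1 / k)) (by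
    have := Nat.lt_div_mul_add (a := F.1) hk; rw [add_mul, one_mul]; exact this.le)
  have W : 2 ≤ 2 ^ (F.1 / k + 1) := Nat.le_self_pow (Nat.succ_ne_zero _) 2
  have : k + k ≤ k * 2 ^ (F.1 / k + 1) := by nlinarith
  rw [alg, s]
  change Bic (vv ((F, k, m0), 2 ^ ex (F, k, m0))) (vv ((F, k, m0), 2 ^ ex (F, k, m0)) ^ 3)
    (em ((F, k, m0), 2 ^ ex (F, k, m0))) (vv ((F, k, m0), 2 ^ ex (F, k, m0)) - k) _ ↔ _
  obtain ⟨m, hm⟩ := Option.isSome_iff_exists.1 ((List.find?_isSome (p := fun m =>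
    decide (2 * vv ((F, k, m0), 2 ^ ex (F, k, m0)) ^ 3 ≤ m) &&
      decide (k ^ 3 ≤ min (zc d m) (m - zc d m)))).2
      ⟨m, List.mem_range.2 (Nat.lt_add_one_of_le e1), by simpa [zc_eq h (hz _), vv, ex] using e2⟩)
  have hp := List.find?_some hm
  erw [hm]
  rw [Option.elim_some, ask, zc_eq h (hz _)]
  simp only [Bool.and_eq_true, decide_eq_true_eq, le_min_iff, zc_eq h (hz _)] at hp
  change _ ≤ vv ((F, k, m0), 2 ^ ex (F, k, m0)) at this
  dsimp only
  generalize vv ((F, k, m0), 2 ^ ex (F, k, m0)) = V at *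
  have := Nat.le_self_pow (n := 3) (by omega) k
  have := Nat.le_self_pow (n := 3) (by omega) V
  have := hz m
  split_ifs with c
  · rw [← h _ (valid ..), old_iff (by omega), pad_iff (by omega) (by omega) (by omega)]
  · rw [← h _ (valid ..), old_iff (Nat.pow_le_pow_left (by omega) 3), pad_iff (by omega) (by omega) (by omega)]
    exact ⟨Bic.symm, Bic.symm⟩

theorem pad_exp {β : Type} [Enc β] {s : β → ℕ} (hs : PT s) : ∃ (p : Prog) (t : β × ℕ → ℕ), PB t ∧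
    ∀ b, Comp p (enc b) (enc (b, 2 ^ s b)) (t (b, 2 ^ s b)) := by
  obtain ⟨p, q, hq⟩ : PT fun n : ℕ => n + n := by fun_prop
  obtain ⟨p0, q0, h0⟩ := hs.mk (PT.const (1 : ℕ))
  have a : PB fun x : β × ℕ => sz x.1 := PT.id'.fst.pb
  have w : PB fun x : β × ℕ => x.2 := PT.id'.snd.nat_pb
  have t : PB fun x : β × ℕ => s x.1 := (hs.comp PT.id'.fst).nat_pb
  refine ⟨pairP .skip (.seq p0 (iterP p)), _, ((PB.const 1).add ((a.eval q0).add ((t.mul ((w.eval q).add
    (PB.const 2))).add ((PB.const 50).mul (((t.add (PB.const 1)).add w).add (PB.const 1)))))).add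
    ((PB.const 50).mul (((a.add a).add w).add (PB.const 1))), fun b => ?_⟩
  have := Comp.iter (p := p) (q.eval (2 ^ s b)) (enc (s b)) (fun i => enc (2 ^ i : ℕ))
    (fun i hi => by
      rw [pow_succ, mul_two]
      exact (hq (2 ^ i)).mono (eval_mono q (by
        rw [sz_nat]; exact Nat.pow_le_pow_right (by omega) (by simp at hi; omega))))
  simp only [enc_nat, List.length_replicate, pow_zero] at this
  simpa [sz] using Comp.pair (Run.skip _) (Run.seq (h0 b) this)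

theorem mach (p : Prog) : ∃ M : Turing.TM2ComputableAux Bool Bool, ∀ x y t, Comp p x y t →
    Nonempty (Turing.TM2OutputsInTime M.tm (x.map M.inputAlphabet.invFun)
      (some (y.map M.outputAlphabet.invFun)) t) := by
  classical
  let N := Finset.univ.sup fun l : Lab p => (ins p l).reg
  have hN : ∀ l, (ins p l).reg ≤ N := fun l =>
    Finset.le_sup (f := fun l : Lab p => (ins p l).reg) (Finset.mem_univ l)
  have hi : ∀ x, Turing.initList (machine p N) x = cfgOf (N := N) (some (start p)) (sc x E) := by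
    intro x
    simp only [Turing.initList, cfgOf, machine]
    congr 1
    funext k
    refine Fin.cases ?_ (fun k => ?_) k
    · rfl
    · simp [sc, E]
  have hh : ∀ x, Turing.haltList (machine p N) x = cfgOf (N := N) none (sc x E) := by
    intro x
    simp only [Turing.haltList, cfgOf, machine]
    congr 1
    funext k
    refine Fin.cases ?_ (fun k => ?_) k
    · rfl
    · simp [sc, E]
  refine ⟨⟨machine p N, Equiv.refl _, Equiv.refl _⟩, fun x y t ⟨s, hs, he⟩ => ⟨⟨⟨s, ?_⟩, hs⟩⟩⟩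
  have := Reach.iter hN he.reach
  simp only [Equiv.refl, Option.map_some]
  erw [List.map_id, List.map_id, hi, hh]
  exact this

theorem poly_le (q : Polynomial ℕ) : ∃ C d, ∀ y, q.eval y ≤ C * (y + 1) ^ d :=
  ⟨q.eval 1, q.natDegree, fun y => by
    rw [Polynomial.eval_eq_sum_range, Polynomial.eval_eq_sum_range, sum_mul]
    exact sum_le_sum fun i hi => by
      rw [one_pow, mul_one]
      exact Nat.mul_le_mul_left _ ((Nat.pow_le_pow_left y.le_succ _).trans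
        (Nat.pow_le_pow_right y.succ_pos (by simpa [Nat.lt_succ_iff] using hi)))⟩

theorem engine {z} (hz : ∀ m, z m ≤ m) (h : InPOn Valid (OLD z)) {δ : ℝ} (hδ : 0 < δ) :
    ∃ k ≥ 1, ∀ m0, ∃ M C c, ∀ N, (∃ m ≤ 16 * (k * 2 ^ (N / k + 1)) ^ 3 + m0,
      2 * (k * 2 ^ (N / k + 1)) ^ 3 ≤ m ∧ k ^ 3 ≤ min (z m) (m - z m)) → Fast M δ C c N := by
  obtain ⟨f, hf, h⟩ := h
  have hd : PT fun I : Inst => decide (f (enc I) = [true]) :=
    PT.eq ((H36.Sim.pt_of_polyTime hf).comp PT.id'.raw).bval (PT.const _)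
  obtain ⟨p1, t, ht, h1⟩ := pad_exp (s := ex) (by unfold ex; fun_prop)
  obtain ⟨p2, q2, h2⟩ := pt_alg hd
  obtain ⟨q, hq⟩ := ht.add (PB.sz.eval q2)
  obtain ⟨C, d, hC⟩ := poly_le q
  obtain ⟨k, hk⟩ := exists_nat_ge (d / δ)
  refine ⟨k + 1, by omega, fun m0 => ?_⟩
  obtain ⟨p0, q0, h0⟩ : PT fun F : Fm => (F, k + 1, m0) := by fun_prop
  obtain ⟨C0, d0, hC0⟩ := poly_le q0
  obtain ⟨M, hM⟩ := mach (.seq p0 (.seq p1 p2))
  refine ⟨M, C0 + C * (2 * (4 * k + 2 * m0 + 11)) ^ d, d0 + d, fun N e F hF n => ⟨_, _,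
    alg_spec (fun I hI => (h I hI).trans decide_eq_true_iff.symm) hz hF (by omega) (n ▸ e), ?_,
    hM _ _ _ (Run.seq (h0 F) (Run.seq (h1 _) (h2 _)))⟩⟩
  have a1 : sz ((F, k + 1, m0), 2 ^ ex (F, k + 1, m0)) + 1 ≤
      2 * (4 * k + 2 * m0 + 11) * 2 ^ (N / (k + 1)) * (sz F + 1) := by
    simp only [sz_prod, sz_nat, ex, n, pow_succ]
    have := Nat.one_le_two_pow (n := N / (k + 1))
    generalize 2 ^ (N / (k + 1)) = W at *
    obtain ⟨W, rfl⟩ := Nat.exists_eq_add_of_le this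
    nlinarith [Nat.zero_le (W * k), Nat.zero_le (W * m0), Nat.zero_le (W * sz F), Nat.zero_le (k * sz F),
      Nat.zero_le (m0 * sz F), Nat.zero_le (W * k * sz F), Nat.zero_le (W * m0 * sz F)]
  have a2 := (hq ((F, k + 1, m0), 2 ^ ex (F, k + 1, m0))).trans ((hC _).trans
    (Nat.mul_le_mul_left _ (Nat.pow_le_pow_left a1 d)))
  have a3 := Nat.add_le_add (hC0 (sz F)) a2
  have b1 : ((2 ^ (N / (k + 1))) ^ d : ℕ) ≤ (2 : ℝ) ^ (δ * N) := by
    rw [← pow_mul, Nat.cast_pow, ← Real.rpow_natCast]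
    refine Real.rpow_le_rpow_of_exponent_le (by norm_num) ?_
    have : ((N / (k + 1) : ℕ) : ℝ) * (k + 1) ≤ N := by exact_mod_cast Nat.div_mul_le_self N (k + 1)
    rw [div_le_iff₀ hδ] at hk
    have : (0 : ℝ) ≤ (N / (k + 1) : ℕ) := by positivity
    push_cast
    nlinarith
  have b2 : (1 : ℝ) ≤ 2 ^ (δ * N) := Real.one_le_rpow (by norm_num) (by positivity)
  refine (Nat.cast_le.2 a3).trans ?_
  rw [mul_pow, mul_pow (_ * _)]
  change _ ≤ _ * _ * ((sz F : ℝ) + 1) ^ _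
  push_cast at b1 ⊢
  have x : (1 : ℝ) ≤ sz F + 1 := by have : (0 : ℝ) ≤ sz F := by positivity
                                    linarith
  have x1 := pow_le_pow_right₀ x (Nat.le_add_right d0 d)
  have x2 := pow_le_pow_right₀ x (Nat.le_add_left d d0)
  rw [add_mul, add_mul]
  refine add_le_add ?_ ?_
  · rw [mul_assoc]; gcongr; nlinarith [pow_pos (zero_lt_one.trans_le x) d0]
  · rw [← mul_assoc, ← mul_assoc]; gcongr

theorem eth {z} (hz : ∀ m, z m ≤ m) (H : ETH) (u : ∀ K, ∃ m0, ∀ m ≥ m0, K ≤ min (z m) (m - z m)) :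
    ¬InPOn Valid (OLD z) := fun h => by
  obtain ⟨δ, hδ, H⟩ := H
  obtain ⟨k, -, e⟩ := engine hz h hδ
  obtain ⟨m0, u⟩ := u (k ^ 3)
  obtain ⟨M, C, c, e⟩ := e m0
  obtain ⟨N, H⟩ := H M C c
  exact H (e N ⟨2 * (k * 2 ^ (N / k + 1)) ^ 3 + m0, by omega, by omega, u _ (by omega)⟩)

theorem aeeth {z} (hz : ∀ m, z m ≤ m) (H : AeETH) (u : ∀ K, ∃ m, K ≤ min (z m) (m - z m)) :
    ¬InPOn Valid (OLD z) := fun h => by
  obtain ⟨δ, hδ, H⟩ := H
  obtain ⟨k, hk, e⟩ := engine hz h hδ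
  obtain ⟨M, C, c, e⟩ := e 0
  obtain ⟨N0, H⟩ := H M C c
  obtain ⟨m, u⟩ := u (k ^ 3 + 2 * (k * 2 ^ (N0 / k + 1)) ^ 3)
  have x : ∃ j, m < 2 * (k * 2 ^ ((N0 + j) / k + 1)) ^ 3 := ⟨m * k, by
    rw [Nat.add_mul_div_right _ _ hk]
    have := (Nat.lt_succ_of_le (Nat.le_add_left m (N0 / k))).trans (Nat.lt_two_pow_self (n := N0 / k + m + 1))
    have := Nat.le_mul_of_pos_left (2 ^ (N0 / k + m + 1)) hk
    have := Nat.le_self_pow (n := 3) (by omega) (k * 2 ^ (N0 / k + m + 1))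
    omega⟩
  have a := Nat.find_spec x
  have b := fun j => Nat.find_min x (m := j)
  generalize Nat.find x = j at a b
  cases j with
  | zero => rw [add_zero] at a; omega
  | succ j =>
    refine H (N0 + j) (by omega) (e _ ⟨m, a.le.trans ?_, not_lt.1 (b j j.lt_succ_self), by omega⟩)
    have : (N0 + (j + 1)) / k ≤ (N0 + j) / k + 1 := by
      rw [← Nat.add_div_right _ hk]; exact Nat.div_le_div_right (by omega)
    calc _ ≤ 2 * (k * 2 ^ ((N0 + j) / k + 1 + 1)) ^ 3 := by gcongr; omega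
      _ = _ := by ring

end Pool.Agent.H36.Lob
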