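import Pool.Agent.H38.NP.Defs

/-!
Unanimity lobbying with a quota of issues; the exponential time hypothesis.
-/

namespace Pool.Agent.H36.Lob

open Pool.Agent.H38.NP Finset

/-- a 3-CNF formula: the number `N` of variables and the clauses; the literal `(i, b)` says that
variable `i` has value `b` -/
abbrev Fm := ℕ × List ((ℕ × Bool) × (ℕ × Bool) × ℕ × Bool)

/-- all variables are among `0, …, N - 1` -/
def WF (F : Fm) : Prop := ∀ C ∈ F.2, C.1.1 < F.1 ∧ C.2.1.1 < F.1 ∧ C.2.2.1 < F.1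

def Sat (F : Fm) : Prop :=
  ∃ a : ℕ → Bool, ∀ C ∈ F.2, a C.1.1 = C.1.2 ∨ a C.2.1.1 = C.2.1.2 ∨ a C.2.2.1 = C.2.2.2

/-- the machine `M` decides satisfiability of every formula with `N` variables within
`C * 2 ^ (δ * N) * (length + 1) ^ c` steps -/
def Fast (M : Turing.TM2ComputableAux Bool Bool) (δ : ℝ) (C c N : ℕ) : Prop :=
  ∀ F : Fm, WF F → F.1 = N → ∃ (b : Bool) (t : ℕ), (Sat F ↔ b = true) ∧
    (t : ℝ) ≤ C * 2 ^ (δ * N) * ((enc F).length + 1) ^ c ∧
    Nonempty (Turing.TM2OutputsInTime M.tm ((enc F).map M.inputAlphabet.invFun)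
      (some ([b].map M.outputAlphabet.invFun)) t)

/-- the exponential time hypothesis -/
def ETH : Prop := ∃ δ > 0, ∀ M C c, ∃ N, ¬Fast M δ C c N

/-- the exponential time hypothesis for almost all numbers of variables -/
def AeETH : Prop := ∃ δ > 0, ∀ M C c, ∃ N₀, ∀ N ≥ N₀, ¬Fast M δ C c N

/-- an instance `(m, X, k)` -/
abbrev Inst := ℕ × List (List Bool) × ℕ

def Valid (I : Inst) : Prop := (∀ r ∈ I.2.1, r.length = I.1) ∧ I.2.2 ≤ I.2.1.length

/-- some `Y` differs from `X` in at most `k` rows and has at least `z m` all-ones columns -/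
def OLD (z : ℕ → ℕ) (I : Inst) : Prop :=
  ∃ Y : Fin I.2.1.length → Fin I.1 → Bool,
    #{i | ∃ j, Y i j ≠ I.2.1[i].getD j false} ≤ I.2.2 ∧ z I.1 ≤ #{j | ∀ i, Y i j = true}

end Pool.Agent.H36.Lob
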