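import Pool.Agent.H36.MMedDefs

namespace Pool.Agent.H36.MMed

open Finset

abbrev G (n : ℕ) := Fin n × Fin 5

variable {n : ℕ}

def fib (A : Finset (G n)) (v : Fin n) : Finset (Fin 5) := univ.filter fun i => (v, i) ∈ A

def mk (f : Fin n → Finset (Fin 5)) : Finset (G n) := univ.filter fun x => x.2 ∈ f x.1

@[simp] theorem mem_fib {A : Finset (G n)} {v i} : i ∈ fib A v ↔ (v, i) ∈ A := by simp [fib]
@[simp] theorem fib_mk (f : Fin n → Finset (Fin 5)) (v) : fib (mk f) v = f v := by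
  ext; simp [mk]
@[simp] theorem fib_union (A B : Finset (G n)) (v) : fib (A ∪ B) v = fib A v ∪ fib B v := by
  ext; simp
theorem mk_fib (A : Finset (G n)) : mk (fib A) = A := by ext; simp [mk]

theorem card_fib (A : Finset (G n)) : A.card = ∑ v, (fib A v).card := by
  simp only [fib, card_filter]
  rw [← Fintype.sum_prod_type (f := fun x : G n => if x ∈ A then 1 else 0)]
  simp

def Full (t : Finset (Fin 5)) : Prop := 0 ∈ t ∧ 1 ∈ t ∧ 2 ∈ t ∧ 3 ∈ t

instance : DecidablePred Full := fun _ => by unfold Full; infer_instance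

def C (σ : Fin n → Bool) : Finset (G n) := mk fun v => cond (σ v) {0, 1, 4} {2, 3, 4}

theorem card_C (σ : Fin n → Bool) : (C σ).card = 3 * n := by
  have : ∀ b, (cond b {0, 1, 4} {2, 3, 4} : Finset (Fin 5)).card = 3 := by decide
  simp [card_fib, C, this, mul_comm]

theorem C_inj : Function.Injective (C (n := n)) := by
  intro σ τ h
  funext v
  have := congrArg (fib · v) h
  simp only [C, fib_mk] at this
  revert this
  cases σ v <;> cases τ v <;> decide

theorem fib_insert (A : Finset (G n)) (v i w) :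
    fib (insert (v, i) A) w = if w = v then insert i (fib A w) else fib A w := by
  ext j
  split_ifs with h <;> simp [h]

theorem near_C (σ : Fin n → Bool) {I : Finset (G n)} (h : I ⊆ C σ) (e : G n) (w) :
    ¬ Full (fib (insert e I) w) := by
  obtain ⟨v, i⟩ := e
  have h1 : fib I w ⊆ cond (σ w) {0, 1, 4} {2, 3, 4} := fun j hj => by
    simpa [C, mk] using h (mem_fib.1 hj)
  have h2 : ∀ (b : Bool) (i : Fin 5) (t : Finset (Fin 5)), t ⊆ cond b {0, 1, 4} {2, 3, 4} →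
      ¬ Full t ∧ ¬ Full (insert i t) := by decide
  rw [fib_insert]
  split_ifs
  exacts [(h2 _ i _ h1).2, (h2 _ i _ h1).1]

def Ind (o : Option (Fin n → Bool)) (A : Finset (G n)) : Prop :=
  A.card ≤ 3 * n ∧ (∀ v, ¬ Full (fib A v)) ∧ ∀ σ, o = some σ → A ≠ C σ

theorem ind_sub {o} ⦃I J : Finset (G n)⦄ (h : Ind o J) (hI : I ⊆ J) : Ind o I := by
  refine ⟨(card_le_card hI).trans h.1, fun v hv => h.2.1 v ?_, fun σ e e' => h.2.2 σ e ?_⟩
  · simp only [Full, mem_fib] at hv ⊢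
    exact ⟨hI hv.1, hI hv.2.1, hI hv.2.2.1, hI hv.2.2.2⟩
  · rw [← e']
    exact (eq_of_subset_of_card_le hI (by rw [e', card_C]; exact h.1)).symm

theorem ind_aug {o} ⦃I J : Finset (G n)⦄ (hI : Ind o I) (hJ : Ind o J) (h : I.card < J.card) :
    ∃ e ∈ J, e ∉ I ∧ Ind o (insert e I) := by
  have hc := h
  rw [card_fib, card_fib] at hc
  obtain ⟨v, -, hv⟩ := exists_lt_of_sum_lt hc
  have h2 : ∀ s t : Finset (Fin 5), s.card < t.card → ¬ Full s → ¬ Full t →
      ∃ i ∈ t, i ∉ s ∧ ¬ Full (insert i s) := by decide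
  obtain ⟨i, h3, h4, h5⟩ := h2 _ _ hv (hI.2.1 v) (hJ.2.1 v)
  rw [mem_fib] at h3 h4
  have k : ∀ e, e ∉ I → (insert e I).card ≤ 3 * n := fun e he => by
    rw [card_insert_of_notMem he]; have := hJ.1; omega
  by_cases hb : ∀ σ, o = some σ → insert (v, i) I ≠ C σ
  · refine ⟨_, h3, h4, k _ h4, fun w => ?_, hb⟩
    rw [fib_insert]
    split_ifs with e
    · exact e ▸ h5
    · exact hI.2.1 w
  push Not at hb
  obtain ⟨σ, rfl, e⟩ := hb
  have hs : I ⊆ C σ := e ▸ subset_insert _ _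
  obtain ⟨x, hx, hx'⟩ : ∃ x ∈ J, x ∉ C σ := by
    by_contra hh
    push Not at hh
    refine hJ.2.2 σ rfl (eq_of_subset_of_card_le hh ?_)
    rw [← e, card_insert_of_notMem h4]; omega
  refine ⟨x, hx, fun h => hx' (hs h), k _ fun h => hx' (hs h), near_C σ hs x, ?_⟩
  rintro τ ⟨rfl⟩ e'
  exact hx' (e' ▸ mem_insert_self _ _)

noncomputable def MM (hn : 0 < n) (o : Option (Fin n → Bool)) : Matroid (G n) :=
  (IndepMatroid.ofFinset Set.univ (Ind o)
    ⟨by simp, fun v => by simp [Full], fun σ _ e => by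
      have := card_C σ; rw [← e] at this; simp at this; omega⟩
    ind_sub ind_aug fun _ _ => Set.subset_univ _).matroid

theorem MM_indep (hn : 0 < n) (o) (A : Finset (G n)) : (MM hn o).Indep A ↔ Ind o A := by
  simp [MM]

def φ (t : Finset (Fin 5)) : ℕ := if Full t then t.card - 1 else t.card

def w (A : Finset (G n)) : ℕ := ∑ v, φ (fib A v)

open Classical in
theorem rk_MM (hn : 0 < n) (o) (A : Finset (G n)) :
    rk (MM hn o) A = if ∃ σ, o = some σ ∧ A = C σ then 3 * n - 1 else min (3 * n) (w A) := by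
  suffices h : (MM hn o).eRk A = ((if ∃ σ, o = some σ ∧ A = C σ then 3 * n - 1
      else min (3 * n) (w A) : ℕ) : ℕ∞) by rw [rk, h]; rfl
  apply le_antisymm
  · refine Matroid.eRk_le_iff.2 fun I hI hi => ?_
    obtain ⟨I, rfl⟩ := (A.finite_toSet.subset hI).exists_finset_coe
    rw [MM_indep] at hi
    have hI : I ⊆ A := by simpa using hI
    rw [Set.encard_coe_eq_coe_finsetCard, Nat.cast_le]
    split_ifs with h
    · obtain ⟨σ, rfl, rfl⟩ := h
      have := card_lt_card (ssubset_of_subset_of_ne hI (hi.2.2 σ rfl))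
      rw [card_C] at this
      omega
    · refine le_min hi.1 ?_
      rw [card_fib]
      have h2 : ∀ s t : Finset (Fin 5), s ⊆ t → ¬ Full s → s.card ≤ φ t := by decide
      exact sum_le_sum fun v _ => h2 _ _ (fun j hj => by simpa using hI (by simpa using hj))
        (hi.2.1 v)
  · suffices h : ∃ I ⊆ A, Ind o I ∧ I.card = (if ∃ σ, o = some σ ∧ A = C σ then 3 * n - 1
        else min (3 * n) (w A) : ℕ) by
      obtain ⟨I, h1, h2, h3⟩ := h
      exact Matroid.le_eRk_iff.2 ⟨I, by simpa using h1, (MM_indep _ _ _).2 h2, by simp [h3]⟩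
    split_ifs with h
    · obtain ⟨σ, rfl, rfl⟩ := h
      obtain ⟨I, h1, h2⟩ := exists_subset_card_eq (s := C σ) (n := 3 * n - 1)
        (by rw [card_C]; omega)
      refine ⟨I, h1, ⟨by omega, fun v hv => near_C σ h1 (v, 4) v ?_, ?_⟩, h2⟩
      · simp only [Full, mem_fib, mem_insert] at hv ⊢
        tauto
      · rintro τ - rfl
        rw [card_C] at h2; omega
    have h2 : ∀ t : Finset (Fin 5), ∃ s ⊆ t, ¬ Full s ∧ s.card = φ t := by decide
    choose f f1 f2 f3 using h2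
    obtain ⟨I, h1, h3⟩ := exists_subset_card_eq (s := mk fun v => f (fib A v))
      (n := min (3 * n) (w A)) (by simp [card_fib, f3, w])
    have hA : I ⊆ A := fun x hx => by
      have := h1 hx
      simp only [mk, mem_filter, mem_univ, true_and] at this
      simpa using f1 _ this
    have hI : Ind none I := ⟨by omega, fun v hv => f2 (fib A v) (by
      simp only [Full, mem_fib] at hv ⊢
      have := fun i hi => (mem_filter.1 (@h1 (v, i) hi)).2
      exact ⟨this _ hv.1, this _ hv.2.1, this _ hv.2.2.1, this _ hv.2.2.2⟩), by simp⟩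
    by_cases hb : ∀ σ, o = some σ → I ≠ C σ
    · exact ⟨I, hA, ⟨hI.1, hI.2.1, hb⟩, h3⟩
    push Not at hb h
    obtain ⟨σ, rfl, rfl⟩ := hb
    obtain ⟨x, hx, hx'⟩ := exists_of_ssubset (ssubset_of_subset_of_ne hA (h σ rfl).symm)
    obtain ⟨c, hc⟩ := card_pos.1 (show 0 < (C σ).card by rw [card_C]; omega)
    have hcard : (insert x ((C σ).erase c)).card = (C σ).card := by
      rw [card_insert_of_notMem (by simp [hx']), card_erase_add_one hc]
    refine ⟨insert x ((C σ).erase c), insert_subset hx ((erase_subset _ _).trans hA),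
      ⟨by rw [hcard, card_C], near_C σ (erase_subset _ _) x, ?_⟩, hcard.trans h3⟩
    rintro τ ⟨rfl⟩ e'
    exact hx' (e' ▸ mem_insert_self _ _)

def X (n : ℕ) : Finset (G n) := mk fun _ => {0, 1}
def Y (n : ℕ) : Finset (G n) := mk fun _ => {2, 3}
def Z (n : ℕ) : Finset (G n) := mk fun _ => {4}
def Hs (σ : Fin n → Bool) : Finset (G n) := mk fun v => cond (σ v) {0, 1} {2, 3}

def Fs (n : ℕ) : List (Finset (G n)) :=
  List.replicate (8 * n) (X n) ++ List.replicate (8 * n) (Y n) ++ List.replicate (4 * n) ∅ ++ [Z n]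

theorem Phi_eq (M : Matroid (G n)) (H) : Phi M (Fs n) H =
    4 * n * (4 * rk M (X n ∪ H) + 4 * rk M (Y n ∪ H) - 3 * rk M H) +
      (2 * rk M (Z n ∪ H) - rk M H) := by
  simp [Phi, Fs]; ring

theorem ZH (σ : Fin n → Bool) : Z n ∪ Hs σ = C σ := by
  rw [← mk_fib (Z n ∪ Hs σ), C]
  congr 1
  funext v
  simp only [fib_union, Z, Hs, fib_mk]
  cases σ v <;> decide

theorem heavy_Hs (hn : 0 < n) (σ τ : Fin n → Bool) :
    4 * rk (MM hn (some σ)) (X n ∪ Hs τ) + 4 * rk (MM hn (some σ)) (Y n ∪ Hs τ) = 20 * n ∧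
      rk (MM hn (some σ)) (Hs τ) = 2 * n := by
  have ne : ∀ A : Finset (G n), 4 ∉ fib A ⟨0, hn⟩ → ¬ ∃ ρ, some σ = some ρ ∧ A = C ρ := by
    rintro A h ⟨ρ, -, rfl⟩
    apply h
    simp only [C, fib_mk]
    cases ρ ⟨0, hn⟩ <;> decide
  have h1 : ∀ b, φ ({0, 1} ∪ cond b {0, 1} {2, 3}) + φ ({2, 3} ∪ cond b {0, 1} {2, 3}) = 5 ∧
      φ ({0, 1} ∪ cond b {0, 1} {2, 3}) ≤ 3 ∧ φ ({2, 3} ∪ cond b {0, 1} {2, 3}) ≤ 3 ∧
      φ (cond b {0, 1} {2, 3}) = 2 := by decide
  have a1 : w (X n ∪ Hs τ) + w (Y n ∪ Hs τ) = 5 * n := by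
    simp [w, X, Y, Hs, ← sum_add_distrib, -singleton_union, -insert_union, h1, mul_comm]
  have a2 : w (X n ∪ Hs τ) ≤ 3 * n := by
    simpa [w, X, Hs, mul_comm] using sum_le_sum (s := univ) fun v _ => (h1 (τ v)).2.1
  have a3 : w (Y n ∪ Hs τ) ≤ 3 * n := by
    simpa [w, Y, Hs, mul_comm] using sum_le_sum (s := univ) fun v _ => (h1 (τ v)).2.2.1
  have a4 : w (Hs τ) = 2 * n := by simp [w, Hs, h1, mul_comm]
  rw [rk_MM, rk_MM, rk_MM, if_neg (ne _ _), if_neg (ne _ _), if_neg (ne _ _)]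
  · omega
  all_goals
    simp only [fib_union, X, Y, Hs, fib_mk]
    cases τ ⟨0, hn⟩ <;> decide

theorem heavy (hn : 0 < n) (h9 : 9 ≤ n) (σ : Fin n → Bool) (H) (hH : ∀ τ, H ≠ Hs τ) :
    14 * n + 1 + 3 * rk (MM hn (some σ)) H ≤
      4 * rk (MM hn (some σ)) (X n ∪ H) + 4 * rk (MM hn (some σ)) (Y n ∪ H) := by
  let j : Finset (Fin 5) → ℕ := fun t => if 4 ∈ t then 1 else 0
  have h1 : ∀ t : Finset (Fin 5), 3 * φ t + (14 + 5 * j t) ≤ 4 * φ ({0, 1} ∪ t) + 4 * φ ({2, 3} ∪ t) ∧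
      (t ≠ {0, 1} → t ≠ {2, 3} → 3 * φ t + 14 < 4 * φ ({0, 1} ∪ t) + 4 * φ ({2, 3} ∪ t)) ∧
      φ t ≤ φ ({0, 1} ∪ t) ∧ φ t ≤ φ ({2, 3} ∪ t) ∧ 2 + j t ≤ φ ({0, 1} ∪ t) ∧
      2 + j t ≤ φ ({2, 3} ∪ t) ∧ φ ({0, 1} ∪ t) ≤ 3 + j t ∧ φ ({2, 3} ∪ t) ≤ 3 + j t := by decide
  have eX : w (X n ∪ H) = ∑ v, φ ({0, 1} ∪ fib H v) := by simp only [w, fib_union, X, fib_mk]
  have eY : w (Y n ∪ H) = ∑ v, φ ({2, 3} ∪ fib H v) := by simp only [w, fib_union, Y, fib_mk]
  obtain ⟨v, hv⟩ : ∃ v, fib H v ≠ {0, 1} ∧ fib H v ≠ {2, 3} := by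
    by_contra hh
    push Not at hh
    refine hH (fun v => decide (fib H v = {0, 1})) ?_
    rw [← mk_fib H, Hs]
    congr 1
    funext v
    by_cases e : fib H v = {0, 1}
    · simp [e]
    · rw [fib_mk, decide_eq_false e]; exact hh v e
  have a1 := sum_lt_sum (s := univ) (f := fun v => 3 * φ (fib H v) + 14)
    (g := fun v => 4 * φ ({0, 1} ∪ fib H v) + 4 * φ ({2, 3} ∪ fib H v))
    (fun v _ => le_trans (by omega) (h1 (fib H v)).1)
    ⟨v, mem_univ _, (h1 (fib H v)).2.1 hv.1 hv.2⟩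
  have a2 := sum_le_sum (s := univ) fun v _ => (h1 (fib H v)).2.2.1
  have a3 := sum_le_sum (s := univ) fun v _ => (h1 (fib H v)).2.2.2.1
  have a4 := sum_le_sum (s := univ) fun v _ => (h1 (fib H v)).2.2.2.2.1
  have a5 := sum_le_sum (s := univ) fun v _ => (h1 (fib H v)).2.2.2.2.2.1
  have a6 := sum_le_sum (s := univ) fun v _ => (h1 (fib H v)).2.2.2.2.2.2.1
  have a7 := sum_le_sum (s := univ) fun v _ => (h1 (fib H v)).2.2.2.2.2.2.2
  simp only [sum_add_distrib, ← mul_sum, sum_const, card_univ, Fintype.card_fin,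
    smul_eq_mul] at a1 a2 a3 a4 a5 a6 a7
  have hj : ∀ (s : Finset (Fin 5)), 4 ∉ s → (∃ ρ, some σ = some ρ ∧ mk (fun _ => s) ∪ H = C ρ) →
      ∑ v, j (fib H v) = n := by
    rintro s hs ⟨ρ, -, e⟩
    rw [sum_congr rfl (g := fun _ => 1)]
    · simp
    intro v _
    have : 4 ∈ fib (C ρ) v := by simp only [C, fib_mk]; cases ρ v <;> decide
    rw [← e, fib_union, fib_mk, mem_union] at this
    exact if_pos (this.resolve_left hs)
  have b1 := hj {0, 1} (by decide)
  have b2 := hj {2, 3} (by decide)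
  change (∃ ρ, some σ = some ρ ∧ X n ∪ H = C ρ) → _ at b1
  change (∃ ρ, some σ = some ρ ∧ Y n ∪ H = C ρ) → _ at b2
  change 3 * w H + _ < _ at a1
  change w H ≤ _ at a2 a3
  have b0 : rk (MM hn (some σ)) H ≤ min (3 * n) (w H) := by
    rw [rk_MM]
    split_ifs with h
    · obtain ⟨ρ, -, rfl⟩ := h
      have h1 : ∀ b, φ (cond b {0, 1, 4} {2, 3, 4}) = 3 := by decide
      simp [w, C, h1, mul_comm]
    · rfl
  generalize rk (MM hn (some σ)) H = r at b0
  rw [rk_MM, rk_MM, eX, eY]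
  split_ifs
  all_goals first | (have := b1 ‹_›; omega) | (have := b2 ‹_›; omega) | omega

theorem rk_mono {S : Type} [Finite S] (M : Matroid S) {A B : Finset S} (h : A ⊆ B) :
    rk M A ≤ rk M B :=
  ENat.toNat_le_toNat (M.eRk_mono (by simpa using h)) (M.eRk_ne_top_iff.2 (M.isRkFinite_of_finite B.finite_toSet))

theorem opt (hn : 0 < n) (h9 : 9 ≤ n) (σ : Fin n → Bool) (H)
    (h : Phi (MM hn (some σ)) (Fs n) H ≤ Phi (MM hn (some σ)) (Fs n) (Hs σ)) : H = Hs σ := by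
  rw [Phi_eq, Phi_eq] at h
  obtain ⟨a1, a2⟩ := heavy_Hs hn σ σ
  have a3 : rk (MM hn (some σ)) (Z n ∪ Hs σ) = 3 * n - 1 := by
    rw [ZH, rk_MM, if_pos ⟨σ, rfl, rfl⟩]
  have e1 : (4 * rk (MM hn (some σ)) (X n ∪ Hs σ) + 4 * rk (MM hn (some σ)) (Y n ∪ Hs σ) -
      3 * rk (MM hn (some σ)) (Hs σ) : ℤ) = 14 * n := by omega
  rw [e1] at h
  by_cases hH : ∀ τ, H ≠ Hs τ
  · have b1 := heavy hn h9 σ H hH
    have b2 := rk_mono (MM hn (some σ)) (subset_union_right : H ⊆ Z n ∪ H)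
    have b3 : (4 * n : ℤ) * (14 * n + 1) ≤ 4 * n * (4 * rk (MM hn (some σ)) (X n ∪ H) +
        4 * rk (MM hn (some σ)) (Y n ∪ H) - 3 * rk (MM hn (some σ)) H) :=
      mul_le_mul_of_nonneg_left (by omega) (by positivity)
    rw [mul_add] at b3
    omega
  push Not at hH
  obtain ⟨τ, rfl⟩ := hH
  by_contra hne
  obtain ⟨b1, b2⟩ := heavy_Hs hn σ τ
  have b3 : rk (MM hn (some σ)) (Z n ∪ Hs τ) = 3 * n := by
    have h1 : ∀ b, φ (cond b {0, 1, 4} {2, 3, 4}) = 3 := by decide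
    rw [ZH, rk_MM, if_neg]
    · simp [w, C, h1, mul_comm]
    · rintro ⟨ρ, ⟨rfl⟩, e⟩
      exact hne (by rw [C_inj e])
  have e2 : (4 * rk (MM hn (some σ)) (X n ∪ Hs τ) + 4 * rk (MM hn (some σ)) (Y n ∪ Hs τ) -
      3 * rk (MM hn (some σ)) (Hs τ) : ℤ) = 14 * n := by omega
  rw [e2] at h
  omega

theorem Hs_inj : Function.Injective (Hs (n := n)) := fun σ τ h =>
  C_inj (by rw [← ZH, ← ZH, h])

theorem fool {S I : Type} [DecidableEq I] (M : Matroid S) (F : I → Matroid S)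
    (h : ∀ Q : Finset S, ∃ i, ∀ j ≠ i, rk (F j) Q = rk M Q) (T : RTree S) :
    ∃ L : Finset I, L.card ≤ (T.run M).2 ∧ ∀ i ∉ L, T.run (F i) = T.run M := by
  induction T with
  | out X => exact ⟨∅, by simp, fun _ _ => rfl⟩
  | ask Q nx ih =>
    obtain ⟨L, h1, h2⟩ := ih (rk M Q)
    obtain ⟨i, hi⟩ := h Q
    refine ⟨insert i L, (card_insert_le _ _).trans (by simp only [RTree.run]; omega),
      fun j hj => ?_⟩
    rw [mem_insert, not_or] at hj
    simp only [RTree.run, hi j hj.1, h2 j hj.2]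

theorem rk_map {S T : Type} (e : S ≃ T) (M : Matroid S) (hM : M.E = Set.univ) (A : Finset T) :
    rk (M.mapEquiv e) A = rk M (A.map e.symm.toEmbedding) := by
  rw [rk, rk, Matroid.mapEquiv_eq_map, ← M.eRk_map e.injective.injOn (by simp [hM])]
  congr 2
  ext x
  simp

theorem Phi_map {S T : Type} [DecidableEq S] [DecidableEq T] (e : S ≃ T) (M : Matroid S)
    (hM : M.E = Set.univ) (F : List (Finset S)) (H : Finset T) :
    Phi (M.mapEquiv e) (F.map fun A => A.map e.toEmbedding) H =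
      Phi M F (H.map e.symm.toEmbedding) := by
  have : ∀ A : Finset S, (A.map e.toEmbedding).map e.symm.toEmbedding = A := by
    intro A; ext; simp
  simp [Phi, rk_map e M hM, Function.comp_def, map_union, this]

theorem grow (p : Polynomial ℕ) : ∃ n, 9 ≤ n ∧ p.eval (26 * n) + 1 < 2 ^ n := by
  obtain ⟨c, d, h⟩ : ∃ c d : ℕ, ∀ x, 1 ≤ x → p.eval x ≤ c * x ^ d := by
    induction p using Polynomial.induction_on' with
    | add p q hp hq =>
      obtain ⟨c, d, h⟩ := hp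
      obtain ⟨c', d', h'⟩ := hq
      refine ⟨c + c', d + d', fun x hx => ?_⟩
      rw [Polynomial.eval_add, add_mul]
      exact add_le_add ((h x hx).trans (Nat.mul_le_mul_left _ (Nat.pow_le_pow_right hx (by omega))))
        ((h' x hx).trans (Nat.mul_le_mul_left _ (Nat.pow_le_pow_right hx (by omega))))
    | monomial n a => exact ⟨a, n, fun x _ => by simp⟩
  have ht := tendsto_pow_const_div_const_pow_of_one_lt d (show (1 : ℝ) < 2 by norm_num)
  have hp : (0 : ℝ) < 1 / (c * 26 ^ d + 1) := by positivity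
  obtain ⟨n, hn, hn4⟩ := ((ht.eventually (gt_mem_nhds hp)).and (Filter.eventually_ge_atTop 9)).exists
  refine ⟨n, hn4, ?_⟩
  have h2 := h (26 * n) (by omega)
  rw [div_lt_div_iff₀ (by positivity) (by positivity), one_mul] at hn
  have h3 : n ^ d * (c * 26 ^ d + 1) < 2 ^ n := by exact_mod_cast hn
  have h4 : 0 < n ^ d := by positivity
  rw [mul_pow] at h2
  nlinarith

theorem main : ¬ ∃ (Alg : ∀ m : ℕ, List (Finset (Fin m)) → RTree (Fin m)) (p : Polynomial ℕ),
    ∀ (m : ℕ) (M : Matroid (Fin m)) (F : List (Finset (Fin m))), M.E = Set.univ →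
      ((Alg m F).run M).2 ≤ p.eval (m + F.length) ∧
        ∀ H, Phi M F ((Alg m F).run M).1 ≤ Phi M F H := by
  rintro ⟨Alg, p, h⟩
  obtain ⟨n, h9, hp⟩ := grow p
  have hn : 0 < n := by omega
  let e : G n ≃ Fin (n * 5) := finProdFinEquiv
  have hE : ∀ o, (MM hn o).E = Set.univ := fun _ => rfl
  have key := fun o => h (n * 5) ((MM hn o).mapEquiv e) ((Fs n).map fun A => A.map e.toEmbedding)
    (by simp [hE])
  generalize Alg (n * 5) ((Fs n).map fun A => A.map e.toEmbedding) = T at key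
  obtain ⟨L, h1, h2⟩ := fool ((MM hn none).mapEquiv e) (fun σ => (MM hn (some σ)).mapEquiv e)
    (fun Q => by
      simp only [rk_map e _ (hE _), rk_MM]
      by_cases hq : ∃ σ, Q.map e.symm.toEmbedding = C σ
      · obtain ⟨σ, hσ⟩ := hq
        refine ⟨σ, fun τ hτ => ?_⟩
        rw [if_neg, if_neg (by simp)]
        rintro ⟨ρ, ⟨rfl⟩, e'⟩
        exact hτ (C_inj (e'.symm.trans hσ))
      · refine ⟨fun _ => true, fun τ _ => ?_⟩
        rw [if_neg, if_neg (by simp)]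
        rintro ⟨ρ, -, e'⟩
        exact hq ⟨ρ, e'⟩) T
  have h3 : ∀ σ ∉ L, ((T.run ((MM hn none).mapEquiv e)).1).map e.symm.toEmbedding = Hs σ := by
    intro σ hσ
    have := (key (some σ)).2 ((Hs σ).map e.toEmbedding)
    rw [h2 σ hσ, Phi_map e _ (hE _), Phi_map e _ (hE _),
      show ((Hs σ).map e.toEmbedding).map e.symm.toEmbedding = Hs σ by ext; simp] at this
    exact opt hn h9 σ _ this
  have h4 : Lᶜ.card ≤ 1 := card_le_one.2 fun a ha b hb =>
    Hs_inj ((h3 a (mem_compl.1 ha)).symm.trans (h3 b (mem_compl.1 hb)))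
  have h5 := (key none).1
  have h6 : p.eval (n * 5 + ((Fs n).map fun A => A.map e.toEmbedding).length) ≤ p.eval (26 * n) := by
    rw [Polynomial.eval_eq_sum_range, Polynomial.eval_eq_sum_range]
    exact sum_le_sum fun i _ => Nat.mul_le_mul_left _ (Nat.pow_le_pow_left (by
      simp [Fs]; omega) _)
  rw [card_compl] at h4
  simp only [Fintype.card_fun, Fintype.card_bool, Fintype.card_fin] at h4
  omega

end Pool.Agent.H36.MMed
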