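import Mathlib

namespace Pool.Agent.H36.MMed

/-- rank of a finite set -/
noncomputable def rk {S : Type} (M : Matroid S) (A : Finset S) : ℕ := (M.eRk A).toNat

/-- A deterministic rank-oracle algorithm on a fixed explicit input: a decision tree whose inner
nodes ask for the rank of a set `Q` and branch on the answer. -/
inductive RTree (S : Type) where
  | out (H : Finset S)
  | ask (Q : Finset S) (next : ℕ → RTree S)

/-- output of the algorithm and number of oracle calls -/
noncomputable def RTree.run {S : Type} (M : Matroid S) : RTree S → Finset S × ℕ
  | .out H => (H, 0)
  | .ask Q next => (((next (rk M Q)).run M).1, ((next (rk M Q)).run M).2 + 1)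

/-- the objective of the matroid median problem -/
noncomputable def Phi {S : Type} [DecidableEq S] (M : Matroid S) (F : List (Finset S))
    (H : Finset S) : ℤ :=
  2 * (F.map fun A => (rk M (A ∪ H) : ℤ)).sum - F.length * rk M H

end Pool.Agent.H36.MMed
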