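import Pool.Agent.H38.NP.Defs

/-!
Majority domination on complete multipartite graphs.
-/

namespace Pool.Agent.H36.Maj

open Pool.Agent.H38.NP

open Classical in
/-- `f` is a majority dominating function of `G`. -/
def MDF {V : Type} [Fintype V] (G : SimpleGraph V) (f : V → ℤ) : Prop :=
  (∀ v, f v = 1 ∨ f v = -1) ∧ Fintype.card V ≤
    2 * (Finset.univ.filter fun v => 1 ≤ f v + ∑ u ∈ Finset.univ.filter (G.Adj v), f u).card

/-- An instance: the part sizes and `k`, all in binary. -/
abbrev Inst := List Bin × Bin

/-- At least one part, positive part sizes, positive `k`. -/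
def Valid (p : Inst) : Prop := p.1 ≠ [] ∧ (∀ x ∈ p.1, 0 < x.val) ∧ 0 < p.2.val

/-- The complete multipartite graph has an MDF of weight at most `k`. -/
def Maj (p : Inst) : Prop :=
  ∃ f, MDF (SimpleGraph.completeMultipartiteGraph fun i : Fin p.1.length => Fin (p.1.get i).val) f ∧
    ∑ v, f v ≤ p.2.val

end Pool.Agent.H36.Maj
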