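import Pool.Agent.H36.TabDefs

namespace Pool.Agent.H36.Tab

/-- the output word `q ∘ u` of the Mealy automaton with transition table `T`, output table `L` -/
def out (T L : List (List ℕ)) : ℕ → List ℕ → List ℕ
  | _, [] => []
  | q, a :: u => tb L q a :: out T L (tb T q a) u

/-- synchronizing words of the automaton with states `0..n-1` and letters `0..m-1` -/
def Syn (n m : ℕ) (T : List (List ℕ)) (u : List ℕ) : Prop := Word m u ∧ (img n T u).card = 1

/-- reset Mealy automata -/
def Reset (n m : ℕ) (T L : List (List ℕ)) : Prop :=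
  (∃ u, Syn n m T u) ∧ ∀ q < n, ∀ u, Syn n m T u → Syn n m T (out T L q u)

end Pool.Agent.H36.Tab
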