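import Pool.Agent.H36.Tab
import Pool.Agent.H36.MealyDefs

namespace Pool.Agent.H36.Tab

open Pool.Agent.H38.NP PSpace

/-- special states: 0 start, 1 tracker, 2 bad, 3 sink; letters 0 1, 2 = r, 3 = e, 4 = z, 5 = id -/
def mδ (Ds : List Dfa) (s : ℕ × ℕ) (a : ℕ) : ℕ × ℕ :=
  if a = 5 then s else if a = 4 then (0, 3) else
  if s.1 = 0 then (0, if s.2 = 0 then (if a = 2 then 1 else 3) else
    if s.2 = 1 then (if a < 2 then 1 else 3) else if s.2 = 2 then (if a = 2 then 3 else 2) else 3)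
  else if a = 2 then (s.1, 0) else
  if a = 3 then (0, cond (dacc (Ds.getD (s.1 - 1) []) s.2) 3 2) else
  (s.1, dstep (Ds.getD (s.1 - 1) []) s.2 (decide (a = 1)))

def mo (s : ℕ × ℕ) (a : ℕ) : ℕ :=
  if s = (0, 0) then (if a = 2 then 5 else 4) else
  if s = (0, 1) then (if a < 2 then 5 else if a = 3 then 5 else 4) else 4

def mout (Ds : List Dfa) : ℕ × ℕ → List ℕ → List ℕ
  | _, [] => []
  | s, a :: u => mo s a :: mout Ds (mδ Ds s a) u

theorem mδ_closed {Ds : List Dfa} (h : WF Ds) :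
    ∀ s ∈ sts 4 Ds, ∀ a < 6, mδ Ds s a ∈ sts 4 Ds := by
  rintro ⟨c, q⟩ hs a -
  by_cases h5 : a = 5
  · simpa [mδ, h5] using hs
  by_cases h4 : a = 4
  · simp [mδ, h4, mem_sts]
  rcases mem_sts.1 hs with ⟨rfl, hq⟩ | ⟨i, hi, rfl, hq⟩
  · simp only [mδ, h5, h4, if_false, if_true]
    refine mem_sts.2 (Or.inl ⟨rfl, ?_⟩)
    split_ifs <;> omega
  · obtain ⟨h0, h1⟩ := wf_get h hi
    simp only [mδ, h5, h4, Nat.add_one_ne_zero, if_false, Nat.add_sub_cancel]
    split_ifs
    · exact mem_sts.2 (Or.inr ⟨i, hi, rfl, h0⟩)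
    · refine mem_sts.2 (Or.inl ⟨rfl, ?_⟩)
      cases dacc (Ds.getD i []) q <;> simp
    · exact mem_sts.2 (Or.inr ⟨i, hi, rfl, h1 _ hq _⟩)

theorem mo_lt (s a) : mo s a < 6 := by unfold mo; split_ifs <;> omega

theorem mo_cases (s a) : mo s a = 4 ∨ mo s a = 5 := by unfold mo; split_ifs <;> omega

theorem m_sink (Ds : List Dfa) (w : List ℕ) : w.foldl (mδ Ds) (0, 3) = (0, 3) := by
  induction w with
  | nil => rfl
  | cons a w ih =>
    have : mδ Ds (0, 3) a = (0, 3) := by unfold mδ; split_ifs <;> simp_all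
    rw [List.foldl_cons, this, ih]

theorem m_z (Ds : List Dfa) (w : List ℕ) (h : 4 ∈ w) (s) : w.foldl (mδ Ds) s = (0, 3) := by
  obtain ⟨u, v, rfl⟩ := List.append_of_mem h
  rw [List.foldl_append, List.foldl_cons, show mδ Ds _ 4 = (0, 3) by simp [mδ], m_sink]

theorem m_id (Ds : List Dfa) (w : List ℕ) (h : ∀ a ∈ w, a = 5) (s) : w.foldl (mδ Ds) s = s := by
  induction w with
  | nil => rfl
  | cons a w ih =>
    rw [List.foldl_cons, h a (by simp), show mδ Ds s 5 = s by simp [mδ],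
      ih fun b hb => h b (by simp [hb])]

theorem m_bits (Ds : List Dfa) (u : List Bool) :
    (u.map Bool.toNat).foldl (mδ Ds) (0, 1) = (0, 1) ∧
    (u.map Bool.toNat).foldl (mδ Ds) (0, 2) = (0, 2) ∧
    (∀ i q, (u.map Bool.toNat).foldl (mδ Ds) (i + 1, q) =
      (i + 1, u.foldl (dstep (Ds.getD i [])) q)) ∧
    ∀ a ∈ mout Ds (0, 1) (u.map Bool.toNat ++ [3]), a = 5 := by
  induction u with
  | nil => simp [mout, mo]
  | cons b u ih =>
    refine ⟨?_, ?_, fun i q => ?_, ?_⟩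
    · cases b <;> simpa [mδ] using ih.1
    · cases b <;> simpa [mδ] using ih.2.1
    · cases b <;> simpa [mδ] using ih.2.2.1 i _
    · cases b <;> simpa [mδ, mout, mo] using ih.2.2.2

theorem m_s1 (Ds : List Dfa) (w : List ℕ) (h : 4 ∉ mout Ds (0, 1) w) :
    ∃ u : List Bool, w = u.map Bool.toNat ∨ w = u.map Bool.toNat ++ [3] := by
  induction w with
  | nil => exact ⟨[], Or.inl rfl⟩
  | cons a w ih =>
    simp only [mout, List.mem_cons, not_or] at h
    obtain ⟨h1, h2⟩ := h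
    obtain rfl | rfl | rfl : a = 0 ∨ a = 1 ∨ a = 3 := by
      by_contra hh
      apply h1
      simp only [mo]
      rw [if_neg (by simp), if_pos trivial, if_neg (by omega), if_neg (by omega)]
    · obtain ⟨u, h⟩ := ih (by simpa [mδ] using h2)
      exact ⟨false :: u, by rcases h with rfl | rfl <;> simp⟩
    · obtain ⟨u, h⟩ := ih (by simpa [mδ] using h2)
      exact ⟨true :: u, by rcases h with rfl | rfl <;> simp⟩
    · cases w with
      | nil => exact ⟨[], Or.inr rfl⟩
      | cons b w => simp [mδ, mout, mo] at h2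

def MSyn (Ds : List Dfa) (u : List ℕ) : Prop :=
  Word 6 u ∧ ∀ s ∈ sts 4 Ds, ∀ t ∈ sts 4 Ds, u.foldl (mδ Ds) s = u.foldl (mδ Ds) t

theorem mout_word (Ds : List Dfa) (u : List ℕ) (s) : Word 6 (mout Ds s u) := by
  induction u generalizing s with
  | nil => simp [mout, Word]
  | cons a u ih =>
    intro b hb
    rcases List.mem_cons.1 hb with rfl | hb
    · exact mo_lt _ _
    · exact ih _ b hb

theorem mealy_iff {Ds : List Dfa} (h : WF Ds) :
    ¬ Inter Ds ↔ ∀ s ∈ sts 4 Ds, ∀ u, MSyn Ds u → MSyn Ds (mout Ds s u) := by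
  have m : ∀ j < 4, (0, j) ∈ sts 4 Ds := fun j hj => mem_sts.2 (Or.inl ⟨rfl, hj⟩)
  rw [inter_iff']
  constructor
  · intro hn s hs u ⟨hw, hu⟩
    refine ⟨mout_word _ _ _, ?_⟩
    by_cases h4 : 4 ∈ mout Ds s u
    · intro s _ t _
      rw [m_z _ _ h4, m_z _ _ h4]
    exfalso
    have h23 := hu _ (m 2 (by omega)) _ (m 3 (by omega))
    rw [m_sink] at h23
    by_cases e1 : s = (0, 1)
    · subst e1
      obtain ⟨v, rfl | rfl⟩ := m_s1 Ds u h4
      · rw [(m_bits Ds v).2.1] at h23; simp at h23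
      · rw [List.foldl_append, (m_bits Ds v).2.1] at h23; simp [mδ] at h23
    cases u with
    | nil => simp at h23
    | cons a u =>
      simp only [mout, List.mem_cons, not_or] at h4
      obtain ⟨rfl, rfl⟩ : s = (0, 0) ∧ a = 2 := by
        by_contra hh
        apply h4.1
        unfold mo
        split_ifs <;> simp_all
      obtain ⟨v, rfl | rfl⟩ := m_s1 Ds u (by simpa [mδ] using h4.2)
      · have := hu _ (m 0 (by omega)) _ (m 3 (by omega))
        rw [m_sink, List.foldl_cons, show mδ Ds (0, 0) 2 = (0, 1) by simp [mδ],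
          (m_bits Ds v).1] at this
        simp at this
      · refine hn ⟨v, fun i hi => ?_⟩
        have := hu (i + 1, 0) (mem_sts.2 (Or.inr ⟨i, hi, rfl, (wf_get h hi).1⟩)) _ (m 3 (by omega))
        rw [m_sink, List.foldl_cons, show mδ Ds (i + 1, 0) 2 = (i + 1, 0) by simp [mδ],
          List.foldl_append, (m_bits Ds v).2.2.1] at this
        revert this
        simp only [List.foldl_cons, List.foldl_nil, mδ, Nat.add_sub_cancel]
        cases dacc _ _ <;> simp
  · rintro hr ⟨v, hv⟩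
    obtain ⟨b1, b2, bq, bo⟩ := m_bits Ds v
    have key : ∀ s ∈ sts 4 Ds, (2 :: (v.map Bool.toNat ++ [3])).foldl (mδ Ds) s = (0, 3) := by
      rintro ⟨c, q⟩ hs
      rw [List.foldl_cons]
      rcases mem_sts.1 hs with ⟨rfl, hq⟩ | ⟨i, hi, rfl, hq⟩
      · interval_cases q
        · rw [show mδ Ds (0, 0) 2 = (0, 1) by simp [mδ], List.foldl_append, b1]
          simp [mδ]
        all_goals rw [show mδ Ds (0, _) 2 = (0, 3) by simp [mδ], m_sink]
      · rw [show mδ Ds (i + 1, q) 2 = (i + 1, 0) by simp [mδ], List.foldl_append, bq]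
        simp only [List.foldl_cons, List.foldl_nil, mδ, Nat.add_sub_cancel, hv i hi]
        simp
    have := (hr _ (m 0 (by omega)) (2 :: (v.map Bool.toNat ++ [3])) ⟨?_, fun s hs t ht => by
      rw [key s hs, key t ht]⟩).2 _ (m 0 (by omega)) _ (m 1 (by omega))
    · have h5 : ∀ a ∈ mout Ds (0, 0) (2 :: (v.map Bool.toNat ++ [3])), a = 5 := by
        simpa [mout, mo, mδ] using bo
      rw [m_id _ _ h5, m_id _ _ h5] at this
      simp at this
    · intro a ha
      simp only [List.mem_cons, List.mem_append, List.mem_map, List.not_mem_nil, or_false] at ha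
      rcases ha with rfl | ⟨b, -, rfl⟩ | rfl
      · omega
      · cases b <;> simp
      · omega

theorem reset_psh :
    PSH (fun p : ℕ × ℕ × List (List ℕ) × List (List ℕ) =>
        0 < p.1 ∧ Total p.1 p.2.1 p.1 p.2.2.1 ∧ Total p.1 p.2.1 p.2.1 p.2.2.2)
      (fun p => Reset p.1 p.2.1 p.2.2.1 p.2.2.2) := by
  refine inter_psh.compl.reduce (fun Ds => ((sts 4 Ds).length, 6,
    mkT (sts 4 Ds) 6 fun s a => (sts 4 Ds).idxOf (mδ Ds s a), mkT (sts 4 Ds) 6 mo)) ?_
    fun Ds h => ?_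
  · unfold mkT mδ mo
    fun_prop
  have hc := mδ_closed h
  have h0 : (0, 0) ∈ sts 4 Ds := mem_sts.2 (Or.inl ⟨rfl, by omega⟩)
  refine ⟨⟨List.length_pos_of_mem h0,
    mkT_total _ _ _ _ fun s hs a ha => List.idxOf_lt_length_of_mem (hc s hs a ha),
    mkT_total _ _ _ _ fun s _ a _ => mo_lt _ _⟩, ?_⟩
  have hs : ∀ u, Syn (sts 4 Ds).length 6
      (mkT (sts 4 Ds) 6 fun s a => (sts 4 Ds).idxOf (mδ Ds s a)) u ↔ MSyn Ds u := fun u =>
    and_congr_right fun hw => img_card_one (nodup_sts _ _) (List.ne_nil_of_mem h0) hc hw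
  have ho : ∀ u, Word 6 u → ∀ s ∈ sts 4 Ds,
      out (mkT (sts 4 Ds) 6 fun s a => (sts 4 Ds).idxOf (mδ Ds s a)) (mkT (sts 4 Ds) 6 mo)
        ((sts 4 Ds).idxOf s) u = mout Ds s u := by
    intro u hu
    induction u with
    | nil => intros; rfl
    | cons a u ih =>
      intro s hs
      have ha := hu a (by simp)
      rw [out, mkT_ix _ _ _ hs ha, mkT_ix _ _ _ hs ha,
        ih (fun b hb => hu b (by simp [hb])) _ (hc s hs a ha), mout]
  rw [mealy_iff h]
  simp only [Reset, hs]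
  constructor
  · intro H
    refine ⟨⟨[4], by simp [Word], fun s _ t _ => by simp [mδ]⟩, fun q hq u hu => ?_⟩
    have := ho u hu.1 _ (List.getElem_mem hq)
    rw [List.Nodup.idxOf_getElem (nodup_sts _ _)] at this
    rw [this]
    exact H _ (List.getElem_mem hq) u hu
  · intro H s hs u hu
    rw [← ho u hu.1 s hs]
    exact H.2 _ (List.idxOf_lt_length_of_mem hs) u hu

end Pool.Agent.H36.Tab
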