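import Pool.Agent.H36.MixDefs
import Pool.Agent.H36.Gr
import Pool.Agent.H36.Sim

/-!
Set Cover reduces to the mixed metric dimension, preserving approximation ratios up to a factor 2.
-/

namespace Pool.Agent.H36.Mix

open Pool.Agent.H38.NP Pool.Agent.H36.Gr Pool.Agent.H36.VDel Finset

section General

variable {V : Type} {G : SimpleGraph V}

theorem le_one (hG : G.Connected) (u w : V) : G.dist u w ≤ 1 ↔ w = u ∨ G.Adj u w := by
  rw [← SimpleGraph.dist_eq_one_iff_adj, eq_comm, ← hG.dist_eq_zero_iff]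
  omega

theorem res_of (hG : G.Connected) (S : Finset V) (h : ∀ x y x' y', (x = y ∨ G.Adj x y) →
    (x' = y' ∨ G.Adj x' y') → (∀ w ∈ S, ((w = x ∨ w = y) ↔ (w = x' ∨ w = y')) ∧
      ((w = x ∨ G.Adj x w) → (w = x' ∨ G.Adj x' w) ∨ (w = y' ∨ G.Adj y' w))) → x = x' ∨ x = y') :
    Resolving G S := by
  have k : ∀ x y x' y', (x = y ∨ G.Adj x y) → (x' = y' ∨ G.Adj x' y') →
      (∀ w ∈ S, min (G.dist x w) (G.dist y w) = min (G.dist x' w) (G.dist y' w)) →
      x = x' ∨ x = y' := fun x y x' y' a b c => h x y x' y' a b fun w hw => by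
    have := c w hw
    simp only [← le_one hG]
    simp only [eq_comm (a := w), ← hG.dist_eq_zero_iff]
    omega
  have k2 : ∀ x y x' y', (x = y ∨ G.Adj x y) → (x' = y' ∨ G.Adj x' y') →
      (∀ w ∈ S, min (G.dist x w) (G.dist y w) = min (G.dist x' w) (G.dist y' w)) →
      s(x, y) = s(x', y') := fun x y x' y' a b c => by
    have a' := a.imp Eq.symm SimpleGraph.Adj.symm
    have b' := b.imp Eq.symm SimpleGraph.Adj.symm
    have := k x y x' y' a b c
    have := k y x x' y' a' b fun w hw => by rw [min_comm, c w hw]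
    have := k x' y' x y b a fun w hw => (c w hw).symm
    have := k y' x' x y b' a fun w hw => by rw [min_comm, c w hw]
    rw [Sym2.eq_iff]
    grind
  intro a b hab
  by_contra c
  push Not at c
  refine hab ?_
  rcases a with x | ⟨⟨x, y⟩, a⟩ <;> rcases b with x' | ⟨⟨x', y'⟩, b⟩
  · simpa using k2 x x x' x' (.inl rfl) (.inl rfl) fun w hw => by simpa [md] using c w hw
  · have := k2 x x x' y' (.inl rfl) (.inr b) fun w hw => by simpa [md] using c w hw
    have := G.ne_of_adj b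
    grind
  · have := k2 x y x' x' (.inr a) (.inl rfl) fun w hw => by simpa [md] using c w hw
    have := G.ne_of_adj a
    grind
  · exact congrArg _ (Subtype.ext (k2 x y x' y' (.inr a) (.inr b) fun w hw => c w hw))

theorem le_two (hG : G.Connected) {u x w : V} (h1 : x = u ∨ G.Adj u x) (h2 : G.Adj x w) :
    G.dist u w ≤ 2 := by
  have := hG.dist_triangle (u := u) (v := x) (w := w)
  have := (le_one hG u x).2 h1
  have := (le_one hG x w).2 (.inr h2)
  omega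

theorem closer (hG : G.Connected) {S : Finset V} (hS : Resolving G S) {u v h : V} (uv : G.Adj u v)
    (vh : G.Adj v h) (h2 : ∀ w, G.dist h w ≤ 2) : ∃ w ∈ S, w = u ∨ ∃ x, G.Adj u x ∧
      ¬ (x = v ∨ G.Adj v x) ∧ (w = x ∨ (G.Adj x w ∧ ¬ G.Adj h w)) := by
  obtain ⟨w, hw, k⟩ := hS (.inl v) (.inr ⟨s(u, v), uv⟩) (by simp)
  simp only [md, Sym2.lift_mk] at k
  refine ⟨w, hw, ?_⟩
  have := hG.dist_triangle (u := v) (v := h) (w := w)
  have := (le_one hG v h).2 (.inr vh)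
  have := h2 w
  by_cases c : G.dist u w ≤ 1
  · refine ((le_one hG u w).1 c).imp id fun a => ⟨w, a, fun b => ?_, .inl rfl⟩
    have := (le_one hG v w).2 b
    have := SimpleGraph.dist_eq_one_iff_adj.2 a
    omega
  · obtain ⟨p, hp⟩ := hG.exists_walk_length_eq_dist u w
    have a := p.adj_getVert_succ (i := 0) (by omega)
    have b := p.adj_getVert_succ (i := 1) (by omega)
    rw [p.getVert_of_length_le (i := 1 + 1) (by omega)] at b
    rw [p.getVert_zero] at a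
    refine .inr ⟨_, a, fun e => ?_, .inr ⟨b, fun e => ?_⟩⟩
    · have := le_two hG e b
      omega
    · have := le_two hG (.inr vh) e
      omega

end General

abbrev Cd := ℕ × ℕ × ℕ × ℕ
abbrev SC := ℕ × List (List ℕ)

def qq (J : SC) : ℕ := J.1 + J.2.length + 5

def Ok (J : SC) (a : Cd) : Prop :=
  (a.1 ≤ 1 ∧ a.2.1 = 0 ∧ a.2.2.1 = 0 ∧ a.2.2.2 = 0) ∨ ((a.1 = 2 ∨ a.1 = 3) ∧ a.2.2.2 < J.1) ∨
  (a.1 = 4 ∧ a.2.2.2 < J.2.length) ∨ ((a.1 = 5 ∨ a.1 = 7) ∧ a.2.2.1 = 0 ∧ a.2.2.2 = 0) ∨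
  (a.1 = 6 ∧ a.2.1 = 0 ∧ a.2.2.2 < J.1) ∨ (a.1 = 8 ∧ a.2.1 = 0 ∧ a.2.2.2 < J.2.length)

instance (J a) : Decidable (Ok J a) := by unfold Ok; infer_instance

def vs (J : SC) : List Cd :=
  ((List.range 9).product ((List.range (qq J)).product ((List.range (qq J)).product
    (List.range (qq J))))).filter fun a => decide (Ok J a)

def A (M : Prop) (a b : Cd) : Prop :=
  (a.1 = 0 ∧ (b.1 = 2 ∨ b.1 = 3 ∨ b.1 = 7 ∨ b.1 = 8)) ∨ (a.1 = 1 ∧ b.1 = 3) ∨
  (a.1 = 2 ∧ b.1 = 3 ∧ a.2.1 = b.2.1 ∧ a.2.2.1 = b.2.2.1 ∧ a.2.2.2 = b.2.2.2) ∨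
  (a.1 = 2 ∧ b.1 = 4 ∧ a.2.1 = b.2.1 ∧ a.2.2.1 = b.2.2.1 ∧ M) ∨
  (a.1 = 5 ∧ (b.1 = 2 ∨ b.1 = 3) ∧ a.2.1 = b.2.1) ∨
  (a.1 = 6 ∧ (b.1 = 2 ∨ b.1 = 3) ∧ a.2.2.1 = b.2.2.1 ∧ a.2.2.2 = b.2.2.2) ∨
  (a.1 = 7 ∧ b.1 = 4 ∧ a.2.1 = b.2.1) ∨
  (a.1 = 8 ∧ b.1 = 4 ∧ a.2.2.1 = b.2.2.1 ∧ a.2.2.2 = b.2.2.2)

instance (M a b) [Decidable M] : Decidable (A M a b) := by unfold A; infer_instance

def adj (J : SC) (a b : Cd) : Bool := decide (A (a.2.2.2 ∈ J.2.getD b.2.2.2 []) a b)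

def red (J : SC) : ℕ × List (ℕ × ℕ) := mkG (vs J) (adj J)

variable {J : SC}

theorem mem_vs {a} : a ∈ vs J ↔ a.2.1 < qq J ∧ a.2.2.1 < qq J ∧ Ok J a := by
  obtain ⟨a, b, c, d⟩ := a
  simp only [vs, Ok, List.mem_filter, List.pair_mem_product, List.mem_range, decide_eq_true_eq, qq]
  constructor
  · rintro ⟨⟨-, h1, h2, -⟩, h3⟩
    exact ⟨h1, h2, h3⟩
  · rintro ⟨h1, h2, h3⟩
    exact ⟨⟨by omega, h1, h2, by omega⟩, h3⟩

theorem nd : (vs J).Nodup :=
  (List.nodup_range.product (List.nodup_range.product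
    (List.nodup_range.product List.nodup_range))).filter _

abbrev GG (J : SC) := RG (vs J) (adj J)

abbrev cd (v : Fin (vs J).length) : Cd := code (vs J) v

def B (J : SC) (a b : Cd) : Prop :=
  A (a.2.2.2 ∈ J.2.getD b.2.2.2 []) a b ∨ A (b.2.2.2 ∈ J.2.getD a.2.2.2 []) b a

theorem A_weak {M a b} (h : A M a b) : A True a b :=
  h.imp id (Or.imp id (Or.imp id (Or.imp (fun h => ⟨h.1, h.2.1, h.2.2.1, h.2.2.2.1, trivial⟩) id)))

theorem B_weak {a b} (h : B J a b) : A True a b ∨ A True b a := h.imp A_weak A_weak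

theorem GG_adj {u v} : (GG J).Adj u v ↔ B J (cd u) (cd v) := by
  rw [RG_adj nd, GC_adj]
  simp only [adj, decide_eq_true_eq]
  refine and_iff_right_of_imp fun h e => ?_
  have := B_weak h
  rw [e] at this
  simp only [A, and_true] at this
  omega

abbrev Nr (w x y : Cd) : Prop :=
  (w = x ∨ A True x w ∨ A True w x) ∨ (w = y ∨ A True y w ∨ A True w y)

theorem ks {x y : Cd} {a b i} (e : x = y ∨ A True x y ∨ A True y x) (k1 : Nr (7, a, 0, 0) x y)
    (k2 : Nr (8, 0, b, i) x y) (k3 : x.1 ≠ 0 ∧ y.1 ≠ 0) : (4, a, b, i) = x ∨ (4, a, b, i) = y := by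
  obtain ⟨t1, a1, b1, i1⟩ := x
  obtain ⟨t2, a2, b2, i2⟩ := y
  simp [A, Nr] at k1 k2 k3 e ⊢
  omega

theorem ku {x y : Cd} {a b i} (e : x = y ∨ A True x y ∨ A True y x) (k1 : Nr (5, a, 0, 0) x y)
    (k2 : Nr (6, 0, b, i) x y) : ((x.1 = 2 ∨ x.1 = 3) ∧ x.2.1 = a ∧ x.2.2.1 = b ∧ x.2.2.2 = i) ∨
      ((y.1 = 2 ∨ y.1 = 3) ∧ y.2.1 = a ∧ y.2.2.1 = b ∧ y.2.2.2 = i) := by
  obtain ⟨t1, a1, b1, i1⟩ := x
  obtain ⟨t2, a2, b2, i2⟩ := y
  simp [A, Nr] at k1 k2 e ⊢
  omega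

theorem kv {x y : Cd} {a b i} (e : x = y ∨ A True x y ∨ A True y x) (k1 : Nr (1, 0, 0, 0) x y)
    (k2 : ((x.1 = 2 ∨ x.1 = 3) ∧ x.2.1 = a ∧ x.2.2.1 = b ∧ x.2.2.2 = i) ∨
      ((y.1 = 2 ∨ y.1 = 3) ∧ y.2.1 = a ∧ y.2.2.1 = b ∧ y.2.2.2 = i)) :
    (3, a, b, i) = x ∨ (3, a, b, i) = y := by
  obtain ⟨t1, a1, b1, i1⟩ := x
  obtain ⟨t2, a2, b2, i2⟩ := y
  simp [A, Nr] at k1 k2 e ⊢
  omega

theorem kw {x y : Cd} {a b i j} (e : x = y ∨ A True x y ∨ A True y x) (k1 : Nr (4, a, b, j) x y)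
    (k2 : ((x.1 = 2 ∨ x.1 = 3) ∧ x.2.1 = a ∧ x.2.2.1 = b ∧ x.2.2.2 = i) ∨
      ((y.1 = 2 ∨ y.1 = 3) ∧ y.2.1 = a ∧ y.2.2.1 = b ∧ y.2.2.2 = i)) :
    (2, a, b, i) = x ∨ (2, a, b, i) = y := by
  obtain ⟨t1, a1, b1, i1⟩ := x
  obtain ⟨t2, a2, b2, i2⟩ := y
  simp [A, Nr] at k1 k2 e ⊢
  omega

theorem key {T : List ℕ} (hT : Cover J T) {x y x' y' : Cd} (hx : x ∈ vs J) (hx' : x' ∈ vs J)
    (hy' : y' ∈ vs J) (e : x = y ∨ B J x y) (e' : x' = y' ∨ B J x' y')
    (h : ∀ w ∈ vs J, (w.1 ≠ 2 ∧ w.1 ≠ 3 ∧ (w.1 = 4 → w.2.2.2 ∈ T)) →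
      ((w = x ∨ w = y) ↔ (w = x' ∨ w = y')) ∧
      (B J x w → (w = x' ∨ B J x' w) ∨ (w = y' ∨ B J y' w))) : x = x' ∨ x = y' := by
  by_cases c : x.1 ≠ 2 ∧ x.1 ≠ 3 ∧ x.1 ≠ 4
  · exact (h x hx ⟨c.1, c.2.1, fun k => absurd k c.2.2⟩).1.1 (.inl rfl)
  have e1 := e.imp id B_weak
  have e2 := e'.imp id B_weak
  have h' : ∀ w ∈ vs J, (w.1 ≠ 2 ∧ w.1 ≠ 3 ∧ (w.1 = 4 → w.2.2.2 ∈ T)) → B J x w → Nr w x' y' :=
    fun w a b c => ((h w a b).2 c).imp (Or.imp id B_weak) (Or.imp id B_weak)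
  have h0 := (h (0, 0, 0, 0) (by simp [mem_vs, Ok, qq]) (by simp)).1.2
  clear h e e'
  obtain ⟨t, a, b, i⟩ := x
  rw [mem_vs] at hx hx' hy'
  obtain ⟨ha, hb, hx⟩ := hx
  have q : 0 < qq J := by simp [qq]
  simp only at ha hb c
  by_cases c4 : t = 4
  · subst c4
    have hi : i < J.2.length := by simpa [Ok] using hx
    refine ks e2 (h' _ (by simp [mem_vs, Ok, ha, q]) (by simp) (by simp [B, A]))
      (h' _ (by simp [mem_vs, Ok, hb, q, hi]) (by simp) (by simp [B, A])) ?_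
    have : ¬ ((0, 0, 0, 0) = (4, a, b, i) ∨ (0, 0, 0, 0) = y) := by
      rintro (e | rfl)
      · simp at e
      · simp [A] at e1
    have := mt h0 this
    simp only [Ok, Prod.ext_iff] at this hx' hy'
    omega
  have hi : i < J.1 := by simp only [Ok] at hx; omega
  have k3 := ku e2 (h' (5, a, 0, 0) (by simp [mem_vs, Ok, ha, q]) (by simp) (by simp [B, A]; omega))
    (h' (6, 0, b, i) (by simp [mem_vs, Ok, hb, q, hi]) (by simp) (by simp [B, A]; omega))
  by_cases c3 : t = 3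
  · subst c3
    exact kv e2 (h' _ (by simp [mem_vs, Ok, q]) (by simp) (by simp [B, A])) k3
  obtain rfl : t = 2 := by omega
  obtain ⟨j, j1, j2⟩ := hT i hi
  have j3 : j < J.2.length := by
    by_contra c
    rw [List.getD_eq_default _ _ (not_lt.1 c)] at j2
    simp at j2
  exact kw e2 (h' (4, a, b, j) (by simp [mem_vs, Ok, ha, hb, j3]) (by simp [j1])
    (.inl (.inr (.inr (.inr (.inl ⟨rfl, rfl, rfl, rfl, j2⟩)))))) k3

theorem near (hn : 0 < J.1) : ∃ h, cd (J := J) h = (0, 0, 0, 0) ∧ ∀ w, w = h ∨ (GG J).Adj h w ∨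
    ∃ x, (GG J).Adj h x ∧ (GG J).Adj x w := by
  have q : 0 < qq J := by simp [qq]
  obtain ⟨h, hh⟩ := code_surj (vs := vs J) (c := (0, 0, 0, 0)) (by simp [mem_vs, Ok, q])
  refine ⟨h, hh, fun w => ?_⟩
  have k : ∀ c ∈ vs J, B J (0, 0, 0, 0) c → B J c (cd w) → w = h ∨ (GG J).Adj h w ∨
      ∃ x, (GG J).Adj h x ∧ (GG J).Adj x w := fun c hc a b => by
    obtain ⟨x, rfl⟩ := code_surj hc
    exact .inr (.inr ⟨x, GG_adj.2 (by rw [cd, hh]; exact a), GG_adj.2 b⟩)
  rw [← (code_inj nd).eq_iff, GG_adj] at k ⊢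
  have m := mem_vs.1 (code_mem _ w)
  simp only [cd, hh] at k ⊢
  generalize code (vs J) w = c at *
  obtain ⟨t, a, b, i⟩ := c
  obtain ⟨ha, hb, m⟩ := m
  simp only [Ok] at ha hb m
  by_cases c : t = 2 ∨ t = 3 ∨ t = 7 ∨ t = 8
  · exact .inr (.inl (.inl (.inl ⟨rfl, c⟩)))
  by_cases c0 : t = 0
  · exact .inl (by simp; omega)
  by_cases c4 : t = 4
  · exact k (7, a, 0, 0) (by simp [mem_vs, Ok, q, ha]) (by simp [B, A]) (by simp [B, A, c4])
  · exact k (3, a, b, i) (by simp [mem_vs, Ok, hb, ha]; omega) (by simp [B, A])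
      (by simp [B, A]; omega)

theorem conn (hn : 0 < J.1) : (GG J).Connected := by
  obtain ⟨h, -, k⟩ := near hn
  refine (SimpleGraph.connected_iff_exists_forall_reachable _).2 ⟨h, fun w => ?_⟩
  rcases k w with rfl | k | ⟨x, k1, k2⟩
  · rfl
  · exact k.reachable
  · exact k1.reachable.trans k2.reachable

theorem forth (hn : 0 < J.1) {T} (hT : Cover J T) :
    mdim (GG J) ≤ qq J * qq J * (2 * T.length) := by
  let S : Finset (Fin (vs J).length) :=
    {w | (cd w).1 ≠ 2 ∧ (cd w).1 ≠ 3 ∧ ((cd w).1 = 4 → (cd w).2.2.2 ∈ T)}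
  have r : Resolving (GG J) S := res_of (conn hn) S fun x y x' y' e e' h => by
    simp only [← (code_inj (nd (J := J))).eq_iff, GG_adj] at e e' h ⊢
    refine key hT (code_mem _ _) (code_mem _ _) (code_mem _ _) e e' fun w hw k => ?_
    obtain ⟨w, rfl⟩ := code_surj hw
    have := h w (by simpa [S] using k)
    exact ⟨this.1, fun a => this.2 (.inr a)⟩
  refine le_trans (b := #S) (Nat.sInf_le ⟨S, r, rfl⟩) ?_
  let g : Cd → (ℕ × ℕ) × ℕ := fun c => if c.1 = 4 then ((c.2.1, c.2.2.1), c.2.2.2 + 1) else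
    if c.1 = 6 then ((c.2.2.1, 5 + c.2.2.2), 0) else if c.1 = 8 then
      ((c.2.2.1, 5 + J.1 + c.2.2.2), 0) else ((c.2.1, (c.1 + 1) / 2), 0)
  have := card_le_card_of_injOn (s := S)
    (t := (range (qq J) ×ˢ range (qq J)) ×ˢ insert 0 (T.toFinset.image (· + 1)))
    (fun w => g (cd w)) (fun w hw => ?_) fun u hu v hv e => code_inj nd ?_
  · rw [card_product, card_product, card_range] at this
    refine this.trans (Nat.mul_le_mul_left _ ((card_insert_le _ _).trans ?_))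
    have := (card_image_le (s := T.toFinset) (f := (· + 1))).trans T.toFinset_card_le
    obtain ⟨j, hj, -⟩ := hT 0 hn
    have := List.length_pos_of_mem hj
    omega
  · have m := mem_vs.1 (code_mem _ w)
    simp only [S, coe_filter, mem_univ, true_and, Set.mem_ofPred_eq] at hw
    simp only [Ok, qq] at m
    simp only [g, cd] at hw ⊢
    split_ifs with c1 c2 c3
    · simp [m.1, m.2.1, qq, hw.2.2 c1]
    all_goals simp [qq]; omega
  · have m := mem_vs.1 (code_mem _ u)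
    have m' := mem_vs.1 (code_mem _ v)
    simp only [S, coe_filter, mem_univ, true_and, Set.mem_ofPred_eq] at hu hv
    simp only [g, cd] at hu hv e
    generalize code (vs J) u = c at *
    generalize code (vs J) v = c' at *
    obtain ⟨t, a, b, i⟩ := c
    obtain ⟨t', a', b', i'⟩ := c'
    simp only [Ok, Prod.mk.injEq] at m m' hu hv e ⊢
    have := hu.1; have := hu.2.1; have := hv.1; have := hv.2.1
    split_ifs at e <;> simp only [Prod.mk.injEq] at e <;> omega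

def cs (J : SC) (S : List ℕ) : List Cd :=
  ((List.range (vs J).length).filter fun v => decide (v ∈ S)).map fun v => (vs J).getD v default

def bk (J : SC) (C : List Cd) (k : ℕ × ℕ) : List ℕ :=
  (List.range J.2.length).filter (fun j => decide ((4, k.1, k.2, j) ∈ C)) ++
  ((List.range J.1).filter fun e => decide ((2, k.1, k.2, e) ∈ C)).map
    fun e => J.2.findIdx fun A => decide (e ∈ A)

def bk2 (J : SC) (C : List Cd) : List ℕ :=
  if J.1 = 0 then [] else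
  ((((List.range (qq J)).product (List.range (qq J))).map (bk J C)).filter
    fun T => decide (qq J * qq J * T.length ≤ C.length)).headD []

theorem mem_cs {S c} : c ∈ cs J S ↔ ∃ v ∈ vset (vs J).length S, cd v = c := by
  simp only [cs, vset, List.mem_map, List.mem_filter, List.mem_range, decide_eq_true_eq, mem_filter,
    mem_univ, true_and]
  exact ⟨fun ⟨v, ⟨h1, h2⟩, h3⟩ => ⟨⟨v, h1⟩, h2, h3⟩, fun ⟨v, h2, h3⟩ => ⟨v, ⟨v.2, h2⟩, h3⟩⟩

theorem len_cs (S) : (cs J S).length = #(vset (vs J).length S) := by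
  rw [cs, List.length_map, ← List.toFinset_card_of_nodup (List.nodup_range.filter _),
    ← card_map Fin.valEmbedding]
  congr 1
  ext v
  simp only [vset, List.mem_toFinset, List.mem_filter, List.mem_range, decide_eq_true_eq, mem_map,
    mem_filter, mem_univ, true_and, Fin.valEmbedding_apply]
  exact ⟨fun ⟨h1, h2⟩ => ⟨⟨v, h1⟩, h2, rfl⟩, fun ⟨u, h2, h3⟩ => h3 ▸ ⟨u.2, h2⟩⟩

theorem bk_cover (hJ : ∃ T, Cover J T) {S} (h : Resolving (GG J) (vset _ S)) {k : ℕ × ℕ}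
    (h1 : k.1 < qq J) (h2 : k.2 < qq J) : Cover J (bk J (cs J S) k) := by
  intro e he
  have hn : 0 < J.1 := by omega
  obtain ⟨o, ho, k0⟩ := near hn
  obtain ⟨u, hu⟩ := code_surj (vs := vs J) (c := (2, k.1, k.2, e)) (by simp [mem_vs, Ok, *])
  obtain ⟨v, hv⟩ := code_surj (vs := vs J) (c := (3, k.1, k.2, e)) (by simp [mem_vs, Ok, *])
  obtain ⟨w, w1, w2⟩ := closer (conn hn) h (u := u) (v := v) (h := o)
    (by simp [GG_adj, B, A, hu, hv]) (by simp [GG_adj, B, A, ho, hv]) fun w => by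
      rcases k0 w with k | k | ⟨x, k1, k2⟩
      · simp [k]
      · exact ((le_one (conn hn) _ _).2 (.inr k)).trans one_le_two
      · exact le_two (conn hn) (.inr k1) k2
  have m := mem_cs.2 ⟨w, w1, rfl⟩
  simp only [bk, List.mem_append, List.mem_filter, List.mem_map, List.mem_range, decide_eq_true_eq]
  rcases w2 with rfl | ⟨x, x1, x2, x3⟩
  · obtain ⟨T, hT⟩ := hJ
    obtain ⟨j, -, j2⟩ := hT e he
    have : ∃ A ∈ J.2, decide (e ∈ A) = true := by
      by_cases c : j < J.2.length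
      · exact ⟨_, List.getElem_mem c, by simpa [c] using j2⟩
      · rw [List.getD_eq_default _ _ (not_lt.1 c)] at j2
        simp at j2
    have l := List.findIdx_lt_length_of_exists this
    refine ⟨_, .inr ⟨e, ⟨he, hu ▸ m⟩, rfl⟩, ?_⟩
    rw [List.getD_eq_getElem _ _ l]
    simpa using List.findIdx_getElem (w := l)
  · simp only [← (code_inj (nd (J := J))).eq_iff, GG_adj, cd, hu, hv, ho] at x1 x2 x3 m
    have mx := (mem_vs.1 (code_mem _ x)).2.2
    generalize code (vs J) x = c at *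
    generalize code (vs J) w = c' at *
    obtain ⟨t, a, b, i⟩ := c
    obtain ⟨t', a', b', i'⟩ := c'
    have t4 : t = 4 := by
      have := B_weak x1
      simp [B, A] at x2 this
      omega
    subst t4
    simp [B, A, Ok] at x1 x3 mx
    refine ⟨i, .inl ⟨mx, ?_⟩, by simpa using x1.2.2⟩
    rcases x3 with ⟨rfl, rfl, rfl, rfl⟩ | x3
    · rwa [x1.1, x1.2.1]
    · obtain ⟨x3 | x3 | x3, x4⟩ := x3 <;> omega

theorem pigeon (C : List Cd) : ∃ k ∈ (List.range (qq J)).product (List.range (qq J)),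
    qq J * qq J * (bk J C k).length ≤ C.length := by
  have h1 : ∀ k : ℕ × ℕ, (bk J C k).length ≤ #{c ∈ C.toFinset | (c.2.1, c.2.2.1) = k} := fun k => by
    let A := (List.range J.2.length).filter (fun j => decide ((4, k.1, k.2, j) ∈ C))
    let B := (List.range J.1).filter fun e => decide ((2, k.1, k.2, e) ∈ C)
    have hnd : (A.map (fun j => (4, k.1, k.2, j)) ++ B.map (fun j => (2, k.1, k.2, j))).Nodup :=
      List.nodup_append.2 ⟨(List.nodup_range.filter _).map (by simp [Function.Injective]),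
        (List.nodup_range.filter _).map (by simp [Function.Injective]), by simp⟩
    have := List.toFinset_card_of_nodup hnd
    refine le_trans (by rw [this]; simp [bk, A, B]) (card_le_card (s := (A.map (fun j => (4, k.1, k.2, j))
      ++ B.map (fun j => (2, k.1, k.2, j))).toFinset) fun c hc => ?_)
    simp only [A, B, List.mem_toFinset, List.mem_append, List.mem_map, List.mem_filter,
      decide_eq_true_eq] at hc
    rcases hc with ⟨j, h, rfl⟩ | ⟨j, h, rfl⟩ <;> simpa using h.2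
  have h2 := sum_card_fiberwise_eq_card_filter C.toFinset (range (qq J) ×ˢ range (qq J))
    fun c => (c.2.1, c.2.2.1)
  have h3 := (card_filter_le _ _).trans C.toFinset_card_le |>.trans' h2.le
  obtain ⟨k, k1, k2⟩ := exists_le_of_sum_le (s := range (qq J) ×ˢ range (qq J))
    (f := fun k => qq J * qq J * (bk J C k).length) (g := fun _ => C.length)
    ⟨(0, 0), by simp [qq]⟩ (by
      rw [← mul_sum, sum_const, card_product, card_range]
      exact Nat.mul_le_mul_left _ ((sum_le_sum fun k _ => h1 k).trans h3))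
  exact ⟨k, List.pair_mem_product.2 (by simpa using k1), k2⟩

theorem bk2_spec (hn : J.1 ≠ 0) (C : List Cd) : ∃ k : ℕ × ℕ, k.1 < qq J ∧ k.2 < qq J ∧
    bk2 J C = bk J C k ∧ qq J * qq J * (bk J C k).length ≤ C.length := by
  obtain ⟨k, k1, k2⟩ := pigeon (J := J) C
  rw [bk2, if_neg hn]
  generalize hl : List.filter _ _ = l
  have : bk J C k ∈ l := hl ▸ List.mem_filter.2 ⟨List.mem_map_of_mem k1, by simpa using k2⟩
  obtain ⟨a, l, rfl⟩ := List.exists_cons_of_ne_nil (List.ne_nil_of_mem this)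
  obtain ⟨h1, h2⟩ := List.mem_filter.1 (hl ▸ List.mem_cons_self : a ∈ _)
  obtain ⟨⟨x, y⟩, h3, rfl⟩ := List.mem_map.1 h1
  simp only [List.pair_mem_product, List.mem_range] at h3
  exact ⟨(x, y), h3.1, h3.2, rfl, by simpa using h2⟩

theorem pt_vs : PT vs := by unfold vs Ok qq; fun_prop

theorem pt_red : PT red := pt_mkG (adj := adj) pt_vs (by unfold adj A; fun_prop)

theorem pt_cs : PT fun p : SC × List ℕ => cs p.1 p.2 :=
  (PT.comp (f := fun q : List Cd × List ℕ => ((List.range q.1.length).filter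
    fun v => decide (v ∈ q.2)).map fun v => q.1.getD v default) (by fun_prop)
    ((pt_vs.comp PT.id'.fst).mk PT.id'.snd)).of_eq fun _ => rfl

theorem pt_bk : PT fun p : (SC × List Cd) × ℕ × ℕ => bk p.1.1 p.1.2 p.2 := by
  unfold bk; fun_prop

theorem pt_bk2 : PT fun p : SC × List Cd => bk2 p.1 p.2 := by
  unfold bk2 qq
  exact PT.ite (by fun_prop) (PT.const _) (PT.headD (PT.filter (by fun_prop)
    (PT.map pt_bk (by fun_prop))) (PT.const _))

theorem transfer {c : ℝ} (hc : 0 ≤ c) (h : ApproxMdim c) : ApproxSC (2 * c) := by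
  obtain ⟨f, hf, h⟩ := h
  have h1 : PT fun J : SC => (Dec.dec (⟨f (enc (red J))⟩ : Bits) : List ℕ) :=
    Dec.pt.comp ((Sim.pt_of_polyTime hf).comp pt_red.raw)
  obtain ⟨g, hg, h2⟩ := (pt_bk2.comp (PT.id'.mk (pt_cs.comp (PT.id'.mk h1)))).polyTimeOn
    fun _ => True
  refine ⟨g, hg, fun J hJ => ⟨_, h2 J trivial, ?_⟩⟩
  by_cases hn : J.1 = 0
  · exact ⟨fun e he => by omega, fun T _ => by simp [bk2, hn]; positivity⟩
  obtain ⟨S, e, h3, h4⟩ := h (red J) (conn (by omega))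
  have e' : (Dec.dec (⟨f (enc (red J))⟩ : Bits) : List ℕ) = S := by
    rw [e]; exact Dec.dec_raw S
  simp only [e']
  obtain ⟨k, k1, k2, k3, k4⟩ := bk2_spec hn (cs J S)
  rw [k3]
  refine ⟨bk_cover hJ h3 k1 k2, fun T hT => ?_⟩
  rw [len_cs] at k4
  have h7 : (qq J * qq J * (bk J (cs J S) k).length : ℝ) ≤ #(vset (vs J).length S) := by
    exact_mod_cast k4
  have h8 : (mdim (GG J) : ℝ) ≤ qq J * qq J * (2 * T.length) := by
    exact_mod_cast forth (by omega) hT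
  have h9 := (h7.trans h4).trans (mul_le_mul_of_nonneg_left h8 hc)
  have : (0 : ℝ) < qq J := by simp [qq]; positivity
  refine le_of_mul_le_mul_left (a := (qq J * qq J : ℝ)) (by linarith) (by positivity)

end Pool.Agent.H36.Mix
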