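import Pool.Agent.H36.VDelDefs

/-!
Mixed metric dimension and its approximation.
-/

namespace Pool.Agent.H36.Mix

open Pool.Agent.H38.NP

section
variable {V : Type} (G : SimpleGraph V)

/-- distance from a vertex or an edge to a vertex -/
noncomputable def md : V ⊕ G.edgeSet → V → ℕ
  | .inl x, w => G.dist x w
  | .inr e, w => Sym2.lift ⟨fun u v => min (G.dist u w) (G.dist v w), fun _ _ => min_comm _ _⟩ e.1

/-- mixed resolving sets -/
def Resolving (S : Finset V) : Prop :=
  ∀ a b : V ⊕ G.edgeSet, a ≠ b → ∃ w ∈ S, md G a w ≠ md G b w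

/-- mixed metric dimension -/
noncomputable def mdim : ℕ := sInf {k | ∃ S : Finset V, Resolving G S ∧ S.card = k}

end

/-- the set of vertices listed in `S` -/
def vset (n : ℕ) (S : List ℕ) : Finset (Fin n) := Finset.univ.filter fun v => v.val ∈ S

/-- a polynomial-time `c`-approximation algorithm for the mixed metric dimension of connected
graphs -/
def ApproxMdim (c : ℝ) : Prop :=
  ∃ f, PolyTime f ∧ ∀ p : ℕ × List (ℕ × ℕ), (graphOf p.1 p.2).Connected →
    ∃ S : List ℕ, f (enc p) = enc S ∧ Resolving (graphOf p.1 p.2) (vset p.1 S) ∧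
      ((vset p.1 S).card : ℝ) ≤ c * mdim (graphOf p.1 p.2)

end Pool.Agent.H36.Mix
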