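import Pool.Agent.H36.NsepDefs
import Pool.Agent.H36.Gr

/-!
NP-hardness of the shortest induced nonseparating cycle problem.
-/

namespace Pool.Agent.H36.Nsep

open Pool.Agent.H38.NP Pool.Agent.H36.Gr SimpleGraph

section Walks

variable {V : Type} {G : SimpleGraph V}

theorem split_edge {x y : V} (c : G.Walk x y) {e : Sym2 V} (he : e ∈ c.edges) :
    ∃ (a b : V) (p : G.Walk x a) (h : G.Adj a b) (q : G.Walk b y),
      e = s(a, b) ∧ c = p.append (Walk.cons h q) := by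
  induction c with
  | nil => simp at he
  | cons h r ih =>
    rcases List.mem_cons.1 he with rfl | he
    · exact ⟨_, _, Walk.nil, h, r, rfl, rfl⟩
    · obtain ⟨a, b, p, h', q, e1, rfl⟩ := ih he
      exact ⟨a, b, Walk.cons h p, h', q, e1, rfl⟩

theorem open_cycle {x u v : V} (c : G.Walk x x) (hc : c.IsCycle) (he : s(u, v) ∈ c.edges) :
    ∃ q : G.Walk u v, q.length + 1 = c.length ∧ s(u, v) ∉ q.edges ∧
      ∀ w, w ∈ c.support ↔ w ∈ q.support := by
  obtain ⟨a, b, p, h, q, e, rfl⟩ := split_edge c he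
  have nd := hc.edges_nodup
  simp only [Walk.edges_append, Walk.edges_cons, List.nodup_append, List.nodup_cons,
    List.mem_cons] at nd
  have k : (q.append p).length + 1 = (p.append (Walk.cons h q)).length ∧
      s(a, b) ∉ (q.append p).edges ∧
      ∀ w, w ∈ (p.append (Walk.cons h q)).support ↔ w ∈ (q.append p).support := by
    refine ⟨by simp; omega, ?_, fun w => ?_⟩
    · simp only [Walk.edges_append, List.mem_append, not_or]
      exact ⟨nd.2.1.1, fun h => nd.2.2 _ h _ (Or.inl rfl) rfl⟩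
    · simp only [Walk.mem_support_append_iff, Walk.support_cons, List.mem_cons]
      constructor
      · rintro (h | rfl | h)
        exacts [Or.inr h, Or.inr p.end_mem_support, Or.inl h]
      · rintro (h | h)
        exacts [Or.inr (Or.inr h), Or.inl h]
  rcases Sym2.eq_iff.1 e with ⟨rfl, rfl⟩ | ⟨rfl, rfl⟩
  · exact ⟨(q.append p).reverse, by rw [Walk.length_reverse]; exact k.1,
      by simpa [or_comm] using k.2.1,
      fun w => (k.2.2 w).trans (by simp [or_comm])⟩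
  · exact ⟨q.append p, k.1, e ▸ k.2.1, k.2.2⟩

theorem lip {e : Sym2 V} {f : V → ℕ} (hf : ∀ a b, G.Adj a b → s(a, b) ≠ e → f b ≤ f a + 1)
    {x y : V} (q : G.Walk x y) (he : e ∉ q.edges) :
    f y ≤ f x + q.length ∧ f x ≤ f y + q.length ∧
      ∀ i, f x ≤ i → i ≤ f y → ∃ w ∈ q.support, f w = i := by
  induction q with
  | @nil u => exact ⟨by simp, by simp, fun i h1 h2 => ⟨u, by simp, by omega⟩⟩
  | @cons a b c h r ih =>
    simp only [Walk.edges_cons, List.mem_cons, not_or] at he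
    obtain ⟨i1, i2, i3⟩ := ih he.2
    have a1 := hf a b h (Ne.symm he.1)
    have a2 := hf b a h.symm (by rw [Sym2.eq_swap]; exact Ne.symm he.1)
    refine ⟨by simp; omega, by simp; omega, fun i h1 h2 => ?_⟩
    by_cases c : f a = i
    · exact ⟨a, by simp, c⟩
    · obtain ⟨w, hw, e⟩ := i3 i (by omega) h2
      exact ⟨w, by simp [hw], e⟩

theorem mk_walk (f : ℕ → V) (n : ℕ) (h : ∀ i < n, G.Adj (f i) (f (i + 1))) :
    ∃ p : G.Walk (f 0) (f n), p.length = n ∧ p.support = (List.range (n + 1)).map f ∧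
      ∀ e, e ∈ p.edges ↔ ∃ i < n, e = s(f i, f (i + 1)) := by
  induction n with
  | zero => exact ⟨Walk.nil, rfl, by simp, by simp⟩
  | succ n ih =>
    obtain ⟨p, p1, p2, p3⟩ := ih fun i hi => h i (by omega)
    refine ⟨p.concat (h n (by omega)), by simp [p1], ?_, fun e => ?_⟩
    · rw [Walk.support_concat, p2, List.range_succ (n := n + 1)]
      simp
    · simp only [Walk.edges_concat, List.concat_eq_append, List.mem_append, p3,
        List.mem_singleton]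
      constructor
      · rintro (⟨i, hi, rfl⟩ | rfl)
        exacts [⟨i, by omega, rfl⟩, ⟨n, by omega, rfl⟩]
      · rintro ⟨i, hi, rfl⟩
        rcases Nat.lt_succ_iff_lt_or_eq.1 hi with h | rfl
        exacts [Or.inl ⟨i, h, rfl⟩, Or.inr rfl]

/-- reachability avoiding `S` -/
def Re (G : SimpleGraph V) (S : V → Prop) (u v : V) : Prop :=
  ∃ (hu : ¬ S u) (hv : ¬ S v), (G.induce {v | ¬ S v}).Reachable ⟨u, hu⟩ ⟨v, hv⟩

theorem Re.adj {S : V → Prop} {u v : V} (h : G.Adj u v) (hu : ¬ S u) (hv : ¬ S v) : Re G S u v :=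
  ⟨hu, hv, Adj.reachable h⟩

theorem Re.symm {S : V → Prop} {u v : V} : Re G S u v → Re G S v u
  | ⟨a, b, h⟩ => ⟨b, a, h.symm⟩

theorem Re.trans {S : V → Prop} {u v w : V} : Re G S u v → Re G S v w → Re G S u w
  | ⟨a, _, h⟩, ⟨_, c, h'⟩ => ⟨a, c, h.trans h'⟩

theorem chain {S : V → Prop} (Lv : V → ℕ → Prop) (n : ℕ) (hn : 2 ≤ n)
    (ha : ∀ u v i, Lv u i → Lv v (i + 1) → G.Adj u v) (hs : ∀ i < n, ∃ v, Lv v i ∧ ¬ S v) :
    ∃ r, ∀ i < n, ∀ v, Lv v i → ¬ S v → Re G S v r := by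
  obtain ⟨r, r1, r2⟩ := hs 0 (by omega)
  refine ⟨r, fun i => ?_⟩
  induction i with
  | zero =>
    intro _ v h1 h2
    obtain ⟨w, w1, w2⟩ := hs 1 (by omega)
    exact (Re.adj (ha _ _ _ h1 w1) h2 w2).trans (Re.adj (ha _ _ _ r1 w1) r2 w2).symm
  | succ i ih =>
    intro hi v h1 h2
    obtain ⟨w, w1, w2⟩ := hs i (by omega)
    exact (Re.adj (ha _ _ _ w1 h1) w2 h2).symm.trans (ih (by omega) w w1 w2)

end Walks

abbrev C := ℕ × ℕ × ℕ × ℕ

def vs (φ : F3) : List C :=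
  (0, 0, 0, 0) :: (1, 0, 0, 0) :: (List.range (3 * φ.length)).map (fun o => (2, o, 0, 0)) ++
    (List.range (3 * φ.length)).flatMap fun a => ((List.range (3 * φ.length)).filter fun b =>
      decide (a / 3 ≠ b / 3) && conf φ a b).flatMap fun b =>
        (List.range (3 * (2 * φ.length + 3))).map fun p => (3, a, b, p)

def adj (M : ℕ) (x y : C) : Bool :=
  decide ((x.1 = 0 ∧ y.1 = 1) ∨ (x.1 = 0 ∧ y.1 = 2 ∧ y.2.1 < 3) ∨
    (x.1 = 1 ∧ y.1 = 2 ∧ y.2.1 / 3 + 1 = M) ∨ (x.1 = 2 ∧ y.1 = 2 ∧ y.2.1 / 3 = x.2.1 / 3 + 1) ∨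
    (x.1 = 3 ∧ y.1 = 3 ∧ x.2.1 = y.2.1 ∧ x.2.2.1 = y.2.2.1 ∧ y.2.2.2 / 3 = x.2.2.2 / 3 + 1) ∨
    (x.1 = 2 ∧ y.1 = 3 ∧ x.2.1 = y.2.1 ∧ y.2.2.2 < 3) ∨
    (x.1 = 2 ∧ y.1 = 3 ∧ x.2.1 = y.2.2.1 ∧ y.2.2.2 / 3 = 2 * M + 2) ∨
    (x.1 = 0 ∧ y.1 = 3 ∧ y.2.2.2 / 3 = M + 1))

def red (φ : F3) : Inst :=
  ((mkG (vs φ) (adj φ.length)).1, (mkG (vs φ) (adj φ.length)).2, 0, 1, φ.length + 2)

theorem pt_red : PT red := by
  have : PT fun φ : F3 => mkG (vs φ) (adj φ.length) :=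
    pt_mkG (by unfold vs; fun_prop) (by unfold adj; fun_prop)
  unfold red
  exact PT.mk this.fst (PT.mk this.snd (by fun_prop))

def ok (φ : F3) (x : C) : Prop :=
  x = (0, 0, 0, 0) ∨ x = (1, 0, 0, 0) ∨ (∃ o < 3 * φ.length, x = (2, o, 0, 0)) ∨
    ∃ a < 3 * φ.length, ∃ b < 3 * φ.length, a / 3 ≠ b / 3 ∧ conf φ a b = true ∧
      ∃ p < 3 * (2 * φ.length + 3), x = (3, a, b, p)

theorem mem_vs {φ : F3} {x : C} : x ∈ vs φ ↔ ok φ x := by
  simp only [vs, ok, List.cons_append, List.mem_cons, List.mem_append, List.mem_map,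
    List.mem_range, List.mem_flatMap, List.mem_filter, Bool.and_eq_true, decide_eq_true_eq,
    eq_comm (a := x), and_assoc]

theorem nodup_vs (φ : F3) : (vs φ).Nodup := by
  simp only [vs, List.cons_append, List.nodup_cons, List.mem_cons, List.mem_append, List.mem_map,
    List.mem_flatMap, List.nodup_append]
  refine ⟨by simp, by simp, List.nodup_range.map fun a b e => by simpa using e, ?_, ?_⟩
  · refine List.nodup_flatMap.2 ⟨fun a _ => List.nodup_flatMap.2 ⟨fun b _ =>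
      List.nodup_range.map fun a b e => by simpa using e, ?_⟩, ?_⟩
    · refine (List.nodup_range.filter _).imp fun hne => ?_
      simp only [Function.onFun, List.disjoint_left, List.mem_map]
      rintro _ ⟨p, -, rfl⟩ ⟨q, -, e⟩
      simp at e; omega
    · refine List.nodup_range.imp fun hne => ?_
      simp only [Function.onFun, List.disjoint_left, List.mem_map, List.mem_flatMap]
      rintro _ ⟨b, -, p, -, rfl⟩ ⟨b', -, q, -, e⟩
      simp at e; omega
  · rintro _ ⟨o, -, rfl⟩ _ ⟨a, -, b, -, p, -, rfl⟩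
    simp

abbrev VV (φ : F3) := Fin (vs φ).length
abbrev GG (φ : F3) : SimpleGraph (VV φ) := RG (vs φ) (adj φ.length)
abbrev cd {φ : F3} (v : VV φ) : C := code (vs φ) v

theorem cd_ok {φ : F3} (v : VV φ) : ok φ (cd v) := mem_vs.1 (code_mem _ v)
theorem cd_inj {φ : F3} {u v : VV φ} (h : cd u = cd v) : u = v := code_inj (nodup_vs φ) h
theorem cd_sur {φ : F3} {x : C} (h : ok φ x) : ∃ v : VV φ, cd v = x := code_surj (mem_vs.2 h)

theorem GG_adj {φ : F3} {u v : VV φ} : (GG φ).Adj u v ↔ cd u ≠ cd v ∧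
    (adj φ.length (cd u) (cd v) = true ∨ adj φ.length (cd v) (cd u) = true) :=
  (RG_adj (nodup_vs φ)).trans GC_adj

def v0 (φ : F3) : VV φ := ⟨0, by simp [vs]⟩
def v1 (φ : F3) : VV φ := ⟨1, by simp [vs]⟩
theorem cd0 (φ : F3) : cd (v0 φ) = (0, 0, 0, 0) := rfl
theorem cd1 (φ : F3) : cd (v1 φ) = (1, 0, 0, 0) := rfl

theorem conn {φ : F3} (hM : 2 ≤ φ.length) (S : VV φ → Prop)
    (h1 : ∀ c < φ.length, ∃ v, (∃ o, o / 3 = c ∧ cd v = (2, o, 0, 0)) ∧ ¬ S v)
    (h2 : ∀ a b, ok φ (3, a, b, 0) → ∀ i < 2 * φ.length + 3,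
      ∃ v, (∃ p, p / 3 = i ∧ cd v = (3, a, b, p)) ∧ ¬ S v)
    (h3 : ∀ a b, ok φ (3, a, b, 0) → ∃ v, ¬ S v ∧
      (cd v = (0, 0, 0, 0) ∨ cd v = (2, a, 0, 0) ∨ cd v = (2, b, 0, 0))) :
    ((GG φ).induce {v | ¬ S v}).Connected := by
  obtain ⟨r, hr⟩ := chain (G := GG φ) (S := S) (fun v c => ∃ o, o / 3 = c ∧ cd v = (2, o, 0, 0))
    φ.length hM (by
      rintro u v i ⟨o, h1, h2⟩ ⟨o', h3, h4⟩
      simp [GG_adj, h2, h4, adj]; omega) h1
  have k2 : ∀ v o, cd v = (2, o, 0, 0) → ¬ S v → Re (GG φ) S v r := fun v o e hv => by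
    have := cd_ok v
    simp [e, ok] at this
    exact hr (o / 3) (by omega) v ⟨o, rfl, e⟩ hv
  have k0 : ∀ v, cd v = (0, 0, 0, 0) → ¬ S v → Re (GG φ) S v r := fun v e hv => by
    obtain ⟨w, ⟨o, o1, o2⟩, hw⟩ := h1 0 (by omega)
    exact (Re.adj (by simp [GG_adj, e, o2, adj]; omega) hv hw).trans (k2 w o o2 hw)
  have all : ∀ v, ¬ S v → Re (GG φ) S v r := by
    intro v hv
    rcases cd_ok v with e | e | ⟨o, -, e⟩ | ⟨a, ha, b, hb, c1, c2, p, hp, e⟩
    · exact k0 v e hv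
    · obtain ⟨w, ⟨o, o1, o2⟩, hw⟩ := h1 (φ.length - 1) (by omega)
      exact (Re.adj (by simp [GG_adj, e, o2, adj]; omega) hv hw).trans (k2 w o o2 hw)
    · exact k2 v o e hv
    · have hok : ok φ (3, a, b, 0) :=
        Or.inr (Or.inr (Or.inr ⟨a, ha, b, hb, c1, c2, 0, by omega, rfl⟩))
      obtain ⟨r', hr'⟩ := chain (G := GG φ) (S := S)
        (fun v i => ∃ p, p / 3 = i ∧ cd v = (3, a, b, p)) (2 * φ.length + 3) (by omega) (by
          rintro u v i ⟨o, h1, h2⟩ ⟨o', h3, h4⟩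
          simp [GG_adj, h2, h4, adj]; omega) (h2 a b hok)
      refine (hr' (p / 3) (by omega) v ⟨p, rfl, e⟩ hv).trans ?_
      obtain ⟨w, hw, e' | e' | e'⟩ := h3 a b hok
      · obtain ⟨z, ⟨q, q1, q2⟩, hz⟩ := h2 a b hok (φ.length + 1) (by omega)
        exact (hr' _ (by omega) z ⟨q, q1, q2⟩ hz).symm.trans ((Re.adj
          (by simp [GG_adj, e', q2, adj]; omega) hz hw).trans (k0 w e' hw))
      · obtain ⟨z, ⟨q, q1, q2⟩, hz⟩ := h2 a b hok 0 (by omega)
        exact (hr' _ (by omega) z ⟨q, q1, q2⟩ hz).symm.trans ((Re.adj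
          (by simp [GG_adj, e', q2, adj]; omega) hz hw).trans (k2 w a e' hw))
      · obtain ⟨z, ⟨q, q1, q2⟩, hz⟩ := h2 a b hok (2 * φ.length + 2) (by omega)
        exact (hr' _ (by omega) z ⟨q, q1, q2⟩ hz).symm.trans ((Re.adj
          (by simp [GG_adj, e', q2, adj]; omega) hz hw).trans (k2 w b e' hw))
  obtain ⟨w, -, hw⟩ := h1 0 (by omega)
  have : Nonempty {v | ¬ S v} := ⟨⟨w, hw⟩⟩
  refine ⟨fun u v => ?_⟩
  obtain ⟨_, _, h⟩ := (all u.1 u.2).trans (all v.1 v.2).symm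
  exact h

theorem ok3 {φ : F3} {a b : ℕ} (h : ok φ (3, a, b, 0)) : a < 3 * φ.length ∧ b < 3 * φ.length ∧
    a / 3 ≠ b / 3 ∧ conf φ a b = true ∧ ∀ p < 3 * (2 * φ.length + 3), ok φ (3, a, b, p) := by
  have h' := h
  simp [ok] at h'
  exact ⟨h'.1, h'.2.1, h'.2.2.1, h'.2.2.2, fun p hp =>
    Or.inr (Or.inr (Or.inr ⟨a, h'.1, b, h'.2.1, h'.2.2.1, h'.2.2.2, p, hp, rfl⟩))⟩

theorem three {φ : F3} (S : Finset (VV φ)) (hS : S.card ≤ 2) {x y z : C} (hx : ok φ x)
    (hy : ok φ y) (hz : ok φ z) (xy : x ≠ y) (xz : x ≠ z) (yz : y ≠ z) :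
    ∃ v, v ∉ S ∧ (cd v = x ∨ cd v = y ∨ cd v = z) := by
  obtain ⟨a, rfl⟩ := cd_sur hx
  obtain ⟨b, rfl⟩ := cd_sur hy
  obtain ⟨c, rfl⟩ := cd_sur hz
  by_contra h
  have k : ∀ v, (cd v = cd a ∨ cd v = cd b ∨ cd v = cd c) → v ∈ S := fun v hv =>
    by_contra fun h' => h ⟨v, h', hv⟩
  exact absurd hS (not_le.2 (Finset.two_lt_card_iff.2 ⟨a, b, c, k a (Or.inl rfl),
    k b (Or.inr (Or.inl rfl)), k c (Or.inr (Or.inr rfl)), fun e => xy (e ▸ rfl),
    fun e => xz (e ▸ rfl), fun e => yz (e ▸ rfl)⟩))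

theorem valid {φ : F3} (hM : 2 ≤ φ.length) : Valid (red φ) := by
  refine ⟨⟨?_, fun S hS => conn hM (· ∈ S) (fun c hc => ?_) (fun a b h i hi => ?_)
    fun a b h => ?_⟩, v0 φ, v1 φ, rfl, rfl, GG_adj.2 (by simp [cd0, cd1, adj])⟩
  · simp [red, mkG, vs]; omega
  · obtain ⟨v, hv, e⟩ := three S hS (x := (2, 3 * c, 0, 0)) (y := (2, 3 * c + 1, 0, 0))
      (z := (2, 3 * c + 2, 0, 0)) (by simp [ok]; omega) (by simp [ok]; omega)
      (by simp [ok]; omega) (by simp) (by simp) (by simp)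
    refine ⟨v, ?_, hv⟩
    rcases e with e | e | e <;> exact ⟨_, by omega, e⟩
  · have := (ok3 h).2.2.2.2
    obtain ⟨v, hv, e⟩ := three S hS (this (3 * i) (by omega)) (this (3 * i + 1) (by omega))
      (this (3 * i + 2) (by omega)) (by simp) (by simp) (by simp)
    refine ⟨v, ?_, hv⟩
    rcases e with e | e | e <;> exact ⟨_, by omega, e⟩
  · obtain ⟨a1, a2, a3, -⟩ := ok3 h
    exact three S hS (Or.inl rfl) (by simp [ok, a1]) (by simp [ok, a2]) (by simp) (by simp)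
      (by simp; rintro rfl; exact a3 rfl)

def fa (M : ℕ) (x : C) : ℕ :=
  if x.1 = 0 then 0 else if x.1 = 1 then M + 1 else if x.1 = 2 then x.2.1 / 3 + 1 else
    min (x.2.1 / 3 + 2 + x.2.2.2 / 3) (min (1 + (x.2.2.2 / 3 - (M + 1)) + (M + 1 - x.2.2.2 / 3))
      (x.2.2.1 / 3 + 2 + (2 * M + 2 - x.2.2.2 / 3)))

def fb (M : ℕ) (x : C) : ℕ :=
  if x.1 = 0 then M + 1 else if x.1 = 1 then 0 else if x.1 = 2 then M - x.2.1 / 3 else
    min (M - x.2.1 / 3 + 1 + x.2.2.2 / 3)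
      (min (M + 2 + (x.2.2.2 / 3 - (M + 1)) + (M + 1 - x.2.2.2 / 3))
      (M - x.2.2.1 / 3 + 1 + (2 * M + 2 - x.2.2.2 / 3)))

theorem lipf {φ : F3} (u v : VV φ) (h : (GG φ).Adj u v) (hne : s(u, v) ≠ s(v0 φ, v1 φ)) :
    fa φ.length (cd v) ≤ fa φ.length (cd u) + 1 ∧ fb φ.length (cd v) ≤ fb φ.length (cd u) + 1 := by
  have h' := (GG_adj.1 h).2
  rcases cd_ok u with e | e | ⟨o, ho, e⟩ | ⟨a, ha, b, hb, -, -, p, hp, e⟩ <;>
    rcases cd_ok v with e' | e' | ⟨o', ho', e'⟩ | ⟨a', ha', b', hb', -, -, p', hp', e'⟩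
  · simp [e, e', adj] at h'
  · exact absurd (by rw [cd_inj (e.trans (cd0 φ).symm), cd_inj (e'.trans (cd1 φ).symm)]) hne
  · simp [e, e', adj, fa, fb] at h' ⊢; omega
  · simp [e, e', adj, fa, fb] at h' ⊢; omega
  · exact absurd (by rw [cd_inj (e.trans (cd1 φ).symm), cd_inj (e'.trans (cd0 φ).symm),
      Sym2.eq_swap]) hne
  all_goals simp [e, e', adj, fa, fb] at h' ⊢ <;> omega

theorem yes {φ : F3} (hM : 2 ≤ φ.length) (h : Sat3 φ) : Short (red φ) := by
  obtain ⟨s, s1, s2⟩ := (sat3_iff_sel φ).1 h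
  have : ∀ i, ∃ v : VV φ, cd v = if i = 0 then (0, 0, 0, 0) else
      if i ≤ φ.length then (2, s (i - 1), 0, 0) else (1, 0, 0, 0) := fun i => by
    refine cd_sur ?_
    split_ifs with c1 c2
    · exact Or.inl rfl
    · have := s1 (i - 1) (by omega)
      exact Or.inr (Or.inr (Or.inl ⟨_, by omega, rfl⟩))
    · exact Or.inr (Or.inl rfl)
  choose f hf using this
  have f0 : f 0 = v0 φ := cd_inj (by simp [hf, cd0])
  have f1 : f (φ.length + 1) = v1 φ := cd_inj (by simp [hf, cd1])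
  have ff : ∀ i ≤ φ.length + 1, fa φ.length (cd (f i)) = i := fun i hi => by
    rw [hf]
    split_ifs with c1 c2
    · simp [fa, c1]
    · have := s1 (i - 1) (by omega)
      simp [fa]; omega
    · simp [fa]; omega
  obtain ⟨p, p1, p2, p3⟩ := mk_walk (G := GG φ) f (φ.length + 1) fun i hi => by
    rw [GG_adj, hf, hf]
    rcases i with _ | i
    · have c := s1 0 (by omega)
      rw [if_pos rfl, if_neg (by omega), if_pos (by omega)]
      simp [adj]; omega
    · have a := s1 i (by omega)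
      rw [if_neg (by omega), if_pos (by omega), if_neg (by omega)]
      split_ifs with b
      · have := s1 (i + 1) (by omega)
        simp [adj]; omega
      · simp [adj]; omega
  have ms : ∀ v, v ∈ p.support ↔ ∃ i ≤ φ.length + 1, f i = v := fun v => by
    simp [p2, Nat.lt_succ_iff]
  have ha : (GG φ).Adj (f (φ.length + 1)) (f 0) := by
    rw [f0, f1]; exact GG_adj.2 (by simp [cd0, cd1, adj])
  have mc : ∀ v, v ∈ (Walk.cons ha p).support ↔ ∃ i ≤ φ.length + 1, f i = v := fun v => by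
    rw [Walk.support_cons, List.mem_cons, ms]
    exact or_iff_right_of_imp fun e => ⟨_, le_rfl, e.symm⟩
  have he : s(v0 φ, v1 φ) ∈ (Walk.cons ha p).edges := by
    rw [Walk.edges_cons]; exact List.mem_cons.2 (Or.inl (by rw [f0, f1, Sym2.eq_swap]))
  show ∃ u v : VV φ, u.val = 0 ∧ v.val = 1 ∧
    ∃ (x : VV φ) (c : (GG φ).Walk x x), c.IsCycle ∧ s(u, v) ∈ c.edges ∧ bridges c = 1 ∧
      c.length ≤ φ.length + 2
  refine ⟨v0 φ, v1 φ, rfl, rfl, _, Walk.cons ha p, (Walk.cons_isCycle_iff _ _).2 ⟨?_, ?_⟩, he,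
    ?_, by simp [p1]⟩
  · rw [Walk.isPath_def, p2]
    refine List.nodup_range.map_on fun i hi j hj e => ?_
    rw [← ff i (by simp at hi; omega), ← ff j (by simp at hj; omega), e]
  · rw [p3]
    rintro ⟨i, hi, e⟩
    have a := ff i (by omega)
    have b := ff (i + 1) (by omega)
    have c := ff 0 (by omega)
    have d := ff _ le_rfl
    rcases Sym2.eq_iff.1 e with ⟨e1, e2⟩ | ⟨e1, e2⟩
    · rw [e1] at d; rw [e2] at c; omega
    · rw [e1] at d; rw [e2] at c; omega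
  · have c1 : {e ∈ (GG φ).edgeSet | e ∉ (Walk.cons ha p).edges ∧
        ∀ v ∈ e, v ∈ (Walk.cons ha p).support} = ∅ := by
      refine Set.eq_empty_of_forall_notMem fun e => ?_
      induction e with
      | h u v =>
        rintro ⟨h1, h2, h3⟩
        obtain ⟨i, hi, rfl⟩ := (mc u).1 (h3 u (by simp))
        obtain ⟨j, hj, rfl⟩ := (mc v).1 (h3 _ (by simp))
        have n1 : s(f i, f j) ≠ s(v0 φ, v1 φ) := fun e => h2 (e ▸ he)
        have a := (lipf _ _ h1 n1).1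
        have b := (lipf _ _ (Adj.symm h1) (by rwa [Sym2.eq_swap])).1
        have c : i ≠ j := by rintro rfl; exact (GG φ).irrefl h1
        rw [ff i hi, ff j hj] at a b
        refine h2 (List.mem_cons_of_mem _ ((p3 _).2 ?_))
        rcases (by omega : j = i + 1 ∨ i = j + 1) with rfl | rfl
        exacts [⟨i, by omega, rfl⟩, ⟨j, by omega, Sym2.eq_swap⟩]
    have k : ∀ v, v ∈ (Walk.cons ha p).support → (cd v).1 ≠ 3 ∧
        ∀ o, cd v = (2, o, 0, 0) → o = s (o / 3) := fun v hv => by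
      obtain ⟨i, hi, rfl⟩ := (mc v).1 hv
      rw [hf]
      split_ifs with c1 c2 <;> simp
      rw [s1 (i - 1) (by omega)]
    have c2 := conn hM (· ∈ (Walk.cons ha p).support) (fun c hc => by
      have := s1 c hc
      obtain ⟨v, hv⟩ := cd_sur (φ := φ) (x := (2, 3 * c + (s c + 1) % 3, 0, 0))
        (by simp [ok]; omega)
      refine ⟨v, ⟨_, by omega, hv⟩, fun h => ?_⟩
      have := (k v h).2 _ hv
      rw [show (3 * c + (s c + 1) % 3) / 3 = c by omega] at this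
      omega) (fun a b h i hi => by
      obtain ⟨v, hv⟩ := cd_sur ((ok3 h).2.2.2.2 (3 * i) (by omega))
      exact ⟨v, ⟨_, by omega, hv⟩, fun h => (k v h).1 (by rw [hv])⟩) (fun a b h => by
      obtain ⟨a1, a2, a3, a4, -⟩ := ok3 h
      obtain ⟨u, hu⟩ := cd_sur (φ := φ) (x := (2, a, 0, 0)) (by simp [ok, a1])
      obtain ⟨v, hv⟩ := cd_sur (φ := φ) (x := (2, b, 0, 0)) (by simp [ok, a2])
      by_cases c : u ∈ (Walk.cons ha p).support
      · refine ⟨v, fun c' => ?_, Or.inr (Or.inr hv)⟩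
        rw [(k u c).2 _ hu, (k v c').2 _ hv, s2 _ (by omega) _ (by omega)] at a4
        exact absurd a4 (by simp)
      · exact ⟨u, c, Or.inr (Or.inl hu)⟩)
    have := c2.preconnected.subsingleton_connectedComponent
    refine (congrArg₂ (· + ·) (congrArg Set.ncard c1) ?_).trans (by simp : _ + 1 = 1)
    exact Nat.card_eq_one_iff_unique.2 ⟨this, ⟨SimpleGraph.connectedComponentMk _
      (Classical.choice c2.nonempty)⟩⟩

theorem no {φ : F3} (hM : 2 ≤ φ.length) (h : Short (red φ)) : Sat3 φ := by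
  obtain ⟨u, v, hu, hv, x, c, c1, c2, c3, c4⟩ : ∃ u v : VV φ, u.val = 0 ∧ v.val = 1 ∧
    ∃ (x : VV φ) (c : (GG φ).Walk x x), c.IsCycle ∧ s(u, v) ∈ c.edges ∧ bridges c = 1 ∧
      c.length ≤ φ.length + 2 := h
  obtain rfl : u = v0 φ := Fin.ext hu
  obtain rfl : v = v1 φ := Fin.ext hv
  obtain ⟨q, q1, q2, q3⟩ := open_cycle c c1 c2
  have la := fun {x y} (q : (GG φ).Walk x y) => lip (f := fun v => fa φ.length (cd v))
    (fun a b h1 h2 => (lipf a b h1 h2).1) q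
  have lb := fun {x y} (q : (GG φ).Walk x y) => lip (f := fun v => fb φ.length (cd v))
    (fun a b h1 h2 => (lipf a b h1 h2).2) q
  have n3 : ∀ w ∈ q.support, (cd w).1 ≠ 3 := by
    intro w hw e
    have a := (la _ fun h => q2 (q.edges_takeUntil_subset_edges hw h)).1
    have b := (lb _ fun h => q2 (q.edges_dropUntil_subset_edges hw h)).2.1
    have d := congrArg Walk.length (q.take_spec hw)
    rw [Walk.length_append] at d
    rcases cd_ok w with e' | e' | ⟨o, -, e'⟩ | ⟨a', ha, b', hb, -, -, p, hp, e'⟩ <;>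
      simp [e', cd0, cd1, fa, fb] at e a b
    omega
  have ex : ∀ i, ∃ o, i < φ.length → o / 3 = i ∧ ∃ w ∈ q.support, cd w = (2, o, 0, 0) := by
    intro i
    by_cases hi : i < φ.length
    · obtain ⟨w, hw, e⟩ := (la q q2).2.2 (i + 1) (by simp [cd0, fa]) (by simp [cd1, fa]; omega)
      have := n3 w hw
      rcases cd_ok w with e' | e' | ⟨o, -, e'⟩ | ⟨a, ha, b, hb, -, -, p, hp, e'⟩ <;>
        simp [e', fa] at e this
      · omega
      · exact ⟨o, fun _ => ⟨e, w, hw, e'⟩⟩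
    · exact ⟨0, fun h => absurd h hi⟩
  choose s hs using ex
  refine (sat3_iff_sel φ).2 ⟨s, fun i hi => (hs i hi).1, fun i hi j hj => ?_⟩
  by_contra hc
  have hij : i ≠ j := by rintro rfl; simp at hc
  obtain ⟨a1, a, a2, a3⟩ := hs i hi
  obtain ⟨b1, b, b2, b3⟩ := hs j hj
  obtain ⟨z, hz⟩ := cd_sur (φ := φ) (x := (3, s i, s j, 0)) (Or.inr (Or.inr (Or.inr
    ⟨_, by omega, _, by omega, by omega, by simpa using hc, 0, by omega, rfl⟩)))
  obtain ⟨y, hy1, o, hy2⟩ : ∃ y, y ∉ q.support ∧ ∃ o, cd y = (2, o, 0, 0) := by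
    by_contra hn
    have := Finset.card_le_card_of_surjOn (s := q.support.toFinset)
      (t := Finset.range (3 * φ.length)) (fun v => (cd v).2.1) fun o ho => by
        obtain ⟨y, hy⟩ := cd_sur (φ := φ) (x := (2, o, 0, 0)) (by simpa [ok] using ho)
        exact ⟨y, by simpa using by_contra fun h => hn ⟨y, h, o, hy⟩, by simp [hy]⟩
    have d := List.toFinset_card_le q.support
    rw [Walk.length_support] at d
    rw [Finset.card_range] at this
    omega
  have sub : Subsingleton ((GG φ).induce {v | v ∉ c.support}).ConnectedComponent :=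
    Finite.card_le_one_iff_subsingleton.1 (by unfold bridges at c3; omega)
  have hz' : z ∉ c.support := fun h => n3 z ((q3 z).1 h) (by rw [hz])
  obtain ⟨w⟩ := ConnectedComponent.exact (G := (GG φ).induce {v | v ∉ c.support})
    (v := ⟨z, hz'⟩) (w := ⟨y, fun h => hy1 ((q3 y).1 h)⟩) (Subsingleton.elim _ _)
  have key : ∀ {x y : {v | v ∉ c.support}} (w : ((GG φ).induce {v | v ∉ c.support}).Walk x y),
      (∃ p, cd x.1 = (3, s i, s j, p)) → ∃ p, cd y.1 = (3, s i, s j, p) := by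
    intro x y w
    induction w with
    | nil => exact id
    | @cons x x' y h r ih =>
      rintro ⟨p, hp⟩
      refine ih ?_
      have h' := (GG_adj.1 (show (GG φ).Adj x.1 x'.1 from h)).2
      have nm : ∀ t ∈ q.support, cd x'.1 ≠ cd t := fun t ht e =>
        x'.2 ((q3 _).2 (cd_inj e ▸ ht))
      have t0 := nm _ q.start_mem_support
      have t1 := nm a a2
      have t2 := nm b b2
      rcases cd_ok x'.1 with e' | e' | ⟨o, -, e'⟩ | ⟨a', ha, b', hb, -, -, p', hp', e'⟩ <;>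
        simp [e', hp, adj, cd0, a3, b3] at h' t0 t1 t2 ⊢ <;> omega
  obtain ⟨p, hp⟩ := key w ⟨0, hz⟩
  simp [hy2] at hp

theorem hard : NPH Valid Short :=
  sat3_odd_nph.reduce red pt_red fun φ hφ =>
    ⟨valid (by omega), yes (by omega), no (by omega)⟩

end Pool.Agent.H36.Nsep
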