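import Pool.Agent.H38.NP.Defs

/-!
Shortest induced nonseparating cycle through an edge.
-/

namespace Pool.Agent.H36.Nsep

open Pool.Agent.H38.NP

variable {V : Type}

/-- `G` is 3-connected. -/
def ThreeConn (G : SimpleGraph V) : Prop :=
  3 < Nat.card V ∧ ∀ S : Finset V, S.card ≤ 2 → (G.induce {v | v ∉ S}).Connected

/-- The number of bridges of the closed walk `c`: chords plus components of `G - V(c)`. -/
noncomputable def bridges {G : SimpleGraph V} {x : V} (c : G.Walk x x) : ℕ :=
  {e ∈ G.edgeSet | e ∉ c.edges ∧ ∀ v ∈ e, v ∈ c.support}.ncard +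
    Nat.card (G.induce {v | v ∉ c.support}).ConnectedComponent

/-- An input: number of vertices, edge list, the two ends of the edge `e`, and a bound. -/
abbrev Inst := ℕ × List (ℕ × ℕ) × ℕ × ℕ × ℕ

/-- The graph is 3-connected and `e` is one of its edges. -/
def Valid (p : Inst) : Prop :=
  ThreeConn (graphOf p.1 p.2.1) ∧
    ∃ u v : Fin p.1, u.val = p.2.2.1 ∧ v.val = p.2.2.2.1 ∧ (graphOf p.1 p.2.1).Adj u v

/-- Some induced nonseparating cycle through `e` has length at most the bound. -/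
def Short (p : Inst) : Prop :=
  ∃ u v : Fin p.1, u.val = p.2.2.1 ∧ v.val = p.2.2.2.1 ∧
    ∃ (x : Fin p.1) (c : (graphOf p.1 p.2.1).Walk x x),
      c.IsCycle ∧ s(u, v) ∈ c.edges ∧ bridges c = 1 ∧ c.length ≤ p.2.2.2.2

end Pool.Agent.H36.Nsep
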