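import Pool.Agent.H36.OPackDefs
import Pool.Agent.H36.Lc

/-!
coNP-hardness of recognising graphs with one size of maximal open packings.
-/

namespace Pool.Agent.H36.OPack

open Pool.Agent.H38.NP Pool.Agent.H36.Gr

section
variable {V : Type} {G : SimpleGraph V}

def Sh (G : SimpleGraph V) (u v : V) : Prop := ∃ w, G.Adj u w ∧ G.Adj v w

theorem op_iff {S : Set V} : OpenPacking G S ↔ ∀ u ∈ S, ∀ v ∈ S, Sh G u v → u = v := by
  refine forall₄_congr fun u _ v _ => ?_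
  rw [Set.eq_empty_iff_forall_notMem, imp_iff_not_or, imp_iff_not_or, or_comm, not_not]
  simp [Sh]

theorem max_dom {S : Set V} (h : Maximal (OpenPacking G) S) (v : V) :
    v ∈ S ∨ ∃ u ∈ S, Sh G v u := by
  by_contra hh
  push Not at hh
  refine hh.1 (h.2 (y := insert v S) (op_iff.2 ?_) (Set.subset_insert _ _) (Set.mem_insert _ _))
  rintro a (rfl | ha) b (rfl | hb) e
  · rfl
  · exact absurd e (hh.2 b hb)
  · exact absurd (let ⟨w, h1, h2⟩ := e; ⟨w, h2, h1⟩) (hh.2 a ha)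
  · exact op_iff.1 h.1 a ha b hb e

end

def inc (φ : F3) (j l : ℕ) : Bool :=
  decide (φ.length ≤ j ∨ lc φ (3 * j) = l ∨ lc φ (3 * j + 1) = l ∨ lc φ (3 * j + 2) = l)

def adj (φ : F3) (u w : ℕ) : Bool :=
  decide ((w % 7 = 3 ∧ u % 7 ≤ 1 ∧ u / 14 = w / 14) ∨ (w % 7 = 4 ∧ u % 7 = 2) ∨
    (w % 7 = 5 ∧ u % 7 = 0 ∧ u / 7 = w / 7) ∨ (w % 7 = 6 ∧ u % 7 = 1 ∧ u / 14 = w / 14) ∨
    (w % 7 = 5 ∧ u % 7 = 2 ∧ inc φ (u / 14) (w / 7) = true))

def red (φ : F3) : ℕ × List (ℕ × ℕ) := (14 * nv φ, edgesOf (14 * nv φ) (adj φ))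

theorem pt_red : PT red :=
  PT.mk (by fun_prop) (PT.edgesOf (by fun_prop) (by unfold adj inc; fun_prop))

abbrev VV (φ : F3) := Fin (14 * nv φ)
abbrev GG (φ : F3) : SimpleGraph (VV φ) := graphOf (14 * nv φ) (edgesOf (14 * nv φ) (adj φ))

theorem GG_adj {φ : F3} {u v : VV φ} : (GG φ).Adj u v ↔ adj φ u v = true ∨ adj φ v u = true := by
  rw [graphOf_edgesOf_adj, and_iff_right_iff_imp]
  rintro h e
  simp only [e, adj, decide_eq_true_eq, or_self] at h
  omega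

def A0 (u w : ℕ) : Prop :=
  (w % 7 = 3 ∧ u % 7 ≤ 1 ∧ u / 14 = w / 14) ∨ (w % 7 = 4 ∧ u % 7 = 2) ∨
    (w % 7 = 5 ∧ u % 7 = 0 ∧ u / 7 = w / 7) ∨ (w % 7 = 6 ∧ u % 7 = 1 ∧ u / 14 = w / 14)

theorem adj_iff {φ : F3} {u w : ℕ} : adj φ u w = true ↔ A0 u w ∨
    (w % 7 = 5 ∧ u % 7 = 2 ∧ inc φ (u / 14) (w / 7) = true) := by
  simp only [adj, A0, decide_eq_true_eq, or_assoc]

theorem i0 {φ : F3} {u w : VV φ} (h : A0 u w) : (GG φ).Adj u w :=
  GG_adj.2 (Or.inl (adj_iff.2 (Or.inl h)))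

theorem i1 {φ : F3} {u w : VV φ} (h1 : w.val % 7 = 5) (h2 : u.val % 7 = 2)
    (h3 : inc φ (u.val / 14) (w.val / 7) = true) : (GG φ).Adj u w :=
  GG_adj.2 (Or.inl (adj_iff.2 (Or.inr ⟨h1, h2, h3⟩)))

theorem e0 {φ : F3} {u w : VV φ} (h : (GG φ).Adj u w) :
    (u.val % 7 ≤ 2 ∧ (A0 u w ∨ w.val % 7 = 5 ∧ u.val % 7 = 2)) ∨
    (w.val % 7 ≤ 2 ∧ (A0 w u ∨ u.val % 7 = 5 ∧ w.val % 7 = 2)) := by
  refine (GG_adj.1 h).imp (fun h => ?_) fun h => ?_ <;> rcases adj_iff.1 h with h | h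
  · exact ⟨by unfold A0 at h; omega, Or.inl h⟩
  · exact ⟨by omega, Or.inr ⟨h.1, h.2.1⟩⟩
  · exact ⟨by unfold A0 at h; omega, Or.inl h⟩
  · exact ⟨by omega, Or.inr ⟨h.1, h.2.1⟩⟩

theorem bip (φ : F3) : (GG φ).IsBipartite :=
  ⟨SimpleGraph.Coloring.mk (fun v => if v.val % 7 ≤ 2 then 0 else 1) fun {u v} h => by
    have := e0 h
    unfold A0 at this
    split_ifs <;> first | omega | simp⟩

def cls (v : ℕ) : ℕ :=
  if v % 7 ≤ 1 then 2 * (v / 14) + 2 else if v % 7 = 2 then 0 else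
    if v % 7 = 3 ∨ v % 7 = 6 then 2 * (v / 14) + 3 else 1

theorem cls_spec (v : ℕ) : (v % 7 ≤ 1 ∧ cls v = 2 * (v / 14) + 2) ∨ (v % 7 = 2 ∧ cls v = 0) ∨
    ((v % 7 = 3 ∨ v % 7 = 6) ∧ cls v = 2 * (v / 14) + 3) ∨
      ((v % 7 = 4 ∨ v % 7 = 5) ∧ cls v = 1) := by
  unfold cls; split_ifs <;> omega

theorem same {φ : F3} {u v : VV φ} (h : cls u = cls v) : Sh (GG φ) u v := by
  have := lt_nv φ
  have hu := u.2
  have k : ∀ l, inc φ ((14 * φ.length + 2) / 14) l = true := by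
    intro l; simp [inc]; omega
  have b := cls_spec v
  rcases cls_spec u with a | a | a | a
  · exact ⟨⟨14 * (u.val / 14) + 3, by omega⟩, i0 (Or.inl (by simp only; omega)),
      i0 (Or.inl (by simp only; omega))⟩
  · exact ⟨⟨4, by omega⟩, i0 (Or.inr (Or.inl ⟨rfl, a.1⟩)),
      i0 (Or.inr (Or.inl ⟨rfl, by omega⟩))⟩
  · exact ⟨⟨14 * (u.val / 14) + 1, by omega⟩, (i0 (by simp only [A0]; omega)).symm,
      (i0 (by simp only [A0]; omega)).symm⟩
  · have : ∀ v : VV φ, v.val % 7 = 4 ∨ v.val % 7 = 5 →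
        (GG φ).Adj v ⟨14 * φ.length + 2, by omega⟩ := by
      rintro v (h | h)
      · exact (i0 (Or.inr (Or.inl ⟨h, by simp only; omega⟩))).symm
      · exact (i1 h (by simp only; omega) (k _)).symm
    exact ⟨_, this u a.1, this v (by omega)⟩

theorem simpl {φ : F3} {u v : VV φ} (hu : u.val % 7 = 1 ∨ u.val % 7 = 4 ∨ u.val % 7 = 6)
    (h : Sh (GG φ) u v) : cls v = cls u := by
  obtain ⟨w, h1, h2⟩ := h
  have h1 := e0 h1
  have h2 := e0 h2
  unfold A0 at h1 h2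
  have a := cls_spec u
  have b := cls_spec v
  rcases hu with hu | hu | hu
  · have c : (w.val % 7 = 3 ∨ w.val % 7 = 6) ∧ u.val / 14 = w.val / 14 := by omega
    have d : v.val % 7 ≤ 1 ∧ v.val / 14 = w.val / 14 := by clear h1 a b; omega
    clear h1 h2; omega
  · have c : w.val % 7 = 2 := by omega
    have d : v.val % 7 = 4 ∨ v.val % 7 = 5 := by clear h1 a b; omega
    clear h1 h2; omega
  · have c : w.val % 7 = 1 ∧ u.val / 14 = w.val / 14 := by omega
    have d : (v.val % 7 = 3 ∨ v.val % 7 = 6) ∧ v.val / 14 = w.val / 14 := by clear h1 a b; omega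
    clear h1 h2; omega

theorem hit {φ : F3} {S : Set (VV φ)} (h : Maximal (OpenPacking (GG φ)) S) (v : VV φ)
    (hv : cls v ≠ 0) : ∃ u ∈ S, cls u = cls v := by
  have hv2 := v.2
  obtain ⟨z, h0, h1, h2⟩ : ∃ z < 14 * nv φ, (z % 7 = 1 ∨ z % 7 = 4 ∨ z % 7 = 6) ∧
      cls z = cls v := by
    rcases cls_spec v with a | a | a | a
    · exact ⟨14 * (v.val / 14) + 1, by omega, by omega, by
        have := cls_spec (14 * (v.val / 14) + 1); omega⟩
    · exact absurd a.2 hv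
    · exact ⟨14 * (v.val / 14) + 6, by omega, by omega, by
        have := cls_spec (14 * (v.val / 14) + 6); omega⟩
    · exact ⟨4, by omega, by omega, a.2.symm⟩
  rcases max_dom h ⟨z, h0⟩ with hz | ⟨u, hu, e⟩
  · exact ⟨_, hz, h2⟩
  · exact ⟨u, hu, (simpl h1 e).trans h2⟩

theorem card_eq {φ : F3} {S : Set (VV φ)} (h : Maximal (OpenPacking (GG φ)) S) :
    S.ncard = ((fun v : VV φ => cls v) '' S).ncard :=
  (Set.InjOn.ncard_image fun u hu v hv e => op_iff.1 h.1 u hu v hv (same e)).symm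

theorem cls0 {v : ℕ} : cls v = 0 ↔ v % 7 = 2 := by have := cls_spec v; omega

theorem yes {φ : F3} (h : Sat3 φ) : ¬ OneSize (GG φ) := by
  intro H
  have := lt_nv φ
  obtain ⟨a, a1, a2⟩ := (sat3_iff_lc' φ).1 h
  obtain ⟨T, t1, t2⟩ := Finite.exists_le_maximal (p := OpenPacking (GG φ))
    (a := {⟨2, by omega⟩}) (op_iff.2 (by simp))
  obtain ⟨S, s1, s2⟩ := Finite.exists_le_maximal (p := OpenPacking (GG φ))
    (a := {v | v.val % 7 = 0 ∧ a (v.val / 14) = v.val / 7}) (op_iff.2 (by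
      rintro u ⟨u1, u2⟩ v ⟨v1, v2⟩ ⟨w, h1, h2⟩
      have h1 := e0 h1
      have h2 := e0 h2
      unfold A0 at h1 h2
      have c : (w.val % 7 = 3 ∨ w.val % 7 = 5) ∧ u.val / 14 = w.val / 14 := by omega
      have : u.val / 14 = v.val / 14 := by clear h1; omega
      rw [this] at u2
      exact Fin.ext (by omega)))
  have n0 : ∀ v ∈ S, cls v.val ≠ 0 := by
    intro v hv e
    rw [cls0] at e
    obtain ⟨l, l1, l2, l3⟩ : ∃ l < 2 * nv φ, a (l / 2) = l ∧ inc φ (v.val / 14) l = true := by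
      by_cases c : v.val / 14 < φ.length
      · obtain ⟨j, hj, e⟩ := a2 _ c
        refine ⟨_, lc_lt (by omega), e, ?_⟩
        simp only [inc, decide_eq_true_eq]
        interval_cases j <;> simp
      · have := a1 0
        exact ⟨a 0, by omega, by rw [this], by simp [inc]; omega⟩
    have := op_iff.1 s2.1 v hv ⟨7 * l, by omega⟩ (s1 ⟨by simp, by
      simp only; rw [show 7 * l / 14 = l / 2 by omega, l2]; omega⟩)
      ⟨⟨7 * l + 5, by omega⟩, i1 (by simp only; omega) e (by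
        simp only [show (7 * l + 5) / 7 = l by omega, l3]), i0 (by simp only [A0]; omega)⟩
    simp only [this] at e
    omega
  have e := H S T s2 t2
  rw [card_eq s2, card_eq t2] at e
  refine absurd e (Set.ncard_lt_ncard ⟨?_, fun hh => ?_⟩ (Set.toFinite _)).ne
  · rintro _ ⟨v, hv, rfl⟩
    exact hit t2 v (n0 v hv)
  · obtain ⟨v, hv, e⟩ := hh ⟨_, t1 rfl, rfl⟩
    exact n0 v hv e

theorem no {φ : F3} (h : ¬ OneSize (GG φ)) : Sat3 φ := by
  by_contra hs
  refine h fun S T s t => ?_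
  have := lt_nv φ
  have k : ∀ S, Maximal (OpenPacking (GG φ)) S →
      (fun v : VV φ => cls v) '' S = Set.range fun v : VV φ => cls v := by
    intro S s
    refine Set.Subset.antisymm (Set.image_subset_range _ _) ?_
    rintro _ ⟨v, rfl⟩
    by_cases c : cls v = 0
    · by_contra hn
      have n0 : ∀ u ∈ S, u.val % 7 ≠ 2 := fun u hu e => hn ⟨u, hu, (cls0.2 e).trans c.symm⟩
      refine hs ((sat3_iff_lc φ).2 ⟨fun l => ∃ u ∈ S, u.val = 7 * l, ?_, fun j hj => ?_⟩)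
      · rintro l l' ⟨u, hu, e⟩ ⟨u', hu', e'⟩ e2
        have := op_iff.1 s.1 u hu u' hu' (same (by
          have := cls_spec u; have := cls_spec u'; omega))
        rw [this] at e; omega
      · rcases max_dom s ⟨14 * j + 2, by omega⟩ with hz | ⟨u, hu, w, h1, h2⟩
        · exact absurd (by simp only; omega) (n0 _ hz)
        · have := n0 u hu
          have h2 := e0 h2
          simp only [GG_adj, adj_iff, decide_eq_true_eq, inc, A0,
            show (14 * j + 2) / 14 = j by omega] at h1 h2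
          have c : w.val % 7 = 4 ∨ w.val % 7 = 5 := by omega
          have d : w.val % 7 = 5 ∧ u.val = 7 * (w.val / 7) := by clear h1; omega
          clear h2
          have : u.val = 7 * lc φ (3 * j + 0) ∨ u.val = 7 * lc φ (3 * j + 1) ∨
              u.val = 7 * lc φ (3 * j + 2) := by
            rw [Nat.add_zero]; omega
          rcases this with e | e | e <;> exact ⟨_, by omega, u, hu, e⟩
    · exact hit s v c
  rw [card_eq s, card_eq t, k S s, k T t]

theorem hard : NPH (fun p : ℕ × List (ℕ × ℕ) => (graphOf p.1 p.2).IsBipartite)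
    fun p => ¬ OneSize (graphOf p.1 p.2) :=
  sat3_nph.reduce red pt_red fun φ _ => ⟨bip φ, yes, no⟩

end Pool.Agent.H36.OPack
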