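import Pool.Agent.H38.NP.Defs

/-!
Graphs whose maximal open packings all have the same size.
-/

namespace Pool.Agent.H36.OPack

open Pool.Agent.H38.NP

variable {V : Type}

/-- No two distinct vertices of `S` have a common neighbour. -/
def OpenPacking (G : SimpleGraph V) (S : Set V) : Prop :=
  ∀ u ∈ S, ∀ v ∈ S, u ≠ v → G.neighborSet u ∩ G.neighborSet v = ∅

/-- All maximal open packings have the same cardinality. -/
def OneSize (G : SimpleGraph V) : Prop :=
  ∀ S T : Set V, Maximal (OpenPacking G) S → Maximal (OpenPacking G) T → S.ncard = T.ncard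

end Pool.Agent.H36.OPack
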