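import Pool.Agent.H38.NP.Defs

/-!
Skew-supermodular colouring with two prescribed class sizes: definitions.
-/

namespace Pool.Agent.H36.SkewDefs

open Finset Pool.Agent.H38.NP

/-- A finite set of numbers is written as the increasing list of its elements. -/
instance encFinset : Enc (Finset ℕ) := ⟨fun W => enc (W.sort (· ≤ ·))⟩

/-- `p` is skew-supermodular on the subsets of `S`. -/
def SkewOn (S : Finset ℕ) (p : Finset ℕ → ℤ) : Prop :=
  ∀ X ⊆ S, ∀ Y ⊆ S, p X + p Y ≤ p (X ∩ Y) + p (X ∪ Y) ∨ p X + p Y ≤ p (X \ Y) + p (Y \ X)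

/-- The written part `(n, m₁, m₂, n₁, n₂)` of an input; the ground set is `{0, …, n - 1}`. -/
abbrev Inst := ℕ × ℕ × ℕ × ℕ × ℕ

/-- The conditions on an input, where `p false` and `p true` are the two set functions. -/
def Valid (a : Inst) (p : Bool → Finset ℕ → ℤ) : Prop :=
  match a with
  | (n, m₁, m₂, n₁, n₂) =>
    0 < m₁ ∧ 0 < m₂ ∧ 0 < n₁ ∧ 0 < n₂ ∧ m₁ * n₁ + m₂ * n₂ = n ∧
      SkewOn (range n) (p false) ∧ SkewOn (range n) (p true) ∧
      ∀ X ⊆ range n, max (p false X) (p true X) ≤ min (#X : ℤ) (m₁ + m₂)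

/-- A feasible partition exists. Element `i` lies in class number `c i < m₁ + m₂`; the first `m₁`
classes have `n₁` elements, the other `m₂` classes have `n₂` elements, and every `X` meets at
least `max (p false X) (p true X)` classes. -/
def Feasible (a : Inst) (p : Bool → Finset ℕ → ℤ) : Prop :=
  match a with
  | (n, m₁, m₂, n₁, n₂) =>
    ∃ c : ℕ → ℕ, (∀ i < n, c i < m₁ + m₂) ∧
      (∀ j < m₁ + m₂, #((range n).filter fun i => c i = j) = if j < m₁ then n₁ else n₂) ∧
      ∀ X ⊆ range n, max (p false X) (p true X) ≤ #(X.image c)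

/-- The covering test for `p` on the ground set `{0, …, n - 1}`: the maximum of
`p X - |X ∩ W|` over all `X` is at most `m`. -/
def Covers (n : ℕ) (p : Finset ℕ → ℤ) (W : Finset ℕ) (m : ℕ) : Prop :=
  ∀ X ⊆ range n, p X - #(X ∩ W) ≤ m

/-- Oracle polynomial time. An input has a written part `a` and a part `w` that is seen only
through the yes/no answers `A a w x` to queries `x`. The polynomial-time machine `q` computes the
next query from `a` and the string of the earlier answers; after polynomially many rounds the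
polynomial-time machine `r` decides `P a w` from `a` and all answers, for all inputs in `C`. -/
def OracleP {α ω κ : Type} [Enc α] [Enc κ] (C P : α → ω → Prop) (A : α → ω → κ → Prop) : Prop :=
  ∃ q r, PolyTime q ∧ PolyTime r ∧ ∃ t : Polynomial ℕ, ∀ a w, C a w → ∃ s : List Bool,
    s.length = t.eval (enc a).length ∧
    (∀ k (hk : k < s.length), ∃ x : κ, q (pair (enc a) (s.take k)) = enc x ∧
      (s[k] = true ↔ A a w x)) ∧
    (P a w ↔ r (pair (enc a) s) = [true])

end Pool.Agent.H36.SkewDefs
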