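import Pool.Agent.H38.NP.Api
import Pool.Agent.H36.SkewDefs

/-!
From a function of an oracle, with the list of its queries, to an oracle machine.
-/

namespace Pool.Agent.H36.Orc

open Pool.Agent.H38.NP Function SkewDefs

variable {α β γ κ ω : Type}

def Det (f : (κ → Bool) → β) (Q : (κ → Bool) → List κ) : Prop :=
  ∀ o o' (K : κ → Bool), (∀ x, K x → o x = o' x) →
    (∀ x, (Q o').find? (!K ·) = some x → x ∈ Q o) ∧
      ((∀ x ∈ Q o', K x) → f o = f o' ∧ Q o = Q o')

theorem Det.base {f : (κ → Bool) → β} {l : List κ}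
    (h : ∀ o o', (∀ x ∈ l, o x = o' x) → f o = f o') : Det f fun _ => l :=
  fun o o' _ hK => ⟨fun _ => List.mem_of_find?_eq_some,
    fun k => ⟨h o o' fun x hx => hK x (k x hx), rfl⟩⟩

theorem Det.bind {f : (κ → Bool) → β} {Q} (h : Det f Q) {g : β → (κ → Bool) → γ}
    {R : β → (κ → Bool) → List κ}
    (k : ∀ o, Det (g (f o)) (R (f o))) : Det (fun o => g (f o) o) fun o => Q o ++ R (f o) o := by
  intro o o' K hK
  obtain ⟨a, b⟩ := h o o' K hK
  obtain ⟨c, d⟩ := k o' o o' K hK
  refine ⟨fun x hx => ?_, fun e => ?_⟩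
  · rw [List.find?_append] at hx
    cases e : (Q o').find? (!K ·) with
    | some y =>
      rw [e] at hx
      cases hx
      exact List.mem_append_left _ (a _ e)
    | none =>
      rw [e] at hx
      dsimp only
      rw [(b (by simpa using e)).1]
      exact List.mem_append_right _ (c x hx)
  · obtain ⟨e1, e2⟩ := b fun x hx => e x (List.mem_append_left _ hx)
    obtain ⟨e3, e4⟩ := d fun x hx => e x (List.mem_append_right _ hx)
    simp only [e1, e2, e3, e4, and_self]

theorem Det.map {f : (κ → Bool) → β} {Q} (h : Det f Q) (g : β → γ) : Det (fun o => g (f o)) Q :=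
  fun o o' K hK => ⟨(h o o' K hK).1, fun e => ⟨congrArg g ((h o o' K hK).2 e).1,
    ((h o o' K hK).2 e).2⟩⟩

theorem Det.iter {st : (κ → Bool) → β → β} {l : β → List κ}
    (h : ∀ s o o', (∀ x ∈ l s, o x = o' x) → st o s = st o' s) (s : β) (n : ℕ) :
    Det (fun o => (st o)^[n] s) fun o => (List.range n).flatMap fun i => l ((st o)^[i] s) := by
  induction n with
  | zero => exact Det.base fun _ _ _ => rfl
  | succ n ih =>
    simpa only [iterate_succ_apply', List.range_succ, List.flatMap_append, List.flatMap_singleton]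
      using ih.bind (g := fun s o => st o s) (R := fun s _ => l s) fun o => Det.base (h _)

variable [DecidableEq κ]

def look (T : List (κ × Bool)) (x : κ) : Bool := decide ((x, true) ∈ T)

def key (T : List (κ × Bool)) (x : κ) : Bool := decide ((x, true) ∈ T) || decide ((x, false) ∈ T)

def nq (Q : (κ → Bool) → List κ) (d : κ) (T : List (κ × Bool)) : κ :=
  ((Q (look T)).find? (!key T ·)).getD d

def tab (Q : (κ → Bool) → List κ) (d : κ) (s : List Bool) : List (κ × Bool) :=
  s.foldl (fun T b => (nq Q d T, b) :: T) []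

def ts (Q : (κ → Bool) → List κ) (d : κ) (o : κ → Bool) : ℕ → List (κ × Bool)
  | 0 => []
  | k + 1 => (nq Q d (ts Q d o k), o (nq Q d (ts Q d o k))) :: ts Q d o k

variable {Q : (κ → Bool) → List κ} {d : κ} {o : κ → Bool}

theorem tab_ts (k) : tab Q d ((List.range k).map fun i => o (nq Q d (ts Q d o i))) = ts Q d o k := by
  induction k with
  | zero => rfl
  | succ k ih =>
    rw [tab] at *
    rw [List.range_succ, List.map_append, List.foldl_append, ih]
    rfl

theorem ts_ok (k) : ∀ z ∈ ts Q d o k, o z.1 = z.2 := by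
  induction k with
  | zero => simp [ts]
  | succ k ih => exact List.forall_mem_cons.2 ⟨rfl, ih⟩

theorem ts_look (k) (x) (h : key (ts Q d o k) x) : o x = look (ts Q d o k) x := by
  simp only [key, look, Bool.or_eq_true, decide_eq_true_eq] at *
  by_cases c : (x, true) ∈ ts Q d o k
  · simpa [c] using ts_ok k _ c
  · simpa [c] using ts_ok k _ (h.resolve_left c)

theorem ts_card {f : (κ → Bool) → β} (h : Det f Q) (k) :
    ((Q o).toFinset.filter fun x => !key (ts Q d o k) x).card ≤ (Q o).length - k := by
  induction k with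
  | zero => exact (Finset.card_filter_le _ _).trans (List.toFinset_card_le _)
  | succ k ih =>
    obtain ⟨a, b⟩ := h o _ _ (ts_look (Q := Q) (d := d) k)
    have m : ∀ x, key (ts Q d o k) x → key (ts Q d o (k + 1)) x := fun x => by
      simp only [key, ts, Bool.or_eq_true, decide_eq_true_eq]
      exact Or.imp (List.mem_cons_of_mem _) (List.mem_cons_of_mem _)
    cases e : (Q (look (ts Q d o k))).find? (!key (ts Q d o k) ·) with
    | none =>
      have e' : ∀ x ∈ Q (look (ts Q d o k)), key (ts Q d o k) x := by simpa using e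
      rw [Finset.filter_false_of_mem fun x hx => by
        simpa using m x (e' x ((b e').2 ▸ List.mem_toFinset.1 hx))]
      simp
    | some y =>
      have e1 : key (ts Q d o (k + 1)) y := by
        rw [ts, nq, e, Option.getD_some, key]
        cases o y <;> simp
      have e2 := List.find?_some e
      have := Finset.card_lt_card (s := (Q o).toFinset.filter fun x => !key (ts Q d o (k + 1)) x)
        (t := (Q o).toFinset.filter fun x => !key (ts Q d o k) x)
        ⟨by grind, fun c => by
          simpa [e1] using c (Finset.mem_filter.2 ⟨List.mem_toFinset.2 (a y e), e2⟩)⟩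
      omega

theorem ts_end {f : (κ → Bool) → β} (h : Det f Q) {k} (hk : (Q o).length ≤ k) :
    f (look (ts Q d o k)) = f o := by
  have := ts_card (d := d) (o := o) h k
  rw [Nat.sub_eq_zero_of_le hk, Nat.le_zero, Finset.card_eq_zero, Finset.filter_eq_empty_iff] at this
  exact ((h _ o _ fun x hx => (ts_look k x hx).symm).2 fun x hx => by
    simpa using this (List.mem_toFinset.2 hx)).1

theorem oracleP [Enc α] [Dec α] [Enc κ] [EncInj κ] {C P : α → ω → Prop} {A : α → ω → κ → Prop}
    (d : κ) (f : α → (κ → Bool) → Bool) (Q : α → (κ → Bool) → List κ) (h : ∀ a, Det (f a) (Q a))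
    (hf : PT fun z : α × List (κ × Bool) => f z.1 (look z.2))
    (hQ : PT fun z : α × List (κ × Bool) => Q z.1 (look z.2))
    {L B : α → ℕ} (hL : PT L) (hB : PT B) (eL : ∀ a o, (Q a o).length ≤ L a)
    (eB : ∀ a o, ∀ x ∈ Q a o, sz x ≤ B a)
    (e : ∀ a w o, C a w → (∀ x, o x ↔ A a w x) → (P a w ↔ f a o)) : OracleP C P A := by
  classical
  have h1 : PT fun z : α × List (κ × Bool) => nq (Q z.1) d z.2 := by
    unfold nq key
    exact PT.getD_opt (PT.find? (by fun_prop) hQ) (PT.const _)
  have h2 : PT fun z : α × Bits => tab (Q z.1) d z.2.val := by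
    refine PT.foldl (f := fun (z : α × Bits) T b => (nq (Q z.1) d T, b) :: T)
      (PT.cons (PT.mk (h1.comp (g := fun z : (α × Bits) × List (κ × Bool) × Bool => (z.1.1, z.2.1))
        (by fun_prop)) (by fun_prop)) (by fun_prop)) (by fun_prop) (PT.const _)
      (B := fun z => z.2.val.length * (2 * (2 * (B z.1 + sz d) + 2) + 1))
      (PT.nat_pb (by fun_prop)) fun z k => ?_
    have : ∀ (s : List Bool) (T : List (κ × Bool)),
        sz (s.foldl (fun T b => (nq (Q z.1) d T, b) :: T) T) ≤
          sz T + s.length * (2 * (2 * (B z.1 + sz d) + 2) + 1) := fun s => by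
      induction s with
      | nil => simp
      | cons b s ih =>
        intro T
        have : sz (nq (Q z.1) d T) ≤ B z.1 + sz d := by
          unfold nq
          cases c : (Q z.1 (look T)).find? (!key T ·) with
          | none => simp
          | some y => exact (eB _ _ y (List.mem_of_find?_eq_some c)).trans (Nat.le_add_right _ _)
        refine (ih _).trans ?_
        rw [sz_cons, sz_prod, List.length_cons, add_one_mul, sz_bool]
        dsimp only
        omega
    exact (this _ _).trans (by simp [Nat.mul_le_mul_right])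
  obtain ⟨q, q1, q2⟩ := (h1.comp (g := fun z : α × Bits => (z.1, tab (Q z.1) d z.2.val))
    (PT.id'.fst.mk h2)).polyTimeOn fun _ => True
  obtain ⟨r, r1, r2⟩ := (hf.comp (g := fun z : α × Bits => (z.1, tab (Q z.1) d z.2.val))
    (PT.id'.fst.mk h2)).polyTimeOn fun _ => True
  obtain ⟨t, ht⟩ := hL.nat_pb
  refine ⟨q, r, q1, r1, t, fun a w hC => ?_⟩
  let o : κ → Bool := fun x => decide (A a w x)
  refine ⟨(List.range (t.eval (sz a))).map fun i => o (nq (Q a) d (ts (Q a) d o i)), by simp [sz],
    fun k hk => ⟨nq (Q a) d (ts (Q a) d o k), ?_, by simp [o]⟩, ?_⟩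
  · rw [List.length_map, List.length_range] at hk
    rw [← List.map_take, List.take_range, min_eq_left hk.le]
    exact (q2 (a, ⟨_⟩) trivial).trans (by dsimp only; rw [tab_ts])
  · rw [e a w o hC (by simp [o]), ← ts_end (d := d) (h a) ((eL a o).trans (ht a))]
    have := r2 (a, ⟨(List.range (t.eval (sz a))).map fun i => o (nq (Q a) d (ts (Q a) d o i))⟩) trivial
    dsimp only at this
    rw [tab_ts, enc_prod, enc_bits] at this
    rw [this]
    simp

end Pool.Agent.H36.Orc
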