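import Pool.Agent.H36.Sim

/-!
Search-to-decision: if P = NP then witnesses can be found in polynomial time.
-/

namespace Pool.Agent.H36.Sim

open Pool.Agent.H38.NP Function

variable {α : Type} [Enc α]

theorem pt_of_inP {P : α → Prop} [EncInj α] (h : InP (lang P)) :
    ∃ d : α → Bool, PT d ∧ ∀ a, P a ↔ d a = true := by
  obtain ⟨f, hf, e⟩ := h
  refine ⟨fun a => decide (f (enc a) = [true]), ?_, fun a => by simp [← e, enc_mem_lang]⟩
  have h1 : PT fun a : α => (⟨f (enc a)⟩ : Bits) := (pt_of_polyTime hf).comp PT.id'.raw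
  exact PT.eq h1.bval (PT.const _)

theorem search_of_collapse [Dec α] (V : α → List ℕ → Bool) (hV : PT fun p : α × List ℕ => V p.1 p.2)
    (N : α → ℕ) (hN : PT N) (hb : ∀ a l, V a l = true → l.length = N a ∧ ∀ x ∈ l, x < N a)
    (h : ∀ A, InNP A → InP A) :
    ∃ F, PolyTime F ∧ ∀ a, (∃ l, V a l = true) → ∃ l : List ℕ, F (enc a) = enc l ∧ V a l = true := by
  have h1 : InNP (lang fun p : α × List ℕ => ∃ r, V p.1 (p.2 ++ r) = true) := by
    refine inNP_lang (fun p r => V p.1 (p.2 ++ r))
      (hV.comp (g := fun q : (α × List ℕ) × List ℕ => (q.1.1, q.1.2 ++ q.2)) (by fun_prop))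
      (B := fun p => N p.1 * (2 * N p.1 + 1))
      (PT.nat_pb (by fun_prop)) (fun p ⟨r, hr⟩ => ⟨r, ?_, hr⟩) fun p r e => ⟨r, e⟩
    obtain ⟨a1, a2⟩ := hb _ _ hr
    refine (sz_le_of_forall (B := N p.1) fun x hx => ?_).trans (Nat.mul_le_mul_right _ ?_)
    · simpa using (a2 x (by simp [hx])).le
    · simp only [List.length_append] at a1; omega
  obtain ⟨d, hd, e⟩ := pt_of_inP (h _ h1)
  let st : α → List ℕ → List ℕ := fun a l =>
    l ++ [((List.range (N a)).find? fun x => d (a, l ++ [x])).getD 0]
  have hs : PT fun p : α × List ℕ => st p.1 p.2 := by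
    unfold st
    refine PT.append (by fun_prop) (PT.cons (PT.getD_opt (PT.find? ?_ (by fun_prop)) (PT.const _))
      (PT.const _))
    exact hd.comp (g := fun q : (α × List ℕ) × ℕ => (q.1.1, q.1.2 ++ [q.2])) (by fun_prop)
  have hl : ∀ a i, ((st a)^[i] []).length = i ∧ ∀ x ∈ (st a)^[i] [], x ≤ N a := by
    intro a i
    induction i with
    | zero => simp
    | succ i ih =>
      rw [iterate_succ_apply']
      refine ⟨by simp [st, ih.1], fun x hx => ?_⟩
      simp only [st, List.mem_append, List.mem_singleton] at hx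
      rcases hx with hx | rfl
      · exact ih.2 x hx
      · cases e : (List.range (N a)).find? fun x => d (a, (st a)^[i] [] ++ [x]) with
        | none => simp
        | some y => simpa using (List.mem_range.1 (List.mem_of_find?_eq_some e)).le
  have hI := PT.iterate hs hN (PT.const ([] : List ℕ)) (B := fun a => N a * (2 * N a + 1))
    (PT.nat_pb (by fun_prop)) fun a i hi =>
      (sz_le_of_forall (B := N a) fun x hx => by simpa using (hl a i).2 x hx).trans
        (Nat.mul_le_mul_right _ (by rw [(hl a i).1]; exact hi))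
  obtain ⟨F, hF, eF⟩ := hI.polyTimeOn fun _ => True
  refine ⟨F, hF, fun a ⟨l, hv⟩ => ⟨_, eF a trivial, ?_⟩⟩
  have key : ∀ i ≤ N a, ∃ r, V a ((st a)^[i] [] ++ r) = true := by
    intro i hi
    induction i with
    | zero => exact ⟨l, hv⟩
    | succ i ih =>
      obtain ⟨r, hr⟩ := ih (by omega)
      obtain ⟨a1, a2⟩ := hb _ _ hr
      rw [List.length_append, (hl a i).1] at a1
      obtain _ | ⟨y, r⟩ := r
      · simp at a1; omega
      rw [iterate_succ_apply']
      cases c : (List.range (N a)).find? fun x => d (a, (st a)^[i] [] ++ [x]) with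
      | none =>
        have := List.find?_eq_none.1 c y (List.mem_range.2 (a2 y (by simp)))
        exact absurd ((e (a, _)).1 ⟨r, by simpa using hr⟩) this
      | some z =>
        have c' := List.find?_some c
        have := (e (a, _)).2 c'
        simpa only [st, c, Option.getD_some] using this
  obtain ⟨r, hr⟩ := key _ le_rfl
  have := (hb _ _ hr).1
  rw [List.length_append, (hl a _).1] at this
  obtain rfl : r = [] := List.length_eq_zero_iff.1 (by omega)
  simpa using hr

end Pool.Agent.H36.Sim
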