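import Pool.Agent.H36.OrdDefs
import Pool.Agent.H36.Gr
import Pool.Agent.H36.Sim2

namespace Pool.Agent.H36.Ord

open Pool.Agent.H38.NP Pool.Agent.H36.Gr

theorem IsA.isB {n} {G : SimpleGraph (Fin n)} {l} (h : IsA G l) : IsB G l :=
  ⟨h.1, fun v => Or.inl (h.2 v)⟩

/-! ### verifier -/

def cnt (n : ℕ) (E : List (ℕ × ℕ)) (v : ℕ) (f : ℕ → Bool) : ℕ :=
  (List.range n).countP fun u => (decide (v ≠ u) && (E.contains (v, u) || E.contains (u, v))) && f u

theorem ncard_cnt {n E} (v : Fin n) (p : ℕ → Prop) [DecidablePred p] :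
    {u : Fin n | (graphOf n E).Adj v u ∧ p u.val}.ncard = cnt n E v fun u => decide (p u) := by
  rw [← Set.ncard_image_of_injective _ Fin.val_injective, cnt, List.countP_eq_length_filter,
    ← List.toFinset_card_of_nodup (List.nodup_range.filter _), ← Set.ncard_coe_finset]
  congr 1
  ext u
  simp only [graphOf_adj, Set.mem_image, Set.mem_ofPred_eq, List.coe_toFinset, List.mem_filter,
    List.mem_range, Bool.and_eq_true, decide_eq_true_eq, Bool.or_eq_true, List.contains_iff_mem]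
  constructor
  · rintro ⟨u, h, rfl⟩
    exact ⟨u.2, by simpa [Fin.ext_iff] using h⟩
  · rintro ⟨h, h'⟩
    exact ⟨⟨u, h⟩, by simpa [Fin.ext_iff] using h', rfl⟩

def ver (b : Bool) (p : ℕ × List (ℕ × ℕ)) (l : List ℕ) : Bool :=
  (decide (l.length = p.1) && (List.range p.1).all fun i => l.contains i) &&
  (List.range p.1).all fun v =>
    (decide (cnt p.1 p.2 v (fun u => decide (l.idxOf u < l.idxOf v)) % 2 = 1) ||
     decide (cnt p.1 p.2 v (fun u => decide (l.idxOf u < l.idxOf v)) = 0)) ||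
    (b && decide (cnt p.1 p.2 v (fun u => decide (l.idxOf v < l.idxOf u)) = 0))

theorem pt_ver (b) : PT fun q : (ℕ × List (ℕ × ℕ)) × List ℕ => ver b q.1 q.2 := by
  unfold ver cnt; fun_prop

theorem perm_iff {n} {l : List ℕ} :
    l.Perm (List.range n) ↔ l.length = n ∧ ∀ i < n, i ∈ l := by
  refine ⟨fun h => ⟨by simpa using h.length_eq, fun i hi => h.symm.subset (by simpa)⟩, fun h => ?_⟩
  exact ((List.nodup_range.subperm fun i hi => h.2 i (by simpa using hi)).perm_of_length_le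
    (by simp [h.1])).symm

theorem verA (p l) : ver false p l = true ↔ IsA (graphOf p.1 p.2) l := by
  simp only [ver, IsA, perm_iff, dIn, Nat.odd_iff]
  simp only [fun v : Fin p.1 => ncard_cnt (E := p.2) v (fun u => l.idxOf u < l.idxOf v.val)]
  simp [Fin.forall_iff]

theorem verB (p l) : ver true p l = true ↔ IsB (graphOf p.1 p.2) l := by
  simp only [ver, IsB, perm_iff, dIn, dOut, Nat.odd_iff, Nat.even_iff]
  simp only [fun v : Fin p.1 => ncard_cnt (E := p.2) v (fun u => l.idxOf u < l.idxOf v.val),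
    fun v : Fin p.1 => ncard_cnt (E := p.2) v (fun u => l.idxOf v.val < l.idxOf u)]
  simp only [Fin.forall_iff, Bool.and_eq_true, decide_eq_true_eq, List.all_eq_true, List.mem_range,
    List.contains_iff_mem, Bool.or_eq_true, true_and]
  exact and_congr_right fun _ => forall₂_congr fun _ _ => by omega

theorem inNP_of (b) {P : ℕ × List (ℕ × ℕ) → List ℕ → Prop} (h : ∀ p l, ver b p l = true ↔ P p l) :
    InNP (lang fun p => ∃ l, P p l) := by
  refine inNP_lang (ver b) (pt_ver b) (B := fun p => sz (List.range p.1))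
    (PT.pb (by fun_prop)) (fun p ⟨l, hl⟩ => ⟨l, ?_, (h p l).2 hl⟩) fun p l e => ⟨l, (h p l).1 e⟩
  have hp : l.Perm (List.range p.1) := by
    have := (h p l).2 hl
    simp only [ver, Bool.and_eq_true, decide_eq_true_eq, List.all_eq_true, List.mem_range,
      List.contains_iff_mem] at this
    exact perm_iff.2 this.1
  generalize List.range p.1 = r at hp
  clear hl
  induction hp with
  | nil => rfl
  | cons a _ ih => simp only [sz_cons]; omega
  | swap a b l => simp only [sz_cons]; omega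
  | trans _ _ h1 h2 => omega

/-! ### orders on codes -/

section
variable {C : Type} [Inhabited C] {vs : List C} {adj : C → C → Bool}

noncomputable def din (vs : List C) (adj : C → C → Bool) (ρ : C → ℕ) (c : C) : ℕ :=
  {d | (d ∈ vs ∧ (GC adj).Adj c d) ∧ ρ d < ρ c}.ncard

theorem din_code (nd : vs.Nodup) (ρ : C → ℕ) (v : Fin vs.length) :
    {u | (RG vs adj).Adj v u ∧ ρ (code vs u) < ρ (code vs v)}.ncard = din vs adj ρ (code vs v) := by
  rw [← Set.ncard_image_of_injective _ (code_inj nd), din]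
  congr 1
  ext d
  constructor
  · rintro ⟨u, h, rfl⟩
    exact ⟨⟨code_mem _ _, (RG_adj nd).1 h.1⟩, h.2⟩
  · rintro ⟨⟨h1, h2⟩, h3⟩
    obtain ⟨u, rfl⟩ := code_surj h1
    exact ⟨u, ⟨(RG_adj nd).2 h2, h3⟩, rfl⟩

theorem isA_of (nd : vs.Nodup) (ρ : C → ℕ)
    (h1 : ∀ c ∈ vs, ∀ d ∈ vs, (GC adj).Adj c d → ρ c ≠ ρ d)
    (h2 : ∀ c ∈ vs, din vs adj ρ c % 2 = 1 ∨ din vs adj ρ c = 0) : ∃ l, IsA (RG vs adj) l := by
  let τ : ℕ → ℕ := fun i => ρ (vs.getD i default)
  let l := (List.range vs.length).mergeSort fun a b => decide (τ a ≤ τ b)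
  have hp : l.Perm (List.range vs.length) := List.mergeSort_perm _ _
  have hs : l.Pairwise fun a b => decide (τ a ≤ τ b) = true :=
    List.pairwise_mergeSort (fun a b c => by simp only [decide_eq_true_eq]; omega)
      (fun a b => by simp only [Bool.or_eq_true, decide_eq_true_eq]; omega) _
  have key : ∀ u v : Fin vs.length, l.idxOf u.val < l.idxOf v.val → τ u ≤ τ v := by
    intro u v h
    have hv := List.idxOf_lt_length_of_mem (hp.symm.subset (List.mem_range.2 v.2))
    have := List.pairwise_iff_getElem.1 hs _ _ (h.trans hv) hv h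
    simpa using this
  refine ⟨l, hp, fun v => ?_⟩
  have : dIn (RG vs adj) l v = din vs adj ρ (code vs v) := by
    rw [← din_code nd, dIn]
    congr 1
    ext u
    refine and_congr_right fun a => ?_
    have h3 : τ v ≠ τ u := h1 _ (code_mem _ _) _ (code_mem _ _) ((RG_adj nd).1 a)
    have h4 := key u v
    have h5 := key v u
    have h6 : l.idxOf u.val ≠ l.idxOf v.val := fun e => a.ne' (Fin.ext
      ((List.idxOf_inj (hp.symm.subset (List.mem_range.2 u.2))).1 e))
    change _ ↔ τ u < τ v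
    omega
  rw [this, Nat.odd_iff]
  exact h2 _ (code_mem _ _)

theorem of_isB (nd : vs.Nodup) {l} (h : IsB (RG vs adj) l) : ∃ ρ : C → ℕ,
    (∀ c ∈ vs, ∀ d ∈ vs, c ≠ d → ρ c ≠ ρ d) ∧ ∀ c ∈ vs, din vs adj ρ c % 2 = 1 ∨
      din vs adj ρ c = 0 ∨ ∀ d ∈ vs, (GC adj).Adj c d → ρ d ≤ ρ c := by
  classical
  have e : ∀ v, vs.idxOf (code vs v) = v.val := fun v => by
    rw [code_eq]; exact List.Nodup.idxOf_getElem nd _ _
  refine ⟨fun c => l.idxOf (vs.idxOf c), fun c hc d hd hne e => hne ?_, fun c hc => ?_⟩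
  · exact (List.idxOf_inj hc).1 ((List.idxOf_inj (h.1.symm.subset
      (List.mem_range.2 (List.idxOf_lt_length_of_mem hc)))).1 e)
  · obtain ⟨v, rfl⟩ := code_surj hc
    rw [← din_code nd]
    simp only [e]
    rcases h.2 v with (h | h) | ⟨-, h⟩
    · exact Or.inl (Nat.odd_iff.1 h)
    · exact Or.inr (Or.inl h)
    · refine Or.inr (Or.inr fun d hd a => ?_)
      obtain ⟨u, rfl⟩ := code_surj hd
      rw [e]
      by_contra hh
      rw [dOut, Set.ncard_eq_zero] at h
      exact Set.eq_empty_iff_forall_notMem.1 h u ⟨(RG_adj nd).2 a, by omega⟩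

omit [Inhabited C] in
theorem din_list (ρ : C → ℕ) (c : C) (L : List C) (hL : L.Nodup)
    (h : ∀ d, (d ∈ vs ∧ (GC adj).Adj c d) ↔ d ∈ L) :
    din vs adj ρ c = L.countP fun d => decide (ρ d < ρ c) := by
  classical
  rw [din, List.countP_eq_length_filter, ← List.toFinset_card_of_nodup (hL.filter _),
    ← Set.ncard_coe_finset]
  congr 1
  ext d
  simp [h]

end

/-! ### the reduction -/

abbrev V := ℕ × ℕ × ℕ

def ok (φ : F3) (c : V) : Bool :=
  if c.1 = 0 then decide (c.2.2 = 0)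
  else conf φ c.2.1 c.2.2 || (decide (c.2.1 = c.2.2) && decide (c.2.1 < φ.length))

def vs (φ : F3) : List V :=
  ((List.range 5).product ((List.range (3 * φ.length)).product (List.range (3 * φ.length)))).filter
    (ok φ)

def adj (c d : V) : Bool :=
  (decide (c.1 = 0) && decide (d.1 = 1) &&
    if d.2.1 = d.2.2 then decide (c.2.1 / 3 = d.2.1)
    else decide (c.2.1 = d.2.1) || decide (c.2.1 = d.2.2)) ||
  (decide (c.1 ≠ 0) && decide (d.1 ≠ 0) && decide (c.2 = d.2))

theorem nd (φ) : (vs φ).Nodup :=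
  (List.nodup_range.product (List.nodup_range.product List.nodup_range)).filter _

def Hub (φ : F3) (a b : ℕ) : Prop := a < 3 * φ.length ∧ b < 3 * φ.length ∧
  (conf φ a b = true ∨ a = b ∧ a < φ.length)

theorem mem_vs {φ t a b} : (t, a, b) ∈ vs φ ↔
    (t = 0 ∧ a < 3 * φ.length ∧ b = 0) ∨ (0 < t ∧ t < 5 ∧ Hub φ a b) := by
  simp only [vs, ok, Hub, List.mem_filter, List.pair_mem_product, List.mem_range]
  split_ifs with h
  · simp only [decide_eq_true_eq]; constructor <;> intro h <;> omega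
  · simp only [Bool.or_eq_true, Bool.and_eq_true, decide_eq_true_eq, h, false_and, false_or,
      Nat.pos_of_ne_zero h, true_and, and_assoc]

theorem adj_iff {t a b s x y} : (GC adj).Adj (t, a, b) (s, x, y) ↔
    (t = 0 ∧ s = 1 ∧ (x = y ∧ a / 3 = x ∨ x ≠ y ∧ (a = x ∨ a = y))) ∨
    (s = 0 ∧ t = 1 ∧ (a = b ∧ x / 3 = a ∨ a ≠ b ∧ (x = a ∨ x = b))) ∨
    (t ≠ 0 ∧ s ≠ 0 ∧ t ≠ s ∧ a = x ∧ b = y) := by
  simp only [GC_adj, adj, ne_eq, Prod.mk.injEq]
  split_ifs <;> simp only [Bool.or_eq_true, Bool.and_eq_true, decide_eq_true_eq] <;> omega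

theorem conf_ne {φ a b} (h : conf φ a b = true) : a ≠ b := by rintro rfl; simp at h

theorem din_aux {φ a b} (h : Hub φ a b) (ρ : V → ℕ) (t) (ht : 2 ≤ t) (ht' : t < 5) :
    din (vs φ) adj ρ (t, a, b) = (([1, 2, 3, 4].filter (· ≠ t)).map (·, a, b)).countP
      fun d => decide (ρ d < ρ (t, a, b)) := by
  refine din_list ρ _ _ ?_ fun ⟨s, x, y⟩ => ?_
  · exact (List.Nodup.filter _ (by simp)).map fun _ _ e => by simpa using e
  · simp only [mem_vs, adj_iff, List.mem_map, List.mem_filter, List.mem_cons, List.not_mem_nil,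
      decide_eq_true_eq, Prod.mk.injEq]
    constructor
    · intro h; exact ⟨s, by omega⟩
    · rintro ⟨s, ⟨h1, h2⟩, rfl, rfl, rfl⟩
      simp only [or_false] at h1
      exact ⟨Or.inr ⟨by omega, by omega, h⟩, by omega⟩

theorem din_q {φ a b} (h : Hub φ a b) (hc : a ≠ b) (ρ : V → ℕ) :
    din (vs φ) adj ρ (1, a, b) = [(2, a, b), (3, a, b), (4, a, b), (0, a, 0), (0, b, 0)].countP
      fun d => decide (ρ d < ρ (1, a, b)) := by
  refine din_list ρ _ _ (by simp [hc]) fun ⟨s, x, y⟩ => ?_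
  simp only [mem_vs, adj_iff, List.mem_cons, List.not_mem_nil, Prod.mk.injEq]
  constructor
  · intro h; omega
  · have := h.1
    have := h.2.1
    rintro (⟨rfl, rfl, rfl⟩ | ⟨rfl, rfl, rfl⟩ | ⟨rfl, rfl, rfl⟩ | ⟨rfl, rfl, rfl⟩ |
      ⟨rfl, rfl, rfl⟩ | ⟨⟨⟩⟩) <;> simp [*]

theorem din_c {φ a} (h : a < φ.length) (ρ : V → ℕ) :
    din (vs φ) adj ρ (1, a, a) = [(2, a, a), (3, a, a), (4, a, a), (0, 3 * a, 0),
      (0, 3 * a + 1, 0), (0, 3 * a + 2, 0)].countP fun d => decide (ρ d < ρ (1, a, a)) := by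
  refine din_list ρ _ _ (by simp) fun ⟨s, x, y⟩ => ?_
  simp only [mem_vs, adj_iff, List.mem_cons, List.not_mem_nil, Prod.mk.injEq]
  constructor
  · intro h; omega
  · have h : Hub φ a a := ⟨by omega, by omega, Or.inr ⟨rfl, h⟩⟩
    rintro (⟨rfl, rfl, rfl⟩ | ⟨rfl, rfl, rfl⟩ | ⟨rfl, rfl, rfl⟩ | ⟨rfl, rfl, rfl⟩ |
      ⟨rfl, rfl, rfl⟩ | ⟨rfl, rfl, rfl⟩ | ⟨⟨⟩⟩) <;> simp [*] <;> omega

theorem Hub.symm {φ a b} (h : Hub φ a b) : Hub φ b a :=
  ⟨h.2.1, h.1, h.2.2.imp (by rw [conf_symm]; exact id) fun ⟨e, h⟩ => ⟨e.symm, e ▸ h⟩⟩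

theorem din_p {φ i} (hi : i < 3 * φ.length) (ρ : V → ℕ)
    (h : ∀ a b, Hub φ a b → a ≠ b → (i = a ∨ i = b) →
      ρ (1, a, b) < ρ (0, i, 0) → ρ (1, b, a) < ρ (0, i, 0)) :
    din (vs φ) adj ρ (0, i, 0) % 2 = if ρ (1, i / 3, i / 3) < ρ (0, i, 0) then 1 else 0 := by
  classical
  let S := (vs φ).toFinset.filter fun d => (GC adj).Adj (0, i, 0) d ∧ ρ d < ρ (0, i, 0)
  have e : din (vs φ) adj ρ (0, i, 0) = S.card := by
    rw [din, ← Set.ncard_coe_finset]; congr 1; ext d; simp [S, and_assoc]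
  have mS : ∀ t a b, (t, a, b) ∈ S ↔ t = 1 ∧ Hub φ a b ∧
      (a = b ∧ i / 3 = a ∨ a ≠ b ∧ (i = a ∨ i = b)) ∧ ρ (t, a, b) < ρ (0, i, 0) := by
    intro t a b
    simp only [S, Finset.mem_filter, List.mem_toFinset, mem_vs, adj_iff]
    constructor
    · rintro ⟨h1 | h1, h2, h3⟩
      · omega
      · exact ⟨by omega, h1.2.2, by omega, h3⟩
    · rintro ⟨rfl, h1, h2, h3⟩
      exact ⟨Or.inr ⟨by omega, by omega, h1⟩, Or.inl ⟨trivial, rfl, h2⟩, h3⟩
  have h1 : ∑ _d ∈ S.erase (1, i / 3, i / 3), (1 : ZMod 2) = 0 := by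
    refine Finset.sum_involution (fun d _ => (d.1, d.2.2, d.2.1)) (fun _ _ => rfl) ?_ ?_
      fun _ _ => rfl
    · rintro ⟨t, a, b⟩ hd -
      simp only [Finset.mem_erase, mS, ne_eq, Prod.mk.injEq] at hd ⊢
      omega
    · rintro ⟨t, a, b⟩ hd
      simp only [Finset.mem_erase, mS, ne_eq, Prod.mk.injEq] at hd ⊢
      obtain ⟨h1, rfl, h2, h3, h4⟩ := hd
      exact ⟨by omega, rfl, h2.symm, by omega, h a b h2 (by omega) (by omega) h4⟩
  rw [Finset.sum_const, nsmul_one, ZMod.natCast_eq_zero_iff_even, Nat.even_iff] at h1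
  have h2 : (1, i / 3, i / 3) ∈ S ↔ ρ (1, i / 3, i / 3) < ρ (0, i, 0) := by
    simp only [mS, true_and, true_or, and_self]
    exact and_iff_right ⟨by omega, by omega, Or.inr ⟨rfl, by omega⟩⟩
  rw [e]
  split_ifs with c
  · have := Finset.card_erase_add_one (h2.2 c); omega
  · rwa [Finset.erase_eq_of_notMem (mt h2.1 c)] at h1

theorem yes (φ : F3) (h : Sat3 φ) : ∃ l, IsA (RG (vs φ) adj) l := by
  obtain ⟨s, h1, h2⟩ := (sat3_iff_sel φ).1 h
  obtain ⟨τ, t1, t2, t3⟩ : ∃ τ : ℕ → ℕ, (∀ i < 3 * φ.length, τ i ≤ 3 * φ.length) ∧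
      (∀ a b, Hub φ a b → a ≠ b → τ a ≠ τ b) ∧ ∀ i, τ i = 0 ↔ s (i / 3) = i := by
    refine ⟨fun i => if s (i / 3) = i then 0 else i + 1, fun i hi => ?_, fun a b h e => ?_,
      fun i => ?_⟩
    · simp only; split_ifs <;> omega
    · simp only
      split_ifs with c1 c2 <;> try omega
      have := h2 (a / 3) (by have := h.1; omega) (b / 3) (by have := h.2.1; omega)
      rw [c1, c2] at this
      simpa [this, e] using h.2.2
    · simp
  let ρ : V → ℕ := fun c => if c.1 = 0 then 2 * τ c.2.1 + 3 else if c.1 = 1 then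
    (if c.2.1 = c.2.2 then 4 else 2 * max (τ c.2.1) (τ c.2.2) + 2) else if c.1 = 2 then 0
    else if c.1 = 3 then 1 else 6 * φ.length + 5
  refine isA_of (nd φ) ρ ?_ ?_
  · rintro ⟨t, a, b⟩ hc ⟨u, x, y⟩ hd e
    have a1 := t1 a
    have a2 := t1 b
    simp only [mem_vs, adj_iff, Hub] at hc hd e
    simp only [ρ]
    rcases e with e | e | ⟨e1, e2, e3, rfl, rfl⟩ <;> split_ifs <;> omega
  · rintro ⟨t, a, b⟩ hc
    rcases mem_vs.1 hc with ⟨rfl, ha, rfl⟩ | ⟨h3, h4, h5⟩
    · by_cases e : τ a = 0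
      · right
        rw [din, Set.ncard_eq_zero ((vs φ).finite_toSet.subset fun d hd => hd.1.1)]
        ext ⟨u, x, y⟩
        simp only [Set.mem_ofPred_eq, Set.mem_empty_iff_false, iff_false, not_and, mem_vs, adj_iff]
        rintro ⟨h3 | h3, h4⟩
        · omega
        · have := t2 x y h3.2.2
          obtain rfl : u = 1 := by omega
          simp only [ρ]
          rcases h4 with ⟨-, -, h4 | ⟨h4, rfl | rfl⟩⟩ | h4 | h4 <;> split_ifs <;> omega
      · left
        rw [din_p ha, if_pos]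
        · simp only [ρ]; simp; omega
        · intro x y h3 h4 h5
          simp [ρ, h4, h4.symm, max_comm]
    · have a1 := t1 a h5.1
      have a2 := t1 b h5.2.1
      by_cases e : t = 1
      · subst e
        left
        by_cases e : a = b
        · subst e
          have ha : a < φ.length := by simpa using h5.2.2
          have b0 := h1 a ha
          have b1 := t3 (3 * a)
          have b2 := t3 (3 * a + 1)
          have b3 := t3 (3 * a + 2)
          rw [show (3 * a) / 3 = a by omega] at b1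
          rw [show (3 * a + 1) / 3 = a by omega] at b2
          rw [show (3 * a + 2) / 3 = a by omega] at b3
          rw [din_c ha]
          simp only [List.countP_cons, List.countP_nil, ρ, decide_eq_true_eq]
          norm_num
          split_ifs <;> omega
        · have := t2 a b h5 e
          rw [din_q h5 e]
          simp only [List.countP_cons, List.countP_nil, ρ, decide_eq_true_eq, e]
          norm_num
          split_ifs <;> omega
      · rw [din_aux h5 ρ t (by omega) h4]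
        obtain rfl | rfl | rfl : t = 2 ∨ t = 3 ∨ t = 4 := by omega
        all_goals
          simp only [List.countP_cons, List.countP_nil, ρ, decide_eq_true_eq, List.filter_cons,
            List.filter_nil]
          norm_num [List.countP_cons]
          try split_ifs <;> omega

theorem no (φ : F3) (l) (h : IsB (RG (vs φ) adj) l) : Sat3 φ := by
  obtain ⟨ρ, h1, h2⟩ := of_isB (nd φ) h
  have mh : ∀ {a b}, Hub φ a b → ∀ t, 0 < t → t < 5 → (t, a, b) ∈ vs φ := fun h t a b =>
    mem_vs.2 (Or.inr ⟨a, b, h⟩)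
  have mp : ∀ {a}, a < 3 * φ.length → (0, a, 0) ∈ vs φ := fun h => mem_vs.2 (Or.inl ⟨rfl, h, rfl⟩)
  have k4 : ∀ a b, Hub φ a b → din (vs φ) adj ρ (1, a, b) % 2 = 1 ∧
      [(2, a, b), (3, a, b), (4, a, b)].countP (fun d => decide (ρ d < ρ (1, a, b))) = 2 := by
    intro a b h
    have n : ∀ t u, 0 < t → t < u → u < 5 → ρ (t, a, b) ≠ ρ (u, a, b) := fun t u a1 a2 a3 =>
      h1 _ (mh h t a1 (by omega)) _ (mh h u (by omega) a3) (by simp; omega)
    have o : ∀ t, 0 < t → t < 5 → din (vs φ) adj ρ (t, a, b) % 2 = 1 ∨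
        din (vs φ) adj ρ (t, a, b) = 0 ∨ (ρ (1, a, b) ≤ ρ (t, a, b) ∧ ρ (2, a, b) ≤ ρ (t, a, b) ∧
        ρ (3, a, b) ≤ ρ (t, a, b) ∧ ρ (4, a, b) ≤ ρ (t, a, b)) := by
      intro t a1 a2
      refine (h2 _ (mh h t a1 a2)).imp_right (Or.imp_right fun g => ?_)
      have : ∀ u, 0 < u → u < 5 → ρ (u, a, b) ≤ ρ (t, a, b) := fun u b1 b2 => by
        by_cases e : u = t
        · rw [e]
        · exact g _ (mh h u b1 b2) (adj_iff.2 (by omega))
      exact ⟨this 1 (by omega) (by omega), this 2 (by omega) (by omega),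
        this 3 (by omega) (by omega), this 4 (by omega) (by omega)⟩
    have n1 := n 1 2 (by omega) (by omega) (by omega)
    have n2 := n 1 3 (by omega) (by omega) (by omega)
    have n3 := n 1 4 (by omega) (by omega) (by omega)
    have n4 := n 2 3 (by omega) (by omega) (by omega)
    have n5 := n 2 4 (by omega) (by omega) (by omega)
    have n6 := n 3 4 (by omega) (by omega) (by omega)
    have o1 := o 1 (by omega) (by omega)
    have o2 := o 2 (by omega) (by omega)
    have o3 := o 3 (by omega) (by omega)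
    have o4 := o 4 (by omega) (by omega)
    rw [din_aux h ρ _ (by omega) (by omega)] at o2 o3 o4
    norm_num [List.countP_cons, List.filter_cons] at o2 o3 o4
    have k : [(2, a, b), (3, a, b), (4, a, b)].countP (fun d => decide (ρ d < ρ (1, a, b))) = 2 := by
      clear o1
      simp only [List.countP_cons, List.countP_nil, decide_eq_true_eq]
      have il : ∀ x y : ℕ, (x < y ∧ (if x < y then 1 else 0) = 1) ∨
          (y ≤ x ∧ (if x < y then 1 else 0) = 0) := fun x y => by split_ifs <;> simp <;> omega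
      have i1 := fun t u => il (ρ (t, a, b)) (ρ (u, a, b))
      have := i1 1 2; have := i1 1 3; have := i1 1 4; have := i1 2 1; have := i1 2 3
      have := i1 2 4; have := i1 3 1; have := i1 3 2; have := i1 3 4; have := i1 4 1
      have := i1 4 2; have := i1 4 3
      omega
    refine ⟨?_, k⟩
    rcases o1 with o1 | o1 | o1
    · exact o1
    · exfalso
      rw [din, Set.ncard_eq_zero ((vs φ).finite_toSet.subset fun d hd => hd.1.1)] at o1
      obtain ⟨d, hd, e⟩ := List.countP_pos_iff.1 (by rw [k]; exact two_pos :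
        0 < [(2, a, b), (3, a, b), (4, a, b)].countP (fun d => decide (ρ d < ρ (1, a, b))))
      refine Set.eq_empty_iff_forall_notMem.1 o1 d ⟨?_, by simpa using e⟩
      simp only [List.mem_cons, List.not_mem_nil, or_false] at hd
      rcases hd with rfl | rfl | rfl <;> exact ⟨mh h _ (by omega) (by omega), adj_iff.2 (by omega)⟩
    · simp only [List.countP_cons, List.countP_nil, decide_eq_true_eq] at k
      split_ifs at k <;> omega
  have mid : ∀ a b, Hub φ a b → a ≠ b → (ρ (0, a, 0) < ρ (1, a, b) ∧ ρ (1, a, b) < ρ (0, b, 0)) ∨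
      (ρ (0, b, 0) < ρ (1, a, b) ∧ ρ (1, a, b) < ρ (0, a, 0)) := by
    intro a b h e
    obtain ⟨k1, k2⟩ := k4 a b h
    rw [din_q h e] at k1
    have n1 := h1 _ (mp h.1) _ (mh h 1 (by omega) (by omega)) (by simp)
    have n2 := h1 _ (mp h.2.1) _ (mh h 1 (by omega) (by omega)) (by simp)
    simp only [List.countP_cons, List.countP_nil, decide_eq_true_eq] at k1 k2
    split_ifs at k1 k2 <;> omega
  have src : ∀ i < 3 * φ.length, ρ (0, i, 0) < ρ (1, i / 3, i / 3) → ∀ a b, Hub φ a b → a ≠ b →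
      (i = a ∨ i = b) → ¬ ρ (1, a, b) < ρ (0, i, 0) := by
    intro i hi e a b h hne hab hlt
    have k := din_p hi ρ fun a b h hne hab hlt => by
      have := mid a b h hne
      have := mid b a h.symm hne.symm
      rcases hab with rfl | rfl <;> omega
    rw [if_neg (by omega)] at k
    rcases h2 _ (mp hi) with o | o | o
    · omega
    · rw [din, Set.ncard_eq_zero ((vs φ).finite_toSet.subset fun d hd => hd.1.1)] at o
      exact Set.eq_empty_iff_forall_notMem.1 o (1, a, b) ⟨⟨mh h _ (by omega) (by omega), adj_iff.2 (by omega)⟩, hlt⟩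
    · have := o (1, i / 3, i / 3) (mh ⟨by omega, by omega, Or.inr ⟨rfl, by omega⟩⟩ _ (by omega)
        (by omega)) (adj_iff.2 (by omega))
      omega
  have cl : ∀ c < φ.length, ∃ i, i / 3 = c ∧ ρ (0, i, 0) < ρ (1, c, c) := by
    intro c hc
    obtain ⟨k1, k2⟩ := k4 c c ⟨by omega, by omega, Or.inr ⟨rfl, hc⟩⟩
    rw [din_c hc] at k1
    by_contra hh
    push Not at hh
    have a1 := hh (3 * c) (by omega)
    have a2 := hh (3 * c + 1) (by omega)
    have a3 := hh (3 * c + 2) (by omega)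
    simp only [List.countP_cons, List.countP_nil, decide_eq_true_eq] at k1 k2
    split_ifs at k1 k2 <;> omega
  choose! s s1 s2 using cl
  refine (sat3_iff_sel φ).2 ⟨s, s1, fun c hc d hd => ?_⟩
  by_contra e
  have e : conf φ (s c) (s d) = true := by simpa using e
  have a1 := s1 c hc
  have a2 := s1 d hd
  have h : Hub φ (s c) (s d) := ⟨by omega, by omega, Or.inl e⟩
  have b1 := src _ h.1 (by rw [a1]; exact s2 c hc) _ _ h (conf_ne e) (Or.inl rfl)
  have b2 := src _ h.2.1 (by rw [a2]; exact s2 d hd) _ _ h (conf_ne e) (Or.inr rfl)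
  have := mid _ _ h (conf_ne e)
  omega

abbrev Gi := ℕ × List (ℕ × ℕ)

theorem pt_red : PT fun φ : F3 => mkG (vs φ) adj :=
  pt_mkG (adj := fun _ => adj) (by unfold vs ok; fun_prop) (by unfold adj; fun_prop)

theorem hardA : NPH (fun _ : Gi => True) fun p => ∃ l, IsA (graphOf p.1 p.2) l :=
  sat3_nph.reduce _ pt_red fun φ _ => ⟨trivial, yes φ, fun ⟨l, h⟩ => no φ l h.isB⟩

theorem hardB : NPH (fun _ : Gi => True) fun p => ∃ l, IsB (graphOf p.1 p.2) l :=
  sat3_nph.reduce _ pt_red fun φ _ =>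
    ⟨trivial, fun h => (yes φ h).imp fun _ h => h.isB, fun ⟨l, h⟩ => no φ l h⟩

theorem search (b) {P : Gi → List ℕ → Prop} (h : ∀ p l, ver b p l = true ↔ P p l)
    (hh : NPH (fun _ => True) fun p => ∃ l, P p l) {F} (hF : PolyTime F)
    (e : ∀ p, (∃ l, P p l) → ∃ l, F (enc p) = enc l ∧ P p l) : ∀ A, InNP A → InP A := by
  refine Sim.collapse hh hF (fun p => p) PT.id' (fun p x => ver b p (dec x))
    ((pt_ver b).comp (g := fun q : Gi × Bits => (q.1, dec q.2)) (by fun_prop)) fun p _ =>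
    ⟨fun hp => ?_, fun hp => ⟨_, (h _ _).1 hp⟩⟩
  obtain ⟨l, e1, e2⟩ := e p hp
  have : (⟨F (enc p)⟩ : Bits) = raw l := by rw [e1]; rfl
  rw [this, Dec.dec_raw]
  exact (h _ _).2 e2

theorem search_iff (b) {P : Gi → List ℕ → Prop} (h : ∀ p l, ver b p l = true ↔ P p l)
    (hh : NPH (fun _ => True) fun p => ∃ l, P p l) :
    (∃ F, PolyTime F ∧ ∀ p, (∃ l, P p l) → ∃ l, F (enc p) = enc l ∧ P p l) ↔
      ∀ A, InNP A → InP A := by
  refine ⟨fun ⟨F, hF, e⟩ => search b h hh hF e, fun hc => ?_⟩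
  simp only [← h]
  refine Sim.search_of_collapse (ver b) (pt_ver b) (fun p => p.1) (by fun_prop) (fun p l e => ?_) hc
  simp only [ver, Bool.and_eq_true, decide_eq_true_eq, List.all_eq_true, List.mem_range,
    List.contains_iff_mem] at e
  exact ⟨e.1.1, fun x hx => List.mem_range.1 ((perm_iff.2 e.1).subset hx)⟩

end Pool.Agent.H36.Ord
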