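import Pool.Agent.H38.NP.Defs

namespace Pool.Agent.H36.Ord

variable {n : ℕ}

/-- number of neighbours of `v` that come before `v` in the list `l` -/
noncomputable def dIn (G : SimpleGraph (Fin n)) (l : List ℕ) (v : Fin n) : ℕ :=
  {u | G.Adj v u ∧ l.idxOf u.val < l.idxOf v.val}.ncard

/-- number of neighbours of `v` that come after `v` in the list `l` -/
noncomputable def dOut (G : SimpleGraph (Fin n)) (l : List ℕ) (v : Fin n) : ℕ :=
  {u | G.Adj v u ∧ l.idxOf v.val < l.idxOf u.val}.ncard

/-- `l` lists every vertex once and is a Type-A order -/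
def IsA (G : SimpleGraph (Fin n)) (l : List ℕ) : Prop :=
  l.Perm (List.range n) ∧ ∀ v, Odd (dIn G l v) ∨ dIn G l v = 0

/-- `l` lists every vertex once and is a Type-B order -/
def IsB (G : SimpleGraph (Fin n)) (l : List ℕ) : Prop :=
  l.Perm (List.range n) ∧
    ∀ v, (Odd (dIn G l v) ∨ dIn G l v = 0) ∨ (Even (dIn G l v) ∧ dOut G l v = 0)

end Pool.Agent.H36.Ord
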