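import Pool.Agent.H36.PMed1
import Pool.Agent.H38.NP.Graphs

namespace Pool.Agent.H36.PMed

open Pool.Agent.H38.NP

abbrev Pt := ℕ × ℕ

def cd (s : Pt) : ℕ := 4 * s.1 + s.2

/-- labels: kind 0 blocks, 1 discrete, 2 x, 3 y, otherwise two merges -/
def lab (t : ℕ × Pt × Pt × Pt × Pt) (s : Pt) : ℕ :=
  if t.1 = 0 then s.1 else if t.1 = 1 then cd s else if t.1 = 2 then 2 * s.1 + s.2 / 2 else
  if t.1 = 3 then 2 * s.1 + s.2 % 2 else
  if s = t.2.2.1 then cd t.2.1 else if s = t.2.2.2.2 then cd t.2.2.2.1 else cd s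

abbrev Tm := ℕ × Pt × Pt × Pt × Pt

def tk (k : ℕ) : Tm := (k, (0, 0), (0, 0), (0, 0), (0, 0))
def t1 (p q : Pt) : Tm := (4, p, q, p, q)
def t2 (p q p' q' : Pt) : Tm := (4, p, q, p', q')

def fE (n : ℕ) (E : List (ℕ × ℕ)) : List (ℕ × ℕ) :=
  E.filter fun e => decide (e.1 < n) && decide (e.2 < n) && !decide (e.1 = e.2)

def L0 (n m k : ℕ) : ℕ := n * (2 * n - 1) + 2 * (n - k) + (n + 1) * (m * (4 * n + 1))

def terms (n : ℕ) (E : List (ℕ × ℕ)) (M M' : ℕ) : List Tm :=
  List.replicate M' (tk 0) ++ List.replicate M' (tk 1) ++ List.replicate (2 * M) (tk 2) ++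
  List.replicate (2 * M) (tk 3) ++ List.replicate M (tk 1) ++
  (List.range n).map (fun v => t1 (v, 0) (v, 1)) ++
  E.flatMap fun e => List.replicate (n + 1) (t1 (e.1, 0) (e.1, 2)) ++
    List.replicate (n + 1) (t2 (e.1, 0) (e.2, 0) (e.1, 1) (e.2, 2))

abbrev SS (n : ℕ) := Fin n × Fin 4

def vl {n : ℕ} (s : SS n) : Pt := (s.1.val, s.2.val)

def kr (n : ℕ) (t : Tm) : Setoid (SS n) := Setoid.ker fun s => lab t (vl s)

theorem kr_rel {n t} {u v : SS n} : kr n t u v ↔ lab t (vl u) = lab t (vl v) := Iff.rfl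

def lst (n : ℕ) (t : Tm) : List ℕ := (List.range (n * 4)).map fun i => lab t (i / 4, i % 4)

theorem part_lst (n : ℕ) (t : Tm) :
    part (n * 4) (lst n t) = cIso finProdFinEquiv.symm (kr n t) := by
  have : ∀ i : Fin (n * 4), (lst n t).getD i.val 0 = lab t (vl (finProdFinEquiv.symm i)) := by
    intro i
    simp [lst, List.getD_eq_getElem?_getD, vl, Fin.divNat, Fin.modNat]
  ext u v
  change (lst n t).getD u.val 0 = (lst n t).getD v.val 0 ↔ _
  rw [this, this]
  rfl

theorem cd_inj {n : ℕ} {s t : SS n} : cd (vl s) = cd (vl t) ↔ s = t := by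
  obtain ⟨a, b⟩ := s
  obtain ⟨c, d⟩ := t
  simp only [cd, vl, Prod.mk.injEq, Fin.ext_iff]
  omega

theorem vl_inj {n : ℕ} {s t : SS n} : vl s = vl t ↔ s = t :=
  ⟨fun h => cd_inj.1 (by rw [h]), fun h => by rw [h]⟩

theorem kr0 (n : ℕ) : kr n (tk 0) = bd fun _ => ⊤ := by
  ext u v; simp [kr_rel, bd_rel, lab, tk, vl, Fin.ext_iff]

theorem kr1 (n : ℕ) : kr n (tk 1) = ⊥ := by
  ext u v; simp [kr_rel, lab, tk, cd_inj]

theorem kr2 (n : ℕ) : kr n (tk 2) = bd fun _ => sx := by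
  ext u v; simp [kr_rel, bd_rel, lab, tk, vl, Fin.ext_iff, sx_rel]; omega

theorem kr3 (n : ℕ) : kr n (tk 3) = bd fun _ => sy := by
  ext u v; simp [kr_rel, bd_rel, lab, tk, vl, Fin.ext_iff, sy_rel]; omega

theorem krt1 {n : ℕ} (p q : SS n) : kr n (t1 (vl p) (vl q)) = mg ⊥ p q := by
  ext u v
  simp only [kr_rel, lab, t1, vl_inj, mg_rel, Setoid.bot_def]
  have := @cd_inj n
  simp
  split_ifs <;> simp only [cd_inj] <;> grind

theorem krt2 {n : ℕ} (p q p' q' : SS n) (h1 : q ≠ q') (h2 : p ≠ q') (h3 : p' ≠ q) (h4 : p ≠ p') :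
    kr n (t2 (vl p) (vl q) (vl p') (vl q')) = mg (mg ⊥ p q) p' q' := by
  ext u v
  simp only [kr_rel, lab, t2, vl_inj, mg_rel, Setoid.bot_def]
  simp
  split_ifs <;> simp only [cd_inj] <;> grind

theorem bot_bd (n : ℕ) : (⊥ : Setoid (SS n)) = bd fun _ => ⊥ := by
  ext u v; simp [bd_rel, Prod.ext_iff]

noncomputable def F (n : ℕ) (T : List Tm) (H : Setoid (SS n)) : ℕ :=
  (T.map fun t => d (kr n t) H).sum

noncomputable def Lt (n : ℕ) (E : List (ℕ × ℕ)) (H : Setoid (SS n)) : ℕ :=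
  ((List.range n).map fun v => d (kr n (t1 (v, 0) (v, 1))) H).sum +
  (n + 1) * (E.map fun e => d (kr n (t1 (e.1, 0) (e.1, 2))) H +
    d (kr n (t2 (e.1, 0) (e.2, 0) (e.1, 1) (e.2, 2))) H).sum

theorem F_eq (n E M M') (H : Setoid (SS n)) : F n (terms n E M M') H =
    M' * (d (bd fun _ => ⊤) H + d ⊥ H) +
    M * (2 * d (bd fun _ => sx) H + 2 * d (bd fun _ => sy) H + d ⊥ H) + Lt n E H := by
  have : ∀ E : List (ℕ × ℕ), (List.map (fun t => d (kr n t) H) (E.flatMap fun e =>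
      List.replicate (n + 1) (t1 (e.1, 0) (e.1, 2)) ++
      List.replicate (n + 1) (t2 (e.1, 0) (e.2, 0) (e.1, 1) (e.2, 2)))).sum =
      (n + 1) * (E.map fun e => d (kr n (t1 (e.1, 0) (e.1, 2))) H +
        d (kr n (t2 (e.1, 0) (e.2, 0) (e.1, 1) (e.2, 2))) H).sum := by
    intro E
    induction E with
    | nil => simp
    | cons e E ih =>
      simp only [List.flatMap_cons, List.map_append, List.sum_append, ih, List.map_replicate,
        List.sum_replicate, smul_eq_mul, List.map_cons, List.sum_cons]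
      ring
  simp only [F, terms, List.map_append, List.sum_append, this, List.map_replicate,
    List.sum_replicate, smul_eq_mul, kr0, kr1, kr2, kr3, Lt, List.map_map, Function.comp_def]
  ring

theorem A_eq {n : ℕ} (H : Setoid (SS n)) : 3 * n ≤ d (bd fun _ => ⊤) H + d ⊥ H ∧
    (d (bd fun _ => ⊤) H + d ⊥ H ≤ 3 * n ↔ H ≤ bd fun _ => ⊤) := by
  have h1 := d_eq (bd fun _ => ⊤) H
  have h2 := d_eq ⊥ H
  have h3 : c (bd fun _ : Fin n => (⊤ : Setoid (Fin 4))) = n := by simp [c_bd, c_top]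
  rw [bot_sup_eq, c_bot] at h2
  simp only [Fintype.card_prod, Fintype.card_fin] at h2
  have h4 := c_le (le_sup_left : (bd fun _ => ⊤) ≤ (bd fun _ => ⊤) ⊔ H)
  refine ⟨by omega, fun h => ?_, fun h => ?_⟩
  · by_contra hh
    have := c_lt (le_sup_left : (bd fun _ => ⊤) ≤ (bd fun _ => ⊤) ⊔ H)
      fun e => hh (e ▸ le_sup_right)
    omega
  · rw [sup_eq_left.2 h] at h1
    omega

theorem B_eq {n : ℕ} (h : Fin n → Setoid (Fin 4)) :
    2 * d (bd fun _ => sx) (bd h) + 2 * d (bd fun _ => sy) (bd h) + d ⊥ (bd h) =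
      ∑ v, (2 * d sx (h v) + 2 * d sy (h v) + d ⊥ (h v)) := by
  rw [bot_bd, d_bd, d_bd, d_bd]
  simp [Finset.sum_add_distrib, Finset.mul_sum]

def hs {n : ℕ} (σ : ℕ → Bool) : Setoid (SS n) := bd fun v => cond (σ v.val) sx sy

theorem hs_rel {n : ℕ} (σ : ℕ → Bool) (u v : Fin n) (i j : Fin 4) :
    hs σ (u, i) (v, j) ↔ u = v ∧ cond (σ u.val) (i.val / 2 = j.val / 2) (i.val % 2 = j.val % 2) := by
  rw [hs, bd_rel]
  simp only
  cases σ u.val
  · exact and_congr_right fun _ => sy_rel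
  · exact and_congr_right fun _ => sx_rel

theorem c_hs {n : ℕ} (σ : ℕ → Bool) : c (hs σ : Setoid (SS n)) = 2 * n := by
  have : ∀ b, c (cond b sx sy) = 2 := fun b => by cases b; exacts [c_sy, c_sx]
  simp [hs, c_bd, this]; ring

open Classical in
theorem d_t1 {n : ℕ} (σ : ℕ → Bool) (p q : SS n) (h : p ≠ q) :
    d (kr n (t1 (vl p) (vl q))) (hs σ) + 1 = 2 * n + if hs σ p q then 0 else 2 := by
  have h1 := d_eq (mg ⊥ p q) (hs σ)
  have h2 := c_mg ⊥ p q
  have h3 := c_mg (hs σ) p q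
  rw [mg_sup, bot_sup_eq, c_hs] at h1
  rw [c_bot, if_neg (by simpa using h)] at h2
  rw [c_hs] at h3
  simp only [Fintype.card_prod, Fintype.card_fin] at h2
  rw [krt1]
  split_ifs at h3 ⊢ <;> omega

theorem d_t2 {n : ℕ} (σ : ℕ → Bool) (u v : Fin n) (h : u ≠ v) :
    d (kr n (t2 (u, 0) (v, 0) (u, 1) (v, 2))) (hs σ) + (if σ u = true ∧ σ v = false then 2 else 0)
      = 2 * n + 2 := by
  classical
  have e := krt2 (n := n) (u, 0) (v, 0) (u, 1) (v, 2) (by simp) (by simp) (by simp) (by simp)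
  have h1 := d_eq (mg (mg ⊥ (u, (0 : Fin 4)) (v, 0)) (u, 1) (v, 2)) (hs σ)
  have h2 := c_mg ⊥ (u, (0 : Fin 4)) (v, 0)
  have h2' := c_mg (mg ⊥ (u, (0 : Fin 4)) (v, 0)) (u, 1) (v, 2)
  have h3 := c_mg (hs σ) (u, (0 : Fin 4)) (v, 0)
  have h3' := c_mg (mg (hs σ) (u, (0 : Fin 4)) (v, 0)) (u, 1) (v, 2)
  rw [mg_sup, mg_sup, bot_sup_eq, c_hs] at h1
  rw [c_bot, if_neg (by simpa using h)] at h2
  rw [if_neg (by simp [mg_rel])] at h2'
  rw [c_hs, if_neg (by simp [hs_rel, h])] at h3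
  simp only [Fintype.card_prod, Fintype.card_fin] at h2
  have : mg (hs σ) (u, (0 : Fin 4)) (v, 0) (u, 1) (v, 2) ↔ σ u = true ∧ σ v = false := by
    simp only [mg_rel, hs_rel, h, false_and, false_or, or_false, true_and]
    cases σ u <;> cases σ v <;> simp
  simp only [this] at h3'
  rw [show kr n (t2 (u, 0) (v, 0) (u, 1) (v, 2)) = _ from e]
  split_ifs at h3' ⊢ <;> omega

theorem Lt_eq (n : ℕ) (E : List (ℕ × ℕ)) (σ : ℕ → Bool) :
    Lt n (fE n E) (hs σ) = n * (2 * n - 1) + 2 * (List.range n).countP (fun v => !σ v) +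
      (n + 1) * ((fE n E).length * (4 * n + 1) +
        2 * (fE n E).countP fun e => σ e.1 && σ e.2) := by
  have g : ∀ {α : Type} (l : List α) (f : α → ℕ) (a : ℕ) (p : α → Bool),
      (∀ x ∈ l, f x = a + 2 * (p x).toNat) → (l.map f).sum = l.length * a + 2 * l.countP p := by
    intro α l f a p h
    induction l with
    | nil => simp
    | cons x l ih =>
      rw [List.map_cons, List.sum_cons, ih fun y hy => h y (by simp [hy]), h x (by simp),
        List.countP_cons, List.length_cons]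
      cases p x <;> simp <;> ring
  classical
  unfold Lt
  rw [g _ _ (2 * n - 1) (fun v => !σ v), g _ _ (4 * n + 1) (fun e => σ e.1 && σ e.2),
    List.length_range]
  · rintro ⟨u, v⟩ he
    simp only [fE, List.mem_filter, Bool.and_eq_true, decide_eq_true_eq, Bool.not_eq_true',
      decide_eq_false_iff_not] at he
    obtain ⟨-, ⟨hu, hv⟩, hne⟩ := he
    have h1 := d_t1 σ (⟨u, hu⟩, 0) (⟨u, hu⟩, 2) (by simp)
    have h2 := d_t2 σ ⟨u, hu⟩ ⟨v, hv⟩ (by simpa using hne)
    simp only [hs_rel, vl] at h1 h2 ⊢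
    revert h1 h2
    cases σ u <;> cases σ v <;> simp <;> omega
  · intro v hv
    have hv := List.mem_range.1 hv
    have h1 := d_t1 σ (⟨v, hv⟩, 0) (⟨v, hv⟩, 1) (by simp)
    simp only [hs_rel, vl] at h1 ⊢
    revert h1
    cases σ v <;> simp <;> omega

theorem main (n : ℕ) (E : List (ℕ × ℕ)) (k : ℕ) (hk : k ≤ n) (M M' : ℕ)
    (hM : M = L0 n (fE n E).length k + 1) (hM' : M' = M * (6 * n) + M) :
    (∃ H, F n (terms n (fE n E) M M') H ≤ M' * (3 * n) + M * (6 * n) + L0 n (fE n E).length k) ↔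
      ∃ S, IndepN n E S ∧ k ≤ S.card := by
  have hB : ∀ h : Fin n → Setoid (Fin 4),
      6 * n ≤ ∑ v, (2 * d sx (h v) + 2 * d sy (h v) + d ⊥ (h v)) := fun h => by
    simpa [mul_comm] using Finset.sum_le_sum (s := Finset.univ) fun v _ => (block (h v)).1
  have cnt : ∀ σ : ℕ → Bool, (List.range n).countP (fun v => !σ v) +
      ((Finset.range n).filter fun v => σ v = true).card = n := by
    intro σ
    have := List.length_eq_countP_add_countP (l := List.range n) (p := σ)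
    rw [List.length_range] at this
    have e : ((Finset.range n).filter fun v => σ v = true).card = (List.range n).countP σ := by
      rw [List.countP_eq_length_filter, ← List.toFinset_card_of_nodup (List.nodup_range.filter _)]
      congr 1; ext; simp
    rw [e, add_comm]
    simpa using this.symm
  constructor
  · rintro ⟨H, hH⟩
    rw [F_eq] at hH
    obtain ⟨a1, a2⟩ := A_eq H
    have h1 : H ≤ bd fun _ => ⊤ := by
      refine a2.1 ?_
      by_contra hh
      have := Nat.mul_le_mul_left M' (Nat.succ_le_of_lt (not_le.1 hh))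
      rw [Nat.succ_eq_add_one, Nat.mul_add] at this
      omega
    have a3 := Nat.mul_le_mul_left M' a1
    obtain ⟨h, rfl⟩ : ∃ h, H = bd h := ⟨_, eq_bd h1⟩
    rw [B_eq] at hH
    have h2 : ∀ v, h v = sx ∨ h v = sy := by
      intro v
      refine (block (h v)).2.1 ?_
      by_contra hh
      have h3 : ∑ _v : Fin n, 6 < ∑ v, (2 * d sx (h v) + 2 * d sy (h v) + d ⊥ (h v)) :=
        Finset.sum_lt_sum (fun v _ => (block (h v)).1) ⟨v, Finset.mem_univ _, not_le.1 hh⟩
      simp only [Finset.sum_const, Finset.card_univ, Fintype.card_fin, smul_eq_mul] at h3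
      have := Nat.mul_le_mul_left M (Nat.succ_le_of_lt h3)
      rw [Nat.succ_eq_add_one, Nat.mul_add, mul_comm n 6] at this
      omega
    classical
    let σ : ℕ → Bool := fun v => if hv : v < n then decide (h ⟨v, hv⟩ = sx) else false
    have e : bd h = hs σ := by
      unfold hs
      congr 1
      funext v
      simp only [σ, v.isLt, dif_pos]
      by_cases e : h v = sx
      · simp [e]
      · rw [decide_eq_false e]; exact (h2 v).resolve_left e
    have a4 := Nat.mul_le_mul_left M (hB h)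
    rw [e] at a3
    rw [e, Lt_eq, L0, Nat.mul_add (n + 1)] at hH
    have h0 : (fE n E).countP (fun e => σ e.1 && σ e.2) = 0 := by
      by_contra hh
      have := Nat.mul_le_mul_left (n + 1) (Nat.mul_le_mul_left 2 (Nat.one_le_iff_ne_zero.2 hh))
      omega
    refine ⟨(Finset.range n).filter fun v => σ v = true, ⟨fun v hv => by simp at hv; exact hv.1,
      fun u hu v hv hne he => ?_⟩, ?_⟩
    · simp only [Finset.mem_filter, Finset.mem_range] at hu hv
      exact List.countP_eq_zero.1 h0 (u, v) (by simp [fE, he, hu.1, hv.1, hne]) (by simp [hu, hv])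
    · have := cnt σ
      omega
  · rintro ⟨S, hS, hc⟩
    let σ : ℕ → Bool := fun v => decide (v ∈ S)
    refine ⟨hs σ, ?_⟩
    have h0 : (fE n E).countP (fun e => σ e.1 && σ e.2) = 0 := by
      refine List.countP_eq_zero.2 fun e he => ?_
      simp only [fE, List.mem_filter, Bool.and_eq_true, decide_eq_true_eq, Bool.not_eq_true',
        decide_eq_false_iff_not, σ] at he ⊢
      exact fun h => hS.2 _ h.1 _ h.2 he.2.2 he.1
    have h1 := cnt σ
    rw [show ((Finset.range n).filter fun v => σ v = true) = S by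
      ext v; simpa [σ] using hS.1 v] at h1
    have h2 := (A_eq (n := n) (hs σ)).2.2 fun _ _ h => ⟨h.1, trivial⟩
    have h3 : ∑ v : Fin n, (2 * d sx (cond (σ v) sx sy) + 2 * d sy (cond (σ v) sx sy) +
        d ⊥ (cond (σ v) sx sy)) ≤ 6 * n := by
      simpa [mul_comm] using Finset.sum_le_sum (s := Finset.univ) fun (v : Fin n) _ =>
        (block (cond (σ v) sx sy)).2.2 (by cases σ v <;> simp)
    rw [F_eq, Lt_eq, h0, L0]
    have a1 := Nat.mul_le_mul_left M' h2
    have a2 := Nat.mul_le_mul_left M h3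
    rw [← B_eq] at a2
    change M * (2 * d _ (hs σ) + 2 * d _ (hs σ) + d _ (hs σ)) ≤ _ at a2
    simp only [Nat.mul_zero, Nat.add_zero]
    omega

theorem hard : NPH (fun p : ℕ × List (List ℕ) × ℕ => ∀ L ∈ p.2.1, L.length = p.1)
    (fun p => ∃ Y, (p.2.1.map fun L => d (part p.1 L) Y).sum ≤ p.2.2) := by
  refine indep_nph.reduce (fun p => (p.1 * 4,
    (terms p.1 (fE p.1 p.2.1) (L0 p.1 (fE p.1 p.2.1).length p.2.2 + 1)
      ((L0 p.1 (fE p.1 p.2.1).length p.2.2 + 1) * (6 * p.1) +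
        (L0 p.1 (fE p.1 p.2.1).length p.2.2 + 1))).map (lst p.1),
    ((L0 p.1 (fE p.1 p.2.1).length p.2.2 + 1) * (6 * p.1) +
        (L0 p.1 (fE p.1 p.2.1).length p.2.2 + 1)) * (3 * p.1) +
      (L0 p.1 (fE p.1 p.2.1).length p.2.2 + 1) * (6 * p.1) + L0 p.1 (fE p.1 p.2.1).length p.2.2))
    ?_ ?_
  · unfold terms lst lab L0 fE tk t1 t2 cd
    fun_prop
  rintro ⟨n, E, k⟩ ⟨h1, h2⟩
  simp only at h1 h2 ⊢
  refine ⟨List.forall_mem_map.2 fun t _ => by simp [lst], Iff.trans ?_ ((main n E k (by omega) _ _ rfl rfl).symm.trans ?_)⟩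
  · exact exists_congr fun S => and_congr_right fun hS =>
      ⟨fun h => h.ge, fun h => le_antisymm (h2 S hS) h⟩
  · rw [(cIso (finProdFinEquiv (m := n) (n := 4)).symm).surjective.exists]
    simp only [List.map_map, Function.comp_def, part_lst, d_comap, F]

end Pool.Agent.H36.PMed
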