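import Pool.Agent.H36.PMedDefs

namespace Pool.Agent.H36.PMed

variable {S : Type}

def mg (X : Setoid S) (a b : S) : Setoid S where
  r u v := X u v ∨ (X u a ∧ X b v) ∨ (X u b ∧ X a v)
  iseqv := {
    refl := fun u => Or.inl (X.refl u)
    symm := by
      rintro u v (h | ⟨h, k⟩ | ⟨h, k⟩)
      · exact Or.inl (X.symm h)
      · exact Or.inr (Or.inr ⟨X.symm k, X.symm h⟩)
      · exact Or.inr (Or.inl ⟨X.symm k, X.symm h⟩)
    trans := by
      rintro u v w (h | ⟨h, k⟩ | ⟨h, k⟩) (h' | ⟨h', k'⟩ | ⟨h', k'⟩)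
      · exact Or.inl (X.trans h h')
      · exact Or.inr (Or.inl ⟨X.trans h h', k'⟩)
      · exact Or.inr (Or.inr ⟨X.trans h h', k'⟩)
      · exact Or.inr (Or.inl ⟨h, X.trans k h'⟩)
      · exact Or.inr (Or.inl ⟨h, k'⟩)
      · exact Or.inl (X.trans h k')
      · exact Or.inr (Or.inr ⟨h, X.trans k h'⟩)
      · exact Or.inl (X.trans h k')
      · exact Or.inr (Or.inr ⟨h, k'⟩) }

theorem mg_rel {X : Setoid S} {a b u v : S} :
    mg X a b u v ↔ X u v ∨ (X u a ∧ X b v) ∨ (X u b ∧ X a v) := Iff.rfl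

theorem join_iff {X Y : Setoid S} : Join X Y ↔ ∃ a b, ¬ X a b ∧ Y = mg X a b :=
  exists₂_congr fun _ _ => and_congr_right fun _ => ⟨fun h => Setoid.ext h, fun h => h ▸ fun _ _ => Iff.rfl⟩

theorem le_mg (X : Setoid S) (a b : S) : X ≤ mg X a b := fun _ _ h => Or.inl h

theorem mg_le {X W : Setoid S} {a b : S} (h : X ≤ W) (hab : W a b) : mg X a b ≤ W := by
  rintro u v (k | ⟨k, k'⟩ | ⟨k, k'⟩)
  · exact h k
  · exact W.trans (h k) (W.trans hab (h k'))
  · exact W.trans (h k) (W.trans (W.symm hab) (h k'))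

theorem mg_ab (X : Setoid S) (a b : S) : mg X a b a b := Or.inr (Or.inl ⟨X.refl _, X.refl _⟩)

theorem mg_sup (X Y : Setoid S) (a b : S) : mg X a b ⊔ Y = mg (X ⊔ Y) a b :=
  le_antisymm (sup_le (mg_le (le_sup_left.trans (le_mg _ _ _)) (mg_ab _ _ _))
    (le_sup_right.trans (le_mg _ _ _)))
    (mg_le (sup_le_sup_right (le_mg _ _ _) _) ((le_sup_left : mg X a b ≤ _) (mg_ab _ _ _)))

noncomputable def c (X : Setoid S) : ℕ := Nat.card (Quotient X)

theorem c_ker {T : Type} (f : S → T) : c (Setoid.ker f) = Nat.card (Set.range f) :=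
  Nat.card_congr (Setoid.quotientKerEquivRange f)

open Classical in
theorem c_mg [Finite S] (X : Setoid S) (a b : S) :
    c X = c (mg X a b) + if X a b then 0 else 1 := by
  split_ifs with h
  · rw [le_antisymm (mg_le le_rfl h) (le_mg _ _ _)]; rfl
  let f : S → Quotient X := fun u => if X u b then ⟦a⟧ else ⟦u⟧
  have e : mg X a b = Setoid.ker f := by
    ext u v
    rw [mg_rel, Setoid.ker_def]
    have q : ∀ u v, X u v ↔ (⟦u⟧ : Quotient X) = ⟦v⟧ := fun _ _ => Quotient.eq.symm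
    simp only [f, q] at h ⊢
    grind
  have e2 : Set.range f = {q | q ≠ ⟦b⟧} := by
    ext q
    constructor
    · rintro ⟨u, rfl⟩
      simp only [f, Set.mem_ofPred_eq]
      split_ifs with h1
      · exact fun e => h (Quotient.eq.1 e)
      · exact fun e => h1 (Quotient.eq.1 e)
    · intro hq
      induction q using Quotient.ind with | _ u =>
      exact ⟨u, if_neg fun h1 => hq (Quotient.eq.2 h1)⟩
  rw [e, c_ker, e2, c]
  have := Fintype.ofFinite (Quotient X)
  have : Nonempty (Quotient X) := ⟨⟦b⟧⟩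
  simp only [Nat.card_eq_fintype_card, Set.coe_ofPred, Fintype.card_subtype_compl,
    Fintype.card_unique, ne_eq]
  have := Fintype.card_pos (α := Quotient X)
  omega

theorem walk_up [Finite S] (W : Setoid S) : ∀ (k : ℕ) (X : Setoid S), c X = k → X ≤ W →
    ∃ p : (SimpleGraph.fromRel Join).Walk X W, p.length + c W = c X ∧ (X ≠ W → 0 < p.length) := by
  intro k
  induction k using Nat.strong_induction_on with | _ k ih =>
  intro X hk hX
  by_cases e : X = W
  · subst e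
    exact ⟨.nil, by simp, by simp⟩
  obtain ⟨a, b, h1, h2⟩ : ∃ a b, W a b ∧ ¬ X a b := by
    by_contra hh
    push Not at hh
    exact e (le_antisymm hX fun a b h => hh a b h)
  have hc := c_mg X a b
  rw [if_neg h2] at hc
  obtain ⟨p, hp, -⟩ := ih _ (by omega) (mg X a b) rfl (mg_le hX h1)
  refine ⟨.cons ((SimpleGraph.fromRel_adj _ _ _).2 ⟨fun e => h2 (e ▸ mg_ab X a b),
    Or.inl (join_iff.2 ⟨a, b, h2, rfl⟩)⟩) p, ?_, by simp⟩
  simp only [SimpleGraph.Walk.length_cons]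
  omega

theorem c_lt [Finite S] {X W : Setoid S} (h : X ≤ W) (e : X ≠ W) : c W < c X := by
  obtain ⟨p, h1, h2⟩ := walk_up W _ X rfl h
  have := h2 e
  omega

theorem c_le [Finite S] {X W : Setoid S} (h : X ≤ W) : c W ≤ c X := by
  obtain ⟨p, h1, -⟩ := walk_up W _ X rfl h
  omega

theorem walk_low [Finite S] {X Y : Setoid S} (p : (SimpleGraph.fromRel Join).Walk X Y) :
    c X + c Y ≤ p.length + 2 * c (X ⊔ Y) := by
  induction p with
  | nil => simp; omega
  | @cons X X' Y h p ih =>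
    simp only [SimpleGraph.Walk.length_cons]
    rcases ((SimpleGraph.fromRel_adj _ _ _).1 h).2 with h | h
    · obtain ⟨a, b, k, rfl⟩ := join_iff.1 h
      have h1 := c_mg X a b
      have h2 := c_mg (X ⊔ Y) a b
      rw [if_neg k] at h1
      rw [mg_sup] at ih
      omega
    · obtain ⟨a, b, k, rfl⟩ := join_iff.1 h
      have h1 := c_mg X' a b
      have h2 := c_mg (X' ⊔ Y) a b
      rw [if_neg k] at h1
      rw [mg_sup]
      split_ifs at h2 <;> omega

theorem d_eq [Finite S] (X Y : Setoid S) : d X Y + 2 * c (X ⊔ Y) = c X + c Y := by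
  obtain ⟨p, hp, -⟩ := walk_up (X ⊔ Y) _ X rfl le_sup_left
  obtain ⟨q, hq, -⟩ := walk_up (X ⊔ Y) _ Y rfl le_sup_right
  have h1 := SimpleGraph.dist_le (p.append q.reverse)
  obtain ⟨r, hr⟩ := (p.append q.reverse).reachable.exists_walk_length_eq_dist
  have h2 := walk_low r
  simp only [SimpleGraph.Walk.length_append, SimpleGraph.Walk.length_reverse] at h1
  unfold d
  omega

def cIso {T : Type} (e : S ≃ T) : Setoid T ≃o Setoid S where
  toFun X := X.comap e
  invFun X := X.comap e.symm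
  left_inv X := by ext; simp [Setoid.comap_rel]
  right_inv X := by ext; simp [Setoid.comap_rel]
  map_rel_iff' := by
    intro X Y
    constructor
    · intro h u v k
      have : Y (e (e.symm u)) (e (e.symm v)) := @h (e.symm u) (e.symm v)
        (show X (e (e.symm u)) (e (e.symm v)) by simpa using k)
      simpa using this
    · exact fun h u v k => h k

theorem c_comap {T : Type} (e : S ≃ T) (X : Setoid T) : c (cIso e X) = c X :=
  Nat.card_congr (Quotient.congr e fun _ _ => Iff.rfl)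

theorem d_comap [Finite S] {T : Type} [Finite T] (e : S ≃ T) (X Y : Setoid T) :
    d (cIso e X) (cIso e Y) = d X Y := by
  have h1 := d_eq X Y
  have h2 := d_eq (cIso e X) (cIso e Y)
  rw [← map_sup, c_comap, c_comap, c_comap] at h2
  omega

theorem c_bot [Fintype S] : c (⊥ : Setoid S) = Fintype.card S := by
  rw [← Setoid.injective_iff_ker_bot id |>.1 Function.injective_id, c_ker]
  simp

theorem c_top [Nonempty S] : c (⊤ : Setoid S) = 1 := by
  rw [show (⊤ : Setoid S) = Setoid.ker (fun _ => ()) by ext; simp [Setoid.ker_def], c_ker]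
  simp

variable {I : Type}

def bd (h : I → Setoid S) : Setoid (I × S) where
  r s t := s.1 = t.1 ∧ h s.1 s.2 t.2
  iseqv := {
    refl := fun s => ⟨rfl, (h _).refl _⟩
    symm := by rintro ⟨a, b⟩ ⟨c, d⟩ ⟨rfl, k⟩; exact ⟨rfl, (h _).symm k⟩
    trans := by rintro ⟨a, b⟩ ⟨c, d⟩ ⟨e, f⟩ ⟨rfl, k⟩ ⟨rfl, k'⟩; exact ⟨rfl, (h _).trans k k'⟩ }

theorem bd_rel {h : I → Setoid S} {s t : I × S} : bd h s t ↔ s.1 = t.1 ∧ h s.1 s.2 t.2 := Iff.rfl

theorem c_bd [Fintype I] [Finite S] (h : I → Setoid S) : c (bd h) = ∑ v, c (h v) := by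
  let f : I × S → Σ v, Quotient (h v) := fun s => ⟨s.1, ⟦s.2⟧⟩
  have e : bd h = Setoid.ker f := by
    ext ⟨a, b⟩ ⟨c, d⟩
    rw [bd_rel, Setoid.ker_def]
    constructor
    · rintro ⟨rfl, k⟩
      exact congrArg (Sigma.mk _) (Quotient.eq.2 k)
    · intro k
      obtain rfl : a = c := congrArg Sigma.fst k
      exact ⟨rfl, Quotient.eq.1 (eq_of_heq (Sigma.mk.inj k).2)⟩
  have hs : Function.Surjective f := by
    rintro ⟨v, q⟩
    induction q using Quotient.ind with | _ u => exact ⟨(v, u), rfl⟩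
  rw [e, c, Nat.card_congr (Setoid.quotientKerEquivOfSurjective f hs), Nat.card_sigma]
  rfl

theorem bd_sup (h g : I → Setoid S) : bd h ⊔ bd g = bd fun v => h v ⊔ g v := by
  apply le_antisymm
  · refine sup_le ?_ ?_
    · rintro s t ⟨e, k⟩; exact ⟨e, (le_sup_left : h _ ≤ _) k⟩
    · rintro s t ⟨e, k⟩; exact ⟨e, (le_sup_right : g _ ≤ _) k⟩
  · rintro ⟨a, b⟩ ⟨c, d⟩ ⟨rfl, k⟩
    have : h a ⊔ g a ≤ (bd h ⊔ bd g).comap (Prod.mk a) := sup_le
      (fun u v k => (le_sup_left : bd h ≤ _) ⟨rfl, k⟩)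
      (fun u v k => (le_sup_right : bd g ≤ _) ⟨rfl, k⟩)
    exact this k

theorem eq_bd {H : Setoid (I × S)} (h : H ≤ bd fun _ => ⊤) :
    H = bd fun v => H.comap (Prod.mk v) := by
  ext ⟨a, b⟩ ⟨c, d⟩
  constructor
  · intro k
    obtain rfl : a = c := (h k).1
    exact ⟨rfl, k⟩
  · rintro ⟨rfl, k⟩
    exact k

theorem d_bd [Fintype I] [Finite S] (h g : I → Setoid S) :
    d (bd h) (bd g) = ∑ v, d (h v) (g v) := by
  have h1 := d_eq (bd h) (bd g)
  rw [bd_sup, c_bd, c_bd, c_bd, ← Finset.sum_add_distrib,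
    ← Finset.sum_congr rfl fun v _ => d_eq (h v) (g v), Finset.sum_add_distrib,
    ← Finset.mul_sum] at h1
  omega

def sx : Setoid (Fin 4) := mg (mg ⊥ 0 1) 2 3
def sy : Setoid (Fin 4) := mg (mg ⊥ 0 2) 1 3

theorem sx_rel {u v : Fin 4} : sx u v ↔ u.val / 2 = v.val / 2 := by
  rw [sx, mg_rel]; simp only [mg_rel, Setoid.bot_def]; revert u v; decide

theorem sy_rel {u v : Fin 4} : sy u v ↔ u.val % 2 = v.val % 2 := by
  rw [sy, mg_rel]; simp only [mg_rel, Setoid.bot_def]; revert u v; decide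

open Classical in
theorem c4 (h : Setoid (Fin 4)) : c h = 1 + (if h 0 1 then 0 else 1) +
    (if mg h 0 1 0 2 then 0 else 1) + if mg (mg h 0 1) 0 2 0 3 then 0 else 1 := by
  have e : mg (mg (mg h 0 1) 0 2) 0 3 = ⊤ := by
    set W := mg (mg (mg h 0 1) 0 2) 0 3
    have h0 : ∀ i, W 0 i := by
      intro i
      fin_cases i
      · exact W.refl _
      · exact le_mg _ _ _ (le_mg _ _ _ (mg_ab _ _ _))
      · exact le_mg _ _ _ (mg_ab _ _ _)
      · exact mg_ab _ _ _
    ext u v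
    simpa using W.trans (W.symm (h0 u)) (h0 v)
  have h1 := c_mg h 0 1
  have h2 := c_mg (mg h 0 1) 0 2
  have h3 := c_mg (mg (mg h 0 1) 0 2) 0 3
  rw [e, c_top] at h3
  omega

theorem c_sx : c sx = 2 := by rw [c4]; simp [mg_rel, sx_rel]
theorem c_sy : c sy = 2 := by rw [c4]; simp [mg_rel, sy_rel]

theorem ext4 {h g : Setoid (Fin 4)} (h1 : h 0 1 ↔ g 0 1) (h2 : h 0 2 ↔ g 0 2) (h3 : h 0 3 ↔ g 0 3)
    (h4 : h 1 2 ↔ g 1 2) (h5 : h 1 3 ↔ g 1 3) (h6 : h 2 3 ↔ g 2 3) : h = g := by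
  ext u v
  have s : ∀ a b, h a b ↔ h b a := fun _ _ => ⟨h.symm, h.symm⟩
  have s' : ∀ a b, g a b ↔ g b a := fun _ _ => ⟨g.symm, g.symm⟩
  fin_cases u <;> fin_cases v <;> first | assumption | (rw [s, s']; assumption) | simp

theorem block (h : Setoid (Fin 4)) :
    6 ≤ 2 * d sx h + 2 * d sy h + d ⊥ h ∧
    (2 * d sx h + 2 * d sy h + d ⊥ h ≤ 6 ↔ h = sx ∨ h = sy) := by
  classical
  have e1 := d_eq sx h
  have e2 := d_eq sy h
  have e3 := d_eq ⊥ h
  rw [c_sx, sx, mg_sup, mg_sup, bot_sup_eq] at e1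
  rw [c_sy, sy, mg_sup, mg_sup, bot_sup_eq] at e2
  rw [bot_sup_eq, c_bot, Fintype.card_fin] at e3
  have a1 := c_mg h 0 1
  have a2 := c_mg (mg h 0 1) 2 3
  have a3 := c_mg h 0 2
  have a4 := c_mg (mg h 0 2) 1 3
  have a5 := c4 h
  have hx : h = sx ↔ h 0 1 ∧ h 2 3 ∧ ¬ h 0 2 := by
    constructor
    · rintro rfl; simp [sx_rel]
    · have s := @h.symm'
      have t := @h.trans'
      rintro ⟨h1, h2, h3⟩
      apply ext4 <;> simp [sx_rel] <;> grind
  have hy : h = sy ↔ h 0 2 ∧ h 1 3 ∧ ¬ h 0 1 := by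
    constructor
    · rintro rfl; simp [sy_rel]
    · have s := @h.symm'
      have t := @h.trans'
      rintro ⟨h1, h2, h3⟩
      apply ext4 <;> simp [sy_rel] <;> grind
  rw [hx, hy]
  have s : ∀ a b, h a b ↔ h b a := fun _ _ => ⟨h.symm, h.symm⟩
  have t := @h.trans'
  have r := h.refl'
  simp only [mg_rel, s 1 0, s 2 0, s 2 1, s 3 0, s 3 1, s 3 2, r, true_and, and_true] at a2 a4 a5
  change d sx h + _ = _ at e1
  change d sy h + _ = _ at e2
  have t1 := @t 1 0 2
  have t2 := @t 0 1 2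
  have t3 := @t 0 2 1
  have t4 := @t 1 0 3
  have t5 := @t 0 1 3
  have t6 := @t 0 3 1
  have t7 := @t 2 0 3
  have t8 := @t 0 2 3
  have t9 := @t 0 3 2
  have t10 := @t 2 1 3
  have t11 := @t 1 2 3
  have t12 := @t 1 3 2
  simp only [s 1 0, s 2 0, s 2 1, s 3 0, s 3 1, s 3 2] at *
  by_cases p1 : h 0 1 <;> by_cases p2 : h 0 2 <;> by_cases p3 : h 0 3 <;> by_cases p4 : h 1 2 <;>
    by_cases p5 : h 1 3 <;> by_cases p6 : h 2 3 <;>
    simp only [p1, p2, p3, p4, p5, p6, true_imp_iff, false_imp_iff, imp_false, not_true, not_false_iff,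
      if_true, if_false, and_true, and_false, true_and, false_and, or_true, true_or, or_false,
      false_or, iff_true, iff_false, not_le] at * <;> omega

end Pool.Agent.H36.PMed
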