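import Mathlib

namespace Pool.Agent.H36.PMed

variable {S : Type}

/-- `Y` arises from the partition `X` by replacing two different classes (those of `a` and of
`b`) by their union; a split is the converse of a join -/
def Join (X Y : Setoid S) : Prop :=
  ∃ a b, ¬ X a b ∧ ∀ u v, Y u v ↔ X u v ∨ (X u a ∧ X b v) ∨ (X u b ∧ X a v)

/-- least number of joins and splits that turn `X` into `Y` -/
noncomputable def d (X Y : Setoid S) : ℕ := (SimpleGraph.fromRel Join).dist X Y

/-- the partition of `Fin N` into the points with equal label -/
def part (N : ℕ) (L : List ℕ) : Setoid (Fin N) := Setoid.ker fun i => L.getD i.val 0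

end Pool.Agent.H36.PMed
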