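import Pool.Agent.H36.PSpaceDefs
import Pool.Agent.H36.Gr

/-!
PSPACE-hardness of succinct reachability (CNF transition relation).
-/

namespace Pool.Agent.H36.PSpace

open Pool.Agent.H38.NP Function Turing Turing.TM2

/-- internal form of PSPACE-hardness on a class `C` -/
def PSH {α : Type} [Enc α] (C P : α → Prop) : Prop :=
  ∀ A, InPSPACE A → ∀ c : Bool,
    ∃ g : Bits → α, PT g ∧ ∀ x, C (g x) ∧ ((x.val ∈ A ↔ c = true) ↔ P (g x))

section
variable {α β : Type} [Enc α] [Enc β]

theorem PSH.reduce {C P : α → Prop} {C' P' : β → Prop} (h : PSH C P) (f : α → β) (hf : PT f)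
    (e : ∀ a, C a → C' (f a) ∧ (P a ↔ P' (f a))) : PSH C' P' := fun A hA c =>
  let ⟨g, hg, hx⟩ := h A hA c
  ⟨fun x => f (g x), hf.comp hg, fun x => ⟨(e _ (hx x).1).1, (hx x).2.trans (e _ (hx x).1).2⟩⟩

theorem PSH.hardOn {C P : α → Prop} (h : PSH C P) : PSPACEHardOn C P := fun A hA =>
  let ⟨g, hg, hx⟩ := h A hA true
  ⟨_, PT.polyTime hg.raw, fun x => ⟨g ⟨x⟩, rfl, (hx ⟨x⟩).1, by simpa using (hx ⟨x⟩).2⟩⟩

theorem PSH.compl {C P : α → Prop} (h : PSH C P) : PSH C fun a => ¬ P a := fun A hA c =>
  let ⟨g, hg, hx⟩ := h A hA (!c)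
  ⟨g, hg, fun x => ⟨(hx x).1, by simp only [← (hx x).2]; cases c <;> simp⟩⟩

theorem PSH.hard [EncInj α] {C P Q : α → Prop} (h : PSH C P) (e : ∀ a, C a → (P a ↔ Q a)) :
    PSPACEHard (lang Q) := fun A hA =>
  let ⟨g, hg, hx⟩ := h A hA true
  ⟨_, PT.polyTime hg.raw, fun x => by
    rw [raw_val, enc_mem_lang, ← e _ (hx ⟨x⟩).1]; simpa using (hx ⟨x⟩).2⟩

end

def By {V : Type} (a : V → Bool) (C : List (V × Bool)) : Prop := ∃ l ∈ C, a l.1 = l.2

theorem tts_off {K : Type} [DecidableEq K] {Γ : K → Type} {Λ σ : Type} (M : Λ → Stmt Γ Λ σ)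
    (ks G D) (C) (hC : C ∈ TTs M ks G D) : ∀ l ∈ C, l.1 ≤ 1 := by
  simp only [TTs, Set.mem_iUnion, Set.mem_union, Set.mem_insert_iff, Set.mem_singleton_iff,
    Set.mem_ofPred_eq] at hC
  obtain ⟨ω, hω, hC⟩ := hC
  rcases hC with (rfl | rfl) | ⟨k, ⟨j, hj, rfl⟩ | ⟨o, ho, rfl⟩⟩
  · intro l hl
    simp only [T1, List.mem_cons, List.mem_flatMap, List.mem_map] at hl
    rcases hl with rfl | rfl | ⟨_, _, _, _, rfl⟩ <;> simp
  all_goals simp

theorem ptab {L : Set (List Bool)} (hL : InPSPACE L) (cb : Bool) :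
    ∃ (A : Type) (_ : A) (TT TB IC I0 I1 IB FIN : List (List (TL A))) (D : ℕ) (τ : Polynomial ℕ),
      (∀ C ∈ TT ++ TB, ∀ l ∈ C, l.1 ≤ 1) ∧ (∀ C ∈ IC ++ I0 ++ I1 ++ IB ++ FIN, ∀ l ∈ C, l.1 = 0) ∧
      ∀ (y : List Bool), (y ∈ L ↔ cb = true) ↔ ∃ (T : ℕ) (a : ℕ × ℕ × A → Bool),
        (∀ i < τ.eval y.length + D + 2, ∀ C ∈ IC ++ sel I0 I1 IB IB y 0 i, By a (inst 0 i C)) ∧
        (∀ t < T, (∀ i < τ.eval y.length + D + 2, ∀ C ∈ TT, By a (inst t i C)) ∧
          ∀ i < D + 2, ∀ C ∈ TB, By a (inst t (τ.eval y.length + i) C)) ∧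
        ∀ C ∈ FIN, By a (inst T 0 C) := by
  classical
  obtain ⟨f, ⟨⟨tm, ia, oa⟩, hout⟩, τ, hf, hsp⟩ := hL
  have := tm.kFin
  have := tm.ΛFin
  have := tm.σFin
  let M := tm.m
  let G : Set (Σ k, tm.Γ k) := (⋃ l, syms (M l)) ∪ Set.range fun b : Bool => ⟨tm.k₀, ia.symm b⟩
  have hGf : G.Finite := (Set.finite_iUnion fun l => syms_finite _).union (Set.finite_range _)
  have hG : ∀ l, syms (M l) ⊆ G := fun l x hx => Or.inl (Set.mem_iUnion.2 ⟨l, hx⟩)
  let D := Finset.univ.sup fun l => depth (M l)
  have hD : ∀ l, depth (M l) ≤ D := fun l =>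
    Finset.le_sup (f := fun l => depth (M l)) (Finset.mem_univ l)
  let ks : List tm.K := Finset.univ.toList
  have hks : ∀ k, k ∈ ks := fun k => by simp [ks]
  let A := Atom tm.Γ tm.Λ tm.σ
  let bl : A := X tm.k₀ none
  let sy : Bool → A := fun b => X tm.k₀ (some (ia.symm b))
  let FINs : Set (List (TL A)) :=
    cond cb
    ((fun o => [(0, 0, false, X tm.k₁ o, false)]) '' (GoodO G tm.k₁ \ {some (oa.symm true)}) ∪
    (fun o => [(0, 1, false, X tm.k₁ o, false)]) '' (GoodO G tm.k₁ \ {none}))
    {[(0, 0, false, X tm.k₁ (some (oa.symm true)), false), (0, 1, false, X tm.k₁ none, false)]} ∪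
    Set.range fun s : tm.Λ × tm.σ => [(0, 0, false, Sum.inr (Sum.inl (some s.1, s.2)), false)]
  have hFIN : FINs.Finite := by
    refine Set.Finite.union ?_ (Set.finite_range _)
    cases cb
    · exact Set.finite_singleton _
    · exact (((goodO_finite hGf _).sdiff).image _).union (((goodO_finite hGf _).sdiff).image _)
  let c0 : List Bool → Cfg tm.Γ tm.Λ tm.σ := fun u => initList tm (u.map ia.symm)
  have hgood0 : ∀ u, Good G (c0 u).stk := by
    intro u k a ha
    by_cases e : k = tm.k₀
    · subst e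
      simp only [c0, initList_k0, List.mem_map] at ha
      obtain ⟨b, -, rfl⟩ := ha
      exact Or.inr ⟨b, rfl⟩
    · simp [c0, initList_ne tm _ e] at ha
  have hgood : ∀ u t, Good G ((nxt M)^[t] (c0 u)).stk := by
    intro u t
    induction t with
    | zero => exact hgood0 u
    | succ t ih => rw [iterate_succ_apply']; exact good_nxt M hG _ ih
  have hspace : ∀ u t k, (((nxt M)^[t] (c0 u)).stk k).length ≤ τ.eval u.length := by
    intro u t
    refine hsp u _ ?_
    induction t with
    | zero => exact Relation.ReflTransGen.refl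
    | succ t ih =>
      rw [iterate_succ_apply']
      generalize (nxt M)^[t] (c0 u) = c at ih ⊢
      cases e : TM2.step M c with
      | none => simpa [nxt, e] using ih
      | some d => exact ih.tail (by simp only [nxt, e, Option.getD_some]; exact e)
  have hrun : ∀ (u : List Bool), ∃ T, (nxt M)^[T] (c0 u) = haltList tm ((f u).map oa.symm) :=
    fun u => ⟨_, iter_nxt M (hout u).evals_in_steps⟩
  have hfix : ∀ c : Cfg tm.Γ tm.Λ tm.σ, c.l = none → ∀ n, (nxt M)^[n] c = c := by
    rintro ⟨l, v, S⟩ h n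
    cases h
    exact iterate_fixed rfl n
  refine ⟨A, bl, (tts_finite M ks hGf D).toFinset.toList,
    ks.map (fun k => [(1, 0, true, X k none, true)]),
    [(0, 0, false, Z (c0 []), true)] ::
      (ks.filter (· ≠ tm.k₀)).map (fun k => [(0, 0, true, X k none, true)]),
    [[(0, 0, true, sy false, true)]], [[(0, 0, true, sy true, true)]],
    [[(0, 0, true, bl, true)]], hFIN.toFinset.toList, D, τ, ?_, ?_, fun y => ?_⟩
  · intro C hC
    rcases List.mem_append.1 hC with hC | hC
    · exact tts_off M ks G D C (by simpa using hC)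
    · obtain ⟨k, -, rfl⟩ := List.mem_map.1 hC
      simp
  · intro C hC
    simp only [List.mem_append, List.mem_cons, List.mem_map, List.not_mem_nil, or_false,
      Finset.mem_toList, Set.Finite.mem_toFinset] at hC
    rcases hC with ((((rfl | ⟨k, -, rfl⟩) | rfl) | rfl) | rfl) | (hC | ⟨o, rfl⟩)
    any_goals simp; done
    cases cb
    · cases hC; simp
    · rcases hC with ⟨o, -, rfl⟩ | ⟨o, -, rfl⟩ <;> simp
  generalize hS : τ.eval y.length = S
  have hsp' : ∀ t k, (((nxt M)^[t] (c0 y)).stk k).length ≤ S := fun t k => hS ▸ hspace y t k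
  rw [hf]
  constructor
  · intro hfy
    obtain ⟨T, hT⟩ := hrun y
    let c : ℕ → Cfg tm.Γ tm.Λ tm.σ := fun t => (nxt M)^[t] (c0 y)
    let a : ℕ × ℕ × A → Bool := fun v => decide (Holds D (c v.1) v.2.1 v.2.2)
    have ha : ∀ t i x, a (t, i, x) = true ↔ Holds D (c t) i x := by simp [a]
    have ha' : ∀ t i x, a (t, i, x) = false ↔ ¬ Holds D (c t) i x := by simp [a]
    have hc0 : (c 0).stk tm.k₀ = y.map ia.symm := initList_k0 _ _
    refine ⟨T, a, fun i _ C hC => ?_, fun t _ => ⟨fun i _ C hC => ?_, fun i _ C hC => ?_⟩,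
      fun C hC => ?_⟩
    · rcases List.mem_append.1 hC with hC | hC
      · simp only [List.mem_cons, List.mem_map, List.mem_filter] at hC
        rcases hC with rfl | ⟨k, ⟨-, hk⟩, rfl⟩
        · simp [By, inst, ha, Holds, Z, c, c0, initList]
        · have : (c 0).stk k = [] := initList_ne tm _ (by simpa using hk)
          simp [By, inst, ha, Holds, X, this]
      · by_cases h1 : i < y.length
        · have e1 : (y.map ia.symm)[i]? = some (ia.symm y[i]) := by simp [h1]
          have : C = [(0, 0, true, sy y[i], true)] := by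
            simp only [sel, h1, decide_true, cond_true, List.getD_eq_getElem _ _ h1] at hC
            revert hC
            cases y[i] <;> simp
          subst this
          simp [By, inst, ha, Holds, X, sy, hc0, e1, -List.getElem?_map]
        · simp only [sel, h1, decide_false, cond_false, Bool.cond_self, List.mem_cons,
            List.not_mem_nil, or_false] at hC
          subst hC
          simp [By, inst, ha, Holds, bl, X, hc0]
          omega
    · exact tts_complete M hks hD c a ha t i (iterate_succ_apply' _ _ _) C (by simpa using hC)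
    · obtain ⟨k, -, rfl⟩ := List.mem_map.1 hC
      have := hsp' (t + 1) k
      simp [By, inst, ha, Holds, X]
      exact this.trans (by omega)
    · have hr : (c T).stk tm.k₁ = (f y).map oa.symm := by
        simp only [c, hT, haltList_k1]
      simp only [Finset.mem_toList, Set.Finite.mem_toFinset] at hC
      rcases hC with hC | ⟨s, rfl⟩
      swap
      · simp [By, inst, ha', Holds, c, hT, haltList]
      cases cb
      · cases hC
        rcases e : f y with _ | ⟨b, _ | _⟩
        · simp [By, inst, ha', Holds, X, hr, e]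
        · cases b
          · simp [By, inst, ha', Holds, X, hr, e]
          · simp [e] at hfy
        · simp [By, inst, ha', Holds, X, hr, e]
      rw [hfy.2 rfl] at hr
      rcases hC with ⟨o, ⟨-, ho⟩, rfl⟩ | ⟨o, ⟨-, ho⟩, rfl⟩
      · simpa [By, inst, ha', Holds, X, hr, eq_comm] using ho
      · simpa [By, inst, ha', Holds, X, hr, eq_comm] using ho
  · rintro ⟨T, a, hI, hTT, hF⟩
    simp only [Finset.mem_toList, Set.Finite.mem_toFinset] at hF hTT
    have h0 : ∀ k, ∀ i < S + D + 2, a (0, i, X k ((c0 y).stk k)[i]?) = true := by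
      intro k i hi
      by_cases e : k = tm.k₀
      · subst e
        simp only [c0, initList_k0]
        by_cases h1 : i < y.length
        · have e1 : (y.map ia.symm)[i]? = some (ia.symm y[i]) := by simp [h1]
          rw [e1]
          have := hI i hi [(0, 0, true, sy y[i], true)] (List.mem_append_right _ (by
            simp only [sel, h1, decide_true, cond_true, List.getD_eq_getElem _ _ h1]
            cases y[i] <;> simp))
          simpa [By, inst] using this
        · rw [List.getElem?_eq_none (by simp only [List.length_map]; omega)]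
          have := hI i hi [(0, 0, true, bl, true)] (List.mem_append_right _ (by simp [sel, h1]))
          simpa [By, inst] using this
      · simp only [c0, initList_ne tm _ e]
        have := hI i hi [(0, 0, true, X k none, true)] (List.mem_append_left _ (by
          simp only [List.mem_cons, List.mem_map, List.mem_filter]
          exact Or.inr ⟨k, ⟨hks k, by simpa using e⟩, rfl⟩))
        simpa [By, inst] using this
    have hinv : ∀ t ≤ T, a (t, 0, Z ((nxt M)^[t] (c0 y))) = true ∧
        ∀ k, ∀ i < S + D + 2, a (t, i, X k (((nxt M)^[t] (c0 y)).stk k)[i]?) = true := by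
      intro t ht
      induction t with
      | zero =>
        refine ⟨?_, by simpa using h0⟩
        have := hI 0 (by omega) [(0, 0, false, Z (c0 []), true)] (by simp)
        have h2 : a (0, 0, Z (c0 [])) = true := by simpa [By, inst] using this
        exact h2
      | succ t ih =>
        obtain ⟨h1, h2⟩ := ih (by omega)
        have h3 := tts_sound M hD _ (hgood y t) a t S (N := S + D + 2) (by omega)
          (hTT t (by omega)).1 (by omega) h1 (fun k i hi => h2 k i (by omega))
        rw [← iterate_succ_apply' (nxt M)] at h3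
        refine ⟨h3.1, fun k i hi => ?_⟩
        by_cases h : i < S
        · exact h3.2 k i h
        · obtain ⟨j, rfl⟩ := Nat.exists_eq_add_of_le (not_lt.1 h)
          rw [List.getElem?_eq_none ((hsp' _ k).trans (by omega))]
          have := (hTT t (by omega)).2 j (by omega) _ (List.mem_map.2 ⟨k, hks k, rfl⟩)
          simpa [By, inst] using this
    obtain ⟨hZ, hfin⟩ := hinv T le_rfl
    have hl : ((nxt M)^[T] (c0 y)).l = none := by
      by_contra hne
      obtain ⟨l, hl⟩ := Option.ne_none_iff_exists'.1 hne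
      have := hF _ (Or.inr ⟨(l, ((nxt M)^[T] (c0 y)).var), rfl⟩)
      simp only [Z, hl] at hZ
      simp [By, inst, hZ] at this
    obtain ⟨T', hT'⟩ := hrun y
    have hr : ((nxt M)^[T] (c0 y)).stk tm.k₁ = (f y).map oa.symm := by
      have e1 := hfix _ hl T'
      have e2 := hfix (haltList tm ((f y).map oa.symm)) rfl T
      rw [← iterate_add_apply] at e1
      rw [← hT', ← iterate_add_apply, Nat.add_comm, e1] at e2
      rw [e2, hT', haltList_k1]
    replace hfin := hfin tm.k₁
    have hg := goodO_get (hgood y T) tm.k₁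
    rw [hr] at hfin hg
    cases cb
    · simp only [Bool.false_eq_true, iff_false]
      intro e
      have := hF _ (Or.inl rfl)
      have g0 := hfin 0 (by omega)
      have g1 := hfin 1 (by omega)
      simp [e] at g0 g1
      simp [By, inst, g0, g1] at this
    simp only [iff_true]
    have e0 : ((f y).map oa.symm)[0]? = some (oa.symm true) := by
      by_contra hne
      have := hF _ (Or.inl (Or.inl ⟨_, ⟨hg 0, hne⟩, rfl⟩))
      simp [By, inst, -List.getElem?_map, hfin 0 (by omega)] at this
    have e1 : ((f y).map oa.symm)[1]? = none := by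
      by_contra hne
      have := hF _ (Or.inl (Or.inr ⟨_, ⟨hg 1, hne⟩, rfl⟩))
      simp [By, inst, -List.getElem?_map, hfin 1 (by omega)] at this
    rcases hfy : f y with _ | ⟨b, _ | _⟩
    · simp [hfy] at e0
    · simpa [hfy] using e0
    · simp [hfy] at e1

/-- succinct reachability: initial clauses, transition clauses (`false` = old state,
`true` = new state) and final clauses -/
def Reach (p : CNF ℕ × CNF (Bool × ℕ) × CNF ℕ) : Prop :=
  ∃ (T : ℕ) (a : ℕ → ℕ → Bool), (∀ C ∈ p.1, By (a 0) C) ∧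
    (∀ t < T, ∀ C ∈ p.2.1, By (fun v => a (t + v.1.toNat) v.2) C) ∧ ∀ C ∈ p.2.2, By (a T) C

def in1 (i : ℕ) (C : List (TL ℕ)) : List (ℕ × Bool) :=
  C.map fun l => (Nat.pair (cond l.2.2.1 i 0 + l.2.1) l.2.2.2.1, l.2.2.2.2)

def in2 (i : ℕ) (C : List (TL ℕ)) : List ((Bool × ℕ) × Bool) :=
  C.map fun l => ((decide (l.1 = 1), Nat.pair (cond l.2.2.1 i 0 + l.2.1) l.2.2.2.1), l.2.2.2.2)

theorem pt_rb (TT TB IC I0 I1 IB FIN : List (List (TL ℕ))) (D : ℕ) :
    PT fun p : List Bool × ℕ => ((List.range (p.2 + D + 2)).flatMap fun i =>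
      (IC ++ sel I0 I1 IB IB p.1 0 i).map (in1 i),
    ((List.range (p.2 + D + 2)).flatMap fun i => TT.map (in2 i)) ++
      ((List.range (D + 2)).flatMap fun i => TB.map (in2 (p.2 + i))), FIN.map (in1 0)) := by
  unfold in1 in2 sel
  fun_prop

theorem reach_psh : PSH (fun _ => True) Reach := by
  classical
  intro L hL cb
  obtain ⟨A, d, TT, TB, IC, I0, I1, IB, FIN, D, τ, o1, o0, h⟩ := ptab hL cb
  let atoms : List A := (TT ++ TB ++ (IC ++ I0 ++ I1 ++ IB ++ FIN)).flatten.map fun l => l.2.2.2.1
  let c : A → ℕ := fun x => atoms.idxOf x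
  let m := fun C : List (TL A) => C.map fun l => ((l.1, l.2.1, l.2.2.1, c l.2.2.2.1, l.2.2.2.2) : TL ℕ)
  have hsel : ∀ y i, sel (mapT c I0) (mapT c I1) (mapT c IB) (mapT c IB) y 0 i
      = mapT c (sel I0 I1 IB IB y 0 i) := by
    intro y i; unfold sel
    cases decide (i < y.length) <;> cases y.getD i false <;> cases decide (i < y.length + 0) <;> rfl
  have hsub : ∀ y i, ∀ C ∈ IC ++ sel I0 I1 IB IB y 0 i, C ∈ IC ++ I0 ++ I1 ++ IB ++ FIN := by
    intro y i C; unfold sel
    cases decide (i < y.length) <;> cases y.getD i false <;> cases decide (i < y.length + 0) <;>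
      simp +contextual [or_imp]
  refine ⟨fun x => ((List.range (τ.eval x.val.length + D + 2)).flatMap fun i =>
      (mapT c IC ++ sel (mapT c I0) (mapT c I1) (mapT c IB) (mapT c IB) x.val 0 i).map (in1 i),
    ((List.range (τ.eval x.val.length + D + 2)).flatMap fun i => (mapT c TT).map (in2 i)) ++
      ((List.range (D + 2)).flatMap fun i => (mapT c TB).map (in2 (τ.eval x.val.length + i))),
    (mapT c FIN).map (in1 0)), ?_, fun x => ⟨trivial, ?_⟩⟩
  · have hT : PT fun x : Bits => τ.eval x.val.length := PT.polyEval τ (by fun_prop)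
    exact (pt_rb _ _ _ _ _ _ _ D).comp (g := fun x : Bits => (x.val, τ.eval x.val.length))
      (PT.mk (by fun_prop) hT)
  have k1 : ∀ (a : ℕ × ℕ × A → Bool) (b : ℕ → ℕ → Bool),
      (∀ t i, ∀ x ∈ atoms, a (t, i, x) = b t (Nat.pair i (c x))) →
      (∀ t i, ∀ C ∈ IC ++ I0 ++ I1 ++ IB ++ FIN, (By a (inst t i C) ↔ By (b t) (in1 i (m C)))) ∧
      (∀ t i, ∀ C ∈ TT ++ TB, (By a (inst t i C) ↔
        By (fun v => b (t + v.1.toNat) v.2) (in2 i (m C)))) := by
    intro a b hab
    constructor
    · intro t i C hC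
      simp only [By, inst, in1, m, List.map_map, List.mem_map, exists_exists_and_eq_and, comp]
      refine exists_congr fun l => and_congr_right fun hl => ?_
      rw [hab _ _ _ (List.mem_map.2 ⟨l, List.mem_flatten.2 ⟨C, List.mem_append_right _ hC, hl⟩,
        rfl⟩), o0 C hC l hl, Nat.add_zero]
    · intro t i C hC
      simp only [By, inst, in2, m, List.map_map, List.mem_map, exists_exists_and_eq_and, comp]
      refine exists_congr fun l => and_congr_right fun hl => ?_
      rw [hab _ _ _ (List.mem_map.2 ⟨l, List.mem_flatten.2 ⟨C, List.mem_append_left _ hC, hl⟩,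
        rfl⟩)]
      have := o1 C hC l hl
      obtain h | h : l.1 = 0 ∨ l.1 = 1 := by omega
      all_goals simp [h]
  have k2 : ∀ (T) (a : ℕ × ℕ × A → Bool) (b : ℕ → ℕ → Bool),
      (∀ t i, ∀ x ∈ atoms, a (t, i, x) = b t (Nat.pair i (c x))) →
      (((∀ i < τ.eval x.val.length + D + 2, ∀ C ∈ IC ++ sel I0 I1 IB IB x.val 0 i,
          By a (inst 0 i C)) ∧
        (∀ t < T, (∀ i < τ.eval x.val.length + D + 2, ∀ C ∈ TT, By a (inst t i C)) ∧
          ∀ i < D + 2, ∀ C ∈ TB, By a (inst t (τ.eval x.val.length + i) C)) ∧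
        ∀ C ∈ FIN, By a (inst T 0 C)) ↔
      ((∀ C ∈ (List.range (τ.eval x.val.length + D + 2)).flatMap fun i =>
        (mapT c IC ++ sel (mapT c I0) (mapT c I1) (mapT c IB) (mapT c IB) x.val 0 i).map (in1 i),
          By (b 0) C) ∧
        (∀ t < T, ∀ C ∈ ((List.range (τ.eval x.val.length + D + 2)).flatMap fun i =>
          (mapT c TT).map (in2 i)) ++ ((List.range (D + 2)).flatMap fun i =>
          (mapT c TB).map (in2 (τ.eval x.val.length + i))),
          By (fun v => b (t + v.1.toNat) v.2) C) ∧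
        ∀ C ∈ (mapT c FIN).map (in1 0), By (b T) C)) := by
    intro T a b hab
    obtain ⟨e1, e2⟩ := k1 a b hab
    have hm : ∀ l, mapT c l = l.map m := fun _ => rfl
    simp only [hsel]
    simp only [hm, ← List.map_append, List.forall_mem_append, List.forall_mem_flatMap,
      List.forall_mem_map, List.mem_range, List.map_map]
    refine and_congr (forall₂_congr fun i _ => ?_) (and_congr (forall₂_congr fun t _ =>
      and_congr (forall₂_congr fun i _ => forall₂_congr fun C hC => e2 _ _ _ (by simp [hC]))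
        (forall₂_congr fun i _ => forall₂_congr fun C hC => e2 _ _ _ (by simp [hC])))
      (forall₂_congr fun C hC => e1 _ _ _ (by simp [hC])))
    rw [← List.forall_mem_append, ← List.forall_mem_append]
    exact forall₂_congr fun C hC => e1 _ _ _ (hsub _ _ _ hC)
  rw [h]
  refine exists_congr fun T => ⟨?_, ?_⟩
  · rintro ⟨a, ha⟩
    refine ⟨fun t n => a (t, n.unpair.1, atoms.getD n.unpair.2 d),
      (k2 T a (fun t n => a (t, n.unpair.1, atoms.getD n.unpair.2 d)) fun t i x hx => ?_).1 ha⟩
    simp [c, List.idxOf_lt_length_of_mem hx]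
  · rintro ⟨b, hb⟩
    exact ⟨fun v => b v.1 (Nat.pair v.2.1 (c v.2.2)), (k2 T _ b fun _ _ _ _ => rfl).2 hb⟩

end Pool.Agent.H36.PSpace
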