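import Pool.Agent.H38.NP.Defs

/-!
The class PSPACE for the stack Turing machines of Mathlib.
-/

namespace Pool.Agent.H36.PSpace

open Pool.Agent.H38.NP

/-- `L` is decided by a deterministic machine (Mathlib `TM2Computable`, halting on every input)
all of whose stacks have polynomially bounded length in every configuration of the run. -/
def InPSPACE (L : Set (List Bool)) : Prop :=
  ∃ (f : List Bool → List Bool)
    (M : Turing.TM2Computable (id : List Bool → List Bool) (id : List Bool → List Bool) f)
    (p : Polynomial ℕ), (∀ x, x ∈ L ↔ f x = [true]) ∧
    ∀ (x : List Bool) c, Relation.ReflTransGen (fun a b => M.tm.step a = some b)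
      (Turing.initList M.tm (x.map M.inputAlphabet.invFun)) c →
      ∀ k, (c.stk k).length ≤ p.eval x.length

/-- PSPACE-hardness under polynomial-time many-one reductions. -/
def PSPACEHard (B : Set (List Bool)) : Prop := ∀ A, InPSPACE A → Reduces A B

/-- The decision problem `P`, restricted to inputs in the class `C`, is PSPACE-hard: every
language in PSPACE has a polynomial-time many-one reduction to it whose values are codes of
members of `C`. -/
def PSPACEHardOn {α : Type} [Enc α] (C P : α → Prop) : Prop :=
  ∀ A, InPSPACE A → ∃ f, PolyTime f ∧ ∀ x, ∃ a, f x = enc a ∧ C a ∧ (x ∈ A ↔ P a)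

end Pool.Agent.H36.PSpace
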