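import Pool.Agent.H36.PSysDefs
import Pool.Agent.H36.Gr

namespace Pool.Agent.H36.PSys

open Pool.Agent.H38.NP Pool.Agent.H36.Gr

def tri (n : ℕ) (R : ℕ → ℕ → ℕ → Bool) : List (List ℕ) :=
  (List.range n).flatMap fun u => (List.range n).flatMap fun v =>
    ((List.range n).filter fun w => R u v w).map fun w => [u, w, v]

def ed (n : ℕ) (R : ℕ → ℕ → ℕ → Bool) : List (ℕ × ℕ) :=
  edgesOf n fun u v => decide (u < v) && !(List.range n).any fun w => R u v w || R v u w

def mk (n : ℕ) (R : ℕ → ℕ → ℕ → Bool) : Inst :=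
  (n, ed n R, tri n R ++ (ed n R).map fun p => [p.1, p.2])

section
variable {n : ℕ} {R : ℕ → ℕ → ℕ → Bool}

theorem mem_ed {u v} : (u, v) ∈ ed n R ↔
    u < v ∧ v < n ∧ ∀ w < n, R u v w = false ∧ R v u w = false := by
  simp only [ed, mem_edgesOf]
  simp only [Bool.and_eq_true, decide_eq_true_eq, Bool.not_eq_true', List.any_eq_false,
    List.mem_range, Bool.or_eq_true, not_or, Bool.not_eq_true]
  exact ⟨fun h => ⟨h.2.2.1, h.2.1, h.2.2.2⟩, fun h => ⟨by omega, h.2.1, h.1, h.2.2⟩⟩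

theorem mem_mk {P} : P ∈ (mk n R).2.2 ↔
    (∃ u < n, ∃ v < n, ∃ w < n, R u v w = true ∧ P = [u, w, v]) ∨
      ∃ u v, (u, v) ∈ ed n R ∧ P = [u, v] := by
  simp only [mk, tri, List.mem_append, List.mem_flatMap, List.mem_map, List.mem_range,
    List.mem_filter, Prod.exists, and_assoc, eq_comm (b := P)]

theorem valid_mk (h1 : ∀ u v w, R u v w = true → u ≠ v ∧ u ≠ w ∧ v ≠ w)
    (h2 : ∀ u v w z, R u v w = true → R u w z = false ∧ R w u z = false ∧ R v w z = false ∧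
      R w v z = false ∧ R v u z = false ∧ (R u v z = true → z = w)) : Valid (mk n R) := by
  have e : ∀ a < n, ∀ b < n, a ≠ b → (∀ z, R a b z = false ∧ R b a z = false) →
      (a, b) ∈ ed n R ∨ (b, a) ∈ ed n R := fun a ha b hb ab h =>
    (lt_or_gt_of_ne ab).imp (fun c => mem_ed.2 ⟨c, hb, fun z _ => h z⟩)
      fun c => mem_ed.2 ⟨c, ha, fun z _ => (h z).symm⟩
  have e1 : ∀ u < n, ∀ v, ∀ w < n, R u v w = true → (u, w) ∈ ed n R ∨ (w, u) ∈ ed n R :=
    fun u hu v w hw h => e u hu w hw (h1 _ _ _ h).2.1 fun z => ⟨(h2 _ _ _ z h).1, (h2 _ _ _ z h).2.1⟩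
  have e2 : ∀ u, ∀ v < n, ∀ w < n, R u v w = true → (w, v) ∈ ed n R ∨ (v, w) ∈ ed n R :=
    fun u v hv w hw h => e w hw v hv (h1 _ _ _ h).2.2.symm fun z =>
      ⟨(h2 _ _ _ z h).2.2.2.1, (h2 _ _ _ z h).2.2.1⟩
  refine ⟨List.nodup_append.2 ⟨?_, ?_, ?_⟩, fun P hP => ?_, fun u hu v hv uv => ?_,
    fun P hP Q hQ l => ?_⟩
  · refine List.nodup_flatMap.2 ⟨fun a _ => List.nodup_flatMap.2 ⟨fun b _ =>
      (List.nodup_range.filter _).map fun a b e => by simpa using e, ?_⟩, ?_⟩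
    · refine List.nodup_range.imp fun hne => ?_
      simp only [Function.onFun, List.disjoint_left, List.mem_map]
      rintro _ ⟨p, -, rfl⟩ ⟨q, -, e⟩
      simp at e; omega
    · refine List.nodup_range.imp fun hne => ?_
      simp only [Function.onFun, List.disjoint_left, List.mem_map, List.mem_flatMap]
      rintro _ ⟨b, -, p, -, rfl⟩ ⟨b', -, q, -, e⟩
      simp at e; omega
  · refine List.Nodup.map (fun a b e => Prod.ext (by simp_all) (by simp_all)) ?_
    refine List.nodup_flatMap.2 ⟨fun a _ => (List.nodup_range.filter _).map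
      fun a b e => by simpa using e, List.nodup_range.imp fun hne => ?_⟩
    simp only [Function.onFun, List.disjoint_left, List.mem_map]
    rintro _ ⟨p, -, rfl⟩ ⟨q, -, e⟩
    simp at e; omega
  · simp only [tri, List.mem_flatMap, List.mem_map]
    rintro _ ⟨u, -, v, -, w, -, rfl⟩ _ ⟨p, -, rfl⟩
    simp
  · rcases mem_mk.1 hP with ⟨u, hu, v, hv, w, hw, h, rfl⟩ | ⟨u, v, h, rfl⟩
    · have := h1 u v w h
      exact ⟨by simp; omega, by simp, by simp [mk, hu, hv, hw],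
        by simpa using ⟨e1 u hu v w hw h, e2 u v hv w hw h⟩⟩
    · have := mem_ed.1 h
      exact ⟨by simp; omega, by simp, by simp [mk]; omega, by simp [mk, h]⟩
  · refine existsUnique_of_exists_of_unique ?_ ?_
    · by_cases c : ∃ w < n, R u v w = true ∨ R v u w = true
      · obtain ⟨w, hw, c | c⟩ := c
        · exact ⟨_, mem_mk.2 (Or.inl ⟨u, hu, v, hv, w, hw, c, rfl⟩), by simp [Joins]⟩
        · exact ⟨_, mem_mk.2 (Or.inl ⟨v, hv, u, hu, w, hw, c, rfl⟩), by simp [Joins]⟩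
      · push Not at c
        rcases lt_or_gt_of_ne uv with d | d
        · exact ⟨_, mem_mk.2 (Or.inr ⟨u, v, mem_ed.2 ⟨d, hv, by simpa using c⟩, rfl⟩),
            by simp [Joins]⟩
        · exact ⟨_, mem_mk.2 (Or.inr ⟨v, u, mem_ed.2 ⟨d, hu, by simpa [and_comm] using c⟩, rfl⟩),
            by simp [Joins]⟩
    · rintro P Q ⟨hP, a⟩ ⟨hQ, b⟩
      rcases mem_mk.1 hP with ⟨x, hx, y, hy, w, hw, h, rfl⟩ | ⟨x, y, h, rfl⟩ <;>
        rcases mem_mk.1 hQ with ⟨x', hx', y', hy', w', hw', h', rfl⟩ | ⟨x', y', h', rfl⟩ <;>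
        simp [Joins] at a b ⊢
      · have := h2 x y w w' h
        grind
      · have := (mem_ed.1 h').2.2 w hw
        grind
      · have := (mem_ed.1 h).2.2 w' hw'
        grind
      · have := (mem_ed.1 h).1
        have := (mem_ed.1 h').1
        omega
  · have k : ∀ a b, (a, b) ∈ ed n R ∨ (b, a) ∈ ed n R →
        [a, b] ∈ (mk n R).2.2 ∨ [a, b].reverse ∈ (mk n R).2.2 := fun a b h =>
      h.imp (fun h => mem_mk.2 (Or.inr ⟨_, _, h, rfl⟩)) fun h => mem_mk.2 (Or.inr ⟨_, _, h, rfl⟩)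
    rcases mem_mk.1 hP with ⟨u, hu, v, hv, w, hw, h, rfl⟩ | ⟨u, v, h, rfl⟩
    · have : Q = [u, w] ∨ Q = [w, v] ∨ Q = [u, w, v] := by
        simp only [List.infix_cons_iff, List.prefix_cons_iff, List.infix_nil,
          List.prefix_nil] at hQ
        grind
      rcases this with rfl | rfl | rfl
      exacts [k _ _ (e1 u hu v w hw h), k _ _ (e2 u v hv w hw h), Or.inl hP]
    · exact Or.inl (hQ.eq_of_length_le (by simpa using l) ▸ hP)

theorem irred_mk (hR : ∀ u v w, R u v w = true → u < n ∧ v < n ∧ w < n) :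
    ¬ Irred (mk n R) ↔ ∃ c : ℕ → Bool, (∃ u < n, ∃ v < n, c u ≠ c v) ∧
      ∀ u v w, R u v w = true → c u = c v → c w = c u := by
  classical
  rw [Irred, not_not]
  constructor
  · rintro ⟨A, ⟨a, a1, a2⟩, ⟨b, b1, b2⟩, h⟩
    refine ⟨fun v => decide (v ∈ A), ⟨a, a1, b, b1, by simp [a2, b2]⟩, fun u v w r e => ?_⟩
    obtain ⟨r1, r2, r3⟩ := hR u v w r
    have := h _ (mem_mk.2 (Or.inl ⟨u, r1, v, r2, w, r3, r, rfl⟩)) u v (by simp [Joins])
    simp at this e ⊢
    tauto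
  · rintro ⟨c, ⟨a, a1, b, b1, ab⟩, h⟩
    refine ⟨{v | c v = true}, ?_, ?_, fun P hP u v j => ?_⟩
    · cases e : c a
      exacts [⟨b, b1, by simp_all⟩, ⟨a, a1, e⟩]
    · cases e : c a
      exacts [⟨a, a1, by simp_all⟩, ⟨b, b1, by simp_all⟩]
    · rcases mem_mk.1 hP with ⟨x, -, y, -, w, -, r, rfl⟩ | ⟨x, y, -, rfl⟩
      · have := h x y w r
        simp [Joins] at j ⊢
        grind
      · simp [Joins] at j ⊢
        grind

end

def R0 (m u v w : ℕ) : Prop :=
  (u = 0 ∧ v = 12 ∧ w = 2) ∨ (u = 0 ∧ v = 14 ∧ w = 6) ∨ (u = 2 ∧ v = 4 ∧ w = 14) ∨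
  (u = 2 ∧ v = 6 ∧ w = 12) ∨ (u = 2 ∧ v = 8 ∧ w = 10) ∨ (u = 4 ∧ v = 8 ∧ w = 0) ∨
  (u = 6 ∧ v = 8 ∧ w = 12) ∨ (u = 10 ∧ v = 12 ∧ w = 4) ∨ (u = 12 ∧ v = 14 ∧ w = 8) ∨
  (u % 2 = 0 ∧ 10 ≤ u ∧ v = u + 4 ∧ w = u + 6 ∧ w < 8 * m + 16) ∨
  (u = 8 * m + 1 ∧ v % 2 = 0 ∧ w = v + 1 ∧ w < 8 * m + 16 ∧ w ≠ u) ∨
  (u % 8 = 1 ∧ v = u + 2 ∧ w = u + 6 ∧ u < 8 * m) ∨
  (u % 8 = 5 ∧ v = u + 2 ∧ w = 8 * m + 1 ∧ u < 8 * m)

def R1 (m u v w : ℕ) : Prop :=
  u % 2 = 1 ∧ v % 2 = 1 ∧ u % 8 ≠ 7 ∧ v % 8 ≠ 7 ∧ u / 8 < v / 8 ∧ v < 8 * m ∧ w = 0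

instance (m u v w : ℕ) : Decidable (R0 m u v w) := by unfold R0; infer_instance
instance (m u v w : ℕ) : Decidable (R1 m u v w) := by unfold R1; infer_instance

def RR (φ : F3) (u v w : ℕ) : Bool :=
  decide (R0 φ.length u v w) || (decide (R1 φ.length u v w) &&
    conf φ (3 * (u / 8) + u % 8 / 2) (3 * (v / 8) + v % 8 / 2))

def red (φ : F3) : Inst := mk (8 * φ.length + 16) (RR φ)

theorem pt_red : PT red := by
  have a : PT fun φ : F3 => ed (8 * φ.length + 16) (RR φ) :=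
    PT.edgesOf (by fun_prop) (by simp only [RR, R0, R1]; fun_prop)
  refine PT.mk (by fun_prop) (PT.mk a (PT.append ?_ (PT.map (by fun_prop) a)))
  simp only [tri, RR, R0, R1]
  fun_prop

variable {φ : F3}

theorem RR_w {u v w} (h : RR φ u v w = true) : R0 φ.length u v w ∨ R1 φ.length u v w := by
  simp only [RR, Bool.or_eq_true, Bool.and_eq_true, decide_eq_true_eq] at h
  exact h.imp_right And.left

theorem RR0 {u v w} (h : R0 φ.length u v w) : RR φ u v w = true := by simp [RR, h]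

theorem r10 {m u v w : ℕ} (h : u % 2 = 0 ∧ 10 ≤ u ∧ v = u + 4 ∧ w = u + 6 ∧ w < 8 * m + 16) :
    R0 m u v w := by
  iterate 9 right
  exact Or.inl h
theorem r11 {m u v w : ℕ} (h : u = 8 * m + 1 ∧ v % 2 = 0 ∧ w = v + 1 ∧ w < 8 * m + 16 ∧ w ≠ u) :
    R0 m u v w := by
  iterate 10 right
  exact Or.inl h
theorem r12 {m u v w : ℕ} (h : u % 8 = 1 ∧ v = u + 2 ∧ w = u + 6 ∧ u < 8 * m) :
    R0 m u v w := by
  iterate 11 right
  exact Or.inl h
theorem r13 {m u v w : ℕ} (h : u % 8 = 5 ∧ v = u + 2 ∧ w = 8 * m + 1 ∧ u < 8 * m) :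
    R0 m u v w := by
  iterate 12 right
  exact h

theorem aux {m u v w a b z : ℕ} (h : R0 m u v w ∨ R1 m u v w) (h' : R0 m a b z ∨ R1 m a b z) :
    ¬ (a = u ∧ b = w) ∧ ¬ (a = w ∧ b = u) ∧ ¬ (a = v ∧ b = w) ∧ ¬ (a = w ∧ b = v) ∧
      ¬ (a = v ∧ b = u) ∧ (a = u → b = v → z = w) := by
  unfold R0 R1 at h h'
  rcases h with (h | h | h | h | h | h | h | h | h | h | h | h | h) | h <;>
    rcases h' with (h' | h' | h' | h' | h' | h' | h' | h' | h' | h' | h' | h' | h') | h' <;> omega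

theorem valid (φ : F3) : Valid (red φ) :=
  valid_mk (fun u v w h => by have := RR_w h; unfold R0 R1 at this; omega) fun u v w z h => by
    have k := fun a b (h' : RR φ a b z = true) => aux (RR_w h) (RR_w h')
    refine ⟨?_, ?_, ?_, ?_, ?_, fun h' => (k _ _ h').2.2.2.2.2 rfl rfl⟩ <;>
      refine Bool.eq_false_iff.2 fun h' => ?_ <;> have := k _ _ h' <;> simp at this

theorem key (φ : F3) : Sat3 φ ↔ ¬ Irred (red φ) := by
  rw [red, irred_mk fun u v w h => by have := RR_w h; unfold R0 R1 at this; omega, sat3_iff_sel]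
  constructor
  · rintro ⟨s, s1, s2⟩
    refine ⟨fun v => decide (v = 8 * φ.length + 1 ∨ (v % 2 = 1 ∧ v < 8 * φ.length ∧
      (v % 8 / 2 = s (v / 8) % 3 ∨ (v % 8 = 7 ∧ s (v / 8) % 3 ≠ 2)))),
      ⟨0, by omega, 8 * φ.length + 1, by omega, by simp⟩, fun u v w h e => ?_⟩
    simp only [decide_eq_decide] at e ⊢
    simp only [RR, Bool.or_eq_true, Bool.and_eq_true, decide_eq_true_eq] at h
    rcases h with h | ⟨h, h'⟩
    · unfold R0 at h
      rcases h with h | h | h | h | h | h | h | h | h | h | h | h | h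
      iterate 11 omega
      · rw [show v / 8 = u / 8 by omega] at e
        rw [show w / 8 = u / 8 by omega]
        omega
      · rw [show v / 8 = u / 8 by omega] at e
        omega
    · unfold R1 at h
      have a := s1 (u / 8) (by omega)
      have b := s1 (v / 8) (by omega)
      have d := s2 (u / 8) (by omega) (v / 8) (by omega)
      have : ¬ (3 * (u / 8) + u % 8 / 2 = s (u / 8) ∧ 3 * (v / 8) + v % 8 / 2 = s (v / 8)) := by
        rintro ⟨e1, e2⟩
        simp [e1, e2, d] at h'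
      omega
  · rintro ⟨c, ⟨a, a1, b, b1, ab⟩, h⟩
    have h0 := fun u v w (r : R0 φ.length u v w) => h u v w (RR0 r)
    have core : c 2 = c 0 ∧ c 4 = c 0 ∧ c 6 = c 0 ∧ c 8 = c 0 ∧ c 10 = c 0 ∧ c 12 = c 0 ∧
        c 14 = c 0 := by
      have a1 := h0 0 12 2 (by simp [R0])
      have a2 := h0 0 14 6 (by simp [R0])
      have a3 := h0 2 4 14 (by simp [R0])
      have a4 := h0 2 6 12 (by simp [R0])
      have a5 := h0 2 8 10 (by simp [R0])
      have a6 := h0 4 8 0 (by simp [R0])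
      have a7 := h0 6 8 12 (by simp [R0])
      have a8 := h0 10 12 4 (by simp [R0])
      have a9 := h0 12 14 8 (by simp [R0])
      revert a1 a2 a3 a4 a5 a6 a7 a8 a9
      cases c 0 <;> cases c 2 <;> cases c 4 <;> cases c 6 <;> cases c 8 <;> cases c 10 <;>
        cases c 12 <;> cases c 14 <;> simp
    have ev : ∀ i, 2 * i < 8 * φ.length + 16 → c (2 * i) = c 0 := by
      intro i
      induction i using Nat.strong_induction_on with
      | _ i ih =>
        intro hi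
        by_cases c8 : i < 8
        · interval_cases i <;> simp [core]
        · have e1 := ih (i - 3) (by omega) (by omega)
          have e2 := ih (i - 1) (by omega) (by omega)
          exact (h0 (2 * (i - 3)) (2 * (i - 1)) (2 * i) (r10 (by omega))
            (e1.trans e2.symm)).trans e1
    have ht : c (8 * φ.length + 1) ≠ c 0 := fun e => by
      have : ∀ v < 8 * φ.length + 16, c v = c 0 := fun v hv => by
        rcases Nat.even_or_odd' v with ⟨i, rfl | rfl⟩
        · exact ev i hv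
        · by_cases d : 2 * i + 1 = 8 * φ.length + 1
          · rw [d, e]
          · exact (h0 (8 * φ.length + 1) (2 * i) _ (r11 (by omega))
              (e.trans (ev i (by omega)).symm)).trans e
      exact ab ((this a a1).trans (this b b1).symm)
    have ex : ∀ i, ∃ o, i < φ.length → o / 3 = i ∧ c (8 * i + 2 * (o % 3) + 1) ≠ c 0 := fun i => by
      by_cases hi : i < φ.length
      · by_contra hn
        push Not at hn
        have e0 := (hn (3 * i)).2 (by omega)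
        have e1 := (hn (3 * i + 1)).2 (by omega)
        have e2 := (hn (3 * i + 2)).2 (by omega)
        have e3 := (h0 _ _ (8 * i + 7) (r12 (by omega)) (e0.trans e1.symm)).trans e0
        exact ht ((h0 _ _ _ (r13 (by omega)) (e2.trans e3.symm)).trans e2)
      · exact ⟨0, fun h => absurd h hi⟩
    choose s hs using ex
    have k : ∀ i < φ.length, ∀ j < φ.length, i < j → conf φ (s i) (s j) = false := by
      intro i hi j hj ij
      obtain ⟨a1, a2⟩ := hs i hi
      obtain ⟨b1, b2⟩ := hs j hj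
      by_contra hn
      refine a2 (h _ (8 * j + 2 * (s j % 3) + 1) 0 ?_ (by
        revert a2 b2; cases c 0 <;> cases c _ <;> cases c _ <;> simp)).symm
      simp only [RR, Bool.or_eq_true, Bool.and_eq_true, decide_eq_true_eq]
      refine Or.inr ⟨by unfold R1; omega, ?_⟩
      convert Bool.of_not_eq_false hn using 2 <;> omega
    refine ⟨s, fun c hc => (hs c hc).1, fun c hc d hd => ?_⟩
    rcases lt_trichotomy c d with h | rfl | h
    exacts [k c hc d hd h, conf_self _ _, conf_symm φ _ _ ▸ k d hd c hc h]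

theorem hard : NPH Valid fun p => ¬ Irred p :=
  sat3_nph.reduce red pt_red fun φ _ => ⟨valid φ, key φ⟩

end Pool.Agent.H36.PSys
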