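import Pool.Agent.H38.NP.Defs

/-!
Reductions of consistent path systems.
-/

namespace Pool.Agent.H36.PSys

open Pool.Agent.H38.NP

/-- An instance: number of vertices, edge list, list of paths (as vertex lists). -/
abbrev Inst := ℕ × List (ℕ × ℕ) × List (List ℕ)

/-- The path `P` has ends `u` and `v`. -/
def Joins (P : List ℕ) (u v : ℕ) : Prop :=
  (P.head? = some u ∧ P.getLast? = some v) ∨ (P.head? = some v ∧ P.getLast? = some u)

/-- The paths form a consistent path system in the graph. -/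
def Valid (p : Inst) : Prop :=
  p.2.2.Nodup ∧
  (∀ P ∈ p.2.2, P.Nodup ∧ 2 ≤ P.length ∧ (∀ x ∈ P, x < p.1) ∧
    P.IsChain fun a b => (a, b) ∈ p.2.1 ∨ (b, a) ∈ p.2.1) ∧
  (∀ u < p.1, ∀ v < p.1, u ≠ v → ∃! P, P ∈ p.2.2 ∧ Joins P u v) ∧
  ∀ P ∈ p.2.2, ∀ Q, Q <:+: P → 2 ≤ Q.length → Q ∈ p.2.2 ∨ Q.reverse ∈ p.2.2

/-- There is no partition of the vertices into nonempty parts `A`, `Aᶜ`, each containing the
path between any two of its vertices. -/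
def Irred (p : Inst) : Prop :=
  ¬ ∃ A : Set ℕ, (∃ u < p.1, u ∈ A) ∧ (∃ u < p.1, u ∉ A) ∧ ∀ P ∈ p.2.2, ∀ u v, Joins P u v →
    (u ∈ A → v ∈ A → ∀ x ∈ P, x ∈ A) ∧ (u ∉ A → v ∉ A → ∀ x ∈ P, x ∉ A)

end Pool.Agent.H36.PSys
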