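import Pool.Agent.H36.PartDefs
import Pool.Agent.H36.Gr

/-!
NP-hardness of separating partitionable graph inequalities.
-/

namespace Pool.Agent.H36.Part

open Pool.Agent.H38.NP Pool.Agent.H36.Gr Finset

def pos (v : ℕ) : ℕ := if v % 4 = 0 then 2 * (v / 4) else 2 * (v / 4) + 1

def lit (v : ℕ) : ℕ := 3 * (v / 4) + (v % 4 - 1)

def cf (φ : F3) (u v : ℕ) : Bool :=
  decide (u % 4 ≠ 0) && decide (v % 4 ≠ 0) && conf φ (lit u) (lit v)

def adj (φ : F3) (u v : ℕ) : Bool :=
  decide (pos u + 2 ≤ pos v) && !(decide (pos u = 0) && decide (pos v = 2 * φ.length)) &&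
    !cf φ u v

def red (φ : F3) : Inst :=
  (4 * φ.length + 1, edgesOf (4 * φ.length + 1) (adj φ),
    List.replicate (4 * φ.length + 1) (1, φ.length))

theorem pt_red : PT red :=
  PT.mk (by fun_prop) (PT.mk (PT.edgesOf (by fun_prop) (by unfold adj cf pos lit; fun_prop))
    (by fun_prop))

def far (k p q : ℕ) : Prop := (p + 2 ≤ q ∧ ¬ (p = 0 ∧ q = 2 * k)) ∨ (q + 2 ≤ p ∧ ¬ (q = 0 ∧ p = 2 * k))

abbrev G (φ : F3) : SimpleGraph (Fin (4 * φ.length + 1)) :=
  graphOf (4 * φ.length + 1) (edgesOf (4 * φ.length + 1) (adj φ))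

theorem cf_symm (φ : F3) (u v : ℕ) : cf φ u v = cf φ v u := by
  unfold cf
  rw [conf_symm, Bool.and_comm (decide (u % 4 ≠ 0))]

theorem G_adj {φ : F3} {u v : Fin (4 * φ.length + 1)} :
    (G φ).Adj u v ↔ far φ.length (pos u) (pos v) ∧ cf φ u v = false := by
  rw [graphOf_edgesOf_adj]
  simp only [adj, far, cf_symm φ v u, Bool.and_eq_true, decide_eq_true_eq, Bool.not_eq_true',
    Bool.and_eq_false_iff, decide_eq_false_iff_not]
  constructor
  · rintro ⟨-, ⟨h, h'⟩ | ⟨h, h'⟩⟩
    exacts [⟨Or.inl ⟨h.1, by omega⟩, h'⟩, ⟨Or.inr ⟨h.1, by omega⟩, h'⟩]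
  · rintro ⟨h, h'⟩
    refine ⟨fun e => by rw [e] at h; omega, ?_⟩
    rcases h with h | h
    exacts [Or.inl ⟨⟨h.1, by omega⟩, h'⟩, Or.inr ⟨⟨h.1, by omega⟩, h'⟩]

theorem pos_le {k : ℕ} (v : Fin (4 * k + 1)) : pos v ≤ 2 * k := by
  have := v.2
  unfold pos
  split_ifs <;> omega

theorem xv_red (φ : F3) (v : Fin (4 * φ.length + 1)) : xv (red φ) v = 1 / φ.length := by
  have := Nat.le_of_lt_succ v.2
  simp [xv, red, List.getD_eq_getElem?_getD, List.getElem?_replicate, if_pos this]

theorem sum_xv (φ : F3) (Q : Finset (Fin (4 * φ.length + 1))) :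
    ∑ v ∈ Q, xv (red φ) v = Q.card / φ.length := by
  rw [sum_congr rfl fun v _ => xv_red φ v, sum_const, nsmul_eq_mul, mul_one_div]

theorem clique_far {φ : F3} {Q : Finset (Fin (4 * φ.length + 1))} (h : (G φ).IsClique Q) :
    ∀ u ∈ Q, ∀ v ∈ Q, u ≠ v → far φ.length (pos u) (pos v) := fun _ hu _ hv hne =>
  (G_adj.1 (h hu hv hne)).1

theorem clique_le {φ : F3} (hk : 1 ≤ φ.length) {Q : Finset (Fin (4 * φ.length + 1))}
    (h : (G φ).IsClique Q) : Q.card ≤ φ.length := by
  have hf := clique_far h
  by_cases c : ∃ v ∈ Q, pos v = 2 * φ.length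
  · obtain ⟨w, hw, e⟩ := c
    have h0 : ∀ v ∈ Q, pos v ≠ 0 := fun v hv e' => by
      have := hf v hv w hw (fun e'' => by rw [e''] at e'; omega)
      unfold far at this; omega
    refine (card_le_card_of_injOn (t := range φ.length) (fun v => (pos v.val - 1) / 2)
      (fun v hv => ?_) fun u hu v hv e => ?_).trans (card_range _).le
    · have := pos_le v
      have := h0 v hv
      simp only [coe_range, Set.mem_Iio]; omega
    · by_contra hne
      have := hf u hu v hv hne
      have := h0 u hu
      have := h0 v hv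
      unfold far at *; simp only at e; omega
  · refine (card_le_card_of_injOn (t := range φ.length) (fun v => pos v.val / 2)
      (fun v hv => ?_) fun u hu v hv e => ?_).trans (card_range _).le
    · have := pos_le v
      have : pos v ≠ 2 * φ.length := fun e => c ⟨v, hv, e⟩
      simp only [coe_range, Set.mem_Iio]; omega
    · by_contra hne
      have := hf u hu v hv hne
      unfold far at *; simp only at e; omega

theorem clique_sat {φ : F3} {Q : Finset (Fin (4 * φ.length + 1))}
    (h : (G φ).IsNClique φ.length Q) (h0 : ∀ v ∈ Q, v.val ≠ 0)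
    (h1 : ∀ v ∈ Q, v.val ≠ 4 * φ.length) : Sat3 φ := by
  have hf := clique_far h.1
  have p0 : ∀ v ∈ Q, pos v ≠ 0 := fun v hv => by
    have := h0 v hv
    unfold pos; split_ifs <;> omega
  have p1 : ∀ v ∈ Q, pos v < 2 * φ.length := fun v hv => by
    have := h1 v hv
    have := v.2
    unfold pos; split_ifs <;> omega
  have e : Q.image (fun v => pos v.val / 2) = range φ.length := by
    refine eq_of_subset_of_card_le (fun c hc => ?_) ?_
    · obtain ⟨v, hv, rfl⟩ := mem_image.1 hc
      have := p1 v hv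
      simp only [mem_range]; omega
    · rw [card_image_of_injOn, h.2, card_range]
      intro u hu v hv e
      by_contra hne
      have := hf u hu v hv hne
      unfold far at *; simp only at e; omega
  have ex : ∀ c < φ.length, ∃ v ∈ Q, pos v = 2 * c + 1 := by
    intro c
    induction c with
    | zero =>
      intro hc
      obtain ⟨v, hv, e'⟩ := mem_image.1 (e ▸ mem_range.2 hc)
      have := p0 v hv
      exact ⟨v, hv, by omega⟩
    | succ c ih =>
      intro hc
      obtain ⟨v, hv, e'⟩ := mem_image.1 (e ▸ mem_range.2 hc)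
      obtain ⟨u, hu, e''⟩ := ih (by omega)
      have := hf u hu v hv (fun e => by rw [e] at e''; omega)
      exact ⟨v, hv, by unfold far at this; omega⟩
  choose! f f1 f2 using ex
  have f3 : ∀ c < φ.length, (f c).val % 4 ≠ 0 ∧ (f c).val / 4 = c := fun c hc => by
    have := f2 c hc
    unfold pos at this
    split_ifs at this <;> omega
  refine (sat3_iff_sel φ).2 ⟨fun c => lit (f c), fun c hc => ?_, fun c hc d hd => ?_⟩
  · have := f3 c hc
    simp only [lit]; omega
  · by_cases e : f c = f d
    · simp [e]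
    · have := (G_adj.1 (h.1 (f1 c hc) (f1 d hd) e)).2
      simpa [cf, (f3 c hc).1, (f3 d hd).1] using this

theorem card_par (k i : ℕ) (hi : i < 2) : ((range (2 * k)).filter fun d => d % 2 = i).card = k := by
  have : ((range (2 * k)).filter fun d => d % 2 = i) = (range k).image fun t => 2 * t + i := by
    ext d
    simp only [mem_filter, mem_range, mem_image]
    exact ⟨fun h => ⟨d / 2, by omega, by omega⟩, by rintro ⟨t, h, rfl⟩; omega⟩
  rw [this, card_image_of_injective _ fun a b e => by omega, card_range]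

theorem card_half (k i : ℕ) (hi : i < k) : ((range (2 * k)).filter fun d => d / 2 = i).card = 2 := by
  have : ((range (2 * k)).filter fun d => d / 2 = i) = {2 * i, 2 * i + 1} := by
    ext d
    simp only [mem_filter, mem_range, mem_insert, mem_singleton]
    omega
  rw [this, card_pair (by omega)]

theorem yes {φ : F3} (hk : 2 ≤ φ.length) (h : Sat3 φ) : Violated (red φ) := by
  obtain ⟨s, s1, s2⟩ := (sat3_iff_sel φ).1 h
  set I : Finset (Fin (4 * φ.length + 1)) :=
    univ.filter fun v => v.val % 4 = 0 ∨ v.val % 4 = 1 + s (v.val / 4) % 3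
  have mI : ∀ v, v ∈ I ↔ v.val % 4 = 0 ∨ v.val % 4 = 1 + s (v.val / 4) % 3 := by simp [I]
  have inj : ∀ u ∈ I, ∀ v ∈ I, pos u = pos v → u = v := by
    intro u hu v hv e
    have a := (mI u).1 hu
    have b := (mI v).1 hv
    have c : u.val / 4 = v.val / 4 := by unfold pos at e; split_ifs at e <;> omega
    rw [c] at a
    unfold pos at e
    exact Fin.ext (by split_ifs at e <;> omega)
  have sur : ∀ p ≤ 2 * φ.length, ∃ v ∈ I, pos v = p := by
    intro p hp
    by_cases c : p % 2 = 0
    · exact ⟨⟨2 * p, by omega⟩, (mI _).2 (Or.inl (by simp only; omega)), by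
        simp only [pos]; split_ifs <;> omega⟩
    · refine ⟨⟨4 * (p / 2) + 1 + s (p / 2) % 3, by omega⟩, (mI _).2 (Or.inr ?_), by
        simp only [pos]; split_ifs <;> omega⟩
      simp only
      rw [show (4 * (p / 2) + 1 + s (p / 2) % 3) / 4 = p / 2 by omega]
      omega
  have ad : ∀ u ∈ I, ∀ v ∈ I, (G φ).Adj u v ↔ far φ.length (pos u) (pos v) := by
    intro u hu v hv
    refine G_adj.trans (and_iff_left ?_)
    have l : ∀ w ∈ I, w.val % 4 ≠ 0 → w.val / 4 < φ.length ∧ lit w = s (w.val / 4) := by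
      intro w hw h
      have a := (mI w).1 hw
      have b := w.2
      have := s1 (w.val / 4) (by omega)
      unfold lit
      omega
    by_cases c : u.val % 4 = 0 ∨ v.val % 4 = 0
    · rcases c with c | c <;> simp [cf, c]
    · have a := l u hu (by omega)
      have b := l v hv (by omega)
      simp [cf, a.2, b.2, s2 _ a.1 _ b.1]
  have cI : I.card = 2 * φ.length + 1 := by
    rw [← card_range (2 * φ.length + 1)]
    refine card_bij (fun v _ => pos v) (fun v _ => mem_range.2 (Nat.lt_succ_of_le (pos_le v)))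
      inj fun p hp => ?_
    obtain ⟨v, hv, e⟩ := sur p (Nat.le_of_lt_succ (mem_range.1 hp))
    exact ⟨v, hv, e⟩
  refine ⟨I, ⟨2, φ.length, le_rfl, hk, cI, fun r hr => ?_⟩, ?_⟩
  · let d : Fin (4 * φ.length + 1) → ℕ := fun v =>
      if pos r < pos v then pos v - pos r - 1 else pos v + 2 * φ.length - pos r
    have hr' := pos_le r
    have ne : ∀ v ∈ I.erase r, pos v ≠ pos r := fun v hv e =>
      (mem_erase.1 hv).1 (inj v (mem_erase.1 hv).2 r hr e)
    have dl : ∀ v ∈ I.erase r, d v < 2 * φ.length := fun v hv => by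
      have := ne v hv
      have := pos_le v
      simp only [d]; split_ifs <;> omega
    have cd : ∀ (P : ℕ → Prop) [DecidablePred P], ((I.erase r).filter fun v => P (d v)).card =
        ((range (2 * φ.length)).filter P).card := by
      intro P _
      refine card_bij (fun v _ => d v) (fun v hv => mem_filter.2 ⟨mem_range.2
        (dl v (mem_filter.1 hv).1), (mem_filter.1 hv).2⟩) (fun u hu v hv e => ?_) fun t ht => ?_
      · have a := (mem_filter.1 hu).1
        have b := (mem_filter.1 hv).1
        have := pos_le u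
        have := pos_le v
        refine inj u (mem_erase.1 a).2 v (mem_erase.1 b).2 ?_
        simp only [d] at e; split_ifs at e <;> omega
      · have a := mem_range.1 (mem_filter.1 ht).1
        obtain ⟨v, hv, e⟩ := sur (if pos r + 1 + t ≤ 2 * φ.length then pos r + 1 + t
          else pos r + t - 2 * φ.length) (by split_ifs <;> omega)
        have b : d v = t := by simp only [d]; split_ifs at e ⊢ <;> omega
        exact ⟨v, mem_filter.2 ⟨mem_erase.2 ⟨fun e' => by
          rw [e'] at e; split_ifs at e <;> omega, hv⟩, b ▸ (mem_filter.1 ht).2⟩, b⟩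
    refine ⟨⟨fun v => d v % 2, fun v _ => Nat.mod_lt _ (by omega), fun i hi => ⟨?_, ?_⟩⟩,
      ⟨fun v => d v / 2, fun v hv => by have := dl v hv; simp only; omega, fun i hi => ⟨?_, ?_⟩⟩⟩
    · intro u hu v hv hne
      obtain ⟨a, a'⟩ := mem_filter.1 hu
      obtain ⟨b, b'⟩ := mem_filter.1 hv
      have := ne u a
      have := ne v b
      have := pos_le u
      have := pos_le v
      have : pos u ≠ pos v := fun e => hne (inj u (mem_erase.1 a).2 v (mem_erase.1 b).2 e)
      refine (ad u (mem_erase.1 a).2 v (mem_erase.1 b).2).2 ?_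
      simp only [d] at a' b'
      unfold far
      split_ifs at a' b' <;> omega
    · exact (cd fun t => t % 2 = i).trans (card_par _ _ hi)
    · intro u hu v hv _ h
      obtain ⟨a, a'⟩ := mem_filter.1 hu
      obtain ⟨b, b'⟩ := mem_filter.1 hv
      have := ne u a
      have := ne v b
      have := pos_le u
      have := pos_le v
      have := (ad u (mem_erase.1 a).2 v (mem_erase.1 b).2).1 h
      simp only [d] at a' b'
      unfold far at this
      split_ifs at a' b' <;> omega
    · exact (cd fun t => t / 2 = i).trans (card_half _ _ hi)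
  · have a : ((G φ).induce I).indepNum ≤ 2 := by
      obtain ⟨T, t1, t2⟩ := ((G φ).induce I).exists_isNIndepSet_indepNum
      by_contra hlt
      obtain ⟨x, y, z, hx, hy, hz, xy, xz, yz⟩ := two_lt_card_iff.1 (t2 ▸ not_le.1 hlt)
      have k : ∀ x ∈ T, ∀ y ∈ T, x ≠ y → ¬ far φ.length (pos x.1) (pos y.1) ∧
          pos x.1 ≠ pos y.1 := fun x hx y hy hne =>
        ⟨fun h => t1 hx hy hne ((ad _ x.2 _ y.2).2 h),
          fun e => hne (Subtype.ext (inj _ x.2 _ y.2 e))⟩
      have := k x hx y hy xy
      have := k x hx z hz xz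
      have := k y hy z hz yz
      have := pos_le x.1
      have := pos_le y.1
      have := pos_le z.1
      unfold far at *
      omega
    have b : (((G φ).induce I).indepNum : ℚ) ≤ 2 := by exact_mod_cast a
    refine lt_of_le_of_lt b (lt_of_lt_of_eq ?_ (sum_xv φ I).symm)
    rw [cI, lt_div_iff₀ (by exact_mod_cast (by omega : 0 < φ.length))]
    push_cast
    linarith

theorem no {φ : F3} (hk : 2 ≤ φ.length) (h : Violated (red φ)) : Sat3 φ := by
  obtain ⟨I, ⟨a, w, ha, hw, cI, hI⟩, hlt⟩ : ∃ I : Finset (Fin (4 * φ.length + 1)),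
    Partitionable (G φ) I ∧ (((G φ).induce I).indepNum : ℚ) < ∑ v ∈ I, xv (red φ) v := h
  replace hlt := lt_of_lt_of_eq hlt (sum_xv φ I)
  obtain ⟨r, hr, hr0⟩ : ∃ r ∈ I, ∀ v ∈ I.erase r, v.val ≠ 0 := by
    by_cases c : ∃ v ∈ I, v.val = 0
    · obtain ⟨v, hv, e⟩ := c
      exact ⟨v, hv, fun u hu e' => (mem_erase.1 hu).1 (Fin.ext (e'.trans e.symm))⟩
    · obtain ⟨v, hv⟩ : I.Nonempty := card_pos.1 (by omega)
      exact ⟨v, hv, fun u hu e' => c ⟨u, (mem_erase.1 hu).2, e'⟩⟩
  obtain ⟨⟨c, -, c2⟩, ⟨c', -, c2'⟩⟩ := hI r hr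
  have h1 : a ≤ ((G φ).induce I).indepNum := by
    obtain ⟨t1, t2⟩ := c2' 0 (by omega)
    set T := (I.erase r).filter fun v => c' v = 0
    have : ((G φ).induce I).IsIndepSet (T.subtype (· ∈ (I : Set (Fin (4 * φ.length + 1)))) :
        Finset (I : Set (Fin (4 * φ.length + 1)))) := fun x hx y hy hne h =>
      t1 (mem_subtype.1 hx) (mem_subtype.1 hy) (fun e => hne (Subtype.ext e)) h
    have := this.card_le_indepNum
    rwa [card_subtype, filter_true_of_mem fun v hv => mem_coe.2
      (mem_erase.1 (mem_filter.1 hv).1).2, t2] at this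
  have h2 : a * φ.length < a * w + 1 := by
    have b : (a : ℚ) ≤ ((G φ).induce I).indepNum := by exact_mod_cast h1
    have := lt_of_le_of_lt b hlt
    rw [cI, lt_div_iff₀ (by exact_mod_cast (by omega : 0 < φ.length))] at this
    exact_mod_cast this
  have h3 : w ≤ φ.length := (c2 0 (by omega)).2 ▸ clique_le (by omega) (c2 0 (by omega)).1
  have h4 : w = φ.length :=
    le_antisymm h3 (Nat.le_of_mul_le_mul_left (Nat.le_of_lt_succ h2) (by omega))
  subst h4
  by_cases e : ∃ v ∈ (I.erase r).filter fun v => c v = 0, v.val = 4 * φ.length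
  · obtain ⟨v, hv, e⟩ := e
    refine clique_sat (c2 1 (by omega)) (fun u hu => hr0 u (mem_filter.1 hu).1) fun u hu e' => ?_
    have a := (mem_filter.1 hu).2
    have b := (mem_filter.1 hv).2
    rw [show u = v from Fin.ext (e'.trans e.symm)] at a
    omega
  · exact clique_sat (c2 0 (by omega)) (fun u hu => hr0 u (mem_filter.1 hu).1)
      fun u hu e' => e ⟨u, hu, e'⟩

theorem hard : NPH Valid Violated := by
  refine sat3_odd_nph.reduce red pt_red fun φ hφ => ⟨⟨by simp [red], fun q hq => ?_,
    fun Q hQ => ?_⟩, yes (by omega), no (by omega)⟩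
  · rw [List.eq_of_mem_replicate hq]
    simp only; omega
  · refine le_of_eq_of_le (sum_xv φ Q) ?_
    rw [div_le_one (by exact_mod_cast (by omega : 0 < φ.length))]
    exact_mod_cast clique_le (by omega) hQ

end Pool.Agent.H36.Part
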