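import Pool.Agent.H38.NP.Defs

/-!
Separation of partitionable graph inequalities.
-/

namespace Pool.Agent.H36.Part

open Pool.Agent.H38.NP

variable {V : Type} [DecidableEq V]

/-- `S` is partitioned into `p` classes, each with property `R`. -/
def Split (S : Finset V) (p : ℕ) (R : Finset V → Prop) : Prop :=
  ∃ c : V → ℕ, (∀ v ∈ S, c v < p) ∧ ∀ i < p, R (S.filter fun v => c v = i)

/-- The induced subgraph `G[I]` is partitionable. -/
def Partitionable (G : SimpleGraph V) (I : Finset V) : Prop :=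
  ∃ a w : ℕ, 2 ≤ a ∧ 2 ≤ w ∧ I.card = a * w + 1 ∧
    ∀ v ∈ I, Split (I.erase v) a (G.IsNClique w) ∧ Split (I.erase v) w (G.IsNIndepSet a)

/-- An input: number of vertices, edge list, and the point `x` as a list of fractions. -/
abbrev Inst := ℕ × List (ℕ × ℕ) × List (ℕ × ℕ)

/-- The coordinate `x_v`. -/
def xv (p : Inst) (v : Fin p.1) : ℚ :=
  ((p.2.2.getD v (0, 1)).1 : ℚ) / ((p.2.2.getD v (0, 1)).2 : ℚ)

/-- The point lies in `[0,1]^V` and even satisfies all clique inequalities. -/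
def Valid (p : Inst) : Prop :=
  p.2.2.length = p.1 ∧ (∀ q ∈ p.2.2, 0 < q.2 ∧ q.1 ≤ q.2) ∧
    ∀ Q : Finset (Fin p.1), (graphOf p.1 p.2.1).IsClique Q → ∑ v ∈ Q, xv p v ≤ 1

/-- Some partitionable graph inequality is violated. -/
def Violated (p : Inst) : Prop :=
  ∃ I : Finset (Fin p.1), Partitionable (graphOf p.1 p.2.1) I ∧
    (((graphOf p.1 p.2.1).induce I).indepNum : ℚ) < ∑ v ∈ I, xv p v

end Pool.Agent.H36.Part
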