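import Pool.Agent.H36.PltDefs

/-!
The grid can be eliminated from the definition of path-like trees.
-/

namespace Pool.Agent.H36.Plt

def Comb (m : ℕ) (D : ℕ → ℕ) : Prop := ∀ c, 0 < D c → D c ≤ c ∧ c + 1 + D c < m ∧
  ∀ e, e ≠ c → e ≤ c + D c → c ≤ e + D c → D e = 0

theorem grid_iff {x y : ℤ × ℤ} : Grid x y ↔ (y.1 = x.1 + 1 ∧ y.2 = x.2) ∨ (y.1 = x.1 - 1 ∧ y.2 = x.2) ∨
    (y.1 = x.1 ∧ y.2 = x.2 + 1) ∨ (y.1 = x.1 ∧ y.2 = x.2 - 1) := by
  unfold Grid
  constructor
  · intro h
    have a : -1 ≤ x.1 - y.1 ∧ x.1 - y.1 ≤ 1 := by constructor <;> nlinarith [sq_nonneg (x.2 - y.2)]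
    have b : -1 ≤ x.2 - y.2 ∧ x.2 - y.2 ≤ 1 := by constructor <;> nlinarith [sq_nonneg (x.1 - y.1)]
    generalize hs : x.1 - y.1 = s at *
    generalize ht : x.2 - y.2 = t at *
    obtain ⟨a1, a2⟩ := a
    obtain ⟨b1, b2⟩ := b
    interval_cases s <;> interval_cases t <;> simp at h <;> omega
  · rintro (⟨a, b⟩ | ⟨a, b⟩ | ⟨a, b⟩ | ⟨a, b⟩) <;> rw [a, b] <;> ring

theorem comb_of {n p} {D : ℕ → ℕ} (h1 : Set.InjOn p (Set.Iio n)) (h2 : ∀ c, c + 1 < n → Grid (p c) (p (c + 1)))
    (h3 : ∀ c, 0 < D c → Elem n p c (D c)) : Comb n D := by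
  have key : ∀ c, 0 < D c → D (c + 1) = 0 := fun c h => by
    by_contra k
    obtain ⟨a1, a2, a3, a4, a5, a6⟩ := h3 c h
    obtain ⟨b1, b2, b3, b4, b5, b6⟩ := h3 (c + 1) (by omega)
    have e1 : D c = 1 := by
      by_contra e; exact b4 (a5 1 (by omega)).2
    have e2 : D (c + 1) = 1 := by
      by_contra e; exact a3 (b5 1 (by omega)).1
    obtain ⟨c, rfl⟩ : ∃ e, c = e + 1 := ⟨c - 1, by omega⟩
    rw [e1] at a6
    rw [e2] at b6
    have g1 := grid_iff.1 (h2 c (by omega))
    have g2 := grid_iff.1 (h2 (c + 1) (by omega))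
    have g3 := grid_iff.1 (h2 (c + 2) (by omega))
    have g4 := grid_iff.1 (h2 (c + 3) (by omega))
    have g5 := grid_iff.1 a6
    have g6 := grid_iff.1 b6
    have n : ∀ i j, i < j → j ≤ 4 → ¬((p (c + i)).1 = (p (c + j)).1 ∧ (p (c + i)).2 = (p (c + j)).2) :=
      fun i j a b e => by
        have := h1 (show c + i < n by omega) (show c + j < n by omega) (Prod.ext e.1 e.2); omega
    have n1 := n 0 2 (by omega) (by omega)
    have n2 := n 1 3 (by omega) (by omega)
    have n3 := n 2 4 (by omega) (by omega)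
    have n4 := n 0 4 (by omega) (by omega)
    simp only [dir, ne_eq, Prod.ext_iff, Prod.fst_sub, Prod.snd_sub, add_assoc, Nat.add_sub_cancel,
      Nat.reduceAdd, add_zero, show c + 2 - 1 = c + 1 from rfl] at *
    rcases g1 with g | g | g | g <;> rcases g2 with g | g | g | g <;> rcases g3 with g | g | g | g <;> omega
  intro c h
  obtain ⟨a1, a2, a3, a4, a5, a6⟩ := h3 c h
  refine ⟨a1, a2, fun e ne l1 l2 => ?_⟩
  by_contra k
  obtain ⟨-, -, b3, b4, -⟩ := h3 e (by omega)
  rcases Nat.lt_or_gt_of_ne ne with l | l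
  · by_cases x : e + 1 = c
    · have := key e (by omega); rw [x] at this; omega
    · have y := (a5 (c - 1 - e) (by omega)).1
      have z := (a5 (c - 1 - (e + 1)) (by omega)).1
      rw [Nat.sub_sub_self (by omega)] at y z
      exact b4 (z.trans y.symm)
  · by_cases x : e = c + 1
    · exact k (x ▸ key c h)
    · have y := (a5 (e - (c + 1)) (by omega)).2
      have z := (a5 (e - 1 - (c + 1)) (by omega)).2
      rw [Nat.add_sub_cancel' (by omega)] at y z
      exact b3 (z.trans y.symm)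

/-- column, height and current vertical direction of the zigzag embedding -/
def zz (D : ℕ → ℕ) : ℕ → ℤ × ℤ × ℤ
  | 0 => (0, 0, 1)
  | c + 1 => if D c = 0 then ((zz D c).1, (zz D c).2.1 + (zz D c).2.2, (zz D c).2.2)
    else ((zz D c).1 + 1, (zz D c).2.1, -(zz D c).2.2)

theorem zz_sgn (D c) : (zz D c).2.2 = 1 ∨ (zz D c).2.2 = -1 := by
  induction c with
  | zero => simp [zz]
  | succ c ih => rw [zz]; split_ifs <;> dsimp only <;> omega

theorem zz_run (D : ℕ → ℕ) (c i) (h : ∀ j < i, D (c + j) = 0) :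
    zz D (c + i) = ((zz D c).1, (zz D c).2.1 + i * (zz D c).2.2, (zz D c).2.2) := by
  induction i with
  | zero => simp
  | succ i ih =>
    rw [← add_assoc, zz, if_pos (h i i.lt_succ_self), ih fun j hj => h j (by omega)]
    simp [add_mul, add_assoc]

theorem zz_mono (D c i) : (zz D c).1 < (zz D (c + i)).1 ∨ ∀ j < i, D (c + j) = 0 := by
  induction i with
  | zero => simp
  | succ i ih =>
    rw [← add_assoc, zz]
    rcases ih with ih | ih
    · left; split_ifs <;> dsimp only <;> omega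
    · split_ifs with h
      · exact .inr fun j hj => (Nat.lt_succ_iff_lt_or_eq.1 hj).elim (ih j) (· ▸ h)
      · left; rw [zz_run D c i ih]; simp

theorem of_comb {n D} (h : Comb n D) : ∃ p : ℕ → ℤ × ℤ, Set.InjOn p (Set.Iio n) ∧
    (∀ c, c + 1 < n → Grid (p c) (p (c + 1))) ∧ ∀ c, 0 < D c → Elem n p c (D c) := by
  have inj : ∀ c i, 0 < i → ((zz D c).1, (zz D c).2.1) ≠ ((zz D (c + i)).1, (zz D (c + i)).2.1) :=
    fun c i hi e => by
      rw [Prod.mk.injEq] at e
      rcases zz_mono D c i with k | k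
      · omega
      · rw [zz_run D c i k] at e
        rcases zz_sgn D c with s | s <;> rw [s] at e <;> dsimp only at e <;> omega
  have d : ∀ c, dir (fun c => ((zz D c).1, (zz D c).2.1)) c =
      if D c = 0 then (0, (zz D c).2.2) else (1, 0) := fun c => by
    simp only [dir, zz]; split_ifs <;> simp
  refine ⟨fun c => ((zz D c).1, (zz D c).2.1), fun a _ b _ e => ?_, fun c _ => grid_iff.2 ?_, fun c hc => ?_⟩
  · rcases lt_trichotomy a b with l | l | l
    · obtain ⟨i, rfl⟩ := Nat.exists_eq_add_of_lt l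
      exact (inj a (i + 1) i.succ_pos e).elim
    · exact l
    · obtain ⟨i, rfl⟩ := Nat.exists_eq_add_of_lt l
      exact (inj b (i + 1) i.succ_pos e.symm).elim
  · have := zz_sgn D c
    simp only [zz]; split_ifs <;> dsimp only <;> omega
  · obtain ⟨a1, a2, a3⟩ := h c hc
    have r1 : ∀ i ≤ D c, zz D c = ((zz D (c - i)).1, (zz D (c - i)).2.1 + i * (zz D (c - i)).2.2,
        (zz D (c - i)).2.2) := fun i hi => by
      rw [← zz_run D _ i fun j hj => a3 _ (by omega) (by omega) (by omega), Nat.sub_add_cancel (by omega)]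
    have r2 := fun i (hi : i ≤ D c) => zz_run D (c + 1) i fun j hj => a3 _ (by omega) (by omega) (by omega)
    refine ⟨a1, a2, ?_, ?_, fun i hi => ⟨?_, ?_⟩, grid_iff.2 (.inl ?_)⟩
    · simp [d, a3 (c - 1) (by omega) (by omega) (by omega), hc.ne']
    · simp [d, a3 (c + 1) (by omega) (by omega) (by omega), hc.ne']
    · rw [d, d, if_pos (a3 _ (by omega) (by omega) (by omega)), if_pos (a3 _ (by omega) (by omega) (by omega))]
      have x := congrArg (·.2.2) (r1 1 hc)
      have y := congrArg (·.2.2) (r1 (1 + i) (by omega))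
      rw [Nat.sub_sub, ← y, ← x]
    · rw [d, d, if_pos (a3 _ (by omega) (by omega) (by omega)), if_pos (a3 _ (by omega) (by omega) (by omega)),
        r2 i hi.le]
    · dsimp only
      rw [r2 _ le_rfl, zz, if_neg hc.ne', r1 _ le_rfl]
      simp

end Pool.Agent.H36.Plt
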