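import Pool.Agent.H36.Plt1

/-!
Cutting a layout into its first piece and the rest.
-/

namespace Pool.Agent.H36.Plt

variable {A : ℕ → ℕ → Prop} {n u v d u' v' d' m m' : ℕ} {w w' D D' : ℕ → ℕ}

def Good (A : ℕ → ℕ → Prop) (n u v d m : ℕ) (w D : ℕ → ℕ) : Prop :=
  0 < m ∧ (∀ i < m, ∀ j < m, w i = w j → i = j) ∧ (∀ i < m, w i < n ∧ w i ≠ u) ∧ Comb m D ∧
    (v = n ∧ u = n ∨ d < m ∧ w d = v ∧ ∀ c < d, D c = 0) ∧ ∀ i < m, ∀ b ≤ n, A (w i) b ↔ (w i = v ∧ b = u) ∨
      ∃ c, c + 1 < m ∧ (i = c - D c ∧ b = w (c + 1 + D c) ∨ i = c + 1 + D c ∧ b = w (c - D c))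

def Loc (A : ℕ → ℕ → Prop) (n u v d u' v' d' m : ℕ) (w : ℕ → ℕ) : Prop :=
  0 < m ∧ (∀ i < m, ∀ j < m, w i = w j → i = j) ∧ (∀ i < m, w i < n ∧ w i ≠ u ∧ w i ≠ v') ∧
    (v = n ∧ u = n ∨ d < m ∧ w d = v) ∧ (u' = n ∨ d' < m ∧ w (m - 1 - d') = u' ∧ v' ≠ n ∧ u ≠ v') ∧
    ∀ i < m, ∀ b ≤ n, A (w i) b ↔ (w i = v ∧ b = u) ∨ (w i = u' ∧ b = v') ∨
      (i + 1 < m ∧ b = w (i + 1)) ∨ (0 < i ∧ b = w (i - 1))

theorem single (h : Loc A n u v d n v' d' m w) : Good A n u v d m w fun _ => 0 := by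
  obtain ⟨h1, h2, h3, h4, -, h6⟩ := h
  refine ⟨h1, h2, fun i hi => ⟨(h3 i hi).1, (h3 i hi).2.1⟩, fun c h => by simp at h,
    h4.imp_right fun h => ⟨h.1, h.2, by simp⟩, fun i hi b hb => (h6 i hi b hb).trans (or_congr_right ?_)⟩
  rw [or_iff_right fun h => (h3 i hi).1.ne h.1]
  constructor
  · rintro (⟨a, rfl⟩ | ⟨a, rfl⟩)
    · exact ⟨i, a, .inl ⟨rfl, rfl⟩⟩
    · exact ⟨i - 1, by omega, .inr ⟨by dsimp only; omega, rfl⟩⟩
  · rintro ⟨c, a, ⟨rfl, rfl⟩ | ⟨rfl, rfl⟩⟩
    exacts [.inl ⟨a, rfl⟩, .inr ⟨by omega, rfl⟩]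

theorem Good.closed (h : Good A n u v d m w D) {i b} (hi : i < m) (hb : b ≤ n) (a : A (w i) b) :
    (w i = v ∧ b = u) ∨ ∃ j < m, b = w j := by
  refine ((h.2.2.2.2.2 i hi b hb).1 a).imp_right ?_
  rintro ⟨c, a, ⟨-, rfl⟩ | ⟨-, rfl⟩⟩
  · refine ⟨_, ?_, rfl⟩
    rcases Nat.eq_zero_or_pos (D c) with e | e
    exacts [by omega, (h.2.2.2.1 c e).2.1]
  · exact ⟨_, by omega, rfl⟩

theorem glue (sy : ∀ a b, A a b → A b a) (hu : u ≤ n) (h : Loc A n u v d u' v' d' m w) (ne : u' ≠ n)
    (g : Good A n u' v' d' m' w' D') : Good A n u v d (m + m') (fun i => if i < m then w i else w' (i - m))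
      fun c => if c + 1 < m then 0 else if c + 1 = m then d' else D' (c - m) := by
  have cl := @g.closed
  obtain ⟨h1, h2, h3, h4, h5, h6⟩ := h
  obtain ⟨g1, g2, g3, g4, g5, g6⟩ := g
  obtain ⟨k1, k2, k3, k4⟩ := h5.resolve_left ne
  obtain ⟨l1, l2, l3⟩ := g5.resolve_left fun h => k3 h.1
  have st : ∀ i < m, ∀ j < m, A (w i) (w j) → (∃ a < m', w i = w' a) → ∃ a < m', w j = w' a := by
    rintro i hi j hj e ⟨a, ha, x⟩
    rw [x] at e
    exact (cl ha (h3 j hj).1.le e).resolve_left fun y => (h3 i hi).2.2 (x.trans y.1)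
  have ad : ∀ i, i + 1 < m → A (w i) (w (i + 1)) := fun i hi =>
    (h6 i (by omega) _ (h3 _ hi).1.le).2 (.inr (.inr (.inl ⟨hi, rfl⟩)))
  have al : ∀ i < m, (∃ a < m', w i = w' a) ↔ ∃ a < m', w 0 = w' a := fun i hi => by
    induction i with
    | zero => rfl
    | succ i ih => exact Iff.trans ⟨st _ hi _ (by omega) (sy _ _ (ad i hi)), st _ (by omega) _ hi (ad i hi)⟩
                    (ih (by omega))
  have dj : ∀ i < m, ∀ a < m', w i ≠ w' a := fun i hi a ha e => by
    obtain ⟨b, hb, x⟩ := (al (m - 1 - d') (by omega)).2 ((al i hi).1 ⟨a, ha, e⟩)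
    exact (g3 b hb).2 (x.symm.trans k2)
  have nv : ∀ a < m', w' a ≠ v := fun a ha e => by
    rcases h4 with x | x
    · exact (g3 a ha).1.ne (e.trans x.1)
    · exact dj d x.1 a ha (x.2.trans e.symm)
  have nu : ∀ a < m', w' a ≠ u := fun a ha e => by
    rcases h4 with x | x
    · exact (g3 a ha).1.ne (e.trans x.2)
    · have := sy _ _ ((h6 d x.1 u hu).2 (.inl ⟨x.2, rfl⟩))
      rw [← e] at this
      rcases cl ha (h3 d x.1).1.le this with y | ⟨j, hj, y⟩
      exacts [k4 (e.symm.trans y.1), dj d x.1 j hj y]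
  have le : ∀ c, D' c ≤ c := fun c => (Nat.eq_zero_or_pos (D' c)).elim (by omega) fun h => (g4 c h).1
  refine ⟨by omega, fun i hi j hj => ?_, fun i hi => ?_, fun c hc => ?_, h4.imp_right fun x =>
    ⟨by omega, by simp [x], fun c hc => if_pos (by omega)⟩, fun i hi b hb => ?_⟩
  · dsimp only
    split_ifs with a b b
    · exact h2 i a j b
    · exact fun e => (dj i a _ (by omega) e).elim
    · exact fun e => (dj j b _ (by omega) e.symm).elim
    · exact fun e => by have := g2 _ (by omega) _ (by omega) e; omega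
  · dsimp only
    split_ifs with a
    exacts [⟨(h3 i a).1, (h3 i a).2.1⟩, ⟨(g3 _ (by omega)).1, nu _ (by omega)⟩]
  · dsimp only at hc ⊢
    split_ifs at hc ⊢ with a b
    · omega
    · refine ⟨by omega, by omega, fun e x y z => ?_⟩
      split_ifs
      exacts [rfl, by omega, l3 _ (by omega)]
    · obtain ⟨x1, x2, x3⟩ := g4 _ hc
      refine ⟨by omega, by omega, fun e x y z => ?_⟩
      split_ifs
      · rfl
      · by_contra k
        have := l3 0 (by omega)
        have := x3 0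
        omega
      · exact x3 _ (by omega) (by omega) (by omega)
  · dsimp only
    by_cases a : i < m
    · rw [if_pos a, h6 i a b hb]
      refine or_congr_right ⟨?_, ?_⟩
      · rintro (⟨x, rfl⟩ | ⟨x, rfl⟩ | ⟨x, rfl⟩)
        · have := h2 i a _ (by omega) (x.trans k2.symm)
          refine ⟨m - 1, by omega, .inl ?_⟩
          rw [if_neg (by omega), if_pos (by omega), if_neg (by omega), ← l2]
          exact ⟨this, by congr 1; omega⟩
        · exact ⟨i, by omega, .inl (by simp [x])⟩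
        · refine ⟨i - 1, by omega, .inr ?_⟩
          rw [if_pos (by omega), if_pos (by omega)]
          exact ⟨by omega, rfl⟩
      · rintro ⟨c, -, x⟩
        have := le (c - m)
        by_cases y : c + 1 < m
        · simp only [y, if_true, add_zero, Nat.sub_zero, show c < m by omega] at x
          rcases x with ⟨rfl, rfl⟩ | ⟨rfl, rfl⟩
          exacts [.inr (.inl ⟨y, rfl⟩), .inr (.inr ⟨by omega, rfl⟩)]
        by_cases z : c + 1 = m
        · simp only [y, z, if_true, if_false, lt_irrefl] at x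
          obtain ⟨x', rfl⟩ := x.resolve_right (by omega)
          rw [if_neg (by omega), Nat.add_sub_cancel_left, l2, x', ← k2, ← z]
          exact .inl ⟨rfl, rfl⟩
        · simp only [y, z, if_false] at x
          omega
    · obtain ⟨i, rfl⟩ := Nat.exists_eq_add_of_le (not_lt.1 a)
      rw [if_neg a, Nat.add_sub_cancel_left, g6 i (by omega) b hb, or_iff_right (a := w' i = v ∧ b = u) fun x => nv i (by omega) x.1]
      constructor
      · rintro (⟨x, rfl⟩ | ⟨c, x, y⟩)
        · have := g2 i (by omega) _ l1 (x.trans l2.symm)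
          refine ⟨m - 1, by omega, .inr ?_⟩
          rw [if_neg (by omega), if_pos (by omega), if_pos (by omega), k2]
          exact ⟨by omega, rfl⟩
        · have := le c
          refine ⟨m + c, by omega, ?_⟩
          rw [if_neg (by omega), if_neg (by omega), Nat.add_sub_cancel_left, if_neg (by omega),
            if_neg (by omega), show m + c + 1 + D' c - m = c + 1 + D' c by omega,
            show m + c - D' c - m = c - D' c by omega]
          omega
      · rintro ⟨c, x0, x⟩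
        by_cases y : c + 1 < m
        · simp only [y, if_true] at x
          omega
        by_cases z : c + 1 = m
        · simp only [y, z, if_true, if_false, lt_irrefl] at x
          obtain ⟨x', rfl⟩ := x.resolve_left (by omega)
          rw [if_pos (by omega), show i = d' by omega, l2, ← k2, ← z]
          exact .inl ⟨rfl, rfl⟩
        · obtain ⟨c, rfl⟩ := Nat.exists_eq_add_of_le (show m ≤ c by omega)
          have := le c
          rw [if_neg y, if_neg z, Nat.add_sub_cancel_left, if_neg (by omega),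
            if_neg (by omega), show m + c + 1 + D' c - m = c + 1 + D' c by omega,
            show m + c - D' c - m = c - D' c by omega] at x
          exact .inr ⟨c, by omega, by omega⟩

theorem split (g : Good A n u v d m w D) : Loc A n u v d n n 0 m w ∨ ∃ e < m, ∃ u' < n, ∃ v' < n, ∃ d' < m,
    Loc A n u v d u' v' d' (e + 1) w ∧
      Good A n u' v' d' (m - (e + 1)) (fun i => w (e + 1 + i)) fun c => D (e + 1 + c) := by
  obtain ⟨g1, g2, g3, g4, g5, g6⟩ := g
  by_cases x : ∃ e, 0 < D e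
  swap
  · have z : ∀ c, D c = 0 := fun c => by_contra fun h => x ⟨c, by omega⟩
    refine .inl ⟨g1, g2, fun i hi => ⟨(g3 i hi).1, (g3 i hi).2, (g3 i hi).1.ne⟩,
      g5.imp_right fun h => ⟨h.1, h.2.1⟩, .inl rfl, fun i hi b hb => (g6 i hi b hb).trans (or_congr_right ?_)⟩
    rw [or_iff_right fun h => (g3 i hi).1.ne h.1]
    simp only [z, add_zero, Nat.sub_zero]
    constructor
    · rintro ⟨c, a, ⟨rfl, rfl⟩ | ⟨rfl, rfl⟩⟩
      exacts [.inl ⟨a, rfl⟩, .inr ⟨by omega, rfl⟩]
    · rintro (⟨a, rfl⟩ | ⟨a, rfl⟩)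
      · exact ⟨i, a, .inl ⟨rfl, rfl⟩⟩
      · exact ⟨i - 1, by omega, .inr ⟨by omega, rfl⟩⟩
  have e1 := Nat.find_spec x
  have e2 : ∀ c < Nat.find x, D c = 0 := fun c h => by simpa using Nat.find_min x h
  generalize Nat.find x = e at e1 e2
  obtain ⟨a1, a2, a3⟩ := g4 e e1
  have de : v = n ∧ u = n ∨ d < e + 1 ∧ w d = v := g5.imp_right fun h =>
    ⟨by by_contra k; have := h.2.2 e (by omega); omega, h.2.1⟩
  have le : ∀ c, D (e + 1 + c) ≤ c ∧ e + 1 + c + 1 + D (e + 1 + c) ≤ max m (e + 1 + c + 1) := fun c => by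
    rcases Nat.eq_zero_or_pos (D (e + 1 + c)) with h | h
    · omega
    · obtain ⟨b1, b2, b3⟩ := g4 _ h
      have := b3 e
      omega
  refine .inr ⟨e, by omega, w (e - D e), (g3 _ (by omega)).1, w (e + 1 + D e), (g3 _ a2).1, D e, by omega,
    ⟨by omega, fun i hi j hj => g2 i (by omega) j (by omega), fun i hi => ⟨(g3 i (by omega)).1,
      (g3 i (by omega)).2, fun h => by have := g2 _ (by omega) _ a2 h; omega⟩, de,
      .inr ⟨by omega, rfl, (g3 _ a2).1.ne, (g3 _ a2).2.symm⟩, fun i hi b hb => ?_⟩, by omega,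
    fun i hi j hj h => by have := g2 _ (by omega) _ (by omega) h; omega,
    fun i hi => ⟨(g3 _ (by omega)).1, fun h => by have := g2 _ (by omega) _ (by omega) h; omega⟩,
    fun c hc => ?_, .inr ⟨by omega, rfl, fun c hc => a3 _ (by omega) (by omega) (by omega)⟩,
    fun i hi b hb => ?_⟩
  · refine (g6 i (by omega) b hb).trans (or_congr_right ⟨?_, ?_⟩)
    · rintro ⟨c, x0, x⟩
      rcases lt_trichotomy c e with h | rfl | h
      · rw [e2 c h] at x
        rcases x with ⟨rfl, rfl⟩ | ⟨rfl, rfl⟩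
        exacts [.inr (.inl ⟨by omega, rfl⟩), .inr (.inr ⟨by omega, rfl⟩)]
      · obtain ⟨rfl, rfl⟩ := x.resolve_right (by omega)
        exact .inl ⟨rfl, rfl⟩
      · obtain ⟨c, rfl⟩ := Nat.exists_eq_add_of_le (show e + 1 ≤ c from h)
        have := le c
        omega
    · rintro (⟨x, rfl⟩ | ⟨x, rfl⟩ | ⟨x, rfl⟩)
      · exact ⟨e, by omega, .inl ⟨g2 _ (by omega) _ (by omega) x, rfl⟩⟩
      · exact ⟨i, by omega, .inl (by rw [e2 i (by omega)]; exact ⟨rfl, rfl⟩)⟩
      · exact ⟨i - 1, by omega, .inr (by rw [e2 _ (by omega)]; exact ⟨by omega, rfl⟩)⟩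
  · obtain ⟨b1, b2, b3⟩ := g4 _ hc
    have := le c
    exact ⟨this.1, by dsimp only; omega, fun f x y z => b3 _ (by omega) (by dsimp only at y; omega)
      (by dsimp only at z; omega)⟩
  · dsimp only
    rw [g6 _ (by omega) b hb, or_iff_right fun h => by
      rcases de with k | k
      · exact (g3 _ (by omega)).1.ne (h.1.trans k.1)
      · have := g2 _ (by omega) _ (by omega) (h.1.trans k.2.symm); omega]
    constructor
    · rintro ⟨c, x0, x⟩
      rcases lt_trichotomy c e with h | rfl | h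
      · rw [e2 c h] at x; omega
      · obtain ⟨x', rfl⟩ := x.resolve_left (by omega)
        exact .inl ⟨by rw [x'], rfl⟩
      · obtain ⟨c, rfl⟩ := Nat.exists_eq_add_of_le (show e + 1 ≤ c from h)
        have := le c
        refine .inr ⟨c, by omega, ?_⟩
        rw [show e + 1 + (c + 1 + D (e + 1 + c)) = e + 1 + c + 1 + D (e + 1 + c) by omega,
          show e + 1 + (c - D (e + 1 + c)) = e + 1 + c - D (e + 1 + c) by omega]
        omega
    · rintro (⟨x, rfl⟩ | ⟨c, x0, x⟩)
      · exact ⟨e, by omega, .inr ⟨g2 _ (by omega) _ (by omega) x, rfl⟩⟩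
      · have := le c
        refine ⟨e + 1 + c, by omega, ?_⟩
        rw [show e + 1 + (c + 1 + D (e + 1 + c)) = e + 1 + c + 1 + D (e + 1 + c) by omega,
          show e + 1 + (c - D (e + 1 + c)) = e + 1 + c - D (e + 1 + c) by omega] at x
        omega

end Pool.Agent.H36.Plt
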