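import Pool.Agent.H36.Plt2
import Pool.Agent.H38.NP.Graphs

/-!
The polynomial-time algorithm for path-like trees.
-/

namespace Pool.Agent.H36.Plt

open Pool.Agent.H38.NP

abbrev Gi := ℕ × List (ℕ × ℕ)
abbrev St := ℕ × ℕ × ℕ

def adj (p : Gi) (a b : ℕ) : Bool := decide (a < p.1) && decide (b < p.1) && !decide (a = b) &&
  (decide ((a, b) ∈ p.2) || decide ((b, a) ∈ p.2))
def A (p : Gi) (a b : ℕ) : Prop := adj p a b = true

theorem A_symm (p a b) (h : A p a b) : A p b a := by simp [A, adj] at h ⊢; tauto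
theorem A_lt {p a b} (h : A p a b) : b < p.1 := by simp [A, adj] at h; tauto
theorem A_iff {p : Gi} {a b : Fin p.1} : A p a b ↔ (graphOf p.1 p.2).Adj a b := by
  simp [A, adj, graphOf_adj, Fin.ext_iff]

def grow (p : Gi) (u v : ℕ) (P : List ℕ) : List ℕ :=
  ((List.range p.1).find? fun b => adj p (P.headD 0) b && !decide (b ∈ P) && !decide (b = u) &&
    !decide (b = v)).elim P (· :: P)
def pth (p : Gi) (u v x : ℕ) : List ℕ := ((grow p u v)^[p.1] [x]).reverse

def loc (p : Gi) (s t : St) (P : List ℕ) : Bool := decide (0 < P.length) &&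
  ((List.range P.length).all fun i => (List.range P.length).all fun j =>
    !decide (P.getD i 0 = P.getD j 0) || decide (i = j)) &&
  ((List.range P.length).all fun i => decide (P.getD i 0 < p.1 ∧ P.getD i 0 ≠ s.1 ∧ P.getD i 0 ≠ t.2.1)) &&
  decide (s.2.1 = p.1 ∧ s.1 = p.1 ∨ s.2.2 < P.length ∧ P.getD s.2.2 0 = s.2.1) &&
  decide (t.1 = p.1 ∨ t.2.2 < P.length ∧ P.getD (P.length - 1 - t.2.2) 0 = t.1 ∧ t.2.1 ≠ p.1 ∧ s.1 ≠ t.2.1) &&
  (List.range P.length).all fun i => (List.range (p.1 + 1)).all fun b =>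
    decide (adj p (P.getD i 0) b = decide ((P.getD i 0 = s.2.1 ∧ b = s.1) ∨ (P.getD i 0 = t.1 ∧ b = t.2.1) ∨
      (i + 1 < P.length ∧ b = P.getD (i + 1) 0) ∨ (0 < i ∧ b = P.getD (i - 1) 0)))

theorem loc_iff {p s t P} : loc p s t P = true ↔
    Loc (A p) p.1 s.1 s.2.1 s.2.2 t.1 t.2.1 t.2.2 P.length fun i => P.getD i 0 := by
  have e : ∀ (a : Bool) (q : Prop) [Decidable q], a = decide q ↔ (a = true ↔ q) := fun a q _ => by
    cases a <;> simp
  simp only [loc, Loc, A, Bool.and_eq_true, decide_eq_true_eq, List.all_eq_true, List.mem_range,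
    Bool.or_eq_true, Bool.not_eq_true', decide_eq_false_iff_not, Nat.lt_succ_iff, ← imp_iff_not_or,
    and_assoc, e]

def sts (n : ℕ) : List St := (List.range (n + 1)).product ((List.range (n + 1)).product (List.range (n + 1)))
def step (p : Gi) (S : List St) : List St := (sts p.1).filter fun s =>
  (List.range p.1).any fun x => ((p.1, p.1, 0) :: S).any fun t => loc p s t (pth p s.1 t.2.1 x)
def dec (p : Gi) : Bool := decide ((p.1, p.1, 0) ∈ (step p)^[p.1] [])

theorem mem_step {p S s} : s ∈ step p S ↔ (s.1 ≤ p.1 ∧ s.2.1 ≤ p.1 ∧ s.2.2 ≤ p.1) ∧ ∃ x < p.1,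
    ∃ t ∈ (p.1, p.1, 0) :: S, loc p s t (pth p s.1 t.2.1 x) = true := by
  obtain ⟨a, b, c⟩ := s
  simp only [step, sts, List.mem_filter, List.pair_mem_product, List.mem_range, Nat.lt_succ_iff,
    List.any_eq_true]

@[fun_prop] theorem pt_adj {α : Type} [Enc α] {p : α → Gi} {a b : α → ℕ} (hp : PT p) (ha : PT a)
    (hb : PT b) : PT fun x => adj (p x) (a x) (b x) := by unfold adj; fun_prop

theorem pt_pth : PT fun z : Gi × ℕ × ℕ × ℕ => pth z.1 z.2.1 z.2.2.1 z.2.2.2 := by
  refine PT.reverse (PT.iterate (step := fun z : Gi × ℕ × ℕ × ℕ => grow z.1 z.2.1 z.2.2.1)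
    (by unfold grow; fun_prop) (by fun_prop) (by fun_prop)
    (B := fun z => 2 * z.2.2.2 + 1 + z.1.1 * (2 * z.1.1 + 1)) (PT.nat_pb (by fun_prop)) fun z i hi => ?_)
  refine le_trans ?_ (Nat.add_le_add_left (Nat.mul_le_mul_right _ hi) _)
  clear hi
  induction i with
  | zero => simp [sz_cons]
  | succ i ih =>
    rw [Function.iterate_succ_apply', grow, add_mul]
    cases e : List.find? _ _ with
    | none => exact ih.trans (by omega)
    | some b =>
      have := List.mem_range.1 (List.mem_of_find?_eq_some e)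
      rw [Option.elim_some, sz_cons, sz_nat]; omega

theorem pt_loc : PT fun z : Gi × St × St × List ℕ => loc z.1 z.2.1 z.2.2.1 z.2.2.2 := by
  unfold loc
  refine PT.and (PT.and (PT.and (PT.and (PT.and ?_ ?_) ?_) ?_) ?_) (PT.all (PT.all (PT.eq ?_ ?_) ?_) ?_) <;>
    fun_prop

theorem pt_dec : PT dec := by
  have s : PT fun p : Gi => sts p.1 := by unfold sts; fun_prop
  have h : PT fun z : Gi × List St => step z.1 z.2 := by
    unfold step
    refine PT.filter (PT.any (PT.any ((pt_loc.comp (g := fun z : (((Gi × List St) × St) × ℕ) × St =>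
      (z.1.1.1.1, z.1.1.2, z.2, pth z.1.1.1.1 z.1.1.2.1 z.2.2.1 z.1.2)) (PT.mk ?_ (PT.mk ?_ (PT.mk ?_
        ((pt_pth.comp (g := fun z : (((Gi × List St) × St) × ℕ) × St =>
          (z.1.1.1.1, z.1.1.2.1, z.2.2.1, z.1.2)) ?_).of_eq fun _ => rfl))))).of_eq fun _ => rfl) ?_) ?_)
      (s.comp PT.id'.fst) <;> fun_prop
  refine PT.mem (PT.iterate h PT.id'.fst (PT.const []) s.pb fun p i _ => ?_) (by fun_prop)
  cases i with
  | zero => simp
  | succ i => rw [Function.iterate_succ_apply']; exact sz_le_of_sublist List.filter_sublist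

variable {p : Gi} {u v d u' v' d' m : ℕ} {w w' D : ℕ → ℕ}

theorem Loc.congr {A n} (h : Loc A n u v d u' v' d' m w) (e : ∀ i < m, w' i = w i) :
    Loc A n u v d u' v' d' m w' := by
  obtain ⟨h1, h2, h3, h4, h5, h6⟩ := h
  refine ⟨h1, fun i hi j hj => by rw [e i hi, e j hj]; exact h2 i hi j hj, fun i hi => e i hi ▸ h3 i hi,
    h4.imp_right fun h => ⟨h.1, (e _ h.1).trans h.2⟩, h5.imp_right fun h =>
      ⟨h.1, (e _ (by omega)).trans h.2.1, h.2.2⟩, fun i hi b hb => ?_⟩
  rw [e i hi, e (i - 1) (by omega), h6 i hi b hb]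
  exact or_congr_right (or_congr_right (or_congr_left (and_congr_right fun h => by rw [e _ h])))

theorem le_n {n} (h2 : ∀ i < m, ∀ j < m, w i = w j → i = j) (h3 : ∀ i < m, w i < n) : m ≤ n := by
  simpa using Finset.card_le_card_of_injOn (s := Finset.range m) (t := Finset.range n) w
    (fun i hi => by simpa using h3 i (by simpa using hi))
    fun i hi j hj => h2 i (by simpa using hi) j (by simpa using hj)

theorem pth_eq (h : Loc (A p) p.1 u v d u' v' d' m w) : pth p u v' (w 0) = (List.range m).map w := by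
  obtain ⟨h1, h2, h3, -, -, h6⟩ := h
  have it : ∀ k, (grow p u v')^[k] [w 0] = ((List.range (min k (m - 1) + 1)).map w).reverse := fun k => by
    induction k with
    | zero => simp
    | succ k ih =>
      have l : min k (m - 1) < m := by omega
      have key : ∀ b, (adj p (w (min k (m - 1))) b &&
          !decide (b ∈ ((List.range (min k (m - 1) + 1)).map w).reverse) && !decide (b = u) &&
          !decide (b = v')) = true ↔ k + 1 < m ∧ b = w (k + 1) := fun b => by
        simp only [Bool.and_eq_true, Bool.not_eq_true', decide_eq_false_iff_not, List.mem_reverse,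
          List.mem_map, List.mem_range, not_exists, not_and]
        constructor
        · rintro ⟨⟨⟨a, x⟩, y⟩, z⟩
          rcases (h6 _ l b (A_lt a).le).1 a with e | e | e | e
          exacts [(y e.2).elim, (z e.2).elim, by rwa [min_eq_left (by omega)] at e,
            (x _ (by omega) e.2.symm).elim]
        · rintro ⟨a, rfl⟩
          rw [min_eq_left (by omega)]
          exact ⟨⟨⟨(h6 k (by omega) _ (h3 _ a).1.le).2 (.inr (.inr (.inl ⟨a, rfl⟩))), fun j hj e => by
            have := h2 j (by omega) _ a e; omega⟩, (h3 _ a).2.1⟩, (h3 _ a).2.2⟩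
      rw [Function.iterate_succ_apply', ih, grow, show (((List.range (min k (m - 1) + 1)).map w).reverse).headD 0
        = w (min k (m - 1)) by simp [List.range_succ]]
      cases e : List.find? _ _ with
      | none =>
        have : ¬k + 1 < m := fun a => List.find?_eq_none.1 e _ (List.mem_range.2 (h3 _ a).1)
          ((key _).2 ⟨a, rfl⟩)
        rw [Option.elim_none, min_eq_right (by omega), min_eq_right (by omega)]
      | some b =>
        have e' := List.find?_some e
        obtain ⟨a, rfl⟩ := (key b).1 e'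
        rw [Option.elim_some, min_eq_left (by omega), min_eq_left (by omega), List.range_succ (n := k + 1)]
        simp
  have := le_n h2 fun i hi => (h3 i hi).1
  rw [pth, it p.1, List.reverse_reverse, min_eq_right (by omega), Nat.sub_add_cancel h1]

theorem loc_pth (h : Loc (A p) p.1 u v d u' v' d' m w) :
    loc p (u, v, d) (u', v', d') (pth p u v' (w 0)) = true := by
  rw [loc_iff, pth_eq h, List.length_map, List.length_range]
  exact h.congr fun i hi => by simp [List.getD_eq_getElem?_getD, hi]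

theorem sound (k) (s : St) (h : s ∈ (step p)^[k] []) : ∃ m w D, Good (A p) p.1 s.1 s.2.1 s.2.2 m w D := by
  induction k generalizing s with
  | zero => simp at h
  | succ k ih =>
    rw [Function.iterate_succ_apply'] at h
    obtain ⟨a, x, -, t, ht, e⟩ := mem_step.1 h
    rw [loc_iff] at e
    by_cases c : t.1 = p.1
    · exact ⟨_, _, _, single (c ▸ e)⟩
    · obtain ⟨m, w, D, g⟩ := ih t ((List.mem_cons.1 ht).resolve_left fun e => c (by rw [e]))
      exact ⟨_, _, _, glue (A_symm p) a.1 e c g⟩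

theorem complete (k) (g : Good (A p) p.1 u v d m w D) (hu : u ≤ p.1) (hv : v ≤ p.1) (hd : d ≤ p.1)
    (hk : m ≤ k) : (u, v, d) ∈ (step p)^[k] [] := by
  induction k generalizing u v d m w D with
  | zero => have := g.1; omega
  | succ k ih =>
    have := le_n g.2.1 fun i hi => (g.2.2.1 i hi).1
    rw [Function.iterate_succ_apply']
    refine mem_step.2 ⟨⟨hu, hv, hd⟩, w 0, (g.2.2.1 0 g.1).1, ?_⟩
    rcases split g with h | ⟨e, -, u', a, v', b, d', c, h, g'⟩
    · exact ⟨_, List.mem_cons_self, loc_pth h⟩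
    · exact ⟨_, List.mem_cons_of_mem _ (ih g' a.le b.le (by omega) (by omega)), loc_pth h⟩

theorem main (hc : (graphOf p.1 p.2).Connected) : PathLike (graphOf p.1 p.2) ↔ dec p = true := by
  rw [dec, decide_eq_true_eq]
  have n0 : 0 < p.1 := Fin.pos_iff_nonempty.2 hc.nonempty
  have bd : ∀ {m D}, Comb m D → ∀ c, c + 1 < m → c + 1 + D c < m := fun h c hc =>
    (Nat.eq_zero_or_pos _).elim (fun e => by rwa [e]) fun e => (h c e).2.1
  constructor
  · rintro ⟨q, D, σ, h1, h2, h3, h4⟩
    have cb := comb_of h1 h2 h3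
    let w : ℕ → ℕ := fun i => if h : i < p.1 then (σ.symm ⟨i, h⟩).val else 0
    have e : ∀ i (h : i < p.1), w i = σ.symm ⟨i, h⟩ := fun i h => dif_pos h
    refine complete (w := w) (D := D) _ ⟨n0, fun i hi j hj h => ?_, fun i hi => ?_, cb, .inl ⟨rfl, rfl⟩,
      fun i hi b hb => ?_⟩ le_rfl le_rfl n0.le le_rfl
    · rw [e i hi, e j hj] at h
      simpa using σ.symm.injective (Fin.ext h)
    · rw [e i hi]; exact ⟨Fin.is_lt _, (Fin.is_lt _).ne⟩
    · rw [e i hi, or_iff_right fun h => (Fin.is_lt _).ne h.1]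
      have f : ∀ j (h : j < p.1) (b : Fin p.1), b.val = w j ↔ (σ b).val = j := fun j h b => by
        rw [e j h, ← Fin.ext_iff, Equiv.eq_symm_apply, Fin.ext_iff]
      rcases hb.eq_or_lt with rfl | hb
      · refine iff_of_false (fun h => (A_lt h).false) ?_
        rintro ⟨c, hc, ⟨-, x⟩ | ⟨-, x⟩⟩
        · rw [e _ (bd cb c hc)] at x; exact (Fin.is_lt _).ne x.symm
        · rw [e _ (by omega)] at x; exact (Fin.is_lt _).ne x.symm
      · rw [A_iff (b := ⟨b, hb⟩), h4]
        refine exists_congr fun c => and_congr_right fun hc => ?_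
        rw [Sym2.eq_iff, Equiv.apply_symm_apply, ← f _ (bd cb c hc), ← f _ (by omega)]
  · intro h
    obtain ⟨m, w, D, g⟩ := sound _ _ h
    have cl := @g.closed
    obtain ⟨g1, g2, g3, g4, -, g6⟩ := g
    have sj : ∀ x : Fin p.1, ∃ i < m, x.val = w i := fun x => by
      obtain ⟨W⟩ := hc ⟨w 0, (g3 0 g1).1⟩ x
      have : ∀ {a b : Fin p.1}, (graphOf p.1 p.2).Walk a b → (∃ i < m, a.val = w i) → ∃ i < m, b.val = w i := by
        intro a b W
        induction W with
        | nil => exact id
        | cons h _ ih =>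
          rintro ⟨i, hi, e⟩
          exact ih ((cl hi (Fin.is_lt _).le (e ▸ A_iff.2 h)).resolve_left fun h => (g3 i hi).1.ne h.1)
      exact this W ⟨0, g1, rfl⟩
    choose τ t1 t2 using sj
    have ti : Function.Injective τ := fun a b e => Fin.ext (by rw [t2, t2, e])
    obtain rfl : m = p.1 := le_antisymm (le_n g2 fun i hi => (g3 i hi).1) (by
      simpa using Fintype.card_le_of_injective (fun x => (⟨τ x, t1 x⟩ : Fin m))
        fun a b e => ti (congrArg Fin.val e))
    obtain ⟨q, q1, q2, q3⟩ := of_comb g4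
    refine ⟨q, D, Equiv.ofBijective (fun x => ⟨τ x, t1 x⟩) (Finite.injective_iff_bijective.1
      fun a b e => ti (congrArg Fin.val e)), q1, q2, q3, fun a b => ?_⟩
    rw [← A_iff, t2 a, g6 _ (t1 a) b b.is_lt.le, or_iff_right fun h => b.is_lt.ne h.2]
    refine exists_congr fun c => and_congr_right fun hc => ?_
    have f : ∀ j < p.1, b.val = w j ↔ τ b = j := fun j h =>
      ⟨fun e => g2 _ (t1 b) _ h ((t2 b).symm.trans e), fun e => e ▸ t2 b⟩
    rw [Sym2.eq_iff, f _ (bd g4 c hc), f _ (by omega)]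
    rfl

end Pool.Agent.H36.Plt
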