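import Pool.Agent.H38.NP.Defs

/-!
Path-like trees.
-/

namespace Pool.Agent.H36.Plt

/-- adjacency in the two-dimensional grid -/
def Grid (x y : ℤ × ℤ) : Prop := (x.1 - y.1) ^ 2 + (x.2 - y.2) ^ 2 = 1

/-- the direction of the edge from the `c`-th to the `(c + 1)`-th vertex of the embedded path -/
def dir (p : ℕ → ℤ × ℤ) (c : ℕ) : ℤ × ℤ := p (c + 1) - p c

/-- The edge `c, c + 1` is a maximal straight segment of the embedded path with `n` vertices, the
vertices `c - d` and `c + 1 + d` lie on the previous and on the next segment, and they are adjacent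
in the grid. -/
def Elem (n : ℕ) (p : ℕ → ℤ × ℤ) (c d : ℕ) : Prop :=
  d ≤ c ∧ c + 1 + d < n ∧ dir p (c - 1) ≠ dir p c ∧ dir p (c + 1) ≠ dir p c ∧
    (∀ i < d, dir p (c - 1 - i) = dir p (c - 1) ∧ dir p (c + 1 + i) = dir p (c + 1)) ∧
    Grid (p (c - d)) (p (c + 1 + d))

/-- `G` is isomorphic to a graph obtained from an embedding `p` of the path with `n` vertices by
elementary transformations: the edge `c, c + 1` is replaced by the edge `c - D c, c + 1 + D c`
(`D c = 0`: the edge is kept). -/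
def PathLike {n : ℕ} (G : SimpleGraph (Fin n)) : Prop :=
  ∃ (p : ℕ → ℤ × ℤ) (D : ℕ → ℕ) (σ : Fin n ≃ Fin n), Set.InjOn p (Set.Iio n) ∧
    (∀ c, c + 1 < n → Grid (p c) (p (c + 1))) ∧ (∀ c, 0 < D c → Elem n p c (D c)) ∧
    ∀ u v, G.Adj u v ↔ ∃ c, c + 1 < n ∧ s((σ u).val, (σ v).val) = s(c - D c, c + 1 + D c)

end Pool.Agent.H36.Plt
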