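import Pool.Agent.H36.Sim

namespace Pool.Agent.H36.Prism

open Pool.Agent.H38.NP Pool.Agent.H36 Finset

/-- a graph: number of vertices and edge list -/
abbrev Gr := ℕ × List (ℕ × ℕ)

def Adj (G : Gr) (u v : ℕ) : Prop := u ≠ v ∧ ((u, v) ∈ G.2 ∨ (v, u) ∈ G.2)

instance (G : Gr) (u v : ℕ) : Decidable (Adj G u v) := by unfold Adj; infer_instance

/-- the part with label `i` of the partition given by the label list `c` -/
def part (N : ℕ) (c : List ℕ) (i : ℕ) : Finset ℕ := {v ∈ range N | c.getD v 0 = i}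

/-- 3-set systems: universe size and list of triples -/
abbrev Sys := ℕ × List (ℕ × ℕ × ℕ)

def el (J : Sys) (t s : ℕ) : ℕ :=
  if s = 0 then (J.2.getD t (0, 0, 0)).1 else if s = 1 then (J.2.getD t (0, 0, 0)).2.1
  else (J.2.getD t (0, 0, 0)).2.2

def Valid (B : ℕ) (J : Sys) : Prop :=
  (∀ t < J.2.length, ∀ s < 3, el J t s < J.1 ∧ ∀ s' < 3, el J t s = el J t s' → s = s') ∧
    J.2.length ≤ B * J.1

/-- indices of pairwise disjoint triples -/
def Pack (J : Sys) (M : List ℕ) : Prop :=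
  M.Nodup ∧ (∀ t ∈ M, t < J.2.length) ∧
    ∀ t ∈ M, ∀ t' ∈ M, ∀ s < 3, ∀ s' < 3, el J t s = el J t' s' → t = t'

def Perfect (J : Sys) : Prop := ∃ M, Pack J M ∧ ∀ x < J.1, ∃ t ∈ M, ∃ s < 3, el J t s = x

def Tri (G : Gr) (P : Finset ℕ) : Prop := #P = 3 ∧ ∀ u ∈ P, ∀ v ∈ P, u ≠ v → Adj G u v

theorem symm {G : Gr} {u v : ℕ} (h : Adj G u v) : Adj G v u := ⟨h.1.symm, h.2.symm⟩

def ad (J : Sys) (u v : ℕ) : Prop :=
  J.1 ≤ v ∧ ((u < J.1 ∧ u = el J ((v - J.1) / 6) ((v - J.1) % 6 / 2)) ∨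
    (J.1 ≤ u ∧ (u - J.1) / 6 = (v - J.1) / 6 ∧
      ((u - J.1) % 6 / 2 = (v - J.1) % 6 / 2 ∨ (u - J.1) % 2 = (v - J.1) % 2)))

instance (J : Sys) (u v : ℕ) : Decidable (ad J u v) := by unfold ad; infer_instance

def red (J : Sys) : Gr :=
  (J.1 + 6 * J.2.length, ((List.range (J.1 + 6 * J.2.length)).product
    (List.range (J.1 + 6 * J.2.length))).filter fun p => decide (ad J p.1 p.2))

theorem adj_iff {J : Sys} {u v : ℕ} : Adj (red J) u v ↔ u ≠ v ∧ u < J.1 + 6 * J.2.length ∧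
    v < J.1 + 6 * J.2.length ∧ (ad J u v ∨ ad J v u) := by
  unfold Adj red
  simp only [List.mem_filter, List.pair_mem_product, List.mem_range, decide_eq_true_eq]
  tauto

theorem coord {n v : ℕ} (h : ¬ v < n) : ∃ t s r, s < 3 ∧ r < 2 ∧ v = n + 6 * t + 2 * s + r :=
  ⟨(v - n) / 6, (v - n) % 6 / 2, (v - n) % 2, by omega, by omega, by omega⟩

theorem cd (n t : ℕ) {s r : ℕ} (hs : s < 3) (hr : r < 2) :
    (n + 6 * t + 2 * s + r - n) / 6 = t ∧ (n + 6 * t + 2 * s + r - n) % 6 / 2 = s ∧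
      (n + 6 * t + 2 * s + r - n) % 2 = r := by omega

theorem adjEE {J : Sys} {x y : ℕ} (hx : x < J.1) (hy : y < J.1) : ¬ Adj (red J) x y := by
  rw [adj_iff]
  rintro ⟨-, -, -, h | h⟩ <;> have := h.1 <;> omega

theorem adjEG {J : Sys} {x t s r : ℕ} (hx : x < J.1) (hs : s < 3) (hr : r < 2) :
    Adj (red J) x (J.1 + 6 * t + 2 * s + r) ↔ t < J.2.length ∧ x = el J t s := by
  rw [adj_iff]
  unfold ad
  rw [(cd J.1 t hs hr).1, (cd J.1 t hs hr).2.1]
  constructor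
  · rintro ⟨-, -, h, ⟨-, h1 | h1⟩ | ⟨h1, -⟩⟩
    · exact ⟨by omega, h1.2⟩
    · have := h1.1; omega
    · omega
  · rintro ⟨h1, h2⟩
    exact ⟨by omega, by omega, by omega, Or.inl ⟨by omega, Or.inl ⟨hx, h2⟩⟩⟩

theorem adjGG {J : Sys} {t s r t' s' r' : ℕ} (hs : s < 3) (hr : r < 2) (hs' : s' < 3)
    (hr' : r' < 2) : Adj (red J) (J.1 + 6 * t + 2 * s + r) (J.1 + 6 * t' + 2 * s' + r') ↔
      t < J.2.length ∧ t = t' ∧ ((s = s' ∧ r ≠ r') ∨ (s ≠ s' ∧ r = r')) := by
  rw [adj_iff]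
  unfold ad
  rw [(cd J.1 t hs hr).1, (cd J.1 t hs hr).2.1, (cd J.1 t hs hr).2.2,
    (cd J.1 t' hs' hr').1, (cd J.1 t' hs' hr').2.1, (cd J.1 t' hs' hr').2.2]
  constructor
  · rintro ⟨h0, h, -, ⟨-, h1 | h1⟩ | ⟨-, h1 | h1⟩⟩
    · have := h1.1; omega
    · omega
    · have := h1.1; omega
    · omega
  · rintro ⟨h1, h2, h3⟩
    exact ⟨by omega, by omega, by omega, Or.inl ⟨by omega, Or.inr ⟨by omega, h2, by omega⟩⟩⟩

theorem keyE {B : ℕ} {J : Sys} (hJ : Valid B J) {a b c : ℕ} (h1 : Adj (red J) a b)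
    (h2 : Adj (red J) a c) (h3 : Adj (red J) b c) (ha : a < J.1) :
    ∃ t < J.2.length, ∃ s < 3, ∃ r < 2, a = el J t s ∧ b = J.1 + 6 * t + 2 * s + r ∧
      c = J.1 + 6 * t + 2 * s + (1 - r) := by
  obtain ⟨t, s, r, hs, hr, eb⟩ := coord (fun hb => adjEE ha hb h1)
  obtain ⟨t', s', r', hs', hr', ec⟩ := coord (fun hb => adjEE ha hb h2)
  rw [eb, adjEG ha hs hr] at h1
  rw [ec, adjEG ha hs' hr'] at h2
  rw [eb, ec, adjGG hs hr hs' hr'] at h3
  have e4 := (hJ.1 t h1.1 s hs).2 s' hs' (by rw [← h1.2, h2.2, h3.2.1])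
  exact ⟨t, h1.1, s, hs, r, hr, h1.2, eb, by omega⟩

theorem keyG {J : Sys} {a b c : ℕ} (h1 : Adj (red J) a b)
    (h2 : Adj (red J) a c) (h3 : Adj (red J) b c) (ha : ¬ a < J.1) (hb : ¬ b < J.1)
    (hc : ¬ c < J.1) : ∃ t < J.2.length, ∃ r < 2, ∃ s < 3, ∃ s' < 3, s ≠ s' ∧
      a = J.1 + 6 * t + 2 * s + r ∧ b = J.1 + 6 * t + 2 * s' + r ∧
      c = J.1 + 6 * t + 2 * (3 - s - s') + r := by
  obtain ⟨t, s, r, hs, hr, ea⟩ := coord ha
  obtain ⟨t', s', r', hs', hr', eb⟩ := coord hb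
  obtain ⟨t2, s2, r2, hs2, hr2, ec⟩ := coord hc
  rw [ea, eb, adjGG hs hr hs' hr'] at h1
  rw [ea, ec, adjGG hs hr hs2 hr2] at h2
  rw [eb, ec, adjGG hs' hr' hs2 hr2] at h3
  have k : r = r' ∧ r = r2 ∧ s ≠ s' ∧ s2 = 3 - s - s' := by
    have := h1.2.2; have := h2.2.2; have := h3.2.2
    clear h1 h2 h3 ea eb ec ha hb hc
    omega
  refine ⟨t, h1.1, r, hr, s, hs, s', hs', k.2.2.1, ea, ?_, ?_⟩
  · rw [eb, ← h1.2.1, ← k.1]
  · rw [ec, ← h2.2.1, ← k.2.1, k.2.2.2]

/-- the two kinds of triangles -/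
theorem tri_cases {B : ℕ} {J : Sys} (hJ : Valid B J) {u v w : ℕ} (h1 : Adj (red J) u v)
    (h2 : Adj (red J) u w) (h3 : Adj (red J) v w) : ∃ t < J.2.length,
      (∃ s < 3, ∀ x, x = u ∨ x = v ∨ x = w ↔
        x = el J t s ∨ x = J.1 + 6 * t + 2 * s ∨ x = J.1 + 6 * t + 2 * s + 1) ∨
      (∃ r < 2, ∀ x, x = u ∨ x = v ∨ x = w ↔
        x = J.1 + 6 * t + r ∨ x = J.1 + 6 * t + 2 + r ∨ x = J.1 + 6 * t + 4 + r) := by
  by_cases hu : u < J.1
  · obtain ⟨t, ht, s, hs, r, hr, h⟩ := keyE hJ h1 h2 h3 hu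
    exact ⟨t, ht, Or.inl ⟨s, hs, fun x => by omega⟩⟩
  by_cases hv : v < J.1
  · obtain ⟨t, ht, s, hs, r, hr, h⟩ := keyE hJ (symm h1) h3 h2 hv
    exact ⟨t, ht, Or.inl ⟨s, hs, fun x => by omega⟩⟩
  by_cases hw : w < J.1
  · obtain ⟨t, ht, s, hs, r, hr, h⟩ := keyE hJ (symm h2) (symm h3) h1 hw
    exact ⟨t, ht, Or.inl ⟨s, hs, fun x => by omega⟩⟩
  obtain ⟨t, ht, r, hr, s, hs, s', hs', h⟩ := keyG h1 h2 h3 hu hv hw
  exact ⟨t, ht, Or.inr ⟨r, hr, fun x => by omega⟩⟩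

theorem tri_of {G : Gr} {a b c : ℕ} (h1 : Adj G a b) (h2 : Adj G a c) (h3 : Adj G b c) :
    Tri G {a, b, c} := by
  refine ⟨card_eq_three.2 ⟨_, _, _, h1.1, h2.1, h3.1, rfl⟩, fun u hu v hv huv => ?_⟩
  simp only [mem_insert, mem_singleton] at hu hv
  rcases hu with hu | hu | hu <;> rcases hv with hv | hv | hv <;> rw [hu, hv] at huv ⊢
  exacts [absurd rfl huv, h1, h2, symm h1, absurd rfl huv, h3, symm h2, symm h3, absurd rfl huv]

def ok (J : Sys) (c : List ℕ) (t s : ℕ) : Prop :=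
  c.getD (el J t s) 0 = c.getD (J.1 + 6 * t + 2 * s) 0 ∧
    c.getD (J.1 + 6 * t + 2 * s + 1) 0 = c.getD (J.1 + 6 * t + 2 * s) 0 ∧
    ((List.range (J.1 + 6 * J.2.length)).filter fun v =>
      decide (c.getD v 0 = c.getD (J.1 + 6 * t + 2 * s) 0)).length = 3

instance (J : Sys) (c : List ℕ) (t s : ℕ) : Decidable (ok J c t s) := by unfold ok; infer_instance

def back (J : Sys) (c : List ℕ) : List ℕ :=
  (List.range J.2.length).filter fun t => decide (ok J c t 0 ∧ ok J c t 1 ∧ ok J c t 2)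

theorem flen (K : ℕ) (p : ℕ → Prop) [DecidablePred p] :
    ((List.range K).filter fun t => decide (p t)).length = #{t ∈ range K | p t} := by
  rw [← List.toFinset_card_of_nodup (List.nodup_range.filter _)]
  congr 1
  ext; simp

theorem mem_back {J : Sys} {c : List ℕ} {t : ℕ} :
    t ∈ back J c ↔ t < J.2.length ∧ ∀ s < 3, ok J c t s := by
  unfold back
  simp only [List.mem_filter, List.mem_range, decide_eq_true_eq]
  refine and_congr_right fun _ => ⟨fun h s hs => ?_, fun h => ⟨h 0 (by omega), h 1 (by omega),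
    h 2 (by omega)⟩⟩
  obtain rfl | rfl | rfl : s = 0 ∨ s = 1 ∨ s = 2 := by omega
  exacts [h.1, h.2.1, h.2.2]

theorem back_pack {B : ℕ} {J : Sys} (hJ : Valid B J) (c : List ℕ) : Pack J (back J c) := by
  refine ⟨List.nodup_range.filter _, fun t ht => (mem_back.1 ht).1,
    fun t ht t' ht' s hs s' hs' e => ?_⟩
  obtain ⟨h1, h2⟩ := mem_back.1 ht
  obtain ⟨h3, h4⟩ := mem_back.1 ht'
  obtain ⟨a1, a2, a3⟩ := h2 s hs
  obtain ⟨b1, -, -⟩ := h4 s' hs'
  have c1 := (hJ.1 t h1 s hs).1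
  rw [flen] at a3
  by_contra hne
  have := card_le_card (show ({el J t s, J.1 + 6 * t + 2 * s, J.1 + 6 * t + 2 * s + 1,
      J.1 + 6 * t' + 2 * s'} : Finset ℕ) ⊆ {v ∈ range (J.1 + 6 * J.2.length) |
        c.getD v 0 = c.getD (J.1 + 6 * t + 2 * s) 0} from fun x hx => by
    simp only [mem_insert, mem_singleton] at hx
    rw [mem_filter, mem_range]
    rcases hx with h | h | h | h <;> rw [h]
    · exact ⟨by omega, a1⟩
    · exact ⟨by omega, rfl⟩
    · exact ⟨by omega, a2⟩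
    · exact ⟨by omega, by rw [← b1, ← e, a1]⟩)
  rw [card_insert_of_notMem (by simp; omega), card_insert_of_notMem (by simp; omega),
    card_insert_of_notMem (by simp; omega), card_singleton] at this
  omega

theorem tri_part {B : ℕ} {J : Sys} (hJ : Valid B J) {P : Finset ℕ} (h : Tri (red J) P) :
    ∃ t < J.2.length, (∃ s < 3, ∀ x, x ∈ P ↔
        x = el J t s ∨ x = J.1 + 6 * t + 2 * s ∨ x = J.1 + 6 * t + 2 * s + 1) ∨
      (∃ r < 2, ∀ x, x ∈ P ↔
        x = J.1 + 6 * t + r ∨ x = J.1 + 6 * t + 2 + r ∨ x = J.1 + 6 * t + 4 + r) := by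
  obtain ⟨u, v, w, h1, h2, h3, e⟩ := card_eq_three.1 h.1
  have := tri_cases hJ (h.2 u (by simp [e]) v (by simp [e]) h1)
    (h.2 u (by simp [e]) w (by simp [e]) h2) (h.2 v (by simp [e]) w (by simp [e]) h3)
  simpa only [e, mem_insert, mem_singleton] using this

open Classical in
theorem cover {B : ℕ} {J : Sys} (hJ : Valid B J) (c : List ℕ) : J.1 ≤ 3 * (back J c).length +
    3 * #{v ∈ range (red J).1 | ¬ Tri (red J) (part (red J).1 c (c.getD v 0))} := by
  have hN : (red J).1 = J.1 + 6 * J.2.length := rfl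
  have hsub : range J.1 ⊆ ((back J c).toFinset.biUnion fun t => (range 3).image (el J t)) ∪
      ({v ∈ range (red J).1 | ¬ Tri (red J) (part (red J).1 c (c.getD v 0))}.biUnion fun u =>
        (range 3).image fun s => if u < J.1 then u else el J ((u - J.1) / 6) s) := by
    intro x hx
    rw [mem_range] at hx
    simp only [mem_union, mem_biUnion, mem_image, mem_filter, mem_range, List.mem_toFinset]
    by_cases h : Tri (red J) (part (red J).1 c (c.getD x 0))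
    swap
    · exact Or.inr ⟨x, ⟨by omega, h⟩, 0, by omega, if_pos hx⟩
    have hxP : x ∈ part (red J).1 c (c.getD x 0) := mem_filter.2 ⟨mem_range.2 (by omega), rfl⟩
    obtain ⟨t, ht, ⟨s, hs, hP⟩ | ⟨s, hs, hP⟩⟩ := tri_part hJ h
    swap
    · have := (hP x).1 hxP; omega
    have ex : x = el J t s := by have := (hP x).1 hxP; omega
    by_cases hb : t ∈ back J c
    · exact Or.inl ⟨t, hb, s, hs, ex.symm⟩
    right
    rw [mem_back] at hb
    push Not at hb
    obtain ⟨s', hs', hok⟩ := hb ht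
    refine ⟨J.1 + 6 * t + 2 * s', ⟨by omega, fun h' => ?_⟩, s, hs, ?_⟩
    · have hy : J.1 + 6 * t + 2 * s' ∈ part (red J).1 c (c.getD (J.1 + 6 * t + 2 * s') 0) :=
        mem_filter.2 ⟨mem_range.2 (by omega), rfl⟩
      obtain ⟨t2, ht2, ⟨s2, hs2, hQ⟩ | ⟨s2, hs2, hQ⟩⟩ := tri_part hJ h'
      · have c1 := (hJ.1 t2 ht2 s2 hs2).1
        have : t2 = t ∧ s2 = s' := by have := (hQ _).1 hy; omega
        rw [this.1, this.2] at hQ
        exact hok ⟨(mem_filter.1 ((hQ _).2 (Or.inl rfl))).2,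
          (mem_filter.1 ((hQ _).2 (Or.inr (Or.inr rfl)))).2, by rw [flen]; exact h'.1⟩
      · have e : t2 = t ∧ s2 = 0 := by have := (hQ _).1 hy; omega
        have a1 := (mem_filter.1 ((hQ (J.1 + 6 * t + 2 * s)).2 (by omega))).2
        have a2 := (mem_filter.1 ((hP (J.1 + 6 * t + 2 * s)).2 (by omega))).2
        have := (hQ x).1 (mem_filter.2 ⟨mem_range.2 (by omega), by rw [← a1, a2]⟩)
        omega
    · rw [if_neg (by omega), ex]
      congr 1
      omega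
  have := card_le_card hsub
  rw [card_range] at this
  refine this.trans ((card_union_le _ _).trans (Nat.add_le_add ?_ ?_))
  · refine (card_biUnion_le_card_mul _ _ 3 fun _ _ => card_image_le.trans (by simp)).trans ?_
    have := List.toFinset_card_le (back J c)
    omega
  · exact (card_biUnion_le_card_mul _ _ 3 fun _ _ => card_image_le.trans (by simp)).trans
      (le_of_eq (mul_comm _ _))

theorem forth {B : ℕ} {J : Sys} (hJ : Valid B J) (hP : Perfect J) :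
    ∃ c, ∀ v < (red J).1, Tri (red J) (part (red J).1 c (c.getD v 0)) := by
  classical
  obtain ⟨M, hM, hc⟩ := hP
  have hN : (red J).1 = J.1 + 6 * J.2.length := rfl
  choose! τ hτ σ hσ he using hc
  let F : ℕ → ℕ := fun v => if v < J.1 then 6 * τ v + 2 * σ v else
    if (v - J.1) / 6 ∈ M then (v - J.1) / 2 * 2 else (v - J.1) / 6 * 6 + (v - J.1) % 2
  have hF : ∀ v < (red J).1, ((List.range (red J).1).map F).getD v 0 = F v := fun v hv => by
    rw [List.getD_eq_getElem _ _ (by simpa using hv)]; simp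
  have mem : ∀ i x, x ∈ part (red J).1 ((List.range (red J).1).map F) i ↔
      x < (red J).1 ∧ F x = i := fun i x => by
    unfold part
    rw [mem_filter, mem_range]
    exact and_congr_right fun h => by rw [hF x h]
  have rung : ∀ t ∈ M, ∀ s < 3, Tri (red J) (part (red J).1 ((List.range (red J).1).map F)
      (6 * t + 2 * s)) := fun t ht s hs => by
    have h1 := hM.2.1 t ht
    have h2 := hJ.1 t h1 s hs
    have e : part (red J).1 ((List.range (red J).1).map F) (6 * t + 2 * s) =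
        {el J t s, J.1 + 6 * t + 2 * s, J.1 + 6 * t + 2 * s + 1} := by
      ext x
      rw [mem]
      simp only [mem_insert, mem_singleton, F]
      by_cases hx : x < J.1
      · rw [if_pos hx]
        have a1 := hσ x hx
        have a2 := he x hx
        constructor
        · rintro ⟨-, h⟩
          have : τ x = t ∧ σ x = s := by omega
          rw [this.1, this.2] at a2
          exact Or.inl a2.symm
        · intro h
          have a3 : x = el J t s := by omega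
          have a4 := hM.2.2 _ (hτ x hx) t ht _ a1 s hs (a2.trans a3)
          have a5 := h2.2 _ a1 (by rw [← a3, ← a4, a2])
          omega
      · rw [if_neg hx]
        by_cases hx2 : (x - J.1) / 6 ∈ M
        · rw [if_pos hx2]; omega
        · rw [if_neg hx2]
          have : (x - J.1) / 6 ≠ t := fun h => hx2 (h ▸ ht)
          omega
    rw [e]
    exact tri_of ((adjEG (r := 0) h2.1 hs (by omega)).2 ⟨h1, rfl⟩)
      ((adjEG h2.1 hs (by omega)).2 ⟨h1, rfl⟩)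
      ((adjGG (r := 0) hs (by omega) hs (by omega)).2 ⟨h1, rfl, Or.inl ⟨rfl, by omega⟩⟩)
  refine ⟨(List.range (red J).1).map F, fun v hv => ?_⟩
  rw [hF v hv]
  by_cases hx : v < J.1
  · simp only [F, if_pos hx]
    exact rung _ (hτ v hx) _ (hσ v hx)
  by_cases hx2 : (v - J.1) / 6 ∈ M
  · simp only [F, if_neg hx, if_pos hx2]
    have := rung _ hx2 ((v - J.1) % 6 / 2) (by omega)
    rwa [show 6 * ((v - J.1) / 6) + 2 * ((v - J.1) % 6 / 2) = (v - J.1) / 2 * 2 by omega] at this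
  have e : part (red J).1 ((List.range (red J).1).map F) (F v) =
      {J.1 + 6 * ((v - J.1) / 6) + (v - J.1) % 2, J.1 + 6 * ((v - J.1) / 6) + 2 + (v - J.1) % 2,
        J.1 + 6 * ((v - J.1) / 6) + 4 + (v - J.1) % 2} := by
    ext x
    rw [mem]
    simp only [mem_insert, mem_singleton, F, if_neg hx, if_neg hx2]
    by_cases hy : x < J.1
    · rw [if_pos hy]
      have a1 := hσ x hy
      have : τ x ≠ (v - J.1) / 6 := fun h => hx2 (h ▸ hτ x hy)
      omega
    · rw [if_neg hy]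
      by_cases hy2 : (x - J.1) / 6 ∈ M
      · rw [if_pos hy2]
        have : (x - J.1) / 6 ≠ (v - J.1) / 6 := fun h => hx2 (h ▸ hy2)
        omega
      · rw [if_neg hy2]; omega
  rw [e]
  have k1 : (v - J.1) % 2 < 2 := by omega
  have k2 : (v - J.1) / 6 < J.2.length := by omega
  exact tri_of
    ((adjGG (s := 0) (s' := 1) (by omega) k1 (by omega) k1).2 ⟨k2, rfl, Or.inr ⟨by omega, rfl⟩⟩)
    ((adjGG (s := 0) (s' := 2) (by omega) k1 (by omega) k1).2 ⟨k2, rfl, Or.inr ⟨by omega, rfl⟩⟩)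
    ((adjGG (s := 1) (s' := 2) (by omega) k1 (by omega) k1).2 ⟨k2, rfl, Or.inr ⟨by omega, rfl⟩⟩)

theorem pt_red : PT red := by unfold red ad el; fun_prop

theorem pt_ok (s : ℕ) : PT fun p : (Sys × List ℕ) × ℕ => decide (ok p.1.1 p.1.2 p.2 s) := by
  unfold ok el; fun_prop

theorem pt_back : PT fun p : Sys × List ℕ => back p.1 p.2 := by
  have h0 := pt_ok 0
  have h1 := pt_ok 1
  have h2 := pt_ok 2
  exact PT.filter (PT.decide_and h0 (PT.decide_and h1 h2)) (by fun_prop)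

end Pool.Agent.H36.Prism
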