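import Pool.Agent.H36.Greedy3

/-!
Rational arithmetic in polynomial time.
-/

namespace Pool.Agent.H36.QAr

open Pool.Agent.H38.NP Pool.Agent.H38.ER Maj Greedy

variable {α : Type} [Enc α] {f g : α → ℚ}

instance : Dec ℤ :=
  ⟨fun x => cond (dec x : Bool × Bin).1 (-((dec x : Bool × Bin).2.val : ℤ))
      ((dec x : Bool × Bin).2.val : ℤ), by
    have h : PT fun x : Bits => ((dec x : Bool × Bin).2.val : ℤ) := pt_val (PT.snd Dec.pt)
    exact PT.cond (PT.fst Dec.pt) (pt_zneg h) h, fun z => by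
    have : (dec (raw z) : Bool × Bin) = (decide (z < 0), Bin.mk z.natAbs) := Dec.dec_raw _
    rw [this]
    by_cases h : z < 0 <;> simp only [h, decide_true, decide_false, cond_true, cond_false] <;> omega⟩

theorem qd_q (a : ℤ) {d : ℤ} (hd : 0 < d) : qd a d = a / d := by
  have := qd_eq a hd
  exact_mod_cast this

instance : Dec ℚ :=
  ⟨fun x => qd (dec x : ℤ × Bin).1 (dec x : ℤ × Bin).2.val,
    pt_qd (PT.fst Dec.pt) (pt_val (PT.snd Dec.pt)), fun q => by
    have : (dec (raw q) : ℤ × Bin) = (q.num, Bin.mk q.den) := Dec.dec_raw _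
    rw [this, qd_q _ (by simpa using q.pos)]
    exact q.num_div_den⟩

theorem pt_nd (hf : PT f) : PT fun a => ((f a).num, Bin.mk (f a).den) := hf.recast' fun _ => rfl
theorem pt_num (hf : PT f) : PT fun a => (f a).num := (pt_nd hf).fst
theorem pt_den (hf : PT f) : PT fun a => ((f a).den : ℤ) := pt_val (pt_nd hf).snd

@[fun_prop] theorem pt_qadd (hf : PT f) (hg : PT g) : PT fun a => f a + g a :=
  (pt_qd (pt_zadd (pt_zmul (pt_num hf) (pt_den hg)) (pt_zmul (pt_num hg) (pt_den hf)))
    (pt_zmul (pt_den hf) (pt_den hg))).of_eq fun a => by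
      rw [qd_q _ (by have := (f a).pos; have := (g a).pos; positivity)]
      conv_rhs => rw [← (f a).num_div_den, ← (g a).num_div_den]
      push_cast; field_simp

@[fun_prop] theorem pt_qmul (hf : PT f) (hg : PT g) : PT fun a => f a * g a :=
  (pt_qd (pt_zmul (pt_num hf) (pt_num hg)) (pt_zmul (pt_den hf) (pt_den hg))).of_eq fun a => by
      rw [qd_q _ (by have := (f a).pos; have := (g a).pos; positivity)]
      conv_rhs => rw [← (f a).num_div_den, ← (g a).num_div_den]
      push_cast; field_simp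

@[fun_prop] theorem pt_qsub (hf : PT f) (hg : PT g) : PT fun a => f a - g a :=
  (pt_qadd hf (pt_qmul (PT.const (-1)) hg)).of_eq fun a => by ring

theorem pt_qinv (hf : PT f) : PT fun a => (f a)⁻¹ :=
  (pt_qd (pt_zmul (pt_num hf) (pt_den hf)) (pt_zmul (pt_num hf) (pt_num hf))).of_eq fun a => by
    by_cases h : (f a).num = 0
    · simp [qd, Rat.num_eq_zero.1 h]
    · rw [qd_q _ (mul_self_pos.2 h)]
      conv_rhs => rw [← (f a).num_div_den]
      push_cast; field_simp

@[fun_prop] theorem pt_qdiv (hf : PT f) (hg : PT g) : PT fun a => f a / g a :=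
  (pt_qmul hf (pt_qinv hg)).of_eq fun a => (div_eq_mul_inv _ _).symm

@[fun_prop] theorem pt_qle (hf : PT f) (hg : PT g) : PT fun a => decide (f a ≤ g a) :=
  (pt_zle (pt_zmul (pt_num hf) (pt_den hg)) (pt_zmul (pt_num hg) (pt_den hf))).of_eq fun a => by
    rw [decide_eq_decide, Rat.le_iff]

@[fun_prop] theorem pt_qlt (hf : PT f) (hg : PT g) : PT fun a => decide (f a < g a) :=
  (pt_qle hg hf).not.of_eq fun a => by simp [← decide_not]

@[fun_prop] theorem pt_qmax (hf : PT f) (hg : PT g) : PT fun a => max (f a) (g a) :=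
  (PT.ite (pt_qle hf hg) hg hf).of_eq fun a => (max_def _ _).symm

@[fun_prop] theorem pt_qmin (hf : PT f) (hg : PT g) : PT fun a => min (f a) (g a) :=
  (PT.ite (pt_qle hf hg) hf hg).of_eq fun a => (min_def _ _).symm

end Pool.Agent.H36.QAr
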