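import Pool.Agent.H36.RDomDefs
import Pool.Agent.H36.Ilp
import Pool.Agent.H36.Gr

/-!
For r at least 3, r-Dominating Set is fixed-parameter tractable in the distance to split graphs.
-/

namespace Pool.Agent.H36.RDom

open Pool.Agent.H38.NP Par SimpleGraph

section
variable {V : Type} {G : SimpleGraph V} {u v w s s' : V} {i j r : ℕ}

def Nr (G : SimpleGraph V) (j : ℕ) (u v : V) : Prop := G.edist u v ≤ j

theorem nr_zero : Nr G 0 u v ↔ u = v := by simp [Nr]

theorem Nr.symm (h : Nr G j u v) : Nr G j v u := by rwa [Nr, edist_comm]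

theorem Nr.trans (h : Nr G i u v) (k : Nr G j v w) : Nr G (i + j) u w :=
  SimpleGraph.edist_triangle.trans (by push_cast; exact add_le_add h k)

theorem Nr.mono (h : Nr G i u v) (e : i ≤ j) : Nr G j u v := le_trans h (by exact_mod_cast e)

theorem nr_refl (j u) : Nr G j u u := by simp [Nr]

theorem nr_adj (h : G.Adj u v) : Nr G 1 u v := (edist_eq_one_iff_adj.2 h).le

theorem nr_succ : Nr G (j + 1) u v ↔ u = v ∨ ∃ w, G.Adj u w ∧ Nr G j w v := by
  refine ⟨fun h => ?_, ?_⟩
  · obtain ⟨p, hp⟩ := (reachable_of_edist_ne_top (ne_top_of_le_ne_top (by simp) h)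
      ).exists_walk_length_eq_edist
    cases p with
    | nil => exact .inl rfl
    | cons a p =>
      refine .inr ⟨_, a, (edist_le p).trans ?_⟩
      rw [Nr, ← hp] at h
      norm_cast at h ⊢
      simpa using h
  · rintro (rfl | ⟨w, a, b⟩)
    exacts [nr_refl _ _, add_comm 1 j ▸ (nr_adj a).trans b]

theorem key {X : V → Prop} (hr : 3 ≤ r)
    (hB : ∀ u v, (¬X u ∧ ∃ w, ¬X w ∧ G.Adj u w) → (¬X v ∧ ∃ w, ¬X w ∧ G.Adj v w) → Nr G 3 u v)
    (e1 : (¬X s ∧ ∃ w, ¬X w ∧ G.Adj s w) → ¬X s' ∧ ∃ w, ¬X w ∧ G.Adj s' w)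
    (e2 : ∀ x, X x → ∀ j ≤ r, Nr G j s x → Nr G j s' x) (hs : ∃ w, G.Adj s w)
    (h : Nr G r s u) : Nr G r s' u := by
  by_cases a : X u
  · exact e2 u a r le_rfl h
  by_cases b : X s
  · rwa [nr_zero.1 (e2 s b 0 r.zero_le (nr_refl _ _))]
  obtain ⟨r, rfl⟩ : ∃ q, r = q + 1 := ⟨r - 1, by omega⟩
  by_cases c : ∃ w, ¬X w ∧ G.Adj u w
  · by_cases d : ∃ w, ¬X w ∧ G.Adj s w
    · exact (hB _ _ (e1 ⟨b, d⟩) ⟨a, c⟩).mono hr
    · rcases nr_succ.1 h with rfl | ⟨x, f, g⟩
      · exact absurd c d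
      · exact add_comm 1 r ▸ (e2 x (by grind) 1 (by omega) (nr_adj f)).trans g
  · have : ∃ x, G.Adj u x ∧ Nr G r x s := by
      rcases nr_succ.1 h.symm with rfl | k
      · exact hs.imp fun x f => ⟨f, (nr_adj f.symm).mono (by omega)⟩
      · exact k
    obtain ⟨x, f, g⟩ := this
    exact (e2 x (by grind) r (by omega) g.symm).trans (nr_adj f.symm)

theorem split3 {X : V → Prop} {K I : Set V} (h : K ∪ I = {v | ¬X v}) (hK : G.IsClique K)
    (hI : G.IsIndepSet I) (u v) (a : ¬X u ∧ ∃ w, ¬X w ∧ G.Adj u w)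
    (b : ¬X v ∧ ∃ w, ¬X w ∧ G.Adj v w) : Nr G 3 u v := by
  have k : ∀ u, (¬X u ∧ ∃ w, ¬X w ∧ G.Adj u w) → ∃ c ∈ K, Nr G 1 u c := by
    rintro u ⟨a, w, b, c⟩
    rcases (h.ge a : u ∈ K ∪ I) with d | d
    · exact ⟨u, d, nr_refl _ _⟩
    · exact ⟨w, (h.ge b : w ∈ K ∪ I).resolve_right fun e => hI d e c.ne c, nr_adj c⟩
  obtain ⟨c, c1, c2⟩ := k u a
  obtain ⟨d, d1, d2⟩ := k v b
  refine (c2.trans (?_ : Nr G 1 c d)).trans d2.symm
  by_cases e : c = d
  exacts [e ▸ nr_refl _ _, nr_adj (hK c1 d1 e)]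
end

def ad (E : List (ℕ × ℕ)) (u v : ℕ) : Bool := decide (u ≠ v ∧ ((u, v) ∈ E ∨ (v, u) ∈ E))

def nr (n : ℕ) (E : List (ℕ × ℕ)) : ℕ → ℕ → ℕ → Bool
  | 0, u, v => decide (u = v)
  | j + 1, u, v => decide (u = v) || (List.range n).any fun w => ad E u w && nr n E j w v

variable {α : Type} [Enc α]

@[fun_prop] theorem pt_ad {E : α → List (ℕ × ℕ)} {u v : α → ℕ} (hE : PT E) (hu : PT u) (hv : PT v) :
    PT fun a => ad (E a) (u a) (v a) := by unfold ad; fun_prop

theorem pt_nr0 (j) : PT fun z : ℕ × List (ℕ × ℕ) × ℕ × ℕ => nr z.1 z.2.1 j z.2.2.1 z.2.2.2 := by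
  induction j with
  | zero => unfold nr; fun_prop
  | succ j ih =>
    exact PT.or (by fun_prop) (PT.any (PT.and (by fun_prop) (ih.comp
      (g := fun z : (ℕ × List (ℕ × ℕ) × ℕ × ℕ) × ℕ => (z.1.1, z.1.2.1, z.2, z.1.2.2.2))
      (by fun_prop))) (by fun_prop))

@[fun_prop] theorem pt_nr (j) {n : α → ℕ} {E : α → List (ℕ × ℕ)} {u v : α → ℕ} (hn : PT n)
    (hE : PT E) (hu : PT u) (hv : PT v) : PT fun a => nr (n a) (E a) j (u a) (v a) :=
  (pt_nr0 j).comp (hn.mk (hE.mk (hu.mk hv)))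

theorem ad_iff {n E} {u v : Fin n} : ad E u v ↔ (graphOf n E).Adj u v := by
  simp [ad, graphOf_adj, Fin.ext_iff]

theorem nr_iff {n E j} {u v : Fin n} : nr n E j u v ↔ Nr (graphOf n E) j u v := by
  induction j generalizing u with
  | zero => simp [nr, nr_zero, Fin.ext_iff]
  | succ j ih =>
    simp only [nr, nr_succ, Bool.or_eq_true, decide_eq_true_eq, List.any_eq_true, List.mem_range,
      Bool.and_eq_true, ← ih, ← ad_iff, Fin.ext_iff, Fin.exists_iff, exists_prop]

def prof (n : ℕ) (E : List (ℕ × ℕ)) (v x : ℕ) : ℕ → List Bool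
  | 0 => [nr n E 0 v x]
  | j + 1 => nr n E (j + 1) v x :: prof n E v x j

theorem length_prof (n E v x j) : (prof n E v x j).length = j + 1 := by
  induction j <;> simp [prof, *]

theorem prof_eq {n E v v' x r} (h : prof n E v x r = prof n E v' x r) :
    ∀ j ≤ r, nr n E j v x = nr n E j v' x := by
  induction r with
  | zero => simpa [prof] using h
  | succ r ih =>
    rw [prof, prof, List.cons.injEq] at h
    intro j hj
    rcases Nat.of_le_succ hj with c | rfl
    exacts [ih h.2 j c, h.1]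

@[fun_prop] theorem pt_prof (j) {n : α → ℕ} {E : α → List (ℕ × ℕ)} {u v : α → ℕ} (hn : PT n)
    (hE : PT E) (hu : PT u) (hv : PT v) : PT fun a => prof (n a) (E a) (u a) (v a) j := by
  induction j with
  | zero => unfold prof; fun_prop
  | succ j ih => unfold prof; fun_prop

def big (a : Inst) (v : ℕ) : Bool :=
  decide (v ∉ a.2.2.2) && (List.range a.1).any fun w => decide (w ∉ a.2.2.2) && ad a.2.1 v w

def sig (r : ℕ) (a : Inst) (v : ℕ) : List Bool :=
  big a v :: a.2.2.2.flatMap fun x => prof a.1 a.2.1 v x r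

def sel (r : ℕ) (a : Inst) (w : List (List Bool)) (v : ℕ) : Bool :=
  ((List.range a.1).all fun u => !ad a.2.1 v u) ||
    (decide (sig r a v ∈ w) && (List.range v).all fun u => decide (sig r a u ≠ sig r a v))

def chk (r : ℕ) (a : Inst) (w : List (List Bool)) : Bool :=
  decide ((List.range a.1).countP (sel r a w) ≤ a.2.2.1) &&
    (List.range a.1).all fun u => (List.range a.1).any fun v => sel r a w v && nr a.1 a.2.1 r u v

theorem pt_chk (r) : PT fun z : Inst × List (List Bool) => chk r z.1 z.2 := by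
  unfold chk sel sig big
  fun_prop

theorem count_eq (n) (p : ℕ → Bool) :
    (List.range n).countP p = (Finset.univ.filter fun v : Fin n => p v).card := by
  rw [Finset.card_filter, Fin.sum_univ_eq_sum_range (fun v => if p v then 1 else 0)]
  induction n with
  | zero => simp
  | succ n ih => rw [List.range_succ, List.countP_append, ih, Finset.sum_range_succ]; simp [List.countP_cons]

theorem flat_inj {β γ : Type} {l : List β} {f g : β → List γ} (e : ∀ x, (f x).length = (g x).length)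
    (h : l.flatMap f = l.flatMap g) : ∀ x ∈ l, f x = g x := by
  induction l with
  | nil => simp
  | cons a l ih =>
    obtain ⟨h1, h2⟩ := List.append_inj h (e a)
    exact List.forall_mem_cons.2 ⟨h1, ih h2⟩

def al (r k : ℕ) : List (List Bool) := words [false, true] (k * (r + 1) + 1)

theorem correct {r} (hr : 3 ≤ r) (a : Inst) (h : Valid a) :
    RDomSet r a ↔ (words ([] :: al r (par a)) (al r (par a)).length).any (chk r a) := by
  classical
  obtain ⟨n, E, l, X⟩ := a
  obtain ⟨-, hX, K, I, h1, -, h2, h3⟩ := h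
  simp only [List.any_eq_true, chk, Bool.and_eq_true, decide_eq_true_eq, count_eq,
    List.all_eq_true, List.mem_range]
  refine ⟨fun ⟨S, c, hS⟩ => ?_, fun ⟨w, _, c, hS⟩ => ⟨_, c, fun v => ?_⟩⟩
  swap
  · obtain ⟨s, a, b, d⟩ := hS v v.2
    exact ⟨⟨s, a⟩, by simpa using b, (nr_iff (v := ⟨s, a⟩)).1 d⟩
  let T : List Bool → Prop := fun σ => ∃ s ∈ S, (∃ u, (graphOf n E).Adj s u) ∧
    sig r (n, E, l, X) s = σ
  have iso : ∀ v : Fin n, ((List.range n).all fun u => !ad E v u) ↔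
      ¬∃ u, (graphOf n E).Adj v u := fun v => by simp [← ad_iff, Fin.forall_iff]
  have m : ∀ v, sig r (n, E, l, X) v ∈ (al r X.length).map (fun σ => if T σ then σ else []) ↔
      T (sig r (n, E, l, X) v) := fun v => by
    refine ⟨fun k => ?_, fun k => List.mem_map.2 ⟨_, mem_words.2 ⟨?_, by simp⟩, if_pos k⟩⟩
    · obtain ⟨σ, -, e⟩ := List.mem_map.1 k
      split_ifs at e with d
      · exact e ▸ d
      · cases e
    · simp [sig, List.length_flatMap, length_prof]
  refine ⟨(al r X.length).map fun σ => if T σ then σ else [], mem_words.2 ⟨by simp [par], fun x hx => ?_⟩,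
    le_trans ?_ c, fun u hu => ?_⟩
  · obtain ⟨σ, k, rfl⟩ := List.mem_map.1 hx
    split_ifs
    exacts [.tail _ k, .head _]
  · have : ∀ v : Fin n, ∃ s : Fin n, sel r (n, E, l, X) ((al r X.length).map fun σ =>
        if T σ then σ else []) v → s ∈ S ∧ ((¬(∃ u, (graphOf n E).Adj v u) ∧ s = v) ∨
        ((∃ u, (graphOf n E).Adj s u) ∧ sig r (n, E, l, X) s = sig r (n, E, l, X) v ∧
          ∀ u < v.val, sig r (n, E, l, X) u ≠ sig r (n, E, l, X) v)) := fun v => by
      by_cases d : ∃ u, (graphOf n E).Adj v u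
      · by_cases e : T (sig r (n, E, l, X) v)
        · obtain ⟨s, e1, e2, e3⟩ := e
          refine ⟨s, fun k => ⟨e1, .inr ⟨e2, e3, ?_⟩⟩⟩
          simp only [sel, Bool.or_eq_true, iso, d, Bool.and_eq_true] at k
          simpa using (k.resolve_left (by simp)).2
        · refine ⟨v, fun k => ?_⟩
          simp only [sel, Bool.or_eq_true, iso, d, Bool.and_eq_true, decide_eq_true_eq, m, e] at k
          simp at k
      · refine ⟨v, fun _ => ⟨?_, .inl ⟨d, rfl⟩⟩⟩
        obtain ⟨s, e1, e2⟩ := hS v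
        obtain ⟨r, rfl⟩ : ∃ q, r = q + 1 := ⟨r - 1, by omega⟩
        rcases nr_succ.1 e2 with rfl | ⟨x, e, -⟩
        exacts [e1, absurd ⟨x, e⟩ d]
    choose f hf using this
    refine Finset.card_le_card_of_injOn f (fun v hv => (hf v (by simpa using hv)).1)
      fun u hu v hv e => ?_
    have a := (hf u (by simpa using hu)).2
    have b := (hf v (by simpa using hv)).2
    rcases lt_trichotomy u.val v.val with c | c | c <;> grind
  obtain ⟨s, s1, s2⟩ := hS ⟨u, hu⟩
  by_cases d : ∃ x, (graphOf n E).Adj s x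
  swap
  · exact ⟨s, s.2, by simp only [sel, Bool.or_eq_true, iso, d]; simp, (nr_iff (u := ⟨u, hu⟩)).2 s2⟩
  obtain ⟨v, v1, v2⟩ := Nat.findX (⟨s, rfl⟩ : ∃ v, sig r (n, E, l, X) v = sig r (n, E, l, X) s)
  have v3 : v < n := (not_lt.1 fun k => v2 s k rfl).trans_lt s.2
  refine ⟨v, v3, ?_, (nr_iff (u := ⟨u, hu⟩) (v := ⟨v, v3⟩)).2 (Nr.symm ?_)⟩
  · simp only [sel, Bool.or_eq_true, Bool.and_eq_true, decide_eq_true_eq, m, v1, List.all_eq_true,
      List.mem_range]
    exact .inr ⟨⟨s, s1, d, rfl⟩, v2⟩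
  rw [sig, sig, List.cons.injEq] at v1
  have b : ∀ v : Fin n, big (n, E, l, X) v ↔ v.val ∉ X ∧ ∃ w : Fin n, w.val ∉ X ∧
      (graphOf n E).Adj v w := fun v => by simp [big, ← ad_iff, Fin.exists_iff, and_left_comm]
  refine key (X := fun v : Fin n => v.val ∈ X) hr (split3 h1 h2 h3)
    (fun k => (b ⟨v, v3⟩).1 (v1.1 ▸ (b s).2 k)) (fun x hx j hj k => nr_iff.1 ?_) d (Nr.symm s2)
  rw [prof_eq (flat_inj (by simp [length_prof]) v1.2 x hx) j hj]
  exact nr_iff.2 k

theorem fpt {r} (hr : 3 ≤ r) : FPTOn Valid (RDomSet r) par := by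
  have p : PT fun a : Inst => par a * (r + 1) + 1 := by unfold par; fun_prop
  have c : CB par fun a : Inst => par a * (r + 1) + 1 := (CB.par.mul (CB.const _)).add (CB.const _)
  have f1 : FT par fun a => al r (par a) := FT.words (FT.of_pt (PT.const _)) (FT.of_pt p) (CB.const _) c
  have c1 : CB par fun a => sz (al r (par a)) := CB.words (CB.const _) c
  have f2 := FT.words (FT.comp (f := fun l : List (List Bool) => [] :: l) (by fun_prop) f1)
    (FT.comp (f := List.length) (by fun_prop) f1)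
    (CB.pt (f := fun l : List (List Bool) => [] :: l) (by fun_prop) c1)
    (c1.mono fun a => length_le_sz _)
  exact FT.fptOn (FT.comp (f := fun z : Inst × List (List (List Bool)) => z.2.any (chk r z.1))
    (PT.any ((pt_chk r).comp (PT.id'.fst.fst.mk PT.id'.snd)) PT.id'.snd)
    ((FT.of_pt PT.id').mk f2)) (correct hr)

end Pool.Agent.H36.RDom
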