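import Pool.Agent.H36.RDom1

/-!
Dominating Set reduces to 2-Dominating Set parameterized by the distance to split graphs.
-/

namespace Pool.Agent.H36.RDom

open Pool.Agent.H38.NP Par Gr SimpleGraph

abbrev T := ℕ × ℕ × ℕ

def Cl (n : ℕ) (E : List (ℕ × ℕ)) (v u : ℕ) : Prop := v < n ∧ (v = u ∨ (v, u) ∈ E ∨ (u, v) ∈ E)

instance {n E v u} : Decidable (Cl n E v u) := by unfold Cl; infer_instance

def R (n : ℕ) (E : List (ℕ × ℕ)) (x y : T) : Prop :=
  (x.1 = 0 ∧ (y.1 = 1 ∨ y.1 = 2) ∧ x.2.1 = y.2.1) ∨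
    (x.1 = 3 ∧ (y.1 = 3 ∨ (y.1 = 4 ∧ x.2.2 = y.2.2) ∨ (y.1 = 2 ∧ Cl n E y.2.2 x.2.2)))

instance {n E x y} : Decidable (R n E x y) := by unfold R; infer_instance

def rr (n : ℕ) (E : List (ℕ × ℕ)) (x y : T) : Bool := decide (R n E x y)

def vs (n k : ℕ) : List T := (List.range k).map (fun i => (0, i, 0)) ++
  ((List.range 5).product ((List.range (k + 1)).product (List.range (n + 1)))).filter fun x =>
    decide ((x.1 = 1 ∧ x.2.1 < k ∧ x.2.2 = 0) ∨ (x.1 = 2 ∧ x.2.1 < k) ∨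
      ((x.1 = 3 ∨ x.1 = 4) ∧ x.2.1 = 0 ∧ x.2.2 < n))

theorem mem_vs {n k} {x : T} : x ∈ vs n k ↔ (x.1 ≤ 1 ∧ x.2.1 < k ∧ x.2.2 = 0) ∨
    (x.1 = 2 ∧ x.2.1 < k ∧ x.2.2 ≤ n) ∨ ((x.1 = 3 ∨ x.1 = 4) ∧ x.2.1 = 0 ∧ x.2.2 < n) := by
  obtain ⟨a, b, c⟩ := x
  have : (∃ i < k, ((0, i, 0) : T) = (a, b, c)) ↔ a = 0 ∧ b < k ∧ c = 0 := by
    simp only [Prod.mk.injEq]; grind
  simp only [vs, List.mem_append, List.mem_map, List.mem_range, List.pair_mem_product,
    List.mem_filter, decide_eq_true_eq, this]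
  omega

theorem nd (n k) : (vs n k).Nodup := by
  refine (List.nodup_range.map fun _ _ h => by simpa using h).append ((List.nodup_range.product
    (List.nodup_range.product List.nodup_range)).filter _) fun x a b => ?_
  obtain ⟨i, -, rfl⟩ := List.mem_map.1 a
  simpa using (List.mem_filter.1 b).2

theorem le_len (n k) : k ≤ (vs n k).length := by simp [vs]

theorem lt_iff {n k} (v : Fin (vs n k).length) : v.val < k ↔ (code _ v).1 = 0 := by
  have e : ∀ v : Fin (vs n k).length, v.val < k → code _ v = (0, v.val, 0) := fun v h => by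
    simp [code, vs, List.getElem?_append_left, h]
  refine ⟨fun h => by rw [e v h], fun h => ?_⟩
  have m := mem_vs.1 (code_mem _ v)
  have l : (code _ v).2.1 < k := by omega
  have := code_inj (nd n k) (a₁ := ⟨_, l.trans_le (le_len n k)⟩) (a₂ := v)
    ((e _ l).trans (Prod.ext h.symm (Prod.ext rfl (by dsimp only; omega))))
  rw [← this]
  exact l

def red (p : GK) : Inst :=
  ((vs p.1 p.2.2).length, (mkG (vs p.1 p.2.2) (rr p.1 p.2.1)).2, p.2.2, List.range p.2.2)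

theorem pt_red : PT red := by
  have h : PT fun p : GK => vs p.1 p.2.2 := by unfold vs; fun_prop
  have k : PT fun p : GK × T × T => rr p.1.1 p.1.2.1 p.2.1 p.2.2 := by
    unfold rr R Cl
    fun_prop
  exact h.length.mk ((pt_mkG h k).snd.mk (by fun_prop))

def A (n : ℕ) (E : List (ℕ × ℕ)) (x y : T) : Prop := x ≠ y ∧ (R n E x y ∨ R n E y x)

theorem adj_iff {n k E} {u v : Fin (vs n k).length} :
    (RG (vs n k) (rr n E)).Adj u v ↔ A n E (code _ u) (code _ v) := by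
  rw [RG_adj (nd n k), GC_adj]
  simp [A, rr]

theorem two_iff {n k E} {u v : Fin (vs n k).length} : Nr (RG (vs n k) (rr n E)) 2 u v ↔
    code _ u = code _ v ∨ A n E (code _ u) (code _ v) ∨
      ∃ w ∈ vs n k, A n E (code _ u) w ∧ A n E w (code _ v) := by
  simp only [nr_succ, nr_zero, adj_iff, exists_eq_right, (code_inj (nd n k)).eq_iff, and_or_left,
    exists_or]
  refine or_congr_right (or_congr_right ⟨fun ⟨w, h⟩ => ⟨_, code_mem _ w, h⟩, fun ⟨w, a, h⟩ => ?_⟩)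
  obtain ⟨w, rfl⟩ := code_surj a
  exact ⟨w, h⟩

theorem dom_iff (p : GK) : DomSet p ↔
    ∃ b : ℕ → ℕ, (∀ i, b i ≤ p.1) ∧ ∀ u < p.1, ∃ i < p.2.2, Cl p.1 p.2.1 (b i) u := by
  obtain ⟨n, E, k⟩ := p
  refine ⟨fun ⟨S, c, h⟩ => ⟨fun i => (S.toList.map Fin.val).getD i n, fun i => ?_, fun u hu => ?_⟩,
    fun ⟨b, _, h⟩ => ⟨Finset.univ.filter fun v => v.val ∈ (Finset.range k).image b, ?_, fun v => ?_⟩⟩
  · dsimp only
    rw [List.getD_eq_getElem?_getD]
    cases e : (S.toList.map Fin.val)[i]? with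
    | none => rfl
    | some v =>
      obtain ⟨w, -, rfl⟩ := List.mem_map.1 (List.mem_of_getElem? e)
      exact w.2.le
  · obtain ⟨v, a, d⟩ : ∃ v ∈ S, Cl n E v.val u := by
      rcases h ⟨u, hu⟩ with a | ⟨v, a, d⟩
      exacts [⟨_, a, hu, .inl rfl⟩, ⟨v, a, v.2, .inr (graphOf_adj.1 d).2⟩]
    obtain ⟨i, hi, e⟩ := List.getElem_of_mem (List.mem_map_of_mem (f := Fin.val)
      (Finset.mem_toList.2 a))
    exact ⟨i, hi.trans_le (by simpa using c), by dsimp only; rwa [List.getD_eq_getElem _ _ hi, e]⟩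
  · exact (Finset.card_le_card_of_injOn Fin.val (fun v hv => (Finset.mem_filter.1 hv).2)
      Fin.val_injective.injOn).trans (Finset.card_image_le.trans (by simp))
  · obtain ⟨i, hi, a, d⟩ := h v v.2
    have m : (⟨b i, a⟩ : Fin n) ∈ Finset.univ.filter fun v : Fin n =>
      v.val ∈ (Finset.range k).image b := by simpa using ⟨i, hi, rfl⟩
    by_cases c : (⟨b i, a⟩ : Fin n) = v
    · exact .inl (c ▸ m)
    · exact .inr ⟨_, m, graphOf_adj.2 ⟨c, d.resolve_left fun e => c (Fin.ext e)⟩⟩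

theorem fw {n k E} {b : ℕ → ℕ} (h : ∀ u < n, ∃ i < k, Cl n E (b i) u) {x} (hx : x ∈ vs n k) :
    ∃ i < k, x = (2, i, b i) ∨ A n E x (2, i, b i) ∨
      ∃ w ∈ vs n k, A n E x w ∧ A n E w (2, i, b i) := by
  obtain ⟨τ, i, u⟩ := x
  rw [mem_vs] at hx
  by_cases c : τ ≤ 2
  · refine ⟨i, by grind, .inr ?_⟩
    by_cases d : τ = 0
    · exact .inl (by simp [A, R, d])
    · exact .inr ⟨(0, i, 0), mem_vs.2 (by grind), by simp [A, R]; omega, by simp [A, R]⟩
  · obtain ⟨j, a, d⟩ := h u (by grind)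
    refine ⟨j, a, .inr ?_⟩
    by_cases e : τ = 3
    · exact .inl (by simp [A, R, d, e])
    · exact .inr ⟨(3, 0, u), mem_vs.2 (by grind), by simp [A, R]; grind, by simp [A, R, d]⟩

theorem hard : PReduces DomSet kOf Valid (RDomSet 2) par := by
  refine preduces_of_pt red pt_red id comp_id ?_
  rintro ⟨n, E, k⟩
  have inj := code_inj (nd n k)
  refine ⟨⟨List.nodup_range, fun x hx => ?_, {v | (code _ v).1 = 3},
    {v | (code _ v).1 ≠ 3 ∧ (code _ v).1 ≠ 0}, ?_, ?_, fun u hu v hv e => adj_iff.2 ?_,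
    fun u hu v hv _ e => ?_⟩, (dom_iff _).trans ⟨fun ⟨b, hb, h⟩ => ?_, fun ⟨S, c, h⟩ => ?_⟩,
    by simp [par, red, kOf]⟩
  · exact (List.mem_range.1 hx).trans_le (le_len n k)
  · ext v
    have := lt_iff (n := n) (k := k) v
    change (code (vs n k) v).1 = 3 ∨ ((code (vs n k) v).1 ≠ 3 ∧ (code (vs n k) v).1 ≠ 0) ↔
      v.val ∉ List.range k
    rw [List.mem_range, this]
    omega
  · exact Set.disjoint_left.2 fun v a b => b.1 a
  · exact ⟨inj.ne e, .inl (.inr ⟨hu, .inl hv⟩)⟩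
  · have := (adj_iff.1 e).2
    have := hu.1
    have := hu.2
    have := hv.1
    have := hv.2
    unfold R at *
    omega
  · let S : Finset (Fin (vs n k).length) := Finset.univ.filter fun x =>
      code _ x ∈ (Finset.range k).image fun i => (2, i, b i)
    have c : S.card ≤ k := (Finset.card_le_card_of_injOn (code _)
      (fun x hx => (Finset.mem_filter.1 hx).2) inj.injOn).trans (Finset.card_image_le.trans (by simp))
    refine ⟨S, c, fun v => ?_⟩
    obtain ⟨i, hi, e⟩ := fw h (code_mem _ v)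
    obtain ⟨s, hs⟩ := code_surj (mem_vs.2 (.inr (.inl ⟨rfl, hi, hb i⟩)) : ((2, i, b i) : T) ∈ vs n k)
    exact ⟨s, Finset.mem_filter.2 ⟨Finset.mem_univ _, Finset.mem_image.2
      ⟨i, Finset.mem_range.2 hi, hs.symm⟩⟩, two_iff.2 (hs ▸ e)⟩
  have : ∀ i : Fin k, ∃ s ∈ S, (code _ s).1 ≤ 2 ∧ (code _ s).2.1 = i := fun i => by
    obtain ⟨v, hv⟩ := code_surj (mem_vs.2 (.inl ⟨le_rfl, i.2, rfl⟩) : ((1, i, 0) : T) ∈ vs n k)
    obtain ⟨s, a, d⟩ := h v
    have := two_iff.1 d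
    simp only [hv, A, R] at this
    exact ⟨s, a, by grind⟩
  choose f f1 f2 f3 using this
  have e : Finset.univ.image f = S := Finset.eq_of_subset_of_card_le (by
    simpa [Finset.image_subset_iff] using f1) (by
    rw [Finset.card_image_of_injective _ fun i j c => Fin.ext (by rw [← f3, c, f3])]
    simpa [red] using c)
  refine ⟨fun i => if hi : i < k then (code _ (f ⟨i, hi⟩)).2.2 else 0, fun i => ?_, fun u hu => ?_⟩
  · have := fun hi => mem_vs.1 (code_mem _ (f ⟨i, hi⟩))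
    grind
  obtain ⟨v, hv⟩ := code_surj (mem_vs.2 (.inr (.inr ⟨.inr rfl, rfl, hu⟩)) : ((4, 0, u) : T) ∈ vs n k)
  obtain ⟨s, a, d⟩ := h v
  obtain ⟨i, -, rfl⟩ := Finset.mem_image.1 (e ▸ a)
  have := two_iff.1 d
  have := f2 i
  simp only [hv, A, R] at *
  exact ⟨i, i.2, by grind⟩

end Pool.Agent.H36.RDom
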