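import Pool.Agent.H36.ParDefs

/-!
r-Dominating Set parameterized by the size of a given split modulator.
-/

namespace Pool.Agent.H36.RDom

open Pool.Agent.H38.NP

/-- An input `(n, edges, l, X)`: a graph on `{0, …, n - 1}`, a bound `l` and a list `X` of vertices. -/
abbrev Inst := ℕ × List (ℕ × ℕ) × ℕ × List ℕ

/-- `X` lists distinct vertices and the graph minus `X` is a split graph. -/
def Valid (a : Inst) : Prop :=
  a.2.2.2.Nodup ∧ (∀ x ∈ a.2.2.2, x < a.1) ∧ ∃ K I : Set (Fin a.1),
    K ∪ I = {v | v.val ∉ a.2.2.2} ∧ Disjoint K I ∧ (graphOf a.1 a.2.1).IsClique K ∧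
      (graphOf a.1 a.2.1).IsIndepSet I

/-- There is a set of at most `l` vertices within distance `r` of every vertex. -/
def RDomSet (r : ℕ) (a : Inst) : Prop :=
  ∃ S : Finset (Fin a.1), S.card ≤ a.2.2.1 ∧ ∀ v, ∃ s ∈ S, (graphOf a.1 a.2.1).edist v s ≤ r

/-- the parameter: the number of vertices of the modulator -/
def par (a : Inst) : ℕ := a.2.2.2.length

end Pool.Agent.H36.RDom
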