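import Pool.Agent.H36.Tab

namespace Pool.Agent.H36.Tab

open Pool.Agent.H38.NP PSpace

def sp (q a : ℕ) : ℕ :=
  if q = 0 then (if a = 2 then 1 else 4) else
  if q = 1 then (if a = 2 then 4 else if a = 3 then 2 else 1) else
  if q = 2 then 4 else if q = 3 then (if a = 2 then 4 else 3) else q

def rδ (Ds : List Dfa) (s : ℕ × ℕ) (a : ℕ) : ℕ × ℕ :=
  if s.1 = 0 then (0, sp s.2 a) else
  if a = 2 then (s.1, 0) else
  if a = 3 then (0, cond (dacc (Ds.getD (s.1 - 1) []) s.2) 4 3) else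
  (s.1, dstep (Ds.getD (s.1 - 1) []) s.2 (decide (a = 1)))

def tgt (k : ℕ) : List (ℕ × ℕ) := (0, 2) :: (List.range (k - 1)).map fun j => (0, 4 + j)

theorem mem_tgt {k : ℕ} {s : ℕ × ℕ} :
    s ∈ tgt k ↔ s.1 = 0 ∧ (s.2 = 2 ∨ (4 ≤ s.2 ∧ s.2 < k + 3)) := by
  obtain ⟨c, q⟩ := s
  simp only [tgt, List.mem_cons, List.mem_map, List.mem_range, Prod.mk.injEq]
  constructor
  · rintro (⟨rfl, rfl⟩ | ⟨j, hj, rfl, rfl⟩) <;> omega
  · rintro ⟨rfl, rfl | h⟩
    · simp
    · exact Or.inr ⟨q - 4, by omega, rfl, by omega⟩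

theorem rδ_closed {k : ℕ} (hk : 2 ≤ k) {Ds : List Dfa} (h : WF Ds) :
    ∀ s ∈ sts (k + 3) Ds, ∀ a < 4, rδ Ds s a ∈ sts (k + 3) Ds := by
  rintro ⟨c, q⟩ hs a -
  rcases mem_sts.1 hs with ⟨rfl, hq⟩ | ⟨i, hi, rfl, hq⟩
  · refine mem_sts.2 (Or.inl ⟨rfl, ?_⟩)
    unfold sp; split_ifs <;> omega
  · obtain ⟨h0, h1⟩ := wf_get h hi
    simp only [rδ, Nat.add_one_ne_zero, if_false, Nat.add_sub_cancel]
    split_ifs
    · exact mem_sts.2 (Or.inr ⟨i, hi, rfl, h0⟩)
    · refine mem_sts.2 (Or.inl ⟨rfl, ?_⟩)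
      cases dacc (Ds.getD i []) q <;> simp <;> omega
    · exact mem_sts.2 (Or.inr ⟨i, hi, rfl, h1 _ hq _⟩)

theorem run_sink (Ds : List Dfa) (w : List ℕ) {q : ℕ} (hq : 4 ≤ q) :
    w.foldl (rδ Ds) (0, q) = (0, q) := by
  induction w with
  | nil => rfl
  | cons a w ih =>
    have : rδ Ds (0, q) a = (0, q) := by
      simp only [rδ, sp, if_true]; rw [if_neg, if_neg, if_neg, if_neg] <;> omega
    rw [List.foldl_cons, this, ih]

theorem run_bits (Ds : List Dfa) (u : List Bool) :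
    (u.map Bool.toNat).foldl (rδ Ds) (0, 1) = (0, 1) ∧
    (u.map Bool.toNat).foldl (rδ Ds) (0, 3) = (0, 3) ∧
    ∀ i q, (u.map Bool.toNat).foldl (rδ Ds) (i + 1, q) =
      (i + 1, u.foldl (dstep (Ds.getD i [])) q) := by
  induction u with
  | nil => simp
  | cons b u ih =>
    refine ⟨?_, ?_, fun i q => ?_⟩
    · cases b <;> simpa [rδ, sp] using ih.1
    · cases b <;> simpa [rδ, sp] using ih.2.1
    · cases b <;> simpa [rδ] using ih.2.2 i _

theorem from_f (Ds : List Dfa) (w : List ℕ) (h : w.foldl (rδ Ds) (0, 2) = (0, 2)) : w = [] := by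
  cases w with
  | nil => rfl
  | cons a w =>
    rw [List.foldl_cons, show rδ Ds (0, 2) a = (0, 4) by simp [rδ, sp], run_sink _ _ le_rfl] at h
    simp at h

theorem from_s1 (Ds : List Dfa) (w : List ℕ) (hw : Word 4 w) (h : w.foldl (rδ Ds) (0, 1) = (0, 2)) :
    ∃ u : List Bool, w = u.map Bool.toNat ++ [3] := by
  induction w with
  | nil => simp at h
  | cons a w ih =>
    have ha := hw a (by simp)
    have hw' : Word 4 w := fun b hb => hw b (by simp [hb])
    rw [List.foldl_cons] at h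
    interval_cases a
    · obtain ⟨u, rfl⟩ := ih hw' (by simpa [rδ, sp] using h)
      exact ⟨false :: u, rfl⟩
    · obtain ⟨u, rfl⟩ := ih hw' (by simpa [rδ, sp] using h)
      exact ⟨true :: u, rfl⟩
    · rw [show rδ Ds (0, 1) 2 = (0, 4) by simp [rδ, sp], run_sink _ _ le_rfl] at h
      simp at h
    · rw [from_f Ds w (by simpa [rδ, sp] using h)]
      exact ⟨[], rfl⟩

theorem from_other (Ds : List Dfa) (w : List ℕ) (s : ℕ × ℕ) (hs : s.1 ≠ 0 ∨ 3 ≤ s.2) :
    (w.foldl (rδ Ds) s).1 ≠ 0 ∨ 3 ≤ (w.foldl (rδ Ds) s).2 := by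
  induction w generalizing s with
  | nil => exact hs
  | cons a w ih =>
    refine ih _ ?_
    unfold rδ sp
    split_ifs <;> simp_all
    all_goals first | omega | (right; cases dacc _ _ <;> simp) | (cases dacc _ _ <;> simp)

theorem rsub_iff {k : ℕ} (hk : 2 ≤ k) {Ds : List Dfa} (h : WF Ds) :
    Inter Ds ↔ ∃ w, Word 4 w ∧ (∀ s ∈ sts (k + 3) Ds, w.foldl (rδ Ds) s ∈ tgt k) ∧
      ∀ t ∈ tgt k, ∃ s ∈ sts (k + 3) Ds, w.foldl (rδ Ds) s = t := by
  rw [inter_iff']
  constructor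
  · rintro ⟨u, hu⟩
    obtain ⟨b1, b3, bq⟩ := run_bits Ds u
    refine ⟨2 :: (u.map Bool.toNat ++ [3]), ?_, ?_, ?_⟩
    · intro a ha
      simp only [List.mem_cons, List.mem_append, List.mem_map, List.not_mem_nil, or_false] at ha
      rcases ha with rfl | ⟨b, -, rfl⟩ | rfl
      · omega
      · cases b <;> simp
      · omega
    · rintro ⟨c, q⟩ hs
      rcases mem_sts.1 hs with ⟨rfl, hq⟩ | ⟨i, hi, rfl, hq⟩
      · by_cases h4 : 4 ≤ q
        · rw [run_sink _ _ h4, mem_tgt]; omega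
        · rw [List.foldl_cons]
          have : q < 4 := by omega
          interval_cases q
          · rw [show rδ Ds (0, 0) 2 = (0, 1) by simp [rδ, sp], List.foldl_append, b1]
            simp [rδ, sp, tgt]
          all_goals
            rw [show rδ Ds (0, _) 2 = (0, 4) by simp [rδ, sp], run_sink _ _ le_rfl, mem_tgt]
            omega
      · rw [List.foldl_cons, show rδ Ds (i + 1, q) 2 = (i + 1, 0) by simp [rδ], List.foldl_append,
          bq]
        simp only [List.foldl_cons, List.foldl_nil, rδ, Nat.add_sub_cancel, hu i hi, mem_tgt]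
        simp; omega
    · rintro ⟨c, q⟩ ht
      obtain ⟨h0, h1⟩ := mem_tgt.1 ht
      simp only at h0 h1
      subst h0
      rcases h1 with rfl | h1
      · refine ⟨(0, 0), mem_sts.2 (Or.inl ⟨rfl, by omega⟩), ?_⟩
        rw [List.foldl_cons, show rδ Ds (0, 0) 2 = (0, 1) by simp [rδ, sp], List.foldl_append, b1]
        simp [rδ, sp]
      · exact ⟨(0, q), mem_sts.2 (Or.inl ⟨rfl, h1.2⟩), run_sink _ _ h1.1⟩
  · rintro ⟨w, hw, h1, h2⟩
    obtain ⟨⟨c, q⟩, -, hs⟩ := h2 (0, 2) (by simp [tgt])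
    have ho := from_other Ds w (c, q)
    rw [hs] at ho
    obtain ⟨rfl, hq⟩ : c = 0 ∧ q < 3 := by
      by_contra hh
      have := ho (by simp only; omega)
      simp at this
    have m : ∀ j < 4, (0, j) ∈ sts (k + 3) Ds := fun j hj => mem_sts.2 (Or.inl ⟨rfl, by omega⟩)
    interval_cases q
    · cases w with
      | nil => simp at hs
      | cons a w =>
        rw [List.foldl_cons] at hs
        by_cases ha : a = 2
        · subst ha
          obtain ⟨u, rfl⟩ := from_s1 Ds w (fun b hb => hw b (by simp [hb]))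
            (by simpa [rδ, sp] using hs)
          refine ⟨u, fun i hi => ?_⟩
          have := h1 (i + 1, 0) (mem_sts.2 (Or.inr ⟨i, hi, rfl, (wf_get h hi).1⟩))
          rw [List.foldl_cons, show rδ Ds (i + 1, 0) 2 = (i + 1, 0) by simp [rδ], List.foldl_append,
            (run_bits Ds u).2.2, mem_tgt] at this
          revert this
          simp only [List.foldl_cons, List.foldl_nil, rδ, Nat.add_sub_cancel]
          cases dacc _ _ <;> simp
        · rw [show rδ Ds (0, 0) a = (0, 4) by simp [rδ, sp, ha], run_sink _ _ le_rfl] at hs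
          simp at hs
    · obtain ⟨u, rfl⟩ := from_s1 Ds w hw hs
      have := h1 _ (m 3 (by omega))
      rw [List.foldl_append, (run_bits Ds u).2.1, mem_tgt] at this
      simp [rδ, sp] at this
    · obtain rfl := from_f Ds w hs
      have := h1 _ (m 0 (by omega))
      simp [mem_tgt] at this

theorem rsub_psh (k : ℕ) (hk : 2 ≤ k) :
    PSH (fun p : ℕ × List (List ℕ) × List ℕ =>
        Total p.1 4 p.1 p.2.1 ∧ p.2.2.toFinset ⊆ Finset.range p.1 ∧ p.2.2.toFinset.card = k)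
      (fun p => ∃ w, Word 4 w ∧ img p.1 p.2.1 w = p.2.2.toFinset) := by
  refine inter_psh.reduce (fun Ds => ((sts (k + 3) Ds).length,
    mkT (sts (k + 3) Ds) 4 fun s a => (sts (k + 3) Ds).idxOf (rδ Ds s a),
    (tgt k).map (sts (k + 3) Ds).idxOf)) ?_ fun Ds h => ?_
  · unfold mkT rδ sp
    fun_prop
  have hc := rδ_closed hk h
  have hP : ∀ t ∈ tgt k, t ∈ sts (k + 3) Ds := by
    rintro ⟨c, q⟩ ht
    obtain ⟨h0, h1⟩ := mem_tgt.1 ht
    exact mem_sts.2 (Or.inl ⟨h0, by simp only at h1; omega⟩)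
  refine ⟨⟨mkT_total _ _ _ _ fun s hs a ha => List.idxOf_lt_length_of_mem (hc s hs a ha), ?_, ?_⟩,
    ?_⟩
  · intro x hx
    obtain ⟨t, ht, rfl⟩ := List.mem_map.1 (List.mem_toFinset.1 hx)
    exact Finset.mem_range.2 (List.idxOf_lt_length_of_mem (hP t ht))
  · rw [List.toFinset_card_of_nodup]
    · simp [tgt]; omega
    refine List.Nodup.map_on (fun a ha b _ e => (List.idxOf_inj (hP a ha)).1 e) ?_
    refine List.nodup_cons.2 ⟨?_, List.nodup_range.map fun a b h => by simpa using h⟩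
    simp only [List.mem_map, Prod.mk.injEq]
    rintro ⟨j, -, -, e⟩
    omega
  · rw [rsub_iff hk h]
    exact exists_congr fun w => and_congr_right fun hw =>
      (img_eq_iff (nodup_sts _ _) hc hw hP).symm

end Pool.Agent.H36.Tab
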