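import Pool.Agent.H36.QAr

/-!
Interval dynamic programme: keep as many points as possible so that every job fits in a gap.
-/

namespace Pool.Agent.H36.Rail

open Pool.Agent.H38.NP Pool.Agent.H38.ER QAr Finset

/-- earliest position, latest position, length -/
abbrev Jb := ℚ × ℚ × ℚ
abbrev Core := List ℚ × List Jb
abbrev Gaps := List (ℕ × ℕ)

def tt (p : Core) (u : ℕ) : ℚ := p.1.getD u 0
abbrev Lo (p : Core) (j : Jb) (u : ℕ) : Prop := tt p u < j.2.1
abbrev Ro (p : Core) (j : Jb) (v : ℕ) : Prop := j.1 + j.2.2 < tt p v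
abbrev Ln (p : Core) (j : Jb) (u v : ℕ) : Prop := j.2.2 < tt p v - tt p u
abbrev Fit (p : Core) (j : Jb) (g : ℕ × ℕ) : Prop := Lo p j g.1 ∧ Ro p j g.2 ∧ Ln p j g.1 g.2

def Chain : ℕ → Gaps → ℕ → Prop
  | a, [], b => a = b
  | a, g :: G, b => g.1 = a ∧ g.1 < g.2 ∧ Chain g.2 G b

theorem chain_append {a G H b} : Chain a (G ++ H) b ↔ ∃ c, Chain a G c ∧ Chain c H b := by
  induction G generalizing a with
  | nil => simp [Chain]
  | cons g G ih => simp only [List.cons_append, Chain, ih]; tauto

theorem Chain.bd {a G b} (h : Chain a G b) :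
    a + G.length ≤ b ∧ ∀ g ∈ G, a ≤ g.1 ∧ g.1 < g.2 ∧ g.2 ≤ b := by
  induction G generalizing a with
  | nil => simp [show a = b from h]
  | cons g G ih =>
    obtain ⟨h1, h2, h3⟩ := h
    obtain ⟨k1, k2⟩ := ih h3
    refine ⟨by simp; omega, fun x hx => ?_⟩
    rcases List.mem_cons.1 hx with rfl | hx
    · omega
    · have := k2 x hx; omega

def Feas (p : Core) (a b : ℕ) (G : Gaps) : Prop :=
  Chain a G b ∧ ∀ j ∈ p.2, ¬Lo p j b → ¬Ro p j a → ∃ g ∈ G, Fit p j g

theorem best_spec {α β : Type} [LinearOrder β] (f : α → β) {L : List α} {x0} (h : x0 ∈ L) :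
    ∃ x, (L.find? fun x => L.all fun y => decide (f y ≤ f x)) = some x ∧ x ∈ L ∧ ∀ y ∈ L, f y ≤ f x := by
  obtain ⟨x, h1, h2⟩ := Set.exists_max_image {x | x ∈ L} f L.finite_toSet ⟨x0, h⟩
  obtain ⟨z, hz⟩ := Option.isSome_iff_exists.1 ((List.find?_isSome
    (p := fun x => L.all fun y => decide (f y ≤ f x))).2 ⟨x, h1, by simpa using h2⟩)
  exact ⟨z, hz, List.mem_of_find?_eq_some hz, by simpa using List.find?_some hz⟩

abbrev Tb := List (List (Option Gaps))
def gt (T : Tb) (a b : ℕ) : Option Gaps := (T.getD a []).getD b none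

def ok (p : Core) (a b u v : ℕ) : Bool := decide (u < v) && p.2.all fun j =>
  decide (Lo p j b) || decide (Ro p j a) || !decide (Lo p j u) || !decide (Ro p j v) || decide (Ln p j u v)

def cands (p : Core) (T : Tb) (a b : ℕ) : List Gaps :=
  (if a = b ∧ (p.2.all fun j => decide (Lo p j b) || decide (Ro p j a)) = true then [[]] else []) ++
  ((List.range p.1.length).product (List.range p.1.length)).filterMap fun g =>
    if ok p a b g.1 g.2 = true then
      (gt T a g.1).bind fun G => (gt T g.2 b).map fun H => G ++ g :: H else none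

def bst (L : List Gaps) : Option Gaps := L.find? fun x => L.all fun y => decide (y.length ≤ x.length)

def step (p : Core) (T : Tb) : Tb :=
  (List.range p.1.length).map fun a => (List.range p.1.length).map fun b => bst (cands p T a b)

theorem gt_step (p T a b) : gt (step p T) a b =
    if a < p.1.length ∧ b < p.1.length then bst (cands p T a b) else none := by
  by_cases ha : a < p.1.length <;> by_cases hb : b < p.1.length <;>
    simp [gt, step, List.getD_eq_getElem?_getD, ha, hb]

theorem mem_cands {p T a b G} : G ∈ cands p T a b ↔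
    (G = [] ∧ a = b ∧ ∀ j ∈ p.2, Lo p j b ∨ Ro p j a) ∨ ∃ u v G1 G2, u < p.1.length ∧ v < p.1.length ∧
      ok p a b u v = true ∧ gt T a u = some G1 ∧ gt T v b = some G2 ∧ G = G1 ++ (u, v) :: G2 := by
  simp only [cands, List.mem_append, List.mem_ite_nil_right, List.mem_singleton, List.mem_filterMap,
    Option.ite_none_right_eq_some, Option.bind_eq_some_iff, Option.map_eq_some_iff, Prod.exists,
    List.pair_mem_product, List.mem_range, List.all_eq_true, Bool.or_eq_true, decide_eq_true_eq]
  grind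

theorem sound (p k a b G) (h : gt ((step p)^[k] []) a b = some G) : Feas p a b G ∧ b < p.1.length := by
  induction k generalizing a b G with
  | zero => simp [gt] at h
  | succ k ih =>
    rw [Function.iterate_succ_apply', gt_step, Option.ite_none_right_eq_some] at h
    refine ⟨?_, h.1.2⟩
    rcases mem_cands.1 (List.mem_of_find?_eq_some h.2) with ⟨rfl, rfl, h⟩ | ⟨u, v, G1, G2, -, -, h0, h1, h2, rfl⟩
    · exact ⟨rfl, fun j hj a b => ((h j hj).elim a b).elim⟩
    obtain ⟨⟨a1, a2⟩, -⟩ := ih _ _ _ h1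
    obtain ⟨⟨b1, b2⟩, -⟩ := ih _ _ _ h2
    simp only [ok, Bool.and_eq_true, decide_eq_true_eq, List.all_eq_true, Bool.or_eq_true,
      Bool.not_eq_true', decide_eq_false_iff_not] at h0
    refine ⟨chain_append.2 ⟨u, a1, rfl, h0.1, b1⟩, fun j hj x y => ?_⟩
    by_cases c : Lo p j u
    · by_cases d : Ro p j v
      · exact ⟨(u, v), by simp, c, d, by have := h0.2 j hj; tauto⟩
      · obtain ⟨g, g1, g2⟩ := b2 j hj x d
        exact ⟨g, by simp [g1], g2⟩
    · obtain ⟨g, g1, g2⟩ := a2 j hj c y
      exact ⟨g, by simp [g1], g2⟩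

theorem complete (p : Core) (mono : ∀ u v, u ≤ v → v < p.1.length → tt p u ≤ tt p v) (k a b G)
    (h : Feas p a b G) (hb : b < p.1.length) (hk : G.length < k) :
    ∃ H, gt ((step p)^[k] []) a b = some H ∧ G.length ≤ H.length := by
  induction k generalizing a b G with
  | zero => omega
  | succ k ih =>
    have := h.1.bd.1
    rw [Function.iterate_succ_apply', gt_step, if_pos ⟨by omega, hb⟩]
    suffices ∃ H ∈ cands p ((step p)^[k] []) a b, G.length ≤ H.length by
      obtain ⟨H, h1, h2⟩ := this
      obtain ⟨x, x1, -, x2⟩ := best_spec List.length h1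
      exact ⟨x, x1, h2.trans (x2 H h1)⟩
    cases G with
    | nil => exact ⟨[], mem_cands.2 (.inl ⟨rfl, h.1, fun j hj => by have := h.2 j hj; grind⟩), le_rfl⟩
    | cons g0 G0 =>
    obtain ⟨⟨u, v⟩, -, h1, h2⟩ := best_spec (fun g : ℕ × ℕ => tt p g.2 - tt p g.1)
      (List.mem_cons_self (a := g0) (l := G0))
    obtain ⟨G1, G2, e⟩ := List.append_of_mem h1
    rw [e] at h h2 hk this ⊢
    obtain ⟨_, c1, rfl, c2, c3⟩ := chain_append.1 h.1
    dsimp only at c1 c2 c3
    have d1 := c1.bd
    have d3 := c3.bd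
    simp only [List.length_append, List.length_cons] at hk this ⊢
    obtain ⟨H1, e1, l1⟩ := ih a u G1 ⟨c1, fun j hj x y => by
      obtain ⟨g, g1, g2⟩ := h.2 j hj (fun z => x ((mono u b (by omega) hb).trans_lt z)) y
      refine ⟨g, (List.mem_append.1 g1).resolve_right fun z => x ((mono u g.1 ?_ ?_).trans_lt g2.1), g2⟩ <;>
        rcases List.mem_cons.1 z with rfl | z <;> first | omega | (have := d3.2 _ z; omega)⟩
      (by omega) (by omega)
    obtain ⟨H2, e2, l2⟩ := ih v b G2 ⟨c3, fun j hj x y => by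
      obtain ⟨g, g1, g2⟩ := h.2 j hj x fun z => y (z.trans_le (mono a v (by omega) (by omega)))
      refine ⟨g, ?_, g2⟩
      by_contra z
      refine y (g2.2.1.trans_le (mono g.2 v ?_ (by omega)))
      rcases List.mem_append.1 g1 with w | w
      · have := d1.2 _ w; omega
      · rw [(List.mem_cons.1 w).resolve_right z]⟩ hb (by omega)
    refine ⟨_, mem_cands.2 (.inr ⟨u, v, H1, H2, by omega, by omega, ?_, e1, e2, rfl⟩), by simp; omega⟩
    simp only [ok, Bool.and_eq_true, decide_eq_true_eq, List.all_eq_true, Bool.or_eq_true,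
      Bool.not_eq_true', decide_eq_false_iff_not]
    refine ⟨c2, fun j hj => ?_⟩
    by_cases x : Lo p j b
    · simp [x]
    by_cases y : Ro p j a
    · simp [y]
    obtain ⟨g, g1, g2⟩ := h.2 j hj x y
    exact .inr (g2.2.2.trans_le (h2 g g1))

@[fun_prop] theorem pt_tt {α : Type} [Enc α] {p : α → Core} {u : α → ℕ} (hp : PT p) (hu : PT u) :
    PT fun a => tt (p a) (u a) := by unfold tt; fun_prop

theorem pt_step : PT fun z : Core × Tb => step z.1 z.2 := by
  have h : PT fun z : Core × Tb × ℕ × ℕ => cands z.1 z.2.1 z.2.2.1 z.2.2.2 := by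
    unfold cands ok gt; fun_prop
  have k : PT bst := by unfold bst; fun_prop
  unfold step
  exact PT.map (PT.map (k.comp (h.comp (g := fun z : ((Core × Tb) × ℕ) × ℕ =>
    (z.1.1.1, z.1.1.2, z.1.2, z.2)) (by fun_prop))) (by fun_prop)) (by fun_prop)

def opt (p : Core) : Gaps := (gt ((step p)^[p.1.length] []) 0 (p.1.length - 1)).getD []

theorem pt_opt : PT opt := by
  have h : PT fun p : Core => p.1.length := by fun_prop
  have := PT.iterate pt_step h (PT.const []) (B := fun p => p.1.length * (2 * (p.1.length *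
    (2 * (2 * (p.1.length * (2 * (3 * p.1.length + 1) + 1)) + 1) + 1)) + 1))
    (PT.nat_pb (by fun_prop)) fun p i _ => by
      cases i with
      | zero => simp
      | succ i =>
        have s := sound p (i + 1)
        rw [Function.iterate_succ_apply'] at s ⊢
        refine (sz_le_of_forall fun r hr => ?_).trans (by rw [step, List.length_map, List.length_range])
        obtain ⟨a, ha, rfl⟩ := List.mem_map.1 hr
        refine (sz_le_of_forall fun o ho => ?_).trans (by rw [List.length_map, List.length_range])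
        obtain ⟨b, hb, rfl⟩ := List.mem_map.1 ho
        cases e : bst (cands p ((step p)^[i] []) a b) with
        | none => exact Nat.zero_le _
        | some G =>
          obtain ⟨⟨c, -⟩, d⟩ := s a b G (by
            rw [gt_step, if_pos ⟨List.mem_range.1 ha, List.mem_range.1 hb⟩, e])
          have := c.bd
          refine (sz_cons G []).le.trans (Nat.add_le_add_right (Nat.mul_le_mul_left _
            ((sz_le_of_forall fun g hg => ?_).trans (Nat.mul_le_mul_right _ (by omega)))) _)
          have := this.2 g hg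
          rw [sz_prod, sz_nat, sz_nat]; omega
  unfold opt gt
  exact PT.getD_opt (PT.getD (PT.getD this (PT.const _) (PT.const _)) (by fun_prop) (PT.const _))
    (PT.const _)

theorem opt_spec (p : Core) (mono : ∀ u v, u ≤ v → v < p.1.length → tt p u ≤ tt p v) {G}
    (hp : 0 < p.1.length) (h : Feas p 0 (p.1.length - 1) G) :
    Feas p 0 (p.1.length - 1) (opt p) ∧ G.length ≤ (opt p).length := by
  obtain ⟨H, e, l⟩ := complete p mono p.1.length _ _ G h (by omega) (by have := h.1.bd.1; omega)
  rw [opt, e]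
  exact ⟨(sound p _ _ _ _ e).1, l⟩

theorem Chain.sep {a G b} (h : Chain a G b) : ∀ g ∈ G, ∀ g' ∈ G, g.2 ≤ g'.1 ∨ g'.2 ≤ g.2 := by
  induction G generalizing a with
  | nil => simp
  | cons g G ih =>
    intro x hx y hy
    have := h.2.2.bd.2
    rcases List.mem_cons.1 hx with rfl | hx' <;> rcases List.mem_cons.1 hy with rfl | hy'
    exacts [.inr le_rfl, .inl (this y hy').1, .inr (by have := this x hx'; omega), ih h.2.2 x hx' y hy']

theorem Chain.count {P : ℕ → Prop} [DecidablePred P] {a G b} (h : Chain a G b) (hP : ∀ g ∈ G, P g.2) :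
    G.length ≤ #((Ioc a b).filter P) := by
  induction G generalizing a with
  | nil => simp
  | cons g G ih =>
    have := h.2.2.bd.1
    refine (Nat.succ_le_succ (ih h.2.2 fun x hx => hP x (by simp [hx]))).trans
      (card_lt_card ⟨filter_subset_filter _ (Ioc_subset_Ioc_left (h.1 ▸ h.2.1.le)), fun k => ?_⟩)
    have := k (mem_filter.2 ⟨mem_Ioc.2 ⟨h.1 ▸ h.2.1, by omega⟩, hP g (by simp)⟩)
    simp at this

theorem mk_chain (P : ℕ → Prop) [DecidablePred P] {a b} (h : a ≤ b) (hb : P b) :
    ∃ G, Chain a G b ∧ G.length = #((Ioc a b).filter P) ∧ ∀ g ∈ G, P g.2 := by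
  induction h using Nat.decreasingInduction with
  | self => exact ⟨[], rfl, by simp, by simp⟩
  | of_succ a h ih =>
    obtain ⟨G, c, l, k⟩ := ih
    rw [← insert_Ioc_succ_left_eq_Ioc h, filter_insert]
    split_ifs with x
    · exact ⟨(a, a + 1) :: G, ⟨rfl, by simp, c⟩, by rw [card_insert_of_notMem (by simp)]; simp [l],
        List.forall_mem_cons.2 ⟨x, k⟩⟩
    · cases G with
      | nil => exact absurd ((show Order.succ a = b from c) ▸ hb) x
      | cons g G => exact ⟨(a, g.2) :: G, ⟨rfl, by have := c.1; have := c.2.1; dsimp only; omega, c.2.2⟩,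
          by simpa using l, by simpa using k⟩

theorem Chain.find {t : ℕ → ℝ} {x y : ℝ} (hxy : x ≤ y) {a G b} (h : Chain a G b) (ha : t a < x)
    (hb : y < t b) (k : ∀ g ∈ G, t g.2 < x ∨ y < t g.2) : ∃ g ∈ G, t g.1 < x ∧ y < t g.2 := by
  induction G generalizing a with
  | nil => rw [show a = b from h] at ha; linarith
  | cons g G ih =>
    rcases k g (by simp) with c | c
    · obtain ⟨g', g1, g2⟩ := ih h.2.2 c fun x hx => k x (by simp [hx])
      exact ⟨g', by simp [g1], g2⟩
    · exact ⟨g, by simp, h.1 ▸ ha, c⟩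

end Pool.Agent.H36.Rail
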