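import Pool.Agent.H38.ER.Defs

/-!
Unidirectional maintenance scheduling with parallel train paths.
-/

namespace Pool.Agent.H36.Rail

/-- a job `(r, d, p, ls, le)` -/
abbrev Job := ℚ × ℚ × ℚ × ℚ × ℚ

/-- an instance `(L, δ, start times of the paths, jobs)` -/
abbrev Inst := ℚ × ℚ × List ℚ × List Job

def Valid (I : Inst) : Prop :=
  0 < I.1 ∧ 0 < I.2.1 ∧ I.2.2.1.Pairwise (· < ·) ∧ (∀ t ∈ I.2.2.1, 0 ≤ t) ∧
    ∀ j ∈ I.2.2.2, 0 ≤ j.1 ∧ 0 ≤ j.2.2.1 ∧ j.2.2.1 ≤ j.2.1 - j.1 ∧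
      0 ≤ j.2.2.2.1 ∧ j.2.2.2.1 ≤ j.2.2.2.2 ∧ j.2.2.2.2 ≤ I.1

/-- the path from `(t, 0)` to `(t + δ, L)` -/
def path (I : Inst) (t : ℚ) : Set (ℝ × ℝ) := segment ℝ (t, 0) (t + I.2.1, I.1)

/-- the box `[s, s + p] × [ls, le]` -/
def box (j : Job) (s : ℝ) : Set (ℝ × ℝ) :=
  Set.Icc s (s + j.2.2.1) ×ˢ Set.Icc (j.2.2.2.1 : ℝ) j.2.2.2.2

/-- every job starts in `[r, d - p]` -/
def Sched (I : Inst) (s : Fin I.2.2.2.length → ℝ) : Prop :=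
  ∀ k, (I.2.2.2[k].1 : ℝ) ≤ s k ∧ s k ≤ I.2.2.2[k].2.1 - I.2.2.2[k].2.2.1

/-- the number of paths that meet the box of some job -/
noncomputable def cancelled (I : Inst) (s : Fin I.2.2.2.length → ℝ) : ℕ :=
  {i : Fin I.2.2.1.length | ∃ k, (path I I.2.2.1[i] ∩ box I.2.2.2[k] (s k)).Nonempty}.ncard

end Pool.Agent.H36.Rail
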