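import Pool.Agent.H36.Rail1
import Pool.Agent.H36.RailDefs

/-!
From the scheduling problem to the gap problem.
-/

namespace Pool.Agent.H36.Rail

open Pool.Agent.H38.NP Pool.Agent.H38.ER QAr Finset

def sh (I : Inst) (x : ℚ) : ℚ := I.2.1 * (x / I.1)
def jb (I : Inst) (j : Job) : Jb :=
  (j.1 - sh I j.2.2.2.2, j.2.1 - j.2.2.1 - sh I j.2.2.2.2, j.2.2.1 + sh I j.2.2.2.2 - sh I j.2.2.2.1)
def mx (c : List ℚ) : ℚ := (c.find? fun x => c.all fun y => decide (y ≤ x)).getD 0
def hi (I : Inst) : ℚ := mx (I.2.2.1 ++ I.2.2.2.map fun j => j.2.1) + 1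
def core (I : Inst) : Core := ((-1 - I.2.1) :: (I.2.2.1 ++ [max 0 (hi I)]), I.2.2.2.map (jb I))
def mid (p : Core) (j : Jb) (g : ℕ × ℕ) : ℚ := (max j.1 (tt p g.1) + min j.2.1 (tt p g.2 - j.2.2)) / 2
def pos (p : Core) (G : Gaps) (j : Jb) : ℚ := mid p j ((G.find? fun g => decide (Fit p j g)).getD (0, 0))
def out (I : Inst) : List ℚ :=
  I.2.2.2.map fun j => pos (core I) (opt (core I)) (jb I j) + sh I j.2.2.2.2

theorem pt_jb : PT fun z : Inst × Job => jb z.1 z.2 := by unfold jb sh; fun_prop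
theorem pt_mx : PT mx := by unfold mx; fun_prop
theorem pt_core : PT core := by
  have : PT hi := pt_qadd (pt_mx.comp (by fun_prop)) (PT.const 1)
  unfold core
  exact PT.mk (by fun_prop) (PT.map pt_jb (by fun_prop))
theorem pt_mid : PT fun z : Core × Jb × ℕ × ℕ => mid z.1 z.2.1 z.2.2 := by unfold mid; fun_prop
theorem pt_fit : PT fun z : (Core × Gaps × Jb) × ℕ × ℕ => decide (Fit z.1.1 z.1.2.2 z.2) := by
  refine PT.decide_and (pt_qlt ?_ ?_) (PT.decide_and (pt_qlt ?_ ?_) (pt_qlt ?_ ?_)) <;> fun_prop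
theorem pt_pos : PT fun z : Core × Gaps × Jb => pos z.1 z.2.1 z.2.2 :=
  (pt_mid.comp (PT.id'.fst.mk (PT.id'.snd.snd.mk (PT.getD_opt (PT.find?
    (f := fun (z : Core × Gaps × Jb) g => decide (Fit z.1 z.2.2 g)) pt_fit
    PT.id'.snd.fst) (PT.const (0, 0)))))).of_eq fun _ => rfl

theorem pt_out : PT out := by
  have a : PT fun z : Inst × Job => core z.1 := pt_core.comp PT.id'.fst
  have b : PT fun z : Inst × Job => pos (core z.1) (opt (core z.1)) (jb z.1 z.2) :=
    (pt_pos.comp (a.mk ((pt_opt.comp a).mk pt_jb))).of_eq fun _ => rfl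
  have c : PT fun z : Inst × Job => sh z.1 z.2.2.2.2.2 := by unfold sh; fun_prop
  exact PT.map (pt_qadd b c) (by fun_prop)

theorem le_mx {c : List ℚ} {x} (h : x ∈ c) : x ≤ mx c := by
  obtain ⟨z, e, -, k⟩ := best_spec id h
  erw [mx, e]
  exact k x h

theorem pos_spec {p G j} (h : ∃ g ∈ G, Fit p j g) (hj : j.1 ≤ j.2.1) : j.1 ≤ pos p G j ∧
    pos p G j ≤ j.2.1 ∧ ∃ g ∈ G, tt p g.1 < pos p G j ∧ pos p G j + j.2.2 < tt p g.2 := by
  obtain ⟨g, e⟩ := Option.isSome_iff_exists.1 ((List.find?_isSome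
    (p := fun g => decide (Fit p j g))).2 (by simpa using h))
  obtain ⟨a, b, c⟩ := of_decide_eq_true (List.find?_some (p := fun g => decide (Fit p j g)) e)
  rw [pos, e, Option.getD_some, mid]
  refine ⟨?_, ?_, g, List.mem_of_find?_eq_some e, ?_, ?_⟩ <;> grind

variable {I : Inst}

theorem len : (core I).1.length = I.2.2.1.length + 2 := by simp [core]
theorem tt0 : tt (core I) 0 = -1 - I.2.1 := rfl
theorem ttM : tt (core I) (I.2.2.1.length + 1) = max 0 (hi I) := by simp [tt, core]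
theorem tti (i : Fin I.2.2.1.length) : tt (core I) (i + 1) = I.2.2.1[i] := by
  simp [tt, core, List.getElem?_append_left]

theorem mono (h : Valid I) (u v) (huv : u ≤ v) (hv : v < (core I).1.length) :
    tt (core I) u ≤ tt (core I) v := by
  have : (core I).1.Pairwise (· ≤ ·) := by
    have := h.2.1
    refine List.pairwise_cons.2 ⟨fun x hx => ?_, List.pairwise_append.2 ⟨h.2.2.1.imp le_of_lt, by simp,
      fun x hx y hy => ?_⟩⟩
    · rcases List.mem_append.1 hx with hx | hx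
      · have := h.2.2.2.1 x hx; linarith
      · rw [List.mem_singleton.1 hx]; exact le_max_of_le_left (by linarith)
    · have := le_mx (List.mem_append_left (I.2.2.2.map fun j => j.2.1) hx)
      rw [List.mem_singleton.1 hy, hi]; exact le_max_of_le_right (by linarith)
  rw [tt, tt, List.getD_eq_getElem _ _ hv, List.getD_eq_getElem _ _ (huv.trans_lt hv)]
  rcases huv.eq_or_lt with rfl | huv
  exacts [le_rfl, List.pairwise_iff_getElem.1 this _ _ _ _ huv]

theorem jb_spec (h : Valid I) {j} (hj : j ∈ I.2.2.2) : tt (core I) 0 < (jb I j).1 ∧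
    (jb I j).1 ≤ (jb I j).2.1 ∧ 0 ≤ (jb I j).2.2 ∧
      (jb I j).2.1 + (jb I j).2.2 < tt (core I) (I.2.2.1.length + 1) := by
  obtain ⟨a, b, c, d, e, f⟩ := h.2.2.2.2 j hj
  have L := h.1
  have D := h.2.1
  have h1 : 0 ≤ sh I j.2.2.2.1 := by unfold sh; positivity
  have h2 : sh I j.2.2.2.1 ≤ sh I j.2.2.2.2 := by unfold sh; gcongr
  have h3 : sh I j.2.2.2.2 ≤ I.2.1 := mul_le_of_le_one_right D.le ((div_le_one L).2 f)
  have := le_mx (List.mem_append_right I.2.2.1 (List.mem_map_of_mem (f := fun j => j.2.1) hj))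
  have := le_max_right 0 (hi I)
  rw [tt0, ttM]
  simp only [jb, hi] at *
  refine ⟨?_, ?_, ?_, ?_⟩ <;> linarith

theorem meet (h : Valid I) {j} (hj : j ∈ I.2.2.2) (t : ℚ) (s : ℝ) : (path I t ∩ box j s).Nonempty ↔
    s - sh I j.2.2.2.2 ≤ t ∧ t ≤ s - sh I j.2.2.2.2 + (jb I j).2.2 := by
  obtain ⟨-, b, -, d, e, f⟩ := h.2.2.2.2 j hj
  have L : (0 : ℝ) < I.1 := by exact_mod_cast h.1
  have D : (0 : ℝ) < I.2.1 := by exact_mod_cast h.2.1
  rify at b d e f
  simp only [path, box, segment_eq_image', Set.image_inter_nonempty_iff, Set.Nonempty, jb, sh]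
  push_cast
  simp only [Set.mem_inter_iff, Set.mem_image, Set.mem_prod, Set.mem_Icc]
  constructor
  · rintro ⟨_, ⟨θ, -, rfl⟩, ⟨a1, a2⟩, a3, a4⟩
    simp at a1 a2 a3 a4
    rw [← div_le_iff₀ L] at a3
    rw [← le_div_iff₀ L] at a4
    constructor <;> nlinarith
  · rintro ⟨a1, a2⟩
    have c : (s - t) / I.2.1 ≤ j.2.2.2.2 / I.1 := by rw [div_le_iff₀ D]; linarith
    have c' : (j.2.2.2.1 : ℝ) / I.1 ≤ j.2.2.2.2 / I.1 := by gcongr
    have c1 := le_max_left (j.2.2.2.1 / I.1 : ℝ) ((s - t) / I.2.1)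
    have c2 := le_max_right (j.2.2.2.1 / I.1 : ℝ) ((s - t) / I.2.1)
    have c3 := max_le c' c
    refine ⟨_, ⟨max (j.2.2.2.1 / I.1) ((s - t) / I.2.1), ⟨le_trans (by positivity) c1,
      c3.trans ((div_le_one L).2 f)⟩, rfl⟩, ?_⟩
    rw [div_le_iff₀ L] at c1
    rw [div_le_iff₀ D] at c2
    rw [le_div_iff₀ L] at c3
    simp only [Prod.mk_sub_mk, Prod.smul_mk, Prod.mk_add_mk, smul_eq_mul, add_sub_cancel_left, sub_zero,
      zero_add]
    refine ⟨⟨by linarith, ?_⟩, c1, c3⟩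
    rcases max_choice (j.2.2.2.1 / I.1 : ℝ) ((s - t) / I.2.1) with e | e <;> rw [e]
    · linarith
    · rw [div_mul_cancel₀ _ D.ne']; linarith

def Kept (I : Inst) (s : Fin I.2.2.2.length → ℝ) (i : ℕ) : Prop :=
  ∀ k, tt (core I) i < s k - sh I I.2.2.2[k].2.2.2.2 ∨
    s k - sh I I.2.2.2[k].2.2.2.2 + (jb I I.2.2.2[k]).2.2 < tt (core I) i

theorem sched_iff {s} : Sched I s ↔ ∀ k, (jb I I.2.2.2[k]).1 ≤ s k - sh I I.2.2.2[k].2.2.2.2 ∧
    s k - sh I I.2.2.2[k].2.2.2.2 ≤ (jb I I.2.2.2[k]).2.1 := by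
  simp [Sched, jb]

theorem keptM (h : Valid I) {s} (hs : Sched I s) : Kept I s (I.2.2.1.length + 1) := fun k => by
  have := (sched_iff.1 hs k).2
  have := (jb_spec h (List.getElem_mem k.2)).2.2.2
  rify at this
  exact .inr (by erw [← Fin.getElem_fin] at this; linarith)

open Classical in
theorem count (h : Valid I) {s} (hs : Sched I s) :
    #((Ioc 0 (I.2.2.1.length + 1)).filter (Kept I s)) + cancelled I s = I.2.2.1.length + 1 := by
  have := card_filter_add_card_filter_not (s := Ioc 0 (I.2.2.1.length + 1)) (Kept I s)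
  rw [Nat.card_Ioc, Nat.sub_zero] at this
  suffices cancelled I s = #((Ioc 0 (I.2.2.1.length + 1)).filter fun i => ¬Kept I s i) by omega
  rw [cancelled, ← Set.ncard_image_of_injective (f := fun i : Fin _ => i.val + 1) _
    fun a b e => Fin.ext (Nat.succ_injective e), ← Set.ncard_coe_finset]
  congr 1
  ext i
  have k : ∀ i : Fin I.2.2.1.length, (∃ k, (path I I.2.2.1[i] ∩ box I.2.2.2[k] (s k)).Nonempty) ↔
      ¬Kept I s (i + 1) := fun i => by
    simp only [Kept, tti, not_forall, not_or, not_lt]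
    exact exists_congr fun k => meet h (List.getElem_mem k.2) _ _
  simp only [k, Set.mem_image, Set.mem_ofPred_eq, coe_filter, mem_Ioc]
  constructor
  · rintro ⟨i, hi, rfl⟩
    exact ⟨by omega, hi⟩
  · rintro ⟨⟨a, b⟩, c⟩
    have : i ≠ I.2.2.1.length + 1 := fun e => c (e ▸ keptM h hs)
    obtain ⟨i, rfl⟩ : ∃ k, i = k + 1 := ⟨i - 1, by omega⟩
    exact ⟨⟨i, by omega⟩, c, rfl⟩

open Classical in
theorem feas (h : Valid I) {s} (hs : Sched I s) : ∃ G, Feas (core I) 0 (I.2.2.1.length + 1) G ∧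
    G.length = #((Ioc 0 (I.2.2.1.length + 1)).filter (Kept I s)) := by
  obtain ⟨G, c, l, k⟩ := mk_chain (Kept I s) (Nat.zero_le _) (keptM h hs)
  refine ⟨G, ⟨c, fun j hj _ _ => ?_⟩, l⟩
  obtain ⟨j, hj', rfl⟩ := List.mem_map.1 hj
  obtain ⟨a1, a2, a3, a4⟩ := jb_spec h hj'
  obtain ⟨i, rfl⟩ := List.get_of_mem hj'
  obtain ⟨b1, b2⟩ := sched_iff.1 hs i
  rify at a1 a3 a4
  simp only [List.get_eq_getElem, Fin.getElem_fin] at *
  obtain ⟨g, g1, g2, g3⟩ := c.find (t := fun u => tt (core I) u) (le_add_of_nonneg_right a3)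
    (a1.trans_le b1) (by linarith) fun g hg => k g hg i
  refine ⟨g, g1, ?_, ?_, ?_⟩ <;> rify <;> linarith

theorem main (h : Valid I) : ∃ s : Fin I.2.2.2.length → ℚ, out I = List.ofFn s ∧
    Sched I (fun k => s k) ∧ ∀ s', Sched I s' → cancelled I (fun k => s k) ≤ cancelled I s' := by
  classical
  have o : ∀ s', Sched I s' → Feas (core I) 0 (I.2.2.1.length + 1) (opt (core I)) ∧
      I.2.2.1.length + 1 ≤ (opt (core I)).length + cancelled I s' := fun s' hs => by
    obtain ⟨G, g1, g2⟩ := feas h hs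
    have := opt_spec (core I) (mono h) (G := G) (by simp [len]) (by rwa [len])
    rw [len] at this
    exact ⟨this.1, by have := count h hs; omega⟩
  obtain ⟨⟨c, f⟩, -⟩ := o (fun k => I.2.2.2[k].1) fun k => ⟨le_rfl, by
    obtain ⟨-, -, c, -⟩ := h.2.2.2.2 _ (List.getElem_mem k.2)
    rify at c
    erw [← Fin.getElem_fin] at c; linarith⟩
  have p : ∀ k : Fin I.2.2.2.length, _ := fun k =>
    let ⟨a1, a2, a3, a4⟩ := jb_spec h (List.getElem_mem k.2)
    pos_spec (f _ (List.mem_map_of_mem (List.getElem_mem k.2)) (by linarith) (by linarith)) a2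
  have hs : Sched I fun k => (pos (core I) (opt (core I)) (jb I I.2.2.2[k]) + sh I I.2.2.2[k].2.2.2.2 : ℚ) :=
    sched_iff.2 fun k => by
      push_cast
      rw [add_sub_cancel_right]
      exact_mod_cast And.intro (p k).1 (p k).2.1
  refine ⟨fun k => pos (core I) (opt (core I)) (jb I I.2.2.2[k]) + sh I I.2.2.2[k].2.2.2.2,
    (List.ofFn_getElem_eq_map _ _).symm, hs, fun s' hs' => ?_⟩
  have := (o s' hs').2
  have := count h hs
  have := c.count (P := Kept I fun k => (pos (core I) (opt (core I)) (jb I I.2.2.2[k]) +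
      sh I I.2.2.2[k].2.2.2.2 : ℚ)) fun g hg k => by
    obtain ⟨g', g1, g2, g3⟩ := (p k).2.2
    have := c.bd.2 g hg
    have := c.bd.2 g' g1
    push_cast
    rw [add_sub_cancel_right]
    rcases c.sep g hg g' g1 with e | e
    · exact .inl (by exact_mod_cast (mono h _ _ e (by rw [len]; omega)).trans_lt g2)
    · exact .inr (by exact_mod_cast g3.trans_le (mono h _ _ e (by rw [len]; omega)))
  beta_reduce
  omega

end Pool.Agent.H36.Rail
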