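import Pool.Agent.H36.RecDefs
import Pool.Agent.H36.Lc

namespace Pool.Agent.H36.Rec

open Pool.Agent.H38.NP Pool.Agent.H36.Gr SimpleGraph

section
variable {V : Type} {G : SimpleGraph V}

theorem perfect [Finite V] (h : G.IsBipartite) : Perfect G := by
  classical
  intro S
  have := Fintype.ofFinite S
  obtain ⟨C, hC⟩ := (G.induce S).exists_isNClique_cliqueNum
  refine le_antisymm ?_ (hC.2 ▸ hC.1.card_le_chromaticNumber)
  by_cases e : ∃ u v, (G.induce S).Adj u v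
  · obtain ⟨u, v, e⟩ := e
    have a : (G.induce S).Colorable 2 := h.of_hom (Embedding.induce S).toHom
    have b := IsClique.card_le_cliqueNum (G := G.induce S) (t := {u, v})
      (tc := by simpa using fun _ => e)
    rw [Finset.card_pair e.ne] at b
    exact a.chromaticNumber_le.trans (by exact_mod_cast b)
  · rcases isEmpty_or_nonempty S with c | ⟨⟨u⟩⟩
    · simp [chromaticNumber_eq_zero_of_isEmpty]
    · have a : (G.induce S).Colorable 1 := ⟨Coloring.mk (fun _ => 0) fun h => (e ⟨_, _, h⟩).elim⟩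
      have b := IsClique.card_le_cliqueNum (G := G.induce S) (t := {u}) (tc := by simp)
      exact a.chromaticNumber_le.trans (by exact_mod_cast b)

theorem stage [Fintype V] {k : ℕ} {f g : V → ℕ} (hf : IsCol G k f) (hg : IsCol G k g)
    (h : ∀ u v, G.Adj u v → f u ≠ g v) : Relation.ReflTransGen (Step G k) f g := by
  classical
  have : ∀ S : Finset V, Relation.ReflTransGen (Step G k) f fun v => if v ∈ S then g v else f v := by
    intro S
    induction S using Finset.induction_on with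
    | empty => simpa using Relation.ReflTransGen.refl
    | insert a S ha ih =>
      by_cases c : f a = g a
      · convert ih using 2 with v
        by_cases e : v = a <;> simp [e, c]
      · refine ih.tail ⟨⟨fun v => ?_, fun u v e => ?_⟩, a, by simpa [ha] using c, fun u hu => by
          simp [hu]⟩
        · beta_reduce
          split_ifs
          exacts [hg.1 v, hf.1 v]
        · beta_reduce
          split_ifs
          exacts [hg.2 u v e, (h v u e.symm).symm, h u v e, hf.2 u v e]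
  simpa using this Finset.univ

end

def adjH (φ : F3) (t i t' i' : ℕ) : Prop :=
  (t = 0 ∧ t' = 0 ∧ i ≠ i' ∧ (2 ≤ i ∨ 2 ≤ i')) ∨ (t = 1 ∧ t' = 0 ∧ i / 2 ≠ i' / 2) ∨
  (t = 2 ∧ t' = 0 ∧ i / 2 < φ.length ∧ i' ≠ i % 2 ∧ i' ≠ lc φ (3 * (i / 2)) + 2 ∧
    i' ≠ lc φ (3 * (i / 2) + 1) + 2 ∧ i' ≠ lc φ (3 * (i / 2) + 2) + 2) ∨
  (t = 2 ∧ t' = 1 ∧ i / 2 < φ.length ∧ 2 ≤ i')

instance (φ : F3) (t i t' i' : ℕ) : Decidable (adjH φ t i t' i') := by unfold adjH; infer_instance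

def adj (φ : F3) (u w : ℕ) : Bool :=
  decide (u % 2 ≠ w % 2 ∧ adjH φ (u / 2 % 3) (u / 6) (w / 2 % 3) (w / 6))

def f0 (v : ℕ) : ℕ :=
  if v / 2 % 3 = 0 then v / 6 else if v / 2 % 3 = 1 then 2 * (v / 6 / 2) else v / 6 % 2

def red (φ : F3) : Inst := (6 * (2 * nv φ + 2), edgesOf (6 * (2 * nv φ + 2)) (adj φ),
  2 * nv φ + 2, (List.range (6 * (2 * nv φ + 2))).map f0, 2 * nv φ + 1)

theorem pt_red : PT red :=
  PT.mk (by fun_prop) (PT.mk (PT.edgesOf (by fun_prop) (by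
    simp only [adj, adjH]; fun_prop)) (by unfold f0; fun_prop))

abbrev VV (φ : F3) := Fin (6 * (2 * nv φ + 2))
abbrev GG (φ : F3) : SimpleGraph (VV φ) :=
  graphOf (6 * (2 * nv φ + 2)) (edgesOf (6 * (2 * nv φ + 2)) (adj φ))

variable {φ : F3}

theorem GG_adj {u w : VV φ} : (GG φ).Adj u w ↔ u.val % 2 ≠ w.val % 2 ∧
    (adjH φ (u.val / 2 % 3) (u.val / 6) (w.val / 2 % 3) (w.val / 6) ∨
      adjH φ (w.val / 2 % 3) (w.val / 6) (u.val / 2 % 3) (u.val / 6)) := by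
  rw [graphOf_edgesOf_adj]
  simp only [adj, decide_eq_true_eq]
  constructor
  · rintro ⟨-, h | h⟩
    exacts [⟨h.1, Or.inl h.2⟩, ⟨h.1.symm, Or.inr h.2⟩]
  · rintro ⟨a, h⟩
    exact ⟨fun e => a (by rw [e]), h.imp (fun h => ⟨a, h⟩) fun h => ⟨a.symm, h⟩⟩

theorem init_eq : init (red φ) = fun v : VV φ => f0 v := by
  funext v
  have : v.val < 6 * (2 * nv φ + 2) := v.2
  simp [init, red, List.getD_eq_getElem?_getD, this]

def F (z : ℕ) (x y : ℕ → ℕ) (v : VV φ) : ℕ :=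
  if v.val / 2 % 3 = 0 then (if v.val / 6 = 1 then z else v.val / 6)
  else if v.val / 2 % 3 = 1 then x (v.val / 6) else y (v.val / 6)

theorem F_spec (z : ℕ) (x y : ℕ → ℕ) (v : VV φ) :
    (v.val / 2 % 3 = 0 ∧ (v.val / 6 = 1 ∧ F z x y v = z ∨ v.val / 6 ≠ 1 ∧ F z x y v = v.val / 6)) ∨
    (v.val / 2 % 3 = 1 ∧ F z x y v = x (v.val / 6)) ∨
    (v.val / 2 % 3 = 2 ∧ F z x y v = y (v.val / 6)) := by
  unfold F; split_ifs <;> omega

def GX (x : ℕ → ℕ) : Prop := ∀ i, x i / 2 = i / 2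

def GY (φ : F3) (z : ℕ) (x y : ℕ → ℕ) : Prop := ∀ i, i / 2 < φ.length →
  (y i = i % 2 ∧ z = 1 ∨ y i = lc φ (3 * (i / 2)) + 2 ∨ y i = lc φ (3 * (i / 2) + 1) + 2 ∨
    y i = lc φ (3 * (i / 2) + 2) + 2) ∧ ∀ j, 2 ≤ j → x j ≠ y i

theorem cross {z z' x x' y y'} (hz : z ≤ 1) (hz' : z' ≤ 1) (h1 : GX x) (h2 : GX x')
    (h3 : GY φ z' x' y) (h4 : GY φ z x y') (u v : VV φ) (h : (GG φ).Adj u v) :
    F z x y u ≠ F z' x' y' v := by
  have a := F_spec z x y u
  have b := F_spec z' x' y' v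
  rcases (GG_adj.1 h).2 with h | h <;> rcases h with h | h | h | h
  · omega
  · have := h1 (u.val / 6); omega
  · have := (h3 _ h.2.2.1).1; omega
  · have := (h3 _ h.2.2.1).2 _ h.2.2.2; omega
  · omega
  · have := h2 (v.val / 6); omega
  · have := (h4 _ h.2.2.1).1; omega
  · have := (h4 _ h.2.2.1).2 _ h.2.2.2; omega

theorem isCol {z x y} (hz : z ≤ 1) (h1 : GX x) (h3 : GY φ z x y)
    (h4 : ∀ i, y i < 2 * nv φ + 2) : IsCol (GG φ) (2 * nv φ + 2) (F z x y) :=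
  ⟨fun v => by
    have := F_spec z x y v
    have := h1 (v.val / 6)
    have := h4 (v.val / 6)
    omega, cross hz hz h1 h1 h3 h3⟩

theorem f0_eq : (fun v : VV φ => f0 v) = F 1 (fun i => 2 * (i / 2)) fun i => i % 2 := by
  funext v
  unfold f0 F
  beta_reduce
  split_ifs <;> omega

theorem gx0 : GX fun i => 2 * (i / 2) := fun i => by simp

theorem gy0 {x} (h : GX x) : GY φ 1 x fun i => i % 2 := fun i _ =>
  ⟨Or.inl ⟨rfl, rfl⟩, fun j hj => by have := h j; simp only; omega⟩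

theorem col0 : IsCol (GG φ) (2 * nv φ + 2) fun v : VV φ => f0 v :=
  f0_eq ▸ isCol le_rfl gx0 (gy0 gx0) fun i => by omega

theorem valid (φ : F3) : Valid (red φ) := by
  have b : (GG φ).IsBipartite := ⟨Coloring.mk (fun v => ⟨v.val % 2, by omega⟩) fun h e =>
    (GG_adj.1 h).1 (congrArg Fin.val e)⟩
  have := lt_nv φ
  refine ⟨b, perfect b, fun e => ?_, init_eq ▸ col0⟩
  have : (GG φ).Adj ⟨0, by omega⟩ ⟨13, by omega⟩ := GG_adj.2 (by simp [adjH])
  rw [show GG φ = ⊥ from e] at this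
  exact this

theorem yes (h : Sat3 φ) : Few (red φ) := by
  obtain ⟨a, a1, a2⟩ := (sat3_iff_lc' φ).1 h
  choose! j j1 j2 using a2
  obtain ⟨x, x1, x2, x3⟩ : ∃ x : ℕ → ℕ, GX x ∧ (∀ i, x i ≠ 1) ∧
      ∀ i, 2 ≤ i → x i ≠ a (i / 2 - 1) + 2 :=
    ⟨fun i => if i < 2 then 0 else 4 * (i / 2) + 1 - (a (i / 2 - 1) + 2), fun i => by
      have := a1 (i / 2 - 1); beta_reduce; split_ifs <;> omega, fun i => by
      have := a1 (i / 2 - 1); beta_reduce; split_ifs <;> omega, fun i hi => by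
      have := a1 (i / 2 - 1); beta_reduce; split_ifs <;> omega⟩
  obtain ⟨y, y1, y2, y3⟩ : ∃ y : ℕ → ℕ, (∀ z, GY φ z x y) ∧ (∀ i, y i ≠ 1) ∧
      ∀ i, y i < 2 * nv φ + 2 := by
    refine ⟨fun i => if i / 2 < φ.length then lc φ (3 * (i / 2) + j (i / 2)) + 2 else 0,
      fun z i hi => ⟨?_, fun l hl e => ?_⟩, fun i => ?_, fun i => ?_⟩
    · have := j1 _ hi
      simp only [if_pos hi]
      interval_cases j (i / 2) <;> simp
    · simp only [if_pos hi] at e
      have := x1 l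
      refine x3 l hl ?_
      rw [show l / 2 - 1 = lc φ (3 * (i / 2) + j (i / 2)) / 2 by omega, j2 _ hi, e]
    · beta_reduce; split_ifs <;> omega
    · beta_reduce; split_ifs with hi
      · have := lc_lt (φ := φ) (o := 3 * (i / 2) + j (i / 2)) (by have := j1 _ hi; omega)
        omega
      · omega
  have c0 := isCol (φ := φ) le_rfl gx0 (gy0 gx0) fun i => by omega
  have c1 := isCol (φ := φ) le_rfl x1 (gy0 x1) fun i => by omega
  have c2 := isCol le_rfl x1 (y1 1) y3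
  have c3 := isCol zero_le_one x1 (y1 0) y3
  refine ⟨F (φ := φ) 0 x y, ?_, ?_⟩
  · rw [init_eq, f0_eq]
    exact ((stage c0 c1 (cross le_rfl le_rfl gx0 x1 (gy0 x1) (gy0 gx0))).trans
      (stage c1 c2 (cross le_rfl le_rfl x1 x1 (gy0 x1) (y1 1)))).trans
      (stage c2 c3 (cross le_rfl zero_le_one x1 x1 (y1 0) (y1 1)))
  · refine (Finset.card_le_card (t := (Finset.range (2 * nv φ + 2)).erase 1)
      (Finset.image_subset_iff.2 fun v _ => Finset.mem_erase.2 ⟨?_,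
        Finset.mem_range.2 (c3.1 v)⟩)).trans ?_
    · have := F_spec 0 x y v
      have := x2 (v.val / 6)
      have := y2 (v.val / 6)
      omega
    · rw [Finset.card_erase_of_mem (by simp), Finset.card_range]
      exact le_rfl

def Inv (φ : F3) (f : VV φ → ℕ) : Prop :=
  IsCol (GG φ) (2 * nv φ + 2) f ∧ ∀ v : VV φ, v.val / 2 % 3 = 0 → f v = v.val / 6

theorem lock (hs : ¬ Sat3 φ) {f} (h : Inv φ f) (s e : ℕ) (h1 : s < 2) (h2 : e < 2) :
    ∃ c : VV φ, c.val % 2 = s ∧ c.val / 2 % 3 = 2 ∧ c.val / 6 % 2 = e ∧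
      c.val / 6 / 2 < φ.length ∧ f c = e := by
  by_contra hn
  have := lt_nv φ
  have nb : ∀ u : VV φ, ¬ adjH φ (u.val / 2 % 3) (u.val / 6) 0 (f u) := fun u a => by
    have := h.1.1 u
    have e := h.2 ⟨6 * f u + (1 - u.val % 2), by omega⟩ (by simp only; omega)
    have e2 : (6 * f u + (1 - u.val % 2)) / 6 = f u := by omega
    refine h.1.2 u _ (GG_adj.2 ⟨by simp only; omega, Or.inl ?_⟩) (e.trans e2).symm
    simp only [e2, show (6 * f u + (1 - u.val % 2)) / 2 % 3 = 0 by omega]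
    exact a
  refine hs ((sat3_iff_lc φ).2 ⟨fun l => ∃ c : VV φ, c.val % 2 = s ∧ c.val / 2 % 3 = 2 ∧
    c.val / 6 / 2 < φ.length ∧ f c = l + 2, ?_, fun j hj => ?_⟩)
  · rintro l l' ⟨c, c1, c2, c3, c4⟩ ⟨d, d1, d2, d3, d4⟩ e
    have := h.1.1 c
    obtain ⟨w, w1, w2, w3⟩ : ∃ w : VV φ, w.val % 2 ≠ s ∧ w.val / 2 % 3 = 1 ∧ w.val / 6 = l + 2 :=
      ⟨⟨6 * (l + 2) + 2 + (1 - s), by omega⟩, by simp only; omega⟩
    have a := h.1.2 c w (GG_adj.2 ⟨by omega, Or.inl (Or.inr (Or.inr (Or.inr (by omega))))⟩)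
    have b := h.1.2 d w (GG_adj.2 ⟨by omega, Or.inl (Or.inr (Or.inr (Or.inr (by omega))))⟩)
    have : ¬ (w.val / 6 / 2 ≠ f w / 2) := fun t => nb w (Or.inr (Or.inl ⟨w2, rfl, t⟩))
    omega
  · obtain ⟨c, c1, c2, c3⟩ : ∃ c : VV φ, c.val % 2 = s ∧ c.val / 2 % 3 = 2 ∧
        c.val / 6 = 2 * j + e := ⟨⟨6 * (2 * j + e) + 4 + s, by omega⟩, by simp only; omega⟩
    have a : f c ≠ e := fun t => hn ⟨c, c1, c2, by omega, by omega, t⟩
    have b := fun t => nb c (Or.inr (Or.inr (Or.inl t)))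
    rw [show c.val / 6 / 2 = j by omega] at b
    have : f c = lc φ (3 * j + 0) + 2 ∨ f c = lc φ (3 * j + 1) + 2 ∨
        f c = lc φ (3 * j + 2) + 2 := by
      simp only [Nat.add_zero]
      by_contra hh
      exact b ⟨c2, rfl, hj, by omega⟩
    rcases this with t | t | t <;> exact ⟨_, by omega, c, c1, c2, by omega, t⟩

theorem inv_step (hs : ¬ Sat3 φ) {f g} (h : Inv φ f) (st : Step (GG φ) (2 * nv φ + 2) f g) :
    Inv φ g := by
  obtain ⟨g1, v, -, g2⟩ := st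
  refine ⟨g1, fun u hu => ?_⟩
  by_cases c : u = v
  swap
  · rw [← g2 u c, h.2 u hu]
  subst c
  by_contra hn
  have := g1.1 u
  have k : ∀ w, (GG φ).Adj w u → f w ≠ g u := fun w e => g2 w e.ne ▸ g1.2 w u e
  by_cases c : 2 ≤ g u ∨ 2 ≤ u.val / 6
  · obtain ⟨w, w1, w2, w3⟩ : ∃ w : VV φ, w.val % 2 ≠ u.val % 2 ∧ w.val / 2 % 3 = 0 ∧
        w.val / 6 = g u := ⟨⟨6 * g u + (1 - u.val % 2), by omega⟩, by simp only; omega⟩
    exact k w (GG_adj.2 ⟨w1, Or.inl (Or.inl (by omega))⟩) ((h.2 w w2).trans w3)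
  · obtain ⟨w, w1, w2, w3, w4, w5⟩ := lock hs h (1 - u.val % 2) (g u) (by omega) (by omega)
    exact k w (GG_adj.2 ⟨by omega, Or.inl (Or.inr (Or.inr (Or.inl (by omega))))⟩) w5

theorem no (h : Few (red φ)) : Sat3 φ := by
  by_contra hs
  obtain ⟨f, h1, h2⟩ : ∃ f : VV φ → ℕ, Relation.ReflTransGen (Step (GG φ) (2 * nv φ + 2))
    (init (red φ)) f ∧ (Finset.univ.image f).card ≤ 2 * nv φ + 1 := h
  have : Inv φ f := by
    rw [init_eq] at h1
    clear h2
    induction h1 with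
    | refl => exact ⟨col0, fun v hv => if_pos hv⟩
    | tail _ st ih => exact inv_step hs ih st
  have := Finset.card_le_card (s := Finset.range (2 * nv φ + 2)) (t := Finset.univ.image f)
    fun i hi => by
      rw [Finset.mem_range] at hi
      exact Finset.mem_image.2 ⟨⟨6 * i, by omega⟩, Finset.mem_univ _,
        (this.2 _ (by simp only; omega)).trans (by simp)⟩
  rw [Finset.card_range] at this
  omega

theorem hard : NPH Valid Few := sat3_nph.reduce red pt_red fun φ _ => ⟨valid φ, yes, no⟩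

end Pool.Agent.H36.Rec
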