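import Pool.Agent.H38.NP.Defs

/-!
Optimal-colouring reconfiguration.
-/

namespace Pool.Agent.H36.Rec

open Pool.Agent.H38.NP

variable {V : Type}

/-- Every induced subgraph has chromatic number equal to its clique number. -/
def Perfect (G : SimpleGraph V) : Prop :=
  ∀ S : Set V, (G.induce S).chromaticNumber = (G.induce S).cliqueNum

/-- `f` is a proper colouring with colours `0, …, k - 1`. -/
def IsCol (G : SimpleGraph V) (k : ℕ) (f : V → ℕ) : Prop :=
  (∀ v, f v < k) ∧ ∀ u v, G.Adj u v → f u ≠ f v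

/-- `g` is a `k`-colouring obtained from `f` by recolouring one vertex. -/
def Step (G : SimpleGraph V) (k : ℕ) (f g : V → ℕ) : Prop :=
  IsCol G k g ∧ ∃ v, f v ≠ g v ∧ ∀ u, u ≠ v → f u = g u

/-- An input: number of vertices, edges, `k`, the colouring `f₀`, and a bound `t`. -/
abbrev Inst := ℕ × List (ℕ × ℕ) × ℕ × List ℕ × ℕ

/-- The initial colouring. -/
def init (p : Inst) (v : Fin p.1) : ℕ := p.2.2.2.1.getD v 0

/-- The graph is bipartite, perfect, has an edge, and `f₀` is a `k`-colouring. -/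
def Valid (p : Inst) : Prop :=
  (graphOf p.1 p.2.1).IsBipartite ∧ Perfect (graphOf p.1 p.2.1) ∧ graphOf p.1 p.2.1 ≠ ⊥ ∧
    IsCol (graphOf p.1 p.2.1) p.2.2.1 (init p)

/-- Some colouring reachable from `f₀` uses at most `t` colours. -/
def Few (p : Inst) : Prop :=
  ∃ f, Relation.ReflTransGen (Step (graphOf p.1 p.2.1) p.2.2.1) (init p) f ∧
    (Finset.univ.image f).card ≤ p.2.2.2.2

end Pool.Agent.H36.Rec
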