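import Pool.Agent.H36.RigDefs
import Pool.Agent.H38.NP.Graphs

/-!
General lemmas on (2,3)-sparse edge sets, and hardness of small Hall violators.
-/

namespace Pool.Agent.H36.Rig

open Pool.Agent.H38.NP Finset

theorem mem_ends {F : Finset (Sym2 ℕ)} {v : ℕ} : v ∈ ends F ↔ ∃ e ∈ F, v ∈ e := by
  simp [ends]

theorem Indep.mono {F G : Finset (Sym2 ℕ)} (h : Indep F) (hG : G ⊆ F) : Indep G :=
  fun F' h1 h2 => h F' (h1.trans hG) h2

theorem Indep.le {F : Finset (Sym2 ℕ)} (h : Indep F) {X : Finset ℕ} (hX : ends F ⊆ X) {c : ℕ}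
    (h1 : X.card ≤ c) (h2 : 2 ≤ c) : F.card + 3 ≤ 2 * c := by
  rcases F.eq_empty_or_nonempty with rfl | hne
  · simp; omega
  · have := h F Subset.rfl hne
    have := card_le_card hX
    omega

theorem sparse_image {β : Type} (B : Finset β) (en : β → Sym2 ℕ)
    (h : ∀ B' ⊆ B, B'.Nonempty → B'.card + 3 ≤ 2 * (ends (B'.image en)).card) :
    Indep (B.image en) ∧ (B.image en).card = B.card := by
  classical
  have inj : Set.InjOn en B := by
    intro a ha b hb e
    by_contra hne
    have h1 := h {a, b} (by intro x; simp; rintro (rfl | rfl); exacts [ha, hb]) ⟨a, by simp⟩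
    rw [card_pair hne] at h1
    have h2 : ends (({a, b} : Finset β).image en) = (en a).toFinset := by
      simp [ends, e]
    rw [h2, Sym2.card_toFinset] at h1
    split_ifs at h1 <;> omega
  refine ⟨fun F' hF hne => ?_, card_image_of_injOn inj⟩
  obtain ⟨B', hB, rfl⟩ := subset_image_iff.1 hF
  rw [card_image_of_injOn (inj.mono hB)]
  exact h B' hB (image_nonempty.1 hne)

theorem slots {β : Type} (B : Finset β) (X : Finset ℕ) (own : β → ℕ × Bool)
    (M : Finset (ℕ × Bool)) (hM : ∀ p ∈ M, p.1 ∈ X) (h1 : ∀ b ∈ B, (own b).1 ∈ X ∧ own b ∉ M)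
    (inj : ∀ a ∈ B, ∀ b ∈ B, own a = own b → a = b) : B.card + M.card ≤ 2 * X.card := by
  have h2 : B.card ≤ ((X ×ˢ (univ : Finset Bool)) \ M).card :=
    card_le_card_of_injOn own (fun b hb => by
      have := h1 b hb
      simp only [coe_sdiff, coe_product, Set.mem_sdiff, Set.mem_prod, mem_coe, mem_univ, and_true]
      exact this) (fun a ha b hb e => inj a ha b hb e)
  have h3 : M ⊆ X ×ˢ (univ : Finset Bool) := fun p hp => by simp [hM p hp]
  have h4 := card_sdiff_add_card_eq_card h3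
  simp only [card_product, card_univ, Fintype.card_bool] at h4
  omega

theorem deg2 {β : Type} (B : Finset β) (hne : B.Nonempty) (en : β → Sym2 ℕ)
    (top bot : β → ℕ) (sl : β → Bool) (ρ : ℕ → ℕ) (h1 : ∀ b ∈ B, en b = s(top b, bot b))
    (h2 : ∀ b ∈ B, ρ (bot b) < ρ (top b))
    (inj : ∀ a ∈ B, ∀ b ∈ B, top a = top b → (sl a = sl b ∨ bot a = bot b) → a = b) :
    B.card + 3 ≤ 2 * (ends (B.image en)).card := by
  set X := ends (B.image en)
  have ht : ∀ b ∈ B, top b ∈ X := fun b hb =>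
    mem_ends.2 ⟨_, mem_image_of_mem _ hb, by simp [h1 b hb]⟩
  have hb : ∀ b ∈ B, bot b ∈ X := fun b hb =>
    mem_ends.2 ⟨_, mem_image_of_mem _ hb, by simp [h1 b hb]⟩
  obtain ⟨b0, hb0⟩ := hne
  obtain ⟨x0, hx0, m0⟩ := exists_min_image X ρ ⟨_, ht b0 hb0⟩
  have n0 : ∀ b ∈ B, top b ≠ x0 := fun b h e => by
    have := m0 _ (hb b h); have := h2 b h; rw [e] at this; omega
  obtain ⟨x1, hx1, m1⟩ := exists_min_image (X.erase x0) ρ
    ⟨top b0, mem_erase.2 ⟨n0 b0 hb0, ht b0 hb0⟩⟩
  have n1 : ∀ b ∈ B, top b = x1 → bot b = x0 := fun b h e => by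
    by_contra hn
    have := m1 _ (mem_erase.2 ⟨hn, hb b h⟩); have := h2 b h; rw [e] at this; omega
  obtain ⟨s, hs⟩ : ∃ s, ∀ b ∈ B, top b = x1 → sl b ≠ s := by
    by_cases h : ∃ b ∈ B, top b = x1
    · obtain ⟨a, ha, ea⟩ := h
      refine ⟨!sl a, fun b h e => ?_⟩
      rw [inj b h a ha (e.trans ea.symm) (Or.inr ((n1 b h e).trans (n1 a ha ea).symm))]
      simp
    · exact ⟨true, fun b h' e => absurd ⟨b, h', e⟩ h⟩
  have hx := (mem_erase.1 hx1).1
  have := slots B X (fun b => (top b, sl b)) {(x0, false), (x0, true), (x1, s)}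
    (by simp [hx0, (mem_erase.1 hx1).2])
    (fun b h => ⟨ht b h, by
      simp only [mem_insert, mem_singleton, Prod.mk.injEq, not_or, not_and]
      exact ⟨fun e => absurd e (n0 b h), fun e => absurd e (n0 b h), hs b h⟩⟩)
    (fun a ha b hb e => inj a ha b hb (Prod.mk.inj e).1 (Or.inl (Prod.mk.inj e).2))
  rwa [card_insert_of_notMem (by simp [hx.symm]), card_insert_of_notMem (by simp [hx.symm]),
    card_singleton] at this

/-- neighbourhood of `S` in the bipartite graph given by `I` -/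
def nb (R : ℕ) (I : List (ℕ × ℕ)) (S : Finset ℕ) : Finset ℕ :=
  (range R).filter fun r => ∃ j ∈ S, (r, j) ∈ I

def Viol (p : ℕ × ℕ × List (ℕ × ℕ) × ℕ) : Prop :=
  ∃ S ⊆ range p.1, S.card ≤ p.2.2.2 ∧ (nb p.2.1 p.2.2.1 S).card < S.card

def hadj (n : ℕ) (E : List (ℕ × ℕ)) (r j : ℕ) : Bool :=
  decide (n ≤ r) || decide (r = j / n) || decide (r = j % n) ||
    (decide (j / n ≠ j % n) && decide ((j / n, j % n) ∈ E))

theorem hall_core (n k : ℕ) (E : List (ℕ × ℕ)) (hn : n = 3 * k) (hk : 2 ≤ k) :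
    (∃ S, IndepN n E S ∧ S.card = k) ↔ Viol (n * n, n + (k * k - k - 1),
      edgesOf (n * n + (n + (k * k - k - 1))) (hadj n E), k * k) := by
  have hkk : k + k ≤ k * k := by nlinarith
  set t := k * k - k - 1 with ht
  have n0 : 0 < n := by omega
  constructor
  · rintro ⟨S, ⟨h1, h2⟩, hc⟩
    have hd : ∀ u v, v < n → (u * n + v) / n = u ∧ (u * n + v) % n = v := fun u v hv =>
      ⟨by rw [Nat.add_comm, Nat.add_mul_div_right _ _ n0, Nat.div_eq_of_lt hv]; simp,
        by rw [Nat.add_comm, Nat.add_mul_mod_self_right, Nat.mod_eq_of_lt hv]⟩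
    have hcard : ((S ×ˢ S).image fun p => p.1 * n + p.2).card = k * k := by
      rw [card_image_of_injOn, card_product, hc]
      rintro ⟨u, v⟩ h ⟨u', v'⟩ h' e
      simp only [coe_product, Set.mem_prod, mem_coe] at h h' e
      have a := hd u v (h1 _ h.2)
      have b := hd u' v' (h1 _ h'.2)
      rw [e] at a
      exact Prod.ext (a.1.symm.trans b.1) (a.2.symm.trans b.2)
    refine ⟨(S ×ˢ S).image fun p => p.1 * n + p.2, fun j hj => ?_, hcard.le, ?_⟩
    · obtain ⟨⟨u, v⟩, h, rfl⟩ := mem_image.1 hj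
      have a := h1 _ (mem_product.1 h).1
      have b := h1 _ (mem_product.1 h).2
      simp only [mem_range] at a b ⊢
      nlinarith
    · rw [hcard]
      have : nb (n + t) (edgesOf (n * n + (n + t)) (hadj n E))
          ((S ×ˢ S).image fun p => p.1 * n + p.2) ⊆ S ∪ Ico n (n + t) := by
        intro r hr
        obtain ⟨hr, j, hj, h⟩ := mem_filter.1 hr
        obtain ⟨⟨u, v⟩, h', rfl⟩ := mem_image.1 hj
        obtain ⟨hu, hv⟩ := mem_product.1 h'
        have a := hd u v (h1 _ hv)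
        have h3 := (mem_edgesOf.1 h).2.2
        simp only [hadj, a.1, a.2, Bool.or_eq_true, Bool.and_eq_true, decide_eq_true_eq] at h3
        simp only [mem_union, mem_Ico, mem_range] at hr ⊢
        rcases h3 with ((h3 | rfl) | rfl) | ⟨h3, h4⟩
        exacts [Or.inr ⟨h3, hr⟩, Or.inl hu, Or.inl hv, absurd h4 (h2 _ hu _ hv h3)]
      have h5 := (card_le_card this).trans (card_union_le _ _)
      simp only [Nat.card_Ico] at h5 ⊢
      omega
  · rintro ⟨S, hS, hK, hlt⟩
    simp only at hS hK hlt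
    have hS' : ∀ j ∈ S, j < n * n := fun j hj => mem_range.1 (hS hj)
    obtain ⟨j0, hj0⟩ : S.Nonempty := card_pos.1 (by omega)
    have hval : ∀ j ∈ S, j / n ≠ j % n → (j / n, j % n) ∉ E := by
      intro j hj h1 h2
      have : range (n + t) ⊆ nb (n + t) (edgesOf (n * n + (n + t)) (hadj n E)) S := fun r hr =>
        mem_filter.2 ⟨hr, j, hj, mem_edgesOf.2 ⟨by have := mem_range.1 hr; omega,
          by have := hS' j hj; omega, by simp [hadj, h1, h2]⟩⟩
      have := card_le_card this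
      simp only [card_range] at this
      omega
    set W := (range n).filter fun r => ∃ j ∈ S, r = j / n ∨ r = j % n
    have h1 : W ∪ Ico n (n + t) ⊆ nb (n + t) (edgesOf (n * n + (n + t)) (hadj n E)) S := by
      intro r hr
      rcases mem_union.1 hr with hr | hr
      · obtain ⟨hr, j, hj, h⟩ := mem_filter.1 hr
        have := mem_range.1 hr
        exact mem_filter.2 ⟨mem_range.2 (by omega), j, hj, mem_edgesOf.2 ⟨by omega,
          by have := hS' j hj; omega, by rcases h with h | h <;> simp [hadj, ← h]⟩⟩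
      · obtain ⟨a, b⟩ := mem_Ico.1 hr
        exact mem_filter.2 ⟨mem_range.2 b, j0, hj0, mem_edgesOf.2 ⟨by omega,
          by have := hS' j0 hj0; omega, by simp [hadj, a]⟩⟩
    have h2 := card_le_card h1
    rw [card_union_of_disjoint (by
      rw [disjoint_left]; intro r a b
      have := mem_range.1 (mem_filter.1 a).1
      have := (mem_Ico.1 b).1
      omega), Nat.card_Ico] at h2
    have h3 : S.image (fun j => (j / n, j % n)) ⊆ W ×ˢ W := by
      intro p hp
      obtain ⟨j, hj, rfl⟩ := mem_image.1 hp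
      exact mem_product.2 ⟨mem_filter.2 ⟨mem_range.2 (Nat.div_lt_of_lt_mul (hS' j hj)), j, hj,
        Or.inl rfl⟩, mem_filter.2 ⟨mem_range.2 (Nat.mod_lt _ n0), j, hj, Or.inr rfl⟩⟩
    have h4 : (S.image fun j => (j / n, j % n)).card = S.card := by
      refine card_image_of_injOn fun a _ b _ e => ?_
      simp only [Prod.mk.injEq] at e
      rw [← Nat.div_add_mod a n, ← Nat.div_add_mod b n, e.1, e.2]
    have h5 := card_le_card h3
    rw [h4, card_product] at h5
    have hw : W.card = k := by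
      by_contra hne
      have a : W.card + 1 ≤ k := by omega
      have b : W.card + k * k < W.card * W.card + k + 1 := by omega
      obtain ⟨d, hd⟩ := Nat.exists_eq_add_of_le a
      rw [hd] at b hk
      nlinarith
    have h6 := eq_of_subset_of_card_le h3 (by rw [h4, card_product, hw]; omega)
    refine ⟨W, ⟨fun v hv => mem_range.1 (mem_filter.1 hv).1, fun u hu v hv hne => ?_⟩, hw⟩
    have : (u, v) ∈ S.image fun j => (j / n, j % n) := h6 ▸ mem_product.2 ⟨hu, hv⟩
    obtain ⟨j, hj, e⟩ := mem_image.1 this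
    obtain ⟨rfl, rfl⟩ := Prod.mk.inj e
    exact hval j hj hne

theorem viol_nph : NPH (fun _ => True) Viol := by
  refine indep_nph.reduce (fun p => if p.2.2 ≤ 1 then (1, 0, [], 1) else
    (p.1 * p.1, p.1 + (p.2.2 * p.2.2 - p.2.2 - 1),
      edgesOf (p.1 * p.1 + (p.1 + (p.2.2 * p.2.2 - p.2.2 - 1))) (hadj p.1 p.2.1), p.2.2 * p.2.2))
    (PT.ite (by fun_prop) (by fun_prop) (PT.mk (by fun_prop) (PT.mk (by fun_prop)
      (PT.mk (PT.edgesOf (by fun_prop) (by unfold hadj; fun_prop)) (by fun_prop))))) ?_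
  rintro ⟨n, E, k⟩ ⟨hn, -⟩
  refine ⟨trivial, ?_⟩
  simp only at hn ⊢
  split_ifs with hk
  · refine iff_of_true ?_ ⟨{0}, by simp, by simp, by simp [nb]⟩
    rcases Nat.le_one_iff_eq_zero_or_eq_one.1 hk with rfl | rfl
    · exact ⟨∅, ⟨by simp, by simp⟩, rfl⟩
    · exact ⟨{0}, ⟨by simp [hn], by simp⟩, rfl⟩
  · exact hall_core n k E hn (by omega)

end Pool.Agent.H36.Rig
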