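import Pool.Agent.H36.Rig1

/-!
Replacing heavy bars by highly redundant rigid bodies.
-/

namespace Pool.Agent.H36.Rig

open Finset

/-- edges of the body that replaces the heavy bar `h` -/
def InBody (N : ℕ) (pv : ℕ × ℕ → ℕ → ℕ) (h : ℕ × ℕ) (e : Sym2 ℕ) : Prop :=
  ∃ i < N, (∃ j < N, i ≠ j ∧ e = s(pv h i, pv h j)) ∨ e = s(pv h i, h.1) ∨ e = s(pv h i, h.2)

structure Body (V : Finset ℕ) (H : Finset (ℕ × ℕ)) (L : Finset (Sym2 ℕ)) (N : ℕ)
    (pv : ℕ × ℕ → ℕ → ℕ) (V' : Finset ℕ) (E' : Finset (Sym2 ℕ)) : Prop where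
  inj : ∀ h i h' i', pv h i = pv h' i' → h = h' ∧ i = i'
  nV : ∀ h i, pv h i ∉ V
  hH : ∀ h ∈ H, h.1 ≠ h.2 ∧ h.1 ∈ V ∧ h.2 ∈ V
  hL : ∀ e ∈ L, ∀ v ∈ e, v ∈ V
  hV : ∀ v, v ∈ V' ↔ v ∈ V ∨ ∃ h ∈ H, ∃ i < N, v = pv h i
  hE : ∀ e, e ∈ E' ↔ e ∈ L ∨ ∃ h ∈ H, InBody N pv h e

variable {V : Finset ℕ} {H : Finset (ℕ × ℕ)} {L : Finset (Sym2 ℕ)} {N : ℕ}
  {pv : ℕ × ℕ → ℕ → ℕ} {V' : Finset ℕ} {E' : Finset (Sym2 ℕ)}

theorem Body.card_aux (b : Body V H L N pv V' E') {A : Finset ℕ} (hA : A ⊆ V)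
    (G : Finset (ℕ × ℕ)) :
    (A ∪ (G ×ˢ range N).image fun p => pv p.1 p.2).card = A.card + G.card * N := by
  rw [card_union_of_disjoint, card_image_of_injOn, card_product, card_range]
  · intro p _ q _ e
    exact Prod.ext (b.inj _ _ _ _ e).1 (b.inj _ _ _ _ e).2
  · rw [disjoint_left]
    intro v hv h
    obtain ⟨p, -, rfl⟩ := mem_image.1 h
    exact b.nV _ _ (hA hv)

theorem Body.card (b : Body V H L N pv V' E') : V'.card = V.card + H.card * N := by
  rw [← b.card_aux Subset.rfl H]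
  congr 1
  ext v
  simp only [b.hV, mem_union, mem_image, mem_product, mem_range, Prod.exists]
  refine or_congr_right ⟨?_, ?_⟩
  · rintro ⟨x, y, h, i, hi, rfl⟩
    exact ⟨x, y, i, ⟨h, hi⟩, rfl⟩
  · rintro ⟨x, y, i, ⟨h, hi⟩, rfl⟩
    exact ⟨x, y, h, i, hi, rfl⟩

theorem InBody.mem {h : ℕ × ℕ} {e : Sym2 ℕ} (hb : InBody N pv h e) {v : ℕ} (hv : v ∈ e) :
    v = h.1 ∨ v = h.2 ∨ ∃ i < N, v = pv h i := by
  obtain ⟨i, hi, ⟨j, hj, -, rfl⟩ | rfl | rfl⟩ := hb <;> rcases Sym2.mem_iff.1 hv with rfl | rfl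
  exacts [Or.inr (Or.inr ⟨i, hi, rfl⟩), Or.inr (Or.inr ⟨j, hj, rfl⟩), Or.inr (Or.inr ⟨i, hi, rfl⟩),
    Or.inl rfl, Or.inr (Or.inr ⟨i, hi, rfl⟩), Or.inr (Or.inl rfl)]

theorem Body.not_rigid (b : Body V H L N pv V' E') (D : Finset (Sym2 ℕ)) (A : Finset ℕ)
    (hA : A ⊆ V) (hA2 : A.card + 2 ≤ V.card) (hLA : ∀ e ∈ L, e ∉ D → ∀ v ∈ e, v ∉ A)
    (hc : (H.filter fun h => h.1 ∈ A ∨ h.2 ∈ A).card < 2 * A.card) : ¬ Rigid V' (E' \ D) := by
  classical
  rintro ⟨F, hF, hI, hcF⟩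
  set G := H.filter fun h => h.1 ∈ A ∨ h.2 ∈ A
  have hG : G.card ≤ H.card := card_filter_le _ _
  have hGN := Nat.mul_le_mul_right N hG
  have c1 := b.card_aux hA G
  have c2 := b.card
  set A' := A ∪ (G ×ˢ range N).image fun p => pv p.1 p.2
  have hA' : A' ⊆ V' := by
    intro v hv
    rcases mem_union.1 hv with hv | hv
    · exact (b.hV v).2 (Or.inl (hA hv))
    · obtain ⟨p, hp, rfl⟩ := mem_image.1 hv
      exact (b.hV _).2 (Or.inr ⟨_, (mem_filter.1 (mem_product.1 hp).1).1, _,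
        mem_range.1 (mem_product.1 hp).2, rfl⟩)
  have c3 := card_sdiff_add_card_eq_card hA'
  set F1 := G.biUnion fun h => F.filter (InBody N pv h)
  have h1 : F1.card ≤ G.card * (2 * N + 1) := by
    refine card_biUnion_le_card_mul _ _ _ fun h _ => ?_
    have := (hI.mono (filter_subset (InBody N pv h) F)).le
      (X := insert h.1 (insert h.2 ((range N).image (pv h)))) (c := N + 2) (fun v hv => by
        obtain ⟨e, he, hv⟩ := mem_ends.1 hv
        rcases (mem_filter.1 he).2.mem hv with rfl | rfl | ⟨i, hi, rfl⟩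
        · simp
        · simp
        · exact mem_insert_of_mem (mem_insert_of_mem (mem_image_of_mem _ (mem_range.2 hi))))
      (by
        have a := card_insert_le h.1 (insert h.2 ((range N).image (pv h)))
        have a' := card_insert_le h.2 ((range N).image (pv h))
        have a'' := card_image_le (s := range N) (f := pv h)
        rw [card_range] at a''
        omega) (by omega)
    omega
  have h2 := (hI.mono (sdiff_subset (s := F) (t := F1))).le (X := V' \ A') (fun v hv => by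
    obtain ⟨e, he, hv⟩ := mem_ends.1 hv
    obtain ⟨he, he1⟩ := mem_sdiff.1 he
    obtain ⟨he2, he3⟩ := mem_sdiff.1 (hF he)
    have k : ∀ u ∈ V, u ∉ A → u ∈ V' \ A' := fun u h1 h2 =>
      mem_sdiff.2 ⟨(b.hV u).2 (Or.inl h1), fun h => by
        rcases mem_union.1 h with h | h
        · exact h2 h
        · obtain ⟨p, -, rfl⟩ := mem_image.1 h
          exact b.nV _ _ h1⟩
    rcases (b.hE e).1 he2 with hl | ⟨h, hh, hb⟩
    · exact k v (b.hL e hl v hv) (hLA e hl he3 v hv)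
    · have hn : h ∉ G := fun hg => he1 (mem_biUnion.2 ⟨h, hg, mem_filter.2 ⟨he, hb⟩⟩)
      have hn' : ¬ (h.1 ∈ A ∨ h.2 ∈ A) := fun h' => hn (mem_filter.2 ⟨hh, h'⟩)
      rcases hb.mem hv with rfl | rfl | ⟨i, hi, rfl⟩
      · exact k _ (b.hH h hh).2.1 fun h' => hn' (Or.inl h')
      · exact k _ (b.hH h hh).2.2 fun h' => hn' (Or.inr h')
      · refine mem_sdiff.2 ⟨(b.hV _).2 (Or.inr ⟨h, hh, i, hi, rfl⟩), fun h' => ?_⟩
        rcases mem_union.1 h' with h' | h'
        · exact b.nV _ _ (hA h')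
        · obtain ⟨p, hp, e⟩ := mem_image.1 h'
          exact hn ((b.inj _ _ _ _ e).1 ▸ (mem_product.1 hp).1)) le_rfl (by omega)
  have h3 := card_le_card_sdiff_add_card (s := F) (t := F1)
  have h4 : G.card * (2 * N + 1) = 2 * (G.card * N) + G.card := by ring
  omega

theorem card_ends_le (D : Finset (Sym2 ℕ)) : (ends D).card ≤ D.card * 2 :=
  card_biUnion_le_card_mul _ _ _ fun e _ => by
    rw [Sym2.card_toFinset]; split_ifs <;> omega

theorem Body.rigid (b : Body V H L N pv V' E') (D : Finset (Sym2 ℕ)) (hN : 2 * D.card + 2 ≤ N)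
    (hR : Rigid V ((H.image fun h => s(h.1, h.2)) ∪ (L \ D))) : Rigid V' (E' \ D) := by
  classical
  obtain ⟨F, hF, hI, hcF⟩ := hR
  have ex : ∀ h, ∃ p : ℕ × ℕ, p.1 < N ∧ p.2 < N ∧ p.1 ≠ p.2 ∧ pv h p.1 ∉ ends D ∧
      pv h p.2 ∉ ends D := by
    intro h
    have a := card_filter_add_card_filter_not (s := range N) (fun i => pv h i ∈ ends D)
    have a' : ((range N).filter fun i => pv h i ∈ ends D).card ≤ (ends D).card :=
      card_le_card_of_injOn (pv h) (fun i hi => (mem_filter.1 hi).2)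
        fun i _ j _ e => (b.inj _ _ _ _ e).2
    have a'' := card_ends_le D
    rw [card_range] at a
    obtain ⟨i, hi, j, hj, hne⟩ := one_lt_card.1
      (show 1 < ((range N).filter fun i => ¬ pv h i ∈ ends D).card by omega)
    exact ⟨(i, j), mem_range.1 (mem_filter.1 hi).1, mem_range.1 (mem_filter.1 hj).1, hne,
      (mem_filter.1 hi).2, (mem_filter.1 hj).2⟩
  choose p hp using ex
  have ex2 : ∀ e, ∃ h : ℕ × ℕ, e ∈ F → e ∉ L \ D → h ∈ H ∧ e = s(h.1, h.2) := by
    intro e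
    by_cases h : e ∈ F ∧ e ∉ L \ D
    · rcases mem_union.1 (hF h.1) with h' | h'
      · obtain ⟨x, hx, rfl⟩ := mem_image.1 h'
        exact ⟨x, fun _ _ => ⟨hx, rfl⟩⟩
      · exact absurd h' h.2
    · exact ⟨default, fun h1 h2 => absurd ⟨h1, h2⟩ h⟩
  choose σ hσ using ex2
  have hFV : ∀ e ∈ F, ∀ v ∈ e, v ∈ V := by
    intro e he v hv
    rcases mem_union.1 (hF he) with h' | h'
    · obtain ⟨x, hx, rfl⟩ := mem_image.1 h'
      rcases Sym2.mem_iff.1 hv with rfl | rfl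
      exacts [(b.hH x hx).2.1, (b.hH x hx).2.2]
    · exact b.hL e (mem_sdiff.1 h').1 v hv
  let top : Sym2 ℕ ⊕ (ℕ × ℕ) × ℕ × Bool → ℕ :=
    Sum.elim (fun e => pv (σ e) (p (σ e)).2) fun q => pv q.1 q.2.1
  let bot : Sym2 ℕ ⊕ (ℕ × ℕ) × ℕ × Bool → ℕ :=
    Sum.elim (fun e => (σ e).2) fun q =>
      if q.2.1 = (p q.1).1 then (if q.2.2 then q.1.1 else q.1.2)
      else if q.2.1 = (p q.1).2 then (if q.2.2 then q.1.1 else pv q.1 (p q.1).1)
      else (if q.2.2 then pv q.1 (p q.1).1 else pv q.1 (p q.1).2)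
  let sl : Sym2 ℕ ⊕ (ℕ × ℕ) × ℕ × Bool → Bool := Sum.elim (fun _ => true) fun q => q.2.2
  let en : Sym2 ℕ ⊕ (ℕ × ℕ) × ℕ × Bool → Sym2 ℕ := fun x =>
    if ∃ e ∈ L \ D, x = Sum.inl e then x.elim id fun _ => s(0, 0) else s(top x, bot x)
  have en1 : ∀ e ∈ L \ D, en (Sum.inl e) = e := fun e he => if_pos ⟨e, he, rfl⟩
  have en2 : ∀ e, e ∉ L \ D → en (Sum.inl e) = s(pv (σ e) (p (σ e)).2, (σ e).2) := fun e he =>
    if_neg (by rintro ⟨e', h, h'⟩; exact he (Sum.inl.inj h' ▸ h))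
  have en3 : ∀ q, en (Sum.inr q) = s(pv q.1 q.2.1, bot (Sum.inr q)) := fun q => if_neg (by simp)
  set B := F.disjSum (H ×ˢ range N ×ˢ (univ : Finset Bool))
  have mB : ∀ q, Sum.inr q ∈ B → q.1 ∈ H ∧ q.2.1 < N := fun q hq => by
    simpa [B] using hq
  have mB' : ∀ e, Sum.inl e ∈ B → e ∈ F := fun q hq => by simpa [B] using hq
  have key := sparse_image B en (by
    intro B' hB hne
    set X := ends (B'.image en)
    have mX : ∀ x ∈ B', ∀ v ∈ en x, v ∈ X := fun x hx v hv =>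
      mem_ends.2 ⟨_, mem_image_of_mem _ hx, hv⟩
    have cX := card_filter_add_card_filter_not (s := X) (fun v => v ∈ V)
    have clash : ∀ e q, Sum.inl e ∈ B' → e ∉ L \ D → Sum.inr q ∈ B' →
        top (Sum.inl e) = top (Sum.inr q) → q.2.2 = true → ∀ v ∈ e, v ∈ X := by
      rintro e ⟨h, w, s⟩ h1 h2 h3 h4 rfl v hv
      obtain ⟨rfl, rfl⟩ := b.inj _ _ _ _ h4
      rw [(hσ e (mB' e (hB h1)) h2).2] at hv
      rcases Sym2.mem_iff.1 hv with rfl | rfl
      · refine mX _ h3 _ ?_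
        rw [en3]
        simp [bot, (hp (σ e)).2.2.1.symm]
      · exact mX _ h1 _ (by rw [en2 e h2]; simp)
    by_cases hX : (X.filter fun v => v ∈ V).card ≤ 1
    · have two : ∀ e ∈ F, ¬ ∀ v ∈ e, v ∈ X := by
        intro e he h
        have a := hI {e} (by simpa using he) (by simp)
        have a' : ends {e} ⊆ X.filter fun v => v ∈ V := fun v hv => by
          obtain ⟨e', he', hv⟩ := mem_ends.1 hv
          rw [mem_singleton.1 he'] at hv
          exact mem_filter.2 ⟨h v hv, hFV e he v hv⟩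
        have := card_le_card a'
        rw [card_singleton] at a
        omega
      have nl : ∀ e, Sum.inl e ∈ B' → e ∉ L \ D := fun e he h =>
        two e (mB' e (hB he)) fun v hv => mX _ he v (by rwa [en1 e h])
      have r1 : ∀ h i, (∃ h', pv h i = pv h' (p h').1) ↔ i = (p h).1 := fun h i =>
        ⟨fun ⟨h', e⟩ => by obtain ⟨rfl, rfl⟩ := b.inj _ _ _ _ e; rfl, fun e => ⟨h, by rw [e]⟩⟩
      have r2 : ∀ h i, (∃ h', pv h i = pv h' (p h').2) ↔ i = (p h).2 := fun h i =>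
        ⟨fun ⟨h', e⟩ => by obtain ⟨rfl, rfl⟩ := b.inj _ _ _ _ e; rfl, fun e => ⟨h, by rw [e]⟩⟩
      have cl2 : ∀ e q, Sum.inl e ∈ B' → Sum.inr q ∈ B' → top (Sum.inl e) = top (Sum.inr q) →
          (sl (Sum.inl e) = sl (Sum.inr q) ∨ bot (Sum.inl e) = bot (Sum.inr q)) → False := by
        intro e q h1 h3 h4 h5
        by_cases hs : q.2.2 = true
        · exact two e (mB' e (hB h1)) (clash e q h1 (nl e h1) h3 h4 hs)
        · obtain ⟨h, w, s⟩ := q
          obtain ⟨rfl, rfl⟩ := b.inj _ _ _ _ h4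
          have := (b.hH _ (mB _ (hB h3)).1).2.2
          simp only at hs this
          simp only [sl, bot, Sum.elim_inl, Sum.elim_inr, (hp (σ e)).2.2.1.symm, hs, if_false,
            if_true, Bool.false_eq_true, Bool.not_eq_true] at h5
          rcases h5 with h5 | h5
          · exact absurd h5 (by simp)
          · exact b.nV _ _ (h5 ▸ this)
      refine deg2 B' hne en top bot sl (fun v => if v ∈ V then 0 else
        if ∃ h, v = pv h (p h).1 then 1 else if ∃ h, v = pv h (p h).2 then 2 else 3) ?_ ?_ ?_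
      · rintro (e | q) hx
        exacts [en2 e (nl e hx), en3 q]
      · rintro (e | ⟨h, w, s⟩) hx
        · have := (b.hH _ (hσ e (mB' e (hB hx)) (nl e hx)).1).2.2
          simp only [top, bot, Sum.elim_inl, this, if_true, b.nV, if_false]
          split_ifs <;> omega
        · have := (b.hH _ (mB _ (hB hx)).1).2
          have a := (hp h).2.2.1
          simp only at this
          simp only [top, bot, Sum.elim_inr, b.nV, if_false, r1, r2]
          by_cases c1 : w = (p h).1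
          · cases s <;> simp [c1, this.1, this.2]
          · by_cases c2 : w = (p h).2
            · cases s <;> simp [c2, this.1, b.nV, r1, a.symm]
            · cases s <;> simp [c1, c2, b.nV, r1, r2, a.symm]
      · rintro (e | q) hx (e' | q') hx' h4 h5
        · have := (b.inj _ _ _ _ h4).1
          rw [(hσ e (mB' e (hB hx)) (nl e hx)).2, (hσ e' (mB' e' (hB hx')) (nl e' hx')).2, this]
        · exact (cl2 e q' hx hx' h4 h5).elim
        · exact (cl2 e' q hx' hx h4.symm (h5.imp Eq.symm Eq.symm)).elim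
        · obtain ⟨h, w, s⟩ := q
          obtain ⟨h', w', s'⟩ := q'
          obtain ⟨rfl, rfl⟩ := b.inj _ _ _ _ h4
          obtain ⟨a1, a2, a3⟩ := b.hH _ (mB _ (hB hx)).1
          have a4 : h.1 ≠ pv h (p h).1 := fun e => b.nV _ _ (e ▸ a2)
          have a5 : pv h (p h).1 ≠ pv h (p h).2 := fun e => (hp h).2.2.1 (b.inj _ _ _ _ e).2
          simp only at a1
          rcases h5 with h5 | h5
          · simp only [sl, Sum.elim_inr] at h5
            rw [h5]
          · simp only [bot, Sum.elim_inr] at h5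
            cases s <;> cases s' <;> first | rfl | skip
            all_goals
              simp only [Bool.false_eq_true, if_true, if_false] at h5
              split_ifs at h5 <;> first | exact absurd h5 ‹_› | exact absurd h5.symm ‹_›
    · set B1 := F.filter fun e => Sum.inl e ∈ B' ∧ ∀ v ∈ e, v ∈ X
      have c1 := (hI.mono (show B1 ⊆ F from filter_subset _ _)).le
        (X := X.filter fun v => v ∈ V) (fun v hv => by
          obtain ⟨e, he, hv⟩ := mem_ends.1 hv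
          exact mem_filter.2 ⟨(mem_filter.1 he).2.2 v hv, hFV e (mem_filter.1 he).1 v hv⟩)
        le_rfl (by omega)
      have nb1 : ∀ e, Sum.inl e ∈ B' \ B1.image Sum.inl → ¬ ∀ v ∈ e, v ∈ X := fun e he h =>
        (mem_sdiff.1 he).2 (mem_image_of_mem _ (mem_filter.2
          ⟨mB' e (hB (mem_sdiff.1 he).1), (mem_sdiff.1 he).1, h⟩))
      have nl : ∀ e, Sum.inl e ∈ B' \ B1.image Sum.inl → e ∉ L \ D := fun e he h =>
        nb1 e he fun v hv => mX _ (mem_sdiff.1 he).1 v (by rwa [en1 e h])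
      have c2 := slots (B' \ B1.image Sum.inl) (X.filter fun v => ¬ v ∈ V)
        (fun x => (top x, sl x)) ∅ (by simp) (by
          rintro (e | q) hx
          · exact ⟨mem_filter.2 ⟨mX _ (mem_sdiff.1 hx).1 _ (by rw [en2 e (nl e hx)]; simp [top]),
              b.nV _ _⟩, by simp⟩
          · exact ⟨mem_filter.2 ⟨mX _ (mem_sdiff.1 hx).1 _ (by rw [en3]; simp [top]),
              b.nV _ _⟩, by simp⟩) (by
          rintro (e | q) hx (e' | q') hx' h4
          all_goals obtain ⟨h4, h5⟩ := Prod.mk.inj h4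
          · have := (b.inj _ _ _ _ h4).1
            rw [(hσ e (mB' e (hB (mem_sdiff.1 hx).1)) (nl e hx)).2,
              (hσ e' (mB' e' (hB (mem_sdiff.1 hx').1)) (nl e' hx')).2, this]
          · exact (nb1 e hx (clash e q' (mem_sdiff.1 hx).1 (nl e hx) (mem_sdiff.1 hx').1 h4
              h5.symm)).elim
          · exact (nb1 e' hx' (clash e' q (mem_sdiff.1 hx').1 (nl e' hx') (mem_sdiff.1 hx).1
              h4.symm h5)).elim
          · obtain ⟨h, w, s⟩ := q
            obtain ⟨h', w', s'⟩ := q'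
            obtain ⟨rfl, rfl⟩ := b.inj _ _ _ _ h4
            simp only [sl, Sum.elim_inr] at h5
            rw [h5])
      have c3 := card_le_card_sdiff_add_card (s := B') (t := B1.image Sum.inl)
      have c4 := card_image_le (s := B1)
        (f := (Sum.inl : Sym2 ℕ → Sym2 ℕ ⊕ (ℕ × ℕ) × ℕ × Bool))
      rw [card_empty] at c2
      omega)
  refine ⟨B.image en, fun e he => ?_, key.1, ?_⟩
  · obtain ⟨x, hx, rfl⟩ := mem_image.1 he
    have nD : ∀ u v, u ∉ ends D ∨ v ∉ ends D → s(u, v) ∉ D := fun u v h hD =>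
      h.elim (fun h => h (mem_ends.2 ⟨_, hD, by simp⟩)) fun h => h (mem_ends.2 ⟨_, hD, by simp⟩)
    rcases x with e | ⟨h, w, s⟩
    · by_cases hl : e ∈ L \ D
      · rw [en1 e hl]
        exact mem_sdiff.2 ⟨(b.hE e).2 (Or.inl (mem_sdiff.1 hl).1), (mem_sdiff.1 hl).2⟩
      · rw [en2 e hl]
        exact mem_sdiff.2 ⟨(b.hE _).2 (Or.inr ⟨_, (hσ e (mB' e hx) hl).1, _, (hp _).2.1,
          Or.inr (Or.inr rfl)⟩), nD _ _ (Or.inl (hp _).2.2.2.2)⟩
    · obtain ⟨h1, h2⟩ := mB _ hx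
      obtain ⟨a1, a2, a3, a4, a5⟩ := hp h
      rw [en3]
      simp only [bot, Sum.elim_inr] at h1 h2 ⊢
      refine mem_sdiff.2 ⟨(b.hE _).2 (Or.inr ⟨h, h1, w, h2, ?_⟩), nD _ _ ?_⟩
      · split_ifs with c1 c2 c3 c4 c5
        exacts [Or.inr (Or.inl rfl), Or.inr (Or.inr rfl), Or.inr (Or.inl rfl),
          Or.inl ⟨_, a1, c1, rfl⟩, Or.inl ⟨_, a1, c1, rfl⟩, Or.inl ⟨_, a2, c3, rfl⟩]
      · split_ifs with c1 c2 c3 c4 c5
        exacts [Or.inl (c1 ▸ a4), Or.inl (c1 ▸ a4), Or.inl (c3 ▸ a5), Or.inr a4, Or.inr a4,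
          Or.inr a5]
  · rw [key.2, card_disjSum, card_product, card_product, card_range, b.card]
    simp only [card_univ, Fintype.card_bool]
    have : H.card * (N * 2) = 2 * (H.card * N) := by ring
    omega

end Pool.Agent.H36.Rig
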