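import Pool.Agent.H36.Rig2
import Pool.Agent.H38.NP.Cook

/-!
The linkage that encodes a Hall violator instance.
-/

namespace Pool.Agent.H36.Rig

open Pool.Agent.H38.NP Finset

def vx (a b : ℕ) : ℕ := 2 * Nat.pair a b

@[simp] theorem vx_inj {a b c d : ℕ} : vx a b = vx c d ↔ a = c ∧ b = d := by
  simp [vx, Nat.pair_eq_pair]

def nd (r i : ℕ) : ℕ := if i = 0 then vx 0 0 else vx (r + 2) (i - 1)

def pt (I : List (ℕ × ℕ)) (r j : ℕ) : ℕ := if (r, j) ∈ I then vx 1 j else vx 0 1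

def Vl (m R : ℕ) : List ℕ := [vx 0 0, vx 0 1, vx 0 2] ++ (List.range m).map (fun j => vx 1 j) ++
  (List.range R).flatMap fun r => (List.range m).map fun j => vx (r + 2) j

def Hl (m R : ℕ) (I : List (ℕ × ℕ)) : List (ℕ × ℕ) :=
  [(vx 0 1, vx 0 0), (vx 0 2, vx 0 0), (vx 0 2, vx 0 1)] ++
    (List.range m).map (fun j => (vx 1 j, vx 0 0)) ++
    (List.range R).flatMap fun r => (nd r m, vx 0 2) ::
      (List.range m).flatMap fun j => [(vx (r + 2) j, nd r j), (vx (r + 2) j, pt I r j)]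

def Ls (m : ℕ) : Finset (Sym2 ℕ) := (range m).image fun j => s(vx 1 j, vx 0 1)

theorem mem_Vl {m R a b : ℕ} : vx a b ∈ Vl m R ↔
    (a = 0 ∧ b < 3) ∨ (a = 1 ∧ b < m) ∨ (2 ≤ a ∧ a < R + 2 ∧ b < m) := by
  simp only [Vl, List.mem_append, List.mem_cons, vx_inj, List.not_mem_nil, or_false,
    List.mem_map, List.mem_range, List.mem_flatMap]
  constructor
  · rintro ((h | ⟨j, hj, h⟩) | ⟨r, hr, j, hj, h⟩) <;> omega
  · rintro (h | h | h)
    · exact Or.inl (Or.inl (by omega))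
    · exact Or.inl (Or.inr ⟨b, h.2, h.1.symm, rfl⟩)
    · exact Or.inr ⟨a - 2, by omega, b, h.2.2, by omega, rfl⟩

theorem mem_Hl {m R : ℕ} {I : List (ℕ × ℕ)} {h : ℕ × ℕ} : h ∈ Hl m R I ↔
    h = (vx 0 1, vx 0 0) ∨ h = (vx 0 2, vx 0 0) ∨ h = (vx 0 2, vx 0 1) ∨
    (∃ j < m, h = (vx 1 j, vx 0 0)) ∨ (∃ r < R, h = (nd r m, vx 0 2)) ∨
    (∃ r < R, ∃ j < m, h = (vx (r + 2) j, nd r j)) ∨
    (∃ r < R, ∃ j < m, h = (vx (r + 2) j, pt I r j)) := by
  simp only [Hl, List.mem_append, List.mem_cons, List.not_mem_nil, or_false,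
    List.mem_map, List.mem_range, List.mem_flatMap]
  constructor
  · rintro (((h | h | h) | ⟨j, hj, h⟩) | ⟨r, hr, h | ⟨j, hj, h | h⟩⟩)
    exacts [Or.inl h, Or.inr (Or.inl h), Or.inr (Or.inr (Or.inl h)),
      Or.inr (Or.inr (Or.inr (Or.inl ⟨j, hj, h.symm⟩))),
      Or.inr (Or.inr (Or.inr (Or.inr (Or.inl ⟨r, hr, h⟩)))),
      Or.inr (Or.inr (Or.inr (Or.inr (Or.inr (Or.inl ⟨r, hr, j, hj, h⟩))))),
      Or.inr (Or.inr (Or.inr (Or.inr (Or.inr (Or.inr ⟨r, hr, j, hj, h⟩)))))]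
  · rintro (h | h | h | ⟨j, hj, h⟩ | ⟨r, hr, h⟩ | ⟨r, hr, j, hj, h⟩ | ⟨r, hr, j, hj, h⟩)
    exacts [Or.inl (Or.inl (Or.inl h)), Or.inl (Or.inl (Or.inr (Or.inl h))),
      Or.inl (Or.inl (Or.inr (Or.inr h))), Or.inl (Or.inr ⟨j, hj, h.symm⟩),
      Or.inr ⟨r, hr, Or.inl h⟩, Or.inr ⟨r, hr, Or.inr ⟨j, hj, Or.inl h⟩⟩,
      Or.inr ⟨r, hr, Or.inr ⟨j, hj, Or.inr h⟩⟩]

theorem card_Vl (m R : ℕ) : (Vl m R).toFinset.card ≤ 3 + m + R * m := by
  refine (List.toFinset_card_le _).trans (le_of_eq ?_)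
  simp [Vl, List.length_flatMap]
  omega

theorem Hl_ok {m R : ℕ} {I : List (ℕ × ℕ)} {h : ℕ × ℕ} (hh : h ∈ Hl m R I) :
    h.1 ≠ h.2 ∧ h.1 ∈ Vl m R ∧ h.2 ∈ Vl m R := by
  rcases mem_Hl.1 hh with rfl | rfl | rfl | ⟨j, hj, rfl⟩ | ⟨r, hr, rfl⟩ | ⟨r, hr, j, hj, rfl⟩ |
    ⟨r, hr, j, hj, rfl⟩
  all_goals simp only [nd, pt]
  all_goals (try split_ifs) <;> simp only [ne_eq, vx_inj, mem_Vl] <;> (try simp) <;> omega

theorem link_yes (m R : ℕ) (I : List (ℕ × ℕ)) (S : Finset ℕ) (hS : S ⊆ range m)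
    (hlt : (nb R I S).card < S.card) : ∃ A ⊆ (Vl m R).toFinset,
      A.card + 2 ≤ (Vl m R).toFinset.card ∧
      (∀ e ∈ Ls m, e ∉ S.image (fun j => s(vx 1 j, vx 0 1)) → ∀ v ∈ e, v ∉ A) ∧
      ((Hl m R I).toFinset.filter fun h => h.1 ∈ A ∨ h.2 ∈ A).card < 2 * A.card := by
  set T := nb R I S
  have hT : ∀ r ∈ T, r < R := fun r hr => mem_range.1 (mem_filter.1 hr).1
  set A := S.image (fun j => vx 1 j) ∪ (T ×ˢ range m).image fun p => vx (p.1 + 2) p.2
  have mA : ∀ a b, vx a b ∈ A ↔ (a = 1 ∧ b ∈ S) ∨ (2 ≤ a ∧ a - 2 ∈ T ∧ b < m) := by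
    intro a b
    simp only [A, mem_union, mem_image, vx_inj, mem_product, mem_range, Prod.exists]
    refine or_congr ⟨?_, ?_⟩ ⟨?_, ?_⟩
    · rintro ⟨j, hj, rfl, rfl⟩; exact ⟨rfl, hj⟩
    · rintro ⟨rfl, h⟩; exact ⟨b, h, rfl, rfl⟩
    · rintro ⟨r, j, ⟨h1, h2⟩, rfl, rfl⟩; exact ⟨by omega, by simpa using h1, h2⟩
    · rintro ⟨h1, h2, h3⟩; exact ⟨a - 2, b, ⟨h2, h3⟩, by omega, rfl⟩
  have hA : A ⊆ (Vl m R).toFinset := by
    intro v hv
    rcases mem_union.1 hv with hv | hv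
    · obtain ⟨j, hj, rfl⟩ := mem_image.1 hv
      exact List.mem_toFinset.2 (mem_Vl.2 (Or.inr (Or.inl ⟨rfl, mem_range.1 (hS hj)⟩)))
    · obtain ⟨p, hp, rfl⟩ := mem_image.1 hv
      have := hT _ (mem_product.1 hp).1
      exact List.mem_toFinset.2 (mem_Vl.2 (Or.inr (Or.inr ⟨by omega, by omega,
        mem_range.1 (mem_product.1 hp).2⟩)))
  have cA : A.card = S.card + T.card * m := by
    rw [card_union_of_disjoint, card_image_of_injOn, card_image_of_injOn, card_product,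
      card_range]
    · rintro ⟨a, b⟩ _ ⟨c, d⟩ _ e
      simp only [vx_inj] at e
      exact Prod.ext (by simp; omega) e.2
    · intro a _ b _ e
      exact (vx_inj.1 e).2
    · rw [disjoint_left]
      intro v h1 h2
      obtain ⟨j, -, rfl⟩ := mem_image.1 h1
      obtain ⟨p, -, e⟩ := mem_image.1 h2
      simp at e
  refine ⟨A, hA, ?_, ?_, ?_⟩
  · have : insert (vx 0 0) (insert (vx 0 1) A) ⊆ (Vl m R).toFinset :=
      insert_subset (by simp [mem_Vl]) (insert_subset (by simp [mem_Vl]) hA)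
    have := card_le_card this
    rwa [card_insert_of_notMem (by simp [mA]), card_insert_of_notMem (by simp [mA])] at this
  · intro e he hn v hv
    obtain ⟨j, -, rfl⟩ := mem_image.1 he
    rcases Sym2.mem_iff.1 hv with rfl | rfl
    · simp only [mA, true_and, not_or]
      exact ⟨fun h => hn (mem_image_of_mem _ h), by omega⟩
    · simp [mA]
  · have : ((Hl m R I).toFinset.filter fun h => h.1 ∈ A ∨ h.2 ∈ A) ⊆
        S.image (fun j => (vx 1 j, vx 0 0)) ∪ T.image (fun r => (nd r m, vx 0 2)) ∪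
        (T ×ˢ range m).image (fun p => (vx (p.1 + 2) p.2, nd p.1 p.2)) ∪
        (T ×ˢ range m).image (fun p => (vx (p.1 + 2) p.2, pt I p.1 p.2)) := by
      intro h hh
      obtain ⟨hh, ht⟩ := mem_filter.1 hh
      have k1 : ∀ r j, nd r j ∈ A → r ∈ T := fun r j h => by
        unfold nd at h
        split_ifs at h <;> simp [mA] at h
        exact h.1
      have k2 : ∀ r j, vx (r + 2) j ∈ A → r ∈ T := fun r j h => by
        simp [mA] at h
        exact h.1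
      have k3 : ∀ r j, r < R → pt I r j ∈ A → r ∈ T := fun r j hr h => by
        unfold pt at h
        split_ifs at h with c <;> simp [mA] at h
        exact mem_filter.2 ⟨mem_range.2 hr, j, h, c⟩
      simp only [mem_union]
      rcases mem_Hl.1 (List.mem_toFinset.1 hh) with rfl | rfl | rfl | ⟨j, hj, rfl⟩ | ⟨r, hr, rfl⟩ |
        ⟨r, hr, j, hj, rfl⟩ | ⟨r, hr, j, hj, rfl⟩
      · simp [mA] at ht
      · simp [mA] at ht
      · simp [mA] at ht
      · simp [mA] at ht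
        exact Or.inl (Or.inl (Or.inl (mem_image_of_mem _ ht)))
      · refine Or.inl (Or.inl (Or.inr (mem_image_of_mem _ (ht.elim (k1 r m) fun h => ?_))))
        simp [mA] at h
      · exact Or.inl (Or.inr (mem_image.2 ⟨(r, j), mem_product.2
          ⟨ht.elim (k2 r j) (k1 r j), mem_range.2 hj⟩, rfl⟩))
      · exact Or.inr (mem_image.2 ⟨(r, j), mem_product.2
          ⟨ht.elim (k2 r j) (k3 r j hr), mem_range.2 hj⟩, rfl⟩)
    have h1 := (card_le_card this).trans ((card_union_le _ _).trans (Nat.add_le_add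
      ((card_union_le _ _).trans (Nat.add_le_add ((card_union_le _ _).trans
        (Nat.add_le_add card_image_le card_image_le)) card_image_le)) card_image_le))
    rw [card_product, card_range] at h1
    omega

abbrev Bar := Unit ⊕ Unit ⊕ Unit ⊕ ℕ ⊕ ℕ ⊕ (ℕ × ℕ) ⊕ (ℕ × ℕ) ⊕ ℕ

def en (m : ℕ) (I : List (ℕ × ℕ)) (μ : ℕ → ℕ) : Bar → Sym2 ℕ
  | .inl _ => s(vx 0 1, vx 0 0)
  | .inr (.inl _) => s(vx 0 2, vx 0 0)
  | .inr (.inr (.inl _)) => s(vx 0 2, vx 0 1)
  | .inr (.inr (.inr (.inl j))) => s(vx 1 j, vx 0 0)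
  | .inr (.inr (.inr (.inr (.inl j)))) => s(vx 1 j, vx 0 1)
  | .inr (.inr (.inr (.inr (.inr (.inl p))))) => s(vx (p.1 + 2) p.2, nd p.1 p.2)
  | .inr (.inr (.inr (.inr (.inr (.inr (.inl p)))))) => s(vx (p.1 + 2) p.2, pt I p.1 p.2)
  | .inr (.inr (.inr (.inr (.inr (.inr (.inr j)))))) => s(nd (μ j) m, vx 0 2)

def fw (I : List (ℕ × ℕ)) : Bar → ℕ × ℕ × Bool
  | .inl _ => (vx 0 1, vx 0 0, false)
  | .inr (.inr (.inr (.inl j))) => (vx 1 j, vx 0 0, false)
  | .inr (.inr (.inr (.inr (.inl j)))) => (vx 1 j, vx 0 1, true)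
  | .inr (.inr (.inr (.inr (.inr (.inl p))))) => (vx (p.1 + 2) p.2, nd p.1 p.2, false)
  | .inr (.inr (.inr (.inr (.inr (.inr (.inl p)))))) => (vx (p.1 + 2) p.2, pt I p.1 p.2, true)
  | _ => (0, 0, false)

def bw (m : ℕ) (I : List (ℕ × ℕ)) (μ : ℕ → ℕ) : Bar → ℕ × ℕ × Bool
  | .inr (.inr (.inl _)) => (vx 0 2, vx 0 1, false)
  | .inr (.inr (.inr (.inr (.inl j)))) => (vx 1 j, vx 0 1, true)
  | .inr (.inr (.inr (.inr (.inr (.inl p))))) => (vx (p.1 + 2) (p.2 - 1), vx (p.1 + 2) p.2, false)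
  | .inr (.inr (.inr (.inr (.inr (.inr (.inl p)))))) => (vx (p.1 + 2) p.2, pt I p.1 p.2, true)
  | .inr (.inr (.inr (.inr (.inr (.inr (.inr j)))))) => (vx (μ j + 2) (m - 1), vx 0 2, false)
  | _ => (0, 0, false)

def own (m : ℕ) (μ ν : ℕ → ℕ) : Bar → ℕ × Bool
  | .inl _ => (vx 0 1, false)
  | .inr (.inl _) => (vx 0 2, false)
  | .inr (.inr (.inl _)) => (vx 0 2, true)
  | .inr (.inr (.inr (.inl j))) => (vx 1 j, false)
  | .inr (.inr (.inr (.inr (.inl j)))) => (vx 1 j, true)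
  | .inr (.inr (.inr (.inr (.inr (.inl p))))) =>
      if p.2 ≤ ν p.1 then (vx (p.1 + 2) p.2, false)
      else if p.2 - 1 = ν p.1 then (vx (p.1 + 2) (p.2 - 1), true)
      else (vx (p.1 + 2) (p.2 - 1), false)
  | .inr (.inr (.inr (.inr (.inr (.inr (.inl p)))))) =>
      if p.2 = ν p.1 then (vx 1 p.2, true) else (vx (p.1 + 2) p.2, true)
  | .inr (.inr (.inr (.inr (.inr (.inr (.inr j)))))) =>
      if m - 1 = j then (vx (μ j + 2) (m - 1), true) else (vx (μ j + 2) (m - 1), false)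

def bars (m R : ℕ) (S : Finset ℕ) : Finset Bar :=
  univ.disjSum (univ.disjSum (univ.disjSum ((range m).disjSum ((range m \ S).disjSum
    ((range R ×ˢ range m).disjSum ((range R ×ˢ range m).disjSum S))))))

def rk (f : ℕ → ℕ) (v : ℕ) : ℕ :=
  if (v / 2).unpair.1 = 0 then (v / 2).unpair.2 else if (v / 2).unpair.1 = 1 then 3
  else 4 + f (v / 2).unpair.2

theorem rk_vx (f : ℕ → ℕ) (a b : ℕ) :
    rk f (vx a b) = if a = 0 then b else if a = 1 then 3 else 4 + f b := by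
  simp [rk, vx]

theorem sparse_bars (m R : ℕ) (I : List (ℕ × ℕ)) (S : Finset ℕ) (hS : ∀ j ∈ S, j < m)
    (μ : ℕ → ℕ) (hμ : ∀ j ∈ S, (μ j, j) ∈ I) (inj : ∀ j ∈ S, ∀ j' ∈ S, μ j = μ j' → j = j') :
    ∀ B' ⊆ bars m R S, B'.Nonempty → B'.card + 3 ≤ 2 * (ends (B'.image (en m I μ))).card := by
  intro B' hB hne
  have mX : ∀ x ∈ B', ∀ v ∈ en m I μ x, v ∈ ends (B'.image (en m I μ)) := fun x hx v hv =>
    mem_ends.2 ⟨_, mem_image_of_mem _ hx, hv⟩
  by_cases h2 : vx 0 2 ∈ ends (B'.image (en m I μ))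
  by_cases h0 : vx 0 0 ∈ ends (B'.image (en m I μ))
  · obtain ⟨ν, n1, n2⟩ : ∃ ν : ℕ → ℕ, (∀ j ∈ S, ν (μ j) = j) ∧
        ∀ r, ν r < m → ν r ∈ S ∧ μ (ν r) = r := by
      classical
      refine ⟨fun r => if h : ∃ j ∈ S, μ j = r then h.choose else m, fun j hj => ?_, fun r hr => ?_⟩
      · have h : ∃ j' ∈ S, μ j' = μ j := ⟨j, hj, rfl⟩
        simp only [dif_pos h]
        exact inj _ h.choose_spec.1 _ hj h.choose_spec.2
      · by_cases h : ∃ j ∈ S, μ j = r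
        · simp only [dif_pos h]
          exact h.choose_spec
        · simp [dif_neg h] at hr
    obtain ⟨q, q1, q2⟩ : ∃ q, q ∈ ends (B'.image (en m I μ)) ∧
        (q = vx 0 1 ∨ (q = vx 0 2 ∧ .inr (.inr (.inl ())) ∉ B')) := by
      by_cases h1 : vx 0 1 ∈ ends (B'.image (en m I μ))
      · exact ⟨_, h1, Or.inl rfl⟩
      · exact ⟨_, h2, Or.inr ⟨rfl, fun h => h1 (mX _ h _ (by simp [en]))⟩⟩
    have := slots B' (ends (B'.image (en m I μ))) (own m μ ν)
      {(vx 0 0, false), (vx 0 0, true), (q, true)} (by simp [h0, q1]) ?_ ?_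
    · have hq : vx 0 0 ≠ q := by rcases q2 with rfl | ⟨rfl, -⟩ <;> simp
      rwa [card_insert_of_notMem (by simp), card_insert_of_notMem (by simp [hq]),
        card_singleton] at this
    · intro x hx
      have a := hB hx
      refine ⟨mX x hx _ ?_, ?_⟩
      · rcases x with _ | _ | _ | j | j | ⟨r, j⟩ | ⟨r, j⟩ | j <;> simp only [own, en]
        any_goals exact Sym2.mem_mk_left _ _
        · split_ifs with c1 c2
          · exact Sym2.mem_mk_left _ _
          all_goals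
            rw [nd, if_neg (by omega)]
            exact Sym2.mem_mk_right _ _
        · split_ifs with c1
          · simp [bars] at a
            have := n2 r (c1 ▸ a.2)
            rw [← c1] at this
            rw [pt, if_pos (this.2 ▸ hμ j this.1)]
            exact Sym2.mem_mk_right _ _
          · exact Sym2.mem_mk_left _ _
        · simp [bars] at a
          have := hS j a
          rw [nd, if_neg (by omega)]
          split_ifs <;> exact Sym2.mem_mk_left _ _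
      · rcases q2 with rfl | ⟨rfl, q2⟩ <;>
          rcases x with _ | _ | _ | j | j | ⟨r, j⟩ | ⟨r, j⟩ | j <;> simp only [own] <;>
          (try split_ifs) <;> first | exact absurd hx q2 | simp
    · intro x hx y hy e
      have a := hB hx
      have b := hB hy
      clear mX hB hx hy q1 q2 h0 h2 hne hμ
      rcases x with _ | _ | _ | j | j | ⟨r, j⟩ | ⟨r, j⟩ | j <;>
        rcases y with _ | _ | _ | j' | j' | ⟨r', j'⟩ | ⟨r', j'⟩ | j' <;>
        simp only [own] at e <;> (try split_ifs at e) <;> simp [bars] at a b e ⊢ <;>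
        first | omega | grind
  · have n0 : ∀ x ∈ B', vx 0 0 ∉ en m I μ x := fun x hx h => h0 (mX x hx _ h)
    refine deg2 B' hne _ (fun x => (bw m I μ x).1) (fun x => (bw m I μ x).2.1)
      (fun x => (bw m I μ x).2.2) (rk fun b => m - b) ?_ ?_ ?_
    · intro x hx
      have a := hB hx
      have b := n0 x hx
      rcases x with _ | _ | _ | j | j | ⟨r, j⟩ | ⟨r, j⟩ | j <;> simp only [bw, en, nd] at b ⊢ <;>
        (try split_ifs at b ⊢) <;> first | rfl | exact Sym2.eq_swap | simp at b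
    · intro x hx
      have a := hB hx
      have b := n0 x hx
      rcases x with _ | _ | _ | j | j | ⟨r, j⟩ | ⟨r, j⟩ | j <;>
        simp only [bw, en, nd, pt] at b ⊢ <;>
        (try split_ifs at b ⊢) <;> simp [bars, rk_vx] at a b ⊢ <;> omega
    · intro x hx y hy e f
      have a := hB hx
      have b := hB hy
      have c := n0 x hx
      have d := n0 y hy
      clear mX hB hx hy h2 hne hμ n0
      rcases x with _ | _ | _ | j | j | ⟨r, j⟩ | ⟨r, j⟩ | j <;>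
        rcases y with _ | _ | _ | j' | j' | ⟨r', j'⟩ | ⟨r', j'⟩ | j' <;>
        simp only [bw, en, nd, pt] at c d e f <;> (try split_ifs at c d e f) <;>
        simp [bars] at a b c d e f ⊢ <;>
        first | omega | grind
  · have n0 : ∀ x ∈ B', vx 0 2 ∉ en m I μ x := fun x hx h => h2 (mX x hx _ h)
    refine deg2 B' hne _ (fun x => (fw I x).1) (fun x => (fw I x).2.1)
      (fun x => (fw I x).2.2) (rk id) ?_ ?_ ?_
    · intro x hx
      have b := n0 x hx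
      rcases x with _ | _ | _ | j | j | ⟨r, j⟩ | ⟨r, j⟩ | j <;> simp only [fw, en] at b ⊢ <;>
        first | rfl | simp at b
    · intro x hx
      have a := hB hx
      have b := n0 x hx
      rcases x with _ | _ | _ | j | j | ⟨r, j⟩ | ⟨r, j⟩ | j <;>
        simp only [fw, en, nd, pt] at b ⊢ <;>
        (try split_ifs at b ⊢) <;> simp [bars, rk_vx] at a b ⊢ <;> omega
    · intro x hx y hy e f
      have a := hB hx
      have b := hB hy
      have c := n0 x hx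
      have d := n0 y hy
      clear mX hB hx hy h2 hne hμ n0
      rcases x with _ | _ | _ | j | j | ⟨r, j⟩ | ⟨r, j⟩ | j <;>
        rcases y with _ | _ | _ | j' | j' | ⟨r', j'⟩ | ⟨r', j'⟩ | j' <;>
        simp only [fw, en, nd, pt] at c d e f <;> (try split_ifs at c d e f) <;>
        simp [bars] at a b c d e f ⊢ <;>
        first | omega | grind

theorem link_no (m R : ℕ) (I : List (ℕ × ℕ)) (D : Finset (Sym2 ℕ))
    (hv : ¬ Viol (m, R, I, D.card)) : Rigid (Vl m R).toFinset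
      (((Hl m R I).toFinset.image fun h => s(h.1, h.2)) ∪ (Ls m \ D)) := by
  set S := (range m).filter fun j => s(vx 1 j, vx 0 1) ∈ D
  have hS : S ⊆ range m := filter_subset _ _
  have cS : S.card ≤ D.card := card_le_card_of_injOn (fun j => s(vx 1 j, vx 0 1))
    (fun j hj => (mem_filter.1 hj).2) fun a _ b _ e => by simpa using e
  obtain ⟨f, f1, f2⟩ := (all_card_le_biUnion_card_iff_exists_injective
    (fun j : S => (range R).filter fun r => (r, j.1) ∈ I)).1 (by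
      intro s
      by_contra hlt
      refine hv ⟨s.map (Function.Embedding.subtype _), fun j hj => ?_, ?_, ?_⟩
      · obtain ⟨x, -, rfl⟩ := mem_map.1 hj
        exact hS x.2
      · refine le_trans (card_le_card fun j hj => ?_) cS
        obtain ⟨x, -, rfl⟩ := mem_map.1 hj
        exact x.2
      · rw [card_map]
        refine lt_of_le_of_lt (card_le_card fun r hr => ?_) (not_le.1 hlt)
        obtain ⟨hr, j, hj, h⟩ := mem_filter.1 hr
        obtain ⟨x, hx, rfl⟩ := mem_map.1 hj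
        exact mem_biUnion.2 ⟨x, hx, mem_filter.2 ⟨hr, h⟩⟩)
  obtain ⟨μ, m1, m2⟩ : ∃ μ : ℕ → ℕ, (∀ j ∈ S, μ j < R ∧ (μ j, j) ∈ I) ∧
      ∀ j ∈ S, ∀ j' ∈ S, μ j = μ j' → j = j' := by
    refine ⟨fun j => if h : j ∈ S then f ⟨j, h⟩ else 0, fun j hj => ?_, fun j hj j' hj' e => ?_⟩
    · simp only [dif_pos hj]
      exact ⟨mem_range.1 (mem_filter.1 (f2 ⟨j, hj⟩)).1, (mem_filter.1 (f2 ⟨j, hj⟩)).2⟩
    · simp only [dif_pos hj, dif_pos hj'] at e
      exact congrArg Subtype.val (f1 e)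
  have key := sparse_image _ _ (sparse_bars m R I S (fun j hj => mem_range.1 (hS hj)) μ
    (fun j hj => (m1 j hj).2) m2)
  have sub : (bars m R S).image (en m I μ) ⊆
      ((Hl m R I).toFinset.image fun h => s(h.1, h.2)) ∪ (Ls m \ D) := by
    intro e he
    obtain ⟨x, hx, rfl⟩ := mem_image.1 he
    have k : ∀ u v, (u, v) ∈ Hl m R I → s(u, v) ∈
        ((Hl m R I).toFinset.image fun h => s(h.1, h.2)) ∪ (Ls m \ D) := fun u v h =>
      mem_union_left _ (mem_image.2 ⟨(u, v), List.mem_toFinset.2 h, rfl⟩)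
    rcases x with _ | _ | _ | j | j | ⟨r, j⟩ | ⟨r, j⟩ | j <;> simp [bars] at hx
    · exact k _ _ (mem_Hl.2 (Or.inl rfl))
    · exact k _ _ (mem_Hl.2 (Or.inr (Or.inl rfl)))
    · exact k _ _ (mem_Hl.2 (Or.inr (Or.inr (Or.inl rfl))))
    · exact k _ _ (mem_Hl.2 (Or.inr (Or.inr (Or.inr (Or.inl ⟨j, hx, rfl⟩)))))
    · exact mem_union_right _ (mem_sdiff.2 ⟨mem_image_of_mem _ (mem_range.2 hx.1),
        fun h => hx.2 (mem_filter.2 ⟨mem_range.2 hx.1, h⟩)⟩)
    · exact k _ _ (mem_Hl.2 (Or.inr (Or.inr (Or.inr (Or.inr (Or.inr (Or.inl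
        ⟨r, hx.1, j, hx.2, rfl⟩)))))))
    · exact k _ _ (mem_Hl.2 (Or.inr (Or.inr (Or.inr (Or.inr (Or.inr (Or.inr
        ⟨r, hx.1, j, hx.2, rfl⟩)))))))
    · exact k _ _ (mem_Hl.2 (Or.inr (Or.inr (Or.inr (Or.inr (Or.inl ⟨_, (m1 j hx).1, rfl⟩))))))
  refine ⟨_, sub, key.1, ?_⟩
  have c1 : (bars m R S).card = 1 + (1 + (1 + (m + ((range m \ S).card +
      (R * m + (R * m + S.card)))))) := by simp [bars]
  have c2 := card_sdiff_add_card_eq_card hS
  have c3 := card_Vl m R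
  have c4 := key.1.le (X := (Vl m R).toFinset) (fun v hv => by
    obtain ⟨e, he, hv⟩ := mem_ends.1 hv
    rcases mem_union.1 (sub he) with h | h
    · obtain ⟨x, hx, rfl⟩ := mem_image.1 h
      have := Hl_ok (List.mem_toFinset.1 hx)
      rcases Sym2.mem_iff.1 hv with rfl | rfl
      exacts [List.mem_toFinset.2 this.2.1, List.mem_toFinset.2 this.2.2]
    · obtain ⟨j, hj, rfl⟩ := mem_image.1 (mem_sdiff.1 h).1
      rcases Sym2.mem_iff.1 hv with rfl | rfl <;> simp [mem_Vl, mem_range.1 hj]) le_rfl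
    (one_lt_card.2 ⟨vx 0 0, by simp [mem_Vl], vx 0 1, by simp [mem_Vl], by simp⟩)
  rw [card_range] at c2
  rw [key.2] at c4 ⊢
  omega

def pv (h : ℕ × ℕ) (i : ℕ) : ℕ := 2 * Nat.pair (Nat.pair h.1 h.2) i + 1

def red (p : ℕ × ℕ × List (ℕ × ℕ) × ℕ) : Inst :=
  (Vl p.1 p.2.1 ++ (Hl p.1 p.2.1 p.2.2.1).flatMap fun h =>
      (List.range (2 * p.2.2.2 + 2)).map fun i => pv h i,
    (List.range p.1).map (fun j => (vx 1 j, vx 0 1)) ++ (Hl p.1 p.2.1 p.2.2.1).flatMap fun h =>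
      (List.range (2 * p.2.2.2 + 2)).flatMap fun i => (pv h i, h.1) :: (pv h i, h.2) ::
        ((List.range (2 * p.2.2.2 + 2)).filter fun j => decide (i ≠ j)).map
          fun j => (pv h i, pv h j),
    p.2.2.2)

theorem pt_red : PT red := by
  unfold red Hl Vl pv nd pt vx
  fun_prop

theorem red_body (m R : ℕ) (I : List (ℕ × ℕ)) (K : ℕ) :
    Body (Vl m R).toFinset (Hl m R I).toFinset (Ls m) (2 * K + 2) pv
      (red (m, R, I, K)).1.toFinset (edges (red (m, R, I, K))) where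
  inj := by
    rintro ⟨a, b⟩ i ⟨c, d⟩ j e
    simpa [pv, Nat.pair_eq_pair] using e
  nV := by
    intro h i hv
    simp only [Vl, pv, vx, List.mem_toFinset, List.mem_append, List.mem_cons, List.not_mem_nil,
      List.mem_map, List.mem_flatMap, or_false] at hv
    rcases hv with (hv | ⟨j, -, hv⟩) | ⟨r, -, j, -, hv⟩ <;> omega
  hH := fun h hh => by simpa using Hl_ok (List.mem_toFinset.1 hh)
  hL := by
    intro e he v hv
    obtain ⟨j, hj, rfl⟩ := mem_image.1 he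
    rcases Sym2.mem_iff.1 hv with rfl | rfl <;> simp [mem_Vl, mem_range.1 hj]
  hV := by
    intro v
    simp only [red, List.mem_toFinset, List.mem_append, List.mem_flatMap, List.mem_map,
      List.mem_range, eq_comm (a := v)]
  hE := by
    intro e
    simp only [red, edges, Ls, InBody, List.mem_toFinset, List.map_append, List.mem_append,
      List.mem_flatMap, List.mem_map, List.mem_range, mem_image, mem_range, List.mem_cons,
      List.mem_filter, decide_eq_true_eq]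
    refine or_congr ⟨?_, ?_⟩ ⟨?_, ?_⟩
    · rintro ⟨_, ⟨j, hj, rfl⟩, rfl⟩
      exact ⟨j, hj, rfl⟩
    · rintro ⟨j, hj, rfl⟩
      exact ⟨_, ⟨j, hj, rfl⟩, rfl⟩
    · rintro ⟨_, ⟨h, hh, i, hi, rfl | rfl | ⟨j, ⟨hj, hne⟩, rfl⟩⟩, rfl⟩
      exacts [⟨h, hh, i, hi, Or.inr (Or.inl rfl)⟩, ⟨h, hh, i, hi, Or.inr (Or.inr rfl)⟩,
        ⟨h, hh, i, hi, Or.inl ⟨j, hj, hne, rfl⟩⟩]
    · rintro ⟨h, hh, i, hi, ⟨j, hj, hne, rfl⟩ | rfl | rfl⟩
      exacts [⟨_, ⟨h, hh, i, hi, Or.inr (Or.inr ⟨j, ⟨hj, hne⟩, rfl⟩)⟩, rfl⟩,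
        ⟨_, ⟨h, hh, i, hi, Or.inl rfl⟩, rfl⟩, ⟨_, ⟨h, hh, i, hi, Or.inr (Or.inl rfl)⟩, rfl⟩]

theorem cut_nph : NPH Valid SmallCut := by
  refine viol_nph.reduce red pt_red ?_
  rintro ⟨m, R, I, K⟩ -
  have b := red_body m R I K
  refine ⟨⟨fun e he => ?_, ?_⟩, ?_, ?_⟩
  · have k : ∀ v, v ∈ (red (m, R, I, K)).1 ↔ _ := fun v => List.mem_toFinset.symm.trans (b.hV v)
    simp only [red, List.mem_append, List.mem_flatMap, List.mem_map, List.mem_range,
      List.mem_cons, List.mem_filter, decide_eq_true_eq] at he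
    rcases he with ⟨j, hj, rfl⟩ | ⟨h, hh, i, hi, he⟩
    · exact ⟨by simp, (k _).2 (Or.inl (by simp [mem_Vl, hj])), (k _).2 (Or.inl (by simp [mem_Vl]))⟩
    · have hh' := List.mem_toFinset.2 hh
      obtain ⟨-, a1, a2⟩ := b.hH h hh'
      rcases he with rfl | rfl | ⟨j, ⟨hj, hne⟩, rfl⟩
      · exact ⟨fun e => b.nV h i (by rw [show pv h i = h.1 from e]; exact a1),
          (k _).2 (Or.inr ⟨h, hh', i, hi, rfl⟩), (k _).2 (Or.inl a1)⟩
      · exact ⟨fun e => b.nV h i (by rw [show pv h i = h.2 from e]; exact a2),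
          (k _).2 (Or.inr ⟨h, hh', i, hi, rfl⟩), (k _).2 (Or.inl a2)⟩
      · exact ⟨fun e => hne (b.inj _ _ _ _ e).2, (k _).2 (Or.inr ⟨h, hh', i, hi, rfl⟩),
          (k _).2 (Or.inr ⟨h, hh', j, hj, rfl⟩)⟩
  · have := b.rigid ∅ (by simp) (link_no m R I ∅ (by
      rintro ⟨S, -, h1, h2⟩
      simp only [card_empty] at h1 h2
      omega))
    rwa [sdiff_empty] at this
  · rintro ⟨S, h1, h2, h3⟩
    obtain ⟨A, a1, a2, a3, a4⟩ := link_yes m R I S h1 h3
    refine ⟨S.image fun j => s(vx 1 j, vx 0 1), fun e he => (b.hE e).2 (Or.inl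
      (image_subset_image h1 he)), card_image_le.trans h2, b.not_rigid _ A a1 a2 a3 a4⟩
  · rintro ⟨D, -, h1, h2⟩
    by_contra hv
    have h1 : D.card ≤ K := h1
    refine h2 (b.rigid D (by omega) (link_no m R I D ?_))
    rintro ⟨S, s1, s2, s3⟩
    exact hv ⟨S, s1, le_trans s2 h1, s3⟩

end Pool.Agent.H36.Rig
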