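import Pool.Agent.H38.NP.Defs

/-!
The 2-dimensional rigidity matroid as a count matroid, and the minimum cut problem.
-/

namespace Pool.Agent.H36.Rig

/-- The set of end vertices of a set of edges. -/
def ends (F : Finset (Sym2 ℕ)) : Finset ℕ := F.biUnion Sym2.toFinset

/-- Independence in the 2-dimensional rigidity matroid: `|F'| ≤ 2 |V(F')| - 3` for every
nonempty `F' ⊆ F`. -/
def Indep (F : Finset (Sym2 ℕ)) : Prop :=
  ∀ F' ⊆ F, F'.Nonempty → F'.card + 3 ≤ 2 * (ends F').card

/-- The graph with vertex set `V` and edge set `A` is rigid in the plane: its rigidity matroid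
has an independent set of size `2 |V| - 3`. -/
def Rigid (V : Finset ℕ) (A : Finset (Sym2 ℕ)) : Prop :=
  ∃ F ⊆ A, Indep F ∧ F.card + 3 = 2 * V.card

/-- An input: list of vertices, list of edges, and a bound. -/
abbrev Inst := List ℕ × List (ℕ × ℕ) × ℕ

/-- The edge set of an input (unordered pairs, so the graph is simple). -/
def edges (I : Inst) : Finset (Sym2 ℕ) := (I.2.1.map fun e => s(e.1, e.2)).toFinset

/-- The input is a loopless graph that is rigid in the plane. -/
def Valid (I : Inst) : Prop :=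
  (∀ e ∈ I.2.1, e.1 ≠ e.2 ∧ e.1 ∈ I.1 ∧ e.2 ∈ I.1) ∧ Rigid I.1.toFinset (edges I)

/-- At most `K` edges can be deleted so that the graph is no longer rigid: `c(G) ≤ K`. -/
def SmallCut (I : Inst) : Prop :=
  ∃ D ⊆ edges I, D.card ≤ I.2.2 ∧ ¬ Rigid I.1.toFinset (edges I \ D)

end Pool.Agent.H36.Rig
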