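import Pool.Agent.H46.Steinitz

/-!
Small solutions of integer linear systems, from the Steinitz lemma.
-/

namespace Pool.Agent.H36.Small

open Finset Pool.Agent.H46.Steinitz

theorem zero {ι D : Type} [DecidableEq ι] [Fintype D] (u : ι → D → ℤ) (B : ℕ)
    (hu : ∀ i k, |u i k| ≤ B) (A : Finset ι) (tot : ∑ i ∈ A, u i = 0)
    (c : (2 * Fintype.card D * B + 1) ^ Fintype.card D < #A) :
    ∃ U ⊆ A, U.Nonempty ∧ (A \ U).Nonempty ∧ ∑ i ∈ U, u i = 0 := by
  classical
  set d := Fintype.card D with hd
  let e := Fintype.equivFin D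
  obtain ⟨z, -⟩ := card_pos.1 (show 0 < #A by omega)
  obtain ⟨f, f1, f2⟩ := order (fun o j => (u o (e.symm j) : ℝ)) B
    (fun i j => by exact_mod_cast hu _ _) (by positivity) z #A A rfl (by
      by_cases h : #A ≤ d
      · exact .inl h
      have hn' : (0 : ℝ) < #A := by exact_mod_cast (by omega : 0 < #A)
      have hmn : (d : ℝ) ≤ #A := by exact_mod_cast (by omega : d ≤ #A)
      refine .inr ⟨fun _ => ((#A : ℝ) - d) / #A, fun i _ => ⟨div_nonneg (by linarith) hn'.le, ?_⟩, ?_,
        fun j => ?_⟩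
      · rw [div_le_one hn']
        have : (0 : ℝ) ≤ d := by positivity
        linarith
      · simp; field_simp; rfl
      · have := congrFun tot (e.symm j)
        rw [Finset.sum_apply] at this
        rw [← mul_sum, ← Int.cast_sum, this]; simp)
  have inj : Set.InjOn f (range #A) := card_image_iff.1 (by rw [f1, card_range])
  have key : ∀ r s, r < s → s < #A → ∑ i ∈ range r, u (f i) = ∑ i ∈ range s, u (f i) →
      ∃ U ⊆ A, U.Nonempty ∧ (A \ U).Nonempty ∧ ∑ i ∈ U, u i = 0 := fun r s h hs x => by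
    have sub : Ico r s ⊆ range #A := fun i hi => by simp at hi ⊢; omega
    refine ⟨(Ico r s).image f, f1 ▸ image_subset_image sub, (nonempty_Ico.2 h).image _,
      ⟨f s, mem_sdiff.2 ⟨f1 ▸ mem_image_of_mem _ (mem_range.2 hs), fun h => ?_⟩⟩, ?_⟩
    · obtain ⟨i, hi, y⟩ := mem_image.1 h
      have := inj (sub hi) (mem_range.2 hs) y
      simp at hi; omega
    · rw [sum_image (inj.mono sub), sum_Ico_eq_sub _ h.le, x, sub_self]
  obtain ⟨r, hr, s, hs, n, x⟩ := exists_ne_map_eq_of_card_lt_of_maps_to (s := range #A)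
    (t := Fintype.piFinset fun _ : D => Icc (-(d * B : ℤ)) (d * B))
    (f := fun r => ∑ i ∈ range r, u (f i)) (by
      rw [card_range, Fintype.card_piFinset, prod_const, card_univ, Int.card_Icc]
      refine lt_of_eq_of_lt ?_ c
      congr 1
      zify
      rw [Int.toNat_of_nonneg (by have : (0 : ℤ) ≤ d * B := by positivity
                                  omega)]; ring) fun r hr => by
      simp only [coe_range, Set.mem_Iio] at hr
      simp only [Fintype.coe_piFinset, Set.mem_pi, Set.mem_univ, coe_Icc, forall_const, Finset.sum_apply]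
      intro k
      have := f2 r hr.le (e k)
      rw [Equiv.symm_apply_apply, ← Int.cast_sum] at this
      exact abs_le.1 (by exact_mod_cast this)
  rcases lt_or_gt_of_ne n with h | h
  exacts [key r s h (mem_range.1 hs) x, key s r h (mem_range.1 hr) x.symm]

theorem fin {ι D : Type} [DecidableEq ι] [Fintype D] (w : ι → D → ℤ) (b : D → ℤ) (B : ℕ)
    (hw : ∀ i k, |w i k| ≤ B) (hb : ∀ k, |b k| ≤ B) (A : Finset ι) (hA : ∑ i ∈ A, w i = b) :
    ∃ A' : Finset ι, ∑ i ∈ A', w i = b ∧ #A' ≤ (2 * Fintype.card D * B + 1) ^ Fintype.card D := by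
  induction hk : #A using Nat.strong_induction_on generalizing A with | _ k ih
  by_cases c : #A ≤ (2 * Fintype.card D * B + 1) ^ Fintype.card D
  · exact ⟨A, hA, c⟩
  have tot : ∑ o ∈ insertNone A, o.elim (-b) w = 0 := by simp [sum_insertNone, hA]
  obtain ⟨U, h1, h2, h3, h4⟩ := zero (fun o => o.elim (-b) w) B
    (fun o k => by cases o <;> simp [hw, hb]) (insertNone A) tot (by rw [card_insertNone]; omega)
  have key : ∀ W ⊆ insertNone A, W.Nonempty → none ∉ W → ∑ o ∈ W, o.elim (-b) w = 0 →
      ∃ A' : Finset ι, ∑ i ∈ A', w i = b ∧ #A' ≤ (2 * Fintype.card D * B + 1) ^ Fintype.card D :=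
    fun W w1 w2 w3 w4 => by
      have s : eraseNone W ⊆ A := fun i hi => by simpa using w1 (mem_eraseNone.1 hi)
      have e : W = (eraseNone W).map Function.Embedding.some := by
        rw [map_some_eraseNone, erase_eq_of_notMem w3]
      have p : 0 < #(eraseNone W) := by rw [← card_map Function.Embedding.some, ← e]; exact w2.card_pos
      have := card_le_card s
      refine ih _ ?_ (A \ eraseNone W) ?_ rfl
      · rw [card_sdiff_of_subset s]; omega
      · rw [e, sum_map] at w4
        rw [sum_sdiff_eq_sub s, hA]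
        exact sub_eq_self.2 w4
  by_cases n : none ∈ U
  · exact key _ sdiff_subset h3 (fun h => (mem_sdiff.1 h).2 n) (by rw [sum_sdiff_eq_sub h1, tot, h4, sub_zero])
  · exact key U h1 h2 n h4

/-- a solvable system in natural numbers has a small solution -/
theorem small {J D : Type} [Fintype D] (a : J → D → ℤ) (B : ℕ) (ha : ∀ i k, |a i k| ≤ B)
    (s : Multiset J) (hb : ∀ k, |(s.map a).sum k| ≤ B) : ∃ t : Multiset J,
      (t.map a).sum = (s.map a).sum ∧ t.card ≤ (2 * Fintype.card D * B + 1) ^ Fintype.card D := by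
  classical
  obtain ⟨A, h1, h2⟩ := fin (fun p : J × ℕ => a p.1) _ B (fun _ => ha _) hb s.toEnumFinset (by
    conv_rhs => rw [← s.map_toEnumFinset_fst, Multiset.map_map]
    rfl)
  exact ⟨A.val.map Prod.fst, by rw [Multiset.map_map, ← h1]; rfl, by simpa using h2⟩

end Pool.Agent.H36.Small
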