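import Pool.Agent.H36.RstDefs
import Pool.Agent.H36.Small

/-!
Flows in automata: Euler trails and a positive circulation with equal letter counts.
-/

namespace Pool.Agent.H36.Rst

open Finset

variable {n m : ℕ} (δ : Fin m → Fin n → Fin n)

theorem prod_mat (w : List (Fin m)) (q p) :
    (w.map (mat δ)).prod q p = if run δ p w.reverse = q then 1 else 0 := by
  induction w generalizing q with
  | nil => simp [run, Matrix.one_apply, eq_comm]
  | cons i w ih =>
    simp only [List.map_cons, List.prod_cons, Matrix.mul_apply, ih, mul_ite, mul_one, mul_zero, sum_ite_eq]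
    simp [run, mat]

theorem Primitive.words (h : Primitive δ) : ∃ α : Fin m → ℕ, 1 ≤ ∑ i, α i ∧
    ∀ p q, ∃ w : List (Fin m), (∀ i, w.count i = α i) ∧ run δ p w = q := by
  obtain ⟨α, h1, h⟩ := h
  refine ⟨α, h1, fun p q => ?_⟩
  have := (h q p).ne'
  rw [hurwitz, Matrix.sum_apply] at this
  obtain ⟨w, hw, e⟩ := exists_ne_zero_of_sum_ne_zero this
  rw [prod_mat] at e
  exact ⟨(List.ofFn w).reverse, fun i => by rw [List.count_reverse]; exact (mem_filter.1 hw).2 i,
    by simpa using e⟩

def dv (p q : Fin n) : Fin n ⊕ Fin m → ℤ := Pi.single (.inl q) 1 - Pi.single (.inl p) 1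
def col (e : Fin n × Fin m) : Fin n ⊕ Fin m → ℤ := dv e.1 (δ e.2 e.1) + Pi.single (.inr e.2) 1
def Φ {J D : Type} (a : J → D → ℤ) : Multiset J →+ (D → ℤ) :=
  Multiset.sumAddMonoidHom.comp (Multiset.mapAddMonoidHom a)
theorem Φ_eq {J D : Type} (a : J → D → ℤ) (s) : Φ a s = (s.map a).sum := rfl
@[simp] theorem Φ_cons {J D : Type} (a : J → D → ℤ) (e s) : Φ a (e ::ₘ s) = a e + Φ a s := by
  simp [Φ_eq]
@[simp] theorem Φ_one {J D : Type} (a : J → D → ℤ) (e) : Φ a {e} = a e := by simp [Φ_eq]

def edges : Fin n → List (Fin m) → Multiset (Fin n × Fin m)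
  | _, [] => 0
  | p, i :: w => (p, i) ::ₘ edges (δ i p) w

theorem run_cons (p i w) : run δ p (i :: w) = run δ (δ i p) w := rfl
theorem run_append (p w v) : run δ p (w ++ v) = run δ (run δ p w) v := List.foldl_append

theorem edges_append (p w v) : edges δ p (w ++ v) = edges δ p w + edges δ (run δ p w) v := by
  induction w generalizing p with
  | nil => simp [edges, run]
  | cons i w ih => simp [edges, ih, run_cons]

theorem mem_edges {p w u i} (h : (u, i) ∈ edges δ p w) :
    ∃ w1 w2, w = w1 ++ i :: w2 ∧ run δ p w1 = u := by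
  induction w generalizing p with
  | nil => simp [edges] at h
  | cons j w ih =>
    rcases Multiset.mem_cons.1 h with h | h
    · obtain ⟨rfl, rfl⟩ := Prod.ext_iff.1 h
      exact ⟨[], w, rfl, rfl⟩
    · obtain ⟨a, b, rfl, e⟩ := ih h
      exact ⟨j :: a, b, rfl, e⟩

theorem Φ_edges (p w) : Φ (col δ) (edges δ p w) =
    dv p (run δ p w) + Sum.elim (fun _ => 0) fun i => (w.count i : ℤ) := by
  induction w generalizing p with
  | nil => ext (k | k) <;> simp [edges, dv, run]
  | cons i w ih =>
    rw [edges, Φ_cons, ih, run_cons]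
    ext (k | k) <;> simp [col, dv, Pi.single_apply, List.count_cons]
    rw [add_comm]; simp only [eq_comm]

theorem path (x : Multiset (Fin n × Fin m)) (p q)
    (h : ∀ u, Φ (col δ) x (.inl u) = dv (m := m) p q (.inl u)) :
    ∃ w, run δ p w = q ∧ edges δ p w ≤ x := by
  induction hk : x.card generalizing x p with
  | zero =>
    have := h p
    rw [Multiset.card_eq_zero.1 hk] at this
    by_cases e : p = q
    · exact ⟨[], e, Multiset.zero_le _⟩
    · simp [dv, e] at this
  | succ k ih =>
    by_cases e : p = q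
    · exact ⟨[], e, Multiset.zero_le _⟩
    obtain ⟨i, hi⟩ : ∃ i, (p, i) ∈ x := by
      by_contra c
      have h0 : 0 ≤ Φ (col δ) x (.inl p) := by
        rw [Φ_eq, Pi.multiset_sum_apply]
        refine Multiset.sum_nonneg fun a ha => ?_
        simp only [Multiset.mem_map] at ha
        obtain ⟨_, ⟨⟨u, i⟩, hu, rfl⟩, rfl⟩ := ha
        have : p ≠ u := by rintro rfl; exact c ⟨i, hu⟩
        simp [col, dv, Pi.single_apply, this]
        split_ifs <;> simp
      rw [h] at h0
      simp [dv, e] at h0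
    obtain ⟨y, rfl⟩ := Multiset.exists_cons_of_mem hi
    obtain ⟨w, h1, h2⟩ := ih y (δ i p) (fun u => by
      have := h u
      simp [col, dv] at this ⊢
      omega) (by simpa using hk)
    exact ⟨i :: w, h1, Multiset.cons_le_cons _ h2⟩

theorem euler (sc : ∀ p q, ∃ w, run δ p w = q) (x : Multiset (Fin n × Fin m)) (hx : ∀ e, e ∈ x) (p q)
    (h : ∀ u, Φ (col δ) x (.inl u) = dv (m := m) p q (.inl u)) :
    ∃ w, run δ p w = q ∧ edges δ p w = x := by
  obtain ⟨w, h1, h2⟩ := path δ x p q h
  obtain ⟨y, hy⟩ := Multiset.le_iff_exists_add.1 h2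
  clear h2
  induction hk : y.card using Nat.strong_induction_on generalizing y w with | _ k ih
  by_cases c : ∃ w1 w2 i, w = w1 ++ w2 ∧ (run δ p w1, i) ∈ y
  · obtain ⟨w1, w2, i, rfl, c⟩ := c
    obtain ⟨y, rfl⟩ := Multiset.exists_cons_of_mem c
    obtain ⟨v, v1, v2⟩ := path δ y (δ i (run δ p w1)) (run δ p w1) fun u => by
      have := h u
      rw [hy, map_add, Φ_edges, h1] at this
      simp [col, dv] at this ⊢
      omega
    obtain ⟨z, rfl⟩ := Multiset.le_iff_exists_add.1 v2
    refine ih z.card (by simp at hk; omega) (w1 ++ (i :: v ++ w2)) ?_ z ?_ rfl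
    · rw [run_append, run_append, run_cons, v1, ← run_append, h1]
    · rw [hy, edges_append, edges_append, edges_append, run_cons, v1, edges, ← Multiset.singleton_add,
        ← Multiset.singleton_add]
      abel
  · have : ∀ v : List (Fin m), ∃ w1 w2, w = w1 ++ w2 ∧ run δ p w1 = run δ p v := fun v => by
      induction v using List.reverseRecOn with
      | nil => exact ⟨[], w, rfl, rfl⟩
      | append_singleton v i ih =>
        obtain ⟨a, b, e1, e2⟩ := ih
        have := hx (run δ p v, i)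
        rw [hy, Multiset.mem_add] at this
        obtain ⟨a', b', e3, e4⟩ := mem_edges δ (this.resolve_right fun k => c ⟨a, b, i, e1, e2 ▸ k⟩)
        exact ⟨a' ++ [i], b', by simp [e3], by rw [run_append, run_append, e4]⟩
    refine ⟨w, h1, ?_⟩
    rw [hy, Multiset.eq_zero_of_forall_notMem (s := y), add_zero]
    rintro ⟨u, i⟩ k
    obtain ⟨v, rfl⟩ := sc p u
    obtain ⟨a, b, e1, e2⟩ := this v
    exact c ⟨a, b, i, e1, e2 ▸ k⟩

theorem col_abs (e k) : |col δ e k| ≤ 1 := by
  rcases k with k | k <;> simp [col, dv, Pi.single_apply] <;> split_ifs <;> simp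

theorem stat (hn : 0 < n) (sc : ∀ p q, ∃ w, run δ p w = q) : ∃ v : Fin n → ℕ, (∀ p, 1 ≤ v p) ∧
    ∀ q, ∑ p, (v p : ℤ) * ∑ i, col δ (p, i) (.inl q) = 0 := by
  let M : Matrix (Fin n) (Fin n) ℤ := fun q p => ∑ i, col δ (p, i) (.inl q)
  have z : Fin n := ⟨0, hn⟩
  have d : M.det = 0 := Matrix.exists_vecMul_eq_zero_iff.1 ⟨fun _ => 1, fun h => by simpa using congrFun h z, by
    ext p
    simp only [M, Matrix.vecMul, dotProduct, one_mul]
    rw [sum_comm]
    simp [col, dv, Pi.single_apply]⟩
  obtain ⟨v, v0, hv⟩ := Matrix.exists_mulVec_eq_zero_iff.2 d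
  have key : ∀ (u : Fin n → ℤ) q, ∑ p, u p * ∑ i, col δ (p, i) (.inl q) =
      ∑ p, ∑ i, (if q = δ i p then u p else 0) - m * u q := fun u q => by
    simp [col, dv, Pi.single_apply, mul_sub, mul_sum, mul_comm, -sum_boole]
  have le : ∀ q ∈ univ, (m : ℤ) * |v q| ≤ ∑ p, ∑ i, (if q = δ i p then |v p| else 0) := fun q _ => by
    have := congrFun hv q
    simp only [M, Matrix.mulVec, dotProduct, mul_comm _ (v _), key, Pi.zero_apply, sub_eq_zero] at this
    rw [← abs_of_nonneg (Int.natCast_nonneg m), ← abs_mul, mul_comm, ← this]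
    refine (abs_sum_le_sum_abs _ _).trans (sum_le_sum fun p _ =>
      (abs_sum_le_sum_abs _ _).trans (sum_le_sum fun i _ => ?_))
    split_ifs <;> simp
  have eq := (sum_eq_sum_iff_of_le le).1 (by
    rw [sum_comm]
    refine sum_congr rfl fun p _ => ?_
    rw [sum_comm]; simp)
  have back : ∀ w p, v (run δ p w) = 0 → v p = 0 := fun w => by
    induction w with
    | nil => exact fun _ h => h
    | cons i w ih =>
      intro p h
      have := eq (δ i p) (mem_univ _)
      rw [ih _ h, abs_zero, mul_zero, eq_comm, sum_eq_zero_iff_of_nonneg fun _ _ =>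
        sum_nonneg fun _ _ => by positivity] at this
      have := (sum_eq_zero_iff_of_nonneg fun _ _ => by positivity).1 (this p (mem_univ _)) i (mem_univ _)
      simpa using this
  refine ⟨fun p => (v p).natAbs, fun q => Int.natAbs_pos.2 fun h => v0 (funext fun p => ?_), fun q => ?_⟩
  · obtain ⟨w, rfl⟩ := sc p q
    exact back w p h
  · simp only [Int.natCast_natAbs]
    rw [key fun p => |v p|, ← eq q (mem_univ _), sub_self]

theorem circ (hn : 0 < n) (sc : ∀ p q, ∃ w, run δ p w = q) : ∃ (f : Multiset (Fin n × Fin m)) (S : ℕ),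
    (∀ e, e ∈ f) ∧ Φ (col δ) f = Sum.elim (fun _ => 0) (fun _ => (S : ℤ)) ∧ 1 ≤ S ∧
      S ≤ n + (2 * n * (n * m) + 1) ^ n := by
  obtain ⟨v, v1, v2⟩ := stat δ hn sc
  let c : Fin n → Fin n → ℤ := fun p q => ∑ i, col δ (p, i) (.inl q)
  have hc : ∀ p q, |c p q| ≤ m := fun p q =>
    (abs_sum_le_sum_abs _ _).trans ((sum_le_sum fun i _ => col_abs δ _ _).trans (by simp))
  have e : Φ c (∑ p, (v p - 1) • {p}) = -∑ p, c p := by
    ext q
    have := v2 q
    simp only [map_sum, map_nsmul, Φ_one, Finset.sum_apply, Pi.smul_apply, Pi.neg_apply]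
    simp only [nsmul_eq_mul, Nat.cast_sub (v1 _), sub_mul, sum_sub_distrib, Nat.cast_one, one_mul]
    rw [this, zero_sub]
  obtain ⟨t, t1, t2⟩ := Small.small c (n * m)
    (fun p q => (hc p q).trans (by exact_mod_cast Nat.le_mul_of_pos_left _ hn))
    (∑ p, (v p - 1) • {p}) fun q => by
      rw [← Φ_eq, e, Pi.neg_apply, abs_neg, Finset.sum_apply]
      exact (abs_sum_le_sum_abs _ _).trans ((sum_le_sum fun i _ => hc _ _).trans (by simp))
  rw [← Φ_eq, ← Φ_eq, e] at t1
  have k : ∀ μ : Multiset (Fin n), Φ (col δ) (μ ×ˢ univ.val) = Sum.elim (Φ c μ) fun _ => (μ.card : ℤ) :=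
    fun μ => by
      induction μ using Multiset.induction_on with
      | empty => ext (k | k) <;> simp
      | cons p μ ih =>
        rw [Multiset.cons_product, map_add, ih, Φ_eq, Multiset.map_map]
        ext (k | k)
        · simp [c, Finset.sum_apply, List.sum_ofFn]
        · simp [Finset.sum_apply, List.sum_ofFn, col, dv, Pi.single_apply, add_comm]
  refine ⟨(univ.val + t) ×ˢ univ.val, n + t.card, fun ⟨_, _⟩ => by simp, ?_, by omega, by simpa using t2⟩
  rw [k, map_add, t1, Φ_eq]
  ext (k | k) <;> simp [List.sum_ofFn]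

end Pool.Agent.H36.Rst
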