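import Pool.Agent.H36.Rst1
import Pool.Agent.H38.ER.Big

/-!
Every tuple `(N, …, N)` with `N` at least a fixed exponential bound is a reset tuple.
-/

namespace Pool.Agent.H36.Rst

open Finset Pool.Agent.H38.NP Pool.Agent.H38.ER

variable {n m : ℕ} (δ : Fin m → Fin n → Fin n)

def sg (e : (Fin n × Fin m) × Bool) : Fin n ⊕ Fin m → ℤ := cond e.2 (col δ e.1) (-col δ e.1)

theorem split (t : Multiset ((Fin n × Fin m) × Bool)) :
    ∃ x y, Φ (col δ) x - Φ (col δ) y = Φ (sg δ) t ∧ y.card ≤ t.card := by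
  induction t using Multiset.induction_on with
  | empty => exact ⟨0, 0, by simp, le_rfl⟩
  | cons e t ih =>
    obtain ⟨x, y, h1, h2⟩ := ih
    obtain ⟨e, _ | _⟩ := e
    · exact ⟨x, e ::ₘ y, by simp [← h1, sg]; abel, by simpa⟩
    · exact ⟨e ::ₘ x, y, by simp [← h1, sg]; abel, by simp; omega⟩

theorem signed {b} (h : b ∈ AddSubgroup.closure (Set.range (col δ))) : ∃ t, Φ (sg δ) t = b := by
  induction h using AddSubgroup.closure_induction with
  | mem b h => obtain ⟨e, rfl⟩ := h; exact ⟨{(e, true)}, by simp [sg]⟩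
  | zero => exact ⟨0, by simp⟩
  | add a b _ _ ha hb =>
    obtain ⟨s, rfl⟩ := ha; obtain ⟨t, rfl⟩ := hb; exact ⟨s + t, map_add _ _ _⟩
  | neg b k h =>
    obtain ⟨t, rfl⟩ := h
    clear k
    refine ⟨t.map fun e => (e.1, !e.2), ?_⟩
    induction t using Multiset.induction_on with
    | empty => simp
    | cons e t ih => obtain ⟨e, _ | _⟩ := e <;> simp [ih, sg, add_comm]

theorem lattice (hn : 0 < n) {α : Fin m → ℕ}
    (h : ∀ p q, ∃ w : List (Fin m), (∀ i, w.count i = α i) ∧ run δ p w = q) (p q : Fin n) (r : ℕ) :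
    ∃ t, Φ (sg δ) t = dv p q + Sum.elim (fun _ => 0) fun _ => (r : ℤ) := by
  let G := AddSubgroup.closure (Set.range (col δ))
  have c : ∀ e, col δ e ∈ G := fun e => AddSubgroup.subset_closure ⟨e, rfl⟩
  have h1 : ∀ p q, dv p q + Sum.elim (fun _ => 0) (fun i => (α i : ℤ)) ∈ G := fun p q => by
    obtain ⟨w, w1, rfl⟩ := h p q
    simp only [← w1, ← Φ_edges, Φ_eq]
    exact multiset_sum_mem _ fun a ha => by obtain ⟨e, -, rfl⟩ := Multiset.mem_map.1 ha; exact c e
  have h2 : ∀ p q, dv p q ∈ G := fun p q => by simpa [dv] using sub_mem (h1 p q) (h1 p p)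
  have h3 : ∀ i, Pi.single (.inr i) 1 ∈ G := fun i => by
    simpa [col] using sub_mem (c (p, i)) (h2 p (δ i p))
  refine signed δ (add_mem (h2 p q) ?_)
  convert sum_mem (t := univ) fun i _ => nsmul_mem (h3 i) r
  ext (k | k) <;> simp [Finset.sum_apply, Pi.single_apply]

def σ (n m : ℕ) : ℕ := n + (2 * n * (n * m) + 1) * n + 1
def ex (n m : ℕ) : ℕ := σ n m + ((2 * (n + m) + σ n m + 0 + 1) * (n + m) + 0 + 1)

theorem add2 {a b x y : ℕ} (h : a ≤ 2 ^ x) (k : b ≤ 2 ^ y) : a + b ≤ 2 ^ (x + y + 1) := by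
  have := Nat.pow_le_pow_right (n := 2) (by omega) (Nat.le_add_right x y)
  have := Nat.pow_le_pow_right (n := 2) (by omega) (Nat.le_add_left y x)
  omega
theorem mul2 {a b x y : ℕ} (h : a ≤ 2 ^ x) (k : b ≤ 2 ^ y) : a * b ≤ 2 ^ (x + y) :=
  pow_add 2 x y ▸ Nat.mul_le_mul h k
theorem pow2 {a x : ℕ} (y) (h : a ≤ 2 ^ x) : a ^ y ≤ 2 ^ (x * y) :=
  pow_mul 2 x y ▸ Nat.pow_le_pow_left h y

theorem main (hn : 0 < n) (h : Primitive δ) {N} (hN : 2 ^ ex n m ≤ N) (p q) :
    ∃ w : List (Fin m), (∀ i, w.count i = N) ∧ run δ p w = q := by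
  obtain ⟨α, -, h⟩ := h.words
  have sc : ∀ p q, ∃ w, run δ p w = q := fun p q => (h p q).imp fun _ h => h.2
  obtain ⟨f, S, f1, f2, s1, s2⟩ := circ δ hn sc
  obtain ⟨t, ht⟩ := lattice δ hn h p q (N % S)
  have := Nat.mod_lt N s1
  obtain ⟨t, t1, t2⟩ := Small.small (sg δ) S (fun ⟨e, b⟩ k => by
    have := col_abs δ e k
    cases b <;> simp [sg] <;> omega) t fun k => by
      rw [← Φ_eq, ht]
      rcases k with k | k <;> simp [dv, Pi.single_apply]
      · split_ifs <;> simp <;> omega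
      · rw [abs_of_nonneg (by omega)]; omega
  rw [← Φ_eq, ← Φ_eq, ht] at t1
  obtain ⟨x, y, e, c⟩ := split δ t
  have b1 : S ≤ 2 ^ σ n m := s2.trans (add2 Nat.lt_two_pow_self.le (pow2 _ Nat.lt_two_pow_self.le))
  have b2 : S * (y.card + 1) ≤ N := by
    rw [Fintype.card_sum, Fintype.card_fin, Fintype.card_fin] at t2
    exact (mul2 b1 (add2 ((c.trans t2).trans (pow2 _ (add2 (mul2 Nat.lt_two_pow_self.le b1)
      (pow_zero 2).ge))) (pow_zero 2).ge)).trans hN
  obtain ⟨K, hK⟩ : ∃ K, N / S = K + 1 ∧ y.card ≤ K := by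
    have := (Nat.le_div_iff_mul_le s1).2 (mul_comm S _ ▸ b2)
    exact ⟨N / S - 1, by omega, by omega⟩
  obtain ⟨z, hz⟩ := Multiset.le_iff_exists_add.1 (show y ≤ K • f from Multiset.le_iff_count.2 fun e => by
    rw [Multiset.count_nsmul]
    exact (y.count_le_card e).trans (hK.2.trans
      (Nat.le_mul_of_pos_right _ (Multiset.count_pos.2 (f1 e)))))
  have e2 : Φ (col δ) (x + z + f) = dv p q + Sum.elim (fun _ => 0) fun _ => (N : ℤ) := by
    have := congrArg (Φ (col δ)) hz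
    rw [map_nsmul, map_add, ← sub_eq_iff_eq_add', f2] at this
    rw [map_add, map_add, ← this, f2, eq_add_of_sub_eq (e.trans t1)]
    have := Nat.div_add_mod N S
    rw [hK.1] at this
    ext (k | k) <;> simp
    zify at this
    linear_combination this
  obtain ⟨w, w1, w2⟩ := euler δ sc (x + z + f) (fun e => by simp [f1]) p q fun u => by simp [e2]
  refine ⟨w, fun i => ?_, w1⟩
  have := congrFun (Φ_edges δ p w) (.inr i)
  rw [w2, e2, w1] at this
  simpa using this.symm

def out (T : List (List ℕ)) : List Bin :=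
  List.replicate T.length ⟨bval (List.replicate (ex (T.headD []).length T.length) false ++ [true])⟩

theorem pt_out : PT out := by unfold out ex σ; fun_prop

theorem out_eq (hm : 0 < m) : out (tables δ) = List.ofFn fun _ : Fin m => Bin.mk (2 ^ ex n m) := by
  have : ∀ k, bval (List.replicate k false) = 0 := fun k => by
    induction k with
    | zero => rfl
    | succ k ih => change false.toNat + 2 * bval _ = 0; rw [ih]; rfl
  obtain ⟨m, rfl⟩ : ∃ k, m = k + 1 := ⟨m - 1, by omega⟩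
  rw [List.ofFn_const, out, bval_append, this]
  simp [tables, List.ofFn_succ, bval]

end Pool.Agent.H36.Rst
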