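import Pool.Agent.H38.NP.Defs

/-!
Reset tuples of automata with states `Fin n` and actions `δ i`, `i : Fin m`.
-/

namespace Pool.Agent.H36.Rst

variable {n m : ℕ}

/-- the state to which the word `w` sends `p` -/
def run (δ : Fin m → Fin n → Fin n) (p : Fin n) (w : List (Fin m)) : Fin n :=
  w.foldl (fun s i => δ i s) p

/-- `α` is a reset tuple -/
def Reset (δ : Fin m → Fin n → Fin n) (α : Fin m → ℕ) : Prop :=
  1 ≤ ∑ i, α i ∧ ∃ q, ∀ p, ∃ w : List (Fin m), (∀ i, w.count i = α i) ∧ run δ p w = q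

/-- the matrix of action `i` -/
def mat (δ : Fin m → Fin n → Fin n) (i : Fin m) : Matrix (Fin n) (Fin n) ℕ :=
  fun q p => if δ i p = q then 1 else 0

/-- the Hurwitz product: the sum of all products with `α i` factors `mat δ i` -/
def hurwitz (δ : Fin m → Fin n → Fin n) (α : Fin m → ℕ) : Matrix (Fin n) (Fin n) ℕ :=
  ∑ w : Fin (∑ i, α i) → Fin m with ∀ i, (List.ofFn w).count i = α i, ((List.ofFn w).map (mat δ)).prod

/-- some Hurwitz product has all entries positive -/
def Primitive (δ : Fin m → Fin n → Fin n) : Prop :=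
  ∃ α : Fin m → ℕ, 1 ≤ ∑ i, α i ∧ ∀ q p, 0 < hurwitz δ α q p

/-- the transition tables -/
def tables (δ : Fin m → Fin n → Fin n) : List (List ℕ) :=
  List.ofFn fun i => List.ofFn fun p => (δ i p).val

end Pool.Agent.H36.Rst
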