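import Pool.Agent.H36.SDivDefs
import Pool.Agent.H36.Gr

namespace Pool.Agent.H36.SDiv

open Pool.Agent.H38.NP Pool.Agent.H36.Gr

/-- working form of 2-clique-colourability of the subgraph induced on `S` -/
def Good {V : Type} (G : SimpleGraph V) (S : Set V) : Prop :=
  ∃ c : V → Bool, ∀ Q ⊆ S, G.IsClique Q → (∀ w ∈ S, (∀ q ∈ Q, q ≠ w → G.Adj w q) → w ∈ Q) →
    Q.Nontrivial → ∃ u ∈ Q, ∃ v ∈ Q, c u ≠ c v

theorem clique_image {V : Type} (G : SimpleGraph V) (S : Set V) (Q : Set S) :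
    (G.induce S).IsClique Q ↔ G.IsClique (Subtype.val '' Q) := by
  constructor
  · rintro h _ ⟨a, ha, rfl⟩ _ ⟨b, hb, rfl⟩ hne
    exact h ha hb (fun e => hne (by rw [e]))
  · intro h a ha b hb hne
    exact h ⟨a, ha, rfl⟩ ⟨b, hb, rfl⟩ (fun e => hne (Subtype.ext e))

theorem good_iff {V : Type} (G : SimpleGraph V) (S : Set V) :
    (∃ c : S → Fin 2, IsCliqueColouring (G.induce S) c) ↔ Good G S := by
  classical
  constructor
  · rintro ⟨c, hc⟩
    refine ⟨fun v => if h : v ∈ S then decide (c ⟨v, h⟩ = 1) else false, ?_⟩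
    intro Q hQ hcl hmax hnt
    have e : Subtype.val '' (Subtype.val ⁻¹' Q : Set S) = Q := by
      ext v; simp only [Set.mem_image, Set.mem_preimage]
      exact ⟨by rintro ⟨a, ha, rfl⟩; exact ha, fun h => ⟨⟨v, hQ h⟩, h, rfl⟩⟩
    have h1 := hc (Subtype.val ⁻¹' Q) ⟨(clique_image _ _ _).2 (e.symm ▸ hcl), ?_⟩ ?_
    · by_contra hne
      push Not at hne
      obtain ⟨u, hu, -⟩ := hnt
      refine h1 ⟨c ⟨u, hQ hu⟩, fun v hv => ?_⟩
      have := hne v hv u hu
      simp only [v.2, hQ hu, dif_pos, Subtype.coe_eta, decide_eq_decide] at this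
      revert this
      generalize c v = x; generalize c ⟨u, hQ hu⟩ = y
      revert x y; decide
    · intro R hR hle w hw
      refine hmax w w.2 fun q hq hne => ?_
      exact hR hw (hle (show (⟨q, hQ hq⟩ : S) ∈ Subtype.val ⁻¹' Q from hq))
        (fun e => hne (by rw [e]))
    · obtain ⟨u, hu, v, hv, hne⟩ := hnt
      exact ⟨⟨u, hQ hu⟩, hu, ⟨v, hQ hv⟩, hv, fun e => hne (congrArg Subtype.val e)⟩
  · rintro ⟨c, hc⟩
    refine ⟨fun v => if c v then 1 else 0, fun Q hmax hnt ⟨i, hi⟩ => ?_⟩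
    obtain ⟨_, ⟨u, hu, rfl⟩, _, ⟨v, hv, rfl⟩, hne⟩ := hc (Subtype.val '' Q)
      (by rintro _ ⟨a, -, rfl⟩; exact a.2) ((clique_image _ _ _).1 hmax.1) (fun w hw h => by
        have : (G.induce S).IsClique (insert ⟨w, hw⟩ Q) := hmax.1.insert fun b hb hne =>
          h b ⟨b, hb, rfl⟩ (fun e => hne (Subtype.ext e.symm))
        exact ⟨⟨w, hw⟩, hmax.2 this (Set.subset_insert _ _) (Set.mem_insert _ _), rfl⟩)
      (hnt.image Subtype.val_injective)
    have h1 := hi u hu
    have h2 := hi v hv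
    apply hne
    have := h1.trans h2.symm
    simp only at this
    revert this
    generalize c u = x; generalize c v = y
    cases x <;> cases y <;> simp

theorem good_image {V C : Type} {G : SimpleGraph V} {H : SimpleGraph C} (e : V → C)
    (he : Function.Injective e) (h : ∀ u v, G.Adj u v ↔ H.Adj (e u) (e v)) (S : Set V) :
    Good G S ↔ Good H (e '' S) := by
  classical
  constructor
  · rintro ⟨c, hc⟩
    refine ⟨fun x => if hx : ∃ v, e v = x then c hx.choose else false, ?_⟩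
    intro Q hQ hcl hmax hnt
    obtain ⟨Q, hQ', rfl⟩ := Set.subset_image_iff.1 hQ
    obtain ⟨u, hu, v, hv, hne⟩ := hc Q hQ'
      (fun a ha b hb hne => (h _ _).2 (hcl ⟨a, ha, rfl⟩ ⟨b, hb, rfl⟩ (he.ne hne)))
      (fun w hw hadj => by
        obtain ⟨w', hw', e'⟩ := hmax (e w) ⟨w, hw, rfl⟩ (by
          rintro _ ⟨q, hq, rfl⟩ hne
          exact (h _ _).1 (hadj q hq fun e' => hne (by rw [e'])))
        exact he e' ▸ hw')
      (Set.nontrivial_of_image _ _ hnt)
    have k : ∀ v, (if hx : ∃ v', e v' = e v then c hx.choose else false) = c v := fun v => by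
      have hx : ∃ v', e v' = e v := ⟨v, rfl⟩
      rw [dif_pos hx, he hx.choose_spec]
    exact ⟨_, ⟨u, hu, rfl⟩, _, ⟨v, hv, rfl⟩, by simpa only [k] using hne⟩
  · rintro ⟨c, hc⟩
    refine ⟨fun v => c (e v), fun Q hQ hcl hmax hnt => ?_⟩
    obtain ⟨_, ⟨u, hu, rfl⟩, _, ⟨v, hv, rfl⟩, hne⟩ := hc (e '' Q) (Set.image_mono hQ)
      (by
        rintro _ ⟨a, ha, rfl⟩ _ ⟨b, hb, rfl⟩ hne
        exact (h _ _).1 (hcl ha hb fun e' => hne (by rw [e'])))
      (by
        rintro _ ⟨w, hw, rfl⟩ hadj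
        exact ⟨w, hmax w hw fun q hq hne => (h _ _).2 (hadj _ ⟨q, hq, rfl⟩ (he.ne hne)), rfl⟩)
      (hnt.image he)
    exact ⟨u, hu, v, hv, hne⟩

abbrev Cd := ℕ × ℕ × ℕ

def nxt (m u j : ℕ) : ℕ := 3 * ((u / 3 + 1) % m) + j

def vs (m : ℕ) : List Cd :=
  (List.range (3 * m)).flatMap fun u =>
    [(0, u, 0), (1, u, 0), (1, u, 1), (1, u, 2), (2, u, 0), (2, u, 1), (2, u, 2)]

def adj (φ : F3) (a b : Cd) : Bool :=
  (decide (a.1 = 0) && decide (b.1 = 0)) ||
  (decide (a.1 = 1) && decide (b.1 = 2) && decide (a.2 = b.2)) ||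
  (decide (a.1 = 1) && decide (b.1 = 0) && (decide (b.2.1 = a.2.1) || conf φ a.2.1 b.2.1)) ||
  (decide (a.1 = 2) && decide (b.1 = 0) &&
    (decide (b.2.1 = nxt φ.length a.2.1 a.2.2) || conf φ a.2.1 b.2.1))

theorem mem_vs {m : ℕ} {a : Cd} : a ∈ vs m ↔
    a.2.1 < 3 * m ∧ ((a.1 = 0 ∧ a.2.2 = 0) ∨ ((a.1 = 1 ∨ a.1 = 2) ∧ a.2.2 < 3)) := by
  obtain ⟨t, u, j⟩ := a
  simp only [vs, List.mem_flatMap, List.mem_range, List.mem_cons, Prod.mk.injEq, List.not_mem_nil,
    or_false]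
  constructor
  · rintro ⟨u', h, h'⟩; omega
  · rintro ⟨h, h'⟩; exact ⟨u, h, by omega⟩

theorem nodup_vs (m : ℕ) : (vs m).Nodup := by
  refine List.nodup_flatMap.2 ⟨fun u _ => by simp, ?_⟩
  refine List.nodup_range.pairwise_of_forall_ne fun u _ v _ hne => ?_
  simp only [Function.onFun, List.disjoint_left, List.mem_cons, List.not_mem_nil, or_false]
  rintro ⟨t, w, j⟩
  simp only [Prod.mk.injEq]
  omega

theorem adj00 {φ u j v k} : (GC (adj φ)).Adj (0, u, j) (0, v, k) ↔ (u, j) ≠ (v, k) := by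
  simp [GC_adj, adj]

theorem adj1 {φ u j t v k} : (GC (adj φ)).Adj (1, u, j) (t, v, k) ↔
    (t = 2 ∧ v = u ∧ k = j) ∨ (t = 0 ∧ (v = u ∨ conf φ u v = true)) := by
  simp only [GC_adj, adj, ne_eq, Prod.mk.injEq, Bool.or_eq_true, Bool.and_eq_true,
    decide_eq_true_eq]
  constructor
  · rintro ⟨h, h'⟩
    rcases h' with (((h' | h') | h') | h') | (((h' | h') | h') | h')
    all_goals first | omega | tauto
  · rintro (⟨rfl, rfl, rfl⟩ | ⟨rfl, h⟩) <;> simp [*]

theorem adj2 {φ u j t v k} : (GC (adj φ)).Adj (2, u, j) (t, v, k) ↔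
    (t = 1 ∧ v = u ∧ k = j) ∨ (t = 0 ∧ (v = nxt φ.length u j ∨ conf φ u v = true)) := by
  simp only [GC_adj, adj, ne_eq, Prod.mk.injEq, Bool.or_eq_true, Bool.and_eq_true,
    decide_eq_true_eq]
  constructor
  · rintro ⟨h, h'⟩
    rcases h' with (((h' | h') | h') | h') | (((h' | h') | h') | h')
    all_goals first | omega | tauto
  · rintro (⟨rfl, rfl, rfl⟩ | ⟨rfl, h⟩) <;> simp [*]

theorem not_good {φ : F3} (hodd : φ.length % 2 = 1) (h3 : 3 ≤ φ.length) (hs : Sat3 φ) :
    ∃ S ⊆ {a | a ∈ vs φ.length}, ¬ Good (GC (adj φ)) S := by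
  obtain ⟨s, hs1, hs2⟩ := (sat3_iff_sel φ).1 hs
  set m := φ.length with hm
  have hlt : ∀ l, (l + 1) % m < m := fun l => Nat.mod_lt _ (by omega)
  have hne : ∀ l < m, (l + 1) % m ≠ l := fun l hl => by
    rcases Nat.lt_or_ge (l + 1) m with h | h
    · rw [Nat.mod_eq_of_lt h]; omega
    · rw [show l + 1 = m by omega, Nat.mod_self]; omega
  have hnx : ∀ l < m, nxt m (s l) (s ((l + 1) % m) % 3) = s ((l + 1) % m) := fun l hl => by
    have := hs1 _ (hlt l)
    unfold nxt; rw [hs1 l hl]; omega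
  refine ⟨{a | ∃ l < m, a = (0, s l, 0) ∨ a = (1, s l, s ((l + 1) % m) % 3) ∨
    a = (2, s l, s ((l + 1) % m) % 3)}, ?_, ?_⟩
  · rintro a ⟨l, hl, h⟩
    have := hs1 l hl
    rw [Set.mem_ofPred_eq, mem_vs]
    rcases h with rfl | rfl | rfl <;> simp <;> omega
  rintro ⟨c, hc⟩
  have pair : ∀ a b, (∃ l < m, a = (0, s l, 0) ∨ a = (1, s l, s ((l + 1) % m) % 3) ∨
      a = (2, s l, s ((l + 1) % m) % 3)) → (∃ l < m, b = (0, s l, 0) ∨
      b = (1, s l, s ((l + 1) % m) % 3) ∨ b = (2, s l, s ((l + 1) % m) % 3)) →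
      (GC (adj φ)).Adj a b →
      (∀ w, (∃ l < m, w = (0, s l, 0) ∨ w = (1, s l, s ((l + 1) % m) % 3) ∨
        w = (2, s l, s ((l + 1) % m) % 3)) → (GC (adj φ)).Adj a w → (GC (adj φ)).Adj b w → False) →
      c a ≠ c b := by
    intro a b ha hb hab hno
    obtain ⟨u, hu, v, hv, h⟩ := hc {a, b} (by rintro x (rfl | rfl); exacts [ha, hb])
      (SimpleGraph.isClique_pair.2 fun _ => hab) (fun w hw h => by
        by_contra hw'
        simp only [Set.mem_insert_iff, Set.mem_singleton_iff, not_or] at hw'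
        exact hno w hw (h a (by simp) (Ne.symm hw'.1)).symm (h b (by simp) (Ne.symm hw'.2)).symm)
      (Set.nontrivial_pair hab.ne)
    rcases hu with rfl | rfl <;> rcases hv with rfl | rfl
    exacts [absurd rfl h, h, h.symm, absurd rfl h]
  have step : ∀ l < m, c (0, s ((l + 1) % m), 0) = !c (0, s l, 0) := by
    intro l hl
    have sne : s ((l + 1) % m) ≠ s l := fun e => by
      have h1 := hs1 _ (hlt l); have h2 := hs1 l hl
      exact hne l hl (by rw [← h1, e, h2])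
    have h1 : c (1, s l, s ((l + 1) % m) % 3) ≠ c (0, s l, 0) := by
      refine pair _ _ ⟨l, hl, by simp⟩ ⟨l, hl, by simp⟩ (adj1.2 (by simp)) ?_
      rintro w ⟨l', hl', rfl | rfl | rfl⟩ h h'
      · rw [adj1] at h; rw [adj00] at h'
        simp [hs2 l hl l' hl'] at h h'
        exact h' h.symm
      · simp [adj1] at h
      · rw [adj1] at h
        have h'' := adj2.1 h'.symm
        simp only [OfNat.ofNat_ne_zero, false_and, or_false, true_and] at h
        simp only [zero_ne_one, false_and, true_and, false_or, hs2 l' hl' l hl] at h''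
        rw [hnx l' hl'] at h''
        have : l' = l := by rw [← hs1 l hl, ← hs1 l' hl', h.1]
        subst this
        simp [sne.symm] at h''
    have h2 : c (1, s l, s ((l + 1) % m) % 3) ≠ c (2, s l, s ((l + 1) % m) % 3) := by
      refine pair _ _ ⟨l, hl, by simp⟩ ⟨l, hl, by simp⟩ (adj1.2 (by simp)) ?_
      rintro w ⟨l', hl', rfl | rfl | rfl⟩ h h'
      · rw [adj1] at h; rw [adj2, hnx l hl] at h'
        simp [hs2 l hl l' hl'] at h h'
        exact sne (h'.symm.trans h)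
      · simp [adj1] at h
      · simp [adj2] at h'
    have h3 : c (2, s l, s ((l + 1) % m) % 3) ≠ c (0, s ((l + 1) % m), 0) := by
      refine pair _ _ ⟨l, hl, by simp⟩ ⟨_, hlt l, by simp⟩ (adj2.2 (by simp [← hm, hnx l hl])) ?_
      rintro w ⟨l', hl', rfl | rfl | rfl⟩ h h'
      · rw [adj2, hnx l hl] at h; rw [adj00] at h'
        simp [hs2 l hl l' hl'] at h h'
        exact h' h.symm
      · rw [adj2] at h
        have h'' := adj1.1 h'.symm
        simp [hs2 l' hl' _ (hlt l)] at h h''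
        exact sne (h''.trans h.1)
      · simp [adj2] at h
    revert h1 h2 h3
    cases c (1, s l, s ((l + 1) % m) % 3) <;> cases c (2, s l, s ((l + 1) % m) % 3) <;>
      cases c (0, s ((l + 1) % m), 0) <;> cases c (0, s l, 0) <;> simp
  have par : ∀ l < m, c (0, s l, 0) = xor (c (0, s 0, 0)) (decide (l % 2 = 1)) := by
    intro l
    induction l with
    | zero => simp
    | succ l ih =>
      intro hl
      have := step l (by omega)
      rw [Nat.mod_eq_of_lt hl, ih (by omega)] at this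
      rw [this]
      rcases Nat.mod_two_eq_zero_or_one l with h | h <;> simp [h, Nat.add_mod]
  have h1 := step (m - 1) (by omega)
  rw [show m - 1 + 1 = m by omega, Nat.mod_self, par (m - 1) (by omega)] at h1
  simp [show (m - 1) % 2 = 0 by omega] at h1

theorem good {φ : F3} (h3 : 3 ≤ φ.length) (hs : ¬ Sat3 φ) (S : Set Cd)
    (hS : S ⊆ {a | a ∈ vs φ.length}) : Good (GC (adj φ)) S := by
  classical
  set m := φ.length with hm
  let K : ℕ → Prop := fun u => (0, u, 0) ∈ S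
  let act : ℕ → ℕ → Prop := fun u j => u < 3 * m ∧ j < 3 ∧ K u ∧ K (nxt m u j) ∧
    ∀ w, K w → conf φ u w = false
  obtain ⟨l, hl, hno⟩ : ∃ l < m, ∀ u j, u / 3 = l → ¬ act u j := by
    by_contra h
    push Not at h
    choose! s j h1 h2 using h
    exact hs ((sat3_iff_sel φ).2 ⟨s, h1, fun c hc d hd => (h2 c hc).2.2.2.2 _ (h2 d hd).2.2.1⟩)
  obtain ⟨κ, hκ1, hκ2⟩ : ∃ κ : ℕ → Bool, (∀ u j, act u j → κ u ≠ κ (nxt m u j)) ∧
      ∀ u v, K u → K v → u ≠ v → ∃ u' v', K u' ∧ K v' ∧ κ u' ≠ κ v' := by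
    by_cases hex : ∃ u j, act u j
    · have h1 : ∀ u j, act u j → decide ((u / 3 + (m - l - 1)) % m % 2 = 0) ≠
          decide ((nxt m u j / 3 + (m - l - 1)) % m % 2 = 0) := by
        intro u j h
        have hne : u / 3 ≠ l := fun e => hno u j e h
        have hu : u / 3 < m := by have := h.1; omega
        have e : nxt m u j / 3 = (u / 3 + 1) % m := by have := h.2.1; unfold nxt; omega
        rw [e, Nat.mod_add_mod]
        generalize u / 3 = x at *
        have : (x + 1 + (m - l - 1)) % m = (x + (m - l - 1)) % m + 1 := by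
          rcases lt_or_gt_of_ne hne with h | h
          · rw [Nat.mod_eq_of_lt (by omega), Nat.mod_eq_of_lt (by omega)]; omega
          · rw [show x + 1 + (m - l - 1) = (x - l) + m by omega,
              show x + (m - l - 1) = (x - l - 1) + m by omega, Nat.add_mod_right, Nat.add_mod_right,
              Nat.mod_eq_of_lt (by omega), Nat.mod_eq_of_lt (by omega)]; omega
        rw [this]
        simp only [ne_eq, decide_eq_decide]; omega
      obtain ⟨u, j, h⟩ := hex
      exact ⟨fun u => decide ((u / 3 + (m - l - 1)) % m % 2 = 0), h1,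
        fun _ _ _ _ _ => ⟨u, _, h.2.2.1, h.2.2.2.1, h1 u j h⟩⟩
    · by_cases h0 : ∃ u, K u
      · obtain ⟨u0, hu0⟩ := h0
        refine ⟨fun u => decide (u = u0), fun u j h => (hex ⟨u, j, h⟩).elim, fun u v hu hv hne => ?_⟩
        by_cases e : u = u0
        · exact ⟨u0, v, hu0, hv, by simp [← e, hne.symm]⟩
        · exact ⟨u0, u, hu0, hu, by simp [e]⟩
      · exact ⟨fun _ => true, fun u j h => (hex ⟨u, j, h⟩).elim, fun u _ hu => (h0 ⟨u, hu⟩).elim⟩
  let ca : ℕ → ℕ → Bool := fun u j => if K u then !κ u else κ (nxt m u j)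
  refine ⟨fun a => if a.1 = 0 then κ a.2.1 else
    if h : ∃ w, K w ∧ conf φ a.2.1 w = true then !κ h.choose
    else if a.1 = 1 then ca a.2.1 a.2.2 else !ca a.2.1 a.2.2, ?_⟩
  intro Q hQ hcl hmax hnt
  have hK : ∀ t v k, (t, v, k) ∈ S → t = 0 → k = 0 := fun t v k h ht => by
    have := mem_vs.1 (hS h); simp only at this; omega
  by_cases h0 : ∀ a ∈ Q, a.1 = 0
  · obtain ⟨⟨t, u, j⟩, hu, ⟨t', v, k⟩, hv, hne⟩ := hnt
    obtain rfl : t = 0 := h0 _ hu
    obtain rfl : t' = 0 := h0 _ hv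
    obtain rfl := hK _ _ _ (hQ hu) rfl
    obtain rfl := hK _ _ _ (hQ hv) rfl
    obtain ⟨u', v', h1, h2, h3⟩ := hκ2 u v (hQ hu) (hQ hv) (fun e => hne (by rw [e]))
    have hall : ∀ w, K w → (0, w, 0) ∈ Q := fun w hw => hmax _ hw (by
      rintro ⟨t, x, k⟩ hq hne
      obtain rfl : t = 0 := h0 _ hq
      exact adj00.2 fun e => hne (by rw [e]))
    exact ⟨_, hall u' h1, _, hall v' h2, by simpa using h3⟩
  push Not at h0
  obtain ⟨⟨t, u, j⟩, ha, ht⟩ := h0
  have hv := mem_vs.1 (hS (hQ ha))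
  simp only at hv ht
  have hadj : ∀ t' v k, (t', v, k) ∈ Q → (t', v, k) ≠ (t, u, j) →
      (GC (adj φ)).Adj (t, u, j) (t', v, k) := fun t' v k h hne => hcl ha h hne.symm
  by_cases hex : ∃ w, K w ∧ conf φ u w = true
  · have hw := hex.choose_spec
    refine ⟨_, ha, (0, hex.choose, 0), hmax _ hw.1 ?_, by simp [ht, hex]⟩
    rintro ⟨t', v, k⟩ hq hne
    by_cases e : t' = 0
    · subst e; exact adj00.2 fun e => hne (by rw [e])
    have : (t' = 1 ∨ t' = 2) ∧ v = u := by
      by_cases e' : (t', v, k) = (t, u, j)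
      · simp only [Prod.mk.injEq] at e'; omega
      have := hadj _ _ _ hq e'
      obtain rfl | rfl : t = 1 ∨ t = 2 := by omega
      · rw [adj1] at this; omega
      · rw [adj2] at this; omega
    obtain ⟨rfl | rfl, rfl⟩ := this
    · exact (adj1.2 (Or.inr ⟨rfl, Or.inr hw.2⟩)).symm
    · exact (adj2.2 (Or.inr ⟨rfl, Or.inr hw.2⟩)).symm
  · obtain ⟨⟨t', v, k⟩, hb, hne⟩ := hnt.exists_ne (t, u, j)
    refine ⟨_, ha, _, hb, ?_⟩
    have h1 := hadj _ _ _ hb hne
    obtain rfl | rfl : t = 1 ∨ t = 2 := by omega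
    · rcases adj1.1 h1 with ⟨rfl, rfl, rfl⟩ | ⟨rfl, h2⟩
      · simp [hex]
      · obtain rfl := hK _ _ _ (hQ hb) rfl
        have hv' : K v := hQ hb
        obtain rfl : v = u := h2.resolve_right fun h => hex ⟨v, hv', h⟩
        simp [hex, ca, hv']
    · rcases adj2.1 h1 with ⟨rfl, rfl, rfl⟩ | ⟨rfl, h2⟩
      · simp [hex]
      · obtain rfl := hK _ _ _ (hQ hb) rfl
        have hv' : K v := hQ hb
        obtain rfl : v = nxt m u j := h2.resolve_right fun h => hex ⟨v, hv', h⟩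
        by_cases hu : K u
        · have := hκ1 u j ⟨hv.1, by omega, hu, hv', fun w hw => by
            by_contra h; exact hex ⟨w, hw, by simpa using h⟩⟩
          simpa [hex, ca, hu] using this
        · simp [hex, ca, hu]

theorem hard : NPH (fun _ : ℕ × List (ℕ × ℕ) => True)
    (fun p => ¬ StronglyDivisible 2 (graphOf p.1 p.2)) := by
  refine sat3_odd_nph.reduce (fun φ => mkG (vs φ.length) (adj φ))
    (pt_mkG (by unfold vs; fun_prop) (by unfold adj nxt; fun_prop)) ?_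
  rintro φ ⟨h1, h3⟩
  refine ⟨trivial, ?_⟩
  have key : ∀ S : Set (Fin (vs φ.length).length), (∃ c : S → Fin 2, IsCliqueColouring
      ((graphOf (mkG (vs φ.length) (adj φ)).1 (mkG (vs φ.length) (adj φ)).2).induce S) c) ↔
      Good (GC (adj φ)) (code (vs φ.length) '' S) := fun S =>
    (good_iff _ S).trans (good_image _ (code_inj (nodup_vs _)) (fun u v => mkG_adj (nodup_vs _)) S)
  constructor
  · intro hs h
    obtain ⟨S, hS, hno⟩ := not_good h1 h3 hs
    have := (key (code (vs φ.length) ⁻¹' S)).1 (h _)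
    rw [Set.image_preimage_eq_of_subset fun a ha => code_surj (hS ha)] at this
    exact hno this
  · intro h
    by_contra hs
    exact h fun S => (key S).2 (good h3 hs _ (by rintro _ ⟨v, -, rfl⟩; exact code_mem _ v))

end Pool.Agent.H36.SDiv
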