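import Pool.Agent.H38.NP.Defs

namespace Pool.Agent.H36.SDiv

/-- `c` is a `k`-clique-colouring of `H`: no maximal clique with at least two vertices is
contained in one colour class. -/
def IsCliqueColouring {W : Type} (H : SimpleGraph W) {k : ℕ} (c : W → Fin k) : Prop :=
  ∀ Q : Set W, Maximal H.IsClique Q → Q.Nontrivial → ¬ ∃ i, ∀ v ∈ Q, c v = i

/-- every induced subgraph has a `k`-clique-colouring -/
def StronglyDivisible (k : ℕ) {V : Type} (G : SimpleGraph V) : Prop :=
  ∀ S : Set V, ∃ c : S → Fin k, IsCliqueColouring (G.induce S) c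

end Pool.Agent.H36.SDiv
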