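import Pool.Agent.H36.SMTIDefs
import Pool.Agent.H36.Gr

namespace Pool.Agent.H36.SMTI

open Pool.Agent.H38.NP Pool.Agent.H36.Tab Pool.Agent.H36.Gr

def rA (φ : F3) (m w : ℕ) : ℕ :=
  if m = 6 * φ.length + 2 then (if w = 0 then 1 else 0)
  else if m % 2 = 0 then (if w / 2 = m / 2 then 1 else 0)
  else if w = m then 1 else if w % 2 = 1 then 0
  else if (w / 2 + 2) / 3 = (m / 2 + 2) / 3 + 1 then 3 else if w = 0 then 4
  else if (w / 2 + 2) / 3 < (m / 2 + 2) / 3 then
    (if conf φ (m / 2 - 1) (w / 2 - 1) = true then 2 else 0) else 0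

def rB (φ : F3) (w m : ℕ) : ℕ :=
  if w % 2 = 1 then 1 + m % 2 else if m = w then 1 else if m = 6 * φ.length + 2 then 4
  else if (w / 2 + 2) / 3 = (m / 2 + 2) / 3 + 1 then 3 else 2

def tab (n : ℕ) (f : ℕ → ℕ → ℕ) : List (List ℕ) :=
  (List.range n).map fun i => (List.range n).map fun j => f i j

theorem tb_tab {n f i j} (hi : i < n) (hj : j < n) : tb (tab n f) i j = f i j := by
  simp [tb, tab, List.getD_eq_getElem?_getD, hi, hj]

def inst (φ : F3) : Inst := (6 * φ.length + 3, 6 * φ.length + 3,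
  tab (6 * φ.length + 3) (rA φ), tab (6 * φ.length + 3) (rB φ))

def Ac (φ : F3) (m w : ℕ) : Prop := m < 6 * φ.length + 3 ∧ w < 6 * φ.length + 3 ∧ rA φ m w ≠ 0

theorem rB_pos (φ w m) : rB φ w m ≠ 0 := by unfold rB; split_ifs <;> omega

theorem acc_iff {φ m w} : Acc (inst φ) m w ↔ Ac φ m w :=
  and_congr_right fun h1 => and_congr_right fun h2 => by
    simp only [inst] at h1 h2 ⊢
    simp [tb_tab h1 h2, tb_tab h2 h1, rB_pos]

def WS (φ : F3) (M : Finset (ℕ × ℕ)) : Prop :=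
  (∀ p ∈ M, Ac φ p.1 p.2) ∧ (∀ p ∈ M, ∀ q ∈ M, p.1 = q.1 ↔ p.2 = q.2) ∧
  ∀ m w, Ac φ m w → (m, w) ∉ M → (∃ w', (m, w') ∈ M ∧ rA φ m w' ≤ rA φ m w) ∨
    ∃ m', (m', w) ∈ M ∧ rB φ w m' ≤ rB φ w m

theorem ws_iff {φ M} : WStable (inst φ) M ↔ WS φ M := by
  simp only [WStable, WS, acc_iff]
  refine and_congr_right fun h => and_congr_right fun _ => forall₄_congr fun m w a _ => ?_
  rw [not_and_or]
  push Not
  refine or_congr (exists_congr fun w' => and_congr_right fun e => ?_)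
    (exists_congr fun w' => and_congr_right fun e => ?_)
  · simp only [inst]; rw [tb_tab a.1 a.2.1, tb_tab a.1 (h _ e).2.1]
  · simp only [inst]; rw [tb_tab a.2.1 a.1, tb_tab a.2.1 (h _ e).1]

def M0 (φ : F3) : Finset (ℕ × ℕ) := (Finset.range (6 * φ.length + 2)).image fun m => (m, m)

theorem mem_M0 {φ m w} : (m, w) ∈ M0 φ ↔ m < 6 * φ.length + 2 ∧ w = m := by
  simp only [M0, Finset.mem_image, Finset.mem_range, Prod.mk.injEq]
  constructor
  · rintro ⟨a, h, rfl, rfl⟩; exact ⟨h, rfl⟩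
  · rintro ⟨h, rfl⟩; exact ⟨_, h, rfl, rfl⟩

theorem rA_self {φ : F3} {m} (h : m < 6 * φ.length + 2) : rA φ m m = 1 := by
  unfold rA; split_ifs <;> omega

theorem ws_M0 (φ : F3) : WS φ (M0 φ) := by
  refine ⟨fun ⟨m, w⟩ h => ?_, fun ⟨m, w⟩ h ⟨m', w'⟩ h' => ?_, fun m w a _ => ?_⟩
  · obtain ⟨h, rfl⟩ := mem_M0.1 h
    exact ⟨by omega, by omega, by simp [rA_self h]⟩
  · simp [(mem_M0.1 h).2, (mem_M0.1 h').2]
  · by_cases h : m < 6 * φ.length + 2
    · exact Or.inl ⟨m, mem_M0.2 ⟨h, rfl⟩, by rw [rA_self h]; exact Nat.pos_of_ne_zero a.2.2⟩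
    · obtain rfl : m = 6 * φ.length + 2 := by have := a.1; omega
      obtain rfl : w = 0 := by simpa [rA] using a.2.2
      exact Or.inr ⟨0, mem_M0.2 ⟨by omega, rfl⟩, by simp [rB]⟩

theorem opt_iff (φ : F3) : (∃ M, ManOptimal (inst φ) M) ↔
    ¬ ∃ M, WS φ M ∧ (6 * φ.length + 2, 0) ∈ M := by
  simp only [ManOptimal, ws_iff]
  constructor
  · rintro ⟨M, hM, h⟩ ⟨M', hM', hx⟩
    have k : ∀ m < 6 * φ.length + 2, ∃ w, (m, w) ∈ M ∧ rA φ m w = 1 := by
      intro m hm
      obtain ⟨w, h1, h2⟩ := h _ (ws_M0 φ) m m (mem_M0.2 ⟨hm, rfl⟩)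
      have a := hM.1 _ h1
      simp only [inst] at h2
      rw [tb_tab a.1 a.2.1, tb_tab a.1 a.1, rA_self hm] at h2
      exact ⟨w, h1, le_antisymm h2 (Nat.pos_of_ne_zero a.2.2)⟩
    obtain ⟨w, h1, -⟩ := h _ hM' _ _ hx
    obtain rfl : w = 0 := by simpa [rA] using (hM.1 _ h1).2.2
    obtain ⟨u, h2, h3⟩ := k 0 (by omega)
    obtain ⟨v, h4, h5⟩ := k 1 (by omega)
    have e1 := hM.2.1 _ h1 _ h2
    have e2 := hM.2.1 _ h4 _ h2
    simp only [rA] at h3 h5 e1 e2
    split_ifs at h3 h5 <;> omega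
  · intro h
    refine ⟨M0 φ, ws_M0 φ, fun M' hM' m w hm => ?_⟩
    have a := hM'.1 _ hm
    by_cases e : m < 6 * φ.length + 2
    · refine ⟨m, mem_M0.2 ⟨e, rfl⟩, ?_⟩
      simp only [inst]
      rw [tb_tab a.1 a.2.1, tb_tab a.1 a.1, rA_self e]
      exact Nat.pos_of_ne_zero a.2.2
    · obtain rfl : m = 6 * φ.length + 2 := by have := a.1; simp only at this; omega
      obtain rfl : w = 0 := by simpa [rA] using a.2.2
      exact (h ⟨M', hM', hm⟩).elim

theorem yes (φ : F3) (h : Sat3 φ) : ∃ M, WS φ M ∧ (6 * φ.length + 2, 0) ∈ M := by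
  obtain ⟨s, h1, h2⟩ := (sat3_iff_sel φ).1 h
  obtain ⟨σ, s0, s1, s2, s3⟩ : ∃ σ : ℕ → ℕ, σ 0 = 0 ∧ (∀ j ≤ φ.length + 1, (σ j + 2) / 3 = j) ∧
      σ (φ.length + 1) = 3 * φ.length + 1 ∧ ∀ i j, 0 < i → i < j → j ≤ φ.length →
        conf φ (σ j - 1) (σ i - 1) = false := by
    refine ⟨fun j => if j = 0 then 0 else if j ≤ φ.length then s (j - 1) + 1
      else 3 * φ.length + 1, rfl, fun j hj => ?_, by simp, fun i j a b c => ?_⟩
    · have := h1 (j - 1)
      simp only
      split_ifs <;> omega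
    · simp only
      rw [if_neg (by omega), if_pos c, if_neg (by omega), if_pos (by omega)]
      exact h2 _ (by omega) _ (by omega)
  let μ : ℕ → ℕ := fun m => if m = 6 * φ.length + 2 then 0 else
    if m / 2 = σ ((m / 2 + 2) / 3) then (if m % 2 = 0 then m + 1 else 2 * σ ((m / 2 + 2) / 3 + 1))
    else m
  have hm : ∀ m w, (m, w) ∈ (Finset.range (6 * φ.length + 3)).image (fun m => (m, μ m)) ↔
      m < 6 * φ.length + 3 ∧ w = μ m := by
    intro m w
    simp only [Finset.mem_image, Finset.mem_range, Prod.mk.injEq]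
    constructor
    · rintro ⟨a, h, rfl, rfl⟩; exact ⟨h, rfl⟩
    · rintro ⟨h, rfl⟩; exact ⟨_, h, rfl, rfl⟩
  have cs : ∀ m < 6 * φ.length + 3, (μ m < 6 * φ.length + 3 ∧ rA φ m (μ m) = 1) ∨
      (μ m < 6 * φ.length + 3 ∧ rA φ m (μ m) = 3 ∧ m % 2 = 1 ∧ m / 2 = σ ((m / 2 + 2) / 3)) := by
    intro m hm
    by_cases e1 : m = 6 * φ.length + 2
    · left; simp [μ, e1, rA]
    by_cases e2 : m / 2 = σ ((m / 2 + 2) / 3)
    swap
    · left; simp only [μ, e1, e2, if_false]; exact ⟨hm, rA_self (by omega)⟩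
    by_cases e3 : m % 2 = 0
    · left
      rw [show μ m = m + 1 by simp only [μ]; rw [if_neg e1, if_pos e2, if_pos e3]]
      refine ⟨by omega, ?_⟩
      rw [rA, if_neg e1, if_pos e3, if_pos (by omega)]
    · right
      rw [show μ m = 2 * σ ((m / 2 + 2) / 3 + 1) by
        simp only [μ]; rw [if_neg e1, if_pos e2, if_neg e3]]
      have a1 := s1 ((m / 2 + 2) / 3 + 1) (by omega)
      refine ⟨?_, ?_, by omega, e2⟩
      · by_cases e : (m / 2 + 2) / 3 = φ.length
        · rw [e, s2]; omega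
        · omega
      · rw [rA, if_neg e1, if_neg e3, if_neg (by omega), if_neg (by omega), if_pos (by omega)]
  refine ⟨(Finset.range (6 * φ.length + 3)).image fun m => (m, μ m), ⟨fun ⟨m, w⟩ h => ?_,
    fun ⟨m, w⟩ h ⟨m', w'⟩ h' => ?_, fun m w a hn => ?_⟩, (hm _ _).2 ⟨by omega, by simp [μ]⟩⟩
  · obtain ⟨hl, rfl⟩ := (hm _ _).1 h
    rcases cs m hl with e | e
    · exact ⟨hl, e.1, by simp [e.2]⟩
    · exact ⟨hl, e.1, by simp [e.2.1]⟩
  · obtain ⟨hl, rfl⟩ := (hm _ _).1 h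
    obtain ⟨hl', rfl⟩ := (hm _ _).1 h'
    clear h h'
    refine ⟨fun e => by simp only at e; rw [e], fun e => ?_⟩
    have a1 := s1 ((m / 2 + 2) / 3 + 1)
    have a2 := s1 ((m' / 2 + 2) / 3 + 1)
    have a3 : ∀ j, (m / 2 + 2) / 3 = j → σ ((m / 2 + 2) / 3) = σ j := fun j e => by rw [e]
    have a4 : ∀ j, (m' / 2 + 2) / 3 = j → σ ((m' / 2 + 2) / 3) = σ j := fun j e => by rw [e]
    have a5 := a3 0
    have a6 := a4 0
    have a7 := a3 ((m' / 2 + 2) / 3 + 1)
    have a8 := a4 ((m / 2 + 2) / 3 + 1)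
    have a9 := a4 ((m / 2 + 2) / 3)
    simp only [μ] at e ⊢
    split_ifs at e <;> omega
  · rcases cs m a.1 with e | ⟨-, e, e1, e2⟩
    · exact Or.inl ⟨_, (hm _ _).2 ⟨a.1, rfl⟩, by rw [e.2]; exact Nat.pos_of_ne_zero a.2.2⟩
    by_cases e3 : 3 ≤ rA φ m w
    · exact Or.inl ⟨_, (hm _ _).2 ⟨a.1, rfl⟩, by rwa [e]⟩
    right
    have a1 := a.1
    have a2 := a.2.1
    have a3 := a.2.2
    by_cases e4 : w = m
    · subst e4
      refine ⟨w - 1, (hm _ _).2 ⟨by omega, ?_⟩, by simp only [rB]; split_ifs <;> omega⟩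
      simp only [μ]
      rw [if_neg (by omega), show (w - 1) / 2 = w / 2 by omega, if_pos e2, if_pos (by omega)]
      omega
    · unfold rA at e3 a3
      split_ifs at e3 a3 with c1 c2 c3 c4 c5 c6 c7 c8 c9 <;> try omega
      refine ⟨w, (hm _ _).2 ⟨a2, ?_⟩, by simp only [rB]; split_ifs <;> omega⟩
      simp only [μ]
      rw [if_neg (by omega), if_neg]
      intro e5
      have := s3 ((w / 2 + 2) / 3) ((m / 2 + 2) / 3) (by omega) (by omega) (by omega)
      rw [← e5, ← e2] at this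
      rw [this] at c9
      exact absurd c9 (by simp)

theorem no (φ : F3) (M) (h : WS φ M) (hx : (6 * φ.length + 2, 0) ∈ M) : Sat3 φ := by
  classical
  obtain ⟨h1, h2, h3⟩ := h
  let O : ℕ → Prop := fun o => o < 3 * φ.length + 1 ∧ (2 * o, 2 * o) ∉ M
  have step : ∀ o, O o → ∃ p, (2 * o + 1, 2 * p) ∈ M ∧ 0 < p ∧
      (p < 3 * φ.length + 1 → O p) ∧ ((p + 2) / 3 = (o + 2) / 3 + 1 ∨ (p + 2) / 3 < (o + 2) / 3) := by
    rintro o ⟨ho, hn⟩
    have f1 : (2 * o, 2 * o + 1) ∈ M := by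
      rcases h3 _ _ ⟨by omega, by omega, by rw [rA_self (by omega)]; simp⟩ hn with
        ⟨w, a, -⟩ | ⟨m, a, b⟩
      · have := (h1 _ a).2.2
        have e : w ≠ 2 * o := by rintro rfl; exact hn a
        obtain rfl : w = 2 * o + 1 := by
          simp only [rA] at this
          split_ifs at this <;> omega
        exact a
      · have e : m ≠ 2 * o := by rintro rfl; exact hn a
        simp only [rB] at b
        split_ifs at b <;> omega
    have n0 : (2 * o + 1, 0) ∉ M := fun e => by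
      have : 2 * o + 1 = 6 * φ.length + 2 := (h2 _ e _ hx).2 rfl
      omega
    rcases h3 _ _ ⟨by omega, by omega, by simp only [rA]; split_ifs <;> omega⟩ n0 with
      ⟨w, a, -⟩ | ⟨m, a, b⟩
    · have a1 := (h1 _ a).2.2
      have a2 := h2 _ a _ f1
      have a3 := h2 _ a _ hx
      simp only [rA] at a1 a2 a3
      obtain ⟨p, rfl⟩ : ∃ p, w = 2 * p := ⟨w / 2, by split_ifs at a1 <;> omega⟩
      refine ⟨p, a, by omega, fun hp => ⟨hp, fun e => ?_⟩, by split_ifs at a1 <;> omega⟩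
      have : 2 * o + 1 = 2 * p := (h2 _ a _ e).2 rfl
      omega
    · have := h2 _ a _ hx
      obtain rfl : m = 6 * φ.length + 2 := by simpa using this
      rw [rB, rB, if_neg (by omega), if_neg (by omega), if_pos rfl, if_neg (by omega),
        if_neg (by omega), if_neg (by omega), if_neg (by omega)] at b
      omega
  choose! nx n1 n2 n3 n4 using step
  have inj : ∀ a, O a → ∀ b, O b → nx a = nx b → a = b := fun a ha b hb e => by
    have := h2 _ (n1 a ha) _ (n1 b hb)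
    simp only at this
    omega
  have O0 : O 0 := ⟨by omega, fun e => by have := h2 _ e _ hx; simp at this⟩
  have key : ∀ c < φ.length, ∃ o, O o ∧ (o + 2) / 3 = c ∧ (nx o + 2) / 3 = c + 1 ∧
      (nx (nx o) + 2) / 3 = c + 2 := by
    intro c hc
    by_contra hh
    push Not at hh
    let L := (Finset.range (3 * φ.length + 1)).filter fun o => O o ∧ (o + 2) / 3 ≤ c
    let g : ℕ → ℕ := fun o => if (nx o + 2) / 3 ≤ c then nx o else nx (nx o)
    have mL : ∀ o, o ∈ L ↔ O o ∧ (o + 2) / 3 ≤ c := fun o => by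
      simp only [L, Finset.mem_filter, Finset.mem_range]
      exact ⟨fun h => h.2, fun h => ⟨h.1.1, h⟩⟩
    have On : ∀ o ∈ L, O (nx o) := fun o ho => by
      obtain ⟨a, b⟩ := (mL o).1 ho
      have := n4 o a
      exact n3 o a (by omega)
    have gL : ∀ o ∈ L, g o ∈ L := fun o ho => by
      obtain ⟨a, b⟩ := (mL o).1 ho
      simp only [g]
      split_ifs with e
      · exact (mL _).2 ⟨On o ho, e⟩
      · have b1 := n4 o a
        have b2 := n4 _ (On o ho)
        have b3 := hh o a (by omega) (by omega)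
        exact (mL _).2 ⟨n3 _ (On o ho) (by omega), by omega⟩
    have gi : Set.InjOn g L := by
      intro a ha b hb e
      obtain ⟨a1, a2⟩ := (mL a).1 ha
      obtain ⟨b1, b2⟩ := (mL b).1 hb
      simp only [g] at e
      split_ifs at e with c1 c2 c2
      · exact inj _ a1 _ b1 e
      · have := inj _ a1 _ (On b hb) e; omega
      · have := inj _ (On a ha) _ b1 e; omega
      · exact inj _ a1 _ b1 (inj _ (On a ha) _ (On b hb) e)
    obtain ⟨o, ho, e⟩ := Finset.surj_on_of_inj_on_of_card_le (s := L) (t := L) (fun o _ => g o)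
      gL (fun a b ha hb e => gi ha hb e) le_rfl 0 ((mL 0).2 ⟨O0, by omega⟩)
    have b1 := n2 o ((mL o).1 ho).1
    have b2 := n2 _ (On o ho)
    simp only [g] at e
    split_ifs at e <;> omega
  choose! s s1 s2 s3 s4 using key
  have On : ∀ c < φ.length, O (nx (s c)) := fun c hc =>
    n3 _ (s1 c hc) (by have := s3 c hc; omega)
  have cf : ∀ c d, c < d → d < φ.length → conf φ (nx (s d) - 1) (nx (s c) - 1) = false := by
    intro c d hcd hd
    by_contra hh
    have a1 := s2 c (by omega)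
    have a2 := s3 c (by omega)
    have a3 := s3 d hd
    have a4 := s4 d hd
    have b1 := n1 _ (s1 c (by omega))
    have b2 := n1 _ (On d hd)
    have e : rA φ (2 * nx (s d) + 1) (2 * nx (s c)) = 2 := by
      rw [rA, if_neg (by omega), if_neg (by omega), if_neg (by omega), if_neg (by omega),
        if_neg (by omega), if_neg (by omega), if_pos (by omega), if_pos]
      rw [show (2 * nx (s d) + 1) / 2 = nx (s d) by omega, show 2 * nx (s c) / 2 = nx (s c) by omega]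
      simpa using hh
    rcases h3 (2 * nx (s d) + 1) (2 * nx (s c)) ⟨by omega, by omega, by rw [e]; simp⟩ (fun e => by
      have : 2 * nx (s c) = 2 * nx (nx (s d)) := (h2 _ e _ b2).1 rfl
      omega) with ⟨w, a, b⟩ | ⟨m, a, b⟩
    · obtain rfl : w = 2 * nx (nx (s d)) := (h2 _ a _ b2).1 rfl
      rw [e] at b
      unfold rA at b
      split_ifs at b <;> omega
    · obtain rfl : m = 2 * s c + 1 := (h2 _ a _ b1).2 rfl
      unfold rB at b
      split_ifs at b <;> omega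
  refine (sat3_iff_sel φ).2 ⟨fun c => nx (s c) - 1, fun c hc => ?_, fun c hc d hd => ?_⟩
  · have := s3 c hc
    simp only; omega
  · rcases lt_trichotomy c d with e | rfl | e
    · rw [conf_symm]; exact cf c d e hd
    · exact conf_self _ _
    · exact cf d c e hc

theorem hard : NPH (fun _ : Inst => True) (fun I => ¬ ∃ M, ManOptimal I M) := by
  refine sat3_nph.reduce inst ?_ fun φ _ => ⟨trivial, ?_⟩
  · unfold inst tab rA rB
    fun_prop
  · rw [opt_iff, not_not]
    exact ⟨yes φ, fun ⟨M, h, hx⟩ => no φ M h hx⟩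

end Pool.Agent.H36.SMTI
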