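import Pool.Agent.H36.TabDefs

namespace Pool.Agent.H36.SMTI

open Pool.Agent.H36.Tab

/-- An SMTI instance: numbers of men and women, the rank tables of the men and of the women.
Rank `0` means unacceptable; among positive ranks smaller is better and equal ranks are ties. -/
abbrev Inst := ℕ × ℕ × List (List ℕ) × List (List ℕ)

/-- man `m` and woman `w` exist and find each other acceptable -/
def Acc (I : Inst) (m w : ℕ) : Prop :=
  m < I.1 ∧ w < I.2.1 ∧ tb I.2.2.1 m w ≠ 0 ∧ tb I.2.2.2 w m ≠ 0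

/-- weakly stable matchings -/
def WStable (I : Inst) (M : Finset (ℕ × ℕ)) : Prop :=
  (∀ p ∈ M, Acc I p.1 p.2) ∧ (∀ p ∈ M, ∀ q ∈ M, p.1 = q.1 ↔ p.2 = q.2) ∧
  ∀ m w, Acc I m w → (m, w) ∉ M →
    ¬ ((∀ w', (m, w') ∈ M → tb I.2.2.1 m w < tb I.2.2.1 m w') ∧
       (∀ m', (m', w) ∈ M → tb I.2.2.2 w m < tb I.2.2.2 w m'))

/-- every man is at least as well off in `M` as in any weakly stable matching -/
def ManOptimal (I : Inst) (M : Finset (ℕ × ℕ)) : Prop :=
  WStable I M ∧ ∀ M', WStable I M' → ∀ m w', (m, w') ∈ M' →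
    ∃ w, (m, w) ∈ M ∧ tb I.2.2.1 m w ≤ tb I.2.2.1 m w'

end Pool.Agent.H36.SMTI
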