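import Mathlib

namespace Pool.Agent.H36.Seb

def bt (Fl : ℕ → ℕ → Bool) (x y : ℕ) : Bool :=
  if x < y then !Fl x y else if y < x then Fl y x else false

def cw (m : ℕ) (B : ℕ → ℕ → Bool) (κ : ℕ → ℕ) : Option ℕ :=
  (List.range (m+1)).find? fun s =>
    κ s != 0 && (List.range (m+1)).all fun u => κ u == 0 || u == s || B s u

def ex (d m : ℕ) (B : ℕ → ℕ → Bool) (κ : ℕ → ℕ) (φ : ℕ → ℕ) : ℕ :=
  match cw m B κ with
  | some t => d * φ t
  | none => ((List.range (m+1)).map fun s => if κ s = 0 then 0 else κ s * φ s).sum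

def nest (d m : ℕ) (B : ℕ → ℕ → Bool) : List (ℕ → ℕ) → (ℕ → ℕ) → ℕ
  | [], acc => ex d m B acc fun t => if t < 3 then 1 else 0
  | κ :: L, acc => ex d m B κ fun s => nest d m B L fun u => acc u + if s = u then 1 else 0

def kap (d m : ℕ) (l : List ℕ) (i : ℕ) (s : ℕ) : ℕ :=
  if s < m then (if l.getD s d = i then 1 else 0) else if s = m then d - l.count i else 0

def sumL (d : ℕ) : ℕ → (List ℕ → ℕ) → ℕ
  | 0, Φ => Φ []
  | m+1, Φ => ((List.range d).map fun a => sumL d m fun l => Φ (a :: l)).sum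

def wt (d : ℕ) (l : List ℕ) : ℕ := ((List.range d).map fun i => d.descFactorial (l.count i)).prod

def tot (d m : ℕ) (B : ℕ → ℕ → Bool) : ℕ :=
  sumL d m fun l => wt d l * nest d m B ((List.range d).map (kap d m l)) fun _ => 0

def F5 (x y : ℕ) : Bool := (x == 0 && (y == 1 || y == 2)) || ((x == 1 || x == 2) && (y == 3 || y == 4))
def F4 (x y : ℕ) : Bool := (x == 0 && (y == 1 || y == 2)) || ((x == 1 || x == 2) && y == 3)

theorem t3 : 420 * tot 3 5 (bt F5) ≤ 193 * ((3^2).descFactorial 5 * (3 * 3^3)) := by decide +kernel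
theorem t4 : 420 * tot 4 5 (bt F5) ≤ 193 * ((4^2).descFactorial 5 * (4 * 4^4)) := by decide +kernel
theorem t5 : 420 * tot 5 4 (bt F4) ≤ 193 * ((5^2).descFactorial 4 * (5 * 5^5)) := by decide +kernel
theorem t6 : 420 * tot 6 4 (bt F4) ≤ 193 * ((6^2).descFactorial 4 * (6 * 6^6)) := by decide +kernel

end Pool.Agent.H36.Seb
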