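import Pool.Agent.H36.SeqDefs
import Pool.Agent.H36.Dfa

/-!
Strong sequentiality of orthogonal systems is PSPACE-hard: general facts.
-/

namespace Pool.Agent.H36.Seq

open Pool.Agent.H38.NP List Relation

theorem app_ofFn (f n) (ts : Fin n → Tm) : Tm.app f (ofFn ts) = .node f n ts := by
  simp only [Tm.app, Tm.node.injEq, true_and]
  exact ⟨length_ofFn, (Fin.heq_fun_iff length_ofFn).2 fun i => by simp⟩

theorem Tm.ind {P : Tm → Prop} (hv : ∀ i, P (.var i)) (hd : P .dot)
    (ha : ∀ f ts, (∀ t ∈ ts, P t) → P (.app f ts)) (t : Tm) : P t := by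
  induction t with
  | var => exact hv _
  | dot => exact hd
  | node f n ts ih => exact app_ofFn f n ts ▸ ha f _ (forall_mem_ofFn_iff.2 ih)

@[simp] theorem Tm.app.injEq {f g ss ts} : (Tm.app f ss = Tm.app g ts) = (f = g ∧ ss = ts) := by
  refine propext ⟨fun h => ?_, fun h => h.1 ▸ h.2 ▸ rfl⟩
  simp only [Tm.app, Tm.node.injEq] at h
  exact ⟨h.1, ext_get h.2.1 fun i h1 _ => (Fin.heq_fun_iff h.2.1).1 h.2.2 ⟨i, h1⟩⟩

@[simp] theorem app_ne_var {f ts i} : Tm.app f ts ≠ .var i := by simp [Tm.app]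
@[simp] theorem app_ne_dot {f ts} : Tm.app f ts ≠ .dot := by simp [Tm.app]
@[simp] theorem var_ne_app {f ts i} : .var i ≠ Tm.app f ts := by simp [Tm.app]
@[simp] theorem dot_ne_app {f ts} : .dot ≠ Tm.app f ts := by simp [Tm.app]

theorem ofFn_get' {β : Type} (g : Tm → β) (l : List Tm) :
    (ofFn fun i => g (l.get i)) = l.map g :=
  (List.map_ofFn (f := l.get) (g := g)).symm.trans (by rw [ofFn_get])

theorem subst_app (σ f ts) : subst σ (.app f ts) = .app f (ts.map (subst σ)) := by
  rw [← ofFn_get', app_ofFn]; rfl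

theorem vars_app (f ts) : vars (.app f ts) = ts.flatMap vars := by
  rw [Tm.app, vars, ofFn_get']; rfl

theorem toks_app (f ts) : toks (.app f ts) = (2 + ts.length, f) :: ts.flatMap toks := by
  rw [Tm.app, toks, ofFn_get']; rfl

def Ctx.comp : Ctx → Ctx → Ctx
  | .hole, D => D
  | .app f l C r, D => .app f l (C.comp D) r

theorem fill_comp (C D : Ctx) (t : Tm) : (C.comp D).fill t = C.fill (D.fill t) := by
  induction C with
  | hole => rfl
  | app f l C r ih => simp [Ctx.comp, Ctx.fill, ih]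

theorem fill_app {f ss} {C : Ctx} {d} (h : Tm.app f ss = C.fill d) :
    C = .hole ∨ ∃ l D r, C = .app f l D r ∧ ss = l ++ D.fill d :: r := by
  cases C with
  | hole => exact .inl rfl
  | app g l D r =>
    simp only [Ctx.fill, Tm.app.injEq] at h
    exact .inr ⟨l, D, r, h.1 ▸ rfl, h.2⟩

theorem fill_cst {f} {C : Ctx} {d} (h : Tm.app f [] = C.fill d) : C = .hole := by
  rcases fill_app h with h | ⟨l, D, r, -, h⟩
  · exact h
  · simp at h

variable {R : TRS}

abbrev St (R : TRS) := ReflTransGen (Step R)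

theorem St.ctx (C : Ctx) {s t} (h : St R s t) : St R (C.fill s) (C.fill t) := by
  induction h with
  | refl => exact .refl
  | tail _ hs ih =>
    obtain ⟨D, d, u, h1, h2, h3, h4⟩ := hs
    exact ih.tail ⟨C.comp D, d, u, h1, h2, by rw [fill_comp, h3], by rw [fill_comp, h4]⟩

/-- can become a redex -/
def M (R : TRS) (s : Tm) : Prop := ∃ t, St R s t ∧ Redex R t

theorem M.to {s u} (h : M R s) (hu : WFT R.1 u) : St R s u :=
  let ⟨t, h1, h2⟩ := h
  h1.tail ⟨.hole, t, u, h2, hu, rfl, rfl⟩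

theorem M.of {s t} (h : St R s t) (h' : M R t) : M R s :=
  let ⟨u, h1, h2⟩ := h'
  ⟨u, h.trans h1, h2⟩

theorem NF.st {s t} (h : NF R s) (h' : St R s t) : t = s := by
  rcases h'.cases_head with e | ⟨c, ⟨C, d, u, h1, -, h2, -⟩, -⟩
  · exact e.symm
  · exact (h C d h2 h1).elim

theorem M.nnf {s} (h : M R s) : ¬ NF R s := fun hn =>
  let ⟨_, h1, h2⟩ := h
  hn .hole s rfl (hn.st h1 ▸ h2)

def ca : Tm := .app 0 []

def PW (R : TRS) (ss ts : List Tm) : Prop :=
  ss.length = ts.length ∧ ∀ i, St R (ss.getD i ca) (ts.getD i ca)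

theorem PW.st' {f} {ss ts} (h : PW R ss ts) (l : List Tm) :
    St R (.app f (l ++ ss)) (.app f (l ++ ts)) := by
  induction ss generalizing l ts with
  | nil => cases ts with
    | nil => exact .refl
    | cons => simp [PW] at h
  | cons s ss ih => cases ts with
    | nil => simp [PW] at h
    | cons t ts =>
      have h1 := St.ctx (.app f l .hole ss) (h.2 0)
      have h2 := ih (ts := ts) ⟨by simpa using h.1, fun i => by simpa using h.2 (i + 1)⟩ (l ++ [t])
      simp only [append_assoc, singleton_append] at h2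
      exact h1.trans h2

theorem PW.st {f} {ss ts} (h : PW R ss ts) : St R (.app f ss) (.app f ts) := h.st' []

theorem getD_mid (l : List Tm) (v t : Tm) (r : List Tm) (i : ℕ) :
    (l ++ v :: r).getD i ca = if i = l.length then v else (l ++ t :: r).getD i ca := by
  induction l generalizing i with
  | nil => cases i <;> simp
  | cons a l ih =>
    cases i
    · simp
    · simp only [cons_append, getD_cons_succ, ih, length_cons, Nat.add_right_cancel_iff]

theorem inv {f ss t} (h : St R (.app f ss) t) :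
    (∃ ts, PW R ss ts ∧ Redex R (.app f ts)) ∨ ∃ ts, PW R ss ts ∧ t = .app f ts := by
  induction h with
  | refl => exact .inr ⟨ss, ⟨rfl, fun _ => .refl⟩, rfl⟩
  | tail _ hs ih =>
    rcases ih with ih | ⟨ts, h1, rfl⟩
    · exact .inl ih
    obtain ⟨C, d, u, h2, h3, h4, rfl⟩ := hs
    rcases fill_app h4 with rfl | ⟨l, D, r, rfl, rfl⟩
    · exact .inl ⟨ts, h1, h4 ▸ h2⟩
    · refine .inr ⟨_, ⟨by simpa using h1.1, fun i => (h1.2 i).trans ?_⟩, rfl⟩
      rw [getD_mid l (D.fill d) ca, getD_mid l (D.fill u) ca]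
      split_ifs
      · exact .single ⟨D, d, u, h2, h3, rfl, rfl⟩
      · exact .refl

theorem M.inv {f ss} (h : M R (.app f ss)) : ∃ ts, PW R ss ts ∧ Redex R (.app f ts) := by
  obtain ⟨t, h1, h2⟩ := h
  rcases Seq.inv h1 with h | ⟨ts, h, rfl⟩
  · exact h
  · exact ⟨ts, h, h2⟩

theorem inv' {f ss g ts} (h : St R (.app f ss) (.app g ts)) (hm : ¬ M R (.app f ss)) :
    f = g ∧ PW R ss ts := by
  rcases inv h with ⟨us, h1, h2⟩ | ⟨us, h1, h2⟩
  · exact (hm ⟨_, h1.st, h2⟩).elim
  · obtain ⟨rfl, rfl⟩ := Tm.app.injEq.mp h2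
    exact ⟨rfl, h1⟩

theorem nf_leaf {s} (hs : ∀ f ts, s ≠ .app f ts) (h : ¬ Redex R s) : NF R s := fun C d e => by
  cases C with
  | hole => exact (show s = d from e) ▸ h
  | app => exact (hs _ _ e).elim

theorem st_cst (hv : ∀ t, Redex R t → ∃ f ts, t = .app f ts) {s i}
    (h : St R s (.app i [])) : s = .app i [] ∨ M R s := by
  by_cases hm : M R s
  · exact .inr hm
  induction s using Tm.ind with
  | ha f ss =>
    obtain ⟨rfl, h1⟩ := inv' h hm
    exact .inl (by rw [eq_nil_of_length_eq_zero h1.1])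
  | _ => exact .inl ((nf_leaf (by simp) fun hr => by simpa using hv _ hr).st h).symm

inductive Safe (R : TRS) : Tm → Prop
  | dot : Safe R .dot
  | app (f ts t) : t ∈ ts → Safe R t → ¬ M R (.app f ts) → Safe R (.app f ts)

theorem Safe.hasDot {s} (h : Safe R s) : HasDot s := by
  induction h with
  | dot => exact ⟨.hole, rfl⟩
  | app f ts t h1 _ _ ih =>
    obtain ⟨C, rfl⟩ := ih
    obtain ⟨l, r, rfl⟩ := append_of_mem h1
    exact ⟨.app f l C r, rfl⟩

theorem Safe.step (hd : ¬ Redex R .dot) {s t} (h : Safe R s) (h' : Step R s t) : Safe R t := by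
  induction h generalizing t with
  | dot =>
    obtain ⟨C, d, u, h1, -, h2, -⟩ := h'
    exact (nf_leaf (by simp) hd C d h2 h1).elim
  | app f ts v h1 h2 h3 ih =>
    have h4 : ¬ M R t := fun h => h3 (M.of (.single h') h)
    obtain ⟨C, d, u, h5, h6, h7, rfl⟩ := h'
    rcases fill_app h7 with rfl | ⟨l, D, r, rfl, rfl⟩
    · exact (h3 ⟨_, .refl, h7 ▸ h5⟩).elim
    · simp only [mem_append, mem_cons] at h1
      rcases h1 with h1 | rfl | h1
      · exact .app _ _ v (by simp [h1]) h2 h4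
      · exact .app _ _ _ (by simp) (ih ⟨D, d, u, h5, h6, rfl, rfl⟩) h4
      · exact .app _ _ v (by simp [h1]) h2 h4

theorem Safe.st (hd : ¬ Redex R .dot) {s t} (h : Safe R s) (h' : St R s t) : Safe R t := by
  induction h' with
  | refl => exact h
  | tail _ hs ih => exact ih.step hd hs

theorem Safe.cst (hd : ¬ Redex R .dot) {s i} (h : Safe R s) : ¬ St R s (.app i []) := fun h' => by
  have := h.st hd h'
  generalize e : Tm.app i [] = t at this
  cases this with
  | dot => simp at e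
  | app _ _ _ h => rw [← (Tm.app.injEq.mp e).2] at h; simp at h

theorem nnf_app {f ss} (h : ¬ NF R (.app f ss)) (hr : ¬ Redex R (.app f ss)) :
    ∃ i < ss.length, ¬ NF R (ss.getD i ca) := by
  simp only [NF, not_forall, not_not] at h
  obtain ⟨C, d, e, hd⟩ := h
  rcases fill_app e with rfl | ⟨l, D, r, rfl, rfl⟩
  · exact (hr (e ▸ hd)).elim
  · exact ⟨l.length, by simp, fun hn => hn D d (by rw [getD_mid _ _ ca, if_pos rfl]) hd⟩

theorem split_at {ss : List Tm} {i} (h : i < ss.length) :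
    ∃ l r, l.length = i ∧ ss = l ++ ss.getD i ca :: r :=
  ⟨ss.take i, ss.drop (i + 1), by simp; omega, by simp [h]⟩

theorem ext_getD {ss ts : List Tm} (h : ss.length = ts.length)
    (h' : ∀ i, ss.getD i ca = ts.getD i ca) : ss = ts :=
  ext_getElem h fun i h1 h2 => by simpa [h1, h2] using h' i

theorem hasDot_app {f ts} : HasDot (.app f ts) ↔ ∃ t ∈ ts, HasDot t := by
  constructor
  · rintro ⟨C, e⟩
    rcases fill_app e with rfl | ⟨l, D, r, rfl, rfl⟩
    · exact (app_ne_dot e).elim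
    · exact ⟨D.fill .dot, by simp, D, rfl⟩
  · rintro ⟨t, ht, C, rfl⟩
    obtain ⟨l, r, rfl⟩ := append_of_mem ht
    exact ⟨.app f l C r, rfl⟩

theorem over_app {ar f ts} (h : ar[f]? = some ts.length) (h' : ∀ t ∈ ts, Over ar t) :
    Over ar (.app f ts) :=
  ⟨.node _ _ _ h fun _ => (h' _ (get_mem _ _)).1, fun hd =>
    let ⟨t, ht, e⟩ := hasDot_app.1 hd; (h' t ht).2 e⟩

theorem over_var {ar i} : Over ar (.var i) := ⟨.var _, fun ⟨C, e⟩ => by cases C <;> cases e⟩

@[fun_prop] theorem pt_app {α : Type} [Enc α] {f : α → ℕ} {ts : α → List Tm} (hf : PT f)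
    (ht : PT ts) : PT fun a => Tm.app (f a) (ts a) := by
  have h0 : PT toks := PT.id'.recast' fun _ => rfl
  have : PT fun a => (2 + (ts a).length, f a) :: (ts a).flatMap toks := by fun_prop
  exact this.recast' fun a => by
    change _ = enc (toks _)
    rw [toks_app]

end Pool.Agent.H36.Seq
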