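import Pool.Agent.H36.Seq

/-!
The tower system: strong sequentiality fails iff the transition system synchronizes.
-/

namespace Pool.Agent.H36.Seq

open Pool.Agent.H38.NP List Relation

def ck : Tm := .app 1 []
def cb (c : ℕ) : Tm := .app (2 + c) []
def row (r c : ℕ) (u : Tm) : List Tm := (range r).map fun i => if i = c then u else ca
def sub (r y c : ℕ) (u : Tm) : Tm := .app (r + 2 + y) (ck :: row r c u)
def piT (r : ℕ) (δ : ℕ → ℕ → ℕ) (x y c : ℕ) (u : Tm) : Tm :=
  .app (r + 2 + x) (sub r y c u :: row r (δ y c) (cb c))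
def eps (r n : ℕ) : Tm := .app (r + 2 + n) (replicate (r + 1) ck)

def sys (r n : ℕ) (δ : ℕ → ℕ → ℕ) : TRS :=
  (replicate (r + 2) 0 ++ replicate (n + 1) (r + 1),
    (eps r n, ca) :: (range n).flatMap fun x => (range (n + 1)).flatMap fun y =>
      (range r).map fun c => (piT r δ x y c (.var 0), ca))

variable {r n : ℕ} {δ : ℕ → ℕ → ℕ}

@[simp] theorem row_len {c u} : (row r c u).length = r := by simp [row]

theorem row_get {c u} (hc : c < r) (i : ℕ) :
    (row r c u).getD i ca = if i = c then u else ca := by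
  by_cases h : i < r
  · simp [row, h]
  · rw [getD_eq_default _ _ (by simpa using h), if_neg (by omega)]

theorem mem_row {c u t} (h : t ∈ row r c u) : t = u ∨ t = ca := by
  obtain ⟨i, -, rfl⟩ := mem_map.1 h
  split_ifs <;> simp

theorem subst_cst (σ i) : subst σ (.app i []) = .app i [] := by simp [subst_app]

theorem subst_row (σ c u) : (row r c u).map (subst σ) = row r c (subst σ u) := by
  simp only [row, List.map_map]
  refine map_congr_left fun i _ => ?_
  simp only [Function.comp]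
  split_ifs
  · rfl
  · exact subst_cst _ _

theorem subst_sub (σ y c u) : subst σ (sub r y c u) = sub r y c (subst σ u) := by
  rw [sub, subst_app, map_cons, subst_row, ck, subst_cst]; rfl

theorem subst_pi (σ x y c u) : subst σ (piT r δ x y c u) = piT r δ x y c (subst σ u) := by
  rw [piT, subst_app, map_cons, subst_row, subst_sub, cb, subst_cst]; rfl

theorem subst_eps (σ) : subst σ (eps r n) = eps r n := by
  rw [eps, subst_app, map_replicate, ck, subst_cst]

theorem mem_sys {p} : p ∈ (sys r n δ).2 ↔ p = (eps r n, ca) ∨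
    ∃ x < n, ∃ y ≤ n, ∃ c < r, p = (piT r δ x y c (.var 0), ca) := by
  simp [sys, Nat.lt_succ_iff, eq_comm (a := p)]

theorem redex_iff {t} : Redex (sys r n δ) t ↔ t = eps r n ∨
    ∃ x < n, ∃ y ≤ n, ∃ c < r, ∃ u, t = piT r δ x y c u := by
  constructor
  · rintro ⟨p, hp, σ, rfl⟩
    rcases mem_sys.1 hp with rfl | ⟨x, hx, y, hy, c, hc, rfl⟩
    · exact .inl (subst_eps _)
    · exact .inr ⟨x, hx, y, hy, c, hc, _, subst_pi _ _ _ _ _⟩
  · rintro (rfl | ⟨x, hx, y, hy, c, hc, u, rfl⟩)
    · exact ⟨_, mem_sys.2 (.inl rfl), Tm.var, (subst_eps _).symm⟩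
    · exact ⟨_, mem_sys.2 (.inr ⟨x, hx, y, hy, c, hc, rfl⟩), fun _ => u,
        by rw [subst_pi, subst]⟩

theorem redex_app {t} (h : Redex (sys r n δ) t) : ∃ f ts, t = .app f ts := by
  rcases redex_iff.1 h with rfl | ⟨x, -, y, -, c, -, u, rfl⟩ <;> exact ⟨_, _, rfl⟩

theorem nr_dot : ¬ Redex (sys r n δ) .dot := fun h => by simpa using redex_app h

theorem nr_cst {i} : ¬ Redex (sys r n δ) (.app i []) := fun h => by
  rcases redex_iff.1 h with h | ⟨x, -, y, -, c, -, u, h⟩
  · simp [eps, replicate_succ] at h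
  · simp [piT] at h

theorem nf_cst {i} : NF (sys r n δ) (.app i []) := fun C d e => by
  cases fill_cst e
  exact (show _ = d from e) ▸ nr_cst

theorem other (hr : 2 ≤ r) (c : ℕ) : ∃ i < r, i ≠ c :=
  if h : c = 0 then ⟨1, by omega, by omega⟩ else ⟨0, by omega, by omega⟩

theorem nr_sub (hr : 2 ≤ r) {y c u} (hc : c < r) : ¬ Redex (sys r n δ) (sub r y c u) := fun h => by
  rcases redex_iff.1 h with h | ⟨x, -, y, -, c, -, u, h⟩
  · obtain ⟨i, h1, h2⟩ := other hr c
    simp only [eps, sub, replicate_succ, Tm.app.injEq, cons.injEq, true_and] at h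
    have := row_get (u := u) hc i
    rw [h.2, if_neg h2] at this
    simp [h1, ck, ca] at this
  · simp [piT, sub, ck] at h

theorem ar_G {x} (h : x ≤ n) : (sys r n δ).1[r + 2 + x]? = some (r + 1) := by
  simp only [sys]
  rw [getElem?_append_right (by simp)]
  simp [getElem?_replicate]
  omega

theorem over_cst {i} (h : i < r + 2) : Over (sys r n δ).1 (.app i []) :=
  over_app (by simp only [sys]; rw [getElem?_append_left (by simpa)]; simp [h]) (by simp)

theorem over_G {x t ts} (h : x ≤ n) (hl : ts.length = r) (ht : Over (sys r n δ).1 t)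
    (hs : ∀ t ∈ ts, Over (sys r n δ).1 t) : Over (sys r n δ).1 (.app (r + 2 + x) (t :: ts)) :=
  over_app (by rw [ar_G h, length_cons, hl]) (forall_mem_cons.2 ⟨ht, hs⟩)

theorem over_row {c u} (hu : Over (sys r n δ).1 u) : ∀ t ∈ row r c u, Over (sys r n δ).1 t :=
  fun t ht => by
    rcases mem_row ht with rfl | rfl
    · exact hu
    · exact over_cst (by omega)

theorem over_sub {y c u} (h : y ≤ n) (hu : Over (sys r n δ).1 u) :
    Over (sys r n δ).1 (sub r y c u) :=
  over_G h row_len (over_cst (by omega)) (over_row hu)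

theorem over_eps : Over (sys r n δ).1 (eps r n) :=
  over_app (by rw [ar_G le_rfl]; simp) fun t ht => by
    rw [eq_of_mem_replicate ht]; exact over_cst (by omega)

theorem vars_cst (i) : vars (.app i []) = [] := by simp [vars_app]

theorem vars_row (c u) : (row r c u).flatMap vars = if c < r then vars u else [] := by
  induction r with
  | zero => simp [row]
  | succ r ih =>
    rw [row, range_succ, map_append, flatMap_append, ← row, ih]
    by_cases h1 : c < r
    · simp [h1, h1.ne', h1.le, Nat.lt_succ_iff, ca, vars_cst]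
    · by_cases h2 : r = c
      · simp [h2]
      · simp [h1, h2, ca, vars_cst, show ¬ c < r + 1 by omega]

theorem orth (hr : 2 ≤ r) (hδ : ∀ y ≤ n, ∀ c < r, δ y c < r) : Orthogonal (sys r n δ) := by
  refine ⟨fun p hp => ?_, fun p hp q hq C u σ τ e hu h => ?_⟩
  · rcases mem_sys.1 hp with rfl | ⟨x, hx, y, hy, c, hc, rfl⟩
    · refine ⟨over_eps, over_cst (by omega), by simp [eps], by simp [ca, vars_cst], ?_⟩
      simp [eps, vars_app, ck, flatMap_replicate]
    · refine ⟨over_G hx.le row_len (over_sub hy over_var) (over_row (over_cst (by omega))),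
        over_cst (by omega), by simp [piT], by simp [ca, vars_cst], ?_⟩
      simp [piT, sub, vars, vars_app, vars_row, ck, cb, hc]
  have hred : Redex (sys r n δ) (subst σ u) := ⟨q, hq, τ, h⟩
  have k1 : ∀ i (D : Ctx), Tm.app i [] ≠ D.fill u := fun i D e => by
    cases fill_cst e
    rw [← show Tm.app i [] = u from e, subst_cst] at hred
    exact nr_cst hred
  have hC : C = .hole := by
    rcases mem_sys.1 hp with rfl | ⟨x, hx, y, hy, c, hc, rfl⟩
    · rcases fill_app e with h | ⟨l, D, rr, -, h⟩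
      · exact h
      · have : D.fill u ∈ replicate (r + 1) ck := h ▸ by simp
        exact (k1 _ D (eq_of_mem_replicate this).symm).elim
    · rcases fill_app e with h | ⟨l, D, rr, -, h⟩
      · exact h
      have : D.fill u ∈ sub r y c (.var 0) :: row r (δ y c) (cb c) := h ▸ by simp
      rcases mem_cons.1 this with h | h
      · rcases fill_app h.symm with rfl | ⟨l, D, rr, -, h⟩
        · rw [show u = _ from h, subst_sub] at hred
          exact (nr_sub hr hc hred).elim
        have : D.fill u ∈ ck :: row r c (.var 0) := h ▸ by simp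
        rcases mem_cons.1 this with h | h
        · exact (k1 _ D h.symm).elim
        rcases mem_row h with h | h
        · cases D with
          | hole => exact (hu _ h).elim
          | app => cases h
        · exact (k1 _ D h.symm).elim
      · rcases mem_row h with h | h <;> exact (k1 _ D h.symm).elim
  subst hC
  refine ⟨?_, rfl⟩
  rw [← show p.1 = u from e] at h
  rcases mem_sys.1 hp with rfl | ⟨x, hx, y, hy, c, hc, rfl⟩ <;>
    rcases mem_sys.1 hq with rfl | ⟨x', hx', y', hy', c', hc', rfl⟩ <;>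
    simp only [subst_eps, subst_pi] at h
  · rfl
  · simp [eps, piT] at h; omega
  · simp [eps, piT] at h; omega
  · simp only [piT, sub, Tm.app.injEq, cons.injEq] at h
    have h1 := row_get (u := cb c) (hδ y hy c hc) (δ y c)
    rw [h.2.2, row_get (hδ y' hy' c' hc'), if_pos rfl] at h1
    have : c' = c := by
      split_ifs at h1 <;> simp [cb, ca] at h1
      · exact h1
      · omega
    rw [show x = x' by omega, show y = y' by omega, this]

/-- trajectories of the positions -/
inductive Traj (n : ℕ) (δ : ℕ → ℕ → ℕ) : ℕ → (ℕ → ℕ) → Prop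
  | base : Traj n δ n id
  | step (y g x) : Traj n δ y g → x < n → Traj n δ x (δ y ∘ g)

theorem Traj.lt (hδ : ∀ y ≤ n, ∀ c < r, δ y c < r) {y g} (h : Traj n δ y g) :
    y ≤ n ∧ ∀ c < r, g c < r := by
  induction h with
  | base => exact ⟨le_rfl, fun _ h => h⟩
  | step y g x _ hx ih => exact ⟨hx.le, fun c hc => hδ y ih.1 _ (ih.2 c hc)⟩

open Classical in
/-- arguments of a tower node -/
noncomputable def args (r n : ℕ) (g : ℕ → ℕ) : List Tm :=
  (range r).map fun c => if ∃ c' < r, g c' = c then eps r n else ca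

theorem args_get {g : ℕ → ℕ} (hg : ∀ c < r, g c < r) (i : ℕ) :
    ((∃ c' < r, g c' = i) ∧ (args r n g).getD i ca = eps r n) ∨
    ((¬ ∃ c' < r, g c' = i) ∧ (args r n g).getD i ca = ca) := by
  by_cases h : i < r
  · by_cases h' : ∃ c' < r, g c' = i
    · exact .inl ⟨h', by simp only [args]; rw [getD_eq_getElem _ _ (by simpa)]; simp [h']⟩
    · exact .inr ⟨h', by simp only [args]; rw [getD_eq_getElem _ _ (by simpa)]; simp [h']⟩
  · exact .inr ⟨fun ⟨c, h1, h2⟩ => h (h2 ▸ hg c h1), getD_eq_default _ _ (by simpa [args] using h)⟩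

theorem m_eps : M (sys r n δ) (eps r n) := ⟨_, .refl, redex_iff.2 (.inl rfl)⟩

theorem occ_eps {C : Ctx} {d} (e : eps r n = C.fill d) (hd : Redex (sys r n δ) d) : C = .hole := by
  rcases fill_app e with h | ⟨l, D, rr, -, h⟩
  · exact h
  · have : D.fill d ∈ replicate (r + 1) ck := h ▸ by simp
    exact (nf_cst D d (eq_of_mem_replicate this).symm hd).elim

theorem node {g : ℕ → ℕ} (hg : ∀ c < r, g c < r) {x t} (ht : St (sys r n δ) t ck)
    {l rr : List Tm} {D : Ctx} {d} (hd : Redex (sys r n δ) d)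
    (e : args r n g = l ++ D.fill d :: rr) : ∃ c < r, ∃ u,
    St (sys r n δ) (.app (r + 2 + x) (t :: (l ++ D.fill .dot :: rr))) (sub r x (g c) u) := by
  have h1 := args_get (n := n) hg l.length
  rw [e, getD_mid _ _ ca, if_pos rfl] at h1
  rcases h1 with ⟨⟨c, hc, h1⟩, h2⟩ | ⟨-, h2⟩
  swap
  · exact (nf_cst D d h2.symm hd).elim
  cases occ_eps h2.symm hd
  refine ⟨c, hc, .dot, PW.st ⟨by simpa [args] using (congrArg length e).symm, fun i => ?_⟩⟩
  rcases i with _ | i
  · exact ht
  simp only [getD_cons_succ]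
  rw [getD_mid _ _ (Ctx.hole.fill d), ← e, row_get (hg c hc), h1]
  split_ifs
  · exact .refl
  · rcases args_get (n := n) hg i with h | h <;> rw [h.2]
    exact m_eps.to (over_cst (by omega)).1

theorem up {y} {g : ℕ → ℕ} (hg : ∀ c < r, δ y (g c) < r) {x s c u} (hx : x < n) (hy : y ≤ n)
    (hc : c < r) (hgc : g c < r) (h : St (sys r n δ) s (sub r y (g c) u)) :
    M (sys r n δ) (.app (r + 2 + x) (s :: args r n (δ y ∘ g))) := by
  refine ⟨_, PW.st ⟨by simp [args], fun i => ?_⟩,
    redex_iff.2 (.inr ⟨x, hx, y, hy, g c, hgc, u, rfl⟩)⟩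
  rcases i with _ | i
  · exact h
  simp only [getD_cons_succ]
  rw [row_get (hg c hc)]
  rcases args_get (n := n) (g := δ y ∘ g) hg i with h | h <;> rw [h.2]
  · split_ifs
    · exact m_eps.to (over_cst (by omega)).1
    · exact m_eps.to (over_cst (by omega)).1
  · rw [if_neg fun e => h.1 ⟨c, hc, e.symm⟩]

theorem over_args {g} : ∀ t ∈ args r n g, Over (sys r n δ).1 t := fun t ht => by
  obtain ⟨i, -, rfl⟩ := mem_map.1 ht
  split_ifs
  · exact over_eps
  · exact over_cst (by omega)

theorem tower (hr : 2 ≤ r) (hδ : ∀ y ≤ n, ∀ c < r, δ y c < r) {y g} (h : Traj n δ y g) :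
    ∃ t0, Over (sys r n δ).1 (.app (r + 2 + y) (t0 :: args r n g)) ∧
      M (sys r n δ) (.app (r + 2 + y) (t0 :: args r n g)) ∧
      (∀ y' c u, c < r → .app (r + 2 + y) (t0 :: args r n g) ≠ sub r y' c u) ∧
      ∀ (C : Ctx) d, .app (r + 2 + y) (t0 :: args r n g) = C.fill d → Redex (sys r n δ) d →
        ∃ c < r, ∃ u, St (sys r n δ) (C.fill .dot) (sub r y (g c) u) := by
  induction h with
  | base =>
    have ha : ∀ i < r, (args r n id).getD i ca = eps r n := fun i hi =>
      ((args_get (fun _ h => h) i).resolve_right fun h => h.1 ⟨i, hi, rfl⟩).2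
    refine ⟨ck, over_G le_rfl (by simp [args]) (over_cst (by omega)) over_args,
      ⟨_, PW.st ⟨by simp [args], fun i => ?_⟩, redex_iff.2 (.inl rfl)⟩, fun y c u hc e => ?_,
      fun C d e hd => ?_⟩
    · rcases i with _ | i
      · exact .refl
      simp only [getD_cons_succ, replicate_succ]
      by_cases hi : i < r
      · rw [ha i hi, getD_eq_getElem _ _ (by simpa), getElem_replicate]
        exact m_eps.to (over_cst (by omega)).1
      · rw [getD_eq_default _ _ (by simpa [args] using hi), getD_eq_default _ _ (by simpa using hi)]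
    · obtain ⟨i, h1, h2⟩ := other hr c
      simp only [sub, Tm.app.injEq, cons.injEq] at e
      have := ha i h1
      rw [e.2.2, row_get hc, if_neg h2] at this
      simp [ca, eps] at this
    rcases fill_app e with rfl | ⟨l, D, rr, rfl, h⟩
    · rcases redex_iff.1 ((show _ = d from e) ▸ hd) with h | ⟨x, hx, y, -, c, -, u, h⟩
      · simp only [eps, Tm.app.injEq, replicate_succ, cons.injEq, true_and] at h
        have := ha 0 (by omega)
        rw [h, getD_eq_getElem _ _ (by simp; omega), getElem_replicate] at this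
        simp [ck, eps] at this
      · simp [piT] at h; omega
    rcases l with _ | ⟨a, l⟩
    · exact (nf_cst D d (cons.inj h).1 hd).elim
    · obtain ⟨rfl, h'⟩ := cons.inj h
      exact node (g := id) (fun _ h => h) .refl hd h'
  | step y g x h hx ih =>
    obtain ⟨t0, h1, h2, h3, h4⟩ := ih
    obtain ⟨hy, hg⟩ := h.lt hδ
    have hg' := fun c hc => hδ y hy _ (hg c hc)
    have ho : ∀ y ≤ n, ∀ c, WFT (sys r n δ).1 (sub r y c ca) := fun y hy c =>
      (over_sub hy (over_cst (by omega))).1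
    refine ⟨_, over_G hx.le (by simp [args]) h1 over_args,
      up hg' hx hy (c := 0) (by omega) (hg 0 (by omega)) (h2.to (ho y hy _)), fun y c u hc e => ?_,
      fun C d e hd => ?_⟩
    · simp [sub, ck] at e
    rcases fill_app e with rfl | ⟨l, D, rr, rfl, h⟩
    · rcases redex_iff.1 ((show _ = d from e) ▸ hd) with h | ⟨x, hx, y, -, c, hc, u, h⟩
      · simp [eps] at h; omega
      · simp only [piT, Tm.app.injEq, cons.injEq] at h
        exact (h3 _ _ _ hc h.2.1).elim
    rcases l with _ | ⟨a, l⟩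
    · obtain ⟨e1, rfl⟩ := cons.inj h
      obtain ⟨c, hc, u, h5⟩ := h4 D d e1 hd
      exact ⟨0, by omega, _, (up hg' hx hy hc (hg c hc) h5).to (ho x hx.le _)⟩
    · obtain ⟨rfl, h'⟩ := cons.inj h
      exact node (g := δ y ∘ g) hg' (h2.to (over_cst (by omega)).1) hd h'

theorem not_ss (hr : 2 ≤ r) (hn : 0 < n) (hδ : ∀ y ≤ n, ∀ c < r, δ y c < r) {y g z}
    (h : Traj n δ y g) (hz : ∀ c < r, g c = z) : ¬ StronglySequential (sys r n δ) := fun hs => by
  obtain ⟨t0, h1, h2, h3, h4⟩ := tower hr hδ h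
  obtain ⟨hy, hg⟩ := h.lt hδ
  have hzr : z < r := hz 0 (by omega) ▸ hg 0 (by omega)
  obtain ⟨C, d, e, hd, hn⟩ := hs (.app (r + 2 + 0) (_ :: row r (δ y z) (cb z)))
    (over_G (by omega) row_len h1 (over_row (over_cst (by omega))))
    fun hn => h2.nnf fun C d e => hn (.app _ [] C _) d (by rw [e]; rfl)
  rcases fill_app e with rfl | ⟨l, D, rr, rfl, h⟩
  · rcases redex_iff.1 ((show _ = d from e) ▸ hd) with h | ⟨x, hx, y, -, c, hc, u, h⟩
    · simp [eps] at h; omega
    · simp only [piT, Tm.app.injEq, cons.injEq] at h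
      exact (h3 _ _ _ hc h.2.1).elim
  rcases l with _ | ⟨a, l⟩
  · obtain ⟨e1, rfl⟩ := cons.inj h
    obtain ⟨c, hc, u, h5⟩ := h4 D d e1 hd
    rw [hz c hc] at h5
    have : M (sys r n δ) _ := ⟨_, St.ctx (.app (r + 2 + 0) [] .hole (row r (δ y z) (cb z))) h5,
      redex_iff.2 (.inr ⟨0, by omega, y, hy, z, hzr, u, rfl⟩)⟩
    exact (over_cst (r := r) (n := n) (δ := δ) (i := 0) (by omega)).2 (hn _ (this.to (over_cst (by omega)).1) nf_cst)
  · have : D.fill d ∈ row r (δ y z) (cb z) := (cons.inj h).2 ▸ by simp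
    rcases mem_row this with h | h <;> exact nf_cst D d h.symm hd

/-- a tower can be absorbed by a parent that absorbs the positions in `A` -/
def Live (r n : ℕ) (δ : ℕ → ℕ → ℕ) (A : ℕ → ℕ → Prop) : Prop :=
  ∃ y g, Traj n δ y g ∧ ∀ c < r, A y (g c)

def Idx (r n : ℕ) (δ : ℕ → ℕ → ℕ) (A : ℕ → ℕ → Prop) (s : Tm) : Prop :=
  ∃ (C : Ctx) (d : Tm), s = C.fill d ∧ Redex (sys r n δ) d ∧ Safe (sys r n δ) (C.fill .dot) ∧
    ∀ y ≤ n, ∀ c < r, A y c → ∀ u, ¬ St (sys r n δ) (C.fill .dot) (sub r y c u)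

def Exc (r n : ℕ) (δ : ℕ → ℕ → ℕ) (A : ℕ → ℕ → Prop) (s : Tm) : Prop :=
  ¬ M (sys r n δ) s ∧ ∃ y ≤ n, ∃ c < r, A y c ∧
    ((∀ c' < r, A y c' → c' = c) → ∃ u, s = sub r y c u)

theorem two {s i j} (h : St (sys r n δ) s (.app i [])) (h' : St (sys r n δ) s (.app j []))
    (e : i ≠ j) : ¬ NF (sys r n δ) s := fun hn => e (by simpa using (hn.st h).trans (hn.st h').symm)

theorem main (hr : 2 ≤ r) (hδ : ∀ y ≤ n, ∀ c < r, δ y c < r)
    (H : ∀ y g, Traj n δ y g → ∀ z, ¬ ∀ c < r, g c = z) (s : Tm) :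
    ¬ NF (sys r n δ) s → ∀ A, ¬ Live r n δ A → Idx r n δ A s ∨ Exc r n δ A s := by
  induction s using Tm.ind with
  | hv i => exact fun h => (h (nf_leaf (by simp) fun h => by simpa using redex_app h)).elim
  | hd => exact fun h => (h (nf_leaf (by simp) nr_dot)).elim
  | ha f ss ih =>
  intro hs A hA
  by_cases hred : Redex (sys r n δ) (.app f ss)
  · exact .inl ⟨.hole, _, rfl, hred, .dot, fun y _ c _ _ u h => by
      cases (nf_leaf (by simp) nr_dot).st h⟩
  by_contra hcon
  rw [not_or] at hcon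
  obtain ⟨hI, hE⟩ := hcon
  have mem : ∀ i < ss.length, ss.getD i ca ∈ ss := fun i hi => by simp [hi]
  -- positions `j + 1`
  have bad : ∀ j, ¬ NF (sys r n δ) (ss.getD (j + 1) ca) → ∃ y ≤ n, f = r + 2 + y ∧
      ss.length = r + 1 ∧ j < r ∧ A y j ∧ St (sys r n δ) (ss.getD 0 ca) ck ∧
      ∀ i ≠ j, St (sys r n δ) (ss.getD (i + 1) ca) ca := fun j hj => by
    have hl : j + 1 < ss.length := by
      by_contra h
      exact hj (getD_eq_default _ _ (not_lt.1 h) ▸ nf_cst)
    rcases ih _ (mem _ hl) hj (fun _ _ => False) (fun ⟨_, _, _, h⟩ => h 0 (by omega)) with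
      ⟨D, d, e, hd, h1, -⟩ | ⟨-, _, -, _, -, h, -⟩
    swap
    · exact h.elim
    obtain ⟨l, rr, el, es⟩ := split_at hl
    have gj : (l ++ D.fill .dot :: rr).getD (j + 1) ca = D.fill .dot := by
      rw [getD_mid _ _ ca, if_pos el.symm]
    have gi : ∀ i ≠ j + 1, (l ++ D.fill .dot :: rr).getD i ca = ss.getD i ca := fun i hi => by
      rw [getD_mid _ _ (ss.getD (j + 1) ca), if_neg (el ▸ hi), ← es]
    have gl : (l ++ D.fill .dot :: rr).length = ss.length := by rw [es]; simp
    have hm : ¬ M (sys r n δ) (.app f (l ++ D.fill .dot :: rr)) := fun h => by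
      obtain ⟨ts, h2, h3⟩ := h.inv
      have h4 := h2.2 (j + 1)
      rw [gj] at h4
      rcases redex_iff.1 h3 with h | ⟨x, hx, y, hy, c, hc, u, h⟩ <;>
        obtain ⟨rfl, rfl⟩ := Tm.app.injEq.mp h
      · rw [getD_eq_getElem _ _ (by rw [← h2.1, gl]; exact hl), getElem_replicate] at h4
        exact h1.cst nr_dot h4
      · rw [getD_cons_succ, row_get (hδ y hy c hc)] at h4
        split_ifs at h4 <;> exact h1.cst nr_dot h4
    by_contra hn
    refine hI ⟨.app f l D rr, d, by rw [es, e]; rfl, hd, .app _ _ _ (by simp) h1 hm,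
      fun y hy c hc ha u h => hn ?_⟩
    obtain ⟨rfl, h2⟩ := inv' h hm
    have h4 := h2.2 (j + 1)
    rw [gj, getD_cons_succ, row_get hc] at h4
    obtain rfl : j = c := by
      by_contra e
      rw [if_neg e] at h4
      exact h1.cst nr_dot h4
    refine ⟨y, hy, rfl, by simpa [gl] using h2.1, hc, ha, gi 0 (by omega) ▸ h2.2 0, fun i hi => ?_⟩
    have := h2.2 (i + 1)
    rwa [gi _ (by omega), getD_cons_succ, row_get hc, if_neg hi] at this
  -- position `0`
  let B : ℕ → ℕ → Prop := fun y c => ∃ x < n, f = r + 2 + x ∧ ss.length = r + 1 ∧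
    ∀ i, St (sys r n δ) (ss.getD (i + 1) ca) (if i = δ y c then cb c else ca)
  have zero : ¬ NF (sys r n δ) (ss.getD 0 ca) → ¬ Live r n δ B → Exc r n δ B (ss.getD 0 ca) :=
    fun h0 hB => by
    have hl : 0 < ss.length := by
      by_contra h
      exact h0 (getD_eq_default _ _ (not_lt.1 h) ▸ nf_cst)
    refine (ih _ (mem _ hl) h0 B hB).resolve_left fun ⟨D, d, e, hd, h1, h5⟩ => ?_
    obtain ⟨t, rr, rfl⟩ := exists_cons_of_length_pos hl
    have hm : ¬ M (sys r n δ) (.app f (D.fill .dot :: rr)) := fun h => by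
      obtain ⟨ts, h2, h3⟩ := h.inv
      rcases redex_iff.1 h3 with h | ⟨x, hx, y, hy, c, hc, u, h⟩ <;>
        obtain ⟨rfl, rfl⟩ := Tm.app.injEq.mp h
      · exact h1.cst nr_dot (h2.2 0)
      · exact h5 y hy c hc ⟨x, hx, rfl, by simpa using h2.1, fun i => by
          simpa only [getD_cons_succ, row_get (hδ y hy c hc)] using h2.2 (i + 1)⟩ u (h2.2 0)
    exact hI ⟨.app f [] D rr, d, by rw [show t = _ from e]; rfl, hd, .app _ _ _ (by simp) h1 hm,
      fun y hy c hc ha u h => h1.cst nr_dot ((inv' h hm).2.2 0)⟩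
  by_cases hT : ∀ j, NF (sys r n δ) (ss.getD (j + 1) ca)
  · obtain ⟨i, -, hi⟩ := nnf_app hs hred
    obtain rfl : i = 0 := by
      rcases i with _ | i
      · rfl
      · exact (hi (hT i)).elim
    have uq : ∀ y c c', B y c → B y c' → c' = c := fun y c c' ⟨_, _, _, _, h⟩ ⟨_, _, _, _, h'⟩ => by
      have := ((hT _).st (h (δ y c))).trans ((hT _).st (h' (δ y c))).symm
      rw [if_pos rfl] at this
      split_ifs at this <;> simp only [cb, ca, Tm.app.injEq, and_true] at this <;> omega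
    obtain ⟨-, y, hy, c, hc, h1, h2⟩ := zero hi fun ⟨y, g, h1, h2⟩ =>
      H y g h1 (g 0) fun c hc => uq y _ _ (h2 0 (by omega)) (h2 c hc)
    obtain ⟨u, h2'⟩ := h2 fun c' _ h => uq y _ _ h1 h
    obtain ⟨x, hx, rfl, hl, h3⟩ := h1
    refine hred (redex_iff.2 (.inr ⟨x, hx, y, hy, c, hc, u, congrArg _ (ext_getD (by simpa) ?_)⟩))
    rintro (_ | i)
    · exact h2'
    · rw [getD_cons_succ, row_get (hδ y hy c hc), (hT i).st (h3 i)]
  rw [not_forall] at hT
  obtain ⟨j, hj⟩ := hT
  obtain ⟨y0, hy0, rfl, hl, hjr, hAj, h0, ho⟩ := bad j hj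
  have bad' : ∀ i, ¬ NF (sys r n δ) (ss.getD (i + 1) ca) → A y0 i := fun i hi => by
    obtain ⟨y, -, e, -, -, h, -⟩ := bad i hi
    rwa [show y0 = y by omega]
  by_cases hN : NF (sys r n δ) (ss.getD 0 ca)
  swap
  · refine (zero hN fun ⟨y, g, h1, h2⟩ => ?_).1
      ((st_cst (fun _ => redex_app) h0).resolve_left fun e => hN (e ▸ nf_cst))
    obtain ⟨x, hx, e, -⟩ := h2 0 (by omega)
    refine hA ⟨y0, _, .step y g y0 h1 (by omega), fun c hc => ?_⟩
    obtain ⟨-, -, -, -, h3⟩ := h2 c hc
    by_cases e : δ y (g c) = j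
    · exact show A y0 (δ y (g c)) from e ▸ hAj
    · have h4 := h3 (δ y (g c))
      rw [if_pos rfl] at h4
      exact bad' _ (two h4 (ho _ e) (by omega))
  have e0 := hN.st h0
  refine hE ⟨fun h => ?_, y0, hy0, j, hjr, hAj, fun h => ⟨ss.getD (j + 1) ca,
    congrArg _ (ext_getD (by simpa) ?_)⟩⟩
  · obtain ⟨ts, h2, h3⟩ := h.inv
    rcases redex_iff.1 h3 with h | ⟨x, hx, y, hy, c, hc, u, h⟩
    · simp only [eps, Tm.app.injEq] at h
      obtain ⟨h, rfl⟩ := h
      obtain rfl : y0 = n := by omega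
      refine hA ⟨y0, id, .base, fun c hc => ?_⟩
      by_cases e : c = j
      · exact e ▸ hAj
      · have h4 := h2.2 (c + 1)
        rw [getD_eq_getElem (replicate _ _) _ (by simpa), getElem_replicate] at h4
        exact bad' _ (two h4 (ho _ e) (by omega))
    · simp only [piT, Tm.app.injEq] at h
      obtain ⟨h, rfl⟩ := h
      have := (hN.st (h2.2 0)).trans e0.symm
      simp [sub, ck] at this
  · rintro (_ | i)
    · exact e0.symm
    rw [getD_cons_succ, row_get hjr]
    split_ifs with e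
    · rw [e]
    · by_cases hi : NF (sys r n δ) (ss.getD (i + 1) ca)
      · exact (hi.st (ho i e)).symm
      · obtain ⟨-, -, -, -, h5, -⟩ := bad i hi
        exact (e (h i h5 (bad' i hi))).elim

theorem ss_iff (hr : 2 ≤ r) (hn : 0 < n) (hδ : ∀ y ≤ n, ∀ c < r, δ y c < r) :
    ¬ StronglySequential (sys r n δ) ↔ ∃ y g z, Traj n δ y g ∧ ∀ c < r, g c = z := by
  refine ⟨fun h => by_contra fun hc => h fun t _ ht => ?_, fun ⟨y, g, z, h1, h2⟩ =>
    not_ss hr hn hδ h1 h2⟩
  rcases main hr hδ (fun y g h1 z h2 => hc ⟨y, g, z, h1, h2⟩) t ht (fun _ _ => False)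
    (fun ⟨_, _, _, h⟩ => h 0 (by omega)) with ⟨C, d, e, hd, h1, -⟩ | ⟨-, _, -, _, -, h, -⟩
  · exact ⟨C, d, e, hd, fun s h _ => (h1.st nr_dot h).hasDot⟩
  · exact h.elim

end Pool.Agent.H36.Seq
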