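import Pool.Agent.H36.Seq2
import Pool.Agent.H36.Sim

/-!
Reduction from DFA intersection to the failure of strong sequentiality.
-/

namespace Pool.Agent.H36.Seq

open Pool.Agent.H38.NP Pool.Agent.H36.PSpace List

def MM (Ds : List Dfa) : ℕ := (Ds.map length).sum + 1
def rr (Ds : List Dfa) : ℕ := 2 + Ds.length * MM Ds

def dl (Ds : List Dfa) (y c : ℕ) : ℕ :=
  if c < 2 then (if y = 3 then 0 else c) else
  if y = 3 then 2 + (c - 2) / MM Ds * MM Ds else
  if y = 2 then (if dacc (Ds.getD ((c - 2) / MM Ds) []) ((c - 2) % MM Ds) = true then 0 else 1)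
  else 2 + (c - 2) / MM Ds * MM Ds +
    dstep (Ds.getD ((c - 2) / MM Ds) []) ((c - 2) % MM Ds) (decide (y = 1))

variable {Ds : List Dfa}

theorem dl_code {y d q} (h : q < MM Ds) : dl Ds y (2 + d * MM Ds + q) =
    if y = 3 then 2 + d * MM Ds else
    if y = 2 then (if dacc (Ds.getD d []) q = true then 0 else 1)
    else 2 + d * MM Ds + dstep (Ds.getD d []) q (decide (y = 1)) := by
  have e : 2 + d * MM Ds + q - 2 = q + d * MM Ds := by omega
  rw [dl, if_neg (by omega), e, Nat.add_mul_div_right _ _ (by omega), Nat.div_eq_of_lt h,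
    Nat.add_mul_mod_self_right, Nat.mod_eq_of_lt h, zero_add]

theorem dstep_lt (hw : WF Ds) {d} (hd : d < Ds.length) (q b) :
    dstep (Ds.getD d []) q b < MM Ds := by
  have hm : Ds.getD d [] ∈ Ds := by simp [hd]
  by_cases h : q < (Ds.getD d []).length
  · have := (hw.2 _ hm).2 q h b
    have := single_le_sum (by simp) _ (mem_map_of_mem (f := length) hm)
    unfold MM; omega
  · rw [dstep, getD_eq_default _ _ (not_lt.1 h)]
    cases b <;> simp [MM]

theorem run_lt (hw : WF Ds) {d} (hd : d < Ds.length) (w : List Bool) :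
    w.foldl (dstep (Ds.getD d [])) 0 < MM Ds := by
  induction w using reverseRecOn with
  | nil => simp [MM]
  | append_singleton w b _ => rw [foldl_append]; exact dstep_lt hw hd _ _

theorem code_lt {d q} (hd : d < Ds.length) (hq : q < MM Ds) : 2 + d * MM Ds + q < rr Ds := by
  have := Nat.mul_le_mul_right (MM Ds) (Nat.succ_le_of_lt hd)
  rw [Nat.succ_mul] at this
  unfold rr; omega

theorem decode {c} (h : c < rr Ds) : c < 2 ∨ ∃ d < Ds.length, ∃ q < MM Ds, c = 2 + d * MM Ds + q := by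
  by_cases h2 : c < 2
  · exact .inl h2
  have hM : 0 < MM Ds := Nat.succ_pos _
  refine .inr ⟨(c - 2) / MM Ds, Nat.div_lt_of_lt_mul (by unfold rr at h; rw [mul_comm]; omega),
    (c - 2) % MM Ds, Nat.mod_lt _ hM, ?_⟩
  have := Nat.div_add_mod' (c - 2) (MM Ds)
  omega

theorem dl_lt (hw : WF Ds) : ∀ y ≤ 3, ∀ c < rr Ds, dl Ds y c < rr Ds := fun y _ c hc => by
  have h2 : 2 ≤ rr Ds := Nat.le_add_right _ _
  rcases decode hc with h | ⟨d, hd, q, hq, rfl⟩
  · rw [dl, if_pos h]; split_ifs <;> omega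
  · rw [dl_code hq]
    split_ifs
    · omega
    · omega
    · omega
    · exact code_lt hd (dstep_lt hw hd _ _)

theorem inter_iff' : Inter Ds ↔ ∃ w : List Bool, ∀ d < Ds.length,
    dacc (Ds.getD d []) (w.foldl (dstep (Ds.getD d [])) 0) = true :=
  exists_congr fun w => by
    rw [forall_mem_iff_getElem]
    exact forall₂_congr fun d hd => by rw [getD_eq_getElem _ _ hd]

theorem sync_iff (hw : WF Ds) :
    Inter Ds ↔ ∃ y g z, Traj 3 (dl Ds) y g ∧ ∀ c < rr Ds, g c = z := by
  have hM : 0 < MM Ds := Nat.succ_pos _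
  have h2 : 2 ≤ rr Ds := Nat.le_add_right _ _
  rw [inter_iff']
  constructor
  · rintro ⟨w, hw'⟩
    have : ∀ w : List Bool, ∀ x < 3, ∃ g, Traj 3 (dl Ds) x g ∧ (∀ c < 2, g c = 0) ∧
        ∀ d < Ds.length, ∀ q < MM Ds,
          g (2 + d * MM Ds + q) = 2 + d * MM Ds + w.foldl (dstep (Ds.getD d [])) 0 := by
      intro w
      induction w using reverseRecOn with
      | nil => exact fun x hx => ⟨_, .step _ _ x .base hx, fun c hc => by simp [dl, hc],
          fun d _ q hq => by simp [dl_code hq]⟩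
      | append_singleton w b ih =>
        intro x hx
        obtain ⟨g, h1, h3, h4⟩ := ih b.toNat (by cases b <;> simp)
        refine ⟨_, .step _ _ x h1 hx, fun c hc => by simp [dl, h3 c hc], fun d hd q hq => ?_⟩
        rw [Function.comp, h4 d hd q hq, dl_code (run_lt hw hd w), foldl_append]
        cases b <;> simp
    obtain ⟨g, h1, h3, h4⟩ := this w 2 (by omega)
    refine ⟨0, _, 0, .step _ _ 0 h1 (by omega), fun c hc => ?_⟩
    rcases decode hc with h | ⟨d, hd, q, hq, rfl⟩
    · simp [dl, h3 c h]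
    · rw [Function.comp, h4 d hd q hq, dl_code (run_lt hw hd w), hw' d hd]
      simp
  · rintro ⟨y, g, z, h, hz⟩
    by_contra hn
    have : (y = 3 ∧ g = id) ∨ (y < 3 ∧ g 0 = 0 ∧ ((∃ w : List Bool, ∀ d < Ds.length,
        g (2 + d * MM Ds + 0) = 2 + d * MM Ds + w.foldl (dstep (Ds.getD d [])) 0) ∨
        ∃ d < Ds.length, g (2 + d * MM Ds + 0) = 1)) := by
      clear hz
      induction h with
      | base => exact .inl ⟨rfl, rfl⟩
      | step y g x _ hx ih =>
        refine .inr ⟨hx, ?_⟩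
        rcases ih with ⟨rfl, rfl⟩ | ⟨hy, h0, ⟨w, h1⟩ | ⟨d, hd, h1⟩⟩
        · exact ⟨by simp [dl], .inl ⟨[], fun d _ => by
            rw [Function.comp, id, dl_code hM]; simp⟩⟩
        · refine ⟨by simp [dl, h0], ?_⟩
          by_cases e : y = 2
          · rw [not_exists] at hn
            have := hn w
            push Not at this
            obtain ⟨d, hd, h3⟩ := this
            refine .inr ⟨d, hd, ?_⟩
            rw [Function.comp, h1 d hd, dl_code (run_lt hw hd w), if_neg (by omega), if_pos e,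
              if_neg h3]
          · refine .inl ⟨w ++ [decide (y = 1)], fun d hd => ?_⟩
            rw [Function.comp, h1 d hd, dl_code (run_lt hw hd w), if_neg (by omega), if_neg e,
              foldl_append]
            rfl
        · refine ⟨by simp [dl, h0], .inr ⟨d, hd, ?_⟩⟩
          rw [Function.comp, h1, dl, if_pos (by omega), if_neg (by omega)]
    have e0 := hz 0 (by omega)
    rcases this with ⟨-, rfl⟩ | ⟨-, h0, ⟨w, h1⟩ | ⟨d, hd, h1⟩⟩
    · have := hz 1 (by omega)
      simp at this e0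
      omega
    · have hl := length_pos_iff.2 hw.1
      have := (h1 0 hl).symm.trans (hz _ (code_lt hl hM))
      omega
    · have := h1.symm.trans (hz _ (code_lt hd hM))
      omega

@[fun_prop] theorem pt_row {α : Type} [Enc α] {r c : α → ℕ} {u : α → Tm} (hr : PT r) (hc : PT c)
    (hu : PT u) : PT fun a => row (r a) (c a) (u a) := by
  unfold row; fun_prop

theorem pt_sys {α : Type} [Enc α] {r : α → ℕ} {n : ℕ} {δ : α → ℕ → ℕ → ℕ} (hr : PT r)
    (hδ : PT fun p : α × ℕ × ℕ => δ p.1 p.2.1 p.2.2) : PT fun a => sys (r a) n (δ a) := by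
  have := hδ.comp (g := fun p : ((α × ℕ) × ℕ) × ℕ => (p.1.1.1, p.1.2, p.2)) (by fun_prop)
  unfold sys eps piT sub cb
  fun_prop

theorem hard : PSH Orthogonal StronglySequential := by
  have h := inter_psh.reduce (C' := Orthogonal) (P' := fun R => ¬ StronglySequential R)
    (fun Ds => sys (rr Ds) 3 (dl Ds))
    (pt_sys (by unfold rr MM; fun_prop) (by unfold dl MM; fun_prop)) fun Ds hw =>
      ⟨orth (Nat.le_add_right _ _) (dl_lt hw),
        (sync_iff hw).trans (ss_iff (Nat.le_add_right _ _) (by omega) (dl_lt hw)).symm⟩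
  simpa using h.compl

theorem PSH_inNP {α : Type} [Enc α] {C P : α → Prop} (h : PSH C P) (hn : InNPOn C P)
    (A : Set (List Bool)) (hA : InPSPACE A) : InNP A := by
  obtain ⟨g, hg, hx⟩ := h A hA true
  obtain ⟨R, ⟨f, hf, hR⟩, p, hp⟩ := hn
  have hf' := Pool.Agent.H36.Sim.pt_of_polyTime hf
  have := inNPOn_of_pt (C := fun _ : Bits => True) (P := fun x => x.val ∈ A)
    (fun x (w : Bits) => decide (sz w ≤ p.eval (sz (g x))) &&
      decide ((⟨f (raw (g x, w)).val⟩ : Bits) = ⟨[true]⟩)) ?_ (hg.pb.eval p)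
    (fun x _ hxA => ?_) (fun x w _ hv => ?_)
  · obtain ⟨R, hR, p, h⟩ := this
    exact ⟨R, hR, p, fun x => h ⟨x⟩ trivial⟩
  · have h1 : PT fun q : Bits × Bits => g q.1 := hg.comp (by fun_prop)
    have h2 := hf'.comp (h1.mk (PT.snd PT.id')).raw
    exact PT.and (PT.le (by fun_prop) (PT.polyEval p h1.sz)) (PT.eq h2 (PT.const _))
  · obtain ⟨w, h1, h2⟩ := (hp _ (hx x).1).1 ((hx x).2.1 (by simpa))
    refine ⟨⟨w⟩, h1, ?_⟩
    simp only [Bool.and_eq_true, decide_eq_true_eq]
    exact ⟨h1, congrArg _ ((hR _).1 h2)⟩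
  · simp only [Bool.and_eq_true, decide_eq_true_eq, Bits.mk.injEq] at hv
    simpa using (hx x).2.2 ((hp _ (hx x).1).2 ⟨w.val, hv.1, (hR _).2 hv.2⟩)

end Pool.Agent.H36.Seq
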