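import Pool.Agent.H36.PSpaceDefs

/-!
First-order term rewriting systems, orthogonality, strong sequentiality (Huet-Levy).
-/

namespace Pool.Agent.H36.Seq

open Pool.Agent.H38.NP

/-- Terms: variables, the fresh constant `dot` (the bullet), and applications of the function
symbol number `f` to `n` arguments. -/
inductive Tm
  | var (i : ℕ)
  | dot
  | node (f n : ℕ) (ts : Fin n → Tm)

/-- The application of symbol `f` to the arguments in a list. -/
def Tm.app (f : ℕ) (l : List Tm) : Tm := .node f l.length l.get

/-- One-hole contexts. -/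
inductive Ctx
  | hole
  | app (f : ℕ) (l : List Tm) (C : Ctx) (r : List Tm)

/-- `C.fill t` is `C[t]`. -/
def Ctx.fill : Ctx → Tm → Tm
  | .hole, t => t
  | .app f l C r, t => .app f (l ++ C.fill t :: r)

/-- Application of a substitution. -/
def subst (σ : ℕ → Tm) : Tm → Tm
  | .var i => σ i
  | .dot => .dot
  | .node f n ts => .node f n fun i => subst σ (ts i)

/-- The variable occurrences of a term, from left to right. -/
def vars : Tm → List ℕ
  | .var i => [i]
  | .dot => []
  | .node _ _ ts => (List.ofFn fun i => vars (ts i)).flatten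

/-- Polish form: one token for every node. -/
def toks : Tm → List (ℕ × ℕ)
  | .var i => [(0, i)]
  | .dot => [(1, 0)]
  | .node f n ts => (2 + n, f) :: (List.ofFn fun i => toks (ts i)).flatten

instance : Enc Tm := ⟨fun t => enc (toks t)⟩

/-- Well-formed terms (the bullet is allowed) for the signature whose symbol number `f` has
arity `ar[f]`. -/
inductive WFT (ar : List ℕ) : Tm → Prop
  | var (i : ℕ) : WFT ar (.var i)
  | dot : WFT ar .dot
  | node (f n : ℕ) (ts : Fin n → Tm) : ar[f]? = some n → (∀ i, WFT ar (ts i)) →
      WFT ar (.node f n ts)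

/-- The term contains the bullet. -/
def HasDot (t : Tm) : Prop := ∃ C : Ctx, t = C.fill .dot

/-- Terms over the signature. -/
def Over (ar : List ℕ) (t : Tm) : Prop := WFT ar t ∧ ¬ HasDot t

/-- An instance: the list of arities of the signature and the list of rules. -/
abbrev TRS := List ℕ × List (Tm × Tm)

/-- Instances of left-hand sides. -/
def Redex (R : TRS) (t : Tm) : Prop := ∃ p ∈ R.2, ∃ σ, t = subst σ p.1

/-- Normal forms. -/
def NF (R : TRS) (t : Tm) : Prop := ∀ (C : Ctx) (d : Tm), t = C.fill d → ¬ Redex R d

/-- Arbitrary reduction: one redex occurrence is replaced by an arbitrary term. -/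
def Step (R : TRS) (t s : Tm) : Prop :=
  ∃ (C : Ctx) (d u : Tm), Redex R d ∧ WFT R.1 u ∧ t = C.fill d ∧ s = C.fill u

/-- Every normal form reachable by arbitrary reduction contains the bullet. -/
def Needed (R : TRS) (t : Tm) : Prop :=
  ∀ s, Relation.ReflTransGen (Step R) t s → NF R s → HasDot s

/-- Strong sequentiality. -/
def StronglySequential (R : TRS) : Prop :=
  ∀ t, Over R.1 t → ¬ NF R t →
    ∃ (C : Ctx) (d : Tm), t = C.fill d ∧ Redex R d ∧ Needed R (C.fill .dot)

/-- `R` is an orthogonal term rewriting system: rules over the signature, left-hand sides are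
not variables and contain the variables of the right-hand sides, left-linear, and no
non-variable subterm of a left-hand side unifies with a (renamed) left-hand side except for a
rule with itself at the root. -/
def Orthogonal (R : TRS) : Prop :=
  (∀ p ∈ R.2, Over R.1 p.1 ∧ Over R.1 p.2 ∧ (∀ i, p.1 ≠ .var i) ∧ vars p.2 ⊆ vars p.1 ∧
    (vars p.1).Nodup) ∧
  ∀ p ∈ R.2, ∀ q ∈ R.2, ∀ (C : Ctx) (u : Tm) (σ τ : ℕ → Tm), p.1 = C.fill u → (∀ i, u ≠ .var i) →
    subst σ u = subst τ q.1 → p = q ∧ C = .hole

end Pool.Agent.H36.Seq
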