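import Pool.Agent.H38.NP.Defs

/-!
The second level of the polynomial hierarchy.
-/

namespace Pool.Agent.H36.Sig2

open Pool.Agent.H38.NP

/-- The class `Σ₂ᵖ`. -/
def InSigma2 (L : Set (List Bool)) : Prop :=
  ∃ R, InP R ∧ ∃ p : Polynomial ℕ, ∀ x, x ∈ L ↔ ∃ u : List Bool, u.length ≤ p.eval x.length ∧
    ∀ v : List Bool, v.length ≤ p.eval x.length → pair x (pair u v) ∈ R

/-- The class `Π₂ᵖ`. -/
def InPi2 (L : Set (List Bool)) : Prop := InSigma2 Lᶜ

/-- `Σ₂ᵖ`-hardness under polynomial-time many-one reductions. -/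
def Sigma2Hard (B : Set (List Bool)) : Prop := ∀ A, InSigma2 A → Reduces A B

/-- `Π₂ᵖ`-hardness under polynomial-time many-one reductions. -/
def Pi2Hard (B : Set (List Bool)) : Prop := ∀ A, InPi2 A → Reduces A B

end Pool.Agent.H36.Sig2
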