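import Pool.Agent.H36.SimpDefs
import Pool.Agent.H36.Sim

/-!
Advice for Turing reductions; facets of a cube; volumes under affine maps.
-/

namespace Pool.Agent.H36.Simp

open Pool.Agent.H38.NP Function Finset Matrix

theorem advice {α : Type} [Enc α] [EncInj α] {C P : α → Prop} (key : Bits → ℕ) (hk : PT key)
    (le : Bits → Bits → Bool) (hle : PT fun p : Bits × Bits => le p.1 p.2) (ρ : α → ℝ)
    (h1 : ∀ a b, C a → C b → (le (raw a) (raw b) = true ↔ ρ a ≤ ρ b))
    (h2 : ∀ a b, C a → C b → key (raw a) = key (raw b) → ρ a ≤ ρ b → P b → P a)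
    (h : TuringHardOn C P) : ∀ A, InNP A → InPPoly A := by
  classical
  intro A hA
  obtain ⟨q, r, hq, hr, p, h⟩ := h A hA
  have pt : ∀ {f}, PolyTime f → PT fun z : Bits × List Bool => (⟨f (pair z.1.val z.2)⟩ : Bits) :=
    fun hf => (Sim.pt_of_polyTime hf).comp
      (g := fun q : Bits × List Bool => raw (q.1, (⟨q.2⟩ : Bits))) (by fun_prop)
  obtain ⟨q1, e1⟩ := (pt hq).pb
  obtain ⟨q2, e2⟩ := hk.nat_pb
  let B : ℕ → ℕ := fun m => q1.eval (2 * m + 1 + p.eval m * 3)
  let G : ℕ → ℕ → α → Prop := fun m k a => C a ∧ P a ∧ sz a ≤ B m ∧ key (raw a) = k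
  let H : ℕ → List Bits := fun m => (List.range (q2.eval (B m) + 1)).filterMap fun k =>
    if h : ∃ a, G m k a ∧ ∀ b, G m k b → ρ b ≤ ρ a then some (raw h.choose) else none
  have H1 : ∀ m, ∀ y ∈ H m, ∃ a, y = raw a ∧ C a ∧ P a ∧ sz a ≤ B m := fun m y hy => by
    obtain ⟨k, -, e⟩ := List.mem_filterMap.1 hy
    split_ifs at e with c
    exact ⟨_, (Option.some.inj e).symm, c.choose_spec.1.1, c.choose_spec.1.2.1,
      c.choose_spec.1.2.2.1⟩
  have H2 : ∀ m a, C a → sz a ≤ B m → (P a ↔ (H m).any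
      (fun y => decide (key y = key (raw a)) && le (raw a) y) = true) := fun m a ca sa => by
    simp only [List.any_eq_true, Bool.and_eq_true, decide_eq_true_eq]
    refine ⟨fun pa => ?_, fun ⟨y, y1, y2, y3⟩ => ?_⟩
    · have fin : {b | G m (key (raw a)) b}.Finite := ((List.finite_length_le Bool (B m)).preimage
        (f := enc) EncInj.inj.injOn).subset fun b hb => hb.2.2.1
      have c : ∃ b, G m (key (raw a)) b ∧ ∀ b', G m (key (raw a)) b' → ρ b' ≤ ρ b :=
        Set.exists_max_image _ ρ fin ⟨a, ca, pa, sa, rfl⟩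
      exact ⟨raw c.choose, List.mem_filterMap.2 ⟨key (raw a), List.mem_range.2 (Nat.lt_succ_of_le
        ((e2 _).trans (eval_mono _ sa))), dif_pos c⟩, c.choose_spec.1.2.2.2,
        (h1 _ _ ca c.choose_spec.1.1).2 (c.choose_spec.2 a ⟨ca, pa, sa, rfl⟩)⟩
    · obtain ⟨b, rfl, b1, b2, -⟩ := H1 m y y1
      exact h2 a b ca b1 y2.symm ((h1 _ _ ca b1).1 y3) b2
  let st : Bits × List Bits → List Bool → List Bool := fun z s => s ++ [z.2.any fun y =>
    decide (key y = key ⟨q (pair z.1.val s)⟩) && le ⟨q (pair z.1.val s)⟩ y]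
  have hs : PT fun w : (Bits × List Bits) × List Bool => st w.1 w.2 := by
    have k := (pt hq).comp (g := fun w : ((Bits × List Bits) × List Bool) × Bits =>
      (w.1.1.1, w.1.2)) (by fun_prop)
    exact PT.append (by fun_prop) (PT.cons (PT.any (PT.and (PT.eq (hk.comp (by fun_prop))
      (hk.comp k)) (hle.comp (k.mk PT.id'.snd))) (by fun_prop)) (PT.const _))
  have len : ∀ z i, ((st z)^[i] []).length = i := fun z i => by
    induction i with
    | zero => rfl
    | succ i ih => simp [iterate_succ_apply', st, ih]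
  have hN : PT fun z : Bits × List Bits => p.eval (sz z.1) := PT.polyEval p (by fun_prop)
  have hI := PT.iterate hs hN (PT.const []) (B := fun z => p.eval (sz z.1) * 3)
    (PT.nat_pb (by fun_prop)) fun z i hi =>
      (sz_le_of_forall (B := 1) fun x _ => by simp).trans (by rw [len]; omega)
  have hD := PT.eq ((pt hr).comp ((PT.id'.fst.mk hI).comp
    (g := fun z : Bits => (z.fst, (dec z.snd : List Bits))) (by fun_prop))).bval (PT.const [true])
  obtain ⟨q3, e3⟩ : PB fun m : ℕ => (q2.eval (B m) + 1) * (2 * B m + 1) := by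
    have : PT B := PT.polyEval q1 (PT.add (by fun_prop) (PT.mul (PT.polyEval p PT.id') (PT.const _)))
    have := PT.polyEval q2 this
    exact PT.nat_pb (by fun_prop)
  refine ⟨{z | decide (r (pair (Bits.fst ⟨z⟩).val ((st (Bits.fst ⟨z⟩, dec (Bits.snd ⟨z⟩)))^[p.eval
    (sz (Bits.fst ⟨z⟩))] [])) = [true]) = true}, inP_of_pt _ hD fun _ => Iff.rfl, q3,
    fun m => enc (H m), fun m => ?_, fun x => ?_⟩
  · refine le_trans ((sz_le_of_forall (B := B m) fun y hy => ?_).trans
      (Nat.mul_le_mul_right _ ((List.length_filterMap_le ..).trans (by simp))))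
      ((e3 m).trans (by simp))
    obtain ⟨a, rfl, -, -, e⟩ := H1 m y hy
    exact e
  obtain ⟨s, s1, s2, s3⟩ := h x
  have a1 : Bits.fst ⟨pair x (enc (H x.length))⟩ = ⟨x⟩ := by simp [Bits.fst]
  have a2 : Bits.snd ⟨pair x (enc (H x.length))⟩ = raw (H x.length) := by simp [Bits.snd, raw]
  have key : ∀ k ≤ s.length, (st (⟨x⟩, H x.length))^[k] [] = s.take k := fun k hk => by
    induction k with
    | zero => simp
    | succ k ih =>
      obtain ⟨a, b1, b2, b3⟩ := s2 k hk
      have b4 : sz a ≤ B x.length := by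
        have := e1 (⟨x⟩, s.take k)
        simp only [b1] at this
        refine this.trans (eval_mono _ ?_)
        have := sz_le_of_forall (l := s.take k) (B := 1) fun x _ => by simp
        rw [List.length_take] at this
        rw [sz_prod]
        change 2 * x.length + 1 + sz (s.take k) ≤ _
        omega
      rw [iterate_succ_apply', ih (by omega), List.take_succ_eq_append_getElem hk]
      simp only [st, b1]
      congr 2
      exact Bool.eq_iff_iff.2 ((H2 _ a b2 b4).symm.trans b3.symm)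
  simp only [Set.mem_ofPred_eq, a1, a2, Dec.dec_raw, decide_eq_true_eq, s3]
  rw [show sz (⟨x⟩ : Bits) = x.length from rfl, ← s1, key _ le_rfl, List.take_length]

theorem facet {n : ℕ} {β : Type} (R : List β) (c : β → Fin n → ℝ) (e : β → ℝ)
    (H : ∀ y, (∀ r ∈ R, c r ⬝ᵥ y ≤ e r) ↔ y ∈ Set.Icc (0 : Fin n → ℝ) 1) (i : Fin n) :
    ∃ r ∈ R, 0 < e r ∧ c r = Pi.single i (e r) := by
  classical
  let y : Fin n → ℝ := fun j => if j = i then 1 else 1 / 2
  have y1 := (H y).2 ⟨fun j => by simp only [y]; split_ifs <;> norm_num,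
    fun j => by simp only [y]; split_ifs <;> norm_num⟩
  obtain ⟨r, r1, r2, r3⟩ : ∃ r ∈ R, c r ⬝ᵥ y = e r ∧ 0 < c r i := by
    by_contra k
    push Not at k
    have : ∀ᶠ ε in nhdsWithin (0 : ℝ) (Set.Ioi 0), ∀ r ∈ R.toFinset, c r ⬝ᵥ y + ε * c r i ≤ e r := by
      refine (Filter.eventually_all_finset _).2 fun r hr => ?_
      rcases (y1 r (List.mem_toFinset.1 hr)).eq_or_lt with a | a
      · filter_upwards [self_mem_nhdsWithin] with ε hε
        have := mul_nonpos_of_nonneg_of_nonpos (le_of_lt hε) (k r (List.mem_toFinset.1 hr) a)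
        linarith
      · have : Continuous fun ε : ℝ => c r ⬝ᵥ y + ε * c r i := by fun_prop
        exact ((this.continuousAt (x := 0)).eventually_lt continuousAt_const
          (by simpa using a)).filter_mono nhdsWithin_le_nhds |>.mono fun _ h => h.le
    obtain ⟨ε, a, b⟩ := (this.and self_mem_nhdsWithin).exists
    have := ((H (y + Pi.single i ε)).1 fun r hr => by
      simpa [mul_comm] using a r (List.mem_toFinset.2 hr)).2 i
    simp [y] at this
    exact absurd b this.not_gt
  have z : ∀ j, j ≠ i → c r j = 0 := fun j hj => by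
    have k : ∀ δ : ℝ, |δ| = 1 / 2 → c r j * δ ≤ 0 := fun δ hδ => by
      have d := abs_le.1 hδ.le
      have := (H (y + Pi.single j δ)).2 ⟨fun l => ?_, fun l => ?_⟩ r r1
      · simpa [r2] using this
      all_goals
        simp only [y, Pi.add_apply, Pi.single_apply, Pi.zero_apply, Pi.one_apply]
        split_ifs <;> first | omega | linarith
    have := k (1 / 2) (by norm_num)
    have := k (-(1 / 2)) (by norm_num)
    linarith
  have : e r = c r i := by
    rw [← r2, dotProduct, sum_eq_single i (fun j _ h => by simp [z j h]) (by simp)]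
    simp [y]
  refine ⟨r, r1, this ▸ r3, funext fun j => ?_⟩
  by_cases h : j = i
  · simp [h, this]
  · simp [h, z j h]

theorem facet' {n : ℕ} {β : Type} (R : List β) (c : β → Fin n → ℝ) (e : β → ℝ)
    (H : ∀ y, (∀ r ∈ R, c r ⬝ᵥ y ≤ e r) ↔ y ∈ Set.Icc (0 : Fin n → ℝ) 1) (i : Fin n) :
    ∃ r ∈ R, ∃ b : ℝ, 0 < b ∧ e r = 0 ∧ c r = -Pi.single i b := by
  obtain ⟨r, r1, r2, r3⟩ := facet R (fun r => -c r) (fun r => e r - c r ⬝ᵥ 1) (fun y => by
    have := H (1 - y)
    simp only [dotProduct_sub, Set.mem_Icc, sub_nonneg, sub_le_self_iff, and_comm (a := y ≤ 1)]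
      at this
    rw [Set.mem_Icc, ← this]
    exact forall₂_congr fun r _ => by rw [neg_dotProduct]; constructor <;> intro <;> linarith) i
  have r4 := neg_eq_iff_eq_neg.1 r3
  refine ⟨r, r1, _, r2, ?_, r4⟩
  have := congrArg (· ⬝ᵥ (1 : Fin n → ℝ)) r4
  simp at this
  linarith

theorem big_map {n : ℕ} {X : Set (Fin n → ℝ)} {l : ℝ} (h : Big n X l)
    {T : Matrix (Fin n) (Fin n) ℝ} (hT : T.det ≠ 0) (t : Fin n → ℝ) :
    Big n ((fun y => T *ᵥ y + t) '' X) (l * T.det ^ 2) := by
  obtain ⟨v, v1, v2, v3⟩ := h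
  let f : (Fin n → ℝ) →ᵃ[ℝ] (Fin n → ℝ) := (toLin' T).toAffineMap + AffineMap.const ℝ _ t
  have e : convexHull ℝ (Set.range (f ∘ v)) = f '' convexHull ℝ (Set.range v) := by
    rw [Set.range_comp, AffineMap.image_convexHull]
  refine ⟨f ∘ v, v1.map' f fun a b k => mulVec_injective_of_isUnit
    ((isUnit_iff_isUnit_det _).2 (Ne.isUnit hT)) (add_right_cancel k), e ▸ Set.image_mono v2, ?_⟩
  have : f '' convexHull ℝ (Set.range v) = (· + t) '' (toLin' T '' convexHull ℝ (Set.range v)) := by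
    rw [Set.image_image]; rfl
  rw [e, this, Set.image_add_right, MeasureTheory.measure_preimage_add_right,
    MeasureTheory.Measure.addHaar_image_linearMap, LinearMap.det_toLin', ENNReal.toReal_mul,
    ENNReal.toReal_ofReal (abs_nonneg _), mul_pow, sq_abs]
  nlinarith [sq_nonneg T.det]

theorem big_iff {n : ℕ} {l : ℝ} {T : Matrix (Fin n) (Fin n) ℝ} (hT : T.det ≠ 0) (t : Fin n → ℝ) :
    Big n ((fun y => T *ᵥ y + t) '' Set.Icc 0 1) l ↔ Big n (Set.Icc 0 1) (l / T.det ^ 2) := by
  refine ⟨fun h => ?_, fun h => by simpa [hT] using big_map h hT t⟩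
  have := big_map h (T := T⁻¹) (by simpa using hT) (-(T⁻¹ *ᵥ t))
  rw [Set.image_image] at this
  simpa [mulVec_add, nonsing_inv_mul T (Ne.isUnit hT), div_eq_mul_inv] using this

end Pool.Agent.H36.Simp
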