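import Pool.Agent.H36.Simp1
import Pool.Agent.H36.Greedy2

/-!
The volume of a parallelotope given by inequalities is computable in polynomial time.
-/

namespace Pool.Agent.H36.Simp

open Pool.Agent.H38.NP Pool.Agent.H38.ER Pool.Agent.H36.Greedy Function Finset Matrix

abbrev Rw := List ℤ × ℤ

def dt (n : ℕ) (v w : List ℤ) : ℤ := sm n fun j => v.getD j 0 * w.getD j 0

def okp (n : ℕ) (r s : Rw) : Bool :=
  decide (1 ≤ -dt n r.1 s.1) && decide (1 ≤ -dt n r.1 s.1 * r.2 + dt n r.1 r.1 * s.2) &&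
    (List.range n).all fun j => decide (dt n r.1 r.1 * s.1.getD j 0 = dt n r.1 s.1 * r.1.getD j 0)

def cand (n : ℕ) (R : List Rw) : List Rw :=
  ((R.product R).filter fun p => okp n p.1 p.2).map fun p =>
    (p.1.1.map (-dt n p.1.1 p.2.1 * ·), -dt n p.1.1 p.2.1 * p.1.2 + dt n p.1.1 p.1.1 * p.2.2)

def dd (K : List Rw) : ℤ := (K.map (·.2)).prod

def scl (K : List Rw) : Mx := K.map fun k => k.1.map (· * dv (dd K) k.2)

def rv (n : ℕ) (w : List ℤ) : Fin n → ℝ := fun j => (w.getD j 0 : ℤ)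

theorem dt_eq (n v w) : (dt n v w : ℝ) = rv n v ⬝ᵥ rv n w := by
  simp [dt, sm_eq, rv, dotProduct]

theorem rv_map (n) (w : List ℤ) (f : ℤ → ℤ) (c : ℝ) (h : ∀ x, (f x : ℝ) = c * x) :
    rv n (w.map f) = c • rv n w := by
  funext j
  have : f 0 = 0 := Int.cast_injective (α := ℝ) (by simp [h])
  simp only [rv, Pi.smul_apply, smul_eq_mul, ← h]
  rw [← List.getD_map w 0 f, this]

theorem dv_prod {l : List ℤ} (h : ∀ x ∈ l, 0 < x) {x : ℤ} (hx : x ∈ l) :
    (dv l.prod x : ℝ) = l.prod / x := by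
  obtain ⟨c, e⟩ := List.dvd_prod hx
  have : (x : ℝ) ≠ 0 := by exact_mod_cast (h x hx).ne'
  rw [e, dv_mul (h x hx)]
  push_cast
  field_simp

theorem mem_cand {n R k} : k ∈ cand n R ↔ ∃ r ∈ R, ∃ s ∈ R, ∃ p q : ℤ,
    (p : ℝ) = -(rv n r.1 ⬝ᵥ rv n s.1) ∧ (q : ℝ) = rv n r.1 ⬝ᵥ rv n r.1 ∧ 0 < p ∧
    0 < p * r.2 + q * s.2 ∧ (q : ℝ) • rv n s.1 = -(p : ℝ) • rv n r.1 ∧
    k = (r.1.map (p * ·), p * r.2 + q * s.2) := by
  have e : ∀ r s : Rw, (∀ j < n, dt n r.1 r.1 * s.1.getD j 0 = dt n r.1 s.1 * r.1.getD j 0) ↔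
      (dt n r.1 r.1 : ℝ) • rv n s.1 = -((-dt n r.1 s.1 : ℤ) : ℝ) • rv n r.1 := fun r s => by
    simp only [funext_iff, rv, Pi.smul_apply, smul_eq_mul, Int.cast_neg, neg_neg]
    norm_cast
    exact ⟨fun h j => h j j.2, fun h j hj => h ⟨j, hj⟩⟩
  simp only [cand, okp, List.mem_map, List.mem_filter, Prod.exists, List.pair_mem_product,
    Bool.and_eq_true, decide_eq_true_eq, List.all_eq_true, List.mem_range]
  constructor
  · rintro ⟨a, b, c, d, ⟨⟨h1, h2⟩, ⟨h3, h4⟩, h5⟩, rfl⟩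
    exact ⟨a, b, h1, c, d, h2, _, _, by simp [dt_eq], dt_eq .., h3, h4, (e (a, b) (c, d)).1 h5, rfl⟩
  · rintro ⟨a, b, h1, c, d, h2, p, q, e1, e2, h3, h4, h5, rfl⟩
    obtain rfl : p = -dt n a c := Int.cast_injective (α := ℝ) (by simp [dt_eq, e1])
    obtain rfl : q = dt n a a := Int.cast_injective (α := ℝ) (by simp [dt_eq, e2])
    exact ⟨a, b, c, d, ⟨⟨h1, h2⟩, ⟨h3, h4⟩, (e (a, b) (c, d)).2 h5⟩, rfl⟩

theorem dd_pos (n R) : 0 < dd (cand n R) := List.prod_pos fun x hx => by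
  obtain ⟨k, hk, rfl⟩ := List.mem_map.1 hx
  obtain ⟨_, -, _, -, _, _, -, -, -, h, -, rfl⟩ := mem_cand.1 hk
  exact h

theorem geo {n} {R : List Rw} {T : Matrix (Fin n) (Fin n) ℝ} (hT : T.det ≠ 0) {t : Fin n → ℝ}
    (H : ∀ y, (∀ r ∈ R, rv n r.1 ⬝ᵥ (T *ᵥ y + t) ≤ r.2) ↔ y ∈ Set.Icc (0 : Fin n → ℝ) 1) :
    ∃ U : Matrix (Fin n) (Fin n) ℤ, U.map (Int.castRingHom ℝ) * T = (dd (cand n R) : ℝ) • 1 ∧
      (U.det : ℝ) * T.det = (dd (cand n R) : ℝ) ^ n ∧ U.det ≠ 0 ∧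
      (∀ i, ∃ c ∈ scl (cand n R), toV n c = U i) ∧ ∀ c ∈ scl (cand n R), ∃ s : Fin n → ℝ,
        ∑ i, |s i| ≤ 1 ∧ (fun a => (toV n c a : ℝ)) = s ᵥ* U.map (Int.castRingHom ℝ) := by
  set K := cand n R
  have D0 : (0 : ℝ) < dd K := by exact_mod_cast dd_pos n R
  have iT := Ne.isUnit hT
  have sc : ∀ r ∈ R, ∀ s ∈ R, ∀ p q : ℤ, (r.1.map (p * ·), p * r.2 + q * s.2) ∈ K →
      rv n ((r.1.map (p * ·)).map (· * dv (dd K) (p * r.2 + q * s.2))) =
        (dd K / (p * r.2 + q * s.2 : ℤ) * p : ℝ) • rv n r.1 := fun r _ s _ p q h => by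
    rw [List.map_map]
    refine rv_map _ _ _ _ fun x => ?_
    have := dv_prod (l := K.map (·.2)) (fun x hx => by
      obtain ⟨k, hk, rfl⟩ := List.mem_map.1 hx
      obtain ⟨_, -, _, -, _, _, -, -, -, h, -, rfl⟩ := mem_cand.1 hk
      exact h) (List.mem_map_of_mem h)
    simp only [Function.comp, Int.cast_mul, dd, this]
    ring
  have H' : ∀ y, (∀ r ∈ R, (rv n r.1 ᵥ* T) ⬝ᵥ y ≤ r.2 - rv n r.1 ⬝ᵥ t) ↔
      y ∈ Set.Icc (0 : Fin n → ℝ) 1 := fun y => by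
    simp only [← H, dotProduct_add, dotProduct_mulVec, le_sub_iff_add_le]
  have h1 : ∀ i, ∃ c ∈ scl K, rv n c ᵥ* T = Pi.single i (dd K : ℝ) := fun i => by
    obtain ⟨r, r1, r2, r3⟩ := facet R _ _ H' i
    obtain ⟨s, s1, b, s2, s3, s4⟩ := facet' R _ _ H' i
    generalize ha : r.2 - rv n r.1 ⬝ᵥ t = a at r2 r3
    have e : rv n s.1 = -(b / a) • rv n r.1 := by
      refine vecMul_injective_of_isUnit ((isUnit_iff_isUnit_det _).2 iT) ?_
      simp only [smul_vecMul, r3, s4]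
      funext j
      by_cases c : j = i <;> simp [c, r2.ne']
    have q0 : 0 < rv n r.1 ⬝ᵥ rv n r.1 :=
      (sum_nonneg fun _ _ => mul_self_nonneg _).lt_of_ne' fun k => by
        have := congrFun r3 i
        simp [dotProduct_self_eq_zero.1 k, r2.ne] at this
    have p0 : ((-dt n r.1 s.1 : ℤ) : ℝ) = b / a * (rv n r.1 ⬝ᵥ rv n r.1) := by simp [dt_eq, e]
    have p1 : (0 : ℝ) < (-dt n r.1 s.1 : ℤ) := by rw [p0]; positivity
    have d0 : ((-dt n r.1 s.1 * r.2 + dt n r.1 r.1 * s.2 : ℤ) : ℝ) = (-dt n r.1 s.1 : ℤ) * a := by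
      rw [Int.cast_add, Int.cast_mul, Int.cast_mul, p0, dt_eq, sub_eq_zero.1 s3, e,
        eq_add_of_sub_eq ha]
      simp
      ring
    have m : (r.1.map (-dt n r.1 s.1 * ·), -dt n r.1 s.1 * r.2 + dt n r.1 r.1 * s.2) ∈ K :=
      mem_cand.2 ⟨r, r1, s, s1, _, _, by simp [dt_eq], dt_eq .., by exact_mod_cast p1,
        by rw [← Int.cast_pos (R := ℝ), d0]; positivity,
        by rw [p0, dt_eq, e, smul_smul]; congr 1; ring, rfl⟩
    refine ⟨_, List.mem_map_of_mem m, ?_⟩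
    rw [sc r r1 s s1 _ _ m, smul_vecMul, r3, d0, ← Pi.single_smul', smul_eq_mul]
    congr 1
    field_simp
  choose c c1 c2 using h1
  let U : Matrix (Fin n) (Fin n) ℤ := of fun i => toV n (c i)
  have eU : U.map (Int.castRingHom ℝ) * T = (dd K : ℝ) • 1 := by
    ext i j
    have := congrFun (c2 i) j
    simpa [mul_apply, one_apply, Pi.single_apply, eq_comm, vecMul, dotProduct, U, rv, toV] using this
  have dU : (U.det : ℝ) * T.det = (dd K : ℝ) ^ n := by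
    have := congrArg det eU
    rw [det_mul, ← RingHom.mapMatrix_apply, ← RingHom.map_det] at this
    simpa using this
  refine ⟨U, eU, dU, fun e => ?_, fun i => ⟨_, c1 i, rfl⟩, fun w hw => ?_⟩
  · rw [e] at dU
    exact absurd dU (by simpa using (pow_pos D0 n).ne)
  obtain ⟨k, hk, rfl⟩ := List.mem_map.1 hw
  obtain ⟨r, r1, s, s1, p, q, -, q0, p0, d0, e, rfl⟩ := mem_cand.1 hk
  have d1 : (0 : ℝ) < (p * r.2 + q * s.2 : ℤ) := by exact_mod_cast d0
  have p1 : (0 : ℝ) < p := by exact_mod_cast p0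
  have q1 : (0 : ℝ) ≤ q := q0 ▸ sum_nonneg fun _ _ => mul_self_nonneg _
  refine ⟨(p / (p * r.2 + q * s.2 : ℤ) : ℝ) • (rv n r.1 ᵥ* T), ?_, ?_⟩
  · let y : Fin n → ℝ := fun j => if 0 ≤ (rv n r.1 ᵥ* T) j then 1 else 0
    have y1 : y ∈ Set.Icc (0 : Fin n → ℝ) 1 := ⟨fun j => by simp only [y]; split_ifs <;> norm_num,
      fun j => by simp only [y]; split_ifs <;> norm_num⟩
    have a := mul_le_mul_of_nonneg_left ((H' y).2 y1 r r1) p1.le
    have b := mul_le_mul_of_nonneg_left ((H' (1 - y)).2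
      ⟨sub_nonneg.2 y1.2, sub_le_self _ y1.1⟩ s s1) q1
    have e1 : (q : ℝ) * (rv n s.1 ⬝ᵥ t) = -p * (rv n r.1 ⬝ᵥ t) := by
      simpa using congrArg (· ⬝ᵥ t) e
    have e2 : (q : ℝ) * ((rv n s.1 ᵥ* T) ⬝ᵥ (1 - y)) = -p * ((rv n r.1 ᵥ* T) ⬝ᵥ (1 - y)) := by
      have := congrArg (fun v => (v ᵥ* T) ⬝ᵥ (1 - y)) e
      simpa only [smul_vecMul, smul_dotProduct, smul_eq_mul] using this
    have e3 : ∑ j, |(rv n r.1 ᵥ* T) j| = (rv n r.1 ᵥ* T) ⬝ᵥ y - (rv n r.1 ᵥ* T) ⬝ᵥ (1 - y) := by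
      rw [dotProduct, dotProduct, ← sum_sub_distrib]
      refine sum_congr rfl fun j _ => ?_
      simp only [y, Pi.sub_apply, Pi.one_apply]
      split_ifs with h
      · simp [abs_of_nonneg h]
      · simp [abs_of_neg (not_le.1 h)]
    simp only [Pi.smul_apply, smul_eq_mul, abs_mul, ← mul_sum, abs_of_pos (div_pos p1 d1), e3]
    rw [div_mul_eq_mul_div, div_le_one d1]
    push_cast
    linarith
  · refine (sc r r1 s s1 p q hk).trans ?_
    rw [smul_vecMul, vecMul_vecMul, show T * U.map (Int.castRingHom ℝ) = (dd K : ℝ) • 1 by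
      rw [show U.map (Int.castRingHom ℝ) = (dd K : ℝ) • T⁻¹ by
        rw [← Matrix.mul_one (U.map _), ← mul_nonsing_inv T iT, ← Matrix.mul_assoc, eU]; simp]
      simp [mul_nonsing_inv T iT]]
    rw [vecMul_smul, vecMul_one, smul_smul]
    congr 1
    ring

theorem vol {n} {R : List Rw} {T : Matrix (Fin n) (Fin n) ℝ} (hT : T.det ≠ 0) {t : Fin n → ℝ}
    (H : ∀ y, (∀ r ∈ R, rv n r.1 ⬝ᵥ (T *ᵥ y + t) ≤ r.2) ↔ y ∈ Set.Icc (0 : Fin n → ℝ) 1) :
    (gr (n, scl (cand n R)) : ℝ) * T.det ^ 2 = (dd (cand n R) : ℝ) ^ (2 * n) := by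
  obtain ⟨U, -, h1, h2, h3, h4⟩ := geo hT H
  rw [greedy h2 h3 h4, mul_comm 2 n, pow_mul, ← h1]
  push_cast; ring

abbrev Q' := (Bool × Bin) × Bin
abbrev Inst' := ℕ × List (List Q' × Q') × Q'

def qv (q : ℚ) : Q' := ((decide (q.num < 0), ⟨q.num.natAbs⟩), ⟨q.den⟩)
def nm (a : Q') : ℤ := if a.1.1 then -(a.1.2.val : ℤ) else a.1.2.val
def dn (a : Q') : ℤ := a.2.val
def cv (I : Inst) : Inst' := (I.1, I.2.1.map fun r => (r.1.map qv, qv r.2), qv I.2.2)

theorem nm_qv (q : ℚ) : nm (qv q) = q.num := by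
  simp only [nm, qv, decide_eq_true_eq]
  split_ifs <;> omega

theorem enc_map {α β : Type} [Enc α] [Enc β] (f : α → β) (h : ∀ a, enc (f a) = enc a) (l : List α) :
    enc (l.map f) = enc l := by
  induction l with
  | nil => rfl
  | cons a l ih => exact congrArg₂ pair (h a) ih

theorem dec_cv (I : Inst) : (dec (raw I) : Inst') = cv I := by
  rw [← Dec.dec_raw (cv I)]
  exact congrArg (fun x => dec (⟨x⟩ : Bits)) (congrArg (pair _) (congrArg (pair · _)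
    (enc_map _ (fun r => congrArg (pair · _) (enc_map qv (fun _ => rfl) r.1)) _).symm))

def irow (r : List Q' × Q') : Rw :=
  (r.1.map fun q => nm q * dv ((r.2 :: r.1).map dn).prod (dn q),
    nm r.2 * dv ((r.2 :: r.1).map dn).prod (dn r.2))

theorem irow_spec (n) (r : List ℚ × ℚ) : ∃ N : ℝ, 0 < N ∧
    rv n (irow (r.1.map qv, qv r.2)).1 = (fun j : Fin n => N * (r.1.getD j 0 : ℚ)) ∧
    ((irow (r.1.map qv, qv r.2)).2 : ℝ) = N * r.2 := by
  have p : ∀ x ∈ (qv r.2 :: r.1.map qv).map dn, 0 < x := by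
    simp only [← List.map_cons, List.map_map, List.mem_map]
    rintro _ ⟨q, -, rfl⟩
    exact Int.natCast_pos.2 q.den_pos
  have k : ∀ q ∈ r.2 :: r.1, ((nm (qv q) * dv ((qv r.2 :: r.1.map qv).map dn).prod (dn (qv q)) : ℤ)
      : ℝ) = ((qv r.2 :: r.1.map qv).map dn).prod * q := fun q hq => by
    rw [Int.cast_mul, dv_prod p (List.mem_map_of_mem (List.map_cons ▸ List.mem_map_of_mem hq)),
      nm_qv, Rat.cast_def]
    simp only [dn, qv, Int.cast_natCast]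
    ring
  refine ⟨_, by exact_mod_cast List.prod_pos p, funext fun j => ?_, k _ List.mem_cons_self⟩
  by_cases c : j.val < r.1.length
  · rw [List.getD_eq_getElem _ _ c, ← k _ (List.mem_cons_of_mem _ (List.getElem_mem c))]
    simp [rv, irow, c]
  · simp [rv, irow, c]

def rho (I : Inst') : ℤ × ℤ :=
  (nm I.2.2 * gr (I.1, scl (cand I.1 (I.2.1.map irow))),
    dn I.2.2 * (List.replicate (2 * I.1) (dd (cand I.1 (I.2.1.map irow)))).prod)

section
variable {α : Type} [Enc α]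

@[fun_prop] theorem pt_nm {A : α → Q'} (hA : PT A) : PT fun a => nm (A a) :=
  (PT.cond hA.fst.fst (pt_zneg (Maj.pt_val hA.fst.snd)) (Maj.pt_val hA.fst.snd)).of_eq
    fun a => by simp [nm]

@[fun_prop] theorem pt_dn {A : α → Q'} (hA : PT A) : PT fun a => dn (A a) := Maj.pt_val hA.snd

@[fun_prop] theorem pt_dt {n : α → ℕ} {v w : α → List ℤ} (hn : PT n) (hv : PT v) (hw : PT w) :
    PT fun a => dt (n a) (v a) (w a) := pt_sm hn (pt_zmul (by fun_prop) (by fun_prop))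

end

theorem pt_irow : PT irow := by unfold irow; fun_prop

theorem pt_okp : PT fun p : ℕ × Rw × Rw => okp p.1 p.2.1 p.2.2 := by
  unfold okp
  refine PT.and (PT.and (Maj.pt_zle ?_ ?_) (Maj.pt_zle ?_ ?_)) (PT.all (PT.eq ?_ ?_) ?_) <;> fun_prop

theorem pt_cand : PT fun p : ℕ × List Rw => cand p.1 p.2 := by
  unfold cand
  refine PT.map (PT.mk (PT.map ?_ ?_) ?_) (PT.filter (pt_okp.comp
    (g := fun q : (ℕ × List Rw) × Rw × Rw => (q.1.1, q.2)) ?_) ?_) <;> fun_prop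

theorem pt_dd : PT dd := by unfold dd; fun_prop

theorem pt_scl : PT scl := by
  have := pt_dd
  unfold scl; fun_prop

theorem pt_rho : PT rho := by
  have a : PT fun I : Inst' => cand I.1 (I.2.1.map irow) := pt_cand.comp
    (PT.id'.fst.mk (PT.map (f := fun _ => irow) (pt_irow.comp PT.id'.snd) PT.id'.snd.fst))
  exact PT.mk (pt_zmul (by fun_prop) (pt_gr.comp (PT.id'.fst.mk (pt_scl.comp a))))
    (pt_zmul (by fun_prop) (pt_zprod (PT.replicate (by fun_prop) (pt_dd.comp a))))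

noncomputable def rr (I : Inst) : ℝ := (rho (cv I)).1 / (rho (cv I)).2

theorem rho_pos (I : Inst) : (0 : ℝ) < (rho (cv I)).2 := by
  have := dd_pos I.1 ((cv I).2.1.map irow)
  have := I.2.2.den_pos
  simp only [rho, List.prod_replicate, Int.cast_pos, cv, dn, qv] at *
  positivity

theorem rows {I : Inst} {T : Matrix (Fin I.1) (Fin I.1) ℝ} {t} (h1 : T.det ≠ 0)
    (h2 : poly I = (fun y => T.mulVec y + t) '' Set.Icc 0 1) (y) :
    (∀ r ∈ (cv I).2.1.map irow, rv I.1 r.1 ⬝ᵥ (T *ᵥ y + t) ≤ r.2) ↔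
      y ∈ Set.Icc (0 : Fin I.1 → ℝ) 1 := by
  have : T *ᵥ y + t ∈ poly I ↔ y ∈ Set.Icc (0 : Fin I.1 → ℝ) 1 := by
    rw [h2]
    exact Injective.mem_set_image fun a b k => mulVec_injective_of_isUnit
      ((isUnit_iff_isUnit_det _).2 (Ne.isUnit h1)) (add_right_cancel k)
  simp only [← this, cv, List.map_map, List.forall_mem_map, poly, Set.mem_ofPred_eq,
    Function.comp]
  refine forall₂_congr fun r _ => ?_
  obtain ⟨N, n1, n2, n3⟩ := irow_spec I.1 r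
  rw [n2, n3, dotProduct]
  simp only [mul_assoc, ← mul_sum]
  exact mul_le_mul_iff_right₀ n1

theorem yes_iff {I : Inst} (h : Valid I) : Yes I ↔ Big I.1 (Set.Icc 0 1) (rr I) := by
  obtain ⟨-, -, T, t, h1, h2⟩ := h
  have v := vol h1 (rows h1 h2)
  rw [Yes, h2, big_iff h1]
  have D := dd_pos I.1 ((cv I).2.1.map irow)
  have : (I.2.2 : ℝ) / T.det ^ 2 = rr I := by
    simp only [rr, rho, List.prod_replicate, Int.cast_mul, Int.cast_pow]
    erw [← v, nm_qv]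
    have : (gr (I.1, scl (cand I.1 ((cv I).2.1.map irow))) : ℝ) ≠ 0 := fun e => by
      rw [e, zero_mul] at v
      exact absurd v (by positivity : (0 : ℝ) < _).ne
    rw [Rat.cast_def, mul_div_mul_comm]
    erw [div_mul_cancel_left₀ this]
    rfl
  rw [this]

def key (x : Bits) : ℕ := (dec x : Inst').1
def le (x y : Bits) : Bool :=
  decide ((rho (dec x)).1 * (rho (dec y)).2 ≤ (rho (dec y)).1 * (rho (dec x)).2)

theorem pt_key : PT key := Dec.pt.fst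

theorem pt_le : PT fun p : Bits × Bits => le p.1 p.2 := by
  have a := pt_rho.comp (Dec.pt.comp (PT.id' (α := Bits × Bits)).fst)
  have b := pt_rho.comp (Dec.pt.comp (PT.id' (α := Bits × Bits)).snd)
  exact Maj.pt_zle (pt_zmul a.fst b.snd) (pt_zmul b.fst a.snd)

theorem le_iff (a b : Inst) : le (raw a) (raw b) = true ↔ rr a ≤ rr b := by
  rw [le, dec_cv, dec_cv, decide_eq_true_eq, rr, rr, div_le_div_iff₀ (rho_pos a) (rho_pos b)]
  norm_cast

theorem mono (a b : Inst) (ha : Valid a) (hb : Valid b) (e : key (raw a) = key (raw b))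
    (l : rr a ≤ rr b) : Yes b → Yes a := by
  rw [yes_iff ha, yes_iff hb]
  rw [key, key, dec_cv, dec_cv] at e
  obtain ⟨n, a⟩ := a
  obtain ⟨m, b⟩ := b
  obtain rfl : n = m := e
  exact fun ⟨v, v1, v2, v3⟩ => ⟨v, v1, v2, l.trans v3⟩

instance : EncInj ℚ := ⟨fun a b h => by
  have : (a.num, Bin.mk a.den) = (b.num, Bin.mk b.den) := EncInj.inj h
  simp only [Prod.mk.injEq, Bin.mk.injEq] at this
  exact Rat.ext this.1 this.2⟩

theorem manyOne (h : NPHardOn Valid Yes) : ∀ A, InNP A → InP A :=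
  Prune.prune key pt_key le pt_le rr (fun a b _ _ => le_iff a b) mono h

theorem turing (h : TuringHardOn Valid Yes) : ∀ A, InNP A → InPPoly A :=
  advice key pt_key le pt_le rr (fun a b _ _ => le_iff a b) mono h

end Pool.Agent.H36.Simp
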