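import Pool.Agent.H36.Simp2
import Pool.Agent.H36.Greedy3

/-!
The search version: a largest simplex is computed from a largest simplex in the cube.
-/

namespace Pool.Agent.H36.Simp

open Pool.Agent.H38.NP Pool.Agent.H38.ER Pool.Agent.H36.Greedy Function Finset Matrix
  MeasureTheory Pool.Agent.H36.Prune

theorem advice2 {α β γ : Type} [Enc α] [Enc β] [Enc γ] [Dec γ] [Inhabited γ] {C : α → Prop}
    {S : α → β → Prop} (key : Bits → ℕ) (hk : PT key) (sol : Bits → γ → β)
    (hs : PT fun p : Bits × γ => sol p.1 p.2) (adv : ℕ → γ) (b : ℕ → ℕ) (hb : PT b)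
    (ha : ∀ m, ∀ n ≤ m, sz (adv n) ≤ b m)
    (h1 : ∀ a, C a → S a (sol (raw a) (adv (key (raw a))))) (h : SearchHardOn C S) :
    ∀ A, InNP A → InPPoly A := by
  intro A hA
  obtain ⟨q, r, hq, hr, p, h⟩ := h A hA
  have pt : ∀ {f}, PolyTime f → PT fun z : Bits × List β => (⟨f (pair z.1.val (enc z.2))⟩ : Bits) :=
    fun hf => (Sim.pt_of_polyTime hf).comp PT.id'.raw
  obtain ⟨q1, e1⟩ := hs.pb
  obtain ⟨q2, e2⟩ := hk.nat_pb
  let H : ℕ → List γ := fun m => (List.range (q2.eval (p.eval m) + 1)).map adv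
  let st : Bits × List γ → List β → List β := fun z s => s ++ [sol ⟨q (pair z.1.val (enc s))⟩
    (z.2.getD (key ⟨q (pair z.1.val (enc s))⟩) default)]
  have hs' : PT fun w : (Bits × List γ) × List β => st w.1 w.2 := by
    have k := (pt hq).comp (g := fun w : (Bits × List γ) × List β => (w.1.1, w.2)) (by fun_prop)
    exact PT.append (by fun_prop) (PT.cons (hs.comp (k.mk (PT.getD PT.id'.fst.snd (hk.comp k)
      (PT.const _)))) (PT.const _))
  have hN : PT fun z : Bits × List γ => p.eval (sz z.1) := PT.polyEval p (by fun_prop)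
  let B : Bits × List γ → ℕ := fun z =>
    p.eval (sz z.1) * (2 * q1.eval (2 * p.eval (sz z.1) + 1 + sz z.2) + 1)
  have hB : PT B := PT.mul hN (PT.add (PT.mul (PT.const _) (PT.polyEval q1 (by fun_prop)))
    (PT.const _))
  have hD := PT.eq ((pt hr).comp ((PT.id'.fst.mk (pt_gd hs' hN hB (PT.const []))).comp
    (g := fun z : Bits => (z.fst, (dec z.snd : List γ))) (by fun_prop))).bval (PT.const [true])
  obtain ⟨q3, e3⟩ : PB fun m : ℕ => (q2.eval (p.eval m) + 1) * (2 * b (q2.eval (p.eval m)) + 1) := by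
    have := PT.polyEval q2 (PT.polyEval p PT.id')
    exact PT.nat_pb (by fun_prop)
  refine ⟨{z | decide (r (pair (Bits.fst ⟨z⟩).val (enc ((gd (B (Bits.fst ⟨z⟩, dec (Bits.snd ⟨z⟩)))
    (st (Bits.fst ⟨z⟩, dec (Bits.snd ⟨z⟩))))^[p.eval (sz (Bits.fst ⟨z⟩))] []))) = [true]) = true},
    inP_of_pt _ hD fun _ => Iff.rfl, q3, fun m => enc (H m), fun m => ?_, fun x => ?_⟩
  · refine le_trans ((sz_le_of_forall (B := b (q2.eval (p.eval m))) fun y hy => ?_).trans
      (by simp [H])) ((e3 m).trans (by simp))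
    obtain ⟨n, hn, rfl⟩ := List.mem_map.1 hy
    exact ha _ n (Nat.le_of_lt_succ (List.mem_range.1 hn))
  obtain ⟨s, s1, s2, s3⟩ := h _ h1 x
  have a1 : Bits.fst ⟨pair x (enc (H x.length))⟩ = ⟨x⟩ := by simp [Bits.fst]
  have a2 : Bits.snd ⟨pair x (enc (H x.length))⟩ = raw (H x.length) := by simp [Bits.snd, raw]
  have l : ∀ a : α, sz a ≤ p.eval x.length → key (raw a) < q2.eval (p.eval x.length) + 1 :=
    fun a b => Nat.lt_succ_of_le ((e2 _).trans (eval_mono _ b))
  have key : ∀ k ≤ s.length, (st (⟨x⟩, H x.length))^[k] [] = s.take k := fun k hk => by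
    induction k with
    | zero => simp
    | succ k ih =>
      obtain ⟨a, b1, b2, -, b3⟩ := s2 k hk
      rw [iterate_succ_apply', ih (by omega), List.take_succ_eq_append_getElem hk]
      simp only [st, b1, b3]
      congr 3
      have := l a b2
      simp only [raw] at this ⊢
      simp [H, this]
  simp only [Set.mem_ofPred_eq, a1, a2, Dec.dec_raw, decide_eq_true_eq, s3]
  rw [show sz (⟨x⟩ : Bits) = x.length from rfl, gd_eq fun k hk => ?_, ← s1, key _ le_rfl,
    List.take_length]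
  rw [key k (by omega)]
  refine (sz_le_of_forall fun y hy => ?_).trans (Nat.mul_le_mul_right _
    ((List.length_take_le ..).trans hk.le))
  obtain ⟨i, hi, rfl⟩ := List.getElem_of_mem (List.mem_of_mem_take hy)
  obtain ⟨a, -, b2, -, b3⟩ := s2 i hi
  refine b3 ▸ (e1 (raw a, _)).trans (eval_mono _ ?_)
  rw [sz_prod]
  exact Nat.add_le_add (Nat.succ_le_succ (Nat.mul_le_mul_left _ b2))
    (sz_le_of_mem (List.mem_map_of_mem (List.mem_range.2 (l a b2))))

variable {n : ℕ}

theorem hull_map (v : Fin (n + 1) → Fin n → ℝ) (T : Matrix (Fin n) (Fin n) ℝ) (t : Fin n → ℝ) :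
    convexHull ℝ (Set.range fun i => T *ᵥ v i + t) =
      (fun y => T *ᵥ y + t) '' convexHull ℝ (Set.range v) := by
  let f : (Fin n → ℝ) →ᵃ[ℝ] (Fin n → ℝ) := (toLin' T).toAffineMap + AffineMap.const ℝ _ t
  have := f.image_convexHull (Set.range v)
  rw [← Set.range_comp] at this
  exact this.symm

theorem vol_map (v : Fin (n + 1) → Fin n → ℝ) (T : Matrix (Fin n) (Fin n) ℝ) (t : Fin n → ℝ) :
    volume (convexHull ℝ (Set.range fun i => T *ᵥ v i + t)) =
      ENNReal.ofReal |T.det| * volume (convexHull ℝ (Set.range v)) := by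
  have : (fun y => T *ᵥ y + t) '' convexHull ℝ (Set.range v) =
      (· + t) '' (toLin' T '' convexHull ℝ (Set.range v)) := by
    rw [Set.image_image]; rfl
  rw [hull_map, this, Set.image_add_right, measure_preimage_add_right,
    Measure.addHaar_image_linearMap, LinearMap.det_toLin']

theorem ai_map {v : Fin (n + 1) → Fin n → ℝ} (h : AffineIndependent ℝ v)
    {T : Matrix (Fin n) (Fin n) ℝ} (hT : T.det ≠ 0) (t : Fin n → ℝ) :
    AffineIndependent ℝ fun i => T *ᵥ v i + t := by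
  let f : (Fin n → ℝ) →ᵃ[ℝ] (Fin n → ℝ) := (toLin' T).toAffineMap + AffineMap.const ℝ _ t
  exact h.map' f fun _ _ k => mulVec_injective_of_isUnit
    ((isUnit_iff_isUnit_det _).2 (Ne.isUnit hT)) (add_right_cancel k)

theorem largest_map {X : Set (Fin n → ℝ)} {v} (h : Largest n X v) {T : Matrix (Fin n) (Fin n) ℝ}
    (hT : T.det ≠ 0) (t : Fin n → ℝ) :
    Largest n ((fun y => T *ᵥ y + t) '' X) fun i => T *ᵥ v i + t := by
  refine ⟨ai_map h.1 hT t, hull_map v T t ▸ Set.image_mono h.2.1, fun u u1 u2 => ?_⟩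
  have e : u = fun i => T *ᵥ (T⁻¹ *ᵥ u i + -(T⁻¹ *ᵥ t)) + t := by
    simp [mulVec_add, mulVec_neg, mul_nonsing_inv T (Ne.isUnit hT)]
  rw [e, vol_map, vol_map v]
  refine mul_le_mul_right (h.2.2 _ (ai_map u1 (by simpa using hT) _) ?_) _
  rw [hull_map, Set.image_subset_iff]
  intro x hx
  obtain ⟨y, y1, rfl⟩ := u2 hx
  simpa [mulVec_add, nonsing_inv_mul T (Ne.isUnit hT)] using y1

def bv (b : Bool) : ℝ := if b then 1 else 0

theorem round (F : MultilinearMap ℝ (fun _ : Fin n => Fin (n + 1) → ℝ) ℝ)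
    (v : Fin n → Fin (n + 1) → ℝ) (h : ∀ j, v j ∈ Set.Icc 0 1) :
    ∃ b : Fin n → Fin (n + 1) → Bool, |F v| ≤ |F fun j i => bv (b j i)| := by
  have : ∀ s : Finset (Fin n), ∃ u : Fin n → Fin (n + 1) → ℝ, (∀ j, u j ∈ Set.Icc 0 1) ∧
      (∀ j ∈ s, ∀ i, u j i = 0 ∨ u j i = 1) ∧ |F v| ≤ |F u| := fun s => by
    induction s using Finset.induction_on with
    | empty => exact ⟨v, h, by simp, le_rfl⟩
    | insert j s _ ih =>
      obtain ⟨u, u1, u2, u3⟩ := ih
      obtain ⟨c, c1, c2⟩ := (convexOn_univ_norm.comp_linearMap (F.toLinearMap u j)).exists_ge_of_mem_convexHull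
        (t := Set.univ.pi fun _ => {0, 1}) (x := u j) (by simp) (by
          rw [convexHull_pi]
          intro i _
          rw [convexHull_pair, segment_eq_Icc zero_le_one]
          exact ⟨(u1 j).1 i, (u1 j).2 i⟩)
      have c3 : ∀ i, c i = 0 ∨ c i = 1 := fun i => c1 i trivial
      refine ⟨update u j c, fun k => ?_, fun k hk => ?_, u3.trans (by simpa using c2)⟩
      · by_cases e : k = j
        · rw [e, update_self]
          exact ⟨fun i => by rcases c3 i with e | e <;> simp [e],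
            fun i => by rcases c3 i with e | e <;> simp [e]⟩
        · rw [update_of_ne e]; exact u1 k
      · by_cases e : k = j
        · rw [e, update_self]; exact c3
        · rw [update_of_ne e]; exact u2 k ((mem_insert.1 hk).resolve_left e)
  obtain ⟨u, -, u2, u3⟩ := this univ
  refine ⟨fun j i => decide (u j i = 1), u3.trans_eq (congrArg (|F ·|) ?_)⟩
  funext j i
  rcases u2 j (mem_univ _) i with e | e <;> simp [bv, e]

theorem cube (n : ℕ) : ∃ b : Fin (n + 1) → Fin n → Bool,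
    Largest n (Set.Icc 0 1) fun i j => bv (b i j) := by
  let L : (Fin (n + 1) → ℝ) →ₗ[ℝ] Fin n → ℝ :=
    LinearMap.pi fun i => LinearMap.proj (R := ℝ) (φ := fun _ : Fin (n + 1) => ℝ) i.succ -
      LinearMap.proj (R := ℝ) (φ := fun _ : Fin (n + 1) => ℝ) 0
  let F := (detRowAlternating (R := ℝ) (n := Fin n)).toMultilinearMap.compLinearMap fun _ => L
  let M : (Fin (n + 1) → Fin n → ℝ) → Matrix (Fin n) (Fin n) ℝ := fun v =>
    of fun j i => v i.succ j - v 0 j
  have eF : ∀ v : Fin (n + 1) → Fin n → ℝ, F (fun j i => v i j) = (M v).det := fun _ => rfl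
  let e : Fin (n + 1) → Fin n → ℝ := Fin.cons 0 fun i => Pi.single i 1
  have ev : ∀ v, v = fun i => M v *ᵥ e i + v 0 := fun v => by
    funext i j
    refine Fin.cases ?_ (fun i => ?_) i <;> simp [e, M]
  have ai : AffineIndependent ℝ e := (affineIndependent_iff_of_fintype ℝ e).2 fun w w1 w2 => by
    rw [weightedVSub_eq_linear_combination _ w1] at w2
    have : ∀ j : Fin n, w j.succ = 0 := fun j => by
      simpa [Fin.sum_univ_succ, e, Pi.single_apply] using congrFun w2 j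
    exact Fin.cases (by simpa [Fin.sum_univ_succ, this] using w1) this
  obtain ⟨b, -, hb⟩ := exists_max_image univ (fun b : Fin n → Fin (n + 1) → Bool =>
    |F fun j i => bv (b j i)|) univ_nonempty
  have key : ∀ v : Fin (n + 1) → Fin n → ℝ, (∀ i, v i ∈ Set.Icc 0 1) →
      |(M v).det| ≤ |(M fun i j => bv (b j i)).det| := fun v hv => by
    obtain ⟨c, hc⟩ := round F (fun j i => v i j) fun j => ⟨fun i => (hv i).1 j, fun i => (hv i).2 j⟩
    exact hc.trans (hb c (mem_univ _))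
  refine ⟨fun i j => b j i, ?_, convexHull_min (Set.range_subset_iff.2 fun i =>
    ⟨fun j => by simp only [bv]; split_ifs <;> simp, fun j => by simp only [bv]; split_ifs <;> simp⟩)
    (convex_Icc _ _), fun u _ u2 => ?_⟩
  · rw [ev fun i j => bv (b j i)]
    refine ai_map ai (abs_pos.1 (lt_of_lt_of_le ?_ (key e (Fin.cases (by simp [e]) fun i =>
      ⟨fun j => by simp [e, Pi.single_apply]; split_ifs <;> simp,
        fun j => by simp [e, Pi.single_apply]; split_ifs <;> simp⟩)))) _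
    rw [show M e = 1 by ext j i; simp [M, e, one_apply, Pi.single_apply]]
    simp
  · rw [ev u, ev fun i j => bv (b j i), vol_map, vol_map]
    exact mul_le_mul_left (ENNReal.ofReal_le_ofReal (key u fun i =>
      u2 (subset_convexHull ℝ _ ⟨i, rfl⟩))) _

def cu (n : ℕ) (R : List Rw) : List Rw :=
  ((R.product R).filter fun p => okp n p.1 p.2).map fun p =>
    ((p.1.1.map (-dt n p.1.1 p.2.1 * ·)).map (· * dv (dd (cand n R))
      (-dt n p.1.1 p.2.1 * p.1.2 + dt n p.1.1 p.1.1 * p.2.2)), -dt n p.1.1 p.2.1 * p.1.2 *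
      dv (dd (cand n R)) (-dt n p.1.1 p.2.1 * p.1.2 + dt n p.1.1 p.1.1 * p.2.2))

def ub (K : List Rw) (w : List ℤ) : ℤ := ((K.find? fun e => decide (e.1 = w)).getD ([], 0)).2

theorem slab {R : List Rw} {w} (hw : w ∈ scl (cand n R)) {x} (hx : ∀ r ∈ R, rv n r.1 ⬝ᵥ x ≤ r.2) :
    (ub (cu n R) w : ℝ) - dd (cand n R) ≤ rv n w ⬝ᵥ x ∧ rv n w ⬝ᵥ x ≤ ub (cu n R) w := by
  have e : scl (cand n R) = (cu n R).map (·.1) := by
    rw [scl, cu]
    conv_lhs => arg 2; rw [cand]
    rw [List.map_map, List.map_map]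
    rfl
  obtain ⟨k, k1, rfl⟩ := List.mem_map.1 (e ▸ hw)
  unfold ub
  cases c : (cu n R).find? fun e => decide (e.1 = k.1) with
  | none => simpa using List.find?_eq_none.1 c k k1
  | some a =>
    rw [← (by simpa using List.find?_some c : a.1 = k.1)]
    obtain ⟨⟨r, s⟩, h, rfl⟩ := List.mem_map.1 (List.mem_of_find?_eq_some c)
    have m : (r.1.map (-dt n r.1 s.1 * ·), -dt n r.1 s.1 * r.2 + dt n r.1 r.1 * s.2) ∈ cand n R :=
      List.mem_map_of_mem (f := fun p : Rw × Rw => (p.1.1.map (-dt n p.1.1 p.2.1 * ·),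
        -dt n p.1.1 p.2.1 * p.1.2 + dt n p.1.1 p.1.1 * p.2.2)) h
    have d := dv_prod (l := (cand n R).map (·.2)) (fun x hx => by
      obtain ⟨k, hk, rfl⟩ := List.mem_map.1 hx
      obtain ⟨_, -, _, -, _, _, -, -, -, h, -, rfl⟩ := mem_cand.1 hk
      exact h) (List.mem_map_of_mem m)
    simp only [okp, List.mem_filter, List.pair_mem_product, Bool.and_eq_true, decide_eq_true_eq,
      List.all_eq_true, List.mem_range] at h
    obtain ⟨⟨r1, s1⟩, ⟨p0, d0⟩, h⟩ := h
    have q0 : (0 : ℝ) ≤ dt n r.1 r.1 := dt_eq n _ _ ▸ sum_nonneg fun _ _ => mul_self_nonneg _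
    have e1 : (dt n r.1 r.1 : ℝ) * (rv n s.1 ⬝ᵥ x) = dt n r.1 s.1 * (rv n r.1 ⬝ᵥ x) := by
      simp only [dotProduct, mul_sum, ← mul_assoc, rv]
      exact sum_congr rfl fun j _ => congrArg (· * x j) (by exact_mod_cast h j j.2)
    have D0 : (0 : ℝ) < dd (cand n R) := by exact_mod_cast dd_pos n R
    simp only [Option.getD_some, List.map_map] at d ⊢
    change (dv (dd _) _ : ℝ) = dd _ / _ at d
    generalize dv (dd (cand n R)) _ = g at d ⊢
    rw [rv_map n r.1 _ (g * -dt n r.1 s.1) fun x => by simp; ring, smul_dotProduct]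
    have d1 : (0 : ℝ) < (-dt n r.1 s.1 * r.2 + dt n r.1 r.1 * s.2 : ℤ) := by
      exact_mod_cast (by omega)
    have g0 : (0 : ℝ) ≤ g := d ▸ by positivity
    have p1 : (0 : ℝ) ≤ -dt n r.1 s.1 := by exact_mod_cast (by omega)
    have a1 := mul_le_mul_of_nonneg_left (mul_le_mul_of_nonneg_left (hx r r1) p1) g0
    have a2 := mul_le_mul_of_nonneg_left (mul_le_mul_of_nonneg_left (hx s s1) q0) g0
    rw [eq_div_iff d1.ne'] at d
    rw [e1] at a2
    push_cast at d ⊢
    rw [smul_eq_mul]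
    constructor <;> linarith

def core (p : ℕ × Mx) (K : List Rw) (W : Mx) (D : ℤ) (Y : List (List Bool)) : List (List ℚ) :=
  Y.map fun y => (List.range p.1).map fun j => qd (sm p.1 fun k =>
    (ub K (W.getD k []) - if y.getD k false then D else 0) * dual p W k j) (fo p W).1

theorem pt_core : PT fun z : (ℕ × Mx) × List Rw × Mx × ℤ × List (List Bool) =>
    core z.1 z.2.1 z.2.2.1 z.2.2.2.1 z.2.2.2.2 := by
  have f : ∀ {β : Type} [Enc β] {p : β → ℕ × Mx} {W : β → Mx}, PT p → PT W →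
      PT fun b => fo (p b) (W b) := fun hp hW => (pt_fo.comp (hp.mk hW)).of_eq fun _ => rfl
  unfold core ub dual
  refine PT.map (PT.map (pt_qd (pt_sm ?_ (pt_zmul ?_ (pt_mv ?_ (f ?_ ?_).snd ?_ ?_)))
    (f ?_ ?_).fst) ?_) ?_ <;> fun_prop

abbrev SI := ℕ × List (List ℚ × ℚ)
abbrev SI' := ℕ × List (List Q' × Q')

def sol (x : Bits) (Y : List (List Bool)) : List (List ℚ) :=
  let n := (dec x : SI').1
  let R := (dec x : SI').2.map irow
  core (n, scl (cand n R)) (cu n R) (ch (n, scl (cand n R))) (dd (cand n R)) Y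

theorem pt_cu : PT fun p : ℕ × List Rw => cu p.1 p.2 := by
  have a : PT fun q : (ℕ × List Rw) × Rw × Rw => dv (dd (cand q.1.1 q.1.2))
      (-dt q.1.1 q.2.1.1 q.2.2.1 * q.2.1.2 + dt q.1.1 q.2.1.1 q.2.1.1 * q.2.2.2) :=
    pt_dv (pt_dd.comp (pt_cand.comp PT.id'.fst)) (by fun_prop)
  unfold cu
  refine PT.map (PT.mk (PT.map (pt_zmul PT.id'.snd (a.comp PT.id'.fst)) (PT.map ?_ ?_))
    (pt_zmul ?_ a)) (PT.filter (pt_okp.comp
    (g := fun q : (ℕ × List Rw) × Rw × Rw => (q.1.1, q.2)) ?_) ?_) <;> fun_prop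

theorem pt_sol : PT fun p : Bits × List (List Bool) => sol p.1 p.2 := by
  have a : PT fun p : Bits × List (List Bool) =>
      ((dec p.1 : SI').1, (dec p.1 : SI').2.map irow) :=
    PT.mk (by fun_prop) (PT.map (f := fun _ => irow) (pt_irow.comp PT.id'.snd) (by fun_prop))
  have b := pt_cand.comp a
  have c := a.fst.mk (pt_scl.comp b)
  exact (pt_core.comp (c.mk ((pt_cu.comp a).mk ((pt_ch.comp c).mk
    ((pt_dd.comp b).mk PT.id'.snd))))).of_eq fun _ => rfl

theorem dec_cv' (I : SI) : (dec (raw I) : SI') = (I.1, (cv (I.1, I.2, 1)).2.1) := by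
  rw [← Dec.dec_raw (I.1, (cv (I.1, I.2, 1)).2.1)]
  exact congrArg (fun x => dec (⟨x⟩ : Bits)) (congrArg (pair _)
    (enc_map _ (fun r => congrArg (pair · _) (enc_map qv (fun _ => rfl) r.1)) _).symm)

theorem param {R : List Rw} {T : Matrix (Fin n) (Fin n) ℝ} (hT : T.det ≠ 0) {t : Fin n → ℝ}
    (H : ∀ y, (∀ r ∈ R, rv n r.1 ⬝ᵥ (T *ᵥ y + t) ≤ r.2) ↔ y ∈ Set.Icc (0 : Fin n → ℝ) 1) :
    ∃ (T' : Matrix (Fin n) (Fin n) ℝ) (t' : Fin n → ℝ), T'.det ≠ 0 ∧
      (fun y => T *ᵥ y + t) '' Set.Icc 0 1 = (fun y => T' *ᵥ y + t') '' Set.Icc 0 1 ∧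
      ∀ (y : List Bool) (j : Fin n), (qd (sm n fun k => (ub (cu n R)
        ((ch (n, scl (cand n R))).getD k []) - if y.getD k false then dd (cand n R) else 0) *
        dual (n, scl (cand n R)) (ch (n, scl (cand n R))) k j)
        (fo (n, scl (cand n R)) (ch (n, scl (cand n R)))).1 : ℝ) =
        (T' *ᵥ (fun k => bv (y.getD k false)) + t') j := by
  obtain ⟨U, eU, -, hU, h3, h4⟩ := geo hT H
  obtain ⟨π, π1, π2, π3, π4⟩ := chosen hU h3 h4
  have D0 : (0 : ℝ) < dd (cand n R) := by exact_mod_cast dd_pos n R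
  have sl := fun (k : Fin n) y hy => slab (π2 k).1 ((H y).2 hy)
  rw [π3]
  generalize ch (n, scl (cand n R)) = W at *
  generalize dual (n, scl (cand n R)) W = g at *
  generalize dd (cand n R) = D at *
  have Δ0 : 0 < det U ^ 2 := by positivity
  have Δ1 : ((det U ^ 2 : ℤ) : ℝ) ≠ 0 := by exact_mod_cast Δ0.ne'
  generalize det U ^ 2 = Δ at *
  let B : Matrix (Fin n) (Fin n) ℝ := of fun m => rv n (W.getD m [])
  let G : Matrix (Fin n) (Fin n) ℝ := of fun j k => g k j / Δ
  let β : Fin n → ℝ := fun k => ub (cu n R) (W.getD k [])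
  have BG : B * G = 1 := by
    ext m k
    have := congrArg (Int.cast (R := ℝ)) (π4 m k)
    simp only [dotProduct, Int.cast_sum, Int.cast_mul, toV] at this
    simp only [mul_apply, B, G, of_apply, rv, ← mul_div_assoc, ← sum_div, this, one_apply]
    split_ifs <;> simp [Δ1]
  have ex : ∀ y, (-(D : ℝ) • G) *ᵥ y + G *ᵥ β = G *ᵥ (β - (D : ℝ) • y) := fun y => by
    rw [mulVec_sub, mulVec_smul, smul_mulVec, neg_smul, neg_add_eq_sub]
  have ey : ∀ (m : Fin n) y, rv n (W.getD m []) ⬝ᵥ (T *ᵥ y + t) = β m - D * (1 - y (π m)) ∨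
      rv n (W.getD m []) ⬝ᵥ (T *ᵥ y + t) = β m - D * y (π m) := fun m y => by
    have u : ∀ y, (fun j => (U (π m) j : ℝ)) ⬝ᵥ T *ᵥ y = D * y (π m) := fun y => by
      have := congrFun (congrArg (· *ᵥ y) eU) (π m)
      simp only [← mulVec_mulVec, smul_mulVec, one_mulVec] at this
      exact this
    have a := sl m 0 (by simp)
    have b := sl m 1 (by simp)
    simp only [dotProduct_add, β] at a b ⊢
    refine (π2 m).2.imp (fun e => ?_) fun e => ?_
    · have : rv n (W.getD m []) = fun j => (U (π m) j : ℝ) :=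
        funext fun j => congrArg Int.cast (congrFun e j)
      simp only [this, u, Pi.zero_apply, Pi.one_apply] at a b ⊢
      linarith [a.1, b.2]
    · have : rv n (W.getD m []) = -fun j => (U (π m) j : ℝ) :=
        funext fun j => (congrArg Int.cast (congrFun e j)).trans (by simp)
      simp only [this, neg_dotProduct, u, Pi.zero_apply, Pi.one_apply] at a b ⊢
      linarith [a.2, b.1]
  refine ⟨-(D : ℝ) • G, G *ᵥ β, ?_, Set.Subset.antisymm ?_ ?_, fun y j => ?_⟩
  · rw [det_smul]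
    exact mul_ne_zero (pow_ne_zero _ (neg_ne_zero.2 D0.ne')) (det_ne_zero_of_left_inverse BG)
  · rintro _ ⟨y, hy, rfl⟩
    refine ⟨(D : ℝ)⁻¹ • (β - B *ᵥ (T *ᵥ y + t)), ⟨fun m => mul_nonneg (by positivity)
      (sub_nonneg.2 (sl m y hy).2), fun m => (inv_mul_le_one₀ D0).2
        (sub_le_comm.1 (sl m y hy).1)⟩, ?_⟩
    simp only [ex, smul_inv_smul₀ D0.ne', sub_sub_cancel, mulVec_mulVec, mul_eq_one_comm.1 BG,
      one_mulVec]
  · rintro _ ⟨y, hy, rfl⟩
    have e : T *ᵥ (T⁻¹ *ᵥ (G *ᵥ (β - (D : ℝ) • y) - t)) + t = G *ᵥ (β - (D : ℝ) • y) := by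
      rw [mulVec_mulVec, mul_nonsing_inv T (Ne.isUnit hT), one_mulVec, sub_add_cancel]
    refine ⟨_, Set.mem_Icc.2 (forall_and.1 fun i => ?_), e.trans (ex y).symm⟩
    obtain ⟨m, rfl⟩ := π1 i
    have a := ey m (T⁻¹ *ᵥ (G *ᵥ (β - (D : ℝ) • y) - t))
    have b : rv n (W.getD m []) ⬝ᵥ G *ᵥ (β - (D : ℝ) • y) = β m - D * y m := by
      change (B *ᵥ _) m = _
      rw [mulVec_mulVec, BG, one_mulVec]
      rfl
    rw [e, b, sub_right_inj, sub_right_inj, mul_right_inj' D0.ne', mul_right_inj' D0.ne'] at a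
    have c := hy.1 m
    have d := hy.2 m
    simp only [Pi.zero_apply, Pi.one_apply] at c d ⊢
    rcases a with a | a <;> constructor <;> linarith
  · rw [qd_eq _ Δ0, ex, sm_eq]
    simp only [mulVec, dotProduct, G, β, bv, of_apply, Int.cast_sum, sum_div, Pi.sub_apply,
      Pi.smul_apply, smul_eq_mul]
    refine sum_congr rfl fun k _ => ?_
    split_ifs <;> push_cast <;> ring

theorem search (h : SearchHardOn SValid Sol) : ∀ A, InNP A → InPPoly A := by
  choose b hb using cube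
  refine advice2 (fun x => (dec x : SI').1) Dec.pt.fst sol pt_sol
    (fun n => List.ofFn fun i => List.ofFn (b n i)) (fun m => (m + 1) * (2 * (m * 3) + 1))
    (by fun_prop) (fun m n hn => (sz_le_of_forall (B := m * 3) fun y hy => ?_).trans
      (by simp only [List.length_ofFn]; gcongr)) (fun I hI => ?_) h
  · obtain ⟨i, rfl⟩ := List.mem_ofFn.1 hy
    exact (sz_le_of_forall (B := 1) fun x _ => by simp).trans (by simpa using hn)
  obtain ⟨-, -, T, t, h1, h2⟩ := hI
  obtain ⟨T', t', a1, a2, a3⟩ := param h1 (rows h1 h2)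
  rw [dec_cv']
  simp only [sol, dec_cv', Sol, core]
  refine ⟨by simp, by simp, ?_⟩
  rw [h2, a2]
  convert largest_map (hb I.1) a1 t' using 2 with i
  funext j
  rw [List.getD_eq_getElem _ _ (n := i) (by simpa using i.2), List.getElem_map,
    List.getD_eq_getElem _ _ (by simp), List.getElem_map, List.getElem_range, List.getElem_ofFn]
  simpa using a3 (List.ofFn (b I.1 i)) j

end Pool.Agent.H36.Simp
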