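import Pool.Agent.H38.ER.Defs

/-!
Largest full-dimensional simplices in parallelotopes given by inequalities; Turing reductions
and the class P/poly.
-/

namespace Pool.Agent.H36.Simp

open Pool.Agent.H38.NP

/-- An instance: the dimension `n`, the rows `(a, b)` of the inequalities `a · x ≤ b`, and the
bound `λ`. -/
abbrev Inst := ℕ × List (List ℚ × ℚ) × ℚ

/-- the solution set of the inequalities -/
def poly (I : Inst) : Set (Fin I.1 → ℝ) :=
  {x | ∀ r ∈ I.2.1, ∑ j : Fin I.1, (r.1.getD j 0 : ℝ) * x j ≤ r.2}

/-- Every row has `n` coefficients, `λ > 0`, and the solution set is an `n`-dimensional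
parallelotope (the image of the unit cube under an invertible affine map). Redundant
inequalities are allowed. -/
def Valid (I : Inst) : Prop :=
  (∀ r ∈ I.2.1, r.1.length = I.1) ∧ 0 < I.2.2 ∧
    ∃ (T : Matrix (Fin I.1) (Fin I.1) ℝ) (t : Fin I.1 → ℝ), T.det ≠ 0 ∧
      poly I = (fun y => T.mulVec y + t) '' Set.Icc 0 1

/-- The set `X` contains an `n`-simplex `S` with `(n!)² vol(S)² ≥ l`. -/
def Big (n : ℕ) (X : Set (Fin n → ℝ)) (l : ℝ) : Prop :=
  ∃ v : Fin (n + 1) → Fin n → ℝ, AffineIndependent ℝ v ∧ convexHull ℝ (Set.range v) ⊆ X ∧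
    l ≤ (n.factorial : ℝ) ^ 2 * (MeasureTheory.volume (convexHull ℝ (Set.range v))).toReal ^ 2

/-- the decision version of the problem for `γ(n) = n` -/
def Yes (I : Inst) : Prop := Big I.1 (poly I) I.2.2

/-- NP-hardness under polynomial-time Turing reductions: for every NP language there are
polynomial-time machines `q` (next query, from the input and the answers so far) and `r`
(verdict, from the input and all answers) and a polynomial number of rounds; all queries are
members of `C`. -/
def TuringHardOn {α : Type} [Enc α] (C P : α → Prop) : Prop :=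
  ∀ A, InNP A → ∃ q r, PolyTime q ∧ PolyTime r ∧ ∃ p : Polynomial ℕ, ∀ x, ∃ s : List Bool,
    s.length = p.eval x.length ∧
    (∀ k (hk : k < s.length), ∃ a, q (pair x (s.take k)) = enc a ∧ C a ∧ (s[k] = true ↔ P a)) ∧
    (x ∈ A ↔ r (pair x s) = [true])

/-- The points `v` are the vertices of a largest `n`-simplex in `X`. -/
def Largest (n : ℕ) (X : Set (Fin n → ℝ)) (v : Fin (n + 1) → Fin n → ℝ) : Prop :=
  AffineIndependent ℝ v ∧ convexHull ℝ (Set.range v) ⊆ X ∧
    ∀ u : Fin (n + 1) → Fin n → ℝ, AffineIndependent ℝ u → convexHull ℝ (Set.range u) ⊆ X →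
      MeasureTheory.volume (convexHull ℝ (Set.range u)) ≤
        MeasureTheory.volume (convexHull ℝ (Set.range v))

/-- inputs of the search problem: dimension and inequalities describing a parallelotope -/
def SValid (I : ℕ × List (List ℚ × ℚ)) : Prop := Valid (I.1, I.2, 1)

/-- the search problem for `γ(n) = n`: `S` lists the `n + 1` vertices of a largest simplex -/
def Sol (I : ℕ × List (List ℚ × ℚ)) (S : List (List ℚ)) : Prop :=
  S.length = I.1 + 1 ∧ (∀ x ∈ S, x.length = I.1) ∧
    Largest I.1 (poly (I.1, I.2, 1)) fun i j => ((S.getD i []).getD j 0 : ℚ)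

/-- NP-hardness of a search problem under polynomial-time Turing reductions: machines `q` (next
query) and `r` (verdict) work with every oracle `O` that returns solutions on members of `C`;
the number and the length of the queries are polynomially bounded. -/
def SearchHardOn {α β : Type} [Enc α] [Enc β] (C : α → Prop) (S : α → β → Prop) : Prop :=
  ∀ A, InNP A → ∃ q r, PolyTime q ∧ PolyTime r ∧ ∃ p : Polynomial ℕ,
    ∀ O : α → β, (∀ a, C a → S a (O a)) → ∀ x, ∃ s : List β, s.length = p.eval x.length ∧
      (∀ k (hk : k < s.length), ∃ a, q (pair x (enc (s.take k))) = enc a ∧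
        (enc a).length ≤ p.eval x.length ∧ C a ∧ s[k] = O a) ∧
      (x ∈ A ↔ r (pair x (enc s)) = [true])

/-- the class P/poly: polynomial time with polynomial-size advice depending on the length only -/
def InPPoly (L : Set (List Bool)) : Prop :=
  ∃ R, InP R ∧ ∃ (p : Polynomial ℕ) (h : ℕ → List Bool), (∀ n, (h n).length ≤ p.eval n) ∧
    ∀ x, x ∈ L ↔ pair x (h x.length) ∈ R

end Pool.Agent.H36.Simp
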