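import Mathlib

/-!
Skew-supermodular functions: uncrossing, the matroid of balanced splittings.
-/

namespace Pool.Agent.H36.Skew

open Finset

def Sk (p : Finset ℕ → ℤ) : Prop :=
  ∀ X Y, p X + p Y ≤ p (X ∩ Y) + p (X ∪ Y) ∨ p X + p Y ≤ p (X \ Y) + p (Y \ X)

def Cov (p : Finset ℕ → ℤ) (W : Finset ℕ) (m : ℕ) : Prop := ∀ X, p X ≤ #(X ∩ W) + m

def Ti (p : Finset ℕ → ℤ) (W : Finset ℕ) (m : ℕ) (X : Finset ℕ) : Prop := p X = #(X ∩ W) + m

variable {p : Finset ℕ → ℤ} {W S X Y : Finset ℕ} {m m₁ m₂ : ℕ}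

theorem c1 (X Y W : Finset ℕ) : #(X ∩ Y ∩ W) + #((X ∪ Y) ∩ W) = #(X ∩ W) + #(Y ∩ W) := by
  rw [← card_inter_add_card_union (X ∩ W), union_inter_distrib_right, inter_inter_distrib_right]

theorem c2 (X Y W : Finset ℕ) : #(X \ Y ∩ W) + #(X ∩ Y ∩ W) = #(X ∩ W) := by
  rw [← card_sdiff_add_card_inter (X ∩ W) Y]
  congr 2 <;> ext <;> simp <;> tauto

theorem uncross (hp : Sk p) (h : Cov p W m) (hX : Ti p W m X) (hY : Ti p W m Y) :
    (Ti p W m (X ∩ Y) ∧ Ti p W m (X ∪ Y)) ∨ (Ti p W m (Y \ X) ∧ X ∩ Y ∩ W = ∅) := by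
  unfold Ti at *
  have := c1 X Y W
  have := c2 X Y W
  have := c2 Y X W
  have := h (X ∩ Y)
  have := h (X ∪ Y)
  have := h (X \ Y)
  have := h (Y \ X)
  rw [← card_eq_zero, inter_comm Y X] at *
  rcases hp X Y with k | k
  · exact .inl ⟨by omega, by omega⟩
  · exact .inr ⟨by omega, by omega⟩

inductive Good (p : Finset ℕ → ℤ) (W : Finset ℕ) (m : ℕ) : Finset ℕ → Prop
  | nil : Good p W m ∅
  | cons {X G} : Ti p W m X → Disjoint X G → Good p W m G → Good p W m (X ∪ G)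

theorem Good.add (hp : Sk p) (h : Cov p W m) {G} (hG : Good p W m G) :
    ∀ Y, Ti p W m Y → ∃ G', Good p W m G' ∧ G' ⊆ G ∪ Y ∧ G ∪ Y ⊆ G' := by
  induction hG with
  | nil => exact fun Y hY => ⟨_, .cons hY (by simp) .nil, by simp, by simp⟩
  | @cons X G hX d _ ih =>
    intro Y hY
    rcases uncross hp h hX hY with k | k
    · obtain ⟨G', a, b, c⟩ := ih _ k.2
      exact ⟨G', a, by grind, by grind⟩
    · obtain ⟨G', a, b, c⟩ := ih _ k.1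
      exact ⟨_, .cons hX (by rw [disjoint_left] at *; grind) a, by grind, by grind⟩

theorem Good.val {G} (hG : Good p W m G) {x : ℕ → ℚ} (hx : ∀ X, (p X : ℚ) ≤ ∑ i ∈ X, x i + m) :
    (#(G ∩ W) : ℚ) ≤ ∑ i ∈ G, x i := by
  induction hG with
  | nil => simp
  | @cons X G hX d _ ih =>
    have := hx X
    rw [hX] at this
    rw [union_inter_distrib_right, card_union_of_disjoint (d.mono inter_subset_left
      inter_subset_left), sum_union d]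
    push_cast at this ⊢
    linarith

theorem cover (hp : Sk p) (h : Cov p W m) {V : Finset ℕ} (Z : Finset ℕ)
    (hZ : ∀ u ∈ Z, ∃ Y, Ti p W m Y ∧ u ∈ Y ∧ Disjoint Y V) :
    ∃ G, Good p W m G ∧ Z ⊆ G ∧ Disjoint G V := by
  induction Z using Finset.induction_on with
  | empty => exact ⟨∅, .nil, by simp, by simp⟩
  | insert u Z _ ih =>
    obtain ⟨G, a, b, c⟩ := ih fun v hv => hZ v (mem_insert_of_mem hv)
    obtain ⟨Y, d, e, f⟩ := hZ u (mem_insert_self _ _)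
    obtain ⟨G', g, i, j⟩ := a.add hp h Y d
    exact ⟨G', g, by grind, by rw [disjoint_left] at *; grind⟩

theorem min_tight (hp : Sk p) (h : Cov p W m) {u} (hu : u ∈ W) (hY : ∃ Y, Ti p W m Y ∧ u ∈ Y) :
    ∃ Y, Ti p W m Y ∧ u ∈ Y ∧ ∀ Y', Ti p W m Y' → u ∈ Y' → Y ⊆ Y' := by
  obtain ⟨Y, ⟨a, b⟩, c⟩ := exists_minimal_of_wellFoundedLT (fun Y => Ti p W m Y ∧ u ∈ Y) hY
  refine ⟨Y, a, b, fun Y' d e => ?_⟩
  rcases uncross hp h a d with k | k
  · exact (c ⟨k.1, mem_inter.2 ⟨b, e⟩⟩ inter_subset_left).trans inter_subset_right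
  · exact absurd (mem_inter.2 ⟨mem_inter.2 ⟨b, e⟩, hu⟩) (by simp [k.2])

theorem cov_mono (h : Cov p W m) {W'} (e : W ⊆ W') : Cov p W' m := fun X =>
  (h X).trans (by gcongr)

theorem cov_erase (h : Cov p W m) {u} (k : ∀ Y, Ti p W m Y → u ∉ Y) : Cov p (W.erase u) m := by
  intro X
  have := h X
  by_cases c : u ∈ X ∩ W
  · have := mt (k X) (not_not.2 (mem_inter.1 c).1)
    rw [inter_erase, card_erase_of_mem c]
    have := card_pos.2 ⟨u, c⟩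
    unfold Ti at *
    omega
  · rwa [inter_erase, erase_eq_of_notMem c]

theorem cov_swap (h : Cov p W m) {u v} (hv : v ∉ W) (k : ∀ Y, Ti p W m Y → u ∈ Y → v ∈ Y) :
    Cov p (insert v (W.erase u)) m := by
  intro X
  have := h X
  have kX := k X
  have e : v ∉ X ∩ W.erase u := by simp [hv]
  have := pred_card_le_card_erase (s := X ∩ W) (a := u)
  by_cases c : v ∈ X
  · rw [inter_insert_of_mem c, card_insert_of_notMem e, inter_erase]
    omega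
  · rw [inter_insert_of_notMem c, inter_erase]
    by_cases d : u ∈ X
    · unfold Ti at *
      have : p X ≠ #(X ∩ W) + m := fun e => c (kX e d)
      omega
    · rwa [erase_eq_of_notMem (by simp [d])]

structure Hyp (p : Finset ℕ → ℤ) (S : Finset ℕ) (k : ℕ) : Prop where
  sk : Sk p
  le : ∀ X, p X ≤ #(X ∩ S)
  le' : ∀ X, p X ≤ k

theorem cross (H : Hyp p S (m₁ + m₂)) {T} (hW : Cov p W m₂) (hT : Cov p T m₁) (e : S ⊆ W ∪ T)
    (hX : Ti p T m₁ X) (hY : Ti p W m₂ Y) {v} (v1 : v ∈ X) (v2 : v ∈ Y) (v3 : v ∈ W ∪ T) :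
    X ∩ Y ∩ W ∩ T = ∅ ∧ Y \ X ∩ W = ∅ ∧ X \ Y ∩ T = ∅ := by
  unfold Ti at *
  have := c2 X Y T
  have := c2 Y X W
  have := card_inter_add_card_union (X ∩ Y ∩ W) (X ∩ Y ∩ T)
  have := card_le_card (inter_subset_inter_left (s := X ∩ Y) e)
  have := card_pos.2 ⟨v, mem_inter.2 ⟨mem_inter.2 ⟨v1, v2⟩, v3⟩⟩
  rw [← inter_union_distrib_left, ← inter_inter_distrib_left, ← inter_assoc, inter_comm Y X] at *
  have := H.le (X ∩ Y)
  have := H.le' (X ∪ Y)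
  have := hT (X \ Y)
  have := hW (Y \ X)
  simp only [← card_eq_zero]
  rcases H.sk X Y with k | k <;> omega

def Fe (p : Finset ℕ → ℤ) (S : Finset ℕ) (m₁ m₂ : ℕ) (W : Finset ℕ) : Prop :=
  W ⊆ S ∧ Cov p W m₂ ∧ Cov p (S \ W) m₁

theorem Fe.compl (h : Fe p S m₁ m₂ W) : Fe p S m₂ m₁ (S \ W) :=
  ⟨sdiff_subset, h.2.2, by rw [Finset.sdiff_sdiff_eq_self h.1]; exact h.2.1⟩

theorem sd_swap (hW : W ⊆ S) {u v} (hu : u ∈ W) (hv : v ∉ W) :
    S \ insert v (W.erase u) = insert u ((S \ W).erase v) := by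
  have := hW hu
  grind

theorem Fe.swap (H : Hyp p S (m₁ + m₂)) (h : Fe p S m₁ m₂ W) {u v} (hu : u ∈ W) (hv : v ∈ S \ W)
    (hY : Ti p W m₂ Y) (uY : u ∈ Y) (mY : ∀ Y', Ti p W m₂ Y' → u ∈ Y' → Y ⊆ Y') (vY : v ∈ Y) :
    Fe p S m₁ m₂ (insert v (W.erase u)) := by
  refine ⟨by have := h.1; grind, cov_swap h.2.1 (mem_sdiff.1 hv).2 fun Y' a b => mY Y' a b vY, ?_⟩
  rw [sd_swap h.1 hu (mem_sdiff.1 hv).2]
  refine cov_swap h.2.2 (by simp [hu]) fun X a b => by_contra fun c => ?_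
  have := (cross H h.2.1 h.2.2 (by grind) a hY b vY (mem_union_right _ hv)).2.1
  exact absurd (mem_inter.2 ⟨mem_sdiff.2 ⟨uY, c⟩, hu⟩) (by simp [this])

structure Fr (p : Finset ℕ → ℤ) (S : Finset ℕ) (m₁ m₂ : ℕ) (x : ℕ → ℚ) : Prop where
  nn : ∀ i ∈ S, 0 ≤ x i
  le : ∀ i ∈ S, x i ≤ 1
  lo : ∀ X, (p X : ℚ) ≤ ∑ i ∈ X ∩ S, x i + m₂
  up : ∀ X, (p X : ℚ) ≤ ∑ i ∈ X ∩ S, (1 - x i) + m₁

theorem Fr.compl {x} (h : Fr p S m₁ m₂ x) : Fr p S m₂ m₁ fun i => 1 - x i :=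
  ⟨fun i hi => sub_nonneg.2 (h.le i hi), fun i hi => sub_le_self _ (h.nn i hi), h.up,
    by simpa using h.lo⟩

theorem Fe.fr (h : Fe p S m₁ m₂ W) : Fr p S m₁ m₂ fun i => if i ∈ W then 1 else 0 := by
  refine ⟨fun i _ => by split_ifs <;> simp, fun i _ => by split_ifs <;> simp, fun X => ?_,
    fun X => ?_⟩
  · rw [sum_ite_mem, inter_assoc, inter_eq_right.2 h.1]
    simpa using (Int.cast_le (R := ℚ)).2 (h.2.1 X)
  · rw [sum_congr rfl (g := fun i => if i ∈ S \ W then 1 else 0) fun i hi => by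
      by_cases c : i ∈ W <;> simp [c, (mem_inter.1 hi).2], sum_ite_mem, inter_assoc,
      inter_eq_right.2 sdiff_subset]
    simpa using (Int.cast_le (R := ℚ)).2 (h.2.2 X)

theorem lowA (hp : Sk p) (h₀ : W ⊆ S) (h : Cov p W m₂) {x} (hx : Fr p S m₁ m₂ x) {R : Finset ℕ}
    (k : ∀ u ∈ W ∩ R, ∃ Y, Ti p W m₂ Y ∧ u ∈ Y ∧ Disjoint Y ((S \ W) \ R)) :
    (#(W ∩ R) : ℚ) ≤ ∑ i ∈ S ∩ R, x i := by
  obtain ⟨G, a, b, c⟩ := cover hp h _ k
  have v := a.val (x := fun i => if i ∈ S then x i else 0) fun X => by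
    rw [sum_ite_mem]; exact hx.lo X
  rw [sum_ite_mem, ← sum_inter_add_sum_sdiff (G ∩ S) R, ← card_inter_add_card_sdiff (G ∩ W) R] at v
  have h1 : ∑ i ∈ G ∩ S ∩ R, x i ≤ ∑ i ∈ S ∩ R, x i :=
    sum_le_sum_of_subset_of_nonneg (by grind) fun i hi _ => hx.nn i (mem_inter.1 hi).1
  have h2 : ∑ i ∈ (G ∩ S) \ R, x i ≤ #((G ∩ S) \ R) • (1 : ℚ) :=
    sum_le_card_nsmul _ _ _ fun i hi => hx.le i (by grind)
  have e1 : (G ∩ S) \ R = (G ∩ W) \ R := by rw [disjoint_left] at c; grind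
  have e2 : G ∩ W ∩ R = W ∩ R := by grind
  rw [e1] at h2 v
  rw [e2] at v
  simp only [nsmul_eq_mul, mul_one, Nat.cast_add] at h2 v
  linarith

theorem low (H : Hyp p S (m₁ + m₂)) (h : Fe p S m₁ m₂ W) {x} (hx : Fr p S m₁ m₂ x)
    (e : ∑ i ∈ S, x i = #W) {R : Finset ℕ}
    (k : ∀ u ∈ W ∩ R, ∀ v ∈ (S \ W) \ R, ¬ Fe p S m₁ m₂ (insert v (W.erase u))) :
    (#(W ∩ R) : ℚ) ≤ ∑ i ∈ S ∩ R, x i := by
  by_cases c : ∀ u ∈ W ∩ R, ∃ Y, Ti p W m₂ Y ∧ u ∈ Y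
  · refine lowA H.sk h.1 h.2.1 hx fun u hu => ?_
    obtain ⟨Y, a, b, d⟩ := min_tight H.sk h.2.1 (mem_inter.1 hu).1 (c u hu)
    exact ⟨Y, a, b, disjoint_left.2 fun v v1 v2 =>
      k u hu v v2 (h.swap H (mem_inter.1 hu).1 (mem_sdiff.1 v2).1 a b d v1)⟩
  push Not at c
  obtain ⟨u, hu, c⟩ := c
  have := lowA H.sk sdiff_subset h.2.2 hx.compl (R := S \ R) fun v hv => ?_
  · have e1 : (S \ W) ∩ (S \ R) = (S \ R) \ W := by grind
    have e2 : W \ R = (S \ R) ∩ W := by have := h.1; grind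
    rw [e1, inter_eq_right.2 sdiff_subset, sum_sub_distrib, sum_const,
      ← card_inter_add_card_sdiff (S \ R) W] at this
    rw [← sum_inter_add_sum_sdiff S R, ← card_inter_add_card_sdiff W R, e2] at e
    simp only [nsmul_eq_mul, mul_one, Nat.cast_add] at e this
    linarith
  have v1 : v ∈ (S \ W) \ R := by grind
  have v2 := (mem_sdiff.1 v1).1
  have : ∃ X, Ti p (S \ W) m₁ X ∧ v ∈ X := by
    by_contra d
    push Not at d
    refine k u hu v v1 ⟨by have := h.1; grind, cov_mono (cov_erase h.2.1 c) (subset_insert _ _), ?_⟩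
    rw [sd_swap h.1 (mem_inter.1 hu).1 (mem_sdiff.1 v2).2]
    exact cov_mono (cov_erase h.2.2 d) (subset_insert _ _)
  obtain ⟨X, a, b, d⟩ := min_tight H.sk h.2.2 v2 this
  refine ⟨X, a, b, disjoint_left.2 fun w w1 w2 => ?_⟩
  have w3 : w ∈ W ∩ R := by grind
  have := (h.compl.swap (add_comm m₁ m₂ ▸ H) v2 (mem_sdiff.1 w2).1 a b d w1).compl
  rw [← sd_swap h.1 (mem_inter.1 w3).1 (mem_sdiff.1 v2).2,
    Finset.sdiff_sdiff_eq_self (by have := h.1; grind)] at this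
  exact k w w3 v v1 this

theorem Fe.exch (H : Hyp p S (m₁ + m₂)) (h : Fe p S m₁ m₂ W) {W'} (h' : Fe p S m₁ m₂ W')
    (e : #W' = #W) {u} (hu : u ∈ W \ W') : ∃ v ∈ W' \ W, Fe p S m₁ m₂ (insert v (W.erase u)) := by
  by_contra c
  push Not at c
  have := low H h h'.fr (by simp [inter_eq_right.2 h'.1, e]) (R := insert u (S \ (W ∪ W')))
    fun a ha v hv => by
      obtain rfl : a = u := by grind
      exact c v (by grind)
  rw [show W ∩ insert u (S \ (W ∪ W')) = {u} by grind, sum_eq_zero fun i hi => by grind] at this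
  norm_num at this

end Pool.Agent.H36.Skew
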