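import Pool.Agent.H36.Skew

/-!
Matroid partition by single swaps along shortest paths, and the descent algorithm.
-/

namespace Pool.Agent.H36.Skew

open Finset Function

structure Mat (S : Finset ℕ) (B : Finset ℕ → Bool) : Prop where
  sub : ∀ {W}, B W → W ⊆ S
  ex : ∀ {W W' u}, B W → B W' → #W' = #W → u ∈ W \ W' → ∃ v ∈ W' \ W, B (insert v (W.erase u))

def Arc (B : Finset ℕ → Bool) (A : Finset ℕ) (x y : ℕ) : Bool :=
  decide (x ∈ A) && !decide (y ∈ A) && B (insert y (A.erase x))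

theorem arc_iff {B A x y} : Arc B A x y ↔ x ∈ A ∧ y ∉ A ∧ B (insert y (A.erase x)) := by
  simp [Arc, and_assoc]

theorem card_swap {A : Finset ℕ} {x y} (hx : x ∈ A) (hy : y ∉ A) : #(insert y (A.erase x)) = #A := by
  rw [card_insert_of_notMem (by simp [hy]), card_erase_add_one hx]

variable {S A A₁ A₂ : Finset ℕ} {B B₁ B₂ : Finset ℕ → Bool}

theorem Mat.two (M : Mat S B) {a b u v} (h1 : Arc B A a b) (h2 : Arc B A u v) (h3 : ¬Arc B A a v)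
    (e : a ≠ u) : Arc B (insert v (A.erase u)) a b := by
  rw [arc_iff] at *
  obtain ⟨w, a1, a2⟩ := M.ex (u := a) h2.2.2 h1.2.2
    (by rw [card_swap h1.1 h1.2.1, card_swap h2.1 h2.2.1]) (by grind)
  have : w ≠ u := by
    rintro rfl
    exact h3 ⟨h1.1, h2.2.1, by convert a2 using 2; grind⟩
  obtain rfl : w = b := by grind
  exact ⟨by grind, by grind, a2⟩

def ex (S : Finset ℕ) (B₁ B₂ : Finset ℕ → Bool) (A₁ A₂ R : Finset ℕ) : Finset ℕ :=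
  S.filter fun y => y ∈ R ∨ ∃ x ∈ R, Arc B₁ A₁ x y ∨ Arc B₂ A₂ x y

def lev (S : Finset ℕ) (B₁ B₂ : Finset ℕ → Bool) (A₁ A₂ : Finset ℕ) (j : ℕ) : Finset ℕ :=
  (ex S B₁ B₂ A₁ A₂)^[j] (S ∩ (A₁ ∩ A₂))

def pot (S : Finset ℕ) (B₁ B₂ : Finset ℕ → Bool) (A₁ A₂ : Finset ℕ) : ℕ :=
  #(A₁ ∩ A₂) * (#S + 2) + #((range (#S + 1)).filter fun j => lev S B₁ B₂ A₁ A₂ j ⊆ A₁ ∪ A₂)

theorem lev_comm : lev S B₁ B₂ A₁ A₂ = lev S B₂ B₁ A₂ A₁ := by
  ext1 j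
  rw [lev, lev, inter_comm A₁]
  congr 1
  ext1 R
  simp only [ex, or_comm]

theorem pot_comm : pot S B₁ B₂ A₁ A₂ = pot S B₂ B₁ A₂ A₁ := by
  rw [pot, pot, lev_comm, inter_comm, union_comm]

theorem mem_lev {j y} : y ∈ lev S B₁ B₂ A₁ A₂ (j + 1) ↔ y ∈ S ∧ (y ∈ lev S B₁ B₂ A₁ A₂ j ∨
    ∃ x ∈ lev S B₁ B₂ A₁ A₂ j, Arc B₁ A₁ x y ∨ Arc B₂ A₂ x y) := by
  rw [lev, iterate_succ_apply', ex, mem_filter, lev]

theorem lev_sub (j) : lev S B₁ B₂ A₁ A₂ j ⊆ S := by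
  cases j with
  | zero => exact inter_subset_left
  | succ j => exact fun y hy => (mem_lev.1 hy).1

theorem lev_mono : Monotone (lev S B₁ B₂ A₁ A₂) :=
  monotone_nat_of_le_succ fun j _ hy => mem_lev.2 ⟨lev_sub j hy, .inl hy⟩

theorem lev_closed : ∃ j ≤ #S, lev S B₁ B₂ A₁ A₂ (j + 1) ⊆ lev S B₁ B₂ A₁ A₂ j := by
  by_contra c
  push Not at c
  have : ∀ j ≤ #S + 1, j ≤ #(lev S B₁ B₂ A₁ A₂ j) := fun j hj => by
    induction j with
    | zero => simp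
    | succ j ih =>
      exact (Nat.succ_le_succ (ih (by omega))).trans
        (card_lt_card ⟨lev_mono j.le_succ, c j (by omega)⟩)
  exact absurd ((this _ le_rfl).trans (card_le_card (lev_sub _))) (by simp)

theorem pot_swap (M : Mat S B₁) {d x t} (hd : d < #S)
    (h1 : lev S B₁ B₂ A₁ A₂ d ⊆ A₁ ∪ A₂) (hx : x ∈ lev S B₁ B₂ A₁ A₂ d) (ht : t ∉ A₁ ∪ A₂)
    (tS : t ∈ S) (a : Arc B₁ A₁ x t) :
    pot S B₁ B₂ (insert t (A₁.erase x)) A₂ < pot S B₁ B₂ A₁ A₂ := by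
  have a' := arc_iff.1 a
  by_cases c : x ∈ A₂
  · have e : insert t (A₁.erase x) ∩ A₂ = (A₁ ∩ A₂).erase x := by grind
    have := card_erase_add_one (mem_inter.2 ⟨a'.1, c⟩)
    have k := (card_filter_le (range (#S + 1)) fun j => lev S B₁ B₂ (insert t (A₁.erase x)) A₂ j ⊆
      insert t (A₁.erase x) ∪ A₂).trans (card_range _).le
    rw [pot, pot, e, ← this, add_mul]
    omega
  have e : insert t (A₁.erase x) ∩ A₂ = A₁ ∩ A₂ := by grind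
  obtain ⟨j, hj, hm⟩ := Nat.findX (⟨d, hx⟩ : ∃ j, x ∈ lev S B₁ B₂ A₁ A₂ j)
  have jd : j ≤ d := not_lt.1 fun h => hm d h hx
  have k : ∀ i ≤ j, lev S B₁ B₂ A₁ A₂ i ⊆ lev S B₁ B₂ (insert t (A₁.erase x)) A₂ i := by
    intro i hi
    induction i with
    | zero => simp only [lev, e]; rfl
    | succ i ih =>
      intro y hy
      obtain ⟨yS, h | ⟨z, z1, z2⟩⟩ := mem_lev.1 hy
      · exact mem_lev.2 ⟨yS, .inl (ih (by omega) h)⟩
      refine mem_lev.2 ⟨yS, .inr ⟨z, ih (by omega) z1, z2.imp_left fun z3 => M.two z3 a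
        (fun z4 => ht (h1 (lev_mono (show i + 1 ≤ d by omega)
          (mem_lev.2 ⟨tS, .inr ⟨z, z1, .inl z4⟩⟩)))) ?_⟩⟩
      rintro rfl
      exact hm i (by omega) z1
  rw [pot, pot, e]
  refine Nat.add_lt_add_left (((card_le_card (t := range j) fun i hi => ?_).trans_lt ?_).trans_le
    (card_le_card (s := range (d + 1)) fun i hi => ?_)) _
  · refine mem_range.2 (not_le.1 fun h => ?_)
    have := (mem_filter.1 hi).2 (lev_mono h (k j le_rfl hj))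
    grind
  · simp only [card_range]; omega
  · rw [mem_range] at hi
    exact mem_filter.2 ⟨mem_range.2 (by omega), (lev_mono (by omega : i ≤ d)).trans h1⟩

def Low (S : Finset ℕ) (B : Finset ℕ → Bool) (x : ℕ → ℚ) : Prop :=
  ∀ W, B W → ∑ i ∈ S, x i = #W → ∀ R, (∀ u ∈ W ∩ R, ∀ v ∈ (S \ W) \ R,
    ¬B (insert v (W.erase u))) → (#(W ∩ R) : ℚ) ≤ ∑ i ∈ S ∩ R, x i

theorem progress (M₁ : Mat S B₁) (M₂ : Mat S B₂) {x} (L₁ : Low S B₁ x) (L₂ : Low S B₂ fun i => 1 - x i)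
    (h₁ : B₁ A₁) (h₂ : B₂ A₂) (e₁ : ∑ i ∈ S, x i = #A₁) (e₂ : ∑ i ∈ S, (1 - x i) = #A₂)
    (ne : (A₁ ∩ A₂).Nonempty) : ∃ u ∈ S, ∃ t ∈ S,
      (Arc B₁ A₁ u t ∧ pot S B₁ B₂ (insert t (A₁.erase u)) A₂ < pot S B₁ B₂ A₁ A₂) ∨
      (Arc B₂ A₂ u t ∧ pot S B₁ B₂ A₁ (insert t (A₂.erase u)) < pot S B₁ B₂ A₁ A₂) := by
  have : ∃ j, j ≤ #S ∧ ¬lev S B₁ B₂ A₁ A₂ j ⊆ A₁ ∪ A₂ := by
    obtain ⟨j, hj, c⟩ := lev_closed (S := S) (B₁ := B₁) (B₂ := B₂) (A₁ := A₁) (A₂ := A₂)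
    refine ⟨j, hj, fun k => ?_⟩
    have s := lev_sub (S := S) (B₁ := B₁) (B₂ := B₂) (A₁ := A₁) (A₂ := A₂) j
    have z : S ∩ (A₁ ∩ A₂) ⊆ lev S B₁ B₂ A₁ A₂ j := lev_mono j.zero_le
    generalize hR : lev S B₁ B₂ A₁ A₂ j = R at *
    have a1 := L₁ _ h₁ e₁ R fun u hu v hv b => (mem_sdiff.1 hv).2 (c (mem_lev.2 ⟨by grind,
      .inr ⟨u, hR ▸ (mem_inter.1 hu).2, .inl (arc_iff.2 ⟨by grind, by grind, b⟩)⟩⟩))
    have a2 := L₂ _ h₂ e₂ R fun u hu v hv b => (mem_sdiff.1 hv).2 (c (mem_lev.2 ⟨by grind,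
      .inr ⟨u, hR ▸ (mem_inter.1 hu).2, .inr (arc_iff.2 ⟨by grind, by grind, b⟩)⟩⟩))
    have a3 := card_inter_add_card_union (A₁ ∩ R) (A₂ ∩ R)
    have := M₁.sub h₁
    rw [show A₁ ∩ R ∩ (A₂ ∩ R) = A₁ ∩ A₂ by grind, show A₁ ∩ R ∪ A₂ ∩ R = S ∩ R by grind] at a3
    have a4 := (Nat.cast_lt (α := ℚ)).2 (card_pos.2 ne)
    have a5 := congrArg (Nat.cast (R := ℚ)) a3
    simp only [sum_sub_distrib, sum_const, nsmul_eq_mul, mul_one, Nat.cast_add,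
      Nat.cast_zero] at a2 a4 a5
    linarith
  obtain ⟨j, ⟨hj, c⟩, hm⟩ := Nat.findX this
  cases j with
  | zero => exact absurd (by simp only [lev, iterate_zero, id]; grind) c
  | succ d =>
    have h1 : lev S B₁ B₂ A₁ A₂ d ⊆ A₁ ∪ A₂ := by_contra fun k => hm d (by omega) ⟨by omega, k⟩
    obtain ⟨t, t1, t2⟩ := not_subset.1 c
    obtain ⟨tS, h | ⟨u, u1, u2 | u2⟩⟩ := mem_lev.1 t1
    · exact absurd (h1 h) t2
    · exact ⟨u, lev_sub _ u1, t, tS, .inl ⟨u2, pot_swap M₁ hj h1 u1 t2 tS u2⟩⟩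
    · refine ⟨u, lev_sub _ u1, t, tS, .inr ⟨u2, ?_⟩⟩
      rw [pot_comm, pot_comm (A₁ := A₁)]
      rw [lev_comm, union_comm] at *
      exact pot_swap M₂ hj h1 u1 t2 tS u2

def ds {σ : Type} (c : σ → List σ) (ok : σ → σ → Bool) (s : σ) : σ := ((c s).find? (ok s)).getD s

theorem ds_inv {σ : Type} {c : σ → List σ} {ok : σ → σ → Bool} {I : σ → Prop}
    (h : ∀ s, I s → ∀ t ∈ c s, ok s t → I t) {s} (hs : I s) (n) : I ((ds c ok)^[n] s) := by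
  induction n with
  | zero => exact hs
  | succ n ih =>
    rw [iterate_succ_apply', ds]
    cases e : (c ((ds c ok)^[n] s)).find? (ok ((ds c ok)^[n] s)) with
    | none => exact ih
    | some t => exact h _ ih t (List.mem_of_find?_eq_some e) (List.find?_some e)

theorem ds_end {σ : Type} {c : σ → List σ} {ok : σ → σ → Bool} (Φ : σ → ℕ)
    (h : ∀ s t, ok s t → Φ t < Φ s) (n) : ∀ s, Φ s ≤ n →
      ∀ t ∈ c ((ds c ok)^[n] s), ¬ok ((ds c ok)^[n] s) t := by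
  induction n with
  | zero => exact fun s hs t _ k => absurd (h _ _ k) (by simp at *; omega)
  | succ n ih =>
    intro s hs
    cases e : (c s).find? (ok s) with
    | none =>
      rw [iterate_fixed (by rw [ds, e]; rfl)]
      exact List.find?_eq_none.1 e
    | some t =>
      have := h _ _ (List.find?_some e)
      rw [iterate_succ_apply, ds, e]
      exact ih t (by omega)

end Pool.Agent.H36.Skew
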