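import Pool.Agent.H36.Skew2

/-!
The algorithm for a common balanced splitting and its correctness.
-/

namespace Pool.Agent.H36.Skew

open Finset Function

def shs (S : Finset ℕ) (o : Finset ℕ → Bool) (N : ℕ) : Finset ℕ → Finset ℕ :=
  ds (fun W => (S.sort (· ≤ ·)).map W.erase) fun W T => decide (N ≤ #T) && decide (#T < #W) && o T

def shr (S : Finset ℕ) (o : Finset ℕ → Bool) (N : ℕ) (W₀ : Finset ℕ) : Finset ℕ :=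
  (shs S o N)^[#S] W₀

theorem shs_sub {S o N W₀} (i) : (shs S o N)^[i] W₀ ⊆ W₀ :=
  ds_inv (I := (· ⊆ W₀)) (fun s hs t ht _ => by
    obtain ⟨u, -, rfl⟩ := List.mem_map.1 ht
    exact (erase_subset _ _).trans hs) Subset.rfl i

theorem shr_spec {S} {o : Finset ℕ → Bool} (N) {W₀} (hS : W₀ ⊆ S) (h : o W₀) : o (shr S o N W₀) ∧
    (N ≤ #W₀ → N ≤ #(shr S o N W₀)) ∧
    (#(shr S o N W₀) ≤ N ∨ ∀ u ∈ shr S o N W₀, ¬o ((shr S o N W₀).erase u)) := by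
  have a := ds_inv (c := fun W => (S.sort (· ≤ ·)).map W.erase) (I := fun W => o W ∧
    (N ≤ #W₀ → N ≤ #W)) (ok := fun W T => decide (N ≤ #T) && decide (#T < #W) && o T)
    (fun s _ t _ k => by simp at k; exact ⟨k.2, fun _ => k.1.1⟩) ⟨h, id⟩ #S
  refine ⟨a.1, a.2, or_iff_not_imp_left.2 fun c u hu k => ?_⟩
  have := card_erase_add_one hu
  refine ds_end (c := fun W => (S.sort (· ≤ ·)).map W.erase) card
    (ok := fun W T => decide (N ≤ #T) && decide (#T < #W) && o T)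
    (fun s t k => by simp at k; exact k.1.2) #S W₀ (card_le_card hS) ((shr S o N W₀).erase u)
    (List.mem_map.2 ⟨u, (mem_sort _).2 (hS (shs_sub _ hu)), rfl⟩) ?_
  change (decide (N ≤ _) && decide (_ < #(shr S o N W₀)) && _) = true
  simp only [k, Bool.and_true, Bool.and_eq_true, decide_eq_true_eq]
  omega

variable {p p₁ p₂ : Finset ℕ → ℤ} {S U W : Finset ℕ} {m m₁ m₂ N N₁ N₂ : ℕ}
  {o o₁ o₂ : Finset ℕ → ℕ → Bool}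

theorem tight_of (h : Cov p W m) {u} (k : ¬Cov p (W.erase u) m) : ∃ Y, Ti p W m Y ∧ u ∈ Y := by
  by_contra c
  push Not at c
  exact k (cov_erase h c)

theorem Hyp.cov {k} (H : Hyp p S k) (m) : Cov p S m := fun X => (H.le X).trans (by simp)

theorem cov_compl (H : Hyp p S (m₁ + m₂)) (hU : U ⊆ S) (h : Cov p U m₁)
    (k : ∀ u ∈ U, ¬Cov p (U.erase u) m₁) : Cov p (S \ U) m₂ := by
  suffices ∀ Z ⊆ U, Cov p (S \ Z) m₂ from this U Subset.rfl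
  intro Z
  induction Z using Finset.induction_on with
  | empty => exact fun _ => by simpa using H.cov _
  | insert u Z hu ih =>
    intro e
    have i := ih ((subset_insert _ _).trans e)
    have uU := e (mem_insert_self _ _)
    obtain ⟨X, a, b⟩ := tight_of h (k u uU)
    rw [sdiff_insert]
    refine cov_erase i fun Y c d => ?_
    have := (cross H i h (by grind) a c b d (mem_union_right _ uU)).1
    exact notMem_empty u (this ▸ show u ∈ X ∩ Y ∩ (S \ Z) ∩ U by grind)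

theorem card_le_of_min (hp : Sk p) (hW : W ⊆ S) (h : Cov p W m₂) {x} (hx : Fr p S m₁ m₂ x)
    (k : ∀ u ∈ W, ¬Cov p (W.erase u) m₂) : (#W : ℚ) ≤ ∑ i ∈ S, x i := by
  have := lowA hp hW h hx (R := S) fun u hu => by
    obtain ⟨Y, a, b⟩ := tight_of h (k u (mem_inter.1 hu).1)
    exact ⟨Y, a, b, disjoint_left.2 (by grind)⟩
  rwa [inter_eq_left.2 hW, inter_self] at this

def ini (o : Finset ℕ → ℕ → Bool) (S : Finset ℕ) (m₁ m₂ N : ℕ) : Finset ℕ :=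
  shr S (o · m₂) N (S \ shr S (o · m₁) 0 S)

theorem ini_spec (H : Hyp p S (m₁ + m₂)) (ho : ∀ W m, o W m ↔ Cov p W m) :
    Fe p S m₁ m₂ (ini o S m₁ m₂ N) ∧
      ∀ x, Fr p S m₁ m₂ x → ∑ i ∈ S, x i = N → #(ini o S m₁ m₂ N) = N := by
  obtain ⟨a1, -, a2⟩ := shr_spec (o := (o · m₁)) 0 Subset.rfl ((ho S m₁).2 (H.cov _))
  have a3 : shr S (o · m₁) 0 S ⊆ S := shs_sub _
  simp only [ho] at a1 a2
  replace a2 : ∀ u ∈ shr S (o · m₁) 0 S, ¬Cov p ((shr S (o · m₁) 0 S).erase u) m₁ :=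
    a2.elim (fun e u hu => absurd (card_pos.2 ⟨u, hu⟩) (by omega)) id
  obtain ⟨b1, b2, b3⟩ := shr_spec (o := (o · m₂)) N sdiff_subset
    ((ho _ m₂).2 (cov_compl H a3 a1 a2))
  have b4 : ini o S m₁ m₂ N ⊆ S \ shr S (o · m₁) 0 S := shs_sub _
  simp only [ho] at b1 b3
  refine ⟨⟨b4.trans sdiff_subset, b1, cov_mono a1 (by grind)⟩, fun x hx e => le_antisymm
    (b3.elim id fun k => ?_) (b2 ?_)⟩
  · exact_mod_cast (card_le_of_min H.sk (b4.trans sdiff_subset) b1 hx k).trans_eq e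
  · have := card_le_of_min H.sk a3 a1 hx.compl a2
    rw [sum_sub_distrib, e, sum_const, nsmul_eq_mul, mul_one, ← card_sdiff_add_card_eq_card a3] at this
    push_cast at this
    exact_mod_cast (by linarith : (N : ℚ) ≤ #(S \ shr S (o · m₁) 0 S))

def fe (o : Finset ℕ → ℕ → Bool) (S : Finset ℕ) (m₁ m₂ : ℕ) (W : Finset ℕ) : Bool :=
  decide (W ⊆ S) && o W m₂ && o (S \ W) m₁

theorem fe_iff (ho : ∀ W m, o W m ↔ Cov p W m) : fe o S m₁ m₂ W ↔ Fe p S m₁ m₂ W := by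
  simp [fe, Fe, ho, and_assoc]

theorem fe_mat (H : Hyp p S (m₁ + m₂)) (ho : ∀ W m, o W m ↔ Cov p W m) : Mat S (fe o S m₁ m₂) := by
  constructor <;> simp only [fe_iff ho]
  exacts [fun h => h.1, fun a b c d => a.exch H b c d]

theorem fe_low (H : Hyp p S (m₁ + m₂)) (ho : ∀ W m, o W m ↔ Cov p W m) {x} (hx : Fr p S m₁ m₂ x) :
    Low S (fe o S m₁ m₂) x := by
  simp only [Low, fe_iff ho]
  exact fun W a b R c => low H a hx b c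

abbrev St := Finset ℕ × Finset ℕ

def cand (S : Finset ℕ) (A : St) : List St :=
  (S.sort (· ≤ ·)).flatMap fun u => (S.sort (· ≤ ·)).flatMap fun t =>
    [(insert t (A.1.erase u), A.2), (A.1, insert t (A.2.erase u))]

def okk (S : Finset ℕ) (B₁ B₂ : Finset ℕ → Bool) (A T : St) : Bool :=
  B₁ T.1 && B₂ T.2 && decide (#T.1 = #A.1) && decide (#T.2 = #A.2) &&
    decide (pot S B₁ B₂ T.1 T.2 < pot S B₁ B₂ A.1 A.2)

def mi (S : Finset ℕ) (B₁ B₂ : Finset ℕ → Bool) (A : St) : St :=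
  (ds (cand S) (okk S B₁ B₂))^[(#S + 1) * (#S + 2)] A

theorem mi_inv {B₁ B₂ : Finset ℕ → Bool} {A : St} (h₁ : B₁ A.1) (h₂ : B₂ A.2) :
    B₁ (mi S B₁ B₂ A).1 ∧ B₂ (mi S B₁ B₂ A).2 ∧ #(mi S B₁ B₂ A).1 = #A.1 ∧
      #(mi S B₁ B₂ A).2 = #A.2 :=
  ds_inv (I := fun T : St => B₁ T.1 ∧ B₂ T.2 ∧ #T.1 = #A.1 ∧ #T.2 = #A.2)
    (fun s hs t _ k => by simp [okk] at k; grind) ⟨h₁, h₂, rfl, rfl⟩ _

theorem mi_end {B₁ B₂ : Finset ℕ → Bool} (M₁ : Mat S B₁) (M₂ : Mat S B₂) {x} (L₁ : Low S B₁ x)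
    (L₂ : Low S B₂ fun i => 1 - x i) {A : St} (h₁ : B₁ A.1) (h₂ : B₂ A.2)
    (e₁ : ∑ i ∈ S, x i = #A.1) (e₂ : ∑ i ∈ S, (1 - x i) = #A.2) :
    (mi S B₁ B₂ A).1 ∩ (mi S B₁ B₂ A).2 = ∅ := by
  obtain ⟨a1, a2, a3, a4⟩ := mi_inv (S := S) h₁ h₂
  have := ds_end (c := cand S) (ok := okk S B₁ B₂) (fun A => pot S B₁ B₂ A.1 A.2)
    (fun s t k => by simp [okk] at k; exact k.2) ((#S + 1) * (#S + 2)) A (by
      rw [add_mul, one_mul]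
      exact add_le_add (Nat.mul_le_mul_right _ (card_le_card (inter_subset_left.trans (M₁.sub h₁))))
        ((card_filter_le _ _).trans (by simp)))
  change ∀ t ∈ cand S (mi S B₁ B₂ A), ¬okk S B₁ B₂ (mi S B₁ B₂ A) t at this
  generalize mi S B₁ B₂ A = T at *
  by_contra c
  obtain ⟨u, hu, t, ht, k⟩ := progress M₁ M₂ L₁ L₂ a1 a2 (a3 ▸ e₁) (a4 ▸ e₂)
    (nonempty_iff_ne_empty.2 c)
  have m : ∀ z ∈ [(insert t (T.1.erase u), T.2), (T.1, insert t (T.2.erase u))], z ∈ cand S T :=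
    fun z hz => List.mem_flatMap.2 ⟨u, (mem_sort _).2 hu, List.mem_flatMap.2
      ⟨t, (mem_sort _).2 ht, hz⟩⟩
  simp only [arc_iff] at k
  rcases k with ⟨⟨b1, b2, b3⟩, b4⟩ | ⟨⟨b1, b2, b3⟩, b4⟩
  · exact this _ (m _ (.head _)) (by simp only [okk, card_swap b1 b2]; simp [*])
  · exact this _ (m _ (.tail _ (.head _))) (by simp only [okk, card_swap b1 b2]; simp [*])

def fin (o₁ o₂ : Finset ℕ → ℕ → Bool) (S : Finset ℕ) (m₁ m₂ N₁ N₂ : ℕ) : St :=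
  mi S (fe o₁ S m₁ m₂) (fe o₂ S m₂ m₁) (ini o₁ S m₁ m₂ N₁, ini o₂ S m₂ m₁ N₂)

def alg (o₁ o₂ : Finset ℕ → ℕ → Bool) (S : Finset ℕ) (m₁ m₂ N₁ N₂ : ℕ) : Bool :=
  decide (#(fin o₁ o₂ S m₁ m₂ N₁ N₂).1 = N₁) && decide (#(fin o₁ o₂ S m₁ m₂ N₁ N₂).2 = N₂) &&
    decide (#((fin o₁ o₂ S m₁ m₂ N₁ N₂).1 ∩ (fin o₁ o₂ S m₁ m₂ N₁ N₂).2) = 0)

theorem alg_sound (H₁ : Hyp p₁ S (m₁ + m₂)) (H₂ : Hyp p₂ S (m₁ + m₂))
    (ho₁ : ∀ W m, o₁ W m ↔ Cov p₁ W m) (ho₂ : ∀ W m, o₂ W m ↔ Cov p₂ W m) (e : N₁ + N₂ = #S)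
    (h : alg o₁ o₂ S m₁ m₂ N₁ N₂) : ∃ W, #W = N₁ ∧ Fe p₁ S m₁ m₂ W ∧ Fe p₂ S m₁ m₂ W := by
  obtain ⟨a1, a2, -⟩ := mi_inv (S := S) (A := (ini o₁ S m₁ m₂ N₁, ini o₂ S m₂ m₁ N₂))
    ((fe_iff ho₁).2 (ini_spec H₁ ho₁).1) ((fe_iff ho₂).2 (ini_spec (add_comm m₁ m₂ ▸ H₂) ho₂).1)
  simp only [alg, fin, Bool.and_eq_true, decide_eq_true_eq, card_eq_zero] at h
  generalize mi _ _ _ _ = T at *
  rw [fe_iff ho₁] at a1
  rw [fe_iff ho₂] at a2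
  refine ⟨T.1, h.1.1, a1, ?_⟩
  rw [eq_of_subset_of_card_le (s := T.1) (t := S \ T.2) (fun u hu => mem_sdiff.2 ⟨a1.1 hu,
    fun k => by simpa [h.2] using mem_inter.2 ⟨hu, k⟩⟩) (by rw [card_sdiff_of_subset a2.1]; omega)]
  exact a2.compl

theorem alg_complete (H₁ : Hyp p₁ S (m₁ + m₂)) (H₂ : Hyp p₂ S (m₁ + m₂))
    (ho₁ : ∀ W m, o₁ W m ↔ Cov p₁ W m) (ho₂ : ∀ W m, o₂ W m ↔ Cov p₂ W m) (e : N₁ + N₂ = #S)
    {x} (x₁ : Fr p₁ S m₁ m₂ x) (x₂ : Fr p₂ S m₁ m₂ x) (ex : ∑ i ∈ S, x i = N₁) :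
    alg o₁ o₂ S m₁ m₂ N₁ N₂ := by
  have H₂' : Hyp p₂ S (m₂ + m₁) := add_comm m₁ m₂ ▸ H₂
  have ex' : ∑ i ∈ S, (1 - x i) = N₂ := by
    rw [sum_sub_distrib, ex, sum_const, ← e]
    simp
  obtain ⟨b1, b2⟩ := ini_spec (N := N₁) H₁ ho₁
  obtain ⟨b3, b4⟩ := ini_spec (N := N₂) H₂' ho₂
  replace b2 := b2 x x₁ ex
  replace b4 := b4 _ x₂.compl ex'
  rw [← fe_iff ho₁] at b1
  rw [← fe_iff ho₂] at b3
  obtain ⟨-, -, a1, a2⟩ := mi_inv (S := S) (A := (ini o₁ S m₁ m₂ N₁, ini o₂ S m₂ m₁ N₂)) b1 b3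
  have := mi_end (fe_mat H₁ ho₁) (fe_mat H₂' ho₂) (fe_low H₁ ho₁ x₁) (fe_low H₂' ho₂ x₂.compl)
    (A := (ini o₁ S m₁ m₂ N₁, ini o₂ S m₂ m₁ N₂)) b1 b3 (by rw [b2, ex]) (by rw [b4, ex'])
  simp [alg, fin, *]

theorem integral (H₁ : Hyp p₁ S (m₁ + m₂)) (H₂ : Hyp p₂ S (m₁ + m₂)) (e : N₁ + N₂ = #S)
    {x} (x₁ : Fr p₁ S m₁ m₂ x) (x₂ : Fr p₂ S m₁ m₂ x) (ex : ∑ i ∈ S, x i = N₁) :
    ∃ W, #W = N₁ ∧ Fe p₁ S m₁ m₂ W ∧ Fe p₂ S m₁ m₂ W := by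
  classical
  have a : ∀ (p : Finset ℕ → ℤ) W m, decide (Cov p W m) ↔ Cov p W m := by simp
  exact alg_sound H₁ H₂ (a _) (a _) e (alg_complete H₁ H₂ (a _) (a _) e x₁ x₂ ex)

theorem alg_iff (H₁ : Hyp p₁ S (m₁ + m₂)) (H₂ : Hyp p₂ S (m₁ + m₂))
    (ho₁ : ∀ W m, o₁ W m ↔ Cov p₁ W m) (ho₂ : ∀ W m, o₂ W m ↔ Cov p₂ W m) (e : N₁ + N₂ = #S) :
    (∃ W, #W = N₁ ∧ Fe p₁ S m₁ m₂ W ∧ Fe p₂ S m₁ m₂ W) ↔ alg o₁ o₂ S m₁ m₂ N₁ N₂ :=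
  ⟨fun ⟨_, a, b, c⟩ => alg_complete H₁ H₂ ho₁ ho₂ e b.fr c.fr
    (by simp [inter_eq_right.2 b.1, a]), alg_sound H₁ H₂ ho₁ ho₂ e⟩

end Pool.Agent.H36.Skew
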