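import Pool.Agent.H36.Skew3

/-!
The colouring theorem with equal class sizes, and the reduction of two class sizes to a common
balanced splitting.
-/

namespace Pool.Agent.H36.Skew

open Finset Function

variable {p p₁ p₂ : Finset ℕ → ℤ} {S W : Finset ℕ} {m m₁ m₂ n n₁ n₂ k : ℕ}

structure Colr (p₁ p₂ : Finset ℕ → ℤ) (S : Finset ℕ) (k : ℕ) (s : ℕ → ℕ) (c : ℕ → ℕ) : Prop where
  lt : ∀ i ∈ S, c i < k
  sz : ∀ j < k, #(S.filter (c · = j)) = s j
  l₁ : ∀ X, p₁ X ≤ #((X ∩ S).image c)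
  l₂ : ∀ X, p₂ X ≤ #((X ∩ S).image c)

def Thm (k n : ℕ) : Prop := ∀ p₁ p₂ S, Hyp p₁ S k → Hyp p₂ S k → #S = k * n →
  ∃ c, Colr p₁ p₂ S k (fun _ => n) c

theorem Sk.sub (hp : Sk p) {g : Finset ℕ → ℕ} (h1 : ∀ X Y, X ⊆ Y → g X ≤ g Y)
    (h2 : ∀ X Y, g (X ∩ Y) + g (X ∪ Y) ≤ g X + g Y) : Sk fun X => p X - g X := by
  intro X Y
  have := h1 (X \ Y) X sdiff_subset
  have := h1 (Y \ X) Y sdiff_subset
  have := h2 X Y
  rcases hp X Y with h | h
  · left; dsimp only; omega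
  · right; dsimp only; omega

theorem hypA (H : Hyp p S (m₁ + m₂)) (h : Fe p S m₁ m₂ W) :
    Hyp (fun X => p X - (min #(X ∩ (S \ W)) m₂ : ℕ)) W m₁ := by
  refine ⟨H.sk.sub (fun X Y e => min_le_min_right _ (by gcongr)) fun X Y => ?_, fun X => ?_,
    fun X => ?_⟩
  · have := c1 X Y (S \ W)
    have : #(X ∩ Y ∩ (S \ W)) ≤ #(X ∩ (S \ W)) := by gcongr; exact inter_subset_left
    have : #(X ∩ Y ∩ (S \ W)) ≤ #(Y ∩ (S \ W)) := by gcongr; exact inter_subset_right
    omega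
  · have := H.le X
    have := h.2.1 X
    have := card_inter_add_card_sdiff (X ∩ S) W
    rw [inter_assoc, inter_eq_right.2 h.1, ← inter_sdiff_assoc] at *
    omega
  · have := H.le' X
    have := h.2.2 X
    omega

theorem hypB (hp : Sk p) {c : ℕ → ℕ}
    (h : ∀ X, p X - (min #(X ∩ (S \ W)) m₂ : ℕ) ≤ #((X ∩ W).image c)) :
    Hyp (fun X => p X - #((X ∩ W).image c)) (S \ W) m₂ := by
  refine ⟨hp.sub (fun X Y e => by gcongr) fun X Y => ?_, fun X => ?_, fun X => ?_⟩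
  · rw [← card_inter_add_card_union ((X ∩ W).image c), union_inter_distrib_right, image_union,
      inter_inter_distrib_right]
    gcongr
    exact image_inter_subset _ _ _
  all_goals have := h X; omega

theorem combine (T₁ : Thm m₁ n₁) (T₂ : Thm m₂ n₂) (H₁ : Hyp p₁ S (m₁ + m₂))
    (H₂ : Hyp p₂ S (m₁ + m₂)) (e : m₁ * n₁ + m₂ * n₂ = #S) (eW : #W = m₁ * n₁)
    (h₁ : Fe p₁ S m₁ m₂ W) (h₂ : Fe p₂ S m₁ m₂ W) :
    ∃ c, Colr p₁ p₂ S (m₁ + m₂) (fun j => if j < m₁ then n₁ else n₂) c := by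
  obtain ⟨c₁, a⟩ := T₁ _ _ W (hypA H₁ h₁) (hypA H₂ h₂) eW
  obtain ⟨c₂, b⟩ := T₂ _ _ _ (hypB H₁.sk a.l₁) (hypB H₂.sk a.l₂)
    (by rw [card_sdiff_of_subset h₁.1]; omega)
  have hW := h₁.1
  have key : ∀ X, #((X ∩ W).image c₁) + #((X ∩ (S \ W)).image c₂) ≤
      #((X ∩ S).image fun i => if i ∈ W then c₁ i else m₁ + c₂ i) := fun X => by
    rw [← card_image_of_injective ((X ∩ (S \ W)).image c₂) (add_right_injective m₁),
      ← card_union_of_disjoint (disjoint_left.2 (by have := a.lt; grind))]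
    exact card_le_card (by grind)
  refine ⟨fun i => if i ∈ W then c₁ i else m₁ + c₂ i, fun i hi => ?_, fun j hj => ?_, fun X => ?_,
    fun X => ?_⟩
  · have := a.lt i
    have := b.lt i
    grind
  · split_ifs with c
    · rw [← a.sz j c]
      congr 1
      grind
    · rw [← b.sz (j - m₁) (by omega)]
      congr 1
      have := a.lt
      grind
  · have := b.l₁ X
    have := key X
    omega
  · have := b.l₂ X
    have := key X
    omega

theorem thm_one : Thm 1 n := by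
  have : ∀ p S, Hyp p S 1 → ∀ X, p X ≤ #((X ∩ S).image fun _ => 0) := fun p S H X => by
    rcases (X ∩ S).eq_empty_or_nonempty with e | e
    · simpa [e] using H.le X
    · simpa [image_const e] using H.le' X
  exact fun p₁ p₂ S H₁ H₂ e => ⟨fun _ => 0, by simp, by simpa using e, this _ _ H₁, this _ _ H₂⟩

theorem fr_const (H : Hyp p S (1 + k)) : Fr p S 1 k fun _ => 1 / (1 + k) := by
  have h : (0 : ℚ) < 1 + k := by positivity
  refine ⟨fun _ _ => by positivity, fun _ _ => by rw [div_le_one h]; simp, fun X => ?_,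
    fun X => ?_⟩ <;>
  · have a := (Int.cast_le (R := ℚ)).2 (H.le X)
    have b := (Int.cast_le (R := ℚ)).2 (H.le' X)
    have : (0 : ℚ) ≤ k := by positivity
    push_cast at a b
    rw [sum_const, nsmul_eq_mul]
    field_simp
    push_cast
    nlinarith

theorem thm (k n) : Thm k n := by
  induction k with
  | zero =>
    intro p₁ p₂ S H₁ H₂ e
    obtain rfl : S = ∅ := by simpa using e
    exact ⟨id, by simp, by simp, by simpa using H₁.le, by simpa using H₂.le⟩
  | succ k ih =>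
    intro p₁ p₂ S H₁ H₂ e
    rw [add_comm k] at *
    obtain ⟨W, a, b, c⟩ := integral (N₁ := n) (N₂ := k * n) H₁ H₂ (by rw [e]; ring) (fr_const H₁)
      (fr_const H₂) (by rw [sum_const, e, nsmul_eq_mul]; push_cast; field_simp)
    simpa using combine (n₁ := n) thm_one ih H₁ H₂ (by rw [e]; ring) (by rw [a, one_mul]) b c

theorem fe_of_col {c : ℕ → ℕ} (h : ∀ i ∈ S, c i < m₁ + m₂) (l : ∀ X, p X ≤ #((X ∩ S).image c)) :
    Fe p S m₁ m₂ (S.filter (c · < m₁)) := by
  refine ⟨filter_subset _ _, fun X => (l X).trans ?_, fun X => (l X).trans ?_⟩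
  · have := (card_le_card (show (X ∩ S).image c ⊆ (X ∩ S.filter (c · < m₁)).image c ∪
      Ico m₁ (m₁ + m₂) by grind)).trans (card_union_le _ _)
    have := card_image_le (s := X ∩ S.filter (c · < m₁)) (f := c)
    rw [Nat.card_Ico] at *
    omega
  · have := (card_le_card (show (X ∩ S).image c ⊆ (X ∩ (S \ S.filter (c · < m₁))).image c ∪
      range m₁ by grind)).trans (card_union_le _ _)
    have := card_image_le (s := X ∩ (S \ S.filter (c · < m₁))) (f := c)
    rw [card_range] at *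
    omega

theorem col_iff (H₁ : Hyp p₁ S (m₁ + m₂)) (H₂ : Hyp p₂ S (m₁ + m₂)) (e : m₁ * n₁ + m₂ * n₂ = #S) :
    (∃ c, Colr p₁ p₂ S (m₁ + m₂) (fun j => if j < m₁ then n₁ else n₂) c) ↔
      ∃ W, #W = m₁ * n₁ ∧ Fe p₁ S m₁ m₂ W ∧ Fe p₂ S m₁ m₂ W := by
  refine ⟨fun ⟨c, h⟩ => ⟨_, ?_, fe_of_col h.lt h.l₁, fe_of_col h.lt h.l₂⟩,
    fun ⟨W, a, b, c⟩ => combine (thm _ _) (thm _ _) H₁ H₂ e a b c⟩
  rw [card_eq_sum_card_fiberwise (f := c) (t := range m₁) (by intro i; simp),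
    sum_congr rfl (g := fun _ => n₁) fun j hj => ?_]
  · simp
  · rw [mem_range] at hj
    have := h.sz j (by omega)
    rw [if_pos hj] at this
    rw [← this]
    congr 1
    grind

end Pool.Agent.H36.Skew
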