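import Pool.Agent.H36.Skew4
import Pool.Agent.H36.Orc

/-!
The algorithm runs in polynomial time.
-/

namespace Pool.Agent.H36.Skew

open Finset Function Pool.Agent.H38.NP SkewDefs Orc

theorem sort_filter (W : Finset ℕ) (P : ℕ → Prop) [DecidablePred P] :
    (W.filter P).sort (· ≤ ·) = (W.sort (· ≤ ·)).filter P :=
  List.SortedLT.eq_of_mem_iff (sortedLT_sort _) ((sortedLT_sort W).pairwise.filter _).sortedLT
    (by simp)

instance : EncInj (Finset ℕ) := ⟨fun A B h => by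
  rw [← sort_toFinset A (· ≤ ·), EncInj.inj (α := List ℕ) h, sort_toFinset]⟩

theorem sz_mono {A B : Finset ℕ} (h : A ⊆ B) : sz A ≤ sz B := by
  rw [← inter_eq_right.2 h, ← filter_mem_eq_inter]
  change sz ((B.filter (· ∈ A)).sort (· ≤ ·)) ≤ sz (B.sort (· ≤ ·))
  rw [sort_filter]
  exact sz_le_of_sublist List.filter_sublist

variable {α : Type} [Enc α] {S W A A₁ A₂ R : α → Finset ℕ} {x y n i N m₁ m₂ N₁ N₂ : α → ℕ}
  {B B₁ B₂ : α → Finset ℕ → Bool}

@[fun_prop] theorem pt_sort (h : PT W) : PT fun a => (W a).sort (· ≤ ·) := h.recast' fun _ => rfl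

@[fun_prop] theorem pt_filter {P : α → ℕ → Prop} [∀ a, DecidablePred (P a)]
    (hP : PT fun z : α × ℕ => decide (P z.1 z.2)) (h : PT W) : PT fun a => (W a).filter (P a) :=
  (PT.filter (f := fun a i => decide (P a i)) hP (pt_sort h)).recast' fun a => by
    rw [← sort_filter]; rfl

@[fun_prop] theorem pt_range (h : PT n) : PT fun a => range (n a) :=
  h.range.recast' fun a => by rw [← sort_range]; rfl

@[fun_prop] theorem pt_mem (h : PT W) (hx : PT x) : PT fun a => decide (x a ∈ W a) :=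
  (PT.mem (pt_sort h) hx).of_eq (by simp)

@[fun_prop] theorem pt_card (h : PT W) : PT fun a => #(W a) := (pt_sort h).length.of_eq (by simp)

theorem pt_toFinset {l : α → List ℕ} (h : PT l) : PT fun a => (l a).toFinset :=
  (pt_filter (P := fun a i => i ∈ l a) (W := fun a => range (sz (l a) + 1)) (by fun_prop)
    (by fun_prop)).of_eq fun a => by
    ext i
    simpa using fun hi => Nat.lt_succ_iff.2 (by simpa using sz_le_of_mem hi)

@[fun_prop] theorem pt_union (h : PT W) (h' : PT A) : PT fun a => W a ∪ A a :=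
  (pt_toFinset ((pt_sort h).append (pt_sort h'))).of_eq (by simp)

@[fun_prop] theorem pt_insert (hx : PT x) (h : PT W) : PT fun a => insert (x a) (W a) :=
  (pt_toFinset (hx.cons (pt_sort h))).of_eq (by simp)

@[fun_prop] theorem pt_erase (h : PT W) (hx : PT x) : PT fun a => (W a).erase (x a) :=
  (pt_filter (P := fun a i => i ≠ x a) (by fun_prop) h).of_eq fun a => filter_ne' _ _

@[fun_prop] theorem pt_sdiff (h : PT W) (h' : PT A) : PT fun a => W a \ A a :=
  (pt_filter (P := fun a i => i ∉ A a) (by fun_prop) h).of_eq fun a => filter_notMem_eq_sdiff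

@[fun_prop] theorem pt_inter (h : PT W) (h' : PT A) : PT fun a => W a ∩ A a :=
  (pt_filter (P := fun a i => i ∈ A a) (by fun_prop) h).of_eq fun a => filter_mem_eq_inter

@[fun_prop] theorem pt_subset (h : PT W) (h' : PT A) : PT fun a => decide (W a ⊆ A a) :=
  (PT.all (f := fun a i => decide (i ∈ A a)) (by fun_prop) (pt_sort h)).of_eq fun a => by
    rw [Bool.eq_iff_iff]
    simp [subset_iff]

theorem pt_ds {σ : Type} [Enc σ] {c : α → σ → List σ} {ok : α → σ → σ → Bool}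
    (hc : PT fun z : α × σ => c z.1 z.2) (hk : PT fun z : (α × σ) × σ => ok z.1.1 z.1.2 z.2) :
    PT fun z : α × σ => ds (c z.1) (ok z.1) z.2 :=
  PT.getD_opt (PT.find? hk hc) (by fun_prop)

abbrev PB' (B : α → Finset ℕ → Bool) : Prop := PT fun z : α × Finset ℕ => B z.1 z.2

theorem PB'.app {β : Type} [Enc β] (h : PB' B) {g : β → α} {W : β → Finset ℕ} (hg : PT g)
    (hW : PT W) : PT fun b => B (g b) (W b) := PT.comp h (hg.mk hW)

theorem pt_shs (hS : PT S) (hB : PB' B) (hN : PT N) (hi : PT i) (hW : PT W) :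
    PT fun a => (shs (S a) (B a) (N a))^[i a] (W a) :=
  PT.iterate (step := fun a => shs (S a) (B a) (N a))
    (pt_ds (c := fun a (W : Finset ℕ) => ((S a).sort (· ≤ ·)).map W.erase)
      (ok := fun a W T => decide (N a ≤ #T) && decide (#T < #W) && B a T) (by fun_prop)
      (PT.and (by fun_prop) (hB.app (by fun_prop) (by fun_prop)))) hi hW hW.pb
    fun _ _ _ => sz_mono (shs_sub _)

theorem pt_arc (hB : PB' B) (hA : PT A) (hx : PT x) (hy : PT y) :
    PT fun a => Arc (B a) (A a) (x a) (y a) :=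
  PT.and (by fun_prop) (hB.app (by fun_prop) (by fun_prop))

theorem pt_ex (hS : PT S) (h₁ : PB' B₁) (h₂ : PB' B₂) (a₁ : PT A₁) (a₂ : PT A₂) (hR : PT R) :
    PT fun a => ex (S a) (B₁ a) (B₂ a) (A₁ a) (A₂ a) (R a) := by
  refine pt_filter (PT.decide_or (by fun_prop) ?_) hS
  refine (PT.any (f := fun (z : α × ℕ) u => Arc (B₁ z.1) (A₁ z.1) u z.2 ||
    Arc (B₂ z.1) (A₂ z.1) u z.2) (PT.or
      (pt_arc (h₁.app (by fun_prop) (by fun_prop)) (by fun_prop) (by fun_prop) (by fun_prop))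
      (pt_arc (h₂.app (by fun_prop) (by fun_prop)) (by fun_prop) (by fun_prop) (by fun_prop)))
    (pt_sort (W := fun z => R z.1) (by fun_prop))).of_eq fun z => ?_
  rw [Bool.eq_iff_iff]
  simp

theorem pt_lev (hS : PT S) (h₁ : PB' B₁) (h₂ : PB' B₂) (a₁ : PT A₁) (a₂ : PT A₂) (hi : PT i) :
    PT fun a => lev (S a) (B₁ a) (B₂ a) (A₁ a) (A₂ a) (i a) :=
  PT.iterate (step := fun a => ex (S a) (B₁ a) (B₂ a) (A₁ a) (A₂ a))
    (pt_ex (by fun_prop) (h₁.app (by fun_prop) (by fun_prop)) (h₂.app (by fun_prop) (by fun_prop))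
      (by fun_prop) (by fun_prop) (by fun_prop)) hi (by fun_prop) hS.pb
    fun _ j _ => sz_mono (lev_sub j)

theorem pt_pot (hS : PT S) (h₁ : PB' B₁) (h₂ : PB' B₂) (a₁ : PT A₁) (a₂ : PT A₂) :
    PT fun a => pot (S a) (B₁ a) (B₂ a) (A₁ a) (A₂ a) :=
  PT.add (by fun_prop) (pt_card (pt_filter (pt_subset (pt_lev (by fun_prop)
    (h₁.app (by fun_prop) (by fun_prop)) (h₂.app (by fun_prop) (by fun_prop))
    (by fun_prop) (by fun_prop) (by fun_prop)) (by fun_prop)) (by fun_prop)))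

theorem cand_sub {S : Finset ℕ} {A : St} (h : A.1 ⊆ S ∧ A.2 ⊆ S) :
    ∀ T ∈ cand S A, T.1 ⊆ S ∧ T.2 ⊆ S := by
  simp only [cand, List.mem_flatMap, mem_sort, List.mem_cons, List.not_mem_nil, or_false]
  rintro _ ⟨u, -, t, ht, rfl | rfl⟩ <;> grind

theorem mi_sub {S : Finset ℕ} {B₁ B₂} {A : St} (h : A.1 ⊆ S ∧ A.2 ⊆ S) (i) :
    ((ds (cand S) (okk S B₁ B₂))^[i] A).1 ⊆ S ∧ ((ds (cand S) (okk S B₁ B₂))^[i] A).2 ⊆ S :=
  ds_inv (I := fun T : St => T.1 ⊆ S ∧ T.2 ⊆ S) (fun _ hs t ht _ => cand_sub hs t ht) h i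

@[fun_prop] theorem pt_cand {A : α → St} (hS : PT S) (hA : PT A) : PT fun a => cand (S a) (A a) := by
  unfold cand
  fun_prop

theorem pt_okk (hS : PT S) (h₁ : PB' B₁) (h₂ : PB' B₂) {A T : α → St} (hA : PT A) (hT : PT T) :
    PT fun a => okk (S a) (B₁ a) (B₂ a) (A a) (T a) :=
  PT.and (PT.and (PT.and (PT.and (h₁.app PT.id' hT.fst) (h₂.app PT.id' hT.snd)) (by fun_prop))
    (by fun_prop)) (PT.lt (pt_pot hS h₁ h₂ hT.fst hT.snd) (pt_pot hS h₁ h₂ hA.fst hA.snd))

theorem pt_mi (hS : PT S) (h₁ : PB' B₁) (h₂ : PB' B₂) {A : α → St} (hA : PT A) (hi : PT i)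
    (e : ∀ a, (A a).1 ⊆ S a ∧ (A a).2 ⊆ S a) :
    PT fun a => (ds (cand (S a)) (okk (S a) (B₁ a) (B₂ a)))^[i a] (A a) := by
  refine PT.iterate (step := fun a => ds (cand (S a)) (okk (S a) (B₁ a) (B₂ a)))
    (pt_ds (c := fun a => cand (S a)) (ok := fun a => okk (S a) (B₁ a) (B₂ a)) (by fun_prop)
      (pt_okk (S := fun z : (α × St) × St => S z.1.1) (B₁ := fun z => B₁ z.1.1)
        (B₂ := fun z => B₂ z.1.1) (by fun_prop) (h₁.app (by fun_prop) (by fun_prop))
        (h₂.app (by fun_prop) (by fun_prop)) (by fun_prop) (by fun_prop))) hi hA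
    (B := fun a => 2 * sz (S a) + 1 + sz (S a)) (PT.nat_pb (by fun_prop)) fun a j _ => ?_
  rw [sz_prod]
  have := sz_mono (mi_sub (B₁ := B₁ a) (B₂ := B₂ a) (e a) j).1
  have := sz_mono (mi_sub (B₁ := B₁ a) (B₂ := B₂ a) (e a) j).2
  omega

end Pool.Agent.H36.Skew
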