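import Pool.Agent.H36.Skew5

/-!
The queries of the algorithm.
-/

namespace Pool.Agent.H36.Skew

open Finset Function Pool.Agent.H38.NP SkewDefs Orc

abbrev Qu := Bool × Finset ℕ × ℕ

def oo (O : Qu → Bool) (b : Bool) (W : Finset ℕ) (m : ℕ) : Bool := O (b, W, m)

theorem ds_congr {σ : Type} {c : σ → List σ} {ok ok' : σ → σ → Bool} {s}
    (h : ∀ t ∈ c s, ok s t = ok' s t) : ds c ok s = ds c ok' s := by
  unfold ds
  generalize c s = l at h
  congr 1
  induction l with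
  | nil => rfl
  | cons a l ih =>
    rw [List.find?_cons, List.find?_cons, h a (.head _), ih fun t ht => h t (.tail _ ht)]

def qshr (S : Finset ℕ) (b : Bool) (m N : ℕ) (W₀ : Finset ℕ) (O : Qu → Bool) : List Qu :=
  (List.range #S).flatMap fun i => (S.sort (· ≤ ·)).map fun u =>
    (b, ((shs S (oo O b · m) N)^[i] W₀).erase u, m)

theorem det_shr (S b m N W₀) : Det (fun O => shr S (oo O b · m) N W₀) (qshr S b m N W₀) :=
  Det.iter (st := fun O => shs S (oo O b · m) N)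
    (l := fun W => (S.sort (· ≤ ·)).map fun u => (b, W.erase u, m))
    (fun s o o' h => ds_congr fun t ht => by
      obtain ⟨u, hu, rfl⟩ := List.mem_map.1 ht
      simp only [oo, h _ (List.mem_map_of_mem hu)]) _ _

def qini (S : Finset ℕ) (b : Bool) (m₁ m₂ N : ℕ) (O : Qu → Bool) : List Qu :=
  qshr S b m₁ 0 S O ++ qshr S b m₂ N (S \ shr S (oo O b · m₁) 0 S) O

theorem det_ini (S b m₁ m₂ N) : Det (fun O => ini (oo O b) S m₁ m₂ N) (qini S b m₁ m₂ N) :=
  (det_shr S b m₁ 0 S).bind (g := fun U O => shr S (oo O b · m₂) N (S \ U))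
    (R := fun U => qshr S b m₂ N (S \ U)) fun _ => det_shr _ _ _ _ _

def nb (S A : Finset ℕ) : List (Finset ℕ) :=
  A :: (S.sort (· ≤ ·)).flatMap fun x => (S.sort (· ≤ ·)).map fun y => insert y (A.erase x)

theorem pot_congr {S A₁ A₂ : Finset ℕ} {B₁ B₂ B₁' B₂' : Finset ℕ → Bool}
    (h₁ : ∀ W ∈ nb S A₁, B₁ W = B₁' W) (h₂ : ∀ W ∈ nb S A₂, B₂ W = B₂' W) :
    pot S B₁ B₂ A₁ A₂ = pot S B₁' B₂' A₁ A₂ := by
  have m : ∀ A, ∀ x ∈ S, ∀ y ∈ S, insert y (A.erase x) ∈ nb S A := fun A x hx y hy =>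
    .tail _ (List.mem_flatMap.2 ⟨x, (mem_sort _).2 hx, List.mem_map_of_mem ((mem_sort _).2 hy)⟩)
  have : lev S B₁ B₂ A₁ A₂ = lev S B₁' B₂' A₁ A₂ := by
    ext1 j
    induction j with
    | zero => rfl
    | succ j ih =>
      ext y
      rw [mem_lev, mem_lev, ih]
      refine and_congr_right fun hy => or_congr_right (exists_congr fun x =>
        and_congr_right fun hx => ?_)
      simp only [Arc, h₁ _ (m _ _ (lev_sub _ hx) _ hy), h₂ _ (m _ _ (lev_sub _ hx) _ hy)]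
  rw [pot, pot, this]

def qf (S : Finset ℕ) (b : Bool) (m₁ m₂ : ℕ) (A : Finset ℕ) : List Qu :=
  (nb S A).flatMap fun W => [(b, W, m₂), (b, S \ W, m₁)]

theorem fe_congr {S b m₁ m₂ A} {O O' : Qu → Bool} (h : ∀ x ∈ qf S b m₁ m₂ A, O x = O' x) :
    ∀ W ∈ nb S A, fe (oo O b) S m₁ m₂ W = fe (oo O' b) S m₁ m₂ W := fun W hW => by
  simp only [fe, oo, h _ (List.mem_flatMap.2 ⟨W, hW, .head _⟩),
    h _ (List.mem_flatMap.2 ⟨W, hW, .tail _ (.head _)⟩)]

def qst (S : Finset ℕ) (m₁ m₂ : ℕ) (A : St) : List Qu :=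
  (A :: cand S A).flatMap fun T => qf S false m₁ m₂ T.1 ++ qf S true m₂ m₁ T.2

def qmi (S : Finset ℕ) (m₁ m₂ : ℕ) (A : St) (O : Qu → Bool) : List Qu :=
  (List.range ((#S + 1) * (#S + 2))).flatMap fun i => qst S m₁ m₂
    ((ds (cand S) (okk S (fe (oo O false) S m₁ m₂) (fe (oo O true) S m₂ m₁)))^[i] A)

theorem det_mi (S m₁ m₂ A) : Det (fun O => mi S (fe (oo O false) S m₁ m₂) (fe (oo O true) S m₂ m₁) A)
    (qmi S m₁ m₂ A) :=
  Det.iter (st := fun O => ds (cand S) (okk S (fe (oo O false) S m₁ m₂) (fe (oo O true) S m₂ m₁)))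
    (l := qst S m₁ m₂) (fun s o o' h => ds_congr fun t ht => by
      have a := fun T hT => fe_congr fun x hx => h x (List.mem_flatMap.2
        ⟨T, hT, List.mem_append_left _ hx⟩)
      have b := fun T hT => fe_congr fun x hx => h x (List.mem_flatMap.2
        ⟨T, hT, List.mem_append_right _ hx⟩)
      rw [okk, okk, a t (.tail _ ht) _ (.head _), b t (.tail _ ht) _ (.head _),
        pot_congr (a t (.tail _ ht)) (b t (.tail _ ht)), pot_congr (a s (.head _)) (b s (.head _))])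
    _ _

def qalg (S : Finset ℕ) (m₁ m₂ N₁ N₂ : ℕ) (O : Qu → Bool) : List Qu :=
  (qini S false m₁ m₂ N₁ O ++ qini S true m₂ m₁ N₂ O) ++
    qmi S m₁ m₂ (ini (oo O false) S m₁ m₂ N₁, ini (oo O true) S m₂ m₁ N₂) O

theorem det_alg (S m₁ m₂ N₁ N₂) : Det (fun O => alg (oo O false) (oo O true) S m₁ m₂ N₁ N₂)
    (qalg S m₁ m₂ N₁ N₂) :=
  ((((det_ini S false m₁ m₂ N₁).bind (g := fun A O => (A, ini (oo O true) S m₂ m₁ N₂))
    (R := fun _ => qini S true m₂ m₁ N₂) fun _ => (det_ini S true m₂ m₁ N₂).map _).bind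
    (g := fun A O => mi S (fe (oo O false) S m₁ m₂) (fe (oo O true) S m₂ m₁) A)
    (R := qmi S m₁ m₂) fun _ => det_mi _ _ _ _).map
    fun T : St => decide (#T.1 = N₁) && decide (#T.2 = N₂) && decide (#(T.1 ∩ T.2) = 0))

theorem len_alg (S m₁ m₂ N₁ N₂ O) : (qalg S m₁ m₂ N₁ N₂ O).length =
    4 * (#S * #S) + (#S + 1) * (#S + 2) * ((#S * (#S * 2) + 1) * (4 * (#S * #S + 1))) := by
  have a : ∀ b m₁ m₂ A, (qf S b m₁ m₂ A).length = 2 * (#S * #S + 1) := by
    simp [qf, nb, List.length_flatMap]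
    omega
  have b : ∀ A, (cand S A).length = #S * (#S * 2) := by simp [cand, List.length_flatMap]
  have c : ∀ A, (qst S m₁ m₂ A).length = (#S * (#S * 2) + 1) * (4 * (#S * #S + 1)) := fun A => by
    simp only [qst, List.length_flatMap, List.length_append, a, List.map_const', List.sum_replicate,
      List.length_cons, b, smul_eq_mul]
    ring
  simp [qalg, qini, qshr, qmi, List.length_flatMap, c]
  ring

theorem ini_sub {o S m₁ m₂ N} : ini o S m₁ m₂ N ⊆ S := (shs_sub _).trans sdiff_subset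

theorem sub_alg (S m₁ m₂ N₁ N₂ O) : ∀ x ∈ qalg S m₁ m₂ N₁ N₂ O, x.2.1 ⊆ S ∧ x.2.2 ≤ m₁ + m₂ := by
  have a : ∀ b m N W, W ⊆ S → ∀ x ∈ qshr S b m N W O, x.2.1 ⊆ S ∧ x.2.2 = m := by
    simp only [qshr, List.mem_flatMap, List.mem_map]
    rintro b m N W hW _ ⟨i, -, u, -, rfl⟩
    exact ⟨(erase_subset _ _).trans ((shs_sub _).trans hW), rfl⟩
  have b : ∀ b m₁ m₂ N, ∀ x ∈ qini S b m₁ m₂ N O, x.2.1 ⊆ S ∧ x.2.2 ≤ m₁ + m₂ := by
    intro b m₁ m₂ N x hx
    rcases List.mem_append.1 hx with h | h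
    · exact (a _ _ _ _ Subset.rfl x h).imp_right (by omega)
    · exact (a _ _ _ _ sdiff_subset x h).imp_right (by omega)
  have c : ∀ b m₁ m₂ A, A ⊆ S → ∀ x ∈ qf S b m₁ m₂ A, x.2.1 ⊆ S ∧ x.2.2 ≤ m₁ + m₂ := by
    simp only [qf, nb, List.mem_flatMap, List.mem_cons, List.mem_map, mem_sort, List.not_mem_nil]
    grind
  simp only [qalg, List.mem_append, qmi, qst, List.mem_flatMap]
  rintro x ((h | h) | ⟨i, -, T, hT, h⟩)
  · exact b _ _ _ _ x h
  · exact add_comm m₁ m₂ ▸ b _ _ _ _ x h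
  have d := mi_sub (B₁ := fe (oo O false) S m₁ m₂) (B₂ := fe (oo O true) S m₂ m₁)
    (A := (ini (oo O false) S m₁ m₂ N₁, ini (oo O true) S m₂ m₁ N₂)) ⟨ini_sub, ini_sub⟩ i
  have : T.1 ⊆ S ∧ T.2 ⊆ S := (List.mem_cons.1 hT).elim (· ▸ d) (cand_sub d T)
  exact h.elim (c _ _ _ _ this.1 x) fun h => add_comm m₁ m₂ ▸ c _ _ _ _ this.2 x h

variable {α : Type} [Enc α] {S W A : α → Finset ℕ} {m N m₁ m₂ N₁ N₂ : α → ℕ} {O : α → Qu → Bool}

abbrev PO (O : α → Qu → Bool) : Prop := PT fun z : α × Qu => O z.1 z.2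

theorem PO.app {β : Type} [Enc β] (h : PO O) (b) {g : β → α} {W : β → Finset ℕ} {m : β → ℕ}
    (hg : PT g) (hW : PT W) (hm : PT m) : PT fun z => oo (O (g z)) b (W z) (m z) :=
  PT.comp h (g := fun z => (g z, b, W z, m z)) (by fun_prop)

theorem PO.oo (h : PO O) (b) (hm : PT m) : PB' fun a W => oo (O a) b W (m a) :=
  h.app b (by fun_prop) (by fun_prop) (by fun_prop)

theorem PO.fe (h : PO O) (b) (hS : PT S) (h₁ : PT m₁) (h₂ : PT m₂) :
    PB' fun a => fe (Skew.oo (O a) b) (S a) (m₁ a) (m₂ a) :=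
  PT.and (PT.and (by fun_prop) (h.app b (by fun_prop) (by fun_prop) (by fun_prop)))
    (h.app b (by fun_prop) (by fun_prop) (by fun_prop))

theorem pt_qshr (h : PO O) (b) (hS : PT S) (hm : PT m) (hN : PT N) (hW : PT W) :
    PT fun a => qshr (S a) b (m a) (N a) (W a) (O a) := by
  have := pt_shs (S := fun z : α × ℕ => S z.1) (B := fun z W => oo (O z.1) b W (m z.1))
    (N := fun z => N z.1) (i := fun z => z.2) (W := fun z => W z.1) (by fun_prop)
    (h.app b (by fun_prop) (by fun_prop) (by fun_prop)) (by fun_prop) (by fun_prop) (by fun_prop)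
  exact PT.flatMap (PT.map (PT.mk (PT.const _) (PT.mk (pt_erase (this.comp PT.id'.fst) PT.id'.snd)
    (by fun_prop))) (by fun_prop)) (by fun_prop)

theorem pt_ini (h : PO O) (b) (hS : PT S) (h₁ : PT m₁) (h₂ : PT m₂) (hN : PT N) :
    (PT fun a => ini (oo (O a) b) (S a) (m₁ a) (m₂ a) (N a)) ∧
      PT fun a => qini (S a) b (m₁ a) (m₂ a) (N a) (O a) := by
  have := pt_sdiff hS (pt_shs hS (h.oo b h₁) (PT.const 0) (pt_card hS) hS)
  exact ⟨pt_shs hS (h.oo b h₂) hN (pt_card hS) this,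
    (pt_qshr h b hS h₁ (PT.const 0) hS).append (pt_qshr h b hS h₂ hN this)⟩

theorem pt_qst {A : α → St} (hS : PT S) (h₁ : PT m₁) (h₂ : PT m₂) (hA : PT A) :
    PT fun a => qst (S a) (m₁ a) (m₂ a) (A a) := by
  unfold qst qf nb
  fun_prop

theorem pt_alg (h : PO O) (hS : PT S) (h₁ : PT m₁) (h₂ : PT m₂) (n₁ : PT N₁) (n₂ : PT N₂) :
    (PT fun a => alg (oo (O a) false) (oo (O a) true) (S a) (m₁ a) (m₂ a) (N₁ a) (N₂ a)) ∧
      PT fun a => qalg (S a) (m₁ a) (m₂ a) (N₁ a) (N₂ a) (O a) := by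
  obtain ⟨a1, a2⟩ := pt_ini h false hS h₁ h₂ n₁
  obtain ⟨a3, a4⟩ := pt_ini h true hS h₂ h₁ n₂
  have f₁ := h.fe false hS h₁ h₂
  have f₂ := h.fe true hS h₂ h₁
  have : PT fun a => fin (oo (O a) false) (oo (O a) true) (S a) (m₁ a) (m₂ a) (N₁ a) (N₂ a) :=
    pt_mi hS f₁ f₂ (a1.mk a3) (by fun_prop) fun _ => ⟨ini_sub, ini_sub⟩
  refine ⟨PT.and (PT.and (PT.eq (pt_card this.fst) n₁) (PT.eq (pt_card this.snd) n₂))
    (PT.eq (pt_card (pt_inter this.fst this.snd)) (PT.const 0)), (a2.append a4).append ?_⟩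
  exact PT.flatMap (pt_qst (by fun_prop) (by fun_prop) (by fun_prop)
    (pt_mi (S := fun z : α × ℕ => S z.1) (by fun_prop) (f₁.app PT.id'.fst.fst PT.id'.snd)
      (f₂.app PT.id'.fst.fst PT.id'.snd) ((a1.mk a3).comp PT.id'.fst) PT.id'.snd
      fun _ => ⟨ini_sub, ini_sub⟩)) (by fun_prop)

theorem main : OracleP Valid Feasible fun a p (x : Qu) => Covers a.1 (p x.1) x.2.1 x.2.2 := by
  obtain ⟨a1, a2⟩ := pt_alg (α := Inst × List (Qu × Bool)) (O := fun z => look z.2)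
    (S := fun z => range z.1.1) (m₁ := fun z => z.1.2.1) (m₂ := fun z => z.1.2.2.1)
    (N₁ := fun z => z.1.2.1 * z.1.2.2.2.1) (N₂ := fun z => z.1.2.2.1 * z.1.2.2.2.2)
    (by unfold PO look; fun_prop) (by fun_prop) (by fun_prop) (by fun_prop) (by fun_prop)
    (by fun_prop)
  refine oracleP (false, ∅, 0) (fun a O => alg (oo O false) (oo O true) (range a.1) a.2.1 a.2.2.1
      (a.2.1 * a.2.2.2.1) (a.2.2.1 * a.2.2.2.2))
    (fun a => qalg (range a.1) a.2.1 a.2.2.1 (a.2.1 * a.2.2.2.1) (a.2.2.1 * a.2.2.2.2))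
    (fun _ => det_alg _ _ _ _ _) a1 a2 (L := fun a => 4 * (a.1 * a.1) + (a.1 + 1) * (a.1 + 2) *
      ((a.1 * (a.1 * 2) + 1) * (4 * (a.1 * a.1 + 1))))
    (B := fun a => 4 + 2 * sz (range a.1) + (a.2.1 + a.2.2.1)) (by fun_prop) (by fun_prop)
    (fun a o => by rw [len_alg, card_range]) (fun a o x hx => ?_) ?_
  · obtain ⟨b1, b2⟩ := sub_alg _ _ _ _ _ _ x hx
    have := sz_mono b1
    rw [sz_prod, sz_prod, sz_bool, sz_nat]
    omega
  rintro ⟨n, m₁, m₂, n₁, n₂⟩ p O ⟨-, -, -, -, e, s₁, s₂, v⟩ hO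
  have H : ∀ b, SkewOn (range n) (p b) → Hyp (fun X => p b (X ∩ range n)) (range n) (m₁ + m₂) := by
    intro b s
    have v : ∀ X, p b (X ∩ range n) ≤ min (#(X ∩ range n) : ℤ) (m₁ + m₂) := fun X =>
      le_trans (by cases b <;> simp) (v _ inter_subset_right)
    refine ⟨fun X Y => ?_, fun X => (v X).trans (min_le_left _ _),
      fun X => (v X).trans (by simp)⟩
    have := s _ (inter_subset_right (s₁ := X)) _ (inter_subset_right (s₁ := Y))
    rwa [← inter_inter_distrib_right, ← union_inter_distrib_right,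
      show (X ∩ range n) \ (Y ∩ range n) = X \ Y ∩ range n by grind,
      show (Y ∩ range n) \ (X ∩ range n) = Y \ X ∩ range n by grind] at this
  have ho : ∀ b W m, oo O b W m ↔ Cov (fun X => p b (X ∩ range n)) W m := fun b W m => by
    rw [oo, hO]
    refine ⟨fun h X => ?_, fun h X hX => ?_⟩
    · have := h _ (inter_subset_right (s₁ := X))
      have : #(X ∩ range n ∩ W) ≤ #(X ∩ W) := by gcongr; exact inter_subset_left
      dsimp only at *
      omega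
    · have := h X
      simp only [inter_eq_left.2 hX] at *
      omega
  rw [← alg_iff (H _ s₁) (H _ s₂) (ho _) (ho _) (by simpa using e),
    ← col_iff (H _ s₁) (H _ s₂) (by simpa using e)]
  refine exists_congr fun c => ⟨fun ⟨a, b, d⟩ => ⟨by simpa using a, b,
    fun X => (le_max_left _ _).trans (d _ inter_subset_right),
    fun X => (le_max_right _ _).trans (d _ inter_subset_right)⟩,
    fun h => ⟨by simpa using h.lt, h.sz, fun X hX => ?_⟩⟩
  simpa only [inter_eq_left.2 hX] using max_le (h.l₁ X) (h.l₂ X)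

end Pool.Agent.H36.Skew
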