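import Pool.Agent.H36.SlpDefs

/-!
Direction systems and the turning lemma for loaded edges.
-/

namespace Pool.Agent.H36.Slp

abbrev P := ℝ × ℝ

def cr (u v : P) : ℝ := u.1 * v.2 - u.2 * v.1

theorem cr_anti (u v : P) : cr u v = -cr v u := by unfold cr; ring
@[simp] theorem cr_self (u : P) : cr u u = 0 := by unfold cr; ring
@[simp] theorem cr_neg_l (u v : P) : cr (-u) v = -cr u v := by simp [cr]; ring
@[simp] theorem cr_neg_r (u v : P) : cr u (-v) = -cr u v := by simp [cr]; ring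
@[simp] theorem cr_smul_l (t : ℝ) (u v : P) : cr (t • u) v = t * cr u v := by simp [cr]; ring
@[simp] theorem cr_smul_r (t : ℝ) (u v : P) : cr u (t • v) = t * cr u v := by simp [cr]; ring
theorem cr_add_r (u v w : P) : cr u (v + w) = cr u v + cr u w := by simp [cr]; ring
theorem cr_sub_r (u v w : P) : cr u (v - w) = cr u v - cr u w := by simp [cr]; ring
theorem cr_add_l (u v w : P) : cr (v + w) u = cr v u + cr w u := by simp [cr]; ring
theorem cr_sub_l (u v w : P) : cr (v - w) u = cr v u - cr w u := by simp [cr]; ring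
@[simp] theorem cr_zero_r (u : P) : cr u 0 = 0 := by simp [cr]
@[simp] theorem cr_zero_l (u : P) : cr 0 u = 0 := by simp [cr]

structure DS (k : ℕ) (d : ℤ → P) : Prop where
  neg : ∀ a, d (a + k) = -d a
  pos : ∀ a b : ℤ, a < b → b < a + k → 0 < cr (d a) (d b)

def Ray (d : ℤ → P) (u : P) (a : ℤ) : Prop := ∃ t : ℝ, 0 < t ∧ u = t • d a

variable {k : ℕ} {d : ℤ → P}

theorem DS.neg' (h : DS k d) (a : ℤ) : d (a - k) = -d a := by
  have := h.neg (a - k); rw [sub_add_cancel] at this; rw [this, neg_neg]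

theorem DS.per (h : DS k d) (a q : ℤ) : d (a + 2 * k * q) = d a := by
  induction q using Int.induction_on with
  | zero => simp
  | succ q ih => rw [show a + 2 * k * ((q : ℤ) + 1) = a + 2 * k * q + k + k by ring, h.neg, h.neg, ih,
      neg_neg]
  | pred q ih => rw [show a + 2 * k * (-(q : ℤ) - 1) = a + 2 * k * -q - k - k by ring, h.neg', h.neg', ih,
      neg_neg]

theorem DS.nonpos (h : DS k d) {a b : ℤ} (h1 : b ≤ a) (h2 : a ≤ b + k) : cr (d a) (d b) ≤ 0 := by
  rcases h1.eq_or_lt with rfl | h1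
  · simp
  rcases h2.eq_or_lt with rfl | h2
  · simp [h.neg]
  · rw [cr_anti]; linarith [h.pos b a h1 h2]

theorem DS.ngt (h : DS k d) {a b : ℤ} (h1 : b < a) (h2 : a < b + k) : cr (d a) (d b) < 0 := by
  rw [cr_anti]; linarith [h.pos b a h1 h2]

theorem DS.ne0 (h : DS k d) (hk : 2 ≤ k) (a : ℤ) : d a ≠ 0 := fun e => by
  have := h.pos a (a + 1) (by omega) (by omega); simp [e] at this

theorem DS.cr_ne (h : DS k d) {a b : ℤ} (h1 : a ≠ b) (h2 : a < b + k) (h3 : b < a + k) :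
    cr (d a) (d b) ≠ 0 := by
  rcases lt_or_gt_of_ne h1 with h1 | h1
  exacts [(h.pos a b h1 h3).ne', (h.ngt h1 h2).ne]

theorem Ray.norm (h : DS k d) (hk : 2 ≤ k) {u a} (r : Ray d u a) (b : ℤ) :
    ∃ c, b ≤ c ∧ c < b + 2 * k ∧ Ray d u c := by
  obtain ⟨t, ht, rfl⟩ := r
  have hk' : (0 : ℤ) < 2 * k := by omega
  refine ⟨b + (a - b) % (2 * k), by have := Int.emod_nonneg (a - b) hk'.ne'; omega,
    by have := Int.emod_lt_of_pos (a - b) hk'; omega, t, ht, ?_⟩
  rw [← h.per (b + (a - b) % (2 * k)) ((a - b) / (2 * k)), add_assoc, Int.emod_add_mul_ediv]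
  simp

theorem Ray.neg (h : DS k d) {u a} (r : Ray d u a) : Ray d (-u) (a - k) := by
  obtain ⟨t, ht, rfl⟩ := r
  exact ⟨t, ht, by rw [h.neg']; simp⟩

theorem Ray.neg' (h : DS k d) {u a} (r : Ray d u a) : Ray d (-u) (a + k) := by
  obtain ⟨t, ht, rfl⟩ := r
  exact ⟨t, ht, by rw [h.neg]; simp⟩

theorem Ray.uniq' (h : DS k d) (hk : 2 ≤ k) {u a b} (r : Ray d u a) (s : Ray d u b) (h1 : a < b)
    (h2 : b < a + 2 * k) : False := by
  obtain ⟨t, ht, rfl⟩ := r
  obtain ⟨s, hs, e⟩ := s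
  have e1 : cr (d a) (d b) = 0 := by
    have := congrArg (cr (d a)) e
    simp only [cr_smul_r, cr_self, mul_zero] at this
    exact (mul_eq_zero.1 this.symm).resolve_left hs.ne'
  rcases lt_trichotomy b (a + k) with c | rfl | c
  · exact (h.pos a b h1 c).ne' e1
  · rw [h.neg, smul_neg, ← add_eq_zero_iff_eq_neg, ← add_smul] at e
    exact h.ne0 hk a ((smul_eq_zero.1 e).resolve_left (by positivity))
  · have := h.pos (a + k) b c (by omega)
    rw [h.neg] at this; simp [e1] at this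

theorem Ray.uniq (h : DS k d) (hk : 2 ≤ k) {u a b} (r : Ray d u a) (s : Ray d u b)
    (h1 : a < b + 2 * k) (h2 : b < a + 2 * k) : a = b := by
  rcases lt_trichotomy a b with c | c | c
  exacts [(r.uniq' h hk s c h2).elim, c, (s.uniq' h hk r c h1).elim]

theorem mem_oseg {a b : P} {s t : ℝ} {v z : P} (hs : 0 < s) (ht : 0 < t) (e1 : z - a = s • v)
    (e2 : b - z = t • v) : z ∈ openSegment ℝ a b := by
  obtain rfl : a = z - s • v := by rw [← e1]; simp
  obtain rfl : b = z + t • v := by rw [← e2]; simp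
  refine ⟨t / (s + t), s / (s + t), by positivity, by positivity, by field_simp; ring, ?_⟩
  ext <;> simp <;> field_simp <;> ring

/-- a drawing on codes -/
structure Dr {C : Type} (ok : C → Prop) (A : C → C → Prop) (d : ℤ → P) (X : C → P) : Prop where
  inj : ∀ a b, ok a → ok b → X a = X b → a = b
  seg : ∀ a b z, ok a → ok b → ok z → A a b → X z ∉ openSegment ℝ (X a) (X b)
  ray : ∀ a b, ok a → ok b → A a b → ∃ τ, Ray d (X b - X a) τ

variable {C : Type} {ok : C → Prop} {A : C → C → Prop} {X : C → P}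

theorem Dr.ray_ne (h : Dr ok A d X) {u z w a} (hu : ok u) (hz : ok z) (hw : ok w) (az : A u z)
    (aw : A u w) (r : Ray d (X z - X u) a) (s : Ray d (X w - X u) a) : z = w := by
  obtain ⟨t, ht, e⟩ := r
  obtain ⟨s, hs, e'⟩ := s
  rcases lt_trichotomy t s with c | rfl | c
  · exact (h.seg u w z hu hw hz aw (mem_oseg ht (sub_pos.2 c) e
      (by rw [sub_smul, ← e, ← e']; abel))).elim
  · exact h.inj z w hz hw (sub_left_injective (e.trans e'.symm))
  · exact (h.seg u z w hu hz hw az (mem_oseg hs (sub_pos.2 c) e'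
      (by rw [sub_smul, ← e, ← e']; abel))).elim

theorem Dr.tri (hd : DS k d) (hk : 2 ≤ k) (h : Dr ok A d X) {u v x l a} (hu : ok u) (hv : ok v)
    (hx : ok x) (avx : A v x) (r : Ray d (X v - X u) l) (s : Ray d (X x - X u) a) :
    a ≠ l + k - 1 ∧ a ≠ l + k ∧ a ≠ l + k + 1 := by
  obtain ⟨b, hb⟩ := h.ray v x hv hx avx
  obtain ⟨b, b1, b2, t, ht, e3⟩ := hb.norm hd hk l
  obtain ⟨r, hr, e1⟩ := r
  obtain ⟨s, hs, e2⟩ := s
  have e : s • d a - t • d b = r • d l := by rw [← e1, ← e2, ← e3]; abel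
  have c1 := congrArg (cr (d l)) e
  have c2 := congrArg (cr (d a)) e
  simp only [cr_sub_r, cr_smul_r, cr_self, mul_zero] at c1 c2
  refine ⟨?_, ?_, ?_⟩ <;> rintro rfl
  · have k1 := hd.pos l (l + k - 1) (by omega) (by omega)
    have k2 := hd.ngt (a := l + k - 1) (b := l) (by omega) (by omega)
    by_cases c : b ≤ l + k - 1
    · have := hd.nonpos c (by omega); nlinarith
    · have := hd.nonpos (a := l + 2 * k * 1) (b := b) (by omega) (by omega)
      rw [hd.per] at this; nlinarith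
  · refine h.seg v x u hv hx hu avx (mem_oseg (v := -d l) hr hs ?_ (by rw [e2, hd.neg]))
    rw [smul_neg, ← e1]; abel
  · have k1 := hd.pos (l + k + 1) (l + 2 * k * 1) (by omega) (by omega)
    rw [hd.per] at k1
    have k2 := cr_anti (d l) (d (l + k + 1))
    by_cases c : b ≤ l + k
    · have := hd.nonpos b1 c
      rw [cr_anti] at this; nlinarith
    · have := hd.nonpos (a := b) (b := l + k + 1) (by omega) (by omega)
      rw [cr_anti] at this; nlinarith

theorem Dr.turn (hd : DS k d) (hk : 2 ≤ k) (h : Dr ok A d X) {u v w l} (hu : ok u) (hv : ok v)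
    (hw : ok w) (auv : A u v) (auw : A u w) (L : Finset C) (hL : 2 * k - 4 ≤ L.card)
    (hx : ∀ x ∈ L, ok x ∧ A u x ∧ A v x ∧ x ≠ v) (h1 : w ≠ v) (h2 : w ∉ L)
    (r : Ray d (X v - X u) l) : ∃ τ, l - 1 ≤ τ ∧ τ ≤ l + 1 ∧ Ray d (X u - X w) τ := by
  classical
  have : ∀ z, ∃ c, ok z → A u z → l ≤ c ∧ c < l + 2 * k ∧ Ray d (X z - X u) c := fun z => by
    by_cases c : ok z ∧ A u z
    · obtain ⟨b, hb⟩ := h.ray u z hu c.1 c.2
      obtain ⟨b, hb⟩ := hb.norm hd hk l
      exact ⟨b, fun _ _ => hb⟩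
    · exact ⟨0, fun a b => absurd ⟨a, b⟩ c⟩
  choose α hα using this
  by_contra hc
  have hw' : α w ≠ l + k - 1 ∧ α w ≠ l + k ∧ α w ≠ l + k + 1 := by
    have := (hα w hw auw).2.2.neg hd
    rw [neg_sub] at this
    refine ⟨?_, ?_, ?_⟩ <;> intro e <;> exact hc ⟨_, by omega, by omega, this⟩
  have k0 : ∀ z ∈ insert w L, ok z ∧ A u z ∧ z ≠ v := fun z hz => by
    rcases Finset.mem_insert.1 hz with rfl | hz
    exacts [⟨hw, auw, h1⟩, ⟨(hx z hz).1, (hx z hz).2.1, (hx z hz).2.2.2⟩]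
  have := Finset.card_le_card_of_injOn (s := insert w L)
    (t := Finset.Ioo l (l + k - 1) ∪ Finset.Ioo (l + k + 1) (l + 2 * k)) α (fun z hz => by
      obtain ⟨z1, z2, z3⟩ := k0 z hz
      obtain ⟨a1, a2, a3⟩ := hα z z1 z2
      have n0 : α z ≠ l := fun e => z3 (h.ray_ne hu z1 hv z2 auv (e ▸ a3) r)
      have n1 : α z ≠ l + k - 1 ∧ α z ≠ l + k ∧ α z ≠ l + k + 1 := by
        rcases Finset.mem_insert.1 hz with rfl | hz
        exacts [hw', h.tri hd hk hu hv z1 (hx z hz).2.2.1 r a3]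
      simp only [Finset.coe_union, Finset.coe_Ioo, Set.mem_union, Set.mem_Ioo]
      omega)
    (fun z hz z' hz' e => by
      obtain ⟨z1, z2, -⟩ := k0 z hz
      obtain ⟨z3, z4, -⟩ := k0 z' hz'
      exact h.ray_ne hu z1 z3 z2 z4 (hα z z1 z2).2.2 (e ▸ (hα z' z3 z4).2.2))
  have c := Finset.card_union_le (Finset.Ioo l (l + k - 1)) (Finset.Ioo (l + k + 1) (l + 2 * k))
  rw [Finset.card_insert_of_notMem h2] at this
  simp only [Int.card_Ioo] at c
  omega

theorem Dr.turn' (hd : DS k d) (hk : 2 ≤ k) (h : Dr ok A d X) {u v w τ} (hu : ok u) (hv : ok v)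
    (hw : ok w) (auv : A u v) (auw : A u w) (L : Finset C) (hL : 2 * k - 4 ≤ L.card)
    (hx : ∀ x ∈ L, ok x ∧ A u x ∧ A v x ∧ x ≠ v) (h1 : w ≠ v) (h2 : w ∉ L)
    (r : Ray d (X u - X w) τ) : ∃ l, τ - 1 ≤ l ∧ l ≤ τ + 1 ∧ Ray d (X v - X u) l := by
  obtain ⟨l, hl⟩ := h.ray u v hu hv auv
  obtain ⟨l, l1, l2, hl⟩ := hl.norm hd hk (τ - k + 1)
  obtain ⟨σ, s1, s2, hs⟩ := h.turn hd hk hu hv hw auv auw L hL hx h1 h2 hl
  have := r.uniq hd hk hs (by omega) (by omega)
  exact ⟨l, by omega, by omega, hl⟩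

end Pool.Agent.H36.Slp
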