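import Pool.Agent.H36.Slp1

/-!
Slope number and direction systems; perturbation lemmas.
-/

namespace Pool.Agent.H36.Slp

open Filter Topology

noncomputable def mkD (k : ℕ) (l : ℝ) (σ : ℤ → ℝ) (τ : ℤ) : P :=
  (if (τ / k) % 2 = 0 then (1 : ℝ) else -1) • (1 - l * σ (τ % k), σ (τ % k))

theorem mkD_eq {k : ℕ} {l σ} {τ : ℤ} (h0 : 0 ≤ τ) (h1 : τ < k) : mkD k l σ τ = (1 - l * σ τ, σ τ) := by
  simp [mkD, Int.ediv_eq_zero_of_lt h0 h1, Int.emod_eq_of_lt h0 h1]

theorem mkD_ds {k : ℕ} (hk : 0 < k) (l : ℝ) {σ : ℤ → ℝ}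
    (h : ∀ a b : ℤ, 0 ≤ a → a < b → b < k → σ a < σ b) : DS k (mkD k l σ) := by
  have hk' : (0 : ℤ) < k := by omega
  have n : ∀ a, mkD k l σ (a + k) = -mkD k l σ a := fun a => by
    have e : (a + k) / k = a / k + 1 := by
      simpa using Int.add_mul_ediv_right a 1 hk'.ne'
    simp only [mkD, e, Int.add_emod_right]
    by_cases c : a / k % 2 = 0
    · rw [if_pos c, if_neg (by omega)]; simp
    · rw [if_neg c, if_pos (by omega)]; simp
  refine ⟨n, fun a b h1 h2 => ?_⟩
  have a0 := Int.emod_nonneg a hk'.ne'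
  have a1 := Int.emod_lt_of_pos a hk'
  have a2 := Int.emod_add_mul_ediv a k
  have s : ∀ c : ℤ, 0 ≤ c → c < k → mkD k l σ (c + k * (a / k)) =
      (if (a / k) % 2 = 0 then (1 : ℝ) else -1) • (1 - l * σ c, σ c) := fun c c0 c1 => by
    simp only [mkD, Int.add_mul_emod_self_left, Int.add_mul_ediv_left c _ hk'.ne',
      Int.ediv_eq_zero_of_lt c0 c1, Int.emod_eq_of_lt c0 c1, zero_add]
  have e1 := s _ a0 a1
  rw [a2] at e1
  by_cases c : b - a + a % k < k
  · have e2 := s (b - a + a % k) (by omega) c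
    rw [show b - a + a % k + k * (a / k) = b by omega] at e2
    have := h (a % k) (b - a + a % k) a0 (by omega) c
    rw [e1, e2]; split_ifs <;> simp [cr] <;> linarith
  · have e2 := s (b - a + a % k - k) (by omega) (by omega)
    have e3 := n (b - k)
    rw [show b - a + a % k - k + k * (a / k) = b - k by omega] at e2
    rw [sub_add_cancel] at e3
    have := h (b - a + a % k - k) (a % k) (by omega) (by omega) a1
    rw [e1, e3, e2]; split_ifs <;> simp [cr] <;> linarith

theorem dr_of_le {V : Type} [Finite V] {G : SimpleGraph V} {k : ℕ} (hk : 0 < k) (h : SlopeLE G k) :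
    ∃ d x, DS k d ∧ Dr (fun _ => True) G.Adj d x := by
  classical
  obtain ⟨x, hx, hs, hc⟩ := h
  set S := {s | ∃ a b, G.Adj a b ∧ s = slopeOf (x a) (x b)}
  have fin : S.Finite := (Set.finite_range fun p : V × V => slopeOf (x p.1) (x p.2)).subset
    fun s ⟨a, b, _, e⟩ => ⟨(a, b), e.symm⟩
  obtain ⟨l, hl⟩ := Infinite.exists_notMem_finset
    (insert 0 (fin.toFinset.image fun s : Option ℝ => -(s.getD 0)⁻¹))
  have l0 : l ≠ 0 := fun e => hl (by simp [e])
  have l1 : ∀ s, some s ∈ S → 1 + l * s ≠ 0 := fun s hs e => by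
    have : s ≠ 0 := by rintro rfl; simp at e
    refine hl (Finset.mem_insert_of_mem (Finset.mem_image.2 ⟨some s, by simpa using hs, ?_⟩))
    simp only [Option.getD_some]; field_simp; linarith
  let key : Option ℝ → ℝ := fun s => s.elim l⁻¹ fun s => s / (1 + l * s)
  obtain ⟨T, hT, cT⟩ := Infinite.exists_superset_card_eq (fin.toFinset.image key) k
    (Finset.card_image_le.trans (by rwa [← Set.ncard_eq_toFinset_card _ fin]))
  let σ : ℤ → ℝ := fun τ => if h : τ.toNat < k then T.orderEmbOfFin cT ⟨τ.toNat, h⟩ else 0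
  have hd := mkD_ds hk l (σ := σ) fun a b h0 h1 h2 => by
    simp only [σ, dif_pos (show a.toNat < k by omega), dif_pos (show b.toNat < k by omega)]
    exact (T.orderEmbOfFin cT).strictMono (by simp only [Fin.mk_lt_mk]; omega)
  refine ⟨_, x, hd, fun a b _ _ e => hx e, fun a b z _ _ _ => hs a b z, fun a b _ _ hab => ?_⟩
  have m : slopeOf (x a) (x b) ∈ S := ⟨a, b, hab, rfl⟩
  have : key (slopeOf (x a) (x b)) ∈ Set.range (T.orderEmbOfFin cT) := by
    rw [Finset.range_orderEmbOfFin]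
    exact hT (Finset.mem_image_of_mem _ (by simpa using m))
  obtain ⟨i, hi⟩ := this
  have e : mkD k l σ i = (1 - l * key (slopeOf (x a) (x b)), key (slopeOf (x a) (x b))) := by
    rw [mkD_eq (by omega) (by omega)]; simp [σ, hi]
  have : ∃ c : ℝ, x b - x a = c • mkD k l σ i := by
    rw [e]
    by_cases c : (x a).1 = (x b).1
    · refine ⟨((x b).2 - (x a).2) * l, ?_⟩
      ext <;> simp [slopeOf, c, key] <;> field_simp <;> simp
    · have := l1 _ (by simpa [slopeOf, c] using m)
      have c' := sub_ne_zero.2 (Ne.symm c)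
      refine ⟨((x b).1 - (x a).1) * (1 + l * (((x b).2 - (x a).2) / ((x b).1 - (x a).1))), ?_⟩
      simp only [slopeOf, c, key, if_false, Option.elim]
      generalize hs : ((x b).2 - (x a).2) / ((x b).1 - (x a).1) = s at this ⊢
      have : (x b).2 - (x a).2 = ((x b).1 - (x a).1) * s := by rw [← hs]; field_simp
      ext <;> simp <;> field_simp <;> simp [this]
  obtain ⟨c, hc⟩ := this
  rcases lt_trichotomy c 0 with h | rfl | h
  · exact ⟨i + k, -c, by linarith, by rw [hd.neg, hc]; simp⟩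
  · exact (hab.ne (hx (by simpa [sub_eq_zero, eq_comm] using hc))).elim
  · exact ⟨i, c, h, hc⟩

theorem slope_par {p q v : P} {t : ℝ} (ht : t ≠ 0) (e : q - p = t • v) :
    slopeOf p q = slopeOf 0 v := by
  have e1 : q.1 - p.1 = t * v.1 := congrArg Prod.fst e
  have e2 : q.2 - p.2 = t * v.2 := congrArg Prod.snd e
  unfold slopeOf
  by_cases c : v.1 = 0
  · rw [if_pos (by rw [c] at e1; linarith), if_pos (by simp [c])]
  · rw [if_neg (fun h => mul_ne_zero ht c (by linarith)), if_neg (by simpa using Ne.symm c), e1, e2]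
    simp; field_simp

theorem le_of_dr {V : Type} {G : SimpleGraph V} {k : ℕ} (hk : 2 ≤ k) {d x} (hd : DS k d)
    (h : Dr (fun _ => True) G.Adj d x) : SlopeLE G k := by
  classical
  refine ⟨x, fun a b => h.inj a b trivial trivial, fun a b z => h.seg a b z trivial trivial trivial, ?_⟩
  refine (Set.ncard_le_ncard (t := ((Finset.Ico (0 : ℤ) k).image fun τ => slopeOf 0 (d τ) : Finset _))
    ?_ (Finset.finite_toSet _)).trans ?_
  · rintro _ ⟨a, b, hab, rfl⟩
    obtain ⟨τ, hτ⟩ := h.ray a b trivial trivial hab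
    obtain ⟨τ, t0, t1, t, ht, e⟩ := hτ.norm hd hk 0
    simp only [Finset.coe_image, Finset.coe_Ico, Set.mem_image, Set.mem_Ico]
    by_cases c : τ < k
    · exact ⟨τ, ⟨t0, c⟩, (slope_par ht.ne' e).symm⟩
    · exact ⟨τ - k, ⟨by omega, by omega⟩, (slope_par (t := -t) (by linarith) (by rw [hd.neg', e]; simp)).symm⟩
  · rw [Set.ncard_coe_finset]
    exact Finset.card_image_le.trans (by simp)

theorem ev_lin {A B : ℝ} (h : A ≠ 0 ∨ B ≠ 0) : ∀ᶠ t in 𝓝[>] (0 : ℝ), A + t * B ≠ 0 := by
  by_cases hA : A = 0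
  · filter_upwards [self_mem_nhdsWithin] with t ht
    simpa [hA, h.resolve_left (by simp [hA])] using (show 0 < t from ht).ne'
  · exact nhdsWithin_le_nhds ((show Continuous fun t : ℝ => A + t * B by fun_prop).continuousAt.eventually_ne
      (by simpa using hA))

theorem ev_pos {A B : ℝ} (h : 0 < A) : ∀ᶠ t in 𝓝[>] (0 : ℝ), 0 < A + t * B :=
  nhdsWithin_le_nhds ((show Continuous fun t : ℝ => A + t * B by fun_prop).continuousAt.eventually
    (lt_mem_nhds (by simpa using h)))

def Lin {E : Type} [AddCommGroup E] [Module ℝ E] (f : E → ℝ) : Prop :=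
  ∀ x y (t : ℝ), f (x + t • y) = f x + t * f y

theorem dense {E ι κ : Type} [AddCommGroup E] [Module ℝ E] [Finite ι] [Finite κ] (φ : ι → E → ℝ)
    (ψ : κ → E → ℝ) (p : ι → Prop) (q : κ → Prop) (h1 : ∀ i, Lin (φ i)) (h2 : ∀ j, Lin (ψ j))
    (h3 : ∀ i, p i → ∃ y, φ i y ≠ 0) (x : E) (h4 : ∀ j, q j → 0 < ψ j x) :
    ∃ x, (∀ i, p i → φ i x ≠ 0) ∧ ∀ j, q j → 0 < ψ j x := by
  classical
  have : ∀ s : Finset ι, ∃ x, (∀ i ∈ s, p i → φ i x ≠ 0) ∧ ∀ j, q j → 0 < ψ j x := fun s => by
    induction s using Finset.induction_on with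
    | empty => exact ⟨x, by simp, h4⟩
    | insert i s _ ih =>
      obtain ⟨x, a, b⟩ := ih
      by_cases c : p i
      swap
      · exact ⟨x, fun i' hi => by
          rcases Finset.mem_insert.1 hi with rfl | hi
          exacts [fun h => absurd h c, a i' hi], b⟩
      obtain ⟨y, hy⟩ := h3 i c
      have e1 : ∀ i', ∀ᶠ t in 𝓝[>] (0 : ℝ), i' ∈ insert i s → p i' → φ i' (x + t • y) ≠ 0 := fun i' => by
        by_cases c : i' ∈ insert i s ∧ p i'
        · refine (ev_lin (A := φ i' x) (B := φ i' y) ?_).mono fun t h _ _ => by rwa [h1]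
          rcases Finset.mem_insert.1 c.1 with rfl | hi
          exacts [.inr hy, .inl (a i' hi c.2)]
        · exact .of_forall fun _ a b => absurd ⟨a, b⟩ c
      have e2 : ∀ j, ∀ᶠ t in 𝓝[>] (0 : ℝ), q j → 0 < ψ j (x + t • y) := fun j => by
        by_cases c : q j
        · exact (ev_pos (B := ψ j y) (b j c)).mono fun t h _ => by rwa [h2]
        · exact .of_forall fun _ a => absurd a c
      obtain ⟨t, a, b⟩ := ((eventually_all.2 e1).and (eventually_all.2 e2)).exists
      exact ⟨_, a, b⟩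
  have := Fintype.ofFinite ι
  obtain ⟨x, a, b⟩ := ‹∀ s : Finset ι, _› Finset.univ
  exact ⟨x, fun i => a i (Finset.mem_univ _), b⟩

theorem ev_seg {a b z : P} (h : z ∉ segment ℝ a b) (a' b' z' : P) :
    ∀ᶠ t in 𝓝[>] (0 : ℝ), z + t • z' ∉ segment ℝ (a + t • a') (b + t • b') := by
  have cl : IsClosed (segment ℝ a b) := by
    rw [segment_eq_image]
    exact (isCompact_Icc.image (by fun_prop)).isClosed
  obtain ⟨f, u, h1, h2⟩ := geometric_hahn_banach_point_closed (convex_segment a b) cl h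
  filter_upwards [ev_pos (B := -f z') (sub_pos.2 h1),
    ev_pos (B := f a') (sub_pos.2 (h2 a (left_mem_segment _ _ _))),
    ev_pos (B := f b') (sub_pos.2 (h2 b (right_mem_segment _ _ _)))] with t k1 k2 k3
  rintro ⟨r, s, r0, s0, e, e'⟩
  have := congrArg f e'
  simp only [map_add, map_smul, smul_eq_mul] at this
  obtain rfl : r = 1 - s := by linarith
  nlinarith

variable {C : Type} {ok : C → Prop} {A : C → C → Prop} {D : C → C → P}

/-- a drawing in which clusters of vertices may still coincide -/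
structure Good (ok : C → Prop) (A : C → C → Prop) (D : C → C → P) (x : C → P) : Prop where
  par : ∀ a b, ok a → ok b → A a b → ∃ t : ℝ, 0 ≤ t ∧ x b - x a = t • D a b
  seg : ∀ a b z, ok a → ok b → ok z → A a b → x z ≠ x a → x z ≠ x b → x z ∉ segment ℝ (x a) (x b)

theorem Good.step (fin : {a | ok a}.Finite) (sym : ∀ a b, A a b → A b a) (D0 : ∀ a b, D a b ≠ 0)
    {x y : C → P} (h : Good ok A D x)
    (y1 : ∀ a b, ok a → ok b → A a b → ∃ t : ℝ, (x a = x b → 0 ≤ t) ∧ y b - y a = t • D a b)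
    (y2 : ∀ a b z, ok a → ok b → ok z → A a b → x z = x a → x a = x b → y z ≠ y a → y z ≠ y b →
      y z ∉ segment ℝ (y a) (y b))
    (y3 : ∀ a b z, ok a → ok b → ok z → A a b → x z = x a → x a ≠ x b →
      ∀ t : ℝ, 0 < t → y z - y a ≠ t • D a b) :
    ∃ ε : ℝ, Good ok A D (x + ε • y) ∧
      ∀ a b, ok a → ok b → (x + ε • y) a = (x + ε • y) b → x a = x b ∧ y a = y b := by
  have e1 : ∀ a, ok a → ∀ b, ok b → ∀ᶠ ε in 𝓝[>] (0 : ℝ), A a b →
      ∃ t : ℝ, 0 ≤ t ∧ (x + ε • y) b - (x + ε • y) a = t • D a b := fun a ha b hb => by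
    by_cases c : A a b
    swap
    · exact .of_forall fun _ h => absurd h c
    obtain ⟨t, t0, e⟩ := h.par a b ha hb c
    obtain ⟨s, s0, e'⟩ := y1 a b ha hb c
    have k : ∀ ε : ℝ, (x + ε • y) b - (x + ε • y) a = (t + ε * s) • D a b := fun ε => by
      rw [add_smul, mul_smul, ← e, ← e']; simp only [Pi.add_apply, Pi.smul_apply, smul_sub]; abel
    rcases t0.eq_or_lt with rfl | t0
    · have := s0 (by simpa [sub_eq_zero, eq_comm] using e)
      filter_upwards [self_mem_nhdsWithin] with ε hε _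
      exact ⟨_, by have : 0 < ε := hε; positivity, k ε⟩
    · exact (ev_pos (B := s) t0).mono fun ε h _ => ⟨_, h.le, k ε⟩
  have e2 : ∀ a, ok a → ∀ b, ok b → ∀ᶠ ε in 𝓝[>] (0 : ℝ),
      (x + ε • y) a = (x + ε • y) b → x a = x b ∧ y a = y b := fun a ha b hb => by
    by_cases c : x a = x b
    · filter_upwards [self_mem_nhdsWithin] with ε hε e
      simp only [Pi.add_apply, Pi.smul_apply, c, add_right_inj] at e
      exact ⟨c, smul_right_injective _ (show 0 < ε from hε).ne' e⟩
    · refine (ev_seg (a := x b) (b := x b) (z := x a) (by simpa using c) (y b) (y b) (y a)).mono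
        fun ε h e => (h ?_).elim
      simpa using e
  have e3 : ∀ a, ok a → ∀ b, ok b → ∀ z, ok z → ∀ᶠ ε in 𝓝[>] (0 : ℝ), A a b → x z ≠ x a → x z ≠ x b →
      (x + ε • y) z ∉ segment ℝ ((x + ε • y) a) ((x + ε • y) b) := fun a ha b hb z hz => by
    by_cases c : A a b ∧ x z ≠ x a ∧ x z ≠ x b
    · exact (ev_seg (h.seg a b z ha hb hz c.1 c.2.1 c.2.2) _ _ _).mono fun ε h _ _ _ => h
    · exact .of_forall fun _ a b c' => absurd ⟨a, b, c'⟩ c
  obtain ⟨ε, ⟨⟨k1, k2⟩, k3⟩, hε⟩ := (((((eventually_all_finite fin).2 fun a ha =>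
    (eventually_all_finite fin).2 (e1 a ha)).and ((eventually_all_finite fin).2 fun a ha =>
    (eventually_all_finite fin).2 (e2 a ha))).and ((eventually_all_finite fin).2 fun a ha =>
    (eventually_all_finite fin).2 fun b hb => (eventually_all_finite fin).2 (e3 a ha b hb))).and
    self_mem_nhdsWithin).exists
  replace hε : 0 < ε := hε
  have key : ∀ a b z, ok a → ok b → ok z → A a b → x z = x a → (x + ε • y) z ≠ (x + ε • y) a →
      (x + ε • y) z ≠ (x + ε • y) b → (x + ε • y) z ∉ segment ℝ ((x + ε • y) a) ((x + ε • y) b) := by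
    intro a b z ha hb hz hab c n1 n2 m
    by_cases c' : x a = x b
    · refine y2 a b z ha hb hz hab c c' (fun e => n1 (by simp [c, e])) (fun e => n2 (by simp [c, c', e])) ?_
      obtain ⟨r, s, r0, s0, e, e'⟩ := m
      refine ⟨r, s, r0, s0, e, smul_right_injective _ hε.ne' ?_⟩
      obtain rfl : r = 1 - s := by linarith
      simp only [Pi.add_apply, Pi.smul_apply, c, ← c'] at e'
      dsimp only
      linear_combination (norm := module) e'
    · obtain ⟨t, t0, e⟩ := k1 a ha b hb hab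
      rw [segment_eq_image'] at m
      obtain ⟨s, ⟨s0, -⟩, e'⟩ := m
      dsimp only at e'
      rw [e, smul_smul] at e'
      rcases (mul_nonneg s0 t0).eq_or_lt with h0 | h0
      · exact n1 (by rw [← e', ← h0]; simp)
      · refine y3 a b z ha hb hz hab c c' (s * t / ε) (by positivity) (smul_right_injective _ hε.ne' ?_)
        dsimp only
        rw [smul_smul, mul_div_cancel₀ _ hε.ne']
        simp only [Pi.add_apply, Pi.smul_apply, c] at e'
        linear_combination (norm := module) -e'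
  refine ⟨ε, ⟨fun a b ha hb => k1 a ha b hb, fun a b z ha hb hz hab n1 n2 => ?_⟩,
    fun a b ha hb => k2 a ha b hb⟩
  by_cases c1 : x z = x a
  · exact key a b z ha hb hz hab c1 n1 n2
  by_cases c2 : x z = x b
  · rw [segment_symm]; exact key b a z hb ha hz (sym _ _ hab) c2 n2 n1
  · exact k3 a ha b hb z hz hab c1 c2

theorem Good.dr {d : ℤ → P} {x : C → P} (h : Good ok A D x) (irr : ∀ a, ¬A a a)
    (hD : ∀ a b, ∃ τ, D a b = d τ) (inj : ∀ a b, ok a → ok b → x a = x b → a = b) : Dr ok A d x := by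
  have ne : ∀ a b, ok a → ok b → A a b → x a ≠ x b := fun a b ha hb hab e =>
    irr a (by rwa [← inj a b ha hb e] at hab)
  refine ⟨inj, fun a b z ha hb hz hab m => ?_, fun a b ha hb hab => ?_⟩
  · refine h.seg a b z ha hb hz hab (fun e => ?_) (fun e => ?_) (openSegment_subset_segment _ _ _ m)
    · exact ne a b ha hb hab (left_mem_openSegment_iff.1 (e ▸ m))
    · exact ne a b ha hb hab (right_mem_openSegment_iff.1 (e ▸ m))
  · obtain ⟨t, t0, e⟩ := h.par a b ha hb hab
    obtain ⟨τ, hτ⟩ := hD a b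
    refine ⟨τ, t, t0.lt_of_ne ?_, hτ ▸ e⟩
    rintro rfl
    exact ne a b ha hb hab (by simpa [sub_eq_zero, eq_comm] using e)

end Pool.Agent.H36.Slp
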