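import Pool.Agent.H36.Slp2
import Pool.Agent.Lead.SR.Conf4

/-!
The graph of the reduction and its soundness.
-/

namespace Pool.Agent.H36.Slp

open Pool.Agent.Lead.SR (LP ent sg Weak Strong)

abbrev C := ℕ × ℕ × ℕ × ℕ

def sd (E : LP) (i j : ℕ) : ℕ := if ent E i j then 1 else 2

def R (E : LP) (T : ℕ) (a b : C) : Prop :=
  (a.1 = b.1 ∧ a.2.1 = b.2.1 ∧ a.2.2.1 = b.2.2.1 ∧ 1 ≤ a.2.2.1 ∧ a.2.2.2 ≤ 1 ∧ a.2.2.2 < b.2.2.2) ∨
  (a.1 = b.1 ∧ a.2.1 = 0 ∧ b.2.1 = 0 ∧ a.2.2.1 = 2 ∧ b.2.2.1 = 1 ∧ a.2.2.2 = 0 ∧ b.2.2.2 = 0) ∨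
  (a.1 = b.1 ∧ b.2.1 = a.2.1 + 1 ∧ a.2.2.1 = b.2.2.1 ∧ 1 ≤ a.2.2.1 ∧ a.2.2.1 ≤ 2 ∧ a.2.2.2 = 1 ∧
    b.2.2.2 = 0) ∨
  (a.1 = b.1 ∧ a.2.1 = b.2.1 ∧ a.2.2.1 = sd E a.2.1 a.1 ∧ b.2.2.1 = 3 ∧ a.2.2.2 = 1 ∧ b.2.2.2 = 0) ∨
  (a.1 = b.1 ∧ a.2.1 = b.2.1 ∧ 3 ≤ a.2.2.1 ∧ b.2.2.1 = a.2.2.1 + 1 ∧ a.2.2.2 = 1 ∧ b.2.2.2 = 0) ∨
  (a.2.1 = b.2.1 ∧ a.2.2.1 = T + 2 ∧ a.2.2.2 = 1 ∧ b.1 = 0 ∧ b.2.2.1 = 0 ∧ b.2.2.2 = 0)

def Ad (E : LP) (T : ℕ) (a b : C) : Prop := R E T a b ∨ R E T b a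

def kk (m T : ℕ) : ℕ := 4 * (T + m + 1)

def Ok (m n T : ℕ) (a : C) : Prop := a.2.1 < m ∧ (a.2.2.1 = 0 → a.1 = 0 ∧ a.2.2.2 = 0) ∧
  (a.2.2.1 ≠ 0 → a.1 < n ∧ a.2.2.1 < T + 3 ∧ a.2.2.2 < 2 * kk m T - 2)

theorem sd_cases (E i j) : sd E i j = 1 ∨ sd E i j = 2 := by unfold sd; split_ifs <;> simp

variable {m n T : ℕ} {E : LP} {d : ℤ → P} {X : C → P}

theorem k2 (m T) : 4 ≤ kk m T := by unfold kk; omega

theorem ok_e {j i t e e'} (h : Ok m n T (j, i, t, e)) (ht : 1 ≤ t) (he : e' < 2 * kk m T - 2) :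
    Ok m n T (j, i, t, e') := by
  unfold Ok at *; simp only at *; omega

theorem thru (hd : DS (kk m T) d) (h : Dr (Ok m n T) (Ad E T) d X) {j i t w w' τ}
    (ha : Ok m n T (j, i, t, 0)) (ht : 1 ≤ t) (hw : Ok m n T w) (hw' : Ok m n T w')
    (a1 : Ad E T (j, i, t, 0) w) (a2 : Ad E T (j, i, t, 1) w') (n1 : ∀ e, w ≠ (j, i, t, e))
    (n2 : ∀ e, w' ≠ (j, i, t, e)) (r : Ray d (X (j, i, t, 0) - X w) τ) :
    ∃ l σ, τ - 1 ≤ l ∧ l ≤ τ + 1 ∧ τ - 2 ≤ σ ∧ σ ≤ τ + 2 ∧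
      Ray d (X (j, i, t, 1) - X (j, i, t, 0)) l ∧ Ray d (X w' - X (j, i, t, 1)) σ := by
  have k := k2 m T
  have hb : Ok m n T (j, i, t, 1) := ok_e ha ht (by omega)
  let L : Finset C := (Finset.Ico 2 (2 * kk m T - 2)).image fun e => (j, i, t, e)
  have hL : 2 * kk m T - 4 ≤ L.card := by
    rw [Finset.card_image_of_injective _ fun a b e => by simpa using e]; simp; omega
  have hx : ∀ x ∈ L, Ok m n T x ∧ Ad E T (j, i, t, 0) x ∧ Ad E T (j, i, t, 1) x ∧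
      x ≠ (j, i, t, 0) ∧ x ≠ (j, i, t, 1) := fun x hx => by
    obtain ⟨e, he, rfl⟩ := Finset.mem_image.1 hx
    rw [Finset.mem_Ico] at he
    refine ⟨ok_e ha ht he.2, .inl (.inl ?_), .inl (.inl ?_), ?_, ?_⟩ <;> simp <;> omega
  have nL : ∀ w : C, (∀ e, w ≠ (j, i, t, e)) → w ∉ L := fun w h hw => by
    obtain ⟨e, -, rfl⟩ := Finset.mem_image.1 hw
    exact h e rfl
  have ab : R E T (j, i, t, 0) (j, i, t, 1) := .inl (by simp; omega)
  obtain ⟨l, l1, l2, hl⟩ := h.turn' hd (by omega) ha hb hw (.inl ab) a1 L hL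
    (fun x m => ⟨(hx x m).1, (hx x m).2.1, (hx x m).2.2.1, (hx x m).2.2.2.2⟩) (n1 1) (nL w n1) r
  have := hl.neg' hd
  rw [neg_sub] at this
  obtain ⟨σ, s1, s2, hs⟩ := h.turn hd (by omega) hb ha hw' (.inr ab) a2 L hL
    (fun x m => ⟨(hx x m).1, (hx x m).2.2.1, (hx x m).2.1, (hx x m).2.2.2.1⟩) (n2 0) (nL w' n2) this
  have := hs.neg hd
  rw [neg_sub] at this
  exact ⟨l, _, l1, l2, by omega, by omega, hl, this⟩

def Inv (m n T : ℕ) (E : LP) (d : ℤ → P) (X : C → P) (β : ℤ) (O : P) (c : C) (r : ℕ) : Prop :=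
  (∃ w τ, Ok m n T w ∧ Ad E T c w ∧ (∀ e, w ≠ (c.1, c.2.1, c.2.2.1, e)) ∧ β - r ≤ τ ∧ τ ≤ β + r ∧
    Ray d (X c - X w) τ) ∧ 0 < cr (d (β - (2 * m + 2 * T) - 1)) ((2 : ℝ) • X c - O)

theorem ray_pos (hd : DS (kk m T) d) {β τ : ℤ} {u} (r : Ray d u τ) (h1 : β - (2 * m + 2 * T) ≤ τ)
    (h2 : τ ≤ β + (2 * m + 2 * T)) : 0 < cr (d (β - (2 * m + 2 * T) - 1)) u := by
  obtain ⟨t, ht, rfl⟩ := r
  rw [cr_smul_r]
  exact mul_pos ht (hd.pos _ _ (by omega) (by unfold kk; omega))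

theorem Inv.adv (hd : DS (kk m T) d) (h : Dr (Ok m n T) (Ad E T) d X) {β O j i t r w'}
    (I : Inv m n T E d X β O (j, i, t, 0) r) (ha : Ok m n T (j, i, t, 0)) (ht : 1 ≤ t)
    (hw' : Ok m n T w') (a2 : R E T (j, i, t, 1) w') (n2 : ∀ e, w' ≠ (j, i, t, e))
    (hr : r + 2 ≤ 2 * m + 2 * T) : Inv m n T E d X β O w' (r + 2) := by
  obtain ⟨⟨w, τ, hw, a1, n1, t1, t2, hτ⟩, p⟩ := I
  obtain ⟨l, σ, l1, l2, s1, s2, hl, hs⟩ := thru hd h ha ht hw hw' a1 (.inl a2) n1 n2 hτ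
  refine ⟨⟨(j, i, t, 1), σ, ok_e ha ht (by have := k2 m T; omega), .inr a2, fun e h => ?_,
    by omega, by omega, hs⟩, ?_⟩
  · simp only [Prod.mk.injEq] at h
    exact n2 w'.2.2.2 (by rw [h.1, h.2.1, h.2.2.1])
  · have k1 := ray_pos hd (β := β) hl (by omega) (by omega)
    have k2 := ray_pos hd (β := β) hs (by omega) (by omega)
    simp only [cr_sub_r, cr_smul_r] at *
    linarith

theorem reach (hd : DS (kk m T) d) (h : Dr (Ok m n T) (Ad E T) d X) (hT : m ≤ T) {β O j i}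
    (hi : i < m) (hj : j < n) (I : Inv m n T E d X β O (j, 0, sd E i j, 0) 0) :
    0 < cr (d (β - (2 * m + 2 * T) - 1)) ((2 : ℝ) • X (0, i, 0, 0) - O) := by
  have k := k2 m T
  have hs := sd_cases E i j
  have s1 : ∀ r < m, Inv m n T E d X β O (j, r, sd E i j, 0) (2 * r) := fun r => by
    induction r with
    | zero => exact fun _ => I
    | succ r ih =>
      intro hr
      refine (ih (by omega)).adv hd h ?_ (by omega) ?_ (.inr (.inr (.inl ?_))) (by simp) (by omega)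
      · unfold Ok; simp only; omega
      · unfold Ok; simp only; omega
      · simp; omega
  have s2 : ∀ r < T, Inv m n T E d X β O (j, i, r + 3, 0) (2 * i + 2 * r + 2) := fun r => by
    induction r with
    | zero =>
      intro _
      refine (s1 i hi).adv hd h ?_ (by omega) ?_ (.inr (.inr (.inr (.inl ?_)))) ?_ (by omega)
      · unfold Ok; simp only; omega
      · unfold Ok; simp only; omega
      · simp
      · simp; omega
    | succ r ih =>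
      intro hr
      refine (ih (by omega)).adv hd h ?_ (by omega) ?_ (.inr (.inr (.inr (.inr (.inl ?_))))) (by simp)
        (by omega)
      · unfold Ok; simp only; omega
      · unfold Ok; simp only; omega
      · simp
  refine ((s2 (T - 1) (by omega)).adv hd h ?_ (by omega) ?_ (.inr (.inr (.inr (.inr (.inr ?_)))))
    (by simp) (by omega)).2
  · unfold Ok; simp only; omega
  · exact ⟨hi, by simp, by simp⟩
  · simp; omega

theorem sound (hd : DS (kk m T) d) (h : Dr (Ok m n T) (Ad E T) d X) (hT : m ≤ T) :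
    Weak 3 (m, n, E) := by
  have k := k2 m T
  have : ∀ j, ∃ v : Fin 3 → ℝ, ∀ i < m, j < n →
      0 < sg (ent E i j) * (![(X (0, i, 0, 0)).1, (X (0, i, 0, 0)).2, 1] ⬝ᵥ v) := fun j => by
    by_cases c : 0 < m ∧ j < n
    swap
    · exact ⟨0, fun i hi hj => absurd ⟨by omega, hj⟩ c⟩
    have o1 : Ok m n T (j, 0, 1, 0) := by unfold Ok; simp only; omega
    have o2 : Ok m n T (j, 0, 2, 0) := by unfold Ok; simp only; omega
    have r : R E T (j, 0, 2, 0) (j, 0, 1, 0) := .inr (.inl (by simp))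
    obtain ⟨δ, hδ⟩ := h.ray _ _ o2 o1 (.inl r)
    have hδ' := hδ.neg' hd
    rw [neg_sub] at hδ'
    let u := d (δ - (2 * m + 2 * T) - 1)
    let O := X (j, 0, 1, 0) + X (j, 0, 2, 0)
    refine ⟨![-2 * u.2, 2 * u.1, -cr u O], fun i hi hj => ?_⟩
    have e : ![(X (0, i, 0, 0)).1, (X (0, i, 0, 0)).2, 1] ⬝ᵥ ![-2 * u.2, 2 * u.1, -cr u O] =
        cr u ((2 : ℝ) • X (0, i, 0, 0) - O) := by
      simp [dotProduct, Fin.sum_univ_three, cr]; ring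
    rw [e]
    cases c : ent E i j
    · have := reach hd h hT hi hj (β := δ + kk m T) (O := O) (by
        rw [show sd E i j = 2 by simp [sd, c]]
        refine ⟨⟨_, _, o1, .inl r, by simp, by simp, by simp, hδ'⟩, ?_⟩
        have := ray_pos hd (β := δ + kk m T) hδ' (by omega) (by omega)
        simp only [O, cr_sub_r, cr_smul_r, cr_add_r] at *
        linarith)
      rw [show δ + kk m T - (2 * m + 2 * T) - 1 = δ - (2 * m + 2 * T) - 1 + kk m T by ring, hd.neg] at this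
      simpa [sg] using this
    · have := reach hd h hT hi hj (β := δ) (O := O) (by
        rw [show sd E i j = 1 by simp [sd, c]]
        refine ⟨⟨_, _, o2, .inr r, by simp, by simp, by simp, hδ⟩, ?_⟩
        have := ray_pos hd (β := δ) hδ (by omega) (by omega)
        simp only [O, cr_sub_r, cr_smul_r, cr_add_r] at *
        linarith)
      simpa [sg] using this
  choose v hv using this
  exact ⟨_, v, fun i hi j hj => hv j i hi hj⟩

end Pool.Agent.H36.Slp
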