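import Pool.Agent.H36.Slp3

/-!
Placements of the graph of the reduction.
-/

namespace Pool.Agent.H36.Slp

open Pool.Agent.Lead.SR (LP)
open Finset

noncomputable def meet (u α v φ : P) : P := u + (cr (v - u) φ / cr α φ) • α

theorem meet_l (u α v φ : P) : meet u α v φ - u = (cr (v - u) φ / cr α φ) • α := by simp [meet]

theorem meet_r {α φ : P} (h : cr α φ ≠ 0) (u v : P) :
    v - meet u α v φ = (cr α (v - u) / cr α φ) • φ := by
  ext <;> simp only [meet, Prod.fst_sub, Prod.snd_sub, Prod.fst_add, Prod.snd_add, Prod.smul_fst,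
    Prod.smul_snd, smul_eq_mul] <;> field_simp <;> simp [cr] <;> ring

def mt (a : C) : ℕ × ℕ × ℕ :=
  if a.2.2.1 = 0 then (0, a.2.1, 0) else if a.2.2.1 ≤ 2 then (a.1, 0, 1) else (a.1, a.2.1, 2)

noncomputable def X0 (α φ : ℕ → ℕ → P) (x : (ℕ → P) × (ℕ → P)) (a : C) : P :=
  if a.2.2.1 = 0 then x.2 a.2.1 else if a.2.2.1 ≤ 2 then x.1 a.1 else
    meet (x.1 a.1) (α a.2.1 a.1) (x.2 a.2.1) (φ a.2.1 a.1)

theorem X0_lin (α φ x y) (t : ℝ) (a) : X0 α φ (x + t • y) a = X0 α φ x a + t • X0 α φ y a := by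
  unfold X0
  split_ifs
  · rfl
  · rfl
  · ext <;> simp [meet, cr] <;> ring

theorem level0 {m n T : ℕ} (fin : {a | Ok m n T a}.Finite) (α φ : ℕ → ℕ → P)
    (h1 : ∀ i < m, ∀ j ≤ n, cr (α i j) (φ i j) ≠ 0)
    (h2 : ∀ i < m, ∀ i' < m, ∀ j ≤ n, i ≠ i' → cr (α i j) (α i' j) ≠ 0)
    (h3 : ∀ i < m, ∀ j ≤ n, ∀ j' ≤ n, j ≠ j' → cr (φ i j) (φ i j') ≠ 0) (x : (ℕ → P) × (ℕ → P))
    (hx : ∀ i < m, ∀ j < n, 0 < cr (x.2 i - x.1 j) (φ i j) / cr (α i j) (φ i j) ∧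
      0 < cr (α i j) (x.2 i - x.1 j) / cr (α i j) (φ i j)) :
    ∃ x : (ℕ → P) × (ℕ → P), (∀ i < m, ∀ j < n, 0 < cr (x.2 i - x.1 j) (φ i j) / cr (α i j) (φ i j) ∧
      0 < cr (α i j) (x.2 i - x.1 j) / cr (α i j) (φ i j)) ∧
      ∀ i < m, ∀ j ≤ n, ∀ a, Ok m n T a → mt a ≠ (j, i, 2) →
        (mt a ≠ (j, 0, 1) → cr (α i j) (X0 α φ x a - x.1 j) ≠ 0) ∧
        (mt a ≠ (0, i, 0) → cr (φ i j) (X0 α φ x a - x.2 i) ≠ 0) := by
  have := fin.to_subtype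
  refine (dense (ι := Fin m × Fin (n + 1) × {a | Ok m n T a} × Bool)
    (κ := Fin m × Fin n × Bool)
    (fun u x => cond u.2.2.2 (cr (α u.1 u.2.1) (X0 α φ x u.2.2.1 - x.1 u.2.1))
      (cr (φ u.1 u.2.1) (X0 α φ x u.2.2.1 - x.2 u.1)))
    (fun u x => cond u.2.2 (cr (x.2 u.1 - x.1 u.2.1) (φ u.1 u.2.1) / cr (α u.1 u.2.1) (φ u.1 u.2.1))
      (cr (α u.1 u.2.1) (x.2 u.1 - x.1 u.2.1) / cr (α u.1 u.2.1) (φ u.1 u.2.1)))
    (fun u => mt u.2.2.1 ≠ (u.2.1.val, u.1.val, 2) ∧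
      mt u.2.2.1 ≠ cond u.2.2.2 (u.2.1.val, 0, 1) (0, u.1.val, 0)) (fun _ => True)
    (by rintro ⟨i, j, a, _ | _⟩ x y t <;> simp only [X0_lin, cond] <;> simp [cr] <;> ring)
    (by rintro ⟨i, j, _ | _⟩ x y t <;> simp [cr] <;> ring) ?_ x
    (by rintro ⟨i, j, _ | _⟩ - <;> [exact (hx i i.2 j j.2).2; exact (hx i i.2 j j.2).1])).elim
    fun y ⟨a, b⟩ => ?_
  swap
  · exact ⟨y, fun i hi j hj => ⟨b (⟨i, hi⟩, ⟨j, hj⟩, true) trivial, b (⟨i, hi⟩, ⟨j, hj⟩, false) trivial⟩,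
      fun i hi j hj c hc n1 => ⟨fun n2 => a (⟨i, hi⟩, ⟨j, by omega⟩, ⟨c, hc⟩, true) ⟨n1, n2⟩,
        fun n2 => a (⟨i, hi⟩, ⟨j, by omega⟩, ⟨c, hc⟩, false) ⟨n1, n2⟩⟩⟩
  rintro ⟨⟨i, hi⟩, ⟨j, hj⟩, ⟨⟨j', i', t, e⟩, o1, o2, o3⟩, b⟩ ⟨n1, n2⟩
  have k1 := h1 i hi j (by omega)
  have k2 : cr (φ i j) (α i j) ≠ 0 := by rw [cr_anti]; simpa using k1
  simp only [mt] at n1 n2 o1 o2 o3
  cases b <;> simp only [cond, X0] at n2 ⊢ <;> split_ifs at n1 n2 ⊢ with c1 c2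
  · exact ⟨(0, Pi.single i' (α i j)), by
      simpa [Pi.single_apply, show i ≠ i' by rintro rfl; simp at n2] using k2⟩
  · exact ⟨(fun _ => α i j, 0), by simpa using k2⟩
  · by_cases c : i' = i
    · subst c
      exact ⟨(fun _ => φ i' j', 0), by
        simpa [meet] using h3 i' hi j (by omega) j' (by omega) (by rintro rfl; simp at n1)⟩
    · exact ⟨(fun _ => α i j, Pi.single i' (α i j)), by simpa [meet, Ne.symm c] using k2⟩
  · exact ⟨(0, fun _ => φ i j), by simpa using k1⟩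
  · exact ⟨(Pi.single j' (φ i j), 0), by
      simpa [Pi.single_apply, show j ≠ j' by rintro rfl; simp at n2] using k1⟩
  · by_cases c : j' = j
    · subst c
      exact ⟨(0, fun _ => α i' j'), by
        simpa [meet, h1 i' o1 j' (by omega)] using
          h2 i hi i' o1 j' (by omega) (by rintro rfl; simp at n1)⟩
    · exact ⟨(Pi.single j' (φ i j), fun _ => φ i j), by simpa [meet, Ne.symm c] using k1⟩

structure Q where
  (m n T : ℕ)
  E : LP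
  d : ℤ → P
  c : ℕ → ℤ
  ε : ℕ → ℕ → ℤ

namespace Q
variable (q : Q)

def β (j t : ℕ) : ℤ := q.c j + 2 * (q.T + q.m + 1) + if t = 1 then 0 else 4 * (q.T + q.m + 1)
def al (i j : ℕ) : ℤ := q.β j (sd q.E i j) + 2 * i + 1
def ar (i j : ℕ) (r : ℤ) : ℤ := q.al i j + q.ε i j * r
def lam (j i t : ℕ) : ℤ := if t ≤ 2 then q.β j t + 2 * i + 1 else q.ar i j (2 * (t - 3 : ℕ) + 1)
def rho (e e' : ℕ) : ℤ := if e' ≤ 1 then (if e = 0 then 0 else 4 * (q.T + q.m + 1)) else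
  if e' % 2 = 0 then e' / 2 + e else -(e' / 2 + e)
noncomputable def off (l : ℤ) (e : ℕ) : P := if e = 0 then 0 else if e = 1 then q.d l else
  meet 0 (q.d (l + q.rho 0 e)) (q.d l) (q.d (l + q.rho 1 e))
noncomputable def F (b : ℤ) (s : ℤ) (u : ℕ) : P := ∑ r ∈ range u, q.d (b + s * (2 * r))

variable (x : (ℕ → P) × (ℕ → P)) (l1 l2 : ℝ)

noncomputable def sp (j i t : ℕ) : P :=
  x.1 j + l1 • q.F (q.β j t) 1 (i + 1) + l2 • q.F (q.β j t + 1) 1 i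
noncomputable def ac (i j u : ℕ) : P :=
  l1 • q.F (q.ar i j 2) (q.ε i j) u + l2 • q.F (q.ar i j 1) (q.ε i j) u
noncomputable def tau (i j : ℕ) : P :=
  meet (q.sp x l1 l2 j i (sd q.E i j) + l2 • q.d (q.al i j)) (q.d (q.al i j))
    (x.2 i - q.ac l1 l2 i j (q.T - 1) - l2 • q.d (q.ar i j (2 * (q.T - 1 : ℕ) + 1))) (q.d (q.ar i j (2 * q.T)))
noncomputable def X (a : C) : P :=
  if a.2.2.1 = 0 then x.2 a.2.1 else
    (if a.2.2.1 ≤ 2 then q.sp x l1 l2 a.1 a.2.1 a.2.2.1 else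
      q.tau x l1 l2 a.2.1 a.1 + q.ac l1 l2 a.2.1 a.1 (a.2.2.1 - 3)) +
      l2 • q.off (q.lam a.1 a.2.1 a.2.2.1) a.2.2.2

def fw (a b : C) : ℤ :=
  if a.2.1 = b.2.1 ∧ a.2.2.1 = b.2.2.1 then q.lam a.1 a.2.1 a.2.2.1 + q.rho a.2.2.2 b.2.2.2 else
  if a.2.2.2 = 0 then q.β a.1 1 else if a.2.2.1 ≤ 2 then
    q.lam a.1 a.2.1 a.2.2.1 + (if b.2.2.1 = 3 then 0 else 1) else
    q.lam a.1 a.2.1 a.2.2.1 + q.ε a.2.1 a.1

theorem X_zero (a : C) : q.X x 0 0 a =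
    X0 (fun i j => q.d (q.al i j)) (fun i j => q.d (q.ar i j (2 * q.T))) x a := by
  simp [X, X0, sp, ac, tau]

structure W : Prop where
  ds : DS (kk q.m q.T) q.d
  ε : ∀ i j, q.ε i j = 1 ∨ q.ε i j = -1
  T : q.m ≤ q.T

variable {q}

theorem F_succ (b s u) : q.F b s (u + 1) = q.F b s u + q.d (b + s * (2 * u)) := by
  simp [F, sum_range_succ]

theorem W.ne (w : q.W) (i j) : cr (q.d (q.al i j)) (q.d (q.ar i j (2 * q.T))) ≠ 0 ∨ q.T = 0 := by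
  by_cases c : q.T = 0
  · exact .inr c
  · refine .inl (w.ds.cr_ne ?_ ?_ ?_) <;> rcases w.ε i j with e | e <;> simp only [ar, e, kk] <;> omega

theorem W.ray (w : q.W) (l : ℤ) {e e' : ℕ} (h : e ≤ 1) (h1 : e' ≠ e) (h2 : e' < 2 * kk q.m q.T - 2) :
    Ray q.d (q.off l e' - q.off l e) (l + q.rho e e') := by
  have hd := w.ds
  by_cases c : e' ≤ 1
  · obtain rfl | rfl : e = 0 ∨ e = 1 := by omega
    · obtain rfl : e' = 1 := by omega
      exact ⟨1, one_pos, by simp [off, rho]⟩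
    · obtain rfl : e' = 0 := by omega
      exact ⟨1, one_pos, by simpa [off, rho, kk] using (hd.neg l).symm⟩
  have k : 0 < cr (q.d l) (q.d (l + q.rho 1 e')) / cr (q.d (l + q.rho 0 e')) (q.d (l + q.rho 1 e')) ∧
      0 < -(cr (q.d (l + q.rho 0 e')) (q.d l) / cr (q.d (l + q.rho 0 e')) (q.d (l + q.rho 1 e'))) ∧
      cr (q.d (l + q.rho 0 e')) (q.d (l + q.rho 1 e')) ≠ 0 := by
    simp only [rho, if_neg c]
    split_ifs
    · have a := hd.pos l (l + (e' / 2 + (1 : ℕ))) (by omega) (by omega)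
      have b := hd.pos (l + (e' / 2 + (0 : ℕ))) (l + (e' / 2 + (1 : ℕ))) (by omega) (by omega)
      have c := hd.ngt (a := l + (e' / 2 + (0 : ℕ))) (b := l) (by omega) (by omega)
      exact ⟨div_pos a b, neg_pos.2 (div_neg_of_neg_of_pos c b), b.ne'⟩
    · have a := hd.ngt (a := l) (b := l + -(e' / 2 + (1 : ℕ))) (by omega) (by omega)
      have b := hd.ngt (a := l + -(e' / 2 + (0 : ℕ))) (b := l + -(e' / 2 + (1 : ℕ))) (by omega) (by omega)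
      have c := hd.pos (l + -(e' / 2 + (0 : ℕ))) l (by omega) (by omega)
      exact ⟨div_pos_of_neg_of_neg a b, neg_pos.2 (div_neg_of_pos_of_neg c b), b.ne⟩
  obtain rfl | rfl : e = 0 ∨ e = 1 := by omega
  · exact ⟨_, k.1, by simp [off, h1, show e' ≠ 1 by omega, meet]⟩
  · refine ⟨_, k.2.1, ?_⟩
    have := meet_r k.2.2 0 (q.d l)
    simp only [off, if_neg h1, if_neg (show e' ≠ 0 by omega), one_ne_zero, if_false, if_true]
    rw [neg_smul, ← neg_sub, this, sub_zero]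

theorem W.par (w : q.W) (h1 : 0 ≤ l1) (h2 : 0 ≤ l2) {a b : C} (ha : Ok q.m q.n q.T a)
    (hb : Ok q.m q.n q.T b) (r : R q.E q.T a b) : ∃ t : ℝ, q.X x l1 l2 b - q.X x l1 l2 a = t • q.d (q.fw a b) ∧
      (mt a = mt b ∨ (l1 = 0 ∧ l2 = 0 ∧ ∀ i < q.m, ∀ j < q.n,
        0 < cr (x.2 i - x.1 j) (q.d (q.ar i j (2 * q.T))) / cr (q.d (q.al i j)) (q.d (q.ar i j (2 * q.T))) ∧
        0 < cr (q.d (q.al i j)) (x.2 i - x.1 j) / cr (q.d (q.al i j)) (q.d (q.ar i j (2 * q.T)))) → 0 ≤ t) := by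
  obtain ⟨j, i, t, e⟩ := a
  obtain ⟨j', i', t', e'⟩ := b
  have hT := w.T
  simp only [R, Ok] at r ha hb
  rcases r with ⟨rfl, rfl, rfl, r1, r2, r3⟩ | ⟨rfl, rfl, rfl, rfl, rfl, rfl, rfl⟩ |
    ⟨rfl, rfl, rfl, r1, r2, rfl, rfl⟩ | ⟨rfl, rfl, rfl, rfl, rfl, rfl⟩ | ⟨rfl, rfl, r1, rfl, rfl, rfl⟩ |
    ⟨rfl, rfl, rfl, rfl, rfl, rfl⟩
  · obtain ⟨s, hs, e⟩ := w.ray (q.lam j i t) r2 r3.ne' (by omega)
    refine ⟨l2 * s, ?_, fun _ => by positivity⟩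
    simp only [X, fw, if_neg (show t ≠ 0 by omega), and_self, if_true, mul_smul, ← e]
    module
  · refine ⟨2 * l1, ?_, fun _ => by positivity⟩
    have := w.ds.neg (q.β j 1)
    rw [show q.β j 1 + kk q.m q.T = q.β j 2 by simp [β, kk]] at this
    simp [X, fw, sp, F, off, this]
    module
  · refine ⟨l1, ?_, fun _ => h1⟩
    simp only [X, fw, if_neg (show t ≠ 0 by omega), if_pos r2, sp, off, lam, F_succ,
      if_neg (show t ≠ 3 by omega)]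
    simp only [left_eq_add, one_ne_zero, false_and, if_false, if_true]
    rw [show q.β j t + 1 * (2 * ((i + 1 : ℕ) : ℤ)) = q.β j t + 2 * i + 1 + 1 by push_cast; ring,
      show q.β j t + 1 + 1 * (2 * (i : ℤ)) = q.β j t + 2 * i + 1 by ring]
    module
  · have s := sd_cases q.E i j
    refine ⟨cr (x.2 i - q.ac l1 l2 i j (q.T - 1) - l2 • q.d (q.ar i j (2 * (q.T - 1 : ℕ) + 1)) -
        (q.sp x l1 l2 j i (sd q.E i j) + l2 • q.d (q.al i j))) (q.d (q.ar i j (2 * q.T))) /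
        cr (q.d (q.al i j)) (q.d (q.ar i j (2 * q.T))), ?_, ?_⟩
    · simp [X, fw, show sd q.E i j ≠ 0 by omega, show sd q.E i j ≤ 2 by omega,
        show sd q.E i j ≠ 3 by omega, off, lam, ac, F, tau, meet, al]
    · rintro (h | ⟨rfl, rfl, h⟩)
      · simp [mt, show sd q.E i j ≠ 0 by omega, show sd q.E i j ≤ 2 by omega] at h
      · simpa [ac, sp] using (h i ha.1 j (by omega)).1.le
  · refine ⟨l1, ?_, fun _ => h1⟩
    obtain ⟨u, rfl⟩ : ∃ u, t = u + 3 := ⟨t - 3, by omega⟩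
    simp only [X, fw, ac, off, lam, show u + 3 + 1 - 3 = u + 1 by omega, F_succ, Nat.add_sub_cancel]
    simp only [left_eq_add, one_ne_zero, and_false, if_false, if_true, show u + 3 ≠ 0 by omega,
      show ¬u + 3 ≤ 2 by omega, show u + 3 + 1 ≠ 0 by omega, show ¬u + 3 + 1 ≤ 2 by omega]
    rw [show q.ar i j 2 + q.ε i j * (2 * u) = q.ar i j (2 * u + 1) + q.ε i j by simp only [ar]; ring,
      show q.ar i j 1 + q.ε i j * (2 * u) = q.ar i j (2 * u + 1) by simp only [ar]; ring]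
    module
  · have T0 : q.T ≠ 0 := by omega
    have k := meet_r ((w.ne i j).resolve_right T0) (q.sp x l1 l2 j i (sd q.E i j) + l2 • q.d (q.al i j))
      (x.2 i - q.ac l1 l2 i j (q.T - 1) - l2 • q.d (q.ar i j (2 * (q.T - 1 : ℕ) + 1)))
    have e : q.fw (j, i, q.T + 2, 1) (0, i, 0, 0) = q.ar i j (2 * q.T) := by
      simp only [fw, lam, show q.T + 2 - 3 = q.T - 1 by omega]
      simp only [one_ne_zero, if_false, and_false, show q.T + 2 ≠ 0 by omega, show ¬q.T + 2 ≤ 2 by omega, ar]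
      rw [Nat.cast_sub (by omega)]; push_cast; ring
    rw [e]
    refine ⟨_, .trans ?_ k, ?_⟩
    · simp only [X, tau, off, lam, show q.T + 2 - 3 = q.T - 1 by omega]
      simp only [one_ne_zero, if_false, if_true, show q.T + 2 ≠ 0 by omega, show ¬q.T + 2 ≤ 2 by omega]
      module
    · rintro (h | ⟨rfl, rfl, h⟩)
      · simp [mt, T0] at h
      · simpa [ac, sp] using (h i ha.1 j (by omega)).2.le

end Q

end Pool.Agent.H36.Slp
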