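import Pool.Agent.H36.Slp4

/-!
The three scales of the drawing.
-/

namespace Pool.Agent.H36.Slp

open Pool.Agent.Lead.SR (LP)
open Finset

theorem R_asymm {E T a b} (h : R E T a b) : ¬R E T b a := by
  have := sd_cases E a.2.1 a.1
  have := sd_cases E b.2.1 b.1
  unfold R at *
  omega

theorem seg_f {a b z v : P} (m : z ∈ segment ℝ a b) (h1 : 0 < cr v (a - z)) (h2 : 0 < cr v (b - z)) :
    False := by
  obtain ⟨r, s, r0, s0, e, rfl⟩ := m
  obtain rfl : r = 1 - s := by linarith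
  simp only [cr_sub_r, cr_add_r, cr_smul_r] at *
  rcases le_total (cr v a) (cr v b) with c | c <;> nlinarith

theorem seg_cr {a b z v : P} {t : ℝ} (m : z ∈ segment ℝ a b) (h : b - a = t • v) :
    cr v (z - a) = 0 ∧ cr v (z - b) = 0 := by
  obtain ⟨r, s, r0, s0, e, rfl⟩ := m
  obtain rfl : r = 1 - s := by linarith
  have := congrArg (cr v) h
  simp only [cr_sub_r, cr_add_r, cr_smul_r, cr_self] at *
  constructor <;> nlinarith

def Cl (a b : C) : Prop := a.1 = b.1 ∧ a.2.1 = b.2.1 ∧ a.2.2.1 = b.2.2.1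

def rk (a : C) : ℤ := if a.2.2.1 = 1 then a.2.1 else if a.2.2.1 = 2 then -a.2.1 - 1 else a.2.2.1

theorem rk_spec (a : C) : (a.2.2.1 = 1 ∧ rk a = a.2.1) ∨ (a.2.2.1 = 2 ∧ rk a = -a.2.1 - 1) ∨
    (a.2.2.1 ≠ 1 ∧ a.2.2.1 ≠ 2 ∧ rk a = a.2.2.1) := by
  unfold rk; split_ifs <;> omega

theorem mt_iff {a b : C} : mt a = mt b ↔ (a.2.2.1 = 0 ∧ b.2.2.1 = 0 ∧ a.2.1 = b.2.1) ∨
    (1 ≤ a.2.2.1 ∧ a.2.2.1 ≤ 2 ∧ 1 ≤ b.2.2.1 ∧ b.2.2.1 ≤ 2 ∧ a.1 = b.1) ∨
    (3 ≤ a.2.2.1 ∧ 3 ≤ b.2.2.1 ∧ a.1 = b.1 ∧ a.2.1 = b.2.1) := by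
  unfold mt; split_ifs <;> simp <;> omega

theorem X0_mt {α φ x a b} (h : mt a = mt b) : X0 α φ x a = X0 α φ x b := by
  unfold X0
  rcases mt_iff.1 h with h | h | h
  · simp [h.1, h.2.1, h.2.2]
  · rw [if_neg (by omega), if_pos h.2.1, if_neg (by omega), if_pos h.2.2.2.1, h.2.2.2.2]
  · rw [if_neg (by omega), if_neg (by omega), if_neg (by omega), if_neg (by omega), h.2.2.1, h.2.2.2]

namespace Q
variable {q : Q}

open Classical in
noncomputable def D (q : Q) (a b : C) : P := if R q.E q.T a b then q.d (q.fw a b) else -q.d (q.fw b a)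

theorem D_R {a b} (h : R q.E q.T a b) : q.D a b = q.d (q.fw a b) := if_pos h
theorem D_R' {a b} (h : R q.E q.T b a) : q.D a b = -q.d (q.fw b a) := if_neg (R_asymm h)

theorem W.k2 (w : q.W) : 2 ≤ kk q.m q.T := by have := Slp.k2 q.m q.T; omega

theorem W.D_d (w : q.W) (a b) : ∃ τ, q.D a b = q.d τ := by
  unfold D; split_ifs
  exacts [⟨_, rfl⟩, ⟨_, (w.ds.neg _).symm⟩]

theorem W.D_ne (w : q.W) (a b) : q.D a b ≠ 0 := by
  obtain ⟨τ, h⟩ := w.D_d a b
  exact h ▸ w.ds.ne0 w.k2 τ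

theorem W.parA (w : q.W) (x) {l1 l2 : ℝ} (h1 : 0 ≤ l1) (h2 : 0 ≤ l2) {a b : C} (ha : Ok q.m q.n q.T a)
    (hb : Ok q.m q.n q.T b) (r : Ad q.E q.T a b) : ∃ t : ℝ,
      (mt a = mt b ∨ (l1 = 0 ∧ l2 = 0 ∧ ∀ i < q.m, ∀ j < q.n,
        0 < cr (x.2 i - x.1 j) (q.d (q.ar i j (2 * q.T))) / cr (q.d (q.al i j)) (q.d (q.ar i j (2 * q.T))) ∧
        0 < cr (q.d (q.al i j)) (x.2 i - x.1 j) / cr (q.d (q.al i j)) (q.d (q.ar i j (2 * q.T)))) → 0 ≤ t) ∧
      q.X x l1 l2 b - q.X x l1 l2 a = t • q.D a b := by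
  rcases r with r | r
  · obtain ⟨t, e, h⟩ := w.par x l1 l2 h1 h2 ha hb r
    exact ⟨t, h, by rw [D_R r, e]⟩
  · obtain ⟨t, e, h⟩ := w.par x l1 l2 h1 h2 hb ha r
    exact ⟨t, fun c => h (c.imp_left Eq.symm), by rw [D_R' r, smul_neg, ← e, neg_sub]⟩

theorem F_pos (v : P) (b s : ℤ) {u u' : ℕ} (h : u < u')
    (hp : ∀ r : ℕ, u ≤ r → r < u' → 0 < cr v (q.d (b + s * (2 * r)))) :
    0 < cr v (q.F b s u' - q.F b s u) := by
  induction u', h using Nat.le_induction with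
  | base => rw [F_succ]; simpa using hp u le_rfl (by omega)
  | succ u' h ih =>
    have := ih fun r a b => hp r a (by omega)
    have := hp u' (by omega) (by omega)
    rw [F_succ]; simp only [cr_sub_r, cr_add_r] at *; linarith

noncomputable def gv (q : Q) (a : C) : P :=
  if a.2.2.1 ≤ 2 then q.d (q.β a.1 1 - 1) else (q.ε a.2.1 a.1 : ℝ) • q.d (q.ar a.2.1 a.1 (-1))

theorem gv_sp {j i t e} (h : t ≤ 2) : q.gv (j, i, t, e) = q.d (q.β j 1 - 1) := if_pos h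
theorem gv_ar {j i t e} (h : 3 ≤ t) : q.gv (j, i, t, e) = (q.ε i j : ℝ) • q.d (q.ar i j (-1)) :=
  if_neg (by dsimp only; omega)

theorem W.g1 (w : q.W) {j} {r : ℤ} (h0 : 0 ≤ r) (h1 : r ≤ 2 * q.m) :
    0 < cr (q.d (q.β j 1 - 1)) (q.d (q.β j 1 + r)) ∧ cr (q.d (q.β j 1 - 1)) (q.d (q.β j 2 + r)) < 0 := by
  have := w.ds.pos (q.β j 1 - 1) (q.β j 1 + r) (by omega) (by unfold kk; omega)
  refine ⟨this, ?_⟩
  rw [show q.β j 2 + r = q.β j 1 + r + kk q.m q.T by simp [β, kk]; ring, w.ds.neg]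
  simpa using this

theorem W.g2 (w : q.W) {i j} {r : ℤ} (h0 : 0 ≤ r) (h1 : r ≤ 2 * q.T) :
    0 < cr ((q.ε i j : ℝ) • q.d (q.ar i j (-1))) (q.d (q.ar i j r)) := by
  rcases w.ε i j with e | e <;> simp only [ar, e]
  · simpa using w.ds.pos (q.al i j + 1 * -1) (q.al i j + 1 * r) (by omega) (by unfold kk; omega)
  · simpa using w.ds.ngt (a := q.al i j + -1 * -1) (b := q.al i j + -1 * r) (by omega) (by unfold kk; omega)

theorem y1_sp {a : C} (h1 : 1 ≤ a.2.2.1) (h2 : a.2.2.1 ≤ 2) :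
    q.X 0 1 0 a = q.F (q.β a.1 a.2.2.1) 1 (a.2.1 + 1) := by
  simp [X, sp, h2, show a.2.2.1 ≠ 0 by omega]

theorem y1_ar {a : C} (h : 3 ≤ a.2.2.1) : q.X 0 1 0 a =
    q.tau 0 1 0 a.2.1 a.1 + q.F (q.ar a.2.1 a.1 2) (q.ε a.2.1 a.1) (a.2.2.1 - 3) := by
  simp [X, ac, show a.2.2.1 ≠ 0 by omega, show ¬a.2.2.1 ≤ 2 by omega]

theorem y1_cl {a b : C} (h : Cl a b) : q.X 0 1 0 a = q.X 0 1 0 b := by
  simp [X, h.1, h.2.1, h.2.2]

theorem rk_cl {a b : C} (ha : Ok q.m q.n q.T a) (hb : Ok q.m q.n q.T b) (h : mt a = mt b)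
    (e : rk a = rk b) : Cl a b := by
  rw [mt_iff] at h
  unfold rk at e; unfold Ok at ha hb; unfold Cl
  split_ifs at e <;> omega

theorem W.mono (w : q.W) {a b : C} (ha : Ok q.m q.n q.T a) (hb : Ok q.m q.n q.T b) (h : mt a = mt b)
    (e : rk a < rk b) : 0 < cr (q.gv a) (q.X 0 1 0 b - q.X 0 1 0 a) := by
  obtain ⟨j, i, t, e0⟩ := a
  obtain ⟨j', i', t', e'⟩ := b
  simp only [mt_iff, Ok, rk] at *
  rcases h with h | ⟨h1, h2, h3, h4, rfl⟩ | ⟨h1, h2, rfl, rfl⟩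
  · simp [h.1, h.2.1] at e
  · rw [y1_sp (a := (j, i, t, e0)) h1 h2, y1_sp (a := (j, i', t', e')) h3 h4, gv, if_pos h2]
    dsimp only
    obtain rfl | rfl : t = 1 ∨ t = 2 := by omega
    all_goals obtain rfl | rfl : t' = 1 ∨ t' = 2 := by omega
    all_goals simp at e
    · exact F_pos _ _ _ (by omega) fun r _ _ => (w.g1 (by omega) (by omega)).1
    · omega
    · have k1 := F_pos (q := q) (q.d (q.β j 1 - 1)) (q.β j 1) 1 (Nat.succ_pos i')
        fun r _ _ => (w.g1 (by omega) (by omega)).1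
      have k2 := F_pos (q := q) (-q.d (q.β j 1 - 1)) (q.β j 2) 1 (Nat.succ_pos i)
        fun r _ _ => by simpa using (w.g1 (j := j) (r := 1 * (2 * r)) (by omega) (by omega)).2
      simp only [F, range_zero, sum_empty, sub_zero, cr_sub_r, cr_neg_l] at k1 k2 ⊢
      linarith
    · have k2 := F_pos (q := q) (-q.d (q.β j 1 - 1)) (q.β j 2) 1 (show i' + 1 < i + 1 by omega)
        fun r _ _ => by simpa using (w.g1 (j := j) (r := 1 * (2 * r)) (by omega) (by omega)).2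
      simp only [cr_sub_r, cr_neg_l] at k2 ⊢
      linarith
  · rw [y1_ar (a := (j, i, t', e')) h2, y1_ar h1, gv, if_neg (by dsimp only; omega), add_sub_add_left_eq_sub]
    rw [if_neg (by omega), if_neg (by omega), if_neg (by omega), if_neg (by omega)] at e
    refine F_pos _ _ _ (by dsimp only; omega) fun r _ _ => ?_
    dsimp only at *
    rw [show q.ar i j 2 + q.ε i j * (2 * r) = q.ar i j (2 * r + 2) by simp only [ar]; ring]
    exact w.g2 (by omega) (by omega)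

theorem gv_mt {a b : C} (h : mt a = mt b) (h0 : a.2.2.1 ≠ 0) : q.gv a = q.gv b := by
  unfold gv
  rcases mt_iff.1 h with h | h | h
  · omega
  · rw [if_pos h.2.1, if_pos h.2.2.2.1, h.2.2.2.2]
  · rw [if_neg (by omega), if_neg (by omega), h.2.2.1, h.2.2.2]

theorem W.cl1 (w : q.W) {a b : C} (ha : Ok q.m q.n q.T a) (hb : Ok q.m q.n q.T b) (h : mt a = mt b)
    (e : q.X 0 1 0 a = q.X 0 1 0 b) : Cl a b := by
  rcases lt_trichotomy (rk a) (rk b) with c | c | c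
  · simpa [e] using w.mono ha hb h c
  · exact rk_cl ha hb h c
  · simpa [e] using w.mono hb ha h.symm c

theorem W.seg1 (w : q.W) {a b z : C} (ha : Ok q.m q.n q.T a) (hb : Ok q.m q.n q.T b)
    (hz : Ok q.m q.n q.T z) (r : Ad q.E q.T a b) (h1 : mt z = mt a) (h2 : mt a = mt b)
    (n1 : q.X 0 1 0 z ≠ q.X 0 1 0 a) (n2 : q.X 0 1 0 z ≠ q.X 0 1 0 b) :
    q.X 0 1 0 z ∉ segment ℝ (q.X 0 1 0 a) (q.X 0 1 0 b) := fun m => by
  have k1 : rk z ≠ rk a := fun e => n1 (y1_cl (rk_cl hz ha h1 e))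
  have k2 : rk z ≠ rk b := fun e => n2 (y1_cl (rk_cl hz hb (h1.trans h2) e))
  have k3 : rk a ≤ rk b + 1 ∧ rk b ≤ rk a + 1 ∧ a.2.2.1 ≠ 0 := by
    rw [mt_iff] at h2
    have := sd_cases q.E a.2.1 a.1
    have := sd_cases q.E b.2.1 b.1
    unfold rk; unfold Ad R at r
    rcases r with r | r <;> split_ifs <;> omega
  by_cases c : rk z < rk a
  · exact seg_f m (w.mono hz ha h1 c) (w.mono hz hb (h1.trans h2) (by omega))
  · have e1 := w.mono ha hz h1.symm (by omega)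
    have e2 := w.mono hb hz (h1.trans h2).symm (by omega)
    rw [← gv_mt h2 k3.2.2] at e2
    refine seg_f m (v := -q.gv a) ?_ ?_ <;> simp only [cr_sub_r, cr_neg_l] at * <;> linarith

theorem W.out1 (w : q.W) {a b z : C} (ha : Ok q.m q.n q.T a) (hb : Ok q.m q.n q.T b)
    (hz : Ok q.m q.n q.T z) (r : Ad q.E q.T a b) (h1 : mt z = mt a) (h2 : mt a ≠ mt b) (t : ℝ)
    (ht : 0 < t) : q.X 0 1 0 z - q.X 0 1 0 a ≠ t • q.D a b := fun e => by
  have k0 : rk z ≠ rk a := fun c => by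
    rw [y1_cl (rk_cl hz ha h1 c), sub_self] at e
    exact w.D_ne a b ((smul_eq_zero.1 e.symm).resolve_left ht.ne')
  have k1 : rk z < rk a → 0 < cr (q.gv a) (q.D a b) → False := fun c p => by
    have := w.mono hz ha h1 c
    by_cases c0 : z.2.2.1 = 0
    · rw [mt_iff] at h1; unfold rk at c; split_ifs at c <;> omega
    rw [gv_mt h1 c0, ← neg_sub, e] at this
    simp only [cr_neg_r, cr_smul_r] at this
    nlinarith
  have k2 : rk a < rk z → cr (q.gv a) (q.D a b) < 0 → False := fun c p => by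
    have := w.mono ha hz h1.symm c
    rw [e, cr_smul_r] at this
    nlinarith
  have ra := rk_spec a
  have rz := rk_spec z
  generalize rk a = ka at *
  generalize rk z = kz at *
  obtain ⟨j, i, s, f⟩ := a
  obtain ⟨j', i', s', f'⟩ := b
  obtain ⟨j2, i2, t2, f2⟩ := z
  have hT := w.T
  have s1 := sd_cases q.E i j
  have s2 := sd_cases q.E i' j'
  have r' : (j = j' ∧ i = i' ∧ s = sd q.E i j ∧ s' = 3 ∧ f = 1 ∧ f' = 0) ∨
      (j' = j ∧ i' = i ∧ s' = sd q.E i' j' ∧ s = 3 ∧ f' = 1 ∧ f = 0) ∨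
      (i = i' ∧ s = q.T + 2 ∧ f = 1 ∧ j' = 0 ∧ s' = 0 ∧ f' = 0) ∨ s = 0 := by
    simp only [ne_eq, mt_iff, Ad, R] at r h2
    rcases r with r | r <;> omega
  simp only [mt_iff, Ok] at h1 ha hb hz ra rz
  rcases r' with ⟨rfl, rfl, rfl, rfl, rfl, rfl⟩ | ⟨rfl, rfl, rfl, rfl, rfl, rfl⟩ |
    ⟨rfl, rfl, rfl, rfl, rfl, rfl⟩ | rfl
  · have r : R q.E q.T (j, i, sd q.E i j, 1) (j, i, 3, 0) := .inr (.inr (.inr (.inl (by simp))))
    have f : q.fw (j, i, sd q.E i j, 1) (j, i, 3, 0) = q.β j (sd q.E i j) + (2 * i + 1) := by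
      simp [fw, lam, show sd q.E i j ≤ 2 by omega, show sd q.E i j ≠ 3 by omega, add_assoc]
    rw [D_R r, f] at e k1 k2
    rw [gv_sp (by omega)] at k1 k2
    obtain rfl : j2 = j := by omega
    by_cases c : t2 = sd q.E i j2 ∧ i < i2
    · rw [y1_sp (by dsimp only; omega) (by dsimp only; omega), y1_sp (by dsimp only; omega) (by dsimp only; omega)] at e
      have := F_pos (q := q) (q.d (q.β j2 (sd q.E i j2) + (2 * i + 1))) (q.β j2 (sd q.E i j2)) 1
        (show i + 1 < i2 + 1 by omega) fun r _ _ => w.ds.pos _ _ (by omega) (by unfold kk; omega)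
      dsimp only at e
      rw [c.1] at e
      simp [e] at this
    · have := w.g1 (j := j2) (r := 2 * i + 1) (by omega) (by omega)
      rcases s1 with s1 | s1 <;> rw [s1] at k1 k2
      exacts [k1 (by omega) this.1, k2 (by omega) this.2]
  · have r : R q.E q.T (j', i', sd q.E i' j', 1) (j', i', 3, 0) := .inr (.inr (.inr (.inl (by simp))))
    have f : q.fw (j', i', sd q.E i' j', 1) (j', i', 3, 0) = q.ar i' j' 0 := by
      simp [fw, lam, show sd q.E i' j' ≤ 2 by omega, show sd q.E i' j' ≠ 3 by omega, ar, al]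
    rw [D_R' r, f, gv_ar le_rfl] at k2
    refine k2 (by omega) ?_
    simpa using w.g2 (i := i') (j := j') (r := 0) le_rfl (by omega)
  · have r : R q.E q.T (j, i, q.T + 2, 1) (0, i, 0, 0) := .inr (.inr (.inr (.inr (.inr (by simp)))))
    have f : q.fw (j, i, q.T + 2, 1) (0, i, 0, 0) = q.ar i j (2 * q.T) := by
      simp only [fw, lam, show q.T + 2 - 3 = q.T - 1 by omega]
      simp only [one_ne_zero, if_false, and_false, show q.T + 2 ≠ 0 by omega, show ¬q.T + 2 ≤ 2 by omega, ar]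
      rw [Nat.cast_sub (by omega)]; push_cast; ring
    rw [D_R r, f, gv_ar (by omega)] at k1
    exact k1 (by omega) (w.g2 (by omega) le_rfl)
  · omega

end Q

end Pool.Agent.H36.Slp
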