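import Pool.Agent.H36.Slp5

/-!
The finest scale and the assembled drawing.
-/

namespace Pool.Agent.H36.Slp

open Pool.Agent.Lead.SR (LP)

theorem Cl.mt {m n T a b} (ha : Ok m n T a) (hb : Ok m n T b) (h : Cl a b) : mt a = mt b := by
  rw [mt_iff]; unfold Cl at h; omega

theorem R_long {E T j i s f j' i' s' f'} (r : R E T (j, i, s, f) (j', i', s', f'))
    (c : mt (j, i, s, f) ≠ mt (j', i', s', f')) :
    (j = j' ∧ i = i' ∧ s = sd E i j ∧ s' = 3 ∧ f = 1 ∧ f' = 0) ∨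
      (i = i' ∧ s = T + 2 ∧ f = 1 ∧ j' = 0 ∧ s' = 0 ∧ f' = 0) := by
  rcases r with r | r | r | r | r | r <;> dsimp only at r
  · obtain ⟨rfl, rfl, rfl, -⟩ := r; exact (c rfl).elim
  · exact (c (mt_iff.2 (.inr (.inl (by dsimp only; omega))))).elim
  · exact (c (mt_iff.2 (.inr (.inl (by dsimp only; omega))))).elim
  · exact .inl r
  · exact (c (mt_iff.2 (.inr (.inr (by dsimp only; omega))))).elim
  · exact .inr r

namespace Q
variable {q : Q}

theorem rho_spec (e e' : ℕ) : (e' ≤ 1 ∧ e = 0 ∧ q.rho e e' = 0) ∨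
    (e' ≤ 1 ∧ e ≠ 0 ∧ q.rho e e' = 4 * (q.T + q.m + 1)) ∨
    (2 ≤ e' ∧ e' % 2 = 0 ∧ q.rho e e' = e' / 2 + e) ∨
    (2 ≤ e' ∧ e' % 2 = 1 ∧ q.rho e e' = -(e' / 2 + e)) := by
  unfold rho; split_ifs <;> omega

theorem W.ray2 (w : q.W) {j i t e e'} (ht : 1 ≤ t) (h : e ≤ 1) (h1 : e' ≠ e)
    (h2 : e' < 2 * kk q.m q.T - 2) :
    Ray q.d (q.X 0 0 1 (j, i, t, e') - q.X 0 0 1 (j, i, t, e)) (q.lam j i t + q.rho e e') := by
  simpa [X, show t ≠ 0 by omega] using w.ray (q.lam j i t) h h1 h2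

theorem W.rho_inj (w : q.W) {u l e a b} (h : e ≤ 1) (a1 : a ≠ e) (b1 : b ≠ e)
    (a2 : a < 2 * kk q.m q.T - 2) (b2 : b < 2 * kk q.m q.T - 2) (r : Ray q.d u (l + q.rho e a))
    (s : Ray q.d u (l + q.rho e b)) : a = b := by
  have := rho_spec (q := q) e a
  have := rho_spec (q := q) e b
  have := r.uniq w.ds w.k2 s (by unfold kk at *; omega) (by unfold kk at *; omega)
  unfold kk at *; omega

theorem W.inj2 (w : q.W) {a b : C} (ha : Ok q.m q.n q.T a) (hb : Ok q.m q.n q.T b) (h : Cl a b)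
    (e : q.X 0 0 1 a = q.X 0 0 1 b) : a = b := by
  obtain ⟨j, i, t, f⟩ := a
  obtain ⟨j', i', t', f'⟩ := b
  obtain ⟨rfl, rfl, rfl⟩ : j = j' ∧ i = i' ∧ t = t' := h
  simp only [Ok] at ha hb
  by_contra c
  have c : f ≠ f' := fun e => c (by rw [e])
  have k : ∀ g, g ≠ 0 → g < 2 * kk q.m q.T - 2 → q.X 0 0 1 (j, i, t, g) ≠ q.X 0 0 1 (j, i, t, 0) :=
    fun g g0 g1 e => by
      obtain ⟨s, hs, e'⟩ := w.ray2 (j := j) (i := i) (t := t) (by omega) (Nat.zero_le 1) g0 g1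
      rw [e, sub_self] at e'
      exact w.ds.ne0 w.k2 _ ((smul_eq_zero.1 e'.symm).resolve_left hs.ne')
  by_cases c1 : f = 0
  · exact k f' (by omega) (by omega) (by rw [← e, c1])
  by_cases c2 : f' = 0
  · exact k f c1 (by omega) (by rw [e, c2])
  exact c (w.rho_inj (Nat.zero_le 1) c1 c2 (by omega) (by omega)
    (w.ray2 (j := j) (i := i) (t := t) (by omega) (Nat.zero_le 1) c1 (by omega))
    (e ▸ w.ray2 (j := j) (i := i) (t := t) (by omega) (Nat.zero_le 1) c2 (by omega)))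

theorem W.seg2' (w : q.W) {a b z : C} (ha : Ok q.m q.n q.T a) (hb : Ok q.m q.n q.T b)
    (hz : Ok q.m q.n q.T z) (r : R q.E q.T a b) (h1 : Cl z a) (h2 : Cl a b)
    (n1 : q.X 0 0 1 z ≠ q.X 0 0 1 a) (n2 : q.X 0 0 1 z ≠ q.X 0 0 1 b) :
    q.X 0 0 1 z ∉ segment ℝ (q.X 0 0 1 a) (q.X 0 0 1 b) := fun m => by
  obtain ⟨j, i, t, f⟩ := a
  obtain ⟨j', i', t', f'⟩ := b
  obtain ⟨j2, i2, t2, f2⟩ := z
  obtain ⟨rfl, rfl, rfl⟩ : j2 = j ∧ i2 = i ∧ t2 = t := h1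
  obtain ⟨rfl, rfl, rfl⟩ : j2 = j' ∧ i2 = i' ∧ t2 = t' := h2
  have := sd_cases q.E i2 j2
  simp only [Ok, R] at ha hb hz r
  have k : 1 ≤ t2 ∧ f ≤ 1 ∧ f < f' := by omega
  have c : f2 ≠ f := by rintro rfl; exact n1 rfl
  obtain ⟨s, hs, e⟩ := w.ray2 (j := j2) (i := i2) k.1 k.2.1 k.2.2.ne' (by omega)
  rw [segment_eq_image'] at m
  obtain ⟨u, ⟨u0, -⟩, e'⟩ := m
  dsimp only at e'
  have u1 : u ≠ 0 := by rintro rfl; exact n1 (by simpa using e'.symm)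
  obtain rfl := w.rho_inj k.2.1 c k.2.2.ne' (by omega) (by omega)
    (w.ray2 (j := j2) (i := i2) k.1 k.2.1 c (by omega))
    ⟨u * s, by positivity, by rw [← e', e, mul_smul]; simp⟩
  exact n2 rfl

theorem W.ext (w : q.W) {j i t e b} (ht : 1 ≤ t) (r : Ad q.E q.T (j, i, t, e) b)
    (h : ¬Cl (j, i, t, e) b) : ∃ τ, q.D (j, i, t, e) b = q.d (q.lam j i t + τ) ∧
      ((e = 0 ∧ (τ = kk q.m q.T - 1 ∨ τ = kk q.m q.T + 1)) ∨ (e = 1 ∧ -1 ≤ τ ∧ τ ≤ 1)) := by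
  obtain ⟨j', i', t', e'⟩ := b
  have s1 := sd_cases q.E i j
  have s2 := sd_cases q.E i' j'
  have hε := w.ε i j
  have hd := w.ds
  rcases r with r | r
  · rw [D_R r]
    simp only [R, Cl] at r h
    have c : ¬(i = i' ∧ t = t') := by omega
    simp only [fw, if_neg c]
    split_ifs with c1 c2 c3
    · obtain ⟨rfl, rfl⟩ : i = 0 ∧ t = 2 := by omega
      refine ⟨kk q.m q.T - 1, ?_, .inl ⟨c1, .inl rfl⟩⟩
      rw [← hd.per (q.β j 1) 1]; congr 1; simp [lam, β, kk]; ring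
    · exact ⟨0, rfl, .inr (by omega)⟩
    · exact ⟨1, rfl, .inr (by omega)⟩
    · exact ⟨_, rfl, .inr (by omega)⟩
  · rw [D_R' r, ← hd.neg]
    simp only [R, Cl] at r h
    have c : ¬(i' = i ∧ t' = t) := by omega
    simp only [fw, if_neg c]
    split_ifs with c1 c2 c3
    · obtain ⟨rfl, rfl, rfl, rfl⟩ : i = 0 ∧ t = 1 ∧ j' = j ∧ e = 0 := by omega
      exact ⟨kk q.m q.T - 1, by congr 1; simp [lam], .inl ⟨rfl, .inl rfl⟩⟩
    · obtain ⟨rfl, rfl, rfl, rfl, rfl⟩ : t = 3 ∧ i' = i ∧ j' = j ∧ e = 0 ∧ t' = sd q.E i' j' := by omega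
      exact ⟨kk q.m q.T - q.ε i' j', by congr 1; simp [lam, c2, ar, al], .inl ⟨rfl, by omega⟩⟩
    · obtain ⟨rfl, rfl, rfl, rfl⟩ : t' = t ∧ i = i' + 1 ∧ j' = j ∧ e = 0 := by omega
      exact ⟨kk q.m q.T - 1, by congr 1; simp [lam, c2]; ring, .inl ⟨rfl, .inl rfl⟩⟩
    · obtain ⟨rfl, rfl, rfl, rfl⟩ : t = t' + 1 ∧ i' = i ∧ j' = j ∧ e = 0 := by omega
      refine ⟨kk q.m q.T - q.ε i' j', ?_, .inl ⟨rfl, by omega⟩⟩
      congr 1
      simp only [lam, if_neg c2, if_neg (show ¬t' + 1 ≤ 2 by omega), ar,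
        show t' + 1 - 3 = t' - 3 + 1 by omega]
      push_cast; ring

theorem W.out2 (w : q.W) {a b z : C} (ha : Ok q.m q.n q.T a) (hz : Ok q.m q.n q.T z)
    (r : Ad q.E q.T a b) (h1 : Cl z a) (h2 : ¬Cl a b) (t : ℝ)
    (ht : 0 < t) : q.X 0 0 1 z - q.X 0 0 1 a ≠ t • q.D a b := fun e => by
  by_cases c : z = a
  · rw [c, sub_self] at e
    exact w.D_ne a b ((smul_eq_zero.1 e.symm).resolve_left ht.ne')
  obtain ⟨j, i, s, f⟩ := a
  obtain ⟨j2, i2, t2, f2⟩ := z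
  obtain ⟨rfl, rfl, rfl⟩ : j2 = j ∧ i2 = i ∧ t2 = s := h1
  have c : f2 ≠ f := fun e => c (by rw [e])
  simp only [Ok] at ha hz
  obtain ⟨τ, e1, h⟩ := w.ext (by omega) r h2
  have := rho_spec (q := q) f f2
  have := (w.ray2 (j := j2) (i := i2) (t := t2) (by omega) (by omega) c (by omega)).uniq w.ds w.k2
    ⟨t, ht, e1 ▸ e⟩ (by unfold kk at *; omega) (by unfold kk at *; omega)
  unfold kk at *; omega

theorem W.good0 (w : q.W) (fin : {a | Ok q.m q.n q.T a}.Finite)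
    (h2 : ∀ i < q.m, ∀ j ≤ q.n, ∀ j' ≤ q.n, j ≠ j' →
      cr (q.d (q.ar i j (2 * q.T))) (q.d (q.ar i j' (2 * q.T))) ≠ 0) (x : (ℕ → P) × (ℕ → P))
    (hx : ∀ i < q.m, ∀ j < q.n,
      0 < cr (x.2 i - x.1 j) (q.d (q.ar i j (2 * q.T))) / cr (q.d (q.al i j)) (q.d (q.ar i j (2 * q.T))) ∧
      0 < cr (q.d (q.al i j)) (x.2 i - x.1 j) / cr (q.d (q.al i j)) (q.d (q.ar i j (2 * q.T)))) :
    ∃ x, (∀ a b, Ok q.m q.n q.T a → Ok q.m q.n q.T b → q.X x 0 0 a = q.X x 0 0 b → mt a = mt b) ∧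
      Good (Ok q.m q.n q.T) (Ad q.E q.T) q.D (q.X x 0 0) := by
  have hT := w.T
  have h0 : ∀ i < q.m, ∀ j ≤ q.n, cr (q.d (q.al i j)) (q.d (q.ar i j (2 * q.T))) ≠ 0 :=
    fun i hi j _ => (w.ne i j).resolve_right (by omega)
  obtain ⟨x, hx, hn⟩ := level0 fin (fun i j => q.d (q.al i j)) (fun i j => q.d (q.ar i j (2 * q.T))) h0
    (fun i hi i' hi' j _ n => by
      have hd := w.ds
      have e : ∀ a : ℕ, q.d (q.β j 2 + 2 * a + 1) = -q.d (q.β j 1 + 2 * a + 1) := fun a => by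
        rw [← hd.neg]; congr 1; simp [β, kk]; ring
      have := hd.cr_ne (a := q.β j 1 + 2 * i + 1) (b := q.β j 1 + 2 * i' + 1) (by omega)
        (by unfold kk; omega) (by unfold kk; omega)
      rcases sd_cases q.E i j with s | s <;> rcases sd_cases q.E i' j with s' | s' <;>
        simpa [al, s, s', e] using this) h2 x hx
  simp only [← X_zero] at hn
  have m0 : ∀ {a b}, mt a = mt b → q.X x 0 0 a = q.X x 0 0 b := fun h => by
    rw [X_zero, X_zero, X0_mt h]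
  have p1 : ∀ a, mt a = (0, a.2.1, 0) → q.X x 0 0 a = x.2 a.2.1 := fun a h => by
    have : a.2.2.1 = 0 := by unfold mt at h; split_ifs at h <;> simp_all
    simp [X, this]
  have p2 : ∀ a, mt a = (a.1, 0, 1) → q.X x 0 0 a = x.1 a.1 := fun a h => by
    have : a.2.2.1 ≠ 0 ∧ a.2.2.1 ≤ 2 := by unfold mt at h; split_ifs at h <;> simp_all
    simp [X, this, sp]
  have p3 : ∀ a, Ok q.m q.n q.T a → mt a = (a.1, a.2.1, 2) →
      cr (q.d (q.al a.2.1 a.1)) (q.X x 0 0 a - x.1 a.1) = 0 ∧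
      cr (q.d (q.ar a.2.1 a.1 (2 * q.T))) (q.X x 0 0 a - x.2 a.2.1) = 0 := fun a ha h => by
    have : a.2.2.1 ≠ 0 ∧ ¬a.2.2.1 ≤ 2 := by unfold mt at h; split_ifs at h <;> simp_all
    rw [X_zero, X0, if_neg this.1, if_neg this.2, meet_l, ← neg_sub (x.2 _),
      meet_r (h0 _ ha.1 _ (by unfold Ok at ha; omega))]
    simp
  have i0 : ∀ a b, Ok q.m q.n q.T a → Ok q.m q.n q.T b → q.X x 0 0 a = q.X x 0 0 b → mt a = mt b := by
    intro a b ha hb e
    by_contra c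
    have k : ∀ a b, Ok q.m q.n q.T a → Ok q.m q.n q.T b → q.X x 0 0 a = q.X x 0 0 b → mt a ≠ mt b →
        mt b ≠ (b.1, b.2.1, 2) := fun a b ha hb e c h => by
      have := hn _ hb.1 b.1 (by unfold Ok at hb; omega) a ha (h ▸ c)
      rw [e] at this
      by_cases c' : mt a = (b.1, 0, 1)
      · exact this.2 (by simp [c']) (p3 b hb h).2
      · exact this.1 c' (p3 b hb h).1
    have k1 := k a b ha hb e c
    have k2 := k b a hb ha e.symm (Ne.symm c)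
    have n2 : ∀ j, mt a ≠ (j, b.2.1, 2) := fun j h => k2 (by
      unfold mt at h ⊢; split_ifs at h ⊢ <;> simp_all)
    by_cases c1 : mt b = (b.1, 0, 1)
    · exact (hn _ hb.1 b.1 (by unfold Ok at hb; omega) a ha (n2 _)).1 (c1 ▸ c) (by simp [e, p2 b c1])
    · have c2 : mt b = (0, b.2.1, 0) := by unfold mt at c1 k1 ⊢; split_ifs at c1 k1 ⊢ <;> simp_all
      exact (hn _ hb.1 0 (by omega) a ha (n2 _)).2 (c2 ▸ c) (by simp [e, p1 b c2])
  have g0 : Good (Ok q.m q.n q.T) (Ad q.E q.T) q.D (q.X x 0 0) := by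
    refine ⟨fun a b ha hb r => ?_, fun a b z ha hb hz r => ?_⟩
    · obtain ⟨t, h, e⟩ := w.parA x le_rfl le_rfl ha hb r
      exact ⟨t, h (.inr ⟨rfl, rfl, hx⟩), e⟩
    · have key : ∀ a b, Ok q.m q.n q.T a → Ok q.m q.n q.T b → R q.E q.T a b → q.X x 0 0 z ≠ q.X x 0 0 a →
          q.X x 0 0 z ≠ q.X x 0 0 b → q.X x 0 0 z ∉ segment ℝ (q.X x 0 0 a) (q.X x 0 0 b) := by
        intro a b ha hb r n1 n2 m
        by_cases c : mt a = mt b
        · rw [m0 c, segment_same] at m; exact n2 m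
        obtain ⟨t, e, -⟩ := w.par x 0 0 le_rfl le_rfl ha hb r
        have k := seg_cr m e
        have n1 : mt z ≠ mt a := fun e => n1 (m0 e)
        have n2 : mt z ≠ mt b := fun e => n2 (m0 e)
        obtain ⟨j, i, s, f⟩ := a
        obtain ⟨j', i', s', f'⟩ := b
        have s1 := sd_cases q.E i j
        have r' := R_long r c
        simp only [Ok] at ha hb
        rcases r' with ⟨rfl, rfl, rfl, rfl, rfl, rfl⟩ | ⟨rfl, rfl, rfl, rfl, rfl, rfl⟩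
        · have e1 : mt (j, i, sd q.E i j, 1) = (j, 0, 1) := by
            simp [mt, show sd q.E i j ≤ 2 by omega, show sd q.E i j ≠ 0 by omega]
          refine (hn i ha.1 j (by omega) z hz n2).1 (e1 ▸ n1) ?_
          rw [p2 _ e1] at k
          simpa [fw, lam, show sd q.E i j ≤ 2 by omega, show sd q.E i j ≠ 3 by omega, al] using k.1
        · have f : q.fw (j, i, q.T + 2, 1) (0, i, 0, 0) = q.ar i j (2 * q.T) := by
            simp only [fw, lam, show q.T + 2 - 3 = q.T - 1 by omega]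
            simp only [one_ne_zero, if_false, and_false, show q.T + 2 ≠ 0 by omega,
              show ¬q.T + 2 ≤ 2 by omega, ar]
            rw [Nat.cast_sub (by omega)]; push_cast; ring
          have e1 : mt (j, i, q.T + 2, 1) = (j, i, 2) := by simp [mt, show q.T ≠ 0 by omega]
          refine (hn i ha.1 j (by omega) z hz (e1 ▸ n1)).2 n2 ?_
          rw [f, p1 (0, i, 0, 0) rfl] at k
          exact k.2
      intro n1 n2
      rcases r with r | r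
      exacts [key a b ha hb r n1 n2, by rw [segment_symm]; exact key b a hb ha r n2 n1]
  exact ⟨x, i0, g0⟩

theorem W.complete (w : q.W) (fin : {a | Ok q.m q.n q.T a}.Finite) {x}
    (i0 : ∀ a b, Ok q.m q.n q.T a → Ok q.m q.n q.T b → q.X x 0 0 a = q.X x 0 0 b → mt a = mt b)
    (g0 : Good (Ok q.m q.n q.T) (Ad q.E q.T) q.D (q.X x 0 0)) :
    ∃ X, Dr (Ok q.m q.n q.T) (Ad q.E q.T) q.d X := by
  have m0 : ∀ {a b}, mt a = mt b → q.X x 0 0 a = q.X x 0 0 b := fun h => by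
    rw [X_zero, X_zero, X0_mt h]
  obtain ⟨ε, g1, i1⟩ := g0.step fin (fun a b => Or.symm) w.D_ne (y := q.X 0 1 0)
    (fun a b ha hb r => by
      obtain ⟨t, h, e⟩ := w.parA 0 zero_le_one le_rfl ha hb r
      exact ⟨t, fun c => h (.inl (i0 a b ha hb c)), e⟩)
    (fun a b z ha hb hz r c1 c2 => w.seg1 ha hb hz r (i0 _ _ hz ha c1) (i0 _ _ ha hb c2))
    (fun a b z ha hb hz r c1 c2 => w.out1 ha hb hz r (i0 _ _ hz ha c1) fun e => c2 (m0 e))
  have j1 : ∀ a b, Ok q.m q.n q.T a → Ok q.m q.n q.T b → _ → Cl a b := fun a b ha hb e =>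
    w.cl1 ha hb (i0 a b ha hb (i1 a b ha hb e).1) (i1 a b ha hb e).2
  obtain ⟨ε', g2, i2⟩ := g1.step fin (fun a b => Or.symm) w.D_ne (y := q.X 0 0 1)
    (fun a b ha hb r => by
      obtain ⟨t, h, e⟩ := w.parA 0 le_rfl zero_le_one ha hb r
      exact ⟨t, fun c => h (.inl ((j1 a b ha hb c).mt ha hb)), e⟩)
    (fun a b z ha hb hz r c1 c2 n1 n2 => by
      rcases r with r | r
      · exact w.seg2' ha hb hz r (j1 _ _ hz ha c1) (j1 _ _ ha hb c2) n1 n2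
      · rw [segment_symm]
        exact w.seg2' hb ha hz r (j1 _ _ hz hb (c1.trans c2))
          (j1 _ _ hb ha c2.symm) n2 n1)
    (fun a b z ha hb hz r c1 c2 => w.out2 ha hz r (j1 _ _ hz ha c1) fun e => c2 (by
      simp only [Pi.add_apply, Pi.smul_apply, m0 (e.mt ha hb), y1_cl e]))
  exact ⟨_, g2.dr (fun a r => r.elim (fun h => R_asymm h h) fun h => R_asymm h h) w.D_d
    fun a b ha hb e => w.inj2 ha hb (j1 a b ha hb (i2 a b ha hb e).1) (i2 a b ha hb e).2⟩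

end Q

end Pool.Agent.H36.Slp
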