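import Pool.Agent.H36.Slp6
import Pool.Agent.H36.Gr

/-!
The slope number is hard for the existential theory of the reals.
-/

namespace Pool.Agent.H36.Slp

open Pool.Agent.Lead.SR (LP ent sg Weak Strong sr1_erh)
open Pool.Agent.H38.ER (ERH)
open Pool.Agent.H38.NP Pool.Agent.H36.Gr Filter Topology

theorem complete2 {m n T : ℕ} {E : LP} {d : ℤ → P} (hd : DS (kk m T) d) (hT : m ≤ T)
    (fin : {a | Ok m n T a}.Finite) (c : ℕ → ℤ) (s p : ℕ → P)
    (h1 : ∀ i < m, ∀ j < n, ∀ r : ℤ, -(4 * m + 1) ≤ r → r ≤ 4 * m + 1 →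
      0 < sg (ent E i j) * cr (d (c j + r)) (p i - s j))
    (h2 : ∀ j ≤ n, ∀ j' ≤ n, j ≠ j' → ∀ r r' : ℤ, -(4 * m + 1) ≤ r → r ≤ 4 * m + 1 →
      -(4 * m + 1) ≤ r' → r' ≤ 4 * m + 1 → cr (d (c j + r)) (d (c j' + r')) ≠ 0) :
    ∃ X, Dr (Ok m n T) (Ad E T) d X := by
  let q : (ℕ → ℕ → ℤ) → Q := fun ε => ⟨m, n, T, E, d, c, ε⟩
  let α : ℕ → ℕ → ℤ := (q 0).al
  have e1 : ∀ i j, d (α i j - 2 * T) = sg (ent E i j) • d (c j + (2 * m + 2 * i + 3)) := fun i j => by
    cases h : ent E i j <;> simp only [α, Q.al, Q.β, q, sd, h, sg, cond]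
    · rw [neg_one_smul, ← hd.neg]; congr 1; simp [kk]; ring
    · rw [one_smul]; congr 1; simp; ring
  have e2 : ∀ i j, d (α i j + 2 * T) = -sg (ent E i j) • d (c j + (2 * i - 2 * m - 1)) := fun i j => by
    cases h : ent E i j <;> simp only [α, Q.al, Q.β, q, sd, h, sg, cond]
    · rw [neg_neg, one_smul, ← hd.per (c j + _) 1]; congr 1; simp [kk]; ring
    · rw [neg_one_smul, ← hd.neg]; congr 1; simp [kk]; ring
  obtain ⟨x, a, b⟩ := dense (E := (ℕ → P) × (ℕ → P)) (ι := Fin m × Fin n) (κ := Fin m × Fin n × Bool)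
    (fun u x => cr (d (α u.1 u.2)) (x.2 u.1 - x.1 u.2))
    (fun u x => cond u.2.2 (cr (x.2 u.1 - x.1 u.2.1) (d (α u.1 u.2.1 + 2 * T)))
      (cr (d (α u.1 u.2.1 - 2 * T)) (x.2 u.1 - x.1 u.2.1))) (fun _ => True) (fun _ => True)
    (by rintro ⟨i, j⟩ x y t; simp [cr]; ring) (by rintro ⟨i, j, _ | _⟩ x y t <;> simp [cr] <;> ring)
    (fun u _ => ⟨(0, fun _ => d (α u.1 u.2 + 1)), by
      simpa using (hd.pos (α u.1 u.2) (α u.1 u.2 + 1) (by omega) (by unfold kk; omega)).ne'⟩) (s, p)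
    (by
      rintro ⟨i, j, _ | _⟩ -
      · simpa [e1] using h1 i i.2 j j.2 (2 * m + 2 * i + 3) (by omega) (by omega)
      · simp only [cond, e2]
        rw [cr_anti]
        simpa using h1 i i.2 j j.2 (2 * i - 2 * m - 1) (by omega) (by omega))
  let ε : ℕ → ℕ → ℤ := fun i j => if 0 < cr (d (α i j)) (x.2 i - x.1 j) then 1 else -1
  have w : (q ε).W := ⟨hd, fun i j => by simp only [q, ε]; split_ifs <;> simp, hT⟩
  have e3 : ∀ i j, (q ε).ar i j (2 * T) = α i j + ε i j * (2 * T) := fun _ _ => rfl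
  have e4 : ∀ i < m, ∀ j, ∃ r : ℤ, -(4 * m + 1) ≤ r ∧ r ≤ 4 * m + 1 ∧ ∃ t : ℝ, t ≠ 0 ∧
      d ((q ε).ar i j (2 * T)) = t • d (c j + r) := fun i hi j => by
    have : sg (ent E i j) ≠ 0 := by cases ent E i j <;> simp [sg]
    rcases w.ε i j with h | h <;> rw [e3, show ε i j = _ from h]
    · exact ⟨2 * i - 2 * m - 1, by omega, by omega, _, neg_ne_zero.2 this, by rw [one_mul, e2]⟩
    · exact ⟨2 * m + 2 * i + 3, by omega, by omega, _, this, by rw [neg_one_mul, ← sub_eq_add_neg, e1]⟩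
  obtain ⟨x, i0, g0⟩ := w.good0 fin (fun i hi j hj j' hj' h => by
    obtain ⟨r, r1, r2, t, t0, e⟩ := e4 i hi j
    obtain ⟨r', r3, r4, t', t1, e'⟩ := e4 i hi j'
    show cr (d _) (d _) ≠ 0
    erw [e, e']
    simpa [t0, t1] using h2 j hj j' hj' h r r' r1 r2 r3 r4) x fun i hi j hj => by
    have a := a (⟨i, hi⟩, ⟨j, hj⟩) trivial
    have b1 := b (⟨i, hi⟩, ⟨j, hj⟩, true) trivial
    have b2 := b (⟨i, hi⟩, ⟨j, hj⟩, false) trivial
    have : i < m := hi
    show 0 < cr _ (d (α i j + ε i j * (2 * T))) / cr (d (α i j)) (d (α i j + ε i j * (2 * T))) ∧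
      0 < cr (d (α i j)) _ / cr (d (α i j)) (d (α i j + ε i j * (2 * T)))
    simp only [cond] at a b1 b2
    simp only [ε]
    split_ifs with h
    · have := hd.pos (α i j) (α i j + 2 * T) (by omega) (by unfold kk; omega)
      rw [one_mul]
      exact ⟨div_pos b1 this, div_pos h this⟩
    · have := hd.ngt (a := α i j) (b := α i j - 2 * T) (by omega) (by unfold kk; omega)
      rw [neg_one_mul, ← sub_eq_add_neg]
      exact ⟨div_pos_of_neg_of_neg (by rw [cr_anti]; linarith) this,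
        div_pos_of_neg_of_neg (lt_of_le_of_ne (not_lt.1 h) a) this⟩
  exact w.complete fin i0 g0

def tt (m n : ℕ) : ℕ := n * (2 * m + 1) + m

theorem complete {m n : ℕ} {E : LP} (fin : {a | Ok m n (tt m n) a}.Finite) (h : Strong 1 (m, n, E)) :
    ∃ d X, DS (kk m (tt m n)) d ∧ Dr (Ok m n (tt m n)) (Ad E (tt m n)) d X := by
  obtain ⟨x, a, y, b, h⟩ := h
  simp only [dotProduct, Fin.sum_univ_one] at h
  let f : Fin (n + 1) → ℝ := fun j => a j 0
  let π := Tuple.sort f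
  let N : ℤ := 8 * m + 4
  have N0 : 0 < N := by omega
  have hk : (kk m (tt m n) : ℤ) = (n + 1) * N := by simp only [kk, tt, N]; push_cast; ring
  let A : ℤ → ℝ := fun u => if h : u.toNat < n + 1 then f (π ⟨u.toNat, h⟩) else 0
  let c : ℕ → ℤ := fun j => if h : j < n + 1 then (π.symm ⟨j, h⟩ : ℕ) * N + (4 * m + 2) else 0
  have c1 : ∀ j (h : j < n + 1) (r : ℤ), -(4 * m + 1) ≤ r → r ≤ 4 * m + 1 → 0 ≤ c j + r ∧
      c j + r < kk m (tt m n) ∧ (c j + r) / N = (π.symm ⟨j, h⟩ : ℕ) := fun j h r r1 r2 => by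
    simp only [c, dif_pos h, hk]
    have := (π.symm ⟨j, h⟩).2
    generalize (π.symm ⟨j, h⟩ : ℕ) = u at *
    have : (u : ℤ) * N ≤ n * N := mul_le_mul_of_nonneg_right (by omega) N0.le
    have : (0 : ℤ) ≤ u * N := by positivity
    refine ⟨by omega, by rw [add_mul]; omega, ?_⟩
    rw [add_assoc, add_comm, Int.add_mul_ediv_right _ _ N0.ne', Int.ediv_eq_zero_of_lt (by omega) (by omega),
      zero_add]
  have ev : ∀ᶠ η in 𝓝[>] (0 : ℝ), ∀ i ∈ Finset.range m, ∀ j ∈ Finset.range n,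
      ∀ r ∈ Finset.Icc (-(4 * m + 1) : ℤ) (4 * m + 1), 0 < sg (ent E i j) * (y i - a j 0 * x i 0 - b j) +
        η * -(sg (ent E i j) * (c j + r : ℤ) * x i 0) := by
    simp only [eventually_all_finset]
    exact fun i hi j hj r _ => ev_pos (h i (by simpa using hi) j (by simpa using hj))
  obtain ⟨η, h1, h0⟩ := (ev.and self_mem_nhdsWithin).exists
  replace h0 : 0 < η := h0
  let σ : ℤ → ℝ := fun τ => A (τ / N) + η * τ
  have hd := mkD_ds (k := kk m (tt m n)) (by unfold kk; omega) 0 (σ := σ) fun u v u0 uv v1 => by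
    have k1 : u / N ≤ v / N := Int.ediv_le_ediv N0 uv.le
    have k2 : 0 ≤ u / N := Int.ediv_nonneg u0 N0.le
    have k3 : v / N < n + 1 := Int.ediv_lt_of_lt_mul N0 (hk ▸ v1)
    have : A (u / N) ≤ A (v / N) := by
      simp only [A, dif_pos (show (u / N).toNat < n + 1 by omega), dif_pos (show (v / N).toNat < n + 1 by omega)]
      exact Tuple.monotone_sort f (by simp only [Fin.mk_le_mk]; omega)
    have : (u : ℝ) < v := by exact_mod_cast uv
    simp only [σ]; nlinarith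
  obtain ⟨X, hX⟩ := complete2 (E := E) hd (by unfold tt; omega) fin c (fun j => (0, b j))
    (fun i => (x i 0, y i)) (fun i hi j hj r r1 r2 => by
      obtain ⟨k1, k2, k3⟩ := c1 j (by omega) r r1 r2
      have := h1 i (by simpa using hi) j (by simpa using hj) r (by simp; omega)
      rw [mkD_eq k1 k2]
      simp only [σ, k3, A, Int.toNat_natCast, Fin.is_lt, dif_pos, Fin.eta, Equiv.apply_symm_apply, f, cr]
      refine this.trans_eq ?_
      simp; ring)
    fun j hj j' hj' n r r' r1 r2 r3 r4 => by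
      obtain ⟨k1, k2, k3⟩ := c1 j (by omega) r r1 r2
      obtain ⟨k4, k5, k6⟩ := c1 j' (by omega) r' r3 r4
      refine hd.cr_ne (fun e => n ?_) (by omega) (by omega)
      rw [e, k6] at k3
      exact congrArg Fin.val (π.symm.injective (Fin.ext (by exact_mod_cast k3.symm)))
  exact ⟨_, X, hd, hX⟩

instance (E T a b) : Decidable (R E T a b) := by unfold R; infer_instance

def vs (m n : ℕ) : List C := ((List.range (n + 1)).product ((List.range m).product
  ((List.range (tt m n + 3)).product (List.range (2 * kk m (tt m n) - 2))))).filter fun a =>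
    decide ((a.2.2.1 = 0 ∧ a.1 = 0 ∧ a.2.2.2 = 0) ∨ (1 ≤ a.2.2.1 ∧ a.1 < n))

theorem mem_vs {m n a} : a ∈ vs m n ↔ Ok m n (tt m n) a := by
  obtain ⟨j, i, t, e⟩ := a
  have := k2 m (tt m n)
  simp only [vs, List.mem_filter, List.pair_mem_product, List.mem_range, decide_eq_true_eq, Ok]
  omega

theorem nd (m n) : (vs m n).Nodup := (List.nodup_range.product (List.nodup_range.product
  (List.nodup_range.product List.nodup_range))).filter _

def rr (p : ℕ × ℕ × LP) (a b : C) : Bool := decide (R p.2.2 (tt p.1 p.2.1) a b)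

def red (p : ℕ × ℕ × LP) : ℕ × List (ℕ × ℕ) × ℕ :=
  ((vs p.1 p.2.1).length, (mkG (vs p.1 p.2.1) (rr p)).2, kk p.1 (tt p.1 p.2.1))

theorem pt_red : PT red := by
  have h : PT fun p : ℕ × ℕ × LP => vs p.1 p.2.1 := by unfold vs kk tt; fun_prop
  have k : PT fun p : (ℕ × ℕ × LP) × C × C => rr p.1 p.2.1 p.2.2 := by
    unfold rr R sd tt
    fun_prop
  exact h.length.mk ((pt_mkG h k).snd.mk (by unfold kk tt; fun_prop))

theorem adj_iff {m n E} {u v : Fin (vs m n).length} : (RG (vs m n) (rr (m, n, E))).Adj u v ↔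
    Ad E (tt m n) (code _ u) (code _ v) := by
  rw [RG_adj (nd m n), GC_adj]
  simp only [rr, decide_eq_true_eq, Ad]
  exact ⟨fun h => h.2, fun h => ⟨fun e => by
    rw [e] at h; exact h.elim (fun h => R_asymm h h) fun h => R_asymm h h, h⟩⟩

theorem slope_erh : ERH (fun _ : ℕ × List (ℕ × ℕ) × ℕ => True)
    fun p => SlopeLE (graphOf p.1 p.2.1) p.2.2 := by
  refine sr1_erh.reduce red pt_red ?_
  rintro ⟨m, n, E⟩ hp
  have k := k2 m (tt m n)
  have ok : ∀ v : Fin (vs m n).length, Ok m n (tt m n) (code _ v) := fun v => mem_vs.1 (code_mem _ v)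
  refine ⟨trivial, fun h => ?_, fun h => hp ?_⟩
  · obtain ⟨d, X, hd, hX⟩ := complete ((List.finite_toSet (vs m n)).subset fun a h => mem_vs.2 h) h
    exact le_of_dr (G := RG (vs m n) (rr (m, n, E))) (x := fun v => X (code _ v))
      (k := kk m (tt m n)) (by omega) hd
      ⟨fun a b _ _ e => code_inj (nd m n) (hX.inj _ _ (ok a) (ok b) e),
        fun a b z _ _ _ r => hX.seg _ _ _ (ok a) (ok b) (ok z) (adj_iff.1 r),
        fun a b _ _ r => hX.ray _ _ (ok a) (ok b) (adj_iff.1 r)⟩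
  · obtain ⟨d, x, hd, hx⟩ := dr_of_le (G := RG (vs m n) (rr (m, n, E))) (k := kk m (tt m n)) (by omega) h
    let X : C → P := fun a => if h : a ∈ vs m n then x (ix (nd m n) a h) else 0
    have e : ∀ a, Ok m n (tt m n) a → ∃ v, a = code _ v ∧ X a = x v := fun a ha =>
      ⟨ix (nd m n) a (mem_vs.2 ha), by simp, dif_pos (mem_vs.2 ha)⟩
    refine sound (X := X) hd ⟨fun a b ha hb h => ?_, fun a b z ha hb hz r => ?_, fun a b ha hb r => ?_⟩
      (by unfold tt; omega)
    all_goals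
      obtain ⟨u, u1, u2⟩ := e a ha
      obtain ⟨v, v1, v2⟩ := e b hb
    · rw [u1, v1, hx.inj u v trivial trivial (by rw [← u2, ← v2, h])]
    · obtain ⟨w, -, w2⟩ := e z hz
      rw [u2, v2, w2]
      exact hx.seg u v w trivial trivial trivial (adj_iff.2 (u1 ▸ v1 ▸ r))
    · rw [u2, v2]
      exact hx.ray u v trivial trivial (adj_iff.2 (u1 ▸ v1 ▸ r))

end Pool.Agent.H36.Slp
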