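import Mathlib

/-!
Slope number of a graph.
-/

namespace Pool.Agent.H36.Slp

/-- slope of the line through two points of the plane; `none` is the vertical slope -/
noncomputable def slopeOf (p q : ℝ × ℝ) : Option ℝ :=
  if p.1 = q.1 then none else some ((q.2 - p.2) / (q.1 - p.1))

/-- `G` has a straight-line drawing (vertices at distinct points, no vertex in the relative
interior of an edge, crossings allowed) whose edges use at most `k` distinct slopes -/
def SlopeLE {V : Type} (G : SimpleGraph V) (k : ℕ) : Prop :=
  ∃ x : V → ℝ × ℝ, Function.Injective x ∧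
    (∀ a b z, G.Adj a b → x z ∉ openSegment ℝ (x a) (x b)) ∧
    {s | ∃ a b, G.Adj a b ∧ s = slopeOf (x a) (x b)}.ncard ≤ k

end Pool.Agent.H36.Slp
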