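import Pool.Agent.H36.SubTDefs
import Pool.Agent.H36.Lc

namespace Pool.Agent.H36.SubT

open Pool.Agent.H38.NP Pool.Agent.H36.Gr

theorem take_ge {d : ℕ} : ∀ (l : List ℕ) (k : ℕ), l.Pairwise (fun a b => b ≤ a) →
    k ≤ l.countP (fun x => decide (d ≤ x)) → k * d ≤ (l.take k).sum
  | _, 0, _, _ => by simp
  | [], k + 1, _, h => by simp at h
  | a :: l, k + 1, hp, h => by
    rw [List.pairwise_cons] at hp
    have ha : d ≤ a := by
      by_contra c
      rw [List.countP_eq_zero.2] at h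
      · omega
      · intro x hx
        rcases List.mem_cons.1 hx with rfl | hx
        · simpa using c
        · have := hp.1 x hx
          simp; omega
    have := take_ge l k hp.2 (by simpa [List.countP_cons, ha] using h)
    simp only [List.take_succ_cons, List.sum_cons, Nat.succ_mul]
    omega

theorem subT_eq {n k d D : ℕ} {G : SimpleGraph (Fin n)} (h1 : ∀ v, (G.neighborSet v).ncard ≤ D)
    (h2 : k * D < n) (h3 : n ≤ (k + 1) * d) (h4 : k + 1 ≤ n)
    (h5 : ∀ v : Fin n, v.val ≤ k → d ≤ (G.neighborSet v).ncard) : subT G = k + 1 := by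
  have p := List.mergeSort_perm (List.ofFn fun v => (G.neighborSet v).ncard)
    fun a b => decide (b ≤ a)
  have m : n ≤ ((degs G).take (k + 1)).sum := h3.trans (take_ge _ _
    (List.pairwise_mergeSort' (fun a b : ℕ => b ≤ a) _) (by
      rw [degs, p.countP_eq]
      refine le_trans ?_ (List.take_sublist (k + 1) _).countP_le
      rw [List.countP_eq_length.2]
      · simpa using h4
      · intro x hx
        obtain ⟨i, hi, rfl⟩ := List.getElem_of_mem hx
        simpa using h5 _ (by simp at hi ⊢; omega)))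
  refine le_antisymm (Nat.sInf_le m) (le_csInf ⟨k + 1, m⟩ ?_)
  · intro j hj
    by_contra c
    have : ((degs G).take j).sum ≤ ((degs G).take j).length • D :=
      List.sum_le_card_nsmul _ _ fun x hx => by
        obtain ⟨v, rfl⟩ := (List.mem_ofFn' _ _).1 (p.mem_iff.1 (List.mem_of_mem_take hx))
        exact h1 v
    have a : ((degs G).take j).length * D ≤ k * D :=
      Nat.mul_le_mul_right _ (by simp; omega)
    have b : n ≤ _ := hj
    rw [smul_eq_mul] at this
    omega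

def BB (φ : F3) : ℕ := 3 * nv φ + 1 + nv φ * nv φ

def A (φ : F3) (u v : ℕ) : Prop :=
  (u < 2 * nv φ ∧ v = 3 * nv φ) ∨ (u < 2 * nv φ ∧ BB φ ≤ v ∧ u / 2 = (v - BB φ) % nv φ) ∨
  (u = 3 * nv φ ∧ 2 * nv φ + φ.length ≤ v ∧ v < BB φ ∧ v ≠ u) ∨
  (u < 2 * nv φ ∧ 2 * nv φ ≤ v ∧ v < 2 * nv φ + φ.length ∧ (u = lc φ (3 * (v - 2 * nv φ)) ∨
    u = lc φ (3 * (v - 2 * nv φ) + 1) ∨ u = lc φ (3 * (v - 2 * nv φ) + 2)))

instance (φ : F3) (u v : ℕ) : Decidable (A φ u v) := by unfold A; infer_instance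

def red (φ : F3) : ℕ × List (ℕ × ℕ) :=
  (BB φ + nv φ * BB φ, edgesOf (BB φ + nv φ * BB φ) fun u v => decide (A φ u v))

theorem pt_red : PT red :=
  PT.mk (by unfold BB; fun_prop) (PT.edgesOf (by unfold BB; fun_prop) (by
    simp only [A, BB]; fun_prop))

abbrev VV (φ : F3) := Fin (BB φ + nv φ * BB φ)
abbrev GG (φ : F3) : SimpleGraph (VV φ) :=
  graphOf _ (edgesOf (BB φ + nv φ * BB φ) fun u v => decide (A φ u v))

variable {φ : F3}

theorem hB (φ : F3) : 3 * nv φ + 1 < BB φ ∧ φ.length < nv φ := by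
  have := lt_nv φ
  unfold BB
  exact ⟨by nlinarith, this⟩

theorem GG_adj {u v : VV φ} : (GG φ).Adj u v ↔ A φ u v ∨ A φ v u := by
  rw [graphOf_edgesOf_adj]
  simp only [decide_eq_true_eq, and_iff_right_iff_imp]
  have := hB φ
  rintro (h | h) e <;> rcases h with h | h | h | h <;> omega

def av (i t : ℕ) (hi : i < nv φ) (ht : t < BB φ) : VV φ := ⟨BB φ + (nv φ * t + i), by nlinarith⟩

theorem av_adj {u : VV φ} {i t hi ht} : (GG φ).Adj u (av i t hi ht) ↔ u.val / 2 = i := by
  have := hB φ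
  have e : (BB φ + (nv φ * t + i) - BB φ) % nv φ = i := by
    rw [Nat.add_sub_cancel_left, Nat.mul_add_mod, Nat.mod_eq_of_lt hi]
  rw [GG_adj]
  simp only [A, av, e]
  constructor
  · rintro (h | h) <;> rcases h with h | h | h | h <;> omega
  · exact fun h => Or.inl (Or.inr (Or.inl (by omega)))

theorem sub_eq (φ : F3) : subT (GG φ) = nv φ + 1 := by
  have h := hB φ
  refine subT_eq (D := BB φ + nv φ + 1) (d := BB φ) (fun v => ?_) (by unfold BB; nlinarith)
    (by nlinarith) (by omega) fun v hv => ?_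
  · have k : ∀ S : Finset ℕ, (∀ u, (GG φ).Adj v u → u.val ∈ S) →
        ((GG φ).neighborSet v).ncard ≤ S.card := fun S hS => by
      rw [← Set.ncard_coe_finset]
      exact Set.ncard_le_ncard_of_injOn Fin.val hS Fin.val_injective.injOn
    by_cases c : v.val < 2 * nv φ
    · refine (k (Finset.Icc (2 * nv φ) (3 * nv φ) ∪ (Finset.range (BB φ)).image fun t =>
        BB φ + (nv φ * t + v.val / 2)) fun u hu => ?_).trans
        ((Finset.card_union_le _ _).trans ?_)
      · rw [GG_adj] at hu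
        by_cases d : BB φ ≤ u.val
        · refine Finset.mem_union_right _ (Finset.mem_image.2 ⟨(u.val - BB φ) / nv φ,
            Finset.mem_range.2 (Nat.div_lt_of_lt_mul (by omega)), ?_⟩)
          have := Nat.div_add_mod (u.val - BB φ) (nv φ)
          rcases hu with h | h <;> rcases h with h | h | h | h <;> omega
        · refine Finset.mem_union_left _ (Finset.mem_Icc.2 ?_)
          rcases hu with h | h <;> rcases h with h | h | h | h <;> omega
      · have := Finset.card_image_le (s := Finset.range (BB φ))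
          (f := fun t => BB φ + (nv φ * t + v.val / 2))
        simp at this ⊢
        omega
    · refine (k (Finset.range (BB φ)) fun u hu => Finset.mem_range.2 ?_).trans (by simp; omega)
      rw [GG_adj] at hu
      rcases hu with h | h <;> rcases h with h | h | h | h <;> omega
  · have hi : v.val / 2 < nv φ := by omega
    refine le_trans (by simp) (Set.ncard_le_ncard_of_injOn (s := Set.univ)
      (fun t : Fin (BB φ) => av _ t hi t.2) (fun t _ => av_adj.2 rfl) fun a _ b _ e => ?_)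
    simp only [av, Fin.mk.injEq, Nat.add_left_cancel_iff, Nat.add_right_cancel_iff] at e
    exact Fin.ext (Nat.eq_of_mul_eq_mul_left (by omega) e)

theorem dom {a : ℕ → ℕ} (a1 : ∀ i, a i / 2 = i) (v : VV φ) (hv : 2 * nv φ ≤ v.val →
    v.val < 2 * nv φ + φ.length → ∃ j < 3, a (lc φ (3 * (v.val - 2 * nv φ) + j) / 2) =
      lc φ (3 * (v.val - 2 * nv φ) + j)) :
    ∃ u : VV φ, (u.val = 3 * nv φ ∨ u.val < 2 * nv φ ∧ a (u.val / 2) = u) ∧ (GG φ).Adj v u := by
  have h := hB φ
  have k : ∀ i < nv φ, ∃ u : VV φ, u.val = a i ∧ u.val / 2 = i ∧ (u.val = 3 * nv φ ∨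
      u.val < 2 * nv φ ∧ a (u.val / 2) = u) := fun i hi => by
    have := a1 i
    exact ⟨⟨a i, by omega⟩, rfl, this, Or.inr ⟨by simp only; omega, by simp [this]⟩⟩
  by_cases c1 : BB φ ≤ v.val
  · obtain ⟨u, -, u2, u3⟩ := k _ (Nat.mod_lt (v.val - BB φ) (by omega))
    have := Nat.mod_lt (v.val - BB φ) (show 0 < nv φ by omega)
    exact ⟨u, u3, GG_adj.2 (Or.inr (Or.inr (Or.inl ⟨by omega, c1, u2⟩)))⟩
  by_cases c2 : v.val = 3 * nv φ
  · obtain ⟨u, -, u2, u3⟩ := k 0 (by omega)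
    exact ⟨u, u3, GG_adj.2 (Or.inr (Or.inl ⟨by omega, c2⟩))⟩
  by_cases c3 : 2 * nv φ ≤ v.val ∧ v.val < 2 * nv φ + φ.length
  · obtain ⟨j, hj, e⟩ := hv c3.1 c3.2
    have := lc_lt (φ := φ) (o := 3 * (v.val - 2 * nv φ) + j) (by omega)
    refine ⟨⟨lc φ (3 * (v.val - 2 * nv φ) + j), by omega⟩, Or.inr ⟨this, e⟩, GG_adj.2 (Or.inr (Or.inr (Or.inr (Or.inr
      ⟨this, c3.1, c3.2, ?_⟩))))⟩
    interval_cases j <;> simp
  · refine ⟨⟨3 * nv φ, by omega⟩, Or.inl rfl, GG_adj.2 ?_⟩
    by_cases c4 : v.val < 2 * nv φ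
    · exact Or.inl (Or.inl ⟨c4, rfl⟩)
    · exact Or.inr (Or.inr (Or.inr (Or.inl ⟨rfl, by omega, by omega, c2⟩)))

theorem valid (v : VV φ) : ∃ u, (GG φ).Adj v u := by
  have h := hB φ
  by_cases c : 2 * nv φ ≤ v.val ∧ v.val < 2 * nv φ + φ.length
  · have := lc_lt (φ := φ) (o := 3 * (v.val - 2 * nv φ)) (by omega)
    exact ⟨⟨lc φ (3 * (v.val - 2 * nv φ)), by omega⟩, GG_adj.2 (Or.inr (Or.inr (Or.inr (Or.inr
      ⟨this, c.1, c.2, Or.inl rfl⟩))))⟩
  · obtain ⟨u, -, hu⟩ := dom (a := fun i => 2 * i) (by simp) v fun a b => absurd ⟨a, b⟩ c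
    exact ⟨u, hu⟩

def g (N v : ℕ) : ℕ := if v < 2 * N then v / 2 else N

theorem low {S : Finset (VV φ)} (hS : ∀ v, ∃ u ∈ S, (GG φ).Adj v u) :
    nv φ + 1 ≤ (S.image fun v : VV φ => g (nv φ) v.val).card := by
  have h := hB φ
  refine le_trans (by simp) (Finset.card_le_card (s := Finset.range (nv φ + 1)) fun i hi => ?_)
  rcases Nat.lt_succ_iff_lt_or_eq.1 (Finset.mem_range.1 hi) with hi | rfl
  · obtain ⟨u, hu, e⟩ := hS (av i 0 hi (by omega))
    have := av_adj.1 e.symm
    exact Finset.mem_image.2 ⟨u, hu, by rw [g, if_pos (by omega), this]⟩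
  · obtain ⟨u, hu, e⟩ := hS ⟨3 * nv φ + 1, by omega⟩
    refine Finset.mem_image.2 ⟨u, hu, if_neg ?_⟩
    simp only [GG_adj, A] at e
    rcases e with h | h <;> rcases h with h | h | h | h <;> omega

theorem key (φ : F3) : Sat3 φ ↔ gammaT (GG φ) = subT (GG φ) := by
  classical
  have h := hB φ
  rw [sub_eq]
  constructor
  · intro hs
    obtain ⟨a, a1, a2⟩ := (sat3_iff_lc' φ).1 hs
    let S : Finset (VV φ) := Finset.univ.filter fun u =>
      u.val = 3 * nv φ ∨ u.val < 2 * nv φ ∧ a (u.val / 2) = u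
    have hS : ∀ v, ∃ u ∈ S, (GG φ).Adj v u := fun v =>
      let ⟨u, h1, h2⟩ := dom a1 v fun _ _ => a2 _ (by omega)
      ⟨u, Finset.mem_filter.2 ⟨Finset.mem_univ _, h1⟩, h2⟩
    refine le_antisymm ((Nat.sInf_le (m := S.card) (by exact ⟨S, rfl, hS⟩)).trans ?_) (le_csInf ⟨_, S, rfl, hS⟩ ?_)
    · refine le_trans (Finset.card_le_card_of_injOn (t := Finset.range (nv φ + 1))
        (fun v : VV φ => g (nv φ) v.val) (fun v _ => ?_) fun u hu v hv e => Fin.ext ?_) (by simp)
      · simp only [g, Finset.coe_range, Set.mem_Iio]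
        split_ifs <;> omega
      · have hu := (Finset.mem_filter.1 hu).2
        have hv := (Finset.mem_filter.1 hv).2
        simp only [g] at e
        split_ifs at e
        · rw [e] at hu; omega
        all_goals omega
    · rintro _ ⟨T, rfl, hT⟩
      exact (low hT).trans Finset.card_image_le
  · intro e
    obtain ⟨S, s1, s2⟩ : gammaT (GG φ) ∈ _ := Nat.sInf_mem (Nat.nonempty_of_pos_sInf (by
      rw [← gammaT, e]; omega))
    have inj := Finset.card_image_iff.1 (le_antisymm Finset.card_image_le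
      ((s1.trans e).le.trans (low s2)))
    refine (sat3_iff_lc φ).2 ⟨fun l => l < 2 * nv φ ∧ ∃ u ∈ S, u.val = l, ?_, fun c hc => ?_⟩
    · rintro _ _ ⟨h1, u, hu, rfl⟩ ⟨h2, v, hv, rfl⟩ e
      exact congrArg Fin.val (inj hu hv (by simp [g, h1, h2, e]))
    · obtain ⟨u, hu, e⟩ := s2 ⟨2 * nv φ + c, by omega⟩
      simp only [GG_adj, A, Nat.add_sub_cancel_left] at e
      have : u.val < 2 * nv φ ∧ (u.val = lc φ (3 * c + 0) ∨ u.val = lc φ (3 * c + 1) ∨
          u.val = lc φ (3 * c + 2)) := by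
        simp only [Nat.add_zero]
        rcases e with h | h <;> rcases h with h | h | h | h <;> omega
      rcases this with ⟨a, b | b | b⟩ <;> exact ⟨_, by omega, b ▸ a, u, hu, b⟩

theorem hard : NPH (fun p : ℕ × List (ℕ × ℕ) => ∀ v, ∃ u, (graphOf p.1 p.2).Adj v u)
    fun p => gammaT (graphOf p.1 p.2) = subT (graphOf p.1 p.2) :=
  sat3_nph.reduce red pt_red fun φ _ => ⟨valid, key φ⟩

end Pool.Agent.H36.SubT
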