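import Pool.Agent.H38.NP.Defs

/-!
Total domination number and sub-total domination number.
-/

namespace Pool.Agent.H36.SubT

variable {n : ℕ}

/-- The total domination number. -/
noncomputable def gammaT (G : SimpleGraph (Fin n)) : ℕ :=
  sInf {k | ∃ S : Finset (Fin n), S.card = k ∧ ∀ v, ∃ u ∈ S, G.Adj v u}

/-- The degree sequence in non-increasing order. -/
noncomputable def degs (G : SimpleGraph (Fin n)) : List ℕ :=
  (List.ofFn fun v => (G.neighborSet v).ncard).mergeSort fun a b => decide (b ≤ a)

/-- The sub-total domination number. -/
noncomputable def subT (G : SimpleGraph (Fin n)) : ℕ := sInf {k | n ≤ ((degs G).take k).sum}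

end Pool.Agent.H36.SubT
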