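import Pool.Agent.H36.TabDefs
import Pool.Agent.H36.Dfa

namespace Pool.Agent.H36.Tab

open Pool.Agent.H38.NP

variable {S : Type} [BEq S] [LawfulBEq S]

def mkT (vs : List S) (m : ℕ) (g : S → ℕ → ℕ) : List (List ℕ) :=
  vs.map fun s => (List.range m).map fun a => g s a

omit [BEq S] [LawfulBEq S] in
theorem mkT_get (vs : List S) (m : ℕ) (g : S → ℕ → ℕ) {q a : ℕ} (h : q < vs.length) (ha : a < m) :
    tb (mkT vs m g) q a = g vs[q] a := by
  simp [tb, mkT, List.getD_eq_getElem?_getD, h, ha]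

theorem mkT_ix (vs : List S) (m : ℕ) (g : S → ℕ → ℕ) {s : S} {a : ℕ} (h : s ∈ vs) (ha : a < m) :
    tb (mkT vs m g) (vs.idxOf s) a = g s a := by
  rw [mkT_get _ _ _ (List.idxOf_lt_length_of_mem h) ha, List.getElem_idxOf]

omit [BEq S] [LawfulBEq S] in
theorem mkT_total (vs : List S) (m r : ℕ) (g : S → ℕ → ℕ) (h : ∀ s ∈ vs, ∀ a < m, g s a < r) :
    Total vs.length m r (mkT vs m g) := fun q hq a ha => by
  rw [mkT_get _ _ _ hq ha]; exact h _ (List.getElem_mem _) a ha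

omit [BEq S] [LawfulBEq S] in
theorem run_mem {vs : List S} {m : ℕ} {δ : S → ℕ → S} (hc : ∀ s ∈ vs, ∀ a < m, δ s a ∈ vs)
    {w : List ℕ} (hw : Word m w) {s : S} (h : s ∈ vs) : w.foldl δ s ∈ vs := by
  induction w generalizing s with
  | nil => exact h
  | cons a w ih => exact ih (fun b hb => hw b (by simp [hb])) (hc _ h _ (hw a (by simp)))

theorem mkT_run {vs : List S} {m : ℕ} {δ : S → ℕ → S} (hc : ∀ s ∈ vs, ∀ a < m, δ s a ∈ vs)
    {w : List ℕ} (hw : Word m w) {s : S} (h : s ∈ vs) :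
    w.foldl (tb (mkT vs m fun s a => vs.idxOf (δ s a))) (vs.idxOf s) = vs.idxOf (w.foldl δ s) := by
  induction w generalizing s with
  | nil => rfl
  | cons a w ih =>
    have ha := hw a (by simp)
    rw [List.foldl_cons, mkT_ix _ _ _ h ha, ih (fun b hb => hw b (by simp [hb])) (hc _ h _ ha)]
    rfl

theorem mem_img {vs : List S} (hn : vs.Nodup) {m : ℕ} {δ : S → ℕ → S}
    (hc : ∀ s ∈ vs, ∀ a < m, δ s a ∈ vs) {w : List ℕ} (hw : Word m w) (x : ℕ) :
    x ∈ img vs.length (mkT vs m fun s a => vs.idxOf (δ s a)) w ↔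
      ∃ s ∈ vs, vs.idxOf (w.foldl δ s) = x := by
  simp only [img, Finset.mem_image, Finset.mem_range]
  constructor
  · rintro ⟨q, hq, rfl⟩
    refine ⟨vs[q], List.getElem_mem _, ?_⟩
    rw [← mkT_run hc hw (List.getElem_mem _), List.Nodup.idxOf_getElem hn]
  · rintro ⟨s, hs, rfl⟩
    exact ⟨_, List.idxOf_lt_length_of_mem hs, mkT_run hc hw hs⟩

theorem img_eq_iff {vs : List S} (hn : vs.Nodup) {m : ℕ} {δ : S → ℕ → S}
    (hc : ∀ s ∈ vs, ∀ a < m, δ s a ∈ vs) {w : List ℕ} (hw : Word m w) {P : List S}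
    (hP : ∀ t ∈ P, t ∈ vs) :
    img vs.length (mkT vs m fun s a => vs.idxOf (δ s a)) w = (P.map vs.idxOf).toFinset ↔
      (∀ s ∈ vs, w.foldl δ s ∈ P) ∧ ∀ t ∈ P, ∃ s ∈ vs, w.foldl δ s = t := by
  simp only [Finset.ext_iff, mem_img hn hc hw, List.mem_toFinset, List.mem_map]
  constructor
  · intro h
    refine ⟨fun s hs => ?_, fun t ht => ?_⟩
    · obtain ⟨t, ht, e⟩ := (h _).1 ⟨s, hs, rfl⟩
      rwa [← (List.idxOf_inj (hP t ht)).1 e]
    · obtain ⟨s, hs, e⟩ := (h _).2 ⟨t, ht, rfl⟩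
      exact ⟨s, hs, (List.idxOf_inj (run_mem hc hw hs)).1 e⟩
  · rintro ⟨h1, h2⟩ x
    constructor
    · rintro ⟨s, hs, rfl⟩
      exact ⟨_, h1 s hs, rfl⟩
    · rintro ⟨t, ht, rfl⟩
      obtain ⟨s, hs, rfl⟩ := h2 t ht
      exact ⟨s, hs, rfl⟩

theorem img_card_one {vs : List S} (hn : vs.Nodup) (h0 : vs ≠ []) {m : ℕ} {δ : S → ℕ → S}
    (hc : ∀ s ∈ vs, ∀ a < m, δ s a ∈ vs) {w : List ℕ} (hw : Word m w) :
    (img vs.length (mkT vs m fun s a => vs.idxOf (δ s a)) w).card = 1 ↔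
      ∀ s ∈ vs, ∀ t ∈ vs, w.foldl δ s = w.foldl δ t := by
  obtain ⟨s0, hs0⟩ := List.exists_mem_of_ne_nil _ h0
  rw [Finset.card_eq_one]
  simp only [Finset.ext_iff, mem_img hn hc hw, Finset.mem_singleton]
  constructor
  · rintro ⟨x, h⟩ s hs t ht
    refine (List.idxOf_inj (run_mem hc hw hs)).1 ?_
    rw [(h _).1 ⟨s, hs, rfl⟩, (h _).1 ⟨t, ht, rfl⟩]
  · intro h
    refine ⟨vs.idxOf (w.foldl δ s0), fun x => ⟨?_, ?_⟩⟩
    · rintro ⟨s, hs, rfl⟩
      rw [h s hs s0 hs0]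
    · rintro rfl
      exact ⟨s0, hs0, rfl⟩

open PSpace

/-- states: `(0, j)` for `j < r`, and `(i + 1, q)` for the states `q` of the `i`-th DFA -/
def sts (r : ℕ) (Ds : List Dfa) : List (ℕ × ℕ) :=
  (List.range r).map (fun j => (0, j)) ++
    (List.range Ds.length).flatMap fun i => (List.range (Ds.getD i []).length).map fun q => (i + 1, q)

theorem mem_sts {r : ℕ} {Ds : List Dfa} {c q : ℕ} :
    (c, q) ∈ sts r Ds ↔ (c = 0 ∧ q < r) ∨ ∃ i < Ds.length, c = i + 1 ∧ q < (Ds.getD i []).length := by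
  simp only [sts, List.mem_append, List.mem_map, List.mem_range, Prod.mk.injEq, List.mem_flatMap]
  constructor
  · rintro (⟨j, hj, rfl, rfl⟩ | ⟨i, hi, j, hj, rfl, rfl⟩)
    · exact Or.inl ⟨rfl, hj⟩
    · exact Or.inr ⟨i, hi, rfl, hj⟩
  · rintro (⟨rfl, h⟩ | ⟨i, hi, rfl, h⟩)
    · exact Or.inl ⟨q, h, rfl, rfl⟩
    · exact Or.inr ⟨i, hi, q, h, rfl, rfl⟩

theorem nodup_sts (r : ℕ) (Ds : List Dfa) : (sts r Ds).Nodup := by
  refine List.nodup_append.2 ⟨List.nodup_range.map fun a b h => by simpa using h, ?_, ?_⟩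
  · refine List.nodup_flatMap.2 ⟨fun i _ => List.nodup_range.map fun a b h => by simpa using h, ?_⟩
    refine List.nodup_range.pairwise_of_forall_ne fun a _ b _ h => ?_
    simp only [Function.onFun, List.disjoint_left, List.mem_map, not_exists, not_and]
    rintro _ ⟨x, -, rfl⟩ y - e
    simp only [Prod.mk.injEq] at e
    omega
  · simp only [List.mem_map, List.mem_flatMap]
    rintro _ ⟨x, -, rfl⟩ _ ⟨i, -, y, -, rfl⟩
    simp

@[fun_prop] theorem pt_sts {α : Type} [Enc α] {r : α → ℕ} {Ds : α → List Dfa} (hr : PT r)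
    (hD : PT Ds) : PT fun a => sts (r a) (Ds a) := by
  unfold sts; fun_prop

theorem wf_get {Ds : List Dfa} (h : WF Ds) {i : ℕ} (hi : i < Ds.length) :
    0 < (Ds.getD i []).length ∧ ∀ q < (Ds.getD i []).length, ∀ b,
      dstep (Ds.getD i []) q b < (Ds.getD i []).length := by
  rw [List.getD_eq_getElem _ _ hi]
  exact h.2 _ (List.getElem_mem _)

theorem inter_iff' (Ds : List Dfa) : Inter Ds ↔ ∃ w : List Bool, ∀ i < Ds.length,
    dacc (Ds.getD i []) (w.foldl (dstep (Ds.getD i [])) 0) = true := by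
  refine exists_congr fun w => ⟨fun h i hi => ?_, fun h D hD => ?_⟩
  · rw [List.getD_eq_getElem _ _ hi]; exact h _ (List.getElem_mem _)
  · obtain ⟨i, hi, rfl⟩ := List.getElem_of_mem hD
    rw [← List.getD_eq_getElem _ [] hi]; exact h i hi

end Pool.Agent.H36.Tab
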