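import Mathlib

namespace Pool.Agent.H36.Tab

/-- entry `(q, a)` of a table -/
def tb (T : List (List ℕ)) (q a : ℕ) : ℕ := (T.getD q []).getD a 0

/-- the table describes a total map `{0..n-1} × {0..m-1} → {0..r-1}` -/
def Total (n m r : ℕ) (T : List (List ℕ)) : Prop := ∀ q < n, ∀ a < m, tb T q a < r

/-- words over the alphabet `{0..m-1}` -/
def Word (m : ℕ) (w : List ℕ) : Prop := ∀ a ∈ w, a < m

/-- the image `Q.w` of the whole state set `Q = {0..n-1}` under the word `w` -/
def img (n : ℕ) (T : List (List ℕ)) (w : List ℕ) : Finset ℕ :=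
  (Finset.range n).image fun q => w.foldl (tb T) q

end Pool.Agent.H36.Tab
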