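import Pool.Agent.H36.TopKDefs

namespace Pool.Agent.H36.TopK

open Finset Classical

abbrev Gr (N : ℕ) := Fin N × Fin 4

variable {N : ℕ}

noncomputable def U (B : Set (Gr N)) : Finset (Gr N) :=
  univ.filter fun x => x ∈ B ∧ (x.2 = 0 ∨ x.2 = 1)

noncomputable def A (B : Set (Gr N)) : Finset (Fin N) := univ.filter fun i => (i, 0) ∈ B

@[simp] theorem mem_U {B : Set (Gr N)} {x} : x ∈ U B ↔ x ∈ B ∧ (x.2 = 0 ∨ x.2 = 1) := by simp [U]
@[simp] theorem mem_A {B : Set (Gr N)} {i} : i ∈ A B ↔ (i, 0) ∈ B := by simp [A]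

def Tr (B : Set (Gr N)) : Prop := ∀ i, (i, 0) ∈ B ↔ (i, 1) ∉ B

def Base1 (n : ℕ) (ok : Finset (Fin N) → Prop) (B : Set (Gr N)) : Prop :=
  (U B).card = N ∧ (∀ i, (i, 2) ∈ B ↔ (i, 3) ∉ B) ∧ (Tr B → (A B).card = n → ok (A B))

def Base2 (B : Set (Gr N)) : Prop :=
  (∀ i, (i, 0) ∈ B ↔ (i, 3) ∉ B) ∧ (∀ i, (i, 1) ∈ B ↔ (i, 2) ∉ B)

/-- the common base determined by `h` -/
def CB (h : Finset (Fin N)) : Set (Gr N) :=
  {x | (x.1 ∈ h ∧ (x.2 = 0 ∨ x.2 = 2)) ∨ (x.1 ∉ h ∧ (x.2 = 1 ∨ x.2 = 3))}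

theorem A_CB (h : Finset (Fin N)) : A (CB h) = h := by ext i; simp [CB]

theorem card_U_of_tr {B : Set (Gr N)} (h : Tr B) : (U B).card = N := by
  have : (U B).card = (univ : Finset (Fin N)).card := by
    refine card_bij (fun x _ => x.1) (by simp) ?_ ?_
    · rintro ⟨i, t⟩ h1 ⟨j, s⟩ h2 e
      obtain rfl : i = j := e
      simp only [mem_U] at h1 h2
      have := h i
      rcases h1 with ⟨h1, rfl | rfl⟩ <;> rcases h2 with ⟨h2, rfl | rfl⟩ <;> simp_all
    · intro i _
      by_cases hi : (i, 0) ∈ B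
      · exact ⟨(i, 0), by simp [hi], rfl⟩
      · exact ⟨(i, 1), by simpa [hi] using h i, rfl⟩
  simpa using this

theorem base1_CB {n ok} (h : Finset (Fin N)) (hh : h.card = n → ok h) : Base1 n ok (CB h) := by
  refine ⟨card_U_of_tr fun i => by simp [CB], fun i => by simp [CB], fun _ => ?_⟩
  rwa [A_CB]

theorem base2_CB (h : Finset (Fin N)) : Base2 (CB h) :=
  ⟨fun i => by simp [CB], fun i => by simp [CB]⟩

theorem common_eq {n ok} {B : Set (Gr N)} (h1 : Base1 n ok B) (h2 : Base2 B) :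
    B = CB (A B) ∧ ((A B).card = n → ok (A B)) := by
  have ht : Tr B := fun i => by have := h1.2.1 i; have := h2.1 i; have := h2.2 i; tauto
  refine ⟨?_, h1.2.2 ht⟩
  ext ⟨i, t⟩
  have := h1.2.1 i; have := h2.1 i; have := h2.2 i
  fin_cases t <;> simp [CB] <;> tauto

theorem exch2 : Matroid.ExchangeProperty (Base2 (N := N)) := by
  rintro B1 B2 h1 h2 ⟨i, t⟩ ⟨hx1, hx2⟩
  have a1 := h1.1 i; have a2 := h1.2 i; have b1 := h2.1 i; have b2 := h2.2 i
  refine ⟨(i, 3 - t), ?_, fun j => ?_, fun j => ?_⟩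
  · fin_cases t <;> simp at * <;> tauto
  · have := h1.1 j
    by_cases e : j = i
    · subst e; fin_cases t <;> simp at * <;> tauto
    · simp [e, this]
  · have := h1.2 j
    by_cases e : j = i
    · subst e; fin_cases t <;> simp at * <;> tauto
    · simp [e, this]

theorem exch1 (n ok) : Matroid.ExchangeProperty (Base1 (N := N) n ok) := by
  rintro B1 B2 h1 h2 ⟨i, t⟩ ⟨hx1, hx2⟩
  by_cases ht : t = 2 ∨ t = 3
  · have a1 := h1.2.1 i; have b1 := h2.2.1 i
    have eU : U (insert (i, 5 - t) (B1 \ {(i, t)})) = U B1 := by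
      ext ⟨j, s⟩
      rcases ht with rfl | rfl <;> fin_cases s <;> simp
    have eA : A (insert (i, 5 - t) (B1 \ {(i, t)})) = A B1 := by
      ext j
      rcases ht with rfl | rfl <;> simp
    refine ⟨(i, 5 - t), ?_, by rw [eU]; exact h1.1, fun j => ?_, fun h => ?_⟩
    · rcases ht with rfl | rfl <;> simp at * <;> tauto
    · have := h1.2.1 j
      by_cases e : j = i
      · subst e; rcases ht with rfl | rfl <;> simp
      · simp [e, this]
    · rw [eA]
      refine h1.2.2 fun j => ?_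
      have := h j
      rcases ht with rfl | rfl <;> simpa using this
  have ht' : t = 0 ∨ t = 1 := by revert ht; fin_cases t <;> simp
  have hxU : (i, t) ∈ U B1 := by simp [hx1, ht']
  have eU : ∀ y ∈ U B2, U (insert y (B1 \ {(i, t)})) = insert y ((U B1).erase (i, t)) := by
    intro y hy
    ext z
    simp only [mem_U, Set.mem_insert_iff, Set.mem_sdiff, Set.mem_singleton_iff, mem_insert,
      mem_erase] at hy ⊢
    constructor
    · rintro ⟨rfl | h, h'⟩
      · exact Or.inl rfl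
      · exact Or.inr ⟨h.2, h.1, h'⟩
    · rintro (rfl | h)
      · exact ⟨Or.inl rfl, hy.2⟩
      · exact ⟨Or.inr ⟨h.2.1, h.1⟩, h.2.2⟩
  have hc : ∀ y ∈ U B2, y ∉ B1 → (U (insert y (B1 \ {(i, t)}))).card = N := by
    intro y hy hy'
    rw [eU y hy, card_insert_of_notMem (by simp [hy']), card_erase_add_one hxU, h1.1]
  have h23 : ∀ y ∈ U B2, ∀ j, (j, 2) ∈ insert y (B1 \ {(i, t)}) ↔
      (j, 3) ∉ insert y (B1 \ {(i, t)}) := by
    rintro ⟨k, s⟩ hy j
    have := h1.2.1 j
    rcases (mem_U.1 hy).2 with h | h <;> simp only at h <;> subst h <;>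
      rcases ht' with rfl | rfl <;> simp [this]
  obtain ⟨y0, hy0, hy0'⟩ : ∃ y ∈ U B2, y ∉ B1 := by
    by_contra h
    push Not at h
    have : U B2 ⊆ (U B1).erase (i, t) := fun y hy => by
      rw [mem_erase]
      exact ⟨by rintro rfl; exact hx2 (mem_U.1 hy).1, mem_U.2 ⟨h y hy, (mem_U.1 hy).2⟩⟩
    have h3 := card_le_card this
    have := card_erase_add_one hxU
    have := h1.1; have := h2.1
    omega
  by_cases hb : Tr (insert y0 (B1 \ {(i, t)})) ∧ (A (insert y0 (B1 \ {(i, t)}))).card = n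
  swap
  · exact ⟨y0, ⟨(mem_U.1 hy0).1, hy0'⟩, hc _ hy0 hy0', h23 _ hy0, fun a b => (hb ⟨a, b⟩).elim⟩
  by_cases ho : ∃ y ∈ U B2, y ∉ B1 ∧ y ≠ y0
  · obtain ⟨y1, hy1, hy1', hne⟩ := ho
    refine ⟨y1, ⟨(mem_U.1 hy1).1, hy1'⟩, hc _ hy1 hy1', h23 _ hy1, fun a b => ?_⟩
    exfalso
    obtain ⟨k, s⟩ := y0
    obtain ⟨k', s'⟩ := y1
    have p := hb.1 k
    have q := a k
    have hb2 := hb.2
    rcases (mem_U.1 hy0).2 with h | h <;> simp only at h <;> subst h
    · have e : (k', s') = (k, 1) := by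
        by_contra e
        simp [hy0', hne.symm, Ne.symm e] at p q
        tauto
      obtain ⟨rfl, rfl⟩ := Prod.mk.inj e
      have : A (insert (k', 0) (B1 \ {(i, t)})) = insert k' (A (insert (k', 1) (B1 \ {(i, t)}))) := by
        ext j; simp
      rw [this, card_insert_of_notMem (by simp [hy0'])] at hb2
      omega
    · have e : (k', s') = (k, 0) := by
        by_contra e
        simp [hy0', hne.symm, Ne.symm e] at p q
        tauto
      obtain ⟨rfl, rfl⟩ := Prod.mk.inj e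
      have : A (insert (k', 0) (B1 \ {(i, t)})) = insert k' (A (insert (k', 1) (B1 \ {(i, t)}))) := by
        ext j; simp
      rw [this, card_insert_of_notMem (by simp [hy1'])] at b
      omega
  · push Not at ho
    have e : U B2 = U (insert y0 (B1 \ {(i, t)})) := by
      refine eq_of_subset_of_card_le (fun y hy => ?_) (by rw [hc _ hy0 hy0', h2.1])
      rw [eU _ hy0, mem_insert, mem_erase]
      by_cases h : y ∈ B1
      · exact Or.inr ⟨by rintro rfl; exact hx2 (mem_U.1 hy).1, mem_U.2 ⟨h, (mem_U.1 hy).2⟩⟩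
      · exact Or.inl (ho y hy h)
    have e0 : ∀ j, (j, 0) ∈ B2 ↔ (j, 0) ∈ insert y0 (B1 \ {(i, t)}) := fun j => by
      have := congrArg ((j, 0) ∈ ·) e
      simpa only [mem_U, true_or, and_true, eq_iff_iff] using this
    have e1 : ∀ j, (j, 1) ∈ B2 ↔ (j, 1) ∈ insert y0 (B1 \ {(i, t)}) := fun j => by
      have := congrArg ((j, 1) ∈ ·) e
      simpa only [mem_U, or_true, and_true, eq_iff_iff] using this
    have eA : A (insert y0 (B1 \ {(i, t)})) = A B2 := by ext j; rw [mem_A, mem_A, e0]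
    refine ⟨y0, ⟨(mem_U.1 hy0).1, hy0'⟩, hc _ hy0 hy0', h23 _ hy0, fun a b => ?_⟩
    rw [eA] at b ⊢
    exact h2.2.2 (fun j => by rw [e0, e1]; exact a j) b

noncomputable def M1 (N n : ℕ) (hn : 0 < n) (ok : Finset (Fin N) → Prop) : Matroid (Gr N) :=
  Matroid.ofIsBaseOfFinite Set.finite_univ (Base1 n ok)
    ⟨CB ∅, base1_CB ∅ fun h => by simp at h; omega⟩ (exch1 n ok) (fun _ _ => Set.subset_univ _)

noncomputable def M2 (N : ℕ) : Matroid (Gr N) :=
  Matroid.ofIsBaseOfFinite Set.finite_univ Base2 ⟨CB ∅, base2_CB ∅⟩ exch2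
    (fun _ _ => Set.subset_univ _)

theorem M1_base {n} (hn : 0 < n) (ok) (B : Set (Gr N)) : (M1 N n hn ok).IsBase B ↔ Base1 n ok B := by
  simp [M1]

theorem M2_base (B : Set (Gr N)) : (M2 N).IsBase B ↔ Base2 B := by simp [M2]

theorem indep_same {n} (hn : 0 < n) (h : Finset (Fin N)) (Q : Set (Gr N)) (hQ : A Q ≠ h) :
    (M1 N n hn (· = h)).Indep Q → (M1 N n hn fun _ => False).Indep Q := by
  simp only [Matroid.indep_iff, M1_base]
  rintro ⟨B, hB, hQB⟩
  by_cases hb : Tr B ∧ (A B).card = n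
  · have e := hB.2.2 hb.1 hb.2
    obtain ⟨i, hi, hi'⟩ : ∃ i, (i, 0) ∈ B ∧ (i, 0) ∉ Q := by
      by_contra hc
      push Not at hc
      apply hQ
      rw [← e]
      ext i; simp only [mem_A]; exact ⟨fun h => hQB h, hc i⟩
    have ht : Tr (insert (i, 1) (B \ {(i, 0)})) := fun j => by
      have := hb.1 j
      by_cases e : j = i
      · subst e; simp
      · simp [e, this]
    refine ⟨insert (i, 1) (B \ {(i, 0)}), ⟨card_U_of_tr ht, fun j => ?_, fun _ hc => ?_⟩,
      fun x hx => Or.inr ⟨hQB hx, by rintro rfl; exact hi' hx⟩⟩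
    · simpa using hB.2.1 j
    · have : A (insert (i, 1) (B \ {(i, 0)})) = (A B).erase i := by ext j; simp [and_comm]
      rw [this] at hc
      have := card_erase_add_one (mem_A.2 hi)
      omega
  · exact ⟨B, ⟨hB.1, hB.2.1, fun a b => hb ⟨a, b⟩⟩, hQB⟩

theorem indep_iff' {n} (hn : 0 < n) (h : Finset (Fin N)) (Q : Set (Gr N)) (hQ : A Q ≠ h) :
    (M1 N n hn (· = h)).Indep Q ↔ (M1 N n hn fun _ => False).Indep Q := by
  refine ⟨indep_same hn h Q hQ, ?_⟩
  simp only [Matroid.indep_iff, M1_base]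
  rintro ⟨B, hB, hQB⟩
  exact ⟨B, ⟨hB.1, hB.2.1, fun a b => (hB.2.2 a b).elim⟩, hQB⟩

/-- few queries cannot distinguish -/
theorem fool {S I : Type} (M M' : Matroid S) (F : I → Matroid S) (γ : Finset S → I)
    (h : ∀ i (Q : Finset S), γ Q ≠ i → ((F i).Indep Q ↔ M.Indep Q)) (T : QTree S) :
    ∃ L : Finset I, L.card ≤ (T.run M M').2 ∧ ∀ i ∉ L, T.run (F i) M' = T.run M M' := by
  induction T with
  | out X => exact ⟨∅, by simp, fun _ _ => rfl⟩
  | ask b Q y n ihy ihn =>
    obtain ⟨Ly, hy, hy'⟩ := ihy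
    obtain ⟨Ln, hn, hn'⟩ := ihn
    have key : ∀ i, γ Q ≠ i → ((if b then M' else F i).Indep Q ↔ (if b then M' else M).Indep Q) :=
      fun i hi => by cases b <;> simp [h i Q hi]
    by_cases hq : (if b then M' else M).Indep Q
    · refine ⟨insert (γ Q) Ly, ?_, fun i hi => ?_⟩
      · simp only [QTree.run, hq, if_true]
        exact (card_insert_le _ _).trans (by omega)
      · rw [mem_insert, not_or] at hi
        simp only [QTree.run, key i (Ne.symm hi.1), hq, if_true, hy' i hi.2]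
    · refine ⟨insert (γ Q) Ln, ?_, fun i hi => ?_⟩
      · simp only [QTree.run, hq, if_false]
        exact (card_insert_le _ _).trans (by omega)
      · rw [mem_insert, not_or] at hi
        simp only [QTree.run, key i (Ne.symm hi.1), hq, if_false, hn' i hi.2]

def wt (x : Gr N) : ℚ := if x.2 = 0 then 3 else if x.2 = 2 then 0 else 2

theorem sum_CB (h : Finset (Fin N)) (f : Fin 4 → ℚ) (P : Fin 4 → Prop) [DecidablePred P]
    [DecidablePred fun x : Gr N => x ∈ CB h ∧ P x.2] :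
    ∑ x ∈ univ.filter (fun x : Gr N => x ∈ CB h ∧ P x.2), f x.2 =
      h.card * ((if P 0 then f 0 else 0) + if P 2 then f 2 else 0) +
      (N - h.card) * ((if P 1 then f 1 else 0) + if P 3 then f 3 else 0) := by
  rw [sum_filter, Fintype.sum_prod_type, ← sum_add_sum_compl h]
  congr 1
  · rw [sum_congr rfl (g := fun _ => (if P 0 then f 0 else 0) + if P 2 then f 2 else 0)]
    · simp only [sum_const, nsmul_eq_mul]
    · intro i hi; simp [Fin.sum_univ_four, CB, hi]
  · rw [sum_congr rfl (g := fun _ => (if P 1 then f 1 else 0) + if P 3 then f 3 else 0)]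
    · have := card_le_univ h
      simp only [Fintype.card_fin] at this
      simp only [sum_const, nsmul_eq_mul, card_compl, Fintype.card_fin, Nat.cast_sub this]
    · intro i hi
      rw [mem_compl] at hi
      simp [Fin.sum_univ_four, CB, hi]

theorem small {n} (hn : 0 < n) (X : Finset (Gr (2 * n)))
    (hX : Feasible (M1 (2 * n) n hn fun _ => False) (M2 (2 * n)) (3 * n) X) :
    ∑ x ∈ X, wt x < 7 * n := by
  obtain ⟨hc, B, h1, h2, hXB⟩ := hX
  obtain ⟨e, hne⟩ := common_eq ((M1_base hn _ _).1 h1) ((M2_base _).1 h2)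
  set h := A B
  rcases lt_or_gt_of_ne hne with hlt | hlt
  · have : ∑ x ∈ X, wt x ≤ ∑ x ∈ X, (2 + if x.2 = 0 then 1 else 0 : ℚ) :=
      sum_le_sum fun x _ => by unfold wt; split_ifs <;> norm_num
    rw [sum_add_distrib, ← sum_filter] at this
    have h3 : ∑ x ∈ X.filter (fun x => x.2 = 0), (1 : ℚ) ≤
        ∑ x ∈ univ.filter (fun x : Gr (2 * n) => x ∈ CB h ∧ x.2 = 0), (fun _ => (1 : ℚ)) x.2 :=
      sum_le_sum_of_subset_of_nonneg (fun x hx => by
        rw [mem_filter] at hx ⊢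
        exact ⟨mem_univ _, e ▸ hXB hx.1, hx.2⟩) fun _ _ _ => by norm_num
    replace h3 := h3.trans_eq (sum_CB h (fun _ => 1) (· = 0))
    simp [hc] at h3 this
    have : (h.card : ℚ) < n := by exact_mod_cast hlt
    have h4 : ((X.filter fun x => x.2 = 0).card : ℚ) ≤ h.card := by exact_mod_cast h3
    linarith
  · have h3 : ∑ x ∈ X, wt x ≤ ∑ x ∈ univ.filter (fun x : Gr (2 * n) => x ∈ CB h ∧ True),
        (fun t : Fin 4 => if t = 0 then (3 : ℚ) else if t = 2 then 0 else 2) x.2 :=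
      sum_le_sum_of_subset_of_nonneg (fun x hx => by
        rw [mem_filter]
        exact ⟨mem_univ _, e ▸ hXB hx, trivial⟩) fun x _ _ => by
          unfold wt; split_ifs <;> norm_num
    replace h3 := h3.trans_eq (sum_CB h
      (fun t : Fin 4 => if t = 0 then (3 : ℚ) else if t = 2 then 0 else 2) (fun _ => True))
    simp at h3
    have : (n : ℚ) < h.card := by exact_mod_cast hlt
    linarith

theorem big {n} (hn : 0 < n) (h : Finset (Fin (2 * n))) (hh : h.card = n) :
    ∃ X, Feasible (M1 (2 * n) n hn (· = h)) (M2 (2 * n)) (3 * n) X ∧ ∑ x ∈ X, wt x = 7 * n := by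
  refine ⟨univ.filter (fun x : Gr (2 * n) => x ∈ CB h ∧ x.2 ≠ 2), ⟨?_, CB h,
    (M1_base hn _ _).2 (base1_CB h fun _ => rfl), (M2_base _).2 (base2_CB h), fun x hx => by simp at hx; exact hx.1⟩, ?_⟩
  · have := sum_CB h (fun _ => 1) (· ≠ 2)
    simp [hh] at this
    have h2 : ((univ.filter (fun x : Gr (2 * n) => x ∈ CB h ∧ x.2 ≠ 2)).card : ℚ) = (3 * n : ℕ) := by
      simp only [ne_eq]; rw [this]; push_cast; ring
    exact_mod_cast h2
  · have := sum_CB h (fun t : Fin 4 => if t = 0 then (3 : ℚ) else if t = 2 then 0 else 2) (· ≠ 2)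
    simp only [wt]
    rw [this]
    simp [hh]; ring

theorem feasible_map {S S' : Type} (e : S ≃ S') (M M' : Matroid S) (k) (X : Finset S') :
    Feasible (M.mapEquiv e) (M'.mapEquiv e) k X ↔ Feasible M M' k (X.map e.symm.toEmbedding) := by
  simp only [Feasible, card_map, Matroid.mapEquiv_isBase_iff, coe_map, Equiv.coe_toEmbedding]
  refine and_congr_right fun _ => ⟨?_, ?_⟩
  · rintro ⟨B, h1, h2, h3⟩
    exact ⟨_, h1, h2, Set.image_mono h3⟩
  · rintro ⟨B, h1, h2, h3⟩
    refine ⟨e '' B, by simpa using h1, by simpa using h2, fun x hx => ?_⟩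
    exact ⟨e.symm x, h3 ⟨x, hx, rfl⟩, by simp⟩

/-- exponential lower bound -/
theorem lower {n} (hn : 0 < n) {S : Type} (e : Gr (2 * n) ≃ S) (T : QTree S)
    (hT : ∀ ok, Optimal ((M1 (2 * n) n hn ok).mapEquiv e) ((M2 (2 * n)).mapEquiv e)
      (fun x => wt (e.symm x)) (3 * n)
      (T.run ((M1 (2 * n) n hn ok).mapEquiv e) ((M2 (2 * n)).mapEquiv e)).1) :
    n.centralBinom ≤ (T.run ((M1 (2 * n) n hn fun _ => False).mapEquiv e)
      ((M2 (2 * n)).mapEquiv e)).2 := by
  obtain ⟨L, hL, hL'⟩ := fool ((M1 (2 * n) n hn fun _ => False).mapEquiv e)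
    ((M2 (2 * n)).mapEquiv e) (fun h => (M1 (2 * n) n hn (· = h)).mapEquiv e)
    (fun Q => A (e.symm '' Q)) (fun h Q hQ => by
      simp only [Matroid.mapEquiv_indep_iff]; exact indep_iff' hn h _ hQ) T
  refine le_trans ?_ hL
  have : powersetCard n (univ : Finset (Fin (2 * n))) ⊆ L := by
    intro h hh
    by_contra hc
    have h1 := small hn _ ((feasible_map e _ _ _ _).1 (hT fun _ => False).1)
    obtain ⟨X, hX, hw⟩ := big hn h (mem_powersetCard.1 hh).2
    have h2 := (hT (· = h)).2 (X.map e.toEmbedding) ((feasible_map e _ _ _ _).2 (by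
      rwa [map_map, show e.toEmbedding.trans e.symm.toEmbedding = Function.Embedding.refl _ by
        ext <;> simp, map_refl]))
    rw [hL' h hc] at h2
    simp only [sum_map, Equiv.coe_toEmbedding, Equiv.symm_apply_apply] at h1 h2
    linarith
  simpa [Nat.centralBinom] using card_le_card this

theorem grow (p : Polynomial ℕ) : ∃ n, 0 < n ∧ p.eval (32 * n) < n.centralBinom := by
  obtain ⟨c, d, h⟩ : ∃ c d : ℕ, ∀ x, 1 ≤ x → p.eval x ≤ c * x ^ d := by
    induction p using Polynomial.induction_on' with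
    | add p q hp hq =>
      obtain ⟨c, d, h⟩ := hp
      obtain ⟨c', d', h'⟩ := hq
      refine ⟨c + c', d + d', fun x hx => ?_⟩
      rw [Polynomial.eval_add, add_mul]
      exact add_le_add ((h x hx).trans (Nat.mul_le_mul_left _ (Nat.pow_le_pow_right hx (by omega))))
        ((h' x hx).trans (Nat.mul_le_mul_left _ (Nat.pow_le_pow_right hx (by omega))))
    | monomial n a => exact ⟨a, n, fun x _ => by simp⟩
  have ht := tendsto_pow_const_div_const_pow_of_one_lt (d + 1) (show (1 : ℝ) < 4 by norm_num)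
  have hp : (0 : ℝ) < 1 / (c * 32 ^ d + 1) := by positivity
  obtain ⟨n, hn, hn4⟩ := ((ht.eventually (gt_mem_nhds hp)).and (Filter.eventually_ge_atTop 4)).exists
  refine ⟨n, by omega, ?_⟩
  have h1 := Nat.four_pow_lt_mul_centralBinom n hn4
  have h2 := h (32 * n) (by omega)
  rw [div_lt_div_iff₀ (by positivity) (by positivity), one_mul] at hn
  have h3 : n ^ (d + 1) * (c * 32 ^ d + 1) < 4 ^ n := by exact_mod_cast hn
  have h4 : n * (c * (32 * n) ^ d) < n * n.centralBinom := by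
    refine lt_of_le_of_lt ?_ (h3.trans h1)
    rw [mul_pow, pow_succ]
    nlinarith [Nat.zero_le (n ^ d * n)]
  exact lt_of_le_of_lt h2 (Nat.lt_of_mul_lt_mul_left h4)

theorem main : ¬ ∃ (Alg : ∀ m : ℕ, (Fin m → ℚ) → ℕ → QTree (Fin m)) (p : Polynomial ℕ),
    ∀ (m : ℕ) (M₁ M₂ : Matroid (Fin m)) (w : Fin m → ℚ) (k : ℕ),
      M₁.E = Set.univ → M₂.E = Set.univ → (∀ e, 0 ≤ w e) →
      (∃ B, M₁.IsBase B ∧ M₂.IsBase B ∧ k ≤ B.ncard) →
      ((Alg m w k).run M₁ M₂).2 ≤ p.eval (m + bitSize w) ∧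
        Optimal M₁ M₂ w k ((Alg m w k).run M₁ M₂).1 := by
  rintro ⟨Alg, p, h⟩
  obtain ⟨n, hn, hp⟩ := grow p
  let e : Gr (2 * n) ≃ Fin (2 * n * 4) := finProdFinEquiv
  have key := fun ok => h (2 * n * 4) ((M1 (2 * n) n hn ok).mapEquiv e) ((M2 (2 * n)).mapEquiv e)
    (fun x => wt (e.symm x)) (3 * n) (by simp [M1]) (by simp [M2])
    (fun x => by unfold wt; split_ifs <;> norm_num)
    ⟨e '' CB ∅, by
      rw [Matroid.mapEquiv_isBase_iff, Equiv.symm_image_image, M1_base]
      exact base1_CB ∅ fun h => by simp at h; omega, by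
      rw [Matroid.mapEquiv_isBase_iff, Equiv.symm_image_image, M2_base]
      exact base2_CB ∅, by
      rw [Set.ncard_image_of_injective _ e.injective]
      have := sum_CB (∅ : Finset (Fin (2 * n))) (fun _ => 1) (fun _ => True)
      simp only [and_true, sum_const, card_empty, if_true, nsmul_eq_mul, mul_one] at this
      rw [Set.ncard_eq_toFinset_card', ← Nat.cast_le (α := ℚ)]
      have e2 : (CB (∅ : Finset (Fin (2 * n)))).toFinset = univ.filter (· ∈ CB ∅) := by ext; simp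
      rw [e2, this]
      push_cast
      have : (0 : ℚ) ≤ n := by positivity
      linarith⟩
  have h1 := lower hn e _ fun ok => (key ok).2
  have h2 := (key fun _ => False).1
  have h3 : 2 * n * 4 + bitSize (fun x => wt (e.symm x)) ≤ 32 * n := by
    have : bitSize (fun x => wt (e.symm x)) ≤ ∑ _x : Fin (2 * n * 4), 3 :=
      sum_le_sum fun x _ => by simp only [wt]; split_ifs <;> decide
    simp at this; omega
  have h4 : p.eval (2 * n * 4 + bitSize fun x => wt (e.symm x)) ≤ p.eval (32 * n) := by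
    rw [Polynomial.eval_eq_sum_range, Polynomial.eval_eq_sum_range]
    exact sum_le_sum fun i _ => Nat.mul_le_mul_left _ (Nat.pow_le_pow_left h3 _)
  omega

end Pool.Agent.H36.TopK
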