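import Mathlib

namespace Pool.Agent.H36.TopK

/-- A deterministic oracle algorithm on a fixed explicit input: a decision tree whose inner nodes
ask whether a set `Q` is independent in the first (`false`) or second (`true`) matroid. -/
inductive QTree (S : Type) where
  | out (X : Finset S)
  | ask (second : Bool) (Q : Finset S) (yes no : QTree S)

open Classical in
/-- output of the algorithm and number of oracle calls -/
noncomputable def QTree.run {S : Type} (M₁ M₂ : Matroid S) : QTree S → Finset S × ℕ
  | .out X => (X, 0)
  | .ask b Q yes no =>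
    let r := if (if b then M₂ else M₁).Indep Q then yes.run M₁ M₂ else no.run M₁ M₂
    (r.1, r.2 + 1)

/-- `X` has `k` elements and lies in a common base -/
def Feasible {S : Type} (M₁ M₂ : Matroid S) (k : ℕ) (X : Finset S) : Prop :=
  X.card = k ∧ ∃ B, M₁.IsBase B ∧ M₂.IsBase B ∧ (X : Set S) ⊆ B

/-- `X` is a `k`-feasible set of maximum weight -/
def Optimal {S : Type} (M₁ M₂ : Matroid S) (w : S → ℚ) (k : ℕ) (X : Finset S) : Prop :=
  Feasible M₁ M₂ k X ∧ ∀ Y, Feasible M₁ M₂ k Y → ∑ e ∈ Y, w e ≤ ∑ e ∈ X, w e

/-- total number of bits of the numerators and denominators of the weights -/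
def bitSize {m : ℕ} (w : Fin m → ℚ) : ℕ := ∑ e, ((w e).num.natAbs.size + (w e).den.size)

end Pool.Agent.H36.TopK
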