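import Pool.Agent.H36.VDelDefs
import Pool.Agent.H36.EAdd
import Pool.Agent.H36.Sim

/-!
Set Cover reduces to min-Cost-VERTEX-DEL, preserving approximation ratios up to a factor 2.
-/

namespace Pool.Agent.H36.VDel

open Pool.Agent.H38.NP Pool.Agent.H36.Gr Finset

section General

variable {V : Type} [Fintype V] {G : SimpleGraph V}

def IsM (G : SimpleGraph V) (M : Finset (Sym2 V)) : Prop :=
  (∀ e ∈ M, e ∈ G.edgeSet) ∧ ∀ e ∈ M, ∀ f ∈ M, ∀ v, v ∈ e → v ∈ f → e = f

open Classical in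
theorem weakF (x : Sym2 V → ℝ) (h0 : ∀ e, 0 ≤ x e) (h1 : ∀ e, e ∉ G.edgeSet → x e = 0)
    (h2 : ∀ v, ∑ e with v ∈ e, x e ≤ 1) (y : V → ℝ) (hy0 : ∀ v, 0 ≤ y v)
    (hy : ∀ u v, G.Adj u v → 1 ≤ y u + y v) : ∑ e, x e ≤ ∑ v, y v := by
  calc ∑ e, x e ≤ ∑ e, ∑ v with v ∈ e, x e * y v := sum_le_sum fun e _ => by
        rw [← mul_sum]
        by_cases he : e ∈ G.edgeSet
        · exact le_mul_of_one_le_right (h0 e) (EAdd.edge_le G (fun _ => 1) y hy e he)
        · simp [h1 e he]
    _ = ∑ v, ∑ e with v ∈ e, x e * y v := sum_comm' (by simp)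
    _ ≤ ∑ v, y v := sum_le_sum fun v _ => by
        rw [← sum_mul]
        exact mul_le_of_le_one_left (hy0 v) (h2 v)

theorem nuF_le (y : V → ℝ) (hy0 : ∀ v, 0 ≤ y v) (hy : ∀ u v, G.Adj u v → 1 ≤ y u + y v) :
    nuF G ≤ ∑ v, y v :=
  csSup_le ⟨0, fun _ => 0, by simp⟩ (by rintro _ ⟨x, h0, h1, h2, rfl⟩; exact weakF x h0 h1 h2 y hy0 hy)

open Classical in
theorem le_nuF (M T : Finset (Sym2 V)) (hM : ∀ e ∈ M, e ∈ G.edgeSet) (hT : ∀ e ∈ T, e ∈ G.edgeSet)
    (h : ∀ v, 2 * #{e ∈ M | v ∈ e} + #{e ∈ T | v ∈ e} ≤ 2) :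
    (#M : ℝ) + #T / 2 ≤ nuF G := by
  have k : ∀ (A : Finset (Sym2 V)) (s : Finset (Sym2 V)) (r : ℝ),
      ∑ e ∈ s, (if e ∈ A then r else 0) = #(s ∩ A) * r := fun A s r => by
    rw [sum_ite_mem, sum_const, nsmul_eq_mul]
  refine le_csSup ⟨∑ _ : V, (1 : ℝ), ?_⟩ ⟨fun e => (if e ∈ M then 1 else 0) +
    (if e ∈ T then 1 / 2 else 0), fun e => by positivity, fun e he => ?_, fun v => ?_, ?_⟩
  · rintro _ ⟨x, h0, h1, h2, rfl⟩
    exact weakF x h0 h1 h2 _ (by simp) (by simp)
  · simp only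
    rw [if_neg fun h => he (hM e h), if_neg fun h => he (hT e h), add_zero]
  · rw [sum_add_distrib, k, k]
    have : (2 * #{e ∈ M | v ∈ e} + #{e ∈ T | v ∈ e} : ℝ) ≤ 2 := by exact_mod_cast h v
    have k2 : ∀ A : Finset (Sym2 V), univ.filter (v ∈ ·) ∩ A = A.filter (v ∈ ·) :=
      fun A => by ext; simp [and_comm]
    rw [k2, k2]
    linarith
  · rw [sum_add_distrib, k, k, univ_inter, univ_inter]
    ring

open Classical in
theorem IsM.deg {M} (h : IsM G M) (v : V) : #{e ∈ M | v ∈ e} ≤ 1 :=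
  card_le_one.2 fun e he f hf =>
    h.2 e (mem_filter.1 he).1 f (mem_filter.1 hf).1 v (mem_filter.1 he).2 (mem_filter.1 hf).2

theorem nu_fin : {t : ℝ | ∃ M : Finset (Sym2 V), (∀ e ∈ M, e ∈ G.edgeSet) ∧
    (∀ e ∈ M, ∀ f ∈ M, ∀ v, v ∈ e → v ∈ f → e = f) ∧ t = M.card}.Finite :=
  (Set.finite_range fun M : Finset (Sym2 V) => (M.card : ℝ)).subset
    (by rintro t ⟨M, -, -, rfl⟩; exact ⟨M, rfl⟩)

theorem nu_mem : ∃ M, IsM G M ∧ nu G = #M :=
  let ⟨M, h1, h2, h3⟩ := Set.Nonempty.csSup_mem (by exact ⟨0, ∅, by simp, by simp, by simp⟩)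
    (nu_fin (G := G))
  ⟨M, ⟨h1, h2⟩, h3⟩

theorem stable_of (π : V → V) (hπ : ∀ v, π (π v) = v) (hA : ∀ v, π v ≠ v → G.Adj v (π v))
    (y : V → ℝ) (h0 : ∀ v, 0 ≤ y v) (hy : ∀ u v, G.Adj u v → 1 ≤ y u + y v)
    (h1 : ∀ v, π v = v → y v = 0) (h2 : ∀ v, π v ≠ v → y v + y (π v) = 1) : Stable G := by
  classical
  let M := (univ.filter fun v => π v ≠ v).image fun v => s(v, π v)
  have hM0 : ∀ e ∈ M, ∀ x ∈ e, e = s(x, π x) := by
    intro e he x hx
    obtain ⟨v, hv, rfl⟩ := mem_image.1 he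
    rcases Sym2.mem_iff.1 hx with rfl | rfl
    · rfl
    · rw [hπ, Sym2.eq_swap]
  have hM1 : ∀ e ∈ M, e ∈ G.edgeSet := by
    intro e he
    obtain ⟨v, hv, rfl⟩ := mem_image.1 he
    exact hA v (mem_filter.1 hv).2
  have hM2 : ∀ e ∈ M, ∀ f ∈ M, ∀ v, v ∈ e → v ∈ f → e = f := fun e he f hf v h h' =>
    (hM0 e he v h).trans (hM0 f hf v h').symm
  have heq : ∑ v, y v = #M := by
    rw [EAdd.sum_split M hM2 y, sum_eq_zero (s := univ.filter _), add_zero, card_eq_sum_ones,
      Nat.cast_sum]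
    · refine sum_congr rfl fun e he => ?_
      obtain ⟨v, hv, rfl⟩ := mem_image.1 he
      have hv' := (mem_filter.1 hv).2
      rw [EAdd.sum_edge y hv'.symm, h2 v hv', Nat.cast_one]
    · intro v hv
      refine h1 v (by_contra fun h => (mem_filter.1 hv).2 s(v, π v) ?_ (by simp))
      exact mem_image.2 ⟨v, mem_filter.2 ⟨mem_univ _, h⟩, rfl⟩
  obtain ⟨M', h3, h4⟩ := nu_mem (G := G)
  refine le_antisymm ?_ ((nuF_le y h0 hy).trans (heq ▸ le_csSup nu_fin.bddAbove ⟨M, hM1, hM2, rfl⟩))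
  have := le_nuF M' ∅ h3.1 (by simp) fun v => by have := h3.deg v; simp; omega
  simpa [h4] using this

theorem exposed {M} (hM : IsM G M) (W U : Finset V) (h : ∀ w ∈ W, ∀ u, G.Adj w u → u ∈ U)
    (hc : #U < #W) : ∃ w ∈ W, ∀ e ∈ M, w ∉ e := by
  by_contra hn
  push Not at hn
  have : ∀ w ∈ W, ∃ u, s(w, u) ∈ M := fun w hw => by
    obtain ⟨e, he, hv⟩ := hn w hw
    obtain ⟨u, rfl⟩ := Sym2.mem_iff_exists.1 hv
    exact ⟨u, he⟩
  choose! f hf using this
  refine hc.not_ge (card_le_card_of_injOn f (fun w hw => h w hw _ (hM.1 _ (hf w hw)))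
    fun w hw w' hw' e => ?_)
  have := hM.2 _ (hf w hw) _ (hf w' hw') (f w) (by simp) (by simp [e])
  rw [e] at this
  exact Sym2.congr_left.1 this

theorem unstable {a b c : V} (ab : G.Adj a b) (ac : G.Adj a c) (bc : G.Adj b c)
    (hb : ∀ u, G.Adj b u → u = a ∨ u = c) (hc : ∀ u, G.Adj c u → u = a ∨ u = b)
    (ha : ∀ u, G.Adj a u → u = b ∨ u = c ∨ ∀ M, IsM G M →
      ∃ w, G.Adj u w ∧ w ≠ a ∧ ∀ e ∈ M, w ∉ e) : ¬ Stable G := fun hs => by
  classical
  obtain ⟨M, hM, e⟩ := nu_mem (G := G)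
  have key : ∀ M', IsM G M' → (∀ e ∈ M', a ∉ e ∧ b ∉ e ∧ c ∉ e) → #M' + 2 ≤ #M := by
    intro M' h1 h2
    have n1 := ab.ne
    have n2 := ac.ne
    have n3 := bc.ne
    have hT : #({s(a, b), s(a, c), s(b, c)} : Finset (Sym2 V)) = 3 :=
      card_eq_three.2 ⟨_, _, _, by simp [*], by simp [*], by simp [*], rfl⟩
    have := le_nuF M' {s(a, b), s(a, c), s(b, c)} h1.1 (by simp [*]) fun v => by
      by_cases hv : v = a ∨ v = b ∨ v = c
      · rw [filter_eq_empty_iff.2 fun e he h => by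
          rcases hv with rfl | rfl | rfl <;> simp [h2 e he] at h]
        have := card_lt_card (filter_ssubset (p := fun e => v ∈ e)
          (s := ({s(a, b), s(a, c), s(b, c)} : Finset (Sym2 V))).2 (by
            rcases hv with rfl | rfl | rfl <;> simp [*, n1.symm, n2.symm, n3.symm]))
        simp only [card_empty]
        omega
      · have := h1.deg v
        rw [filter_eq_empty_iff (s := {s(a, b), s(a, c), s(b, c)}).2 (by
          push Not at hv; simp [hv])]
        simp only [card_empty]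
        omega
    rw [hT, ← hs, e] at this
    have : (2 * #M' + 3 : ℝ) ≤ 2 * #M := by push_cast at this; linarith
    have : 2 * #M' + 3 ≤ 2 * #M := by exact_mod_cast this
    omega
  let M0 := {e ∈ M | a ∉ e ∧ b ∉ e ∧ c ∉ e}
  have h0 : IsM G M0 := ⟨fun e he => hM.1 e (mem_filter.1 he).1,
    fun e he f hf => hM.2 e (mem_filter.1 he).1 f (mem_filter.1 hf).1⟩
  have tch : ∀ e ∈ M, e ∈ M0 ∨ a ∈ e ∨ e = s(b, c) := fun e he => by
    by_cases h1 : a ∈ e
    · exact .inr (.inl h1)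
    by_cases h2 : b ∈ e
    · obtain ⟨u, rfl⟩ := Sym2.mem_iff_exists.1 h2
      rcases hb u (hM.1 _ he) with rfl | rfl
      · simp at h1
      · simp
    by_cases h3 : c ∈ e
    · obtain ⟨u, rfl⟩ := Sym2.mem_iff_exists.1 h3
      rcases hc u (hM.1 _ he) with rfl | rfl <;> simp at h1 h2
    · exact .inl (mem_filter.2 ⟨he, h1, h2, h3⟩)
  have one : ∀ f, (∀ e ∈ M, e ∈ M0 ∨ e = f) → False := fun f hf => by
    have h1 := key M0 h0 fun e he => (mem_filter.1 he).2
    have h2 := card_le_card (show M ⊆ insert f M0 from fun e he => mem_insert.2 (hf e he).symm)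
    have := card_insert_le f M0
    omega
  by_cases h : ∃ e ∈ M, a ∈ e
  swap
  · exact one s(b, c) fun e he => (tch e he).imp_right (·.resolve_left fun h' => h ⟨e, he, h'⟩)
  obtain ⟨e, he, h⟩ := h
  obtain ⟨u, rfl⟩ := Sym2.mem_iff_exists.1 h
  have au := hM.1 _ he
  have two : u = b ∨ u = c → False := fun hu => one s(a, u) fun e' he' => (tch e' he').imp_right (by
    rintro (h | rfl)
    · exact hM.2 _ he' _ he a h (by simp)
    · exact hM.2 _ he' _ he u (by simpa using hu) (by simp))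
  obtain ⟨w, h1, h2, h3⟩ := ((ha u au).resolve_left fun h => two (.inl h)).resolve_left
    (fun h => two (.inr h)) M hM
  have hu : ∀ e ∈ M0, u ∉ e := fun e he' h =>
    (mem_filter.1 he').2.1 (hM.2 _ (mem_filter.1 he').1 _ he u h (by simp) ▸ by simp)
  have h4 := key (insert s(u, w) M0) ⟨by simpa using ⟨h1, h0.1⟩, fun e he f hf v h h' => ?_⟩
    fun e he => ?_
  · rw [card_insert_of_notMem fun h => hu _ h (by simp)] at h4
    have h2 := card_le_card (show M ⊆ insert s(a, u) (insert s(b, c) M0) from fun e' he' => by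
      rcases tch e' he' with h | h | h
      · simp [h]
      · simp [hM.2 _ he' _ he a h (by simp)]
      · simp [h])
    have := card_insert_le s(a, u) (insert s(b, c) M0)
    have := card_insert_le s(b, c) M0
    omega
  · have k : ∀ e ∈ M0, ∀ v ∈ s(u, w), v ∉ e := fun e' he' v hv => by
      rcases Sym2.mem_iff.1 hv with h | h <;> rw [h]
      · exact hu e' he'
      · exact h3 e' (mem_filter.1 he').1
    rcases mem_insert.1 he with rfl | he <;> rcases mem_insert.1 hf with rfl | hf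
    · rfl
    · exact (k f hf v h h').elim
    · exact (k e he v h' h).elim
    · exact h0.2 e he f hf v h h'
  · rcases mem_insert.1 he with rfl | he
    · simp only [Sym2.mem_iff, not_or]
      refine ⟨⟨(G.ne_of_adj au), h2.symm⟩, ⟨fun h => two (.inl h.symm), ?_⟩,
        fun h => two (.inr h.symm), ?_⟩
      · rintro rfl
        rcases hb u h1.symm with h | h
        · exact G.ne_of_adj au h.symm
        · exact two (.inr h)
      · rintro rfl
        rcases hc u h1.symm with h | h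
        · exact G.ne_of_adj au h.symm
        · exact two (.inl h)
    · exact (mem_filter.1 he).2

end General

abbrev Cd := ℕ × ℕ × ℕ
abbrev SC := ℕ × List (List ℕ)

def ok (J : SC) (a : Cd) : Bool :=
  decide (a.1 = 0 ∧ a.2.1 < J.1 ∧ a.2.2 < 3) || decide (a.1 = 1 ∧ a.2.1 < J.1 ∧ a.2.2 < J.2.length) ||
    decide (a.1 = 2 ∧ a.2.1 < J.2.length ∧ a.2.2 < 2 * J.1 + 1)

def vs (J : SC) : List Cd :=
  ((List.range 3).product ((List.range (2 * J.1 + J.2.length + 3)).product
    (List.range (2 * J.1 + J.2.length + 3)))).filter (ok J)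

def adj (J : SC) (a b : Cd) : Bool :=
  decide (a.1 = 0 ∧ b.1 = 0 ∧ a.2.1 = b.2.1) ||
  decide (a.1 = 0 ∧ a.2.2 = 0 ∧ b.1 = 1 ∧ a.2.1 = b.2.1 ∧ a.2.1 ∈ J.2.getD b.2.2 []) ||
  decide (a.1 = 1 ∧ b.1 = 2 ∧ a.2.2 = b.2.1)

def wt (J : SC) (a : Cd) : ℕ := if a.1 = 0 then J.1 + 1 else 1

def red (J : SC) : Inst := ((mkG (vs J) (adj J)).1, (mkG (vs J) (adj J)).2, (vs J).map (wt J))

def hv (J : SC) (S : List ℕ) (t i : ℕ) : ℕ :=
  (((List.range (vs J).length).filter fun v => decide (v ∈ S ∧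
    (((vs J).getD v default).1, ((vs J).getD v default).2.1) = (t, i))).map
      fun v => wt J ((vs J).getD v default)).sum

def back (J : SC) (S : List ℕ) : List ℕ :=
  (List.range J.2.length).filter (fun j => decide (J.1 + 1 ≤ hv J S 2 j)) ++
  ((List.range J.1).filter fun e => decide (J.1 + 1 ≤ hv J S 0 e)).map
    fun e => J.2.findIdx fun A => decide (e ∈ A)

variable {J : SC}

theorem mem_vs {a} : a ∈ vs J ↔ (a.1 = 0 ∧ a.2.1 < J.1 ∧ a.2.2 < 3) ∨
    (a.1 = 1 ∧ a.2.1 < J.1 ∧ a.2.2 < J.2.length) ∨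
    (a.1 = 2 ∧ a.2.1 < J.2.length ∧ a.2.2 < 2 * J.1 + 1) := by
  obtain ⟨a, b, c⟩ := a
  simp only [vs, ok, List.mem_filter, List.pair_mem_product, List.mem_range, Bool.or_eq_true,
    decide_eq_true_eq, or_assoc]
  omega

theorem nd : (vs J).Nodup :=
  (List.nodup_range.product (List.nodup_range.product List.nodup_range)).filter _

abbrev GG (J : SC) (S : List ℕ) := (RG (vs J) (adj J)).induce {v | v.val ∉ S}

def cd {S : List ℕ} (v : {v : Fin (vs J).length | v.val ∉ S}) : Cd := code (vs J) v.1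

theorem cd_inj {S} {u v : {v : Fin (vs J).length | v.val ∉ S}} (h : cd u = cd v) : u = v :=
  Subtype.ext (code_inj nd h)

theorem GG_adj {S u v} : (GG J S).Adj u v ↔ cd u ≠ cd v ∧
    (adj J (cd u) (cd v) = true ∨ adj J (cd v) (cd u) = true) := (RG_adj nd).trans GC_adj

theorem cost_eq (S) : cost (red J) S =
    ∑ v ∈ range (vs J).length with v ∈ S, wt J ((vs J).getD v default) :=
  sum_congr rfl fun v hv => by
    have := mem_range.1 (mem_filter.1 hv).1
    simp [red, this]

theorem hv_eq (S t i) : hv J S t i = ∑ v ∈ {v ∈ range (vs J).length | v ∈ S} with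
    (((vs J).getD v default).1, ((vs J).getD v default).2.1) = (t, i),
      wt J ((vs J).getD v default) := by
  rw [hv, ← List.sum_toFinset _ (List.nodup_range.filter _)]
  refine sum_congr ?_ fun _ _ => rfl
  ext v
  simp only [List.mem_toFinset, List.mem_filter, List.mem_range, decide_eq_true_eq, mem_filter,
    mem_range, and_assoc]

theorem back_le (S) : (J.1 + 1) * (back J S).length ≤ cost (red J) S := by
  let A := (List.range J.2.length).filter (fun j => decide (J.1 + 1 ≤ hv J S 2 j))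
  let B := (List.range J.1).filter fun e => decide (J.1 + 1 ≤ hv J S 0 e)
  have hnd : (A.map (Prod.mk 2) ++ B.map (Prod.mk 0)).Nodup :=
    List.nodup_append.2 ⟨(List.nodup_range.filter _).map (Prod.mk_right_injective 2),
      (List.nodup_range.filter _).map (Prod.mk_right_injective 0), by simp⟩
  have h1 := sum_fiberwise_le_sum_of_sum_fiber_nonneg
    (s := {v ∈ range (vs J).length | v ∈ S}) (t := (A.map (Prod.mk 2) ++ B.map (Prod.mk 0)).toFinset)
    (g := fun v => (((vs J).getD v default).1, ((vs J).getD v default).2.1))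
    (f := fun v => wt J ((vs J).getD v default)) fun _ _ => Nat.zero_le _
  rw [cost_eq]
  refine le_trans ?_ h1
  have h2 := card_nsmul_le_sum (A.map (Prod.mk 2) ++ B.map (Prod.mk 0)).toFinset
    (fun p => hv J S p.1 p.2) (J.1 + 1) fun p hp => by
      simp only [A, B, List.mem_toFinset, List.mem_append, List.mem_map, List.mem_filter,
        decide_eq_true_eq] at hp
      rcases hp with ⟨j, h, rfl⟩ | ⟨j, h, rfl⟩ <;> exact h.2
  rw [List.toFinset_card_of_nodup hnd] at h2
  simp only [hv_eq] at h2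
  simpa [back, A, B, mul_comm] using h2

theorem back_cover (hJ : ∃ T, Cover J T) {S} (h : Feas (red J) S) : Cover J (back J S) := by
  classical
  intro e he
  by_contra hn
  simp only [back, List.mem_append, List.mem_filter, List.mem_range, decide_eq_true_eq,
    List.mem_map, not_exists, not_and] at hn
  have h0 : hv J S 0 e < J.1 + 1 := by
    by_contra h0
    obtain ⟨T, hT⟩ := hJ
    obtain ⟨j, -, hj⟩ := hT e he
    have hl : J.2.findIdx (fun A => decide (e ∈ A)) < J.2.length :=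
      List.findIdx_lt_length_of_exists ⟨J.2.getD j [], by
        by_cases h : j < J.2.length
        · simp [h]
        · rw [List.getD_eq_default _ _ (not_lt.1 h)] at hj; simp at hj, by simpa using hj⟩
    refine hn _ (.inr ⟨e, ⟨he, not_lt.1 h0⟩, rfl⟩) ?_
    simpa [hl] using List.findIdx_getElem (w := hl)
  have tri : ∀ k < 3, ∃ v : {v : Fin (vs J).length | v.val ∉ S}, cd v = (0, e, k) := fun k hk => by
    obtain ⟨v, hv⟩ := code_surj (mem_vs.2 (.inl ⟨rfl, he, hk⟩) : (0, e, k) ∈ vs J)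
    refine ⟨⟨v, fun h => h0.not_ge ?_⟩, hv⟩
    rw [hv_eq]
    rw [code] at hv
    exact le_trans (by rw [hv]; rfl) (single_le_sum (f := fun v => wt J ((vs J).getD v default))
      (fun _ _ => Nat.zero_le _) (a := v.val) (by simp [h, -List.getD_eq_getElem?_getD, hv]))
  obtain ⟨a, ha⟩ := tri 0 (by omega)
  obtain ⟨b, hb⟩ := tri 1 (by omega)
  obtain ⟨c, hc⟩ := tri 2 (by omega)
  have t3 : ∀ u, (cd u).1 = 0 → (cd u).2.1 = e → u = a ∨ u = b ∨ u = c := fun u h1 h2 => by
    have h3 : (cd u).2.2 < 3 := by have := mem_vs.1 (code_mem _ u.1); unfold cd at *; omega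
    have : (cd u).2.2 = 0 ∨ (cd u).2.2 = 1 ∨ (cd u).2.2 = 2 := by omega
    exact this.imp (fun h => cd_inj (ha ▸ Prod.ext h1 (Prod.ext h2 h)))
      (Or.imp (fun h => cd_inj (hb ▸ Prod.ext h1 (Prod.ext h2 h)))
        fun h => cd_inj (hc ▸ Prod.ext h1 (Prod.ext h2 h)))
  refine unstable (G := GG J S) (a := a) (b := b) (c := c) (GG_adj.2 (by simp [adj, ha, hb]))
    (GG_adj.2 (by simp [adj, ha, hc])) (GG_adj.2 (by simp [adj, hb, hc])) (fun u hu => ?_)
    (fun u hu => ?_) (fun u hu => ?_) h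
  · have h' := (GG_adj.1 hu).2
    simp [adj, hb] at h'
    exact (t3 u (by omega) (by omega)).imp_right (·.resolve_left hu.ne')
  · have h' := (GG_adj.1 hu).2
    simp [adj, hc] at h'
    exact (t3 u (by omega) (by omega)).imp_right (·.resolve_right hu.ne')
  have h' := (GG_adj.1 hu).2
  by_cases h1 : (cd u).1 = 0
  · simp [adj, ha, h1] at h'
    exact ((t3 u h1 (by omega)).resolve_left hu.ne').imp_right .inl
  refine .inr (.inr fun M hM => ?_)
  have hu : (cd u).1 = 1 ∧ e ∈ J.2.getD (cd u).2.2 [] := by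
    simp [adj, ha, h1] at h'; simpa using ⟨h'.1, h'.2.2⟩
  have hj : (cd u).2.2 < J.2.length := by have := mem_vs.1 (code_mem _ u.1); unfold cd at *; omega
  have h2 : hv J S 2 (cd u).2.2 < J.1 + 1 := not_le.1 fun h => hn _ (.inl ⟨hj, h⟩) hu.2
  generalize hjj : (cd u).2.2 = j at *
  obtain ⟨w, hw, h3⟩ := exposed hM {w | (cd w).1 = 2 ∧ (cd w).2.1 = j}
    {w | (cd w).1 = 1 ∧ (cd w).2.2 = j} (fun w hw x hx => by
      simp only [mem_filter, mem_univ, true_and] at hw ⊢
      have hx := (GG_adj.1 hx).2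
      simp [adj, hw.1] at hx
      omega) (by
      have c1 : #({w | (cd w).1 = 1 ∧ (cd w).2.2 = j} :
          Finset {v : Fin (vs J).length | v.val ∉ S}) ≤ #(range J.1) :=
        card_le_card_of_injOn (fun w => (cd w).2.1) (fun w hw => by
          have := mem_vs.1 (code_mem _ w.1)
          simp only [coe_filter, mem_univ, true_and, Set.mem_ofPred_eq, coe_range,
            Set.mem_Iio] at hw ⊢
          unfold cd at *; omega) fun w hw x hx e => by
          simp only [coe_filter, mem_univ, true_and, Set.mem_ofPred_eq] at hw hx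
          exact cd_inj (Prod.ext (by omega) (Prod.ext e (by omega)))
      rw [hv_eq, sum_congr rfl (g := fun _ => 1) (fun v hv => by
        rw [wt, if_neg (by have := (Prod.ext_iff.1 (mem_filter.1 hv).2).1; omega)]),
        ← card_eq_sum_ones] at h2
      have c2 := card_le_card (s := range (2 * J.1 + 1))
        (t := image (fun w => (cd w).2.2) ({w | (cd w).1 = 2 ∧ (cd w).2.1 = j} :
          Finset {v : Fin (vs J).length | v.val ∉ S}) ∪
          image (fun v => ((vs J).getD v default).2.2) {v ∈ {v ∈ range (vs J).length | v ∈ S} |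
            (((vs J).getD v default).1, ((vs J).getD v default).2.1) = (2, j)}) fun t ht => by
          obtain ⟨v, hv⟩ := code_surj (mem_vs.2 (.inr (.inr ⟨rfl, hj, mem_range.1 ht⟩)) :
            (2, j, t) ∈ vs J)
          by_cases h : v.val ∈ S
          · rw [code] at hv
            exact mem_union_right _ (mem_image.2 ⟨v.val,
              by simp [h, -List.getD_eq_getElem?_getD, hv], by rw [hv]⟩)
          · exact mem_union_left _ (mem_image.2 ⟨⟨v, h⟩, by simp [cd, hv], by simp [cd, hv]⟩)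
      have c3 := (c2.trans (card_union_le _ _)).trans (add_le_add card_image_le card_image_le)
      rw [card_range] at c1 c3
      omega)
  simp only [mem_filter, mem_univ, true_and] at hw
  refine ⟨w, GG_adj.2 ⟨fun h => by have := congrArg Prod.fst h; omega, .inl ?_⟩,
    fun h => by rw [h, ha] at hw; simp at hw, h3⟩
  simp [adj, hu.1, hw.1, hw.2, hjj]

def piC (J : SC) (T : List ℕ) (s : ℕ → ℕ) (a : Cd) : Cd :=
  if a.1 = 0 then (if a.2.2 = 0 then (1, a.2.1, s a.2.1) else (0, a.2.1, 3 - a.2.2))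
  else if a.1 = 1 then (if a.2.2 = s a.2.1 then (0, a.2.1, 0) else if a.2.2 ∈ T then a
    else (2, a.2.2, a.2.1))
  else if a.2.2 < J.1 then (1, a.2.2, a.2.1) else a

noncomputable def yC (T : List ℕ) (a : Cd) : ℝ :=
  if a.1 = 0 then (if a.2.2 = 0 then 1 else 1 / 2) else if a.1 = 1 ∧ a.2.2 ∉ T then 1 else 0

theorem forth {T} (h : Cover J T) : ∃ S, Feas (red J) S ∧ cost (red J) S ≤ (2 * J.1 + 1) * T.length := by
  choose! s hs1 hs2 using h
  have hs3 : ∀ e < J.1, s e < J.2.length := fun e he => by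
    by_contra h
    have := hs2 e he
    rw [List.getD_eq_default _ _ (not_lt.1 h)] at this
    simp at this
  let S := (List.range (vs J).length).filter fun v =>
    decide (((vs J).getD v default).1 = 2 ∧ ((vs J).getD v default).2.1 ∈ T)
  have hS : ∀ v : Fin (vs J).length, v.val ∉ S ↔ ¬ ((code _ v).1 = 2 ∧ (code _ v).2.1 ∈ T) :=
    fun v => by simp only [S, List.mem_filter, List.mem_range, v.2, true_and, decide_eq_true_eq, code]
  refine ⟨S, ?_, ?_⟩
  · let P : Cd → Prop := fun a => a ∈ vs J ∧ ¬ (a.1 = 2 ∧ a.2.1 ∈ T)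
    have hP : ∀ v : {v : Fin (vs J).length | v.val ∉ S}, P (cd v) := fun v =>
      ⟨code_mem _ _, (hS _).1 v.2⟩
    have k : ∀ a, P a → P (piC J T s a) ∧ piC J T s (piC J T s a) = a ∧
        (piC J T s a ≠ a → (adj J a (piC J T s a) = true ∨ adj J (piC J T s a) a = true) ∧
          yC T a + yC T (piC J T s a) = 1) ∧ (piC J T s a = a → yC T a = 0) := by
      rintro ⟨t, i, j⟩ ⟨h1, h2⟩
      rcases mem_vs.1 h1 with ⟨rfl, h3, h4⟩ | ⟨rfl, h3, h4⟩ | ⟨rfl, h3, h4⟩ <;> simp only at h3 h4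
      · have := hs1 i h3
        have := hs2 i h3
        have := hs3 i h3
        interval_cases j <;> simp [P, piC, yC, adj, mem_vs, *, -List.getD_eq_getElem?_getD] <;>
          norm_num
      · have := hs1 i h3
        have := hs2 i h3
        by_cases e : j = s i
        · subst e
          simp [P, piC, yC, adj, mem_vs, *, -List.getD_eq_getElem?_getD]
        · by_cases e' : j ∈ T <;> simp [P, piC, yC, adj, mem_vs, *]
          omega
      · have h2 : i ∉ T := by simpa using h2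
        by_cases e : j < J.1
        · have : i ≠ s j := fun h => h2 (h ▸ hs1 j e)
          simp [P, piC, yC, adj, mem_vs, *]
        · simp [P, piC, yC, adj, mem_vs, *]
          omega
    have ex : ∀ v : {v : Fin (vs J).length | v.val ∉ S},
        ∃ u : {v : Fin (vs J).length | v.val ∉ S}, cd u = piC J T s (cd v) := fun v => by
      obtain ⟨u, hu⟩ := code_surj (k _ (hP v)).1.1
      exact ⟨⟨u, (hS u).2 (hu ▸ (k _ (hP v)).1.2)⟩, hu⟩
    choose π hπ using ex
    have ne : ∀ v, π v ≠ v → piC J T s (cd v) ≠ cd v := fun v h e => h (cd_inj ((hπ v).trans e))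
    refine stable_of (G := GG J S) π (fun v => cd_inj (by rw [hπ, hπ, (k _ (hP v)).2.1]))
      (fun v h => GG_adj.2 (by rw [hπ]; exact ⟨(ne v h).symm, ((k _ (hP v)).2.2.1 (ne v h)).1⟩))
      (fun v => yC T (cd v)) (fun v => by unfold yC; split_ifs <;> norm_num) (fun u v h => ?_)
      (fun v h => (k _ (hP v)).2.2.2 (by rw [← hπ, h]))
      fun v h => by rw [hπ]; exact ((k _ (hP v)).2.2.1 (ne v h)).2
    have key : ∀ a b, P b → adj J a b = true → 1 ≤ yC T a + yC T b := fun a b hb h => by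
      simp only [adj, Bool.or_eq_true, decide_eq_true_eq] at h
      rcases h with (h | h) | h
      · simp only [yC, h.1, h.2.1, if_true]
        split_ifs <;> norm_num
      · simp only [yC, h.1, h.2.1, if_true]
        split_ifs <;> norm_num
      · have : a.2.2 ∉ T := fun h' => hb.2 ⟨h.2.1, h.2.2 ▸ h'⟩
        simp [yC, h.1, h.2.1, this]
    rcases (GG_adj.1 h).2 with h | h
    · exact key _ _ (hP v) h
    · exact add_comm (yC T (cd v)) _ ▸ key _ _ (hP u) h
  · have hm : ∀ v ∈ {v ∈ range (vs J).length | v ∈ S}, ∃ h : v < (vs J).length,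
        (code _ ⟨v, h⟩).1 = 2 ∧ (code _ ⟨v, h⟩).2.1 ∈ T := fun v hv =>
      ⟨mem_range.1 (mem_filter.1 hv).1, not_not.1 fun h => (hS _).2 h (mem_filter.1 hv).2⟩
    rw [cost_eq, sum_congr rfl (g := fun _ => 1) (fun v hv => by
      obtain ⟨h, h1, -⟩ := hm v hv
      rw [wt, if_neg (by unfold code at h1; simp only at h1; omega)]), ← card_eq_sum_ones]
    refine (card_le_card_of_injOn (t := T.toFinset ×ˢ range (2 * J.1 + 1))
      (fun v => ((vs J).getD v default).2) (fun v hv => ?_) fun v hv u hu e => ?_).trans ?_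
    · obtain ⟨h, h1, h2⟩ := hm v hv
      have := mem_vs.1 (code_mem _ ⟨v, h⟩)
      exact mem_coe.2 (mem_product.2 ⟨List.mem_toFinset.2 h2, mem_range.2 (by
        change (code _ ⟨v, h⟩).2.2 < _; omega)⟩)
    · obtain ⟨h, h1, -⟩ := hm v hv
      obtain ⟨h', h2, -⟩ := hm u hu
      exact congrArg Fin.val (code_inj nd (Prod.ext (h1.trans h2.symm) e))
    · rw [card_product, card_range, mul_comm]
      exact Nat.mul_le_mul_left _ (List.toFinset_card_le _)

theorem pt_vs : PT vs := by unfold vs ok; fun_prop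

theorem pt_red : PT red := by
  have h := pt_mkG (adj := adj) pt_vs (by unfold adj; fun_prop)
  have := pt_vs
  exact PT.mk h.fst (PT.mk h.snd (by unfold wt; fun_prop))

theorem pt_hv0 : PT fun q : (List Cd × ℕ) × List ℕ × ℕ × ℕ =>
    (((List.range q.1.1.length).filter fun v => decide (v ∈ q.2.1 ∧
      ((q.1.1.getD v default).1, (q.1.1.getD v default).2.1) = q.2.2)).map
      fun v => if (q.1.1.getD v default).1 = 0 then q.1.2 + 1 else 1).sum := by fun_prop

@[fun_prop] theorem pt_hv {α : Type} [Enc α] {J : α → SC} {S : α → List ℕ} {t i : α → ℕ}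
    (hJ : PT J) (hS : PT S) (ht : PT t) (hi : PT i) : PT fun a => hv (J a) (S a) (t a) (i a) :=
  (pt_hv0.comp (((pt_vs.comp hJ).mk hJ.fst).mk (hS.mk (ht.mk hi)))).of_eq fun _ => rfl

theorem pt_back : PT fun p : SC × List ℕ => back p.1 p.2 := by
  have h : ∀ t, PT fun p : (SC × List ℕ) × ℕ => decide (p.1.1.1 + 1 ≤ hv p.1.1 p.1.2 t p.2) :=
    fun t => PT.le (by fun_prop) (pt_hv (by fun_prop) (by fun_prop) (PT.const _) (by fun_prop))
  exact PT.append (PT.filter (h 2) (by fun_prop))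
    (PT.map (by fun_prop) (PT.filter (h 0) (by fun_prop)))

theorem transfer {α : ℝ} (hα : 0 ≤ α) (h : ApproxVD TwoCosts α) : ApproxSC (2 * α) := by
  obtain ⟨f, hf, h⟩ := h
  have h1 : PT fun J : SC => (Dec.dec (⟨f (enc (red J))⟩ : Bits) : List ℕ) :=
    Dec.pt.comp ((Sim.pt_of_polyTime hf).comp pt_red.raw)
  obtain ⟨g, hg, h2⟩ := (pt_back.comp (PT.id'.mk h1)).polyTimeOn fun _ => True
  refine ⟨g, hg, fun J hJ => ?_⟩
  obtain ⟨S, e, h3, h4⟩ := h (red J) ⟨by simp [red, mkG], J.1 + 1, 1, fun x hx => by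
    obtain ⟨a, -, rfl⟩ := List.mem_map.1 hx
    unfold wt; split_ifs <;> simp⟩
  refine ⟨back J S, by rw [h2 J trivial]; simp only [e]; exact congrArg _ (congrArg _ (Dec.dec_raw S)),
    back_cover hJ h3, fun T hT => ?_⟩
  obtain ⟨S', h5, h6⟩ := forth hT
  have h7 : ((J.1 + 1) * (back J S).length : ℝ) ≤ cost (red J) S := by exact_mod_cast back_le S
  have h8 : (cost (red J) S' : ℝ) ≤ (J.1 + 1) * (2 * T.length) := by
    exact_mod_cast h6.trans (by nlinarith)
  have h9 := (h7.trans (h4 S' h5)).trans (mul_le_mul_of_nonneg_left h8 hα)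
  refine le_of_mul_le_mul_left (a := (J.1 + 1 : ℝ)) (by linarith) (by positivity)

end Pool.Agent.H36.VDel
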