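import Pool.Agent.H38.NP.Defs

/-!
Stable graphs, minimum-cost vertex deletion, set cover, approximation algorithms.
-/

namespace Pool.Agent.H36.VDel

open Pool.Agent.H38.NP

section
variable {V : Type} [Fintype V]

/-- maximum size of a matching (a set of pairwise vertex-disjoint edges) -/
noncomputable def nu (G : SimpleGraph V) : ℝ :=
  sSup {t | ∃ M : Finset (Sym2 V), (∀ e ∈ M, e ∈ G.edgeSet) ∧
    (∀ e ∈ M, ∀ f ∈ M, ∀ v, v ∈ e → v ∈ f → e = f) ∧ t = M.card}

open Classical in
/-- fractional matching number -/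
noncomputable def nuF (G : SimpleGraph V) : ℝ :=
  sSup {t | ∃ x : Sym2 V → ℝ, (∀ e, 0 ≤ x e) ∧ (∀ e, e ∉ G.edgeSet → x e = 0) ∧
    (∀ v, ∑ e with v ∈ e, x e ≤ 1) ∧ t = ∑ e, x e}

/-- stable graphs -/
def Stable (G : SimpleGraph V) : Prop := nu G = nuF G

end

/-- instances of min-Cost-VERTEX-DEL: number of vertices, edge list, list of vertex costs -/
abbrev Inst := ℕ × List (ℕ × ℕ) × List ℕ

/-- deleting the vertices listed in `S` leaves a stable graph -/
def Feas (I : Inst) (S : List ℕ) : Prop :=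
  Stable ((graphOf I.1 I.2.1).induce {v | v.val ∉ S})

/-- total cost of the vertices listed in `S` -/
def cost (I : Inst) (S : List ℕ) : ℕ :=
  ∑ v ∈ Finset.range I.1 with v ∈ S, I.2.2.getD v 0

/-- one cost for each vertex, and at most two different cost values -/
def TwoCosts (I : Inst) : Prop := I.2.2.length = I.1 ∧ ∃ a b, ∀ x ∈ I.2.2, x = a ∨ x = b

/-- a polynomial-time `α`-approximation algorithm for min-Cost-VERTEX-DEL on inputs in `C` -/
def ApproxVD (C : Inst → Prop) (α : ℝ) : Prop :=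
  ∃ f, PolyTime f ∧ ∀ I, C I → ∃ S : List ℕ, f (enc I) = enc S ∧ Feas I S ∧
    ∀ S', Feas I S' → (cost I S : ℝ) ≤ α * cost I S'

/-- the sets with indices in `T` cover the universe `{0, ..., n-1}` -/
def Cover (J : ℕ × List (List ℕ)) (T : List ℕ) : Prop :=
  ∀ e < J.1, ∃ j ∈ T, e ∈ J.2.getD j []

/-- a polynomial-time `β`-approximation algorithm for (unweighted) Set Cover -/
def ApproxSC (β : ℝ) : Prop :=
  ∃ f, PolyTime f ∧ ∀ J : ℕ × List (List ℕ), (∃ T, Cover J T) →
    ∃ T : List ℕ, f (enc J) = enc T ∧ Cover J T ∧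
      ∀ T', Cover J T' → (T.length : ℝ) ≤ β * T'.length

end Pool.Agent.H36.VDel
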