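import Pool.Agent.H36.ZDomDefs
import Pool.Agent.H36.Gr

namespace Pool.Agent.H36.ZDom

open Pool.Agent.H38.NP Pool.Agent.H36.Gr Finset

theorem gammaZ_le {V : Type} [Fintype V] (G : SimpleGraph V) (k : ℕ) :
    gammaZ G ≤ k ↔ ∃ f, IsZDom G f ∧ ∑ v, f v ≤ k := by
  constructor
  · intro h
    by_contra hh
    push Not at hh
    have : (((k + 1 : ℤ) : ℝ) : EReal) ≤ gammaZ G :=
      le_iInf fun f => by exact_mod_cast hh f.1 f.2
    have h2 := this.trans h
    rw [show (k : EReal) = (((k : ℤ) : ℝ) : EReal) by simp] at h2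
    norm_cast at h2
    omega
  · rintro ⟨f, hf, h⟩
    refine (iInf_le _ ⟨f, hf⟩).trans ?_
    rw [show (k : EReal) = (((k : ℤ) : ℝ) : EReal) by simp]
    exact_mod_cast h

abbrev Cd := ℕ × ℕ × ℕ

def co (pts : List (List ℕ)) (m v i : ℕ) : ℕ :=
  if i < pts.length then ((pts.getD i []).contains v).toNat
  else m - pts.countP fun p => p.contains v

def vs (P m nz : ℕ) : List Cd :=
  ((List.range P).flatMap fun i => (List.range (m + 1)).map fun j => (0, i, j)) ++
    ((List.range nz).map (fun v => (1, v, 0)) ++ [(2, 0, 0), (3, 0, 0)])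

def adj (pts : List (List ℕ)) (m : ℕ) (a b : Cd) : Bool :=
  (decide (a.1 = 0) && decide (b.1 = 0) && decide (a.2.1 = b.2.1) &&
    decide (a.2.2 / 2 ≠ b.2.2 / 2)) ||
  (decide (a.1 = 1) && decide (b.1 = 0) && decide (b.2.2 < co pts m a.2.1 b.2.1)) ||
  (decide (a.1 = 1) && decide (b.1 = 2)) || (decide (a.1 = 2) && decide (b.1 = 3))

theorem mem_vs {P m nz : ℕ} {a : Cd} : a ∈ vs P m nz ↔ (a.1 = 0 ∧ a.2.1 < P ∧ a.2.2 < m + 1) ∨
    (a.1 = 1 ∧ a.2.1 < nz ∧ a.2.2 = 0) ∨ a = (2, 0, 0) ∨ a = (3, 0, 0) := by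
  obtain ⟨t, u, j⟩ := a
  simp only [vs, List.mem_append, List.mem_flatMap, List.mem_map, List.mem_range, List.mem_cons,
    Prod.mk.injEq, List.not_mem_nil, or_false]
  constructor
  · rintro (⟨i, h, j', h', e⟩ | ⟨i, h, e⟩ | h) <;> omega
  · rintro (h | h | h)
    · exact Or.inl ⟨u, h.2.1, j, h.2.2, by omega⟩
    · exact Or.inr (Or.inl ⟨u, h.2.1, by omega⟩)
    · exact Or.inr (Or.inr h)

theorem nodup_vs (P m nz : ℕ) : (vs P m nz).Nodup := by
  refine List.nodup_append.2 ⟨List.nodup_flatMap.2 ⟨fun u _ =>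
    List.nodup_range.map fun a b h => by simpa using h, ?_⟩, List.nodup_append.2
    ⟨List.nodup_range.map fun a b h => by simpa using h, by simp, by simp⟩, by simp; omega⟩
  refine List.nodup_range.pairwise_of_forall_ne fun u _ v _ hne => ?_
  simp only [Function.onFun, List.disjoint_left, List.mem_map, not_exists, not_and]
  rintro _ ⟨x, -, rfl⟩ y - e
  simp only [Prod.mk.injEq] at e
  omega

theorem lsum (n : ℕ) (f : ℕ → ℤ) : ((List.range n).map f).sum = ∑ i ∈ range n, f i := by
  induction n with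
  | zero => rfl
  | succ n ih => simp [List.range_succ, sum_range_succ, ih]

theorem sum_vs (P m nz : ℕ) (F : Cd → ℤ) : ∑ c ∈ (vs P m nz).toFinset, F c =
    ∑ i ∈ range P, ∑ j ∈ range (m + 1), F (0, i, j) + ∑ v ∈ range nz, F (1, v, 0) +
      F (2, 0, 0) + F (3, 0, 0) := by
  rw [List.sum_toFinset _ (nodup_vs _ _ _)]
  have : ∀ P, (((List.range P).flatMap fun i => (List.range (m + 1)).map fun j =>
      ((0, i, j) : Cd)).map F).sum = ∑ i ∈ range P, ∑ j ∈ range (m + 1), F (0, i, j) := by
    intro P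
    induction P with
    | zero => rfl
    | succ n ih =>
      rw [List.range_succ (n := n), List.flatMap_append, List.map_append, List.sum_append, ih,
        sum_range_succ]
      simp [Function.comp_def, lsum]
  simp only [vs, List.map_append, List.sum_append, this, List.map_map, Function.comp_def, lsum]
  simp; ring

open Classical in
noncomputable def cs (pts : List (List ℕ)) (m nz : ℕ) (F : Cd → ℤ) (c : Cd) : ℤ :=
  ∑ c' ∈ (vs (pts.length + 1) m nz).toFinset,
    if c' = c ∨ (GC (adj pts m)).Adj c c' then F c' else 0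

theorem zdom_iff (pts : List (List ℕ)) (m nz k : ℕ) :
    gammaZ (RG (vs (pts.length + 1) m nz) (adj pts m)) ≤ k ↔ ∃ F : Cd → ℤ,
      (∀ c ∈ vs (pts.length + 1) m nz, 1 ≤ cs pts m nz F c) ∧
        ∑ c ∈ (vs (pts.length + 1) m nz).toFinset, F c ≤ k := by
  classical
  have nd := nodup_vs (pts.length + 1) m nz
  have key : ∀ (F : Cd → ℤ), (IsZDom (RG (vs (pts.length + 1) m nz) (adj pts m))
      (fun v => F (code _ v)) ∧ ∑ v, F (code (vs (pts.length + 1) m nz) v) ≤ k) ↔
      (∀ c ∈ vs (pts.length + 1) m nz, 1 ≤ cs pts m nz F c) ∧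
        ∑ c ∈ (vs (pts.length + 1) m nz).toFinset, F c ≤ k := by
    intro F
    rw [sum_code nd]
    refine and_congr_left fun _ => ?_
    have e : ∀ v, (∑ u with u = v ∨ (RG (vs (pts.length + 1) m nz) (adj pts m)).Adj v u,
        F (code _ u)) = cs pts m nz F (code _ v) := by
      intro v
      rw [cs, ← sum_code nd, sum_filter]
      refine sum_congr rfl fun u _ => ?_
      simp only [RG_adj nd, (code_inj nd).eq_iff]
    constructor
    · intro h c hc
      obtain ⟨v, rfl⟩ := code_surj hc
      rw [← e]; convert h v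
    · intro h v
      convert h _ (code_mem _ v) using 1
      rw [← e]; congr
  rw [gammaZ_le]
  constructor
  · rintro ⟨f, hf⟩
    refine ⟨fun c => if h : c ∈ vs (pts.length + 1) m nz then f (ix nd c h) else 0, (key _).1 ?_⟩
    simpa [code_mem] using hf
  · rintro ⟨F, hF⟩
    exact ⟨_, (key F).2 hF⟩

def pt (j : ℕ) : ℕ := if j % 2 = 0 then j + 1 else j - 1

theorem pt_pt (j : ℕ) : pt (pt j) = j := by unfold pt; split_ifs <;> omega

theorem sum_pt {m : ℕ} (hm : m % 2 = 1) (f : ℕ → ℤ) :
    ∑ j ∈ range (m + 1), f (pt j) = ∑ j ∈ range (m + 1), f j := by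
  have : ∀ j ∈ range (m + 1), pt j ∈ range (m + 1) := by
    intro j hj
    simp only [mem_range, pt] at hj ⊢
    split_ifs <;> omega
  exact sum_nbij' pt pt this this (fun j _ => pt_pt j) (fun j _ => pt_pt j) fun _ _ => rfl

variable {pts : List (List ℕ)} {m nz : ℕ}

theorem cs0 (hm : m % 2 = 1) (F : Cd → ℤ) {i j : ℕ} (hi : i < pts.length + 1) (hj : j < m + 1) :
    cs pts m nz F (0, i, j) = ∑ j' ∈ range (m + 1), F (0, i, j') - F (0, i, pt j) +
      ∑ v ∈ range nz, if j < co pts m v i then F (1, v, 0) else 0 := by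
  have hp : pt j ∈ range (m + 1) := by
    simp only [mem_range, pt]; split_ifs <;> omega
  rw [cs, sum_vs, sum_eq_single i _ (by simp; omega), ← sum_erase_eq_sub hp,
    ← add_sum_erase _ _ hp, if_neg]
  · simp only [GC_adj, adj]
    simp only [Prod.mk.injEq, true_and, ne_eq, decide_true, Bool.true_and, Bool.or_eq_true]
    simp
    refine sum_congr rfl fun j' hj' => if_pos ?_
    simp only [mem_erase, pt] at hj'
    split_ifs at hj' <;> omega
  · simp [GC_adj, adj, pt]
    split_ifs <;> omega
  · intro i' _ hne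
    refine sum_eq_zero fun j' _ => if_neg ?_
    simp [GC_adj, adj, hne, hne.symm]

theorem cs1 (F : Cd → ℤ) {v : ℕ} (hv : v < nz) :
    cs pts m nz F (1, v, 0) = ∑ i ∈ range (pts.length + 1), ∑ j ∈ range (m + 1),
      (if j < co pts m v i then F (0, i, j) else 0) + F (1, v, 0) + F (2, 0, 0) := by
  rw [cs, sum_vs, sum_eq_single v (s := range nz) _ (by simp; omega)]
  · simp [GC_adj, adj]
  · intro w _ hne
    simp [GC_adj, adj, hne]

theorem cs2 (F : Cd → ℤ) :
    cs pts m nz F (2, 0, 0) = ∑ v ∈ range nz, F (1, v, 0) + F (2, 0, 0) + F (3, 0, 0) := by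
  rw [cs, sum_vs]
  simp [GC_adj, adj]

theorem cs3 (F : Cd → ℤ) : cs pts m nz F (3, 0, 0) = F (2, 0, 0) + F (3, 0, 0) := by
  rw [cs, sum_vs]
  simp [GC_adj, adj]

theorem co_sum (h : pts.length < m) (v : ℕ) :
    ∑ i ∈ range (pts.length + 1), (co pts m v i : ℤ) = m := by
  have e : ∀ pts : List (List ℕ), ∑ i ∈ range pts.length,
      (((pts.getD i []).contains v).toNat : ℤ) = pts.countP fun p => p.contains v := by
    intro pts
    induction pts with
    | nil => simp
    | cons p l ih =>
      rw [List.length_cons, sum_range_succ', List.countP_cons]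
      simp only [List.getD_cons_succ, ih, List.getD_cons_zero]
      cases p.contains v <;> simp
  have := List.countP_le_length (p := fun p : List ℕ => p.contains v) (l := pts)
  rw [sum_range_succ, sum_congr rfl (g := fun i => (((pts.getD i []).contains v).toNat : ℤ))
    fun i hi => by simp [co, mem_range.1 hi], e]
  simp only [co, lt_irrefl, if_false]
  omega

theorem co_le (v i : ℕ) : co pts m v i ≤ m + 1 := by
  unfold co
  split_ifs
  · cases (pts.getD i []).contains v <;> simp
  · omega

theorem load_sum (g : ℕ → ℤ) (i : ℕ) :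
    ∑ j ∈ range (m + 1), ∑ v ∈ range nz, (if j < co pts m v i then g v else 0) =
      ∑ v ∈ range nz, co pts m v i * g v := by
  rw [sum_comm]
  refine sum_congr rfl fun v _ => ?_
  rw [← sum_filter, sum_const, show filter (fun j => j < co pts m v i) (range (m + 1)) =
    range (co pts m v i) by ext; have := co_le (pts := pts) (m := m) v i; simp; omega]
  simp

theorem load_tot (h : pts.length < m) (g : ℕ → ℤ) :
    ∑ i ∈ range (pts.length + 1), ∑ v ∈ range nz, co pts m v i * g v =
      m * ∑ v ∈ range nz, g v := by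
  rw [sum_comm, mul_sum]
  exact sum_congr rfl fun v _ => by rw [← sum_mul, co_sum h]

theorem load_pt (hp : ∀ p ∈ pts, p.Nodup ∧ ∀ x ∈ p, x < nz) (g : ℕ → ℤ) {i : ℕ}
    (hi : i < pts.length) : ∑ v ∈ range nz, co pts m v i * g v = ((pts.getD i []).map g).sum := by
  obtain ⟨h1, h2⟩ := hp (pts.getD i []) (by rw [List.getD_eq_getElem _ _ hi]; simp)
  rw [← List.sum_toFinset _ h1, ← sum_subset (s₁ := (pts.getD i []).toFinset)]
  · refine sum_congr rfl fun v hv => ?_
    have : (pts.getD i []).contains v = true := by simpa using hv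
    simp only [co, hi, if_true, this]; simp
  · intro v hv
    exact mem_range.2 (h2 v (by simpa using hv))
  · intro v _ hv
    have : (pts.getD i []).contains v = false := by simpa using hv
    simp only [co, hi, if_true, this]; simp

theorem sum_pts (f : List ℕ → ℤ) : ∑ i ∈ range pts.length, f (pts.getD i []) = (pts.map f).sum := by
  induction pts with
  | nil => simp
  | cons p l ih => rw [List.length_cons, sum_range_succ']; simp [← ih, add_comm]

theorem lemA1 (hm : m % 2 = 1) (h : pts.length < m) (hp : ∀ p ∈ pts, p.Nodup ∧ ∀ x ∈ p, x < nz)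
    (H : gammaZ (RG (vs (pts.length + 1) m nz) (adj pts m)) ≤ (pts.length + 3 : ℕ)) :
    ∃ g : ℕ → ℤ, (pts.map fun p => ((p.map g).sum - 1) % (m : ℤ)).sum + pts.length + 1 ≤ (m : ℤ) := by
  obtain ⟨F, h1, h2⟩ := (zdom_iff _ _ _ _).1 H
  refine ⟨fun v => F (1, v, 0), ?_⟩
  let S : ℕ → ℤ := fun i => ∑ j ∈ range (m + 1), F (0, i, j)
  let L : ℕ → ℤ := fun i => ∑ v ∈ range nz, co pts m v i * F (1, v, 0)
  have a1 : ∀ i < pts.length + 1, (m + 1 : ℤ) ≤ m * S i + L i := by
    intro i hi
    have := sum_le_sum (s := range (m + 1)) fun j hj =>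
      (h1 (0, i, j) (mem_vs.2 (Or.inl ⟨rfl, hi, mem_range.1 hj⟩))).trans_eq
        (cs0 hm F hi (mem_range.1 hj))
    rw [sum_add_distrib, sum_sub_distrib, sum_pt hm fun j => F (0, i, j),
      load_sum (fun v => F (1, v, 0))] at this
    simp only [sum_const, card_range, nsmul_eq_mul] at this
    push_cast at this
    simp only [S, L]
    linarith
  have a2 : ∀ i ∈ range pts.length, (((pts.getD i []).map fun v => F (1, v, 0)).sum - 1) % m ≤
      m * S i + L i - (m + 1) := by
    intro i hi
    have hi := mem_range.1 hi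
    rw [← load_pt (m := m) hp _ hi]
    have := a1 i (by omega)
    have e : (L i - 1) % m = (m * S i + L i - (m + 1)) % m := by
      rw [show m * S i + L i - (m + 1) = L i - 1 + m * (S i - 1) by ring, Int.add_mul_emod_self_left]
    refine e.trans_le ?_
    have h0 := Int.emod_add_mul_ediv (m * S i + L i - (m + 1)) m
    have h1 : 0 ≤ (m : ℤ) * ((m * S i + L i - (m + 1)) / m) :=
      mul_nonneg (by positivity) (Int.ediv_nonneg (by omega) (by positivity))
    omega
  have a3 := sum_le_sum a2
  rw [sum_pts fun p => ((p.map fun v => F (1, v, 0)).sum - 1) % m] at a3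
  have a4 := a1 _ (Nat.lt_succ_self _)
  have a5 : ∑ i ∈ range (pts.length + 1), (m * S i + L i - (m + 1)) =
      m * (∑ i ∈ range (pts.length + 1), S i + ∑ v ∈ range nz, F (1, v, 0)) -
        (pts.length + 1) * (m + 1) := by
    rw [sum_sub_distrib, sum_add_distrib, ← mul_sum, load_tot h]
    simp; ring
  rw [sum_range_succ] at a5
  have a6 := (h1 _ (mem_vs.2 (Or.inr (Or.inr (Or.inr rfl))))).trans_eq (cs3 F)
  rw [sum_vs] at h2
  have a7 : (m : ℤ) * (∑ i ∈ range (pts.length + 1), S i + ∑ v ∈ range nz, F (1, v, 0)) ≤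
      m * (pts.length + 2) := mul_le_mul_of_nonneg_left (by push_cast at h2; simp only [S]; linarith)
        (by positivity)
  nlinarith

theorem lemA2 (hm : m % 2 = 1) (h : pts.length < m) (hp : ∀ p ∈ pts, p.Nodup ∧ ∀ x ∈ p, x < nz)
    (g : ℕ → ℤ) (g0 : ∀ v, 0 ≤ g v) (g1 : ∀ p ∈ pts, 1 ≤ (p.map g).sum)
    (g2 : (pts.map fun p => (p.map g).sum).sum + 1 ≤ m) :
    gammaZ (RG (vs (pts.length + 1) m nz) (adj pts m)) ≤ (pts.length + 3 : ℕ) := by
  let L : ℕ → ℤ := fun i => ∑ v ∈ range nz, co pts m v i * g v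
  let S : ℕ → ℤ := fun i => if i < pts.length then 1 else 2 - ∑ v ∈ range nz, g v
  let r : ℕ → ℤ := fun i => m * S i + L i - (m + 1)
  have hL := load_tot (nz := nz) h g
  rw [sum_range_succ, sum_congr rfl fun i hi => load_pt hp g (mem_range.1 hi),
    sum_pts fun p => (p.map g).sum] at hL
  have hr : ∀ i < pts.length + 1, 0 ≤ r i := by
    intro i hi
    by_cases e : i < pts.length
    · have := g1 (pts.getD i []) (by rw [List.getD_eq_getElem _ _ e]; simp)
      simp only [r, S, L, e, if_true, load_pt hp g e]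
      linarith
    · obtain rfl : i = pts.length := by omega
      simp only [r, S, L, e, if_false]
      linarith
  let F0 : ℕ → ℕ → ℤ := fun i j => S i - 1 - (if pt j = 0 then r i else 0) +
    ∑ v ∈ range nz, if pt j < co pts m v i then g v else 0
  have hS : ∀ i, ∑ j ∈ range (m + 1), F0 i j = S i := by
    intro i
    rw [sum_pt hm fun j => S i - 1 - (if j = 0 then r i else 0) +
      ∑ v ∈ range nz, if j < co pts m v i then g v else 0, sum_add_distrib, load_sum,
      sum_sub_distrib]
    simp [r, L]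
    ring
  let B : ℤ := 1 + ∑ v ∈ range nz, |∑ i ∈ range (pts.length + 1), ∑ j ∈ range (m + 1),
      (if j < co pts m v i then F0 i j else 0)|
  refine (zdom_iff _ _ _ _).2 ⟨fun c => if c.1 = 0 then F0 c.2.1 c.2.2 else if c.1 = 1 then
    g c.2.1 else if c.1 = 2 then B else 1 - B, ?_, ?_⟩
  · rintro ⟨t, i, j⟩ hc
    rcases mem_vs.1 hc with ⟨h0, hi, hj⟩ | ⟨h0, hi, hj⟩ | e | e
    · simp only at h0 hi hj
      subst h0
      rw [cs0 hm _ hi hj]
      have := hr i hi
      simp only [if_true, hS, one_ne_zero, if_false]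
      simp only [F0, pt_pt]
      split_ifs <;> linarith
    · simp only at h0 hi hj
      subst h0 hj
      rw [cs1 _ hi]
      have := single_le_sum (f := fun v => |∑ i ∈ range (pts.length + 1), ∑ j ∈ range (m + 1),
        (if j < co pts m v i then F0 i j else 0)|) (fun _ _ => abs_nonneg _) (mem_range.2 hi)
      have h3 := neg_abs_le (∑ i' ∈ range (pts.length + 1), ∑ j ∈ range (m + 1),
        (if j < co pts m i i' then F0 i' j else 0))
      have := g0 i
      simp [B]
      linarith
    · rw [e, cs2]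
      have := sum_nonneg (s := range nz) fun v _ => g0 v
      simp
      linarith
    · rw [e, cs3]
      simp
  · rw [sum_vs]
    simp only [if_true, hS, one_ne_zero, if_false]
    rw [sum_range_succ, sum_congr rfl (g := fun _ => (1 : ℤ)) fun i hi => by
      simp [S, mem_range.1 hi]]
    simp [S]
    linarith

def fE (n : ℕ) (E : List (ℕ × ℕ)) : List (ℕ × ℕ) :=
  E.filter fun e => decide (e.1 < n) && decide (e.2 < n) && !decide (e.1 = e.2)

def ptsOf (n : ℕ) (E : List (ℕ × ℕ)) (W K : ℕ) : List (List ℕ) :=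
  List.replicate K [n] ++ (((List.range n).flatMap fun v => List.replicate W [v, n]) ++
    E.map fun e => [e.1, e.2])

theorem sum_ptsOf (n : ℕ) (E : List (ℕ × ℕ)) (W K : ℕ) (f : List ℕ → ℤ) :
    ((ptsOf n E W K).map f).sum = K * f [n] + W * ∑ v ∈ range n, f [v, n] +
      (E.map fun e => f [e.1, e.2]).sum := by
  have : ∀ k, (((List.range k).flatMap fun v => List.replicate W [v, n]).map f).sum =
      W * ∑ v ∈ range k, f [v, n] := by
    intro k
    induction k with
    | zero => simp
    | succ k ih => simp [List.range_succ, List.flatMap_append, sum_range_succ, mul_add, ← ih]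
  simp only [ptsOf, List.map_append, List.sum_append, this, List.map_map, Function.comp_def]
  simp [add_assoc]

theorem main (n : ℕ) (E : List (ℕ × ℕ)) (k : ℕ) (hk : k ≤ n) (W T K m : ℕ) (pts : List (List ℕ))
    (hW : W = 2 * (fE n E).length + 2) (hT : T = W * (n - k) + (fE n E).length)
    (hK : K = 2 * T + 2) (hpts : pts = ptsOf n (fE n E) W K) (hm : m = pts.length + 1 + T) :
    (∃ S, IndepN n E S ∧ k ≤ S.card) ↔
      gammaZ (RG (vs (pts.length + 1) m (n + 1)) (adj pts m)) ≤ (pts.length + 3 : ℕ) := by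
  have hlen : pts.length = K + W * n + (fE n E).length := by
    have := sum_ptsOf n (fE n E) W K fun _ => 1
    rw [← hpts] at this
    simp at this
    exact_mod_cast this
  have hodd : m % 2 = 1 := by
    rw [hm, hlen, hK, hT, hW]
    have := Nat.mul_assoc 2 ((fE n E).length + 1) n
    have := Nat.mul_assoc 2 ((fE n E).length + 1) (n - k)
    rw [show 2 * (fE n E).length + 2 = 2 * ((fE n E).length + 1) by ring]
    omega
  have hE : ∀ e ∈ fE n E, e ∈ E ∧ e.1 < n ∧ e.2 < n ∧ e.1 ≠ e.2 := by
    simp +contextual [fE]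
  have hp : ∀ p ∈ pts, p.Nodup ∧ ∀ x ∈ p, x < n + 1 := by
    intro p hp
    simp only [hpts, ptsOf, List.mem_append, List.mem_replicate, List.mem_flatMap, List.mem_range,
      List.mem_map] at hp
    rcases hp with ⟨-, rfl⟩ | ⟨v, hv, -, rfl⟩ | ⟨e, he, rfl⟩
    · simp
    · simp; omega
    · have := hE e he
      simp; omega
  have hc : ∀ σ : ℕ → Prop, ∀ [DecidablePred σ], ∑ v ∈ range n, (if σ v then (0 : ℤ) else 1) +
      ((range n).filter σ).card = n := by
    intro σ _
    have := card_filter_add_card_filter_not (s := range n) σ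
    simp [sum_ite]
    simp at this
    omega
  have hnk : ((n - k : ℕ) : ℤ) = n - k := by omega
  constructor
  · rintro ⟨S, hS, hc'⟩
    have e1 := hc (· ∈ S)
    rw [show (range n).filter (· ∈ S) = S by ext v; simpa using hS.1 v] at e1
    have hn : n ∉ S := fun h => lt_irrefl _ (hS.1 n h)
    refine lemA2 hodd (by omega) hp (fun v => if v ∈ S then 0 else 1) (fun v => by
      split_ifs <;> simp) ?_ ?_
    · intro p hp
      simp only [hpts, ptsOf, List.mem_append, List.mem_replicate, List.mem_flatMap,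
        List.mem_range, List.mem_map] at hp
      rcases hp with ⟨-, rfl⟩ | ⟨v, hv, -, rfl⟩ | ⟨e, he, rfl⟩
      · simp [hn]
      · simp [hn]; split_ifs <;> simp
      · have := hE e he
        have := fun a b => hS.2 _ a _ b this.2.2.2 this.1
        simp; split_ifs <;> simp_all
    · rw [hpts, sum_ptsOf]
      have := List.sum_le_card_nsmul ((fE n E).map fun e => ([e.1, e.2].map
        fun v => if v ∈ S then (0 : ℤ) else 1).sum) 2 (by
          simp only [List.forall_mem_map]; intro e _; simp; split_ifs <;> simp)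
      simp only [List.map_cons, List.map_nil, List.sum_cons, List.sum_nil, hn, if_false, add_zero,
        sum_add_distrib, List.length_map, nsmul_eq_mul] at this ⊢
      have h3 : (W : ℤ) * (∑ v ∈ range n, if v ∈ S then (0 : ℤ) else 1) ≤ W * (n - k) :=
        mul_le_mul_of_nonneg_left (by omega) (by positivity)
      rw [hm, hlen, hT]
      push_cast [hnk]
      simp only [sum_const, card_range, nsmul_eq_mul]
      linarith
  · intro H
    obtain ⟨g, hg⟩ := lemA1 hodd (by omega) hp H
    have m0 : (m : ℤ) ≠ 0 := by omega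
    have n0 := fun x => Int.emod_nonneg x m0
    nth_rewrite 1 [hpts] at hg
    rw [sum_ptsOf] at hg
    simp only [List.map_cons, List.map_nil, List.sum_cons, List.sum_nil, add_zero] at hg
    have b1 := sum_nonneg (s := range n) fun v _ => n0 (g v + g n - 1)
    have b2 : 0 ≤ (W : ℤ) * _ := mul_nonneg (by positivity) b1
    have b3 := List.sum_nonneg (l := (fE n E).map fun e => (g e.1 + g e.2 - 1) % m)
      (by simp only [List.forall_mem_map]; exact fun _ _ => n0 _)
    have b4 : (g n - 1) % m = 0 := by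
      by_contra hh
      have := mul_le_mul_of_nonneg_left (show 1 ≤ (g n - 1) % m by have := n0 (g n - 1); omega)
        (show (0 : ℤ) ≤ K by positivity)
      omega
    have b5 : ∀ v, (g v + g n - 1) % m = g v % m := fun v => by
      rw [add_sub_assoc, Int.add_emod, b4]; simp
    simp only [b4, b5] at hg b2
    refine ⟨(range n).filter fun v => g v % m = 0, ⟨by simp +contextual, fun u hu v hv hne he => ?_⟩,
      ?_⟩
    · simp only [mem_filter, mem_range] at hu hv
      have := List.single_le_sum (l := (fE n E).map fun e => (g e.1 + g e.2 - 1) % m)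
        (by simp only [List.forall_mem_map]; exact fun _ _ => n0 _) _
        (List.mem_map_of_mem (a := (u, v)) (by simp [fE, he, hu.1, hv.1, hne]))
      have e : (g u + g v - 1) % m = m - 1 := by
        rw [Int.sub_emod, Int.add_emod, hu.2, hv.2]
        simp only [add_zero, Int.zero_emod, zero_sub]
        rw [Int.emod_eq_of_lt (a := 1) (by omega) (by omega), ← Int.add_emod_right,
          Int.emod_eq_of_lt] <;> omega
      simp only [e] at this
      omega
    · have e1 := hc fun v => g v % m = 0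
      have e2 : ∑ v ∈ range n, (if g v % m = 0 then (0 : ℤ) else 1) ≤ ∑ v ∈ range n, g v % m :=
        sum_le_sum fun v _ => by have := n0 (g v); split_ifs <;> omega
      by_contra hh
      have := mul_le_mul_of_nonneg_left (show (n - k + 1 : ℤ) ≤ ∑ v ∈ range n, g v % m by omega)
        (show (0 : ℤ) ≤ W by positivity)
      have e3 : (T : ℤ) = W * (n - k) + (fE n E).length := by rw [hT]; push_cast [hnk]; rfl
      rw [mul_add] at this
      omega

def tT (p : ℕ × List (ℕ × ℕ) × ℕ) : ℕ :=
  (2 * (fE p.1 p.2.1).length + 2) * (p.1 - p.2.2) + (fE p.1 p.2.1).length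

def tP (p : ℕ × List (ℕ × ℕ) × ℕ) : List (List ℕ) :=
  ptsOf p.1 (fE p.1 p.2.1) (2 * (fE p.1 p.2.1).length + 2) (2 * tT p + 2)

theorem hard : NPH (fun _ : (ℕ × List (ℕ × ℕ)) × ℕ => True)
    (fun p => gammaZ (graphOf p.1.1 p.1.2) ≤ p.2) := by
  have h1 : PT tT := by unfold tT fE; fun_prop
  have h2 : PT tP := by unfold tP ptsOf fE; fun_prop
  refine indep_nph.reduce (fun p => (mkG (vs ((tP p).length + 1) ((tP p).length + 1 + tT p) (p.1 + 1))
    (adj (tP p) ((tP p).length + 1 + tT p)), (tP p).length + 3)) ?_ ?_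
  · refine PT.mk (pt_mkG ?_ ?_) (by fun_prop)
    · unfold vs; fun_prop
    · unfold adj co; fun_prop
  rintro ⟨n, E, k⟩ ⟨h1, h2⟩
  simp only at h1 h2
  refine ⟨trivial, Iff.trans ?_ (main n E k (by omega) _ _ _ _ _ rfl rfl rfl rfl rfl)⟩
  exact exists_congr fun S => and_congr_right fun hS =>
    ⟨fun h => h.ge, fun h => le_antisymm (h2 S hS) h⟩

end Pool.Agent.H36.ZDom
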