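import Pool.Agent.H38.NP.Defs

namespace Pool.Agent.H36.ZDom

variable {V : Type} [Fintype V]

open Classical in
/-- `f(N[v]) ≥ 1` for every vertex `v` -/
def IsZDom (G : SimpleGraph V) (f : V → ℤ) : Prop :=
  ∀ v, 1 ≤ ∑ u with u = v ∨ G.Adj v u, f u

/-- the integer domination number, an infimum in the extended reals -/
noncomputable def gammaZ (G : SimpleGraph V) : EReal :=
  ⨅ f : {f : V → ℤ // IsZDom G f}, (((∑ v, f.1 v : ℤ) : ℝ) : EReal)

end Pool.Agent.H36.ZDom
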